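import Mathlib
import Pool.Agent.Lib.MP_216314_pr.P.PBase
import Pool.Agent.Lib.MP_25e40f_pr.A.Prb

/-!
# Near-critical bond percolation on the square lattice: definitions

`IPC.Pr q E A`: probability of `A` when the edges of `E` are open with probability `q`.
`hq q a b`: probability of an open horizontal crossing of `[0,a] × [0,b]`; `RS ε q N`: the squares of side `n ≤ N` are
crossed with probability in `[ε, 1 - ε]`.
Arm events: `One r`, `One' r R` (one open arm to distance `r`, across the annulus), `Four r` (four arms from the edge `e0 = {(0,0), (1,0)}`: its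
ends are connected to distance `r` by two different clusters), `Four' r R` (two different clusters cross the annulus).
The torus of side `2 m + 1`: `TE m` its edges, `cm` reduction of an edge, `tgr m ω` the lifted graph on `ℤ²`,
`W m`: there is a non contractible open loop; `Gz m`: the cluster of `(0,0)` contains one.  `rho q m`: probability that `e0` is pivotal for `W m`.
-/

set_option autoImplicit false

noncomputable section

namespace FKN

open Finset FKI FKP

/-- probability of a horizontal crossing -/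
def hq (q : ℝ) (a b : ℕ) : ℝ := IPC.Pr q (box 0 a 0 b) (HC 0 a 0 b)

/-- crossing bounds for squares up to scale `N` -/
def RS (ε q : ℝ) (N : ℕ) : Prop := ∀ n : ℕ, 1 ≤ n → n ≤ N → ε ≤ hq q n n ∧ hq q n n ≤ 1 - ε

/-- the sup norm -/
def nrm (v : V) : ℤ := max |v.1| |v.2|

/-- edges of the box `[-r,r]²` -/
def bx (r : ℕ) : Finset Edge := box (-r) r (-r) r

/-- edges of the annulus -/
def an (r R : ℕ) : Finset Edge := bx R \ bx r

/-- the edge at the origin -/
def e0 : Edge := (0, 0, false)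

/-- one arm to distance `r` -/
def One (r : ℕ) (ω : Finset Edge) : Prop := ∃ u : V, nrm u = r ∧ Conn (bx r) ω (0, 0) u

/-- one arm across the annulus -/
def One' (r R : ℕ) (ω : Finset Edge) : Prop :=
  ∃ u w : V, nrm u = r ∧ nrm w = R ∧ Conn (an r R) ω u w

/-- four arms from `e0` to distance `r`: two clusters -/
def Four (r : ℕ) (ω : Finset Edge) : Prop :=
  (∃ u : V, nrm u = r ∧ Conn (bx r \ {e0}) ω (0, 0) u) ∧ (∃ u : V, nrm u = r ∧ Conn (bx r \ {e0}) ω (1, 0) u) ∧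
    ¬ Conn (bx r \ {e0}) ω (0, 0) (1, 0)

/-- four arms across the annulus: two crossing clusters -/
def Four' (r R : ℕ) (ω : Finset Edge) : Prop :=
  ∃ u u' : V, nrm u = r ∧ nrm u' = r ∧ (∃ w : V, nrm w = R ∧ Conn (an r R) ω u w) ∧
    (∃ w : V, nrm w = R ∧ Conn (an r R) ω u' w) ∧ ¬ Conn (an r R) ω u u'

/-- one arm probability -/
def p1 (q : ℝ) (r : ℕ) : ℝ := IPC.Pr q (bx r) (One r)
/-- one arm probability of the annulus -/
def p1' (q : ℝ) (r R : ℕ) : ℝ := IPC.Pr q (an r R) (One' r R)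
/-- four arm probability -/
def p4 (q : ℝ) (r : ℕ) : ℝ := IPC.Pr q (bx r) (Four r)
/-- four arm probability of the annulus -/
def p4' (q : ℝ) (r R : ℕ) : ℝ := IPC.Pr q (an r R) (Four' r R)

/-- representative in `[-m, m]` modulo `2 m + 1` -/
def bal (m : ℕ) (x : ℤ) : ℤ := (x + m) % (2 * m + 1) - m

/-- representative of an edge of the torus -/
def cm (m : ℕ) (e : Edge) : Edge := (bal m e.1, bal m e.2.1, e.2.2)

/-- edges of the torus of side `2 m + 1` -/
def TE (m : ℕ) : Finset Edge := Icc (-(m : ℤ)) m ×ˢ (Icc (-(m : ℤ)) m ×ˢ univ)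

/-- the lifted graph -/
def tgr (m : ℕ) (ω : Finset Edge) : SimpleGraph V :=
  SimpleGraph.fromRel (fun u v => ∃ e : Edge, cm m e ∈ ω ∧ ea e = u ∧ eb e = v)

/-- the vector `(2 m + 1) w` -/
def pr (m : ℕ) (w : V) : V := ((2 * m + 1) * w.1, (2 * m + 1) * w.2)

/-- the torus contains a non contractible open loop -/
def W (m : ℕ) (ω : Finset Edge) : Prop := ∃ v w : V, w ≠ 0 ∧ (tgr m ω).Reachable v (v + pr m w)

/-- the cluster of the origin contains a non contractible open loop -/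
def Gz (m : ℕ) (ω : Finset Edge) : Prop := ∃ w : V, w ≠ 0 ∧ (tgr m ω).Reachable 0 (pr m w)

/-- `e` is pivotal for the increasing event `A` -/
def Piv (e : Edge) (A : Finset Edge → Prop) (ω : Finset Edge) : Prop := A (insert e ω) ∧ ¬ A (ω.erase e)

/-- `e` is pivotal for the event `A` -/
def PivB (e : Edge) (A : Finset Edge → Prop) (ω : Finset Edge) : Prop := ¬ (A (insert e ω) ↔ A (ω.erase e))

/-- probability of a non contractible loop -/
def FW (q : ℝ) (m : ℕ) : ℝ := IPC.Pr q (TE m) (W m)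
/-- probability that the origin is in a winding cluster -/
def FG (q : ℝ) (m : ℕ) : ℝ := IPC.Pr q (TE m) (Gz m)
/-- probability that `e0` is pivotal for `W m` -/
def rho (q : ℝ) (m : ℕ) : ℝ := IPC.Pr q (TE m) (Piv e0 (W m))

/-- the inequality from arm separation and gluing -/
def SepIn : Prop := ∀ ε : ℝ, 0 < ε → ∃ (K : ℕ) (C : ℝ), 6 ≤ K ∧ 0 < C ∧ ∀ (q : ℝ) (m : ℕ), 0 ≤ q → q ≤ 1 → RS ε q m →
  (∀ r : ℕ, 1 ≤ r → K * r ≤ m → p4 q r * p4' q (K * r) m ≤ C * rho q m) ∧
  (∀ r : ℕ, 1 ≤ r → r ≤ m → m ≤ K * r → p4 q r ≤ C * rho q m)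

/-- Russo-Seymour-Welsh at parameter `q` -/
def RswIn : Prop := ∀ ε : ℝ, 0 < ε → ∀ κ : ℕ, ∃ c : ℝ, 0 < c ∧ ∀ (q : ℝ) (N : ℕ), 0 ≤ q → q ≤ 1 → RS ε q N →
  ∀ a b : ℕ, 1 ≤ a → 1 ≤ b → (a ≤ κ * b → b ≤ κ * N → c ≤ hq q a b) ∧ (b ≤ κ * a → a ≤ κ * N → hq q a b ≤ 1 - c)

/-- Russo-Seymour-Welsh near one -/
def RswOne : Prop := ∀ (κ : ℕ) (δ : ℝ), 0 < δ → ∃ (ε : ℝ) (n₀ : ℕ), 0 < ε ∧ ∀ (q : ℝ) (n : ℕ), 0 ≤ q → q ≤ 1 → n₀ ≤ n →
  1 - ε ≤ hq q n n → 1 - δ ≤ hq q (κ * n) n

/-- duality -/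
def DualIn : Prop := ∀ (q : ℝ) (a b : ℕ), hq q (a + 1) b = 1 - hq (1 - q) (b + 1) a

end FKN
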