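import Pool.Agent.Lib.MP_216314_pr.N.NDef

/-!
# Stream D: landing states

`dl` : dual edge. The plaquette with lower left corner `(x,y)` is written `(x,y)`; the edge `(x,y,false)` is crossed by the dual
edge from the plaquette `(x,y-1)` to `(x,y)`, the edge `(x,y,true)` by the dual edge from `(x-1,y)` to `(x,y)`.
`dc F ω` : the dual edges crossing the closed edges of `F`; `ud F` : the edges crossed by the dual edges of `F`.
`RP a r η v` : in the configuration `η`, `v` is connected inside the box of radius `3 r` around `a` to a circuit around the box of radius `r`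
(a crossing in the long direction of each of the four rectangles of the annulus).
`StG Sg Tg η` : `l` arms from a source (`Sg η s`) to a target (`Tg η v`).  `StE Fp Fm Sp Tp Sm Tm ω` : `l` open arms inside `Fp` and
`l` dual arms (crossing closed edges of `Fm`).  `BS` : the targets are balls; `CanO`, `CanI` : canonical states, the targets are circuits at
the canonical places.
-/

set_option autoImplicit false

noncomputable section

namespace FKN

open Finset FKI FKP

/-- the dual edge -/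
def dl : Edge ≃ Edge where
  toFun e := if e.2.2 then (e.1 - 1, e.2.1, false) else (e.1, e.2.1 - 1, true)
  invFun e := if e.2.2 then (e.1, e.2.1 + 1, false) else (e.1 + 1, e.2.1, true)
  left_inv e := by
    obtain ⟨x, y, t⟩ := e
    cases t <;> simp
  right_inv e := by
    obtain ⟨x, y, t⟩ := e
    cases t <;> simp

/-- the dual edges crossing the closed edges of `F` -/
def dc (F ω : Finset Edge) : Finset Edge := (F \ ω).map dl.toEmbedding

/-- the edges crossed by the dual edges of `F` -/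
def ud (F : Finset Edge) : Finset Edge := F.map dl.symm.toEmbedding

/-- the box of radius `r` around `a` -/
def bxa (a : V) (r : ℤ) : Finset Edge := box (a.1 - r) (a.1 + r) (a.2 - r) (a.2 + r)

/-- `v` is connected inside the box of radius `3 r` around `a` to a circuit around the box of radius `r` -/
def RP (a : V) (r : ℤ) (η : Finset Edge) (v : V) : Prop :=
  (∃ y y' : ℤ, a.2 + r ≤ y ∧ y ≤ a.2 + 3 * r ∧ a.2 + r ≤ y' ∧ y' ≤ a.2 + 3 * r ∧
    Conn (box (a.1 - 3 * r) (a.1 + 3 * r) (a.2 + r) (a.2 + 3 * r)) η (a.1 - 3 * r, y) (a.1 + 3 * r, y') ∧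
    Conn (bxa a (3 * r)) η v (a.1 - 3 * r, y)) ∧
  (∃ y y' : ℤ, a.2 - 3 * r ≤ y ∧ y ≤ a.2 - r ∧ a.2 - 3 * r ≤ y' ∧ y' ≤ a.2 - r ∧
    Conn (box (a.1 - 3 * r) (a.1 + 3 * r) (a.2 - 3 * r) (a.2 - r)) η (a.1 - 3 * r, y) (a.1 + 3 * r, y') ∧
    Conn (bxa a (3 * r)) η v (a.1 - 3 * r, y)) ∧
  (∃ x x' : ℤ, a.1 + r ≤ x ∧ x ≤ a.1 + 3 * r ∧ a.1 + r ≤ x' ∧ x' ≤ a.1 + 3 * r ∧
    Conn (box (a.1 + r) (a.1 + 3 * r) (a.2 - 3 * r) (a.2 + 3 * r)) η (x, a.2 - 3 * r) (x', a.2 + 3 * r) ∧
    Conn (bxa a (3 * r)) η v (x, a.2 - 3 * r)) ∧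
  (∃ x x' : ℤ, a.1 - 3 * r ≤ x ∧ x ≤ a.1 - r ∧ a.1 - 3 * r ≤ x' ∧ x' ≤ a.1 - r ∧
    Conn (box (a.1 - 3 * r) (a.1 - r) (a.2 - 3 * r) (a.2 + 3 * r)) η (x, a.2 - 3 * r) (x', a.2 + 3 * r) ∧
    Conn (bxa a (3 * r)) η v (x, a.2 - 3 * r))

/-- there is a circuit (four crossings) -/
def Ring (a : V) (r : ℤ) (η : Finset Edge) : Prop := ∃ v, RP a r η v

/-- all circuits of a finite family of centres and radii -/
def Rings (L : Finset (V × ℤ)) (η : Finset Edge) : Prop := ∀ p ∈ L, Ring p.1 p.2 η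

/-- the edges of the family -/
def RN (L : Finset (V × ℤ)) : Finset Edge := L.biUnion fun p => bxa p.1 (3 * p.2)

/-- the union of the boxes of radius `w` around the centres -/
def bxs {l : ℕ} (a : Fin l → V) (w : ℤ) : Finset Edge := univ.biUnion fun i => bxa (a i) w

/-- arms from a source to a target -/
def StG {l : ℕ} (Sg Tg : Finset Edge → (Fin l → V) → Prop) (η : Finset Edge) : Prop :=
  ∃ s v : Fin l → V, Sg η s ∧ Tg η v ∧ ∀ i, (gr η).Reachable (s i) (v i)

/-- `l` open arms in `Fp` and `l` dual arms in `Fm` -/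
def StE {l : ℕ} (Fp Fm : Finset Edge) (Sp Tp Sm Tm : Finset Edge → (Fin l → V) → Prop) (ω : Finset Edge) : Prop :=
  StG Sp Tp (ω ∩ Fp) ∧ StG Sm Tm (dc Fm ω)

/-- target: the points are within distance `r` of the points `a i` -/
def nearT {l : ℕ} (a : Fin l → V) (r : ℤ) (_ : Finset Edge) (v : Fin l → V) : Prop := ∀ i, nrm (v i - a i) ≤ r

/-- source: the points are within distance `r` of the points `y i`, in some order -/
def nearS {l : ℕ} (y : Fin l → V) (r : ℤ) (_ : Finset Edge) (s : Fin l → V) : Prop :=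
  ∃ σ : Equiv.Perm (Fin l), ∀ i, nrm (s i - y (σ i)) ≤ r

/-- target: circuits around the points `a i` -/
def ringT {l : ℕ} (a : Fin l → V) (r : ℤ) (η : Finset Edge) (v : Fin l → V) : Prop := ∀ i, RP (a i) r η (v i)

/-- the ball state: `l` open arms inside `Fp` to the balls around `ao i`, `l` dual arms inside `Fm` to the balls around `ad i` -/
def BS {l : ℕ} (Fp Fm : Finset Edge) (Sp Sm : Finset Edge → (Fin l → V) → Prop) (ao ad : Fin l → V) (r : ℤ)
    (ω : Finset Edge) : Prop := StE Fp Fm Sp (nearT ao r) Sm (nearT ad r) ω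

/-- 8-periodic trapezoidal wave: `1` on `[0,2]`, `-1` on `[4,6]`, linear in between -/
def gw (θ : ℝ) : ℝ := max (-1) (min 1 (|8 * Int.fract ((θ - 1) / 8) - 4| - 2))

/-- parametrisation of the boundary of the square `[-1,1]²` by its length, period 8; `1, 3, 5, 7` are east, north, west, south -/
def sq (θ : ℝ) : ℝ × ℝ := (gw θ, gw (θ - 2))

/-- the lattice points `ao i`, `ad i` are on the boundary of `[-R,R]²` in cyclic order `ao 0, ad 0, ao 1, ad 1, ...`, with
distance at least `g` along the boundary -/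
def CycR {l : ℕ} (ao ad : Fin l → V) (R g : ℤ) : Prop :=
  ∃ θo θd : Fin l → ℝ,
    (∀ i, (((ao i).1 : ℝ), ((ao i).2 : ℝ)) = ((R : ℝ) * (sq (θo i)).1, (R : ℝ) * (sq (θo i)).2)) ∧
    (∀ i, (((ad i).1 : ℝ), ((ad i).2 : ℝ)) = ((R : ℝ) * (sq (θd i)).1, (R : ℝ) * (sq (θd i)).2)) ∧
    (∀ i j, i ≤ j → (g : ℝ) / R ≤ θd j - θo i ∧ θd j - θo i ≤ 8 - (g : ℝ) / R) ∧
    (∀ i j, j < i → (g : ℝ) / R ≤ θo i - θd j ∧ θo i - θd j ≤ 8 - (g : ℝ) / R)

/-- sources at the bulk edge `e0`: its ends, in some order -/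
def SeP : Finset Edge → (Fin 2 → V) → Prop := nearS ![(0, 0), (1, 0)] 0
/-- sources at the bulk edge `e0`: its two faces, in some order -/
def SeD : Finset Edge → (Fin 2 → V) → Prop := nearS ![(0, 0), (0, -1)] 0

/-- OUTPUT OF STREAM C, bulk edge: separation of the four arms at the boundary of `[-n,n]²`; reach radius `n/k`, avoid radius `w (n/k)`,
distances at least `100 w (n/k)` -/
def SepOut : Prop := ∀ ε θ : ℝ, 0 < ε → 0 < θ → ∀ w : ℕ, ∃ (k : ℕ) (C : ℝ), 0 < k ∧ 0 < C ∧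
  ∀ (q : ℝ) (n : ℕ), 0 ≤ q → q ≤ 1 → RS ε q n → k ≤ n → ∃ zo zd : Fin 2 → V,
    CycR zo zd n (100 * w * (n / k : ℕ)) ∧
    p4 q n ≤ C * IPC.Pr q (bx n) (BS ((bx n \ {e0}) \ bxs zd (w * (n / k : ℕ))) ((bx n \ {e0}) \ bxs zo (w * (n / k : ℕ)))
      SeP SeD zo zd (n / k : ℕ)) + θ * p4 q (n / 2)

/-- the outer boundary of `[-n,n]²`: vertices -/
def bdP {l : ℕ} (n : ℕ) (_ : Finset Edge) (s : Fin l → V) : Prop := ∀ i, nrm (s i) = n
/-- the outer boundary of `[-n,n]²`: exterior faces -/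
def bdD {l : ℕ} (n : ℕ) (_ : Finset Edge) (s : Fin l → V) : Prop := ∀ i, max |2 * (s i).1 + 1| |2 * (s i).2 + 1| = 2 * n + 1

/-- OUTPUT OF STREAM C, annulus: separation of the four arms at the inner boundary of the annulus (the outer ends are anywhere on the
outer boundary) -/
def SepInn : Prop := ∀ ε θ : ℝ, 0 < ε → 0 < θ → ∀ w : ℕ, ∃ (k : ℕ) (C : ℝ), 0 < k ∧ 0 < C ∧
  ∀ (q : ℝ) (r n : ℕ), 0 ≤ q → q ≤ 1 → RS ε q n → k ≤ r → 8 * r ≤ n → ∃ yo yd : Fin 2 → V,
    CycR yo yd r (100 * w * (r / k : ℕ)) ∧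
    p4' q r n ≤ C * IPC.Pr q (an r n) (BS (an r n \ bxs yd (w * (r / k : ℕ))) (an r n \ bxs yo (w * (r / k : ℕ)))
      (bdP n) (bdD n) yo yd (r / k : ℕ)) + θ * p4' q (2 * r) n

/-- the lattice point next to `ρ sq(θ)` -/
def ptR (ρ θ : ℝ) : V := (round (ρ * gw θ), round (ρ * gw (θ - 2)))

/-- canonical angle of the `i`-th open arm -/
def thO (l : ℕ) (i : Fin l) : ℝ := 1 + 8 * (i : ℕ) / l
/-- canonical angle of the `i`-th dual arm -/
def thD (l : ℕ) (i : Fin l) : ℝ := 1 + (8 * (i : ℕ) + 4) / l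
/-- canonical centre of the `i`-th open arm at scale `n` -/
def cO (l n : ℕ) (i : Fin l) : V := ptR n (thO l i)
/-- canonical centre of the `i`-th dual arm at scale `n` -/
def cD (l n : ℕ) (i : Fin l) : V := ptR n (thD l i)
/-- canonical radius of the circuits at scale `n` -/
def rr (l n : ℕ) : ℕ := n / (100 * l)

/-- outer canonical state at scale `n`, core `[-n,n]²` without `X0` -/
def CanO (l : ℕ) (X0 : Finset Edge) (Sp Sm : Finset Edge → (Fin l → V) → Prop) (n : ℕ) (ω : Finset Edge) : Prop :=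
  StE ((bx (n - 5 * rr l n) \ X0) ∪ bxs (cO l n) (10 * rr l n)) ((bx (n - 5 * rr l n) \ X0) ∪ ud (bxs (cD l n) (10 * rr l n)))
    Sp (ringT (cO l n) (rr l n)) Sm (ringT (cD l n) (rr l n)) ω

/-- inner canonical state of the annulus between the scales `r` and `n`: arms from the outer boundary of `[-n,n]²` to circuits at the
canonical places at scale `r` -/
def CanI (l r n : ℕ) (ω : Finset Edge) : Prop :=
  StE (an (r + 5 * rr l r) n ∪ bxs (cO l r) (10 * rr l r)) (an (r + 5 * rr l r) n ∪ ud (bxs (cD l r) (10 * rr l r)))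
    (bdP n) (ringT (cO l r) (rr l r)) (bdD n) (ringT (cD l r) (rr l r)) ω

/-- probability of the canonical state from the edge `e0` to scale `n` -/
def wO (q : ℝ) (n : ℕ) : ℝ := IPC.Pr q (bx (2 * n)) (CanO 2 {e0} SeP SeD n)

/-- probability of the inner canonical state -/
def wI (q : ℝ) (r n : ℕ) : ℝ := IPC.Pr q (bx n) (CanI 2 r n)

/-- crossing bounds for the rectangles of the circuits of radius at most `N` -/
def RB (c q : ℝ) (N : ℕ) : Prop := ∀ r : ℕ, 1 ≤ r → r ≤ N → c ≤ hq q (6 * r) (2 * r) ∧ c ≤ hq (1 - q) (6 * r) (2 * r)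

end FKN
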