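import Pool.Agent.Lib.MP_216314_pr.N.EDef

/-!
# Invariants of faces

`reg_plo_iff`, `reg_pup_iff`: this is the argument `low`, `upp` in `far_of_infinite` (K/KFar) with a general predicate `R` of the faces in place of
`PF n ω` (copy it): `Reg (plo n m α ω) g g'` is `CL n m α ω g 0 g' 0` by `cl_zero`, i.e. `Relation.EqvGen (FE ..)`; use `gen_iff` with
`Q u = R u.1 ((u.2 : ℤ) - 2 * m)` (upper half: `cu_zero`, `Q u = R u.1 (2 * m - u.2)`), and `dg_shift`.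
`gc_iff`: `gen_iff` for the relation `GSt` with `Q u = if u.1 = true then Rl u.2 0 else Ru u.2 0` (the glue step: `v.2 = u.2`; the labels `u.1`, `v.1` are
arbitrary, four cases).
-/

set_option autoImplicit false

noncomputable section

namespace CY

open Finset FKI FKP

section

variable {n m : ℕ} {α : Pat (2 * n)} {ω : Finset Edge}

theorem reg_plo_iff (hn : 1 ≤ n) {R : ℤ → ℤ → Prop} (h0 : ∀ k, ¬ R k (-(2 * (m : ℤ))))
    (h1 : ∀ k y : ℤ, -(2 * (m : ℤ)) ≤ y → y < 0 → (DG n ω k y → (R k y ↔ R (k + 1) (y + 1))) ∧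
      (¬ DG n ω k y → (R k (y + 1) ↔ R (k + 1) y))) {g g' : ℤ} (hg : Reg (plo n m α ω) g g') : R g 0 ↔ R g' 0 := by
  have low : ∀ u v : ℤ × ℕ, FE (Reg α) (2 * n) (tlo n m ω) (2 * m) u v →
      (R u.1 ((u.2 : ℤ) - 2 * m) ↔ R v.1 ((v.2 : ℤ) - 2 * m)) := by
    rintro u v (⟨h2, h3, _⟩ | ⟨h, k, hh, _, j, ⟨h2, h3, h4⟩ | ⟨h2, h3, h4⟩⟩)
    · rw [h2, h3]
      have e : (((0 : ℕ) : ℤ) - 2 * m) = -(2 * (m : ℤ)) := by omega
      rw [e]
      exact ⟨fun c => absurd c (h0 _), fun c => absurd c (h0 _)⟩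
    · have hd : DG n ω (j * (2 * n : ℕ) + k) ((h : ℤ) - 2 * m) := by
        rw [dg_shift hn]
        by_contra c
        exact h2 c
      have := (h1 (j * (2 * n : ℕ) + k) ((h : ℤ) - 2 * m) (by omega) (by omega)).1 hd
      rw [h3, h4]
      have e : (((h + 1 : ℕ) : ℤ) - 2 * m) = (h : ℤ) - 2 * m + 1 := by push_cast; ring
      show R (j * (2 * n : ℕ) + k) ((h : ℤ) - 2 * m) ↔
        R (j * (2 * n : ℕ) + k + 1) (((h + 1 : ℕ) : ℤ) - 2 * m)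
      rw [e]
      exact this
    · have hd : ¬ DG n ω (j * (2 * n : ℕ) + k) ((h : ℤ) - 2 * m) := by
        rw [dg_shift hn]
        exact h2
      have := (h1 (j * (2 * n : ℕ) + k) ((h : ℤ) - 2 * m) (by omega) (by omega)).2 hd
      rw [h3, h4]
      have e : (((h + 1 : ℕ) : ℤ) - 2 * m) = (h : ℤ) - 2 * m + 1 := by push_cast; ring
      show R (j * (2 * n : ℕ) + k) (((h + 1 : ℕ) : ℤ) - 2 * m) ↔
        R (j * (2 * n : ℕ) + k + 1) ((h : ℤ) - 2 * m)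
      rw [e]
      exact this
  have h5 := cl_zero.2 hg
  unfold CL at h5
  have h6 := gen_iff (Q := fun u : ℤ × ℕ => R u.1 ((u.2 : ℤ) - 2 * m)) low h5
  have e : ((((0 : ℤ) + 2 * m).toNat : ℤ) - 2 * (m : ℤ)) = 0 := by omega
  simp only at h6
  rw [e] at h6
  exact h6

theorem reg_pup_iff (hn : 1 ≤ n) {R : ℤ → ℤ → Prop} (h0 : ∀ k, ¬ R k (2 * (m : ℤ)))
    (h1 : ∀ k y : ℤ, 0 ≤ y → y < 2 * (m : ℤ) → (DG n ω k y → (R k y ↔ R (k + 1) (y + 1))) ∧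
      (¬ DG n ω k y → (R k (y + 1) ↔ R (k + 1) y))) {g g' : ℤ} (hg : Reg (pup n m α ω) g g') : R g 0 ↔ R g' 0 := by
  have upp : ∀ u v : ℤ × ℕ, FE (Reg α) (2 * n) (tup n m ω) (2 * m) u v →
      (R u.1 (2 * (m : ℤ) - u.2) ↔ R v.1 (2 * (m : ℤ) - v.2)) := by
    rintro u v (⟨h2, h3, _⟩ | ⟨h, k, hh, _, j, ⟨h2, h3, h4⟩ | ⟨h2, h3, h4⟩⟩)
    · rw [h2, h3]
      have e : (2 * (m : ℤ) - ((0 : ℕ) : ℤ)) = 2 * (m : ℤ) := by omega
      rw [e]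
      exact ⟨fun c => absurd c (h0 _), fun c => absurd c (h0 _)⟩
    · have hd : ¬ DG n ω (j * (2 * n : ℕ) + k) (2 * (m : ℤ) - 1 - h) := by
        rw [dg_shift hn]
        exact h2
      have := (h1 (j * (2 * n : ℕ) + k) (2 * (m : ℤ) - 1 - h) (by omega) (by omega)).2 hd
      rw [h3, h4]
      have e1 : 2 * (m : ℤ) - 1 - h + 1 = 2 * m - h := by ring
      have e2 : (2 * (m : ℤ) - ((h + 1 : ℕ) : ℤ)) = 2 * m - 1 - h := by push_cast; ring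
      rw [e1] at this
      show R (j * (2 * n : ℕ) + k) (2 * (m : ℤ) - h) ↔
        R (j * (2 * n : ℕ) + k + 1) (2 * (m : ℤ) - ((h + 1 : ℕ) : ℤ))
      rw [e2]
      exact this
    · have hd : DG n ω (j * (2 * n : ℕ) + k) (2 * (m : ℤ) - 1 - h) := by
        rw [dg_shift hn]
        exact h2
      have := (h1 (j * (2 * n : ℕ) + k) (2 * (m : ℤ) - 1 - h) (by omega) (by omega)).1 hd
      rw [h3, h4]
      have e1 : 2 * (m : ℤ) - 1 - h + 1 = 2 * m - h := by ring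
      have e2 : (2 * (m : ℤ) - ((h + 1 : ℕ) : ℤ)) = 2 * m - 1 - h := by push_cast; ring
      rw [e1] at this
      show R (j * (2 * n : ℕ) + k) (2 * (m : ℤ) - ((h + 1 : ℕ) : ℤ)) ↔
        R (j * (2 * n : ℕ) + k + 1) (2 * (m : ℤ) - h)
      rw [e2]
      exact this
  have h5 := cu_zero.2 hg
  unfold CU at h5
  have h6 := gen_iff (Q := fun u : ℤ × ℕ => R u.1 (2 * (m : ℤ) - u.2)) upp h5
  have e : (2 * (m : ℤ) - ((2 * (m : ℤ) - 0).toNat : ℤ)) = 0 := by omega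
  simp only at h6
  rw [e] at h6
  exact h6

theorem gc_iff (hn : 1 ≤ n) {Rl Ru : ℤ → ℤ → Prop} (hl0 : ∀ k, ¬ Rl k (-(2 * (m : ℤ))))
    (hl1 : ∀ k y : ℤ, -(2 * (m : ℤ)) ≤ y → y < 0 → (DG n ω k y → (Rl k y ↔ Rl (k + 1) (y + 1))) ∧
      (¬ DG n ω k y → (Rl k (y + 1) ↔ Rl (k + 1) y)))
    (hu0 : ∀ k, ¬ Ru k (2 * (m : ℤ)))
    (hu1 : ∀ k y : ℤ, 0 ≤ y → y < 2 * (m : ℤ) → (DG n ω k y → (Ru k y ↔ Ru (k + 1) (y + 1))) ∧
      (¬ DG n ω k y → (Ru k (y + 1) ↔ Ru (k + 1) y)))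
    (hz : ∀ g : ℤ, ¬ ((2 * n : ℕ) : ℤ) ∣ g - 1 → (Rl g 0 ↔ Ru g 0)) {u v : Bool × ℤ}
    (h : GC (pup n m α ω) (plo n m α ω) u v) :
    (if u.1 = true then Rl u.2 0 else Ru u.2 0) ↔ (if v.1 = true then Rl v.2 0 else Ru v.2 0) := by
  refine gen_iff (Q := fun w : Bool × ℤ => (if w.1 = true then Rl w.2 0 else Ru w.2 0)) ?_ h
  rintro ⟨a, x⟩ ⟨b, y⟩ (⟨h1, h2, h3⟩ | ⟨h1, h2, h3⟩ | ⟨h1, h2⟩)
  · simp only at h1 h2 h3
    subst h1 h2
    exact reg_plo_iff hn hl0 hl1 h3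
  · simp only at h1 h2 h3
    subst h1 h2
    exact reg_pup_iff hn hu0 hu1 h3
  · simp only at h1 h2
    subst h1
    have h3 := hz y h2
    cases a <;> cases b
    · exact Iff.rfl
    · exact h3.symm
    · exact h3
    · exact Iff.rfl

end

end CY
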