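import Pool.Agent.Lib.MP_216314_pr.N.EDef

/-!
# The function of the faces bounded by a cycle modulo 2

`potential`: take `z (i, j) = ∑ l ∈ Finset.Ico (-(k : ℤ)) (j + 1), c (i, l, false)` (compare `cross_S`, P/PCross: adaptation).
* `z (i, j) + z (i, j - 1) = c (i, j, false)`: if `-(k : ℤ) ≤ j` split off the last term (in `ZMod 2`: `a + a = 0`); otherwise both sums are empty and
  `c (i, j, false) = 0` (`(i, j, false) ∉ bx k`).
* `z (i, j) + z (i - 1, j) = c (i, j, true)`: for `j < -(k : ℤ)` all are `0`. Otherwise induction on `j` (start `j = -k - 1`, or `Int.le_induction`), by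
  `bd c (i, j) = 0`: `c (i - 1, j, false) + c (i, j, false) + c (i, j - 1, true) + c (i, j, true) = 0`.
* support: if `j < -k` the sum is empty. `i < -k` or `i ≥ k`: all terms are `0`. `j ≥ k`: for `i` from `k` downwards: `z (i - 1, j) = z (i, j) + c (i, j, true)` and
  `c (i, j, true) = 0` for `j ≥ k` (vertical edges of `bx k` have `j < k`), so `z (i, j) = z (k, j) = 0` (induction). `mem_box`, `bx`.
`dz_even`, `dz_odd`: `te_even`, `te_odd` and `omega`: for `k + y` even, `dz z k (y + 1) = z ((k + y) / 2, (y - k) / 2)`, `dz z (k + 1) y =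
z ((k + y) / 2, (y - k) / 2 - 1)`; for `k + y` odd put `x = (k + y + 1) / 2`, `y' = (y - k - 1) / 2`: `dz z k y = z (x - 1, y')`, `dz z (k + 1) (y + 1) = z (x, y')`.
-/

set_option autoImplicit false

noncomputable section

namespace CY

open Finset FKI FKP

theorem NEE_two (a : ZMod 2) : a + a = 0 := by
  revert a
  decide

theorem NEE_Ico {a j : ℤ} (h : a ≤ j) : Ico a (j + 1) = insert j (Ico a j) := by
  ext k
  simp only [mem_Ico, mem_insert]
  omega

theorem NEE_zero {c : Edge → ZMod 2} {k : ℕ} (hc : ∀ e, e ∉ bx k → c e = 0) :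
    (∀ i j : ℤ, (i < -(k : ℤ) ∨ (k : ℤ) ≤ i ∨ j < -(k : ℤ)) → c (i, j, false) = 0) ∧
      ∀ i j : ℤ, (j < -(k : ℤ) ∨ (k : ℤ) ≤ j) → c (i, j, true) = 0 := by
  constructor
  · intro i j h
    refine hc _ fun hm => ?_
    unfold bx at hm
    rw [mem_box] at hm
    rcases hm with ⟨_, h1, h2, h3, h4⟩ | ⟨h1, _⟩
    · simp only at h1 h2 h3 h4
      omega
    · exact Bool.false_ne_true h1
  · intro i j h
    refine hc _ fun hm => ?_
    unfold bx at hm
    rw [mem_box] at hm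
    rcases hm with ⟨h1, _⟩ | ⟨_, h1, h2, h3, h4⟩
    · exact Bool.false_ne_true h1.symm
    · simp only at h1 h2 h3 h4
      omega

/-- the function -/
def NEE_z (c : Edge → ZMod 2) (k : ℕ) (v : FKI.V) : ZMod 2 := ∑ l ∈ Ico (-(k : ℤ)) (v.2 + 1), c (v.1, l, false)

theorem NEE_zlow (c : Edge → ZMod 2) (k : ℕ) (i : ℤ) {j : ℤ} (h : j < -(k : ℤ)) : NEE_z c k (i, j) = 0 := by
  unfold NEE_z
  have e : Ico (-(k : ℤ)) ((i, j).2 + 1) = ∅ := Finset.Ico_eq_empty (by show ¬ -(k : ℤ) < j + 1; omega)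
  rw [e, Finset.sum_empty]

theorem NEE_zsucc (c : Edge → ZMod 2) (k : ℕ) (i : ℤ) {j : ℤ} (h : -(k : ℤ) ≤ j) :
    NEE_z c k (i, j) = c (i, j, false) + NEE_z c k (i, j - 1) := by
  unfold NEE_z
  simp only
  rw [NEE_Ico h, sum_insert (by simp), sub_add_cancel]

theorem NEE_h1 {c : Edge → ZMod 2} {k : ℕ} (hc : ∀ e, e ∉ bx k → c e = 0) (i j : ℤ) :
    NEE_z c k (i, j) + NEE_z c k (i, j - 1) = c (i, j, false) := by
  by_cases h : -(k : ℤ) ≤ j
  · rw [NEE_zsucc c k i h, add_assoc, NEE_two, add_zero]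
  · rw [NEE_zlow c k i (by omega), NEE_zlow c k i (by omega), (NEE_zero hc).1 i j (by omega), add_zero]

theorem NEE_h2 {c : Edge → ZMod 2} {k : ℕ} (hc : ∀ e, e ∉ bx k → c e = 0) (hb : ∀ v, bd c v = 0) (i j : ℤ) :
    NEE_z c k (i, j) + NEE_z c k (i - 1, j) = c (i, j, true) := by
  by_cases h : j < -(k : ℤ)
  · rw [NEE_zlow c k i h, NEE_zlow c k (i - 1) h, (NEE_zero hc).2 i j (by omega), add_zero]
  · have key : ∀ t : ℕ, NEE_z c k (i, -(k : ℤ) - 1 + t) + NEE_z c k (i - 1, -(k : ℤ) - 1 + t) =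
        c (i, -(k : ℤ) - 1 + t, true) := by
      intro t
      induction t with
      | zero =>
        rw [NEE_zlow c k i (by push_cast; omega), NEE_zlow c k (i - 1) (by push_cast; omega),
          (NEE_zero hc).2 i _ (by push_cast; omega), add_zero]
      | succ t ih =>
        have hj : -(k : ℤ) ≤ -(k : ℤ) - 1 + ((t + 1 : ℕ) : ℤ) := by push_cast; omega
        have e : -(k : ℤ) - 1 + ((t + 1 : ℕ) : ℤ) - 1 = -(k : ℤ) - 1 + (t : ℤ) := by push_cast; ring
        rw [NEE_zsucc c k i hj, NEE_zsucc c k (i - 1) hj, e]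
        have h2 := hb (i, -(k : ℤ) - 1 + ((t + 1 : ℕ) : ℤ))
        unfold bd at h2
        simp only at h2
        rw [e] at h2
        linear_combination ih + h2 - NEE_two (c (i, -(k : ℤ) - 1 + ((t + 1 : ℕ) : ℤ), true))
    have h3 := key (j + k + 1).toNat
    have e : -(k : ℤ) - 1 + ((j + k + 1).toNat : ℤ) = j := by omega
    rw [e] at h3
    exact h3

theorem potential {c : Edge → ZMod 2} {k : ℕ} (hc : ∀ e, e ∉ bx k → c e = 0) (hb : ∀ v, bd c v = 0) :
    ∃ z : FKI.V → ZMod 2, (∀ i j : ℤ, z (i, j) + z (i, j - 1) = c (i, j, false)) ∧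
      (∀ i j : ℤ, z (i, j) + z (i - 1, j) = c (i, j, true)) ∧
      ∀ i j : ℤ, z (i, j) ≠ 0 → (-(k : ℤ) ≤ i ∧ i < k) ∧ (-(k : ℤ) ≤ j ∧ j < k) := by
  refine ⟨NEE_z c k, NEE_h1 hc, NEE_h2 hc hb, ?_⟩
  have hout : ∀ i j : ℤ, i < -(k : ℤ) ∨ (k : ℤ) ≤ i → NEE_z c k (i, j) = 0 := by
    intro i j h
    unfold NEE_z
    refine Finset.sum_eq_zero fun l _ => ?_
    exact (NEE_zero hc).1 i l (by omega)
  have hup : ∀ (t : ℕ) (j : ℤ), (k : ℤ) ≤ j → NEE_z c k ((k : ℤ) - t, j) = 0 := by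
    intro t j hj
    induction t with
    | zero => exact hout _ _ (by push_cast; omega)
    | succ t ih =>
      have h2 := NEE_h2 hc hb ((k : ℤ) - t) j
      rw [ih, (NEE_zero hc).2 _ j (by omega), zero_add] at h2
      have e : (k : ℤ) - ((t + 1 : ℕ) : ℤ) = (k : ℤ) - t - 1 := by push_cast; ring
      rw [e]
      exact h2
  intro i j hz
  have hi : -(k : ℤ) ≤ i ∧ i < k := by
    by_contra h
    exact hz (hout i j (by omega))
  refine ⟨hi, ?_⟩
  by_contra h
  by_cases hj : j < -(k : ℤ)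
  · exact hz (NEE_zlow c k i hj)
  · have h3 := hup ((k : ℤ) - i).toNat j (by omega)
    have e : (k : ℤ) - (((k : ℤ) - i).toNat : ℤ) = i := by omega
    rw [e] at h3
    exact hz h3

theorem dz_even {c : Edge → ZMod 2} {z : FKI.V → ZMod 2} (h1 : ∀ i j : ℤ, z (i, j) + z (i, j - 1) = c (i, j, false))
    {k y : ℤ} (h : (k + y) % 2 = 0) : dz z k (y + 1) + dz z (k + 1) y = c (te k y) := by
  rw [te_even h, ← h1]
  unfold dz
  have e1 : (y + 1 + k - 1) / 2 = (k + y) / 2 := by omega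
  have e2 : (y + 1 - k - 1) / 2 = (y - k) / 2 := by omega
  have e3 : (y + (k + 1) - 1) / 2 = (k + y) / 2 := by omega
  have e4 : (y - (k + 1) - 1) / 2 = (y - k) / 2 - 1 := by omega
  rw [e1, e2, e3, e4]

theorem dz_odd {c : Edge → ZMod 2} {z : FKI.V → ZMod 2} (h1 : ∀ i j : ℤ, z (i, j) + z (i - 1, j) = c (i, j, true))
    {k y : ℤ} (h : (k + y) % 2 ≠ 0) : dz z k y + dz z (k + 1) (y + 1) = c (te k y) := by
  rw [te_odd h, ← h1]
  unfold dz
  have e1 : (y + k - 1) / 2 = (k + y + 1) / 2 - 1 := by omega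
  have e2 : (y + 1 + (k + 1) - 1) / 2 = (k + y + 1) / 2 := by omega
  have e3 : (y + 1 - (k + 1) - 1) / 2 = (y - k - 1) / 2 := by omega
  rw [e1, e2, e3, add_comm]

end CY
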