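import Pool.Agent.Lib.MP_216314_pr.N.EC
import Pool.Agent.Lib.MP_216314_pr.N.ED
import Pool.Agent.Lib.MP_216314_pr.N.EE

/-!
# The two clusters are different

Proof by contradiction. `Conn (bx k) (pull n (bx k) ω) (0, 0) (1, -1)` gives (`pth`, Chain) a chain `c0` with `c0 e = 0` for `e ∉ pull n (bx k) ω ∩ bx k` and boundary
`ind (0,0) + ind (1,-1)`. Let `c = c0 + sg (0, 0, false) + sg (1, -1, true)`; `bd_add`, `bd_sg`: `ea (0,0,false) = (0,0)`, `eb = (1,0)`, `ea (1,-1,true) = (1,-1)`,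
`eb = (1,0)`, so `bd c = 0` (in `ZMod 2`), and `c` is supported in `bx k` (`1 ≤ k`). `potential` gives `z`.
Let `Rl k' y = ((k' + y) % 2 ≠ 0 ∧ dz z k' y = 1)` and `Ru k' y = ((k' + y) % 2 ≠ 0 ∧ dz z k' y + (if k' = 1 ∧ y = 0 then 1 else 0) = 1)`.
Hypotheses of `gc_iff`:
* `hl0`, `hu0`: `dz z k' y ≠ 0` gives `-k ≤ (y + k' - 1) / 2 < k` and `-k ≤ (y - k' - 1) / 2 < k`, so `-2 k ≤ y ≤ 2 k` (sum of the two), and `2 k < n ≤ m`, `1 ≤ m`.
* `hl1`, `hu1`: let the tile be `(k', y)`. If `k' + y` is even: `DG` gives a statement about even faces, both sides are false. `¬ DG n ω k' y`: then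
  `red n (te k' y) ∉ ω` and the statement is about the odd faces `(k', y + 1)`, `(k' + 1, y)`; by `dz_even` the values of `dz z` differ by `c (te k' y)`. If `k' + y` is odd:
  `¬ DG` gives even faces; `DG` gives `red n (te k' y) ∉ ω` (otherwise `k' + y` would be even) and the odd faces `(k', y)`, `(k' + 1, y + 1)`; `dz_odd`.
  Since `red n (te k' y) ∉ ω`: `te k' y ∉ pull n (bx k) ω`, so `c0 (te k' y) = 0` and `c (te k' y) = sg (0,0,false) (te k' y) + sg (1,-1,true) (te k' y)`.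
  `te k' y = (0,0,false)` iff `k' = 0 ∧ y = 0`; `te k' y = (1,-1,true)` iff `k' = 1 ∧ y = 0` (`te_even`, `te_odd`, `omega`; make these two lemmas first). In the lower half
  (`y < 0`) both are `0`, so `Rl` is preserved. In the upper half: tile `(0,0)`: faces `(0,1)`, `(1,0)`: `dz z` changes by `1`, and the correction term is `0`, `1`;
  tile `(1,0)`: faces `(1,0)`, `(2,1)`: the same; any other tile with `0 ≤ y`: `dz z` does not change and neither of its two faces is `(1, 0)` (a tile `(k', y)` with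
  `0 ≤ y` whose odd faces contain `(1, 0)` is `(0, 0)` or `(1, 0)`).
* `hz`: `¬ 2 n ∣ g - 1` gives `g ≠ 1`.
Now `Rl 1 0 ↔ dz z 1 0 = 1` and `Ru 1 0 ↔ dz z 1 0 + 1 = 1`: exactly one of them holds (`ZMod 2`). If `Rl 1 0` holds take the gap `(true, 1)`, otherwise `(false, 1)`:
`far_gap` (with `wl` from `hW`, `W4`; `P = pup`, `Q = plo`) connects it to `w` with `w.2 ≤ 2 - 2 n` or `2 n ≤ w.2`; by `gc_iff` the predicate holds at `w`, so
`w = (_, 1)` (impossible, since `n ≥ 3`) or `dz z w.2 0 ≠ 0`, so `-k ≤ (w.2 - 1) / 2 < k`, `|w.2| ≤ 2 k + 1 ≤ n`: contradiction (`n ≥ 3`: `2 - 2 n < -n`).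
-/

set_option autoImplicit false

noncomputable section

namespace CY

open Finset FKI FKP

theorem EF_te0 {k y : ℤ} : te k y = (0, 0, false) ↔ k = 0 ∧ y = 0 := by
  by_cases h : (k + y) % 2 = 0
  · rw [te_even h]
    simp only [Prod.mk.injEq, and_true]
    omega
  · rw [te_odd h]
    simp only [Prod.mk.injEq, Bool.true_eq_false, and_false, false_iff]
    omega

theorem EF_te1 {k y : ℤ} : te k y = (1, -1, true) ↔ k = 1 ∧ y = 0 := by
  by_cases h : (k + y) % 2 = 0
  · rw [te_even h]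
    simp only [Prod.mk.injEq, Bool.false_eq_true, and_false, false_iff]
    omega
  · rw [te_odd h]
    simp only [Prod.mk.injEq, and_true]
    omega

theorem EF_two (x : ZMod 2) : x + x = 0 := by
  revert x
  decide

theorem EF_cases (x : ZMod 2) : x = 0 ∨ x = 1 := by
  revert x
  decide

theorem EF_sup {z : FKI.V → ZMod 2} {k : ℕ}
    (h : ∀ i j : ℤ, z (i, j) ≠ 0 → (-(k : ℤ) ≤ i ∧ i < k) ∧ (-(k : ℤ) ≤ j ∧ j < k)) {k' y : ℤ}
    (hd : dz z k' y ≠ 0) : -(2 * (k : ℤ)) ≤ y ∧ y ≤ 2 * k ∧ -(2 * (k : ℤ)) ≤ k' ∧ k' ≤ 2 * k := by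
  have h1 := h _ _ hd
  omega

/-- the chain of the cycle -/
theorem EF_chain {c0 : Edge → ZMod 2} {k' y : ℤ} (h0 : c0 (te k' y) = 0) :
    (c0 + sg (0, 0, false) + sg (1, -1, true)) (te k' y) =
      (if k' = 0 ∧ y = 0 then 1 else 0) + (if k' = 1 ∧ y = 0 then 1 else 0) := by
  have h1 : sg (0, 0, false) (te k' y) = if k' = 0 ∧ y = 0 then 1 else 0 := by
    unfold sg
    by_cases h : k' = 0 ∧ y = 0
    · rw [if_pos h, if_pos (EF_te0.2 h)]
    · rw [if_neg h, if_neg fun c => h (EF_te0.1 c)]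
  have h2 : sg (1, -1, true) (te k' y) = if k' = 1 ∧ y = 0 then 1 else 0 := by
    unfold sg
    by_cases h : k' = 1 ∧ y = 0
    · rw [if_pos h, if_pos (EF_te1.2 h)]
    · rw [if_neg h, if_neg fun c => h (EF_te1.1 c)]
  rw [Pi.add_apply, Pi.add_apply, h0, h1, h2, zero_add]

theorem EF_eq {a b : ZMod 2} (h : a + b = 0) : a = b := by
  revert a b
  decide

theorem EF_eq1 {a b t : ZMod 2} (h : a + b = t) : a = b + t := by
  revert a b t
  decide

theorem not_conn {n m k : ℕ} (hm : n ≤ m) (hk : 2 * k < n) (hk1 : 1 ≤ k) {α : Pat (2 * n)} {ω : Finset Edge}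
    (hW : W4 n m α ω) : ¬ Conn (bx k) (pull n (bx k) ω) (0, 0) (1, -1) := by
  intro hconn
  obtain ⟨c0, hc0, hb0⟩ := pth hconn
  have hcz : ∀ e, red n e ∉ ω → c0 e = 0 := by
    intro e he
    refine hc0 e fun h => he ?_
    exact (mem_pull.1 (Finset.mem_inter.1 h).1).2
  have hsupp : ∀ e, e ∉ bx k → (c0 + sg (0, 0, false) + sg (1, -1, true)) e = 0 := by
    intro e he
    have h1 : c0 e = 0 := hc0 e fun h => he (Finset.mem_inter.1 h).2
    have h2 : sg (0, 0, false) e = 0 := by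
      unfold sg
      refine if_neg fun h => he ?_
      rw [h]
      unfold bx
      rw [mem_box]
      left
      exact ⟨rfl, by simp, by show (0 : ℤ) < k; omega, by simp, by simp⟩
    have h3 : sg (1, -1, true) e = 0 := by
      unfold sg
      refine if_neg fun h => he ?_
      rw [h]
      unfold bx
      rw [mem_box]
      right
      exact ⟨rfl, by show -(k : ℤ) ≤ 1; omega, by show (1 : ℤ) ≤ k; omega,
        by show -(k : ℤ) ≤ -1; omega, by show (-1 : ℤ) < k; omega⟩
    rw [Pi.add_apply, Pi.add_apply, h1, h2, h3, add_zero, add_zero]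
  have hbd : ∀ v, bd (c0 + sg (0, 0, false) + sg (1, -1, true)) v = 0 := by
    intro v
    rw [bd_add, bd_add, bd_sg, bd_sg, hb0]
    have e1 : eb (0, 0, false) = ((1, 0) : FKI.V) := rfl
    have e2 : eb (1, -1, true) = ((1, 0) : FKI.V) := rfl
    have e3 : ea (0, 0, false) = ((0, 0) : FKI.V) := rfl
    have e4 : ea (1, -1, true) = ((1, -1) : FKI.V) := rfl
    rw [e1, e2, e3, e4]
    linear_combination EF_two (ind (0, 0) v) + EF_two (ind (1, -1) v) + EF_two (ind (1, 0) v)
  obtain ⟨z, hz1, hz2, hz3⟩ := potential hsupp hbd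
  have hbot : ∀ k' y : ℤ, dz z k' y = 1 → -(2 * (k : ℤ)) ≤ y ∧ y ≤ 2 * k ∧ -(2 * (k : ℤ)) ≤ k' ∧ k' ≤ 2 * k := by
    intro k' y h
    refine EF_sup hz3 ?_
    rw [h]
    exact one_ne_zero
  have hgc : ∀ {u v : Bool × ℤ}, GC (pup n m α ω) (plo n m α ω) u v →
      ((if u.1 = true then ((u.2 + 0) % 2 ≠ 0 ∧ dz z u.2 0 = 1) else
        ((u.2 + 0) % 2 ≠ 0 ∧ dz z u.2 0 + (if u.2 = 1 ∧ (0 : ℤ) = 0 then 1 else 0) = 1)) ↔
      (if v.1 = true then ((v.2 + 0) % 2 ≠ 0 ∧ dz z v.2 0 = 1) else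
        ((v.2 + 0) % 2 ≠ 0 ∧ dz z v.2 0 + (if v.2 = 1 ∧ (0 : ℤ) = 0 then 1 else 0) = 1))) := by
    intro u v huv
    refine gc_iff (Rl := fun k' y => (k' + y) % 2 ≠ 0 ∧ dz z k' y = 1)
      (Ru := fun k' y => (k' + y) % 2 ≠ 0 ∧ dz z k' y + (if k' = 1 ∧ y = 0 then 1 else 0) = 1)
      (by omega) ?_ ?_ ?_ ?_ ?_ huv
    · rintro k' ⟨_, h⟩
      have := hbot _ _ h
      omega
    · intro k' y hy1 hy2
      by_cases hp : (k' + y) % 2 = 0
      · constructor
        · intro _
          exact ⟨fun h => absurd hp h.1, fun h => absurd (by omega) h.1⟩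
        · intro hD
          have hr : red n (te k' y) ∉ ω := fun c => hD ⟨fun _ => c, fun _ => hp⟩
          have h1 := dz_even hz1 hp
          rw [EF_chain (hcz _ hr), if_neg (by omega), if_neg (by omega), add_zero] at h1
          show (k' + (y + 1)) % 2 ≠ 0 ∧ dz z k' (y + 1) = 1 ↔ (k' + 1 + y) % 2 ≠ 0 ∧ dz z (k' + 1) y = 1
          rw [EF_eq h1]
          exact and_congr_left fun _ => by omega
      · constructor
        · intro hD
          have hr : red n (te k' y) ∉ ω := fun c => hp (hD.2 c)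
          have h1 := dz_odd hz2 hp
          rw [EF_chain (hcz _ hr), if_neg (by omega), if_neg (by omega), add_zero] at h1
          show (k' + y) % 2 ≠ 0 ∧ dz z k' y = 1 ↔
            (k' + 1 + (y + 1)) % 2 ≠ 0 ∧ dz z (k' + 1) (y + 1) = 1
          rw [EF_eq h1]
          exact and_congr_left fun _ => by omega
        · intro _
          exact ⟨fun h => absurd (by omega) h.1, fun h => absurd (by omega) h.1⟩
    · rintro k' ⟨_, h⟩
      rw [if_neg (by omega), add_zero] at h
      have := hbot _ _ h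
      omega
    · intro k' y hy1 hy2
      by_cases hp : (k' + y) % 2 = 0
      · constructor
        · intro _
          exact ⟨fun h => absurd hp h.1, fun h => absurd (by omega) h.1⟩
        · intro hD
          have hr : red n (te k' y) ∉ ω := fun c => hD ⟨fun _ => c, fun _ => hp⟩
          have h1 := dz_even hz1 hp
          rw [EF_chain (hcz _ hr), if_neg (show ¬ (k' = 1 ∧ y = 0) by omega), add_zero] at h1
          have h2 : (if k' + 1 = 1 ∧ y = 0 then (1 : ZMod 2) else 0) = if k' = 0 ∧ y = 0 then 1 else 0 := by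
            by_cases h : k' = 0 ∧ y = 0
            · rw [if_pos h, if_pos (by omega)]
            · rw [if_neg h, if_neg (by omega)]
          show (k' + (y + 1)) % 2 ≠ 0 ∧ dz z k' (y + 1) + (if k' = 1 ∧ y + 1 = 0 then 1 else 0) = 1 ↔
            (k' + 1 + y) % 2 ≠ 0 ∧ dz z (k' + 1) y + (if k' + 1 = 1 ∧ y = 0 then 1 else 0) = 1
          rw [if_neg (show ¬ (k' = 1 ∧ y + 1 = 0) by omega), add_zero, h2, EF_eq1 h1]
          exact and_congr_left fun _ => by omega
      · constructor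
        · intro hD
          have hr : red n (te k' y) ∉ ω := fun c => hp (hD.2 c)
          have h1 := dz_odd hz2 hp
          rw [EF_chain (hcz _ hr), if_neg (show ¬ (k' = 0 ∧ y = 0) by omega), zero_add, add_comm] at h1
          show (k' + y) % 2 ≠ 0 ∧ dz z k' y + (if k' = 1 ∧ y = 0 then 1 else 0) = 1 ↔
            (k' + 1 + (y + 1)) % 2 ≠ 0 ∧
              dz z (k' + 1) (y + 1) + (if k' + 1 = 1 ∧ y + 1 = 0 then 1 else 0) = 1
          rw [if_neg (show ¬ (k' + 1 = 1 ∧ y + 1 = 0) by omega), add_zero, EF_eq1 h1]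
          exact and_congr_left fun _ => by omega
        · intro _
          exact ⟨fun h => absurd (by omega) h.1, fun h => absurd (by omega) h.1⟩
    · intro g hg
      have hg1 : g ≠ 1 := by
        rintro rfl
        exact hg (by simp)
      show (g + 0) % 2 ≠ 0 ∧ dz z g 0 = 1 ↔
        (g + 0) % 2 ≠ 0 ∧ dz z g 0 + (if g = 1 ∧ (0 : ℤ) = 0 then 1 else 0) = 1
      rw [if_neg (show ¬ (g = 1 ∧ (0 : ℤ) = 0) by omega)]
      simp only [add_zero]
  -- the gap between the legs is connected to a distant gap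
  have key : ∀ b : Bool, (if b = true then ((1 + 0 : ℤ) % 2 ≠ 0 ∧ dz z 1 0 = 1) else
      ((1 + 0 : ℤ) % 2 ≠ 0 ∧ dz z 1 0 + (if (1 : ℤ) = 1 ∧ (0 : ℤ) = 0 then 1 else 0) = 1)) → False := by
    intro b hb
    obtain ⟨w, hw, hfar⟩ := far_gap hW b (g := 1) (Or.inr (Or.inl rfl))
    have h1 := (hgc hw).1 hb
    have hw1 : w.2 ≠ 1 := by omega
    have h2 : dz z w.2 0 = 1 := by
      by_cases hb2 : w.1 = true
      · rw [if_pos hb2] at h1
        exact h1.2
      · rw [if_neg hb2, if_neg (show ¬ (w.2 = 1 ∧ (0 : ℤ) = 0) by omega)] at h1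
        have h4 := h1.2
        rw [add_zero] at h4
        exact h4
    have h3 := hbot _ _ h2
    omega
  rcases EF_cases (dz z 1 0) with h | h
  · refine key false ?_
    rw [if_neg (by simp), if_pos (by simp), h, zero_add]
    exact ⟨by norm_num, rfl⟩
  · refine key true ?_
    rw [if_pos rfl, h]
    exact ⟨by norm_num, rfl⟩

end CY
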