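import Pool.Agent.Lib.MP_216314_pr.N.EF
import Pool.Agent.Lib.MP_216314_pr.Cy.CyD

/-!
# From the cylinder to the plane: upper bound of the probability of `W4`

* `far_of_W4`: by contradiction as `far_of_infinite` (K/KFar). Let `R k y = ∃ w, (lgr n ω).Reachable v w ∧ w.1 - w.2 = k ∧ w.1 + w.2 = y` (this is `PF` with `(0,0)`
  replaced by `v`; prove the analogue of `pf_adj`, `pf_even`, `pf_diag` by copying, or for a general `v`). If all `w` have `2 |w.1| < n` and `2 |w.2| < n` then `R k y` gives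
  `-n < k < n` and `-n < y < n`. `gc_iff` with `Rl = Ru = R`. The gap `g0 = v.1 - v.2` (`0` for `v = (0,0)`, `2` for `v = (1,-1)`) satisfies `R g0 0` (`v.1 + v.2 = 0`), and
  `far_gap` connects `(true, g0)` to `w` with `w.2 ≤ 2 - 2 n` or `2 n ≤ w.2`, so `R w.2 0`, `-n < w.2 < n`: contradiction (`2 ≤ n`).
* `arm_pull`: generalisation of `SA_pull`, `SA_of_reach` (CyC, CyB): `lgr_reach` gives `F` with `(gr (pull n F ω)).Reachable v w`; `first_hit` with the function `sn`
  gives `c` with `sn c = k` and a connection through edges with both ends in `sn ≤ k`; such edges are in `bx k`, and an edge of `pull n F ω` in `bx k` is in `pull n (bx k) ω`.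
* `S4_of_W4`: `far_of_W4` and `arm_pull` for both vertices (`n ≤ 2 |w.1|` gives `k ≤ |w.1|`), `not_conn`.
* `Pr_W4_le`: `Pr_mono` and `Pr_pull_bx`.
-/

set_option autoImplicit false

noncomputable section

namespace CY

open Finset FKI FKP

/-- the face `(k, y)` is a vertex of the lifted cluster of `v0` -/
private def EG_R (n : ℕ) (ω : Finset Edge) (v0 : ℤ × ℤ) (k y : ℤ) : Prop :=
  ∃ v : ℤ × ℤ, (lgr n ω).Reachable v0 v ∧ v.1 - v.2 = k ∧ v.1 + v.2 = y

private theorem EG_adj {n : ℕ} {ω : Finset Edge} {v0 : ℤ × ℤ} {e : Edge} (he : red n e ∈ ω) {k y k' y' : ℤ}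
    (h1 : (ea e).1 - (ea e).2 = k) (h2 : (ea e).1 + (ea e).2 = y) (h3 : (eb e).1 - (eb e).2 = k')
    (h4 : (eb e).1 + (eb e).2 = y') : EG_R n ω v0 k y ↔ EG_R n ω v0 k' y' := by
  have hne : ea e ≠ eb e := by
    obtain ⟨a, b, c⟩ := e
    intro h
    have e1 := congrArg Prod.fst h
    have e2 := congrArg Prod.snd h
    cases c <;> simp [ea, eb] at e1 e2
  have hadj : (lgr n ω).Adj (ea e) (eb e) := by
    unfold lgr
    rw [SimpleGraph.fromRel_adj]
    exact ⟨hne, Or.inl ⟨e, he, rfl, rfl⟩⟩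
  constructor
  · rintro ⟨v, hv, h5, h6⟩
    have : v = ea e := Prod.ext (by omega) (by omega)
    rw [this] at hv
    exact ⟨eb e, hv.trans hadj.reachable, h3, h4⟩
  · rintro ⟨v, hv, h5, h6⟩
    have : v = eb e := Prod.ext (by omega) (by omega)
    rw [this] at hv
    exact ⟨ea e, hv.trans hadj.symm.reachable, h1, h2⟩

private theorem EG_even {n : ℕ} {ω : Finset Edge} {v0 : ℤ × ℤ} {k y : ℤ} (h : EG_R n ω v0 k y) :
    (k + y) % 2 = 0 := by
  obtain ⟨v, _, h1, h2⟩ := h
  omega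

private theorem EG_diag (n : ℕ) (ω : Finset Edge) (v0 : ℤ × ℤ) (k y : ℤ) :
    (DG n ω k y → (EG_R n ω v0 k y ↔ EG_R n ω v0 (k + 1) (y + 1))) ∧
    (¬ DG n ω k y → (EG_R n ω v0 k (y + 1) ↔ EG_R n ω v0 (k + 1) y)) := by
  by_cases hp : (k + y) % 2 = 0
  · constructor
    · intro hd
      have he := hd.1 hp
      rw [te_even hp] at he
      refine EG_adj he ?_ ?_ ?_ ?_
      · show (k + y) / 2 - (y - k) / 2 = k
        omega
      · show (k + y) / 2 + (y - k) / 2 = y
        omega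
      · show (k + y) / 2 + 1 - (y - k) / 2 = k + 1
        omega
      · show (k + y) / 2 + 1 + (y - k) / 2 = y + 1
        omega
    · intro _
      constructor
      · intro h
        have := EG_even h
        omega
      · intro h
        have := EG_even h
        omega
  · constructor
    · intro _
      constructor
      · intro h
        exact absurd (EG_even h) hp
      · intro h
        have := EG_even h
        omega
    · intro hd
      have he : red n (te k y) ∈ ω := by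
        by_contra hc
        exact hd ⟨fun c => absurd c hp, fun c => absurd c hc⟩
      rw [te_odd hp] at he
      refine (EG_adj he ?_ ?_ ?_ ?_).symm
      · show (k + y + 1) / 2 - (y - k - 1) / 2 = k + 1
        omega
      · show (k + y + 1) / 2 + (y - k - 1) / 2 = y
        omega
      · show (k + y + 1) / 2 - ((y - k - 1) / 2 + 1) = k
        omega
      · show (k + y + 1) / 2 + ((y - k - 1) / 2 + 1) = y + 1
        omega

theorem far_of_W4 {n m : ℕ} (hn : 2 ≤ n) (hm : n ≤ m) {α : Pat (2 * n)} {ω : Finset Edge} (hW : W4 n m α ω)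
    {v : FKI.V} (hv : v = (0, 0) ∨ v = (1, -1)) :
    ∃ w : FKI.V, (lgr n ω).Reachable v w ∧ ((n : ℤ) ≤ 2 * |w.1| ∨ (n : ℤ) ≤ 2 * |w.2|) := by
  by_contra hc
  push Not at hc
  have bd : ∀ k y : ℤ, EG_R n ω v k y → -(n : ℤ) < k ∧ k < n ∧ -(n : ℤ) < y ∧ y < n := by
    rintro k y ⟨w, hw, h1, h2⟩
    obtain ⟨h3, h4⟩ := hc w hw
    rcases abs_cases w.1 with h5 | h5 <;> rcases abs_cases w.2 with h6 | h6 <;> omega
  have bot : ∀ k : ℤ, ¬ EG_R n ω v k (-(2 * (m : ℤ))) := by
    intro k hk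
    have := bd _ _ hk
    omega
  have top : ∀ k : ℤ, ¬ EG_R n ω v k (2 * (m : ℤ)) := by
    intro k hk
    have := bd _ _ hk
    omega
  obtain ⟨g, hg, hR⟩ : ∃ g : ℤ, (g = 0 ∨ g = 1 ∨ g = 2) ∧ EG_R n ω v g 0 := by
    rcases hv with rfl | rfl
    · exact ⟨0, Or.inl rfl, (0, 0), SimpleGraph.Reachable.refl _, by simp, by simp⟩
    · exact ⟨2, Or.inr (Or.inr rfl), (1, -1), SimpleGraph.Reachable.refl _, by norm_num, by norm_num⟩
  obtain ⟨w, hw1, hw2⟩ := far_gap hW true hg
  have h1 := gc_iff (n := n) (m := m) (α := α) (ω := ω) (by omega) (Rl := EG_R n ω v) (Ru := EG_R n ω v)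
    bot (fun k y _ _ => EG_diag n ω v k y) top (fun k y _ _ => EG_diag n ω v k y) (fun _ _ => Iff.rfl) hw1
  rw [ite_self, ite_self] at h1
  have h2 := bd _ _ (h1.1 hR)
  push_cast at hw2
  omega

theorem arm_pull {n k : ℕ} {ω : Finset Edge} {v w : FKI.V} (hv : sn v ≤ k) (h : (lgr n ω).Reachable v w)
    (hw : (k : ℤ) ≤ |w.1| ∨ (k : ℤ) ≤ |w.2|) : ∃ c : FKI.V, sn c = k ∧ Conn (bx k) (pull n (bx k) ω) v c := by
  obtain ⟨F, hF⟩ := lgr_reach h
  have h1 : (k : ℤ) ≤ sn w := by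
    unfold sn
    rcases hw with h | h
    · exact le_trans h (le_max_left _ _)
    · exact le_trans h (le_max_right _ _)
  obtain ⟨c, hc1, _, hc3⟩ := first_hit (F := pull n F ω) (ω := pull n F ω) sn (fun e _ => sn_edge e) hv h1
    (Conn.of_reach (Finset.Subset.refl _) hF)
  have habs : ∀ a : V, sn a ≤ k → -(k : ℤ) ≤ a.1 ∧ a.1 ≤ k ∧ -(k : ℤ) ≤ a.2 ∧ a.2 ≤ k := by
    intro a ha
    unfold sn at ha
    have h1 := abs_le.1 ((le_max_left _ _).trans ha)
    have h2 := abs_le.1 ((le_max_right _ _).trans ha)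
    exact ⟨h1.1, h1.2, h2.1, h2.2⟩
  refine ⟨c, hc1, ?_⟩
  unfold Conn at hc3 ⊢
  refine SimpleGraph.Reachable.mono (gr_mono ?_) hc3
  intro e he
  rw [mem_inter, mem_filter] at he
  obtain ⟨he1, _, he2, he3⟩ := he
  have h2 := habs _ he2
  have h3 := habs _ he3
  have hb : e ∈ bx k := by
    obtain ⟨x, y, t⟩ := e
    unfold bx
    rw [mem_box]
    cases t
    · simp only [ea, eb, Bool.false_eq_true, if_false] at h2 h3
      left
      refine ⟨rfl, ?_⟩
      simp only
      omega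
    · simp only [ea, eb, if_true] at h2 h3
      right
      refine ⟨rfl, ?_⟩
      simp only
      omega
  rw [mem_inter]
  exact ⟨mem_pull.2 ⟨hb, (mem_pull.1 he1).2⟩, hb⟩

theorem S4_of_W4 {n m k : ℕ} (hm : n ≤ m) (hk : 2 * k < n) (hk1 : 1 ≤ k) {α : Pat (2 * n)} {ω : Finset Edge}
    (hW : W4 n m α ω) : S4 k (pull n (bx k) ω) := by
  refine ⟨?_, ?_, not_conn hm hk hk1 hW⟩
  · obtain ⟨w, hw1, hw2⟩ := far_of_W4 (by omega) hm hW (Or.inl rfl)
    exact arm_pull (by unfold sn; simp) hw1 (by omega)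
  · obtain ⟨w, hw1, hw2⟩ := far_of_W4 (by omega) hm hW (Or.inr rfl)
    refine arm_pull ?_ hw1 (by omega)
    unfold sn
    simp
    exact_mod_cast hk1

theorem Pr_W4_le {n m k : ℕ} (hm : n ≤ m) (hk : 2 * k < n) (hk1 : 1 ≤ k) (α : Pat (2 * n)) :
    Pr (cylE n m) (W4 n m α) ≤ Pr (bx k) (S4 k) := by
  rw [← Pr_pull_bx hk hm (S4 k)]
  exact Pr_mono fun ω _ hω => S4_of_W4 hm hk hk1 hω

end CY
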