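import Mathlib
import Pool.Agent.Lib.MP_216314_pr.N.NDef

/-!
# JOB NTa: arithmetic of representatives modulo `2 m + 1` (about 200 lines)

* `bal m x = (x + m) % (2 m + 1) - m`: facts on `%` (`Int.emod_nonneg`, `Int.emod_lt_of_pos`, `Int.add_mul_emod_self_left`, `Int.emod_add_mul_ediv`, `Int.emod_eq_of_lt`); `omega` cannot multiply: for products `(2 m + 1) * k` set
  `z := (2 * (m : ℤ) + 1) * k` or use `nlinarith`.
* `mem_bx`: unfold `bx`, `box` (`FKP.mem_box`), `nrm`, `ea`, `eb` (two cases of the direction), `max_le_iff`, `abs_le`.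
* `nrm_pr`: `w ≠ 0`: one coordinate has absolute value `≥ 1`.
* `nrm_tor`: `v ∈ [-m, m]²`: the representative has the smallest norm: `|v.1 + (2m+1) k| ≥ |v.1|` if `|v.1| ≤ m`.
-/

set_option autoImplicit false

namespace FKN

open Finset FKI FKP

theorem bal_mem (m : ℕ) (x : ℤ) : -(m : ℤ) ≤ bal m x ∧ bal m x ≤ m := by
  have h1 := Int.emod_nonneg (x + m) (show (2 * (m : ℤ) + 1) ≠ 0 by omega)
  have h2 := Int.emod_lt_of_pos (x + m) (show 0 < (2 * (m : ℤ) + 1) by omega)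
  unfold bal
  constructor <;> omega

theorem bal_self {m : ℕ} {x : ℤ} (h : -(m : ℤ) ≤ x) (h' : x ≤ m) : bal m x = x := by
  unfold bal
  rw [Int.emod_eq_of_lt (by omega) (by omega)]
  omega

theorem bal_add (m : ℕ) (x k : ℤ) : bal m (x + (2 * m + 1) * k) = bal m x := by
  unfold bal
  have e : x + (2 * (m : ℤ) + 1) * k + m = (x + m) + (2 * (m : ℤ) + 1) * k := by ring
  rw [e, Int.add_mul_emod_self_left]

theorem bal_spec (m : ℕ) (x : ℤ) : ∃ k : ℤ, x = bal m x + (2 * m + 1) * k := by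
  refine ⟨(x + m) / (2 * (m : ℤ) + 1), ?_⟩
  have h := Int.emod_add_mul_ediv (x + m) (2 * (m : ℤ) + 1)
  unfold bal
  linarith

theorem bal_eq {m : ℕ} {x y : ℤ} (h : ∃ k : ℤ, x = y + (2 * m + 1) * k) : bal m x = bal m y := by
  obtain ⟨k, rfl⟩ := h
  exact bal_add m y k

theorem bal_bal_add (m : ℕ) (x y : ℤ) : bal m (bal m x + y) = bal m (x + y) := by
  obtain ⟨k, hk⟩ := bal_spec m x
  refine bal_eq ⟨-k, ?_⟩
  linarith

theorem mem_TE {m : ℕ} {e : Edge} : e ∈ TE m ↔ (-(m : ℤ) ≤ e.1 ∧ e.1 ≤ m) ∧ (-(m : ℤ) ≤ e.2.1 ∧ e.2.1 ≤ m) := by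
  unfold TE
  rw [mem_product, mem_product, mem_Icc, mem_Icc]
  constructor
  · rintro ⟨h1, h2, _⟩
    exact ⟨h1, h2⟩
  · rintro ⟨h1, h2⟩
    exact ⟨h1, h2, mem_univ _⟩

theorem mem_TE' {m : ℕ} {e : Edge} : e ∈ TE m ↔ nrm (ea e) ≤ m := by
  rw [mem_TE]
  unfold nrm ea
  rw [max_le_iff, abs_le, abs_le]

theorem card_TE (m : ℕ) : (TE m).card = 2 * (2 * m + 1) ^ 2 := by
  unfold TE
  rw [card_product, card_product, Int.card_Icc, card_univ, Fintype.card_bool]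
  have e : ((m : ℤ) + 1 - -(m : ℤ)).toNat = 2 * m + 1 := by omega
  rw [e]
  ring

theorem cm_mem (m : ℕ) (e : Edge) : cm m e ∈ TE m := by
  rw [mem_TE]
  exact ⟨bal_mem m e.1, bal_mem m e.2.1⟩

theorem cm_self {m : ℕ} {e : Edge} (h : e ∈ TE m) : cm m e = e := by
  rw [mem_TE] at h
  unfold cm
  rw [bal_self h.1.1 h.1.2, bal_self h.2.1 h.2.2]

theorem mem_bx {r : ℕ} {e : Edge} : e ∈ bx r ↔ nrm (ea e) ≤ r ∧ nrm (eb e) ≤ r := by
  obtain ⟨x, y, t⟩ := e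
  unfold bx
  rw [mem_box]
  cases t
  · have e1 : ea ((x, y, false) : Edge) = (x, y) := rfl
    have e2 : eb ((x, y, false) : Edge) = (x + 1, y) := by simp [eb]
    rw [e1, e2]
    unfold nrm
    simp only [max_le_iff, abs_le]
    constructor
    · rintro (⟨_, h1, h2, h3, h4⟩ | ⟨h, _⟩)
      · refine ⟨⟨⟨?_, ?_⟩, ?_, ?_⟩, ⟨?_, ?_⟩, ?_, ?_⟩ <;> omega
      · exact absurd h (by simp)
    · rintro ⟨⟨⟨h1, h2⟩, h3, h4⟩, ⟨h5, h6⟩, h7, h8⟩
      exact Or.inl ⟨trivial, by omega, by omega, by omega, by omega⟩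
  · have e1 : ea ((x, y, true) : Edge) = (x, y) := rfl
    have e2 : eb ((x, y, true) : Edge) = (x, y + 1) := by simp [eb]
    rw [e1, e2]
    unfold nrm
    simp only [max_le_iff, abs_le]
    constructor
    · rintro (⟨h, _⟩ | ⟨_, h1, h2, h3, h4⟩)
      · exact absurd h (by simp)
      · refine ⟨⟨⟨?_, ?_⟩, ?_, ?_⟩, ⟨?_, ?_⟩, ?_, ?_⟩ <;> omega
    · rintro ⟨⟨⟨h1, h2⟩, h3, h4⟩, ⟨h5, h6⟩, h7, h8⟩
      exact Or.inr ⟨trivial, by omega, by omega, by omega, by omega⟩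

theorem bx_mono {r R : ℕ} (h : r ≤ R) : bx r ⊆ bx R := by
  intro e he
  rw [mem_bx] at he ⊢
  constructor <;> omega

theorem bx_sub_TE {r m : ℕ} (h : r ≤ m) : bx r ⊆ TE m := by
  intro e he
  rw [mem_bx] at he
  rw [mem_TE']
  omega

theorem e0_mem {r : ℕ} (h : 1 ≤ r) : e0 ∈ bx r := by
  unfold bx e0
  rw [mem_box]
  exact Or.inl ⟨rfl, by simp, by simp; omega, by simp, by simp⟩

/-- translation of an edge -/
def shv (v : V) (e : Edge) : Edge := (e.1 + v.1, e.2.1 + v.2, e.2.2)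

theorem ea_shv (v : V) (e : Edge) : ea (shv v e) = ea e + v := rfl

theorem eb_shv (v : V) (e : Edge) : eb (shv v e) = eb e + v := by
  obtain ⟨x, y, t⟩ := e
  cases t
  · have e1 : eb (shv v (x, y, false)) = (x + v.1 + 1, y + v.2) := by simp [eb, shv]
    have e2 : eb ((x, y, false) : Edge) = (x + 1, y) := by simp [eb]
    rw [e1, e2]
    refine Prod.ext ?_ ?_
    · show x + v.1 + 1 = x + 1 + v.1
      ring
    · rfl
  · have e1 : eb (shv v (x, y, true)) = (x + v.1, y + v.2 + 1) := by simp [eb, shv]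
    have e2 : eb ((x, y, true) : Edge) = (x, y + 1) := by simp [eb]
    rw [e1, e2]
    refine Prod.ext ?_ ?_
    · rfl
    · show y + v.2 + 1 = y + 1 + v.2
      ring

theorem shv_shv (v w : V) (e : Edge) : shv v (shv w e) = shv (v + w) e := by
  refine Prod.ext ?_ (Prod.ext ?_ rfl)
  · show e.1 + w.1 + v.1 = e.1 + (v.1 + w.1)
    ring
  · show e.2.1 + w.2 + v.2 = e.2.1 + (v.2 + w.2)
    ring

theorem shv_zero (e : Edge) : shv 0 e = e := by
  refine Prod.ext ?_ (Prod.ext ?_ rfl)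
  · show e.1 + 0 = e.1
    ring
  · show e.2.1 + 0 = e.2.1
    ring

theorem shv_inj (v : V) : Function.Injective (shv v) := by
  intro e e' h
  have h1 : shv (-v) (shv v e) = shv (-v) (shv v e') := by rw [h]
  rw [shv_shv, shv_shv, neg_add_cancel, shv_zero, shv_zero] at h1
  exact h1

theorem pr_add (m : ℕ) (w w' : V) : pr m (w + w') = pr m w + pr m w' := by
  refine Prod.ext ?_ ?_
  · show (2 * (m : ℤ) + 1) * (w.1 + w'.1) = (2 * (m : ℤ) + 1) * w.1 + (2 * (m : ℤ) + 1) * w'.1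
    ring
  · show (2 * (m : ℤ) + 1) * (w.2 + w'.2) = (2 * (m : ℤ) + 1) * w.2 + (2 * (m : ℤ) + 1) * w'.2
    ring

theorem pr_neg (m : ℕ) (w : V) : pr m (-w) = - pr m w := by
  refine Prod.ext ?_ ?_
  · show (2 * (m : ℤ) + 1) * (-w.1) = -((2 * (m : ℤ) + 1) * w.1)
    ring
  · show (2 * (m : ℤ) + 1) * (-w.2) = -((2 * (m : ℤ) + 1) * w.2)
    ring

theorem pr_sub (m : ℕ) (w w' : V) : pr m (w - w') = pr m w - pr m w' := by
  rw [sub_eq_add_neg, pr_add, pr_neg, sub_eq_add_neg]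

theorem pr_zero (m : ℕ) : pr m 0 = 0 := by
  refine Prod.ext ?_ ?_
  · show (2 * (m : ℤ) + 1) * 0 = 0
    ring
  · show (2 * (m : ℤ) + 1) * 0 = 0
    ring

theorem pr_inj {m : ℕ} {w w' : V} (h : pr m w = pr m w') : w = w' := by
  have hp : (2 * (m : ℤ) + 1) ≠ 0 := by omega
  have h1 : (2 * (m : ℤ) + 1) * w.1 = (2 * (m : ℤ) + 1) * w'.1 := congrArg Prod.fst h
  have h2 : (2 * (m : ℤ) + 1) * w.2 = (2 * (m : ℤ) + 1) * w'.2 := congrArg Prod.snd h
  exact Prod.ext (mul_left_cancel₀ hp h1) (mul_left_cancel₀ hp h2)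

theorem nrm_nonneg (v : V) : 0 ≤ nrm v := le_max_of_le_left (abs_nonneg _)

theorem nrm_zero : nrm (0 : V) = 0 := by
  unfold nrm
  simp

theorem nrm_neg (v : V) : nrm (-v) = nrm v := by
  unfold nrm
  rw [Prod.fst_neg, Prod.snd_neg, abs_neg, abs_neg]

theorem nrm_add_le (u v : V) : nrm (u + v) ≤ nrm u + nrm v := by
  unfold nrm
  refine max_le ?_ ?_
  · exact (abs_add_le _ _).trans (add_le_add (le_max_left _ _) (le_max_left _ _))
  · exact (abs_add_le _ _).trans (add_le_add (le_max_right _ _) (le_max_right _ _))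

theorem nrm_sub_le (u v : V) : nrm u - nrm v ≤ nrm (u - v) := by
  have h := nrm_add_le (u - v) v
  rw [sub_add_cancel] at h
  linarith

theorem nrm_pr {m : ℕ} {w : V} (hw : w ≠ 0) : 2 * (m : ℤ) + 1 ≤ nrm (pr m w) := by
  have hp : 0 < (2 * (m : ℤ) + 1) := by omega
  have key : ∀ x : ℤ, x ≠ 0 → 2 * (m : ℤ) + 1 ≤ |(2 * (m : ℤ) + 1) * x| := by
    intro x hx
    rw [abs_mul, abs_of_pos hp]
    have h1 : 1 ≤ |x| := Int.one_le_abs hx
    nlinarith
  unfold nrm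
  by_cases h1 : w.1 = 0
  · have h2 : w.2 ≠ 0 := fun h2 => hw (Prod.ext h1 h2)
    exact (key _ h2).trans (le_max_right _ _)
  · exact (key _ h1).trans (le_max_left _ _)

private theorem NTa_abs {m : ℕ} {a : ℤ} (h : |a| ≤ m) (k : ℤ) : |a| ≤ |a + (2 * (m : ℤ) + 1) * k| := by
  by_cases hk : k = 0
  · rw [hk, mul_zero, add_zero]
  · have hp : 0 < (2 * (m : ℤ) + 1) := by omega
    have h1 : 1 ≤ |k| := Int.one_le_abs hk
    have h2 : |(2 * (m : ℤ) + 1) * k| = (2 * (m : ℤ) + 1) * |k| := by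
      rw [abs_mul, abs_of_pos hp]
    have h3 : |(2 * (m : ℤ) + 1) * k| ≤ |a + (2 * (m : ℤ) + 1) * k| + |a| := by
      have h4 := abs_add_le (a + (2 * (m : ℤ) + 1) * k) (-a)
      rw [abs_neg] at h4
      have h5 : a + (2 * (m : ℤ) + 1) * k + -a = (2 * (m : ℤ) + 1) * k := by ring
      rw [h5] at h4
      exact h4
    nlinarith

theorem nrm_tor {m : ℕ} {v : V} (hv : nrm v ≤ m) (w : V) : nrm v ≤ nrm (v + pr m w) := by
  unfold nrm at hv ⊢
  rw [max_le_iff] at hv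
  refine max_le ?_ ?_
  · exact (NTa_abs hv.1 w.1).trans (le_max_left _ _)
  · exact (NTa_abs hv.2 w.2).trans (le_max_right _ _)

/-- the other end of the edge `(0, 0, t)` -/
theorem eb_et (t : Bool) : nrm (eb ((0 : ℤ), (0 : ℤ), t)) = 1 := by
  cases t
  · simp [eb, nrm]
  · simp [eb, nrm]

theorem eb_eq (e : Edge) : eb e = ea e + eb ((0 : ℤ), (0 : ℤ), e.2.2) := by
  obtain ⟨x, y, t⟩ := e
  cases t
  · simp [eb, ea]
  · simp [eb, ea]

theorem cm_pr (m : ℕ) (e : Edge) (w : V) : cm m (shv (pr m w) e) = cm m e := by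
  refine Prod.ext ?_ (Prod.ext ?_ rfl)
  · exact bal_add m e.1 w.1
  · exact bal_add m e.2.1 w.2

/-- two edges with the same representative differ by a period -/
theorem cm_eq {m : ℕ} {e e' : Edge} (h : cm m e = cm m e') : ∃ w : V, e' = shv (pr m w) e := by
  have h1 : bal m e.1 = bal m e'.1 := congrArg (fun z : Edge => z.1) h
  have h2 : bal m e.2.1 = bal m e'.2.1 := congrArg (fun z : Edge => z.2.1) h
  have h3 : (cm m e).2.2 = (cm m e').2.2 := congrArg (fun z : Edge => z.2.2) h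
  obtain ⟨k1, hk1⟩ := bal_spec m e.1
  obtain ⟨k2, hk2⟩ := bal_spec m e.2.1
  obtain ⟨l1, hl1⟩ := bal_spec m e'.1
  obtain ⟨l2, hl2⟩ := bal_spec m e'.2.1
  refine ⟨(l1 - k1, l2 - k2), Prod.ext ?_ (Prod.ext ?_ h3.symm)⟩
  · show e'.1 = e.1 + (2 * (m : ℤ) + 1) * (l1 - k1)
    rw [h1] at hk1
    linarith
  · show e'.2.1 = e.2.1 + (2 * (m : ℤ) + 1) * (l2 - k2)
    rw [h2] at hk2
    linarith

theorem cm_spec (m : ℕ) (e : Edge) : ∃ w : V, e = shv (pr m w) (cm m e) := by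
  obtain ⟨k1, hk1⟩ := bal_spec m e.1
  obtain ⟨k2, hk2⟩ := bal_spec m e.2.1
  exact ⟨(k1, k2), Prod.ext hk1 (Prod.ext hk2 rfl)⟩

theorem cm_shv_cm (m : ℕ) (v : V) (e : Edge) : cm m (shv v (cm m e)) = cm m (shv v e) := by
  refine Prod.ext ?_ (Prod.ext ?_ rfl)
  · exact bal_bal_add m e.1 v.1
  · exact bal_bal_add m e.2.1 v.2

end FKN
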