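import Mathlib
import Pool.Agent.Lib.MP_216314_pr.N.NTa

/-!
# JOB NTb: the lifted graph of a configuration on the torus (about 150 lines)

* `tgr_adj`: unfold (`SimpleGraph.fromRel_adj`); the two ends of an edge are different (`ea e ≠ eb e`).
* `tgr_shift`: an edge shifted by `pr m w` has the same representative (`cm_pr`, `ea_shv`, `eb_shv`), so the translation by `pr m w` maps adjacent vertices to adjacent vertices (`Reachable.map` with a `SimpleGraph.Hom`); the other direction with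
  `-w` (`pr_neg`).
* `conn_tgr`: the edges of `F ⊆ TE m` are their own representatives (`cm_self`), so `gr (ω ∩ F) ≤ tgr m (ω ∩ F)` (`gr` is in `FKI`: `SimpleGraph.fromRel`).
* `nrm_step`: the ends of an edge have distance 1.
* `tgr_map`: a map of vertices `f` with `G'.Reachable (f (ea e)) (f (eb e))` for all edges `e` of the lift maps reachable pairs to reachable pairs (induction on the walk).
* `tgr_ins`: an edge of the lift of `insert e' ω` is an edge of the lift of `ω.erase e'` or a translate of `e'` by a period: `cm m e = e'` with `e' ∈ TE m` means `e = shv (pr m w) e'` (`cm_spec`).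
* `W_inc`, `Gz_inc`: `tgr_mono`.
-/

set_option autoImplicit false

namespace FKN

open Finset FKI FKP

private theorem NTb_ne (e : Edge) : ea e ≠ eb e := by
  obtain ⟨a, b, c⟩ := e
  intro h
  have e1 := congrArg Prod.fst h
  have e2 := congrArg Prod.snd h
  cases c <;> simp [ea, eb] at e1 e2

theorem tgr_adj {m : ℕ} {ω : Finset Edge} {u v : V} : (tgr m ω).Adj u v ↔
    ∃ e : Edge, cm m e ∈ ω ∧ ((ea e = u ∧ eb e = v) ∨ (ea e = v ∧ eb e = u)) := by
  unfold tgr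
  rw [SimpleGraph.fromRel_adj]
  constructor
  · rintro ⟨_, ⟨e, h1, h2, h3⟩ | ⟨e, h1, h2, h3⟩⟩
    · exact ⟨e, h1, Or.inl ⟨h2, h3⟩⟩
    · exact ⟨e, h1, Or.inr ⟨h2, h3⟩⟩
  · rintro ⟨e, h1, ⟨rfl, rfl⟩ | ⟨rfl, rfl⟩⟩
    · exact ⟨NTb_ne e, Or.inl ⟨e, h1, rfl, rfl⟩⟩
    · exact ⟨(NTb_ne e).symm, Or.inr ⟨e, h1, rfl, rfl⟩⟩

theorem tgr_edge {m : ℕ} {ω : Finset Edge} {e : Edge} (h : cm m e ∈ ω) : (tgr m ω).Reachable (ea e) (eb e) := by
  exact (tgr_adj.2 ⟨e, h, Or.inl ⟨rfl, rfl⟩⟩).reachable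

theorem tgr_mono {m : ℕ} {ω ω' : Finset Edge} (h : ω ⊆ ω') : tgr m ω ≤ tgr m ω' := by
  intro u v huv
  rw [tgr_adj] at huv ⊢
  obtain ⟨e, h1, h2⟩ := huv
  exact ⟨e, h h1, h2⟩

private theorem NTb_shift (m : ℕ) (ω : Finset Edge) (w : V) {u v : V} (h : (tgr m ω).Reachable u v) :
    (tgr m ω).Reachable (u + pr m w) (v + pr m w) := by
  obtain ⟨p⟩ := h
  induction p with
  | nil => exact SimpleGraph.Reachable.refl _
  | @cons a b c hab p ih =>
    refine SimpleGraph.Reachable.trans (SimpleGraph.Adj.reachable ?_) ih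
    rw [tgr_adj] at hab ⊢
    obtain ⟨e, h1, h2⟩ := hab
    refine ⟨shv (pr m w) e, by rw [cm_pr]; exact h1, ?_⟩
    rw [ea_shv, eb_shv]
    rcases h2 with ⟨rfl, rfl⟩ | ⟨rfl, rfl⟩
    · exact Or.inl ⟨rfl, rfl⟩
    · exact Or.inr ⟨rfl, rfl⟩

theorem tgr_shift (m : ℕ) (ω : Finset Edge) (w u v : V) :
    (tgr m ω).Reachable (u + pr m w) (v + pr m w) ↔ (tgr m ω).Reachable u v := by
  refine ⟨fun h => ?_, NTb_shift m ω w⟩
  have h1 := NTb_shift m ω (-w) h
  rw [pr_neg, add_neg_cancel_right, add_neg_cancel_right] at h1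
  exact h1

theorem conn_tgr {m : ℕ} {F ω : Finset Edge} (hF : F ⊆ TE m) {u v : V} (h : Conn F ω u v) :
    (tgr m (ω ∩ F)).Reachable u v := by
  refine SimpleGraph.Reachable.mono ?_ h
  intro a b hab
  unfold gr at hab
  rw [SimpleGraph.fromRel_adj] at hab
  rw [tgr_adj]
  obtain ⟨_, ⟨e, h1, h2, h3⟩ | ⟨e, h1, h2, h3⟩⟩ := hab
  · exact ⟨e, by rw [cm_self (hF (Finset.mem_inter.1 h1).2)]; exact h1, Or.inl ⟨h2, h3⟩⟩
  · exact ⟨e, by rw [cm_self (hF (Finset.mem_inter.1 h1).2)]; exact h1, Or.inr ⟨h2, h3⟩⟩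

private theorem NTb_end (e : Edge) : |(ea e).1 - (eb e).1| ≤ 1 ∧ |(ea e).2 - (eb e).2| ≤ 1 := by
  obtain ⟨a, b, c⟩ := e
  cases c
  · constructor
    · show |a - (a + 1)| ≤ 1
      rw [abs_le]
      omega
    · show |b - b| ≤ 1
      rw [abs_le]
      omega
  · constructor
    · show |a - a| ≤ 1
      rw [abs_le]
      omega
    · show |b - (b + 1)| ≤ 1
      rw [abs_le]
      omega

private theorem NTb_near {u v : V} (h : |u.1 - v.1| ≤ 1 ∧ |u.2 - v.2| ≤ 1) :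
    |nrm u - nrm v| ≤ 1 ∧ |u.1 - v.1| ≤ 1 ∧ |u.2 - v.2| ≤ 1 := by
  refine ⟨?_, h⟩
  have h1 : nrm (u - v) ≤ 1 := max_le h.1 h.2
  have h2 : nrm (v - u) ≤ 1 := by
    have e : v - u = -(u - v) := by rw [neg_sub]
    rw [e, nrm_neg]
    exact h1
  have h3 := nrm_sub_le u v
  have h4 := nrm_sub_le v u
  rw [abs_le]
  omega

theorem nrm_step {m : ℕ} {ω : Finset Edge} {u v : V} (h : (tgr m ω).Adj u v) :
    |nrm u - nrm v| ≤ 1 ∧ |u.1 - v.1| ≤ 1 ∧ |u.2 - v.2| ≤ 1 := by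
  rw [tgr_adj] at h
  obtain ⟨e, _, ⟨rfl, rfl⟩ | ⟨rfl, rfl⟩⟩ := h
  · exact NTb_near (NTb_end e)
  · refine NTb_near ⟨?_, ?_⟩
    · rw [abs_sub_comm]
      exact (NTb_end e).1
    · rw [abs_sub_comm]
      exact (NTb_end e).2

theorem tgr_map {m : ℕ} {ω : Finset Edge} {G : SimpleGraph V} (f : V → V)
    (hf : ∀ e : Edge, cm m e ∈ ω → G.Reachable (f (ea e)) (f (eb e))) {u v : V} (h : (tgr m ω).Reachable u v) :
    G.Reachable (f u) (f v) := by
  obtain ⟨p⟩ := h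
  induction p with
  | nil => exact SimpleGraph.Reachable.refl _
  | @cons a b c hab p ih =>
    refine SimpleGraph.Reachable.trans ?_ ih
    rw [tgr_adj] at hab
    obtain ⟨e, h1, ⟨rfl, rfl⟩ | ⟨rfl, rfl⟩⟩ := hab
    · exact hf e h1
    · exact (hf e h1).symm

theorem tgr_ins {m : ℕ} {ω : Finset Edge} {e' : Edge} {e : Edge} (h : cm m e ∈ insert e' ω) :
    cm m e ∈ ω.erase e' ∨ ∃ w : V, e = shv (pr m w) e' := by
  by_cases h1 : cm m e = e'
  · right
    obtain ⟨w, hw⟩ := cm_spec m e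
    rw [h1] at hw
    exact ⟨w, hw⟩
  · left
    exact Finset.mem_erase.2 ⟨h1, (Finset.mem_insert.1 h).resolve_left h1⟩

theorem W_inc (m : ℕ) : IPC.Inc (W m) := by
  rintro ω ω' h ⟨v, w, hw, hr⟩
  exact ⟨v, w, hw, hr.mono (tgr_mono h)⟩

theorem Gz_inc (m : ℕ) : IPC.Inc (Gz m) := by
  rintro ω ω' h ⟨w, hw, hr⟩
  exact ⟨w, hw, hr.mono (tgr_mono h)⟩

private theorem NTb_empty {m : ℕ} {u v : V} (h : (tgr m ∅).Reachable u v) : u = v := by
  obtain ⟨p⟩ := h
  cases p with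
  | nil => rfl
  | cons hab p =>
    rw [tgr_adj] at hab
    obtain ⟨e, h1, _⟩ := hab
    exact absurd h1 (Finset.notMem_empty _)

/-- the lift of the empty configuration has no edges -/
theorem not_W_empty (m : ℕ) : ¬ W m ∅ := by
  rintro ⟨v, w, hw, h⟩
  have h1 : pr m w = pr m 0 := by
    rw [pr_zero]
    exact left_eq_add.1 (NTb_empty h)
  exact hw (pr_inj h1)

/-- the full configuration connects everything -/
theorem Gz_full (m : ℕ) : Gz m (TE m) := by
  have key : ∀ k : ℕ, (tgr m (TE m)).Reachable 0 ((k : ℤ), (0 : ℤ)) := by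
    intro k
    induction k with
    | zero => exact SimpleGraph.Reachable.refl _
    | succ k ih =>
      have h1 := tgr_edge (cm_mem m ((k : ℤ), (0 : ℤ), false))
      have e1 : ea ((k : ℤ), (0 : ℤ), false) = ((k : ℤ), (0 : ℤ)) := rfl
      have e2 : eb ((k : ℤ), (0 : ℤ), false) = (((k + 1 : ℕ) : ℤ), (0 : ℤ)) := by
        show ((k : ℤ) + 1, (0 : ℤ)) = _
        push_cast
        rfl
      rw [e1, e2] at h1
      exact ih.trans h1
  refine ⟨(1, 0), fun h => one_ne_zero (congrArg Prod.fst h), ?_⟩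
  have h2 := key (2 * m + 1)
  have e3 : (((2 * m + 1 : ℕ) : ℤ), (0 : ℤ)) = pr m (1, 0) := by
    show _ = ((2 * (m : ℤ) + 1) * 1, (2 * (m : ℤ) + 1) * 0)
    rw [mul_one, mul_zero]
    push_cast
    rfl
  rw [e3] at h2
  exact h2

end FKN
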