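import Mathlib
import Pool.Agent.Lib.MP_216314_pr.N.NTb

/-!
# JOB NTd: symmetries of the torus (about 250 lines)

`st m v`: translation by `v` on `TE m`, `sh m v ω` the translated configuration, `tre` transposition.
* `st_st`: `cm_shv_cm`, `shv_shv`.  `st_inj`: `st (-v) (st v e) = st 0 e = e` for `e ∈ TE m`.  `st_image`: injective map of a finite set into itself (`Finset.eq_of_subset_of_card_le`, `card_image_of_injOn`), or directly with the inverse.
* `mem_sh'`: `e ∈ TE m`, `ω ⊆ TE m`: `e ∈ sh m v ω ↔ st m (-v) e ∈ ω`.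
* `Pr_sh`: `IPC.EE_image` (with `hφ = st_inj`) and `st_image`.
* `tgr_sh`: an edge `e` of the lift of `ω` (`cm m e ∈ ω`) gives the edge `shv v e` of the lift of `sh m v ω`: `cm m (shv v e) = st m v (cm m e)` (`cm_shv_cm`); so the translation by `v` maps the lift of `ω` to the lift of `sh m v ω`
  (`Reachable.map`), and back with `sh m (-v) (sh m v ω) = ω`.
* `sh_insert`, `sh_erase`: image of insert / erase under an injective map (`ω ⊆ TE m`, `e ∈ TE m`).
* `W_sh`: `tgr_sh`.  `W_tr`: transposition maps the lift of `ω` to the lift of `ω.image tre` (`cm m (tre e) = tre (cm m e)`), `(v, w) ↦` swapped.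
* `rho_all`: `e = (x, y, t)`; `t = false`: `e = st m (x, y) e0` and `Piv e (W m) (sh m v ω) ↔ Piv e0 (W m) ω` (`sh_insert`, `sh_erase`, `W_sh`), then `Pr_sh`; `t = true`: transpose first.
* `Pr_FT`: probability of the recentred event: for `r ≤ m`, `v` arbitrary: `Pr q (TE m) (fun ω => A (sh m (-v) ω)) = Pr q (bx r) A` if `A` depends only on `bx r` (`Pr_sh`, `IPC.Pr_restrict`, `bx_sub_TE`).
* `dep_sh`: if `A` depends on `F ⊆ TE m` only, then `ω ↦ A (sh m (-v) ω)` depends on `F.image (st m v)` only: `sh m (-v) (ω ∩ F.image (st m v)) = sh m (-v) ω ∩ F`.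
-/

set_option autoImplicit false

namespace FKN

open Finset FKI FKP

/-- translation on the torus -/
def st (m : ℕ) (v : V) (e : Edge) : Edge := cm m (shv v e)

/-- translated configuration -/
def sh (m : ℕ) (v : V) (ω : Finset Edge) : Finset Edge := ω.image (st m v)

/-- transposition -/
def tre (e : Edge) : Edge := (e.2.1, e.1, !e.2.2)

theorem st_mem (m : ℕ) (v : V) (e : Edge) : st m v e ∈ TE m := by
  exact cm_mem m _

theorem st_st (m : ℕ) (v w : V) (e : Edge) : st m v (st m w e) = st m (v + w) e := by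
  unfold st
  rw [cm_shv_cm, shv_shv]

theorem st_zero {m : ℕ} {e : Edge} (h : e ∈ TE m) : st m 0 e = e := by
  unfold st
  rw [shv_zero, cm_self h]

theorem st_neg {m : ℕ} (v : V) {e : Edge} (h : e ∈ TE m) : st m (-v) (st m v e) = e := by
  rw [st_st, neg_add_cancel, st_zero h]

theorem st_inj (m : ℕ) (v : V) : Set.InjOn (st m v) (TE m : Set Edge) := by
  intro e he e' he' h
  have h1 := congrArg (st m (-v)) h
  rwa [st_neg v he, st_neg v he'] at h1

theorem st_image (m : ℕ) (v : V) : (TE m).image (st m v) = TE m := by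
  ext e
  rw [Finset.mem_image]
  constructor
  · rintro ⟨e', _, rfl⟩
    exact st_mem m v e'
  · intro he
    exact ⟨st m (-v) e, st_mem m _ _, by rw [st_st, add_neg_cancel, st_zero he]⟩

theorem sh_sub (m : ℕ) (v : V) (ω : Finset Edge) : sh m v ω ⊆ TE m := by
  intro e he
  obtain ⟨e', _, rfl⟩ := Finset.mem_image.1 he
  exact st_mem m v e'

theorem sh_mono {m : ℕ} (v : V) {ω ω' : Finset Edge} (h : ω ⊆ ω') : sh m v ω ⊆ sh m v ω' := by
  exact Finset.image_subset_image h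

theorem sh_neg {m : ℕ} (v : V) {ω : Finset Edge} (h : ω ⊆ TE m) : sh m (-v) (sh m v ω) = ω := by
  ext e
  constructor
  · intro he
    obtain ⟨e1, h1, rfl⟩ := Finset.mem_image.1 he
    obtain ⟨e2, h2, rfl⟩ := Finset.mem_image.1 h1
    rw [st_neg v (h h2)]
    exact h2
  · intro he
    exact Finset.mem_image.2 ⟨st m v e, Finset.mem_image_of_mem _ he, st_neg v (h he)⟩

theorem sh_sh (m : ℕ) (v w : V) (ω : Finset Edge) : sh m v (sh m w ω) = sh m (v + w) ω := by
  unfold sh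
  rw [Finset.image_image]
  refine Finset.image_congr fun e _ => ?_
  exact st_st m v w e

theorem sh_zero {m : ℕ} {ω : Finset Edge} (h : ω ⊆ TE m) : sh m 0 ω = ω := by
  ext e
  constructor
  · intro he
    obtain ⟨e1, h1, rfl⟩ := Finset.mem_image.1 he
    rw [st_zero (h h1)]
    exact h1
  · intro he
    exact Finset.mem_image.2 ⟨e, he, st_zero (h he)⟩

theorem mem_sh {m : ℕ} (v : V) {ω : Finset Edge} (hω : ω ⊆ TE m) {e : Edge} :
    cm m e ∈ sh m v ω ↔ cm m (shv (-v) e) ∈ ω := by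
  constructor
  · intro h
    obtain ⟨e', h1, h2⟩ := Finset.mem_image.1 h
    have h3 : st m (-v) (st m v e') = e' := st_neg v (hω h1)
    rw [h2] at h3
    unfold st at h3
    rw [cm_shv_cm] at h3
    rw [h3]
    exact h1
  · intro h
    refine Finset.mem_image.2 ⟨_, h, ?_⟩
    unfold st
    rw [cm_shv_cm, shv_shv, add_neg_cancel, shv_zero]

theorem sh_insert {m : ℕ} (v : V) (ω : Finset Edge) (e : Edge) :
    sh m v (insert e ω) = insert (st m v e) (sh m v ω) := by
  exact Finset.image_insert _ _ _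

theorem sh_erase {m : ℕ} (v : V) {ω : Finset Edge} (hω : ω ⊆ TE m) {e : Edge} (he : e ∈ TE m) :
    sh m v (ω.erase e) = (sh m v ω).erase (st m v e) := by
  ext x
  unfold sh
  rw [Finset.mem_erase, Finset.mem_image, Finset.mem_image]
  constructor
  · rintro ⟨y, hy, rfl⟩
    obtain ⟨h1, h2⟩ := Finset.mem_erase.1 hy
    exact ⟨fun h => h1 (st_inj m v (hω h2) he h), y, h2, rfl⟩
  · rintro ⟨h1, y, hy, rfl⟩
    exact ⟨y, Finset.mem_erase.2 ⟨fun h => h1 (by rw [h]), hy⟩, rfl⟩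

theorem sh_union (m : ℕ) (v : V) (ω S : Finset Edge) : sh m v (ω ∪ S) = sh m v ω ∪ sh m v S := by
  exact Finset.image_union _ _

theorem sh_sdiff {m : ℕ} (v : V) {ω S : Finset Edge} (hω : ω ⊆ TE m) (hS : S ⊆ TE m) :
    sh m v (ω \ S) = sh m v ω \ sh m v S := by
  ext x
  unfold sh
  rw [Finset.mem_sdiff, Finset.mem_image, Finset.mem_image, Finset.mem_image]
  constructor
  · rintro ⟨y, hy, rfl⟩
    obtain ⟨h1, h2⟩ := Finset.mem_sdiff.1 hy
    refine ⟨⟨y, h1, rfl⟩, ?_⟩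
    rintro ⟨z, hz, h3⟩
    exact h2 (by rw [← st_inj m v (hS hz) (hω h1) h3]; exact hz)
  · rintro ⟨⟨y, hy, rfl⟩, h1⟩
    exact ⟨y, Finset.mem_sdiff.2 ⟨hy, fun h => h1 ⟨y, h, rfl⟩⟩, rfl⟩

theorem sh_inter {m : ℕ} (v : V) {ω S : Finset Edge} (hω : ω ⊆ TE m) (hS : S ⊆ TE m) :
    sh m v (ω ∩ S) = sh m v ω ∩ sh m v S := by
  ext x
  unfold sh
  rw [Finset.mem_inter, Finset.mem_image, Finset.mem_image, Finset.mem_image]
  constructor
  · rintro ⟨y, hy, rfl⟩
    obtain ⟨h1, h2⟩ := Finset.mem_inter.1 hy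
    exact ⟨⟨y, h1, rfl⟩, ⟨y, h2, rfl⟩⟩
  · rintro ⟨⟨y, hy, rfl⟩, ⟨z, hz, h1⟩⟩
    have h2 := st_inj m v (hS hz) (hω hy) h1
    rw [h2] at hz
    exact ⟨y, Finset.mem_inter.2 ⟨hy, hz⟩, rfl⟩

private theorem NTd_fwd {m : ℕ} (v : V) (ω : Finset Edge) {a b : V} (h : (tgr m ω).Reachable a b) :
    (tgr m (sh m v ω)).Reachable (a + v) (b + v) := by
  refine tgr_map (fun x => x + v) (fun e he => ?_) h
  have h1 : cm m (shv v e) ∈ sh m v ω := by
    refine Finset.mem_image.2 ⟨cm m e, he, ?_⟩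
    unfold st
    rw [cm_shv_cm]
  have h2 := tgr_edge h1
  rwa [ea_shv, eb_shv] at h2

theorem tgr_sh {m : ℕ} (v : V) {ω : Finset Edge} (hω : ω ⊆ TE m) (a b : V) :
    (tgr m (sh m v ω)).Reachable (a + v) (b + v) ↔ (tgr m ω).Reachable a b := by
  refine ⟨fun h => ?_, NTd_fwd v ω⟩
  have h1 := NTd_fwd (-v) (sh m v ω) h
  rwa [sh_neg v hω, add_neg_cancel_right, add_neg_cancel_right] at h1

theorem W_sh {m : ℕ} (v : V) {ω : Finset Edge} (hω : ω ⊆ TE m) : W m (sh m v ω) ↔ W m ω := by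
  constructor
  · rintro ⟨x, w, hw, h⟩
    refine ⟨x - v, w, hw, ?_⟩
    rw [← tgr_sh v hω]
    have e1 : x - v + v = x := sub_add_cancel x v
    have e2 : x - v + pr m w + v = x + pr m w := by abel
    rw [e1, e2]
    exact h
  · rintro ⟨x, w, hw, h⟩
    refine ⟨x + v, w, hw, ?_⟩
    have e2 : x + v + pr m w = x + pr m w + v := by abel
    rw [e2, tgr_sh v hω]
    exact h

theorem Pr_sh (q : ℝ) (m : ℕ) (v : V) (A : Finset Edge → Prop) :
    IPC.Pr q (TE m) (fun ω => A (sh m v ω)) = IPC.Pr q (TE m) A := by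
  unfold IPC.Pr sh
  rw [← IPC.EE_image q (TE m) (st m v) (st_inj m v) (fun ω => IPC.ind (A ω)), st_image]

theorem tre_tre (e : Edge) : tre (tre e) = e := by
  obtain ⟨a, b, c⟩ := e
  unfold tre
  simp

theorem tre_mem {m : ℕ} {e : Edge} : tre e ∈ TE m ↔ e ∈ TE m := by
  rw [mem_TE, mem_TE]
  unfold tre
  exact and_comm

private theorem NTd_image (ω : Finset Edge) : (ω.image tre).image tre = ω := by
  rw [Finset.image_image]
  have : tre ∘ tre = id := funext tre_tre
  rw [this, Finset.image_id]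

private theorem NTd_trfwd {m : ℕ} (ω : Finset Edge) {a b : V} (h : (tgr m ω).Reachable a b) :
    (tgr m (ω.image tre)).Reachable a.swap b.swap := by
  refine tgr_map Prod.swap (fun e he => ?_) h
  have h1 : cm m (tre e) ∈ ω.image tre := Finset.mem_image.2 ⟨cm m e, he, rfl⟩
  have h2 := tgr_edge h1
  have e1 : ea (tre e) = (ea e).swap := rfl
  have e2 : eb (tre e) = (eb e).swap := by
    obtain ⟨x, y, t⟩ := e
    cases t <;> rfl
  rwa [e1, e2] at h2

theorem tgr_tr {m : ℕ} (ω : Finset Edge) (a b : V) :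
    (tgr m (ω.image tre)).Reachable a.swap b.swap ↔ (tgr m ω).Reachable a b := by
  refine ⟨fun h => ?_, NTd_trfwd ω⟩
  have h1 := NTd_trfwd (ω.image tre) h
  rwa [NTd_image, Prod.swap_swap, Prod.swap_swap] at h1

private theorem NTd_Wtr {m : ℕ} (ω : Finset Edge) (h : W m ω) : W m (ω.image tre) := by
  obtain ⟨x, w, hw, h⟩ := h
  refine ⟨x.swap, w.swap, ?_, ?_⟩
  · intro h1
    refine hw ?_
    have h2 := congrArg Prod.swap h1
    rw [Prod.swap_swap] at h2
    exact h2
  · exact NTd_trfwd ω h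

theorem W_tr {m : ℕ} (ω : Finset Edge) : W m (ω.image tre) ↔ W m ω := by
  refine ⟨fun h => ?_, NTd_Wtr ω⟩
  have h1 := NTd_Wtr (ω.image tre) h
  rwa [NTd_image] at h1

theorem Pr_tr (q : ℝ) (m : ℕ) (A : Finset Edge → Prop) :
    IPC.Pr q (TE m) (fun ω => A (ω.image tre)) = IPC.Pr q (TE m) A := by
  have hinj : Function.Injective tre := fun a b h => by
    have := congrArg tre h
    rwa [tre_tre, tre_tre] at this
  have himg : (TE m).image tre = TE m := by
    ext e
    rw [Finset.mem_image]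
    constructor
    · rintro ⟨e', h, rfl⟩
      exact tre_mem.2 h
    · intro he
      exact ⟨tre e, tre_mem.2 he, tre_tre e⟩
  unfold IPC.Pr
  rw [← IPC.EE_image q (TE m) tre (hinj.injOn) (fun ω => IPC.ind (A ω)), himg]

private theorem NTd_congr (q : ℝ) (E : Finset Edge) {A B : Finset Edge → Prop}
    (h : ∀ ω, ω ⊆ E → (A ω ↔ B ω)) : IPC.Pr q E A = IPC.Pr q E B := by
  unfold IPC.Pr
  refine IPC.EE_congr q E fun ω hω => ?_
  rw [propext (h ω hω)]

private theorem NTd_e0 {m : ℕ} : e0 ∈ TE m := by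
  rw [mem_TE]
  unfold e0
  refine ⟨⟨?_, ?_⟩, ?_, ?_⟩
  · show -(m : ℤ) ≤ 0
    omega
  · show (0 : ℤ) ≤ m
    omega
  · show -(m : ℤ) ≤ 0
    omega
  · show (0 : ℤ) ≤ m
    omega

private theorem NTd_hor (q : ℝ) {m : ℕ} {x y : ℤ} (he : ((x, y, false) : Edge) ∈ TE m) :
    IPC.Pr q (TE m) (Piv (x, y, false) (W m)) = rho q m := by
  have h1 : st m (x, y) e0 = (x, y, false) := by
    unfold st
    have e1 : shv (x, y) e0 = (x, y, false) := by
      show (((0 : ℤ) + x, (0 : ℤ) + y, false) : Edge) = (x, y, false)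
      rw [zero_add, zero_add]
    rw [e1, cm_self he]
  rw [← Pr_sh q m (x, y)]
  unfold rho
  refine NTd_congr q (TE m) fun ω hω => ?_
  unfold Piv
  rw [← h1, ← sh_insert, ← sh_erase (x, y) hω NTd_e0,
    W_sh (x, y) (Finset.insert_subset NTd_e0 hω), W_sh (x, y) ((Finset.erase_subset _ _).trans hω)]

theorem rho_all (q : ℝ) {m : ℕ} {e : Edge} (he : e ∈ TE m) : IPC.Pr q (TE m) (Piv e (W m)) = rho q m := by
  obtain ⟨x, y, t⟩ := e
  cases t
  · exact NTd_hor q he
  · have he' : ((y, x, false) : Edge) ∈ TE m := tre_mem.1 he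
    rw [← NTd_hor q he', ← Pr_tr q m]
    refine NTd_congr q (TE m) fun ω _ => ?_
    have e1 : ((x, y, true) : Edge) = tre (y, x, false) := rfl
    have hinj : Function.Injective tre := fun a b h => by
      have := congrArg tre h
      rwa [tre_tre, tre_tre] at this
    unfold Piv
    rw [e1, ← Finset.image_insert, ← Finset.image_erase hinj, W_tr, W_tr]

theorem Pr_FT (q : ℝ) {r m : ℕ} (hr : r ≤ m) (v : V) {A : Finset Edge → Prop} (hA : ∀ ω, A ω ↔ A (ω ∩ bx r)) :
    IPC.Pr q (TE m) (fun ω => A (sh m (-v) ω)) = IPC.Pr q (bx r) A := by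
  rw [Pr_sh q m (-v) A]
  exact IPC.Pr_restrict q (bx_sub_TE hr) A fun ω _ => hA ω

theorem dep_sh {m : ℕ} (v : V) {F : Finset Edge} (hF : F ⊆ TE m) {A : Finset Edge → Prop} (hA : ∀ ω, A ω ↔ A (ω ∩ F))
    {ω : Finset Edge} (hω : ω ⊆ TE m) : A (sh m (-v) ω) ↔ A (sh m (-v) (ω ∩ F.image (st m v))) := by
  have h1 : sh m (-v) (ω ∩ F.image (st m v)) = sh m (-v) ω ∩ F := by
    have h2 := sh_inter (-v) hω (sh_sub m v F)
    rw [sh_neg v hF] at h2
    exact h2
  rw [h1, hA (sh m (-v) ω)]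

end FKN
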