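import Mathlib
import Pool.Agent.Lib.MP_216314_pr.N.NTb

/-!
# JOB NTc: exits from boxes, crossings of annuli and strips (about 250 lines)

GENERAL GRAPH LEMMAS (any `SimpleGraph V`, `f : V → ℤ` changing by at most one along edges).
* `gexit1` (first exit): `f v ≤ r ≤ f u`, `G.Reachable v u`: there is `z` with `f z = r`, connected to `v` inside `{f ≤ r}`.  Induction on the walk from `v` to `u` for all starting vertices: if `f v = r` take `z = v`; else `f v < r` and the next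
  vertex `v'` has `f v' ≤ r`; by induction `v'` is connected to `z` inside `{f ≤ r}`; add the edge `v v'`.
* `gexit2` (last exit, then first arrival): `f v ≤ r ≤ R ≤ f u`: there are `a`, `z` with `f a = r`, `f z = R`, connected by a walk all of whose edges `x y` have `r ≤ f x, f y ≤ R` and not (`f x ≤ r` and `f y ≤ r`), and `G.Reachable v a`.
  Proof: if `r = R`: `gexit1` and `a = z`.  Otherwise first apply `gexit1` to the reversed walk: let `G' =` the graph of the edges of `G` with an end of `f`-value `> r`.  Induction on the walk from `v` to `u` (`R ≤ f u`), for all starting vertices with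
  `f v ≤ r`, gives: exists `a`, `f a = r`, `G.Reachable v a`, `G'.Reachable a u` where the walk of `G'` can be chosen with all vertices `≥ r`; then `gexit1` for the graph `rst G' {r ≤ f}` from `a` to `u`.  (Induction: walk `v, v', …, u`.  Prove for ALL
  `v`: either `f v ≤ r` and the conclusion holds, or `f v > r` and [`v` is connected to `u` in `rst G' {r ≤ f}` or the conclusion holds for `v`].)
* `subcross`: the same for a strip; consequence of `gexit2` (forget the second property of the edges).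
TORUS / PLANE: `exit1`, `exit2`: `gexit1`, `gexit2` for `G = tgr m ω`, `f = nrm` (`nrm_step`); an edge `e` of the lift with both ends of norm `≤ r ≤ m` is in `bx r ⊆ TE m` (`mem_bx`, `bx_sub_TE`), there `cm m e = e` (`cm_self`); if moreover one end has norm
`> r'` it is in `bx r \ bx r'`.  `exitA`, `exitB`: the same for `G = gr (ω ∩ F)`.
-/

set_option autoImplicit false

namespace FKN

open Finset FKI FKP

/-- restriction of a graph to a set of vertices -/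
def rst (G : SimpleGraph V) (S : Set V) : SimpleGraph V where
  Adj u v := G.Adj u v ∧ u ∈ S ∧ v ∈ S
  symm := ⟨fun _ _ h => ⟨h.1.symm, h.2.2, h.2.1⟩⟩
  loopless := ⟨fun _ h => G.loopless.irrefl _ h.1⟩

/-- edges in `{f ≤ R}` which are not in `{f ≤ r}` -/
def rsa (G : SimpleGraph V) (f : V → ℤ) (r R : ℤ) : SimpleGraph V where
  Adj u v := G.Adj u v ∧ (r ≤ f u ∧ f u ≤ R) ∧ (r ≤ f v ∧ f v ≤ R) ∧ (r < f u ∨ r < f v)
  symm := ⟨fun _ _ h => ⟨h.1.symm, h.2.2.1, h.2.1, h.2.2.2.symm⟩⟩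
  loopless := ⟨fun _ h => G.loopless.irrefl _ h.1⟩

theorem gexit1 {G : SimpleGraph V} (f : V → ℤ) (hf : ∀ u v, G.Adj u v → |f u - f v| ≤ 1) {v u : V}
    (h : G.Reachable v u) {r : ℤ} (hv : f v ≤ r) (hu : r ≤ f u) :
    ∃ z : V, f z = r ∧ (rst G {x | f x ≤ r}).Reachable v z := by
  obtain ⟨p⟩ := h
  induction p with
  | nil => exact ⟨_, le_antisymm hv hu, SimpleGraph.Reachable.refl _⟩
  | @cons a b c hab p ih =>
    by_cases hr : f a = r
    · exact ⟨a, hr, SimpleGraph.Reachable.refl _⟩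
    · have h1 := abs_le.1 (hf a b hab)
      have hb : f b ≤ r := by omega
      obtain ⟨z, hz, h2⟩ := ih hb hu
      refine ⟨z, hz, SimpleGraph.Reachable.trans (SimpleGraph.Adj.reachable ?_) h2⟩
      exact ⟨hab, hv, hb⟩

/-- edges above the level `r` -/
def NTc_ge (G : SimpleGraph V) (f : V → ℤ) (r : ℤ) : SimpleGraph V where
  Adj u v := G.Adj u v ∧ r ≤ f u ∧ r ≤ f v ∧ (r < f u ∨ r < f v)
  symm := ⟨fun _ _ h => ⟨h.1.symm, h.2.2.1, h.2.1, h.2.2.2.symm⟩⟩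
  loopless := ⟨fun _ h => G.loopless.irrefl _ h.1⟩

theorem NTc_last {G : SimpleGraph V} (f : V → ℤ) (hf : ∀ u v, G.Adj u v → |f u - f v| ≤ 1) {v u : V}
    (h : G.Reachable v u) {r : ℤ} (hu : r ≤ f u) :
    (∃ a : V, f a = r ∧ G.Reachable v a ∧ (NTc_ge G f r).Reachable a u) ∨
      (r < f v ∧ (NTc_ge G f r).Reachable v u) := by
  obtain ⟨p⟩ := h
  induction p with
  | @nil a =>
    rcases eq_or_lt_of_le hu with h1 | h1
    · exact Or.inl ⟨a, h1.symm, SimpleGraph.Reachable.refl _, SimpleGraph.Reachable.refl _⟩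
    · exact Or.inr ⟨h1, SimpleGraph.Reachable.refl _⟩
  | @cons a b c hab p ih =>
    rcases ih hu with ⟨a', h1, h2, h3⟩ | ⟨h1, h2⟩
    · exact Or.inl ⟨a', h1, hab.reachable.trans h2, h3⟩
    · have h3 := abs_le.1 (hf a b hab)
      have h4 : r ≤ f a := by omega
      have h5 : (NTc_ge G f r).Adj a b := ⟨hab, h4, by omega, Or.inr h1⟩
      rcases eq_or_lt_of_le h4 with h6 | h6
      · exact Or.inl ⟨a, h6.symm, SimpleGraph.Reachable.refl _, h5.reachable.trans h2⟩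
      · exact Or.inr ⟨h6, h5.reachable.trans h2⟩

theorem gexit2 {G : SimpleGraph V} (f : V → ℤ) (hf : ∀ u v, G.Adj u v → |f u - f v| ≤ 1) {v u : V}
    (h : G.Reachable v u) {r R : ℤ} (hr : r ≤ R) (hv : f v ≤ r) (hu : R ≤ f u) :
    ∃ a z : V, f a = r ∧ f z = R ∧ (rsa G f r R).Reachable a z ∧ G.Reachable v a := by
  rcases NTc_last f hf h (r := r) (by omega) with ⟨a, h1, h2, h3⟩ | ⟨h1, _⟩
  · obtain ⟨z, h4, h5⟩ := gexit1 (G := NTc_ge G f r) f (fun u v huv => hf u v huv.1) h3 (r := R) (by omega) hu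
    refine ⟨a, z, h1, h4, h5.mono ?_, h2⟩
    intro x y hxy
    obtain ⟨⟨h6, h7, h8, h9⟩, h10, h11⟩ := hxy
    exact ⟨h6, ⟨h7, h10⟩, ⟨h8, h11⟩, h9⟩
  · omega

theorem subcross {G : SimpleGraph V} (f : V → ℤ) (hf : ∀ u v, G.Adj u v → |f u - f v| ≤ 1) {a b : V}
    (h : G.Reachable a b) {s t : ℤ} (hst : s ≤ t) (ha : f a ≤ s) (hb : t ≤ f b) :
    ∃ u w : V, f u = s ∧ f w = t ∧ (rst G {v | s ≤ f v ∧ f v ≤ t}).Reachable u w ∧ G.Reachable a u := by
  obtain ⟨u, w, h1, h2, h3, h4⟩ := gexit2 f hf h hst ha hb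
  refine ⟨u, w, h1, h2, h3.mono ?_, h4⟩
  intro x y hxy
  exact ⟨hxy.1, hxy.2.1, hxy.2.2.1⟩

private theorem NTc_gr {S : Finset Edge} {e : Edge} (he : e ∈ S) : (gr S).Adj (ea e) (eb e) := by
  unfold gr
  rw [SimpleGraph.fromRel_adj]
  refine ⟨?_, Or.inl ⟨e, he, rfl, rfl⟩⟩
  obtain ⟨a, b, c⟩ := e
  intro h
  have e1 := congrArg Prod.fst h
  have e2 := congrArg Prod.snd h
  cases c <;> simp [ea, eb] at e1 e2

private theorem NTc_gr' {S : Finset Edge} {u v : V} (h : (gr S).Adj u v) :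
    ∃ e ∈ S, (ea e = u ∧ eb e = v) ∨ (ea e = v ∧ eb e = u) := by
  unfold gr at h
  rw [SimpleGraph.fromRel_adj] at h
  obtain ⟨_, ⟨e, h1, h2, h3⟩ | ⟨e, h1, h2, h3⟩⟩ := h
  · exact ⟨e, h1, Or.inl ⟨h2, h3⟩⟩
  · exact ⟨e, h1, Or.inr ⟨h2, h3⟩⟩

private theorem NTc_end (e : Edge) : |(ea e).1 - (eb e).1| ≤ 1 ∧ |(ea e).2 - (eb e).2| ≤ 1 := by
  obtain ⟨a, b, c⟩ := e
  cases c
  · constructor
    · show |a - (a + 1)| ≤ 1
      rw [abs_le]
      omega
    · show |b - b| ≤ 1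
      rw [abs_le]
      omega
  · constructor
    · show |a - a| ≤ 1
      rw [abs_le]
      omega
    · show |b - (b + 1)| ≤ 1
      rw [abs_le]
      omega

private theorem NTc_step (e : Edge) : |nrm (ea e) - nrm (eb e)| ≤ 1 := by
  have h := NTc_end e
  have h1 : nrm (ea e - eb e) ≤ 1 := max_le h.1 h.2
  have h2 : nrm (eb e - ea e) ≤ 1 := by
    have e1 : eb e - ea e = -(ea e - eb e) := by rw [neg_sub]
    rw [e1, nrm_neg]
    exact h1
  have h3 := nrm_sub_le (ea e) (eb e)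
  have h4 := nrm_sub_le (eb e) (ea e)
  rw [abs_le]
  omega

private theorem NTc_grstep {S : Finset Edge} {u v : V} (h : (gr S).Adj u v) : |nrm u - nrm v| ≤ 1 := by
  obtain ⟨e, _, ⟨rfl, rfl⟩ | ⟨rfl, rfl⟩⟩ := NTc_gr' h
  · exact NTc_step e
  · rw [abs_sub_comm]
    exact NTc_step e

theorem exit1 {m r : ℕ} (hr : r ≤ m) {ω : Finset Edge} {v u : V} (h : (tgr m ω).Reachable v u)
    (hv : nrm v ≤ r) (hu : r ≤ nrm u) : ∃ z : V, nrm z = r ∧ Conn (bx r) ω v z := by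
  obtain ⟨z, h1, h2⟩ := gexit1 nrm (fun a b hab => (nrm_step hab).1) h hv hu
  refine ⟨z, h1, h2.mono ?_⟩
  intro x y hxy
  obtain ⟨h3, h4, h5⟩ := hxy
  rw [tgr_adj] at h3
  obtain ⟨e, he, ⟨rfl, rfl⟩ | ⟨rfl, rfl⟩⟩ := h3
  · have h6 : e ∈ bx r := mem_bx.2 ⟨h4, h5⟩
    rw [cm_self (bx_sub_TE hr h6)] at he
    exact NTc_gr (Finset.mem_inter.2 ⟨he, h6⟩)
  · have h6 : e ∈ bx r := mem_bx.2 ⟨h5, h4⟩
    rw [cm_self (bx_sub_TE hr h6)] at he
    exact (NTc_gr (Finset.mem_inter.2 ⟨he, h6⟩)).symm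

private theorem NTc_an {r R : ℕ} {e : Edge} (h1 : nrm (ea e) ≤ R) (h2 : nrm (eb e) ≤ R)
    (h3 : (r : ℤ) < nrm (ea e) ∨ (r : ℤ) < nrm (eb e)) : e ∈ an r R := by
  unfold an
  rw [Finset.mem_sdiff, mem_bx, mem_bx]
  refine ⟨⟨h1, h2⟩, ?_⟩
  rintro ⟨h4, h5⟩
  omega

theorem exit2 {m r R : ℕ} (hr : r ≤ R) (hR : R ≤ m) {ω : Finset Edge} {v u : V} (h : (tgr m ω).Reachable v u)
    (hv : nrm v ≤ r) (hu : R ≤ nrm u) :
    ∃ a z : V, nrm a = r ∧ nrm z = R ∧ Conn (an r R) ω a z ∧ (tgr m ω).Reachable v a := by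
  obtain ⟨a, z, h1, h2, h3, h4⟩ := gexit2 nrm (fun a b hab => (nrm_step hab).1) h
    (r := r) (R := R) (by omega) hv hu
  refine ⟨a, z, h1, h2, h3.mono ?_, h4⟩
  intro x y hxy
  obtain ⟨h5, h6, h7, h8⟩ := hxy
  rw [tgr_adj] at h5
  have hT : ∀ e, e ∈ an r R → e ∈ TE m := by
    intro e he
    unfold an at he
    exact bx_sub_TE hR (Finset.mem_sdiff.1 he).1
  obtain ⟨e, he, ⟨rfl, rfl⟩ | ⟨rfl, rfl⟩⟩ := h5
  · have h9 : e ∈ an r R := NTc_an h6.2 h7.2 h8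
    rw [cm_self (hT e h9)] at he
    exact NTc_gr (Finset.mem_inter.2 ⟨he, h9⟩)
  · have h9 : e ∈ an r R := NTc_an h7.2 h6.2 h8.symm
    rw [cm_self (hT e h9)] at he
    exact (NTc_gr (Finset.mem_inter.2 ⟨he, h9⟩)).symm

theorem exitA {F F' ω : Finset Edge} {r : ℕ} (hF : F ∩ bx r ⊆ F') {v u : V} (h : Conn F ω v u)
    (hv : nrm v ≤ r) (hu : r ≤ nrm u) : ∃ z : V, nrm z = r ∧ Conn F' ω v z := by
  obtain ⟨z, h1, h2⟩ := gexit1 nrm (fun a b hab => NTc_grstep hab) h hv hu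
  refine ⟨z, h1, h2.mono ?_⟩
  intro x y hxy
  obtain ⟨h3, h4, h5⟩ := hxy
  obtain ⟨e, he, ⟨rfl, rfl⟩ | ⟨rfl, rfl⟩⟩ := NTc_gr' h3
  · have h6 : e ∈ bx r := mem_bx.2 ⟨h4, h5⟩
    obtain ⟨h7, h8⟩ := Finset.mem_inter.1 he
    exact NTc_gr (Finset.mem_inter.2 ⟨h7, hF (Finset.mem_inter.2 ⟨h8, h6⟩)⟩)
  · have h6 : e ∈ bx r := mem_bx.2 ⟨h5, h4⟩
    obtain ⟨h7, h8⟩ := Finset.mem_inter.1 he
    exact (NTc_gr (Finset.mem_inter.2 ⟨h7, hF (Finset.mem_inter.2 ⟨h8, h6⟩)⟩)).symm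

theorem exitB {F F' ω : Finset Edge} {r R : ℕ} (hr : r ≤ R) (hF : F ∩ an r R ⊆ F') {v u : V} (h : Conn F ω v u)
    (hv : nrm v ≤ r) (hu : R ≤ nrm u) : ∃ a z : V, nrm a = r ∧ nrm z = R ∧ Conn F' ω a z ∧ Conn F ω v a := by
  obtain ⟨a, z, h1, h2, h3, h4⟩ := gexit2 nrm (fun a b hab => NTc_grstep hab) h
    (r := r) (R := R) (by omega) hv hu
  refine ⟨a, z, h1, h2, h3.mono ?_, h4⟩
  intro x y hxy
  obtain ⟨h5, h6, h7, h8⟩ := hxy
  obtain ⟨e, he, ⟨rfl, rfl⟩ | ⟨rfl, rfl⟩⟩ := NTc_gr' h5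
  · have h9 : e ∈ an r R := NTc_an h6.2 h7.2 h8
    obtain ⟨h10, h11⟩ := Finset.mem_inter.1 he
    exact NTc_gr (Finset.mem_inter.2 ⟨h10, hF (Finset.mem_inter.2 ⟨h11, h9⟩)⟩)
  · have h9 : e ∈ an r R := NTc_an h7.2 h6.2 h8.symm
    obtain ⟨h10, h11⟩ := Finset.mem_inter.1 he
    exact (NTc_gr (Finset.mem_inter.2 ⟨h10, hF (Finset.mem_inter.2 ⟨h11, h9⟩)⟩)).symm

end FKN
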