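import Mathlib
import Pool.Agent.Lib.MP_216314_pr.N.NTc

/-!
# JOB NTe: pivotal edges and blocks for winding give four arms (about 300 lines)

`et t` is the edge `(0, 0, t)`; `FourT t r`: four arms from `et t` (`Four r` is the case `t = false`: `four_iff`, the end `eb (et false) = (1, 0)`).
`seg`: `S ⊆ TE m`, `¬ W m (ω \ S)`, `W m (ω ∪ S)`.  Let `G = tgr m (ω \ S)`.  Suppose (*) for all ends `a`, `b` of edges of `S` and `w ≠ 0`: not `G.Reachable a (b + pr m w)`.
  Let `R v v' := G.Reachable v v' ∨ ∃ u a b, (a, b ends of S) ∧ G.Reachable v (a + pr m u) ∧ G.Reachable v' (b + pr m u)`.  `R v0 ·` is preserved by the adjacency of `tgr m (ω ∪ S)`: an edge `e` with `cm m e ∈ ω \ S`: clear.  An edge with `cm m e = s ∈ S`: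
  `e = shv (pr m u') s` (`cm_spec`), its ends are `a' + pr m u'`, `b' + pr m u'`; if `v0 ~ v` (`= a' + pr u'`) take `u = u'`; if `v0 ~ a + pr u`, `v ~ b + pr u`: then `b + pr u ~ a' + pr u'`, by periodicity `b ~ a' + pr (u' - u)`, so `u' = u` by (*).
  Now `W m (ω ∪ S)`: `R v (v + pr m w)` with `w ≠ 0`; the first alternative contradicts `¬ W m (ω \ S)`; the second: `v ~ a + pr u`, `v + pr w ~ b + pr u`, by periodicity `v + pr w ~ a + pr u + pr w`, hence `b ~ a + pr w`, contradiction with (*).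
  (`tgr_shift` for periodicity; induction along `Reachable`: `SimpleGraph.Walk` induction or `Relation.ReflTransGen` with `SimpleGraph.reachable_iff_reflTransGen`.)
`T1`: `S = {et t}`: `insert e ω = ω ∪ {e}`, `ω.erase e = ω \ {e}`.  `seg` gives ends `a, b` of `et t` and `w ≠ 0` with `a ~ b + pr w` in `G = tgr m (ω.erase (et t))`.  `a = b` contradicts `¬ W m (ω.erase _)`.  So `x = 0`, `y = eb (et t)`: `x ~ y + pr w`
  (`w ≠ 0`; in the other case use `-w`), and `y ~ x - pr w` by periodicity.  `x ≁ y`, otherwise `x ~ x + pr w`.  `exit1` with `r = m`: `nrm (y + pr w) ≥ 2m + 1 - 1` (`nrm_pr`, `nrm_sub_le`, `eb_et`), so `Conn (bx m) (ω.erase (et t)) x z`, `nrm z = m`; the same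
  for `y`.  `(ω.erase e) ∩ F = ω ∩ (F \ {e})`.  `¬ Conn (bx m \ {et t}) ω x y` because of `conn_tgr`.
`T1b`: block `S ⊆ bx r`, `r ≤ m`: `seg` gives `a ~ b + pr w` in `tgr m (ω \ S)`, `nrm a, nrm b ≤ r`; `exit2` with `R = m` from `a` (to `b + pr w`, norm `≥ 2m+1-r ≥ m`) and from `b` (to `a - pr w`) gives `a1, z1`, `a2, z2`; `(ω \ S) ∩ an r m = ω ∩ an r m`.
  If `Conn (an r m) ω a1 a2`, then `a ~ b` in `tgr m (ω \ S)`, then `b ~ b + pr w`, contradiction.
`FourT_mono`: `exitA` with `F = bx R \ {et t}`, `F' = bx r \ {et t}` (`nrm 0 = 0`, `nrm (eb (et t)) = 1 ≤ r`), `Conn.mono` for the negative part.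
`FourT_an`: `exitB` with `F = bx R \ {et t}`, `F' = an r R` from `x` and `y`: `a1, z1`, `a2, z2`; if `a1` and `a2` are connected in `an r R ⊆ bx R \ {et t}` then so are `x`, `y`.
`Four'_mono`: `exitB` with `F = an r R`, `F' = an r' R'` (`F ∩ an r' R' ⊆ F'`).  `One'_mono`, `One_mono`, `One_an` similar (easier).
`dep_*`: `FKP.dep_Conn`.
-/

set_option autoImplicit false

namespace FKN

open Finset FKI FKP

/-- the edge `(0, 0, t)` -/
def et (t : Bool) : Edge := (0, 0, t)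

/-- four arms from `et t` -/
def FourT (t : Bool) (r : ℕ) (ω : Finset Edge) : Prop :=
  (∃ u : V, nrm u = r ∧ Conn (bx r \ {et t}) ω (0, 0) u) ∧ (∃ u : V, nrm u = r ∧ Conn (bx r \ {et t}) ω (eb (et t)) u) ∧
    ¬ Conn (bx r \ {et t}) ω (0, 0) (eb (et t))

private theorem NTe_x : (0 : V) = ((0 : ℤ), (0 : ℤ)) := rfl

private theorem NTe_nx : nrm ((0 : ℤ), (0 : ℤ)) = 0 := nrm_zero

private theorem NTe_mem {r : ℕ} (hr : 1 ≤ r) (t : Bool) : et t ∈ bx r := by
  rw [mem_bx]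
  have h1 : nrm (ea (et t)) = 0 := NTe_nx
  have h2 : nrm (eb (et t)) = 1 := eb_et t
  rw [h1, h2]
  constructor
  · exact Int.natCast_nonneg r
  · exact_mod_cast hr

private theorem NTe_an {r r' R R' : ℕ} (h1 : r ≤ r') (h3 : R' ≤ R) : an r' R' ⊆ an r R := by
  unfold an
  exact Finset.sdiff_subset_sdiff (bx_mono h3) (bx_mono h1)

theorem four_iff {r : ℕ} {ω : Finset Edge} : Four r ω ↔ FourT false r ω := by
  have h1 : eb (et false) = ((1 : ℤ), (0 : ℤ)) := rfl
  unfold FourT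
  rw [h1]
  exact Iff.rfl

theorem dep_FourT {t : Bool} {r : ℕ} {F : Finset Edge} (hF : bx r ⊆ F) (ω : Finset Edge) :
    FourT t r ω ↔ FourT t r (ω ∩ F) := by
  have h := fun u v : V => dep_Conn (F := bx r \ {et t}) (E := F) (Finset.sdiff_subset.trans hF) u v ω
  unfold FourT
  refine and_congr ?_ (and_congr ?_ (not_congr (h _ _)))
  · exact exists_congr fun u => and_congr_right fun _ => h _ _
  · exact exists_congr fun u => and_congr_right fun _ => h _ _

theorem dep_Four' {r R : ℕ} {F : Finset Edge} (hF : an r R ⊆ F) (ω : Finset Edge) : Four' r R ω ↔ Four' r R (ω ∩ F) := by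
  have h := fun u v : V => dep_Conn (F := an r R) (E := F) hF u v ω
  unfold Four'
  refine exists_congr fun u => exists_congr fun u' => and_congr_right fun _ => and_congr_right fun _ =>
    and_congr ?_ (and_congr ?_ (not_congr (h _ _)))
  · exact exists_congr fun u => and_congr_right fun _ => h _ _
  · exact exists_congr fun u => and_congr_right fun _ => h _ _

theorem dep_One {r : ℕ} {F : Finset Edge} (hF : bx r ⊆ F) (ω : Finset Edge) : One r ω ↔ One r (ω ∩ F) :=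
  exists_congr fun _ => and_congr_right fun _ => dep_Conn (F := bx r) (E := F) hF _ _ ω

theorem dep_One' {r R : ℕ} {F : Finset Edge} (hF : an r R ⊆ F) (ω : Finset Edge) : One' r R ω ↔ One' r R (ω ∩ F) :=
  exists_congr fun _ => exists_congr fun _ => and_congr_right fun _ => and_congr_right fun _ =>
    dep_Conn (F := an r R) (E := F) hF _ _ ω

theorem FourT_mono {t : Bool} {r R : ℕ} (hr : 1 ≤ r) (hR : r ≤ R) {ω : Finset Edge} (h : FourT t R ω) : FourT t r ω := by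
  have hR' : (r : ℤ) ≤ R := by exact_mod_cast hR
  have hr' : (1 : ℤ) ≤ r := by exact_mod_cast hr
  have hF : (bx R \ {et t}) ∩ bx r ⊆ bx r \ {et t} := by
    intro e he
    rw [mem_inter, mem_sdiff] at he
    rw [mem_sdiff]
    exact ⟨he.2, he.1.2⟩
  obtain ⟨⟨u, hu, hcu⟩, ⟨w, hw, hcw⟩, hn⟩ := h
  refine ⟨exitA hF hcu ?_ ?_, exitA hF hcw ?_ ?_, fun hc => hn ?_⟩
  · rw [NTe_nx]
    omega
  · rw [hu]
    exact hR'
  · have h2 : nrm (eb (et t)) = 1 := eb_et t
    rw [h2]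
    exact hr'
  · rw [hw]
    exact hR'
  · exact Conn.mono (Finset.sdiff_subset_sdiff (bx_mono hR) (Finset.Subset.refl _))
      (Finset.Subset.refl _) hc

theorem FourT_an {t : Bool} {r R : ℕ} (hr : 1 ≤ r) (hR : r ≤ R) {ω : Finset Edge} (h : FourT t R ω) : Four' r R ω := by
  have hr' : (1 : ℤ) ≤ r := by exact_mod_cast hr
  have hF : (bx R \ {et t}) ∩ an r R ⊆ an r R := Finset.inter_subset_right
  obtain ⟨⟨u, hu, hcu⟩, ⟨w, hw, hcw⟩, hn⟩ := h
  obtain ⟨a1, z1, k1, k2, k3, k4⟩ := exitB hR hF hcu (by rw [NTe_nx]; omega) (by rw [hu])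
  obtain ⟨a2, z2, l1, l2, l3, l4⟩ := exitB hR hF hcw
    (by
      have h2 : nrm (eb (et t)) = 1 := eb_et t
      rw [h2]
      exact hr') (by rw [hw])
  refine ⟨a1, a2, k1, l1, ⟨z1, k2, k3⟩, ⟨z2, l2, l3⟩, fun hc => hn ?_⟩
  have hsub : an r R ⊆ bx R \ {et t} := by
    intro e he
    unfold an at he
    rw [mem_sdiff] at he ⊢
    refine ⟨he.1, fun h1 => he.2 ?_⟩
    rw [mem_singleton] at h1
    rw [h1]
    exact NTe_mem hr t
  exact (k4.trans (Conn.mono hsub (Finset.Subset.refl _) hc)).trans l4.symm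

theorem Four'_mono {r r' R R' : ℕ} (h1 : r ≤ r') (h2 : r' ≤ R') (h3 : R' ≤ R) {ω : Finset Edge} (h : Four' r R ω) :
    Four' r' R' ω := by
  have h1' : (r : ℤ) ≤ r' := by exact_mod_cast h1
  have h3' : (R' : ℤ) ≤ R := by exact_mod_cast h3
  obtain ⟨u, u', hu, hu', ⟨w, hw, hcw⟩, ⟨w', hw', hcw'⟩, hn⟩ := h
  obtain ⟨a1, z1, k1, k2, k3, k4⟩ := exitB (F' := an r' R') h2 Finset.inter_subset_right hcw
    (by rw [hu]; exact h1') (by rw [hw]; exact h3')
  obtain ⟨a2, z2, l1, l2, l3, l4⟩ := exitB (F' := an r' R') h2 Finset.inter_subset_right hcw'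
    (by rw [hu']; exact h1') (by rw [hw']; exact h3')
  refine ⟨a1, a2, k1, l1, ⟨z1, k2, k3⟩, ⟨z2, l2, l3⟩, fun hc => hn ?_⟩
  exact (k4.trans (Conn.mono (NTe_an h1 h3) (Finset.Subset.refl _) hc)).trans l4.symm

theorem One_mono {r R : ℕ} (hR : r ≤ R) {ω : Finset Edge} (h : One R ω) : One r ω := by
  obtain ⟨u, hu, hc⟩ := h
  refine exitA (F' := bx r) Finset.inter_subset_right hc ?_ ?_
  · rw [NTe_nx]
    exact Int.natCast_nonneg r
  · rw [hu]
    exact_mod_cast hR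

theorem One_an {r R : ℕ} (hR : r ≤ R) {ω : Finset Edge} (h : One R ω) : One' r R ω := by
  obtain ⟨u, hu, hc⟩ := h
  obtain ⟨a, z, k1, k2, k3, -⟩ := exitB (F' := an r R) hR Finset.inter_subset_right hc
    (by rw [NTe_nx]; exact Int.natCast_nonneg r) (by rw [hu])
  exact ⟨a, z, k1, k2, k3⟩

theorem One'_mono {r r' R R' : ℕ} (h1 : r ≤ r') (h2 : r' ≤ R') (h3 : R' ≤ R) {ω : Finset Edge} (h : One' r R ω) :
    One' r' R' ω := by
  have h1' : (r : ℤ) ≤ r' := by exact_mod_cast h1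
  have h3' : (R' : ℤ) ≤ R := by exact_mod_cast h3
  obtain ⟨u, w, hu, hw, hc⟩ := h
  obtain ⟨a, z, k1, k2, k3, -⟩ := exitB (F' := an r' R') h2 Finset.inter_subset_right hc
    (by rw [hu]; exact h1') (by rw [hw]; exact h3')
  exact ⟨a, z, k1, k2, k3⟩

theorem seg {m : ℕ} {ω S : Finset Edge} (hω : ω ⊆ TE m) (hS : S ⊆ TE m) (h1 : ¬ W m (ω \ S)) (h2 : W m (ω ∪ S)) :
    ∃ a b w : V, (∃ e ∈ S, a = ea e ∨ a = eb e) ∧ (∃ e ∈ S, b = ea e ∨ b = eb e) ∧ w ≠ 0 ∧
      (tgr m (ω \ S)).Reachable a (b + pr m w) := by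
  by_contra hcon
  push Not at hcon
  obtain ⟨En, hEn⟩ : ∃ En : V → Prop, En = fun x => ∃ e ∈ S, x = ea e ∨ x = eb e := ⟨_, rfl⟩
  have hstar : ∀ a b w : V, En a → En b → (tgr m (ω \ S)).Reachable a (b + pr m w) → w = 0 := by
    intro a b w ha hb hr
    rw [hEn] at ha hb
    by_contra hw
    exact hcon a b w ha hb hw hr
  obtain ⟨R0, hR0⟩ : ∃ R0 : V → V → Prop, R0 = fun v v' => (tgr m (ω \ S)).Reachable v v' ∨
      ∃ u a b : V, En a ∧ En b ∧ (tgr m (ω \ S)).Reachable v (a + pr m u) ∧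
        (tgr m (ω \ S)).Reachable v' (b + pr m u) := ⟨_, rfl⟩
  -- the step along an edge of `S`
  have hstep1 : ∀ v0 a' b' u' : V, En a' → En b' → R0 v0 (a' + pr m u') → R0 v0 (b' + pr m u') := by
    intro v0 a' b' u' ha' hb' h
    rw [hR0] at h ⊢
    rcases h with h | ⟨u, a, b, ha, hb, k1, k2⟩
    · exact Or.inr ⟨u', a', b', ha', hb', h, SimpleGraph.Reachable.refl _⟩
    · have h3 : (tgr m (ω \ S)).Reachable b (a' + pr m (u' - u)) := by
        rw [← tgr_shift m _ u]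
        have e1 : a' + pr m (u' - u) + pr m u = a' + pr m u' := by
          rw [pr_sub]
          abel
        rw [e1]
        exact k2.symm
      have h4 := sub_eq_zero.1 (hstar b a' _ hb ha' h3)
      rw [h4]
      exact Or.inr ⟨u, a, b', ha, hb', k1, SimpleGraph.Reachable.refl _⟩
  have hstep : ∀ v0 v v' : V, (tgr m (ω ∪ S)).Adj v v' → R0 v0 v → R0 v0 v' := by
    intro v0 v v' hadj h
    rw [tgr_adj] at hadj
    obtain ⟨e, he, hvv⟩ := hadj
    by_cases heS : cm m e ∈ S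
    · obtain ⟨u', hu'⟩ := cm_spec m e
      have ha : En (ea (cm m e)) := by
        rw [hEn]
        exact ⟨_, heS, Or.inl rfl⟩
      have hb : En (eb (cm m e)) := by
        rw [hEn]
        exact ⟨_, heS, Or.inr rfl⟩
      have e1 : ea e = ea (cm m e) + pr m u' := by
        rw [← ea_shv, ← hu']
      have e2 : eb e = eb (cm m e) + pr m u' := by
        rw [← eb_shv, ← hu']
      rcases hvv with ⟨k1, k2⟩ | ⟨k1, k2⟩
      · rw [← k1, e1] at h
        rw [← k2, e2]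
        exact hstep1 _ _ _ _ ha hb h
      · rw [← k2, e2] at h
        rw [← k1, e1]
        exact hstep1 _ _ _ _ hb ha h
    · have he' : cm m e ∈ ω \ S := by
        rw [mem_union] at he
        rw [mem_sdiff]
        exact ⟨he.resolve_right heS, heS⟩
      have hG : (tgr m (ω \ S)).Reachable v v' := (tgr_adj.2 ⟨e, he', hvv⟩).reachable
      rw [hR0] at h ⊢
      rcases h with h | ⟨u, a, b, ha, hb, k1, k2⟩
      · exact Or.inl (h.trans hG)
      · exact Or.inr ⟨u, a, b, ha, hb, k1, hG.symm.trans k2⟩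
  have hall : ∀ v0 v : V, (tgr m (ω ∪ S)).Reachable v0 v → R0 v0 v := by
    intro v0 v h
    rw [SimpleGraph.reachable_iff_reflTransGen] at h
    induction h with
    | refl =>
      rw [hR0]
      exact Or.inl (SimpleGraph.Reachable.refl _)
    | tail _ h2 ih => exact hstep _ _ _ h2 ih
  obtain ⟨v, w, hw, hr⟩ := h2
  have h3 := hall _ _ hr
  rw [hR0] at h3
  rcases h3 with h3 | ⟨u, a, b, ha, hb, k1, k2⟩
  · exact h1 ⟨v, w, hw, h3⟩
  · have k3 := (tgr_shift m (ω \ S) w v (a + pr m u)).2 k1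
    have k4 : (tgr m (ω \ S)).Reachable b (a + pr m w) := by
      rw [← tgr_shift m _ u]
      have e1 : a + pr m w + pr m u = a + pr m u + pr m w := by abel
      rw [e1]
      exact k2.symm.trans k3
    exact hw (hstar b a w hb ha k4)

private theorem NTe_neg {m : ℕ} {ω : Finset Edge} {a b w : V} (h : (tgr m ω).Reachable a (b + pr m w)) :
    (tgr m ω).Reachable b (a + pr m (-w)) := by
  have h1 := (tgr_shift m ω (-w) a (b + pr m w)).2 h
  have e1 : b + pr m w + pr m (-w) = b := by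
    rw [pr_neg]
    abel
  rw [e1] at h1
  exact h1.symm

private theorem NTe_far {m : ℕ} {b w : V} {k : ℤ} (hb : nrm b ≤ k) (hk : k ≤ m + 1) (hw : w ≠ 0) :
    (m : ℤ) ≤ nrm (b + pr m w) := by
  have h1 := nrm_pr (m := m) hw
  have h2 := nrm_sub_le (pr m w) (-b)
  rw [nrm_neg, sub_neg_eq_add, add_comm (pr m w) b] at h2
  omega

theorem T1 {m : ℕ} (hm : 1 ≤ m) {t : Bool} {ω : Finset Edge} (hω : ω ⊆ TE m) (h : Piv (et t) (W m) ω) : FourT t m ω := by
  have hm' : (1 : ℤ) ≤ m := by exact_mod_cast hm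
  obtain ⟨hp1, hp2⟩ := h
  have hS : ({et t} : Finset Edge) ⊆ TE m := by
    rw [singleton_subset_iff]
    exact bx_sub_TE le_rfl (NTe_mem hm t)
  rw [← Finset.sdiff_singleton_eq_erase] at hp2
  have hp1' : W m (ω ∪ {et t}) := by
    rw [Finset.union_comm, ← Finset.insert_eq]
    exact hp1
  obtain ⟨a, b, w, ⟨e1, he1, ha⟩, ⟨e2, he2, hb⟩, hw, hr⟩ := seg hω hS hp2 hp1'
  rw [mem_singleton] at he1 he2
  rw [he1] at ha
  rw [he2] at hb
  have hea : ea (et t) = ((0 : ℤ), (0 : ℤ)) := rfl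
  rw [hea] at ha hb
  -- a walk from one end to a translate of the other
  obtain ⟨w', hw', hr'⟩ : ∃ w' : V, w' ≠ 0 ∧
      (tgr m (ω \ {et t})).Reachable ((0 : ℤ), (0 : ℤ)) (eb (et t) + pr m w') := by
    rcases ha with ha | ha
    · rcases hb with hb | hb
      · rw [ha, hb] at hr
        exact absurd ⟨_, w, hw, hr⟩ hp2
      · rw [ha, hb] at hr
        exact ⟨w, hw, hr⟩
    · rcases hb with hb | hb
      · rw [ha, hb] at hr
        exact ⟨-w, neg_ne_zero.2 hw, NTe_neg hr⟩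
      · rw [ha, hb] at hr
        exact absurd ⟨_, w, hw, hr⟩ hp2
  have hr2 := NTe_neg hr'
  have hn2 : nrm (eb (et t)) = 1 := eb_et t
  have hF : (ω \ {et t}) ∩ bx m = ω ∩ (bx m \ {et t}) := by
    ext e
    rw [mem_inter, mem_sdiff, mem_inter, mem_sdiff]
    tauto
  have hC : ∀ u v : V, Conn (bx m) (ω \ {et t}) u v ↔ Conn (bx m \ {et t}) ω u v := by
    intro u v
    unfold Conn
    rw [hF]
  obtain ⟨z1, k1, k2⟩ := exit1 le_rfl hr' (by rw [NTe_nx]; omega) (NTe_far (by rw [hn2]) (by omega) hw')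
  obtain ⟨z2, l1, l2⟩ := exit1 le_rfl hr2 (by rw [hn2]; exact hm')
    (NTe_far (k := 0) (by rw [NTe_nx]) (by omega) (neg_ne_zero.2 hw'))
  refine ⟨⟨z1, k1, (hC _ _).1 k2⟩, ⟨z2, l1, (hC _ _).1 l2⟩, fun hc => hp2 ?_⟩
  have hc1 := conn_tgr (m := m) (Finset.sdiff_subset.trans (bx_sub_TE le_rfl)) hc
  have hsub : ω ∩ (bx m \ {et t}) ⊆ ω \ {et t} := by
    rw [← hF]
    exact Finset.inter_subset_left
  have hc2 := hc1.mono (tgr_mono hsub)
  exact ⟨eb (et t), w', hw', hc2.symm.trans hr'⟩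

theorem T1b {m r : ℕ} (hr : r ≤ m) {ω S : Finset Edge} (hω : ω ⊆ TE m) (hS : S ⊆ bx r) (h1 : ¬ W m (ω \ S))
    (h2 : W m (ω ∪ S)) : Four' r m ω := by
  have hr' : (r : ℤ) ≤ m := by exact_mod_cast hr
  obtain ⟨a, b, w, ⟨e1, he1, ha⟩, ⟨e2, he2, hb⟩, hw, hreach⟩ := seg hω (hS.trans (bx_sub_TE hr)) h1 h2
  have hna : nrm a ≤ r := by
    have h3 := mem_bx.1 (hS he1)
    rcases ha with ha | ha
    · rw [ha]
      exact h3.1
    · rw [ha]
      exact h3.2
  have hnb : nrm b ≤ r := by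
    have h3 := mem_bx.1 (hS he2)
    rcases hb with hb | hb
    · rw [hb]
      exact h3.1
    · rw [hb]
      exact h3.2
  have hreach2 := NTe_neg hreach
  obtain ⟨a1, z1, k1, k2, k3, k4⟩ := exit2 hr le_rfl hreach hna (NTe_far hnb (by omega) hw)
  obtain ⟨a2, z2, l1, l2, l3, l4⟩ := exit2 hr le_rfl hreach2 hnb
    (NTe_far hna (by omega) (neg_ne_zero.2 hw))
  have hF : (ω \ S) ∩ an r m = ω ∩ an r m := by
    ext e
    unfold an
    rw [mem_inter, mem_sdiff, mem_inter, mem_sdiff]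
    constructor
    · rintro ⟨⟨h3, -⟩, h4⟩
      exact ⟨h3, h4⟩
    · rintro ⟨h3, h4⟩
      exact ⟨⟨h3, fun h5 => h4.2 (hS h5)⟩, h4⟩
  have hC : ∀ u v : V, Conn (an r m) (ω \ S) u v ↔ Conn (an r m) ω u v := by
    intro u v
    unfold Conn
    rw [hF]
  refine ⟨a1, a2, k1, l1, ⟨z1, k2, (hC _ _).1 k3⟩, ⟨z2, l2, (hC _ _).1 l3⟩, fun hc => h1 ?_⟩
  have hc1 := conn_tgr (m := m) (Finset.sdiff_subset.trans (bx_sub_TE le_rfl)) ((hC _ _).2 hc)
  have hc2 := hc1.mono (tgr_mono Finset.inter_subset_left)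
  exact ⟨b, w, hw, ((l4.trans hc2.symm).trans k4.symm).trans hreach⟩

end FKN
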