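import Mathlib
import Pool.Agent.Lib.MP_216314_pr.N.NDef

/-!
# JOB NTf: the Poincare inequality over blocks for an increasing event (about 200 lines)

General edge type.  `F (1 - F) ≤ ∑_j P(A(ω ∪ B_j) ∧ ¬ A(ω \ B_j))`, `F = P(A)`, for a partition of the edge set into blocks `B_j`.
Proof (no hybrid needed): induction on the set of blocks `s` (`Finset.induction_on`), for all increasing `A`.  `s = ∅`: `E = ∅`, `F ∈ {0, 1}` (`IPC.EE_empty`).  `insert b s`: `E = B b ∪ E'`, `E' = s.biUnion B`, disjoint.  Write (IPC.EE_union, order `E' ∪ B b`)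
  `g(ω₁) = EE q (B b) (fun ω₂ => ind (A (ω₁ ∪ ω₂)))`, `F = EE q E' g`,
  `F - F² = EE E' (g - g²) + (EE E' (g²) - F²)`.
  (1) `g(ω₁) (1 - g(ω₁)) ≤ ind (A (ω₁ ∪ B b) ∧ ¬ A ω₁)` for `ω₁ ⊆ E'`: if `A (ω₁ ∪ B b)` fails then `g = 0` (`A` increasing); if `A ω₁` holds then `g = 1`; otherwise use `g (1 - g) ≤ 1` (`0 ≤ g ≤ 1`).  And `EE q E' (ind (A (ω₁ ∪ B b) ∧ ¬ A ω₁))
      = Pr q E (A (ω ∪ B b) ∧ ¬ A (ω \ B b))`: by `IPC.EE_union` for `E' ∪ B b`: for `ω = ω₁ ∪ ω₂`, `ω ∪ B b = ω₁ ∪ B b`, `ω \ B b = ω₁`.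
  (2) `EE E' (g²) - (EE E' g)² ≤ EE (B b) (fun ω₂ => F_{ω₂} - F_{ω₂}²)`, where `F_{ω₂} = Pr q E' (fun ω₁ => A (ω₁ ∪ ω₂))`: this is the convexity of the variance: for a function `h(ω₁, ω₂)` with `h² = h`:
      `EE_{ω₂} [EE_{ω₁} (h - F_{ω₂})²] ≥ EE_{ω₁} [(EE_{ω₂} (h - F_{ω₂}))²] = EE_{ω₁} (g - F)²` (Jensen / Cauchy-Schwarz `(EE f)² ≤ EE f²`, `var_le`), exchange of the two expectations: `EE_comm`.
  (3) induction hypothesis for the increasing event `fun ω₁ => A (ω₁ ∪ ω₂)`, then average over `ω₂`: `EE (B b) (fun ω₂ => Pr q E' (fun ω₁ => A (ω₁ ∪ ω₂ ∪ B j) ∧ ¬ A ((ω₁ \ B j) ∪ ω₂))) = Pr q E (…)` since `ω₂ ⊆ B b` is disjoint from `B j` (`ω₂ \ B j = ω₂`).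
Harris for decreasing events: `harris_dec`, `harris_dec_list`: complements: `P(¬ A ∧ ¬ B) = 1 - P(A) - P(B) + P(A ∧ B) ≥ (1 - P(A)) (1 - P(B))` by `IPC.harris`; list: induction, `fun ω => ∃ B ∈ L, B ω` is increasing.
`fin_full`: `Pr q E A ≥ q ^ card E` if `A E` (only the term `ω = E`).  `fin_empty`: `Pr q E A ≥ (1 - q) ^ card E` if `A ∅`.
`fin_ins`: `q * Pr q E (fun ω => A (insert e ω)) ≤ Pr q E A`, `(1 - q) * Pr q E (fun ω => A (ω.erase e)) ≤ Pr q E A` for `e ∈ E` (`IPC.EE_insert` for `E = insert e (E.erase e)`).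
-/

set_option autoImplicit false

namespace FKN

open Finset

variable {ε : Type} [DecidableEq ε]

theorem EE_comm (q : ℝ) (E₁ E₂ : Finset ε) (f : Finset ε → Finset ε → ℝ) :
    IPC.EE q E₁ (fun ω₁ => IPC.EE q E₂ (fun ω₂ => f ω₁ ω₂)) = IPC.EE q E₂ (fun ω₂ => IPC.EE q E₁ (fun ω₁ => f ω₁ ω₂)) := by
  unfold IPC.EE
  simp only [Finset.mul_sum]
  rw [Finset.sum_comm]
  refine Finset.sum_congr rfl fun t _ => Finset.sum_congr rfl fun u _ => ?_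
  ring

theorem var_le {q : ℝ} (h0 : 0 ≤ q) (h1 : q ≤ 1) (E : Finset ε) (f : Finset ε → ℝ) :
    IPC.EE q E f ^ 2 ≤ IPC.EE q E (fun ω => f ω ^ 2) := by
  have h2 : 0 ≤ IPC.EE q E (fun ω => (f ω - IPC.EE q E f) ^ 2) :=
    IPC.EE_nonneg h0 h1 E fun ω _ => sq_nonneg _
  have h3 : IPC.EE q E (fun ω => (f ω - IPC.EE q E f) ^ 2) =
      IPC.EE q E (fun ω => f ω ^ 2) - IPC.EE q E f ^ 2 := by
    have e : IPC.EE q E (fun ω => (f ω - IPC.EE q E f) ^ 2) =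
        IPC.EE q E (fun ω => (f ω ^ 2 - (2 * IPC.EE q E f) * f ω) + IPC.EE q E f ^ 2) :=
      IPC.EE_congr q E fun ω _ => by ring
    rw [e, IPC.EE_add q E (fun ω => f ω ^ 2 - (2 * IPC.EE q E f) * f ω) (fun _ => IPC.EE q E f ^ 2),
      IPC.EE_sub q E (fun ω => f ω ^ 2) (fun ω => (2 * IPC.EE q E f) * f ω), IPC.EE_const_mul, IPC.EE_const]
    ring
  linarith

private theorem NTf_sq_ind (P : Prop) : IPC.ind P ^ 2 = IPC.ind P := by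
  by_cases h : P
  · rw [IPC.ind_of h]
    norm_num
  · rw [IPC.ind_not h]
    norm_num

/-- `EE (f - c)² = EE f² - 2 c EE f + c²` -/
private theorem NTf_sq (q : ℝ) (E : Finset ε) (f : Finset ε → ℝ) (c : ℝ) :
    IPC.EE q E (fun ω => (f ω - c) ^ 2) = IPC.EE q E (fun ω => f ω ^ 2) - 2 * c * IPC.EE q E f + c ^ 2 := by
  have e : IPC.EE q E (fun ω => (f ω - c) ^ 2) =
      IPC.EE q E (fun ω => (f ω ^ 2 - (2 * c) * f ω) + c ^ 2) :=
    IPC.EE_congr q E fun ω _ => by ring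
  rw [e, IPC.EE_add q E (fun ω => f ω ^ 2 - (2 * c) * f ω) (fun _ => c ^ 2),
    IPC.EE_sub q E (fun ω => f ω ^ 2) (fun ω => (2 * c) * f ω), IPC.EE_const_mul, IPC.EE_const]

/-- convexity of the variance -/
private theorem NTf_conv {q : ℝ} (h0 : 0 ≤ q) (h1 : q ≤ 1) (E₁ E₂ : Finset ε) (P : Finset ε → Finset ε → Prop) :
    IPC.EE q E₁ (fun ω₁ => IPC.EE q E₂ (fun ω₂ => IPC.ind (P ω₁ ω₂)) ^ 2) -
        IPC.EE q E₁ (fun ω₁ => IPC.EE q E₂ (fun ω₂ => IPC.ind (P ω₁ ω₂))) ^ 2 ≤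
      IPC.EE q E₂ (fun ω₂ => IPC.EE q E₁ (fun ω₁ => IPC.ind (P ω₁ ω₂)) *
        (1 - IPC.EE q E₁ (fun ω₁ => IPC.ind (P ω₁ ω₂)))) := by
  set F : ℝ := IPC.EE q E₁ (fun ω₁ => IPC.EE q E₂ (fun ω₂ => IPC.ind (P ω₁ ω₂))) with hF
  set w : Finset ε → ℝ := fun ω₂ => IPC.EE q E₁ (fun ω₁ => IPC.ind (P ω₁ ω₂)) with hw
  set g : Finset ε → ℝ := fun ω₁ => IPC.EE q E₂ (fun ω₂ => IPC.ind (P ω₁ ω₂)) with hg
  have hFw : IPC.EE q E₂ w = F := by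
    rw [hF, hw]
    exact (EE_comm q E₁ E₂ (fun ω₁ ω₂ => IPC.ind (P ω₁ ω₂))).symm
  have a1 : IPC.EE q E₁ (fun ω₁ => (g ω₁ - F) ^ 2) = IPC.EE q E₁ (fun ω₁ => g ω₁ ^ 2) - F ^ 2 := by
    rw [NTf_sq]
    have : IPC.EE q E₁ g = F := rfl
    rw [this]
    ring
  have a2 : ∀ ω₁, ω₁ ⊆ E₁ → (g ω₁ - F) ^ 2 ≤ IPC.EE q E₂ (fun ω₂ => (IPC.ind (P ω₁ ω₂) - w ω₂) ^ 2) := by
    intro ω₁ _
    have e : g ω₁ - F = IPC.EE q E₂ (fun ω₂ => IPC.ind (P ω₁ ω₂) - w ω₂) := by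
      rw [IPC.EE_sub q E₂ (fun ω₂ => IPC.ind (P ω₁ ω₂)) w, hFw]
    rw [e]
    exact var_le h0 h1 E₂ _
  have a3 := IPC.EE_mono h0 h1 E₁ a2
  rw [EE_comm q E₁ E₂ (fun ω₁ ω₂ => (IPC.ind (P ω₁ ω₂) - w ω₂) ^ 2), a1] at a3
  refine a3.trans (le_of_eq (IPC.EE_congr q E₂ fun ω₂ _ => ?_))
  rw [NTf_sq q E₁ (fun ω₁ => IPC.ind (P ω₁ ω₂)) (w ω₂)]
  have e2 : IPC.EE q E₁ (fun ω₁ => IPC.ind (P ω₁ ω₂) ^ 2) = w ω₂ :=
    IPC.EE_congr q E₁ fun ω₁ _ => NTf_sq_ind _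
  have e3 : IPC.EE q E₁ (fun ω₁ => IPC.ind (P ω₁ ω₂)) = w ω₂ := rfl
  rw [e2, e3]
  ring

private theorem NTf_cup {E' D ω₁ ω₂ : Finset ε} (hd : Disjoint E' D) (h1 : ω₁ ⊆ E') (h2 : ω₂ ⊆ D) :
    ω₁ ∪ ω₂ ∪ D = ω₁ ∪ D ∧ (ω₁ ∪ ω₂) \ D = ω₁ := by
  constructor
  · rw [Finset.union_assoc, Finset.union_eq_right.mpr h2]
  · rw [Finset.union_sdiff_distrib, Finset.sdiff_eq_empty_iff_subset.mpr h2, Finset.union_empty]
    exact Finset.sdiff_eq_self_of_disjoint (Finset.disjoint_of_subset_left h1 hd)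

/-- the step of the induction -/
private theorem NTf_step {q : ℝ} (h0 : 0 ≤ q) (h1 : q ≤ 1) {E' D : Finset ε} (hd : Disjoint E' D)
    {A : Finset ε → Prop} (hA : IPC.Inc A) :
    IPC.EE q E' (fun ω₁ => IPC.EE q D (fun ω₂ => IPC.ind (A (ω₁ ∪ ω₂))) *
        (1 - IPC.EE q D (fun ω₂ => IPC.ind (A (ω₁ ∪ ω₂))))) ≤
      IPC.Pr q (E' ∪ D) (fun ω => A (ω ∪ D) ∧ ¬ A (ω \ D)) := by
  have e : IPC.Pr q (E' ∪ D) (fun ω => A (ω ∪ D) ∧ ¬ A (ω \ D)) =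
      IPC.EE q E' (fun ω₁ => IPC.ind (A (ω₁ ∪ D) ∧ ¬ A ω₁)) := by
    unfold IPC.Pr
    rw [IPC.EE_union q hd]
    refine IPC.EE_congr q E' fun ω₁ hω₁ => ?_
    rw [← IPC.EE_const q D (IPC.ind (A (ω₁ ∪ D) ∧ ¬ A ω₁))]
    refine IPC.EE_congr q D fun ω₂ hω₂ => ?_
    obtain ⟨e1, e2⟩ := NTf_cup hd hω₁ hω₂
    show IPC.ind (A (ω₁ ∪ ω₂ ∪ D) ∧ ¬ A ((ω₁ ∪ ω₂) \ D)) = _
    rw [e1, e2]
  rw [e]
  refine IPC.EE_mono h0 h1 E' fun ω₁ hω₁ => ?_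
  set g : ℝ := IPC.EE q D (fun ω₂ => IPC.ind (A (ω₁ ∪ ω₂))) with hg
  have hg0 : 0 ≤ g := IPC.EE_nonneg h0 h1 D fun ω _ => IPC.ind_nonneg _
  have hg1 : g ≤ 1 := IPC.Pr_le_one h0 h1 D (fun ω₂ => A (ω₁ ∪ ω₂))
  by_cases c1 : A (ω₁ ∪ D)
  · by_cases c2 : A ω₁
    · have : g = 1 := by
        rw [hg, ← IPC.EE_const q D 1]
        exact IPC.EE_congr q D fun ω₂ _ => IPC.ind_of (hA _ _ Finset.subset_union_left c2)
      rw [this]
      have := IPC.ind_nonneg (A (ω₁ ∪ D) ∧ ¬ A ω₁)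
      linarith
    · rw [IPC.ind_of ⟨c1, c2⟩]
      nlinarith
  · have : g = 0 := by
      rw [hg, ← IPC.EE_const q D 0]
      refine IPC.EE_congr q D fun ω₂ hω₂ => IPC.ind_not fun h => c1 ?_
      exact hA _ _ (Finset.union_subset_union_right hω₂) h
    rw [this]
    have := IPC.ind_nonneg (A (ω₁ ∪ D) ∧ ¬ A ω₁)
    linarith

private theorem NTf_avg (q : ℝ) {E' D C : Finset ε} (hd : Disjoint E' D) (hC : Disjoint C D)
    (A : Finset ε → Prop) :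
    IPC.EE q D (fun ω₂ => IPC.Pr q E' (fun ω => A (ω ∪ C ∪ ω₂) ∧ ¬ A ((ω \ C) ∪ ω₂))) =
      IPC.Pr q (E' ∪ D) (fun ω => A (ω ∪ C) ∧ ¬ A (ω \ C)) := by
  unfold IPC.Pr
  rw [IPC.EE_union q hd, EE_comm q E' D]
  refine IPC.EE_congr q D fun ω₂ hω₂ => IPC.EE_congr q E' fun ω₁ _ => ?_
  have e1 : ω₁ ∪ C ∪ ω₂ = ω₁ ∪ ω₂ ∪ C := by
    rw [Finset.union_assoc, Finset.union_comm C ω₂, ← Finset.union_assoc]
  have e2 : (ω₁ ∪ ω₂) \ C = (ω₁ \ C) ∪ ω₂ := by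
    rw [Finset.union_sdiff_distrib]
    congr 1
    exact Finset.sdiff_eq_self_of_disjoint (Finset.disjoint_of_subset_left hω₂ hC.symm)
  show IPC.ind (A (ω₁ ∪ C ∪ ω₂) ∧ ¬ A ((ω₁ \ C) ∪ ω₂)) = IPC.ind (A (ω₁ ∪ ω₂ ∪ C) ∧ ¬ A ((ω₁ ∪ ω₂) \ C))
  rw [e1, e2]


theorem poincare {κ : Type} [DecidableEq κ] {q : ℝ} (h0 : 0 ≤ q) (h1 : q ≤ 1) (s : Finset κ) (B : κ → Finset ε)
    (hd : ∀ i ∈ s, ∀ j ∈ s, i ≠ j → Disjoint (B i) (B j)) {A : Finset ε → Prop} (hA : IPC.Inc A) :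
    IPC.Pr q (s.biUnion B) A * (1 - IPC.Pr q (s.biUnion B) A) ≤
      ∑ j ∈ s, IPC.Pr q (s.biUnion B) (fun ω => A (ω ∪ B j) ∧ ¬ A (ω \ B j)) := by
  induction s using Finset.induction_on generalizing A with
  | empty =>
    rw [Finset.biUnion_empty, Finset.sum_empty]
    have e : IPC.Pr q ∅ A = IPC.ind (A ∅) := IPC.EE_empty q _
    have e2 := NTf_sq_ind (A ∅)
    rw [e]
    nlinarith
  | insert b s hb ih =>
    have hds : ∀ i ∈ s, Disjoint (B i) (B b) := fun i hi =>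
      hd i (Finset.mem_insert_of_mem hi) b (Finset.mem_insert_self _ _) (fun h => hb (h ▸ hi))
    have hdE : Disjoint (s.biUnion B) (B b) := by
      rw [Finset.disjoint_biUnion_left]
      exact hds
    have ih' : ∀ {A' : Finset ε → Prop}, IPC.Inc A' →
        IPC.Pr q (s.biUnion B) A' * (1 - IPC.Pr q (s.biUnion B) A') ≤
          ∑ j ∈ s, IPC.Pr q (s.biUnion B) (fun ω => A' (ω ∪ B j) ∧ ¬ A' (ω \ B j)) := fun hA' =>
      ih (fun i hi j hj => hd i (Finset.mem_insert_of_mem hi) j (Finset.mem_insert_of_mem hj)) hA'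
    rw [Finset.biUnion_insert, Finset.union_comm (B b), Finset.sum_insert hb]
    have hF : IPC.Pr q (s.biUnion B ∪ B b) A =
        IPC.EE q (s.biUnion B) (fun ω₁ => IPC.EE q (B b) (fun ω₂ => IPC.ind (A (ω₁ ∪ ω₂)))) :=
      IPC.EE_union q hdE (fun ω => IPC.ind (A ω))
    have k1 := NTf_step h0 h1 hdE hA
    have k2 := NTf_conv h0 h1 (s.biUnion B) (B b) (fun ω₁ ω₂ => A (ω₁ ∪ ω₂))
    have k3 : IPC.EE q (B b) (fun ω₂ => IPC.EE q (s.biUnion B) (fun ω₁ => IPC.ind (A (ω₁ ∪ ω₂))) *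
        (1 - IPC.EE q (s.biUnion B) (fun ω₁ => IPC.ind (A (ω₁ ∪ ω₂))))) ≤
        ∑ j ∈ s, IPC.Pr q (s.biUnion B ∪ B b) (fun ω => A (ω ∪ B j) ∧ ¬ A (ω \ B j)) := by
      have m1 : IPC.EE q (B b) (fun ω₂ => IPC.EE q (s.biUnion B) (fun ω₁ => IPC.ind (A (ω₁ ∪ ω₂))) *
          (1 - IPC.EE q (s.biUnion B) (fun ω₁ => IPC.ind (A (ω₁ ∪ ω₂))))) ≤
          IPC.EE q (B b) (fun ω₂ => ∑ j ∈ s, IPC.Pr q (s.biUnion B)
            (fun ω => A (ω ∪ B j ∪ ω₂) ∧ ¬ A ((ω \ B j) ∪ ω₂))) := by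
        refine IPC.EE_mono h0 h1 (B b) fun ω₂ _ => ?_
        have hI : IPC.Inc (fun ω₁ => A (ω₁ ∪ ω₂)) := fun ω ω' h h' =>
          hA _ _ (Finset.union_subset_union_left h) h'
        exact ih' hI
      refine m1.trans (le_of_eq ?_)
      rw [IPC.EE_sum]
      refine Finset.sum_congr rfl fun j hj => ?_
      exact NTf_avg q hdE (hds j hj) A
    have k4 : IPC.EE q (s.biUnion B) (fun ω₁ => IPC.EE q (B b) (fun ω₂ => IPC.ind (A (ω₁ ∪ ω₂))) *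
        (1 - IPC.EE q (B b) (fun ω₂ => IPC.ind (A (ω₁ ∪ ω₂))))) =
        IPC.EE q (s.biUnion B) (fun ω₁ => IPC.EE q (B b) (fun ω₂ => IPC.ind (A (ω₁ ∪ ω₂)))) -
        IPC.EE q (s.biUnion B) (fun ω₁ => IPC.EE q (B b) (fun ω₂ => IPC.ind (A (ω₁ ∪ ω₂))) ^ 2) := by
      rw [← IPC.EE_sub]
      exact IPC.EE_congr q _ fun ω _ => by ring
    rw [k4] at k1
    rw [hF]
    have k5 := add_le_add (add_le_add k1 k2) k3
    nlinarith

private theorem NTf_harris {p : ℝ} (hp0 : 0 ≤ p) (hp1 : p ≤ 1) (E : Finset ε) (f g : Finset ε → ℝ)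
    (hf : ∀ ω ω', ω ⊆ ω' → f ω ≤ f ω') (hg : ∀ ω ω', ω ⊆ ω' → g ω ≤ g ω') :
    IPC.EE p E f * IPC.EE p E g ≤ IPC.EE p E (fun ω => f ω * g ω) := by
  induction E using Finset.induction_on generalizing f g with
  | empty => rw [IPC.EE_empty, IPC.EE_empty, IPC.EE_empty]
  | insert b E hb ih =>
    rw [IPC.EE_insert p hb f, IPC.EE_insert p hb g, IPC.EE_insert p hb (fun ω => f ω * g ω)]
    have h1 := ih (fun ω => f (insert b ω)) (fun ω => g (insert b ω))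
      (fun ω ω' h => hf _ _ (Finset.insert_subset_insert b h))
      (fun ω ω' h => hg _ _ (Finset.insert_subset_insert b h))
    have h0 := ih f g hf hg
    have ha : IPC.EE p E f ≤ IPC.EE p E (fun ω => f (insert b ω)) :=
      IPC.EE_mono hp0 hp1 E fun ω _ => hf _ _ (Finset.subset_insert b ω)
    have hb' : IPC.EE p E g ≤ IPC.EE p E (fun ω => g (insert b ω)) :=
      IPC.EE_mono hp0 hp1 E fun ω _ => hg _ _ (Finset.subset_insert b ω)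
    have hq : 0 ≤ 1 - p := by linarith
    have h2 := mul_le_mul_of_nonneg_left h1 hp0
    have h3 := mul_le_mul_of_nonneg_left h0 hq
    have h4 := mul_nonneg (mul_nonneg hp0 hq) (mul_nonneg (sub_nonneg.2 ha) (sub_nonneg.2 hb'))
    nlinarith


theorem harris_dec {q : ℝ} (h0 : 0 ≤ q) (h1 : q ≤ 1) (E : Finset ε) {A B : Finset ε → Prop} (hA : IPC.Inc A) (hB : IPC.Inc B) :
    (1 - IPC.Pr q E A) * (1 - IPC.Pr q E B) ≤ IPC.Pr q E (fun ω => ¬ A ω ∧ ¬ B ω) := by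
  have h2 := NTf_harris h0 h1 E (fun ω => IPC.ind (A ω) - 1) (fun ω => IPC.ind (B ω) - 1)
    (fun ω ω' h => sub_le_sub_right (IPC.ind_mono (hA ω ω' h)) 1)
    (fun ω ω' h => sub_le_sub_right (IPC.ind_mono (hB ω ω' h)) 1)
  rw [IPC.EE_sub q E (fun ω => IPC.ind (A ω)) (fun _ => 1), IPC.EE_sub q E (fun ω => IPC.ind (B ω)) (fun _ => 1),
    IPC.EE_one] at h2
  have e : IPC.EE q E (fun ω => (IPC.ind (A ω) - 1) * (IPC.ind (B ω) - 1)) =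
      IPC.Pr q E (fun ω => ¬ A ω ∧ ¬ B ω) := by
    refine IPC.EE_congr q E fun ω _ => ?_
    rw [IPC.ind_and, IPC.ind_compl, IPC.ind_compl]
    ring
  rw [e] at h2
  refine le_trans (le_of_eq ?_) h2
  show (1 - IPC.EE q E (fun ω => IPC.ind (A ω))) * (1 - IPC.EE q E (fun ω => IPC.ind (B ω))) = _
  ring

theorem harris_dec_list {q : ℝ} (h0 : 0 ≤ q) (h1 : q ≤ 1) (E : Finset ε) (L : List (Finset ε → Prop))
    (hL : ∀ A ∈ L, IPC.Inc A) : (L.map (fun A => 1 - IPC.Pr q E A)).prod ≤ IPC.Pr q E (fun ω => ∀ A ∈ L, ¬ A ω) := by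
  induction L with
  | nil =>
    rw [List.map_nil, List.prod_nil, IPC.Pr_true q E]
    intro ω _ A hA
    exact absurd hA List.not_mem_nil
  | cons A L ih =>
    rw [List.map_cons, List.prod_cons]
    have k1 := ih fun B hB => hL B (List.mem_cons_of_mem A hB)
    have hI : IPC.Inc (fun ω => ∃ B ∈ L, B ω) := by
      rintro ω ω' h ⟨B, hB, hω⟩
      exact ⟨B, hB, hL B (List.mem_cons_of_mem A hB) ω ω' h hω⟩
    have k2 := harris_dec h0 h1 E (hL A List.mem_cons_self) hI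
    have k3 : IPC.Pr q E (fun ω => ∀ B ∈ L, ¬ B ω) = 1 - IPC.Pr q E (fun ω => ∃ B ∈ L, B ω) := by
      rw [← IPC.Pr_not]
      refine IPC.Pr_congr q E fun ω _ => ?_
      constructor
      · rintro h ⟨B, hB, h'⟩
        exact h B hB h'
      · intro h B hB h'
        exact h ⟨B, hB, h'⟩
    rw [k3] at k1
    have k4 : 0 ≤ 1 - IPC.Pr q E A := by
      have := IPC.Pr_le_one h0 h1 E A
      linarith
    refine (mul_le_mul_of_nonneg_left k1 k4).trans (k2.trans (le_of_eq ?_))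
    refine IPC.Pr_congr q E fun ω _ => ?_
    rw [List.forall_mem_cons]
    refine and_congr_right fun _ => ?_
    constructor
    · intro h B hB h'
      exact h ⟨B, hB, h'⟩
    · rintro h ⟨B, hB, h'⟩
      exact h B hB h'

private theorem NTf_single {q : ℝ} (h0 : 0 ≤ q) (h1 : q ≤ 1) (E : Finset ε) {A : Finset ε → Prop} {ω : Finset ε}
    (hω : ω ⊆ E) (hA : A ω) : q ^ ω.card * (1 - q) ^ (E \ ω).card ≤ IPC.Pr q E A := by
  have hnn : ∀ t ∈ E.powerset, 0 ≤ q ^ t.card * (1 - q) ^ (E \ t).card * IPC.ind (A t) := fun t _ =>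
    mul_nonneg (mul_nonneg (pow_nonneg h0 _) (pow_nonneg (by linarith) _)) (IPC.ind_nonneg _)
  have h2 := Finset.single_le_sum hnn (Finset.mem_powerset.mpr hω)
  rw [IPC.ind_of hA, mul_one] at h2
  exact h2


theorem fin_full {q : ℝ} (h0 : 0 ≤ q) (h1 : q ≤ 1) (E : Finset ε) {A : Finset ε → Prop} (hA : A E) :
    q ^ E.card ≤ IPC.Pr q E A := by
  have h2 := NTf_single h0 h1 E (Finset.Subset.refl E) hA
  rwa [Finset.sdiff_self, Finset.card_empty, pow_zero, mul_one] at h2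

theorem fin_empty {q : ℝ} (h0 : 0 ≤ q) (h1 : q ≤ 1) (E : Finset ε) {A : Finset ε → Prop} (hA : A ∅) :
    (1 - q) ^ E.card ≤ IPC.Pr q E A := by
  have h2 := NTf_single h0 h1 E (Finset.empty_subset E) hA
  rwa [Finset.sdiff_empty, Finset.card_empty, pow_zero, one_mul] at h2

private theorem NTf_split (q : ℝ) {E : Finset ε} {e : ε} (he : e ∈ E) (A : Finset ε → Prop) :
    IPC.Pr q E A = q * IPC.Pr q (E.erase e) (fun ω => A (insert e ω)) + (1 - q) * IPC.Pr q (E.erase e) A := by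
  have h1 : IPC.Pr q E A = IPC.Pr q (insert e (E.erase e)) A := by rw [Finset.insert_erase he]
  rw [h1]
  exact IPC.EE_insert q (Finset.notMem_erase e E) (fun ω => IPC.ind (A ω))


theorem fin_ins {q : ℝ} (h0 : 0 ≤ q) (h1 : q ≤ 1) {E : Finset ε} {e : ε} (he : e ∈ E) (A : Finset ε → Prop) :
    q * IPC.Pr q E (fun ω => A (insert e ω)) ≤ IPC.Pr q E A := by
  have k1 := NTf_split q he A
  have k2 := NTf_split q he (fun ω => A (insert e ω))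
  have k3 : IPC.Pr q (E.erase e) (fun ω => A (insert e (insert e ω))) =
      IPC.Pr q (E.erase e) (fun ω => A (insert e ω)) :=
    IPC.Pr_congr q _ fun ω _ => by rw [Finset.insert_idem]
  rw [k3] at k2
  have k4 : 0 ≤ (1 - q) * IPC.Pr q (E.erase e) A :=
    mul_nonneg (by linarith) (IPC.Pr_nonneg h0 h1 _ _)
  have k5 : IPC.Pr q E (fun ω => A (insert e ω)) = IPC.Pr q (E.erase e) (fun ω => A (insert e ω)) := by
    rw [k2]
    ring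
  rw [k5]
  linarith

theorem fin_era {q : ℝ} (h0 : 0 ≤ q) (h1 : q ≤ 1) {E : Finset ε} {e : ε} (he : e ∈ E) (A : Finset ε → Prop) :
    (1 - q) * IPC.Pr q E (fun ω => A (ω.erase e)) ≤ IPC.Pr q E A := by
  have k1 := NTf_split q he A
  have k2 : IPC.Pr q E (fun ω => A (ω.erase e)) = IPC.Pr q (E.erase e) A := IPC.Pr_erase q E e A
  have k4 : 0 ≤ q * IPC.Pr q (E.erase e) (fun ω => A (insert e ω)) :=
    mul_nonneg h0 (IPC.Pr_nonneg h0 h1 _ _)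
  rw [k2]
  linarith

end FKN
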