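import Mathlib
import Pool.Agent.Lib.MP_216314_pr.N.NTd
import Pool.Agent.Lib.MP_216314_pr.N.NTe
import Pool.Agent.Lib.MP_216314_pr.N.NTf

/-!
# JOB NTg: probabilities: monotonicity in the radii, `rho ≤ p4`, Poincare on the torus (about 250 lines)

* `p4_tor`, `p1_tor`, `p4'_tor`, `p1'_tor`: `IPC.Pr_restrict` (`bx_sub_TE`; `an r R ⊆ bx R ⊆ TE m`), with `dep_FourT` (and `four_iff`), `dep_One`, …
* `p4_anti`, `p1_anti`: on `bx R`: `Pr_restrict` to `bx r` and `FourT_mono`, `One_mono` (`IPC.Pr_mono`).  `p4'_mono`: `Four'_mono`: `p4' q r R ≤ p4' q r' R'` for `r ≤ r' ≤ R' ≤ R`; `p1'_mono` the same.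
* `p4_true`: `Pr q (bx r) (FourT true r) = p4 q r`: transposition `tre` maps `bx r` onto itself (`IPC.EE_image`), `et false` to `et true`, and `Conn F ω u v` to `Conn (F.image tre) (ω.image tre) u.swap v.swap`.
* `rho_le_p4`: `T1` with `t = false` and `four_iff`, `Pr_mono`, `p4_tor` with `r = m`.
* `one_an_self`: `One' m m` always holds (`u = w = (m, 0)`, `Conn.refl`), so `p1' q m m = 1`.
* `poin`: blocks: `K := (2 m + 1) / (2 r) + 1` (natural division), index set `κ = range K ×ˢ range K`, block `B (i, j) = (TE m).filter (fun e => -m + 2 r i ≤ e.1 ∧ e.1 < -m + 2 r (i+1) ∧ -m + 2 r j ≤ e.2.1 ∧ e.2.1 < -m + 2 r (j+1))`: pairwise disjoint,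
  union `TE m` (`2 r K ≥ 2 m + 1`).  Each term of `poincare` for `A = W m` is `≤ p4' q r m`: translate by `-v`, `v = (-m + 2 r i + r, -m + 2 r j + r)` (`Pr_sh` with `-v`, `W_sh`, `sh_union`, `sh_sdiff`): with `ω' = sh m (-v) ω`, `S = sh m (-v) (B (i,j))`
  satisfies `S ⊆ bx r`: its edges have base in `[-r, r-1]²` so ends in `[-r, r]²` (the base `e.1 - v.1` is in `[-r, r - 1] ⊆ [-m, m]`, so `bal` does nothing: `bal_self`), so `T1b` gives `Four' r m ω'`; `p4'_tor`.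
  Number of blocks: `K ≤ 3 m / r`: `K r ≤ (2m+1)/2 + r`, so `K * r ≤ m + r + 1 ≤ 3 m` (`1 ≤ r ≤ m`), in `ℝ`: `K² r² ≤ 9 m²`.
-/

set_option autoImplicit false

namespace FKN

open Finset FKI FKP

theorem p4_nonneg {q : ℝ} (h0 : 0 ≤ q) (h1 : q ≤ 1) (r : ℕ) : 0 ≤ p4 q r ∧ p4 q r ≤ 1 := by
  exact ⟨IPC.Pr_nonneg h0 h1 _ _, IPC.Pr_le_one h0 h1 _ _⟩

theorem p1_nonneg {q : ℝ} (h0 : 0 ≤ q) (h1 : q ≤ 1) (r : ℕ) : 0 ≤ p1 q r ∧ p1 q r ≤ 1 := by
  exact ⟨IPC.Pr_nonneg h0 h1 _ _, IPC.Pr_le_one h0 h1 _ _⟩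

theorem p4'_nonneg {q : ℝ} (h0 : 0 ≤ q) (h1 : q ≤ 1) (r R : ℕ) : 0 ≤ p4' q r R ∧ p4' q r R ≤ 1 := by
  exact ⟨IPC.Pr_nonneg h0 h1 _ _, IPC.Pr_le_one h0 h1 _ _⟩

theorem p1'_nonneg {q : ℝ} (h0 : 0 ≤ q) (h1 : q ≤ 1) (r R : ℕ) : 0 ≤ p1' q r R ∧ p1' q r R ≤ 1 := by
  exact ⟨IPC.Pr_nonneg h0 h1 _ _, IPC.Pr_le_one h0 h1 _ _⟩

theorem p4_tor (q : ℝ) {r m : ℕ} (hr : r ≤ m) : IPC.Pr q (TE m) (Four r) = p4 q r := by
  exact IPC.Pr_restrict q (bx_sub_TE hr) (Four r) fun ω _ => by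
    rw [four_iff, four_iff]
    exact dep_FourT (Finset.Subset.refl _) ω

theorem p1_tor (q : ℝ) {r m : ℕ} (hr : r ≤ m) : IPC.Pr q (TE m) (One r) = p1 q r := by
  exact IPC.Pr_restrict q (bx_sub_TE hr) (One r) fun ω _ => dep_One (Finset.Subset.refl _) ω

theorem p4'_tor (q : ℝ) {r R m : ℕ} (hR : R ≤ m) : IPC.Pr q (TE m) (Four' r R) = p4' q r R := by
  exact IPC.Pr_restrict q (Finset.sdiff_subset.trans (bx_sub_TE hR)) (Four' r R)
    fun ω _ => dep_Four' (Finset.Subset.refl _) ω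

theorem p1'_tor (q : ℝ) {r R m : ℕ} (hR : R ≤ m) : IPC.Pr q (TE m) (One' r R) = p1' q r R := by
  exact IPC.Pr_restrict q (Finset.sdiff_subset.trans (bx_sub_TE hR)) (One' r R)
    fun ω _ => dep_One' (Finset.Subset.refl _) ω

private theorem NTg_ea (e : Edge) : ea (tre e) = (ea e).swap := rfl

private theorem NTg_eb (e : Edge) : eb (tre e) = (eb e).swap := by
  obtain ⟨x, y, t⟩ := e
  cases t <;> rfl

private theorem NTg_inj : Function.Injective tre := by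
  intro a b h
  have h1 : tre (tre a) = tre (tre b) := by rw [h]
  rwa [tre_tre, tre_tre] at h1

private theorem NTg_gr {A : Finset Edge} {u v : V} (h : (gr A).Reachable u v) :
    (gr (A.image tre)).Reachable u.swap v.swap := by
  let φ : gr A →g gr (A.image tre) :=
    { toFun := Prod.swap
      map_rel' := by
        intro a b hab
        unfold gr at hab ⊢
        rw [SimpleGraph.fromRel_adj] at hab ⊢
        refine ⟨fun h0 => hab.1 (Prod.swap_injective h0), ?_⟩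
        rcases hab.2 with ⟨e, he, h1, h2⟩ | ⟨e, he, h1, h2⟩
        · left
          exact ⟨tre e, Finset.mem_image_of_mem _ he, by rw [NTg_ea, h1], by rw [NTg_eb, h2]⟩
        · right
          exact ⟨tre e, Finset.mem_image_of_mem _ he, by rw [NTg_ea, h1], by rw [NTg_eb, h2]⟩ }
  exact h.map φ

private theorem NTg_im2 (A : Finset Edge) : (A.image tre).image tre = A := by
  rw [Finset.image_image]
  have h : tre ∘ tre = id := funext fun e => tre_tre e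
  rw [h, Finset.image_id]

private theorem NTg_conn {F ω : Finset Edge} {u v : V} :
    Conn (F.image tre) (ω.image tre) u.swap v.swap ↔ Conn F ω u v := by
  unfold Conn
  rw [← Finset.image_inter _ _ NTg_inj]
  constructor
  · intro h
    have h1 := NTg_gr h
    rwa [NTg_im2, Prod.swap_swap, Prod.swap_swap] at h1
  · exact NTg_gr

private theorem NTg_nrm (v : V) : nrm v.swap = nrm v := by
  unfold nrm
  rw [max_comm]
  rfl

private theorem NTg_bx (r : ℕ) : (bx r).image tre = bx r := by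
  ext e
  rw [Finset.mem_image]
  constructor
  · rintro ⟨a, ha, rfl⟩
    rw [mem_bx] at ha ⊢
    rw [NTg_ea, NTg_eb, NTg_nrm, NTg_nrm]
    exact ha
  · intro h
    refine ⟨tre e, ?_, tre_tre e⟩
    rw [mem_bx] at h ⊢
    rw [NTg_ea, NTg_eb, NTg_nrm, NTg_nrm]
    exact h

private theorem NTg_F (r : ℕ) : bx r \ {et true} = (bx r \ {et false}).image tre := by
  rw [Finset.image_sdiff _ _ NTg_inj, NTg_bx, Finset.image_singleton]
  rfl

private theorem NTg_four (r : ℕ) (ω : Finset Edge) :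
    FourT true r (ω.image tre) ↔ FourT false r ω := by
  have hc : ∀ u v : V, Conn (bx r \ {et true}) (ω.image tre) u.swap v.swap ↔
      Conn (bx r \ {et false}) ω u v := by
    intro u v
    rw [NTg_F]
    exact NTg_conn
  have h0 : ((0, 0) : V) = ((0, 0) : V).swap := rfl
  have h1 : eb (et true) = (eb (et false)).swap := rfl
  have he : ∀ x : V, (∃ u : V, nrm u = r ∧ Conn (bx r \ {et true}) (ω.image tre) x.swap u) ↔
      (∃ u : V, nrm u = r ∧ Conn (bx r \ {et false}) ω x u) := by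
    intro x
    constructor
    · rintro ⟨u, hu, h⟩
      refine ⟨u.swap, by rw [NTg_nrm, hu], ?_⟩
      rw [← hc, Prod.swap_swap]
      exact h
    · rintro ⟨u, hu, h⟩
      refine ⟨u.swap, by rw [NTg_nrm, hu], ?_⟩
      rw [hc]
      exact h
  unfold FourT
  rw [h1]
  have e1 := he (0, 0)
  have e2 := he (eb (et false))
  have e3 := hc (0, 0) (eb (et false))
  exact and_congr e1 (and_congr e2 (not_congr e3))

theorem p4_true (q : ℝ) (r : ℕ) : IPC.Pr q (bx r) (FourT true r) = p4 q r := by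
  have h1 : IPC.Pr q (bx r) (FourT true r) = IPC.Pr q ((bx r).image tre) (FourT true r) := by
    rw [NTg_bx]
  have h2 : IPC.Pr q ((bx r).image tre) (FourT true r) =
      IPC.Pr q (bx r) (fun ω => FourT true r (ω.image tre)) :=
    IPC.EE_image q (bx r) tre (fun a _ b _ h => NTg_inj h) _
  rw [h1, h2]
  exact IPC.Pr_congr q _ fun ω _ => (NTg_four r ω).trans four_iff.symm

theorem p4_FT (q : ℝ) (t : Bool) (r : ℕ) : IPC.Pr q (bx r) (FourT t r) = p4 q r := by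
  cases t with
  | false => exact IPC.Pr_congr q _ fun ω _ => four_iff.symm
  | true => exact p4_true q r

theorem p4_anti {q : ℝ} (h0 : 0 ≤ q) (h1 : q ≤ 1) {r R : ℕ} (hr : 1 ≤ r) (hR : r ≤ R) : p4 q R ≤ p4 q r := by
  have h2 : IPC.Pr q (bx R) (Four r) = p4 q r :=
    IPC.Pr_restrict q (bx_mono hR) (Four r) fun ω _ => by
      rw [four_iff, four_iff]
      exact dep_FourT (Finset.Subset.refl _) ω
  rw [← h2]
  refine IPC.Pr_mono h0 h1 _ fun ω _ h => ?_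
  rw [four_iff] at h ⊢
  exact FourT_mono hr hR h

theorem p1_anti {q : ℝ} (h0 : 0 ≤ q) (h1 : q ≤ 1) {r R : ℕ} (hR : r ≤ R) : p1 q R ≤ p1 q r := by
  have h2 : IPC.Pr q (bx R) (One r) = p1 q r :=
    IPC.Pr_restrict q (bx_mono hR) (One r) fun ω _ => dep_One (Finset.Subset.refl _) ω
  rw [← h2]
  exact IPC.Pr_mono h0 h1 _ fun ω _ h => One_mono hR h

private theorem NTg_an {r r' R R' : ℕ} (h2 : r ≤ r') (h4 : R' ≤ R) : an r' R' ⊆ an r R :=
  Finset.sdiff_subset_sdiff (bx_mono h4) (bx_mono h2)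

theorem p4'_mono {q : ℝ} (h0 : 0 ≤ q) (h1 : q ≤ 1) {r r' R R' : ℕ} (h2 : r ≤ r') (h3 : r' ≤ R') (h4 : R' ≤ R) :
    p4' q r R ≤ p4' q r' R' := by
  have h5 : IPC.Pr q (an r R) (Four' r' R') = p4' q r' R' :=
    IPC.Pr_restrict q (NTg_an h2 h4) (Four' r' R') fun ω _ => dep_Four' (Finset.Subset.refl _) ω
  rw [← h5]
  exact IPC.Pr_mono h0 h1 _ fun ω _ h => Four'_mono h2 h3 h4 h

theorem p1'_mono {q : ℝ} (h0 : 0 ≤ q) (h1 : q ≤ 1) {r r' R R' : ℕ} (h2 : r ≤ r') (h3 : r' ≤ R') (h4 : R' ≤ R) :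
    p1' q r R ≤ p1' q r' R' := by
  have h5 : IPC.Pr q (an r R) (One' r' R') = p1' q r' R' :=
    IPC.Pr_restrict q (NTg_an h2 h4) (One' r' R') fun ω _ => dep_One' (Finset.Subset.refl _) ω
  rw [← h5]
  exact IPC.Pr_mono h0 h1 _ fun ω _ h => One'_mono h2 h3 h4 h

theorem p1'_self {q : ℝ} (m : ℕ) : p1' q m m = 1 := by
  refine IPC.Pr_true q _ fun ω _ => ?_
  have hn : nrm ((m : ℤ), (0 : ℤ)) = m := by
    unfold nrm
    simp
  exact ⟨((m : ℤ), 0), ((m : ℤ), 0), hn, hn, Conn.refl _ _ _⟩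

theorem rho_le_p4 {q : ℝ} (h0 : 0 ≤ q) (h1 : q ≤ 1) {m : ℕ} (hm : 1 ≤ m) : rho q m ≤ p4 q m := by
  rw [← p4_tor q (le_refl m)]
  refine IPC.Pr_mono h0 h1 _ fun ω hω h => ?_
  rw [four_iff]
  exact T1 hm hω h

theorem rho_nonneg {q : ℝ} (h0 : 0 ≤ q) (h1 : q ≤ 1) (m : ℕ) : 0 ≤ rho q m := by
  exact IPC.Pr_nonneg h0 h1 _ _

/-- the blocks -/
private noncomputable def NTg_B (r m : ℕ) (k : ℕ × ℕ) : Finset Edge :=
  (TE m).filter fun e => (-(m : ℤ) + 2 * r * k.1 ≤ e.1 ∧ e.1 < -(m : ℤ) + 2 * r * (k.1 + 1)) ∧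
    (-(m : ℤ) + 2 * r * k.2 ≤ e.2.1 ∧ e.2.1 < -(m : ℤ) + 2 * r * (k.2 + 1))

private theorem NTg_uniq {r m i j : ℕ} {x : ℤ} (hr : 1 ≤ r)
    (h1 : -(m : ℤ) + 2 * r * i ≤ x) (h2 : x < -(m : ℤ) + 2 * r * (i + 1))
    (h3 : -(m : ℤ) + 2 * r * j ≤ x) (h4 : x < -(m : ℤ) + 2 * r * (j + 1)) : i = j := by
  have hr' : (0 : ℤ) < 2 * r := by
    have : (1 : ℤ) ≤ r := by exact_mod_cast hr
    linarith
  have a1 : (2 * r : ℤ) * i < 2 * r * (j + 1) := by linarith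
  have a2 : (2 * r : ℤ) * j < 2 * r * (i + 1) := by linarith
  have b1 := lt_of_mul_lt_mul_left a1 hr'.le
  have b2 := lt_of_mul_lt_mul_left a2 hr'.le
  omega

private theorem NTg_ex {r m : ℕ} {x : ℤ} (hr : 1 ≤ r) (h1 : -(m : ℤ) ≤ x) (h2 : x ≤ m) :
    ∃ i : ℕ, i < (2 * m + 1) / (2 * r) + 1 ∧
      -(m : ℤ) + 2 * r * i ≤ x ∧ x < -(m : ℤ) + 2 * r * (i + 1) := by
  obtain ⟨y, hy⟩ : ∃ y : ℕ, (y : ℤ) = x + m := ⟨(x + m).toNat, Int.toNat_of_nonneg (by linarith)⟩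
  refine ⟨y / (2 * r), ?_, ?_, ?_⟩
  · have hy2 : y ≤ 2 * m + 1 := by
      have : (y : ℤ) ≤ 2 * m + 1 := by linarith
      exact_mod_cast this
    exact Nat.lt_succ_of_le (Nat.div_le_div_right hy2)
  · have h3 : 2 * r * (y / (2 * r)) ≤ y := Nat.mul_div_le y (2 * r)
    have h4 : (2 * r * ((y / (2 * r) : ℕ) : ℤ)) ≤ (y : ℤ) := by exact_mod_cast h3
    linarith
  · have h3 : y < 2 * r * (y / (2 * r) + 1) := Nat.lt_mul_div_succ y (by omega)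
    have h4 : (y : ℤ) < 2 * r * (((y / (2 * r) : ℕ) : ℤ) + 1) := by exact_mod_cast h3
    linarith

private theorem NTg_cover {r m : ℕ} (hr : 1 ≤ r) :
    (range ((2 * m + 1) / (2 * r) + 1) ×ˢ range ((2 * m + 1) / (2 * r) + 1)).biUnion (NTg_B r m) =
      TE m := by
  ext e
  rw [Finset.mem_biUnion]
  constructor
  · rintro ⟨k, _, hk⟩
    exact (Finset.mem_filter.mp hk).1
  · intro he
    have he' := mem_TE.mp he
    obtain ⟨i, hi, i1, i2⟩ := NTg_ex (m := m) hr he'.1.1 he'.1.2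
    obtain ⟨j, hj, j1, j2⟩ := NTg_ex (m := m) hr he'.2.1 he'.2.2
    refine ⟨(i, j), ?_, ?_⟩
    · rw [Finset.mem_product, Finset.mem_range, Finset.mem_range]
      exact ⟨hi, hj⟩
    · exact Finset.mem_filter.mpr ⟨he, ⟨i1, i2⟩, ⟨j1, j2⟩⟩

private theorem NTg_disj {r m : ℕ} (hr : 1 ≤ r) {k l : ℕ × ℕ} (hkl : k ≠ l) :
    Disjoint (NTg_B r m k) (NTg_B r m l) := by
  rw [Finset.disjoint_left]
  intro e h1 h2
  have a := (Finset.mem_filter.mp h1).2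
  have b := (Finset.mem_filter.mp h2).2
  exact hkl (Prod.ext (NTg_uniq hr a.1.1 a.1.2 b.1.1 b.1.2) (NTg_uniq hr a.2.1 a.2.2 b.2.1 b.2.2))

private theorem NTg_S {r m : ℕ} (hr : 1 ≤ r) (hm : r ≤ m) (k : ℕ × ℕ) :
    sh m (-((-(m : ℤ) + 2 * r * k.1 + r, -(m : ℤ) + 2 * r * k.2 + r) : V)) (NTg_B r m k) ⊆ bx r := by
  intro e' he'
  obtain ⟨e, he, rfl⟩ := Finset.mem_image.mp he'
  obtain ⟨hT, ⟨a1, a2⟩, ⟨b1, b2⟩⟩ := Finset.mem_filter.mp he
  obtain ⟨x, y, t⟩ := e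
  simp only at a1 a2 b1 b2
  have hm' : (r : ℤ) ≤ m := by exact_mod_cast hm
  have hr' : (1 : ℤ) ≤ r := by exact_mod_cast hr
  unfold st
  have hs : shv (-((-(m : ℤ) + 2 * r * k.1 + r, -(m : ℤ) + 2 * r * k.2 + r) : V)) (x, y, t) =
      (x - (-(m : ℤ) + 2 * r * k.1 + r), y - (-(m : ℤ) + 2 * r * k.2 + r), t) := rfl
  rw [hs]
  obtain ⟨X, hX⟩ : ∃ X, X = x - (-(m : ℤ) + 2 * r * k.1 + r) := ⟨_, rfl⟩
  obtain ⟨Y, hY⟩ : ∃ Y, Y = y - (-(m : ℤ) + 2 * r * k.2 + r) := ⟨_, rfl⟩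
  rw [← hX, ← hY]
  have x1 : -(r : ℤ) ≤ X := by linarith
  have x2 : X + 1 ≤ r := by
    have : X < r := by linarith
    exact this
  have y1 : -(r : ℤ) ≤ Y := by linarith
  have y2 : Y + 1 ≤ r := by
    have : Y < r := by linarith
    exact this
  rw [cm_self (mem_TE.mpr ⟨⟨by show -(m : ℤ) ≤ X; linarith, by show X ≤ (m : ℤ); linarith⟩,
    ⟨by show -(m : ℤ) ≤ Y; linarith, by show Y ≤ (m : ℤ); linarith⟩⟩)]
  rw [mem_bx]
  have hb : ∀ a b : ℤ, -(r : ℤ) ≤ a → a ≤ r → -(r : ℤ) ≤ b → b ≤ r → nrm (a, b) ≤ r := by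
    intro a b h1 h2 h3 h4
    unfold nrm
    exact max_le (abs_le.mpr ⟨h1, h2⟩) (abs_le.mpr ⟨h3, h4⟩)
  refine ⟨hb X Y x1 (by linarith) y1 (by linarith), ?_⟩
  cases t with
  | false => exact hb (X + 1) Y (by linarith) x2 y1 (by linarith)
  | true => exact hb X (Y + 1) x1 (by linarith) (by linarith) y2

private theorem NTg_term {q : ℝ} (h0 : 0 ≤ q) (h1 : q ≤ 1) {r m : ℕ} (hr : 1 ≤ r) (hm : r ≤ m)
    (k : ℕ × ℕ) : IPC.Pr q (TE m) (fun ω => W m (ω ∪ NTg_B r m k) ∧ ¬ W m (ω \ NTg_B r m k)) ≤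
      p4' q r m := by
  rw [← p4'_tor q (le_refl m), ← Pr_sh q m
    (-((-(m : ℤ) + 2 * r * k.1 + r, -(m : ℤ) + 2 * r * k.2 + r) : V)) (Four' r m)]
  refine IPC.Pr_mono h0 h1 _ fun ω hω h => ?_
  have hB : NTg_B r m k ⊆ TE m := Finset.filter_subset _ _
  refine T1b hm (sh_sub _ _ _) (NTg_S hr hm k) ?_ ?_
  · rw [← sh_sdiff _ hω hB, W_sh _ (Finset.sdiff_subset.trans hω)]
    exact h.2
  · rw [← sh_union, W_sh _ (Finset.union_subset hω hB)]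
    exact h.1

theorem poin {q : ℝ} (h0 : 0 ≤ q) (h1 : q ≤ 1) {r m : ℕ} (hr : 1 ≤ r) (hm : r ≤ m) :
    FW q m * (1 - FW q m) * (r : ℝ) ^ 2 ≤ 9 * (m : ℝ) ^ 2 * p4' q r m := by
  obtain ⟨K, hK⟩ : ∃ K, K = (2 * m + 1) / (2 * r) + 1 := ⟨_, rfl⟩
  have hP := poincare h0 h1 (range ((2 * m + 1) / (2 * r) + 1) ×ˢ range ((2 * m + 1) / (2 * r) + 1))
    (NTg_B r m) (fun i _ j _ hij => NTg_disj hr hij) (W_inc m)
  rw [NTg_cover hr, ← hK] at hP
  have hS : ∑ k ∈ range K ×ˢ range K,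
      IPC.Pr q (TE m) (fun ω => W m (ω ∪ NTg_B r m k) ∧ ¬ W m (ω \ NTg_B r m k)) ≤
      (K : ℝ) ^ 2 * p4' q r m := by
    refine (Finset.sum_le_card_nsmul _ _ _ fun k _ => NTg_term h0 h1 hr hm k).trans ?_
    rw [Finset.card_product, Finset.card_range, nsmul_eq_mul]
    push_cast
    rw [sq]
  have hKr : K * r ≤ 3 * m := by
    have h2 : 2 * r * ((2 * m + 1) / (2 * r)) ≤ 2 * m + 1 := Nat.mul_div_le _ _
    have h3 : 2 * (K * r) = 2 * r * ((2 * m + 1) / (2 * r)) + 2 * r := by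
      rw [hK]; ring
    omega
  have hKr' : (K : ℝ) * r ≤ 3 * m := by exact_mod_cast hKr
  have hKr2 : (K : ℝ) ^ 2 * (r : ℝ) ^ 2 ≤ 9 * (m : ℝ) ^ 2 := by
    have h4 : ((K : ℝ) * r) ^ 2 ≤ (3 * (m : ℝ)) ^ 2 := pow_le_pow_left₀ (by positivity) hKr' 2
    nlinarith
  have hp := (p4'_nonneg h0 h1 r m).1
  have hF : FW q m * (1 - FW q m) ≤ (K : ℝ) ^ 2 * p4' q r m := hP.trans hS
  calc FW q m * (1 - FW q m) * (r : ℝ) ^ 2 ≤ (K : ℝ) ^ 2 * p4' q r m * (r : ℝ) ^ 2 :=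
        mul_le_mul_of_nonneg_right hF (by positivity)
    _ = (K : ℝ) ^ 2 * (r : ℝ) ^ 2 * p4' q r m := by ring
    _ ≤ 9 * (m : ℝ) ^ 2 * p4' q r m := mul_le_mul_of_nonneg_right hKr2 hp

end FKN
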