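import Pool.Agent.Lib.MP_216314_pr.N.DStA
import Pool.Agent.Lib.MP_216314_pr.N.NTg
import Pool.Agent.Lib.MP_216314_pr.Y.YEdge

/-!
# Stream D: the canonical state implies the four arm event

PROOFS.
`FKY.fa e = ea (dl e)`, `FKY.fb e = eb (dl e)` (`FKY.star e = dl e`, definitional). `dc_dgr`: walk induction, an edge `dl e` of `dc F ω` (`e ∈ F`, `e ∉ ω`) gives `FKY.dgr_adj`.
`ext_faces`: all edges which are not in `bx m` may be crossed. The exterior faces (`max |2 f.1 + 1| |2 f.2 + 1| ≥ 2 m + 1`, that is `f.1 ≥ m` or `f.1 ≤ -m-1` or `f.2 ≥ m` or `f.2 ≤ -m-1`) are connected: in the half plane `f.1 ≥ m` every edge crossed by a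
step is outside of `bx m` (an edge between the faces `(x,y)`, `(x,y+1)` is `(x,y+1,false)`, with `x ≥ m` it is not in `bx m`; between `(x,y)` and `(x+1,y)` it is `(x+1,y,true)`), so move vertically then horizontally to the corner `(m, m)`; similarly
for the other three half planes.
`four_of_arms`: if `m = 0` the hypothesis is false (`(1,0)` is not connected to `(0,0)` in `∅`). If `(0,0)` and `(1,0)` are connected in `ω' = ω ∩ (bx m \ {e0})` then by `FKY.edge_dual` (`e0 ∉ ω'`, `ea e0 = (0,0)`, `eb e0 = (1,0)`) the faces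
`fa e0 = (0,-1)`, `fb e0 = (0,0)` are not connected in `FKY.dgr (insert e0 ω')`; but the dual arms (`dc_dgr`) and `ext_faces` connect them. The open arms give the rest (`SeP`: the sources are `(0,0)`, `(1,0)` in some order: `Equiv.Perm (Fin 2)`).
`dual_exit`: induction on the walk: the first face with level `2 r + 1`; before it all faces have level `< 2 r + 1` and an edge next to such a face is in `bx r`; a step changes the level by at most 2 and levels are odd.
`four_of_can`: the open arms: `exitA` of `NTc` (`nrm v ≥ n' - 3 rr - 1 ≥ n` for the end point `v`, `RP_near`, `ptR_norm`), `F ∩ bx n ⊆ bx n \ {e0}` because `e0` is not in the boxes `bxs (cO ..)`, nor in `ud (bxs (cD ..))`. The dual arms: `dual_exit`. Then `four_of_arms`.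
`wO_le_p4`: `four_of_can`, `pq_dep` / `IPC.Pr_restrict` (`dep_FourT`, `four_iff` of NTe).
-/

set_option autoImplicit false

noncomputable section

namespace FKN

open Finset FKI FKP

/-- level of a face: `2 r + 1` means that the face is next to the box `[-r,r]²` from outside -/
def lvf (f : V) : ℤ := max |2 * f.1 + 1| |2 * f.2 + 1|

private theorem DTopA_gr {S : Finset Edge} {u v : V} (h : (gr S).Adj u v) :
    ∃ e ∈ S, (ea e = u ∧ eb e = v) ∨ (ea e = v ∧ eb e = u) := by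
  unfold gr at h
  rw [SimpleGraph.fromRel_adj] at h
  obtain ⟨_, ⟨e, h1, h2, h3⟩ | ⟨e, h1, h2, h3⟩⟩ := h
  · exact ⟨e, h1, Or.inl ⟨h2, h3⟩⟩
  · exact ⟨e, h1, Or.inr ⟨h2, h3⟩⟩

private theorem DTopA_dc {F ω : Finset Edge} {u v : V} (h : (gr (dc F ω)).Adj u v) :
    ∃ e, e ∈ F ∧ e ∉ ω ∧ ((ea (dl e) = u ∧ eb (dl e) = v) ∨ (ea (dl e) = v ∧ eb (dl e) = u)) := by
  obtain ⟨e, he, h1⟩ := DTopA_gr h
  unfold dc at he
  obtain ⟨d, hd, rfl⟩ := Finset.mem_map.1 he
  rw [Finset.mem_sdiff] at hd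
  exact ⟨d, hd.1, hd.2, h1⟩

private theorem DTopA_adj {F ω : Finset Edge} {e : Edge} (h1 : e ∈ F) (h2 : e ∉ ω) :
    (gr (dc F ω)).Adj (ea (dl e)) (eb (dl e)) :=
  FKY.gr_adj (Finset.mem_map_of_mem _ (Finset.mem_sdiff.2 ⟨h1, h2⟩))

theorem dc_dgr {F ω ω' : Finset Edge} (h : ∀ e ∈ F, e ∉ ω → e ∉ ω') {f g : V} (hc : (gr (dc F ω)).Reachable f g) :
    (FKY.dgr ω').Reachable f g := by
  refine hc.mono ?_
  intro u v huv
  obtain ⟨e, h1, h2, ⟨rfl, rfl⟩ | ⟨rfl, rfl⟩⟩ := DTopA_dc huv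
  · exact FKY.dgr_adj (h e h1 h2)
  · exact (FKY.dgr_adj (h e h1 h2)).symm

private theorem DTopA_not {m : ℕ} {ω : Finset Edge} (hω : ω ⊆ bx m) {e : Edge}
    (h : (m : ℤ) + 1 ≤ nrm (ea e) ∨ (m : ℤ) + 1 ≤ nrm (eb e)) : e ∉ ω := by
  intro he
  have h1 := mem_bx.1 (hω he)
  rcases h with h | h
  · linarith [h1.1]
  · linarith [h1.2]

private theorem DTopA_v {m : ℕ} {ω : Finset Edge} (hω : ω ⊆ bx m) {x y : ℤ} (hx : (m : ℤ) ≤ x ∨ x ≤ -(m : ℤ) - 1) :
    (FKY.dgr ω).Reachable (x, y) (x, y + 1) := by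
  have h : (x, y + 1, false) ∉ ω := by
    refine DTopA_not hω ?_
    rcases hx with hx | hx
    · right
      unfold nrm
      refine le_max_of_le_left ?_
      refine le_trans ?_ (le_abs_self _)
      simp only [eb, Bool.false_eq_true, if_false]
      omega
    · left
      unfold nrm
      refine le_max_of_le_left ?_
      refine le_trans ?_ (neg_le_abs _)
      simp only [ea]
      omega
  have h2 := FKY.dgr_adj h
  rw [FKY.fa_h, FKY.fb_h, add_sub_cancel_right] at h2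
  exact h2.reachable

private theorem DTopA_h {m : ℕ} {ω : Finset Edge} (hω : ω ⊆ bx m) {x y : ℤ} (hy : (m : ℤ) ≤ y ∨ y ≤ -(m : ℤ) - 1) :
    (FKY.dgr ω).Reachable (x, y) (x + 1, y) := by
  have h : (x + 1, y, true) ∉ ω := by
    refine DTopA_not hω ?_
    rcases hy with hy | hy
    · right
      unfold nrm
      refine le_max_of_le_right ?_
      refine le_trans ?_ (le_abs_self _)
      simp only [eb, if_true]
      omega
    · left
      unfold nrm
      refine le_max_of_le_right ?_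
      refine le_trans ?_ (neg_le_abs _)
      simp only [ea]
      omega
  have h2 := FKY.dgr_adj h
  rw [FKY.fa_v, FKY.fb_v, add_sub_cancel_right] at h2
  exact h2.reachable

private theorem DTopA_vn {m : ℕ} {ω : Finset Edge} (hω : ω ⊆ bx m) {x : ℤ} (hx : (m : ℤ) ≤ x ∨ x ≤ -(m : ℤ) - 1) (y : ℤ)
    (k : ℕ) : (FKY.dgr ω).Reachable (x, y) (x, y + k) := by
  induction k with
  | zero => simp
  | succ k ih =>
    refine ih.trans ?_
    have h := DTopA_v hω (y := y + k) hx
    have e1 : y + (k : ℤ) + 1 = y + ((k + 1 : ℕ) : ℤ) := by push_cast; ring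
    rwa [e1] at h

private theorem DTopA_hn {m : ℕ} {ω : Finset Edge} (hω : ω ⊆ bx m) {y : ℤ} (hy : (m : ℤ) ≤ y ∨ y ≤ -(m : ℤ) - 1) (x : ℤ)
    (k : ℕ) : (FKY.dgr ω).Reachable (x, y) (x + k, y) := by
  induction k with
  | zero => simp
  | succ k ih =>
    refine ih.trans ?_
    have h := DTopA_h hω (x := x + k) hy
    have e1 : x + (k : ℤ) + 1 = x + ((k + 1 : ℕ) : ℤ) := by push_cast; ring
    rwa [e1] at h

private theorem DTopA_col {m : ℕ} {ω : Finset Edge} (hω : ω ⊆ bx m) {x : ℤ} (hx : (m : ℤ) ≤ x ∨ x ≤ -(m : ℤ) - 1) (y y' : ℤ) :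
    (FKY.dgr ω).Reachable (x, y) (x, y') := by
  rcases le_total y y' with h | h
  · obtain ⟨k, hk⟩ := Int.eq_ofNat_of_zero_le (sub_nonneg.2 h)
    have e1 : y' = y + k := by omega
    rw [e1]
    exact DTopA_vn hω hx y k
  · obtain ⟨k, hk⟩ := Int.eq_ofNat_of_zero_le (sub_nonneg.2 h)
    have e1 : y = y' + k := by omega
    rw [e1]
    exact (DTopA_vn hω hx y' k).symm

private theorem DTopA_row {m : ℕ} {ω : Finset Edge} (hω : ω ⊆ bx m) {y : ℤ} (hy : (m : ℤ) ≤ y ∨ y ≤ -(m : ℤ) - 1) (x x' : ℤ) :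
    (FKY.dgr ω).Reachable (x, y) (x', y) := by
  rcases le_total x x' with h | h
  · obtain ⟨k, hk⟩ := Int.eq_ofNat_of_zero_le (sub_nonneg.2 h)
    have e1 : x' = x + k := by omega
    rw [e1]
    exact DTopA_hn hω hy x k
  · obtain ⟨k, hk⟩ := Int.eq_ofNat_of_zero_le (sub_nonneg.2 h)
    have e1 : x = x' + k := by omega
    rw [e1]
    exact (DTopA_hn hω hy x' k).symm

private theorem DTopA_corner {m : ℕ} {ω : Finset Edge} (hω : ω ⊆ bx m) {f : V} (hf : 2 * (m : ℤ) + 1 ≤ lvf f) :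
    (FKY.dgr ω).Reachable f ((m : ℤ), (m : ℤ)) := by
  obtain ⟨x, y⟩ := f
  unfold lvf at hf
  rcases le_max_iff.1 hf with h | h
  · have hx : (m : ℤ) ≤ x ∨ x ≤ -(m : ℤ) - 1 := by
      rcases le_abs.1 h with h | h
      · left
        simp only at h
        omega
      · right
        simp only at h
        omega
    exact (DTopA_col hω hx y m).trans (DTopA_row hω (Or.inl le_rfl) x m)
  · have hy : (m : ℤ) ≤ y ∨ y ≤ -(m : ℤ) - 1 := by
      rcases le_abs.1 h with h | h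
      · left
        simp only at h
        omega
      · right
        simp only at h
        omega
    exact (DTopA_row hω hy x m).trans (DTopA_col hω (Or.inl le_rfl) y m)

theorem ext_faces {m : ℕ} {ω : Finset Edge} (hω : ω ⊆ bx m) {f g : V} (hf : 2 * (m : ℤ) + 1 ≤ lvf f) (hg : 2 * (m : ℤ) + 1 ≤ lvf g) :
    (FKY.dgr ω).Reachable f g :=
  (DTopA_corner hω hf).trans (DTopA_corner hω hg).symm

private theorem DTopA_src {y s : Fin 2 → V} (h : ∃ σ : Equiv.Perm (Fin 2), ∀ i, nrm (s i - y (σ i)) ≤ 0) (j : Fin 2) :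
    ∃ i, s i = y j := by
  obtain ⟨σ, hσ⟩ := h
  refine ⟨σ.symm j, ?_⟩
  have h1 := hσ (σ.symm j)
  rw [Equiv.apply_symm_apply] at h1
  unfold nrm at h1
  have h2 := le_trans (le_max_left _ _) h1
  have h3 := le_trans (le_max_right _ _) h1
  rw [Prod.fst_sub, abs_nonpos_iff] at h2
  rw [Prod.snd_sub, abs_nonpos_iff] at h3
  exact Prod.ext (sub_eq_zero.1 h2) (sub_eq_zero.1 h3)

private theorem DTopA_srcs {y s : Fin 2 → V} (h : ∃ σ : Equiv.Perm (Fin 2), ∀ i, nrm (s i - y (σ i)) ≤ 0) (i : Fin 2) :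
    s i = y 0 ∨ s i = y 1 := by
  obtain ⟨σ, hσ⟩ := h
  have h1 := hσ i
  unfold nrm at h1
  have h2 := le_trans (le_max_left _ _) h1
  have h3 := le_trans (le_max_right _ _) h1
  rw [Prod.fst_sub, abs_nonpos_iff] at h2
  rw [Prod.snd_sub, abs_nonpos_iff] at h3
  have h4 : s i = y (σ i) := Prod.ext (sub_eq_zero.1 h2) (sub_eq_zero.1 h3)
  generalize hk : σ i = k at h4
  fin_cases k
  · exact Or.inl h4
  · exact Or.inr h4

theorem four_of_arms {m : ℕ} {ω : Finset Edge} (h : StE (bx m \ {e0}) (bx m \ {e0}) SeP (bdP m) SeD (bdD m) ω) : Four m ω := by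
  obtain ⟨⟨s, v, hs, hv, hc⟩, ⟨s', v', hs', hv', hc'⟩⟩ := h
  have hA : ∃ u : V, nrm u = m ∧ Conn (bx m \ {e0}) ω (0, 0) u := by
    obtain ⟨i, hi⟩ := DTopA_src hs 0
    have h1 := hc i
    rw [hi] at h1
    exact ⟨v i, hv i, h1⟩
  have hB : ∃ u : V, nrm u = m ∧ Conn (bx m \ {e0}) ω (1, 0) u := by
    obtain ⟨i, hi⟩ := DTopA_src hs 1
    have h1 := hc i
    rw [hi] at h1
    exact ⟨v i, hv i, h1⟩
  refine ⟨hA, hB, ?_⟩
  intro hcon
  rcases Nat.eq_zero_or_pos m with hm | hm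
  · -- no edges
    subst hm
    obtain ⟨u, hu, hcu⟩ := hB
    have hempty : ω ∩ (bx 0 \ {e0}) = ∅ := by
      rw [Finset.eq_empty_iff_forall_notMem]
      intro e he
      rw [Finset.mem_inter, Finset.mem_sdiff] at he
      have h1 := he.2.1
      unfold bx at h1
      rw [mem_box] at h1
      simp only [Nat.cast_zero, neg_zero] at h1
      omega
    unfold Conn at hcu
    rw [hempty] at hcu
    obtain ⟨p⟩ := hcu
    cases p with
    | nil =>
      unfold nrm at hu
      simp at hu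
    | cons hadj _ =>
      obtain ⟨e, he, _⟩ := DTopA_gr hadj
      exact absurd he (Finset.notMem_empty e)
  · have he0 : e0 ∉ ω ∩ (bx m \ {e0}) := by
      intro he
      rw [Finset.mem_inter, Finset.mem_sdiff] at he
      exact he.2.2 (Finset.mem_singleton_self _)
    have hcon' : (gr (ω ∩ (bx m \ {e0}))).Reachable (ea e0) (eb e0) := hcon
    have hnot := FKY.edge_dual_not he0 hcon'
    apply hnot
    have hsub : insert e0 (ω ∩ (bx m \ {e0})) ⊆ bx m := by
      intro e he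
      rw [Finset.mem_insert] at he
      rcases he with rfl | he
      · rw [mem_bx]
        constructor
        · unfold nrm e0 ea
          simp
        · unfold nrm e0 eb
          simp
          omega
      · rw [Finset.mem_inter, Finset.mem_sdiff] at he
        exact he.2.1
    have hd : ∀ e ∈ bx m \ {e0}, e ∉ ω → e ∉ insert e0 (ω ∩ (bx m \ {e0})) := by
      intro e he1 he2 he3
      rw [Finset.mem_insert] at he3
      rcases he3 with rfl | he3
      · rw [Finset.mem_sdiff] at he1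
        exact he1.2 (Finset.mem_singleton_self _)
      · exact he2 (Finset.mem_inter.1 he3).1
    have hfa : FKY.fa e0 = ((0 : ℤ), (-1 : ℤ)) := by
      unfold e0
      rw [FKY.fa_h]
      rfl
    have hfb : FKY.fb e0 = ((0 : ℤ), (0 : ℤ)) := by
      unfold e0
      rw [FKY.fb_h]
    rw [hfa, hfb]
    obtain ⟨i, hi⟩ := DTopA_src hs' 1
    obtain ⟨j, hj⟩ := DTopA_src hs' 0
    have h1 := dc_dgr hd (hc' i)
    have h2 := dc_dgr hd (hc' j)
    rw [hi] at h1
    rw [hj] at h2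
    have h3 : (FKY.dgr (insert e0 (ω ∩ (bx m \ {e0})))).Reachable (v' i) (v' j) :=
      ext_faces hsub (le_of_eq (hv' i).symm) (le_of_eq (hv' j).symm)
    exact (h1.trans h3).trans h2.symm

private theorem DTopA_odd (f : V) : ∃ k : ℤ, lvf f = 2 * k + 1 := by
  have key : ∀ x : ℤ, ∃ k : ℤ, |2 * x + 1| = 2 * k + 1 := by
    intro x
    rcases abs_cases (2 * x + 1) with h | h
    · exact ⟨x, h.1⟩
    · exact ⟨-x - 1, by rw [h.1]; ring⟩
  unfold lvf
  rcases max_choice |2 * f.1 + 1| |2 * f.2 + 1| with h | h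
  · rw [h]; exact key _
  · rw [h]; exact key _

private theorem DTopA_le {f : V} {r : ℤ} (h : lvf f ≤ 2 * r + 1) : (-r - 1 ≤ f.1 ∧ f.1 ≤ r) ∧ (-r - 1 ≤ f.2 ∧ f.2 ≤ r) := by
  unfold lvf at h
  have h1 := abs_le.1 (le_trans (le_max_left _ _) h)
  have h2 := abs_le.1 (le_trans (le_max_right _ _) h)
  omega

private theorem DTopA_lvf_le {f : V} {r : ℤ} (h1 : -r - 1 ≤ f.1 ∧ f.1 ≤ r) (h2 : -r - 1 ≤ f.2 ∧ f.2 ≤ r) : lvf f ≤ 2 * r + 1 := by
  unfold lvf
  refine max_le (abs_le.2 ?_) (abs_le.2 ?_)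
  · omega
  · omega

private theorem DTopA_near (e : Edge) : (|(ea (dl e)).1 - (eb (dl e)).1| ≤ 1 ∧ |(ea (dl e)).2 - (eb (dl e)).2| ≤ 1) := by
  obtain ⟨x, y, t⟩ := e
  cases t
  · simp [dl, ea, eb]
  · simp [dl, ea, eb]

private theorem DTopA_inbx {r : ℕ} {e : Edge} {f : V} (hf : f = ea (dl e) ∨ f = eb (dl e)) (h : lvf f ≤ 2 * (r : ℤ) - 1) :
    e ∈ bx r := by
  have h1 := DTopA_le (f := f) (r := (r : ℤ) - 1) (by linarith)
  obtain ⟨x, y, t⟩ := e
  rw [mem_bx]
  unfold nrm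
  cases t
  · simp only [dl, Equiv.coe_fn_mk, ea, eb, Bool.false_eq_true, if_false, if_true] at hf ⊢
    rcases hf with rfl | rfl
    · simp only at h1
      refine ⟨max_le (abs_le.2 ?_) (abs_le.2 ?_), max_le (abs_le.2 ?_) (abs_le.2 ?_)⟩ <;> omega
    · simp only at h1
      refine ⟨max_le (abs_le.2 ?_) (abs_le.2 ?_), max_le (abs_le.2 ?_) (abs_le.2 ?_)⟩ <;> omega
  · simp only [dl, Equiv.coe_fn_mk, ea, eb, Bool.false_eq_true, if_false, if_true] at hf ⊢
    rcases hf with rfl | rfl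
    · simp only at h1
      refine ⟨max_le (abs_le.2 ?_) (abs_le.2 ?_), max_le (abs_le.2 ?_) (abs_le.2 ?_)⟩ <;> omega
    · simp only at h1
      refine ⟨max_le (abs_le.2 ?_) (abs_le.2 ?_), max_le (abs_le.2 ?_) (abs_le.2 ?_)⟩ <;> omega

private theorem DTopA_step {r : ℕ} {f g : V} (h1 : |f.1 - g.1| ≤ 1) (h2 : |f.2 - g.2| ≤ 1) (h : lvf f ≤ 2 * (r : ℤ) - 1) :
    lvf g ≤ 2 * (r : ℤ) + 1 := by
  have h3 := DTopA_le (f := f) (r := (r : ℤ) - 1) (by linarith)
  rw [abs_le] at h1 h2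
  refine DTopA_lvf_le ?_ ?_
  · omega
  · omega

theorem dual_exit {F F' ω : Finset Edge} {r : ℕ} (hF : F ∩ bx r ⊆ F') {f g : V} (h : (gr (dc F ω)).Reachable f g)
    (hf : lvf f ≤ 2 * r + 1) (hg : 2 * r + 1 ≤ lvf g) : ∃ z : V, lvf z = 2 * r + 1 ∧ (gr (dc F' ω)).Reachable f z := by
  obtain ⟨p⟩ := h
  induction p with
  | nil => exact ⟨_, le_antisymm hf hg, SimpleGraph.Reachable.refl _⟩
  | @cons a b c hab p ih =>
    rcases eq_or_lt_of_le hf with hfe | hfl
    · exact ⟨a, hfe, SimpleGraph.Reachable.refl _⟩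
    · have hf2 : lvf a ≤ 2 * (r : ℤ) - 1 := by
        obtain ⟨k, hk⟩ := DTopA_odd a
        omega
      obtain ⟨e, he1, he2, he3⟩ := DTopA_dc hab
      have hbx : e ∈ bx r := by
        rcases he3 with ⟨h1, _⟩ | ⟨_, h1⟩
        · exact DTopA_inbx (Or.inl h1.symm) hf2
        · exact DTopA_inbx (Or.inr h1.symm) hf2
      have hadj := DTopA_adj (ω := ω) (hF (Finset.mem_inter.2 ⟨he1, hbx⟩)) he2
      have hnear := DTopA_near e
      have hb : lvf b ≤ 2 * (r : ℤ) + 1 := by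
        rcases he3 with ⟨h1, h2⟩ | ⟨h1, h2⟩
        · rw [h1, h2] at hnear
          exact DTopA_step hnear.1 hnear.2 hf2
        · rw [h1, h2, abs_sub_comm, abs_sub_comm b.2] at hnear
          exact DTopA_step hnear.1 hnear.2 hf2
      obtain ⟨z, hz1, hz2⟩ := ih hb hg
      refine ⟨z, hz1, SimpleGraph.Reachable.trans ?_ hz2⟩
      rcases he3 with ⟨h1, h2⟩ | ⟨h1, h2⟩
      · rw [h1, h2] at hadj
        exact hadj.reachable
      · rw [h1, h2] at hadj
        exact hadj.symm.reachable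

private theorem DTopA_nrm (n : ℕ) (θ : ℝ) : nrm (ptR n θ) = n := by
  have h := ptR_norm (ρ := (n : ℝ)) (θ := θ) (Nat.cast_nonneg n)
  rw [abs_le] at h
  have a : ((nrm (ptR n θ) : ℤ) : ℝ) < ((n : ℤ) : ℝ) + 1 := by
    rw [Int.cast_natCast]
    linarith [h.2]
  have b : ((n : ℤ) : ℝ) < ((nrm (ptR n θ) : ℤ) : ℝ) + 1 := by
    rw [Int.cast_natCast]
    linarith [h.1]
  have a' : nrm (ptR n θ) < (n : ℤ) + 1 := by exact_mod_cast a
  have b' : (n : ℤ) < nrm (ptR n θ) + 1 := by exact_mod_cast b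
  omega

private theorem DTopA_tri {n : ℕ} {a x : V} {w : ℤ} (ha : nrm a = n) (h : nrm (x - a) ≤ w) : (n : ℤ) - w ≤ nrm x := by
  have t2 := nrmD_tri (a - x) x
  rw [sub_add_cancel] at t2
  have t3 : nrm (a - x) = nrm (x - a) := by rw [← nrm_neg, neg_sub]
  rw [ha] at t2
  rw [t3] at t2
  linarith

private theorem DTopA_rr (n : ℕ) : 200 * rr 2 n ≤ n := by
  unfold rr
  exact Nat.mul_div_le n (100 * 2)

private theorem DTopA_lvf {v : V} {k : ℤ} (h : k ≤ nrm v) : 2 * k - 1 ≤ lvf v := by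
  unfold nrm at h
  unfold lvf
  rcases le_max_iff.1 h with h | h
  · refine le_max_of_le_left ?_
    rcases abs_cases v.1 with h1 | h1 <;> rcases abs_cases (2 * v.1 + 1) with h2 | h2 <;> omega
  · refine le_max_of_le_right ?_
    rcases abs_cases v.2 with h1 | h1 <;> rcases abs_cases (2 * v.2 + 1) with h2 | h2 <;> omega

theorem four_of_can {n n' : ℕ} (hn : 1 ≤ n) (h : 2 * n ≤ n') {ω : Finset Edge} (hc : CanO 2 {e0} SeP SeD n' ω) : Four n ω := by
  obtain ⟨⟨s, v, hs, hv, hcc⟩, ⟨s', v', hs', hv', hcc'⟩⟩ := hc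
  have hr := DTopA_rr n'
  have hn0 : nrm (((0 : ℤ), (0 : ℤ)) : V) = 0 := by unfold nrm; simp
  apply four_of_arms
  refine ⟨?_, ?_⟩
  · have hF : ((bx (n' - 5 * rr 2 n') \ {e0}) ∪ bxs (cO 2 n') (10 * rr 2 n')) ∩ bx n ⊆ bx n \ {e0} := by
      intro e he
      rw [Finset.mem_inter, Finset.mem_union] at he
      rw [Finset.mem_sdiff]
      refine ⟨he.2, ?_⟩
      intro he0
      rw [Finset.mem_singleton] at he0
      rcases he.1 with h1 | h1
      · rw [Finset.mem_sdiff] at h1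
        exact h1.2 (by rw [he0]; exact Finset.mem_singleton_self _)
      · obtain ⟨i, _, hi⟩ := Finset.mem_biUnion.1 h1
        have h2 := DTopA_tri (DTopA_nrm n' _) (bxa_near hi)
        rw [he0] at h2
        have h3 : nrm (((e0).1, (e0).2.1) : V) = 0 := hn0
        rw [h3] at h2
        omega
    have key : ∀ i, ∃ z : V, nrm z = n ∧ Conn (bx n \ {e0}) ω (s i) z := by
      intro i
      refine exitA hF (hcc i) ?_ ?_
      · rcases DTopA_srcs hs i with h1 | h1
        · rw [h1]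
          show nrm (((0 : ℤ), (0 : ℤ)) : V) ≤ n
          rw [hn0]
          omega
        · rw [h1]
          show nrm (((1 : ℤ), (0 : ℤ)) : V) ≤ n
          unfold nrm
          simp
          exact_mod_cast hn
      · have h2 := DTopA_tri (DTopA_nrm n' _) (RP_near (by positivity) (hv i))
        omega
    choose z hz1 hz2 using key
    exact ⟨s, z, hs, hz1, hz2⟩
  · have hF : ((bx (n' - 5 * rr 2 n') \ {e0}) ∪ ud (bxs (cD 2 n') (10 * rr 2 n'))) ∩ bx n ⊆ bx n \ {e0} := by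
      intro e he
      rw [Finset.mem_inter, Finset.mem_union] at he
      rw [Finset.mem_sdiff]
      refine ⟨he.2, ?_⟩
      intro he0
      rw [Finset.mem_singleton] at he0
      rcases he.1 with h1 | h1
      · rw [Finset.mem_sdiff] at h1
        exact h1.2 (by rw [he0]; exact Finset.mem_singleton_self _)
      · rw [mem_ud] at h1
        obtain ⟨i, _, hi⟩ := Finset.mem_biUnion.1 h1
        have h2 := DTopA_tri (DTopA_nrm n' _) (ud_bxa_near (mem_ud.2 hi))
        rw [he0] at h2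
        have h3 : nrm (((e0).1, (e0).2.1) : V) = 0 := hn0
        rw [h3] at h2
        omega
    have key : ∀ i, ∃ z : V, lvf z = 2 * (n : ℤ) + 1 ∧ (gr (dc (bx n \ {e0}) ω)).Reachable (s' i) z := by
      intro i
      refine dual_exit hF (hcc' i) ?_ ?_
      · rcases DTopA_srcs hs' i with h1 | h1
        · rw [h1]
          show lvf (((0 : ℤ), (0 : ℤ)) : V) ≤ 2 * n + 1
          unfold lvf
          simp
        · rw [h1]
          show lvf (((0 : ℤ), (-1 : ℤ)) : V) ≤ 2 * n + 1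
          unfold lvf
          simp
      · have h2 := DTopA_tri (DTopA_nrm n' _) (RP_near (by positivity) (hv' i))
        have h3 := DTopA_lvf (v := v' i) (k := (n : ℤ) + 1) (by omega)
        linarith
    choose z hz1 hz2 using key
    exact ⟨s', z, hs', hz1, hz2⟩

theorem wO_le_p4 {q : ℝ} (h0 : 0 ≤ q) (h1 : q ≤ 1) {n n' : ℕ} (hn : 1 ≤ n) (h : 2 * n ≤ n') : wO q n' ≤ p4 q n := by
  have h2 : IPC.Pr q (bx (2 * n')) (Four n) = p4 q n := by
    have hsub : bx n ⊆ bx (2 * n') := by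
      have h' : (n : ℤ) ≤ ((2 * n' : ℕ) : ℤ) := by push_cast; omega
      unfold bx
      exact box_mono (by linarith) h' (by linarith) h'
    exact IPC.Pr_restrict q hsub (Four n) fun ω _ => by
      rw [four_iff, four_iff]
      exact dep_FourT (Finset.Subset.refl _) ω
  rw [← h2]
  unfold wO
  exact pq_mono h0 h1 fun ω _ hc => four_of_can hn h hc

end FKN
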