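import Pool.Agent.Lib.MP_25e40f_pr.A.Prb
import Pool.Agent.Lib.MP_25e40f_pr.A.Har
import Pool.Agent.Lib.MP_25e40f_pr.A.Rus
import Pool.Agent.Lib.MP_216314_pr.Cy.CyB

/-!
# Bond percolation on the square lattice with parameter `q`: base file of the near-critical campaign

The product measure on the subsets of a finite set of edges is `IPC.Pr q E A`, `IPC.EE q E f`
(`Lib/MP_25e40f_pr/Defs`, with the library `A/Bas`, `A/Prb`, `A/Har`, `A/Rus`, `A/BK`), used with the edges of
`ℤ²` (`FKI.Edge`). `Pp`, `Ep` are abbreviations. The graph side is `FKP` (`P/PBase`): `box`, `Conn`, `HC`,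
`VC`, `Inc`, `Dep`, and `bx n`, `SA n` (`Cy/CyB`): the square `[-n,n]²` and the one arm event.
-/

set_option autoImplicit false

noncomputable section

namespace FKN

open Finset FKI FKP

/-- probability of `A` when the edges of `E` are open with probability `q`, independently -/
abbrev Pp (q : ℝ) (E : Finset Edge) (A : Finset Edge → Prop) : ℝ := IPC.Pr q E A

/-- expectation of `f` when the edges of `E` are open with probability `q`, independently -/
abbrev Ep (q : ℝ) (E : Finset Edge) (f : Finset Edge → ℝ) : ℝ := IPC.EE q E f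

/-- the measure of `P/PBase` is the case `q = 1/2` -/
theorem pr_half (E : Finset Edge) (A : Finset Edge → Prop) : FKP.Pr E A = Pp (1 / 2) E A := by
  classical
  unfold Pp FKP.Pr IPC.Pr IPC.EE
  have h1 : ∀ ω ∈ E.powerset, (1 / 2 : ℝ) ^ ω.card * (1 - 1 / 2) ^ (E \ ω).card * IPC.ind (A ω) =
      (1 / 2 : ℝ) ^ E.card * IPC.ind (A ω) := by
    intro ω hω
    have h2 : ω.card + (E \ ω).card = E.card := by
      have h3 := Finset.card_sdiff_add_card_eq_card (Finset.mem_powerset.1 hω)
      omega
    have h4 : (1 - 1 / 2 : ℝ) = 1 / 2 := by norm_num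
    rw [h4, ← pow_add, h2]
  rw [Finset.sum_congr rfl h1, ← Finset.mul_sum]
  unfold IPC.ind
  rw [Finset.sum_boole, div_eq_mul_inv, mul_comm, one_div, inv_pow]

/-- the one arm probability with parameter `q` -/
def pq1 (q : ℝ) (n : ℕ) : ℝ := Pp q (bx n) (SA n)

theorem pq1_half (n : ℕ) : pq1 (1 / 2) n = pi1 n := (pr_half _ _).symm

/-- the percolation probability: the infimum (limit) of the probabilities that `0` is connected to the boundary of
`[-n,n]²` -/
def theta (q : ℝ) : ℝ := ⨅ n : ℕ, pq1 q n

/-- the two point function: supremum (limit) over the finite boxes -/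
def tau (q : ℝ) (x : V) : ℝ := ⨆ n : ℕ, Pp q (bx n) (fun ω => Conn (bx n) ω (0, 0) x)

/-- the mean size of the cluster of the origin -/
def chi (q : ℝ) : ENNReal := ∑' x : V, ENNReal.ofReal (tau q x)

end FKN
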