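import Pool.Agent.Lib.MP_216314_pr.N.DGwB

/-!
# Stream D: curves in polar coordinates (the angle changes in the first half)

PROOFS.
`cv_zero`: `ptR_exact`. `cv_step`: `ptR_dist`: `|Δρ| ≤ ρM / T`, `|Δangle| ≤ 2 / T * 24`, so the norm is at most `49 ρM / T + 1 ≤ 4 r`.
`cv_lin`: `|Δangle| ≤ 48 |j - j'| / T` and `|j - j'| / T = |Δρ| / |ρ1 - ρ0|`, `ρM / |ρ1 - ρ0| ≤ 3/2`: total `|Δρ| + 72 |Δρ| + 1` (if `ρ1 = ρ0` then `ρM ≤ 0` and everything is 0).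
`cv_sep`: let `Δ = |crad j - crad j'|`. (i) `ptR_rad`: norm `≥ Δ - 1`. (ii) at the same step `j` the angles differ by a convex combination of `θ' - θ` and `τ' - τ`, so by an element of `[γ, 8 - γ]`, and `ptR_ang` (with
equal radii `≥ ρm`) gives `nrm (cv j - cv' j) ≥ ρm γ / 2 - 1`; `cv_lin` for the second curve gives `nrm (cv' j - cv' j') ≤ 73 Δ + 1`; so the norm is at least `ρm γ / 2 - 73 Δ - 2`. The maximum of (i) and (ii) is at least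
`ρm γ / 148 - 2`. `cv_sep_end`: if `Δ = |crad j - ρ1| ≥ D`: (i). Otherwise `2 Δ < |ρ1 - ρ0|`, so `2 j / T ≥ 1` and the angle is `τ`: `ptR_ang` with radii `ρ1`, `crad j` gives `ρ1 γ / 2 - D - 1`. `cv_end`: the same remark and `ptR_dist`.
`ray_sep`: maximum of `Δ - 1` and `ρm γ / 2 - Δ - 1` (`ptR_rad`, `ptR_ang`).
`th_gap`: explicit. `th_lift`: `z = ⌊(θo 0 - 1) / 8⌋`; all `θo i - θo 0` are in `[0, 16]` (through `θd 0`) and all `θd i - θo 0` in `[0, 8]`; `thO l i`, `thD l i` are in `[1, 9]`.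
-/

set_option autoImplicit false

noncomputable section

namespace FKN

open Finset FKI FKP

/-- radius at step `j` -/
def crad (ρ0 ρ1 : ℝ) (T j : ℕ) : ℝ := ρ0 + (ρ1 - ρ0) * j / T
/-- angle at step `j` -/
def cang (θ τ : ℝ) (T j : ℕ) : ℝ := θ + min (1 : ℝ) (2 * (j : ℝ) / T) * (τ - θ)
/-- point at step `j` -/
def cv (ρ0 ρ1 θ τ : ℝ) (T j : ℕ) : V := ptR (crad ρ0 ρ1 T j) (cang θ τ T j)

private theorem DCvA_s {T j : ℕ} (hT : 0 < T) (hj : j ≤ T) : 0 ≤ (j : ℝ) / T ∧ (j : ℝ) / T ≤ 1 := by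
  have hT' : (0 : ℝ) < T := by exact_mod_cast hT
  have hj' : (j : ℝ) ≤ T := by exact_mod_cast hj
  exact ⟨by positivity, by rw [div_le_one hT']; exact hj'⟩

private theorem DCvA_crad (ρ0 ρ1 : ℝ) (T j : ℕ) : crad ρ0 ρ1 T j = ρ0 + (ρ1 - ρ0) * ((j : ℝ) / T) := by
  unfold crad
  rw [mul_div_assoc]

private theorem DCvA_cang (θ τ : ℝ) (T j : ℕ) : cang θ τ T j = θ + min 1 (2 * ((j : ℝ) / T)) * (τ - θ) := by
  unfold cang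
  rw [mul_div_assoc]

private theorem DCvA_min {s : ℝ} (h : 0 ≤ s) : 0 ≤ min 1 (2 * s) ∧ min 1 (2 * s) ≤ 1 :=
  ⟨le_min zero_le_one (by linarith), min_le_left _ _⟩

private theorem DCvA_minlip (s t : ℝ) : |min 1 (2 * s) - min 1 (2 * t)| ≤ 2 * |s - t| := by
  have h : |min 1 (2 * s) - min 1 (2 * t)| ≤ |2 * s - 2 * t| := by
    rcases le_total 1 (2 * s) with h1 | h1 <;> rcases le_total 1 (2 * t) with h2 | h2
    · rw [min_eq_left h1, min_eq_left h2]; simp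
    · rw [min_eq_left h1, min_eq_right h2, abs_of_nonneg (by linarith), abs_of_nonneg (by linarith)]; linarith
    · rw [min_eq_right h1, min_eq_left h2, abs_of_nonpos (by linarith), abs_of_nonpos (by linarith)]; linarith
    · rw [min_eq_right h1, min_eq_right h2]
  have h' : |2 * s - 2 * t| = 2 * |s - t| := by
    rw [← mul_sub, abs_mul, abs_of_pos (by norm_num : (0 : ℝ) < 2)]
  rw [h'] at h
  exact h

private theorem DCvA_rad_sub (ρ0 ρ1 : ℝ) (T j j' : ℕ) :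
    |crad ρ0 ρ1 T j - crad ρ0 ρ1 T j'| = |ρ1 - ρ0| * |(j : ℝ) / T - (j' : ℝ) / T| := by
  rw [DCvA_crad, DCvA_crad, ← abs_mul]
  congr 1
  ring

private theorem DCvA_ang_sub (θ τ : ℝ) (T j j' : ℕ) :
    |cang θ τ T j - cang θ τ T j'| ≤ 2 * |(j : ℝ) / T - (j' : ℝ) / T| * |τ - θ| := by
  rw [DCvA_cang, DCvA_cang]
  have e : θ + min 1 (2 * ((j : ℝ) / T)) * (τ - θ) - (θ + min 1 (2 * ((j' : ℝ) / T)) * (τ - θ)) =
      (min 1 (2 * ((j : ℝ) / T)) - min 1 (2 * ((j' : ℝ) / T))) * (τ - θ) := by ring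
  rw [e, abs_mul]
  exact mul_le_mul_of_nonneg_right (DCvA_minlip _ _) (abs_nonneg _)

private theorem DCvA_comm (u v : V) : nrm (u - v) = nrm (v - u) := by
  rw [← nrm_neg, neg_sub]

private theorem DCvA_tri (u v w : V) :
    ((nrm (u - w) : ℤ) : ℝ) - ((nrm (v - w) : ℤ) : ℝ) ≤ ((nrm (u - v) : ℤ) : ℝ) := by
  have h := nrmD_tri (u - v) (v - w)
  rw [sub_add_sub_cancel] at h
  have h' : ((nrm (u - w) : ℤ) : ℝ) ≤ ((nrm (u - v) : ℤ) : ℝ) + ((nrm (v - w) : ℤ) : ℝ) := by exact_mod_cast h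
  linarith

theorem cv_zero {ρ0 ρ1 θ τ : ℝ} {T : ℕ} {a : V} (h : ((a.1 : ℝ), (a.2 : ℝ)) = (ρ0 * (sq θ).1, ρ0 * (sq θ).2)) :
    cv ρ0 ρ1 θ τ T 0 = a := by
  have h1 : crad ρ0 ρ1 T 0 = ρ0 := by rw [DCvA_crad]; simp
  have h2 : cang θ τ T 0 = θ := by
    rw [DCvA_cang]
    have : min 1 (2 * (((0 : ℕ) : ℝ) / T)) = 0 := by
      rw [Nat.cast_zero, zero_div, mul_zero]
      exact min_eq_right zero_le_one
    rw [this]; ring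
  rw [cv, h1, h2]
  exact ptR_exact h

theorem cv_last {ρ0 ρ1 θ τ : ℝ} {T : ℕ} (hT : 0 < T) : cv ρ0 ρ1 θ τ T T = ptR ρ1 τ := by
  have hT' : (T : ℝ) ≠ 0 := by exact_mod_cast hT.ne'
  have h1 : crad ρ0 ρ1 T T = ρ1 := by rw [DCvA_crad, div_self hT']; ring
  have h2 : cang θ τ T T = τ := by
    rw [DCvA_cang, div_self hT', min_eq_left (by norm_num)]; ring
  rw [cv, h1, h2]

theorem crad_mem {ρ0 ρ1 : ℝ} {T j : ℕ} (hT : 0 < T) (hj : j ≤ T) :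
    min ρ0 ρ1 ≤ crad ρ0 ρ1 T j ∧ crad ρ0 ρ1 T j ≤ max ρ0 ρ1 := by
  obtain ⟨h0, h1⟩ := DCvA_s hT hj
  rw [DCvA_crad]
  set s := (j : ℝ) / T
  have e : ρ0 + (ρ1 - ρ0) * s = (1 - s) * ρ0 + s * ρ1 := by ring
  rw [e]
  constructor
  · have a1 := mul_le_mul_of_nonneg_left (min_le_left ρ0 ρ1) (by linarith : 0 ≤ 1 - s)
    have a2 := mul_le_mul_of_nonneg_left (min_le_right ρ0 ρ1) h0
    nlinarith
  · have a1 := mul_le_mul_of_nonneg_left (le_max_left ρ0 ρ1) (by linarith : 0 ≤ 1 - s)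
    have a2 := mul_le_mul_of_nonneg_left (le_max_right ρ0 ρ1) h0
    nlinarith

private theorem DCvA_nn {ρ0 ρ1 : ℝ} {T j : ℕ} (hT : 0 < T) (hj : j ≤ T) (h0 : 0 ≤ ρ0) (h1 : 0 ≤ ρ1) :
    0 ≤ crad ρ0 ρ1 T j := le_trans (le_min h0 h1) (crad_mem hT hj).1

theorem cv_norm {ρ0 ρ1 θ τ : ℝ} {T j : ℕ} (hT : 0 < T) (hj : j ≤ T) (h0 : 0 ≤ ρ0) (h1 : 0 ≤ ρ1) :
    |((nrm (cv ρ0 ρ1 θ τ T j) : ℤ) : ℝ) - crad ρ0 ρ1 T j| ≤ 1 / 2 :=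
  ptR_norm (DCvA_nn hT hj h0 h1)

theorem cv_step {ρ0 ρ1 θ τ ρM : ℝ} {T j : ℕ} {r : ℤ} (hT : 0 < T) (hj : j < T) (h0 : 0 ≤ ρ0) (h1 : 0 ≤ ρ1) (h0M : ρ0 ≤ ρM)
    (h1M : ρ1 ≤ ρM) (hτ : |τ - θ| ≤ 24) (hr : 49 * ρM + T ≤ 4 * r * T) :
    nrm (cv ρ0 ρ1 θ τ T (j + 1) - cv ρ0 ρ1 θ τ T j) ≤ 4 * r := by
  have hT' : (0 : ℝ) < T := by exact_mod_cast hT
  have hd := ptR_dist (ρ := crad ρ0 ρ1 T (j + 1)) (ρ' := crad ρ0 ρ1 T j) (θ := cang θ τ T (j + 1))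
    (θ' := cang θ τ T j) (DCvA_nn hT hj.le h0 h1)
  have e1 : |((j + 1 : ℕ) : ℝ) / T - (j : ℝ) / T| = 1 / T := by
    rw [← sub_div]
    push_cast
    rw [add_sub_cancel_left, abs_of_pos (by positivity)]
  have hr1 := DCvA_rad_sub ρ0 ρ1 T (j + 1) j
  have ha1 := DCvA_ang_sub θ τ T (j + 1) j
  rw [e1] at hr1 ha1
  have hρ : |ρ1 - ρ0| ≤ ρM := by rw [abs_le]; constructor <;> linarith
  have hc : crad ρ0 ρ1 T j ≤ ρM := le_trans (crad_mem hT hj.le).2 (max_le h0M h1M)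
  have hM0 : 0 ≤ ρM := le_trans h0 h0M
  have hi : 0 ≤ 1 / (T : ℝ) := by positivity
  have hA : |cang θ τ T (j + 1) - cang θ τ T j| ≤ 48 * (1 / T) := by
    refine le_trans ha1 ?_
    nlinarith
  have hB : crad ρ0 ρ1 T j * |cang θ τ T (j + 1) - cang θ τ T j| ≤ ρM * (48 * (1 / T)) :=
    mul_le_mul hc hA (abs_nonneg _) hM0
  have hC : |crad ρ0 ρ1 T (j + 1) - crad ρ0 ρ1 T j| ≤ ρM * (1 / T) := by
    rw [hr1]; exact mul_le_mul_of_nonneg_right hρ hi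
  have hD : 49 * (ρM * (1 / T)) + 1 ≤ 4 * (r : ℝ) := by
    have : (49 * ρM + T) * (1 / T) ≤ (4 * r * T) * (1 / (T : ℝ)) := mul_le_mul_of_nonneg_right hr hi
    have e2 : (4 * (r : ℝ) * T) * (1 / (T : ℝ)) = 4 * r := by field_simp
    have e3 : (49 * ρM + T) * (1 / (T : ℝ)) = 49 * (ρM * (1 / T)) + 1 := by field_simp
    rw [e2, e3] at this
    exact this
  have : ((nrm (cv ρ0 ρ1 θ τ T (j + 1) - cv ρ0 ρ1 θ τ T j) : ℤ) : ℝ) ≤ 4 * (r : ℝ) := by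
    unfold cv
    linarith
  exact_mod_cast this

theorem cv_lin {ρ0 ρ1 θ τ ρM : ℝ} {T j j' : ℕ} (hT : 0 < T) (hj : j ≤ T) (hj' : j' ≤ T) (h0 : 0 ≤ ρ0) (h1 : 0 ≤ ρ1)
    (h0M : ρ0 ≤ ρM) (h1M : ρ1 ≤ ρM) (hM : ρM ≤ 3 / 2 * |ρ1 - ρ0|) (hτ : |τ - θ| ≤ 24) :
    ((nrm (cv ρ0 ρ1 θ τ T j - cv ρ0 ρ1 θ τ T j') : ℤ) : ℝ) ≤ 73 * |crad ρ0 ρ1 T j - crad ρ0 ρ1 T j'| + 1 := by
  have hd := ptR_dist (ρ := crad ρ0 ρ1 T j) (ρ' := crad ρ0 ρ1 T j') (θ := cang θ τ T j)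
    (θ' := cang θ τ T j') (DCvA_nn hT hj' h0 h1)
  have hr1 := DCvA_rad_sub ρ0 ρ1 T j j'
  have ha1 := DCvA_ang_sub θ τ T j j'
  set x := |(j : ℝ) / T - (j' : ℝ) / T| with hx
  have hx0 : 0 ≤ x := abs_nonneg _
  have hc : crad ρ0 ρ1 T j' ≤ ρM := le_trans (crad_mem hT hj').2 (max_le h0M h1M)
  have hM0 : 0 ≤ ρM := le_trans h0 h0M
  have hA : |cang θ τ T j - cang θ τ T j'| ≤ 48 * x := by
    refine le_trans ha1 ?_
    nlinarith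
  have hB : crad ρ0 ρ1 T j' * |cang θ τ T j - cang θ τ T j'| ≤ ρM * (48 * x) :=
    mul_le_mul hc hA (abs_nonneg _) hM0
  have hC : ρM * (48 * x) ≤ 72 * (|ρ1 - ρ0| * x) := by
    have := mul_le_mul_of_nonneg_right hM (by positivity : 0 ≤ 48 * x)
    nlinarith
  unfold cv
  rw [← hr1] at hC
  linarith

/-- separation of two curves -/
theorem cv_sep {ρ0 ρ1 θ τ θ' τ' ρM ρm γ : ℝ} {T j j' : ℕ} (hT : 0 < T) (hj : j ≤ T) (hj' : j' ≤ T) (h0 : 0 ≤ ρ0) (h1 : 0 ≤ ρ1)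
    (h0M : ρ0 ≤ ρM) (h1M : ρ1 ≤ ρM) (hM : ρM ≤ 3 / 2 * |ρ1 - ρ0|) (hm0 : 0 ≤ ρm) (h0m : ρm ≤ ρ0) (h1m : ρm ≤ ρ1)
    (hτ : |τ - θ| ≤ 24) (hτ' : |τ' - θ'| ≤ 24) (hγ : 0 ≤ γ) (ha : γ ≤ θ' - θ) (hb : θ' - θ ≤ 8 - γ)
    (ha' : γ ≤ τ' - τ) (hb' : τ' - τ ≤ 8 - γ) :
    ρm * γ / 148 - 2 ≤ ((nrm (cv ρ0 ρ1 θ τ T j - cv ρ0 ρ1 θ' τ' T j') : ℤ) : ℝ) := by
  have hs := DCvA_s hT hj
  obtain ⟨hm1, hm2⟩ := DCvA_min hs.1
  have hang : cang θ' τ' T j - cang θ τ T j = (1 - min 1 (2 * ((j : ℝ) / T))) * (θ' - θ) + min 1 (2 * ((j : ℝ) / T)) * (τ' - τ) := by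
    rw [DCvA_cang, DCvA_cang]; ring
  have hcr : ρm ≤ crad ρ0 ρ1 T j := le_trans (le_min h0m h1m) (crad_mem hT hj).1
  have hi := ptR_rad (ρ := crad ρ0 ρ1 T j) (ρ' := crad ρ0 ρ1 T j') (θ := cang θ τ T j) (θ' := cang θ' τ' T j')
    (DCvA_nn hT hj h0 h1) (DCvA_nn hT hj' h0 h1)
  set m := min 1 (2 * ((j : ℝ) / T)) with hm
  have g1 : γ ≤ cang θ' τ' T j - cang θ τ T j := by
    rw [hang]
    have a1 := mul_le_mul_of_nonneg_left ha (by linarith : 0 ≤ 1 - m)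
    have a2 := mul_le_mul_of_nonneg_left ha' hm1
    nlinarith
  have g2 : cang θ' τ' T j - cang θ τ T j ≤ 8 - γ := by
    rw [hang]
    have a1 := mul_le_mul_of_nonneg_left hb (by linarith : 0 ≤ 1 - m)
    have a2 := mul_le_mul_of_nonneg_left hb' hm1
    nlinarith
  have g3 : |cang θ' τ' T j - cang θ τ T j| = cang θ' τ' T j - cang θ τ T j := abs_of_nonneg (by linarith)
  have hii := ptR_ang (ρ := crad ρ0 ρ1 T j) (ρ' := crad ρ0 ρ1 T j) (θ := cang θ τ T j) (θ' := cang θ' τ' T j) (γ := γ)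
    (DCvA_nn hT hj h0 h1) hγ (by rw [g3]; exact g1) (by rw [g3]; exact g2)
  rw [sub_self, abs_zero] at hii
  have hl := cv_lin (θ := θ') (τ := τ') hT hj' hj h0 h1 h0M h1M hM hτ'
  have ht := DCvA_tri (cv ρ0 ρ1 θ τ T j) (cv ρ0 ρ1 θ' τ' T j') (cv ρ0 ρ1 θ' τ' T j)
  have hp : ρm * γ ≤ crad ρ0 ρ1 T j * γ := mul_le_mul_of_nonneg_right hcr hγ
  have hpm : 0 ≤ ρm * γ := mul_nonneg hm0 hγ
  rw [abs_sub_comm] at hl
  change |crad ρ0 ρ1 T j - crad ρ0 ρ1 T j'| - 1 ≤ ((nrm (cv ρ0 ρ1 θ τ T j - cv ρ0 ρ1 θ' τ' T j') : ℤ) : ℝ) at hi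
  change crad ρ0 ρ1 T j * γ / 2 - 0 - 1 ≤ ((nrm (cv ρ0 ρ1 θ τ T j - cv ρ0 ρ1 θ' τ' T j) : ℤ) : ℝ) at hii
  set Δ := |crad ρ0 ρ1 T j - crad ρ0 ρ1 T j'| with hΔ
  rcases le_total (ρm * γ / 148 - 1) Δ with hc | hc
  · linarith
  · linarith

private theorem DCvA_half {ρ0 ρ1 θ τ : ℝ} {T j : ℕ} (hT : 0 < T) (hj : j ≤ T) (hne : ρ0 ≠ ρ1)
    (hD : 2 * |crad ρ0 ρ1 T j - ρ1| ≤ |ρ1 - ρ0|) : cang θ τ T j = τ := by
  have hs := DCvA_s hT hj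
  rw [DCvA_crad] at hD
  have e : ρ0 + (ρ1 - ρ0) * ((j : ℝ) / T) - ρ1 = (ρ1 - ρ0) * ((j : ℝ) / T - 1) := by ring
  rw [e, abs_mul, abs_of_nonpos (by linarith [hs.2] : (j : ℝ) / T - 1 ≤ 0)] at hD
  have hp : 0 < |ρ1 - ρ0| := abs_pos.mpr (sub_ne_zero.mpr (Ne.symm hne))
  have h2 : 1 ≤ 2 * ((j : ℝ) / T) := by
    by_contra hcon
    push Not at hcon
    nlinarith
  rw [DCvA_cang, min_eq_left h2]
  ring

/-- separation from the end point of another curve -/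
theorem cv_sep_end {ρ0 ρ1 θ τ θ' τ' D γ : ℝ} {T j : ℕ} (hT : 0 < T) (hj : j ≤ T) (h0 : 0 ≤ ρ0) (h1 : 0 ≤ ρ1)
    (hD : 2 * D ≤ |ρ1 - ρ0|) (hγ : 0 ≤ γ) (ha : γ ≤ |τ' - τ|) (hb : |τ' - τ| ≤ 8 - γ) :
    min D (ρ1 * γ / 2 - D) - 1 ≤ ((nrm (cv ρ0 ρ1 θ τ T j - cv ρ0 ρ1 θ' τ' T T) : ℤ) : ℝ) := by
  rw [cv_last hT]
  rcases le_or_gt D |crad ρ0 ρ1 T j - ρ1| with hc | hc
  · have hi := ptR_rad (ρ := crad ρ0 ρ1 T j) (ρ' := ρ1) (θ := cang θ τ T j) (θ' := τ')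
      (DCvA_nn hT hj h0 h1) h1
    have := min_le_left D (ρ1 * γ / 2 - D)
    change |crad ρ0 ρ1 T j - ρ1| - 1 ≤ ((nrm (cv ρ0 ρ1 θ τ T j - ptR ρ1 τ') : ℤ) : ℝ) at hi
    linarith
  · have hne : ρ0 ≠ ρ1 := by
      intro h
      rw [h, sub_self, abs_zero] at hD
      have := abs_nonneg (crad ρ0 ρ1 T j - ρ1)
      linarith
    have hh := DCvA_half (θ := θ) (τ := τ) hT hj hne (by linarith)
    have hi := ptR_ang (ρ := ρ1) (ρ' := crad ρ0 ρ1 T j) (θ := τ') (θ' := τ) (γ := γ) h1 hγ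
      (by rw [abs_sub_comm]; exact ha) (by rw [abs_sub_comm]; exact hb)
    rw [DCvA_comm, abs_sub_comm ρ1] at hi
    have := min_le_right D (ρ1 * γ / 2 - D)
    unfold cv
    rw [hh]
    linarith

/-- near the end the curve is on a ray -/
theorem cv_end {ρ0 ρ1 θ τ : ℝ} {T j : ℕ} (hT : 0 < T) (hj : j ≤ T) (h0 : 0 ≤ ρ0) (h1 : 0 ≤ ρ1) (hne : ρ0 ≠ ρ1)
    (hD : 2 * |crad ρ0 ρ1 T j - ρ1| ≤ |ρ1 - ρ0|) :
    ((nrm (cv ρ0 ρ1 θ τ T j - ptR ρ1 τ) : ℤ) : ℝ) ≤ |crad ρ0 ρ1 T j - ρ1| + 1 := by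
  have hh := DCvA_half (θ := θ) (τ := τ) hT hj hne hD
  have hd := ptR_dist (ρ := crad ρ0 ρ1 T j) (ρ' := ρ1) (θ := τ) (θ' := τ) h1
  rw [sub_self, abs_zero, mul_zero, add_zero] at hd
  unfold cv
  rw [hh]
  exact hd

/-- separation of two rays -/
theorem ray_sep {ρ0 ρ1 τ τ' ρm γ : ℝ} {T j j' : ℕ} (hT : 0 < T) (hj : j ≤ T) (hj' : j' ≤ T) (h0 : 0 ≤ ρ0) (h1 : 0 ≤ ρ1)
    (hm0 : 0 ≤ ρm) (h0m : ρm ≤ ρ0) (h1m : ρm ≤ ρ1) (hγ : 0 ≤ γ) (ha : γ ≤ |τ' - τ|) (hb : |τ' - τ| ≤ 8 - γ) :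
    ρm * γ / 4 - 1 ≤ ((nrm (cv ρ0 ρ1 τ τ T j - cv ρ0 ρ1 τ' τ' T j') : ℤ) : ℝ) := by
  have e1 : cang τ τ T j = τ := by rw [DCvA_cang]; ring
  have e2 : cang τ' τ' T j' = τ' := by rw [DCvA_cang]; ring
  have hcr : ρm ≤ crad ρ0 ρ1 T j := le_trans (le_min h0m h1m) (crad_mem hT hj).1
  have hi := ptR_rad (ρ := crad ρ0 ρ1 T j) (ρ' := crad ρ0 ρ1 T j') (θ := τ) (θ' := τ')
    (DCvA_nn hT hj h0 h1) (DCvA_nn hT hj' h0 h1)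
  have hii := ptR_ang (ρ := crad ρ0 ρ1 T j) (ρ' := crad ρ0 ρ1 T j') (θ := τ) (θ' := τ') (γ := γ)
    (DCvA_nn hT hj h0 h1) hγ ha hb
  have hp : ρm * γ ≤ crad ρ0 ρ1 T j * γ := mul_le_mul_of_nonneg_right hcr hγ
  unfold cv
  rw [e1, e2]
  rcases le_total (ρm * γ / 4) |crad ρ0 ρ1 T j - crad ρ0 ρ1 T j'| with hc | hc
  · linarith
  · linarith

/-- canonical angles -/
theorem th_gap {l : ℕ} (hl : 1 ≤ l) :
    (∀ i j : Fin l, i ≤ j → (4 : ℝ) / l ≤ thD l j - thO l i ∧ thD l j - thO l i ≤ 8 - (4 : ℝ) / l) ∧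
    (∀ i j : Fin l, j < i → (4 : ℝ) / l ≤ thO l i - thD l j ∧ thO l i - thD l j ≤ 8 - (4 : ℝ) / l) := by
  have hl' : (0 : ℝ) < l := by exact_mod_cast hl
  constructor
  · intro i j hij
    have h1 : ((i : ℕ) : ℝ) ≤ ((j : ℕ) : ℝ) := by exact_mod_cast hij
    have h2 : ((j : ℕ) : ℝ) + 1 ≤ l := by exact_mod_cast j.isLt
    have h3 : (0 : ℝ) ≤ ((i : ℕ) : ℝ) := Nat.cast_nonneg _
    have e : thD l j - thO l i = (8 * ((j : ℕ) : ℝ) + 4 - 8 * ((i : ℕ) : ℝ)) / l := by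
      unfold thD thO; ring
    have e8 : (8 : ℝ) - 4 / l = (8 * l - 4) / l := by field_simp
    rw [e, e8]
    exact ⟨div_le_div_of_nonneg_right (by linarith) hl'.le, div_le_div_of_nonneg_right (by linarith) hl'.le⟩
  · intro i j hij
    have h1 : ((j : ℕ) : ℝ) + 1 ≤ ((i : ℕ) : ℝ) := by exact_mod_cast hij
    have h2 : ((i : ℕ) : ℝ) + 1 ≤ l := by exact_mod_cast i.isLt
    have h3 : (0 : ℝ) ≤ ((j : ℕ) : ℝ) := Nat.cast_nonneg _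
    have e : thO l i - thD l j = (8 * ((i : ℕ) : ℝ) - 8 * ((j : ℕ) : ℝ) - 4) / l := by
      unfold thD thO; ring
    have e8 : (8 : ℝ) - 4 / l = (8 * l - 4) / l := by field_simp
    rw [e, e8]
    exact ⟨div_le_div_of_nonneg_right (by linarith) hl'.le, div_le_div_of_nonneg_right (by linarith) hl'.le⟩

/-- a common lift of the canonical angles close to given angles in cyclic order -/
theorem th_lift {l : ℕ} (hl : 1 ≤ l) {θo θd : Fin l → ℝ} (h1 : ∀ i j, i ≤ j → 0 ≤ θd j - θo i ∧ θd j - θo i ≤ 8)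
    (h2 : ∀ i j, j < i → 0 ≤ θo i - θd j ∧ θo i - θd j ≤ 8) :
    ∃ z : ℤ, (∀ i, |thO l i + 8 * z - θo i| ≤ 24) ∧ ∀ i, |thD l i + 8 * z - θd i| ≤ 24 := by
  have hl' : (0 : ℝ) < l := by exact_mod_cast hl
  set i0 : Fin l := ⟨0, hl⟩ with hi0
  have hmin : ∀ i : Fin l, i0 ≤ i := fun i => Fin.mk_le_of_le_val (Nat.zero_le _)
  refine ⟨⌊(θo i0 - 1) / 8⌋, ?_, ?_⟩
  · intro i
    have hz1 := Int.floor_le ((θo i0 - 1) / 8)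
    have hz2 := Int.lt_floor_add_one ((θo i0 - 1) / 8)
    set z : ℝ := ((⌊(θo i0 - 1) / 8⌋ : ℤ) : ℝ)
    have hi1 : (0 : ℝ) ≤ 8 * ((i : ℕ) : ℝ) / l := by positivity
    have hi2 : 8 * ((i : ℕ) : ℝ) / l ≤ 8 := by
      rw [div_le_iff₀ hl']
      have : ((i : ℕ) : ℝ) ≤ l := by exact_mod_cast i.isLt.le
      linarith
    have hd := h1 i0 i0 le_rfl
    have ho : 0 ≤ θo i - θo i0 ∧ θo i - θo i0 ≤ 16 := by
      rcases eq_or_lt_of_le (hmin i) with h | h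
      · rw [← h]; constructor <;> linarith
      · have := h2 i i0 h
        constructor <;> linarith [this.1, this.2, hd.1, hd.2]
    unfold thO
    rw [abs_le]
    constructor <;> linarith [ho.1, ho.2]
  · intro i
    have hz1 := Int.floor_le ((θo i0 - 1) / 8)
    have hz2 := Int.lt_floor_add_one ((θo i0 - 1) / 8)
    set z : ℝ := ((⌊(θo i0 - 1) / 8⌋ : ℤ) : ℝ)
    have hi1 : (0 : ℝ) ≤ (8 * ((i : ℕ) : ℝ) + 4) / l := by positivity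
    have hi2 : (8 * ((i : ℕ) : ℝ) + 4) / l ≤ 8 := by
      rw [div_le_iff₀ hl']
      have : ((i : ℕ) : ℝ) + 1 ≤ l := by exact_mod_cast i.isLt
      linarith
    have hd := h1 i0 i (hmin i)
    unfold thD
    rw [abs_le]
    constructor <;> linarith [hd.1, hd.2]

end FKN
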