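import Pool.Agent.Lib.MP_216314_pr.N.DFkA

/-!
# Stream D: the dual configuration, abstract extension inequality

PROOFS.
`dc F ω = (F \ ω).map dl`. `pr_dcu`: `dc (ud F) ω = F \ (ω.map dl)` (since `(ud F).map dl = F`); use `pq_map` with `dl.symm` or `dl`, `pq_compl`, `pq_dep` of
`N/GA.lean`. `pr_dc_dep`: `dc E ω ∩ F = dc (ud F) ω`, then `hA` and `pr_dcu`.
`ext_abs`: apply `mixed_fkg` with `Ap ω = A (ω ∩ Fp)`, `Am ω = D (dc Fm ω)`, `Bp ω = B (ω ∩ Np)` (or `B`), `Bm ω = B' (dc (ud Nm) ω)` (`pr_dcu` gives its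
probability), `Np`, `Nm := ud Nm`; then the conclusion follows by monotonicity: `A (ω ∩ Fp)` gives `A (ω ∩ (Fp ∪ Np))`, `B ω` gives `B (ω ∩ Np)` (`dB`) and
`B (ω ∩ (Fp ∪ Np))`; `D (dc Fm ω)` gives `D (dc (Fm ∪ ud Nm) ω)` by `dc_mono`, etc. `IPC.Pr q E B = IPC.Pr q Np B` by `pq_dep`.
-/

set_option autoImplicit false

noncomputable section

namespace FKN

open Finset FKI FKP

theorem dc_mono {F F' ω ω' : Finset Edge} (hF : F ⊆ F') (hω : ω ⊆ ω') : dc F ω' ⊆ dc F' ω := by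
  unfold dc
  exact Finset.map_subset_map.2 (Finset.sdiff_subset_sdiff hF hω)

theorem mem_ud {F : Finset Edge} {e : Edge} : e ∈ ud F ↔ dl e ∈ F := by
  unfold ud
  rw [Finset.mem_map_equiv]
  rfl

theorem ud_mono {F F' : Finset Edge} (h : F ⊆ F') : ud F ⊆ ud F' := by
  unfold ud
  exact Finset.map_subset_map.2 h

theorem dc_dep (F ω : Finset Edge) : dc F (ω ∩ F) = dc F ω := by
  unfold dc
  have h : F \ (ω ∩ F) = F \ ω := by
    ext e
    simp only [Finset.mem_sdiff, Finset.mem_inter, not_and]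
    constructor
    · rintro ⟨h1, h2⟩
      exact ⟨h1, fun h3 => h2 h3 h1⟩
    · rintro ⟨h1, h2⟩
      exact ⟨h1, fun h3 _ => h2 h3⟩
  rw [h]

private theorem DFkB_ud_map (F : Finset Edge) : (ud F).map dl.toEmbedding = F := by
  ext e
  rw [Finset.mem_map_equiv, mem_ud, Equiv.apply_symm_apply]

private theorem DFkB_dep (F : Finset Edge) (A : Finset Edge → Prop) : Dep F (fun ω => A (dc F ω)) := by
  intro ω
  show A (dc F ω) ↔ A (dc F (ω ∩ F))
  rw [dc_dep]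

/-- the dual configuration on `F` has parameter `1 - q` -/
theorem pr_dcu {q : ℝ} {E F : Finset Edge} (hF : ud F ⊆ E) (A : Finset Edge → Prop) :
    IPC.Pr q E (fun ω => A (dc (ud F) ω)) = IPC.Pr (1 - q) F A := by
  rw [pq_dep q hF (DFkB_dep (ud F) A)]
  have h1 := pq_compl q (ud F) (fun ω => A (ω.map dl.toEmbedding))
  have h2 := pq_map (1 - q) dl (ud F) A
  rw [DFkB_ud_map] at h2
  rw [h2, ← h1]
  rfl

/-- for an event that depends on `F` only -/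
theorem pr_dc_dep {q : ℝ} {E F : Finset Edge} (hF : ud F ⊆ E) {A : Finset Edge → Prop} (hA : Dep F A) :
    IPC.Pr q E (fun ω => A (dc E ω)) = IPC.Pr (1 - q) F A := by
  rw [← pr_dcu hF A]
  refine pq_congr fun ω _ => ?_
  have h : dc E ω ∩ F = dc (ud F) ω := by
    ext e
    unfold dc
    rw [Finset.mem_inter, Finset.mem_map_equiv, Finset.mem_map_equiv, Finset.mem_sdiff, Finset.mem_sdiff, mem_ud,
      Equiv.apply_symm_apply]
    constructor
    · rintro ⟨⟨_, h2⟩, h3⟩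
      exact ⟨h3, h2⟩
    · rintro ⟨h1, h2⟩
      refine ⟨⟨hF ?_, h2⟩, h1⟩
      rw [mem_ud, Equiv.apply_symm_apply]
      exact h1
  rw [hA (dc E ω), h]

/-- the abstract extension inequality -/
theorem ext_abs {q : ℝ} (h0 : 0 ≤ q) (h1 : q ≤ 1) {E Fp Fm Np Nm : Finset Edge}
    (hFp : Fp ⊆ E) (hFm : Fm ⊆ E) (hNp : Np ⊆ E) (hNm : ud Nm ⊆ E)
    (d1 : Disjoint Np Fm) (d2 : Disjoint (ud Nm) Fp) (d3 : Disjoint Np (ud Nm))
    {A A' B D D' B' : Finset Edge → Prop} (iA : Inc A) (iB : Inc B) (iD : Inc D) (iB' : Inc B')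
    (iA' : Inc A') (iD' : Inc D') (dB : Dep Np B) (dB' : Dep Nm B')
    (hA : ∀ η, A η → B η → A' η) (hD : ∀ η, D η → B' η → D' η) :
    IPC.Pr q E (fun ω => A (ω ∩ Fp) ∧ D (dc Fm ω)) * IPC.Pr q Np B * IPC.Pr (1 - q) Nm B' ≤
      IPC.Pr q E (fun ω => A' (ω ∩ (Fp ∪ Np)) ∧ D' (dc (Fm ∪ ud Nm) ω)) := by
  have h := mixed_fkg h0 h1 hFp hFm hNp hNm d1 d2 d3 (Ap := fun ω => A (ω ∩ Fp)) (Am := fun ω => D (dc Fm ω))
    (Bp := B) (Bm := fun ω => B' (dc (ud Nm) ω))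
    (fun ω ω' hω ha => iA _ _ (Finset.inter_subset_inter hω (Finset.Subset.refl _)) ha) iB
    (fun ω ω' hω ha => iD _ _ (dc_mono (Finset.Subset.refl _) hω) ha)
    (fun ω ω' hω ha => iB' _ _ (dc_mono (Finset.Subset.refl _) hω) ha)
    (fun ω => by
      show A (ω ∩ Fp) ↔ A (ω ∩ Fp ∩ Fp)
      rw [Finset.inter_assoc, Finset.inter_self])
    (DFkB_dep Fm D) dB (DFkB_dep (ud Nm) B')
  rw [pq_dep q hNp dB, pr_dcu hNm B'] at h
  refine h.trans (pq_mono h0 h1 ?_)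
  rintro ω _ ⟨⟨ha, hb⟩, ⟨hd, hb'⟩⟩
  refine ⟨hA _ ?_ ?_, hD _ ?_ ?_⟩
  · exact iA _ _ (Finset.inter_subset_inter (Finset.Subset.refl _) Finset.subset_union_left) ha
  · exact iB _ _ (Finset.inter_subset_inter (Finset.Subset.refl _) Finset.subset_union_right) ((dB ω).1 hb)
  · exact iD _ _ (dc_mono Finset.subset_union_left (Finset.Subset.refl _)) hd
  · exact iB' _ _ (dc_mono Finset.subset_union_right (Finset.Subset.refl _)) hb'

end FKN
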