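import Pool.Agent.Lib.MP_216314_pr.N.DRgB
import Pool.Agent.Lib.MP_216314_pr.N.DFkB

/-!
# Stream D: the family of circuits along `l` chains, with a big circuit at the end of each chain

PROOFS.
`pack_disj`: a common edge `e` has its first end point within `3 r` (or `3 r'`) of a centre `c i j` (or `c i T`) and within `3 r + 1` (or `3 r' + 1`) of a centre `d i' j'` (`bxa_near`, `ud_bxa_near`, `mem_RN_Lc`); the triangle inequality
gives a distance of at most `6 r + 1`, ... (`ud` of a union is the union of the `ud`).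
`pack_link`: `Rings` gives all circuits `Ring (c i j) r η` and `Ring (c i T) r' η`; apply `chain_big` with `a' = c i T`, `j₁ = 0` (`h5`), `j₂ = T` (`3 r ≤ r'`).
`pack_near`: there is `w` with `RP (c i 0) r η w` (`Ring`); `ring_cross` (with `u = v`, `w = s`) connects `v` to it, then `pack_link`.
-/

set_option autoImplicit false

noncomputable section

namespace FKN

open Finset FKI FKP

/-- circuits of radius `r` along the chains `c i 0, ..., c i T`, circuits of radius `r'` at the ends `c i T` -/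
def Lc {l : ℕ} (c : Fin l → ℕ → V) (T : ℕ) (r r' : ℤ) : Finset (V × ℤ) :=
  (univ.biUnion fun i => (range (T + 1)).image fun j => (c i j, r)) ∪ univ.image fun i => (c i T, r')

theorem Lc_card {l : ℕ} (c : Fin l → ℕ → V) (T : ℕ) (r r' : ℤ) : (Lc c T r r').card ≤ l * (T + 2) := by
  unfold Lc
  have h1 : (univ.biUnion fun i : Fin l => (range (T + 1)).image fun j => (c i j, r)).card ≤ l * (T + 1) := by
    refine le_trans card_biUnion_le ?_
    refine le_trans (sum_le_sum (g := fun _ => T + 1) fun i _ => ?_) ?_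
    · exact le_trans card_image_le (by rw [card_range])
    · simp
  have h2 : ((univ : Finset (Fin l)).image fun i => (c i T, r')).card ≤ l := by
    refine le_trans card_image_le ?_
    simp
  refine le_trans (card_union_le _ _) ?_
  refine le_trans (add_le_add h1 h2) (le_of_eq ?_)
  ring

theorem mem_Lc {l : ℕ} {c : Fin l → ℕ → V} {T : ℕ} {r r' : ℤ} {p : V × ℤ} :
    p ∈ Lc c T r r' ↔ (∃ i, ∃ j ≤ T, p = (c i j, r)) ∨ ∃ i, p = (c i T, r') := by
  unfold Lc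
  rw [mem_union, mem_biUnion, mem_image]
  constructor
  · rintro (⟨i, -, hi⟩ | ⟨i, -, hi⟩)
    · rw [mem_image] at hi
      obtain ⟨j, hj, he⟩ := hi
      rw [mem_range] at hj
      exact Or.inl ⟨i, j, by omega, he.symm⟩
    · exact Or.inr ⟨i, hi.symm⟩
  · rintro (⟨i, j, hj, he⟩ | ⟨i, he⟩)
    · left
      refine ⟨i, mem_univ _, ?_⟩
      rw [mem_image]
      exact ⟨j, by rw [mem_range]; omega, he.symm⟩
    · right
      exact ⟨i, mem_univ _, he.symm⟩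

theorem mem_RN_Lc {l : ℕ} {c : Fin l → ℕ → V} {T : ℕ} {r r' : ℤ} {e : Edge} :
    e ∈ RN (Lc c T r r') ↔ (∃ i, ∃ j ≤ T, e ∈ bxa (c i j) (3 * r)) ∨ ∃ i, e ∈ bxa (c i T) (3 * r') := by
  unfold RN
  rw [mem_biUnion]
  constructor
  · rintro ⟨p, hp, he⟩
    rcases mem_Lc.1 hp with ⟨i, j, hj, rfl⟩ | ⟨i, rfl⟩
    · exact Or.inl ⟨i, j, hj, he⟩
    · exact Or.inr ⟨i, he⟩
  · rintro (⟨i, j, hj, he⟩ | ⟨i, he⟩)
    · exact ⟨(c i j, r), mem_Lc.2 (Or.inl ⟨i, j, hj, rfl⟩), he⟩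
    · exact ⟨(c i T, r'), mem_Lc.2 (Or.inr ⟨i, rfl⟩), he⟩

/-- the first end point of an edge of a box -/
theorem bxa_near {a : V} {r : ℤ} {e : Edge} (he : e ∈ bxa a r) : nrm ((e.1, e.2.1) - a) ≤ r := by
  unfold bxa at he
  rw [mem_box] at he
  unfold nrm
  simp only [Prod.fst_sub, Prod.snd_sub]
  rcases he with ⟨-, h5, h6, h7, h8⟩ | ⟨-, h5, h6, h7, h8⟩
  · refine max_le (abs_le.2 ⟨?_, ?_⟩) (abs_le.2 ⟨?_, ?_⟩) <;> omega
  · refine max_le (abs_le.2 ⟨?_, ?_⟩) (abs_le.2 ⟨?_, ?_⟩) <;> omega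

theorem ud_bxa_near {a : V} {r : ℤ} {e : Edge} (he : e ∈ ud (bxa a r)) : nrm ((e.1, e.2.1) - a) ≤ r + 1 := by
  rw [mem_ud] at he
  obtain ⟨x, y, t⟩ := e
  unfold bxa at he
  rw [mem_box] at he
  unfold nrm
  simp only [Prod.fst_sub, Prod.snd_sub]
  cases t
  · simp only [dl, Equiv.coe_fn_mk, Bool.false_eq_true, if_false, false_and, false_or, true_and, reduceCtorEq] at he
    obtain ⟨h5, h6, h7, h8⟩ := he
    refine max_le (abs_le.2 ⟨?_, ?_⟩) (abs_le.2 ⟨?_, ?_⟩) <;> omega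
  · simp only [dl, Equiv.coe_fn_mk, if_true, true_and, Bool.false_eq_true, false_and, or_false] at he
    obtain ⟨h5, h6, h7, h8⟩ := he
    refine max_le (abs_le.2 ⟨?_, ?_⟩) (abs_le.2 ⟨?_, ?_⟩) <;> omega

/-- an edge whose end point is well inside the box -/
theorem bxa_of_near {a : V} {r : ℤ} {e : Edge} (he : nrm ((e.1, e.2.1) - a) ≤ r - 1) : e ∈ bxa a r ∧ e ∈ ud (bxa a r) := by
  rw [mem_ud]
  obtain ⟨x, y, t⟩ := e
  unfold nrm at he
  simp only [Prod.fst_sub, Prod.snd_sub] at he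
  have h1 := abs_le.1 (le_trans (le_max_left _ _) he)
  have h2 := abs_le.1 (le_trans (le_max_right _ _) he)
  obtain ⟨h3, h4⟩ := h1
  obtain ⟨h5, h6⟩ := h2
  unfold bxa
  rw [mem_box, mem_box]
  cases t
  · simp only [dl, Equiv.coe_fn_mk, Bool.false_eq_true, if_false, false_and, false_or, or_false, true_and, reduceCtorEq]
    refine ⟨⟨?_, ?_, ?_, ?_⟩, ?_, ?_, ?_, ?_⟩ <;> omega
  · simp only [dl, Equiv.coe_fn_mk, if_true, true_and, Bool.false_eq_true, false_and, or_false, false_or, reduceCtorEq]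
    refine ⟨⟨?_, ?_, ?_, ?_⟩, ?_, ?_, ?_, ?_⟩ <;> omega

private theorem DPkA_tri {u v w : V} {A B : ℤ} (h1 : nrm (w - u) ≤ A) (h2 : nrm (w - v) ≤ B) :
    nrm (u - v) ≤ A + B := by
  unfold nrm at h1 h2 ⊢
  simp only [Prod.fst_sub, Prod.snd_sub] at h1 h2 ⊢
  have a1 := abs_le.1 (le_trans (le_max_left _ _) h1)
  have a2 := abs_le.1 (le_trans (le_max_right _ _) h1)
  have a3 := abs_le.1 (le_trans (le_max_left _ _) h2)
  have a4 := abs_le.1 (le_trans (le_max_right _ _) h2)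
  obtain ⟨b1, b2⟩ := a1
  obtain ⟨b3, b4⟩ := a2
  obtain ⟨b5, b6⟩ := a3
  obtain ⟨b7, b8⟩ := a4
  refine max_le (abs_le.2 ⟨?_, ?_⟩) (abs_le.2 ⟨?_, ?_⟩) <;> omega

private theorem DPkA_ud {L : Finset (V × ℤ)} {e : Edge} (he : e ∈ ud (RN L)) :
    ∃ p ∈ L, e ∈ ud (bxa p.1 (3 * p.2)) := by
  rw [mem_ud] at he
  unfold RN at he
  rw [mem_biUnion] at he
  obtain ⟨p, hp, h⟩ := he
  exact ⟨p, hp, mem_ud.2 h⟩

theorem pack_disj {l : ℕ} {c d : Fin l → ℕ → V} {T : ℕ} {r r' : ℤ}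
    (h2 : ∀ i i', ∀ j ≤ T, ∀ j' ≤ T, 6 * r + 2 ≤ nrm (c i j - d i' j'))
    (h3 : ∀ i i', ∀ j ≤ T, 3 * r + 3 * r' + 2 ≤ nrm (c i j - d i' T))
    (h3' : ∀ i i', ∀ j ≤ T, 3 * r + 3 * r' + 2 ≤ nrm (c i T - d i' j))
    (h4 : ∀ i i', 6 * r' + 2 ≤ nrm (c i T - d i' T)) :
    Disjoint (RN (Lc c T r r')) (ud (RN (Lc d T r r'))) := by
  rw [disjoint_left]
  intro e he he'
  obtain ⟨p, hp, he'⟩ := DPkA_ud he'
  have hn' := ud_bxa_near he'
  rcases mem_RN_Lc.1 he with ⟨i, j, hj, he⟩ | ⟨i, he⟩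
  · have hn := bxa_near he
    rcases mem_Lc.1 hp with ⟨i', j', hj', rfl⟩ | ⟨i', rfl⟩
    · have := DPkA_tri hn hn'
      have := h2 i i' j hj j' hj'
      simp only at *
      omega
    · have := DPkA_tri hn hn'
      have := h3 i i' j hj
      simp only at *
      omega
  · have hn := bxa_near he
    rcases mem_Lc.1 hp with ⟨i', j', hj', rfl⟩ | ⟨i', rfl⟩
    · have := DPkA_tri hn hn'
      have := h3' i i' j' hj'
      simp only at *
      omega
    · have := DPkA_tri hn hn'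
      have := h4 i i'
      simp only at *
      omega

theorem pack_link {l : ℕ} {c : Fin l → ℕ → V} {T : ℕ} {r r' : ℤ} (hr : 0 ≤ r) (h6 : 3 * r ≤ r')
    (h1 : ∀ i, ∀ j < T, nrm (c i (j + 1) - c i j) ≤ 4 * r) (h5 : ∀ i, 3 * r' + 3 * r ≤ nrm (c i 0 - c i T))
    {η : Finset Edge} (hη : Rings (Lc c T r r') η) (i : Fin l) {v : V} (hv : RP (c i 0) r η v) :
    ∃ v', RP (c i T) r' η v' ∧ (gr η).Reachable v v' := by
  have hR : ∀ j ≤ T, Ring (c i j) r η := fun j hj => hη (c i j, r) (mem_Lc.2 (Or.inl ⟨i, j, hj, rfl⟩))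
  obtain ⟨w, hw⟩ : Ring (c i T) r' η := hη (c i T, r') (mem_Lc.2 (Or.inr ⟨i, rfl⟩))
  have hr' : 0 ≤ r' := by omega
  have h0 : nrm (c i T - c i T) = 0 := by
    rw [sub_self]
    simp [nrm]
  refine ⟨w, hw, chain_big hr hr' (fun j hj => h1 i j hj) (a' := c i T) (Nat.zero_le T) (le_refl T) (h5 i) ?_ hR hv hw⟩
  rw [h0]
  omega

theorem pack_near {l : ℕ} {c : Fin l → ℕ → V} {T : ℕ} {r r' : ℤ} (hr : 0 ≤ r) (h6 : 3 * r ≤ r')
    (h1 : ∀ i, ∀ j < T, nrm (c i (j + 1) - c i j) ≤ 4 * r) (h5 : ∀ i, 3 * r' + 3 * r ≤ nrm (c i 0 - c i T))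
    {η : Finset Edge} (hη : Rings (Lc c T r r') η) (i : Fin l) {s v : V} (hv : nrm (v - c i 0) ≤ r)
    (hs : 3 * r ≤ nrm (s - c i 0)) (hc : (gr η).Reachable s v) :
    ∃ v', RP (c i T) r' η v' ∧ (gr η).Reachable s v' := by
  obtain ⟨w, hw⟩ : Ring (c i 0) r η := hη (c i 0, r) (mem_Lc.2 (Or.inl ⟨i, 0, Nat.zero_le T, rfl⟩))
  have h7 := ring_cross hr hv hs hc.symm hw
  obtain ⟨v', hv', h8⟩ := pack_link hr h6 h1 h5 hη i hw
  exact ⟨v', hv', (hc.trans h7).trans h8⟩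

end FKN
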