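import Pool.Agent.Lib.MP_216314_pr.N.DRgC
import Pool.Agent.Lib.MP_216314_pr.N.DPkA
import Pool.Agent.Lib.MP_216314_pr.N.DCvA

/-!
# Stream D: states, basic properties

PROOFS.
Direct. `StE_dep`: `ω ∩ Fp` and `dc Fm ω` depend on `ω ∩ (Fp ∪ Fm)` only (`dc_dep`). `pr_StE`: `pq_dep` of `N/GA.lean` twice. `pr_StE_mono`: use `Pr_mono` and `StE_mono`.
`CanO_region`: the centres have norm at most `n + 1/2` (`ptR_norm`), the boxes have radius `10 * (n / (100 l)) ≤ n / 10`, `ud` adds 1; if `n < 100 l` the radius is 0 and the boxes contain no edge. `CanI_region`: the same (`r + 1 + r / 10 + 1 ≤ n` when `r ≥ 100`).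
-/

set_option autoImplicit false

noncomputable section

namespace FKN

open Finset FKI FKP

/-- monotone sources and targets -/
def IncS {l : ℕ} (Sg : Finset Edge → (Fin l → V) → Prop) : Prop := ∀ η η' s, η ⊆ η' → Sg η s → Sg η' s

theorem nearT_inc {l : ℕ} (a : Fin l → V) (r : ℤ) : IncS (nearT a r) := fun _ _ _ _ h => h
theorem nearS_inc {l : ℕ} (a : Fin l → V) (r : ℤ) : IncS (nearS a r) := fun _ _ _ _ h => h
theorem bdP_inc {l : ℕ} (n : ℕ) : IncS (bdP (l := l) n) := fun _ _ _ _ h => h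
theorem bdD_inc {l : ℕ} (n : ℕ) : IncS (bdD (l := l) n) := fun _ _ _ _ h => h
theorem SeP_inc : IncS SeP := fun _ _ _ _ h => h
theorem SeD_inc : IncS SeD := fun _ _ _ _ h => h
theorem ringT_inc {l : ℕ} (a : Fin l → V) (r : ℤ) : IncS (ringT a r) := fun _ _ _ h hs i => RP_mono h (hs i)

theorem StG_inc {l : ℕ} {Sg Tg : Finset Edge → (Fin l → V) → Prop} (hS : IncS Sg) (hT : IncS Tg) : Inc (StG Sg Tg) := by
  rintro ω ω' h ⟨s, v, hs, hv, hc⟩
  exact ⟨s, v, hS _ _ _ h hs, hT _ _ _ h hv, fun i => (hc i).mono (gr_mono h)⟩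

/-- monotonicity in the regions and the sources and targets -/
theorem StE_mono {l : ℕ} {Fp Fm Fp' Fm' : Finset Edge} {Sp Tp Sm Tm : Finset Edge → (Fin l → V) → Prop}
    (hSp : IncS Sp) (hTp : IncS Tp) (hSm : IncS Sm) (hTm : IncS Tm) (hp : Fp ⊆ Fp') (hm : Fm ⊆ Fm') {ω : Finset Edge}
    (h : StE Fp Fm Sp Tp Sm Tm ω) : StE Fp' Fm' Sp Tp Sm Tm ω :=
  ⟨StG_inc hSp hTp _ _ (Finset.inter_subset_inter (Finset.Subset.refl _) hp) h.1,
    StG_inc hSm hTm _ _ (dc_mono hm (Finset.Subset.refl _)) h.2⟩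

theorem StE_dep {l : ℕ} (Fp Fm : Finset Edge) (Sp Tp Sm Tm : Finset Edge → (Fin l → V) → Prop) :
    Dep (Fp ∪ Fm) (StE Fp Fm Sp Tp Sm Tm) := by
  intro ω
  have h1 : ω ∩ (Fp ∪ Fm) ∩ Fp = ω ∩ Fp := by
    rw [Finset.inter_assoc, Finset.inter_eq_right.2 Finset.subset_union_left]
  have h2 : ω ∩ (Fp ∪ Fm) ∩ Fm = ω ∩ Fm := by
    rw [Finset.inter_assoc, Finset.inter_eq_right.2 Finset.subset_union_right]
  have h3 : dc Fm (ω ∩ (Fp ∪ Fm)) = dc Fm ω := by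
    rw [← dc_dep Fm (ω ∩ (Fp ∪ Fm)), h2, dc_dep]
  unfold StE
  rw [h1, h3]

/-- the probability does not depend on the ambient set -/
theorem pr_StE {l : ℕ} (q : ℝ) {E E' Fp Fm : Finset Edge} (Sp Tp Sm Tm : Finset Edge → (Fin l → V) → Prop)
    (hE : Fp ∪ Fm ⊆ E) (hE' : Fp ∪ Fm ⊆ E') : IPC.Pr q E (StE Fp Fm Sp Tp Sm Tm) = IPC.Pr q E' (StE Fp Fm Sp Tp Sm Tm) :=
  (pq_dep q hE (StE_dep Fp Fm Sp Tp Sm Tm)).trans (pq_dep q hE' (StE_dep Fp Fm Sp Tp Sm Tm)).symm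

theorem pr_StE_mono {l : ℕ} {q : ℝ} (h0 : 0 ≤ q) (h1 : q ≤ 1) {E Fp Fm Fp' Fm' : Finset Edge}
    {Sp Tp Sm Tm : Finset Edge → (Fin l → V) → Prop} (hSp : IncS Sp) (hTp : IncS Tp) (hSm : IncS Sm) (hTm : IncS Tm)
    (hp : Fp ⊆ Fp') (hm : Fm ⊆ Fm') :
    IPC.Pr q E (StE Fp Fm Sp Tp Sm Tm) ≤ IPC.Pr q E (StE Fp' Fm' Sp Tp Sm Tm) :=
  pq_mono h0 h1 fun _ _ h => StE_mono hSp hTp hSm hTm hp hm h

private theorem DStA_bxa (m : ℕ) : bx m = bxa 0 (m : ℤ) := by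
  unfold bx bxa
  rw [Prod.fst_zero, Prod.snd_zero, zero_sub, zero_add]

private theorem DStA_bx_mono {m m' : ℕ} (h : m ≤ m') : bx m ⊆ bx m' := by
  have h' : (m : ℤ) ≤ m' := by exact_mod_cast h
  exact box_mono (by linarith) h' (by linarith) h'

private theorem DStA_mem {m : ℕ} {a : V} {w N : ℤ} {e : Edge} (ha : nrm a ≤ N) (he : nrm ((e.1, e.2.1) - a) ≤ w)
    (hm : N + w + 1 ≤ m) : e ∈ bx m := by
  rw [DStA_bxa]
  refine (bxa_of_near ?_).1
  have h1 := nrmD_tri ((e.1, e.2.1) - a) a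
  rw [sub_add_cancel] at h1
  rw [sub_zero]
  linarith

private theorem DStA_empty {a : V} {w : ℤ} (hw : w ≤ 0) {e : Edge} (he : e ∈ bxa a w) : False := by
  unfold bxa at he
  rw [mem_box] at he
  omega

private theorem DStA_bxs {l : ℕ} {a : Fin l → V} {w N : ℤ} {m : ℕ} (ha : ∀ i, nrm (a i) ≤ N)
    (hw : w ≤ 0 ∨ N + w + 2 ≤ m) : bxs a w ⊆ bx m ∧ ud (bxs a w) ⊆ bx m := by
  constructor
  · intro e he
    unfold bxs at he
    rw [Finset.mem_biUnion] at he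
    obtain ⟨i, _, hi⟩ := he
    rcases hw with hw | hw
    · exact (DStA_empty hw hi).elim
    · exact DStA_mem (ha i) (bxa_near hi) (by linarith)
  · intro e he
    rw [mem_ud] at he
    unfold bxs at he
    rw [Finset.mem_biUnion] at he
    obtain ⟨i, _, hi⟩ := he
    rcases hw with hw | hw
    · exact (DStA_empty hw hi).elim
    · exact DStA_mem (ha i) (ud_bxa_near (mem_ud.2 hi)) (by linarith)

private theorem DStA_norm (n : ℕ) (θ : ℝ) : nrm (ptR n θ) ≤ n := by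
  have h := ptR_norm (ρ := (n : ℝ)) (θ := θ) (Nat.cast_nonneg n)
  rw [abs_le] at h
  have h2 : ((nrm (ptR (n : ℝ) θ) : ℤ) : ℝ) < (((n : ℤ) + 1 : ℤ) : ℝ) := by
    push_cast
    linarith [h.2]
  have h3 : nrm (ptR (n : ℝ) θ) < (n : ℤ) + 1 := by exact_mod_cast h2
  omega

private theorem DStA_rr {l : ℕ} (hl : 1 ≤ l) (n : ℕ) : 100 * rr l n ≤ n := by
  unfold rr
  have h1 := Nat.div_mul_le_self n (100 * l)
  have h2 : 100 * (n / (100 * l)) ≤ n / (100 * l) * (100 * l) := by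
    nlinarith [Nat.zero_le (n / (100 * l))]
  omega

/-- the regions of the canonical states -/
theorem CanO_region {l : ℕ} (hl : 1 ≤ l) (X0 : Finset Edge) (n : ℕ) (hX : X0 ⊆ bx n) :
    ((bx (n - 5 * rr l n) \ X0) ∪ bxs (cO l n) (10 * rr l n)) ∪ ((bx (n - 5 * rr l n) \ X0) ∪ ud (bxs (cD l n) (10 * rr l n))) ⊆
      bx (2 * n) := by
  have hr := DStA_rr hl n
  have hb : bx (n - 5 * rr l n) \ X0 ⊆ bx (2 * n) :=
    Finset.Subset.trans Finset.sdiff_subset (DStA_bx_mono (by omega))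
  have hw : (10 * (rr l n : ℤ)) ≤ 0 ∨ (n : ℤ) + 10 * (rr l n : ℤ) + 2 ≤ ((2 * n : ℕ) : ℤ) := by
    rcases Nat.eq_zero_or_pos (rr l n) with h | h
    · left; rw [h]; simp
    · right; push_cast; omega
  have h1 := (DStA_bxs (a := cO l n) (fun i => DStA_norm n _) hw).1
  have h2 := (DStA_bxs (a := cD l n) (fun i => DStA_norm n _) hw).2
  exact Finset.union_subset (Finset.union_subset hb h1) (Finset.union_subset hb h2)

theorem CanI_region {l : ℕ} (hl : 1 ≤ l) {r n : ℕ} (h : 2 * r ≤ n) :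
    (an (r + 5 * rr l r) n ∪ bxs (cO l r) (10 * rr l r)) ∪ (an (r + 5 * rr l r) n ∪ ud (bxs (cD l r) (10 * rr l r))) ⊆ bx n := by
  have hr := DStA_rr hl r
  have hb : an (r + 5 * rr l r) n ⊆ bx n := Finset.sdiff_subset
  have hw : (10 * (rr l r : ℤ)) ≤ 0 ∨ (r : ℤ) + 10 * (rr l r : ℤ) + 2 ≤ (n : ℤ) := by
    rcases Nat.eq_zero_or_pos (rr l r) with h | h
    · left; rw [h]; simp
    · right; omega
  have h1 := (DStA_bxs (a := cO l r) (fun i => DStA_norm r _) hw).1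
  have h2 := (DStA_bxs (a := cD l r) (fun i => DStA_norm r _) hw).2
  exact Finset.union_subset (Finset.union_subset hb h1) (Finset.union_subset hb h2)

end FKN
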