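import Pool.Agent.Lib.MP_216314_pr.N.DRgA
import Pool.Agent.Lib.MP_216314_pr.N.DFkB

/-!
# Stream D: probability of families of circuits

PROOFS.
`pr_HC_at`, `pr_VC_at`: `pq_HC`, `pq_VC` of `N/GA.lean`. `ring_prob`: Harris (`pq_fkg`, `IPC.harris_list`) for the four crossings and
`Ring_of_cross`; the four rectangles have sides `6 r` and `2 r`. `rings_prob`: induction on `L` with Harris, `c ≤ 1` is automatic (if `L` is not empty, `c ≤ hq ≤ 1`).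
`rb_of_rs`: given `ε` take `c` from `RswIn` with `κ = 4` and replace it by `min c 1`. For `1 ≤ r ≤ N`: `hq q (6 r) (2 r) ≥ c` from the first part. By duality `hq (1 - q) (6 r) (2 r) =
1 - hq q (2 r + 1) (6 r - 1)` (`DualIn` with `b + 1 = 6 r`, `a = 2 r`), and the second part (upper bound) gives `≥ c`.
`ext_rings`: `ext_abs` with `Np = RN Lp`, `Nm = RN Lm`, `B = Rings Lp`, `B' = Rings Lm`, and `rings_prob` twice (for `q` and, with `RB_symm`, for `1 - q`);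
`c ^ (4 * card) ≥ c ^ (4 * M)` since `0 < c ≤ 1`.
-/

set_option autoImplicit false

noncomputable section

namespace FKN

open Finset FKI FKP

theorem Rings_inc (L : Finset (V × ℤ)) : Inc (Rings L) := by
  intro ω ω' h hR p hp
  exact Ring_inc p.1 p.2 ω ω' h (hR p hp)

theorem DRgC_sub {L : Finset (V × ℤ)} {p : V × ℤ} (hp : p ∈ L) : bxa p.1 (3 * p.2) ⊆ RN L := by
  unfold RN
  exact Finset.subset_biUnion_of_mem (fun p : V × ℤ => bxa p.1 (3 * p.2)) hp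

theorem Rings_dep {L : Finset (V × ℤ)} (hL : ∀ p ∈ L, 0 ≤ p.2) : Dep (RN L) (Rings L) := by
  have key : ∀ (ω : Finset Edge) (p : V × ℤ), p ∈ L → (Ring p.1 p.2 ω ↔ Ring p.1 p.2 (ω ∩ RN L)) := by
    intro ω p hp
    have e1 := Ring_dep (a := p.1) (hL p hp) ω
    have e2 := Ring_dep (a := p.1) (hL p hp) (ω ∩ RN L)
    have e3 : ω ∩ RN L ∩ bxa p.1 (3 * p.2) = ω ∩ bxa p.1 (3 * p.2) := by
      rw [Finset.inter_assoc, Finset.inter_eq_right.2 (DRgC_sub hp)]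
    rw [e3] at e2
    exact e1.trans e2.symm
  intro ω
  constructor
  · intro h p hp
    exact (key ω p hp).1 (h p hp)
  · intro h p hp
    exact (key ω p hp).2 (h p hp)

/-- crossing probabilities do not depend on the place and the direction -/
theorem pr_HC_at (q : ℝ) (x y : ℤ) (a b : ℕ) : IPC.Pr q (box x (x + a) y (y + b)) (HC x (x + a) y (y + b)) = hq q a b := by
  exact pq_HC q a b rfl rfl (Finset.Subset.refl _)

theorem pr_VC_at (q : ℝ) (x y : ℤ) (a b : ℕ) : IPC.Pr q (box x (x + b) y (y + a)) (VC x (x + b) y (y + a)) = hq q a b := by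
  exact pq_VC q b a rfl rfl (Finset.Subset.refl _)

/-- probability of one circuit -/
theorem ring_prob {c q : ℝ} {N : ℕ} (hc : 0 ≤ c) (h0 : 0 ≤ q) (h1 : q ≤ 1) (hRB : RB c q N) {r : ℕ} (hr : 1 ≤ r) (hN : r ≤ N)
    (a : V) : c ^ 4 ≤ IPC.Pr q (bxa a (3 * r)) (Ring a r) := by
  have hr0 : (0 : ℤ) ≤ (r : ℤ) := Int.natCast_nonneg r
  have hr1 : (1 : ℤ) ≤ (r : ℤ) := by exact_mod_cast hr
  have hh := (hRB r hr hN).1
  have b1 : box (a.1 - 3 * (r : ℤ)) (a.1 + 3 * r) (a.2 + r) (a.2 + 3 * r) ⊆ bxa a (3 * r) := by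
    unfold bxa
    exact box_mono (by omega) (by omega) (by omega) (by omega)
  have b2 : box (a.1 - 3 * (r : ℤ)) (a.1 + 3 * r) (a.2 - 3 * r) (a.2 - r) ⊆ bxa a (3 * r) := by
    unfold bxa
    exact box_mono (by omega) (by omega) (by omega) (by omega)
  have b3 : box (a.1 + (r : ℤ)) (a.1 + 3 * r) (a.2 - 3 * r) (a.2 + 3 * r) ⊆ bxa a (3 * r) := by
    unfold bxa
    exact box_mono (by omega) (by omega) (by omega) (by omega)
  have b4 : box (a.1 - 3 * (r : ℤ)) (a.1 - r) (a.2 - 3 * r) (a.2 + 3 * r) ⊆ bxa a (3 * r) := by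
    unfold bxa
    exact box_mono (by omega) (by omega) (by omega) (by omega)
  have p1 := pq_HC q (6 * r) (2 * r) (x1 := a.1 - 3 * (r : ℤ)) (x2 := a.1 + 3 * r) (y1 := a.2 + r) (y2 := a.2 + 3 * r)
    (by push_cast; ring) (by push_cast; ring) b1
  have p2 := pq_HC q (6 * r) (2 * r) (x1 := a.1 - 3 * (r : ℤ)) (x2 := a.1 + 3 * r) (y1 := a.2 - 3 * r) (y2 := a.2 - r)
    (by push_cast; ring) (by push_cast; ring) b2
  have p3 := pq_VC q (2 * r) (6 * r) (x1 := a.1 + (r : ℤ)) (x2 := a.1 + 3 * r) (y1 := a.2 - 3 * r) (y2 := a.2 + 3 * r)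
    (by push_cast; ring) (by push_cast; ring) b3
  have p4 := pq_VC q (2 * r) (6 * r) (x1 := a.1 - 3 * (r : ℤ)) (x2 := a.1 - r) (y1 := a.2 - 3 * r) (y2 := a.2 + 3 * r)
    (by push_cast; ring) (by push_cast; ring) b4
  have i1 : Inc (HC (a.1 - 3 * (r : ℤ)) (a.1 + 3 * r) (a.2 + r) (a.2 + 3 * r)) := inc_HC _ _ _ _
  have i2 : Inc (HC (a.1 - 3 * (r : ℤ)) (a.1 + 3 * r) (a.2 - 3 * r) (a.2 - r)) := inc_HC _ _ _ _
  have i3 : Inc (VC (a.1 + (r : ℤ)) (a.1 + 3 * r) (a.2 - 3 * r) (a.2 + 3 * r)) := inc_VC _ _ _ _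
  have i4 : Inc (VC (a.1 - 3 * (r : ℤ)) (a.1 - r) (a.2 - 3 * r) (a.2 + 3 * r)) := inc_VC _ _ _ _
  have hmono : ∀ ω, ω ⊆ bxa a (3 * (r : ℤ)) →
      (HC (a.1 - 3 * (r : ℤ)) (a.1 + 3 * r) (a.2 + r) (a.2 + 3 * r) ω ∧
      (HC (a.1 - 3 * (r : ℤ)) (a.1 + 3 * r) (a.2 - 3 * r) (a.2 - r) ω ∧
      (VC (a.1 + (r : ℤ)) (a.1 + 3 * r) (a.2 - 3 * r) (a.2 + 3 * r) ω ∧
        VC (a.1 - 3 * (r : ℤ)) (a.1 - r) (a.2 - 3 * r) (a.2 + 3 * r) ω))) → Ring a r ω :=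
    fun ω _ h => Ring_of_cross hr0 h.1 h.2.1 h.2.2.1 h.2.2.2
  generalize HC (a.1 - 3 * (r : ℤ)) (a.1 + 3 * r) (a.2 + r) (a.2 + 3 * r) = A1 at p1 i1 hmono
  generalize HC (a.1 - 3 * (r : ℤ)) (a.1 + 3 * r) (a.2 - 3 * r) (a.2 - r) = A2 at p2 i2 hmono
  generalize VC (a.1 + (r : ℤ)) (a.1 + 3 * r) (a.2 - 3 * r) (a.2 + 3 * r) = A3 at p3 i3 hmono
  generalize VC (a.1 - 3 * (r : ℤ)) (a.1 - r) (a.2 - 3 * r) (a.2 + 3 * r) = A4 at p4 i4 hmono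
  have i34 : Inc (fun ω => A3 ω ∧ A4 ω) := fun ω ω' h h2 => ⟨i3 ω ω' h h2.1, i4 ω ω' h h2.2⟩
  have i234 : Inc (fun ω => A2 ω ∧ (A3 ω ∧ A4 ω)) := fun ω ω' h h2 => ⟨i2 ω ω' h h2.1, i34 ω ω' h h2.2⟩
  have f1 := pq_fkg h0 h1 (bxa a (3 * (r : ℤ))) i3 i4
  have f2 := pq_fkg h0 h1 (bxa a (3 * (r : ℤ))) i2 i34
  have f3 := pq_fkg h0 h1 (bxa a (3 * (r : ℤ))) i1 i234
  have f4 := pq_mono h0 h1 hmono
  rw [p3, p4] at f1
  rw [p2] at f2
  rw [p1] at f3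
  have hH : 0 ≤ hq q (6 * r) (2 * r) := hc.trans hh
  calc c ^ 4 ≤ hq q (6 * r) (2 * r) ^ 4 := pow_le_pow_left₀ hc hh 4
    _ = hq q (6 * r) (2 * r) * (hq q (6 * r) (2 * r) * (hq q (6 * r) (2 * r) * hq q (6 * r) (2 * r))) := by ring
    _ ≤ hq q (6 * r) (2 * r) * (hq q (6 * r) (2 * r) *
        IPC.Pr q (bxa a (3 * (r : ℤ))) (fun ω => A3 ω ∧ A4 ω)) :=
      mul_le_mul_of_nonneg_left (mul_le_mul_of_nonneg_left f1 hH) hH
    _ ≤ hq q (6 * r) (2 * r) * IPC.Pr q (bxa a (3 * (r : ℤ))) (fun ω => A2 ω ∧ (A3 ω ∧ A4 ω)) :=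
      mul_le_mul_of_nonneg_left f2 hH
    _ ≤ IPC.Pr q (bxa a (3 * (r : ℤ))) (fun ω => A1 ω ∧ (A2 ω ∧ (A3 ω ∧ A4 ω))) := f3
    _ ≤ _ := f4

theorem DRgC_probE {c q : ℝ} {N : ℕ} (hc : 0 ≤ c) (h0 : 0 ≤ q) (h1 : q ≤ 1) (hRB : RB c q N) (L : Finset (V × ℤ))
    (hL : ∀ p ∈ L, 1 ≤ p.2 ∧ p.2 ≤ N) (E : Finset Edge) (hE : RN L ⊆ E) :
    c ^ (4 * L.card) ≤ IPC.Pr q E (Rings L) := by
  classical
  induction L using Finset.induction_on with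
  | empty =>
    rw [IPC.Pr_true q E (fun ω _ p hp => absurd hp (Finset.notMem_empty p)), Finset.card_empty, mul_zero, pow_zero]
  | insert p L hp ih =>
    have hE' : RN L ⊆ E := by
      refine Finset.Subset.trans ?_ hE
      unfold RN
      exact Finset.biUnion_subset_biUnion_of_subset_left _ (Finset.subset_insert p L)
    have hp' : bxa p.1 (3 * p.2) ⊆ E := (DRgC_sub (Finset.mem_insert_self p L)).trans hE
    have ih' := ih (fun x hx => hL x (Finset.mem_insert_of_mem hx)) hE'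
    obtain ⟨k1, k2⟩ := hL p (Finset.mem_insert_self p L)
    have g1 : c ^ 4 ≤ IPC.Pr q E (Ring p.1 p.2) := by
      rw [pq_dep q hp' (Ring_dep (by omega))]
      obtain ⟨r, hr⟩ : ∃ r : ℕ, (r : ℤ) = p.2 := ⟨p.2.toNat, Int.toNat_of_nonneg (by omega)⟩
      rw [← hr]
      exact ring_prob hc h0 h1 hRB (by omega) (by omega) p.1
    have g2 := pq_fkg h0 h1 E (Ring_inc p.1 p.2) (Rings_inc L)
    have g3 : IPC.Pr q E (fun ω => Ring p.1 p.2 ω ∧ Rings L ω) ≤ IPC.Pr q E (Rings (insert p L)) := by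
      refine pq_mono h0 h1 fun ω _ h x hx => ?_
      rcases Finset.mem_insert.1 hx with hx | hx
      · rw [hx]
        exact h.1
      · exact h.2 x hx
    rw [Finset.card_insert_of_notMem hp]
    calc c ^ (4 * (L.card + 1)) = c ^ 4 * c ^ (4 * L.card) := by
          rw [← pow_add]
          congr 1
          ring
      _ ≤ IPC.Pr q E (Ring p.1 p.2) * IPC.Pr q E (Rings L) :=
          mul_le_mul g1 ih' (by positivity) (pq_nonneg h0 h1 _ _)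
      _ ≤ _ := g2.trans g3

/-- probability of a family of circuits -/
theorem rings_prob {c q : ℝ} {N : ℕ} (hc : 0 ≤ c) (h0 : 0 ≤ q) (h1 : q ≤ 1) (hRB : RB c q N) (L : Finset (V × ℤ))
    (hL : ∀ p ∈ L, 1 ≤ p.2 ∧ p.2 ≤ N) : c ^ (4 * L.card) ≤ IPC.Pr q (RN L) (Rings L) := by
  exact DRgC_probE hc h0 h1 hRB L hL (RN L) (Finset.Subset.refl _)

/-- the hypothesis is symmetric -/
theorem RB_symm {c q : ℝ} {N : ℕ} (h : RB c q N) : RB c (1 - q) N := by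
  intro r hr hN
  obtain ⟨a1, a2⟩ := h r hr hN
  refine ⟨a2, ?_⟩
  have e : 1 - (1 - q) = q := by ring
  rw [e]
  exact a1

theorem RB_anti {c q : ℝ} {N N' : ℕ} (h : RB c q N) (hN : N' ≤ N) : RB c q N' := by
  intro r hr hr'
  exact h r hr (hr'.trans hN)

/-- `RB` from the crossing bounds -/
theorem rb_of_rs (hR : RswIn) (hD : DualIn) : ∀ ε : ℝ, 0 < ε → ∃ c : ℝ, 0 < c ∧ c ≤ 1 ∧ ∀ (q : ℝ) (N : ℕ), 0 ≤ q → q ≤ 1 → RS ε q N →
    RB c q N := by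
  intro ε hε
  obtain ⟨c, hc, hcr⟩ := hR ε hε 4
  refine ⟨min c 1, lt_min hc one_pos, min_le_right _ _, ?_⟩
  intro q N h0 h1 hRS r hr hN
  have k1 := (hcr q N h0 h1 hRS (6 * r) (2 * r) (by omega) (by omega)).1 (by omega) (by omega)
  have k2 := (hcr q N h0 h1 hRS (2 * r + 1) (6 * r - 1) (by omega) (by omega)).2 (by omega) (by omega)
  have k3 := hD q (2 * r) (6 * r - 1)
  have e : 6 * r - 1 + 1 = 6 * r := by omega
  rw [e] at k3
  refine ⟨(min_le_left _ _).trans k1, (min_le_left _ _).trans ?_⟩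
  linarith

/-- extension by families of circuits -/
theorem ext_rings {c q : ℝ} {N : ℕ} (hc : 0 < c) (hc1 : c ≤ 1) (h0 : 0 ≤ q) (h1 : q ≤ 1) (hRB : RB c q N)
    {E Fp Fm : Finset Edge} {Lp Lm : Finset (V × ℤ)} {M : ℕ} (hMp : Lp.card ≤ M) (hMm : Lm.card ≤ M)
    (hLp : ∀ p ∈ Lp, 1 ≤ p.2 ∧ p.2 ≤ N) (hLm : ∀ p ∈ Lm, 1 ≤ p.2 ∧ p.2 ≤ N)
    (hFp : Fp ⊆ E) (hFm : Fm ⊆ E) (hNp : RN Lp ⊆ E) (hNm : ud (RN Lm) ⊆ E)
    (d1 : Disjoint (RN Lp) Fm) (d2 : Disjoint (ud (RN Lm)) Fp) (d3 : Disjoint (RN Lp) (ud (RN Lm)))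
    {A A' D D' : Finset Edge → Prop} (iA : Inc A) (iD : Inc D) (iA' : Inc A') (iD' : Inc D')
    (hA : ∀ η, A η → Rings Lp η → A' η) (hD : ∀ η, D η → Rings Lm η → D' η) :
    IPC.Pr q E (fun ω => A (ω ∩ Fp) ∧ D (dc Fm ω)) * c ^ (8 * M) ≤
      IPC.Pr q E (fun ω => A' (ω ∩ (Fp ∪ RN Lp)) ∧ D' (dc (Fm ∪ ud (RN Lm)) ω)) := by
  have h1' : 0 ≤ 1 - q := by linarith
  have h0' : 1 - q ≤ 1 := by linarith
  have key := ext_abs h0 h1 hFp hFm hNp hNm d1 d2 d3 iA (Rings_inc Lp) iD (Rings_inc Lm) iA' iD'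
    (Rings_dep fun p hp => by have := (hLp p hp).1; omega) (Rings_dep fun p hp => by have := (hLm p hp).1; omega) hA hD
  refine le_trans ?_ key
  have r1 := rings_prob hc.le h0 h1 hRB Lp hLp
  have r2 := rings_prob hc.le h1' h0' (RB_symm hRB) Lm hLm
  have s1 : c ^ (4 * M) ≤ c ^ (4 * Lp.card) := pow_le_pow_of_le_one hc.le hc1 (by omega)
  have s2 : c ^ (4 * M) ≤ c ^ (4 * Lm.card) := pow_le_pow_of_le_one hc.le hc1 (by omega)
  have hP := pq_nonneg h0 h1 E (fun ω => A (ω ∩ Fp) ∧ D (dc Fm ω))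
  generalize IPC.Pr q E (fun ω => A (ω ∩ Fp) ∧ D (dc Fm ω)) = P at hP
  have hcM : 0 ≤ c ^ (4 * M) := by positivity
  have e : c ^ (8 * M) = c ^ (4 * M) * c ^ (4 * M) := by
    rw [← pow_add]
    congr 1
    ring
  rw [e, ← mul_assoc]
  exact mul_le_mul (mul_le_mul_of_nonneg_left (s1.trans r1) hP) (s2.trans r2) hcM
    (mul_nonneg hP (hcM.trans (s1.trans r1)))

end FKN
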