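import Pool.Agent.Lib.MP_216314_pr.N.E3I
import Pool.Agent.Lib.MP_216314_pr.N.DRgC
import Pool.Agent.Lib.MP_216314_pr.N.NBase

/-!
# Stream E3: probability of families of circuits on the cylinder

PROOFS. `bxa_inj`: the edges of `bxa a w` satisfy `a.1 - w ≤ e.1 ≤ a.1 + w` (`mem_box'`, Cy/CyC, or `FKP.mem_box`), `red_inj_x` (Cy/CyA) with `b - a = 2 w < N`; `ud (bxa a w)`: `e ∈ ud F ↔ dl e ∈ F` (`mem_ud`, DFkB), the coordinates change by at most one.
`ring_cyl`: `Pr_pull` (Cy/CyA) with `F = bxa a (3 r)`: the probability is `Pr (bxa a (3 r)) (Ring a r) = IPC.Pr (1/2) ..` (`pr_half`), at least `c ^ 4` by `ring_prob` (DRgC).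
`ring_cyl_d`: `Pr_pull` with `F = ud (bxa a (3 r))` and the event `η ↦ Ring a r (dc F η)`: `pd N F ω = dc F (pull N F ω)` by definition; then `pr_half` and `pr_dcu` (DFkB) with `q = 1/2` (`1 - 1/2 = 1/2`: `norm_num`), and `ring_prob`.
`cyl_rings`: induction on `L` (`Finset.induction_on`), with the event `∀ p ∈ L, Ring p.1 r (pull N (bxa p.1 (3 * r)) ω)`, which is increasing (`inc_pull`, `Ring_inc`), and `Pr_fkg` (P/PProbA); it implies `Rings L (pull N (RN L) ω)` since `p.2 = r`, `bxa p.1 (3 * p.2) ⊆ RN L`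
(`subset_biUnion_of_mem`), `pull_sub2` and `Ring_inc`. `Pr E (fun _ => True) = 1` for the empty family (`Pr_true`); `c ^ (4 * (card + 1)) = c ^ 4 * c ^ (4 * card)`.
`cyl_rings_d`: the same with the decreasing events `Ring p.1 r (pd N (ud (bxa p.1 (3 * r))) ω)` (`pd_dec`); for two decreasing events on the same set of edges use `pq_fkg_not` or `Pr_compl` / the complements (N/GA, P/PProbA): if `A`, `B` are decreasing then
`Pr E A * Pr E B ≤ Pr E (A ∧ B)` (make this a lemma: `Pr_fkg` for the increasing events `ω ↦ A (E \ ω)` and `Pr_compl`). `ud (bxa p.1 (3 * p.2)) ⊆ ud (RN L)` (`ud_mono`), `pd_sub`.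
-/

set_option autoImplicit false

noncomputable section

namespace FKN

open Finset FKI FKP

theorem bxa_inj {N : ℕ} (a : V) {w : ℤ} (hw : 2 * w + 3 ≤ N) :
    Set.InjOn (red N) (bxa a w : Set Edge) ∧ Set.InjOn (red N) (ud (bxa a w) : Set Edge) := by
  constructor
  · refine red_inj_x (a := a.1 - w) (b := a.1 + w) (by omega) ?_
    intro e he
    have := mem_box' he
    exact ⟨this.1, this.2.1⟩
  · refine red_inj_x (a := a.1 - w) (b := a.1 + w + 1) (by omega) ?_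
    intro e he
    have h1 := mem_box' (mem_ud.1 he)
    obtain ⟨x, y, t⟩ := e
    cases t
    · simp only [dl, Equiv.coe_fn_mk, Bool.false_eq_true, if_false] at h1
      exact ⟨h1.1, by have := h1.2.1; simp only; omega⟩
    · simp only [dl, Equiv.coe_fn_mk, if_true] at h1
      obtain ⟨h2, h3, -, -⟩ := h1
      simp only
      omega

private theorem e3j_ring_inc (a : V) (r : ℤ) : Inc (Ring a r) := by
  intro ω ω' h hω
  have h1 : Rings {(a, r)} ω := by
    intro p hp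
    rw [mem_singleton.1 hp]
    exact hω
  have h2 := Rings_inc {(a, r)} ω ω' h h1
  exact h2 (a, r) (mem_singleton_self _)

/-- Harris inequality for decreasing events -/
private theorem e3j_fkg_dec (E : Finset Edge) {A B : Finset Edge → Prop}
    (hA : ∀ ω ω', ω ⊆ ω' → A ω' → A ω) (hB : ∀ ω ω', ω ⊆ ω' → B ω' → B ω) :
    Pr E A * Pr E B ≤ Pr E (fun ω => A ω ∧ B ω) := by
  classical
  have h1 : Inc (fun ω => A (E \ ω)) := fun ω ω' h ha => hA _ _ (sdiff_subset_sdiff (Subset.refl _) h) ha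
  have h2 : Inc (fun ω => B (E \ ω)) := fun ω ω' h ha => hB _ _ (sdiff_subset_sdiff (Subset.refl _) h) ha
  have h3 := Pr_fkg E h1 h2
  rw [Pr_compl E A, Pr_compl E B, Pr_compl E (fun ω => A ω ∧ B ω)] at h3
  exact h3

section

variable {c : ℝ} {N m r : ℕ}

theorem ring_cyl (hc : 0 ≤ c) (hRB : RB c (1 / 2) r) (hr : 1 ≤ r) (hN : 6 * r + 3 ≤ N) (a : V)
    (hE : ∀ e ∈ bxa a (3 * r), red N e ∈ cylE N m) :
    c ^ 4 ≤ Pr (cylE N m) (fun ω => Ring a r (pull N (bxa a (3 * r)) ω)) := by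
  rw [Pr_pull (bxa_inj (N := N) a (w := 3 * (r : ℤ)) (by omega)).1 hE (Ring a r), pr_half]
  exact ring_prob hc (by norm_num) (by norm_num) hRB hr le_rfl a

theorem ring_cyl_d (hc : 0 ≤ c) (hRB : RB c (1 / 2) r) (hr : 1 ≤ r) (hN : 6 * r + 3 ≤ N) (a : V)
    (hE : ∀ e ∈ ud (bxa a (3 * r)), red N e ∈ cylE N m) :
    c ^ 4 ≤ Pr (cylE N m) (fun ω => Ring a r (pd N (ud (bxa a (3 * r))) ω)) := by
  have h1 : Pr (cylE N m) (fun ω => Ring a r (pd N (ud (bxa a (3 * r))) ω)) =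
      Pr (ud (bxa a (3 * r))) (fun η => Ring a r (dc (ud (bxa a (3 * r))) η)) :=
    Pr_pull (bxa_inj (N := N) a (w := 3 * (r : ℤ)) (by omega)).2 hE
      (fun η => Ring a r (dc (ud (bxa a (3 * r))) η))
  rw [h1, pr_half]
  have h2 := pr_dcu (q := 1 / 2) (Subset.refl (ud (bxa a (3 * r)))) (Ring a r)
  have h3 : (1 - 1 / 2 : ℝ) = 1 / 2 := by norm_num
  rw [h3] at h2
  refine le_of_le_of_eq ?_ h2.symm
  exact ring_prob hc (by norm_num) (by norm_num) hRB hr le_rfl a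

private theorem e3j_ind (hc : 0 ≤ c) (hRB : RB c (1 / 2) r) (hr : 1 ≤ r) (hN : 6 * r + 3 ≤ N) (L : Finset (V × ℤ)) :
    (∀ p ∈ L, ∀ e ∈ bxa p.1 (3 * r), red N e ∈ cylE N m) →
    c ^ (4 * L.card) ≤ Pr (cylE N m) (fun ω => ∀ p ∈ L, Ring p.1 r (pull N (bxa p.1 (3 * r)) ω)) := by
  classical
  induction L using Finset.induction_on with
  | empty =>
    intro _
    have h1 : Pr (cylE N m) (fun ω => ∀ p ∈ (∅ : Finset (V × ℤ)), Ring p.1 r (pull N (bxa p.1 (3 * r)) ω)) = 1 := by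
      rw [← Pr_true (cylE N m)]
      exact Pr_congr fun ω _ => ⟨fun _ => trivial, fun _ p hp => absurd hp (notMem_empty p)⟩
    rw [h1, card_empty, mul_zero, pow_zero]
  | insert p L hp ih =>
    intro hE
    have h1 := ih fun p' hp' => hE p' (mem_insert_of_mem hp')
    have h2 := ring_cyl hc hRB hr hN p.1 (hE p (mem_insert_self _ _))
    have i1 : Inc (fun ω => Ring p.1 r (pull N (bxa p.1 (3 * r)) ω)) := inc_pull (e3j_ring_inc p.1 r)
    have i2 : Inc (fun ω => ∀ p ∈ L, Ring p.1 r (pull N (bxa p.1 (3 * r)) ω)) :=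
      fun ω ω' h ha p hp => inc_pull (e3j_ring_inc p.1 r) ω ω' h (ha p hp)
    have h3 := Pr_fkg (cylE N m) i1 i2
    rw [card_insert_of_notMem hp, mul_add, mul_one, add_comm, pow_add]
    refine (mul_le_mul h2 h1 (pow_nonneg hc _) (Pr_nonneg _ _)).trans (h3.trans (Pr_mono fun ω _ h => ?_))
    intro p' hp'
    rcases mem_insert.1 hp' with rfl | hp'
    · exact h.1
    · exact h.2 p' hp'

private theorem e3j_ind_d (hc : 0 ≤ c) (hRB : RB c (1 / 2) r) (hr : 1 ≤ r) (hN : 6 * r + 3 ≤ N) (L : Finset (V × ℤ)) :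
    (∀ p ∈ L, ∀ e ∈ ud (bxa p.1 (3 * r)), red N e ∈ cylE N m) →
    c ^ (4 * L.card) ≤ Pr (cylE N m) (fun ω => ∀ p ∈ L, Ring p.1 r (pd N (ud (bxa p.1 (3 * r))) ω)) := by
  classical
  induction L using Finset.induction_on with
  | empty =>
    intro _
    have h1 : Pr (cylE N m) (fun ω => ∀ p ∈ (∅ : Finset (V × ℤ)), Ring p.1 r (pd N (ud (bxa p.1 (3 * r))) ω)) = 1 := by
      rw [← Pr_true (cylE N m)]
      exact Pr_congr fun ω _ => ⟨fun _ => trivial, fun _ p hp => absurd hp (notMem_empty p)⟩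
    rw [h1, card_empty, mul_zero, pow_zero]
  | insert p L hp ih =>
    intro hE
    have h1 := ih fun p' hp' => hE p' (mem_insert_of_mem hp')
    have h2 := ring_cyl_d hc hRB hr hN p.1 (hE p (mem_insert_self _ _))
    have i1 : ∀ ω ω', ω ⊆ ω' → Ring p.1 r (pd N (ud (bxa p.1 (3 * r))) ω') → Ring p.1 r (pd N (ud (bxa p.1 (3 * r))) ω) :=
      fun ω ω' h ha => e3j_ring_inc p.1 r _ _ (pd_dec h) ha
    have i2 : ∀ ω ω', ω ⊆ ω' → (∀ p ∈ L, Ring p.1 r (pd N (ud (bxa p.1 (3 * r))) ω')) →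
        ∀ p ∈ L, Ring p.1 r (pd N (ud (bxa p.1 (3 * r))) ω) :=
      fun ω ω' h ha p hp => e3j_ring_inc p.1 r _ _ (pd_dec h) (ha p hp)
    have h3 := e3j_fkg_dec (cylE N m) i1 i2
    rw [card_insert_of_notMem hp, mul_add, mul_one, add_comm, pow_add]
    refine (mul_le_mul h2 h1 (pow_nonneg hc _) (Pr_nonneg _ _)).trans (h3.trans (Pr_mono fun ω _ h => ?_))
    intro p' hp'
    rcases mem_insert.1 hp' with rfl | hp'
    · exact h.1
    · exact h.2 p' hp'

private theorem e3j_sub {L : Finset (V × ℤ)} (hL : ∀ p ∈ L, p.2 = r) {p : V × ℤ} (hp : p ∈ L) :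
    bxa p.1 (3 * r) ⊆ RN L := by
  classical
  have h1 := subset_biUnion_of_mem (fun p : V × ℤ => bxa p.1 (3 * p.2)) hp
  rw [← hL p hp]
  exact h1

theorem cyl_rings (hc : 0 ≤ c) (hRB : RB c (1 / 2) r) (hr : 1 ≤ r) (hN : 6 * r + 3 ≤ N) (L : Finset (V × ℤ))
    (hL : ∀ p ∈ L, p.2 = r) (hE : ∀ e ∈ RN L, red N e ∈ cylE N m) :
    c ^ (4 * L.card) ≤ Pr (cylE N m) (fun ω => Rings L (pull N (RN L) ω)) := by
  refine (e3j_ind hc hRB hr hN L fun p hp e he => hE e (e3j_sub hL hp he)).trans (Pr_mono fun ω _ h p hp => ?_)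
  rw [hL p hp]
  exact e3j_ring_inc p.1 r _ _ (pull_sub2 (e3j_sub hL hp)) (h p hp)

theorem cyl_rings_d (hc : 0 ≤ c) (hRB : RB c (1 / 2) r) (hr : 1 ≤ r) (hN : 6 * r + 3 ≤ N) (L : Finset (V × ℤ))
    (hL : ∀ p ∈ L, p.2 = r) (hE : ∀ e ∈ ud (RN L), red N e ∈ cylE N m) :
    c ^ (4 * L.card) ≤ Pr (cylE N m) (fun ω => Rings L (pd N (ud (RN L)) ω)) := by
  refine (e3j_ind_d hc hRB hr hN L fun p hp e he => hE e (ud_mono (e3j_sub hL hp) he)).trans
    (Pr_mono fun ω _ h p hp => ?_)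
  rw [hL p hp]
  exact e3j_ring_inc p.1 r _ _ (pd_sub (ud_mono (e3j_sub hL hp))) (h p hp)

end

end FKN
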