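import Pool.Agent.Lib.MP_216314_pr.N.GC

/-!
# Duality of the crossing probabilities
-/

set_option autoImplicit false

noncomputable section

namespace FKN

open Finset FKI FKP

theorem dual_iff {a b : ℕ} (hb : 1 ≤ b) (ω : Finset Edge) :
    HC 0 (a + 1) 0 (b - 1) (duG a b ω) ↔ ¬ VC 0 a 0 b ω := by
  constructor
  · intro h h'
    exact dual_not hb h' (inc_HC _ _ _ _ _ _ subset_union_left h)
  · intro h
    by_contra h'
    exact h (dual_or hb h')

/-- the sides of the dual rectangle do not matter -/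
theorem hc_sides {a b : ℕ} (hb : 1 ≤ b) (η : Finset Edge) :
    HC 0 ((a : ℤ) + 1) 0 ((b : ℤ) - 1) η ↔
      HC 0 ((a : ℤ) + 1) 0 ((b : ℤ) - 1) (η ∩ (FKP.box 0 a 0 b).map psi.toEmbedding) := by
  constructor
  · intro h
    obtain ⟨ω, hω⟩ : ∃ ω : Finset Edge, duG a b ω = η ∩ (FKP.box 0 a 0 b).map psi.toEmbedding := by
      refine ⟨FKP.box 0 a 0 b \ (η.map psi.symm.toEmbedding), ?_⟩
      unfold duG
      ext e
      rw [Finset.mem_map_equiv, mem_inter, Finset.mem_map_equiv, mem_sdiff, mem_sdiff, Finset.mem_map_equiv]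
      simp only [Equiv.symm_symm, Equiv.apply_symm_apply, not_and, not_not]
      tauto
    have h2 : HC 0 ((a : ℤ) + 1) 0 ((b : ℤ) - 1) (duG a b ω ∪ sds a b) := by
      have h3 := (dep_HC (Finset.Subset.refl (FKP.box 0 ((a : ℤ) + 1) 0 ((b : ℤ) - 1))) η).1 h
      refine inc_HC _ _ _ _ _ _ ?_ h3
      intro e he
      rw [mem_inter] at he
      rw [mem_union, hω, mem_inter, mem_sds, Finset.mem_map_equiv, mem_box]
      obtain ⟨he1, he2⟩ := he
      rw [mem_box] at he2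
      obtain ⟨x, y, t⟩ := e
      cases t
      · left
        have h4 : psi.symm (x, y, false) = (x, y, true) := rfl
        rw [h4]
        simp at he2 ⊢
        exact ⟨he1, by omega, by omega, by omega, by omega⟩
      · have h4 : psi.symm (x, y, true) = (x - 1, y + 1, false) := rfl
        rw [h4]
        simp at he2 ⊢
        by_cases h5 : x = 0 ∨ x = (a : ℤ) + 1
        · right
          exact ⟨h5, by omega, by omega⟩
        · left
          rw [not_or] at h5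
          exact ⟨he1, by omega, by omega, by omega, by omega⟩
    rw [← hω]
    rw [dual_iff hb]
    intro h3
    exact dual_not hb h3 h2
  · exact fun h => inc_HC _ _ _ _ _ _ inter_subset_left h

theorem dual_pr (q : ℝ) {a b : ℕ} (hb : 1 ≤ b) :
    IPC.Pr q (FKP.box 0 a 0 b) (VC 0 a 0 b) = 1 - hq (1 - q) (a + 1) (b - 1) := by
  have e1 : IPC.Pr q (FKP.box 0 (a : ℤ) 0 b) (fun ω => ¬ VC 0 a 0 b ω) = hq (1 - q) (a + 1) (b - 1) := by
    have f1 : IPC.Pr q (FKP.box 0 (a : ℤ) 0 b) (fun ω => ¬ VC 0 a 0 b ω) =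
        IPC.Pr q (FKP.box 0 (a : ℤ) 0 b) (fun ω =>
          (fun η => HC 0 ((a : ℤ) + 1) 0 ((b : ℤ) - 1) (η.map psi.toEmbedding)) (FKP.box 0 (a : ℤ) 0 b \ ω)) :=
      pq_congr fun ω _ => (dual_iff hb ω).symm
    rw [f1, pq_compl q (FKP.box 0 (a : ℤ) 0 b) (fun η => HC 0 ((a : ℤ) + 1) 0 ((b : ℤ) - 1) (η.map psi.toEmbedding)),
      ← pq_map (1 - q) psi (FKP.box 0 (a : ℤ) 0 b) (HC 0 ((a : ℤ) + 1) 0 ((b : ℤ) - 1))]
    set M : Finset Edge := (FKP.box 0 (a : ℤ) 0 b).map psi.toEmbedding with hM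
    set X : Finset Edge := FKP.box 0 ((a : ℤ) + 1) 0 ((b : ℤ) - 1) with hX
    have hdep : Dep (X ∩ M) (fun η => HC 0 ((a : ℤ) + 1) 0 ((b : ℤ) - 1) (η ∩ M)) := by
      intro η
      show HC 0 ((a : ℤ) + 1) 0 ((b : ℤ) - 1) (η ∩ M) ↔
        HC 0 ((a : ℤ) + 1) 0 ((b : ℤ) - 1) (η ∩ (X ∩ M) ∩ M)
      rw [dep_HC (Finset.Subset.refl X) (η ∩ M)]
      have h1 : η ∩ (X ∩ M) ∩ M = η ∩ M ∩ X := by
        ext e
        simp only [mem_inter]
        tauto
      rw [h1]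
    have f2 : IPC.Pr (1 - q) M (HC 0 ((a : ℤ) + 1) 0 ((b : ℤ) - 1)) =
        IPC.Pr (1 - q) M (fun η => HC 0 ((a : ℤ) + 1) 0 ((b : ℤ) - 1) (η ∩ M)) :=
      pq_congr fun η _ => hc_sides hb η
    have f3 : IPC.Pr (1 - q) X (HC 0 ((a : ℤ) + 1) 0 ((b : ℤ) - 1)) =
        IPC.Pr (1 - q) X (fun η => HC 0 ((a : ℤ) + 1) 0 ((b : ℤ) - 1) (η ∩ M)) :=
      pq_congr fun η _ => hc_sides hb η
    have f4 : IPC.Pr (1 - q) X (HC 0 ((a : ℤ) + 1) 0 ((b : ℤ) - 1)) = hq (1 - q) (a + 1) (b - 1) :=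
      pq_HC (1 - q) (a + 1) (b - 1) (by push_cast; ring) (by push_cast [Nat.cast_sub hb]; ring)
        (Finset.Subset.refl _)
    rw [f2, pq_dep (1 - q) (inter_subset_right (s₁ := X) (s₂ := M)) hdep,
      ← pq_dep (1 - q) (inter_subset_left (s₁ := X) (s₂ := M)) hdep, ← f3, f4]
  have e2 := pq_not q (FKP.box 0 (a : ℤ) 0 b) (VC 0 a 0 b)
  rw [e1] at e2
  linarith

/-- duality -/
theorem dualIn : DualIn := by
  intro q a b
  have h1 := dual_pr q (a := b) (b := a + 1) (by omega)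
  have h2 : IPC.Pr q (FKP.box 0 (b : ℤ) 0 ((a + 1 : ℕ) : ℤ)) (VC 0 (b : ℤ) 0 ((a + 1 : ℕ) : ℤ)) = hq q (a + 1) b :=
    pq_VC q b (a + 1) (by ring) (by ring) (Finset.Subset.refl _)
  rw [h2] at h1
  rw [h1, Nat.add_sub_cancel]

end FKN
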