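import Pool.Agent.Lib.MP_216314_pr.N.DDef
import Pool.Agent.Lib.MP_216314_pr.N.GD
import Pool.Agent.Lib.MP_216314_pr.N.NBase
import Pool.Agent.Lib.MP_216314_pr.P.PLong

/-!
# Stream E3: crossing bounds at `q = 1/2`

PROOFS. `hqc_half`: `pr_half` (NBase; `Pp` is an abbreviation of `IPC.Pr`) and the definitions `hq q a b = IPC.Pr q (box 0 a 0 b) (HC 0 a 0 b)`, `h a b = Pr (box 0 a 0 b) (HC 0 a 0 b)`.
`rb_half`: `FKP.rsw 3` (P/PLong) gives `c > 0` with `c ≤ h (6 r) (2 r)` for `r ≥ 1` (`6 r ≤ 3 (2 r)`); take `min c 1`; `1 - 1/2 = 1/2` (`norm_num`).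
`rsc_half`: `RS ε (1/2) N`: lower bound by `rsw 1`; upper bound: `dualIn` (N/GD; `DualIn : hq q (a + 1) b = 1 - hq (1 - q) (b + 1) a`) with `a + 1 = b = n`: `hq (1/2) n n = 1 - hq (1/2) (n + 1) (n - 1)`; if `n ≥ 2` then `h (n + 1) (n - 1) ≥ c` by `rsw 3`
(`n + 1 ≤ 3 (n - 1)`), if `n = 1` then `h 2 0 ≥ (1/2) ^ 2` (`h_line`, P/PExit). `ε` = the minimum of the constants.
-/

set_option autoImplicit false

noncomputable section

namespace FKN

open Finset FKI FKP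

theorem hqc_half (a b : ℕ) : hq (1 / 2) a b = h a b := by
  unfold hq h
  exact (pr_half _ _).symm

theorem rb_half : ∃ c : ℝ, 0 < c ∧ c ≤ 1 ∧ ∀ N : ℕ, RB c (1 / 2) N := by
  obtain ⟨c, hc, hcr⟩ := FKP.rsw 3
  refine ⟨min c 1, lt_min hc one_pos, min_le_right _ _, fun N r hr _ => ?_⟩
  have h1 : c ≤ h (6 * r) (2 * r) := hcr _ _ (by omega) (by omega)
  have h2 : (1 - 1 / 2 : ℝ) = 1 / 2 := by norm_num
  rw [h2, hqc_half]
  exact ⟨(min_le_left _ _).trans h1, (min_le_left _ _).trans h1⟩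

theorem rsc_half : ∃ ε : ℝ, 0 < ε ∧ ∀ N : ℕ, RS ε (1 / 2) N := by
  obtain ⟨c1, hc1, hcr1⟩ := FKP.rsw 1
  obtain ⟨c3, hc3, hcr3⟩ := FKP.rsw 3
  refine ⟨min c1 (min c3 ((1 / 2 : ℝ) ^ 2)), lt_min hc1 (lt_min hc3 (by positivity)), fun N n hn _ => ?_⟩
  have h2 : (1 - 1 / 2 : ℝ) = 1 / 2 := by norm_num
  constructor
  · rw [hqc_half]
    exact (min_le_left _ _).trans (hcr1 _ _ hn (by omega))
  · obtain ⟨a, rfl⟩ : ∃ a : ℕ, n = a + 1 := ⟨n - 1, by omega⟩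
    have hd := dualIn (1 / 2) a (a + 1)
    rw [h2, hqc_half (a + 1 + 1) a] at hd
    have hl : min c1 (min c3 ((1 / 2 : ℝ) ^ 2)) ≤ h (a + 1 + 1) a := by
      rcases Nat.eq_zero_or_pos a with ha | ha
      · subst ha
        exact (min_le_right _ _).trans ((min_le_right _ _).trans (h_line _ _))
      · exact (min_le_right _ _).trans ((min_le_left _ _).trans (hcr3 _ _ ha (by omega)))
    rw [hd]
    linarith

end FKN
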