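import Pool.Agent.Lib.MP_216314_pr.N.E3B

/-!
# Paths of the lifted graphs and the classes of the gaps

PROOFS. Every statement is an induction on the walk (`rintro ⟨p⟩`, as `ink_reach` in K/KEvt; `SimpleGraph.fromRel_adj` gives an edge `e` with `S e` whose ends are the two vertices, in one of the two orders); so it
is enough to prove the statement for the two ends `ea e`, `eb e` of one edge `e` with `S e` (make this a lemma in each of the four cases).
Primal edge `e`, `SP n ω e`: `red n e ∈ ω ⊆ cylE n m`, so `-(2 m) ≤ e.1 + e.2.1 < 2 m` (`mem_cylE`, `red_height`), as in `ink_edge` (K/KEvt): `e = (x, y, false)`: tile `(x - y, x + y)` (`te_false`), `DG` holds, the ends are the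
faces `(x - y, x + y)` and `(x - y + 1, x + y + 1)`; `e = (x, y, true)`: tile `(x - y - 1, x + y)` (`te_true`), `¬ DG`, the ends are the faces `(x - y, x + y)` and `(x - y - 1, x + y + 1)`.
Dual edge `f`, `SD n m ω f`: let `e = dl.symm f`, so `f = dl e`, `red n e ∉ ω`, `red n e ∈ cylE n m`: `e = (x, y, false)`: `f = (x, y - 1, true)`, ends the plaquettes `(x, y - 1)`, `(x, y)`, i.e. the faces `(x - y + 1, x + y)`, `(x - y, x + y + 1)`
of the tile `(x - y, x + y)`, `¬ DG` (the parity of the tile is even and `red n e ∉ ω`). `e = (x, y, true)`: `f = (x - 1, y, false)`, ends the plaquettes `(x - 1, y)`, `(x, y)`, i.e. the faces `(x - 1 - y, x + y)`, `(x - y, x + y + 1)` of the tile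
`(x - y - 1, x + y)` (`k = x - y - 1`), `DG` (odd parity and `red n e ∉ ω`).
Then `inf_diag`; its conditions on the cut faces `(k, r)` with `2 n ∣ k - 1`:
 * `path0P` (`r = 0`): vertices are faces with `k + y` even, a cut face has `y = 0` and `k` odd: never.
 * `path1D` (`r = 1`): plaquettes are faces with `k + y` odd, a cut face has `y = 1` and `k` odd: never.
 * `path0D` (`r = 0`, `cs = true`, `bc ∈ ω`): suppose that the tile `(k, y)` of the step touches a cut face `(1 + 2 n j, 0)` and `0 ≤ y`; then `y = 0`, and the tile is `(2 n j, 0)` or `(1 + 2 n j, 0)`. In the first case `e = te (2 n j) 0` and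
   `red n e = e0` (`te_shift`, `red_shift`, `te 0 0 = (0, 0, false)`, `red n (0,0,false) = (0,0,false)`), excluded by `SD`; in the second case `red n e = red n (te 1 0) = red n (1, -1, true) = bc` (`n ≥ 2`: `0 ≤ 2 < 2 n`), but `bc ∈ ω`.
   So `y < 0 = r`, as required (`cs = true ↔ y < r`).
 * `path1P` (`r = 1`, `cs = false`, `bc ∉ ω`): suppose that the tile `(k, y)` of the step touches a cut face `(1 + 2 n j, 1)` and `y < 1`; then `y = 0` and the tile is `(2 n j, 0)` (upper right corner) or `(1 + 2 n j, 0)` (upper left corner), so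
   `red n e = e0`, excluded by `SP`, or `red n e = bc ∉ ω`. So `¬ y < r`.
Helper lemmas: `red n (te (k + j * (2 * n)) y) = red n (te k y)`; `red n e0 = e0`; `red n bc = bc` for `n ≥ 2`.
-/

set_option autoImplicit false

noncomputable section

namespace CY

open Finset FKI FKP FKN

section

variable {n m r : ℕ} {α : Pat (2 * n)} {ω : Finset Edge} {u : Bool × ℤ} {cs : Bool}

private theorem E3C_walk {S : Edge → Prop} {P : FKI.V → Prop} (h : ∀ e, S e → (P (ea e) ↔ P (eb e))) {v w : FKI.V}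
    (hr : (lg S).Reachable v w) : P v ↔ P w := by
  obtain ⟨p⟩ := hr
  induction p with
  | nil => exact Iff.rfl
  | @cons a b c hab p ih =>
    refine Iff.trans ?_ ih
    unfold lg at hab
    rw [SimpleGraph.fromRel_adj] at hab
    obtain ⟨_, ⟨e, h1, h2, h3⟩ | ⟨e, h1, h2, h3⟩⟩ := hab
    · rw [← h2, ← h3]
      exact h e h1
    · rw [← h2, ← h3]
      exact (h e h1).symm

private theorem E3C_red0 (hn : 1 ≤ n) {x y : ℤ} (h1 : x + y = 0) (h2 : ((2 * n : ℕ) : ℤ) ∣ x - y) :
    red n (x, y, false) = e0 := by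
  obtain ⟨j, hj⟩ := h2
  have hj' : x - y = 2 * (j * n) := by
    rw [hj]
    push_cast
    ring
  have h3 := red_shift hn e0 j
  have e1 : (e0.1 + j * n, e0.2.1 - j * n, e0.2.2) = ((x, y, false) : Edge) := by
    unfold e0
    refine Prod.ext ?_ (Prod.ext ?_ rfl)
    · show 0 + j * (n : ℤ) = x
      linarith
    · show 0 - j * (n : ℤ) = y
      linarith
  rw [e1] at h3
  rw [h3]
  simp [red, e0]

private theorem E3C_redb (hn : 2 ≤ n) {x y : ℤ} (h1 : x + y = 0) (h2 : ((2 * n : ℕ) : ℤ) ∣ x - y - 2) :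
    red n (x, y, true) = bc := by
  obtain ⟨j, hj⟩ := h2
  have hj' : x - y - 2 = 2 * (j * n) := by
    rw [hj]
    push_cast
    ring
  have h3 := red_shift (n := n) (by omega) bc j
  have e1 : (bc.1 + j * n, bc.2.1 - j * n, bc.2.2) = ((x, y, true) : Edge) := by
    unfold bc
    refine Prod.ext ?_ (Prod.ext ?_ rfl)
    · show 1 + j * (n : ℤ) = x
      linarith
    · show -1 - j * (n : ℤ) = y
      linarith
  rw [e1] at h3
  rw [h3]
  have e2 : ((1 : ℤ) - -1) / (2 * n) = 0 := Int.ediv_eq_zero_of_lt (by norm_num) (by omega)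
  simp only [red, bc]
  rw [e2]
  simp

private theorem E3C_pe (hn : 1 ≤ n) (hr : r ≤ 2 * m) (hω : ω ⊆ cylE n m) (e : Edge) (he : red n e ∈ ω)
    (c1 : Cut n r ((ea e).1 - (ea e).2) ((ea e).1 + (ea e).2) → (cs = true ↔ e.1 + e.2.1 < r))
    (c2 : Cut n r ((eb e).1 - (eb e).2) ((eb e).1 + (eb e).2) → (cs = true ↔ e.1 + e.2.1 < r)) :
    InF n m r cs α ω u ((ea e).1 - (ea e).2) ((ea e).1 + (ea e).2) ↔
      InF n m r cs α ω u ((eb e).1 - (eb e).2) ((eb e).1 + (eb e).2) := by
  have hh := mem_cylE.1 (hω he)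
  rw [red_height] at hh
  obtain ⟨x, y, b⟩ := e
  cases b
  · obtain ⟨d1, _⟩ := inf_diag (α := α) (ω := ω) (u := u) (cs := cs) (r := r) (k := x - y) hn hr hh.2.2.1 hh.2.2.2
    have hd : DG n ω (x - y) (x + y) := by
      unfold DG
      rw [te_false]
      exact ⟨fun _ => he, fun _ => by omega⟩
    have e1 : x + 1 - y = x - y + 1 := by ring
    have e2 : x + 1 + y = x + y + 1 := by ring
    have c2' : Cut n r (x + 1 - y) (x + 1 + y) → (cs = true ↔ x + y < r) := c2
    rw [e1, e2] at c2'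
    have := d1 hd c1 c2'
    show InF n m r cs α ω u (x - y) (x + y) ↔ InF n m r cs α ω u (x + 1 - y) (x + 1 + y)
    rw [e1, e2]
    exact this
  · obtain ⟨_, d4⟩ := inf_diag (α := α) (ω := ω) (u := u) (cs := cs) (r := r) (k := x - y - 1) hn hr hh.2.2.1 hh.2.2.2
    have hd : ¬ DG n ω (x - y - 1) (x + y) := by
      unfold DG
      rw [te_true]
      intro hc
      have := hc.2 he
      omega
    have e1 : x - (y + 1) = x - y - 1 := by ring
    have e2 : x + (y + 1) = x + y + 1 := by ring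
    have e3 : x - y - 1 + 1 = x - y := by ring
    have c2' : Cut n r (x - (y + 1)) (x + (y + 1)) → (cs = true ↔ x + y < r) := c2
    rw [e1, e2] at c2'
    rw [e3] at d4
    have := d4 hd c2' c1
    show InF n m r cs α ω u (x - y) (x + y) ↔ InF n m r cs α ω u (x - (y + 1)) (x + (y + 1))
    rw [e1, e2]
    exact this.symm

private theorem E3C_de (hn : 1 ≤ n) (hr : r ≤ 2 * m) (e : Edge) (h1 : red n e ∈ cylE n m) (h2 : red n e ∉ ω)
    (c1 : Cut n r ((ea (dl e)).1 - (ea (dl e)).2) ((ea (dl e)).1 + (ea (dl e)).2 + 1) → (cs = true ↔ e.1 + e.2.1 < r))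
    (c2 : Cut n r ((eb (dl e)).1 - (eb (dl e)).2) ((eb (dl e)).1 + (eb (dl e)).2 + 1) → (cs = true ↔ e.1 + e.2.1 < r)) :
    InF n m r cs α ω u ((ea (dl e)).1 - (ea (dl e)).2) ((ea (dl e)).1 + (ea (dl e)).2 + 1) ↔
      InF n m r cs α ω u ((eb (dl e)).1 - (eb (dl e)).2) ((eb (dl e)).1 + (eb (dl e)).2 + 1) := by
  have hh := mem_cylE.1 h1
  rw [red_height] at hh
  obtain ⟨x, y, b⟩ := e
  cases b
  · obtain ⟨_, d4⟩ := inf_diag (α := α) (ω := ω) (u := u) (cs := cs) (r := r) (k := x - y) hn hr hh.2.2.1 hh.2.2.2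
    have hd : ¬ DG n ω (x - y) (x + y) := by
      unfold DG
      rw [te_false]
      intro hc
      exact h2 (hc.1 (by omega))
    have e1 : x - (y - 1) = x - y + 1 := by ring
    have e2 : x + (y - 1) + 1 = x + y := by ring
    have e3 : x - (y - 1 + 1) = x - y := by ring
    have e4 : x + (y - 1 + 1) + 1 = x + y + 1 := by ring
    have c1' : Cut n r (x - (y - 1)) (x + (y - 1) + 1) → (cs = true ↔ x + y < r) := c1
    have c2' : Cut n r (x - (y - 1 + 1)) (x + (y - 1 + 1) + 1) → (cs = true ↔ x + y < r) := c2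
    rw [e1, e2] at c1'
    rw [e3, e4] at c2'
    have := d4 hd c2' c1'
    show InF n m r cs α ω u (x - (y - 1)) (x + (y - 1) + 1) ↔ InF n m r cs α ω u (x - (y - 1 + 1)) (x + (y - 1 + 1) + 1)
    rw [e1, e2, e3, e4]
    exact this.symm
  · obtain ⟨d3, _⟩ := inf_diag (α := α) (ω := ω) (u := u) (cs := cs) (r := r) (k := x - y - 1) hn hr hh.2.2.1 hh.2.2.2
    have hd : DG n ω (x - y - 1) (x + y) := by
      unfold DG
      rw [te_true]
      exact ⟨fun hc => by omega, fun hc => absurd hc h2⟩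
    have e1 : x - 1 - y = x - y - 1 := by ring
    have e2 : x - 1 + y + 1 = x + y := by ring
    have e3 : x - 1 + 1 - y = x - y - 1 + 1 := by ring
    have e4 : x - 1 + 1 + y + 1 = x + y + 1 := by ring
    have c1' : Cut n r (x - 1 - y) (x - 1 + y + 1) → (cs = true ↔ x + y < r) := c1
    have c2' : Cut n r (x - 1 + 1 - y) (x - 1 + 1 + y + 1) → (cs = true ↔ x + y < r) := c2
    rw [e1, e2] at c1'
    rw [e3, e4] at c2'
    have := d3 hd c1' c2'
    show InF n m r cs α ω u (x - 1 - y) (x - 1 + y + 1) ↔ InF n m r cs α ω u (x - 1 + 1 - y) (x - 1 + 1 + y + 1)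
    rw [e1, e2, e3, e4]
    exact this

end

section

variable {n m : ℕ} {α : Pat (2 * n)} {ω : Finset Edge} {u : Bool × ℤ}

private theorem E3C_cut0 (v : FKI.V) : ¬ Cut n 0 (v.1 - v.2) (v.1 + v.2) := by
  rintro ⟨h1, j, hj⟩
  have hj' : v.1 - v.2 - 1 = 2 * (j * n) := by
    rw [hj]
    push_cast
    ring
  push_cast at h1
  generalize j * (n : ℤ) = a at hj'
  omega

private theorem E3C_cut1 (v : FKI.V) : ¬ Cut n 1 (v.1 - v.2) (v.1 + v.2 + 1) := by
  rintro ⟨h1, j, hj⟩
  have hj' : v.1 - v.2 - 1 = 2 * (j * n) := by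
    rw [hj]
    push_cast
    ring
  push_cast at h1
  generalize j * (n : ℤ) = a at hj'
  omega

theorem path0P (hn : 2 ≤ n) (hω : ω ⊆ cylE n m) {v w : FKI.V} (h : (lg (SP n ω)).Reachable v w) :
    InF n m 0 true α ω u (v.1 - v.2) (v.1 + v.2) ↔ InF n m 0 true α ω u (w.1 - w.2) (w.1 + w.2) := by
  refine E3C_walk (P := fun v => InF n m 0 true α ω u (v.1 - v.2) (v.1 + v.2)) (fun e he => ?_) h
  exact E3C_pe (by omega) (by omega) hω e he.1 (fun hc => absurd hc (E3C_cut0 _)) (fun hc => absurd hc (E3C_cut0 _))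

theorem path0D (hn : 2 ≤ n) (hbc : bc ∈ ω) {v w : FKI.V} (h : (lg (SD n m ω)).Reachable v w) :
    InF n m 0 true α ω u (v.1 - v.2) (v.1 + v.2 + 1) ↔ InF n m 0 true α ω u (w.1 - w.2) (w.1 + w.2 + 1) := by
  refine E3C_walk (P := fun v => InF n m 0 true α ω u (v.1 - v.2) (v.1 + v.2 + 1)) (fun f hf => ?_) h
  obtain ⟨e, rfl⟩ := dl.surjective f
  unfold SD at hf
  rw [Equiv.symm_apply_apply] at hf
  obtain ⟨h1, h2, h3⟩ := hf
  refine E3C_de (by omega) (by omega) e h1 h2 ?_ ?_
  · obtain ⟨x, y, b⟩ := e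
    cases b
    · intro hc
      have hc' : Cut n 0 (x - (y - 1)) (x + (y - 1) + 1) := hc
      obtain ⟨c1, c2⟩ := hc'
      push_cast at c1
      have e1 : x - (y - 1) - 1 = x - y := by ring
      rw [e1] at c2
      exact absurd (E3C_red0 (by omega) (by linarith) c2) h3
    · intro hc
      have hc' : Cut n 0 (x - 1 - y) (x - 1 + y + 1) := hc
      obtain ⟨c1, c2⟩ := hc'
      push_cast at c1
      have e1 : x - 1 - y - 1 = x - y - 2 := by ring
      rw [e1] at c2
      rw [E3C_redb hn (by linarith) c2] at h2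
      exact absurd hbc h2
  · obtain ⟨x, y, b⟩ := e
    cases b
    · intro hc
      have hc' : Cut n 0 (x - (y - 1 + 1)) (x + (y - 1 + 1) + 1) := hc
      have c1 := hc'.1
      push_cast at c1
      refine ⟨fun _ => ?_, fun _ => rfl⟩
      show x + y < ((0 : ℕ) : ℤ)
      push_cast
      linarith
    · intro hc
      have hc' : Cut n 0 (x - 1 + 1 - y) (x - 1 + 1 + y + 1) := hc
      have c1 := hc'.1
      push_cast at c1
      refine ⟨fun _ => ?_, fun _ => rfl⟩
      show x + y < ((0 : ℕ) : ℤ)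
      push_cast
      linarith

theorem path1P (hn : 2 ≤ n) (hm : 1 ≤ m) (hω : ω ⊆ cylE n m) (hbc : bc ∉ ω) {v w : FKI.V} (h : (lg (SP n ω)).Reachable v w) :
    InF n m 1 false α ω u (v.1 - v.2) (v.1 + v.2) ↔ InF n m 1 false α ω u (w.1 - w.2) (w.1 + w.2) := by
  refine E3C_walk (P := fun v => InF n m 1 false α ω u (v.1 - v.2) (v.1 + v.2)) (fun e he => ?_) h
  obtain ⟨h1, h3⟩ := he
  refine E3C_pe (by omega) (by omega) hω e h1 ?_ ?_
  · obtain ⟨x, y, b⟩ := e
    intro hc
    have hc' : Cut n 1 (x - y) (x + y) := hc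
    have c1 := hc'.1
    refine ⟨fun h => absurd h (by simp), fun h => ?_⟩
    have h' : x + y < ((1 : ℕ) : ℤ) := h
    omega
  · obtain ⟨x, y, b⟩ := e
    cases b
    · intro hc
      have hc' : Cut n 1 (x + 1 - y) (x + 1 + y) := hc
      obtain ⟨c1, c2⟩ := hc'
      push_cast at c1
      have e1 : x + 1 - y - 1 = x - y := by ring
      rw [e1] at c2
      exact absurd (E3C_red0 (by omega) (by linarith) c2) h3
    · intro hc
      have hc' : Cut n 1 (x - (y + 1)) (x + (y + 1)) := hc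
      obtain ⟨c1, c2⟩ := hc'
      push_cast at c1
      have e1 : x - (y + 1) - 1 = x - y - 2 := by ring
      rw [e1] at c2
      rw [E3C_redb hn (by linarith) c2] at h1
      exact absurd h1 hbc

theorem path1D (hn : 2 ≤ n) (hm : 1 ≤ m) {v w : FKI.V} (h : (lg (SD n m ω)).Reachable v w) :
    InF n m 1 false α ω u (v.1 - v.2) (v.1 + v.2 + 1) ↔ InF n m 1 false α ω u (w.1 - w.2) (w.1 + w.2 + 1) := by
  refine E3C_walk (P := fun v => InF n m 1 false α ω u (v.1 - v.2) (v.1 + v.2 + 1)) (fun f hf => ?_) h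
  obtain ⟨e, rfl⟩ := dl.surjective f
  unfold SD at hf
  rw [Equiv.symm_apply_apply] at hf
  obtain ⟨h1, h2, h3⟩ := hf
  exact E3C_de (by omega) (by omega) e h1 h2 (fun hc => absurd hc (E3C_cut1 _)) (fun hc => absurd hc (E3C_cut1 _))

end

end CY
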