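import Pool.Agent.Lib.MP_216314_pr.N.DGwA
import Pool.Agent.Lib.MP_216314_pr.N.NTa

/-!
# Stream D: rounded points

PROOFS.
`|round x - x| ≤ 1/2`. `ptR_norm`: `sq_norm`, both coordinates have absolute value at most `ρ + 1/2` and one of them is at least `ρ - 1/2`. `ptR_dist`: `|ρ g(θ) - ρ' g(θ')| ≤ |ρ - ρ'| |g(θ)| + ρ' |g(θ) - g(θ')|`
(`gw_abs`, `gw_lip`). `ptR_rad`: `nrm u - nrm v ≤ nrm (u - v)` and `ptR_norm`. `ptR_ang`: `|ρ g(θ) - ρ' g(θ')| ≥ ρ |g(θ) - g(θ')| - |ρ - ρ'|` and `sq_sep` (for `θ' ≥ θ` or `θ ≥ θ'`).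
-/

set_option autoImplicit false

noncomputable section

namespace FKN

open Finset FKI FKP

/-- the norm as a real number -/
theorem nrm_real (v : V) : ((nrm v : ℤ) : ℝ) = max |(v.1 : ℝ)| |(v.2 : ℝ)| := by
  unfold nrm
  push_cast
  rfl

theorem nrmD_tri (u v : V) : nrm (u + v) ≤ nrm u + nrm v := by
  unfold nrm
  simp only [Prod.fst_add, Prod.snd_add]
  exact max_le (le_trans (abs_add_le _ _) (add_le_add (le_max_left _ _) (le_max_left _ _)))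
    (le_trans (abs_add_le _ _) (add_le_add (le_max_right _ _) (le_max_right _ _)))

private theorem DGwB_rd (x y : ℝ) : |((round x : ℤ) : ℝ) - ((round y : ℤ) : ℝ)| ≤ |x - y| + 1 ∧
    |x - y| - 1 ≤ |((round x : ℤ) : ℝ) - ((round y : ℤ) : ℝ)| := by
  have h1 := abs_le.1 (abs_sub_round x)
  have h2 := abs_le.1 (abs_sub_round y)
  constructor
  · rw [abs_le]
    rcases abs_cases (x - y) with ⟨h3, h4⟩ | ⟨h3, h4⟩ <;> rw [h3] <;> constructor <;> linarith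
  · rcases abs_cases (x - y) with ⟨h3, h4⟩ | ⟨h3, h4⟩
    · rw [h3]
      refine le_trans ?_ (le_abs_self _)
      linarith
    · rw [h3]
      refine le_trans ?_ (neg_le_abs _)
      linarith

private theorem DGwB_nrm (ρ ρ' θ θ' : ℝ) : ((nrm (ptR ρ θ - ptR ρ' θ') : ℤ) : ℝ) =
    max |((round (ρ * gw θ) : ℤ) : ℝ) - ((round (ρ' * gw θ') : ℤ) : ℝ)|
      |((round (ρ * gw (θ - 2)) : ℤ) : ℝ) - ((round (ρ' * gw (θ' - 2)) : ℤ) : ℝ)| := by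
  rw [nrm_real]
  simp only [ptR, Prod.fst_sub, Prod.snd_sub]
  push_cast
  rfl

/-- norm of the rounded point -/
theorem ptR_norm {ρ θ : ℝ} (hρ : 0 ≤ ρ) : |((nrm (ptR ρ θ) : ℤ) : ℝ) - ρ| ≤ 1 / 2 := by
  have h1 : max |ρ * gw θ| |ρ * gw (θ - 2)| = ρ := by
    rw [abs_mul, abs_mul, abs_of_nonneg hρ, ← mul_max_of_nonneg _ _ hρ, sq_norm, mul_one]
  have h2 : ((nrm (ptR ρ θ) : ℤ) : ℝ) = max |((round (ρ * gw θ) : ℤ) : ℝ)| |((round (ρ * gw (θ - 2)) : ℤ) : ℝ)| := by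
    rw [nrm_real]
    rfl
  have h3 : |((nrm (ptR ρ θ) : ℤ) : ℝ) - ρ| =
      abs (max |((round (ρ * gw θ) : ℤ) : ℝ)| |((round (ρ * gw (θ - 2)) : ℤ) : ℝ)| - max |ρ * gw θ| |ρ * gw (θ - 2)|) := by
    rw [h1, h2]
  rw [h3]
  refine le_trans (abs_max_sub_max_le_max _ _ _ _) (max_le ?_ ?_)
  · refine le_trans (abs_abs_sub_abs_le_abs_sub _ _) ?_
    rw [abs_sub_comm]
    exact abs_sub_round _
  · refine le_trans (abs_abs_sub_abs_le_abs_sub _ _) ?_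
    rw [abs_sub_comm]
    exact abs_sub_round _

/-- upper bound of the distance of two rounded points -/
theorem ptR_dist {ρ ρ' θ θ' : ℝ} (hρ' : 0 ≤ ρ') :
    ((nrm (ptR ρ θ - ptR ρ' θ') : ℤ) : ℝ) ≤ |ρ - ρ'| + ρ' * |θ - θ'| + 1 := by
  have key : ∀ t t' : ℝ, |t - t'| = |θ - θ'| → |ρ * gw t - ρ' * gw t'| ≤ |ρ - ρ'| + ρ' * |θ - θ'| := by
    intro t t' ht
    have h1 : ρ * gw t - ρ' * gw t' = (ρ - ρ') * gw t + ρ' * (gw t - gw t') := by ring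
    rw [h1]
    refine le_trans (abs_add_le _ _) ?_
    rw [abs_mul, abs_mul, abs_of_nonneg hρ']
    refine add_le_add ?_ ?_
    · calc |ρ - ρ'| * |gw t| ≤ |ρ - ρ'| * 1 := mul_le_mul_of_nonneg_left (gw_abs t) (abs_nonneg _)
        _ = |ρ - ρ'| := mul_one _
    · rw [← ht]
      exact mul_le_mul_of_nonneg_left (gw_lip t t') hρ'
  rw [DGwB_nrm]
  refine max_le ?_ ?_
  · have h2 := (DGwB_rd (ρ * gw θ) (ρ' * gw θ')).1
    have h3 := key θ θ' rfl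
    linarith
  · have h2 := (DGwB_rd (ρ * gw (θ - 2)) (ρ' * gw (θ' - 2))).1
    have h3 := key (θ - 2) (θ' - 2) (by rw [sub_sub_sub_cancel_right])
    linarith

/-- lower bound: radial distance -/
theorem ptR_rad {ρ ρ' θ θ' : ℝ} (hρ : 0 ≤ ρ) (hρ' : 0 ≤ ρ') : |ρ - ρ'| - 1 ≤ ((nrm (ptR ρ θ - ptR ρ' θ') : ℤ) : ℝ) := by
  have h1 := abs_le.1 (ptR_norm (θ := θ) hρ)
  have h2 := abs_le.1 (ptR_norm (θ := θ') hρ')
  have h3 : nrm (ptR ρ θ) ≤ nrm (ptR ρ θ - ptR ρ' θ') + nrm (ptR ρ' θ') := by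
    have := nrmD_tri (ptR ρ θ - ptR ρ' θ') (ptR ρ' θ')
    rwa [sub_add_cancel] at this
  have h4 : nrm (ptR ρ' θ') ≤ nrm (ptR ρ θ - ptR ρ' θ') + nrm (ptR ρ θ) := by
    have := nrmD_tri (-(ptR ρ θ - ptR ρ' θ')) (ptR ρ θ)
    rw [nrm_neg, neg_sub, sub_add_cancel] at this
    exact this
  have h3' : ((nrm (ptR ρ θ) : ℤ) : ℝ) ≤ ((nrm (ptR ρ θ - ptR ρ' θ') : ℤ) : ℝ) + ((nrm (ptR ρ' θ') : ℤ) : ℝ) := by
    exact_mod_cast h3
  have h4' : ((nrm (ptR ρ' θ') : ℤ) : ℝ) ≤ ((nrm (ptR ρ θ - ptR ρ' θ') : ℤ) : ℝ) + ((nrm (ptR ρ θ) : ℤ) : ℝ) := by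
    exact_mod_cast h4
  rcases abs_cases (ρ - ρ') with ⟨h5, h6⟩ | ⟨h5, h6⟩ <;> rw [h5] <;> linarith [h1.1, h1.2, h2.1, h2.2]

/-- lower bound: angular distance -/
theorem ptR_ang {ρ ρ' θ θ' γ : ℝ} (hρ : 0 ≤ ρ) (h0 : 0 ≤ γ) (h1 : γ ≤ |θ' - θ|) (h2 : |θ' - θ| ≤ 8 - γ) :
    ρ * γ / 2 - |ρ - ρ'| - 1 ≤ ((nrm (ptR ρ θ - ptR ρ' θ') : ℤ) : ℝ) := by
  have hs : γ / 2 ≤ max |gw θ - gw θ'| |gw (θ - 2) - gw (θ' - 2)| := by
    rcases le_total θ θ' with h | h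
    · rw [abs_of_nonneg (sub_nonneg.2 h)] at h1 h2
      exact sq_sep h0 h1 h2
    · rw [abs_of_nonpos (sub_nonpos.2 h), neg_sub] at h1 h2
      have := sq_sep h0 h1 h2
      rwa [abs_sub_comm (gw θ') (gw θ), abs_sub_comm (gw (θ' - 2)) (gw (θ - 2))] at this
  have key : ∀ t t' : ℝ, ρ * |gw t - gw t'| - |ρ - ρ'| ≤ |ρ * gw t - ρ' * gw t'| := by
    intro t t'
    have e1 : ρ * (gw t - gw t') = (ρ * gw t - ρ' * gw t') + (-(ρ - ρ') * gw t') := by ring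
    have e2 : ρ * |gw t - gw t'| = |ρ * (gw t - gw t')| := by rw [abs_mul, abs_of_nonneg hρ]
    have e3 : |-(ρ - ρ') * gw t'| ≤ |ρ - ρ'| := by
      rw [abs_mul, abs_neg]
      calc |ρ - ρ'| * |gw t'| ≤ |ρ - ρ'| * 1 := mul_le_mul_of_nonneg_left (gw_abs t') (abs_nonneg _)
        _ = |ρ - ρ'| := mul_one _
    have e4 := abs_add_le (ρ * gw t - ρ' * gw t') (-(ρ - ρ') * gw t')
    rw [← e1, ← e2] at e4
    linarith
  rw [DGwB_nrm]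
  rcases le_total |gw θ - gw θ'| |gw (θ - 2) - gw (θ' - 2)| with h | h
  · rw [max_eq_right h] at hs
    refine le_trans ?_ (le_max_right _ _)
    have h3 := (DGwB_rd (ρ * gw (θ - 2)) (ρ' * gw (θ' - 2))).2
    have h4 := key (θ - 2) (θ' - 2)
    have h5 := mul_le_mul_of_nonneg_left hs hρ
    linarith
  · rw [max_eq_left h] at hs
    refine le_trans ?_ (le_max_left _ _)
    have h3 := (DGwB_rd (ρ * gw θ) (ρ' * gw θ')).2
    have h4 := key θ θ'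
    have h5 := mul_le_mul_of_nonneg_left hs hρ
    linarith

/-- rounding is exact on lattice points -/
theorem ptR_exact {ρ θ : ℝ} {a : V} (h : ((a.1 : ℝ), (a.2 : ℝ)) = (ρ * (sq θ).1, ρ * (sq θ).2)) : ptR ρ θ = a := by
  obtain ⟨h1, h2⟩ := Prod.mk.inj h
  have h3 : ρ * gw θ = (a.1 : ℝ) := h1.symm
  have h4 : ρ * gw (θ - 2) = (a.2 : ℝ) := h2.symm
  unfold ptR
  rw [h3, h4, round_intCast, round_intCast]

theorem ptR_per (ρ θ : ℝ) (z : ℤ) : ptR ρ (θ + 8 * z) = ptR ρ θ := by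
  unfold ptR
  have h : θ + 8 * (z : ℝ) - 2 = (θ - 2) + 8 * (z : ℝ) := by ring
  rw [h, gw_per, gw_per]

end FKN
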