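import Pool.Agent.Lib.MP_216314_pr.N.DCvA
import Pool.Agent.Lib.MP_216314_pr.N.DPkA

/-!
# Stream D: from balls on the boundary of a square to the canonical circuits (outwards to scale `3 n`, inwards to scale `n / 3`)

PROOFS.
GEO_OUT. Let `CycR` give `θo`, `θd` (gaps `g = 30000 r / n`), `z` from `th_lift`, `c i = cv n (3 n) (θo i) (thO l i + 8 z) T`, `d i = cv n (3 n) (θd i) (thD l i + 8 z) T`, `T = 100 k`, `r' = rr l (3 n)`; `Lo = Lc c T r r'`, `Ld = Lc d T r r'`, `M = l (T + 2)`.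
Since `n ≥ 7500 l r`: `r' ≥ 225 r` and `r' ≤ 3 n / (100 l)`. Steps (`cv_step`, `ρM = 3 n`): `49 * 3 n + T ≤ 294 k r + 100 k r ≤ 4 r T`. (`k ≥ 1` since `n ≥ 1`.)
Disjointness (`pack_disj`): two curves of different colours are in cyclic order with gaps at least `γ = min (30000 r / n, 4 / l) = 30000 r / n` at both ends (`th_gap`; for the pairs with
`j < i` exchange the roles and use the symmetry of `nrm`; `γ ≤ 4 / l` since `n ≥ 7500 l r`), so `cv_sep` (`ρm = n`, `ρM = 3 n`) gives distance at least `30000 r / 148 - 2 ≥ 200 r ≥ 6 r + 2`;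
`cv_sep_end` with `D = 3 r + 3 r' + 4` (`2 D ≤ 2 n`, `ρ1 γ / 2 = 6 n / l ≥ 2 D` with `γ = 4 / l`) gives the conditions for the big circuits.
Links: `pack_near` with `c i 0 = zo i` (`cv_zero`), `c i T = cO l (3 n) i` (`cv_last`, `ptR_per`), `3 r' + 3 r ≤ 2 n - 1`.
`start_o`: if `e ∈ RN Lo` is in `bx n` it is near the chain (the big circuits are outside `bx n`), within `3 r` of `c i j`; so `crad j ≤ n + 3 r + 1/2` (`+1` for the dual) and by `cv_lin` (with `j' = 0`) `nrm (c i j - zo i) ≤ 73 (3 r + 3/2) + 1`; with `r ≥ 2`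
`e` is within `300 r - 1` of `zo i`; `bxa_of_near`. (An edge `e` of `bx n` has `nrm (e.1, e.2.1) ≤ n`; conversely `bxa_of_near` with `a = 0`.)
`far_o`: `nrm (e.1, e.2.1) ≥ n - 1/2 - 3 r - 1 > n / 2`.
`fin_o`: if `e` is within `3 r` of `c i j` and not in `bx (3 n - 5 r')` then `Δ = 3 n - crad j ≤ 5 r' + 3 r + 3`, `2 Δ ≤ 2 n`, `cv_end` gives `nrm (c i j - cO l (3 n) i) ≤ Δ + 1`, total `≤ 5 r' + 6 r + 5 ≤ 10 r' - 1`. The big circuit: `3 r' + 1 ≤ 10 r' - 1`.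
GEO_INN. The same with `c i = cv n (n / 3) ...` (natural division `n / 3`, cast to the reals), `r' = rr l (n / 3)`, `25 r ≤ r' ≤ n / (300 l)`; `ρM = n ≤ 3/2 |n - n/3|`, `ρm = n / 3`, distances `≥ (n / 3) (30000 r / n) / 148 - 2 ≥ 60 r`, `D = 3 r + 3 r' + 4`, `2 D ≤ 2 n / 3`, `ρ1 γ / 2 = 2 (n / 3) / l ≥ 2 D`.
`start`: `e ∉ bx n` gives `nrm (e.1, e.2.1) ≥ n`, so `crad j ≥ n - 3 r - 3/2`.
You may split the file: deliver `geo_out` and `geo_inn` in one file (auxiliary lemmas allowed).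
-/

set_option autoImplicit false

noncomputable section

namespace FKN

open Finset FKI FKP

/-- the geometric data of an extension from the points `zo`, `zd` on the boundary of `[-n,n]²` to the canonical circuits at scale `n'` -/
structure GeoD {l : ℕ} (M n r n' : ℕ) (zo zd : Fin l → V) (Lo Ld : Finset (V × ℤ)) : Prop where
  card_o : Lo.card ≤ M
  card_d : Ld.card ≤ M
  rad_o : ∀ p ∈ Lo, 1 ≤ p.2 ∧ p.2 ≤ n
  rad_d : ∀ p ∈ Ld, 1 ≤ p.2 ∧ p.2 ≤ n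
  disj : Disjoint (RN Lo) (ud (RN Ld))
  link_o : ∀ (η : Finset Edge) (i : Fin l) (s v : V), Rings Lo η → nrm (v - zo i) ≤ r → 3 * r ≤ nrm (s - zo i) →
    (gr η).Reachable s v → ∃ v', RP (cO l n' i) (rr l n') η v' ∧ (gr η).Reachable s v'
  link_d : ∀ (η : Finset Edge) (i : Fin l) (s v : V), Rings Ld η → nrm (v - zd i) ≤ r → 3 * r ≤ nrm (s - zd i) →
    (gr η).Reachable s v → ∃ v', RP (cD l n' i) (rr l n') η v' ∧ (gr η).Reachable s v'

/-- outward extension: the family, its position with respect to `[-n,n]²` and to the core of the canonical state -/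
structure GeoOut {l : ℕ} (M n r : ℕ) (zo zd : Fin l → V) (Lo Ld : Finset (V × ℤ)) : Prop extends
    GeoD M n r (3 * n) zo zd Lo Ld where
  start_o : ∀ e ∈ RN Lo, e ∈ bx n → e ∈ bxs zo (300 * r)
  start_d : ∀ e ∈ ud (RN Ld), e ∈ bx n → e ∈ bxs zd (300 * r)
  far_o : Disjoint (RN Lo) (bx (n / 2))
  far_d : Disjoint (ud (RN Ld)) (bx (n / 2))
  fin_o : RN Lo ⊆ bx (3 * n - 5 * rr l (3 * n)) ∪ bxs (cO l (3 * n)) (10 * rr l (3 * n))
  fin_d : ud (RN Ld) ⊆ bx (3 * n - 5 * rr l (3 * n)) ∪ ud (bxs (cD l (3 * n)) (10 * rr l (3 * n)))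

/-- inward extension -/
structure GeoInn {l : ℕ} (M n r : ℕ) (zo zd : Fin l → V) (Lo Ld : Finset (V × ℤ)) : Prop extends
    GeoD M n r (n / 3) zo zd Lo Ld where
  start_o : ∀ e ∈ RN Lo, e ∉ bx n → e ∈ bxs zo (300 * r)
  start_d : ∀ e ∈ ud (RN Ld), e ∉ bx n → e ∈ bxs zd (300 * r)
  far_o : RN Lo ⊆ bx (2 * n)
  far_d : ud (RN Ld) ⊆ bx (2 * n)
  fin_o : ∀ e ∈ RN Lo, e ∉ bx (n / 3 + 5 * rr l (n / 3)) ∨ e ∈ bxs (cO l (n / 3)) (10 * rr l (n / 3))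
  fin_d : ∀ e ∈ ud (RN Ld), e ∉ bx (n / 3 + 5 * rr l (n / 3)) ∨ e ∈ ud (bxs (cD l (n / 3)) (10 * rr l (n / 3)))

private theorem DCvB_comm (u v : V) : nrm (u - v) = nrm (v - u) := by
  rw [← nrm_neg, neg_sub]

private theorem DCvB_t1 (u v : V) : nrm u ≤ nrm (u - v) + nrm v := by
  have h := nrmD_tri (u - v) v
  rwa [sub_add_cancel] at h

private theorem DCvB_t2 (u v : V) : nrm v ≤ nrm (u - v) + nrm u := by
  have h := nrmD_tri (v - u) u
  rw [sub_add_cancel, DCvB_comm v u] at h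
  exact h

private theorem DCvB_t3 (u v w : V) : nrm (u - w) ≤ nrm (u - v) + nrm (v - w) := by
  have h := nrmD_tri (u - v) (v - w)
  rwa [sub_add_sub_cancel] at h

private theorem DCvB_crad0 (ρ0 ρ1 : ℝ) (T : ℕ) : crad ρ0 ρ1 T 0 = ρ0 := by
  unfold crad
  simp

/-- the data of the curves of one colour -/
private structure DCvB_F {l : ℕ} (n N T r : ℕ) (z w : Fin l → V) (c : Fin l → ℕ → V) : Prop where
  h0 : ∀ i, c i 0 = z i
  hT : ∀ i, c i T = w i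
  step : ∀ i, ∀ j < T, nrm (c i (j + 1) - c i j) ≤ 4 * r
  norm : ∀ i, ∀ j ≤ T, |((nrm (c i j) : ℤ) : ℝ) - crad n N T j| ≤ 1 / 2
  lin : ∀ i, ∀ j ≤ T, ((nrm (c i j - z i) : ℤ) : ℝ) ≤ 73 * |crad n N T j - n| + 1
  fin : ∀ i, ∀ j ≤ T, 2 * |crad n N T j - N| ≤ |(N : ℝ) - n| →
    ((nrm (c i j - w i) : ℤ) : ℝ) ≤ |crad n N T j - N| + 1

private theorem DCvB_mk {l n N T r : ℕ} {ρM : ℝ} (hT : 0 < T) (hM : 49 * ρM + T ≤ 4 * r * T) (h0M : (n : ℝ) ≤ ρM)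
    (h1M : (N : ℝ) ≤ ρM) (hM2 : ρM ≤ 3 / 2 * |(N : ℝ) - n|) (hne : (n : ℝ) ≠ N) {z w : Fin l → V} {θ τ : Fin l → ℝ}
    (hz : ∀ i, (((z i).1 : ℝ), ((z i).2 : ℝ)) = ((n : ℝ) * (sq (θ i)).1, (n : ℝ) * (sq (θ i)).2))
    (hw : ∀ i, ptR N (τ i) = w i) (hτ : ∀ i, |τ i - θ i| ≤ 24) :
    DCvB_F n N T r z w (fun i j => cv n N (θ i) (τ i) T j) := by
  have hn0 : (0 : ℝ) ≤ n := Nat.cast_nonneg n
  have hN0 : (0 : ℝ) ≤ N := Nat.cast_nonneg N
  have e0 : ∀ i, cv n N (θ i) (τ i) T 0 = z i := fun i => cv_zero (hz i)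
  refine ⟨e0, fun i => ?_, fun i j hj => ?_, fun i j hj => ?_, fun i j hj => ?_, fun i j hj hD => ?_⟩
  · show cv n N (θ i) (τ i) T T = w i
    rw [cv_last hT]
    exact hw i
  · exact cv_step (r := (r : ℤ)) hT hj hn0 hN0 h0M h1M (hτ i) (by push_cast; exact hM)
  · exact cv_norm hT hj hn0 hN0
  · have h := cv_lin (j := j) (j' := 0) hT hj (Nat.zero_le _) hn0 hN0 h0M h1M hM2 (hτ i)
    rw [e0 i, DCvB_crad0] at h
    exact h
  · have h := cv_end (θ := θ i) (τ := τ i) hT hj hn0 hN0 hne hD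
    rw [hw i] at h
    exact h

private theorem DCvB_link {l n N T r : ℕ} {z w : Fin l → V} {c : Fin l → ℕ → V} (F : DCvB_F n N T r z w c) {r' : ℕ}
    (hrr : 3 * r ≤ r') (hgap : 3 * (r' : ℝ) + 3 * r + 2 ≤ |(N : ℝ) - n|) (hTp : 0 < T)
    (η : Finset Edge) (i : Fin l) (s v : V) (hη : Rings (Lc c T r r') η) (hv : nrm (v - z i) ≤ r)
    (hs : 3 * r ≤ nrm (s - z i)) (hc : (gr η).Reachable s v) :
    ∃ v', RP (w i) r' η v' ∧ (gr η).Reachable s v' := by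
  have h5 : ∀ i, 3 * (r' : ℤ) + 3 * r ≤ nrm (c i 0 - c i T) := by
    intro i
    have a0 := F.norm i 0 (Nat.zero_le _)
    have aT := F.norm i T le_rfl
    rw [DCvB_crad0] at a0
    have e1 : crad (n : ℝ) N T T = N := by
      unfold crad
      have : (T : ℝ) ≠ 0 := by exact_mod_cast hTp.ne'
      field_simp
      ring
    rw [e1] at aT
    have t1 : ((nrm (c i 0) : ℤ) : ℝ) ≤ ((nrm (c i 0 - c i T) : ℤ) : ℝ) + ((nrm (c i T) : ℤ) : ℝ) := by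
      exact_mod_cast DCvB_t1 (c i 0) (c i T)
    have t2 : ((nrm (c i T) : ℤ) : ℝ) ≤ ((nrm (c i 0 - c i T) : ℤ) : ℝ) + ((nrm (c i 0) : ℤ) : ℝ) := by
      exact_mod_cast DCvB_t2 (c i 0) (c i T)
    rw [abs_le] at a0 aT
    have h : |(N : ℝ) - n| ≤ ((nrm (c i 0 - c i T) : ℤ) : ℝ) + 1 := by
      rw [abs_le]
      constructor <;> linarith [a0.1, a0.2, aT.1, aT.2]
    have h' : ((3 * (r' : ℤ) + 3 * r : ℤ) : ℝ) ≤ ((nrm (c i 0 - c i T) : ℤ) : ℝ) := by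
      push_cast
      linarith
    exact_mod_cast h'
  have hp := pack_near (c := c) (T := T) (r := (r : ℤ)) (r' := (r' : ℤ)) (by positivity) (by exact_mod_cast hrr)
    F.step h5 hη i (s := s) (v := v) (by rw [F.h0]; exact hv) (by rw [F.h0]; exact hs) hc
  rw [F.hT] at hp
  exact hp

private theorem DCvB_bx (m : ℕ) : bx m = bxa 0 (m : ℤ) := by
  unfold bx bxa
  rw [Prod.fst_zero, Prod.snd_zero, zero_sub, zero_add]

private theorem DCvB_bx_near {m : ℕ} {e : Edge} (he : e ∈ bx m) : nrm (e.1, e.2.1) ≤ m := by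
  rw [DCvB_bx] at he
  have h := bxa_near he
  rwa [sub_zero] at h

private theorem DCvB_bx_of {m : ℕ} {e : Edge} (he : nrm (e.1, e.2.1) + 1 ≤ m) : e ∈ bx m := by
  rw [DCvB_bx]
  refine (bxa_of_near ?_).1
  rw [sub_zero]
  linarith

private theorem DCvB_mem {l : ℕ} {c : Fin l → ℕ → V} {T : ℕ} {r r' : ℤ} {e : Edge} (he : e ∈ RN (Lc c T r r')) :
    (∃ i, ∃ j ≤ T, nrm ((e.1, e.2.1) - c i j) ≤ 3 * r + 1) ∨ ∃ i, nrm ((e.1, e.2.1) - c i T) ≤ 3 * r' + 1 := by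
  rw [mem_RN_Lc] at he
  rcases he with ⟨i, j, hj, h⟩ | ⟨i, h⟩
  · exact Or.inl ⟨i, j, hj, by have := bxa_near h; linarith⟩
  · exact Or.inr ⟨i, by have := bxa_near h; linarith⟩

private theorem DCvB_mem_ud {l : ℕ} {c : Fin l → ℕ → V} {T : ℕ} {r r' : ℤ} {e : Edge} (he : e ∈ ud (RN (Lc c T r r'))) :
    (∃ i, ∃ j ≤ T, nrm ((e.1, e.2.1) - c i j) ≤ 3 * r + 1) ∨ ∃ i, nrm ((e.1, e.2.1) - c i T) ≤ 3 * r' + 1 := by
  rw [mem_ud, mem_RN_Lc] at he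
  rcases he with ⟨i, j, hj, h⟩ | ⟨i, h⟩
  · exact Or.inl ⟨i, j, hj, ud_bxa_near (mem_ud.2 h)⟩
  · exact Or.inr ⟨i, ud_bxa_near (mem_ud.2 h)⟩

private theorem DCvB_bxs {l : ℕ} {a : Fin l → V} {w : ℤ} {e : Edge} (i : Fin l)
    (h : nrm ((e.1, e.2.1) - a i) ≤ w - 1) : e ∈ bxs a w ∧ e ∈ ud (bxs a w) := by
  have h2 := bxa_of_near h
  have hs : bxa (a i) w ⊆ bxs a w := by
    unfold bxs
    exact Finset.subset_biUnion_of_mem (fun i => bxa (a i) w) (Finset.mem_univ i)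
  exact ⟨hs h2.1, ud_mono hs h2.2⟩

/-- outwards, small circuits -/
private theorem DCvB_out {l n T r r' : ℕ} {z w : Fin l → V} {c : Fin l → ℕ → V} (F : DCvB_F n (3 * n) T r z w c)
    (hTp : 0 < T) (hr2 : 2 ≤ r) (hn : 7500 * r ≤ n) (h1 : 225 * r ≤ r') (h2 : 100 * r' ≤ 3 * n) {p : V} {i : Fin l} {j : ℕ}
    (hj : j ≤ T) (hp : nrm (p - c i j) ≤ 3 * r + 1) :
    (nrm p ≤ n → nrm (p - z i) ≤ 300 * r - 1) ∧ (n : ℤ) < 2 * nrm p ∧
      (nrm p + 1 ≤ 3 * n - 5 * r' ∨ nrm (p - w i) ≤ 10 * r' - 1) := by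
  have a1 := F.norm i j hj
  have a2 := F.lin i j hj
  have a3 := F.fin i j hj
  have a4 := crad_mem (ρ0 := (n : ℝ)) (ρ1 := ((3 * n : ℕ) : ℝ)) hTp hj
  have hn0 : (0 : ℝ) ≤ n := Nat.cast_nonneg n
  have hle : (n : ℝ) ≤ ((3 * n : ℕ) : ℝ) := by push_cast; linarith
  rw [min_eq_left hle, max_eq_right hle] at a4
  set ρ := crad (n : ℝ) ((3 * n : ℕ) : ℝ) T j with hρ
  push_cast at a3 a4
  rw [abs_of_nonneg (by linarith [a4.1] : 0 ≤ ρ - (n : ℝ))] at a2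
  rw [abs_of_nonpos (by linarith [a4.2] : ρ - 3 * (n : ℝ) ≤ 0), abs_of_nonneg (by linarith : 0 ≤ 3 * (n : ℝ) - n)] at a3
  rw [abs_le] at a1
  have t1 : ((nrm p : ℤ) : ℝ) ≤ ((nrm (p - c i j) : ℤ) : ℝ) + ((nrm (c i j) : ℤ) : ℝ) := by
    exact_mod_cast DCvB_t1 p (c i j)
  have t2 : ((nrm (c i j) : ℤ) : ℝ) ≤ ((nrm (p - c i j) : ℤ) : ℝ) + ((nrm p : ℤ) : ℝ) := by
    exact_mod_cast DCvB_t2 p (c i j)
  have t3 : ((nrm (p - z i) : ℤ) : ℝ) ≤ ((nrm (p - c i j) : ℤ) : ℝ) + ((nrm (c i j - z i) : ℤ) : ℝ) := by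
    exact_mod_cast DCvB_t3 p (c i j) (z i)
  have t4 : ((nrm (p - w i) : ℤ) : ℝ) ≤ ((nrm (p - c i j) : ℤ) : ℝ) + ((nrm (c i j - w i) : ℤ) : ℝ) := by
    exact_mod_cast DCvB_t3 p (c i j) (w i)
  have hp' : ((nrm (p - c i j) : ℤ) : ℝ) ≤ 3 * r + 1 := by exact_mod_cast hp
  have hr' : (2 : ℝ) ≤ r := by exact_mod_cast hr2
  have hn' : 7500 * (r : ℝ) ≤ n := by exact_mod_cast hn
  have h1' : 225 * (r : ℝ) ≤ r' := by exact_mod_cast h1
  have h2' : 100 * (r' : ℝ) ≤ 3 * n := by exact_mod_cast h2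
  refine ⟨fun hpn => ?_, ?_, ?_⟩
  · have hpn' : ((nrm p : ℤ) : ℝ) ≤ n := by exact_mod_cast hpn
    have : ((nrm (p - z i) : ℤ) : ℝ) ≤ ((300 * r - 1 : ℤ) : ℝ) := by
      push_cast
      linarith [a1.1, a1.2]
    exact_mod_cast this
  · have : (n : ℝ) < ((2 * nrm p : ℤ) : ℝ) := by
      push_cast
      linarith [a1.1, a1.2, a4.1]
    exact_mod_cast this
  · rcases le_total ρ (3 * (n : ℝ) - 5 * r' - 3 * r - 3) with hc | hc
    · left
      have : ((nrm p + 1 : ℤ) : ℝ) ≤ ((3 * n - 5 * r' : ℤ) : ℝ) := by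
        push_cast
        linarith [a1.1, a1.2]
      exact_mod_cast this
    · right
      have h5 := a3 (by linarith)
      have : ((nrm (p - w i) : ℤ) : ℝ) ≤ ((10 * r' - 1 : ℤ) : ℝ) := by
        push_cast
        linarith [a1.1, a1.2]
      exact_mod_cast this

/-- outwards, big circuits -/
private theorem DCvB_outB {l n T r r' : ℕ} {z w : Fin l → V} {c : Fin l → ℕ → V} (F : DCvB_F n (3 * n) T r z w c)
    (hTp : 0 < T) (hr2 : 2 ≤ r) (hn : 7500 * r ≤ n) (h1 : 225 * r ≤ r') (h2 : 100 * r' ≤ 3 * n) {p : V} {i : Fin l}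
    (hp : nrm (p - c i T) ≤ 3 * r' + 1) :
    (n : ℤ) < nrm p ∧ nrm (p - w i) ≤ 10 * r' - 1 := by
  have a1 := F.norm i T le_rfl
  have e1 : crad (n : ℝ) ((3 * n : ℕ) : ℝ) T T = ((3 * n : ℕ) : ℝ) := by
    unfold crad
    have : (T : ℝ) ≠ 0 := by exact_mod_cast hTp.ne'
    field_simp
    ring
  rw [e1, abs_le] at a1
  push_cast at a1
  have t2 : ((nrm (c i T) : ℤ) : ℝ) ≤ ((nrm (p - c i T) : ℤ) : ℝ) + ((nrm p : ℤ) : ℝ) := by
    exact_mod_cast DCvB_t2 p (c i T)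
  have hp' : ((nrm (p - c i T) : ℤ) : ℝ) ≤ 3 * r' + 1 := by exact_mod_cast hp
  have hr' : (2 : ℝ) ≤ r := by exact_mod_cast hr2
  have hn' : 7500 * (r : ℝ) ≤ n := by exact_mod_cast hn
  have h1' : 225 * (r : ℝ) ≤ r' := by exact_mod_cast h1
  have h2' : 100 * (r' : ℝ) ≤ 3 * n := by exact_mod_cast h2
  constructor
  · have : (n : ℝ) < ((nrm p : ℤ) : ℝ) := by linarith [a1.1, a1.2]
    exact_mod_cast this
  · rw [← F.hT i]
    linarith

/-- inwards, small circuits -/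
private theorem DCvB_inn {l n N T r r' : ℕ} {z w : Fin l → V} {c : Fin l → ℕ → V} (F : DCvB_F n N T r z w c)
    (hTp : 0 < T) (hN1 : 3 * N ≤ n) (hr2 : 2 ≤ r) (hn : 7500 * r ≤ n) (h1 : 25 * r ≤ r') (h2 : 100 * r' ≤ N) {p : V} {i : Fin l} {j : ℕ}
    (hj : j ≤ T) (hp : nrm (p - c i j) ≤ 3 * r + 1) :
    ((n : ℤ) ≤ nrm p → nrm (p - z i) ≤ 300 * r - 1) ∧ nrm p + 1 ≤ 2 * n ∧
      ((N : ℤ) + 5 * r' < nrm p ∨ nrm (p - w i) ≤ 10 * r' - 1) := by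
  have a1 := F.norm i j hj
  have a2 := F.lin i j hj
  have a3 := F.fin i j hj
  have a4 := crad_mem (ρ0 := (n : ℝ)) (ρ1 := (N : ℝ)) hTp hj
  have hn0 : (0 : ℝ) ≤ n := Nat.cast_nonneg n
  have hN0 : (0 : ℝ) ≤ N := Nat.cast_nonneg N
  have hN1' : 3 * (N : ℝ) ≤ n := by exact_mod_cast hN1
  have hle : (N : ℝ) ≤ n := by linarith
  rw [min_eq_right hle, max_eq_left hle] at a4
  set ρ := crad (n : ℝ) (N : ℝ) T j with hρ
  rw [abs_of_nonpos (by linarith [a4.2] : ρ - (n : ℝ) ≤ 0)] at a2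
  rw [abs_of_nonneg (by linarith [a4.1] : 0 ≤ ρ - (N : ℝ)), abs_of_nonpos (by linarith : (N : ℝ) - n ≤ 0)] at a3
  rw [abs_le] at a1
  have t1 : ((nrm p : ℤ) : ℝ) ≤ ((nrm (p - c i j) : ℤ) : ℝ) + ((nrm (c i j) : ℤ) : ℝ) := by
    exact_mod_cast DCvB_t1 p (c i j)
  have t2 : ((nrm (c i j) : ℤ) : ℝ) ≤ ((nrm (p - c i j) : ℤ) : ℝ) + ((nrm p : ℤ) : ℝ) := by
    exact_mod_cast DCvB_t2 p (c i j)
  have t3 : ((nrm (p - z i) : ℤ) : ℝ) ≤ ((nrm (p - c i j) : ℤ) : ℝ) + ((nrm (c i j - z i) : ℤ) : ℝ) := by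
    exact_mod_cast DCvB_t3 p (c i j) (z i)
  have t4 : ((nrm (p - w i) : ℤ) : ℝ) ≤ ((nrm (p - c i j) : ℤ) : ℝ) + ((nrm (c i j - w i) : ℤ) : ℝ) := by
    exact_mod_cast DCvB_t3 p (c i j) (w i)
  have hp' : ((nrm (p - c i j) : ℤ) : ℝ) ≤ 3 * r + 1 := by exact_mod_cast hp
  have hr' : (2 : ℝ) ≤ r := by exact_mod_cast hr2
  have hn' : 7500 * (r : ℝ) ≤ n := by exact_mod_cast hn
  have h1' : 25 * (r : ℝ) ≤ r' := by exact_mod_cast h1
  have h2' : 100 * (r' : ℝ) ≤ N := by exact_mod_cast h2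
  refine ⟨fun hpn => ?_, ?_, ?_⟩
  · have hpn' : (n : ℝ) ≤ ((nrm p : ℤ) : ℝ) := by exact_mod_cast hpn
    have : ((nrm (p - z i) : ℤ) : ℝ) ≤ ((300 * r - 1 : ℤ) : ℝ) := by
      push_cast
      linarith [a1.1, a1.2]
    exact_mod_cast this
  · have : ((nrm p + 1 : ℤ) : ℝ) ≤ ((2 * n : ℤ) : ℝ) := by
      push_cast
      linarith [a1.1, a1.2, a4.1, a4.2]
    exact_mod_cast this
  · rcases le_total ((N : ℝ) + 5 * r' + 3 * r + 3) ρ with hc | hc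
    · left
      have : (((N : ℤ) + 5 * r' : ℤ) : ℝ) < ((nrm p : ℤ) : ℝ) := by
        push_cast
        linarith [a1.1, a1.2]
      exact_mod_cast this
    · right
      have h5 := a3 (by linarith)
      have : ((nrm (p - w i) : ℤ) : ℝ) ≤ ((10 * r' - 1 : ℤ) : ℝ) := by
        push_cast
        linarith [a1.1, a1.2]
      exact_mod_cast this

/-- inwards, big circuits -/
private theorem DCvB_innB {l n N T r r' : ℕ} {z w : Fin l → V} {c : Fin l → ℕ → V} (F : DCvB_F n N T r z w c)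
    (hTp : 0 < T) (hN1 : 3 * N ≤ n) (hr2 : 2 ≤ r) (hn : 7500 * r ≤ n) (h1 : 25 * r ≤ r') (h2 : 100 * r' ≤ N) {p : V} {i : Fin l}
    (hp : nrm (p - c i T) ≤ 3 * r' + 1) :
    nrm p < n ∧ nrm (p - w i) ≤ 10 * r' - 1 := by
  have a1 := F.norm i T le_rfl
  have e1 : crad (n : ℝ) (N : ℝ) T T = N := by
    unfold crad
    have : (T : ℝ) ≠ 0 := by exact_mod_cast hTp.ne'
    field_simp
    ring
  rw [e1, abs_le] at a1
  have hN1' : 3 * (N : ℝ) ≤ n := by exact_mod_cast hN1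
  have t2 : ((nrm p : ℤ) : ℝ) ≤ ((nrm (p - c i T) : ℤ) : ℝ) + ((nrm (c i T) : ℤ) : ℝ) := by
    exact_mod_cast DCvB_t1 p (c i T)
  have hp' : ((nrm (p - c i T) : ℤ) : ℝ) ≤ 3 * r' + 1 := by exact_mod_cast hp
  have hr' : (2 : ℝ) ≤ r := by exact_mod_cast hr2
  have hn' : 7500 * (r : ℝ) ≤ n := by exact_mod_cast hn
  have h1' : 25 * (r : ℝ) ≤ r' := by exact_mod_cast h1
  have h2' : 100 * (r' : ℝ) ≤ N := by exact_mod_cast h2
  constructor
  · have : ((nrm p : ℤ) : ℝ) < (n : ℝ) := by linarith [a1.1, a1.2]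
    exact_mod_cast this
  · rw [← F.hT i]
    linarith

/-- the curves of the two colours -/
private theorem DCvB_main {l n N T r r' : ℕ} (hl : 1 ≤ l) {ρM ρm : ℝ} (hT : 0 < T) (hM : 49 * ρM + T ≤ 4 * r * T)
    (h0M : (n : ℝ) ≤ ρM) (h1M : (N : ℝ) ≤ ρM) (hM2 : ρM ≤ 3 / 2 * |(N : ℝ) - n|) (hne : (n : ℝ) ≠ N)
    (hm0 : (n : ℝ) * (3 / 10) ≤ ρm) (h0m : ρm ≤ n) (h1m : ρm ≤ N) (hr2 : 2 ≤ r) (hn : 7500 * l * r ≤ n)
    (hr' : (3 * r : ℝ) ≤ r') (hD1 : 2 * (6 * (r' : ℝ) + 4) ≤ |(N : ℝ) - n|) (hD2 : (6 * (r' : ℝ) + 4) * l ≤ N)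
    {zo zd : Fin l → V} (hC : CycR zo zd n (30000 * r)) :
    ∃ c d : Fin l → ℕ → V, DCvB_F n N T r zo (cO l N) c ∧ DCvB_F n N T r zd (cD l N) d ∧
      Disjoint (RN (Lc c T r r')) (ud (RN (Lc d T r r'))) := by
  obtain ⟨θo, θd, h1, h2, h3, h4⟩ := hC
  push_cast at h1 h2 h3 h4
  have hn0 : (0 : ℝ) ≤ n := Nat.cast_nonneg n
  have hN0 : (0 : ℝ) ≤ N := Nat.cast_nonneg N
  have hl' : (1 : ℝ) ≤ l := by exact_mod_cast hl
  have hr2' : (2 : ℝ) ≤ r := by exact_mod_cast hr2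
  have hn' : 7500 * (l : ℝ) * r ≤ n := by exact_mod_cast hn
  have hnp : (0 : ℝ) < n := by
    have : (0 : ℝ) < 7500 * (l : ℝ) * r := by positivity
    linarith
  set γ : ℝ := 30000 * r / n with hγ
  have hγ0 : 0 ≤ γ := by positivity
  have hγ4 : γ ≤ 4 / l := by
    rw [hγ, div_le_div_iff₀ hnp (by linarith)]
    nlinarith
  obtain ⟨z, hz1, hz2⟩ := th_lift (l := l) hl (θo := θo) (θd := θd)
    (fun i j hij => ⟨hγ0.trans (h3 i j hij).1, (h3 i j hij).2.trans (by linarith)⟩)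
    (fun i j hij => ⟨hγ0.trans (h4 i j hij).1, (h4 i j hij).2.trans (by linarith)⟩)
  obtain ⟨g1, g2⟩ := th_gap (l := l) hl
  have Fo : DCvB_F n N T r zo (cO l N) (fun i j => cv n N (θo i) (thO l i + 8 * z) T j) :=
    DCvB_mk hT hM h0M h1M hM2 hne h1 (fun i => ptR_per _ _ z) hz1
  have Fd : DCvB_F n N T r zd (cD l N) (fun i j => cv n N (θd i) (thD l i + 8 * z) T j) :=
    DCvB_mk hT hM h0M h1M hM2 hne h2 (fun i => ptR_per _ _ z) hz2
  refine ⟨_, _, Fo, Fd, ?_⟩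
  have hρm0 : 0 ≤ ρm := by nlinarith
  have hbig : 6 * (r : ℝ) + 2 ≤ ρm * γ / 148 - 2 := by
    have e1 : (n : ℝ) * γ = 30000 * r := by
      rw [hγ]
      field_simp
    have e2 : (n : ℝ) * (3 / 10) * γ ≤ ρm * γ := mul_le_mul_of_nonneg_right hm0 hγ0
    have e3 : (n : ℝ) * (3 / 10) * γ = 9000 * r := by
      have : (n : ℝ) * (3 / 10) * γ = (n : ℝ) * γ * (3 / 10) := by ring
      rw [this, e1]; ring
    rw [e3] at e2
    linarith
  have hsep : ∀ i i' : Fin l, ∀ j ≤ T, ∀ j' ≤ T, 6 * (r : ℤ) + 2 ≤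
      nrm (cv n N (θo i) (thO l i + 8 * z) T j - cv n N (θd i') (thD l i' + 8 * z) T j') := by
    intro i i' j hj j' hj'
    have : ρm * γ / 148 - 2 ≤
        ((nrm (cv n N (θo i) (thO l i + 8 * z) T j - cv n N (θd i') (thD l i' + 8 * z) T j') : ℤ) : ℝ) := by
      rcases le_or_gt i i' with hi | hi
      · exact cv_sep hT hj hj' hn0 hN0 h0M h1M hM2 hρm0 h0m h1m (hz1 i) (hz2 i') hγ0 (h3 i i' hi).1 (h3 i i' hi).2
          (by linarith [(g1 i i' hi).1]) (by linarith [(g1 i i' hi).2])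
      · rw [DCvB_comm]
        exact cv_sep hT hj' hj hn0 hN0 h0M h1M hM2 hρm0 h0m h1m (hz2 i') (hz1 i) hγ0 (h4 i i' hi).1 (h4 i i' hi).2
          (by linarith [(g2 i i' hi).1]) (by linarith [(g2 i i' hi).2])
    have h6 : ((6 * (r : ℤ) + 2 : ℤ) : ℝ) ≤
        ((nrm (cv n N (θo i) (thO l i + 8 * z) T j - cv n N (θd i') (thD l i' + 8 * z) T j') : ℤ) : ℝ) := by
      push_cast
      linarith
    exact_mod_cast h6
  have hga : ∀ i i' : Fin l, (4 : ℝ) / l ≤ |(thD l i' + 8 * z) - (thO l i + 8 * z)| ∧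
      |(thD l i' + 8 * z) - (thO l i + 8 * z)| ≤ 8 - 4 / l := by
    intro i i'
    have e : (thD l i' + 8 * z) - (thO l i + 8 * z) = thD l i' - thO l i := by ring
    have h4l : (0 : ℝ) ≤ 4 / l := by positivity
    rw [e]
    rcases le_or_gt i i' with hi | hi
    · rw [abs_of_nonneg (by linarith [(g1 i i' hi).1])]
      exact g1 i i' hi
    · rw [abs_sub_comm, abs_of_nonneg (by linarith [(g2 i i' hi).1])]
      exact g2 i i' hi
  have h4l : (0 : ℝ) ≤ 4 / l := by positivity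
  have hend : ∀ D : ℝ, D ≤ 6 * (r' : ℝ) + 4 → D ≤ N * (4 / l) / 2 - D ∧ 2 * D ≤ |(N : ℝ) - n| := by
    intro D hD
    refine ⟨?_, by linarith⟩
    have e : (N : ℝ) * (4 / l) / 2 = 2 * (N / l) := by ring
    have e2 : D ≤ N / l := by
      rw [le_div_iff₀ (by linarith)]
      nlinarith
    rw [e]
    linarith
  have hs1 : ∀ D : ℝ, D ≤ 6 * (r' : ℝ) + 4 → ∀ i i' : Fin l, ∀ j ≤ T, D - 1 ≤
      ((nrm (cv n N (θo i) (thO l i + 8 * z) T j - cv n N (θd i') (thD l i' + 8 * z) T T) : ℤ) : ℝ) := by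
    intro D hD i i' j hj
    obtain ⟨e1, e2⟩ := hend D hD
    have h := cv_sep_end (θ := θo i) (θ' := θd i') hT hj hn0 hN0 e2 h4l (hga i i').1 (hga i i').2
    rw [min_eq_left e1] at h
    exact h
  have hs2 : ∀ D : ℝ, D ≤ 6 * (r' : ℝ) + 4 → ∀ i i' : Fin l, ∀ j ≤ T, D - 1 ≤
      ((nrm (cv n N (θo i) (thO l i + 8 * z) T T - cv n N (θd i') (thD l i' + 8 * z) T j) : ℤ) : ℝ) := by
    intro D hD i i' j hj
    obtain ⟨e1, e2⟩ := hend D hD
    have h := cv_sep_end (θ := θd i') (θ' := θo i) hT hj hn0 hN0 e2 h4l (by rw [abs_sub_comm]; exact (hga i i').1)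
      (by rw [abs_sub_comm]; exact (hga i i').2)
    rw [min_eq_left e1] at h
    rw [DCvB_comm]
    exact h
  refine pack_disj hsep (fun i i' j hj => ?_) (fun i i' j hj => ?_) (fun i i' => ?_)
  · have h := hs1 (3 * r + 3 * r' + 4) (by linarith) i i' j hj
    have h6 : ((3 * (r : ℤ) + 3 * r' + 2 : ℤ) : ℝ) ≤
        ((nrm (cv n N (θo i) (thO l i + 8 * z) T j - cv n N (θd i') (thD l i' + 8 * z) T T) : ℤ) : ℝ) := by
      push_cast
      linarith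
    exact_mod_cast h6
  · have h := hs2 (3 * r + 3 * r' + 4) (by linarith) i i' j hj
    have h6 : ((3 * (r : ℤ) + 3 * r' + 2 : ℤ) : ℝ) ≤
        ((nrm (cv n N (θo i) (thO l i + 8 * z) T T - cv n N (θd i') (thD l i' + 8 * z) T j) : ℤ) : ℝ) := by
      push_cast
      linarith
    exact_mod_cast h6
  · have h := hs1 (6 * r' + 4) le_rfl i i' T le_rfl
    have h6 : ((6 * (r' : ℤ) + 2 : ℤ) : ℝ) ≤
        ((nrm (cv n N (θo i) (thO l i + 8 * z) T T - cv n N (θd i') (thD l i' + 8 * z) T T) : ℤ) : ℝ) := by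
      push_cast
      linarith
    exact_mod_cast h6

private theorem DCvB_k {l k n r : ℕ} (hl : 1 ≤ l) (hr2 : 2 ≤ r) (hn : 7500 * l * r ≤ n) (hk : n ≤ 2 * k * r) :
    1 ≤ k ∧ 7500 * r ≤ n := by
  have h1 : 7500 * r ≤ n := le_trans (by nlinarith) hn
  refine ⟨?_, h1⟩
  rcases Nat.eq_zero_or_pos k with h | h
  · subst h
    omega
  · exact h

private theorem DCvB_rr {l n : ℕ} (hl : 1 ≤ l) : 100 * l * rr l n ≤ n ∧ n < 100 * l * (rr l n + 1) := by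
  unfold rr
  constructor
  · exact Nat.mul_div_le n (100 * l)
  · have h := Nat.lt_div_mul_add (a := n) (b := 100 * l) (by omega)
    nlinarith

/-- HINT: `Lo = Lc (fun i j => cv n (3 n) (θo i) (thO l i + 8 z) T j) T r (rr l (3 n))` with `T = 100 k`, `z` from `th_lift`, `cv_sep` (for pairs
in cyclic order), `cv_sep_end`, `cv_step`, `cv_lin`, `cv_end`, `pack_disj`, `pack_near`, `ptR_per` -/
theorem geo_out {l : ℕ} (hl : 1 ≤ l) (k : ℕ) : ∃ M : ℕ, ∀ (n r : ℕ) (zo zd : Fin l → V), 2 ≤ r → 7500 * l * r ≤ n →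
    n ≤ 2 * k * r → CycR zo zd n (30000 * r) → ∃ Lo Ld : Finset (V × ℤ), GeoOut M n r zo zd Lo Ld := by
  refine ⟨l * (100 * k + 2), fun n r zo zd hr2 hn hk hC => ?_⟩
  obtain ⟨hk1, hn1⟩ := DCvB_k hl hr2 hn hk
  obtain ⟨q1, q2⟩ := DCvB_rr (l := l) (n := 3 * n) hl
  set r' := rr l (3 * n) with hr'
  have hb1 : 225 * r ≤ r' := by
    have h : 100 * l * (225 * r) < 100 * l * (r' + 1) := by nlinarith
    have h2 : 225 * r < r' + 1 := Nat.lt_of_mul_lt_mul_left h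
    omega
  have hb2 : 100 * r' ≤ 3 * n := le_trans (by nlinarith [Nat.zero_le r']) q1
  have hT : 0 < 100 * k := by omega
  have hn0 : (0 : ℝ) ≤ n := Nat.cast_nonneg n
  have hr2' : (2 : ℝ) ≤ r := by exact_mod_cast hr2
  have hl' : (1 : ℝ) ≤ l := by exact_mod_cast hl
  have hn1' : 7500 * (r : ℝ) ≤ n := by exact_mod_cast hn1
  have hk1' : (1 : ℝ) ≤ k := by exact_mod_cast hk1
  have hk' : (n : ℝ) ≤ 2 * k * r := by exact_mod_cast hk
  have hb1' : 225 * (r : ℝ) ≤ r' := by exact_mod_cast hb1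
  have hb2' : 100 * (r' : ℝ) ≤ 3 * n := by exact_mod_cast hb2
  have q1' : 100 * (l : ℝ) * r' ≤ 3 * n := by exact_mod_cast q1
  have hn' : 7500 * (l : ℝ) * r ≤ n := by exact_mod_cast hn
  have habs : |((3 * n : ℕ) : ℝ) - n| = 2 * n := by
    push_cast
    rw [abs_of_nonneg (by linarith)]
    ring
  obtain ⟨c, d, Fo, Fd, hdis⟩ := DCvB_main (n := n) (N := 3 * n) (T := 100 * k) (r := r) (r' := r') hl
    (ρM := 3 * n) (ρm := n) hT (by push_cast; nlinarith) (by linarith) (by push_cast; linarith)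
    (by rw [habs]; linarith) (by push_cast; intro h; linarith) (by linarith) le_rfl (by push_cast; linarith) hr2 hn
    (by linarith) (by rw [habs]; linarith) (by push_cast; nlinarith) hC
  have hrad : ∀ (c : Fin l → ℕ → V), ∀ p ∈ Lc c (100 * k) (r : ℤ) (r' : ℤ), 1 ≤ p.2 ∧ p.2 ≤ n := by
    intro c p hp
    rw [mem_Lc] at hp
    rcases hp with ⟨i, j, _, rfl⟩ | ⟨i, rfl⟩
    · exact ⟨by show (1 : ℤ) ≤ r; omega, by show (r : ℤ) ≤ n; omega⟩
    · exact ⟨by show (1 : ℤ) ≤ r'; omega, by show (r' : ℤ) ≤ n; omega⟩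
  have hgap : 3 * (r' : ℝ) + 3 * r + 2 ≤ |((3 * n : ℕ) : ℝ) - n| := by rw [habs]; linarith
  refine ⟨Lc c (100 * k) r r', Lc d (100 * k) r r', ?_⟩
  refine
    { card_o := Lc_card _ _ _ _
      card_d := Lc_card _ _ _ _
      rad_o := hrad c
      rad_d := hrad d
      disj := hdis
      link_o := fun η i s v h1 h2 h3 h4 => DCvB_link Fo (by omega) hgap hT η i s v h1 h2 h3 h4
      link_d := fun η i s v h1 h2 h3 h4 => DCvB_link Fd (by omega) hgap hT η i s v h1 h2 h3 h4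
      start_o := ?_
      start_d := ?_
      far_o := ?_
      far_d := ?_
      fin_o := ?_
      fin_d := ?_ }
  · intro e he hb
    have hb' := DCvB_bx_near hb
    rcases DCvB_mem he with ⟨i, j, hj, h⟩ | ⟨i, h⟩
    · exact (DCvB_bxs i ((DCvB_out Fo hT hr2 hn1 hb1 hb2 hj h).1 hb')).1
    · have := (DCvB_outB Fo hT hr2 hn1 hb1 hb2 h).1
      omega
  · intro e he hb
    have hb' := DCvB_bx_near hb
    rcases DCvB_mem_ud he with ⟨i, j, hj, h⟩ | ⟨i, h⟩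
    · exact (DCvB_bxs i ((DCvB_out Fd hT hr2 hn1 hb1 hb2 hj h).1 hb')).1
    · have := (DCvB_outB Fd hT hr2 hn1 hb1 hb2 h).1
      omega
  · rw [Finset.disjoint_left]
    intro e he hb
    have hb' := DCvB_bx_near hb
    rcases DCvB_mem he with ⟨i, j, hj, h⟩ | ⟨i, h⟩
    · have := (DCvB_out Fo hT hr2 hn1 hb1 hb2 hj h).2.1
      omega
    · have := (DCvB_outB Fo hT hr2 hn1 hb1 hb2 h).1
      omega
  · rw [Finset.disjoint_left]
    intro e he hb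
    have hb' := DCvB_bx_near hb
    rcases DCvB_mem_ud he with ⟨i, j, hj, h⟩ | ⟨i, h⟩
    · have := (DCvB_out Fd hT hr2 hn1 hb1 hb2 hj h).2.1
      omega
    · have := (DCvB_outB Fd hT hr2 hn1 hb1 hb2 h).1
      omega
  · intro e he
    rw [Finset.mem_union]
    rcases DCvB_mem he with ⟨i, j, hj, h⟩ | ⟨i, h⟩
    · rcases (DCvB_out Fo hT hr2 hn1 hb1 hb2 hj h).2.2 with h5 | h5
      · exact Or.inl (DCvB_bx_of (by omega))
      · exact Or.inr (DCvB_bxs i h5).1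
    · exact Or.inr (DCvB_bxs i (DCvB_outB Fo hT hr2 hn1 hb1 hb2 h).2).1
  · intro e he
    rw [Finset.mem_union]
    rcases DCvB_mem_ud he with ⟨i, j, hj, h⟩ | ⟨i, h⟩
    · rcases (DCvB_out Fd hT hr2 hn1 hb1 hb2 hj h).2.2 with h5 | h5
      · exact Or.inl (DCvB_bx_of (by omega))
      · exact Or.inr (DCvB_bxs i h5).2
    · exact Or.inr (DCvB_bxs i (DCvB_outB Fd hT hr2 hn1 hb1 hb2 h).2).2

theorem geo_inn {l : ℕ} (hl : 1 ≤ l) (k : ℕ) : ∃ M : ℕ, ∀ (n r : ℕ) (zo zd : Fin l → V), 2 ≤ r → 7500 * l * r ≤ n →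
    n ≤ 2 * k * r → CycR zo zd n (30000 * r) → ∃ Lo Ld : Finset (V × ℤ), GeoInn M n r zo zd Lo Ld := by
  refine ⟨l * (100 * k + 2), fun n r zo zd hr2 hn hk hC => ?_⟩
  obtain ⟨hk1, hn1⟩ := DCvB_k hl hr2 hn hk
  obtain ⟨q1, q2⟩ := DCvB_rr (l := l) (n := n / 3) hl
  set r' := rr l (n / 3) with hr'
  have hN1 : 3 * (n / 3) ≤ n := Nat.mul_div_le n 3
  have hN2 : n < 3 * (n / 3) + 3 := by omega
  have hb1 : 25 * r ≤ r' := by
    have h : 100 * l * (25 * r) < 100 * l * (r' + 1) := by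
      have h3 : 3 * (2500 * l * r) < 3 * (n / 3) + 3 := by nlinarith
      have h4 : 2500 * l * r ≤ n / 3 := by omega
      nlinarith
    have h2 : 25 * r < r' + 1 := Nat.lt_of_mul_lt_mul_left h
    omega
  set N := n / 3 with hN
  have hb2 : 100 * r' ≤ N := le_trans (by nlinarith [Nat.zero_le r']) q1
  have hT : 0 < 100 * k := by omega
  have hn0 : (0 : ℝ) ≤ n := Nat.cast_nonneg n
  have hN0 : (0 : ℝ) ≤ N := Nat.cast_nonneg N
  have hr2' : (2 : ℝ) ≤ r := by exact_mod_cast hr2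
  have hl' : (1 : ℝ) ≤ l := by exact_mod_cast hl
  have hn1' : 7500 * (r : ℝ) ≤ n := by exact_mod_cast hn1
  have hk1' : (1 : ℝ) ≤ k := by exact_mod_cast hk1
  have hk' : (n : ℝ) ≤ 2 * k * r := by exact_mod_cast hk
  have hb1' : 25 * (r : ℝ) ≤ r' := by exact_mod_cast hb1
  have hb2' : 100 * (r' : ℝ) ≤ N := by exact_mod_cast hb2
  have q1' : 100 * (l : ℝ) * r' ≤ N := by exact_mod_cast q1
  have hn' : 7500 * (l : ℝ) * r ≤ n := by exact_mod_cast hn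
  have hN1' : 3 * (N : ℝ) ≤ n := by exact_mod_cast hN1
  have hN2' : (n : ℝ) < 3 * N + 3 := by exact_mod_cast hN2
  have habs : |(N : ℝ) - n| = n - N := by
    rw [abs_of_nonpos (by linarith)]
    ring
  have hlr : (2 : ℝ) * l ≤ l * r := by nlinarith
  obtain ⟨c, d, Fo, Fd, hdis⟩ := DCvB_main (n := n) (N := N) (T := 100 * k) (r := r) (r' := r') hl
    (ρM := n) (ρm := N) hT (by push_cast; nlinarith) le_rfl (by linarith)
    (by rw [habs]; linarith) (by intro h; linarith) (by linarith) (by linarith) le_rfl hr2 hn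
    (by linarith) (by rw [habs]; linarith) (by nlinarith) hC
  have hrad : ∀ (c : Fin l → ℕ → V), ∀ p ∈ Lc c (100 * k) (r : ℤ) (r' : ℤ), 1 ≤ p.2 ∧ p.2 ≤ n := by
    intro c p hp
    rw [mem_Lc] at hp
    rcases hp with ⟨i, j, _, rfl⟩ | ⟨i, rfl⟩
    · exact ⟨by show (1 : ℤ) ≤ r; omega, by show (r : ℤ) ≤ n; omega⟩
    · exact ⟨by show (1 : ℤ) ≤ r'; omega, by show (r' : ℤ) ≤ n; omega⟩
  have hgap : 3 * (r' : ℝ) + 3 * r + 2 ≤ |(N : ℝ) - n| := by rw [habs]; linarith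
  refine ⟨Lc c (100 * k) r r', Lc d (100 * k) r r', ?_⟩
  have hfar : ∀ (z w : Fin l → V) (c : Fin l → ℕ → V), DCvB_F n N (100 * k) r z w c → ∀ e : Edge,
      ((∃ i, ∃ j ≤ 100 * k, nrm ((e.1, e.2.1) - c i j) ≤ 3 * (r : ℤ) + 1) ∨ ∃ i, nrm ((e.1, e.2.1) - c i (100 * k)) ≤ 3 * (r' : ℤ) + 1) →
      e ∈ bx (2 * n) := by
    intro z w c F e he
    rcases he with ⟨i, j, hj, h⟩ | ⟨i, h⟩
    · have := (DCvB_inn F hT hN1 hr2 hn1 hb1 hb2 hj h).2.1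
      exact DCvB_bx_of (by push_cast; exact this)
    · have := (DCvB_innB F hT hN1 hr2 hn1 hb1 hb2 h).1
      exact DCvB_bx_of (by push_cast; omega)
  refine
    { card_o := Lc_card _ _ _ _
      card_d := Lc_card _ _ _ _
      rad_o := hrad c
      rad_d := hrad d
      disj := hdis
      link_o := fun η i s v h1 h2 h3 h4 => DCvB_link Fo (by omega) hgap hT η i s v h1 h2 h3 h4
      link_d := fun η i s v h1 h2 h3 h4 => DCvB_link Fd (by omega) hgap hT η i s v h1 h2 h3 h4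
      start_o := ?_
      start_d := ?_
      far_o := fun e he => hfar _ _ _ Fo e (DCvB_mem he)
      far_d := fun e he => hfar _ _ _ Fd e (DCvB_mem_ud he)
      fin_o := ?_
      fin_d := ?_ }
  · intro e he hb
    have hb' : (n : ℤ) ≤ nrm (e.1, e.2.1) := by
      by_contra hcon
      exact hb (DCvB_bx_of (by omega))
    rcases DCvB_mem he with ⟨i, j, hj, h⟩ | ⟨i, h⟩
    · exact (DCvB_bxs i ((DCvB_inn Fo hT hN1 hr2 hn1 hb1 hb2 hj h).1 hb')).1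
    · have := (DCvB_innB Fo hT hN1 hr2 hn1 hb1 hb2 h).1
      omega
  · intro e he hb
    have hb' : (n : ℤ) ≤ nrm (e.1, e.2.1) := by
      by_contra hcon
      exact hb (DCvB_bx_of (by omega))
    rcases DCvB_mem_ud he with ⟨i, j, hj, h⟩ | ⟨i, h⟩
    · exact (DCvB_bxs i ((DCvB_inn Fd hT hN1 hr2 hn1 hb1 hb2 hj h).1 hb')).1
    · have := (DCvB_innB Fd hT hN1 hr2 hn1 hb1 hb2 h).1
      omega
  · intro e he
    rcases DCvB_mem he with ⟨i, j, hj, h⟩ | ⟨i, h⟩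
    · rcases (DCvB_inn Fo hT hN1 hr2 hn1 hb1 hb2 hj h).2.2 with h5 | h5
      · left
        intro hb
        have := DCvB_bx_near hb
        push_cast at this
        omega
      · exact Or.inr (DCvB_bxs i h5).1
    · exact Or.inr (DCvB_bxs i (DCvB_innB Fo hT hN1 hr2 hn1 hb1 hb2 h).2).1
  · intro e he
    rcases DCvB_mem_ud he with ⟨i, j, hj, h⟩ | ⟨i, h⟩
    · rcases (DCvB_inn Fd hT hN1 hr2 hn1 hb1 hb2 hj h).2.2 with h5 | h5
      · left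
        intro hb
        have := DCvB_bx_near hb
        push_cast at this
        omega
      · exact Or.inr (DCvB_bxs i h5).2
    · exact Or.inr (DCvB_bxs i (DCvB_innB Fd hT hN1 hr2 hn1 hb1 hb2 h).2).2

end FKN
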