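import Pool.Agent.Lib.MP_216314_pr.N.E3Def
import Pool.Agent.Lib.MP_216314_pr.N.DFkB
import Pool.Agent.Lib.MP_216314_pr.Cy.CyC
import Pool.Agent.Lib.MP_216314_pr.N.NBase

/-!
# Stream E3: mixed FKG on the cylinder

`pull N F ω = F.filter (red N e ∈ ω)`, `pd N F ω = dc F (pull N F ω)` (dual edges crossing the edges `e ∈ F` with `red N e ∉ ω`).
PROOFS. `pull_img`: `pull N F (ω ∩ F.image (red N)) = pull N F ω` (`mem_pull`, `mem_image_of_mem`). `pd_img`: the same. `pull_inc`, `pd_dec`: monotonicity (`pull_mono`; `pd N F ω' ⊆ pd N F ω` for `ω ⊆ ω'`: `dc_mono`, or directly from the definitions).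
`pull_big`: for `F ⊆ G`: `pull N G ω ∩ F = pull N F ω`; `pd_big`: `dc F (pull N G ω) = pd N F ω` (`F \ pull N G ω = F \ pull N F ω`).
`cyl_fkg`: `mixed_fkg` (DFkA) with `q = 1/2`, `E = cylE N m`, `Fp := Fp.image (red N)`, etc., `Ap ω = A (pull N Fp ω)`, `Am ω = D (pd N Fm ω)`, `Bp ω = B (pull N Np ω)`, `Bm ω = B' (pd N Nm ω)`; `Dep (F.image (red N)) (fun ω => A (pull N F ω))` by `pull_img`, `pd_img`;
disjointness of the images from `d1`, `d2`, `d3` (`disjoint_left`, `mem_image`); `pr_half` (NBase) translates `Pr` into `IPC.Pr (1/2)` (`Pp` is an abbreviation of `IPC.Pr`).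
-/

set_option autoImplicit false

noncomputable section

namespace FKN

open Finset FKI FKP

section

variable {N : ℕ} {F G ω ω' : Finset Edge}

theorem pull_img : pull N F (ω ∩ F.image (red N)) = pull N F ω := by
  ext e
  rw [mem_pull, mem_pull, mem_inter]
  constructor
  · exact fun h => ⟨h.1, h.2.1⟩
  · exact fun h => ⟨h.1, h.2, mem_image_of_mem _ h.1⟩

theorem pd_img : pd N F (ω ∩ F.image (red N)) = pd N F ω := by
  unfold pd
  rw [pull_img]

theorem pd_dec (h : ω ⊆ ω') : pd N F ω' ⊆ pd N F ω :=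
  dc_mono (Finset.Subset.refl F) (pull_mono h)

theorem pull_big (h : F ⊆ G) : pull N G ω ∩ F = pull N F ω := by
  ext e
  rw [mem_inter, mem_pull, mem_pull]
  constructor
  · exact fun h1 => ⟨h1.2, h1.1.2⟩
  · exact fun h1 => ⟨⟨h h1.1, h1.2⟩, h1.1⟩

theorem pd_big (h : F ⊆ G) : dc F (pull N G ω) = pd N F ω := by
  unfold pd
  rw [← dc_dep F (pull N G ω), pull_big h]

theorem pd_sub (h : F ⊆ G) : pd N F ω ⊆ pd N G ω := by
  rw [← pd_big h]
  exact dc_mono h (Finset.Subset.refl _)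

theorem pull_sub2 (h : F ⊆ G) : pull N F ω ⊆ pull N G ω := by
  intro e he
  rw [mem_pull] at he ⊢
  exact ⟨h he.1, he.2⟩

end

/-- mixed FKG inequality on the cylinder -/
theorem cyl_fkg {N m : ℕ} {Fp Fm Np Nm : Finset Edge} (hFp : ∀ e ∈ Fp, red N e ∈ cylE N m) (hFm : ∀ e ∈ Fm, red N e ∈ cylE N m)
    (hNp : ∀ e ∈ Np, red N e ∈ cylE N m) (hNm : ∀ e ∈ Nm, red N e ∈ cylE N m)
    (d1 : ∀ e ∈ Np, ∀ e' ∈ Fm, red N e ≠ red N e') (d2 : ∀ e ∈ Nm, ∀ e' ∈ Fp, red N e ≠ red N e')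
    (d3 : ∀ e ∈ Np, ∀ e' ∈ Nm, red N e ≠ red N e')
    {A B D B' : Finset Edge → Prop} (iA : Inc A) (iB : Inc B) (iD : Inc D) (iB' : Inc B') :
    Pr (cylE N m) (fun ω => A (pull N Fp ω) ∧ D (pd N Fm ω)) * Pr (cylE N m) (fun ω => B (pull N Np ω)) *
        Pr (cylE N m) (fun ω => B' (pd N Nm ω)) ≤
      Pr (cylE N m) (fun ω => (A (pull N Fp ω) ∧ B (pull N Np ω)) ∧ (D (pd N Fm ω) ∧ B' (pd N Nm ω))) := by
  have hsub : ∀ F : Finset Edge, (∀ e ∈ F, red N e ∈ cylE N m) → F.image (red N) ⊆ cylE N m := by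
    intro F hF e he
    obtain ⟨e', h1, rfl⟩ := mem_image.1 he
    exact hF e' h1
  have hdis : ∀ F G : Finset Edge, (∀ e ∈ F, ∀ e' ∈ G, red N e ≠ red N e') →
      Disjoint (F.image (red N)) (G.image (red N)) := by
    intro F G hFG
    rw [Finset.disjoint_left]
    intro x hx hx'
    obtain ⟨e, h1, h2⟩ := mem_image.1 hx
    obtain ⟨e', h3, h4⟩ := mem_image.1 hx'
    exact hFG e h1 e' h3 (h2.trans h4.symm)
  have hdep : ∀ (F : Finset Edge) (S : Finset Edge → Prop),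
      Dep (F.image (red N)) (fun ω => S (pull N F ω)) := by
    intro F S ω
    show S (pull N F ω) ↔ S (pull N F (ω ∩ F.image (red N)))
    rw [pull_img]
  have hdep' : ∀ (F : Finset Edge) (S : Finset Edge → Prop),
      Dep (F.image (red N)) (fun ω => S (pd N F ω)) := by
    intro F S ω
    show S (pd N F ω) ↔ S (pd N F (ω ∩ F.image (red N)))
    rw [pd_img]
  rw [pr_half, pr_half, pr_half, pr_half]
  exact mixed_fkg (q := 1 / 2) (by norm_num) (by norm_num) (hsub Fp hFp) (hsub Fm hFm)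
    (hsub Np hNp) (hsub Nm hNm) (hdis Np Fm d1) (hdis Nm Fp d2) (hdis Np Nm d3)
    (Ap := fun ω => A (pull N Fp ω)) (Am := fun ω => D (pd N Fm ω))
    (Bp := fun ω => B (pull N Np ω)) (Bm := fun ω => B' (pd N Nm ω))
    (fun ω ω' h hA => iA _ _ (pull_mono h) hA) (fun ω ω' h hB => iB _ _ (pull_mono h) hB)
    (fun ω ω' h hD => iD _ _ (pd_dec h) hD) (fun ω ω' h hB => iB' _ _ (pd_dec h) hB)
    (hdep Fp A) (hdep' Fm D) (hdep Np B) (hdep' Nm B')

end FKN
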