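import Pool.Agent.Lib.MP_216314_pr.N.E3M

/-!
# Stream E3: the open and the dual regions are disjoint modulo the period

In the following `ρ = rr 2 n = n / 200`, `n ≥ 400`, so `2 ≤ ρ`, `200 ρ ≤ n` (`unfold rr`, `omega`).
PROOFS. Let `red (20 n) e = red (20 n) e'`; `red_eq` (Cy/CyA): `e'.1 = e.1 + j (20 n)`, `e'.2.1 = e.2.1 - j (20 n)`, `e'.2.2 = e.2.2`. Let `q = j * (20 * n : ℕ)`; five cases: `j ≤ -2` gives `q ≤ -40 n`, `j = -1` gives `q = -20 n`, `j = 0`, `q = 0`, `j = 1`, `q = 20 n`, `j ≥ 2` gives `q ≥ 40 n`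
(`mul_le_mul_of_nonneg_right`; make this a private lemma). Then everything is linear: `generalize`/`obtain` the variables `q`, `ρ` (facts `2 ≤ ρ`, `200 ρ ≤ n`), split the disjunctions of `loc_o`, `loc_d` (`unfold InR`), `loc_p`, `loc_m` (E3M) with `rcases` and close each case with `omega`.
`dis_pm`: `RN (Lo n)` against `Rm n`; `dis_dp`: `ud (RN (Ld n))` against `Rp n`; `dis_od`: `RN (Lo n)` against `ud (RN (Ld n))`. (The distances between the corridors are at least `n`; numerical check done.)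
`ne_e0`: `red (20 n) e0 = e0` (`red`, `norm_num`/`simp`, `e0 = (0, 0, false)`); so `red (20 n) e = e0` gives `red (20 n) e0 = red (20 n) e` and `e.1 = j (20 n)`, `e.2.1 = - j (20 n)`, `e.2.2 = false`: contradiction with the places as before (in the core: `j = 0`, so `e = e0`, excluded).
`in_cyl`: `red_mem` (Cy/CyA): the height `e.1 + e.2.1` is between `-2 m` and `2 m - 1`: from the places all coordinates give `|e.1 + e.2.1| ≤ 15 n + ..≤ 40 n - 1 ≤ 2 m - 1`.
-/

set_option autoImplicit false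

noncomputable section

namespace FKN

open Finset FKI FKP

private theorem E3Q_per {n : ℕ} {e e' : Edge} (h : red (20 * n) e = red (20 * n) e') :
    ∃ q : ℤ, e'.1 = e.1 + q ∧ e'.2.1 = e.2.1 - q ∧ e'.2.2 = e.2.2 ∧
      (q ≤ -(40 * (n : ℤ)) ∨ q = -(20 * (n : ℤ)) ∨ q = 0 ∨ q = 20 * (n : ℤ) ∨ 40 * (n : ℤ) ≤ q) := by
  obtain ⟨j, h1, h2, h3⟩ := red_eq h
  refine ⟨j * ((20 * n : ℕ) : ℤ), h1, h2, h3, ?_⟩
  have hn : (0 : ℤ) ≤ ((20 * n : ℕ) : ℤ) := Int.natCast_nonneg _
  have hc : ((20 * n : ℕ) : ℤ) = 20 * (n : ℤ) := by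
    push_cast
    rfl
  have hj : j ≤ -2 ∨ j = -1 ∨ j = 0 ∨ j = 1 ∨ 2 ≤ j := by omega
  rcases hj with hj | hj | hj | hj | hj
  · left
    have h4 : j * ((20 * n : ℕ) : ℤ) ≤ -2 * ((20 * n : ℕ) : ℤ) := mul_le_mul_of_nonneg_right hj hn
    omega
  · right
    left
    rw [hj]
    omega
  · right
    right
    left
    rw [hj, zero_mul]
  · right
    right
    right
    left
    rw [hj, one_mul, hc]
  · right
    right
    right
    right
    have h4 : 2 * ((20 * n : ℕ) : ℤ) ≤ j * ((20 * n : ℕ) : ℤ) := mul_le_mul_of_nonneg_right hj hn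
    omega

private theorem E3Q_rr {n : ℕ} (hn : 400 ≤ n) : 2 ≤ (rr 2 n : ℤ) ∧ 200 * (rr 2 n : ℤ) ≤ (n : ℤ) := by
  unfold rr
  omega

section

variable {n : ℕ} {e e' : Edge}

theorem dis_pm (hn : 400 ≤ n) (he : e ∈ RN (Lo n)) (he' : e' ∈ Rm n) : red (20 * n) e ≠ red (20 * n) e' := by
  intro h
  obtain ⟨q, h1, h2, _, hq⟩ := E3Q_per h
  obtain ⟨hr1, hr2⟩ := E3Q_rr hn
  have ho := loc_o he
  have hm := loc_m he'
  rw [h1, h2] at hm
  generalize (rr 2 n : ℤ) = ρ at *
  generalize (n : ℤ) = N at *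
  generalize e.1 = x at *
  generalize e.2.1 = y at *
  clear h1 h2 h he he' hn
  rcases hq with hq | hq | hq | hq | hq <;> rcases ho with ho | ho | ho <;>
    rcases hm with ⟨_, hm⟩ | hm | hm <;> omega

theorem dis_dp (hn : 400 ≤ n) (he : e ∈ ud (RN (Ld n))) (he' : e' ∈ Rp n) : red (20 * n) e ≠ red (20 * n) e' := by
  intro h
  obtain ⟨q, h1, h2, _, hq⟩ := E3Q_per h
  obtain ⟨hr1, hr2⟩ := E3Q_rr hn
  have ho := loc_d he
  have hm := loc_p he'
  rw [h1, h2] at hm
  unfold InR at ho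
  generalize (rr 2 n : ℤ) = ρ at *
  generalize (n : ℤ) = N at *
  generalize e.1 = x at *
  generalize e.2.1 = y at *
  clear h1 h2 h he he' hn
  rcases hq with hq | hq | hq | hq | hq <;>
    rcases ho with (ho | ho | ho | ho | ho) | (ho | ho | ho | ho | ho) <;>
    rcases hm with ⟨_, hm⟩ | hm | hm <;> omega

theorem dis_od (hn : 400 ≤ n) (he : e ∈ RN (Lo n)) (he' : e' ∈ ud (RN (Ld n))) : red (20 * n) e ≠ red (20 * n) e' := by
  intro h
  obtain ⟨q, h1, h2, _, hq⟩ := E3Q_per h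
  obtain ⟨hr1, hr2⟩ := E3Q_rr hn
  have ho := loc_o he
  have hm := loc_d he'
  unfold InR at hm
  rw [h1, h2] at hm
  generalize (rr 2 n : ℤ) = ρ at *
  generalize (n : ℤ) = N at *
  generalize e.1 = x at *
  generalize e.2.1 = y at *
  clear h1 h2 h he he' hn
  rcases hq with hq | hq | hq | hq | hq <;> rcases ho with ho | ho | ho <;>
    rcases hm with (hm | hm | hm | hm | hm) | (hm | hm | hm | hm | hm) <;> omega

theorem ne_e0 (hn : 400 ≤ n) (he : e ∈ Rp n ∨ e ∈ Rm n ∨ e ∈ RN (Lo n) ∨ e ∈ ud (RN (Ld n))) : red (20 * n) e ≠ e0 := by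
  intro h
  have h0 : red (20 * n) e0 = e0 := by
    unfold red e0
    simp
  rw [← h0] at h
  obtain ⟨q, h1, h2, h3, hq⟩ := E3Q_per h
  obtain ⟨hr1, hr2⟩ := E3Q_rr hn
  have e1 : e0.1 = 0 := rfl
  have e2 : e0.2.1 = 0 := rfl
  have e3 : e0.2.2 = false := rfl
  rw [e1] at h1
  rw [e2] at h2
  rw [e3] at h3
  have hne : e ≠ e0 → q ≠ 0 := by
    intro hne hq0
    apply hne
    refine Prod.ext ?_ (Prod.ext ?_ ?_)
    · rw [e1]
      omega
    · rw [e2]
      omega
    · rw [e3, ← h3]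
  rcases he with he | he | he | he
  · have hm := loc_p he
    generalize (rr 2 n : ℤ) = ρ at *
    generalize (n : ℤ) = N at *
    rcases hm with ⟨hm1, hm⟩ | hm | hm
    · have hq0 := hne hm1
      rcases hq with hq | hq | hq | hq | hq <;> omega
    · rcases hq with hq | hq | hq | hq | hq <;> omega
    · rcases hq with hq | hq | hq | hq | hq <;> omega
  · have hm := loc_m he
    generalize (rr 2 n : ℤ) = ρ at *
    generalize (n : ℤ) = N at *
    rcases hm with ⟨hm1, hm⟩ | hm | hm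
    · have hq0 := hne hm1
      rcases hq with hq | hq | hq | hq | hq <;> omega
    · rcases hq with hq | hq | hq | hq | hq <;> omega
    · rcases hq with hq | hq | hq | hq | hq <;> omega
  · have hm := loc_o he
    generalize (rr 2 n : ℤ) = ρ at *
    generalize (n : ℤ) = N at *
    rcases hq with hq | hq | hq | hq | hq <;> rcases hm with hm | hm | hm <;> omega
  · have hm := loc_d he
    unfold InR at hm
    generalize (rr 2 n : ℤ) = ρ at *
    generalize (n : ℤ) = N at *
    rcases hq with hq | hq | hq | hq | hq <;>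
      rcases hm with (hm | hm | hm | hm | hm) | (hm | hm | hm | hm | hm) <;> omega

theorem in_cyl {m : ℕ} (hn : 400 ≤ n) (hm : 20 * n ≤ m) (he : e ∈ Rp n ∨ e ∈ Rm n ∨ e ∈ RN (Lo n) ∨ e ∈ ud (RN (Ld n))) :
    red (20 * n) e ∈ cylE (20 * n) m := by
  obtain ⟨hr1, hr2⟩ := E3Q_rr hn
  have hm' : 20 * (n : ℤ) ≤ (m : ℤ) := by exact_mod_cast hm
  have hn' : (0 : ℤ) < (n : ℤ) := by omega
  have key : -(2 * (m : ℤ)) ≤ e.1 + e.2.1 ∧ e.1 + e.2.1 < 2 * m := by
    rcases he with he | he | he | he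
    · have h := loc_p he
      generalize (rr 2 n : ℤ) = ρ at *
      generalize (n : ℤ) = N at *
      rcases h with ⟨_, h⟩ | h | h <;> omega
    · have h := loc_m he
      generalize (rr 2 n : ℤ) = ρ at *
      generalize (n : ℤ) = N at *
      rcases h with ⟨_, h⟩ | h | h <;> omega
    · have h := loc_o he
      generalize (rr 2 n : ℤ) = ρ at *
      generalize (n : ℤ) = N at *
      rcases h with h | h | h <;> omega
    · have h := loc_d he
      unfold InR at h
      generalize (rr 2 n : ℤ) = ρ at *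
      generalize (n : ℤ) = N at *
      rcases h with (h | h | h | h | h) | (h | h | h | h | h) <;> omega
  exact red_mem (by omega) key.1 key.2

end

end FKN
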