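import Pool.Agent.Lib.MP_216314_pr.N.E3K
import Pool.Agent.Lib.MP_216314_pr.N.E3Q

/-!
# Stream E3: the events give the four arms around the cylinder

`N = 20 n`, `τ = ((N : ℤ), -(N : ℤ))`, `ρ = rr 2 n`.
PROOFS. `SP_shift`: `red_shift` (Cy/CyA) with `j = 1`. `SD_shift`: `dl.symm (trE τ f) = trE τ (dl.symm f)` (cases on the last component, definition of `dl` in DDef), then `red_shift`.
`SP_of`, `SD_of`: `mem_pull`, `ne_e0` (E3Q); for the dual: `f ∈ pd N F ω = (F \ pull N F ω).map dl` gives `f = dl e`, `e ∈ F`, `red N e ∉ ω` (`mem_map`, `mem_sdiff`, `mem_pull`), `dl.symm f = e`; `in_cyl`, `ne_e0`.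
`t4_of_events`: `StG Sg Tg η = ∃ s v, Sg η s ∧ Tg η v ∧ ∀ i, (gr η).Reachable (s i) (v i)`.
Open: `SeP = nearS ![(0,0), (1,0)] 0`: there is a permutation `σ` of `Fin 2` with `nrm (s i - ![(0,0), (1,0)] (σ i)) ≤ 0`, so `s i` is that point; so `(s 0, s 1) = ((0,0), (1,0))` or `((1,0), (0,0))`. `ringT (cO 2 n) ρ η v`: `RP (cO 2 n i) ρ η (v i)`, `i = 0, 1`; `cO_vals`: the centres are `(n, 0)`, `(-n, 0)`.
`link_S` (E3K) with `S = SP N ω`, `c = co n`, `T = TT4`, `r = ρ`, `η = pull N (RN (Lo n)) ω`, `η0 = pull N (Rp n) ω`, `a0 = (n, 0)`, `a1 = (-n, 0)`, `t = τ`: `c 0 = a0` (`c_zero`), `c TT4 = (19 n, -20 n) = a1 + τ` (`c_end`), `hR` from `hB` (`Rings L η = ∀ p ∈ L, Ring p.1 p.2 η`, `mem_Lo`). So `v 0` is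
connected to `v 1 + τ` in `lg (SP N ω)`; `s 0` to `v 0` and `v 1` to `s 1` by `gr_le_lg` (`Reachable.mono`), and `v 1 + τ` to `s 1 + τ` by `lg_shift`. So `s 0` is connected to `s 1 + τ`: the first or the second case of `E3T4` (`(1,0) + τ = (1 + N, -N)`, `(0,0) + τ = (N, -N)`).
Dual: `SeD = nearS ![(0,0), (0,-1)] 0`; the circuits of the arms are at `(0, n)`, `(0, -n)`. `link_S` with `S = SD N m ω`, `c = cu n`, `a0 = a1 = (0, n)`, `v0 = v1 = v 0` (`c_end`: `(20 n, -19 n) = (0, n) + τ`): `v 0` is connected to `v 0 + τ`, so `s 0` is connected to `s 0 + τ`; the same with `cl n`, `(0, -n)`, `v 1`, `s 1`. Since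
`{s 0, s 1} = {(0,0), (0,-1)}` both statements of `E3T4` follow (`(0,-1) + τ = (N, -1 - N)`).
-/

set_option autoImplicit false

noncomputable section

namespace FKN

open Finset FKI FKP

private theorem E3R_red {N : ℕ} (hN : 1 ≤ N) (e : Edge) :
    red N (trE ((N : ℤ), -(N : ℤ)) e) = red N e := by
  have h := red_shift hN e 1
  rw [one_mul, sub_eq_add_neg] at h
  exact h

private theorem E3R_dl (t : V) (f : Edge) : dl.symm (trE t f) = trE t (dl.symm f) := by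
  obtain ⟨x, y, b⟩ := f
  cases b
  · show ((x + t.1 + 1, y + t.2, true) : Edge) = (x + 1 + t.1, y + t.2, true)
    rw [add_right_comm]
  · show ((x + t.1, y + t.2 + 1, false) : Edge) = (x + t.1, y + 1 + t.2, false)
    rw [add_right_comm y]

theorem SP_shift {N : ℕ} (hN : 1 ≤ N) (ω : Finset Edge) (e : Edge) (h : SP N ω e) : SP N ω (trE ((N : ℤ), -(N : ℤ)) e) := by
  unfold SP at h ⊢
  rw [E3R_red hN]
  exact h

theorem SD_shift {N m : ℕ} (hN : 1 ≤ N) (ω : Finset Edge) (e : Edge) (h : SD N m ω e) : SD N m ω (trE ((N : ℤ), -(N : ℤ)) e) := by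
  unfold SD at h ⊢
  rw [E3R_dl, E3R_red hN]
  exact h

private theorem E3R_nrm {v : V} (h : nrm v ≤ 0) : v = 0 := by
  unfold nrm at h
  have h1 := (le_max_left _ _).trans h
  have h2 := (le_max_right _ _).trans h
  have h3 : v.1 = 0 := abs_eq_zero.1 (le_antisymm h1 (abs_nonneg _))
  have h4 : v.2 = 0 := abs_eq_zero.1 (le_antisymm h2 (abs_nonneg _))
  exact Prod.ext h3 h4

private theorem E3R_src {y s : Fin 2 → V} {η : Finset Edge} (h : nearS y 0 η s) :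
    (s 0 = y 0 ∧ s 1 = y 1) ∨ (s 0 = y 1 ∧ s 1 = y 0) := by
  obtain ⟨σ, hσ⟩ := h
  have h0 : s 0 = y (σ 0) := sub_eq_zero.1 (E3R_nrm (hσ 0))
  have h1 : s 1 = y (σ 1) := sub_eq_zero.1 (E3R_nrm (hσ 1))
  have hne : σ 0 ≠ σ 1 := fun h2 => by
    have h3 := σ.injective h2
    exact absurd h3 (by decide)
  have hf : ∀ i : Fin 2, i = 0 ∨ i = 1 := by decide
  rcases hf (σ 0) with h2 | h2 <;> rcases hf (σ 1) with h3 | h3
  · exact absurd (h2.trans h3.symm) hne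
  · rw [h2] at h0
    rw [h3] at h1
    exact Or.inl ⟨h0, h1⟩
  · rw [h2] at h0
    rw [h3] at h1
    exact Or.inr ⟨h0, h1⟩
  · exact absurd (h2.trans h3.symm) hne

section

variable {n m : ℕ} {ω : Finset Edge}

theorem SP_of (hn : 400 ≤ n) {e : Edge} (he : e ∈ pull (20 * n) (Rp n) ω ∨ e ∈ pull (20 * n) (RN (Lo n)) ω) : SP (20 * n) ω e := by
  rcases he with he | he
  · rw [mem_pull] at he
    exact ⟨he.2, ne_e0 hn (Or.inl he.1)⟩
  · rw [mem_pull] at he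
    exact ⟨he.2, ne_e0 hn (Or.inr (Or.inr (Or.inl he.1)))⟩

private theorem E3R_pd {N : ℕ} {F ω : Finset Edge} {f : Edge} (hf : f ∈ pd N F ω) :
    dl.symm f ∈ F ∧ red N (dl.symm f) ∉ ω := by
  unfold pd dc at hf
  rw [mem_map] at hf
  obtain ⟨e, he, rfl⟩ := hf
  rw [mem_sdiff, mem_pull] at he
  have h1 : dl.symm (dl.toEmbedding e) = e := dl.symm_apply_apply e
  rw [h1]
  exact ⟨he.1, fun h2 => he.2 ⟨he.1, h2⟩⟩

theorem SD_of (hn : 400 ≤ n) (hm : 20 * n ≤ m) {f : Edge} (hf : f ∈ pd (20 * n) (Rm n) ω ∨ f ∈ pd (20 * n) (ud (RN (Ld n))) ω) :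
    SD (20 * n) m ω f := by
  rcases hf with hf | hf
  · obtain ⟨h1, h2⟩ := E3R_pd hf
    exact ⟨in_cyl hn hm (Or.inr (Or.inl h1)), h2, ne_e0 hn (Or.inr (Or.inl h1))⟩
  · obtain ⟨h1, h2⟩ := E3R_pd hf
    exact ⟨in_cyl hn hm (Or.inr (Or.inr (Or.inr h1))), h2, ne_e0 hn (Or.inr (Or.inr (Or.inr h1)))⟩

theorem t4_of_events (hn : 400 ≤ n) (hm : 20 * n ≤ m)
    (hA : StG SeP (ringT (cO 2 n) (rr 2 n)) (pull (20 * n) (Rp n) ω)) (hB : Rings (Lo n) (pull (20 * n) (RN (Lo n)) ω))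
    (hD : StG SeD (ringT (cD 2 n) (rr 2 n)) (pd (20 * n) (Rm n) ω)) (hB' : Rings (Ld n) (pd (20 * n) (ud (RN (Ld n))) ω)) :
    E3T4 (20 * n) m ω := by
  have hN : 1 ≤ 20 * n := by omega
  have hr : (0 : ℤ) ≤ (rr 2 n : ℤ) := Int.natCast_nonneg _
  obtain ⟨hc1, hc2, hc3, hc4⟩ := cO_vals n
  obtain ⟨hz1, hz2, hz3⟩ := c_zero n
  obtain ⟨hd1, hd2, hd3⟩ := c_end hn
  have hcast : ((20 * n : ℕ) : ℤ) = 20 * (n : ℤ) := by
    push_cast
    rfl
  refine ⟨?_, ?_⟩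
  · obtain ⟨s, v, hs, hv, hsv⟩ := hA
    have hS := SP_shift hN ω
    have e1 : gr (pull (20 * n) (Rp n) ω) ≤ lg (SP (20 * n) ω) :=
      gr_le_lg fun e he => SP_of hn (Or.inl he)
    have h0 := hv 0
    have h1 := hv 1
    rw [hc1] at h0
    rw [hc2] at h1
    have hT : co n TT4 = ((-(n : ℤ), 0) : V) + (((20 * n : ℕ) : ℤ), -((20 * n : ℕ) : ℤ)) := by
      rw [hd1, hcast]
      show ((19 * (n : ℤ), -(20 * (n : ℤ))) : V) = (-(n : ℤ) + 20 * (n : ℤ), 0 + -(20 * (n : ℤ)))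
      exact Prod.ext (by ring) (by ring)
    have hR : ∀ j ≤ TT4, Ring (co n j) (rr 2 n : ℤ) (pull (20 * n) (RN (Lo n)) ω) := by
      intro j hj
      exact hB (co n j, (rr 2 n : ℤ)) (mem_Lo.2 ⟨j, hj, rfl⟩)
    have hl := link_S hS hr (fun j _ => co_step n j) (fun e he => SP_of hn (Or.inr he))
      (fun e he => SP_of hn (Or.inl he)) hR hz1 hT h0 h1
    have h2 : (lg (SP (20 * n) ω)).Reachable (s 0) (v 0) := (hsv 0).mono e1
    have h3 : (lg (SP (20 * n) ω)).Reachable (v 1) (s 1) := ((hsv 1).mono e1).symm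
    have h4 := (h2.trans hl).trans (lg_shift hS h3)
    rcases E3R_src hs with ⟨k0, k1⟩ | ⟨k0, k1⟩
    · left
      rw [k0, k1] at h4
      have e2 : (![(0, 0), (1, 0)] : Fin 2 → V) 1 + (((20 * n : ℕ) : ℤ), -((20 * n : ℕ) : ℤ)) =
          (1 + ((20 * n : ℕ) : ℤ), -((20 * n : ℕ) : ℤ)) := by
        show ((1 + ((20 * n : ℕ) : ℤ), 0 + -((20 * n : ℕ) : ℤ)) : V) = _
        rw [zero_add]
      rw [e2] at h4
      exact h4
    · right
      rw [k0, k1] at h4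
      have e2 : (![(0, 0), (1, 0)] : Fin 2 → V) 0 + (((20 * n : ℕ) : ℤ), -((20 * n : ℕ) : ℤ)) =
          (((20 * n : ℕ) : ℤ), -((20 * n : ℕ) : ℤ)) := by
        show ((0 + ((20 * n : ℕ) : ℤ), 0 + -((20 * n : ℕ) : ℤ)) : V) = _
        rw [zero_add, zero_add]
      rw [e2] at h4
      exact h4
  · obtain ⟨s, v, hs, hv, hsv⟩ := hD
    have hS := SD_shift (m := m) hN ω
    have e1 : gr (pd (20 * n) (Rm n) ω) ≤ lg (SD (20 * n) m ω) :=
      gr_le_lg fun e he => SD_of hn hm (Or.inl he)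
    have h0 := hv 0
    have h1 := hv 1
    rw [hc3] at h0
    rw [hc4] at h1
    have hT0 : cu n TT4 = ((0, (n : ℤ)) : V) + (((20 * n : ℕ) : ℤ), -((20 * n : ℕ) : ℤ)) := by
      rw [hd2, hcast]
      show ((20 * (n : ℤ), -(19 * (n : ℤ))) : V) = (0 + 20 * (n : ℤ), (n : ℤ) + -(20 * (n : ℤ)))
      exact Prod.ext (by ring) (by ring)
    have hT1 : cl n TT4 = ((0, -(n : ℤ)) : V) + (((20 * n : ℕ) : ℤ), -((20 * n : ℕ) : ℤ)) := by
      rw [hd3, hcast]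
      show ((20 * (n : ℤ), -(21 * (n : ℤ))) : V) = (0 + 20 * (n : ℤ), -(n : ℤ) + -(20 * (n : ℤ)))
      exact Prod.ext (by ring) (by ring)
    have hR0 : ∀ j ≤ TT4, Ring (cu n j) (rr 2 n : ℤ) (pd (20 * n) (ud (RN (Ld n))) ω) := by
      intro j hj
      exact hB' (cu n j, (rr 2 n : ℤ)) (mem_Ld.2 (Or.inl ⟨j, hj, rfl⟩))
    have hR1 : ∀ j ≤ TT4, Ring (cl n j) (rr 2 n : ℤ) (pd (20 * n) (ud (RN (Ld n))) ω) := by
      intro j hj
      exact hB' (cl n j, (rr 2 n : ℤ)) (mem_Ld.2 (Or.inr ⟨j, hj, rfl⟩))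
    have hl0 := link_S hS hr (fun j _ => cu_step n j) (fun e he => SD_of hn hm (Or.inr he))
      (fun e he => SD_of hn hm (Or.inl he)) hR0 hz2 hT0 h0 h0
    have hl1 := link_S hS hr (fun j _ => cl_step n j) (fun e he => SD_of hn hm (Or.inr he))
      (fun e he => SD_of hn hm (Or.inl he)) hR1 hz3 hT1 h1 h1
    have g0 : (lg (SD (20 * n) m ω)).Reachable (s 0) (v 0) := (hsv 0).mono e1
    have g1 : (lg (SD (20 * n) m ω)).Reachable (s 1) (v 1) := (hsv 1).mono e1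
    have h4 := (g0.trans hl0).trans (lg_shift hS g0.symm)
    have h5 := (g1.trans hl1).trans (lg_shift hS g1.symm)
    have e2 : (![(0, 0), (0, -1)] : Fin 2 → V) 0 + (((20 * n : ℕ) : ℤ), -((20 * n : ℕ) : ℤ)) =
        (((20 * n : ℕ) : ℤ), -((20 * n : ℕ) : ℤ)) := by
      show ((0 + ((20 * n : ℕ) : ℤ), 0 + -((20 * n : ℕ) : ℤ)) : V) = _
      rw [zero_add, zero_add]
    have e3 : (![(0, 0), (0, -1)] : Fin 2 → V) 1 + (((20 * n : ℕ) : ℤ), -((20 * n : ℕ) : ℤ)) =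
        (((20 * n : ℕ) : ℤ), -1 - ((20 * n : ℕ) : ℤ)) := by
      show ((0 + ((20 * n : ℕ) : ℤ), -1 + -((20 * n : ℕ) : ℤ)) : V) = _
      rw [zero_add, ← sub_eq_add_neg]
    rcases E3R_src hs with ⟨k0, k1⟩ | ⟨k0, k1⟩
    · rw [k0, e2] at h4
      rw [k1, e3] at h5
      exact ⟨h4, h5⟩
    · rw [k0, e3] at h4
      rw [k1, e2] at h5
      exact ⟨h5, h4⟩

end

end FKN
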