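import Pool.Agent.Lib.MP_216314_pr.N.EDef

/-!
# Strands and their sides

* `ncp_symm`: every step of `NSt` can be undone by one step: arcs by `Pat.inv`, glue because `(!(!b)) = b` and the condition depends on `u.2` only.
* `wl_iff`: (→) if `NCp P Q u v` and `S` is closed (`LCl`) with `u ∈ S`, then `v ∈ S` by induction along the steps (`top`, `bot`; `glue` in both
  directions, `tb L 2 2 x = x` since `(2 : ℤ) - 2 = 0`; for the glue step from `(true, x)` or `(false, x)` split on `u.1`). (←) take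
  `S = {w | NCp P Q u w}`.
* `gc_side`: induction on `NCp` (`Relation.ReflTransGen`, last step `v → w`); it is enough to show for one step `v → w`:
  either `GC v w` and `GC (v.1, v.2 + 1) (w.1, w.2 + 1)` (glue) or `GC v (w.1, w.2 + 1)` and `GC (v.1, v.2 + 1) w` (arc), then combine the four cases by
  transitivity. Arc `x → y = α.f x` (the same for `P`, `Q`): if `x < y`: `reg_inside` gives `Reg α (x + 1) y`, `reg_outside` gives `Reg α x (y + 1)`;
  if `y < x` apply them to `y` (`α.f y = x`) and use `reg_symm`. Glue at `x` with `2 ≤ x % L`: the gaps `x` and `x + 1` satisfy `¬ L ∣ x - 1` and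
  `¬ L ∣ x` (`L ≥ 2` by `Pat.two_le`; if `L ∣ x - 1` then `x % L = 1` (`L ≥ 2`), if `L ∣ x` then `x % L = 0`).
-/

set_option autoImplicit false

noncomputable section

namespace CY

open Finset FKI FKP

section

variable {L : ℕ} {P Q : Pat L}

theorem EA_step_symm {u v : Bool × ℤ} (h : NSt P Q u v) : NSt P Q v u := by
  obtain ⟨b, x⟩ := u
  rcases h with ⟨h1, h2⟩ | ⟨h1, h2⟩ | ⟨h1, h2⟩
  · change b = true at h1
    subst h1
    rw [h2]
    refine Or.inl ⟨rfl, ?_⟩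
    show (true, x) = (true, Q.f (Q.f x))
    rw [Q.inv]
  · change b = false at h1
    subst h1
    rw [h2]
    refine Or.inr (Or.inl ⟨rfl, ?_⟩)
    show (false, x) = (false, P.f (P.f x))
    rw [P.inv]
  · rw [h2]
    refine Or.inr (Or.inr ⟨h1, ?_⟩)
    show (b, x) = (!(!b), x)
    rw [Bool.not_not]

theorem EA_tb (x : ℤ) : tb L 2 2 x = x := by
  unfold tb
  rw [sub_self, zero_mul, add_zero]

theorem EA_closed1 {S : Set (Bool × ℤ)} (hS : LCl 2 2 P Q S) {u v : Bool × ℤ} (h : NSt P Q u v)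
    (hu : u ∈ S) : v ∈ S := by
  obtain ⟨s, x⟩ := u
  rcases h with ⟨h1, h2⟩ | ⟨h1, h2⟩ | ⟨h1, h2⟩
  · change s = true at h1
    subst h1
    rw [h2]
    exact hS.top _ hu
  · change s = false at h1
    subst h1
    rw [h2]
    exact hS.bot _ hu
  · rw [h2]
    have h3 := hS.glue x (by exact_mod_cast h1)
    rw [EA_tb] at h3
    cases s
    · exact h3.2 hu
    · exact h3.1 hu

theorem EA_closed {S : Set (Bool × ℤ)} (hS : LCl 2 2 P Q S) {u v : Bool × ℤ} (h : NCp P Q u v)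
    (hu : u ∈ S) : v ∈ S := by
  induction h with
  | refl => exact hu
  | tail _ hbc ih => exact EA_closed1 hS hbc ih

theorem EA_lcl (u : Bool × ℤ) : LCl 2 2 P Q {w | NCp P Q u w} := by
  refine ⟨?_, ?_, ?_⟩
  · intro x hx
    exact Relation.ReflTransGen.tail hx (Or.inl ⟨rfl, rfl⟩)
  · intro x hx
    exact Relation.ReflTransGen.tail hx (Or.inr (Or.inl ⟨rfl, rfl⟩))
  · intro x hx
    rw [EA_tb]
    have h1 : 2 ≤ x % (L : ℤ) := by exact_mod_cast hx
    constructor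
    · intro h
      exact Relation.ReflTransGen.tail h (Or.inr (Or.inr ⟨h1, rfl⟩))
    · intro h
      exact Relation.ReflTransGen.tail h (Or.inr (Or.inr ⟨h1, rfl⟩))

theorem EA_nd (hL : 2 ≤ L) {x : ℤ} (h : 2 ≤ x % (L : ℤ)) :
    ¬ (L : ℤ) ∣ x - 1 ∧ ¬ (L : ℤ) ∣ x + 1 - 1 := by
  have hL' : (2 : ℤ) ≤ L := by exact_mod_cast hL
  constructor
  · rintro ⟨c, hc⟩
    have e : x = 1 + L * c := by linarith
    rw [e, Int.add_mul_emod_self_left, Int.emod_eq_of_lt (by omega) (by omega)] at h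
    omega
  · rintro ⟨c, hc⟩
    have e : x = L * c := by linarith
    rw [e, Int.mul_emod_right] at h
    omega

theorem EA_step {v w : Bool × ℤ} (h : NSt P Q v w) :
    (GC P Q v w ∧ GC P Q (v.1, v.2 + 1) (w.1, w.2 + 1)) ∨
      (GC P Q v (w.1, w.2 + 1) ∧ GC P Q (v.1, v.2 + 1) w) := by
  obtain ⟨b, x⟩ := v
  rcases h with ⟨h1, h2⟩ | ⟨h1, h2⟩ | ⟨h1, h2⟩
  · change b = true at h1
    subst h1
    rw [h2]
    refine Or.inr ?_
    rcases lt_or_gt_of_ne (Q.ne x).symm with h3 | h3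
    · have r1 := reg_inside Q x h3
      have r2 := reg_outside Q x h3
      exact ⟨Relation.EqvGen.rel _ _ (Or.inl ⟨rfl, rfl, r2⟩),
        Relation.EqvGen.rel _ _ (Or.inl ⟨rfl, rfl, r1⟩)⟩
    · have h4 : Q.f x < Q.f (Q.f x) := by rw [Q.inv]; exact h3
      have r1 := reg_inside Q (Q.f x) h4
      have r2 := reg_outside Q (Q.f x) h4
      rw [Q.inv] at r1 r2
      exact ⟨Relation.EqvGen.rel _ _ (Or.inl ⟨rfl, rfl, reg_symm Q r1⟩),
        Relation.EqvGen.rel _ _ (Or.inl ⟨rfl, rfl, reg_symm Q r2⟩)⟩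
  · change b = false at h1
    subst h1
    rw [h2]
    refine Or.inr ?_
    rcases lt_or_gt_of_ne (P.ne x).symm with h3 | h3
    · have r1 := reg_inside P x h3
      have r2 := reg_outside P x h3
      exact ⟨Relation.EqvGen.rel _ _ (Or.inr (Or.inl ⟨rfl, rfl, r2⟩)),
        Relation.EqvGen.rel _ _ (Or.inr (Or.inl ⟨rfl, rfl, r1⟩))⟩
    · have h4 : P.f x < P.f (P.f x) := by rw [P.inv]; exact h3
      have r1 := reg_inside P (P.f x) h4
      have r2 := reg_outside P (P.f x) h4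
      rw [P.inv] at r1 r2
      exact ⟨Relation.EqvGen.rel _ _ (Or.inr (Or.inl ⟨rfl, rfl, reg_symm P r1⟩)),
        Relation.EqvGen.rel _ _ (Or.inr (Or.inl ⟨rfl, rfl, reg_symm P r2⟩))⟩
  · rw [h2]
    obtain ⟨n1, n2⟩ := EA_nd P.two_le h1
    exact Or.inl ⟨Relation.EqvGen.rel _ _ (Or.inr (Or.inr ⟨rfl, n1⟩)),
      Relation.EqvGen.rel _ _ (Or.inr (Or.inr ⟨rfl, n2⟩))⟩

theorem ncp_symm {u v : Bool × ℤ} (h : NCp P Q u v) : NCp P Q v u := by
  induction h with
  | refl => exact Relation.ReflTransGen.refl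
  | tail _ hbc ih => exact Relation.ReflTransGen.head (EA_step_symm hbc) ih

theorem wl_iff : WL 2 2 P Q ↔ ∀ u v, IsLeg 2 2 u → IsLeg 2 2 v → u ≠ v → ¬ NCp P Q u v := by
  constructor
  · intro hw u v hu hv huv hc
    obtain ⟨S, hS, h1, h2⟩ := hw u v hu hv huv
    exact h2 (EA_closed hS hc h1)
  · intro hw u v hu hv huv
    exact ⟨{w | NCp P Q u w}, EA_lcl u, Relation.ReflTransGen.refl, hw u v hu hv huv⟩

theorem gc_side {u v : Bool × ℤ} (h : NCp P Q u v) :
    (GC P Q u v ∧ GC P Q (u.1, u.2 + 1) (v.1, v.2 + 1)) ∨ (GC P Q u (v.1, v.2 + 1) ∧ GC P Q (u.1, u.2 + 1) v) := by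
  induction h with
  | refl => exact Or.inl ⟨Relation.EqvGen.refl _, Relation.EqvGen.refl _⟩
  | tail _ hbc ih =>
    have hs := EA_step hbc
    rcases ih with ⟨a1, a2⟩ | ⟨a1, a2⟩
    · rcases hs with ⟨b1, b2⟩ | ⟨b1, b2⟩
      · exact Or.inl ⟨a1.trans _ _ _ b1, a2.trans _ _ _ b2⟩
      · exact Or.inr ⟨a1.trans _ _ _ b1, a2.trans _ _ _ b2⟩
    · rcases hs with ⟨b1, b2⟩ | ⟨b1, b2⟩
      · exact Or.inr ⟨a1.trans _ _ _ b2, a2.trans _ _ _ b1⟩
      · exact Or.inl ⟨a1.trans _ _ _ b2, a2.trans _ _ _ b1⟩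

end

end CY
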