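import Pool.Agent.Lib.MP_216314_pr.N.E3Def
import Pool.Agent.Lib.MP_216314_pr.N.EA

/-!
# Criterion: if every sector is connected to a sector of a neighbouring copy then no two legs are connected

PROOF of `wl_of_sectors`. By `wl_iff` (EA) suppose `NCp P Q u v` with two legs `u ≠ v` of the copy `0` (`0 ≤ u.2 < 2`, `0 ≤ v.2 < 2`).
(1) Let `arc w = (w.1, if w.1 = true then Q.f w.2 else P.f w.2)`, `flip w = (!w.1, w.2)`, and `f : ℕ → Bool × ℤ`, `f 0 = u`, `f (k + 1) = arc (f k)` for even `k`,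
`flip (f k)` for odd `k`. Claim: every `w` with `NCp P Q u w` is `f k` for some `k` such that `2 ≤ (f i).2 % L` for all odd `i < k`. Induction on the path (last step
from `f k`): arc step: if `k` is even it is `f (k + 1)` (the odd `i < k + 1` are `< k`), if `k` is odd it is `arc (f k) = f (k - 1)` (`Pat.inv`). Glue step (`2 ≤ (f k).2 % L`): if `k` is
odd it is `f (k + 1)` (the new odd index `k` is allowed), if `k` is even, `k ≥ 2`: `flip (f k) = f (k - 1)`; `k = 0` is impossible since `u` is a leg (`u.2 % L = u.2 < 2`; `2 ≤ L`).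
(2) So `v = f K`, `K` is odd: if `K` were even, `K = 0` gives `v = u`, `K ≥ 2` gives `(f K).2 = (f (K - 1)).2`, `2 ≤ v.2 % L`, impossible. Hence for `0 < i < K`: `2 ≤ (f i).2 % L` (odd `i`
by the claim, even `i` since `(f i).2 = (f (i - 1)).2`).
(3) For `b : Bool`, `g : ℤ` let `z b g = ∑ i ∈ range (K + 1), (if (f i).1 = b ∧ (f i).2 < g then 1 else 0) : ZMod 2` (classical). Write `K + 1 = 2 M` and the sum as a sum over
`i < M` of the pair `2 i, 2 i + 1` (`Finset.sum_range_succ`-type induction, or define `z` so from the start).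
 (a) `Reg Q g g' → z true g = z true g'` and `Reg P g g' → z false g = z false g'`: in every pair `f (2 i + 1) = arc (f (2 i))`, both on the same side `b`; for `x = (f (2 i)).2`, `y` its partner
 (`y = α.f x`, `x = α.f y`): the contributions `[x < g] + [y < g]` and `[x < g'] + [y < g']` are equal mod 2 by `Reg` at `x` and at `y` (`Reg α g g' : ∀ x, (x < g ∧ g ≤ α.f x) ↔ (x < g' ∧ g' ≤ α.f x)`):
 `[x < g] + [y < g] = 1` iff `x < g ≤ y` or `y < g ≤ x`.
 (b) `z true g + z false g = [u.2 < g] + [v.2 < g]`: the terms `i = 2 j + 1`, `2 j + 2` (`0 ≤ j`, `2 j + 2 ≤ K`) have the same position and opposite sides, so they cancel in `z true g + z false g`; the terms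
 `i = 0`, `K` remain. So `z true g = z false g` for `g ≤ 0` and for `g ≥ 2`.
 (c) `z b (x + 1) = z b x` if `x % L < 2` and `(b, x) ≠ u`, `(b, x) ≠ v`: a term `i` with `f i = (b, x)` has `i = 0` or `i = K` by (2). For `u`: `z u.1 (u.2 + 1) = z u.1 u.2 + 1` (exactly one term, `i = 0`:
 `0 < i < K` is excluded by (2) and `i = K` by `u ≠ v`).
 (d) `z b g = 0` if `g` is small (smaller than all `(f i).2`) and if `g` is larger than all of them (pairs: both terms of a pair are on the same side, so the sum is even).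
 (e) `GC P Q w w' → z w.1 w.2 = z w'.1 w'.2` (`Relation.EqvGen` induction, `GSt`: (a), and the glue `v.2 = u.2`, `¬ L ∣ u.2 - 1`, so `u.2 ≠ 1`: (b)).
 (f) for `j ≠ 0`: all six values `z b (j L + g)`, `0 ≤ g ≤ 2` are equal, call them `ζ j` (`(c)` at the positions `j L`, `j L + 1`; `L ≥ 2`, so these are not the positions of `u`, `v`; `(b)` for `g = j L`).
 (g) `GC` is invariant under translation by multiples of `L` (`Reg α g g' → Reg α (g + j L) (g' + j L)` by `Pat.per_mul`, look for `reg_add`, or prove it here).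
(4) Take any sector, e.g. `h true 0`: it is connected to a sector of the copy `1` or `-1`; translating by `j L`: `ζ j = ζ (j + 1)` for all `j ≥ 1` and for all `j ≤ -2`. By (d) `ζ j = 0` for `j` large and for `-j`
large, so `ζ j = 0` for all `j ≠ 0`. Then all six values `z b g`, `0 ≤ g ≤ 2`, are `0` by the hypothesis (`ζ 1` or `ζ (-1)`; in the second case of the disjunction translate by `- L`). But `z u.1 (u.2 + 1) = z u.1 u.2 + 1`: contradiction.
-/

set_option autoImplicit false

noncomputable section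

namespace CY

open Finset FKI FKP

section

variable {L : ℕ}

theorem E3A_reg (α : Pat L) (j : ℤ) {g g' : ℤ} (h : Reg α g g') : Reg α (g + j * L) (g' + j * L) := by
  intro x
  have h1 := h (x + -j * L)
  have h2 := α.per_mul x (-j)
  rw [h2] at h1
  obtain ⟨c, hc⟩ : ∃ c : ℤ, c = j * L := ⟨_, rfl⟩
  have e : -j * (L : ℤ) = -c := by rw [hc]; ring
  rw [e] at h1
  rw [← hc]
  constructor
  · intro h3
    have h4 := h1.1 (by omega)
    omega
  · intro h3
    have h4 := h1.2 (by omega)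
    omega

/-- `GC` is invariant under translation -/
theorem gc_shift {L : ℕ} {P Q : Pat L} (j : ℤ) {u v : Bool × ℤ} (h : GC P Q u v) :
    GC P Q (u.1, u.2 + j * L) (v.1, v.2 + j * L) := by
  unfold GC at h ⊢
  induction h with
  | rel u v h1 =>
    refine Relation.EqvGen.rel _ _ ?_
    rcases h1 with ⟨a, b, c⟩ | ⟨a, b, c⟩ | ⟨a, b⟩
    · exact Or.inl ⟨a, b, E3A_reg Q j c⟩
    · exact Or.inr (Or.inl ⟨a, b, E3A_reg P j c⟩)
    · refine Or.inr (Or.inr ⟨?_, ?_⟩)
      · show v.2 + j * L = u.2 + j * L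
        rw [a]
      · show ¬ (L : ℤ) ∣ u.2 + j * L - 1
        intro h2
        apply b
        have h3 := dvd_sub h2 (dvd_mul_left (L : ℤ) j)
        have e : u.2 + j * (L : ℤ) - 1 - j * L = u.2 - 1 := by ring
        rwa [e] at h3
  | refl u => exact Relation.EqvGen.refl _
  | symm u v _ ih => exact ih.symm _ _
  | trans u v w _ _ ih1 ih2 => exact ih1.trans _ _ _ ih2

/-- the pattern of a side -/
def E3A_sd (P Q : Pat L) (b : Bool) : Pat L := if b = true then Q else P

def E3A_arc (P Q : Pat L) (w : Bool × ℤ) : Bool × ℤ := (w.1, (E3A_sd P Q w.1).f w.2)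

def E3A_flp (w : Bool × ℤ) : Bool × ℤ := (!w.1, w.2)

/-- the strand which starts at `u` -/
def E3A_sq (P Q : Pat L) (u : Bool × ℤ) : ℕ → Bool × ℤ
  | 0 => u
  | k + 1 => if k % 2 = 0 then E3A_arc P Q (E3A_sq P Q u k) else E3A_flp (E3A_sq P Q u k)

variable {P Q : Pat L} {u : Bool × ℤ}

theorem E3A_odd (i : ℕ) : E3A_sq P Q u (2 * i + 1) = E3A_arc P Q (E3A_sq P Q u (2 * i)) := by
  have h : (2 * i) % 2 = 0 := by omega
  rw [E3A_sq, if_pos h]

theorem E3A_even (i : ℕ) : E3A_sq P Q u (2 * i + 2) = E3A_flp (E3A_sq P Q u (2 * i + 1)) := by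
  have h : ¬ (2 * i + 1) % 2 = 0 := by omega
  rw [E3A_sq, if_neg h]

theorem E3A_aa (w : Bool × ℤ) : E3A_arc P Q (E3A_arc P Q w) = w := by
  unfold E3A_arc
  simp only
  rw [(E3A_sd P Q w.1).inv]

theorem E3A_ff (w : Bool × ℤ) : E3A_flp (E3A_flp w) = w := by
  unfold E3A_flp
  simp

theorem E3A_step {w c : Bool × ℤ} (h : NSt P Q w c) : c = E3A_arc P Q w ∨ (2 ≤ w.2 % (L : ℤ) ∧ c = E3A_flp w) := by
  rcases h with ⟨h1, h2⟩ | ⟨h1, h2⟩ | h
  · left
    rw [h2]
    unfold E3A_arc E3A_sd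
    rw [h1, if_pos rfl]
  · left
    rw [h2]
    unfold E3A_arc E3A_sd
    rw [h1, if_neg (by decide)]
  · exact Or.inr h

theorem E3A_leg (hL : 2 ≤ L) {w : Bool × ℤ} (h : IsLeg 2 2 w) : 0 ≤ w.2 ∧ w.2 < 2 ∧ w.2 % (L : ℤ) = w.2 := by
  obtain ⟨h1, h2⟩ := h
  have h3 : w.2 < 2 := by
    rcases h2 with h2 | h2
    · exact_mod_cast h2.2
    · exact_mod_cast h2.2
  refine ⟨h1, h3, Int.emod_eq_of_lt h1 ?_⟩
  have : (2 : ℤ) ≤ L := by exact_mod_cast hL
  omega

theorem E3A_reach (hL : 2 ≤ L) (hu : IsLeg 2 2 u) {w : Bool × ℤ} (h : NCp P Q u w) :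
    ∃ k : ℕ, w = E3A_sq P Q u k ∧ ∀ i : ℕ, 2 * i + 1 < k → 2 ≤ (E3A_sq P Q u (2 * i + 1)).2 % (L : ℤ) := by
  have hl := E3A_leg hL hu
  induction h with
  | refl => exact ⟨0, rfl, fun i hi => by omega⟩
  | @tail b c _ hbc ih =>
    obtain ⟨k, hk, hi⟩ := ih
    rcases E3A_step hbc with h1 | ⟨h0, h1⟩
    · rcases Nat.even_or_odd' k with ⟨i, h2 | h2⟩
      · refine ⟨2 * i + 1, ?_, fun j hj => hi j (by omega)⟩
        rw [h1, hk, h2, E3A_odd]
      · refine ⟨2 * i, ?_, fun j hj => hi j (by omega)⟩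
        rw [h1, hk, h2, E3A_odd, E3A_aa]
    · rcases Nat.even_or_odd' k with ⟨i, h2 | h2⟩
      · rcases Nat.eq_zero_or_pos i with h3 | h3
        · exfalso
          rw [hk, h2, h3] at h0
          have h4 : 2 ≤ u.2 % (L : ℤ) := h0
          rw [hl.2.2] at h4
          omega
        · obtain ⟨i', hi'⟩ : ∃ i', i = i' + 1 := ⟨i - 1, by omega⟩
          refine ⟨2 * i' + 1, ?_, fun j hj => hi j (by omega)⟩
          have e : 2 * i = 2 * i' + 2 := by omega
          rw [h1, hk, h2, e, E3A_even, E3A_ff]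
      · refine ⟨2 * i + 2, ?_, fun j hj => ?_⟩
        · rw [h1, hk, h2, E3A_even]
        · rcases Nat.lt_or_ge (2 * j + 1) k with h3 | h3
          · exact hi j h3
          · have e : 2 * j + 1 = k := by omega
            rw [e, ← hk]
            exact h0

open Classical in
/-- contribution of a node -/
def E3A_t (b : Bool) (g : ℤ) (w : Bool × ℤ) : ZMod 2 := if w.1 = b ∧ w.2 < g then 1 else 0

/-- the parity function -/
def E3A_z (P Q : Pat L) (u : Bool × ℤ) (M : ℕ) (b : Bool) (g : ℤ) : ZMod 2 :=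
  ∑ i ∈ range M, (E3A_t b g (E3A_sq P Q u (2 * i)) + E3A_t b g (E3A_sq P Q u (2 * i + 1)))

theorem E3A_two (a : ZMod 2) : a + a = 0 := by
  revert a
  decide

theorem E3A_pair {b : Bool} {g g' : ℤ} (h : Reg (E3A_sd P Q b) g g') (w : Bool × ℤ) :
    E3A_t b g w + E3A_t b g (E3A_arc P Q w) = E3A_t b g' w + E3A_t b g' (E3A_arc P Q w) := by
  obtain ⟨s, x⟩ := w
  unfold E3A_arc E3A_t
  simp only
  by_cases hs : s = b
  · subst hs
    have h1 := h x
    have h2 := h ((E3A_sd P Q s).f x)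
    rw [(E3A_sd P Q s).inv] at h2
    obtain ⟨y, hy⟩ : ∃ y, y = (E3A_sd P Q s).f x := ⟨_, rfl⟩
    rw [← hy] at h1 h2 ⊢
    simp only [true_and]
    split_ifs <;> first | rfl | (exfalso; omega)
  · simp only [hs, false_and, if_false]

theorem E3A_zreg {M : ℕ} {b : Bool} {g g' : ℤ} (h : Reg (E3A_sd P Q b) g g') : E3A_z P Q u M b g = E3A_z P Q u M b g' := by
  unfold E3A_z
  refine sum_congr rfl fun i _ => ?_
  rw [E3A_odd]
  exact E3A_pair h _

open Classical in
def E3A_s (g : ℤ) (w : Bool × ℤ) : ZMod 2 := if w.2 < g then 1 else 0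

theorem E3A_ts (g : ℤ) (w : Bool × ℤ) : E3A_t true g w + E3A_t false g w = E3A_s g w := by
  obtain ⟨s, x⟩ := w
  unfold E3A_t E3A_s
  cases s <;> by_cases h : x < g <;> simp [h]

theorem E3A_glue (M : ℕ) (g : ℤ) : E3A_z P Q u (M + 1) true g + E3A_z P Q u (M + 1) false g =
    E3A_s g u + E3A_s g (E3A_sq P Q u (2 * M + 1)) := by
  have key : ∀ M : ℕ, ∑ i ∈ range (M + 1), (E3A_s g (E3A_sq P Q u (2 * i)) + E3A_s g (E3A_sq P Q u (2 * i + 1))) =
      E3A_s g u + E3A_s g (E3A_sq P Q u (2 * M + 1)) := by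
    intro M
    induction M with
    | zero =>
      rw [zero_add, sum_range_one]
      rfl
    | succ M ih =>
      rw [sum_range_succ, ih]
      have e1 : 2 * (M + 1) = 2 * M + 2 := by ring
      have e2 : E3A_s g (E3A_sq P Q u (2 * M + 2)) = E3A_s g (E3A_sq P Q u (2 * M + 1)) := by
        rw [E3A_even]
        rfl
      rw [e1, e2]
      have e3 := E3A_two (E3A_s g (E3A_sq P Q u (2 * M + 1)))
      linear_combination e3
  rw [← key M]
  unfold E3A_z
  rw [← sum_add_distrib]
  refine sum_congr rfl fun i _ => ?_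
  rw [← E3A_ts, ← E3A_ts]
  ring

theorem E3A_jump {b : Bool} {x : ℤ} {w : Bool × ℤ} (h : w ≠ (b, x)) : E3A_t b (x + 1) w = E3A_t b x w := by
  obtain ⟨s, y⟩ := w
  unfold E3A_t
  simp only
  by_cases hs : s = b
  · subst hs
    have hy : y ≠ x := fun c => h (by rw [c])
    simp only [true_and]
    split_ifs <;> first | rfl | (exfalso; omega)
  · simp only [hs, false_and, if_false]

theorem E3A_jump1 (b : Bool) (x : ℤ) : E3A_t b (x + 1) (b, x) = E3A_t b x (b, x) + 1 := by
  unfold E3A_t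
  simp

theorem E3A_bd (P Q : Pat L) (u : Bool × ℤ) (n : ℕ) :
    ∃ B : ℤ, ∀ i < n, -B ≤ (E3A_sq P Q u i).2 ∧ (E3A_sq P Q u i).2 < B := by
  induction n with
  | zero => exact ⟨0, fun i hi => by omega⟩
  | succ n ih =>
    obtain ⟨B, hB⟩ := ih
    refine ⟨max B (|(E3A_sq P Q u n).2| + 1), fun i hi => ?_⟩
    rcases Nat.lt_or_ge i n with h | h
    · have := hB i h
      have := le_max_left B (|(E3A_sq P Q u n).2| + 1)
      omega
    · have e : i = n := by omega
      rw [e]
      have h1 := le_max_right B (|(E3A_sq P Q u n).2| + 1)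
      have h2 := neg_abs_le (E3A_sq P Q u n).2
      have h3 := le_abs_self (E3A_sq P Q u n).2
      omega

/-- the parity function vanishes far away -/
theorem E3A_far (P Q : Pat L) (u : Bool × ℤ) (M : ℕ) : ∃ B : ℤ, 0 ≤ B ∧ ∀ (b : Bool) (g : ℤ), g ≤ -B ∨ B ≤ g → E3A_z P Q u M b g = 0 := by
  obtain ⟨B, hB⟩ := E3A_bd P Q u (2 * M)
  refine ⟨max B 0, le_max_right _ _, fun b g hg => ?_⟩
  unfold E3A_z
  refine sum_eq_zero fun i hi => ?_
  rw [mem_range] at hi
  have h1 := hB (2 * i) (by omega)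
  have h2 := hB (2 * i + 1) (by omega)
  have hm := le_max_left B 0
  have hs : (E3A_sq P Q u (2 * i + 1)).1 = (E3A_sq P Q u (2 * i)).1 := by
    rw [E3A_odd]
    rfl
  unfold E3A_t
  rcases hg with hg | hg
  · rw [if_neg (fun c => by omega), if_neg (fun c => by omega), add_zero]
  · rw [hs]
    by_cases h3 : (E3A_sq P Q u (2 * i)).1 = b
    · rw [if_pos ⟨h3, by omega⟩, if_pos ⟨h3, by omega⟩]
      exact E3A_two 1
    · rw [if_neg (fun c => h3 c.1), if_neg (fun c => h3 c.1), add_zero]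

end

/-- every sector `(b, g)`, `0 ≤ g ≤ 2`, is connected to a sector of a neighbouring copy: then the legs are not connected -/
theorem wl_of_sectors {L : ℕ} {P Q : Pat L}
    (h : ∀ (b : Bool) (g : ℤ), 0 ≤ g → g ≤ 2 → ∃ (b' : Bool) (g' : ℤ), 0 ≤ g' ∧ g' ≤ 2 ∧
      (GC P Q (b, g) (b', g' + L) ∨ GC P Q (b', g') (b, g + L))) : WL 2 2 P Q := by
  rw [wl_iff]
  intro u v hu hv huv hc
  have hL : 2 ≤ L := P.two_le
  have hLz : (2 : ℤ) ≤ L := by exact_mod_cast hL
  have hlu := E3A_leg hL hu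
  have hlv := E3A_leg hL hv
  obtain ⟨K, hK, hn⟩ := E3A_reach hL hu hc
  -- `K` is odd
  obtain ⟨M, hM⟩ : ∃ M, K = 2 * M + 1 := by
    rcases Nat.even_or_odd' K with ⟨i, h1 | h1⟩
    · exfalso
      rcases Nat.eq_zero_or_pos i with h2 | h2
      · rw [h1, h2] at hK
        exact huv hK.symm
      · obtain ⟨i', hi'⟩ : ∃ i', i = i' + 1 := ⟨i - 1, by omega⟩
        have h3 := hn i' (by omega)
        have e : 2 * i = 2 * i' + 2 := by omega
        rw [h1, e, E3A_even] at hK
        have h4 : v.2 = (E3A_sq P Q u (2 * i' + 1)).2 := by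
          rw [hK]
          rfl
        rw [← h4, hlv.2.2] at h3
        omega
    · exact ⟨i, h1⟩
  -- the inner nodes are not legs
  have hin : ∀ i : ℕ, 0 < i → i < K → 2 ≤ (E3A_sq P Q u i).2 % (L : ℤ) := by
    intro i h1 h2
    rcases Nat.even_or_odd' i with ⟨j, h3 | h3⟩
    · obtain ⟨j', hj'⟩ : ∃ j', j = j' + 1 := ⟨j - 1, by omega⟩
      have e : 2 * j = 2 * j' + 2 := by omega
      have h4 := hn j' (by omega)
      rw [h3, e, E3A_even]
      exact h4
    · rw [h3]
      exact hn j (by omega)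
  have hne : ∀ (i : ℕ), i ≤ K → ∀ (b : Bool) (x : ℤ), x % (L : ℤ) < 2 → (b, x) ≠ u → (b, x) ≠ v →
      E3A_sq P Q u i ≠ (b, x) := by
    intro i hi b x hx h1 h2 h3
    rcases Nat.eq_zero_or_pos i with h4 | h4
    · rw [h4] at h3
      exact h1 h3.symm
    · rcases Nat.lt_or_ge i K with h5 | h5
      · have h6 := hin i h4 h5
        rw [h3] at h6
        have h7 : 2 ≤ x % (L : ℤ) := h6
        omega
      · have e : i = K := by omega
        rw [e, ← hK] at h3
        exact h2 h3.symm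
  obtain ⟨z, hz⟩ : ∃ z : Bool → ℤ → ZMod 2, z = E3A_z P Q u (M + 1) := ⟨_, rfl⟩
  have zjump : ∀ (b : Bool) (x : ℤ), x % (L : ℤ) < 2 → (b, x) ≠ u → (b, x) ≠ v → z b (x + 1) = z b x := by
    intro b x hx h1 h2
    rw [hz]
    unfold E3A_z
    refine sum_congr rfl fun i hi => ?_
    rw [mem_range] at hi
    rw [E3A_jump (hne (2 * i) (by omega) b x hx h1 h2), E3A_jump (hne (2 * i + 1) (by omega) b x hx h1 h2)]
  have zu : z u.1 (u.2 + 1) = z u.1 u.2 + 1 := by
    have hnu : ∀ i : ℕ, 0 < i → i ≤ K → E3A_sq P Q u i ≠ (u.1, u.2) := by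
      intro i h1 h2 h3
      rcases Nat.lt_or_ge i K with h4 | h4
      · have h5 := hin i h1 h4
        rw [h3] at h5
        have h6 : 2 ≤ u.2 % (L : ℤ) := h5
        rw [hlu.2.2] at h6
        omega
      · have e : i = K := by omega
        rw [e, ← hK] at h3
        exact huv h3.symm
    rw [hz]
    unfold E3A_z
    rw [sum_range_succ', sum_range_succ']
    have e1 : ∑ i ∈ range M, (E3A_t u.1 (u.2 + 1) (E3A_sq P Q u (2 * (i + 1))) +
        E3A_t u.1 (u.2 + 1) (E3A_sq P Q u (2 * (i + 1) + 1))) =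
        ∑ i ∈ range M, (E3A_t u.1 u.2 (E3A_sq P Q u (2 * (i + 1))) + E3A_t u.1 u.2 (E3A_sq P Q u (2 * (i + 1) + 1))) := by
      refine sum_congr rfl fun i hi => ?_
      rw [mem_range] at hi
      rw [E3A_jump (hnu (2 * (i + 1)) (by omega) (by omega)), E3A_jump (hnu (2 * (i + 1) + 1) (by omega) (by omega))]
    have e2 : E3A_t u.1 (u.2 + 1) (E3A_sq P Q u (2 * 0)) = E3A_t u.1 u.2 (E3A_sq P Q u (2 * 0)) + 1 := by
      have e3 : E3A_sq P Q u (2 * 0) = (u.1, u.2) := rfl
      rw [e3]
      exact E3A_jump1 _ _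
    have e4 : E3A_t u.1 (u.2 + 1) (E3A_sq P Q u (2 * 0 + 1)) = E3A_t u.1 u.2 (E3A_sq P Q u (2 * 0 + 1)) :=
      E3A_jump (hnu (2 * 0 + 1) (by omega) (by omega))
    rw [e1, e2, e4]
    ring
  have zglue : ∀ g : ℤ, g ≠ 1 → z true g = z false g := by
    intro g hg
    have h1 := E3A_glue (P := P) (Q := Q) (u := u) M g
    rw [← hz, ← hM, ← hK] at h1
    have h2 : E3A_s g u + E3A_s g v = 0 := by
      unfold E3A_s
      rcases lt_or_gt_of_ne hg with h3 | h3
      · rw [if_neg (by omega), if_neg (by omega), add_zero]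
      · rw [if_pos (by omega), if_pos (by omega)]
        exact E3A_two 1
    rw [h2] at h1
    have h3 := E3A_two (z false g)
    linear_combination h1 - h3
  have zgc : ∀ w w' : Bool × ℤ, GC P Q w w' → z w.1 w.2 = z w'.1 w'.2 := by
    intro w w' hw
    unfold GC at hw
    induction hw with
    | rel a b h1 =>
      rcases h1 with ⟨h2, h3, h4⟩ | ⟨h2, h3, h4⟩ | ⟨h2, h3⟩
      · rw [h2, h3, hz]
        exact E3A_zreg h4
      · rw [h2, h3, hz]
        exact E3A_zreg h4
      · rw [h2]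
        have h4 : a.2 ≠ 1 := by
          intro c
          apply h3
          rw [c, sub_self]
          exact dvd_zero _
        have h5 := zglue a.2 h4
        rcases Bool.eq_false_or_eq_true a.1 with e1 | e1 <;> rcases Bool.eq_false_or_eq_true b.1 with e2 | e2 <;>
          rw [e1, e2]
        · exact h5
        · exact h5.symm
    | refl a => rfl
    | symm a b _ ih => exact ih.symm
    | trans a b c _ _ ih1 ih2 => exact ih1.trans ih2
  -- one value for every copy
  have zcopy : ∀ j : ℤ, j ≠ 0 → ∀ (b : Bool) (g : ℤ), 0 ≤ g → g ≤ 2 → z b (g + j * L) = z true (j * L) := by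
    intro j hj b g h1 h2
    obtain ⟨x, hx⟩ : ∃ x : ℤ, x = j * L := ⟨_, rfl⟩
    have hxL : x ≤ -L ∨ (L : ℤ) ≤ x := by
      rcases lt_or_gt_of_ne hj with h3 | h3
      · left
        have : j * (L : ℤ) ≤ -1 * L := mul_le_mul_of_nonneg_right (by omega) (by omega)
        omega
      · right
        have : 1 * (L : ℤ) ≤ j * L := mul_le_mul_of_nonneg_right (by omega) (by omega)
        omega
    have m0 : x % (L : ℤ) = 0 := by
      rw [hx]
      exact Int.mul_emod_left j (L : ℤ)
    have m1 : (x + 1) % (L : ℤ) = 1 := by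
      rw [hx, add_comm, Int.add_mul_emod_self_right]
      exact Int.emod_eq_of_lt (by omega) (by omega)
    rw [← hx]
    have hneu : ∀ (s : Bool) (y : ℤ), (y = x ∨ y = x + 1) → (s, y) ≠ u ∧ (s, y) ≠ v := by
      intro s y hy
      constructor
      · intro c
        have := congrArg Prod.snd c
        simp only at this
        omega
      · intro c
        have := congrArg Prod.snd c
        simp only at this
        omega
    have j0 : ∀ s : Bool, z s (x + 1) = z s x := fun s =>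
      zjump s x (by omega) (hneu s x (Or.inl rfl)).1 (hneu s x (Or.inl rfl)).2
    have j1 : ∀ s : Bool, z s (x + 1 + 1) = z s (x + 1) := fun s =>
      zjump s (x + 1) (by omega) (hneu s (x + 1) (Or.inr rfl)).1 (hneu s (x + 1) (Or.inr rfl)).2
    have hgl := zglue x (by omega)
    have hb : z b x = z true x := by
      cases b
      · exact hgl.symm
      · rfl
    have hg : g = 0 ∨ g = 1 ∨ g = 2 := by omega
    rcases hg with rfl | rfl | rfl
    · rw [zero_add]
      exact hb
    · rw [add_comm, j0]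
      exact hb
    · have e : 2 + x = x + 1 + 1 := by ring
      rw [e, j1, j0]
      exact hb
  -- neighbouring copies
  have znext : ∀ j : ℤ, j ≠ 0 → j + 1 ≠ 0 → z true (j * L) = z true ((j + 1) * L) := by
    intro j h1 h2
    obtain ⟨b', g', h3, h4, h5⟩ := h true 0 le_rfl (by omega)
    rcases h5 with h5 | h5
    · have h6 := zgc _ _ (gc_shift j h5)
      simp only at h6
      rw [zcopy j h1 true 0 le_rfl (by omega)] at h6
      have e : g' + (L : ℤ) + j * L = g' + (j + 1) * L := by ring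
      rw [e, zcopy (j + 1) h2 b' g' h3 h4] at h6
      exact h6
    · have h6 := zgc _ _ (gc_shift j h5)
      simp only at h6
      rw [zcopy j h1 b' g' h3 h4] at h6
      have e : 0 + (L : ℤ) + j * L = 0 + (j + 1) * L := by ring
      rw [e, zcopy (j + 1) h2 true 0 le_rfl (by omega)] at h6
      exact h6
  obtain ⟨B, hB0, hB⟩ := E3A_far P Q u (M + 1)
  rw [← hz] at hB
  have hBL : ∀ n : ℕ, B ≤ (B.toNat + 1 + n : ℕ) * (L : ℤ) := by
    intro n
    have h1 : B ≤ (B.toNat + 1 + n : ℕ) := by push_cast; omega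
    have h2 : ((B.toNat + 1 + n : ℕ) : ℤ) * 1 ≤ (B.toNat + 1 + n : ℕ) * (L : ℤ) :=
      mul_le_mul_of_nonneg_left (by omega) (by omega)
    omega
  have zpos : ∀ n : ℕ, z true (((n : ℤ) + 1) * L) = 0 := by
    have key : ∀ n k : ℕ, z true (((n : ℤ) + 1) * L) = z true (((n : ℤ) + 1 + k) * L) := by
      intro n k
      induction k with
      | zero => simp
      | succ k ih =>
        have e : (n : ℤ) + 1 + ((k + 1 : ℕ) : ℤ) = (n : ℤ) + 1 + k + 1 := by push_cast; ring
        rw [ih, znext ((n : ℤ) + 1 + k) (by omega) (by omega), e]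
    intro n
    rw [key n B.toNat]
    refine hB true _ (Or.inr ?_)
    have h1 := hBL n
    have e : ((n : ℤ) + 1 + B.toNat) = ((B.toNat + 1 + n : ℕ) : ℤ) := by push_cast; ring
    rw [e]
    exact h1
  have zneg : ∀ n : ℕ, z true (-((n : ℤ) + 1) * L) = 0 := by
    have key : ∀ n k : ℕ, z true (-((n : ℤ) + 1) * L) = z true (-((n : ℤ) + 1 + k) * L) := by
      intro n k
      induction k with
      | zero => simp
      | succ k ih =>
        have h1 := znext (-((n : ℤ) + 1 + (k + 1 : ℕ))) (by push_cast; omega) (by push_cast; omega)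
        have e : -((n : ℤ) + 1 + (k + 1 : ℕ)) + 1 = -((n : ℤ) + 1 + k) := by push_cast; ring
        rw [e] at h1
        rw [ih, ← h1]
    intro n
    rw [key n B.toNat]
    refine hB true _ (Or.inl ?_)
    have h1 := hBL n
    have e : -((n : ℤ) + 1 + B.toNat) * (L : ℤ) = -(((B.toNat + 1 + n : ℕ) : ℤ) * L) := by push_cast; ring
    rw [e]
    omega
  have z1 : z true (1 * L) = 0 := by
    have := zpos 0
    simpa using this
  have zm1 : z true (-1 * L) = 0 := by
    have := zneg 0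
    simpa using this
  have zall : ∀ (b : Bool) (g : ℤ), 0 ≤ g → g ≤ 2 → z b g = 0 := by
    intro b g h1 h2
    obtain ⟨b', g', h3, h4, h5⟩ := h b g h1 h2
    rcases h5 with h5 | h5
    · have h6 := zgc _ _ h5
      simp only at h6
      have e : g' + (L : ℤ) = g' + 1 * L := by ring
      rw [e, zcopy 1 (by decide) b' g' h3 h4, z1] at h6
      exact h6
    · have h6 := zgc _ _ (gc_shift (-1) h5)
      simp only at h6
      have e : g + (L : ℤ) + -1 * L = g := by ring
      rw [e, zcopy (-1) (by decide) b' g' h3 h4, zm1] at h6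
      exact h6.symm
  rw [zall u.1 (u.2 + 1) (by omega) (by omega), zall u.1 u.2 hlu.1 (by omega), zero_add] at zu
  exact absurd zu (by decide)

end CY
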