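import Pool.Agent.Lib.MP_216314_pr.N.E3Def
import Pool.Agent.Lib.MP_216314_pr.N.EA

/-!
# Faces connected to a gap

PROOFS. Adaptation of `cl_zero`, `cu_zero`, `cl_diag`, `cu_diag`, `ink_zero`, `ink_low`, `ink_up`, `ink_diag` (K/KEvt) with `2 * m + r` rows below and `2 * m - r` rows above.
`ing_row`: (→) for `b = true`: `((r : ℤ) + 2 * m).toNat = 2 * m + r`, so the connection is `Reg (plr ..) g k` by `reg_pats` (K/KLow), a step `GSt` of the first kind; `b = false`: `(2 * (m : ℤ) - r).toNat = 2 * m - r`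
(`r ≤ 2 m`). (←) take `g = k`, `Relation.EqvGen.refl`.
`ing_lo`: the diagonal of the tile `(k, y)`, `y < r`, is a generator of `FE (Reg α) (2 n) (tlo n m ω) (2 m + r)`: as in `cl_diag` (write `k = j (2 n) + r'` by `exists_jr`, `h = (y + 2 m).toNat < 2 m + r`, `tlo n m ω h r' ↔ ¬ DG n ω k y` by
`dg_shift`); then both directions by transitivity of `EqvGen`; the bounds `-(2 m) ≤ y`, `y + 1 ≤ r` are checked with `omega`. For the side `true` only. `ing_up`: the same for the upper part, as in `cu_diag` (row `h = (2 m - 1 - y).toNat < 2 m - r`).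
`ing_glue`: by `ing_row` and the third kind of step in `GSt` (`v.2 = u.2 ∧ ¬ L ∣ u.2 - 1`).
`inf_side`: if `y < r` then `InG .. false k y` is false, if `r < y` then `InG .. true k y` is false (the bounds in the definition), so `b` is the only possible side; if `y = r`: in the case `Cut` we have `b = cs`; otherwise `ing_glue`.
`inf_diag`: the side `b = decide (y < r)` is right for both end points of the diagonal of the tile `(k, y)`; `inf_side` for both end points and `ing_lo` / `ing_up`.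
-/

set_option autoImplicit false

noncomputable section

namespace CY

open Finset FKI FKP

section

variable {n m r : ℕ} {α : Pat (2 * n)} {ω : Finset Edge} {u : Bool × ℤ} {cs : Bool}

theorem ing_row (hr : r ≤ 2 * m) (b : Bool) (k : ℤ) :
    InG n m r α ω u b k r ↔ GC (pur n m r α ω) (plr n m r α ω) u (b, k) := by
  have e1 : ((r : ℤ) + 2 * m).toNat = 2 * m + r := by omega
  have e2 : (2 * (m : ℤ) - r).toNat = 2 * m - r := by omega
  constructor
  · rintro ⟨g, hg, ⟨hb, _, _, h⟩ | ⟨hb, _, _, h⟩⟩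
    · subst hb
      rw [e1] at h
      exact hg.trans _ _ _ (Relation.EqvGen.rel _ _ (Or.inl ⟨rfl, rfl, (reg_pats α (tlo n m ω) (2 * m + r) g k).2 h⟩))
    · subst hb
      rw [e2] at h
      exact hg.trans _ _ _
        (Relation.EqvGen.rel _ _ (Or.inr (Or.inl ⟨rfl, rfl, (reg_pats α (tup n m ω) (2 * m - r) g k).2 h⟩)))
  · intro h
    refine ⟨k, h, ?_⟩
    rw [e1, e2]
    cases b
    · exact Or.inr ⟨rfl, le_rfl, by omega, Relation.EqvGen.refl _⟩
    · exact Or.inl ⟨rfl, by omega, le_rfl, Relation.EqvGen.refl _⟩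

theorem E3B_dlo (hn : 1 ≤ n) {k y : ℤ} (h1 : -(2 * (m : ℤ)) ≤ y) (h2 : y < r) :
    (DG n ω k y → Relation.EqvGen (FE (Reg α) (2 * n) (tlo n m ω) (2 * m + r)) (k, (y + 2 * m).toNat)
      (k + 1, (y + 1 + 2 * m).toNat)) ∧
    (¬ DG n ω k y → Relation.EqvGen (FE (Reg α) (2 * n) (tlo n m ω) (2 * m + r)) (k, (y + 1 + 2 * m).toNat)
      (k + 1, (y + 2 * m).toNat)) := by
  obtain ⟨j, q, hk, h3, h4⟩ := exists_jr (L := 2 * n) (by omega) k
  obtain ⟨r', hr'⟩ := Int.eq_ofNat_of_zero_le h3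
  obtain ⟨h, hh⟩ := Int.eq_ofNat_of_zero_le (show 0 ≤ y + 2 * m by omega)
  have ey : y = (h : ℤ) - 2 * m := by omega
  have hlt : tlo n m ω h r' ↔ ¬ DG n ω k y := by
    unfold tlo
    rw [hk, hr', dg_shift hn, ey]
  have e1 : (y + 2 * m).toNat = h := by omega
  have e2 : (y + 1 + 2 * m).toNat = h + 1 := by omega
  rw [e1, e2]
  constructor
  · intro hd
    refine Relation.EqvGen.rel _ _ (Or.inr ⟨h, r', by omega, by omega, j, Or.inl ⟨fun c => (hlt.1 c) hd, ?_, ?_⟩⟩)
    · rw [hk, hr']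
    · rw [hk, hr']
  · intro hd
    refine Relation.EqvGen.rel _ _ (Or.inr ⟨h, r', by omega, by omega, j, Or.inr ⟨hlt.2 hd, ?_, ?_⟩⟩)
    · rw [hk, hr']
    · rw [hk, hr']

theorem E3B_dup (hn : 1 ≤ n) {k y : ℤ} (h1 : (r : ℤ) ≤ y) (h2 : y < 2 * m) :
    (DG n ω k y → Relation.EqvGen (FE (Reg α) (2 * n) (tup n m ω) (2 * m - r)) (k, (2 * m - y).toNat)
      (k + 1, (2 * m - (y + 1)).toNat)) ∧
    (¬ DG n ω k y → Relation.EqvGen (FE (Reg α) (2 * n) (tup n m ω) (2 * m - r)) (k, (2 * m - (y + 1)).toNat)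
      (k + 1, (2 * m - y).toNat)) := by
  obtain ⟨j, q, hk, h3, h4⟩ := exists_jr (L := 2 * n) (by omega) k
  obtain ⟨r', hr'⟩ := Int.eq_ofNat_of_zero_le h3
  obtain ⟨h, hh⟩ := Int.eq_ofNat_of_zero_le (show 0 ≤ 2 * (m : ℤ) - 1 - y by omega)
  have ey : y = 2 * (m : ℤ) - 1 - h := by omega
  have hlt : tup n m ω h r' ↔ DG n ω k y := by
    unfold tup
    rw [hk, hr', dg_shift hn, ey]
  have e1 : (2 * (m : ℤ) - y).toNat = h + 1 := by omega
  have e2 : (2 * (m : ℤ) - (y + 1)).toNat = h := by omega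
  rw [e1, e2]
  constructor
  · intro hd
    refine Relation.EqvGen.rel _ _ (Or.inr ⟨h, r', by omega, by omega, j, Or.inr ⟨hlt.2 hd, ?_, ?_⟩⟩)
    · rw [hk, hr']
    · rw [hk, hr']
  · intro hd
    refine Relation.EqvGen.rel _ _ (Or.inr ⟨h, r', by omega, by omega, j, Or.inl ⟨fun c => hd (hlt.1 c), ?_, ?_⟩⟩)
    · rw [hk, hr']
    · rw [hk, hr']

theorem E3B_mlo {k y k' y' : ℤ} (h : InG n m r α ω u true k y) (h1 : -(2 * (m : ℤ)) ≤ y') (h2 : y' ≤ r)
    (hc : Relation.EqvGen (FE (Reg α) (2 * n) (tlo n m ω) (2 * m + r)) (k, (y + 2 * m).toNat) (k', (y' + 2 * m).toNat)) :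
    InG n m r α ω u true k' y' := by
  obtain ⟨g, hg, ⟨_, _, _, h⟩ | ⟨hb, _, _, _⟩⟩ := h
  · exact ⟨g, hg, Or.inl ⟨rfl, h1, h2, h.trans _ _ _ hc⟩⟩
  · cases hb

theorem E3B_mup {k y k' y' : ℤ} (h : InG n m r α ω u false k y) (h1 : (r : ℤ) ≤ y') (h2 : y' ≤ 2 * m)
    (hc : Relation.EqvGen (FE (Reg α) (2 * n) (tup n m ω) (2 * m - r)) (k, (2 * m - y).toNat) (k', (2 * m - y').toNat)) :
    InG n m r α ω u false k' y' := by
  obtain ⟨g, hg, ⟨hb, _, _, _⟩ | ⟨_, _, _, h⟩⟩ := h
  · cases hb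
  · exact ⟨g, hg, Or.inr ⟨rfl, h1, h2, h.trans _ _ _ hc⟩⟩

theorem ing_lo (hn : 1 ≤ n) {k y : ℤ} (h1 : -(2 * (m : ℤ)) ≤ y) (h2 : y < r) :
    (DG n ω k y → (InG n m r α ω u true k y ↔ InG n m r α ω u true (k + 1) (y + 1))) ∧
      (¬ DG n ω k y → (InG n m r α ω u true k (y + 1) ↔ InG n m r α ω u true (k + 1) y)) := by
  obtain ⟨d1, d2⟩ := E3B_dlo (α := α) (ω := ω) (k := k) hn h1 h2
  constructor
  · intro hd
    exact ⟨fun h => E3B_mlo h (by omega) (by omega) (d1 hd),
      fun h => E3B_mlo h (by omega) (by omega) ((d1 hd).symm _ _)⟩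
  · intro hd
    exact ⟨fun h => E3B_mlo h (by omega) (by omega) (d2 hd),
      fun h => E3B_mlo h (by omega) (by omega) ((d2 hd).symm _ _)⟩

theorem ing_up (hn : 1 ≤ n) {k y : ℤ} (h1 : (r : ℤ) ≤ y) (h2 : y < 2 * m) :
    (DG n ω k y → (InG n m r α ω u false k y ↔ InG n m r α ω u false (k + 1) (y + 1))) ∧
      (¬ DG n ω k y → (InG n m r α ω u false k (y + 1) ↔ InG n m r α ω u false (k + 1) y)) := by
  obtain ⟨d1, d2⟩ := E3B_dup (α := α) (ω := ω) (k := k) hn h1 h2
  constructor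
  · intro hd
    exact ⟨fun h => E3B_mup h (by omega) (by omega) (d1 hd),
      fun h => E3B_mup h (by omega) (by omega) ((d1 hd).symm _ _)⟩
  · intro hd
    exact ⟨fun h => E3B_mup h (by omega) (by omega) (d2 hd),
      fun h => E3B_mup h (by omega) (by omega) ((d2 hd).symm _ _)⟩

theorem ing_glue (hr : r ≤ 2 * m) {k : ℤ} (hk : ¬ ((2 * n : ℕ) : ℤ) ∣ k - 1) :
    InG n m r α ω u true k r ↔ InG n m r α ω u false k r := by
  rw [ing_row hr, ing_row hr]
  constructor
  · intro h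
    exact h.trans _ _ _ (Relation.EqvGen.rel _ _ (Or.inr (Or.inr ⟨rfl, hk⟩)))
  · intro h
    exact h.trans _ _ _ (Relation.EqvGen.rel _ _ (Or.inr (Or.inr ⟨rfl, hk⟩)))

theorem E3B_flo {k y : ℤ} (h : InG n m r α ω u true k y) : y ≤ r := by
  obtain ⟨g, hg, ⟨_, _, h, _⟩ | ⟨hb, _, _, _⟩⟩ := h
  · exact h
  · cases hb

theorem E3B_fup {k y : ℤ} (h : InG n m r α ω u false k y) : (r : ℤ) ≤ y := by
  obtain ⟨g, hg, ⟨hb, _, _, _⟩ | ⟨_, h, _, _⟩⟩ := h
  · cases hb
  · exact h

theorem E3B_tf (hr : r ≤ 2 * m) {b : Bool} {k y : ℤ} (h1 : b = true → y ≤ r) (h2 : b = false → (r : ℤ) ≤ y)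
    (hc : ¬ Cut n r k y) (h : InG n m r α ω u (!b) k y) : InG n m r α ω u b k y := by
  have hy : y = r := by
    cases b
    · have h3 := E3B_flo h
      have h4 := h2 rfl
      omega
    · have h3 := E3B_fup h
      have h4 := h1 rfl
      omega
  subst hy
  have hk : ¬ ((2 * n : ℕ) : ℤ) ∣ k - 1 := fun hd => hc ⟨rfl, hd⟩
  have hg := ing_glue (α := α) (ω := ω) (u := u) hr hk
  cases b
  · exact hg.1 h
  · exact hg.2 h

/-- the side of a face -/
theorem inf_side (hr : r ≤ 2 * m) {b : Bool} {k y : ℤ} (h1 : b = true → y ≤ r) (h2 : b = false → (r : ℤ) ≤ y)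
    (hc : Cut n r k y → b = cs) : InF n m r cs α ω u k y ↔ InG n m r α ω u b k y := by
  unfold InF
  by_cases hC : Cut n r k y
  · rw [← hc hC]
    constructor
    · rintro (h | ⟨h, _⟩)
      · exact h
      · exact absurd hC h
    · exact Or.inl
  · by_cases hb : b = cs
    · rw [← hb]
      constructor
      · rintro (h | ⟨_, h⟩)
        · exact h
        · exact E3B_tf hr h1 h2 hC h
      · exact Or.inl
    · have hb' : b = !cs := by
        cases b <;> cases cs <;> simp_all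
      have hb2 : cs = !b := by
        rw [hb', Bool.not_not]
      rw [← hb']
      constructor
      · rintro (h | ⟨_, h⟩)
        · rw [hb2] at h
          exact E3B_tf hr h1 h2 hC h
        · exact h
      · exact fun h => Or.inr ⟨hC, h⟩

/-- the connected diagonal of a tile -/
theorem inf_diag (hn : 1 ≤ n) (hr : r ≤ 2 * m) {k y : ℤ} (h1 : -(2 * (m : ℤ)) ≤ y) (h2 : y < 2 * m) :
    (DG n ω k y → (Cut n r k y → (cs = true ↔ y < r)) → (Cut n r (k + 1) (y + 1) → (cs = true ↔ y < r)) →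
      (InF n m r cs α ω u k y ↔ InF n m r cs α ω u (k + 1) (y + 1))) ∧
    (¬ DG n ω k y → (Cut n r k (y + 1) → (cs = true ↔ y < r)) → (Cut n r (k + 1) y → (cs = true ↔ y < r)) →
      (InF n m r cs α ω u k (y + 1) ↔ InF n m r cs α ω u (k + 1) y)) := by
  rcases lt_or_ge y (r : ℤ) with h3 | h3
  · have hcs : (cs = true ↔ y < r) → true = cs := fun h => (h.2 h3).symm
    obtain ⟨d1, d2⟩ := ing_lo (α := α) (ω := ω) (u := u) (k := k) hn h1 h3
    constructor
    · intro hd c1 c2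
      rw [inf_side (b := true) hr (fun _ => by omega) (fun h => by cases h) (fun c => hcs (c1 c)),
        inf_side (b := true) hr (fun _ => by omega) (fun h => by cases h) (fun c => hcs (c2 c))]
      exact d1 hd
    · intro hd c1 c2
      rw [inf_side (b := true) hr (fun _ => by omega) (fun h => by cases h) (fun c => hcs (c1 c)),
        inf_side (b := true) hr (fun _ => by omega) (fun h => by cases h) (fun c => hcs (c2 c))]
      exact d2 hd
  · have hcs : (cs = true ↔ y < r) → false = cs := by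
      intro h
      cases cs
      · rfl
      · have h4 := h.1 rfl
        omega
    obtain ⟨d1, d2⟩ := ing_up (α := α) (ω := ω) (u := u) (k := k) hn h3 h2
    constructor
    · intro hd c1 c2
      rw [inf_side (b := false) hr (fun h => by cases h) (fun _ => by omega) (fun c => hcs (c1 c)),
        inf_side (b := false) hr (fun h => by cases h) (fun _ => by omega) (fun c => hcs (c2 c))]
      exact d1 hd
    · intro hd c1 c2
      rw [inf_side (b := false) hr (fun h => by cases h) (fun _ => by omega) (fun c => hcs (c1 c)),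
        inf_side (b := false) hr (fun h => by cases h) (fun _ => by omega) (fun c => hcs (c2 c))]
      exact d2 hd

end

end CY
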