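import Pool.Agent.Lib.MP_216314_pr.N.GA
import Pool.Agent.Lib.MP_216314_pr.P.PExit

/-!
# Crossings of translated annuli (campaign NC, arm separation, section 1)

`cross_ann`: a path from distance `≤ r` to distance `≥ R` of `z` contains a crossing of the annulus.
`pr_cross`: the probability of a crossing of an annulus around `z` using any set of edges is at most `p1' q r R`.
-/

set_option autoImplicit false

noncomputable section

namespace FKN

open Finset FKI FKP

theorem nrmC_le {v : V} {r : ℤ} : nrm v ≤ r ↔ -r ≤ v.1 ∧ v.1 ≤ r ∧ -r ≤ v.2 ∧ v.2 ≤ r := by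
  unfold nrm
  rw [max_le_iff, abs_le, abs_le]
  tauto

theorem nrmC_step (z : V) (e : Edge) :
    nrm (ea e - z) - nrm (eb e - z) ≤ 1 ∧ nrm (eb e - z) - nrm (ea e - z) ≤ 1 := by
  obtain ⟨x, y, t⟩ := e
  obtain ⟨a, b⟩ := z
  unfold nrm
  cases t
  · have e1 : ea (x, y, false) = (x, y) := rfl
    have e2 : eb (x, y, false) = (x + 1, y) := by simp [eb]
    rw [e1, e2]
    simp only [Prod.mk_sub_mk]
    rcases abs_cases (x + 1 - a) with h1 | h1 <;> rcases abs_cases (x - a) with h2 | h2 <;>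
      constructor <;> omega
  · have e1 : ea (x, y, true) = (x, y) := rfl
    have e2 : eb (x, y, true) = (x, y + 1) := by simp [eb]
    rw [e1, e2]
    simp only [Prod.mk_sub_mk]
    rcases abs_cases (y + 1 - b) with h1 | h1 <;> rcases abs_cases (y - b) with h2 | h2 <;>
      constructor <;> omega

theorem mem_bx_iff {r : ℕ} {e : Edge} : e ∈ bx r ↔ nrm (ea e) ≤ r ∧ nrm (eb e) ≤ r := by
  obtain ⟨x, y, t⟩ := e
  unfold bx
  rw [mem_box, nrmC_le, nrmC_le]
  cases t
  · simp only [ea, eb, Bool.false_eq_true, if_false, true_and, false_and, or_false]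
    omega
  · simp only [ea, eb, Bool.true_eq_false, if_true, true_and, false_and, false_or]
    omega

/-- the edges of the annulus around `z` -/
def anz (z : V) (r R : ℕ) : Finset Edge := (an r R).map (shE z.1 z.2).toEmbedding

theorem CA_shift (z : V) (e : Edge) : ea ((shE z.1 z.2).symm e) = ea e - z ∧ eb ((shE z.1 z.2).symm e) = eb e - z := by
  obtain ⟨x, y, t⟩ := e
  obtain ⟨a, b⟩ := z
  cases t
  · constructor
    · simp [shE, ea, Prod.mk_sub_mk]
    · simp only [shE, eb, Equiv.coe_fn_symm_mk, Bool.false_eq_true, if_false, Prod.mk_sub_mk]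
      rw [Prod.mk.injEq]
      constructor <;> ring
  · constructor
    · simp [shE, ea, Prod.mk_sub_mk]
    · simp only [shE, eb, Equiv.coe_fn_symm_mk, if_true, Prod.mk_sub_mk]
      rw [Prod.mk.injEq]
      constructor <;> ring

theorem mem_anz {z : V} {r R : ℕ} {e : Edge} : e ∈ anz z r R ↔
    (nrm (ea e - z) ≤ R ∧ nrm (eb e - z) ≤ R) ∧ ¬ (nrm (ea e - z) ≤ r ∧ nrm (eb e - z) ≤ r) := by
  unfold anz
  rw [mem_map_equiv]
  unfold an
  rw [mem_sdiff, mem_bx_iff, mem_bx_iff, (CA_shift z e).1, (CA_shift z e).2]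

/-- last exit, leaving the closed ball for ever -/
theorem last_leave {F ω : Finset Edge} (f : V → ℤ) {t : ℤ} {a b : V} (ha : f a ≤ t) (h : Conn F ω a b) :
    ∃ y, f y ≤ t ∧ Conn F ω a y ∧ Conn (F.filter (fun e => t < f (ea e) ∨ t < f (eb e))) ω y b := by
  obtain ⟨p⟩ := h
  have key : ∀ {a b : V}, (gr (ω ∩ F)).Walk a b → (∃ y, f y ≤ t ∧ Conn F ω a y ∧
      Conn (F.filter (fun e => t < f (ea e) ∨ t < f (eb e))) ω y b) ∨
      Conn (F.filter (fun e => t < f (ea e) ∨ t < f (eb e))) ω a b := by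
    intro a b p
    induction p with
    | nil => exact Or.inr (Conn.refl _ _ _)
    | cons hadj _ ih =>
      obtain ⟨e, he, h1⟩ := pexit_adj hadj
      have heω := (mem_inter.1 he).1
      have heF := (mem_inter.1 he).2
      rcases ih with ⟨y, hy, h2, h3⟩ | h2
      · exact Or.inl ⟨y, hy, (pexit_edge heF heω h1).trans h2, h3⟩
      · by_cases h4 : t < f (ea e) ∨ t < f (eb e)
        · exact Or.inr ((pexit_edge (mem_filter.2 ⟨heF, h4⟩) heω h1).trans h2)
        · rw [not_or, not_lt, not_lt] at h4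
          left
          rcases h1 with ⟨h5, h6⟩ | ⟨h5, h6⟩
          · exact ⟨_, h6 ▸ h4.2, pexit_edge heF heω (Or.inl ⟨h5, h6⟩), h2⟩
          · exact ⟨_, h5 ▸ h4.1, pexit_edge heF heω (Or.inr ⟨h5, h6⟩), h2⟩
  rcases key p with h | h
  · exact h
  · exact ⟨a, ha, Conn.refl _ _ _, h⟩

/-- a path from the small ball to the outside of the large one crosses the annulus -/
theorem cross_ann {F ω : Finset Edge} {z u w : V} {r R : ℕ} (hrR : r ≤ R) (hu : nrm (u - z) ≤ r) (hw : R ≤ nrm (w - z))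
    (h : Conn F ω u w) : ∃ u' w', nrm (u' - z) = r ∧ nrm (w' - z) = R ∧ Conn (F ∩ anz z r R) ω u' w' := by
  have hrR' : (r : ℤ) ≤ R := by exact_mod_cast hrR
  obtain ⟨y, hy, _, h2⟩ := last_leave (fun v => nrm (v - z)) (t := (r : ℤ)) hu h
  obtain ⟨c, hc, _, h3⟩ := last_exit (fun v => nrm (v - z)) (fun e _ => nrmC_step z e) (t := (r : ℤ)) hy
    (hrR'.trans hw) h2
  obtain ⟨c2, hc2, _, h4⟩ := first_hit (fun v => nrm (v - z)) (fun e _ => nrmC_step z e) (t := (R : ℤ))
    (by rw [hc]; exact hrR') hw h3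
  refine ⟨c, c2, hc, hc2, h4.mono ?_ (Finset.Subset.refl _)⟩
  intro e he
  rw [mem_filter, mem_filter, mem_filter] at he
  obtain ⟨⟨⟨h5, h6⟩, _, _⟩, h7, h8⟩ := he
  rw [mem_inter, mem_anz]
  refine ⟨h5, ⟨h7, h8⟩, fun h9 => ?_⟩
  rcases h6 with h6 | h6
  · exact absurd h9.1 (not_le.2 h6)
  · exact absurd h9.2 (not_le.2 h6)

/-- probability of a crossing of the translated annulus -/
theorem pr_anz (q : ℝ) (z : V) (r R : ℕ) :
    IPC.Pr q (anz z r R) (fun ω => ∃ u w : V, nrm (u - z) = r ∧ nrm (w - z) = R ∧ Conn (anz z r R) ω u w) =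
      p1' q r R := by
  unfold anz p1'
  rw [pq_map]
  refine pq_congr fun ω _ => ?_
  unfold One'
  have h1 : ∀ u w : V, Conn ((an r R).map (shE z.1 z.2).toEmbedding) (ω.map (shE z.1 z.2).toEmbedding) (u + z) (w + z) ↔
      Conn (an r R) ω u w := fun u w => conn_map (cp_sh z.1 z.2) (an r R) ω u w
  constructor
  · rintro ⟨u, w, hu, hw, hc⟩
    refine ⟨u - z, w - z, hu, hw, ?_⟩
    rw [← h1, sub_add_cancel, sub_add_cancel]
    exact hc
  · rintro ⟨u, w, hu, hw, hc⟩
    refine ⟨u + z, w + z, ?_, ?_, (h1 u w).2 hc⟩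
    · rw [add_sub_cancel_right]
      exact hu
    · rw [add_sub_cancel_right]
      exact hw

/-- **the probability of a crossing around `z` by any set of edges** -/
theorem pr_cross {q : ℝ} (h0 : 0 ≤ q) (h1 : q ≤ 1) {H F : Finset Edge} (hF : F ⊆ H) (z : V) {r R : ℕ} (hrR : r ≤ R) :
    IPC.Pr q H (fun ω => ∃ u w : V, nrm (u - z) ≤ r ∧ R ≤ nrm (w - z) ∧ Conn F ω u w) ≤ p1' q r R := by
  classical
  have e1 : IPC.Pr q H (fun ω => ∃ u w : V, nrm (u - z) ≤ r ∧ R ≤ nrm (w - z) ∧ Conn F ω u w) ≤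
      IPC.Pr q H (fun ω => ∃ u w : V, nrm (u - z) = r ∧ nrm (w - z) = R ∧ Conn (H ∩ anz z r R) ω u w) := by
    refine pq_mono h0 h1 ?_
    rintro ω _ ⟨u, w, hu, hw, hc⟩
    obtain ⟨u', w', h2, h3, h4⟩ := cross_ann hrR hu hw hc
    exact ⟨u', w', h2, h3, h4.mono (Finset.inter_subset_inter_right hF) (Finset.Subset.refl _)⟩
  have hdep : Dep (H ∩ anz z r R) (fun ω => ∃ u w : V, nrm (u - z) = r ∧ nrm (w - z) = R ∧
      Conn (H ∩ anz z r R) ω u w) := by
    intro ω
    exact exists_congr fun u => exists_congr fun w => and_congr Iff.rfl (and_congr Iff.rfl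
      (dep_Conn (Finset.Subset.refl _) u w ω))
  refine e1.trans ?_
  rw [pq_dep q Finset.inter_subset_left hdep]
  refine (pq_mono h0 h1 (B := fun ω => ∃ u w : V, nrm (u - z) = r ∧ nrm (w - z) = R ∧ Conn (anz z r R) ω u w) ?_).trans ?_
  · rintro ω _ ⟨u, w, hu, hw, hc⟩
    exact ⟨u, w, hu, hw, hc.mono Finset.inter_subset_right (Finset.Subset.refl _)⟩
  · rw [← pr_anz q z r R]
    refine pq_super h0 h1 Finset.inter_subset_right ?_
    rintro ω ω' hs ⟨u, w, hu, hw, hc⟩
    exact ⟨u, w, hu, hw, hc.mono (Finset.Subset.refl _) hs⟩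

end FKN
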