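import Pool.Agent.Lib.MP_216314_pr.N.AP1
import Pool.Agent.Lib.MP_216314_pr.N.EE

/-!
# Box duality, exclusion

`arc_chain`: the chain `w e = 1` if `e = be n t` for some `t1 ≤ t < t3` (`t3 ≤ t1 + 8 n`), `0` otherwise, has the boundary `ind (bp n t1) + ind (bp n t3)`. (Induction on `t3`: `w` for `t3 + 1` is `w + sg (be n t3)`, since
`be n t`, `t1 ≤ t < t1 + 8 n`, are different edges (`be_inj`); `bd_add`, `bd_sg`, `be_ends`.)
Proof of `BD2`. `pth` (Chain) gives a chain `c0` supported in `ω ∩ bx n` with boundary `ind (bp n t1) + ind (bp n t3)`; `c = c0 + w` has `bd c = 0` and support in `bx n` (`be_mem`). `CY.potential` (N/EE) gives `z` on the faces, with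
`z (i, j) + z (i, j - 1) = c (i, j, false)`, `z (i, j) + z (i - 1, j) = c (i, j, true)`, and `z = 0` on the faces of level `≥ n`. Let `κ f = (max (-n) (min (n - 1) f.1), max (-n) (min (n - 1) f.2))` (the
nearest face inside). Suppose `(gr (dc (bx n) ω)).Reachable (ef n s) (ef n s')`. Claim: `z (κ f)` is constant along the edges of `dc (bx n) ω`: for `e ∈ bx n`, `e ∉ ω`: if `e` is not a boundary edge both faces are inside (`κ f = f`)
and `z f + z g = c e = c0 e + w e = 0`; if `e` is a boundary edge (one of its faces has level `n`) then `κ` of the two faces is the same face. So `z (κ (ef n s)) = z (κ (ef n s'))`. But `κ (ef n t)` is the inner face of `be n t`, and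
`z (κ (ef n t)) = z (κ (ef n t)) + z (ef n t) = c (be n t) = w (be n t)` plus `c0 (be n t)`. So first move inside: let `f = ef n s`; the path starts at the leaf `ef n s`, whose only edge is `dl (be n s)` (`ef_unique`), `s ≠ s'` (mod `8 n`), so
`be n s ∉ ω` and `be n s' ∉ ω` (the path is not constant: `ef n s ≠ ef n s'`; the first edge and the last edge of the walk), hence `c0 (be n s) = c0 (be n s') = 0`, `z (κ (ef n s)) = w (be n s) = 1`,
`z (κ (ef n s')) = w (be n s') = 0` (`be_inj`): contradiction.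
-/

set_option autoImplicit false

noncomputable section

namespace FKN

open Finset FKI FKP

private theorem AP3_two (a : ZMod 2) : a + a = 0 := by
  revert a
  decide

private theorem AP3_eq {a b : ZMod 2} (h : a + b = 0) : a = b := by
  have h1 := AP3_two b
  linear_combination h - h1

private theorem AP3_beT {n : ℕ} {t x y : ℤ} (h : be n t = (x, y, true)) : x = n ∨ x = -(n : ℤ) := by
  unfold be at h
  split_ifs at h
  · simp only [Prod.mk.injEq] at h
    left
    exact h.1.symm
  · simp at h
  · simp only [Prod.mk.injEq] at h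
    right
    exact h.1.symm
  · simp at h

private theorem AP3_beF {n : ℕ} {t x y : ℤ} (h : be n t = (x, y, false)) : y = n ∨ y = -(n : ℤ) := by
  unfold be at h
  split_ifs at h
  · simp at h
  · simp only [Prod.mk.injEq] at h
    left
    exact h.2.1.symm
  · simp at h
  · simp only [Prod.mk.injEq] at h
    right
    exact h.2.1.symm

/-- the nearest face inside -/
private def AP3_kap (n : ℕ) (f : V) : V :=
  (max (-(n : ℤ)) (min ((n : ℤ) - 1) f.1), max (-(n : ℤ)) (min ((n : ℤ) - 1) f.2))

private theorem AP3_kapid {n : ℕ} {i j : ℤ} (h1 : -(n : ℤ) ≤ i) (h2 : i < n) (h3 : -(n : ℤ) ≤ j) (h4 : j < n) :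
    AP3_kap n (i, j) = (i, j) := by
  unfold AP3_kap
  simp only
  rw [min_eq_right (by omega), min_eq_right (by omega), max_eq_right (by omega), max_eq_right (by omega)]

private theorem AP3_reach {G : SimpleGraph V} {φ : V → ZMod 2} (h : ∀ u v, G.Adj u v → φ u = φ v) {u v : V}
    (huv : G.Reachable u v) : φ u = φ v := by
  obtain ⟨p⟩ := huv
  induction p with
  | nil => rfl
  | cons hadj _ ih => exact (h _ _ hadj).trans ih

theorem be_inj {n : ℕ} (hn : 1 ≤ n) {t t' : ℤ} (h : be n t = be n t') : (8 * n : ℤ) ∣ t - t' := by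
  have h8 : (0 : ℤ) < 8 * n := by omega
  have key : t % (8 * n) = t' % (8 * n) := by
    have a0 := Int.emod_nonneg t h8.ne'
    have a1 := Int.emod_lt_of_pos t h8
    have b0 := Int.emod_nonneg t' h8.ne'
    have b1 := Int.emod_lt_of_pos t' h8
    unfold be at h
    generalize t % (8 * n) = τ at *
    generalize t' % (8 * n) = τ' at *
    split_ifs at h
    all_goals simp only [Prod.mk.injEq, and_true, Bool.true_eq_false, Bool.false_eq_true, and_false] at h
    all_goals omega
  exact Int.ModEq.dvd key.symm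

theorem arc_chain {n : ℕ} (hn : 1 ≤ n) {t1 t3 : ℤ} (h1 : t1 ≤ t3) (h3 : t3 ≤ t1 + 8 * n) :
    ∃ w : Edge → ZMod 2, (∀ e, e ∉ bx n → w e = 0) ∧ (∀ e, w e ≠ 0 → ∃ t, t1 ≤ t ∧ t < t3 ∧ e = be n t) ∧
      (∀ t, t1 ≤ t → t < t3 → w (be n t) = 1) ∧ ∀ v, bd w v = ind (bp n t1) v + ind (bp n t3) v := by
  obtain ⟨k, hk⟩ : ∃ k : ℕ, t3 = t1 + k := ⟨(t3 - t1).toNat, by omega⟩
  subst hk
  have hk8 : (k : ℤ) ≤ 8 * n := by omega
  clear h1 h3
  induction k with
  | zero =>
    refine ⟨0, fun _ _ => rfl, fun e he => absurd rfl he, fun t h1 h2 => ?_, fun v => ?_⟩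
    · exfalso
      push_cast at h2
      omega
    · rw [Nat.cast_zero, add_zero, AP3_two]
      simp [bd]
  | succ k ih =>
    push_cast at hk8
    obtain ⟨w, hw1, hw2, hw3, hw4⟩ := ih (by omega)
    have hne : ∀ t, t1 ≤ t → t < t1 + k → be n t ≠ be n (t1 + k) := by
      intro t ht1 ht2 hh
      obtain ⟨q, hq⟩ := be_inj hn hh
      have hq1 : q < 0 := by
        by_contra hq2
        have : 0 ≤ 8 * (n : ℤ) * q := mul_nonneg (by omega) (not_lt.1 hq2)
        omega
      have hq2 : 8 * (n : ℤ) * q ≤ 8 * (n : ℤ) * (-1) := mul_le_mul_of_nonneg_left (by omega) (by omega)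
      omega
    refine ⟨w + sg (be n (t1 + k)), ?_, ?_, ?_, ?_⟩
    · intro e he
      have h4 : sg (be n (t1 + k)) e = 0 := if_neg (fun hh : e = be n (t1 + k) => he (by rw [hh]; exact be_mem hn _))
      rw [Pi.add_apply, hw1 e he, h4, add_zero]
    · intro e he
      by_cases h : e = be n (t1 + k)
      · exact ⟨t1 + k, by omega, by push_cast; omega, h⟩
      · have h4 : sg (be n (t1 + k)) e = 0 := if_neg h
        rw [Pi.add_apply, h4, add_zero] at he
        obtain ⟨t, a, b, c⟩ := hw2 e he
        exact ⟨t, a, by push_cast; omega, c⟩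
    · intro t ht1 ht2
      push_cast at ht2
      by_cases h : t = t1 + k
      · subst h
        have e1 : w (be n (t1 + k)) = 0 := by
          by_contra hc
          obtain ⟨t', a, b, c⟩ := hw2 _ hc
          exact hne t' a b c.symm
        have e2 : sg (be n (t1 + k)) (be n (t1 + k)) = 1 := if_pos rfl
        rw [Pi.add_apply, e1, e2, zero_add]
      · have h4 : sg (be n (t1 + k)) (be n t) = 0 := if_neg (hne t ht1 (by omega))
        rw [Pi.add_apply, hw3 t ht1 (by omega), h4, add_zero]
    · intro v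
      have e3 : t1 + ((k + 1 : ℕ) : ℤ) = t1 + k + 1 := by push_cast; ring
      rw [bd_add, bd_sg, hw4, e3]
      rcases be_ends hn (t1 + k) with ⟨a, b⟩ | ⟨a, b⟩
      · rw [a, b]
        linear_combination AP3_two (ind (bp n (t1 + k)) v)
      · rw [a, b]
        linear_combination AP3_two (ind (bp n (t1 + k)) v)

private theorem AP3_first {G : SimpleGraph V} {u v : V} (h : G.Reachable u v) (hne : u ≠ v) : ∃ w, G.Adj u w := by
  obtain ⟨p⟩ := h
  cases p with
  | nil => exact absurd rfl hne
  | cons hadj _ => exact ⟨_, hadj⟩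

private theorem AP3_leaf {n : ℕ} (hn : 1 ≤ n) {ω : Finset Edge} {t : ℤ} {v : V}
    (h : (gr (dc (bx n) ω)).Reachable (ef n t) v) (hne : ef n t ≠ v) : be n t ∉ ω := by
  obtain ⟨w, hw⟩ := AP3_first h hne
  obtain ⟨e', he', hends⟩ := pexit_adj hw
  unfold dc at he'
  rw [mem_map] at he'
  obtain ⟨e, he, rfl⟩ := he'
  have h1 := mem_sdiff.1 he
  have h2 : e = be n t := by
    apply ef_unique hn h1.1
    rcases hends with ⟨g1, g2⟩ | ⟨g1, g2⟩
    · exact Or.inl g1.symm
    · exact Or.inr g2.symm
  rw [← h2]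
  exact h1.2

private theorem AP3_val {z : V → ZMod 2} {c : Edge → ZMod 2} {n : ℕ} (hn : 1 ≤ n)
    (hz1 : ∀ i j : ℤ, z (i, j) + z (i, j - 1) = c (i, j, false))
    (hz2 : ∀ i j : ℤ, z (i, j) + z (i - 1, j) = c (i, j, true))
    (hz3 : ∀ i j : ℤ, z (i, j) ≠ 0 → (-(n : ℤ) ≤ i ∧ i < n) ∧ (-(n : ℤ) ≤ j ∧ j < n)) (t : ℤ) :
    z (AP3_kap n (ef n t)) = c (be n t) := by
  have h0 : 0 ≤ t % (8 * n) := Int.emod_nonneg _ (by omega)
  have h8 : t % (8 * n) < 8 * n := Int.emod_lt_of_pos _ (by omega)
  unfold ef be AP3_kap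
  generalize t % (8 * n) = τ at *
  split_ifs with g1 g2 g3
  · have e0 : z ((n : ℤ), τ - n) = 0 := by
      by_contra hc
      have := hz3 _ _ hc
      omega
    have e1 := hz2 (n : ℤ) (τ - n)
    rw [e0, zero_add] at e1
    rw [← e1]
    congr 1
    simp only [Prod.mk.injEq]
    omega
  · have e0 : z (3 * (n : ℤ) - τ - 1, (n : ℤ)) = 0 := by
      by_contra hc
      have := hz3 _ _ hc
      omega
    have e1 := hz1 (3 * (n : ℤ) - τ - 1) n
    rw [e0, zero_add] at e1
    rw [← e1]
    congr 1
    simp only [Prod.mk.injEq]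
    omega
  · have e0 : z (-(n : ℤ) - 1, 5 * (n : ℤ) - τ - 1) = 0 := by
      by_contra hc
      have := hz3 _ _ hc
      omega
    have e1 := hz2 (-(n : ℤ)) (5 * (n : ℤ) - τ - 1)
    rw [e0, add_zero] at e1
    rw [← e1]
    congr 1
    simp only [Prod.mk.injEq]
    omega
  · have e0 : z (τ - 7 * (n : ℤ), -(n : ℤ) - 1) = 0 := by
      by_contra hc
      have := hz3 _ _ hc
      omega
    have e1 := hz1 (τ - 7 * (n : ℤ)) (-(n : ℤ))
    rw [e0, add_zero] at e1
    rw [← e1]
    congr 1
    simp only [Prod.mk.injEq]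
    omega

/-- box duality, exclusion -/
theorem BD2 {n : ℕ} (hn : 1 ≤ n) {ω : Finset Edge} {t1 t3 : ℤ} (h1 : t1 < t3) (h2 : t3 < t1 + 8 * n)
    (h : Conn (bx n) ω (bp n t1) (bp n t3)) {s s' : ℤ} (h3 : t1 ≤ s) (h4 : s < t3) (h5 : t3 ≤ s')
    (h6 : s' < t1 + 8 * n) : ¬ (gr (dc (bx n) ω)).Reachable (ef n s) (ef n s') := by
  intro hreach
  obtain ⟨c0, hc0a, hc0b⟩ := pth h
  obtain ⟨w, hwa, hwb, hwc, hwd⟩ := arc_chain hn h1.le h2.le
  set c : Edge → ZMod 2 := c0 + w with hc
  have hcv : ∀ e, c e = c0 e + w e := fun e => rfl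
  have hcs : ∀ e, e ∉ bx n → c e = 0 := by
    intro e he
    rw [hcv, hc0a e (fun hh => he (mem_inter.1 hh).2), hwa e he]
    rfl
  have hcb : ∀ v, bd c v = 0 := by
    intro v
    rw [hc, bd_add, hc0b, hwd]
    linear_combination AP3_two (ind (bp n t1) v) + AP3_two (ind (bp n t3) v)
  obtain ⟨z, hz1, hz2, hz3⟩ := CY.potential hcs hcb
  have hpan : ∀ e ∈ bx n, e ∉ ω → (∀ t, e ≠ be n t) → c e = 0 := by
    intro e he heω hbe
    have g2 : w e = 0 := by
      by_contra hcon
      obtain ⟨t, -, -, ht⟩ := hwb e hcon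
      exact hbe t ht
    rw [hcv, hc0a e (fun hh => heω (mem_inter.1 hh).1), g2]
    rfl
  have hconst : ∀ u v : V, (gr (dc (bx n) ω)).Adj u v → z (AP3_kap n u) = z (AP3_kap n v) := by
    have key : ∀ e ∈ bx n, e ∉ ω → z (AP3_kap n (ea (dl e))) = z (AP3_kap n (eb (dl e))) := by
      intro e he heω
      have hebx : e ∈ bx n := he
      unfold bx at hebx
      rw [mem_box] at hebx
      obtain ⟨x, y, b⟩ := e
      cases b
      · have e1 : ea (dl (x, y, false)) = (x, y - 1) := by simp [dl, ea]
        have e2 : eb (dl (x, y, false)) = (x, y) := by simp [dl, eb]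
        rw [e1, e2]
        simp only [true_and, Bool.false_eq_true, false_and, or_false] at hebx
        obtain ⟨b1, b2, b3, b4⟩ := hebx
        by_cases hy1 : y = n
        · have : AP3_kap n (x, y - 1) = AP3_kap n (x, y) := by
            unfold AP3_kap
            simp only [Prod.mk.injEq, true_and]
            omega
          rw [this]
        · by_cases hy2 : y = -(n : ℤ)
          · have : AP3_kap n (x, y - 1) = AP3_kap n (x, y) := by
              unfold AP3_kap
              simp only [Prod.mk.injEq, true_and]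
              omega
            rw [this]
          · rw [AP3_kapid b1 b2 (by omega) (by omega), AP3_kapid b1 b2 (by omega) (by omega)]
            have g := hpan (x, y, false) he heω (fun t ht => by
              rcases AP3_beF ht.symm with g | g <;> omega)
            have g2 := hz1 x y
            rw [g] at g2
            exact (AP3_eq g2).symm
      · have e1 : ea (dl (x, y, true)) = (x - 1, y) := by simp [dl, ea]
        have e2 : eb (dl (x, y, true)) = (x, y) := by simp [dl, eb]
        rw [e1, e2]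
        simp only [true_and, Bool.true_eq_false, false_and, false_or] at hebx
        obtain ⟨b1, b2, b3, b4⟩ := hebx
        by_cases hy1 : x = n
        · have : AP3_kap n (x - 1, y) = AP3_kap n (x, y) := by
            unfold AP3_kap
            simp only [Prod.mk.injEq, and_true]
            omega
          rw [this]
        · by_cases hy2 : x = -(n : ℤ)
          · have : AP3_kap n (x - 1, y) = AP3_kap n (x, y) := by
              unfold AP3_kap
              simp only [Prod.mk.injEq, and_true]
              omega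
            rw [this]
          · rw [AP3_kapid (by omega) (by omega) b3 b4, AP3_kapid (by omega) (by omega) b3 b4]
            have g := hpan (x, y, true) he heω (fun t ht => by
              rcases AP3_beT ht.symm with g | g <;> omega)
            have g2 := hz2 x y
            rw [g] at g2
            exact (AP3_eq g2).symm
    intro u v huv
    obtain ⟨e', he', hends⟩ := pexit_adj huv
    unfold dc at he'
    rw [mem_map] at he'
    obtain ⟨e, he, rfl⟩ := he'
    have hk := key e (mem_sdiff.1 he).1 (mem_sdiff.1 he).2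
    rcases hends with ⟨g1, g2⟩ | ⟨g1, g2⟩
    · rw [← g1, ← g2]
      exact hk
    · rw [← g1, ← g2]
      exact hk.symm
  have hzz := AP3_reach (φ := fun f => z (AP3_kap n f)) hconst hreach
  change z (AP3_kap n (ef n s)) = z (AP3_kap n (ef n s')) at hzz
  rw [AP3_val hn hz1 hz2 hz3, AP3_val hn hz1 hz2 hz3] at hzz
  have hbne : be n s ≠ be n s' := by
    intro hh
    obtain ⟨q, hq⟩ := be_inj hn hh
    have hq1 : q < 0 := by
      by_contra hq2
      have : 0 ≤ 8 * (n : ℤ) * q := mul_nonneg (by omega) (not_lt.1 hq2)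
      omega
    have hq2 : 8 * (n : ℤ) * q ≤ 8 * (n : ℤ) * (-1) := mul_le_mul_of_nonneg_left (by omega) (by omega)
    omega
  have hne : ef n s ≠ ef n s' := by
    intro hh
    apply hbne
    apply ef_unique hn (be_mem hn s)
    rw [← hh]
    exact ef_end hn s
  have g1 := AP3_leaf hn hreach hne
  have g2 := AP3_leaf hn hreach.symm hne.symm
  have v1 : c (be n s) = 1 := by
    rw [hcv, hc0a _ (fun hh => g1 (mem_inter.1 hh).1), hwc s h3 h4, zero_add]
  have v2 : c (be n s') = 0 := by
    have g3 : w (be n s') = 0 := by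
      by_contra hcon
      obtain ⟨t, ht1, ht2, ht⟩ := hwb _ hcon
      obtain ⟨q, hq⟩ := be_inj hn ht
      have hq1 : 0 < q := by
        by_contra hq2
        have : 8 * (n : ℤ) * q ≤ 0 := mul_nonpos_of_nonneg_of_nonpos (by omega) (not_lt.1 hq2)
        omega
      have hq2 : 8 * (n : ℤ) * 1 ≤ 8 * (n : ℤ) * q := mul_le_mul_of_nonneg_left (by omega) (by omega)
      omega
    rw [hcv, hc0a _ (fun hh => g2 (mem_inter.1 hh).1), g3, zero_add]
  rw [v1, v2] at hzz
  exact absurd hzz (by decide)

end FKN
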