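import Pool.Agent.Lib.MP_216314_pr.N.GA
import Pool.Agent.Lib.MP_216314_pr.P.PExit
import Pool.Agent.Lib.MP_216314_pr.P.PLong

/-!
# Crossing probabilities for the parameter `q`: monotonicity, straight lines, gluing
-/

set_option autoImplicit false

noncomputable section

namespace FKN

open Finset FKI FKP

theorem hc_mono {a b b' : ℕ} (hb : b ≤ b') {ω : Finset Edge} (hω : HC 0 a 0 b ω) :
    HC 0 a 0 b' ω := by
  have hb' : (b : ℤ) ≤ b' := by exact_mod_cast hb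
  have hsub : box 0 a 0 b ⊆ box 0 a 0 b' := box_mono le_rfl le_rfl le_rfl hb'
  obtain ⟨y, y', h1, h2, h3, h4, hc⟩ := hω
  exact ⟨y, y', h1, h2.trans hb', h3, h4.trans hb', hc.mono hsub (Finset.Subset.refl _)⟩

theorem hc_anti {a a' b : ℕ} (ha : a' ≤ a) {ω : Finset Edge} (hω : HC 0 a 0 b ω) :
    HC 0 a' 0 b ω := by
  have ha' : (a' : ℤ) ≤ a := by exact_mod_cast ha
  obtain ⟨y, y', h1, h2, h3, h4, hc⟩ := hω
  have hf : ∀ e ∈ box 0 (a : ℤ) 0 b, (ea e).1 - (eb e).1 ≤ 1 ∧ (eb e).1 - (ea e).1 ≤ 1 := by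
    rintro ⟨x, z, t⟩ _
    cases t <;> simp [ea, eb]
  obtain ⟨c, hc1, hc2, hc3⟩ := first_hit (fun v : V => v.1) hf (a := (0, y)) (b := ((a : ℤ), y')) (t := (a' : ℤ))
    (by simp) ha' hc
  have hsub2 : (box 0 (a : ℤ) 0 b).filter (fun e => (ea e).1 ≤ (a' : ℤ) ∧ (eb e).1 ≤ (a' : ℤ)) ⊆ box 0 a' 0 b := by
    intro e he
    rw [mem_filter] at he
    obtain ⟨he1, he2, he3⟩ := he
    rw [mem_box] at he1 ⊢
    obtain ⟨x, z, t⟩ := e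
    cases t
    · simp only [ea, eb] at he1 he2 he3 ⊢
      simp at he1 he2 he3 ⊢
      omega
    · simp only [ea, eb] at he1 he2 he3 ⊢
      simp at he1 he2 he3 ⊢
      omega
  have hc4 : Conn (box 0 a' 0 b) ω (0, y) c := hc3.mono hsub2 (Finset.Subset.refl _)
  have hmem := conn_mem_box hc4 (by simp only; omega)
  refine ⟨y, c.2, h1, h2, hmem.2.2.1, hmem.2.2.2, ?_⟩
  have hceq : c = ((a' : ℤ), c.2) := Prod.ext hc1 rfl
  rw [← hceq]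
  exact hc4

/-- a larger height makes the horizontal crossing easier -/
theorem hq_mono {q : ℝ} (h0 : 0 ≤ q) (h1 : q ≤ 1) {a b b' : ℕ} (hb : b ≤ b') :
    hq q a b ≤ hq q a b' := by
  have hb' : (b : ℤ) ≤ b' := by exact_mod_cast hb
  have hsub : box 0 a 0 b ⊆ box 0 a 0 b' := box_mono le_rfl le_rfl le_rfl hb'
  unfold hq
  rw [← pq_dep q hsub (dep_HC (Finset.Subset.refl _))]
  exact pq_mono h0 h1 fun ω _ hω => hc_mono hb hω

/-- a larger width makes the horizontal crossing harder -/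
theorem hq_anti {q : ℝ} (h0 : 0 ≤ q) (h1 : q ≤ 1) {a a' b : ℕ} (ha : a' ≤ a) :
    hq q a b ≤ hq q a' b := by
  have ha' : (a' : ℤ) ≤ a := by exact_mod_cast ha
  have hsub : box 0 a' 0 b ⊆ box 0 a 0 b := box_mono le_rfl ha' le_rfl le_rfl
  unfold hq
  rw [← pq_dep q hsub (dep_HC (Finset.Subset.refl _))]
  exact pq_mono h0 h1 fun ω _ hω => hc_anti ha hω

/-- all edges of `F` are open -/
theorem pq_all (q : ℝ) {E F : Finset Edge} (hF : F ⊆ E) :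
    IPC.Pr q E (fun ω => F ⊆ ω) = q ^ F.card := by
  classical
  have h1 : IPC.Pr q E (fun ω => F ⊆ ω) = IPC.Pr q F (fun ω => F ⊆ ω) := by
    refine pq_dep q hF fun ω => ?_
    exact ⟨fun h => Finset.subset_inter h (Finset.Subset.refl _), fun h => h.trans Finset.inter_subset_left⟩
  rw [h1]
  unfold IPC.Pr IPC.EE
  rw [Finset.sum_eq_single_of_mem F (Finset.mem_powerset.2 (Finset.Subset.refl _))]
  · show q ^ F.card * (1 - q) ^ (F \ F).card * IPC.ind (F ⊆ F) = q ^ F.card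
    rw [IPC.ind_of (Finset.Subset.refl F), Finset.sdiff_self, Finset.card_empty, pow_zero, mul_one, mul_one]
  · intro ω hω hne
    show q ^ ω.card * (1 - q) ^ (F \ ω).card * IPC.ind (F ⊆ ω) = 0
    have h2 : ¬ F ⊆ ω := fun h2 => hne (Finset.Subset.antisymm (Finset.mem_powerset.1 hω) h2)
    rw [IPC.ind_not h2, mul_zero]

/-- straight line -/
theorem hq_line {q : ℝ} (h0 : 0 ≤ q) (h1 : q ≤ 1) (a b : ℕ) : q ^ a ≤ hq q a b := by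
  refine le_trans ?_ (hq_mono h0 h1 (Nat.zero_le b))
  have hcard : (box 0 (a : ℤ) 0 ((0 : ℕ) : ℤ)).card = a := by
    have h1 : FKP.box 0 (a : ℤ) 0 ((0 : ℕ) : ℤ) = Ico 0 (a : ℤ) ×ˢ (Icc 0 0 ×ˢ {false}) := by
      unfold FKP.box
      simp
    rw [h1, card_product, card_product]
    simp
  have h2 := pq_all q (Finset.Subset.refl (box 0 (a : ℤ) 0 ((0 : ℕ) : ℤ)))
  rw [hcard] at h2
  rw [← h2]
  unfold hq
  refine pq_mono h0 h1 fun ω _ hω => ?_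
  exact inc_HC _ _ _ _ _ _ hω ⟨0, 0, le_rfl, by simp, le_rfl, by simp, pexit_line a a le_rfl⟩

/-- gluing two crossings: geometry -/
theorem glue_geo {a b N : ℕ} (ha : N ≤ a) (hb : N ≤ b) {ω : Finset Edge}
    (hω : ω ⊆ box 0 ((a + b - N : ℕ) : ℤ) 0 (N : ℤ)) (h1 : HC 0 a 0 N ω)
    (h2 : HC ((a : ℤ) - N) ((a : ℤ) + b - N) 0 N ω) (h3 : VC ((a : ℤ) - N) a 0 N ω) :
    HC 0 ((a + b - N : ℕ) : ℤ) 0 N ω := by
  have hcast : ((a + b - N : ℕ) : ℤ) = (a : ℤ) + b - N := by omega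
  obtain ⟨y, y', k1, k2, k3, k4, hc⟩ := h1
  obtain ⟨u, u', l1, l2, l3, l4, hd⟩ := h2
  obtain ⟨x, x', m1, m2, m3, m4, he⟩ := h3
  have c1 : (gr ω).Reachable (0, y) (x, 0) := cross (x1 := 0) (x2 := a) (y1 := 0) (y2 := N)
    (x3 := (a : ℤ) - N) (x4 := a) (y3 := 0) (y4 := N) (by omega) le_rfl le_rfl le_rfl
    ⟨k1, k2⟩ ⟨k3, k4⟩ ⟨m1, m2⟩ ⟨m3, m4⟩ hc he
  have c2 : (gr ω).Reachable ((a : ℤ) - N, u) (x, 0) := cross (x1 := (a : ℤ) - N)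
    (x2 := (a : ℤ) + b - N) (y1 := 0) (y2 := N)
    (x3 := (a : ℤ) - N) (x4 := a) (y3 := 0) (y4 := N) le_rfl (by omega) le_rfl le_rfl
    ⟨l1, l2⟩ ⟨l3, l4⟩ ⟨m1, m2⟩ ⟨m3, m4⟩ hd he
  refine ⟨y, u', k1, k2, l3, l4, Conn.of_reach hω ?_⟩
  rw [hcast]
  exact (c1.trans c2.symm).trans hd.reach

/-- gluing, product form -/
theorem hq_glue {q : ℝ} (h0 : 0 ≤ q) (h1 : q ≤ 1) {a b N : ℕ} (ha : N ≤ a) (hb : N ≤ b) :
    hq q a N * hq q b N * hq q N N ≤ hq q (a + b - N) N := by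
  have e1 : IPC.Pr q (box 0 ((a + b - N : ℕ) : ℤ) 0 (N : ℤ)) (HC 0 a 0 N) = hq q a N :=
    pq_HC q a N (by ring) (by ring) (box_mono le_rfl (by omega) le_rfl le_rfl)
  have e2 : IPC.Pr q (box 0 ((a + b - N : ℕ) : ℤ) 0 (N : ℤ))
      (HC ((a : ℤ) - N) ((a : ℤ) + b - N) 0 N) = hq q b N :=
    pq_HC q b N (by ring) (by ring) (box_mono (by omega) (by omega) le_rfl le_rfl)
  have e3 : IPC.Pr q (box 0 ((a + b - N : ℕ) : ℤ) 0 (N : ℤ)) (VC ((a : ℤ) - N) a 0 N) = hq q N N :=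
    pq_VC q N N (by ring) (by ring) (box_mono (by omega) (by omega) le_rfl le_rfl)
  have i12 : FKP.Inc (fun ω => HC 0 a 0 N ω ∧ HC ((a : ℤ) - N) ((a : ℤ) + b - N) 0 N ω) :=
    fun ω ω' hs hh => ⟨inc_HC _ _ _ _ ω ω' hs hh.1, inc_HC _ _ _ _ ω ω' hs hh.2⟩
  have f1 := pq_fkg h0 h1 (box 0 ((a + b - N : ℕ) : ℤ) 0 (N : ℤ)) (inc_HC 0 a 0 N)
    (inc_HC ((a : ℤ) - N) ((a : ℤ) + b - N) 0 N)
  have f2 := pq_fkg h0 h1 (box 0 ((a + b - N : ℕ) : ℤ) 0 (N : ℤ)) i12 (inc_VC ((a : ℤ) - N) a 0 N)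
  rw [e1, e2] at f1
  rw [e3] at f2
  refine (mul_le_mul_of_nonneg_right f1 (hq_nonneg h0 h1 _ _)).trans (f2.trans ?_)
  exact pq_mono h0 h1 fun ω hω hh => glue_geo ha hb hω hh.1.1 hh.1.2 hh.2

/-- gluing near one -/
theorem hq_glue_one {q : ℝ} (h0 : 0 ≤ q) (h1 : q ≤ 1) {a b N : ℕ} (ha : N ≤ a) (hb : N ≤ b) :
    hq q a N + hq q b N + hq q N N - 2 ≤ hq q (a + b - N) N := by
  have e1 : IPC.Pr q (box 0 ((a + b - N : ℕ) : ℤ) 0 (N : ℤ)) (HC 0 a 0 N) = hq q a N :=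
    pq_HC q a N (by ring) (by ring) (box_mono le_rfl (by omega) le_rfl le_rfl)
  have e2 : IPC.Pr q (box 0 ((a + b - N : ℕ) : ℤ) 0 (N : ℤ))
      (HC ((a : ℤ) - N) ((a : ℤ) + b - N) 0 N) = hq q b N :=
    pq_HC q b N (by ring) (by ring) (box_mono (by omega) (by omega) le_rfl le_rfl)
  have e3 : IPC.Pr q (box 0 ((a + b - N : ℕ) : ℤ) 0 (N : ℤ)) (VC ((a : ℤ) - N) a 0 N) = hq q N N :=
    pq_VC q N N (by ring) (by ring) (box_mono (by omega) (by omega) le_rfl le_rfl)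
  have f1 := pq_and_ge h0 h1 (box 0 ((a + b - N : ℕ) : ℤ) 0 (N : ℤ)) (HC 0 a 0 N)
    (HC ((a : ℤ) - N) ((a : ℤ) + b - N) 0 N)
  have f2 := pq_and_ge h0 h1 (box 0 ((a + b - N : ℕ) : ℤ) 0 (N : ℤ))
    (fun ω => HC 0 a 0 N ω ∧ HC ((a : ℤ) - N) ((a : ℤ) + b - N) 0 N ω) (VC ((a : ℤ) - N) a 0 N)
  rw [e1, e2] at f1
  rw [e3] at f2
  have f3 : IPC.Pr q (box 0 ((a + b - N : ℕ) : ℤ) 0 (N : ℤ)) (fun ω => (HC 0 a 0 N ω ∧
      HC ((a : ℤ) - N) ((a : ℤ) + b - N) 0 N ω) ∧ VC ((a : ℤ) - N) a 0 N ω) ≤ hq q (a + b - N) N :=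
    pq_mono h0 h1 fun ω hω hh => glue_geo ha hb hω hh.1.1 hh.1.2 hh.2
  linarith

end FKN
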