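import Pool.Agent.Lib.MP_216314_pr.N.DTopA
import Pool.Agent.Lib.MP_216314_pr.N.GB

/-!
# Stream D: lower bounds at bounded scales (explicit configurations)

PROOFS.
`conf_pr`: the probability of the configuration `ω0` is `q ^ |ω0| (1 - q) ^ |E \ ω0| ≥ c ^ |E|` (unfold `IPC.Pr`, `IPC.EE`: one term of the sum, `c ≤ 1`).
`q_of_rs`: `q ≤ hq q 1 1` (`hq_line` of GB with `a = 1`) and `hq q 1 1 ≤ 1 - ε` give `ε ≤ 1 - q`; a horizontal crossing of `[0,1]²` uses one of the two horizontal edges, so `ε ≤ hq q 1 1 ≤ 2 q` (union bound; see `q_ge` in `N/GL.lean`, which you may copy).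
`RP_full`: in a box all of whose edges are open all vertices are connected.
`can_conf`: for `n ≥ 1` let `R = rr 2 n` (`= n / 200`), `ω0 = (edges (x,0,false) with -n ≤ x < n, x ≠ 0) ∪ bxs (cO 2 n) (3 R)`; `cO 2 n = ![(n,0), (-n,0)]`, `cD 2 n = ![(0,n), (0,-n)]` (`ptR`, `gw_val`, `sq_val`: angles 1, 5 and 3, 7).
Then `CanO 2 {e0} SeP SeD n ω0`: open arms: `s = ![(1,0), (0,0)]`, `v = cO 2 n`: `RP (cO 2 n i) R (ω0 ∩ Fp) (cO 2 n i)` by `RP_full` (`bxa (cO 2 n i) (3 R) ⊆ ω0 ∩ Fp`), the axis from `(1,0)` to `(n,0)` and from `(0,0)` to `(-n,0)` is in `ω0 ∩ Fp` (the part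
`|x| ≤ n - 5 R` in `bx (n - 5 R) \ {e0}`, the rest in `bxs (cO 2 n) (10 R)`). Dual arms: `s = ![(0,0), (0,-1)]`, `v = cD 2 n`: the edges `(0,y,false)`, `1 ≤ y ≤ n` (and `-n+1 ≤ y ≤ -1`) are closed and in
`Fm = (bx (n - 5 R) \ {e0}) ∪ ud (bxs (cD 2 n) (10 R))` (if `R = 0`: `(0, y, false) ∈ bx n` for all `|y| ≤ n`); they are crossed by the vertical dual path from the face `(0,0)` to the face `(0,n)` (from the face `(0,-1)` to `(0,-n)`);
`bxa (cD 2 n i) (3 R) ⊆ dc Fm ω0`: the edges `dl.symm f`, `f ∈ bxa (cD 2 n i) (3 R)` are in `ud (bxs (cD 2 n) (10 R))` and closed (not on the axis and far from `cO 2 n`). Sources: `nearS` with the swap or the identity.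
`wO_base`: `conf_pr` with `E = bx (2 n)`, `c = min (ε/2) (1/2)`, and the minimum over `n ≤ M` (`c ^ (bx (2 n)).card ≥ c ^ (bx (2 M)).card`). `p4_base`: `wO_base` at `2 n` and `wO_le_p4`.
-/

set_option autoImplicit false

noncomputable section

namespace FKN

open Finset FKI FKP

private theorem DBase_adj {S : Finset Edge} {e : Edge} (he : e ∈ S) {u v : V} (h1 : ea e = u) (h2 : eb e = v) :
    (gr S).Reachable u v := by
  have h := pexit_edge he he (u := u) (v := v) (Or.inl ⟨h1, h2⟩)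
  unfold Conn at h
  rwa [Finset.inter_self] at h

private theorem DBase_hline {S : Finset Edge} {x x' y : ℤ} (hx : x ≤ x') (h : ∀ i : ℤ, x ≤ i → i < x' → (i, y, false) ∈ S) :
    (gr S).Reachable (x, y) (x', y) := by
  obtain ⟨k, hk⟩ := Int.eq_ofNat_of_zero_le (sub_nonneg.2 hx)
  have hk' : x' = x + (k : ℤ) := by omega
  subst hk'
  clear hk hx
  induction k with
  | zero =>
    rw [Nat.cast_zero, add_zero]
  | succ k ih =>
    refine (ih fun i h1 h2 => h i h1 (by push_cast; omega)).trans ?_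
    refine DBase_adj (h (x + k) (by omega) (by push_cast; omega)) rfl ?_
    show (x + (k : ℤ) + 1, y) = (x + ((k + 1 : ℕ) : ℤ), y)
    rw [Nat.cast_add, Nat.cast_one, add_assoc]

private theorem DBase_vline {S : Finset Edge} {x y y' : ℤ} (hy : y ≤ y') (h : ∀ i : ℤ, y ≤ i → i < y' → (x, i, true) ∈ S) :
    (gr S).Reachable (x, y) (x, y') := by
  obtain ⟨k, hk⟩ := Int.eq_ofNat_of_zero_le (sub_nonneg.2 hy)
  have hk' : y' = y + (k : ℤ) := by omega
  subst hk'
  clear hk hy
  induction k with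
  | zero =>
    rw [Nat.cast_zero, add_zero]
  | succ k ih =>
    refine (ih fun i h1 h2 => h i h1 (by push_cast; omega)).trans ?_
    refine DBase_adj (h (y + k) (by omega) (by push_cast; omega)) rfl ?_
    show (x, y + (k : ℤ) + 1) = (x, y + ((k + 1 : ℕ) : ℤ))
    rw [Nat.cast_add, Nat.cast_one, add_assoc]

private theorem DBase_full {x1 x2 y1 y2 : ℤ} {η : Finset Edge} (h : box x1 x2 y1 y2 ⊆ η) {u v : V}
    (hu : x1 ≤ u.1 ∧ u.1 ≤ x2 ∧ y1 ≤ u.2 ∧ u.2 ≤ y2) (hv : x1 ≤ v.1 ∧ v.1 ≤ x2 ∧ y1 ≤ v.2 ∧ v.2 ≤ y2) :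
    Conn (box x1 x2 y1 y2) η u v := by
  unfold Conn
  rw [Finset.inter_eq_right.2 h]
  have key : ∀ w : V, x1 ≤ w.1 ∧ w.1 ≤ x2 ∧ y1 ≤ w.2 ∧ w.2 ≤ y2 → (gr (box x1 x2 y1 y2)).Reachable (x1, y1) w := by
    intro w hw
    have h1 : (gr (box x1 x2 y1 y2)).Reachable (x1, y1) (x1, w.2) :=
      DBase_vline hw.2.2.1 fun i h1 h2 => mem_box.2 (Or.inr ⟨rfl, le_rfl, by dsimp only; omega, h1, by dsimp only; omega⟩)
    have h2 : (gr (box x1 x2 y1 y2)).Reachable (x1, w.2) (w.1, w.2) :=
      DBase_hline hw.1 fun i h1 h2 => mem_box.2 (Or.inl ⟨rfl, h1, by dsimp only; omega, hw.2.2.1, hw.2.2.2⟩)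
    exact h1.trans h2
  exact (key u hu).symm.trans (key v hv)

private theorem DBase_vert {S : Finset Edge} (hv : ∀ e ∈ S, e.2.2 = true) {u v : V} (h : (gr S).Reachable u v) :
    u.1 = v.1 := by
  obtain ⟨p⟩ := h
  induction p with
  | nil => rfl
  | cons hadj _ ih =>
    obtain ⟨e, he, hends⟩ := pexit_adj hadj
    have h2 : (eb e).1 = (ea e).1 := by
      obtain ⟨x, y, t⟩ := e
      have h3 := hv _ he
      dsimp only at h3
      subst h3
      rfl
    rcases hends with ⟨h3, h4⟩ | ⟨h3, h4⟩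
    · rw [← ih, ← h3, ← h4, h2]
    · rw [← ih, ← h3, ← h4, h2]

private theorem DBase_mem_dc {F ω : Finset Edge} {e : Edge} : e ∈ dc F ω ↔ dl.symm e ∈ F \ ω := by
  unfold dc
  rw [Finset.mem_map_equiv]

private theorem DBase_two (i : Fin 2) : i = 0 ∨ i = 1 := by
  revert i
  decide

private theorem DBase_bxs_mono {l : ℕ} {a : Fin l → V} {w w' : ℤ} (h : w ≤ w') : bxs a w ⊆ bxs a w' := by
  intro e he
  unfold bxs at he ⊢
  rw [mem_biUnion] at he ⊢
  obtain ⟨i, hi, h2⟩ := he
  refine ⟨i, hi, ?_⟩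
  unfold bxa at h2 ⊢
  exact box_mono (by omega) (by omega) (by omega) (by omega) h2

private def DBase_conf (n : ℕ) : Finset Edge :=
  ((Ico (-(n : ℤ)) n ×ˢ ({0} ×ˢ {false})).filter fun e => e.1 ≠ 0) ∪ bxs (cO 2 n) (3 * rr 2 n)

private theorem DBase_mem_conf {n : ℕ} {e : Edge} : e ∈ DBase_conf n ↔
    (e.2.2 = false ∧ e.2.1 = 0 ∧ -(n : ℤ) ≤ e.1 ∧ e.1 < n ∧ e.1 ≠ 0) ∨ e ∈ bxs (cO 2 n) (3 * rr 2 n) := by
  unfold DBase_conf
  rw [mem_union, mem_filter, mem_product, mem_product, mem_Ico, Finset.mem_singleton, Finset.mem_singleton]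
  tauto

private theorem DBase_centres (n : ℕ) : cO 2 n 0 = ((n : ℤ), 0) ∧ cO 2 n 1 = (-(n : ℤ), 0) ∧ cD 2 n 0 = (0, (n : ℤ)) ∧
    cD 2 n 1 = (0, -(n : ℤ)) := by
  have t0 : thO 2 0 = 1 := by
    unfold thO
    simp
  have t1 : thO 2 1 = 5 := by
    unfold thO
    norm_num
  have t2 : thD 2 0 = 3 := by
    unfold thD
    norm_num
  have t3 : thD 2 1 = 7 := by
    unfold thD
    norm_num
  have g1 := (sq_val (θ := 1) (by norm_num) (by norm_num)).1 (by norm_num)
  have g5 := (sq_val (θ := 5) (by norm_num) (by norm_num)).2.2.1 (by norm_num) (by norm_num)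
  have g3 := (sq_val (θ := 3) (by norm_num) (by norm_num)).2.1 (by norm_num) (by norm_num)
  have g7 := (sq_val (θ := 7) (by norm_num) (by norm_num)).2.2.2 (by norm_num)
  unfold cO cD ptR
  rw [t0, t1, t2, t3, g1.1, g1.2, g5.1, g5.2, g3.1, g3.2, g7.1, g7.2]
  have r0 : round ((n : ℝ) * 1) = (n : ℤ) := by
    rw [mul_one]
    exact round_natCast n
  have r1 : round ((n : ℝ) * -1) = -(n : ℤ) := by
    have h : (n : ℝ) * -1 = ((-(n : ℤ) : ℤ) : ℝ) := by
      push_cast
      ring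
    rw [h]
    exact round_intCast _
  have r2 : round ((n : ℝ) * (1 - 1)) = 0 := by
    rw [sub_self, mul_zero]
    exact round_zero
  have r3 : round ((n : ℝ) * (5 - 5)) = 0 := by
    rw [sub_self, mul_zero]
    exact round_zero
  have r4 : round ((n : ℝ) * (3 - 3)) = 0 := by
    rw [sub_self, mul_zero]
    exact round_zero
  have r5 : round ((n : ℝ) * (7 - 7)) = 0 := by
    rw [sub_self, mul_zero]
    exact round_zero
  rw [r0, r1, r2, r3, r4, r5]
  exact ⟨rfl, rfl, rfl, rfl⟩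

theorem conf_pr {c q : ℝ} (hc : 0 ≤ c) (h1 : c ≤ q) (h2 : c ≤ 1 - q) {E ω0 : Finset Edge} (hω : ω0 ⊆ E)
    {A : Finset Edge → Prop} (hA : A ω0) : c ^ E.card ≤ IPC.Pr q E A := by
  classical
  have hq0 : 0 ≤ q := hc.trans h1
  have hq1 : 0 ≤ 1 - q := hc.trans h2
  unfold IPC.Pr IPC.EE
  refine le_trans ?_ (Finset.single_le_sum (f := fun ω => q ^ ω.card * (1 - q) ^ (E \ ω).card * IPC.ind (A ω))
    (fun ω _ => mul_nonneg (mul_nonneg (pow_nonneg hq0 _) (pow_nonneg hq1 _)) (IPC.ind_nonneg _))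
    (Finset.mem_powerset.2 hω))
  show c ^ E.card ≤ q ^ ω0.card * (1 - q) ^ (E \ ω0).card * IPC.ind (A ω0)
  rw [IPC.ind_of hA, mul_one, ← Finset.card_sdiff_add_card_eq_card hω, pow_add, mul_comm (c ^ (E \ ω0).card)]
  exact mul_le_mul (pow_le_pow_left₀ hc h1 _) (pow_le_pow_left₀ hc h2 _) (pow_nonneg hc _) (pow_nonneg hq0 _)

theorem q_of_rs {ε q : ℝ} (h0 : 0 ≤ q) (h1 : q ≤ 1) (hε : 0 < ε) (h : RS ε q 1) : ε / 2 ≤ q ∧ ε / 2 ≤ 1 - q := by
  obtain ⟨h2, h3⟩ := h 1 le_rfl le_rfl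
  have h4 := hq_line h0 h1 1 1
  rw [pow_one] at h4
  refine ⟨?_, by linarith⟩
  have h5 : hq q 1 1 ≤ q + q := by
    have e1 : IPC.Pr q (box 0 ((1 : ℕ) : ℤ) 0 ((1 : ℕ) : ℤ)) (fun ω => {((0 : ℤ), (0 : ℤ), false)} ⊆ ω) = q := by
      rw [pq_all q (F := {((0 : ℤ), (0 : ℤ), false)}) ?_, Finset.card_singleton, pow_one]
      intro e he
      rw [Finset.mem_singleton] at he
      rw [he, mem_box]
      left
      norm_num
    have e2 : IPC.Pr q (box 0 ((1 : ℕ) : ℤ) 0 ((1 : ℕ) : ℤ)) (fun ω => {((0 : ℤ), (1 : ℤ), false)} ⊆ ω) = q := by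
      rw [pq_all q (F := {((0 : ℤ), (1 : ℤ), false)}) ?_, Finset.card_singleton, pow_one]
      intro e he
      rw [Finset.mem_singleton] at he
      rw [he, mem_box]
      left
      norm_num
    have e3 := pq_or_le h0 h1 (box 0 ((1 : ℕ) : ℤ) 0 ((1 : ℕ) : ℤ))
      (fun ω => {((0 : ℤ), (0 : ℤ), false)} ⊆ ω) (fun ω => {((0 : ℤ), (1 : ℤ), false)} ⊆ ω)
    rw [e1, e2] at e3
    refine le_trans ?_ e3
    unfold hq
    refine pq_mono h0 h1 fun ω _ hω => ?_
    obtain ⟨y, y', _, _, _, _, hc⟩ := hω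
    by_contra hn
    have hv : ∀ e ∈ ω ∩ box 0 ((1 : ℕ) : ℤ) 0 ((1 : ℕ) : ℤ), e.2.2 = true := by
      intro e he
      rw [mem_inter] at he
      have hb := mem_box.1 he.2
      rcases hb with ⟨k1, k2, k3, k4, k5⟩ | ⟨k1, _⟩
      · exfalso
        apply hn
        obtain ⟨x, z, t⟩ := e
        simp only at k1 k2 k3 k4 k5
        have hx : x = 0 := by omega
        rw [k1, hx] at he
        have hz : z = 0 ∨ z = 1 := by omega
        rcases hz with hz | hz
        · left
          rw [hz] at he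
          exact Finset.singleton_subset_iff.2 he.1
        · right
          rw [hz] at he
          exact Finset.singleton_subset_iff.2 he.1
      · exact k1
    have h6 := DBase_vert hv hc
    simp only [Nat.cast_one] at h6
    omega
  linarith

theorem RP_full {a : V} {r : ℤ} (hr : 0 ≤ r) {η : Finset Edge} (h : bxa a (3 * r) ⊆ η) : RP a r η a := by
  have hb := fun (u v : V) => DBase_full (x1 := a.1 - 3 * r) (x2 := a.1 + 3 * r) (y1 := a.2 - 3 * r) (y2 := a.2 + 3 * r)
    (η := η) h (u := u) (v := v)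
  have s1 : box (a.1 - 3 * r) (a.1 + 3 * r) (a.2 + r) (a.2 + 3 * r) ⊆ η :=
    Finset.Subset.trans (box_mono le_rfl le_rfl (by omega) le_rfl) h
  have s2 : box (a.1 - 3 * r) (a.1 + 3 * r) (a.2 - 3 * r) (a.2 - r) ⊆ η :=
    Finset.Subset.trans (box_mono le_rfl le_rfl le_rfl (by omega)) h
  have s3 : box (a.1 + r) (a.1 + 3 * r) (a.2 - 3 * r) (a.2 + 3 * r) ⊆ η :=
    Finset.Subset.trans (box_mono (by omega) le_rfl le_rfl le_rfl) h
  have s4 : box (a.1 - 3 * r) (a.1 - r) (a.2 - 3 * r) (a.2 + 3 * r) ⊆ η :=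
    Finset.Subset.trans (box_mono le_rfl (by omega) le_rfl le_rfl) h
  refine ⟨⟨a.2 + r, a.2 + r, by omega, by omega, by omega, by omega, DBase_full s1 ?_ ?_, hb _ _ ?_ ?_⟩,
    ⟨a.2 - r, a.2 - r, by omega, by omega, by omega, by omega, DBase_full s2 ?_ ?_, hb _ _ ?_ ?_⟩,
    ⟨a.1 + r, a.1 + r, by omega, by omega, by omega, by omega, DBase_full s3 ?_ ?_, hb _ _ ?_ ?_⟩,
    ⟨a.1 - r, a.1 - r, by omega, by omega, by omega, by omega, DBase_full s4 ?_ ?_, hb _ _ ?_ ?_⟩⟩ <;>
    omega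

theorem can_conf {n : ℕ} (hn : 1 ≤ n) : ∃ ω0 ⊆ bx (2 * n), CanO 2 {e0} SeP SeD n ω0 := by
  have hR : 200 * rr 2 n ≤ n := by
    unfold rr
    omega
  obtain ⟨R, hRR⟩ : ∃ R : ℤ, R = (rr 2 n : ℤ) := ⟨_, rfl⟩
  have hR0 : 0 ≤ R := by omega
  have hRn : 200 * R ≤ n := by omega
  have hsub : ((n - 5 * rr 2 n : ℕ) : ℤ) = n - 5 * R := by omega
  have hreg := CanO_region (l := 2) (by norm_num) {e0} n (by
    intro e he
    rw [Finset.mem_singleton] at he
    rw [he]
    exact e0_mem hn)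
  obtain ⟨c0, c1, d0, d1⟩ := DBase_centres n
  refine ⟨DBase_conf n, ?_, ?_⟩
  · intro e he
    rcases DBase_mem_conf.1 he with ⟨k1, k2, k3, k4, k5⟩ | he
    · unfold bx
      rw [mem_box]
      left
      push_cast
      exact ⟨k1, by omega, by omega, by omega, by omega⟩
    · refine hreg (Finset.mem_union_left _ (Finset.mem_union_right _ ?_))
      exact DBase_bxs_mono (by omega) he
  · have hA : ∀ e : Edge, e.2.2 = false → e.2.1 = 0 → -(n : ℤ) ≤ e.1 → e.1 < n → e.1 ≠ 0 →
        e ∈ DBase_conf n ∩ ((bx (n - 5 * rr 2 n) \ {e0}) ∪ bxs (cO 2 n) (10 * rr 2 n)) := by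
      intro e k1 k2 k3 k4 k5
      rw [mem_inter]
      refine ⟨DBase_mem_conf.2 (Or.inl ⟨k1, k2, k3, k4, k5⟩), ?_⟩
      rw [mem_union]
      by_cases g1 : -(n - 5 * R) ≤ e.1 ∧ e.1 < n - 5 * R
      · left
        rw [mem_sdiff, Finset.mem_singleton]
        refine ⟨?_, fun h => k5 (by rw [h]; rfl)⟩
        unfold bx
        rw [mem_box, hsub]
        left
        exact ⟨k1, by omega, by omega, by omega, by omega⟩
      · right
        unfold bxs
        rw [mem_biUnion]
        rw [← hRR]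
        by_cases g2 : 0 < e.1
        · refine ⟨0, mem_univ _, ?_⟩
          unfold bxa
          rw [mem_box, c0]
          left
          dsimp only
          exact ⟨k1, by omega, by omega, by omega, by omega⟩
        · refine ⟨1, mem_univ _, ?_⟩
          unfold bxa
          rw [mem_box, c1]
          left
          dsimp only
          exact ⟨k1, by omega, by omega, by omega, by omega⟩
    have hB : ∀ e : Edge, e.2.2 = true → e.1 = 0 → ((0 ≤ e.2.1 ∧ e.2.1 < n) ∨ (-(n : ℤ) ≤ e.2.1 ∧ e.2.1 < -1)) →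
        e ∈ dc ((bx (n - 5 * rr 2 n) \ {e0}) ∪ ud (bxs (cD 2 n) (10 * rr 2 n))) (DBase_conf n) := by
      intro e k1 k2 k3
      obtain ⟨x, y, t⟩ := e
      dsimp only at k1 k2 k3
      subst k1 k2
      rw [DBase_mem_dc, mem_sdiff]
      have hs : dl.symm ((0 : ℤ), y, true) = ((0 : ℤ), y + 1, false) := rfl
      rw [hs]
      constructor
      · rw [mem_union]
        by_cases g1 : -(n - 5 * R) ≤ y + 1 ∧ y + 1 ≤ n - 5 * R
        · left
          rw [mem_sdiff, Finset.mem_singleton]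
          refine ⟨?_, fun h => ?_⟩
          · unfold bx
            rw [mem_box, hsub]
            left
            dsimp only
            exact ⟨rfl, by omega, by omega, by omega, by omega⟩
          · have h2 : y + 1 = 0 := congrArg (fun e : Edge => e.2.1) h
            omega
        · right
          rw [mem_ud]
          have hs2 : dl ((0 : ℤ), y + 1, false) = ((0 : ℤ), y, true) := by
            rw [← hs]
            exact dl.apply_symm_apply _
          rw [hs2]
          unfold bxs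
          rw [mem_biUnion, ← hRR]
          by_cases g2 : 0 ≤ y
          · refine ⟨0, mem_univ _, ?_⟩
            unfold bxa
            rw [mem_box, d0]
            right
            dsimp only
            exact ⟨rfl, by omega, by omega, by omega, by omega⟩
          · refine ⟨1, mem_univ _, ?_⟩
            unfold bxa
            rw [mem_box, d1]
            right
            dsimp only
            exact ⟨rfl, by omega, by omega, by omega, by omega⟩
      · intro h
        rcases DBase_mem_conf.1 h with ⟨_, k5, _⟩ | h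
        · dsimp only at k5
          omega
        · unfold bxs at h
          rw [mem_biUnion, ← hRR] at h
          obtain ⟨i, _, hi⟩ := h
          unfold bxa at hi
          rw [mem_box] at hi
          rcases DBase_two i with rfl | rfl
          · rw [c0] at hi
            dsimp only at hi
            omega
          · rw [c1] at hi
            dsimp only at hi
            omega
    refine ⟨⟨![(1, 0), (0, 0)], cO 2 n, ?_, ?_, ?_⟩, ⟨![(0, 0), (0, -1)], cD 2 n, ?_, ?_, ?_⟩⟩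
    · refine ⟨Equiv.swap 0 1, fun i => ?_⟩
      rcases DBase_two i with rfl | rfl
      · rw [Equiv.swap_apply_left]
        decide
      · rw [Equiv.swap_apply_right]
        decide
    · intro i
      refine RP_full (by omega) fun e he => ?_
      rw [mem_inter]
      have h1 : e ∈ bxs (cO 2 n) (3 * rr 2 n) := by
        unfold bxs
        rw [mem_biUnion]
        exact ⟨i, mem_univ _, he⟩
      refine ⟨DBase_mem_conf.2 (Or.inr h1), ?_⟩
      rw [mem_union]
      right
      exact DBase_bxs_mono (by omega) h1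
    · intro i
      rcases DBase_two i with rfl | rfl
      · rw [c0]
        have h1 := DBase_hline (S := DBase_conf n ∩ ((bx (n - 5 * rr 2 n) \ {e0}) ∪ bxs (cO 2 n) (10 * rr 2 n)))
          (x := 1) (x' := n) (y := 0) (by omega) (fun j h2 h3 => hA (j, 0, false) rfl rfl (by dsimp only; omega) h3
            (by dsimp only; omega))
        exact h1
      · rw [c1]
        have h1 := DBase_hline (S := DBase_conf n ∩ ((bx (n - 5 * rr 2 n) \ {e0}) ∪ bxs (cO 2 n) (10 * rr 2 n)))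
          (x := -(n : ℤ)) (x' := 0) (y := 0) (by omega) (fun j h2 h3 => hA (j, 0, false) rfl rfl h2 (by dsimp only; omega)
            (by dsimp only; omega))
        exact h1.symm
    · refine ⟨1, fun i => ?_⟩
      rcases DBase_two i with rfl | rfl
      · decide
      · decide
    · intro i
      refine RP_full (by omega) fun f hf => ?_
      rw [DBase_mem_dc, mem_sdiff]
      have hf3 : f ∈ bxs (cD 2 n) (3 * rr 2 n) := by
        unfold bxs
        rw [mem_biUnion]
        exact ⟨i, mem_univ _, hf⟩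
      have hpos : 1 ≤ R := by
        unfold bxa at hf
        rw [mem_box] at hf
        omega
      constructor
      · rw [mem_union]
        right
        rw [mem_ud, dl.apply_symm_apply]
        exact DBase_bxs_mono (by omega) hf3
      · intro h
        have hy : (2 * R < f.2.1 ∨ f.2.1 < -(2 * R)) ∧ -(3 * R) ≤ f.1 ∧ f.1 ≤ 3 * R := by
          unfold bxa at hf
          rw [mem_box, ← hRR] at hf
          rcases DBase_two i with rfl | rfl
          · rw [d0] at hf
            dsimp only at hf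
            omega
          · rw [d1] at hf
            dsimp only at hf
            omega
        have hs : (dl.symm f).1 - f.1 ≤ 1 ∧ f.1 ≤ (dl.symm f).1 ∧ (dl.symm f).2.1 - f.2.1 ≤ 1 ∧ f.2.1 ≤ (dl.symm f).2.1 := by
          obtain ⟨x, y, t⟩ := f
          cases t
          · show (x + 1) - x ≤ 1 ∧ x ≤ x + 1 ∧ y - y ≤ 1 ∧ y ≤ y
            omega
          · show x - x ≤ 1 ∧ x ≤ x ∧ (y + 1) - y ≤ 1 ∧ y ≤ y + 1
            omega
        obtain ⟨s1, s2, s3, s4⟩ := hs
        rcases DBase_mem_conf.1 h with ⟨_, k5, _⟩ | h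
        · omega
        · unfold bxs at h
          rw [mem_biUnion, ← hRR] at h
          obtain ⟨j, _, hj⟩ := h
          unfold bxa at hj
          rw [mem_box] at hj
          rcases DBase_two j with rfl | rfl
          · rw [c0] at hj
            dsimp only at hj
            omega
          · rw [c1] at hj
            dsimp only at hj
            omega
    · intro i
      rcases DBase_two i with rfl | rfl
      · rw [d0]
        have h1 := DBase_vline (S := dc ((bx (n - 5 * rr 2 n) \ {e0}) ∪ ud (bxs (cD 2 n) (10 * rr 2 n))) (DBase_conf n))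
          (x := 0) (y := 0) (y' := n) (by omega) (fun j h2 h3 => hB (0, j, true) rfl rfl (Or.inl ⟨h2, h3⟩))
        exact h1
      · rw [d1]
        have h1 := DBase_vline (S := dc ((bx (n - 5 * rr 2 n) \ {e0}) ∪ ud (bxs (cD 2 n) (10 * rr 2 n))) (DBase_conf n))
          (x := 0) (y := -(n : ℤ)) (y' := -1) (by omega) (fun j h2 h3 => hB (0, j, true) rfl rfl (Or.inr ⟨h2, h3⟩))
        exact h1.symm

theorem wO_base (ε : ℝ) (hε : 0 < ε) (M : ℕ) : ∃ c : ℝ, 0 < c ∧ ∀ (q : ℝ) (n : ℕ), 0 ≤ q → q ≤ 1 → RS ε q 1 → 1 ≤ n → n ≤ M →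
    c ≤ wO q n := by
  refine ⟨min (ε / 2) (1 / 2) ^ (bx (2 * M)).card, pow_pos (lt_min (by linarith) (by norm_num)) _,
    fun q n h0 h1 hRS hn hM => ?_⟩
  obtain ⟨h2, h3⟩ := q_of_rs h0 h1 hε hRS
  obtain ⟨ω0, hω, hA⟩ := can_conf hn
  have hc0 : 0 ≤ min (ε / 2) (1 / 2) := (lt_min (by linarith) (by norm_num)).le
  have h4 := conf_pr hc0 ((min_le_left _ _).trans h2) ((min_le_left _ _).trans h3) hω hA
  refine le_trans ?_ h4
  refine pow_le_pow_of_le_one hc0 ((min_le_right _ _).trans (by norm_num)) ?_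
  exact Finset.card_le_card (bx_mono (by omega))

theorem p4_base (ε : ℝ) (hε : 0 < ε) (M : ℕ) : ∃ c : ℝ, 0 < c ∧ ∀ (q : ℝ) (n : ℕ), 0 ≤ q → q ≤ 1 → RS ε q 1 → 1 ≤ n → n ≤ M →
    c ≤ p4 q n := by
  obtain ⟨c, hc, h⟩ := wO_base ε hε (2 * M)
  refine ⟨c, hc, fun q n h0 h1 hRS hn hM => ?_⟩
  exact (h q (2 * n) h0 h1 hRS (by omega) (by omega)).trans (wO_le_p4 h0 h1 hn le_rfl)

end FKN
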