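import Pool.Agent.Lib.MP_216314_pr.N.GX
import Pool.Agent.Lib.MP_216314_pr.N.NBase

/-!
# Russo-Seymour-Welsh for the parameter `q`
-/

set_option autoImplicit false

noncomputable section

namespace FKN

open Finset FKI FKP

/-- one sided crossing bound up to scale `N` -/
def RL (ε q : ℝ) (N : ℕ) : Prop := ∀ n : ℕ, 1 ≤ n → n ≤ N → ε ≤ hq q n n

theorem rl_of_rs {ε q : ℝ} {N : ℕ} (h : RS ε q N) : RL ε q N := fun n h1 h2 => (h n h1 h2).1

theorem rl_dual {ε q : ℝ} {N : ℕ} (h0 : 0 ≤ q) (h1 : q ≤ 1) (h : RS ε q N) : RL ε (1 - q) N := by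
  intro n hn hN
  obtain ⟨k, rfl⟩ : ∃ k, n = k + 1 := ⟨n - 1, by omega⟩
  have h2 := dualIn q (k + 1) k
  have h3 : hq q (k + 1 + 1) k ≤ hq q (k + 1) (k + 1) :=
    (hq_anti h0 h1 (Nat.le_succ _)).trans (hq_mono h0 h1 (Nat.le_succ _))
  have h4 := (h (k + 1) hn hN).2
  linarith

/-- above `1/2` the squares are crossed with probability at least `1/2` -/
theorem rl_half {q : ℝ} (hq2 : 1 / 2 ≤ q) (h1 : q ≤ 1) (N : ℕ) : RL (1 / 2) q N := by
  intro n hn _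
  have h2 : 1 / 2 ≤ h n n := square_half hn
  have h3 : h n n = hq (1 / 2) n n := pr_half _ _
  rw [h3] at h2
  exact h2.trans (hq_mono_q (by norm_num) hq2 h1 n n)

theorem q_ge {ε q : ℝ} (h0 : 0 ≤ q) (h1 : q ≤ 1) (h : ε ≤ hq q 1 1) : ε / 2 ≤ q := by
  have h2 := dualIn q 0 1
  have h3 := hq_line (q := 1 - q) (by linarith) (by linarith) 2 0
  have h4 : hq q (0 + 1) 1 = hq q 1 1 := rfl
  have h5 : hq (1 - q) (1 + 1) 0 = hq (1 - q) 2 0 := rfl
  rw [h4, h5] at h2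
  nlinarith

/-- the constant for rectangles `2 × 1` -/
def c2 (ε : ℝ) : ℝ := ((ε / 2 * ε) ^ 2 * ε / 2 * ε) ^ 2 * ε

theorem c2_pos {ε : ℝ} (hε : 0 < ε) : 0 < c2 ε := by
  unfold c2
  positivity

theorem long_two {ε q : ℝ} {n N : ℕ} (h0 : 0 ≤ q) (h1 : q ≤ 1) (hε : 0 < ε) (hn : 1 ≤ n)
    (h : RL ε q N) (hN : 2 * n + 1 ≤ N) : c2 ε ≤ hq q (2 * (2 * n + 1)) (2 * n + 1) := by
  have a1 : ε ≤ hq q (2 * n + 1) (2 * n + 1) := h _ (by omega) hN
  have a2 : ε ≤ hq q n n := h _ hn (by omega)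
  have b1 := comb_q h0 h1 (n := n) (m := 2 * n + 1) hn (by omega)
  have b2 := comb_q h0 h1 (n := n) (m := 3 * n + 2) hn (by omega)
  have e1 : 2 * (2 * n + 1) - n = 3 * n + 2 := by omega
  have e2 : 2 * (3 * n + 2) - n = 5 * n + 4 := by omega
  rw [e1] at b1
  rw [e2] at b2
  have hε2 : 0 ≤ ε / 2 * ε := by positivity
  have d1 : (ε / 2 * ε) ^ 2 * ε ≤ hq q (3 * n + 2) (2 * n + 1) := by
    refine le_trans ?_ b1
    refine mul_le_mul (pow_le_pow_left₀ hε2 ?_ 2) a2 hε.le (by positivity)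
    exact mul_le_mul (by linarith) a2 hε.le (by linarith)
  have d2 : c2 ε ≤ hq q (5 * n + 4) (2 * n + 1) := by
    refine le_trans ?_ b2
    unfold c2
    refine mul_le_mul (pow_le_pow_left₀ (by positivity) ?_ 2) a2 hε.le (by positivity)
    refine mul_le_mul (by linarith) a2 hε.le ?_
    have := hq_nonneg h0 h1 (3 * n + 2) (2 * n + 1)
    linarith
  exact d2.trans (hq_anti h0 h1 (by omega))

theorem long_k {ε q : ℝ} {n N : ℕ} (h0 : 0 ≤ q) (h1 : q ≤ 1) (hε : 0 < ε) (hn : 1 ≤ n)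
    (h : RL ε q N) (hN : 2 * n + 1 ≤ N) (k : ℕ) (hk : 1 ≤ k) :
    (c2 ε * ε) ^ k ≤ hq q (k * (2 * n + 1)) (2 * n + 1) := by
  have hsq : ε ≤ hq q (2 * n + 1) (2 * n + 1) := h _ (by omega) hN
  have h2 := long_two h0 h1 hε hn h hN
  have hc : c2 ε ≤ 1 := h2.trans (hq_le_one h0 h1 _ _)
  have hc0 := c2_pos hε
  induction k, hk using Nat.le_induction with
  | base =>
    rw [one_mul, pow_one]
    refine le_trans ?_ hsq
    nlinarith
  | succ k hk ih =>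
    have hM : 2 * n + 1 ≤ k * (2 * n + 1) := Nat.le_mul_of_pos_left _ hk
    have h3 := hq_glue h0 h1 (a := k * (2 * n + 1)) (b := 2 * (2 * n + 1)) (N := 2 * n + 1) hM (by omega)
    have e1 : k * (2 * n + 1) + 2 * (2 * n + 1) - (2 * n + 1) = (k + 1) * (2 * n + 1) := by
      rw [Nat.add_mul, one_mul]
      omega
    rw [e1] at h3
    refine le_trans ?_ h3
    have e2 : (c2 ε * ε) ^ (k + 1) = (c2 ε * ε) ^ k * c2 ε * ε := by ring
    rw [e2]
    have hp : (0 : ℝ) ≤ (c2 ε * ε) ^ k := by positivity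
    exact mul_le_mul (mul_le_mul ih h2 hc0.le (hp.trans ih)) hsq hε.le
      (mul_nonneg (hp.trans ih) (hc0.le.trans h2))

/-- lower bound -/
theorem rswL (ε : ℝ) (hε : 0 < ε) (κ : ℕ) : ∃ c : ℝ, 0 < c ∧ ∀ (q : ℝ) (N : ℕ), 0 ≤ q → q ≤ 1 →
    RL ε q N → ∀ a b : ℕ, 1 ≤ b → a ≤ κ * b → b ≤ κ * N → c ≤ hq q a b := by
  have hc0 := c2_pos hε
  refine ⟨min ((ε / 2) ^ (κ * (2 * κ + 2))) ((c2 ε * ε) ^ (κ * (2 * κ + 2) + 1)),
    lt_min (by positivity) (by positivity), ?_⟩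
  intro q N h0 h1 hR a b hb ha hbN
  have hN : 1 ≤ N := by
    rcases Nat.eq_zero_or_pos N with h2 | h2
    · subst h2
      omega
    · exact h2
  have h11 : ε ≤ hq q 1 1 := hR 1 le_rfl hN
  have hε1 : ε ≤ 1 := h11.trans (hq_le_one h0 h1 _ _)
  have hq2 := q_ge h0 h1 h11
  by_cases h3 : 3 ≤ min b N
  · refine (min_le_right _ _).trans ?_
    obtain ⟨n, hn1, hn2, hn3⟩ : ∃ n : ℕ, 1 ≤ n ∧ 2 * n + 1 ≤ min b N ∧ min b N ≤ 2 * n + 2 :=
      ⟨(min b N - 1) / 2, by omega, by omega, by omega⟩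
    have h4 := long_k h0 h1 hε hn1 hR (hn2.trans (min_le_right _ _)) (κ * (2 * κ + 2) + 1) (by omega)
    refine h4.trans ?_
    have h5 : 2 * n + 1 ≤ b := hn2.trans (min_le_left _ _)
    have h6 : b ≤ (2 * κ + 2) * (2 * n + 1) := by
      by_cases h7 : b ≤ N
      · have h8 : min b N = b := min_eq_left h7
        rw [h8] at hn3
        nlinarith
      · have h8 : min b N = N := min_eq_right (by omega)
        rw [h8] at hn3
        have h9 : κ * N ≤ κ * (2 * n + 2) := Nat.mul_le_mul_left _ hn3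
        nlinarith
    have h7 : a ≤ (κ * (2 * κ + 2) + 1) * (2 * n + 1) := by
      calc a ≤ κ * b := ha
        _ ≤ κ * ((2 * κ + 2) * (2 * n + 1)) := Nat.mul_le_mul_left _ h6
        _ ≤ (κ * (2 * κ + 2) + 1) * (2 * n + 1) := by
          rw [← mul_assoc, Nat.add_mul, one_mul]
          omega
    exact (hq_mono h0 h1 h5).trans (hq_anti h0 h1 h7)
  · refine (min_le_left _ _).trans ?_
    have h4 : b ≤ 2 * κ + 2 := by
      by_cases h5 : b ≤ N
      · omega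
      · have h6 : N ≤ 2 := by omega
        have h7 : κ * N ≤ κ * 2 := Nat.mul_le_mul_left _ h6
        omega
    have h5 : a ≤ κ * (2 * κ + 2) := ha.trans (Nat.mul_le_mul_left _ h4)
    calc (ε / 2) ^ (κ * (2 * κ + 2)) ≤ (ε / 2) ^ a :=
          pow_le_pow_of_le_one (by linarith) (by linarith) h5
      _ ≤ q ^ a := pow_le_pow_left₀ (by linarith) hq2 a
      _ ≤ hq q a b := hq_line h0 h1 a b

/-- Russo-Seymour-Welsh -/
theorem rswIn : RswIn := by
  intro ε hε κ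
  obtain ⟨c, hc, hrsw⟩ := rswL ε hε (2 * κ + 1)
  refine ⟨min c ((ε / 2) ^ (κ + 1)), lt_min hc (by positivity), ?_⟩
  intro q N h0 h1 hR a b ha hb
  have hq0 : 0 ≤ 1 - q := by linarith
  have hq1 : 1 - q ≤ 1 := by linarith
  have hRL := rl_of_rs hR
  have hRD := rl_dual h0 h1 hR
  constructor
  · intro h2 h3
    exact (min_le_left _ _).trans (hrsw q N h0 h1 hRL a b hb (by nlinarith) (by nlinarith))
  · intro h2 h3
    obtain ⟨k, rfl⟩ : ∃ k, a = k + 1 := ⟨a - 1, by omega⟩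
    have h4 := dualIn q k b
    rcases Nat.eq_zero_or_pos k with h5 | h5
    · subst h5
      have hN : 1 ≤ N := by
        rcases Nat.eq_zero_or_pos N with h6 | h6
        · subst h6
          omega
        · exact h6
      have h6 := hRD 1 le_rfl hN
      have h7 := q_ge hq0 hq1 h6
      have hε1 : ε ≤ 1 := h6.trans (hq_le_one hq0 hq1 _ _)
      have h8 := hq_line hq0 hq1 (b + 1) 0
      have h9 : (ε / 2) ^ (κ + 1) ≤ (1 - q) ^ (b + 1) :=
        (pow_le_pow_of_le_one (by linarith) (by linarith) (by omega)).trans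
          (pow_le_pow_left₀ (by linarith) h7 _)
      have h10 := min_le_right c ((ε / 2) ^ (κ + 1))
      linarith
    · have h6 := hrsw (1 - q) N hq0 hq1 hRD (b + 1) k h5 (by nlinarith) (by nlinarith)
      have h7 := min_le_left c ((ε / 2) ^ (κ + 1))
      linarith

/-- the crossing bounds extend to larger scales -/
theorem rs_scale (ε : ℝ) (hε : 0 < ε) (k : ℕ) : ∃ ε' : ℝ, 0 < ε' ∧ ∀ (q : ℝ) (N : ℕ), 0 ≤ q → q ≤ 1 →
    RS ε q N → RS ε' q (k * N) := by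
  obtain ⟨c, hc, h⟩ := rswIn ε hε (k + 1)
  refine ⟨c, hc, fun q N h0 h1 hR n hn hN => ?_⟩
  have h2 : n ≤ (k + 1) * N := by nlinarith
  have h3 : n ≤ (k + 1) * n := by nlinarith
  obtain ⟨h4, h5⟩ := h q N h0 h1 hR n n hn hn
  exact ⟨h4 h3 h2, h5 h3 h2⟩

/-- Russo-Seymour-Welsh above `1/2` -/
theorem rsw_half (κ : ℕ) : ∃ c : ℝ, 0 < c ∧ ∀ q : ℝ, 1 / 2 ≤ q → q ≤ 1 → ∀ a b : ℕ, 1 ≤ b →
    a ≤ κ * b → c ≤ hq q a b := by
  obtain ⟨c, hc, h⟩ := rswL (1 / 2) (by norm_num) (κ + 1)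
  refine ⟨c, hc, fun q hq2 h1 a b hb ha => ?_⟩
  exact h q b (by linarith) h1 (rl_half hq2 h1 b) a b hb (by nlinarith) (by nlinarith)

end FKN
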