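import Pool.Agent.Lib.MP_216314_pr.N.CP
import Pool.Agent.Lib.MP_216314_pr.N.GL

/-!
# Decay of the one arm probability (campaign NC, arm separation)

`rs_dual`: the crossing bounds for `q` give crossing bounds for `1 - q`.
`one_lt`: `p1' q j k ≤ 1 - c` under the crossing bounds, for annuli of bounded shape, for `q` and for `1 - q`.
`one_decay`: `p1' q r R ≤ C (r / R) ^ α`, for `q` and for `1 - q`.
-/

set_option autoImplicit false

noncomputable section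

namespace FKN

open Finset FKI FKP

theorem CR_box {x1 x2 y1 y2 : ℤ} {e : Edge} : e ∈ box x1 x2 y1 y2 ↔
    ((x1 ≤ (ea e).1 ∧ (ea e).1 ≤ x2) ∧ (y1 ≤ (ea e).2 ∧ (ea e).2 ≤ y2)) ∧
      ((x1 ≤ (eb e).1 ∧ (eb e).1 ≤ x2) ∧ (y1 ≤ (eb e).2 ∧ (eb e).2 ≤ y2)) := by
  obtain ⟨x, y, t⟩ := e
  rw [mem_box]
  cases t
  · simp only [ea, eb, Bool.false_eq_true, if_false, true_and, false_and, or_false]
    omega
  · simp only [ea, eb, Bool.true_eq_false, if_true, true_and, false_and, false_or]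
    omega

theorem CR_in {k : ℕ} {ω : Finset Edge} {u c : V} (hu : nrm u ≤ k) (h : Conn (bx k) ω u c) : nrm c ≤ k := by
  rcases FB_vs h with h1 | h1
  · rw [h1]
    exact hu
  · unfold vs at h1
    rw [mem_union, mem_image, mem_image] at h1
    rcases h1 with ⟨e, he, rfl⟩ | ⟨e, he, rfl⟩
    · exact (mem_bx_iff.1 he).1
    · exact (mem_bx_iff.1 he).2

theorem CR_step (e : Edge) : ((ea e).1 - (eb e).1 ≤ 1 ∧ (eb e).1 - (ea e).1 ≤ 1) ∧
    ((ea e).2 - (eb e).2 ≤ 1 ∧ (eb e).2 - (ea e).2 ≤ 1) := by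
  obtain ⟨x, y, t⟩ := e
  cases t
  · simp [ea, eb]
  · simp [ea, eb]

/-- a crossing of the annulus crosses one of four rectangles -/
theorem CR_geo {j k : ℕ} {ω : Finset Edge} (h : One' j k ω) (hjk : j ≤ k) :
    (HC j k (-(k : ℤ)) k ω ∨ HC (-(k : ℤ)) (-(j : ℤ)) (-(k : ℤ)) k ω) ∨
      (VC (-(k : ℤ)) k j k ω ∨ VC (-(k : ℤ)) k (-(k : ℤ)) (-(j : ℤ)) ω) := by
  have hjk' : (j : ℤ) ≤ k := by exact_mod_cast hjk
  obtain ⟨u, w, hu, hw, hc0⟩ := h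
  have hc : Conn (bx k) ω u w := hc0.mono Finset.sdiff_subset (Finset.Subset.refl _)
  have hu1 := nrmC_le.1 hu.le
  have huk : nrm u ≤ k := hu.le.trans hjk'
  have hw1 := nrmC_le.1 hw.le
  have hcase : w.1 = k ∨ w.1 = -k ∨ w.2 = k ∨ w.2 = -k := by
    unfold nrm at hw
    rcases abs_cases w.1 with h1 | h1 <;> rcases abs_cases w.2 with h2 | h2 <;> omega
  rcases hcase with h1 | h1 | h1 | h1
  · left; left
    obtain ⟨c, h2, h3, h4⟩ := last_exit (fun v : V => v.1) (fun e _ => (CR_step e).1) (t := (j : ℤ)) hu1.2.1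
      (by rw [h1]; exact hjk') hc
    have h5 := nrmC_le.1 (CR_in huk h3)
    refine ⟨c.2, w.2, h5.2.2.1, h5.2.2.2, hw1.2.2.1, hw1.2.2.2, ?_⟩
    have e1 : c = ((j : ℤ), c.2) := Prod.ext h2 rfl
    have e2 : w = ((k : ℤ), w.2) := Prod.ext h1 rfl
    rw [← e1, ← e2]
    refine h4.mono ?_ (Finset.Subset.refl _)
    intro e he
    rw [mem_filter, mem_bx_iff, nrmC_le, nrmC_le] at he
    rw [CR_box]
    omega
  · left; right
    obtain ⟨c, h2, h3, h4⟩ := last_exit (fun v : V => -v.1) (fun e _ => by have := (CR_step e).1; constructor <;> omega)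
      (t := (j : ℤ)) (by omega) (by omega) hc
    have h5 := nrmC_le.1 (CR_in huk h3)
    refine ⟨w.2, c.2, hw1.2.2.1, hw1.2.2.2, h5.2.2.1, h5.2.2.2, ?_⟩
    have e1 : c = (-(j : ℤ), c.2) := Prod.ext (show c.1 = -(j : ℤ) by omega) rfl
    have e2 : w = (-(k : ℤ), w.2) := Prod.ext h1 rfl
    rw [← e1, ← e2]
    refine (h4.mono ?_ (Finset.Subset.refl _)).symm
    intro e he
    rw [mem_filter, mem_bx_iff, nrmC_le, nrmC_le] at he
    rw [CR_box]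
    omega
  · right; left
    obtain ⟨c, h2, h3, h4⟩ := last_exit (fun v : V => v.2) (fun e _ => (CR_step e).2) (t := (j : ℤ)) hu1.2.2.2
      (by rw [h1]; exact hjk') hc
    have h5 := nrmC_le.1 (CR_in huk h3)
    refine ⟨c.1, w.1, h5.1, h5.2.1, hw1.1, hw1.2.1, ?_⟩
    have e1 : c = (c.1, (j : ℤ)) := Prod.ext rfl h2
    have e2 : w = (w.1, (k : ℤ)) := Prod.ext rfl h1
    rw [← e1, ← e2]
    refine h4.mono ?_ (Finset.Subset.refl _)
    intro e he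
    rw [mem_filter, mem_bx_iff, nrmC_le, nrmC_le] at he
    rw [CR_box]
    omega
  · right; right
    obtain ⟨c, h2, h3, h4⟩ := last_exit (fun v : V => -v.2) (fun e _ => by have := (CR_step e).2; constructor <;> omega)
      (t := (j : ℤ)) (by omega) (by omega) hc
    have h5 := nrmC_le.1 (CR_in huk h3)
    refine ⟨w.1, c.1, hw1.1, hw1.2.1, h5.1, h5.2.1, ?_⟩
    have e1 : c = (c.1, -(j : ℤ)) := Prod.ext rfl (show c.2 = -(j : ℤ) by omega)
    have e2 : w = (w.1, -(k : ℤ)) := Prod.ext rfl h1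
    rw [← e1, ← e2]
    refine (h4.mono ?_ (Finset.Subset.refl _)).symm
    intro e he
    rw [mem_filter, mem_bx_iff, nrmC_le, nrmC_le] at he
    rw [CR_box]
    omega

theorem CR_inc_or {A B : Finset Edge → Prop} (hA : FKP.Inc A) (hB : FKP.Inc B) : FKP.Inc (fun ω => A ω ∨ B ω) :=
  fun ω ω' h h1 => h1.imp (hA ω ω' h) (hB ω ω' h)

theorem CR_not_or {q x : ℝ} (h0 : 0 ≤ q) (h1 : q ≤ 1) {E : Finset Edge} {A B : Finset Edge → Prop}
    (hA : FKP.Inc A) (hB : FKP.Inc B) (hx : 0 ≤ x) (h2 : x ≤ 1 - IPC.Pr q E A) (h3 : x ≤ 1 - IPC.Pr q E B) :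
    x * x ≤ 1 - IPC.Pr q E (fun ω => A ω ∨ B ω) := by
  have e1 := pq_fkg_not h0 h1 E hA hB
  have e2 : IPC.Pr q E (fun ω => ¬ A ω ∧ ¬ B ω) = 1 - IPC.Pr q E (fun ω => A ω ∨ B ω) := by
    rw [← pq_not]
    exact pq_congr fun ω _ => not_or.symm
  rw [pq_not, pq_not, e2] at e1
  exact (mul_le_mul h2 h3 hx (hx.trans h2)).trans e1

theorem CR_dep_One' (j k : ℕ) : Dep (an j k) (One' j k) := fun ω =>
  exists_congr fun u => exists_congr fun w => and_congr Iff.rfl (and_congr Iff.rfl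
    (dep_Conn (Finset.Subset.refl _) u w ω))

theorem CR_p1 {q : ℝ} (h0 : 0 ≤ q) (h1 : q ≤ 1) {j k : ℕ} (hjk : j ≤ k) {x : ℝ} (hx0 : 0 ≤ x)
    (hx : x ≤ 1 - hq q (k - j) (2 * k)) : p1' q j k ≤ 1 - (x * x) * (x * x) := by
  have hjk' : (j : ℤ) ≤ k := by exact_mod_cast hjk
  have e1 : p1' q j k = IPC.Pr q (bx k) (One' j k) := (pq_dep q Finset.sdiff_subset (CR_dep_One' j k)).symm
  have a1 : IPC.Pr q (bx k) (HC j k (-(k : ℤ)) k) = hq q (k - j) (2 * k) :=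
    pq_HC q (k - j) (2 * k) (by push_cast [Nat.cast_sub hjk]; ring) (by push_cast; ring)
      (box_mono (by omega) le_rfl le_rfl le_rfl)
  have a2 : IPC.Pr q (bx k) (HC (-(k : ℤ)) (-(j : ℤ)) (-(k : ℤ)) k) = hq q (k - j) (2 * k) :=
    pq_HC q (k - j) (2 * k) (by push_cast [Nat.cast_sub hjk]; ring) (by push_cast; ring)
      (box_mono le_rfl (by omega) le_rfl le_rfl)
  have a3 : IPC.Pr q (bx k) (VC (-(k : ℤ)) k j k) = hq q (k - j) (2 * k) :=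
    pq_VC q (2 * k) (k - j) (by push_cast; ring) (by push_cast [Nat.cast_sub hjk]; ring)
      (box_mono le_rfl le_rfl (by omega) le_rfl)
  have a4 : IPC.Pr q (bx k) (VC (-(k : ℤ)) k (-(k : ℤ)) (-(j : ℤ))) = hq q (k - j) (2 * k) :=
    pq_VC q (2 * k) (k - j) (by push_cast; ring) (by push_cast [Nat.cast_sub hjk]; ring)
      (box_mono le_rfl le_rfl le_rfl (by omega))
  have b1 := CR_not_or h0 h1 (inc_HC j k (-(k : ℤ)) k) (inc_HC (-(k : ℤ)) (-(j : ℤ)) (-(k : ℤ)) k) hx0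
    (a1 ▸ hx) (a2 ▸ hx)
  have b2 := CR_not_or h0 h1 (inc_VC (-(k : ℤ)) k j k) (inc_VC (-(k : ℤ)) k (-(k : ℤ)) (-(j : ℤ))) hx0
    (a3 ▸ hx) (a4 ▸ hx)
  have b3 := CR_not_or h0 h1 (CR_inc_or (inc_HC j k (-(k : ℤ)) k) (inc_HC (-(k : ℤ)) (-(j : ℤ)) (-(k : ℤ)) k))
    (CR_inc_or (inc_VC (-(k : ℤ)) k j k) (inc_VC (-(k : ℤ)) k (-(k : ℤ)) (-(j : ℤ)))) (mul_nonneg hx0 hx0) b1 b2
  have e2 := pq_mono h0 h1 (E := bx k) fun ω _ (h : One' j k ω) => CR_geo h hjk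
  rw [e1]
  linarith

/-- the crossing bounds for the dual parameter -/
theorem rs_dual (ε : ℝ) (hε : 0 < ε) : ∃ ε' : ℝ, 0 < ε' ∧ ∀ (q : ℝ) (N : ℕ), 0 ≤ q → q ≤ 1 → RS ε q N →
    RS ε' (1 - q) N := by
  obtain ⟨c, hc, h⟩ := rswIn ε hε 3
  refine ⟨min ε (min c ((ε / 2) ^ 2)), lt_min hε (lt_min hc (by positivity)), fun q N h0 h1 hR n hn hN => ?_⟩
  have h2 := rl_dual h0 h1 hR n hn hN
  refine ⟨(min_le_left _ _).trans h2, ?_⟩
  obtain ⟨k, rfl⟩ : ∃ k, n = k + 1 := ⟨n - 1, by omega⟩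
  have h3 := dualIn (1 - q) k (k + 1)
  rw [sub_sub_cancel] at h3
  have h4 : min c ((ε / 2) ^ 2) ≤ hq q (k + 1 + 1) k := by
    rcases Nat.eq_zero_or_pos k with rfl | hk
    · refine (min_le_right _ _).trans ?_
      have h5 := q_ge h0 h1 (hR 1 le_rfl (by omega)).1
      exact (pow_le_pow_left₀ (by positivity) h5 2).trans (hq_line h0 h1 2 0)
    · refine (min_le_left _ _).trans ?_
      exact (h q N h0 h1 hR (k + 1 + 1) k (by omega) hk).1 (by omega) (by omega)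
  have h5 := (min_le_right ε (min c ((ε / 2) ^ 2))).trans h4
  linarith

/-- **no crossing with positive probability** -/
theorem one_lt (ε : ℝ) (hε : 0 < ε) (κ : ℕ) : ∃ c : ℝ, 0 < c ∧ c ≤ 1 / 2 ∧ ∀ (q : ℝ) (N : ℕ), 0 ≤ q → q ≤ 1 →
    RS ε q N → ∀ j k : ℕ, j < k → k ≤ κ * (k - j) → k ≤ κ * N → p1' q j k ≤ 1 - c ∧ p1' (1 - q) j k ≤ 1 - c := by
  obtain ⟨ε', hε', hd⟩ := rs_dual ε hε
  obtain ⟨c1, hc1, h1⟩ := rswIn ε hε (2 * κ)
  obtain ⟨c2, hc2, h2⟩ := rswIn ε' hε' (2 * κ)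
  set x : ℝ := min (min c1 c2) (1 / 2) with hx
  have hx0 : 0 < x := lt_min (lt_min hc1 hc2) (by norm_num)
  have hx1 : x ≤ 1 / 2 := min_le_right _ _
  refine ⟨(x * x) * (x * x), by positivity, ?_, ?_⟩
  · have : x * x ≤ 1 / 2 * (1 / 2) := mul_le_mul hx1 hx1 hx0.le (by norm_num)
    have h3 : x * x * (x * x) ≤ 1 / 2 * (1 / 2) * (1 / 2 * (1 / 2)) := mul_le_mul this this (by positivity) (by norm_num)
    linarith
  · intro q N hq0 hq1 hR j k hjk hk hN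
    have hb : 2 * k ≤ 2 * κ * (k - j) := by
      rw [mul_assoc]
      exact Nat.mul_le_mul_left 2 hk
    have ha : k - j ≤ 2 * κ * N := by
      rw [mul_assoc]
      omega
    constructor
    · refine CR_p1 hq0 hq1 hjk.le hx0.le ?_
      have h3 := (h1 q N hq0 hq1 hR (k - j) (2 * k) (by omega) (by omega)).2 hb ha
      have h4 : x ≤ c1 := (min_le_left _ _).trans (min_le_left _ _)
      linarith
    · refine CR_p1 (by linarith) (by linarith) hjk.le hx0.le ?_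
      have h3 := (h2 (1 - q) N (by linarith) (by linarith) (hd q N hq0 hq1 hR) (k - j) (2 * k) (by omega) (by omega)).2
        hb ha
      have h4 : x ≤ c2 := (min_le_left _ _).trans (min_le_right _ _)
      linarith

/-- submultiplicativity -/
theorem p1_sub {q : ℝ} (h0 : 0 ≤ q) (h1 : q ≤ 1) {r s R : ℕ} (hrs : r ≤ s) (hsR : s ≤ R) :
    p1' q r R ≤ p1' q r s * p1' q s R := by
  have hrs' : (r : ℤ) ≤ s := by exact_mod_cast hrs
  have hsR' : (s : ℤ) ≤ R := by exact_mod_cast hsR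
  have hs1 : an r s ⊆ an r R := Finset.sdiff_subset_sdiff (bxC_sub hsR) (Finset.Subset.refl _)
  have hs2 : an s R ⊆ an r R := Finset.sdiff_subset_sdiff (Finset.Subset.refl _) (bxC_sub hrs)
  have hdis : Disjoint (an r s) (an s R) :=
    Finset.disjoint_of_subset_left Finset.sdiff_subset Finset.disjoint_sdiff
  have e1 : IPC.Pr q (an r R) (fun ω => One' r s ω ∧ One' s R ω) = p1' q r s * p1' q s R := by
    rw [pq_indep q hs1 hs2 hdis (CR_dep_One' r s) (CR_dep_One' s R), pq_dep q hs1 (CR_dep_One' r s),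
      pq_dep q hs2 (CR_dep_One' s R)]
    rfl
  rw [← e1]
  refine pq_mono h0 h1 ?_
  rintro ω _ ⟨u, w, hu, hw, hc⟩
  constructor
  · obtain ⟨c, h2, _, h3⟩ := first_hit (fun v => nrm (v - 0)) (fun e _ => nrmC_step 0 e) (t := (s : ℤ))
      (by rw [sub_zero, hu]; exact hrs') (by rw [sub_zero, hw]; exact hsR') hc
    rw [sub_zero] at h2
    refine ⟨u, c, hu, h2, h3.mono ?_ (Finset.Subset.refl _)⟩
    intro e he
    rw [mem_filter] at he
    simp only [sub_zero] at he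
    unfold an at he ⊢
    rw [mem_sdiff] at he ⊢
    exact ⟨mem_bx_iff.2 he.2, he.1.2⟩
  · obtain ⟨u', w', h2, h3, h4⟩ := cross_ann (z := 0) (r := s) (R := R) hsR (by rw [sub_zero, hu]; exact hrs')
      (by rw [sub_zero, hw]) hc
    rw [sub_zero] at h2 h3
    refine ⟨u', w', h2, h3, h4.mono ?_ (Finset.Subset.refl _)⟩
    intro e he
    rw [mem_inter, mem_anz] at he
    simp only [sub_zero] at he
    unfold an
    rw [mem_sdiff, mem_bx_iff, mem_bx_iff]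
    exact he.2

theorem p1'_le_one {q : ℝ} (h0 : 0 ≤ q) (h1 : q ≤ 1) (r R : ℕ) : p1' q r R ≤ 1 := pq_le_one h0 h1 _ _

/-- monotonicity in the outer radius -/
theorem p1C_anti {q : ℝ} (h0 : 0 ≤ q) (h1 : q ≤ 1) {r s R : ℕ} (hrs : r ≤ s) (hsR : s ≤ R) :
    p1' q r R ≤ p1' q r s :=
  (p1_sub h0 h1 hrs hsR).trans (mul_le_of_le_one_right (p1C_nonneg h0 h1 r s) (p1'_le_one h0 h1 s R))

theorem CR_iter {q c : ℝ} (h0 : 0 ≤ q) (h1 : q ≤ 1) (hc1 : c ≤ 1) {N : ℕ}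
    (h : ∀ r : ℕ, 1 ≤ r → 2 * r ≤ N → p1' q r (2 * r) ≤ 1 - c) :
    ∀ (i r R : ℕ), 1 ≤ r → 2 ^ i * r ≤ R → R ≤ N → p1' q r R ≤ (1 - c) ^ i := by
  intro i
  induction i with
  | zero => intro r R _ _ _; rw [pow_zero]; exact p1'_le_one h0 h1 r R
  | succ i ih =>
    intro r R hr hR hN
    have h2 : 2 ^ i * (2 * r) ≤ R := by rw [← mul_assoc, ← pow_succ]; exact hR
    have h3 : 2 * r ≤ R := le_trans (Nat.le_mul_of_pos_left _ (by positivity)) h2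
    refine (p1_sub h0 h1 (s := 2 * r) (by omega) h3).trans ?_
    rw [pow_succ, mul_comm]
    exact mul_le_mul (ih (2 * r) R (by omega) h2 hN) (h r hr (by omega)) (p1C_nonneg h0 h1 _ _)
      (pow_nonneg (by linarith) _)

theorem CR_pow {c : ℝ} (hc : 0 < c) (hc1 : c ≤ 1 / 2) {p : ℕ → ℕ → ℝ} {N : ℕ}
    (h : ∀ (i r R : ℕ), 1 ≤ r → 2 ^ i * r ≤ R → R ≤ N → p r R ≤ (1 - c) ^ i) {r R : ℕ} (hr : 1 ≤ r) (hR : r ≤ R)
    (hN : R ≤ N) : p r R ≤ 2 * ((r : ℝ) / R) ^ (Real.logb 2 (1 / (1 - c))) := by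
  have hr' : (0 : ℝ) < r := by exact_mod_cast hr
  have hR' : (0 : ℝ) < R := lt_of_lt_of_le hr' (by exact_mod_cast hR)
  set i : ℕ := Nat.log 2 (R / r) with hi
  have hpos : R / r ≠ 0 := by
    have : 1 ≤ R / r := (Nat.one_le_div_iff hr).2 hR
    omega
  have h1 : 2 ^ i * r ≤ R := by
    have h2 : 2 ^ i ≤ R / r := Nat.pow_log_le_self 2 hpos
    exact (Nat.mul_le_mul_right r h2).trans (Nat.div_mul_le_self R r)
  have h3 : (R : ℝ) < 2 ^ (i + 1) * r := by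
    have h4 : R / r < 2 ^ (i + 1) := Nat.lt_pow_succ_log_self (by norm_num) _
    have h5 : R < 2 ^ (i + 1) * r := (Nat.div_lt_iff_lt_mul hr).1 h4
    exact_mod_cast h5
  refine (h i r R hr h1 hN).trans ?_
  have hc2 : (0 : ℝ) < 1 - c := by linarith
  set α : ℝ := Real.logb 2 (1 / (1 - c)) with hα
  have hα0 : 0 ≤ α := Real.logb_nonneg (by norm_num) (by rw [le_div_iff₀ hc2]; linarith)
  have h2α : (2 : ℝ) ^ α = 1 / (1 - c) := Real.rpow_logb (by norm_num) (by norm_num) (by positivity)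
  have h6 : (1 - c) ^ (i + 1) = ((1 / 2 : ℝ) ^ (i + 1)) ^ α := by
    rw [← Real.rpow_natCast (1 / 2 : ℝ) (i + 1), ← Real.rpow_mul (by norm_num), mul_comm, Real.rpow_mul (by norm_num),
      Real.rpow_natCast]
    congr 1
    rw [one_div, Real.inv_rpow (by norm_num), h2α, one_div, inv_inv]
  have h7 : ((1 / 2 : ℝ) ^ (i + 1)) ^ α ≤ ((r : ℝ) / R) ^ α := by
    refine Real.rpow_le_rpow (by positivity) ?_ hα0
    rw [le_div_iff₀ hR', div_pow, one_pow, one_div, inv_mul_le_iff₀ (by positivity)]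
    exact h3.le
  rw [← h6, pow_succ] at h7
  have h8 : 0 ≤ (1 - c) ^ i := pow_nonneg hc2.le i
  nlinarith

/-- **decay of the one arm probability** -/
theorem one_decay (ε : ℝ) (hε : 0 < ε) : ∃ α : ℝ, 0 < α ∧ ∀ (q : ℝ) (N : ℕ), 0 ≤ q → q ≤ 1 → RS ε q N →
    ∀ r R : ℕ, 1 ≤ r → r ≤ R → R ≤ N →
      p1' q r R ≤ 2 * ((r : ℝ) / R) ^ α ∧ p1' (1 - q) r R ≤ 2 * ((r : ℝ) / R) ^ α := by
  obtain ⟨c, hc, hc1, h⟩ := one_lt ε hε 2
  have hc2 : (0 : ℝ) < 1 - c := by linarith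
  refine ⟨Real.logb 2 (1 / (1 - c)), Real.logb_pos (by norm_num) (by rw [lt_div_iff₀ hc2]; linarith), ?_⟩
  intro q N h0 h1 hR r R hr hrR hRN
  have h2 : ∀ r : ℕ, 1 ≤ r → 2 * r ≤ N → p1' q r (2 * r) ≤ 1 - c ∧ p1' (1 - q) r (2 * r) ≤ 1 - c := fun r hr hN =>
    h q N h0 h1 hR r (2 * r) (by omega) (by omega) (by omega)
  constructor
  · exact CR_pow hc hc1 (CR_iter h0 h1 (by linarith) fun r hr hN => (h2 r hr hN).1) hr hrR hRN
  · exact CR_pow hc hc1 (CR_iter (by linarith) (by linarith) (by linarith) fun r hr hN => (h2 r hr hN).2) hr hrR hRN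

/-- the statement `OneIn` of the file `BZa` -/
theorem CR_oneIn : ∀ ε : ℝ, 0 < ε → ∃ C α : ℝ, 0 < C ∧ 0 < α ∧ ∀ (q : ℝ) (N : ℕ), 0 ≤ q → q ≤ 1 → RS ε q N →
    ∀ r R : ℕ, 1 ≤ r → r ≤ R → R ≤ N → p1' q r R ≤ C * ((r : ℝ) / R) ^ α ∧ p1' (1 - q) r R ≤ C * ((r : ℝ) / R) ^ α := by
  intro ε hε
  obtain ⟨α, hα, h⟩ := one_decay ε hε
  exact ⟨2, α, by norm_num, hα, h⟩

/-- the statement `OneLt` of the file `BZa` -/
theorem CR_oneLt : ∀ ε : ℝ, 0 < ε → ∃ (c : ℝ) (n₀ : ℕ), 0 < c ∧ ∀ (q : ℝ) (n : ℕ), 0 ≤ q → q ≤ 1 → RS ε q n → n₀ ≤ n →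
    p1' q (n / 2) n ≤ 1 - c ∧ p1' (1 - q) (n / 2 + 1) n ≤ 1 - c := by
  intro ε hε
  obtain ⟨c, hc, _, h⟩ := one_lt ε hε 4
  refine ⟨c, 4, hc, fun q n h0 h1 hR hn => ⟨?_, ?_⟩⟩
  · exact (h q n h0 h1 hR (n / 2) n (by omega) (by omega) (by omega)).1
  · exact (h q n h0 h1 hR (n / 2 + 1) n (by omega) (by omega) (by omega)).2

end FKN
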