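import Pool.Agent.Lib.MP_216314_pr.N.DPkA

/-!
# Stream D: chain of small circuits from a big circuit to another big circuit

PROOFS.
`chain_big` with `a' = c i 0`, radius `R`, `j₁ = T` (`h5'`), `j₂ = 0` (`3 r ≤ R`) connects `v` to the chain, then `pack_link`. `nrm (u - v) = nrm (v - u)`.
-/

set_option autoImplicit false

noncomputable section

namespace FKN

open Finset FKI FKP

/-- from a circuit of radius `R` around `c i 0` to the circuit of radius `r'` around `c i T` -/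
theorem pack_link2 {l : ℕ} {c : Fin l → ℕ → V} {T : ℕ} {r r' R : ℤ} (hr : 0 ≤ r) (h6 : 3 * r ≤ r') (h6' : 3 * r ≤ R)
    (h1 : ∀ i, ∀ j < T, nrm (c i (j + 1) - c i j) ≤ 4 * r) (h5 : ∀ i, 3 * r' + 3 * r ≤ nrm (c i 0 - c i T))
    (h5' : ∀ i, 3 * R + 3 * r ≤ nrm (c i 0 - c i T))
    {η : Finset Edge} (hη : Rings (Lc c T r r') η) (i : Fin l) {v : V} (hv : RP (c i 0) R η v) :
    ∃ v', RP (c i T) r' η v' ∧ (gr η).Reachable v v' := by
  have hring : ∀ j ≤ T, Ring (c i j) r η := by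
    intro j hj
    have hm : ((c i j, r) : V × ℤ) ∈ Lc c T r r' := mem_Lc.2 (Or.inl ⟨i, j, hj, rfl⟩)
    exact hη _ hm
  obtain ⟨w, hw⟩ := hring 0 (Nat.zero_le T)
  have hR : 0 ≤ R := by omega
  have e1 : nrm (c i T - c i 0) = nrm (c i 0 - c i T) := by
    have h : c i T - c i 0 = -(c i 0 - c i T) := by abel
    rw [h]
    unfold nrm
    simp only [Prod.fst_neg, Prod.snd_neg, abs_neg]
  have e2 : nrm (c i 0 - c i 0) = 0 := by
    unfold nrm
    simp
  have hb := chain_big (c := c i) (T := T) (r := r) (r' := R) hr hR (h1 i) (a' := c i 0) (j₁ := T) (j₂ := 0)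
    le_rfl (Nat.zero_le T) (by rw [e1]; exact h5' i) (by rw [e2]; omega) hring hw hv
  obtain ⟨v', h1', h2'⟩ := pack_link hr h6 h1 h5 hη i hw
  exact ⟨v', h1', hb.symm.trans h2'⟩

end FKN
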