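import Pool.Agent.Lib.MP_216314_pr.N.DCvA
import Pool.Agent.Lib.MP_216314_pr.N.DPkB

/-!
# Stream D: from the canonical circuits at scale `n` to the canonical circuits at scale `n'` (`3 n ≤ n'` or `3 n' ≤ n`)

PROOFS.
Chains on the canonical rays: `c i = cv n n' (thO l i) (thO l i) T`, `d i = cv n n' (thD l i) (thD l i) T`; radius `r = rr l (min n n') / 3` (so `r ≥ 2`, `3 r ≤ rr l n`, `3 r ≤ rr l n'`, `r ≥ min n n' / (525 l)`), `r' = rr l n'`, `R = rr l n`,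
`T = 8575 * l * κ`: `49 max(n,n') + T ≤ 4 r T` (`cv_step`). `Lo = Lc c T r r'`. Links: `pack_link2` with `R = rr l n` (`c i 0 = cO l n i`: `crad 0 = n`; `c i T = cO l n' i`), `3 r' + 3 r`, `3 R + 3 r ≤ |n' - n| - 1`. Disjointness: `pack_disj` with `ray_sep`
(`γ = 4 / l`, `ρm = min n n'`: distance `≥ min n n' / l - 1`), `cv_sep_end` (`D = 3 r + 3 r' + 4`, `2 D ≤ |n' - n|`, `ρ1 γ / 2 = 2 n' / l ≥ 2 D`), `th_gap`. `av_o`, `av_o'`: `ray_sep` (with `j' = 0` or `j' = T`) against `3 r + 10 R + 1 ≤ n / l - 1` etc., and the radial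
distance for the big circuits. The regions: `cv_norm`, `bxa_near`, `ud_bxa_near`, `bxa_of_near`, `cv_end` as in the header of `DCvB.lean`. (`rr l n = n / (100 l)` in natural numbers.)
-/

set_option autoImplicit false

noncomputable section

namespace FKN

open Finset FKI FKP

/-- chains of circuits along the canonical rays, from scale `n` to scale `n'` -/
structure GeoCan (l M n n' : ℕ) (Lo Ld : Finset (V × ℤ)) : Prop where
  card_o : Lo.card ≤ M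
  card_d : Ld.card ≤ M
  rad_o : ∀ p ∈ Lo, 1 ≤ p.2 ∧ p.2 ≤ rr l (max n n')
  rad_d : ∀ p ∈ Ld, 1 ≤ p.2 ∧ p.2 ≤ rr l (max n n')
  disj : Disjoint (RN Lo) (ud (RN Ld))
  link_o : ∀ (η : Finset Edge) (i : Fin l) (v : V), Rings Lo η → RP (cO l n i) (rr l n) η v →
    ∃ v', RP (cO l n' i) (rr l n') η v' ∧ (gr η).Reachable v v'
  link_d : ∀ (η : Finset Edge) (i : Fin l) (v : V), Rings Ld η → RP (cD l n i) (rr l n) η v →
    ∃ v', RP (cD l n' i) (rr l n') η v' ∧ (gr η).Reachable v v'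
  /-- the chains avoid the boxes of the other colour at both ends -/
  av_o : Disjoint (RN Lo) (ud (bxs (cD l n) (10 * rr l n)))
  av_d : Disjoint (ud (RN Ld)) (bxs (cO l n) (10 * rr l n))
  av_o' : Disjoint (RN Lo) (ud (bxs (cD l n') (10 * rr l n')))
  av_d' : Disjoint (ud (RN Ld)) (bxs (cO l n') (10 * rr l n'))


private theorem DCvC_cv (ρ0 ρ1 θ : ℝ) (T j : ℕ) : cv ρ0 ρ1 θ θ T j = ptR (crad ρ0 ρ1 T j) θ := by
  unfold cv cang
  rw [sub_self, mul_zero, add_zero]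

private theorem DCvC_crad0 (ρ0 ρ1 : ℝ) (T : ℕ) : crad ρ0 ρ1 T 0 = ρ0 := by
  unfold crad
  simp

private theorem DCvC_cradT (ρ0 ρ1 : ℝ) {T : ℕ} (hT : 0 < T) : crad ρ0 ρ1 T T = ρ1 := by
  unfold crad
  have h : (T : ℝ) ≠ 0 := by positivity
  rw [mul_div_assoc, div_self h]
  ring

private theorem DCvC_gap {l : ℕ} (hl : 1 ≤ l) (i j : Fin l) :
    (4 : ℝ) / l ≤ |thD l j - thO l i| ∧ |thD l j - thO l i| ≤ 8 - (4 : ℝ) / l := by
  obtain ⟨h1, h2⟩ := th_gap hl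
  have h0 : (0 : ℝ) ≤ 4 / l := by positivity
  rcases le_or_gt i j with h | h
  · obtain ⟨ha, hb⟩ := h1 i j h
    rw [abs_of_nonneg (le_trans h0 ha)]
    exact ⟨ha, hb⟩
  · obtain ⟨ha, hb⟩ := h2 i j h
    rw [abs_sub_comm, abs_of_nonneg (le_trans h0 ha)]
    exact ⟨ha, hb⟩

private theorem DCvC_comm (u v : V) : nrm (u - v) = nrm (v - u) := by
  rw [← nrm_neg, neg_sub]

private theorem DCvC_tri (u v w : V) : nrm (u - w) ≤ nrm (v - u) + nrm (v - w) := by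
  have h := nrmD_tri (u - v) (v - w)
  rw [sub_add_sub_cancel, DCvC_comm u v] at h
  exact h

private theorem DCvC_sep {l : ℕ} (hl : 1 ≤ l) (i j : Fin l) {ρ ρ' : ℝ} (h : 0 ≤ ρ) (h' : 0 ≤ ρ') :
    ρ / l - 1 ≤ ((nrm (ptR ρ (thO l i) - ptR ρ' (thD l j)) : ℤ) : ℝ) ∧
    ρ' / l - 1 ≤ ((nrm (ptR ρ (thO l i) - ptR ρ' (thD l j)) : ℤ) : ℝ) := by
  obtain ⟨ha, hb⟩ := DCvC_gap hl i j
  have h0 : (0 : ℝ) ≤ 4 / l := by positivity
  have e1 := ptR_rad (θ := thO l i) (θ' := thD l j) h h'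
  have e2 := ptR_ang (ρ' := ρ') h h0 ha hb
  have e3 := ptR_ang (ρ' := ρ) (θ := thD l j) (θ' := thO l i) h' h0 (by rw [abs_sub_comm]; exact ha)
    (by rw [abs_sub_comm]; exact hb)
  rw [DCvC_comm, abs_sub_comm] at e3
  have e5 : ρ * (4 / l) / 2 = 2 * (ρ / l) := by ring
  have e6 : ρ' * (4 / l) / 2 = 2 * (ρ' / l) := by ring
  rw [e5] at e2
  rw [e6] at e3
  constructor <;> linarith

private theorem DCvC_contra {l : ℕ} (hl : 1 ≤ l) {i j : Fin l} {P : V} {ρ ρ' : ℝ} {s t : ℤ} (h : 0 ≤ ρ)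
    (h' : 0 ≤ ρ') (h1 : nrm (P - ptR ρ (thO l i)) ≤ s) (h2 : nrm (P - ptR ρ' (thD l j)) ≤ t) :
    ρ / l - 1 ≤ (s : ℝ) + t ∧ ρ' / l - 1 ≤ (s : ℝ) + t := by
  obtain ⟨e1, e2⟩ := DCvC_sep hl i j h h'
  have e3 := DCvC_tri (ptR ρ (thO l i)) P (ptR ρ' (thD l j))
  have e4 : ((nrm (ptR ρ (thO l i) - ptR ρ' (thD l j)) : ℤ) : ℝ) ≤ (s : ℝ) + t := by
    have e5 : nrm (ptR ρ (thO l i) - ptR ρ' (thD l j)) ≤ s + t := by linarith
    exact_mod_cast e5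
  exact ⟨le_trans e1 e4, le_trans e2 e4⟩

private theorem DCvC_rad {P : V} {ρ θ : ℝ} {s : ℤ} (h : 0 ≤ ρ) (h1 : nrm (P - ptR ρ θ) ≤ s) :
    ((nrm P : ℤ) : ℝ) ≤ ρ + s + 1 / 2 ∧ ρ - s - 1 / 2 ≤ ((nrm P : ℤ) : ℝ) := by
  have e1 := nrmD_tri (P - ptR ρ θ) (ptR ρ θ)
  rw [sub_add_cancel] at e1
  have e2 := nrmD_tri (ptR ρ θ - P) P
  rw [sub_add_cancel, DCvC_comm] at e2
  have e3 := abs_le.1 (ptR_norm (θ := θ) h)
  have e4 : ((nrm P : ℤ) : ℝ) ≤ s + ((nrm (ptR ρ θ) : ℤ) : ℝ) := by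
    have : nrm P ≤ s + nrm (ptR ρ θ) := by linarith
    exact_mod_cast this
  have e5 : ((nrm (ptR ρ θ) : ℤ) : ℝ) ≤ s + ((nrm P : ℤ) : ℝ) := by
    have : nrm (ptR ρ θ) ≤ s + nrm P := by linarith
    exact_mod_cast this
  constructor <;> linarith [e3.1, e3.2]

private theorem DCvC_loc {P : V} {ρ ρ' θ : ℝ} {s : ℤ} (h : 0 ≤ ρ') (h1 : nrm (P - ptR ρ θ) ≤ s) :
    ((nrm (P - ptR ρ' θ) : ℤ) : ℝ) ≤ s + |ρ - ρ'| + 1 := by
  have e1 := nrmD_tri (P - ptR ρ θ) (ptR ρ θ - ptR ρ' θ)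
  rw [sub_add_sub_cancel] at e1
  have e2 := ptR_dist (ρ := ρ) (θ := θ) (θ' := θ) h
  rw [sub_self, abs_zero, mul_zero, add_zero] at e2
  have e3 : ((nrm (P - ptR ρ' θ) : ℤ) : ℝ) ≤ s + ((nrm (ptR ρ θ - ptR ρ' θ) : ℤ) : ℝ) := by
    have : nrm (P - ptR ρ' θ) ≤ s + nrm (ptR ρ θ - ptR ρ' θ) := by linarith
    exact_mod_cast this
  linarith

private theorem DCvC_mem {l : ℕ} {th : Fin l → ℝ} {n n' : ℝ} {T : ℕ} (hT : 0 < T) {r r' : ℤ} {e : Edge}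
    (he : e ∈ RN (Lc (fun i j => cv n n' (th i) (th i) T j) T r r')) :
    ∃ i, (∃ ρ : ℝ, min n n' ≤ ρ ∧ ρ ≤ max n n' ∧ nrm ((e.1, e.2.1) - ptR ρ (th i)) ≤ 3 * r) ∨
      nrm ((e.1, e.2.1) - ptR n' (th i)) ≤ 3 * r' := by
  rcases mem_RN_Lc.1 he with ⟨i, j, hj, h⟩ | ⟨i, h⟩
  · refine ⟨i, Or.inl ⟨crad n n' T j, (crad_mem hT hj).1, (crad_mem hT hj).2, ?_⟩⟩
    have h2 : e ∈ bxa (cv n n' (th i) (th i) T j) (3 * r) := h
    rw [DCvC_cv] at h2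
    exact bxa_near h2
  · refine ⟨i, Or.inr ?_⟩
    have h2 : e ∈ bxa (cv n n' (th i) (th i) T T) (3 * r') := h
    rw [DCvC_cv, DCvC_cradT _ _ hT] at h2
    exact bxa_near h2

private theorem DCvC_memu {l : ℕ} {th : Fin l → ℝ} {n n' : ℝ} {T : ℕ} (hT : 0 < T) {r r' : ℤ} {e : Edge}
    (he : e ∈ ud (RN (Lc (fun i j => cv n n' (th i) (th i) T j) T r r'))) :
    ∃ i, (∃ ρ : ℝ, min n n' ≤ ρ ∧ ρ ≤ max n n' ∧ nrm ((e.1, e.2.1) - ptR ρ (th i)) ≤ 3 * r + 1) ∨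
      nrm ((e.1, e.2.1) - ptR n' (th i)) ≤ 3 * r' + 1 := by
  rcases mem_RN_Lc.1 (mem_ud.1 he) with ⟨i, j, hj, h⟩ | ⟨i, h⟩
  · refine ⟨i, Or.inl ⟨crad n n' T j, (crad_mem hT hj).1, (crad_mem hT hj).2, ?_⟩⟩
    have h2 : dl e ∈ bxa (cv n n' (th i) (th i) T j) (3 * r) := h
    rw [DCvC_cv] at h2
    exact ud_bxa_near (mem_ud.2 h2)
  · refine ⟨i, Or.inr ?_⟩
    have h2 : dl e ∈ bxa (cv n n' (th i) (th i) T T) (3 * r') := h
    rw [DCvC_cv, DCvC_cradT _ _ hT] at h2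
    exact ud_bxa_near (mem_ud.2 h2)

private theorem DCvC_bxs {l : ℕ} {a : Fin l → V} {w : ℤ} {e : Edge} (he : e ∈ bxs a w) :
    ∃ i, nrm ((e.1, e.2.1) - a i) ≤ w := by
  unfold bxs at he
  rw [mem_biUnion] at he
  obtain ⟨i, -, h⟩ := he
  exact ⟨i, bxa_near h⟩

private theorem DCvC_bxsu {l : ℕ} {a : Fin l → V} {w : ℤ} {e : Edge} (he : e ∈ ud (bxs a w)) :
    ∃ i, nrm ((e.1, e.2.1) - a i) ≤ w + 1 := by
  have h1 := mem_ud.1 he
  unfold bxs at h1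
  rw [mem_biUnion] at h1
  obtain ⟨i, -, h⟩ := h1
  exact ⟨i, ud_bxa_near (mem_ud.2 h)⟩

private theorem DCvC_inbxs {l : ℕ} {a : Fin l → V} {w : ℤ} {e : Edge} {i : Fin l}
    (he : nrm ((e.1, e.2.1) - a i) ≤ w - 1) : e ∈ bxs a w ∧ e ∈ ud (bxs a w) := by
  obtain ⟨h1, h2⟩ := bxa_of_near he
  unfold bxs
  refine ⟨mem_biUnion.2 ⟨i, mem_univ i, h1⟩, mem_ud.2 (mem_biUnion.2 ⟨i, mem_univ i, mem_ud.1 h2⟩)⟩

private theorem DCvC_bx (N : ℕ) : bx N = bxa 0 N := by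
  unfold bx bxa
  simp

private theorem DCvC_inbx {N : ℕ} {e : Edge} (he : nrm (e.1, e.2.1) ≤ (N : ℤ) - 1) : e ∈ bx N := by
  rw [DCvC_bx]
  refine (bxa_of_near ?_).1
  rw [sub_zero]
  exact he

private theorem DCvC_ofbx {N : ℕ} {e : Edge} (he : e ∈ bx N) : nrm (e.1, e.2.1) ≤ (N : ℤ) := by
  rw [DCvC_bx] at he
  have h := bxa_near he
  rw [sub_zero] at h
  exact h

private theorem DCvC_num {l : ℕ} (hl : 1 ≤ l) {n n' : ℕ} (hn : 600 * l ≤ n) (hn' : 600 * l ≤ n') :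
    ∃ r : ℕ, 2 ≤ r ∧ 3 * r ≤ rr l n ∧ 3 * r ≤ rr l n' ∧ min n n' ≤ 450 * l * r := by
  have hp : 0 < 100 * l := by omega
  have hm : 600 * l ≤ min n n' := le_min hn hn'
  refine ⟨rr l (min n n') / 3, ?_, ?_, ?_, ?_⟩
  · have h6 : 6 ≤ rr l (min n n') := by
      unfold rr
      rw [Nat.le_div_iff_mul_le hp]
      linarith
    omega
  · have h := Nat.div_le_div_right (c := 100 * l) (min_le_left n n')
    have h2 : rr l (min n n') ≤ rr l n := h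
    omega
  · have h := Nat.div_le_div_right (c := 100 * l) (min_le_right n n')
    have h2 : rr l (min n n') ≤ rr l n' := h
    omega
  · have h6 : 6 ≤ rr l (min n n') := by
      unfold rr
      rw [Nat.le_div_iff_mul_le hp]
      linarith
    have h1 : min n n' < 100 * l * (rr l (min n n') + 1) := by
      unfold rr
      exact Nat.lt_mul_div_succ _ hp
    have h2 : rr l (min n n') + 1 ≤ 3 * (rr l (min n n') / 3) + 3 := by omega
    have h3 : 2 ≤ rr l (min n n') / 3 := by omega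
    have h4 : 100 * l * (rr l (min n n') + 1) ≤ 100 * l * (3 * (rr l (min n n') / 3) + 3) :=
      Nat.mul_le_mul_left _ h2
    nlinarith [Nat.mul_le_mul_left l h3]

private theorem DCvC_rr {l : ℕ} (hl : 1 ≤ l) (n : ℕ) : (100 : ℝ) * (rr l n : ℝ) ≤ (n : ℝ) / l := by
  have hp : (0 : ℝ) < l := by exact_mod_cast hl
  rw [le_div_iff₀ hp]
  have h : 100 * l * rr l n ≤ n := by
    unfold rr
    exact Nat.mul_div_le n (100 * l)
  have h2 : (100 : ℝ) * l * (rr l n : ℝ) ≤ n := by exact_mod_cast h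
  linarith

private theorem DCvC_step {l κ n n' r : ℕ} (hκ : n' ≤ κ * n) (hκ' : n ≤ κ * n') (hr : 2 ≤ r)
    (h3 : 3 * n ≤ n' ∨ 3 * n' ≤ n) (hm : min n n' ≤ 450 * l * r) :
    49 * max (n : ℝ) (n' : ℝ) + ((8575 * l * κ : ℕ) : ℝ) ≤ 4 * ((r : ℤ) : ℝ) * ((8575 * l * κ : ℕ) : ℝ) := by
  have h1 : max n n' ≤ κ * (450 * l * r) := by
    rcases h3 with h | h
    · have e1 : min n n' = n := min_eq_left (by omega)
      have e2 : max n n' = n' := max_eq_right (by omega)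
      rw [e1] at hm
      rw [e2]
      exact le_trans hκ (Nat.mul_le_mul_left _ hm)
    · have e1 : min n n' = n' := min_eq_right (by omega)
      have e2 : max n n' = n := max_eq_left (by omega)
      rw [e1] at hm
      rw [e2]
      exact le_trans hκ' (Nat.mul_le_mul_left _ hm)
  have h2 : max (n : ℝ) (n' : ℝ) ≤ κ * (450 * l * r) := by
    have : ((max n n' : ℕ) : ℝ) ≤ κ * (450 * l * r) := by exact_mod_cast h1
    rwa [Nat.cast_max] at this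
  have hr' : (2 : ℝ) ≤ r := by exact_mod_cast hr
  have hp : (0 : ℝ) ≤ (l : ℝ) * κ := by positivity
  have h4 := mul_le_mul_of_nonneg_left hr' hp
  push_cast
  nlinarith

private theorem DCvC_link {l : ℕ} {th : Fin l → ℝ} {n n' : ℕ} {T : ℕ} (hT : 0 < T) {r a a' : ℕ} (h1 : 3 * r ≤ a)
    (h2 : 3 * r ≤ a') (hs : 49 * max (n : ℝ) (n' : ℝ) + T ≤ 4 * ((r : ℤ) : ℝ) * T)
    (h5 : (3 * a' + 3 * r + 1 : ℝ) ≤ |(n : ℝ) - n'|) (h5' : (3 * a + 3 * r + 1 : ℝ) ≤ |(n : ℝ) - n'|)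
    {η : Finset Edge} (hη : Rings (Lc (fun i j => cv (n : ℝ) (n' : ℝ) (th i) (th i) T j) T (r : ℤ) (a' : ℤ)) η)
    (i : Fin l) {v : V} (hv : RP (ptR n (th i)) (a : ℤ) η v) :
    ∃ v', RP (ptR n' (th i)) (a' : ℤ) η v' ∧ (gr η).Reachable v v' := by
  have hn0 : (0 : ℝ) ≤ n := by positivity
  have hn1 : (0 : ℝ) ≤ n' := by positivity
  have e0 : ∀ i : Fin l, cv (n : ℝ) (n' : ℝ) (th i) (th i) T 0 = ptR n (th i) := fun i => by
    rw [DCvC_cv, DCvC_crad0]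
  have eT : ∀ i : Fin l, cv (n : ℝ) (n' : ℝ) (th i) (th i) T T = ptR n' (th i) := fun i => by
    rw [DCvC_cv, DCvC_cradT _ _ hT]
  have key := pack_link2 (c := fun i j => cv (n : ℝ) (n' : ℝ) (th i) (th i) T j) (T := T) (r := (r : ℤ))
    (r' := (a' : ℤ)) (R := (a : ℤ)) (by positivity) (by exact_mod_cast h2) (by exact_mod_cast h1)
    (fun i j hj => cv_step hT hj hn0 hn1 (le_max_left _ _) (le_max_right _ _)
      (by rw [sub_self, abs_zero]; norm_num) hs)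
    (fun i => by
      show 3 * (a' : ℤ) + 3 * (r : ℤ) ≤ nrm (cv (n : ℝ) (n' : ℝ) (th i) (th i) T 0 - cv (n : ℝ) (n' : ℝ) (th i) (th i) T T)
      rw [e0, eT]
      have h := ptR_rad (θ := th i) (θ' := th i) hn0 hn1
      have h' : (3 * a' + 3 * r : ℝ) ≤ ((nrm (ptR n (th i) - ptR n' (th i)) : ℤ) : ℝ) := by linarith
      exact_mod_cast h')
    (fun i => by
      show 3 * (a : ℤ) + 3 * (r : ℤ) ≤ nrm (cv (n : ℝ) (n' : ℝ) (th i) (th i) T 0 - cv (n : ℝ) (n' : ℝ) (th i) (th i) T T)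
      rw [e0, eT]
      have h := ptR_rad (θ := th i) (θ' := th i) hn0 hn1
      have h' : (3 * a + 3 * r : ℝ) ≤ ((nrm (ptR n (th i) - ptR n' (th i)) : ℤ) : ℝ) := by linarith
      exact_mod_cast h')
    hη i (v := v) (by
      show RP (cv (n : ℝ) (n' : ℝ) (th i) (th i) T 0) (a : ℤ) η v
      rw [e0]
      exact hv)
  obtain ⟨v', hv', hc⟩ := key
  refine ⟨v', ?_, hc⟩
  have hv2 : RP (cv (n : ℝ) (n' : ℝ) (th i) (th i) T T) (a' : ℤ) η v' := hv'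
  rw [eT] at hv2
  exact hv2

private theorem DCvC_core {l : ℕ} (hl : 1 ≤ l) {κ n n' r : ℕ} (hn : 600 * l ≤ n) (hn' : 600 * l ≤ n')
    (h3 : 3 * n ≤ n' ∨ 3 * n' ≤ n) (hκ : n' ≤ κ * n) (hκ' : n ≤ κ * n') (hr : 2 ≤ r) (ha : 3 * r ≤ rr l n)
    (ha' : 3 * r ≤ rr l n') (hm : min n n' ≤ 450 * l * r) (hT : 0 < 8575 * l * κ) :
    GeoCan l (l * (8575 * l * κ + 2)) n n'
      (Lc (fun i j => cv (n : ℝ) (n' : ℝ) (thO l i) (thO l i) (8575 * l * κ) j) (8575 * l * κ) (r : ℤ) (rr l n' : ℤ))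
      (Lc (fun i j => cv (n : ℝ) (n' : ℝ) (thD l i) (thD l i) (8575 * l * κ) j) (8575 * l * κ) (r : ℤ) (rr l n' : ℤ)) := by
  have hs := DCvC_step hκ hκ' hr h3 hm
  generalize hTe : 8575 * l * κ = T at hT hs ⊢
  have hlp : (0 : ℝ) < l := by exact_mod_cast hl
  have hl1 : (1 : ℝ) ≤ l := by exact_mod_cast hl
  have hn0 : (0 : ℝ) ≤ n := by positivity
  have hn1 : (0 : ℝ) ≤ n' := by positivity
  have hA := DCvC_rr hl n
  have hA' := DCvC_rr hl n'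
  have hra : (3 : ℝ) * r ≤ (rr l n : ℝ) := by exact_mod_cast ha
  have hra' : (3 : ℝ) * r ≤ (rr l n' : ℝ) := by exact_mod_cast ha'
  have hr2 : (2 : ℝ) ≤ r := by exact_mod_cast hr
  have hmax : ∀ k : ℕ, k = n ∨ k = n' → rr l k ≤ rr l (max n n') := by
    intro k hk
    refine Nat.div_le_div_right ?_
    rcases hk with rfl | rfl
    · exact le_max_left _ _
    · exact le_max_right _ _
  have hdiv : ∀ x : ℝ, 0 ≤ x → x / l ≤ x := fun x hx => div_le_self hx hl1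
  have habs : (3 * (rr l n' : ℝ) + 3 * r + 1 ≤ |(n : ℝ) - n'|) ∧ (3 * (rr l n : ℝ) + 3 * r + 1 ≤ |(n : ℝ) - n'|) := by
    have e1 := hdiv n hn0
    have e2 := hdiv n' hn1
    have e3 : ((n : ℝ) + n') / 2 ≤ |(n : ℝ) - n'| := by
      rcases h3 with h | h
      · have h' : (3 : ℝ) * n ≤ n' := by exact_mod_cast h
        rw [abs_sub_comm]
        exact le_trans (by linarith) (le_abs_self _)
      · have h' : (3 : ℝ) * n' ≤ n := by exact_mod_cast h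
        exact le_trans (by linarith) (le_abs_self _)
    constructor <;> linarith
  have hradc : ∀ th : Fin l → ℝ, ∀ p ∈ Lc (fun i j => cv (n : ℝ) (n' : ℝ) (th i) (th i) T j) T (r : ℤ) (rr l n' : ℤ),
      1 ≤ p.2 ∧ p.2 ≤ (rr l (max n n') : ℤ) := by
    intro th p hp
    rcases mem_Lc.1 hp with ⟨i, j, -, rfl⟩ | ⟨i, rfl⟩
    · have := hmax n (Or.inl rfl)
      constructor
      · show (1 : ℤ) ≤ (r : ℤ)
        omega
      · show (r : ℤ) ≤ (rr l (max n n') : ℤ)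
        omega
    · have := hmax n' (Or.inr rfl)
      constructor
      · show (1 : ℤ) ≤ (rr l n' : ℤ)
        omega
      · show (rr l n' : ℤ) ≤ (rr l (max n n') : ℤ)
        omega
  have hmin : ∀ ρ : ℝ, min (n : ℝ) (n' : ℝ) ≤ ρ → 0 ≤ ρ ∧ 300 * (r : ℝ) ≤ ρ / l := by
    intro ρ hρ
    have h0 : 0 ≤ ρ := le_trans (le_min hn0 hn1) hρ
    refine ⟨h0, ?_⟩
    rw [le_div_iff₀ hlp]
    refine le_trans (le_min ?_ ?_) hρ
    · rw [← le_div_iff₀ hlp]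
      linarith
    · rw [← le_div_iff₀ hlp]
      linarith
  have hcr : ∀ j ≤ T, min (n : ℝ) (n' : ℝ) ≤ crad n n' T j := fun j hj => (crad_mem hT hj).1
  refine
    { card_o := Lc_card _ _ _ _
      card_d := Lc_card _ _ _ _
      rad_o := hradc _
      rad_d := hradc _
      disj := ?_
      link_o := fun η i v hη hv => DCvC_link hT ha ha' hs habs.1 habs.2 hη i hv
      link_d := fun η i v hη hv => DCvC_link hT ha ha' hs habs.1 habs.2 hη i hv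
      av_o := ?_
      av_d := ?_
      av_o' := ?_
      av_d' := ?_ }
  · refine pack_disj ?_ ?_ ?_ ?_
    · intro i i' j hj j' hj'
      show (6 : ℤ) * r + 2 ≤ nrm (cv (n : ℝ) (n' : ℝ) (thO l i) (thO l i) T j - cv (n : ℝ) (n' : ℝ) (thD l i') (thD l i') T j')
      rw [DCvC_cv, DCvC_cv]
      obtain ⟨a1, a2⟩ := hmin _ (hcr j hj)
      obtain ⟨b1, b2⟩ := hmin _ (hcr j' hj')
      have h := (DCvC_sep hl i i' a1 b1).1
      have h' : (6 * r + 2 : ℝ) ≤ ((nrm (ptR (crad n n' T j) (thO l i) - ptR (crad n n' T j') (thD l i')) : ℤ) : ℝ) := by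
        linarith
      exact_mod_cast h'
    · intro i i' j hj
      show (3 : ℤ) * r + 3 * (rr l n' : ℤ) + 2 ≤
        nrm (cv (n : ℝ) (n' : ℝ) (thO l i) (thO l i) T j - cv (n : ℝ) (n' : ℝ) (thD l i') (thD l i') T T)
      rw [DCvC_cv, DCvC_cv, DCvC_cradT _ _ hT]
      obtain ⟨a1, a2⟩ := hmin _ (hcr j hj)
      have h := (DCvC_sep hl i i' a1 hn1).2
      have h' : (3 * r + 3 * (rr l n' : ℝ) + 2 : ℝ) ≤ ((nrm (ptR (crad n n' T j) (thO l i) - ptR n' (thD l i')) : ℤ) : ℝ) := by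
        linarith
      exact_mod_cast h'
    · intro i i' j hj
      show (3 : ℤ) * r + 3 * (rr l n' : ℤ) + 2 ≤
        nrm (cv (n : ℝ) (n' : ℝ) (thO l i) (thO l i) T T - cv (n : ℝ) (n' : ℝ) (thD l i') (thD l i') T j)
      rw [DCvC_cv, DCvC_cv, DCvC_cradT _ _ hT]
      obtain ⟨a1, a2⟩ := hmin _ (hcr j hj)
      have h := (DCvC_sep hl i i' hn1 a1).1
      have h' : (3 * r + 3 * (rr l n' : ℝ) + 2 : ℝ) ≤ ((nrm (ptR n' (thO l i) - ptR (crad n n' T j) (thD l i')) : ℤ) : ℝ) := by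
        linarith
      exact_mod_cast h'
    · intro i i'
      show (6 : ℤ) * (rr l n' : ℤ) + 2 ≤
        nrm (cv (n : ℝ) (n' : ℝ) (thO l i) (thO l i) T T - cv (n : ℝ) (n' : ℝ) (thD l i') (thD l i') T T)
      rw [DCvC_cv, DCvC_cv, DCvC_cradT _ _ hT]
      have h := (DCvC_sep hl i i' hn1 hn1).1
      have h' : (6 * (rr l n' : ℝ) + 2 : ℝ) ≤ ((nrm (ptR n' (thO l i) - ptR n' (thD l i')) : ℤ) : ℝ) := by
        linarith
      exact_mod_cast h'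
  · rw [Finset.disjoint_left]
    intro e he he'
    obtain ⟨i', hi'⟩ := DCvC_bxsu he'
    obtain ⟨i, ⟨ρ, h1, -, h2⟩ | h2⟩ := DCvC_mem hT he
    · have h := (DCvC_contra hl (hmin ρ h1).1 hn0 h2 hi').2
      push_cast at h
      linarith
    · have h := DCvC_contra hl hn1 hn0 h2 hi'
      have ha1 := h.1
      have ha2 := h.2
      push_cast at ha1 ha2
      linarith
  · rw [Finset.disjoint_left]
    intro e he he'
    obtain ⟨i', hi'⟩ := DCvC_bxs he'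
    obtain ⟨i, ⟨ρ, h1, -, h2⟩ | h2⟩ := DCvC_memu hT he
    · have h := (DCvC_contra hl hn0 (hmin ρ h1).1 hi' h2).1
      push_cast at h
      linarith
    · have h := DCvC_contra hl hn0 hn1 hi' h2
      have ha1 := h.1
      have ha2 := h.2
      push_cast at ha1 ha2
      linarith
  · rw [Finset.disjoint_left]
    intro e he he'
    obtain ⟨i', hi'⟩ := DCvC_bxsu he'
    obtain ⟨i, ⟨ρ, h1, -, h2⟩ | h2⟩ := DCvC_mem hT he
    · have h := (DCvC_contra hl (hmin ρ h1).1 hn1 h2 hi').2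
      push_cast at h
      linarith
    · have h := (DCvC_contra hl hn1 hn1 h2 hi').1
      push_cast at h
      linarith
  · rw [Finset.disjoint_left]
    intro e he he'
    obtain ⟨i', hi'⟩ := DCvC_bxs he'
    obtain ⟨i, ⟨ρ, h1, -, h2⟩ | h2⟩ := DCvC_memu hT he
    · have h := (DCvC_contra hl hn1 (hmin ρ h1).1 hi' h2).1
      push_cast at h
      linarith
    · have h := (DCvC_contra hl hn1 hn1 hi' h2).1
      push_cast at h
      linarith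

/-- position of the circuits with respect to the boxes, outwards -/
private theorem DCvC_posout {l : ℕ} (hl : 1 ≤ l) {n n' r : ℕ} (h3 : 3 * n ≤ n') (hr : 2 ≤ r)
    (ha : 3 * r ≤ rr l n) (ha' : 3 * r ≤ rr l n') {P : V} {θ : ℝ}
    (h : (∃ ρ : ℝ, min (n : ℝ) (n' : ℝ) ≤ ρ ∧ ρ ≤ max (n : ℝ) (n' : ℝ) ∧ nrm (P - ptR ρ θ) ≤ 3 * (r : ℤ) + 1) ∨
      nrm (P - ptR n' θ) ≤ 3 * (rr l n' : ℤ) + 1) :
    ((n - 5 * rr l n : ℕ) : ℤ) < nrm P ∧
    (nrm P ≤ ((n' - 5 * rr l n' : ℕ) : ℤ) - 1 ∨ nrm (P - ptR n' θ) ≤ 10 * (rr l n' : ℤ) - 1) ∧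
    nrm P ≤ ((n' + 5 * rr l n' : ℕ) : ℤ) - 1 := by
  have hl1 : (1 : ℝ) ≤ l := by exact_mod_cast hl
  have hn0 : (0 : ℝ) ≤ n := by positivity
  have hn1 : (0 : ℝ) ≤ n' := by positivity
  have hA := le_trans (DCvC_rr hl n) (div_le_self hn0 hl1)
  have hA' := le_trans (DCvC_rr hl n') (div_le_self hn1 hl1)
  have hra : (3 : ℝ) * r ≤ (rr l n : ℝ) := by exact_mod_cast ha
  have hra' : (3 : ℝ) * r ≤ (rr l n' : ℝ) := by exact_mod_cast ha'
  have hr2 : (2 : ℝ) ≤ r := by exact_mod_cast hr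
  have h3' : (3 : ℝ) * n ≤ n' := by exact_mod_cast h3
  have hle : (n : ℝ) ≤ n' := by linarith
  have c1 : ((n - 5 * rr l n : ℕ) : ℤ) = (n : ℤ) - 5 * (rr l n : ℤ) := by
    have : 5 * rr l n ≤ n := by
      have h' : (5 : ℝ) * (rr l n : ℝ) ≤ n := by linarith
      exact_mod_cast h'
    push_cast [Nat.cast_sub this]
    ring
  have c2 : ((n' - 5 * rr l n' : ℕ) : ℤ) = (n' : ℤ) - 5 * (rr l n' : ℤ) := by
    have : 5 * rr l n' ≤ n' := by
      have h' : (5 : ℝ) * (rr l n' : ℝ) ≤ n' := by linarith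
      exact_mod_cast h'
    push_cast [Nat.cast_sub this]
    ring
  have c3 : ((n' + 5 * rr l n' : ℕ) : ℤ) = (n' : ℤ) + 5 * (rr l n' : ℤ) := by push_cast; ring
  rw [c1, c2, c3]
  rcases h with ⟨ρ, h1, h2, h4⟩ | h4
  · rw [min_eq_left hle] at h1
    rw [max_eq_right hle] at h2
    have h0 : 0 ≤ ρ := le_trans hn0 h1
    obtain ⟨e1, e2⟩ := DCvC_rad h0 h4
    push_cast at e1 e2
    refine ⟨?_, ?_, ?_⟩
    · have : (n - 5 * (rr l n : ℝ) : ℝ) < ((nrm P : ℤ) : ℝ) := by linarith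
      exact_mod_cast this
    · rcases le_or_gt (nrm P) ((n' : ℤ) - 5 * (rr l n' : ℤ) - 1) with hc | hc
      · exact Or.inl hc
      · right
        have hc' : (n' - 5 * (rr l n' : ℝ) : ℝ) ≤ ((nrm P : ℤ) : ℝ) := by
          have : (n' : ℤ) - 5 * (rr l n' : ℤ) ≤ nrm P := by linarith
          exact_mod_cast this
        have e3 := DCvC_loc hn1 h4
        rw [abs_sub_comm, abs_of_nonneg (by linarith)] at e3
        push_cast at e3
        have : ((nrm (P - ptR n' θ) : ℤ) : ℝ) ≤ 10 * (rr l n' : ℝ) - 1 := by linarith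
        exact_mod_cast this
    · have : ((nrm P : ℤ) : ℝ) ≤ n' + 5 * (rr l n' : ℝ) - 1 := by linarith
      exact_mod_cast this
  · obtain ⟨e1, e2⟩ := DCvC_rad hn1 h4
    push_cast at e1 e2
    refine ⟨?_, Or.inr ?_, ?_⟩
    · have : (n - 5 * (rr l n : ℝ) : ℝ) < ((nrm P : ℤ) : ℝ) := by linarith
      exact_mod_cast this
    · omega
    · have : ((nrm P : ℤ) : ℝ) ≤ n' + 5 * (rr l n' : ℝ) - 1 := by linarith
      exact_mod_cast this

/-- position of the circuits with respect to the boxes, inwards -/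
private theorem DCvC_posinn {l : ℕ} (hl : 1 ≤ l) {n n' r : ℕ} (h3 : 3 * n' ≤ n) (hr : 2 ≤ r)
    (ha : 3 * r ≤ rr l n) (ha' : 3 * r ≤ rr l n') {P : V} {θ : ℝ}
    (h : (∃ ρ : ℝ, min (n : ℝ) (n' : ℝ) ≤ ρ ∧ ρ ≤ max (n : ℝ) (n' : ℝ) ∧ nrm (P - ptR ρ θ) ≤ 3 * (r : ℤ) + 1) ∨
      nrm (P - ptR n' θ) ≤ 3 * (rr l n' : ℤ) + 1) :
    nrm P ≤ ((n + 5 * rr l n : ℕ) : ℤ) - 1 ∧
    (((n' + 5 * rr l n' : ℕ) : ℤ) < nrm P ∨ nrm (P - ptR n' θ) ≤ 10 * (rr l n' : ℤ) - 1) := by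
  have hl1 : (1 : ℝ) ≤ l := by exact_mod_cast hl
  have hn0 : (0 : ℝ) ≤ n := by positivity
  have hn1 : (0 : ℝ) ≤ n' := by positivity
  have hA := le_trans (DCvC_rr hl n) (div_le_self hn0 hl1)
  have hA' := le_trans (DCvC_rr hl n') (div_le_self hn1 hl1)
  have hra : (3 : ℝ) * r ≤ (rr l n : ℝ) := by exact_mod_cast ha
  have hra' : (3 : ℝ) * r ≤ (rr l n' : ℝ) := by exact_mod_cast ha'
  have hr2 : (2 : ℝ) ≤ r := by exact_mod_cast hr
  have h3' : (3 : ℝ) * n' ≤ n := by exact_mod_cast h3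
  have hle : (n' : ℝ) ≤ n := by linarith
  have c1 : ((n + 5 * rr l n : ℕ) : ℤ) = (n : ℤ) + 5 * (rr l n : ℤ) := by push_cast; ring
  have c3 : ((n' + 5 * rr l n' : ℕ) : ℤ) = (n' : ℤ) + 5 * (rr l n' : ℤ) := by push_cast; ring
  rw [c1, c3]
  rcases h with ⟨ρ, h1, h2, h4⟩ | h4
  · rw [min_eq_right hle] at h1
    rw [max_eq_left hle] at h2
    have h0 : 0 ≤ ρ := le_trans hn1 h1
    obtain ⟨e1, e2⟩ := DCvC_rad h0 h4
    push_cast at e1 e2
    refine ⟨?_, ?_⟩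
    · have : ((nrm P : ℤ) : ℝ) ≤ n + 5 * (rr l n : ℝ) - 1 := by linarith
      exact_mod_cast this
    · rcases lt_or_ge ((n' : ℤ) + 5 * (rr l n' : ℤ)) (nrm P) with hc | hc
      · exact Or.inl hc
      · right
        have hc' : ((nrm P : ℤ) : ℝ) ≤ (n' + 5 * (rr l n' : ℝ) : ℝ) := by exact_mod_cast hc
        have e3 := DCvC_loc hn1 h4
        rw [abs_of_nonneg (by linarith)] at e3
        push_cast at e3
        have : ((nrm (P - ptR n' θ) : ℤ) : ℝ) ≤ 10 * (rr l n' : ℝ) - 1 := by linarith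
        exact_mod_cast this
  · obtain ⟨e1, e2⟩ := DCvC_rad hn1 h4
    push_cast at e1 e2
    refine ⟨?_, Or.inr ?_⟩
    · have : ((nrm P : ℤ) : ℝ) ≤ n + 5 * (rr l n : ℝ) - 1 := by linarith
      exact_mod_cast this
    · omega

private theorem DCvC_weak {l : ℕ} {th : Fin l → ℝ} {n n' : ℝ} {r r' : ℤ} {P : V}
    (h : ∃ i, (∃ ρ : ℝ, min n n' ≤ ρ ∧ ρ ≤ max n n' ∧ nrm (P - ptR ρ (th i)) ≤ 3 * r) ∨
      nrm (P - ptR n' (th i)) ≤ 3 * r') :
    ∃ i, (∃ ρ : ℝ, min n n' ≤ ρ ∧ ρ ≤ max n n' ∧ nrm (P - ptR ρ (th i)) ≤ 3 * r + 1) ∨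
      nrm (P - ptR n' (th i)) ≤ 3 * r' + 1 := by
  obtain ⟨i, ⟨ρ, h1, h2, h3⟩ | h3⟩ := h
  · exact ⟨i, Or.inl ⟨ρ, h1, h2, by linarith⟩⟩
  · exact ⟨i, Or.inr (by linarith)⟩

/-- outwards -/
theorem geo_can_out {l : ℕ} (hl : 1 ≤ l) (κ : ℕ) : ∃ M : ℕ, ∀ n n' : ℕ, 600 * l ≤ n → 3 * n ≤ n' → n' ≤ κ * n →
    ∃ Lo Ld : Finset (V × ℤ), GeoCan l M n n' Lo Ld ∧
      Disjoint (RN Lo) (bx (n - 5 * rr l n)) ∧ Disjoint (ud (RN Ld)) (bx (n - 5 * rr l n)) ∧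
      RN Lo ⊆ bx (n' - 5 * rr l n') ∪ bxs (cO l n') (10 * rr l n') ∧
      ud (RN Ld) ⊆ bx (n' - 5 * rr l n') ∪ ud (bxs (cD l n') (10 * rr l n')) ∧
      RN Lo ⊆ bx (n' + 5 * rr l n') ∧ ud (RN Ld) ⊆ bx (n' + 5 * rr l n') := by
  refine ⟨l * (8575 * l * κ + 2), fun n n' hn h3 hk => ?_⟩
  have hn' : 600 * l ≤ n' := by omega
  have hk' : n ≤ κ * n' := by
    have h1 : n ≤ n' := by omega
    exact le_trans h1 (le_trans hk (Nat.mul_le_mul_left _ h1))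
  have hκ0 : 0 < κ := by
    rcases Nat.eq_zero_or_pos κ with h | h
    · rw [h, zero_mul] at hk
      omega
    · exact h
  have hT : 0 < 8575 * l * κ := by positivity
  obtain ⟨r, hr, ha, ha', hm⟩ := DCvC_num hl hn hn'
  refine ⟨_, _, DCvC_core hl hn hn' (Or.inl h3) hk hk' hr ha ha' hm hT, ?_, ?_, ?_, ?_, ?_, ?_⟩
  · rw [Finset.disjoint_left]
    intro e he he'
    obtain ⟨i, hi⟩ := DCvC_weak (DCvC_mem hT he)
    have h := (DCvC_posout hl h3 hr ha ha' hi).1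
    exact absurd (DCvC_ofbx he') (not_le.2 h)
  · rw [Finset.disjoint_left]
    intro e he he'
    obtain ⟨i, hi⟩ := DCvC_memu hT he
    have h := (DCvC_posout hl h3 hr ha ha' hi).1
    exact absurd (DCvC_ofbx he') (not_le.2 h)
  · intro e he
    obtain ⟨i, hi⟩ := DCvC_weak (DCvC_mem hT he)
    rcases (DCvC_posout hl h3 hr ha ha' hi).2.1 with h | h
    · exact mem_union_left _ (DCvC_inbx h)
    · exact mem_union_right _ (DCvC_inbxs (a := cO l n') (i := i) h).1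
  · intro e he
    obtain ⟨i, hi⟩ := DCvC_memu hT he
    rcases (DCvC_posout hl h3 hr ha ha' hi).2.1 with h | h
    · exact mem_union_left _ (DCvC_inbx h)
    · exact mem_union_right _ (DCvC_inbxs (a := cD l n') (i := i) h).2
  · intro e he
    obtain ⟨i, hi⟩ := DCvC_weak (DCvC_mem hT he)
    exact DCvC_inbx (DCvC_posout hl h3 hr ha ha' hi).2.2
  · intro e he
    obtain ⟨i, hi⟩ := DCvC_memu hT he
    exact DCvC_inbx (DCvC_posout hl h3 hr ha ha' hi).2.2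

/-- inwards -/
theorem geo_can_inn {l : ℕ} (hl : 1 ≤ l) (κ : ℕ) : ∃ M : ℕ, ∀ n n' : ℕ, 600 * l ≤ n' → 3 * n' ≤ n → n ≤ κ * n' →
    ∃ Lo Ld : Finset (V × ℤ), GeoCan l M n n' Lo Ld ∧
      RN Lo ⊆ bx (n + 5 * rr l n) ∧ ud (RN Ld) ⊆ bx (n + 5 * rr l n) ∧
      (∀ e ∈ RN Lo, e ∉ bx (n' + 5 * rr l n') ∨ e ∈ bxs (cO l n') (10 * rr l n')) ∧
      (∀ e ∈ ud (RN Ld), e ∉ bx (n' + 5 * rr l n') ∨ e ∈ ud (bxs (cD l n') (10 * rr l n'))) := by
  refine ⟨l * (8575 * l * κ + 2), fun n n' hn' h3 hk' => ?_⟩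
  have hn : 600 * l ≤ n := by omega
  have hk : n' ≤ κ * n := by
    have h1 : n' ≤ n := by omega
    exact le_trans h1 (le_trans hk' (Nat.mul_le_mul_left _ h1))
  have hκ0 : 0 < κ := by
    rcases Nat.eq_zero_or_pos κ with h | h
    · rw [h, zero_mul] at hk'
      omega
    · exact h
  have hT : 0 < 8575 * l * κ := by positivity
  obtain ⟨r, hr, ha, ha', hm⟩ := DCvC_num hl hn hn'
  refine ⟨_, _, DCvC_core hl hn hn' (Or.inr h3) hk hk' hr ha ha' hm hT, ?_, ?_, ?_, ?_⟩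
  · intro e he
    obtain ⟨i, hi⟩ := DCvC_weak (DCvC_mem hT he)
    exact DCvC_inbx (DCvC_posinn hl h3 hr ha ha' hi).1
  · intro e he
    obtain ⟨i, hi⟩ := DCvC_memu hT he
    exact DCvC_inbx (DCvC_posinn hl h3 hr ha ha' hi).1
  · intro e he
    obtain ⟨i, hi⟩ := DCvC_weak (DCvC_mem hT he)
    rcases (DCvC_posinn hl h3 hr ha ha' hi).2 with h | h
    · exact Or.inl (fun h' => absurd (DCvC_ofbx h') (not_le.2 h))
    · exact Or.inr (DCvC_inbxs (a := cO l n') (i := i) h).1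
  · intro e he
    obtain ⟨i, hi⟩ := DCvC_memu hT he
    rcases (DCvC_posinn hl h3 hr ha ha' hi).2 with h | h
    · exact Or.inl (fun h' => absurd (DCvC_ofbx h') (not_le.2 h))
    · exact Or.inr (DCvC_inbxs (a := cD l n') (i := i) h).2

end FKN
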