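import Pool.Agent.Lib.MP_216314_pr.N.DDef

/-!
# Stream D: the parametrisation of the square

PROOFS.
On `[0, 8]`: `Int.fract ((θ - 1) / 8) = (θ - 1) / 8` for `1 ≤ θ < 9` and `(θ + 7) / 8` for `0 ≤ θ < 1`. `gw_lip`: the function is the composition of the 1-Lipschitz clamp
and of `θ ↦ |8 fract ((θ-1)/8) - 4|`, which is the distance function `4 - dist` of the 8-periodic triangle wave (for instance: `|8 * fract t - 4| = 4 - 8 * |t - round t|`-type formula, or reduce by periodicity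
to `|x - y| ≤ 1` and cases).
`sq_sep`: reduce by periodicity to `0 ≤ θ < 8`, `θ ≤ θ' < θ + 8`, and (subtracting 8 if needed) to two points of `[0,8]` whose distance is in `[γ, 8 - γ]`; note `γ ≤ 4`. Then the 16 cases of
`sq_val`: on the same side the distance is `|θ' - θ|`; on two adjacent sides it is the maximum of the two legs, whose sum is the length of the arc through the corner (one of `|θ' - θ|`, `8 - |θ' - θ|`), so it is at least half of it;
on opposite sides it is `2 ≥ γ / 2`. The corners are at `θ = 0, 2, 4, 6` (the side `x = 1` is `[0,2]`, `y = 1` is `[2,4]`, `x = -1` is `[4,6]`, `y = -1` is `[6,8]`).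
-/

set_option autoImplicit false

noncomputable section

namespace FKN

open Finset FKI FKP

theorem gw_abs (θ : ℝ) : |gw θ| ≤ 1 := by
  unfold gw
  rw [abs_le]
  exact ⟨le_max_left _ _, max_le (by norm_num) (min_le_left _ _)⟩

theorem gw_per (θ : ℝ) (z : ℤ) : gw (θ + 8 * z) = gw θ := by
  unfold gw
  have h : (θ + 8 * (z : ℝ) - 1) / 8 = (θ - 1) / 8 + (z : ℝ) := by ring
  rw [h, Int.fract_add_intCast]

private theorem DGwA_tri (θ : ℝ) : |8 * Int.fract ((θ - 1) / 8) - 4| = 4 - 8 * |(θ - 1) / 8 - round ((θ - 1) / 8)| := by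
  rw [abs_sub_round_eq_min]
  have h0 := Int.fract_nonneg ((θ - 1) / 8)
  have h1 := Int.fract_lt_one ((θ - 1) / 8)
  rcases le_total (Int.fract ((θ - 1) / 8)) (1 - Int.fract ((θ - 1) / 8)) with h | h
  · rw [min_eq_left h, abs_of_nonpos (by linarith)]
    ring
  · rw [min_eq_right h, abs_of_nonneg (by linarith)]
    ring

/-- explicit values on one period -/
theorem gw_val {θ : ℝ} (h0 : 0 ≤ θ) (h8 : θ ≤ 8) :
    (θ ≤ 2 → gw θ = 1) ∧ (2 ≤ θ → θ ≤ 4 → gw θ = 3 - θ) ∧ (4 ≤ θ → θ ≤ 6 → gw θ = -1) ∧ (6 ≤ θ → gw θ = θ - 7) := by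
  by_cases h1 : θ < 1
  · have hf : Int.fract ((θ - 1) / 8) = (θ + 7) / 8 := by
      rw [Int.fract_eq_iff]
      refine ⟨by linarith, by linarith, -1, ?_⟩
      push_cast
      ring
    have hg : gw θ = 1 := by
      unfold gw
      rw [hf, abs_of_nonneg (by linarith), min_eq_left (by linarith), max_eq_right (by norm_num)]
    exact ⟨fun _ => hg, fun h => absurd h (by linarith), fun h => absurd h (by linarith), fun h => absurd h (by linarith)⟩
  · push Not at h1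
    have hf : Int.fract ((θ - 1) / 8) = (θ - 1) / 8 := by
      rw [Int.fract_eq_iff]
      refine ⟨by linarith, by linarith, 0, ?_⟩
      push_cast
      ring
    have hg : gw θ = max (-1) (min 1 (|θ - 5| - 2)) := by
      unfold gw
      rw [hf]
      congr 3
      congr 1
      ring
    refine ⟨fun h2 => ?_, fun h2 h4 => ?_, fun h4 h6 => ?_, fun h6 => ?_⟩
    · rw [hg, abs_of_nonpos (by linarith), min_eq_left (by linarith), max_eq_right (by norm_num)]
    · rw [hg, abs_of_nonpos (by linarith), min_eq_right (by linarith), max_eq_right (by linarith)]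
      ring
    · rcases le_total θ 5 with h5 | h5
      · rw [hg, abs_of_nonpos (by linarith), min_eq_right (by linarith), max_eq_left (by linarith)]
      · rw [hg, abs_of_nonneg (by linarith), min_eq_right (by linarith), max_eq_left (by linarith)]
    · rw [hg, abs_of_nonneg (by linarith), min_eq_right (by linarith), max_eq_right (by linarith)]
      ring

theorem gw_lip (x y : ℝ) : |gw x - gw y| ≤ |x - y| := by
  have key : ∀ s t : ℝ, |s - round s| - |t - round t| ≤ |s - t| := by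
    intro s t
    have h1 : |s - round s| ≤ |s - round t| := round_le s (round t)
    have h2 : |s - round t| ≤ |s - t| + |t - round t| := abs_sub_le _ _ _
    linarith
  have h1 := key ((x - 1) / 8) ((y - 1) / 8)
  have h2 := key ((y - 1) / 8) ((x - 1) / 8)
  have e1 : |(x - 1) / 8 - (y - 1) / 8| = |x - y| / 8 := by
    rw [← sub_div, abs_div, abs_of_pos (show (0 : ℝ) < 8 by norm_num)]
    congr 2
    ring
  have e2 : |(y - 1) / 8 - (x - 1) / 8| = |x - y| / 8 := by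
    rw [abs_sub_comm, e1]
  rw [e1] at h1
  rw [e2] at h2
  have h3 : |(|8 * Int.fract ((x - 1) / 8) - 4| - 2) - (|8 * Int.fract ((y - 1) / 8) - 4| - 2)| ≤ |x - y| := by
    rw [DGwA_tri, DGwA_tri, abs_le]
    constructor <;> linarith
  unfold gw
  refine (abs_max_sub_max_le_max _ _ _ _).trans (max_le (by rw [sub_self, abs_zero]; exact abs_nonneg _) ?_)
  refine (abs_min_sub_min_le_max _ _ _ _).trans (max_le (by rw [sub_self, abs_zero]; exact abs_nonneg _) h3)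

/-- explicit values of both coordinates on one period -/
theorem sq_val {θ : ℝ} (h0 : 0 ≤ θ) (h8 : θ ≤ 8) :
    (θ ≤ 2 → gw θ = 1 ∧ gw (θ - 2) = θ - 1) ∧ (2 ≤ θ → θ ≤ 4 → gw θ = 3 - θ ∧ gw (θ - 2) = 1) ∧
    (4 ≤ θ → θ ≤ 6 → gw θ = -1 ∧ gw (θ - 2) = 5 - θ) ∧ (6 ≤ θ → gw θ = θ - 7 ∧ gw (θ - 2) = -1) := by
  obtain ⟨a1, a2, a3, a4⟩ := gw_val h0 h8
  refine ⟨fun h => ⟨a1 h, ?_⟩, fun h h' => ⟨a2 h h', ?_⟩, fun h h' => ⟨a3 h h', ?_⟩, fun h => ⟨a4 h, ?_⟩⟩
  · have h1 := gw_per (θ - 2) 1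
    rw [← h1, (gw_val (θ := θ - 2 + 8 * ((1 : ℤ) : ℝ)) (by push_cast; linarith) (by push_cast; linarith)).2.2.2 (by push_cast; linarith)]
    push_cast
    ring
  · exact (gw_val (θ := θ - 2) (by linarith) (by linarith)).1 (by linarith)
  · rw [(gw_val (θ := θ - 2) (by linarith) (by linarith)).2.1 (by linarith) (by linarith)]
    ring
  · exact (gw_val (θ := θ - 2) (by linarith) (by linarith)).2.2.1 (by linarith) (by linarith)

private theorem DGwA_red (θ : ℝ) : ∃ z : ℤ, 0 ≤ θ + 8 * z ∧ θ + 8 * z < 8 := by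
  refine ⟨-⌊θ / 8⌋, ?_, ?_⟩
  · have := Int.floor_le (θ / 8)
    push_cast
    linarith
  · have := Int.lt_floor_add_one (θ / 8)
    push_cast
    linarith

private theorem DGwA_per (θ : ℝ) (z : ℤ) : gw (θ + 8 * z - 2) = gw (θ - 2) := by
  rw [← gw_per (θ - 2) z]
  congr 1
  ring

theorem sq_norm (θ : ℝ) : max |gw θ| |gw (θ - 2)| = 1 := by
  obtain ⟨z, hz0, hz8⟩ := DGwA_red θ
  rw [← gw_per θ z, ← DGwA_per θ z]
  obtain ⟨t, ht⟩ : ∃ t : ℝ, t = θ + 8 * z := ⟨_, rfl⟩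
  rw [← ht] at hz0 hz8 ⊢
  obtain ⟨a1, a2, a3, a4⟩ := sq_val hz0 hz8.le
  rcases le_total t 4 with h4 | h4
  · rcases le_total t 2 with h2 | h2
    · rw [(a1 h2).1, abs_one, max_eq_left]
      rw [(a1 h2).2, abs_le]
      constructor <;> linarith
    · rw [(a2 h2 h4).2, abs_one, max_eq_right]
      rw [(a2 h2 h4).1, abs_le]
      constructor <;> linarith
  · rcases le_total t 6 with h6 | h6
    · rw [(a3 h4 h6).1, abs_neg, abs_one, max_eq_left]
      rw [(a3 h4 h6).2, abs_le]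
      constructor <;> linarith
    · rw [(a4 h6).2, abs_neg, abs_one, max_eq_right]
      rw [(a4 h6).1, abs_le]
      constructor <;> linarith

private theorem DGwA_cases {t : ℝ} (h0 : 0 ≤ t) (h8 : t ≤ 8) :
    (t ≤ 2 ∧ gw t = 1 ∧ gw (t - 2) = t - 1) ∨ (2 ≤ t ∧ t ≤ 4 ∧ gw t = 3 - t ∧ gw (t - 2) = 1) ∨
    (4 ≤ t ∧ t ≤ 6 ∧ gw t = -1 ∧ gw (t - 2) = 5 - t) ∨ (6 ≤ t ∧ gw t = t - 7 ∧ gw (t - 2) = -1) := by
  obtain ⟨a1, a2, a3, a4⟩ := sq_val h0 h8
  rcases le_total t 4 with h4 | h4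
  · rcases le_total t 2 with h2 | h2
    · exact Or.inl ⟨h2, a1 h2⟩
    · exact Or.inr (Or.inl ⟨h2, h4, a2 h2 h4⟩)
  · rcases le_total t 6 with h6 | h6
    · exact Or.inr (Or.inr (Or.inl ⟨h4, h6, a3 h4 h6⟩))
    · exact Or.inr (Or.inr (Or.inr ⟨h6, a4 h6⟩))

private theorem DGwA_sep {a b γ : ℝ} (a0 : 0 ≤ a) (b8 : b ≤ 8) (h0 : 0 ≤ γ) (h1 : γ ≤ b - a) (h2 : b - a ≤ 8 - γ) :
    γ / 2 ≤ max |gw a - gw b| |gw (a - 2) - gw (b - 2)| := by
  by_contra hn
  rw [not_le, max_lt_iff, abs_lt, abs_lt] at hn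
  obtain ⟨⟨n1, n2⟩, n3, n4⟩ := hn
  rcases DGwA_cases a0 (show a ≤ 8 by linarith) with ⟨c1, c2, c3⟩ | ⟨c0, c1, c2, c3⟩ | ⟨c0, c1, c2, c3⟩ | ⟨c1, c2, c3⟩ <;>
  rcases DGwA_cases (show 0 ≤ b by linarith) b8 with ⟨d1, d2, d3⟩ | ⟨d0, d1, d2, d3⟩ | ⟨d0, d1, d2, d3⟩ | ⟨d1, d2, d3⟩ <;>
  rw [c2, d2] at n1 n2 <;> rw [c3, d3] at n3 n4 <;> linarith

/-- points at distance at least `γ` along the boundary are at sup distance at least `γ/2` -/
theorem sq_sep {θ θ' γ : ℝ} (h0 : 0 ≤ γ) (h1 : γ ≤ θ' - θ) (h2 : θ' - θ ≤ 8 - γ) :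
    γ / 2 ≤ max |gw θ - gw θ'| |gw (θ - 2) - gw (θ' - 2)| := by
  obtain ⟨z, hz0, hz8⟩ := DGwA_red θ
  rw [← gw_per θ z, ← DGwA_per θ z, ← gw_per θ' z, ← DGwA_per θ' z]
  by_cases h : θ' + 8 * z ≤ 8
  · exact DGwA_sep hz0 h h0 (by linarith) (by linarith)
  · push Not at h
    have e1 := gw_per (θ' + 8 * z) (-1)
    have e2 := DGwA_per (θ' + 8 * z) (-1)
    rw [← e1, ← e2, abs_sub_comm (gw (θ + 8 * z)), abs_sub_comm (gw (θ + 8 * z - 2))]
    refine DGwA_sep ?_ hz8.le h0 ?_ ?_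
    · push_cast; linarith
    · push_cast; linarith
    · push_cast; linarith

end FKN
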