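import Pool.Agent.Lib.MP_216314_pr.N.DDef

/-!
# Arm separation: definitions

`cls F ω v`: the cluster of `v` in `ω ∩ F`; `tch F K`: the edges of `F` which touch `K`. `Cro I J K`: `K` meets `I` and `J`; `pk J K`: a chosen point of
`K ∩ J`. `OffArm E K z r R ω`: an open path crosses the annulus around `z` by edges of `E` which do not touch `K`. `Bad E F J.. r R ω`: this happens for a
cluster `K` of `ω ∩ F` which joins `I` and `J`, with `z = pk J K`.
Boundary of `[-n,n]²`: vertices `bp n t`, edges `be n t` from `bp n t` to `bp n (t + 1)`, exterior faces `ef n t` (`t` modulo `8 n`, `t = 0` is the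
south east corner, counterclockwise). `fl f`: level of the face `f` (`n` for the exterior faces of `[-n,n]²`). `bl n z r`: the edges of `[-n,n]²` at distance at most
`r` from `z`.
-/

set_option autoImplicit false

noncomputable section

namespace FKN

open Finset FKI FKP

/-- the cluster of `v` in `ω ∩ F` -/
def cls (F ω : Finset Edge) (v : V) : Set V := {u | Conn F ω v u}

open Classical in
/-- the edges of `F` which touch `K` -/
def tch (F : Finset Edge) (K : Set V) : Finset Edge := F.filter (fun e => ea e ∈ K ∨ eb e ∈ K)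

/-- `K` meets `I` and `J` -/
def Cro (I J : Set V) (K : Set V) : Prop := (∃ u ∈ K, u ∈ I) ∧ ∃ u ∈ K, u ∈ J

open Classical in
/-- a point of `K ∩ J` -/
def pk (J K : Set V) : V := if h : ∃ u, u ∈ K ∧ u ∈ J then h.choose else 0

theorem pk_spec {I J K : Set V} (h : Cro I J K) : pk J K ∈ K ∧ pk J K ∈ J := by
  have h1 : ∃ u, u ∈ K ∧ u ∈ J := h.2
  unfold pk
  rw [dif_pos h1]
  exact h1.choose_spec

/-- an open path which crosses the annulus around `z` by edges of `E` which do not touch `K` -/
def OffArm (E : Finset Edge) (K : Set V) (z : V) (r R : ℕ) (ω : Finset Edge) : Prop :=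
  ∃ u w : V, nrm (u - z) = r ∧ nrm (w - z) = R ∧ Conn ((E ∩ (bxa z R \ bxa z r)) \ tch E K) ω u w

/-- a cluster of `ω ∩ F` joins `I` and `J` and there is an open path close to its chosen point which does not touch it -/
def Bad (E F : Finset Edge) (I J : Set V) (r R : ℕ) (ω : Finset Edge) : Prop :=
  ∃ v : V, Cro I J (cls F ω v) ∧ OffArm E (cls F ω v) (pk J (cls F ω v)) r R ω

/-- boundary vertices of `[-n,n]²` -/
def bp (n : ℕ) (t : ℤ) : V :=
  if t % (8 * n) < 2 * n then ((n : ℤ), t % (8 * n) - n)
  else if t % (8 * n) < 4 * n then (3 * n - t % (8 * n), (n : ℤ))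
  else if t % (8 * n) < 6 * n then (-(n : ℤ), 5 * n - t % (8 * n))
  else (t % (8 * n) - 7 * n, -(n : ℤ))

/-- boundary edges of `[-n,n]²` -/
def be (n : ℕ) (t : ℤ) : Edge :=
  if t % (8 * n) < 2 * n then ((n : ℤ), t % (8 * n) - n, true)
  else if t % (8 * n) < 4 * n then (3 * n - t % (8 * n) - 1, (n : ℤ), false)
  else if t % (8 * n) < 6 * n then (-(n : ℤ), 5 * n - t % (8 * n) - 1, true)
  else (t % (8 * n) - 7 * n, -(n : ℤ), false)

/-- exterior faces of `[-n,n]²` -/
def ef (n : ℕ) (t : ℤ) : V :=
  if t % (8 * n) < 2 * n then ((n : ℤ), t % (8 * n) - n)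
  else if t % (8 * n) < 4 * n then (3 * n - t % (8 * n) - 1, (n : ℤ))
  else if t % (8 * n) < 6 * n then (-(n : ℤ) - 1, 5 * n - t % (8 * n) - 1)
  else (t % (8 * n) - 7 * n, -(n : ℤ) - 1)

/-- the level of a face -/
def fl (f : V) : ℤ := max (max f.1 (-f.1 - 1)) (max f.2 (-f.2 - 1))

/-- the edges of `[-n,n]²` at distance at most `r` from `z` -/
def bl (n : ℕ) (z : V) (r : ℕ) : Finset Edge := bx n ∩ bxa z r

/-- vertices at distance `h` from the origin -/
def sph (h : ℕ) : Set V := {v | nrm v = h}

/-- faces of level `h` -/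
def fsp (h : ℕ) : Set V := {f | fl f = h}

end FKN
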