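import Pool.Agent.Lib.MP_216314_pr.N.NDef

/-!
# Conditioning on a cluster; the number of crossing clusters (campaign NC, arm separation, section 1)

`tc F U`: edges of `F` touching `U`; `cs F ω S`: the vertices connected to `S` by open edges of `F`.
`nc_sum`: the expected number of clusters which meet both `{u j : j < M}` and `O` is at most `1 / (1 - P(crossing))`.
`good_prob`: if the event `G k` depends only on edges not touching `k` and has probability at most `δ`, then the probability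
that `G k` occurs for some crossing cluster `k` is at most `δ / (1 - P(crossing))`.
-/

set_option autoImplicit false

noncomputable section

namespace FKN

open Finset FKI FKP

/-- edges of `F` touching `U` -/
def tc (F : Finset Edge) (U : Finset V) : Finset Edge := F.filter (fun e => ea e ∈ U ∨ eb e ∈ U)

/-- ends of the edges of `F` -/
def vs (F : Finset Edge) : Finset V := F.image ea ∪ F.image eb

open Classical in
/-- the vertices connected to `S` by open edges of `F` -/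
def cs (F ω : Finset Edge) (S : Finset V) : Finset V :=
  (S ∪ vs F).filter (fun w => ∃ s ∈ S, Conn F ω s w)

theorem tc_subset (F : Finset Edge) (U : Finset V) : tc F U ⊆ F := Finset.filter_subset _ _

theorem FB_adj {ω : Finset Edge} {u v : V} : (gr ω).Adj u v ↔
    u ≠ v ∧ ((∃ e ∈ ω, ea e = u ∧ eb e = v) ∨ (∃ e ∈ ω, ea e = v ∧ eb e = u)) := by
  unfold gr
  rw [SimpleGraph.fromRel_adj]

theorem FB_vs {F ω : Finset Edge} {u w : V} (h : Conn F ω u w) : w = u ∨ w ∈ vs F := by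
  have h1 : (gr (ω ∩ F)).Reachable w u := SimpleGraph.Reachable.symm h
  obtain ⟨p⟩ := h1
  cases p with
  | nil => exact Or.inl rfl
  | cons hadj _ =>
    right
    rw [FB_adj] at hadj
    obtain ⟨_, h2⟩ := hadj
    unfold vs
    rw [Finset.mem_union, Finset.mem_image, Finset.mem_image]
    rcases h2 with ⟨e, he, h3, _⟩ | ⟨e, he, _, h3⟩
    · exact Or.inl ⟨e, (Finset.mem_inter.1 he).2, h3⟩
    · exact Or.inr ⟨e, (Finset.mem_inter.1 he).2, h3⟩

theorem mem_cs {F ω : Finset Edge} {S : Finset V} {w : V} :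
    w ∈ cs F ω S ↔ ∃ s ∈ S, Conn F ω s w := by
  classical
  unfold cs
  rw [Finset.mem_filter, Finset.mem_union]
  constructor
  · exact fun h => h.2
  · rintro ⟨s, hs, hc⟩
    refine ⟨?_, s, hs, hc⟩
    rcases FB_vs hc with h | h
    · exact Or.inl (h ▸ hs)
    · exact Or.inr h

theorem mem_cs1 {F ω : Finset Edge} {u w : V} : w ∈ cs F ω {u} ↔ Conn F ω u w := by
  rw [mem_cs]
  constructor
  · rintro ⟨s, hs, hc⟩
    rw [Finset.mem_singleton] at hs
    exact hs ▸ hc
  · exact fun h => ⟨u, Finset.mem_singleton_self u, h⟩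

/-- `U` is closed for the open edges of `F` -/
def Clo (F ω : Finset Edge) (U : Finset V) : Prop := ∀ e ∈ ω, e ∈ F → (ea e ∈ U ↔ eb e ∈ U)

theorem FB_edge {F ω : Finset Edge} {e : Edge} (he : e ∈ ω) (hF : e ∈ F) : Conn F ω (ea e) (eb e) := by
  by_cases h : ea e = eb e
  · rw [h]
    exact Conn.refl F ω _
  · refine SimpleGraph.Adj.reachable ?_
    rw [FB_adj]
    exact ⟨h, Or.inl ⟨e, Finset.mem_inter.2 ⟨he, hF⟩, rfl, rfl⟩⟩

theorem clo_cs (F ω : Finset Edge) (S : Finset V) : Clo F ω (cs F ω S) := by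
  intro e he hF
  rw [mem_cs, mem_cs]
  constructor
  · rintro ⟨s, hs, hc⟩
    exact ⟨s, hs, hc.trans (FB_edge he hF)⟩
  · rintro ⟨s, hs, hc⟩
    exact ⟨s, hs, hc.trans (FB_edge he hF).symm⟩

/-- inside a closed set: the path uses only edges touching the set -/
theorem clo_in {F ω : Finset Edge} {U : Finset V} (hU : Clo F ω U) {u w : V} (h : Conn F ω u w)
    (hu : u ∈ U) : w ∈ U ∧ Conn (tc F U) ω u w := by
  obtain ⟨p⟩ := h
  induction p with
  | nil => exact ⟨hu, Conn.refl _ _ _⟩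
  | @cons a b c hadj p ih =>
    rw [FB_adj] at hadj
    obtain ⟨_, h2⟩ := hadj
    rcases h2 with ⟨e, he, h3, h4⟩ | ⟨e, he, h3, h4⟩
    · have he1 := (Finset.mem_inter.1 he).1
      have he2 := (Finset.mem_inter.1 he).2
      have hb : b ∈ U := by
        rw [← h4]
        exact (hU e he1 he2).1 (h3 ▸ hu)
      have ht : e ∈ tc F U := Finset.mem_filter.2 ⟨he2, Or.inl (h3 ▸ hu)⟩
      have h5 := FB_edge he1 ht
      rw [h3, h4] at h5
      exact ⟨(ih hb).1, h5.trans (ih hb).2⟩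
    · have he1 := (Finset.mem_inter.1 he).1
      have he2 := (Finset.mem_inter.1 he).2
      have hb : b ∈ U := by
        rw [← h3]
        exact (hU e he1 he2).2 (h4 ▸ hu)
      have ht : e ∈ tc F U := Finset.mem_filter.2 ⟨he2, Or.inr (h4 ▸ hu)⟩
      have h5 := (FB_edge he1 ht).symm
      rw [h3, h4] at h5
      exact ⟨(ih hb).1, h5.trans (ih hb).2⟩

/-- outside a closed set: the path uses no edge touching the set -/
theorem clo_out {F ω : Finset Edge} {U : Finset V} (hU : Clo F ω U) {u w : V} (h : Conn F ω u w)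
    (hu : u ∉ U) : w ∉ U ∧ Conn (F \ tc F U) ω u w := by
  obtain ⟨p⟩ := h
  induction p with
  | nil => exact ⟨hu, Conn.refl _ _ _⟩
  | @cons a b c hadj p ih =>
    rw [FB_adj] at hadj
    obtain ⟨_, h2⟩ := hadj
    rcases h2 with ⟨e, he, h3, h4⟩ | ⟨e, he, h3, h4⟩
    · have he1 := (Finset.mem_inter.1 he).1
      have he2 := (Finset.mem_inter.1 he).2
      have hb : b ∉ U := by
        intro hb
        rw [← h4] at hb
        have := (hU e he1 he2).2 hb
        rw [h3] at this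
        exact hu this
      have ht : e ∈ F \ tc F U := by
        rw [Finset.mem_sdiff]
        refine ⟨he2, fun h5 => ?_⟩
        rcases (Finset.mem_filter.1 h5).2 with h6 | h6
        · exact hu (h3 ▸ h6)
        · exact hb (h4 ▸ h6)
      have h5 := FB_edge he1 ht
      rw [h3, h4] at h5
      exact ⟨(ih hb).1, h5.trans (ih hb).2⟩
    · have he1 := (Finset.mem_inter.1 he).1
      have he2 := (Finset.mem_inter.1 he).2
      have hb : b ∉ U := by
        intro hb
        rw [← h3] at hb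
        have := (hU e he1 he2).1 hb
        rw [h4] at this
        exact hu this
      have ht : e ∈ F \ tc F U := by
        rw [Finset.mem_sdiff]
        refine ⟨he2, fun h5 => ?_⟩
        rcases (Finset.mem_filter.1 h5).2 with h6 | h6
        · exact hb (h3 ▸ h6)
        · exact hu (h4 ▸ h6)
      have h5 := (FB_edge he1 ht).symm
      rw [h3, h4] at h5
      exact ⟨(ih hb).1, h5.trans (ih hb).2⟩

theorem clo_congr {F ω ω' : Finset Edge} {U : Finset V} (h : ω ∩ tc F U = ω' ∩ tc F U)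
    (hU : Clo F ω U) : Clo F ω' U := by
  intro e he hF
  by_cases ht : e ∈ tc F U
  · have h1 : e ∈ ω ∩ tc F U := h ▸ Finset.mem_inter.2 ⟨he, ht⟩
    exact hU e (Finset.mem_inter.1 h1).1 hF
  · have h1 : ¬ (ea e ∈ U ∨ eb e ∈ U) := fun h2 => ht (Finset.mem_filter.2 ⟨hF, h2⟩)
    rw [not_or] at h1
    exact iff_of_false h1.1 h1.2

theorem subset_cs (F ω : Finset Edge) (S : Finset V) : S ⊆ cs F ω S :=
  fun s hs => mem_cs.2 ⟨s, hs, Conn.refl F ω s⟩

/-- the event `cs F ω S = U` depends only on the edges touching `U` -/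
theorem cs_congr {F ω ω' : Finset Edge} {S U : Finset V} (h : ω ∩ tc F U = ω' ∩ tc F U)
    (hU : cs F ω S = U) : cs F ω' S = U := by
  have h1 : Clo F ω U := hU ▸ clo_cs F ω S
  have h2 : Clo F ω' U := clo_congr h h1
  have hS : S ⊆ U := hU ▸ subset_cs F ω S
  refine Finset.Subset.antisymm ?_ ?_
  · intro w hw
    obtain ⟨s, hs, hc⟩ := mem_cs.1 hw
    exact (clo_in h2 hc (hS hs)).1
  · intro w hw
    rw [← hU] at hw
    obtain ⟨s, hs, hc⟩ := mem_cs.1 hw
    have h3 := (clo_in h1 hc (hS hs)).2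
    rw [mem_cs]
    refine ⟨s, hs, ?_⟩
    unfold Conn at h3 ⊢
    rw [h] at h3
    exact SimpleGraph.Reachable.mono (gr_mono (Finset.inter_subset_inter_left (tc_subset F U))) h3

theorem cs_dep (F : Finset Edge) (S U : Finset V) (ω : Finset Edge) :
    cs F ω S = U ↔ cs F (ω ∩ tc F U) S = U := by
  have h1 : ω ∩ tc F U = (ω ∩ tc F U) ∩ tc F U := by
    rw [Finset.inter_assoc, Finset.inter_self]
  exact ⟨cs_congr h1, cs_congr h1.symm⟩

theorem cs_sub (F ω : Finset Edge) (S : Finset V) : cs F ω S ⊆ S ∪ vs F := by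
  classical
  exact Finset.filter_subset _ _

section Count

variable (F : Finset Edge) (u : ℕ → V) (M : ℕ) (O : Finset V)

/-- the cluster of `u i` crosses and does not contain `u j` for `j < i` -/
def Cr (i : ℕ) (ω : Finset Edge) : Prop := (∀ j < i, ¬ Conn F ω (u j) (u i)) ∧ ∃ w ∈ O, Conn F ω (u i) w

/-- there is a crossing -/
def Cx (ω : Finset Edge) : Prop := ∃ j < M, ∃ w ∈ O, Conn F ω (u j) w

end Count

variable {F E : Finset Edge} {u : ℕ → V} {M : ℕ} {O : Finset V} {q : ℝ}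

theorem FB_step (hq0 : 0 ≤ q) (hq1 : q ≤ 1) (hF : F ⊆ E) {lam : ℝ} (hX : IPC.Pr q E (Cx F u M O) ≤ lam)
    (i : ℕ) : (1 - lam) * IPC.Pr q E (Cr F u O i) ≤
      IPC.Pr q E (fun ω => Cr F u O i ω ∧ ∀ j < M, (∃ w ∈ O, Conn F ω (u j) w) → ∃ l ≤ i, Conn F ω (u l) (u j)) := by
  classical
  set S : Finset V := (Finset.range (i + 1)).image u with hS
  have huS : ∀ l ≤ i, u l ∈ S := fun l hl => Finset.mem_image.2 ⟨l, Finset.mem_range.2 (by omega), rfl⟩
  set K : Finset (Finset V) := (S ∪ vs F).powerset with hK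
  let A : Finset V → Finset Edge → Prop := fun U ω => cs F ω S = U ∧
    (∀ j < i, ¬ Conn (tc F U) ω (u j) (u i)) ∧ ∃ w ∈ O, Conn (tc F U) ω (u i) w
  let B : Finset V → Finset Edge → Prop := fun U ω => ¬ Cx (F \ tc F U) u M O ω
  have hconn : ∀ U ω, cs F ω S = U → ∀ l ≤ i, ∀ w, Conn F ω (u l) w ↔ Conn (tc F U) ω (u l) w := by
    intro U ω hU l hl w
    have h1 : Clo F ω U := hU ▸ clo_cs F ω S
    have h2 : S ⊆ U := hU ▸ subset_cs F ω S
    constructor
    · intro h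
      exact (clo_in h1 h (h2 (huS l hl))).2
    · intro h
      exact h.mono (tc_subset F U) (Finset.Subset.refl _)
  have hCA : ∀ ω, Cr F u O i ω ↔ ∃ U ∈ K, A U ω := by
    intro ω
    constructor
    · rintro ⟨h1, w, hw, h2⟩
      refine ⟨cs F ω S, Finset.mem_powerset.2 (cs_sub F ω S), rfl, ?_, w, hw, ?_⟩
      · intro j hj h3
        exact h1 j hj ((hconn _ ω rfl j hj.le _).2 h3)
      · exact (hconn _ ω rfl i le_rfl _).1 h2
    · rintro ⟨U, _, hU, h1, w, hw, h2⟩
      refine ⟨?_, w, hw, ?_⟩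
      · intro j hj h3
        exact h1 j hj ((hconn _ ω hU j hj.le _).1 h3)
      · exact (hconn _ ω hU i le_rfl _).2 h2
  have hex : ∀ ω, ω ⊆ E → ∀ U ∈ K, ∀ U' ∈ K, A U ω → A U' ω → U = U' := by
    intro ω _ U _ U' _ h1 h2
    exact h1.1.symm.trans h2.1
  have e1 : IPC.Pr q E (Cr F u O i) = ∑ U ∈ K, IPC.Pr q E (A U) := by
    rw [← IPC.Pr_exists_eq q E K A hex]
    exact IPC.Pr_congr q E fun ω _ => hCA ω
  have e2 : ∑ U ∈ K, IPC.Pr q E (fun ω => A U ω ∧ B U ω) ≤
      IPC.Pr q E (fun ω => Cr F u O i ω ∧ ∀ j < M, (∃ w ∈ O, Conn F ω (u j) w) →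
        ∃ l ≤ i, Conn F ω (u l) (u j)) := by
    refine IPC.sum_Pr_le hq0 hq1 E K (fun U ω => A U ω ∧ B U ω) _ ?_ ?_
    · intro ω hω U hU U' hU' h1 h2
      exact hex ω hω U hU U' hU' h1.1 h2.1
    · intro ω _ U hU h1
      refine ⟨(hCA ω).2 ⟨U, hU, h1.1⟩, ?_⟩
      rintro j hj ⟨w, hw, hc⟩
      by_contra hno
      push Not at hno
      have hUj : u j ∉ U := by
        intro h3
        rw [← h1.1.1, mem_cs] at h3
        obtain ⟨s, hs, hc2⟩ := h3
        obtain ⟨l, hl, rfl⟩ := Finset.mem_image.1 hs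
        exact hno l (by have := Finset.mem_range.1 hl; omega) hc2
      have h4 : Clo F ω U := h1.1.1 ▸ clo_cs F ω S
      exact h1.2 ⟨j, hj, w, hw, (clo_out h4 hc hUj).2⟩
  refine le_trans ?_ e2
  rw [e1, Finset.mul_sum]
  refine Finset.sum_le_sum fun U _ => ?_
  have e3 : IPC.Pr q E (fun ω => A U ω ∧ B U ω) = IPC.Pr q E (A U) * IPC.Pr q E (B U) := by
    refine IPC.Pr_indep q (E₁ := tc F U) (E₂ := F \ tc F U) ((tc_subset F U).trans hF)
      (Finset.sdiff_subset.trans hF) Finset.disjoint_sdiff (A U) (B U) ?_ ?_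
    · intro ω _
      show (cs F ω S = U ∧ _ ∧ _) ↔ (cs F (ω ∩ tc F U) S = U ∧ _ ∧ _)
      refine and_congr (cs_dep F S U ω) (and_congr ?_ ?_)
      · exact forall_congr' fun j => imp_congr Iff.rfl (not_congr (dep_Conn (Finset.Subset.refl _) _ _ ω))
      · exact exists_congr fun w => and_congr Iff.rfl (dep_Conn (Finset.Subset.refl _) _ _ ω)
    · intro ω _
      show ¬ Cx _ u M O ω ↔ ¬ Cx _ u M O _
      refine not_congr ?_
      unfold Cx
      exact exists_congr fun j => and_congr Iff.rfl (exists_congr fun w => and_congr Iff.rfl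
        (dep_Conn (Finset.Subset.refl _) _ _ ω))
  have e4 : 1 - lam ≤ IPC.Pr q E (B U) := by
    have h1 : IPC.Pr q E (Cx (F \ tc F U) u M O) ≤ IPC.Pr q E (Cx F u M O) := by
      refine IPC.Pr_mono hq0 hq1 E ?_
      rintro ω _ ⟨j, hj, w, hw, hc⟩
      exact ⟨j, hj, w, hw, hc.mono Finset.sdiff_subset (Finset.Subset.refl _)⟩
    have h2 : IPC.Pr q E (B U) = 1 - IPC.Pr q E (Cx (F \ tc F U) u M O) := IPC.Pr_not q E _
    rw [h2]
    linarith
  rw [e3, mul_comm]
  exact mul_le_mul_of_nonneg_left e4 (IPC.Pr_nonneg hq0 hq1 E _)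

/-- the expected number of crossing clusters -/
theorem nc_sum (hq0 : 0 ≤ q) (hq1 : q ≤ 1) (hF : F ⊆ E) {lam : ℝ} (hX : IPC.Pr q E (Cx F u M O) ≤ lam) :
    (1 - lam) * ∑ i ∈ Finset.range M, IPC.Pr q E (Cr F u O i) ≤ IPC.Pr q E (Cx F u M O) := by
  rw [Finset.mul_sum]
  refine le_trans (Finset.sum_le_sum fun i _ => FB_step hq0 hq1 hF hX i) ?_
  refine IPC.sum_Pr_le hq0 hq1 E (Finset.range M) (fun i ω => Cr F u O i ω ∧
    ∀ j < M, (∃ w ∈ O, Conn F ω (u j) w) → ∃ l ≤ i, Conn F ω (u l) (u j)) _ ?_ ?_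
  · have key : ∀ ω : Finset Edge, ∀ k l : ℕ, l < M → Cr F u O l ω →
        (∀ j < M, (∃ w ∈ O, Conn F ω (u j) w) → ∃ l ≤ k, Conn F ω (u l) (u j)) → l ≤ k := by
      intro ω k l hl h1 h2
      by_contra hkl
      push Not at hkl
      obtain ⟨m, hm, hc⟩ := h2 l hl h1.2
      exact h1.1 m (by omega) hc
    intro ω _ k hk l hl h1 h2
    have h3 := key ω k l (Finset.mem_range.1 hl) h2.1 h1.2
    have h4 := key ω l k (Finset.mem_range.1 hk) h1.1 h2.2
    omega
  · intro ω _ k hk h1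
    obtain ⟨w, hw, hc⟩ := h1.1.2
    exact ⟨k, Finset.mem_range.1 hk, w, hw, hc⟩

/-- the union bound over the crossing clusters -/
theorem good_prob (hq0 : 0 ≤ q) (hq1 : q ≤ 1) (hF : F ⊆ E) {lam del : ℝ} (hlam : lam < 1)
    (hX : IPC.Pr q E (Cx F u M O) ≤ lam) (G : Finset V → Finset Edge → Prop)
    (hdep : ∀ k ω, ω ⊆ E → (G k ω ↔ G k (ω ∩ (E \ tc F k)))) (hdel : 0 ≤ del)
    (hG : ∀ k, (∃ w ∈ O, w ∈ k) → IPC.Pr q E (G k) ≤ del) :
    IPC.Pr q E (fun ω => ∃ j < M, (∃ w ∈ O, Conn F ω (u j) w) ∧ G (cs F ω {u j}) ω) ≤ del / (1 - lam) := by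
  classical
  have h1 : IPC.Pr q E (fun ω => ∃ j < M, (∃ w ∈ O, Conn F ω (u j) w) ∧ G (cs F ω {u j}) ω) ≤
      IPC.Pr q E (fun ω => ∃ j ∈ Finset.range M, Cr F u O j ω ∧ G (cs F ω {u j}) ω) := by
    refine IPC.Pr_mono hq0 hq1 E ?_
    rintro ω _ ⟨j, hj, ⟨w, hw, hc⟩, hg⟩
    have hex : ∃ l, Conn F ω (u l) (u j) := ⟨j, Conn.refl _ _ _⟩
    have hl := Nat.find_spec hex
    have hle : Nat.find hex ≤ j := Nat.find_min' hex (Conn.refl _ _ _)
    refine ⟨Nat.find hex, Finset.mem_range.2 (by omega), ⟨?_, w, hw, hl.trans hc⟩, ?_⟩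
    · intro m hm h3
      exact Nat.find_min hex hm (h3.trans hl)
    · have h4 : cs F ω {u (Nat.find hex)} = cs F ω {u j} := by
        ext v
        rw [mem_cs1, mem_cs1]
        exact ⟨fun h => hl.symm.trans h, fun h => hl.trans h⟩
      rw [h4]
      exact hg
  have h2 : ∀ j, IPC.Pr q E (fun ω => Cr F u O j ω ∧ G (cs F ω {u j}) ω) ≤ del * IPC.Pr q E (Cr F u O j) := by
    intro j
    set K : Finset (Finset V) := ({u j} ∪ vs F).powerset with hK
    let A : Finset V → Finset Edge → Prop := fun k ω => cs F ω {u j} = k ∧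
      ((∀ l < j, u l ∉ k) ∧ ∃ w ∈ O, w ∈ k)
    have hCA : ∀ ω, Cr F u O j ω ↔ ∃ k ∈ K, A k ω := by
      intro ω
      constructor
      · rintro ⟨h3, w, hw, h4⟩
        refine ⟨cs F ω {u j}, Finset.mem_powerset.2 (cs_sub F ω _), rfl, ?_, w, hw, mem_cs1.2 h4⟩
        intro l hl h5
        exact h3 l hl (mem_cs1.1 h5).symm
      · rintro ⟨k, _, hk, h3, w, hw, h4⟩
        refine ⟨?_, w, hw, ?_⟩
        · intro l hl h5
          refine h3 l hl ?_
          rw [← hk]
          exact mem_cs1.2 h5.symm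
        · rw [← hk] at h4
          exact mem_cs1.1 h4
    have hex : ∀ ω, ω ⊆ E → ∀ k ∈ K, ∀ k' ∈ K, A k ω → A k' ω → k = k' := by
      intro ω _ k _ k' _ h3 h4
      exact h3.1.symm.trans h4.1
    have e1 : IPC.Pr q E (Cr F u O j) = ∑ k ∈ K, IPC.Pr q E (A k) := by
      rw [← IPC.Pr_exists_eq q E K A hex]
      exact IPC.Pr_congr q E fun ω _ => hCA ω
    have e2 : IPC.Pr q E (fun ω => Cr F u O j ω ∧ G (cs F ω {u j}) ω) ≤
        ∑ k ∈ K, IPC.Pr q E (fun ω => A k ω ∧ G k ω) := by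
      refine le_trans ?_ (IPC.Pr_exists_le hq0 hq1 E K (fun k ω => A k ω ∧ G k ω))
      refine IPC.Pr_mono hq0 hq1 E ?_
      rintro ω _ ⟨h3, h4⟩
      obtain ⟨k, hk, h5⟩ := (hCA ω).1 h3
      refine ⟨k, hk, h5, ?_⟩
      rw [← h5.1]
      exact h4
    refine e2.trans ?_
    rw [e1, Finset.mul_sum]
    refine Finset.sum_le_sum fun k _ => ?_
    have e3 : IPC.Pr q E (fun ω => A k ω ∧ G k ω) = IPC.Pr q E (A k) * IPC.Pr q E (G k) := by
      refine IPC.Pr_indep q (E₁ := tc F k) (E₂ := E \ tc F k) ((tc_subset F k).trans hF)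
        Finset.sdiff_subset Finset.disjoint_sdiff (A k) (G k) ?_ (hdep k)
      intro ω _
      show (cs F ω {u j} = k ∧ _) ↔ (cs F (ω ∩ tc F k) {u j} = k ∧ _)
      exact and_congr (cs_dep F _ k ω) Iff.rfl
    rw [e3]
    by_cases hk : ∃ w ∈ O, w ∈ k
    · rw [mul_comm]
      exact mul_le_mul_of_nonneg_right (hG k hk) (IPC.Pr_nonneg hq0 hq1 E _)
    · have e4 : IPC.Pr q E (A k) = 0 := IPC.Pr_false q E fun ω _ h3 => hk h3.2.2
      rw [e4, zero_mul, mul_zero]
  have h3 : IPC.Pr q E (fun ω => ∃ j ∈ Finset.range M, Cr F u O j ω ∧ G (cs F ω {u j}) ω) ≤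
      del * ∑ j ∈ Finset.range M, IPC.Pr q E (Cr F u O j) := by
    refine (IPC.Pr_exists_le hq0 hq1 E (Finset.range M)
      (fun j ω => Cr F u O j ω ∧ G (cs F ω {u j}) ω)).trans ?_
    rw [Finset.mul_sum]
    exact Finset.sum_le_sum fun j _ => h2 j
  have h4 := nc_sum (M := M) hq0 hq1 hF hX
  have h5 : IPC.Pr q E (Cx F u M O) ≤ 1 := IPC.Pr_le_one hq0 hq1 E _
  have h6 : 0 < 1 - lam := by linarith
  rw [le_div_iff₀ h6]
  have h7 : IPC.Pr q E (fun ω => ∃ j < M, (∃ w ∈ O, Conn F ω (u j) w) ∧ G (cs F ω {u j}) ω) ≤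
      del * ∑ j ∈ Finset.range M, IPC.Pr q E (Cr F u O j) := h1.trans h3
  nlinarith [mul_le_mul_of_nonneg_right h7 h6.le, mul_le_mul_of_nonneg_left (h4.trans h5) hdel]

end FKN
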