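import Pool.Agent.Lib.MP_216314_pr.N.CA
import Pool.Agent.Lib.MP_216314_pr.N.FB
import Pool.Agent.Lib.MP_216314_pr.N.BDef

/-!
# Only one crossing cluster comes close to a contact point (campaign NC, arm separation, section 1)

`cl_indep`: exploration of a cluster. `bad_le`: general bound for `Bad`. `offarm_le`: bound for `OffArm`.
`bad_prim`, `bad_dual`: the primal and the dual version in the annulus.
-/

set_option autoImplicit false

noncomputable section

namespace FKN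

open Finset FKI FKP

theorem coe_cs (F ω : Finset Edge) (v : V) : ((cs F ω {v} : Finset V) : Set V) = cls F ω v := by
  ext w
  rw [Finset.mem_coe, mem_cs1]
  exact Iff.rfl

theorem mem_tch {F : Finset Edge} {K : Set V} {e : Edge} : e ∈ tch F K ↔ e ∈ F ∧ (ea e ∈ K ∨ eb e ∈ K) := by
  classical
  unfold tch
  exact mem_filter

theorem tch_coe (F : Finset Edge) (k : Finset V) : tch F (k : Set V) = tc F k := by
  ext e
  rw [mem_tch]
  unfold tc
  rw [mem_filter]
  exact Iff.rfl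

theorem tch_sub (F : Finset Edge) (K : Set V) : tch F K ⊆ F := fun _ he => (mem_tch.1 he).1

theorem tch_mono {F E : Finset Edge} (h : F ⊆ E) (K : Set V) : tch F K ⊆ tch E K := fun _ he =>
  mem_tch.2 ⟨h (mem_tch.1 he).1, (mem_tch.1 he).2⟩

theorem cls_eq_of_mem {F ω : Finset Edge} {u v : V} (h : u ∈ cls F ω v) : cls F ω u = cls F ω v := by
  have h' : Conn F ω v u := h
  ext w
  exact ⟨fun hw => h'.trans hw, fun hw => h'.symm.trans hw⟩

/-- the event `cls F ω v = K` depends on the edges of `F` which touch `K` only -/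
theorem dep_cls (F : Finset Edge) (v : V) (K : Set V) : Dep (tch F K) (fun ω => cls F ω v = K) := by
  classical
  intro ω
  by_cases hK : ∃ k : Finset V, (k : Set V) = K
  · obtain ⟨k, rfl⟩ := hK
    show cls F ω v = ↑k ↔ cls F (ω ∩ tch F ↑k) v = ↑k
    rw [← coe_cs, ← coe_cs, Finset.coe_inj, Finset.coe_inj, tch_coe]
    exact cs_dep F {v} k ω
  · constructor
    · intro h
      exact absurd ⟨cs F ω {v}, (coe_cs F ω v).trans h⟩ hK
    · intro h
      exact absurd ⟨cs F (ω ∩ tch F K) {v}, (coe_cs F (ω ∩ tch F K) v).trans h⟩ hK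

/-- **exploration of a cluster** -/
theorem cl_indep (q : ℝ) {F E : Finset Edge} (hF : F ⊆ E) (v : V) (K : Set V) {B : Finset Edge → Prop}
    (hB : Dep (E \ tch F K) B) :
    IPC.Pr q E (fun ω => cls F ω v = K ∧ B ω) = IPC.Pr q E (fun ω => cls F ω v = K) * IPC.Pr q E B :=
  pq_indep q ((tch_sub F K).trans hF) Finset.sdiff_subset Finset.disjoint_sdiff (dep_cls F v K) hB

theorem p1C_nonneg {q : ℝ} (h0 : 0 ≤ q) (h1 : q ≤ 1) (r R : ℕ) : 0 ≤ p1' q r R := pq_nonneg h0 h1 _ _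

/-- `OffArm` depends on the edges of `E` which do not touch `K` only -/
theorem dep_OffArm (E : Finset Edge) (K : Set V) (z : V) (r R : ℕ) : Dep (E \ tch E K) (OffArm E K z r R) := by
  intro ω
  unfold OffArm
  exact exists_congr fun u => exists_congr fun w => and_congr Iff.rfl (and_congr Iff.rfl
    (dep_Conn (Finset.sdiff_subset_sdiff Finset.inter_subset_left (Finset.Subset.refl _)) u w ω))

theorem offarm_le {q : ℝ} (hq0 : 0 ≤ q) (hq1 : q ≤ 1) (E : Finset Edge) (K : Set V) (z : V) {r R : ℕ} (hr : r < R) :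
    IPC.Pr q E (OffArm E K z r R) ≤ p1' q r R := by
  refine le_trans (pq_mono hq0 hq1 ?_) (pr_cross hq0 hq1
    (Finset.sdiff_subset.trans Finset.inter_subset_left : (E ∩ (bxa z R \ bxa z r)) \ tch E K ⊆ E) z hr.le)
  rintro ω _ ⟨u, w, h1, h2, h3⟩
  exact ⟨u, w, h1.le, h2.ge, h3⟩

theorem CB_enum (S : Finset V) : ∃ (u : ℕ → V) (M : ℕ), (∀ j < M, u j ∈ S) ∧ ∀ v ∈ S, ∃ j < M, u j = v := by
  classical
  refine ⟨fun j => S.toList.getD j 0, S.toList.length, ?_, ?_⟩
  · intro j hj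
    show S.toList.getD j 0 ∈ S
    rw [← Finset.mem_toList, List.getD_eq_getElem _ _ hj]
    exact List.getElem_mem hj
  · intro v hv
    rw [← Finset.mem_toList] at hv
    obtain ⟨j, hj, h1⟩ := List.getElem_of_mem hv
    refine ⟨j, hj, ?_⟩
    show S.toList.getD j 0 = v
    rw [List.getD_eq_getElem _ _ hj]
    exact h1

/-- **only one crossing cluster near a contact point**, general form -/
theorem bad_le {q : ℝ} (hq0 : 0 ≤ q) (hq1 : q ≤ 1) {E F : Finset Edge} (hF : F ⊆ E) {I : Finset V} {J : Set V}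
    (hIJ : ∀ u ∈ I, u ∉ J) {l b : ℝ} {r R : ℕ}
    (hl : IPC.Pr q E (fun ω => ∃ u ∈ I, ∃ w ∈ J, Conn F ω u w) ≤ l) (hl1 : l < 1)
    (hb : ∀ (K : Set V) (z : V), IPC.Pr q E (OffArm E K z r R) ≤ b) (hb0 : 0 ≤ b) :
    IPC.Pr q E (Bad E F (I : Set V) J r R) ≤ b / (1 - l) := by
  classical
  obtain ⟨u, M, hu, hall⟩ := CB_enum I
  set O : Finset V := (vs F).filter (fun w => w ∈ J) with hO
  have hX : IPC.Pr q E (Cx F u M O) ≤ l := by
    refine le_trans (pq_mono hq0 hq1 ?_) hl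
    rintro ω _ ⟨j, hj, w, hw, hc⟩
    rw [hO, mem_filter] at hw
    exact ⟨u j, hu j hj, w, hw.2, hc⟩
  have hmain := good_prob (M := M) (u := u) (O := O) hq0 hq1 hF hl1 hX
    (fun k ω => OffArm E (k : Set V) (pk J (k : Set V)) r R ω) (fun k ω _ => by
      have h1 := dep_OffArm E (k : Set V) (pk J (k : Set V)) r R ω
      have h2 := dep_OffArm E (k : Set V) (pk J (k : Set V)) r R (ω ∩ (E \ tc F k))
      show OffArm E (k : Set V) (pk J (k : Set V)) r R ω ↔
        OffArm E (k : Set V) (pk J (k : Set V)) r R (ω ∩ (E \ tc F k))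
      rw [h1, h2, Finset.inter_assoc]
      have h3 : (E \ tc F k) ∩ (E \ tch E (k : Set V)) = E \ tch E (k : Set V) := by
        rw [Finset.inter_eq_right]
        refine Finset.sdiff_subset_sdiff (Finset.Subset.refl _) ?_
        rw [← tch_coe]
        exact tch_mono hF _
      rw [h3])
    hb0 (fun k _ => hb _ _)
  refine le_trans (pq_mono hq0 hq1 ?_) hmain
  rintro ω _ ⟨v, ⟨⟨a, ha, haI⟩, w, hw, hwJ⟩, hg⟩
  have haI' : a ∈ I := haI
  obtain ⟨j, hj, rfl⟩ := hall a haI'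
  have e1 : cls F ω (u j) = cls F ω v := cls_eq_of_mem ha
  have hc : Conn F ω (u j) w := by
    have : w ∈ cls F ω (u j) := e1 ▸ hw
    exact this
  refine ⟨j, hj, ⟨w, ?_, hc⟩, ?_⟩
  · rw [hO, mem_filter]
    refine ⟨?_, hwJ⟩
    rcases FB_vs hc with h | h
    · exact absurd (h ▸ hwJ) (hIJ _ haI')
    · exact h
  · show OffArm E _ (pk J _) r R ω
    rw [coe_cs, e1]
    exact hg

theorem CB_nrm_nonneg (v : V) : 0 ≤ nrm v := by
  unfold nrm
  exact le_trans (abs_nonneg _) (le_max_left _ _)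

theorem CB_fl (f : V) : fl f ≤ nrm f ∧ nrm f ≤ fl f + 1 := by
  obtain ⟨x, y⟩ := f
  unfold fl nrm
  simp only
  rcases abs_cases x with h1 | h1 <;> rcases abs_cases y with h2 | h2 <;> constructor <;> omega

/-- points of a bounded set in a finite set -/
theorem CB_fin (P : V → Prop) (N : ℕ) (h : ∀ v, P v → nrm v ≤ N) : ∃ I : Finset V, (I : Set V) = {v | P v} := by
  classical
  refine ⟨((Icc (-(N : ℤ)) N) ×ˢ (Icc (-(N : ℤ)) N)).filter P, ?_⟩
  ext v
  rw [Finset.mem_coe, mem_filter, mem_product, mem_Icc, mem_Icc]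
  constructor
  · exact fun hv => hv.2
  · intro hv
    have h2 := nrmC_le.1 (h v hv)
    exact ⟨⟨⟨h2.1, h2.2.1⟩, h2.2.2.1, h2.2.2.2⟩, hv⟩

theorem bad_prim {q : ℝ} (hq0 : 0 ≤ q) (hq1 : q ≤ 1) {n h r R : ℕ} (hh : h < n) (hr : r < R) (hl : p1' q h n < 1) :
    IPC.Pr q (an h n) (Bad (an h n) (an h n) (sph h) (sph n) r R) ≤ p1' q r R / (1 - p1' q h n) := by
  obtain ⟨I, hI⟩ := CB_fin (fun v => nrm v = h) h (fun v hv => hv.le)
  have hI' : (I : Set V) = sph h := hI
  rw [← hI']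
  refine bad_le hq0 hq1 (Finset.Subset.refl _) ?_ (l := p1' q h n) ?_ hl (fun K z => offarm_le hq0 hq1 _ K z hr)
    (p1C_nonneg hq0 hq1 r R)
  · intro u hu h1
    have h2 : u ∈ sph h := hI' ▸ (Finset.mem_coe.2 hu)
    have h3 : nrm u = h := h2
    have h4 : nrm u = n := h1
    have : (h : ℤ) < n := by exact_mod_cast hh
    omega
  · refine le_trans (pq_mono hq0 hq1 ?_) (pr_cross hq0 hq1 (Finset.Subset.refl (an h n)) 0 hh.le)
    rintro ω _ ⟨u, hu, w, hw, hc⟩
    have h2 : u ∈ sph h := hI' ▸ (Finset.mem_coe.2 hu)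
    have h3 : nrm u = h := h2
    have h4 : nrm w = n := hw
    exact ⟨u, w, by rw [sub_zero]; exact h3.le, by rw [sub_zero]; exact h4.ge, hc⟩

/-- the law of the dual configuration -/
theorem pr_dc (q : ℝ) (E : Finset Edge) (A : Finset Edge → Prop) :
    IPC.Pr q E (fun ω => A (dc E ω)) = IPC.Pr (1 - q) (E.map dl.toEmbedding) A := by
  rw [pq_map]
  exact pq_compl q E (fun ω => A (ω.map dl.toEmbedding))

theorem bad_dual {q : ℝ} (hq0 : 0 ≤ q) (hq1 : q ≤ 1) {n h r R : ℕ} (hh : h + 1 < n) (hr : r < R)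
    (hl : p1' (1 - q) (h + 1) n < 1) {F : Finset Edge} (hF : F ⊆ an h n) :
    IPC.Pr q (an h n) (fun ω => Bad ((an h n).map dl.toEmbedding) (F.map dl.toEmbedding) (fsp h) (fsp n) r R (dc (an h n) ω)) ≤
      p1' (1 - q) r R / (1 - p1' (1 - q) (h + 1) n) := by
  rw [pr_dc]
  have hq0' : 0 ≤ 1 - q := by linarith
  have hq1' : 1 - q ≤ 1 := by linarith
  have hF' : F.map dl.toEmbedding ⊆ (an h n).map dl.toEmbedding := Finset.map_subset_map.2 hF
  obtain ⟨I, hI⟩ := CB_fin (fun v => fl v = h) (h + 1) (fun v hv => by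
    have := (CB_fl v).2
    push_cast
    rw [hv] at this
    exact this)
  have hI' : (I : Set V) = fsp h := hI
  rw [← hI']
  refine bad_le hq0' hq1' hF' ?_ (l := p1' (1 - q) (h + 1) n) ?_ hl (fun K z => offarm_le hq0' hq1' _ K z hr)
    (p1C_nonneg hq0' hq1' r R)
  · intro u hu h1
    have h2 : u ∈ fsp h := hI' ▸ (Finset.mem_coe.2 hu)
    have h3 : fl u = h := h2
    have h4 : fl u = n := h1
    have : (h : ℤ) + 1 < n := by exact_mod_cast hh
    omega
  · refine le_trans (pq_mono hq0' hq1' ?_) (pr_cross hq0' hq1' hF' 0 hh.le)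
    rintro ω _ ⟨u, hu, w, hw, hc⟩
    have h2 : u ∈ fsp h := hI' ▸ (Finset.mem_coe.2 hu)
    have h3 : fl u = h := h2
    have h4 : fl w = n := hw
    have h5 := (CB_fl u).2
    have h6 := (CB_fl w).1
    refine ⟨u, w, ?_, ?_, hc⟩
    · rw [sub_zero]
      push_cast
      linarith
    · rw [sub_zero]
      linarith

theorem bxC_sub {m n : ℕ} (h : m ≤ n) : bx m ⊆ bx n := by
  have h' : (m : ℤ) ≤ n := by exact_mod_cast h
  intro e he
  rw [mem_bx_iff] at he ⊢
  exact ⟨he.1.trans h', he.2.trans h'⟩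

theorem dep_Bad {E F : Finset Edge} (hF : F ⊆ E) (I J : Set V) (r R : ℕ) : Dep E (Bad E F I J r R) := by
  intro ω
  have h1 : ∀ v, cls F (ω ∩ E) v = cls F ω v := fun v => by
    ext w
    exact (dep_Conn hF v w ω).symm
  unfold Bad
  refine exists_congr fun v => ?_
  rw [h1]
  refine and_congr Iff.rfl ?_
  have h2 := dep_OffArm E (cls F ω v) (pk J (cls F ω v)) r R ω
  have h3 := dep_OffArm E (cls F ω v) (pk J (cls F ω v)) r R (ω ∩ E)
  rw [h2, h3, Finset.inter_assoc, Finset.inter_eq_right.2 Finset.sdiff_subset]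

end FKN
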