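import Pool.Agent.Lib.MP_216314_pr.N.DStA
import Pool.Agent.Lib.MP_216314_pr.N.DCvB

/-!
# Stream D: from the ball states to the canonical states

PROOFS.
`out_ext`: `geo_out` (`l = 2`) and `ext_rings` with `E = bx (6 n)` (say), `Fp = (bx n \ {e0}) \ bxs zd (300 r)`, `Fm = (bx n \ {e0}) \ bxs zo (300 r)`, `Lp = Lo`, `Lm = Ld`, `A = StG SeP (nearT zo r)`, `A' = StG SeP (ringT (cO 2 (3 n)) (rr 2 (3 n)))`, `D`, `D'` the same with `SeD`, `zd`, `cD`.
`RN Lo` does not meet `Fm`: an edge of `RN Lo` in `bx n` is in `bxs zo (300 r)` (`start_o`). `hA`: the sources `(0,0)`, `(1,0)` (and `(0,0)`, `(0,-1)`) are at distance `≥ n - 1 ≥ 3 r` from `zo i` (`nrm (zo i) = n`), apply `link_o` in the larger configuration (`Ring`s and reachability are increasing).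
The regions: `Fp ∪ RN Lo ⊆ (bx (3 n - 5 rr 2 (3 n)) \ {e0}) ∪ bxs (cO 2 (3 n)) (10 rr 2 (3 n))` (`fin_o`, and `e0 ∉ RN Lo` by `far_o`), then `StE_mono`, `pr_StE`, `CanO_region`. The constant is `1 / c ^ (8 M)`.
`inn_ext`: the same with `geo_inn` (`n := r`, `r := s`), `Fp = an r n \ bxs yd (300 s)`, ...; an edge of `RN Lo` outside `bx r` is in `bxs yo (300 s)`; `RN Lo ⊆ bx (2 r) ⊆ bx n`. The sources on the outer boundary are at distance `≥ n - r ≥ 3 s` (`bdD`: `nrm f ≥ n`).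
`cyc_small`: the four gaps (`l = 2`): `θd 0 - θo 0`, `θo 1 - θd 0`, `θd 1 - θo 1 ≥ g` and `θd 1 - θo 0 ≤ 8 - g`, so `4 g ≤ 8`, `g = 30000 r / n`.
`sep_out1`: `SepOut` with `w = 300` gives `k`, `C`; `RB` from `rb_of_rs`; new `k' = 2 k`, so that `r = n / k ≥ 2` and `n ≤ 2 k r`; `out_ext` with this `k`. `sep_inn1`: the same.
-/

set_option autoImplicit false

noncomputable section

namespace FKN

open Finset FKI FKP

private theorem DOutA_bx {a b : ℕ} (h : a ≤ b) : bx a ⊆ bx b := by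
  unfold bx
  exact box_mono (by omega) (by omega) (by omega) (by omega)

private theorem DOutA_e0 {a : ℕ} (h : 1 ≤ a) : e0 ∈ bx a := by
  unfold bx
  rw [mem_box]
  left
  refine ⟨rfl, ?_, ?_, ?_, ?_⟩
  · show -(a : ℤ) ≤ 0
    omega
  · show (0 : ℤ) < a
    omega
  · show -(a : ℤ) ≤ 0
    omega
  · show (0 : ℤ) ≤ a
    omega

private theorem DOutA_pt {a : V} {n : ℕ} {θ : ℝ}
    (h : ((a.1 : ℝ), (a.2 : ℝ)) = ((((n : ℕ) : ℤ) : ℝ) * (sq θ).1, (((n : ℕ) : ℤ) : ℝ) * (sq θ).2)) : nrm a = n := by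
  have h1 : (a.1 : ℝ) = (n : ℝ) * gw θ := by
    have := congrArg Prod.fst h
    simpa [sq] using this
  have h2 : (a.2 : ℝ) = (n : ℝ) * gw (θ - 2) := by
    have := congrArg Prod.snd h
    simpa [sq] using this
  have h3 : ((nrm a : ℤ) : ℝ) = (n : ℝ) := by
    rw [nrm_real, h1, h2, abs_mul, abs_mul, Nat.abs_cast, ← mul_max_of_nonneg _ _ (Nat.cast_nonneg n), sq_norm, mul_one]
  exact_mod_cast h3

private theorem DOutA_far (u v : V) : nrm v - nrm u ≤ nrm (u - v) := by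
  have h1 := nrmD_tri u (v - u)
  rw [add_sub_cancel] at h1
  have h2 : nrm (v - u) = nrm (u - v) := by
    rw [← nrm_neg (v - u), neg_sub]
  rw [h2] at h1
  linarith

private theorem DOutA_near {y : Fin 2 → V} (hy : ∀ j, nrm (y j) ≤ 1) {η : Finset Edge} {s : Fin 2 → V}
    (h : nearS y 0 η s) (i : Fin 2) : nrm (s i) ≤ 1 := by
  obtain ⟨σ, hσ⟩ := h
  have h1 := nrmD_tri (s i - y (σ i)) (y (σ i))
  rw [sub_add_cancel] at h1
  have h2 := hσ i
  have h3 := hy (σ i)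
  linarith

private theorem DOutA_SeP {η : Finset Edge} {s : Fin 2 → V} (h : SeP η s) (i : Fin 2) : nrm (s i) ≤ 1 := by
  refine DOutA_near (fun j => ?_) h i
  fin_cases j <;> simp [nrm]

private theorem DOutA_SeD {η : Finset Edge} {s : Fin 2 → V} (h : SeD η s) (i : Fin 2) : nrm (s i) ≤ 1 := by
  refine DOutA_near (fun j => ?_) h i
  fin_cases j <;> simp [nrm]

private theorem DOutA_bdD {n : ℕ} {η : Finset Edge} {s : Fin 2 → V} (h : bdD n η s) (i : Fin 2) : (n : ℤ) ≤ nrm (s i) := by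
  have h1 := h i
  unfold nrm
  rcases max_choice |2 * (s i).1 + 1| |2 * (s i).2 + 1| with h2 | h2
  · rw [h2] at h1
    have h3 : (n : ℤ) ≤ |(s i).1| := by
      rcases abs_cases (2 * (s i).1 + 1) with ⟨h4, h5⟩ | ⟨h4, h5⟩ <;>
        rcases abs_cases ((s i).1) with ⟨h6, h7⟩ | ⟨h6, h7⟩ <;> omega
    exact le_trans h3 (le_max_left _ _)
  · rw [h2] at h1
    have h3 : (n : ℤ) ≤ |(s i).2| := by
      rcases abs_cases (2 * (s i).2 + 1) with ⟨h4, h5⟩ | ⟨h4, h5⟩ <;>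
        rcases abs_cases ((s i).2) with ⟨h6, h7⟩ | ⟨h6, h7⟩ <;> omega
    exact le_trans h3 (le_max_right _ _)

/-- the links -/
private theorem DOutA_link {L : Finset (V × ℤ)} {Sg : Finset Edge → (Fin 2 → V) → Prop} {a b : Fin 2 → V} {r r' : ℤ}
    (hl : ∀ (η : Finset Edge) (i : Fin 2) (s v : V), Rings L η → nrm (v - a i) ≤ r → 3 * r ≤ nrm (s - a i) →
      (gr η).Reachable s v → ∃ v', RP (b i) r' η v' ∧ (gr η).Reachable s v')
    (hS : ∀ η s, Sg η s → ∀ i, 3 * r ≤ nrm (s i - a i)) (η : Finset Edge) (h : StG Sg (nearT a r) η) (hL : Rings L η) :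
    StG Sg (ringT b r') η := by
  obtain ⟨s, v, h1, h2, h3⟩ := h
  have h4 : ∀ i, ∃ v', RP (b i) r' η v' ∧ (gr η).Reachable (s i) v' := fun i =>
    hl η i (s i) (v i) hL (h2 i) (hS η s h1 i) (h3 i)
  choose w hw1 hw2 using h4
  exact ⟨s, w, h1, hw1, hw2⟩

/-- outward: from balls on the boundary of `[-n,n]²` to the canonical state at scale `3 n` -/
theorem out_ext {c : ℝ} (hc : 0 < c) (hc1 : c ≤ 1) (k : ℕ) : ∃ C : ℝ, 0 < C ∧ ∀ (q : ℝ) (n r : ℕ) (zo zd : Fin 2 → V),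
    0 ≤ q → q ≤ 1 → RB c q n → 2 ≤ r → 15000 * r ≤ n → n ≤ 2 * k * r → CycR zo zd n (30000 * r) →
    IPC.Pr q (bx n) (BS ((bx n \ {e0}) \ bxs zd (300 * r)) ((bx n \ {e0}) \ bxs zo (300 * r)) SeP SeD zo zd r) ≤
      C * wO q (3 * n) := by
  obtain ⟨M, hM⟩ := geo_out (l := 2) (by norm_num) k
  have hcM : 0 < c ^ (8 * M) := pow_pos hc _
  refine ⟨1 / c ^ (8 * M), by positivity, ?_⟩
  intro q n r zo zd h0 h1 hRB hr hn hk hC
  obtain ⟨Lo, Ld, G⟩ := hM n r zo zd hr (by omega) hk hC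
  have hzo : ∀ i, nrm (zo i) = n := by
    obtain ⟨θo, θd, h2, h3, -, -⟩ := hC
    exact fun i => DOutA_pt (h2 i)
  have hzd : ∀ i, nrm (zd i) = n := by
    obtain ⟨θo, θd, h2, h3, -, -⟩ := hC
    exact fun i => DOutA_pt (h3 i)
  have hX : ({e0} : Finset Edge) ⊆ bx (3 * n) := by
    intro e he
    rw [mem_singleton.1 he]
    exact DOutA_e0 (by omega)
  have hreg := CanO_region (l := 2) (by norm_num) {e0} (3 * n) hX
  have hn6 : bx n ⊆ bx (2 * (3 * n)) := DOutA_bx (by omega)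
  have hFp : (bx n \ {e0}) \ bxs zd (300 * (r : ℤ)) ⊆ bx n := fun e he => (mem_sdiff.1 (mem_sdiff.1 he).1).1
  have hFm : (bx n \ {e0}) \ bxs zo (300 * (r : ℤ)) ⊆ bx n := fun e he => (mem_sdiff.1 (mem_sdiff.1 he).1).1
  have he0 : e0 ∈ bx (n / 2) := DOutA_e0 (by omega)
  have hrr : 5 * rr 2 (3 * n) ≤ 2 * n := by
    unfold rr
    omega
  have hcore : bx n ⊆ bx (3 * n - 5 * rr 2 (3 * n)) := DOutA_bx (by omega)
  have hRo : RN Lo ⊆ (bx (3 * n - 5 * rr 2 (3 * n)) \ {e0}) ∪ bxs (cO 2 (3 * n)) (10 * rr 2 (3 * n)) := by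
    intro e he
    rcases mem_union.1 (G.fin_o he) with h2 | h2
    · refine mem_union_left _ (mem_sdiff.2 ⟨h2, ?_⟩)
      intro h3
      rw [mem_singleton.1 h3] at he
      exact Finset.disjoint_left.1 G.far_o he he0
    · exact mem_union_right _ h2
  have hRd : ud (RN Ld) ⊆ (bx (3 * n - 5 * rr 2 (3 * n)) \ {e0}) ∪ ud (bxs (cD 2 (3 * n)) (10 * rr 2 (3 * n))) := by
    intro e he
    rcases mem_union.1 (G.fin_d he) with h2 | h2
    · refine mem_union_left _ (mem_sdiff.2 ⟨h2, ?_⟩)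
      intro h3
      rw [mem_singleton.1 h3] at he
      exact Finset.disjoint_left.1 G.far_d he he0
    · exact mem_union_right _ h2
  have hRo6 : RN Lo ⊆ bx (2 * (3 * n)) := fun e he => hreg (mem_union_left _ (hRo he))
  have hRd6 : ud (RN Ld) ⊆ bx (2 * (3 * n)) := fun e he => hreg (mem_union_right _ (hRd he))
  have d1 : Disjoint (RN Lo) ((bx n \ {e0}) \ bxs zo (300 * (r : ℤ))) := by
    rw [Finset.disjoint_left]
    intro e he h2
    exact (mem_sdiff.1 h2).2 (G.start_o e he (hFm h2))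
  have d2 : Disjoint (ud (RN Ld)) ((bx n \ {e0}) \ bxs zd (300 * (r : ℤ))) := by
    rw [Finset.disjoint_left]
    intro e he h2
    exact (mem_sdiff.1 h2).2 (G.start_d e he (hFp h2))
  have key := ext_rings hc hc1 h0 h1 hRB (E := bx (2 * (3 * n))) (Fp := (bx n \ {e0}) \ bxs zd (300 * (r : ℤ)))
    (Fm := (bx n \ {e0}) \ bxs zo (300 * (r : ℤ))) (Lp := Lo) (Lm := Ld) (M := M) G.card_o G.card_d G.rad_o G.rad_d
    (hFp.trans hn6) (hFm.trans hn6) hRo6 hRd6 d1 d2 G.disj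
    (A := StG SeP (nearT zo r)) (A' := StG SeP (ringT (cO 2 (3 * n)) (rr 2 (3 * n))))
    (D := StG SeD (nearT zd r)) (D' := StG SeD (ringT (cD 2 (3 * n)) (rr 2 (3 * n))))
    (StG_inc SeP_inc (nearT_inc _ _)) (StG_inc SeD_inc (nearT_inc _ _))
    (StG_inc SeP_inc (ringT_inc _ _)) (StG_inc SeD_inc (ringT_inc _ _))
    (DOutA_link G.link_o (fun η s hs i => by
      have h2 := DOutA_far (s i) (zo i)
      have h3 := DOutA_SeP hs i
      rw [hzo i] at h2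
      omega))
    (DOutA_link G.link_d (fun η s hs i => by
      have h2 := DOutA_far (s i) (zd i)
      have h3 := DOutA_SeD hs i
      rw [hzd i] at h2
      omega))
  have e1 : IPC.Pr q (bx n) (BS ((bx n \ {e0}) \ bxs zd (300 * (r : ℤ))) ((bx n \ {e0}) \ bxs zo (300 * (r : ℤ))) SeP SeD zo zd r) =
      IPC.Pr q (bx (2 * (3 * n))) (StE ((bx n \ {e0}) \ bxs zd (300 * (r : ℤ))) ((bx n \ {e0}) \ bxs zo (300 * (r : ℤ)))
        SeP (nearT zo r) SeD (nearT zd r)) :=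
    pr_StE q SeP (nearT zo r) SeD (nearT zd r) (union_subset hFp hFm) ((union_subset hFp hFm).trans hn6)
  have e2 : IPC.Pr q (bx (2 * (3 * n))) (StE (((bx n \ {e0}) \ bxs zd (300 * (r : ℤ))) ∪ RN Lo)
      (((bx n \ {e0}) \ bxs zo (300 * (r : ℤ))) ∪ ud (RN Ld)) SeP (ringT (cO 2 (3 * n)) (rr 2 (3 * n)))
      SeD (ringT (cD 2 (3 * n)) (rr 2 (3 * n)))) ≤ wO q (3 * n) := by
    refine pr_StE_mono h0 h1 SeP_inc (ringT_inc _ _) SeD_inc (ringT_inc _ _) ?_ ?_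
    · refine union_subset ?_ hRo
      intro e he
      exact mem_union_left _ (mem_sdiff.2 ⟨hcore (hFp he), (mem_sdiff.1 (mem_sdiff.1 he).1).2⟩)
    · refine union_subset ?_ hRd
      intro e he
      exact mem_union_left _ (mem_sdiff.2 ⟨hcore (hFm he), (mem_sdiff.1 (mem_sdiff.1 he).1).2⟩)
  have e3 := le_trans key e2
  rw [e1, one_div, inv_mul_eq_div, le_div_iff₀ hcM]
  exact e3

/-- inward: from balls on the inner boundary of the annulus to the inner canonical state at scale `r / 3` -/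
theorem inn_ext {c : ℝ} (hc : 0 < c) (hc1 : c ≤ 1) (k : ℕ) : ∃ C : ℝ, 0 < C ∧ ∀ (q : ℝ) (s r n : ℕ) (yo yd : Fin 2 → V),
    0 ≤ q → q ≤ 1 → RB c q n → 2 ≤ s → 15000 * s ≤ r → r ≤ 2 * k * s → 8 * r ≤ n → CycR yo yd r (30000 * s) →
    IPC.Pr q (an r n) (BS (an r n \ bxs yd (300 * s)) (an r n \ bxs yo (300 * s)) (bdP n) (bdD n) yo yd s) ≤
      C * wI q (r / 3) n := by
  obtain ⟨M, hM⟩ := geo_inn (l := 2) (by norm_num) k
  have hcM : 0 < c ^ (8 * M) := pow_pos hc _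
  refine ⟨1 / c ^ (8 * M), by positivity, ?_⟩
  intro q s r n yo yd h0 h1 hRB hs hr hk hn hC
  obtain ⟨Lo, Ld, G⟩ := hM r s yo yd hs (by omega) hk hC
  have hyo : ∀ i, nrm (yo i) = r := by
    obtain ⟨θo, θd, h2, h3, -, -⟩ := hC
    exact fun i => DOutA_pt (h2 i)
  have hyd : ∀ i, nrm (yd i) = r := by
    obtain ⟨θo, θd, h2, h3, -, -⟩ := hC
    exact fun i => DOutA_pt (h3 i)
  have han : an r n ⊆ bx n := fun e he => (mem_sdiff.1 he).1
  have hFp : an r n \ bxs yd (300 * (s : ℤ)) ⊆ an r n := sdiff_subset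
  have hFm : an r n \ bxs yo (300 * (s : ℤ)) ⊆ an r n := sdiff_subset
  have hrr : r / 3 + 5 * rr 2 (r / 3) ≤ r := by
    unfold rr
    omega
  have hcore : an r n ⊆ an (r / 3 + 5 * rr 2 (r / 3)) n := by
    intro e he
    exact mem_sdiff.2 ⟨(mem_sdiff.1 he).1, fun h2 => (mem_sdiff.1 he).2 (DOutA_bx hrr h2)⟩
  have hRo6 : RN Lo ⊆ bx n := G.far_o.trans (DOutA_bx (by omega))
  have hRd6 : ud (RN Ld) ⊆ bx n := G.far_d.trans (DOutA_bx (by omega))
  have hRo : RN Lo ⊆ an (r / 3 + 5 * rr 2 (r / 3)) n ∪ bxs (cO 2 (r / 3)) (10 * rr 2 (r / 3)) := by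
    intro e he
    rcases G.fin_o e he with h2 | h2
    · exact mem_union_left _ (mem_sdiff.2 ⟨hRo6 he, h2⟩)
    · exact mem_union_right _ h2
  have hRd : ud (RN Ld) ⊆ an (r / 3 + 5 * rr 2 (r / 3)) n ∪ ud (bxs (cD 2 (r / 3)) (10 * rr 2 (r / 3))) := by
    intro e he
    rcases G.fin_d e he with h2 | h2
    · exact mem_union_left _ (mem_sdiff.2 ⟨hRd6 he, h2⟩)
    · exact mem_union_right _ h2
  have d1 : Disjoint (RN Lo) (an r n \ bxs yo (300 * (s : ℤ))) := by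
    rw [Finset.disjoint_left]
    intro e he h2
    exact (mem_sdiff.1 h2).2 (G.start_o e he (mem_sdiff.1 (hFm h2)).2)
  have d2 : Disjoint (ud (RN Ld)) (an r n \ bxs yd (300 * (s : ℤ))) := by
    rw [Finset.disjoint_left]
    intro e he h2
    exact (mem_sdiff.1 h2).2 (G.start_d e he (mem_sdiff.1 (hFp h2)).2)
  have hrn : (r : ℤ) ≤ n := by omega
  have key := ext_rings hc hc1 h0 h1 hRB (E := bx n) (Fp := an r n \ bxs yd (300 * (s : ℤ)))
    (Fm := an r n \ bxs yo (300 * (s : ℤ))) (Lp := Lo) (Lm := Ld) (M := M) G.card_o G.card_d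
    (fun p hp => ⟨(G.rad_o p hp).1, (G.rad_o p hp).2.trans hrn⟩)
    (fun p hp => ⟨(G.rad_d p hp).1, (G.rad_d p hp).2.trans hrn⟩)
    (hFp.trans han) (hFm.trans han) hRo6 hRd6 d1 d2 G.disj
    (A := StG (bdP n) (nearT yo s)) (A' := StG (bdP n) (ringT (cO 2 (r / 3)) (rr 2 (r / 3))))
    (D := StG (bdD n) (nearT yd s)) (D' := StG (bdD n) (ringT (cD 2 (r / 3)) (rr 2 (r / 3))))
    (StG_inc (bdP_inc _) (nearT_inc _ _)) (StG_inc (bdD_inc _) (nearT_inc _ _))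
    (StG_inc (bdP_inc _) (ringT_inc _ _)) (StG_inc (bdD_inc _) (ringT_inc _ _))
    (DOutA_link G.link_o (fun η t ht i => by
      have h2 := DOutA_far (yo i) (t i)
      have h3 : nrm (t i) = n := ht i
      have h4 : nrm (yo i - t i) = nrm (t i - yo i) := by
        rw [← nrm_neg (yo i - t i), neg_sub]
      rw [hyo i, h4] at h2
      omega))
    (DOutA_link G.link_d (fun η t ht i => by
      have h2 := DOutA_far (yd i) (t i)
      have h3 := DOutA_bdD ht i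
      have h4 : nrm (yd i - t i) = nrm (t i - yd i) := by
        rw [← nrm_neg (yd i - t i), neg_sub]
      rw [hyd i, h4] at h2
      omega))
  have e1 : IPC.Pr q (an r n) (BS (an r n \ bxs yd (300 * (s : ℤ))) (an r n \ bxs yo (300 * (s : ℤ))) (bdP n) (bdD n) yo yd s) =
      IPC.Pr q (bx n) (StE (an r n \ bxs yd (300 * (s : ℤ))) (an r n \ bxs yo (300 * (s : ℤ)))
        (bdP n) (nearT yo s) (bdD n) (nearT yd s)) :=
    pr_StE q (bdP n) (nearT yo s) (bdD n) (nearT yd s) (union_subset hFp hFm) ((union_subset hFp hFm).trans han)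
  have e2 : IPC.Pr q (bx n) (StE ((an r n \ bxs yd (300 * (s : ℤ))) ∪ RN Lo)
      ((an r n \ bxs yo (300 * (s : ℤ))) ∪ ud (RN Ld)) (bdP n) (ringT (cO 2 (r / 3)) (rr 2 (r / 3)))
      (bdD n) (ringT (cD 2 (r / 3)) (rr 2 (r / 3)))) ≤ wI q (r / 3) n := by
    refine pr_StE_mono h0 h1 (bdP_inc _) (ringT_inc _ _) (bdD_inc _) (ringT_inc _ _) ?_ ?_
    · exact union_subset ((hFp.trans hcore).trans subset_union_left) hRo
    · exact union_subset ((hFm.trans hcore).trans subset_union_left) hRd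
  have e3 := le_trans key e2
  rw [e1, one_div, inv_mul_eq_div, le_div_iff₀ hcM]
  exact e3

/-- the gaps of four points in cyclic order -/
theorem cyc_small {zo zd : Fin 2 → V} {n r : ℕ} (hn : 1 ≤ n) (h : CycR zo zd n (30000 * r)) : 15000 * r ≤ n := by
  obtain ⟨θo, θd, -, -, h1, h2⟩ := h
  have a1 := (h1 0 0 le_rfl).1
  have a2 := (h2 1 0 (by decide)).1
  have a3 := (h1 1 1 le_rfl).1
  have a4 := (h1 0 1 (by decide)).2
  have hn' : (0 : ℝ) < ((n : ℤ) : ℝ) := by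
    exact_mod_cast hn
  have a5 : 4 * (((30000 * (r : ℤ) : ℤ) : ℝ) / ((n : ℤ) : ℝ)) ≤ 8 := by linarith
  have a6 : ((30000 * (r : ℤ) : ℤ) : ℝ) / ((n : ℤ) : ℝ) ≤ 2 := by linarith
  rw [div_le_iff₀ hn'] at a6
  have a7 : (30000 : ℝ) * r ≤ 2 * n := by
    push_cast at a6
    exact a6
  have a8 : (15000 : ℝ) * r ≤ n := by linarith
  exact_mod_cast a8

/-- separation and extension, bulk edge -/
theorem sep_out1 (hS : SepOut) (hR : RswIn) (hD : DualIn) : ∀ ε θ : ℝ, 0 < ε → 0 < θ → ∃ (k : ℕ) (C : ℝ), 0 < k ∧ 0 < C ∧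
    ∀ (q : ℝ) (n : ℕ), 0 ≤ q → q ≤ 1 → RS ε q n → k ≤ n → p4 q n ≤ C * wO q (3 * n) + θ * p4 q (n / 2) := by
  intro ε θ hε hθ
  obtain ⟨k, C, hk, hC, h1⟩ := hS ε θ hε hθ 300
  obtain ⟨c, hc, hc1, h2⟩ := rb_of_rs hR hD ε hε
  obtain ⟨C', hC', h3⟩ := out_ext hc hc1 k
  refine ⟨2 * k, C * C', by omega, by positivity, ?_⟩
  intro q n h0 hq1 hRS hn
  obtain ⟨zo, zd, h4, h5⟩ := h1 q n h0 hq1 hRS (by omega)
  have hr2 : 2 ≤ n / k := (Nat.le_div_iff_mul_le hk).2 hn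
  have hnk : n ≤ 2 * k * (n / k) := by
    have h6 := Nat.lt_mul_div_succ n hk
    have h7 : k * (n / k + 1) ≤ 2 * k * (n / k) := by
      have : k * (n / k + 1) ≤ k * (2 * (n / k)) := Nat.mul_le_mul_left _ (by omega)
      calc k * (n / k + 1) ≤ k * (2 * (n / k)) := this
        _ = 2 * k * (n / k) := by ring
    omega
  have h4' : CycR zo zd n (30000 * (n / k : ℕ)) := by
    have e1 : (100 * ((300 : ℕ) : ℤ) * ((n / k : ℕ) : ℤ)) = 30000 * ((n / k : ℕ) : ℤ) := by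
      norm_num
    rw [← e1]
    exact h4
  have h6 := h3 q n (n / k) zo zd h0 hq1 (h2 q n h0 hq1 hRS) hr2 (cyc_small (by omega) h4') hnk h4'
  have h5' : p4 q n ≤ C * IPC.Pr q (bx n) (BS ((bx n \ {e0}) \ bxs zd (300 * ((n / k : ℕ) : ℤ)))
      ((bx n \ {e0}) \ bxs zo (300 * ((n / k : ℕ) : ℤ))) SeP SeD zo zd (n / k : ℕ)) + θ * p4 q (n / 2) := by
    exact_mod_cast h5
  calc p4 q n ≤ _ := h5'
    _ ≤ C * (C' * wO q (3 * n)) + θ * p4 q (n / 2) := by
        have h7 := mul_le_mul_of_nonneg_left h6 hC.le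
        linarith
    _ = C * C' * wO q (3 * n) + θ * p4 q (n / 2) := by ring

/-- separation and extension, annulus -/
theorem sep_inn1 (hS : SepInn) (hR : RswIn) (hD : DualIn) : ∀ ε θ : ℝ, 0 < ε → 0 < θ → ∃ (k : ℕ) (C : ℝ), 0 < k ∧ 0 < C ∧
    ∀ (q : ℝ) (r n : ℕ), 0 ≤ q → q ≤ 1 → RS ε q n → k ≤ r → 8 * r ≤ n →
      p4' q r n ≤ C * wI q (r / 3) n + θ * p4' q (2 * r) n := by
  intro ε θ hε hθ
  obtain ⟨k, C, hk, hC, h1⟩ := hS ε θ hε hθ 300
  obtain ⟨c, hc, hc1, h2⟩ := rb_of_rs hR hD ε hε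
  obtain ⟨C', hC', h3⟩ := inn_ext hc hc1 k
  refine ⟨2 * k, C * C', by omega, by positivity, ?_⟩
  intro q r n h0 hq1 hRS hr hn
  obtain ⟨yo, yd, h4, h5⟩ := h1 q r n h0 hq1 hRS (by omega) hn
  have hr2 : 2 ≤ r / k := (Nat.le_div_iff_mul_le hk).2 hr
  have hnk : r ≤ 2 * k * (r / k) := by
    have h6 := Nat.lt_mul_div_succ r hk
    have h7 : k * (r / k + 1) ≤ 2 * k * (r / k) := by
      have : k * (r / k + 1) ≤ k * (2 * (r / k)) := Nat.mul_le_mul_left _ (by omega)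
      calc k * (r / k + 1) ≤ k * (2 * (r / k)) := this
        _ = 2 * k * (r / k) := by ring
    omega
  have h4' : CycR yo yd r (30000 * (r / k : ℕ)) := by
    have e1 : (100 * ((300 : ℕ) : ℤ) * ((r / k : ℕ) : ℤ)) = 30000 * ((r / k : ℕ) : ℤ) := by
      norm_num
    rw [← e1]
    exact h4
  have h6 := h3 q (r / k) r n yo yd h0 hq1 (h2 q n h0 hq1 hRS) hr2 (cyc_small (by omega) h4') hnk hn h4'
  have h5' : p4' q r n ≤ C * IPC.Pr q (an r n) (BS (an r n \ bxs yd (300 * ((r / k : ℕ) : ℤ)))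
      (an r n \ bxs yo (300 * ((r / k : ℕ) : ℤ))) (bdP n) (bdD n) yo yd (r / k : ℕ)) + θ * p4' q (2 * r) n := by
    exact_mod_cast h5
  calc p4' q r n ≤ _ := h5'
    _ ≤ C * (C' * wI q (r / 3) n) + θ * p4' q (2 * r) n := by
        have h7 := mul_le_mul_of_nonneg_left h6 hC.le
        linarith
    _ = C * C' * wI q (r / 3) n + θ * p4' q (2 * r) n := by ring

end FKN
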