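import Pool.Agent.Lib.MP_216314_pr.N.E3D

/-!
# Probabilities: from the four arms around the cylinder to the event of the exact law

PROOFS. `pr_flip`: `Pr E A = card (filter A powerset) / 2 ^ card E` (`pproba_eq`). The map `ω ↦ if e ∈ ω then ω.erase e else insert e ω` is a bijection of `E.powerset` (`e ∈ E`) which preserves `A` and exchanges `e ∈ ω` and `e ∉ ω`; so both halves of
`filter A` have the same number of elements (`Finset.card_bij'` / `card_nbij'` between the filters by `A ω ∧ e ∈ ω` and `A ω ∧ e ∉ ω`), and they are complementary in `filter A` (`Finset.filter_and`, `Finset.card_filter_add_card_filter_not`-type lemma).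
`t4_flip`: `SP n ω e` and `SD n m ω f` do not depend on the membership of `e0` in `ω`, because `red n e ≠ e0` (`mem_insert`, `mem_erase`); so `lg` is the same graph: `SP n (insert e0 ω) = SP n ω` (funext, propext), etc.
`pr_T4_le`: `Pr E3T4 ≤ Pr (E3T4 ∧ bc ∈ ω) + Pr (E3T4 ∧ bc ∉ ω)` (`Pr_or_le` and `Pr_mono`). `E3T4 ∧ bc ∈ ω` is invariant (`bc ≠ e0`), so `Pr (E3T4 ∧ bc ∈ ω) = 2 Pr (.. ∧ e0 ∉ ω) ≤ 2 Pr (Wr 0)` by `t4_w0` (`Pr_mono` gives `ω ⊆ cylE n m`); the same with `t4_w1` for the second.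
`e0 ∈ cylE n m`: `mem_cylE` (`1 ≤ n`, `1 ≤ m`).
-/

set_option autoImplicit false

noncomputable section

namespace CY

open Finset FKI FKP FKN

/-- half of the probability of an event which does not depend on the edge `e` -/
theorem pr_flip {E : Finset Edge} {e : Edge} (he : e ∈ E) {A : Finset Edge → Prop}
    (hA : ∀ ω, (A (insert e ω) ↔ A ω) ∧ (A (ω.erase e) ↔ A ω)) :
    Pr E A = 2 * Pr E (fun ω => A ω ∧ e ∈ ω) ∧ Pr E A = 2 * Pr E (fun ω => A ω ∧ e ∉ ω) := by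
  classical
  have hsum : (E.powerset.filter (fun ω => A ω ∧ e ∈ ω)).card + (E.powerset.filter (fun ω => A ω ∧ e ∉ ω)).card =
      (E.powerset.filter A).card := by
    have h1 := Finset.card_filter_add_card_filter_not (s := E.powerset.filter A) (fun ω => e ∈ ω)
    rw [Finset.filter_filter, Finset.filter_filter] at h1
    exact h1
  have heq : (E.powerset.filter (fun ω => A ω ∧ e ∈ ω)).card = (E.powerset.filter (fun ω => A ω ∧ e ∉ ω)).card := by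
    refine Finset.card_nbij' (fun ω => ω.erase e) (fun ω => insert e ω) ?_ ?_ ?_ ?_
    · intro ω hω
      have h1 := Finset.mem_filter.1 (Finset.mem_coe.1 hω)
      refine Finset.mem_coe.2 (Finset.mem_filter.2 ⟨?_, (hA ω).2.2 h1.2.1, Finset.notMem_erase e ω⟩)
      exact Finset.mem_powerset.2 ((Finset.erase_subset _ _).trans (Finset.mem_powerset.1 h1.1))
    · intro ω hω
      have h1 := Finset.mem_filter.1 (Finset.mem_coe.1 hω)
      refine Finset.mem_coe.2 (Finset.mem_filter.2 ⟨?_, (hA ω).1.2 h1.2.1, Finset.mem_insert_self e ω⟩)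
      exact Finset.mem_powerset.2 (Finset.insert_subset he (Finset.mem_powerset.1 h1.1))
    · intro ω hω
      have h1 := Finset.mem_filter.1 (Finset.mem_coe.1 hω)
      exact Finset.insert_erase h1.2.2
    · intro ω hω
      have h1 := Finset.mem_filter.1 (Finset.mem_coe.1 hω)
      exact Finset.erase_insert h1.2.2
  have h0 : Pr E (fun ω => A ω ∧ e ∈ ω) = Pr E (fun ω => A ω ∧ e ∉ ω) := by
    rw [pproba_eq, pproba_eq, heq]
  have h1 : Pr E A = Pr E (fun ω => A ω ∧ e ∈ ω) + Pr E (fun ω => A ω ∧ e ∉ ω) := by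
    rw [pproba_eq, pproba_eq, pproba_eq, ← add_div, ← hsum]
    push_cast
    rfl
  constructor
  · rw [h1, ← h0]
    ring
  · rw [h1, h0]
    ring

theorem t4_flip (n m : ℕ) (ω : Finset Edge) : (E3T4 n m (insert e0 ω) ↔ E3T4 n m ω) ∧ (E3T4 n m (ω.erase e0) ↔ E3T4 n m ω) := by
  have h1 : SP n (insert e0 ω) = SP n ω := by
    funext e
    refine propext ⟨fun h => ⟨(Finset.mem_insert.1 h.1).resolve_left h.2, h.2⟩,
      fun h => ⟨Finset.mem_insert_of_mem h.1, h.2⟩⟩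
  have h2 : SP n (ω.erase e0) = SP n ω := by
    funext e
    refine propext ⟨fun h => ⟨Finset.mem_of_mem_erase h.1, h.2⟩, fun h => ⟨Finset.mem_erase.2 ⟨h.2, h.1⟩, h.2⟩⟩
  have h3 : SD n m (insert e0 ω) = SD n m ω := by
    funext e
    refine propext ⟨fun h => ⟨h.1, fun h' => h.2.1 (Finset.mem_insert_of_mem h'), h.2.2⟩,
      fun h => ⟨h.1, fun h' => h.2.1 ((Finset.mem_insert.1 h').resolve_left h.2.2), h.2.2⟩⟩
  have h4 : SD n m (ω.erase e0) = SD n m ω := by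
    funext e
    refine propext ⟨fun h => ⟨h.1, fun h' => h.2.1 (Finset.mem_erase.2 ⟨h.2.2, h'⟩), h.2.2⟩,
      fun h => ⟨h.1, fun h' => h.2.1 (Finset.mem_of_mem_erase h'), h.2.2⟩⟩
  unfold E3T4
  rw [h1, h2, h3, h4]
  exact ⟨Iff.rfl, Iff.rfl⟩

theorem pr_T4_le {n m : ℕ} (hn : 2 ≤ n) (hm : 1 ≤ m) (α : Pat (2 * n)) :
    Pr (cylE n m) (E3T4 n m) ≤ 2 * (Pr (cylE n m) (Wr n m 0 α) + Pr (cylE n m) (Wr n m 1 α)) := by
  have hbc : bc ≠ e0 := by
    intro h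
    have h1 := congrArg (fun e : Edge => e.2.2) h
    exact Bool.noConfusion h1
  have he : e0 ∈ cylE n m := by
    rw [mem_cylE]
    refine ⟨?_, ?_, ?_, ?_⟩ <;> simp only [e0] <;> omega
  have hf1 : ∀ ω, ((E3T4 n m (insert e0 ω) ∧ bc ∈ insert e0 ω) ↔ (E3T4 n m ω ∧ bc ∈ ω)) ∧
      ((E3T4 n m (ω.erase e0) ∧ bc ∈ ω.erase e0) ↔ (E3T4 n m ω ∧ bc ∈ ω)) := by
    intro ω
    rw [(t4_flip n m ω).1, (t4_flip n m ω).2, Finset.mem_insert, Finset.mem_erase]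
    exact ⟨⟨fun h => ⟨h.1, h.2.resolve_left hbc⟩, fun h => ⟨h.1, Or.inr h.2⟩⟩,
      ⟨fun h => ⟨h.1, h.2.2⟩, fun h => ⟨h.1, hbc, h.2⟩⟩⟩
  have hf2 : ∀ ω, ((E3T4 n m (insert e0 ω) ∧ bc ∉ insert e0 ω) ↔ (E3T4 n m ω ∧ bc ∉ ω)) ∧
      ((E3T4 n m (ω.erase e0) ∧ bc ∉ ω.erase e0) ↔ (E3T4 n m ω ∧ bc ∉ ω)) := by
    intro ω
    rw [(t4_flip n m ω).1, (t4_flip n m ω).2, Finset.mem_insert, Finset.mem_erase]
    exact ⟨⟨fun h => ⟨h.1, fun h' => h.2 (Or.inr h')⟩, fun h => ⟨h.1, fun h' => h.2 (h'.resolve_left hbc)⟩⟩,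
      ⟨fun h => ⟨h.1, fun h' => h.2 ⟨hbc, h'⟩⟩, fun h => ⟨h.1, fun h' => h.2 h'.2⟩⟩⟩
  have h1 : Pr (cylE n m) (E3T4 n m) ≤ Pr (cylE n m) (fun ω => E3T4 n m ω ∧ bc ∈ ω) +
      Pr (cylE n m) (fun ω => E3T4 n m ω ∧ bc ∉ ω) := by
    refine le_trans (Pr_mono fun ω _ h => ?_) (Pr_or_le _ _ _)
    by_cases hb : bc ∈ ω
    · exact Or.inl ⟨h, hb⟩
    · exact Or.inr ⟨h, hb⟩
  have h2 := (pr_flip (A := fun ω => E3T4 n m ω ∧ bc ∈ ω) he hf1).2
  have h3 := (pr_flip (A := fun ω => E3T4 n m ω ∧ bc ∉ ω) he hf2).1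
  have h4 : Pr (cylE n m) (fun ω => (E3T4 n m ω ∧ bc ∈ ω) ∧ e0 ∉ ω) ≤ Pr (cylE n m) (Wr n m 0 α) :=
    Pr_mono fun ω hω h => t4_w0 hn hm hω h.2 h.1.2 h.1.1
  have h5 : Pr (cylE n m) (fun ω => (E3T4 n m ω ∧ bc ∉ ω) ∧ e0 ∈ ω) ≤ Pr (cylE n m) (Wr n m 1 α) :=
    Pr_mono fun ω hω h => t4_w1 hn hm hω h.2 h.1.2 h.1.1
  linarith

end CY
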