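import Pool.Agent.Lib.MP_216314_pr.N.EHv

/-!
# Two clusters at the distance of a diagonal and two clusters at an edge

`a = (0,0)`, `b = (1,0)`, `c = (1,-1)`, `e0 = (0,0,false) = ab`, `bc = (1,-1,true)`. All connections are in `bx k = [-k,k]²`. (`FKN.nrm v = sn v` and
`FKN.bx k = bx k` hold by `rfl`.)

* `four_anti`: `FKN.Four s ω → FKN.Four r ω` for `1 ≤ r ≤ s`: the first hitting of `sn = r` (`first_hit`, as in `SA_of_reach`) by the path from `(0,0)`, and from
  `(1,0)` (`sn (1,0) = 1 ≤ r`), in `bx s \ {e0}`; and `¬ Conn (bx s \ {e0})` gives `¬ Conn (bx r \ {e0})` (`Conn.mono`, `bx_mono`).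
* `p4_anti`: from this with `Pr_mono` and `Dep` (`Pr_dep`: the event `FKN.Four r` depends on `bx r` only); `FKN.pr_half` changes between `FKP.Pr E A` and `FKN.p4 (1/2)`.
* `S4_cases`: for `ω ⊆ bx k` with `S4 k ω` (`2 ≤ k`) one of (i) `Conn (bx k) ω a b`, (ii) `Conn (bx k) ω b c`, (iii) neither.
  (ii) then `FKN.Four k ω`: `a` reaches distance `k` and the edge `e0` is not used, since `e0 ∉ ω` (if `e0 ∈ ω` then `a`, `b`, `c` are connected);
  `b` reaches distance `k` through `c`; `a`, `b` are not connected (else `a`, `c` are).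
  (iii) then `bc ∉ ω`, `e0 ∉ ω` and `FKN.Four k (insert bc ω)`: the cluster of `a` is the same in `ω` and `insert bc ω` (an open path from `a` using the edge `bc` would
  have reached `b` or `c` before: show `Conn (bx k) (insert bc ω) a v → Conn (bx k) ω a v` by induction on the walk), `b` reaches distance `k` via `bc`.
  (i) then `bc ∉ ω` (else `a`, `c` are connected) and `b`, `c` both reach distance `k` and are not connected: `FourV k ω`.
* `S4_le`: `Pr (S4) ≤ Pr (i) + Pr (ii) + Pr (iii)`; (i) `fourV_le`; (ii), (iii): `FKN.p4 (1/2) k ≤ FKN.p4 (1/2) (k - 1)`; for (iii) the map `ω ↦ insert bc ω` is injective on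
  configurations without `bc` into configurations (subsets of `bx k`) with `FKN.Four k`, and `Pr` is a uniform measure (`Pr` = card of a filter / 2 ^ card), so
  `Pr (iii) ≤ FKN.p4 (1/2) k`.
-/

set_option autoImplicit false

noncomputable section

namespace CY

open Finset FKI FKP

theorem EH_mem {k : ℕ} {e : Edge} (h1 : sn (ea e) ≤ k) (h2 : sn (eb e) ≤ k) : e ∈ bx k := by
  have habs : ∀ a : FKI.V, sn a ≤ k → -(k : ℤ) ≤ a.1 ∧ a.1 ≤ k ∧ -(k : ℤ) ≤ a.2 ∧ a.2 ≤ k := by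
    intro a ha
    unfold sn at ha
    have h1 := abs_le.1 ((le_max_left _ _).trans ha)
    have h2 := abs_le.1 ((le_max_right _ _).trans ha)
    exact ⟨h1.1, h1.2, h2.1, h2.2⟩
  have h3 := habs _ h1
  have h4 := habs _ h2
  obtain ⟨x, y, t⟩ := e
  unfold bx
  rw [mem_box]
  cases t
  · simp only [ea, eb, Bool.false_eq_true, if_false] at h3 h4
    left
    refine ⟨rfl, ?_⟩
    simp only
    omega
  · simp only [ea, eb, if_true] at h3 h4
    right
    refine ⟨rfl, ?_⟩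
    simp only
    omega

theorem EH_hit {r s : ℕ} {ω : Finset Edge} {a u : FKI.V} (ha : sn a ≤ r) (hrs : (r : ℤ) ≤ s)
    (hu : FKN.nrm u = s) (hc : Conn (bx s \ {FKN.e0}) ω a u) :
    ∃ w : FKI.V, FKN.nrm w = r ∧ Conn (bx r \ {FKN.e0}) ω a w := by
  have hb : (r : ℤ) ≤ sn u := by
    have h1 : sn u = s := hu
    rw [h1]
    exact hrs
  obtain ⟨c, h1, -, h3⟩ := first_hit (F := bx s \ {FKN.e0}) (ω := ω) sn (fun e _ => sn_edge e) ha hb hc
  refine ⟨c, h1, h3.mono ?_ (Finset.Subset.refl _)⟩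
  intro e he
  rw [mem_filter, mem_sdiff] at he
  rw [mem_sdiff]
  exact ⟨EH_mem he.2.1 he.2.2, he.1.2⟩

theorem EH_dep (r : ℕ) : Dep (bx r) (FKN.Four r) := by
  intro ω
  have hF : FKN.bx r \ {FKN.e0} ⊆ bx r := Finset.sdiff_subset
  unfold FKN.Four
  constructor
  · rintro ⟨⟨u, hu, hcu⟩, ⟨v, hv, hcv⟩, hn⟩
    exact ⟨⟨u, hu, (dep_Conn hF _ _ ω).1 hcu⟩, ⟨v, hv, (dep_Conn hF _ _ ω).1 hcv⟩,
      fun h => hn ((dep_Conn hF _ _ ω).2 h)⟩
  · rintro ⟨⟨u, hu, hcu⟩, ⟨v, hv, hcv⟩, hn⟩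
    exact ⟨⟨u, hu, (dep_Conn hF _ _ ω).2 hcu⟩, ⟨v, hv, (dep_Conn hF _ _ ω).2 hcv⟩,
      fun h => hn ((dep_Conn hF _ _ ω).1 h)⟩

theorem EH_p4 (r : ℕ) : FKN.p4 (1 / 2) r = Pr (bx r) (FKN.Four r) := by
  rw [FKN.pr_half]
  rfl

/-- without an absent edge -/
theorem EH_erase {F ω : Finset Edge} {e : Edge} (he : e ∉ ω) {u v : FKI.V} (h : Conn F ω u v) :
    Conn (F \ {e}) ω u v := by
  unfold Conn at h ⊢
  have h1 : ω ∩ (F \ {e}) = ω ∩ F := by
    ext x
    rw [mem_inter, mem_inter, mem_sdiff, mem_singleton]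
    constructor
    · rintro ⟨h1, h2, -⟩
      exact ⟨h1, h2⟩
    · rintro ⟨h1, h2⟩
      refine ⟨h1, h2, ?_⟩
      rintro rfl
      exact he h1
  rw [h1]
  exact h

/-- an edge which does not touch the cluster of `a` does not change it -/
theorem EH_ins {F ω : Finset Edge} {e : Edge} {a : FKI.V} (h1 : ¬ Conn F ω a (ea e))
    (h2 : ¬ Conn F ω a (eb e)) {u v : FKI.V} (hu : Conn F ω a u) (h : Conn F (insert e ω) u v) :
    Conn F ω a v := by
  obtain ⟨p⟩ := h
  induction p with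
  | nil => exact hu
  | @cons u v w hadj p ih =>
    obtain ⟨e', he, hends⟩ := pexit_adj hadj
    rw [mem_inter, mem_insert] at he
    refine ih ?_
    rcases he.1 with h3 | h3
    · exfalso
      rw [h3] at hends
      rcases hends with ⟨h4, -⟩ | ⟨-, h4⟩
      · rw [← h4] at hu
        exact h1 hu
      · rw [← h4] at hu
        exact h2 hu
    · exact hu.trans (pexit_edge he.2 h3 hends)

theorem EH_ins_le (k : ℕ) (e : Edge) (he : e ∈ bx k) (A : Finset Edge → Prop) :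
    Pr (bx k) (fun ω => e ∉ ω ∧ A (insert e ω)) ≤ Pr (bx k) A := by
  classical
  rw [pproba_eq, pproba_eq]
  refine div_le_div_of_nonneg_right ?_ (by positivity)
  have h1 : ((bx k).powerset.filter (fun ω => e ∉ ω ∧ A (insert e ω))).card ≤
      ((bx k).powerset.filter A).card := by
    refine Finset.card_le_card_of_injOn (fun ω => insert e ω) ?_ ?_
    · intro ω hω
      rw [Finset.mem_coe, Finset.mem_filter, Finset.mem_powerset] at hω ⊢
      exact ⟨Finset.insert_subset he hω.1, hω.2.2⟩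
    · intro ω hω ω' hω' h
      rw [Finset.mem_coe, Finset.mem_filter] at hω hω'
      have h2 : (insert e ω).erase e = (insert e ω').erase e := congrArg (fun x => Finset.erase x e) h
      rwa [Finset.erase_insert hω.2.1, Finset.erase_insert hω'.2.1] at h2
  exact_mod_cast h1

theorem four_anti {r s : ℕ} (hr : 1 ≤ r) (hrs : r ≤ s) {ω : Finset Edge} (h : FKN.Four s ω) : FKN.Four r ω := by
  obtain ⟨⟨u, hu, hcu⟩, ⟨v, hv, hcv⟩, hn⟩ := h
  have hr1 : (1 : ℤ) ≤ r := by exact_mod_cast hr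
  have hrs1 : (r : ℤ) ≤ s := by exact_mod_cast hrs
  refine ⟨EH_hit (by unfold sn; simp) hrs1 hu hcu, EH_hit (by unfold sn; simpa using hr1) hrs1 hv hcv, ?_⟩
  intro hc
  apply hn
  refine hc.mono ?_ (Finset.Subset.refl _)
  exact Finset.sdiff_subset_sdiff (bx_mono hrs) (Finset.Subset.refl _)

theorem p4_anti {r s : ℕ} (hr : 1 ≤ r) (hrs : r ≤ s) : FKN.p4 (1 / 2) s ≤ FKN.p4 (1 / 2) r := by
  rw [EH_p4, EH_p4, ← Pr_dep (bx_mono hrs) (EH_dep r)]
  exact Pr_mono fun ω _ h => four_anti hr hrs h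

theorem S4_cases {k : ℕ} (hk : 2 ≤ k) {ω : Finset Edge} (hω : ω ⊆ bx k) (h : S4 k ω) :
    FourV k ω ∨ FKN.Four k ω ∨ ((1, -1, true) ∉ ω ∧ FKN.Four k (insert (1, -1, true) ω)) := by
  obtain ⟨⟨u, hu, hcu⟩, ⟨v, hv, hcv⟩, hn⟩ := h
  have hk1 : (2 : ℤ) ≤ k := by exact_mod_cast hk
  have hbcm : ((1, -1, true) : Edge) ∈ bx k := by
    unfold bx
    rw [mem_box]
    right
    refine ⟨rfl, ?_⟩
    simp only
    omega
  have he0m : FKN.e0 ∈ bx k := by
    unfold bx FKN.e0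
    rw [mem_box]
    left
    refine ⟨rfl, ?_⟩
    simp only
    omega
  have hbc : ((1, -1, true) : Edge) ∈ ω → Conn (bx k) ω (1, 0) (1, -1) := fun h =>
    pexit_edge hbcm h (Or.inr ⟨rfl, rfl⟩)
  have hab : FKN.e0 ∈ ω → Conn (bx k) ω (0, 0) (1, 0) := fun h =>
    pexit_edge he0m h (Or.inl ⟨rfl, rfl⟩)
  by_cases h1 : Conn (bx k) ω (0, 0) (1, 0)
  · left
    have h2 : ((1, -1, true) : Edge) ∉ ω := fun h3 => hn (h1.trans (hbc h3))
    refine ⟨⟨v, hv, EH_erase h2 hcv⟩, ⟨u, hu, EH_erase h2 (h1.symm.trans hcu)⟩, ?_⟩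
    intro h3
    exact hn (h1.trans (h3.mono Finset.sdiff_subset (Finset.Subset.refl _)).symm)
  · right
    have h2 : FKN.e0 ∉ ω := fun h3 => h1 (hab h3)
    by_cases h3 : Conn (bx k) ω (1, 0) (1, -1)
    · left
      refine ⟨⟨u, hu, EH_erase h2 hcu⟩, ⟨v, hv, EH_erase h2 (h3.trans hcv)⟩, ?_⟩
      intro h4
      exact h1 (h4.mono Finset.sdiff_subset (Finset.Subset.refl _))
    · right
      have h4 : ((1, -1, true) : Edge) ∉ ω := fun h5 => h3 (hbc h5)
      have h5 : FKN.e0 ∉ insert ((1, -1, true) : Edge) ω := by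
        rw [mem_insert, not_or]
        refine ⟨?_, h2⟩
        unfold FKN.e0
        simp
      refine ⟨h4, ⟨u, hu, EH_erase h5 (hcu.mono (Finset.Subset.refl _) (Finset.subset_insert _ _))⟩,
        ⟨v, hv, EH_erase h5 (Conn.trans (v := (1, -1)) ?_
          (hcv.mono (Finset.Subset.refl _) (Finset.subset_insert _ _)))⟩, ?_⟩
      · exact pexit_edge hbcm (mem_insert_self _ _) (Or.inr ⟨rfl, rfl⟩)
      · intro h6
        have h7 := h6.mono (Finset.sdiff_subset : FKN.bx k \ {FKN.e0} ⊆ bx k) (Finset.Subset.refl _)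
        exact h1 (EH_ins (e := (1, -1, true)) (a := (0, 0)) hn h1 (Conn.refl _ _ _) h7)

theorem S4_le {k : ℕ} (hk : 2 ≤ k) : Pr (bx k) (S4 k) ≤ 3 * FKN.p4 (1 / 2) (k - 1) := by
  have hk1 : (2 : ℤ) ≤ k := by exact_mod_cast hk
  have hbcm : ((1, -1, true) : Edge) ∈ bx k := by
    unfold bx
    rw [mem_box]
    right
    refine ⟨rfl, ?_⟩
    simp only
    omega
  have h1 : Pr (bx k) (S4 k) ≤ Pr (bx k) (fun ω => FourV k ω ∨ (FKN.Four k ω ∨
      ((1, -1, true) ∉ ω ∧ FKN.Four k (insert (1, -1, true) ω)))) :=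
    Pr_mono fun ω hω h => S4_cases hk hω h
  have h2 := Pr_or_le (bx k) (FourV k) (fun ω => FKN.Four k ω ∨
      ((1, -1, true) ∉ ω ∧ FKN.Four k (insert (1, -1, true) ω)))
  have h3 := Pr_or_le (bx k) (FKN.Four k) (fun ω => (1, -1, true) ∉ ω ∧ FKN.Four k (insert (1, -1, true) ω))
  have h4 := EH_ins_le k (1, -1, true) hbcm (FKN.Four k)
  have h5 := fourV_le hk
  have h6 : FKN.p4 (1 / 2) k ≤ FKN.p4 (1 / 2) (k - 1) := p4_anti (by omega) (by omega)
  rw [EH_p4 k] at h6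
  linarith

end CY
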