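import Pool.Agent.Lib.MP_216314_pr.N.E3G
import Pool.Agent.Lib.MP_216314_pr.N.EG
import Pool.Agent.Lib.MP_216314_pr.N.EH

/-!
# Lower bound for the four arm probability

PROOF. `c0`, `C0` from `four_lim`. Let `r ≥ 1`, `k = r + 1`, `n = 2 * k + 1`, `R` the limit for `n`, `α` any pattern (`exists_ref`, as in `one_arm`, K/KEnd). For `m ≥ n`: `Pr (cylE n m) (Wr n m 0 α) = Pr (cylE n m) (W4 n m α) ≤ Pr (bx k) (S4 k) ≤ 3 * p4 (1/2) r` (`Wr n m 0 α ω` is `W4 n m α ω` by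
definition, `Iff.rfl`; `Pr_W4_le`, `S4_le`, `k - 1 = r`). So `R ≤ 3 * p4 (1/2) r` (`le_of_tendsto`, eventually), and `c0 * n ^ (-5/4) ≤ R`; `n = 2 r + 3 ≤ 5 r`, so `n ^ (-5/4) ≥ (5 r) ^ (-5/4) = 5 ^ (-5/4) * r ^ (-5/4)` (`Real.rpow_le_rpow_of_nonpos`,
`Real.mul_rpow`). Constant `c = c0 * 5 ^ (-5/4) / 3`.
-/

set_option autoImplicit false

noncomputable section

namespace CY

open Finset FKI FKP Filter Topology

theorem p4_ge : ∃ c : ℝ, 0 < c ∧ ∀ r : ℕ, 1 ≤ r → c * (r : ℝ) ^ (-(5 / 4) : ℝ) ≤ FKN.p4 (1 / 2) r := by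
  obtain ⟨c0, C0, hc0, hC0, hlim⟩ := four_lim
  refine ⟨c0 * (5 : ℝ) ^ (-(5 / 4) : ℝ) / 3, by positivity, ?_⟩
  intro r hr
  obtain ⟨R, hR1, -, hR3⟩ := hlim (2 * (r + 1) + 1) (by omega)
  obtain ⟨α, _⟩ := exists_ref (L := 2 * (2 * (r + 1) + 1)) (even_two_mul _) (by omega)
  have h1 : R ≤ 3 * FKN.p4 (1 / 2) r := by
    refine le_of_tendsto (hR3 α 0) ?_
    filter_upwards [eventually_ge_atTop (2 * (r + 1) + 1)] with m hm
    have h2 : Pr (cylE (2 * (r + 1) + 1) m) (Wr (2 * (r + 1) + 1) m 0 α) =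
        Pr (cylE (2 * (r + 1) + 1) m) (W4 (2 * (r + 1) + 1) m α) := Pr_congr fun ω _ => Iff.rfl
    rw [h2]
    refine (Pr_W4_le hm (k := r + 1) (by omega) (by omega) α).trans ?_
    have h3 := S4_le (k := r + 1) (by omega)
    rw [Nat.add_sub_cancel] at h3
    exact h3
  have hr0 : (0 : ℝ) < (r : ℝ) := by exact_mod_cast hr
  have h2 : (5 : ℝ) ^ (-(5 / 4) : ℝ) * (r : ℝ) ^ (-(5 / 4) : ℝ) ≤ ((2 * (r + 1) + 1 : ℕ) : ℝ) ^ (-(5 / 4) : ℝ) := by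
    rw [← Real.mul_rpow (by norm_num) hr0.le]
    refine Real.rpow_le_rpow_of_nonpos (by positivity) ?_ (by norm_num)
    push_cast
    have h3 : (1 : ℝ) ≤ r := by exact_mod_cast hr
    linarith
  have h3 := mul_le_mul_of_nonneg_left h2 hc0.le
  calc c0 * (5 : ℝ) ^ (-(5 / 4) : ℝ) / 3 * (r : ℝ) ^ (-(5 / 4) : ℝ)
      = c0 * ((5 : ℝ) ^ (-(5 / 4) : ℝ) * (r : ℝ) ^ (-(5 / 4) : ℝ)) / 3 := by ring
    _ ≤ R / 3 := by linarith
    _ ≤ FKN.p4 (1 / 2) r := by linarith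

end CY
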