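import Pool.Agent.Lib.MP_216314_pr.N.E3S
import Pool.Agent.Lib.MP_216314_pr.N.E3E
import Pool.Agent.Lib.MP_216314_pr.N.E3H
import Pool.Agent.Lib.MP_216314_pr.N.GL
import Pool.Agent.Lib.MP_216314_pr.N.DOutA

/-!
# The four arm exponent `5/4` at `q = 1/2`

PROOFS. `wO_le`: `C1` from `wO_T4`, `c0`, `C0` from `four_lim` (E3G). Let `n ≥ 400`, `N = 20 n`, `R` the limit for `N`, `α` any pattern (`exists_ref`, as in `one_arm`, K/KEnd). For `m ≥ N`: `wO (1/2) n ≤ C1 * Pr (cylE N m) (E3T4 N m) ≤ 2 C1 (Pr (Wr N m 0 α) + Pr (Wr N m 1 α))` (`pr_T4_le`); `m → ∞`: `wO (1/2) n ≤ 4 C1 R`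
(`ge_of_tendsto` with `Tendsto.add`, `Tendsto.const_mul`, eventually) `≤ 4 C1 C0 (20 n) ^ (-5/4) ≤ 4 C1 C0 n ^ (-5/4)`. For `n < 400`: `wO ≤ 1` (`pq_le_one`) `≤ 400 ^ (5/4) n ^ (-5/4)`.
`rec_bound`: induction on `n` (`Nat.strong_induction_on`): `D = max (2 * C) (k ^ (5/4) * B)`-type constant, `B` a bound of `f` (`f ≤ 1`): for `n < k` (or `n = 1`): `f n ≤ 1 ≤ k ^ (5/4) n ^ (-5/4)`; for `n ≥ max k 2`: `n / 2 ≥ n / 3` (real: `((n / 2 : ℕ) : ℝ) ≥ n / 3` for `n ≥ 2`), so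
`f n ≤ C n ^ (-5/4) + (1/8) D (n / 3) ^ (-5/4)`, `3 ^ (5/4) ≤ 4` (`3 ^ 5 = 243 ≤ 256 = 4 ^ 4`), so `≤ (C + D / 2) n ^ (-5/4) ≤ D n ^ (-5/4)`.
`p4half`: lower bound `CY.p4_ge` (E3H). Upper bound: `sep_out1` (DOutA) with `rswIn` (GL), `dualIn` (GD), `ε` from `rsc_half` (E3P), `θ = 1/8`: `p4 (1/2) n ≤ C wO (1/2) (3 n) + (1/8) p4 (1/2) (n / 2)` for `n ≥ k`; `wO_le`: `wO (1/2) (3 n) ≤ C' (3 n) ^ (-5/4) ≤ C' n ^ (-5/4)`; `rec_bound` for `f n = p4 (1/2) n` (`0 ≤ f n ≤ 1`).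
-/

set_option autoImplicit false

noncomputable section

namespace FKN

open Finset FKI FKP

private theorem E3T_one {n K : ℕ} (hn : 1 ≤ n) (hK : n ≤ K) :
    1 ≤ (K : ℝ) ^ (5 / 4 : ℝ) * (n : ℝ) ^ (-(5 / 4) : ℝ) := by
  have hn0 : (0 : ℝ) < n := by exact_mod_cast hn
  have hnK : (n : ℝ) ≤ K := by exact_mod_cast hK
  have h1 : (n : ℝ) ^ (5 / 4 : ℝ) ≤ (K : ℝ) ^ (5 / 4 : ℝ) :=
    Real.rpow_le_rpow hn0.le hnK (by norm_num)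
  have h2 : (0 : ℝ) < (n : ℝ) ^ (-(5 / 4) : ℝ) := Real.rpow_pos_of_pos hn0 _
  have h3 : (n : ℝ) ^ (5 / 4 : ℝ) * (n : ℝ) ^ (-(5 / 4) : ℝ) = 1 := by
    rw [← Real.rpow_add hn0]
    norm_num
  calc (1 : ℝ) = (n : ℝ) ^ (5 / 4 : ℝ) * (n : ℝ) ^ (-(5 / 4) : ℝ) := h3.symm
    _ ≤ _ := mul_le_mul_of_nonneg_right h1 h2.le

private theorem E3T_anti {a b : ℕ} (ha : 1 ≤ a) (hab : a ≤ b) :
    (b : ℝ) ^ (-(5 / 4) : ℝ) ≤ (a : ℝ) ^ (-(5 / 4) : ℝ) := by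
  have ha0 : (0 : ℝ) < a := by exact_mod_cast ha
  have hab' : (a : ℝ) ≤ b := by exact_mod_cast hab
  exact Real.rpow_le_rpow_of_nonpos ha0 hab' (by norm_num)

theorem wO_le : ∃ C : ℝ, 0 < C ∧ ∀ n : ℕ, 1 ≤ n → wO (1 / 2) n ≤ C * (n : ℝ) ^ (-(5 / 4) : ℝ) := by
  obtain ⟨C1, hC1, h1⟩ := wO_T4
  obtain ⟨c0, C0, hc0, hC0, h0⟩ := CY.four_lim
  refine ⟨4 * C1 * C0 + ((400 : ℕ) : ℝ) ^ (5 / 4 : ℝ), by positivity, fun n hn => ?_⟩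
  have hn0 : (0 : ℝ) < n := by exact_mod_cast hn
  have hp : (0 : ℝ) < (n : ℝ) ^ (-(5 / 4) : ℝ) := Real.rpow_pos_of_pos hn0 _
  have h4 : (0 : ℝ) < ((400 : ℕ) : ℝ) ^ (5 / 4 : ℝ) := by positivity
  have hCC : 0 < 4 * C1 * C0 := by positivity
  by_cases h400 : 400 ≤ n
  · obtain ⟨R, _, hR2, hR3⟩ := h0 (20 * n) (by omega)
    obtain ⟨α, _⟩ := CY.exists_ref (L := 2 * (20 * n)) (even_two_mul _) (by omega)
    have t0 := hR3 α 0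
    have t1 := hR3 α 1
    have t2 := (t0.add t1).const_mul (2 * C1)
    have h5 : wO (1 / 2) n ≤ 2 * C1 * (R + R) := by
      refine ge_of_tendsto t2 ?_
      filter_upwards [Filter.eventually_ge_atTop (20 * n)] with m hm
      have h6 := h1 n m h400 hm
      have h7 := CY.pr_T4_le (n := 20 * n) (m := m) (by omega) (by omega) α
      calc wO (1 / 2) n ≤ C1 * Pr (cylE (20 * n) m) (E3T4 (20 * n) m) := h6
        _ ≤ C1 * (2 * (Pr (cylE (20 * n) m) (CY.Wr (20 * n) m 0 α) +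
            Pr (cylE (20 * n) m) (CY.Wr (20 * n) m 1 α))) := mul_le_mul_of_nonneg_left h7 hC1.le
        _ = 2 * C1 * (Pr (cylE (20 * n) m) (CY.Wr (20 * n) m 0 α) +
            Pr (cylE (20 * n) m) (CY.Wr (20 * n) m 1 α)) := by ring
    have h8 : R ≤ C0 * (n : ℝ) ^ (-(5 / 4) : ℝ) :=
      hR2.trans (mul_le_mul_of_nonneg_left (E3T_anti hn (by omega)) hC0.le)
    have h9 : 2 * C1 * (R + R) ≤ 4 * C1 * C0 * (n : ℝ) ^ (-(5 / 4) : ℝ) := by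
      have : 2 * C1 * (R + R) = 4 * C1 * R := by ring
      rw [this, mul_assoc (4 * C1) C0]
      exact mul_le_mul_of_nonneg_left h8 (by positivity)
    calc wO (1 / 2) n ≤ 2 * C1 * (R + R) := h5
      _ ≤ 4 * C1 * C0 * (n : ℝ) ^ (-(5 / 4) : ℝ) := h9
      _ ≤ _ := mul_le_mul_of_nonneg_right (by linarith) hp.le
  · have h5 : wO (1 / 2) n ≤ 1 := pq_le_one (by norm_num) (by norm_num) _ _
    have h6 := E3T_one (K := 400) hn (by omega)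
    calc wO (1 / 2) n ≤ 1 := h5
      _ ≤ ((400 : ℕ) : ℝ) ^ (5 / 4 : ℝ) * (n : ℝ) ^ (-(5 / 4) : ℝ) := h6
      _ ≤ _ := mul_le_mul_of_nonneg_right (by linarith) hp.le

private theorem E3T_three : (3 : ℝ) ^ (5 / 4 : ℝ) ≤ 4 := by
  have h1 : (3 : ℝ) ^ (5 / 4 : ℝ) = ((3 : ℝ) ^ (5 : ℕ)) ^ (1 / 4 : ℝ) := by
    rw [← Real.rpow_natCast, ← Real.rpow_mul (by norm_num)]
    norm_num
  have h2 : (4 : ℝ) = ((4 : ℝ) ^ (4 : ℕ)) ^ (1 / 4 : ℝ) := by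
    rw [← Real.rpow_natCast, ← Real.rpow_mul (by norm_num)]
    norm_num
  rw [h1]
  refine le_trans ?_ (le_of_eq h2.symm)
  exact Real.rpow_le_rpow (by norm_num) (by norm_num) (by norm_num)

private theorem E3T_half {n : ℕ} (hn : 2 ≤ n) :
    ((n / 2 : ℕ) : ℝ) ^ (-(5 / 4) : ℝ) ≤ 4 * (n : ℝ) ^ (-(5 / 4) : ℝ) := by
  have hn0 : (0 : ℝ) < n := by
    have : 0 < n := by omega
    exact_mod_cast this
  have h1 : (n : ℝ) / 3 ≤ ((n / 2 : ℕ) : ℝ) := by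
    have h2 : n ≤ 3 * (n / 2) := by omega
    have h3 : (n : ℝ) ≤ 3 * ((n / 2 : ℕ) : ℝ) := by exact_mod_cast h2
    linarith
  have h4 : ((n / 2 : ℕ) : ℝ) ^ (-(5 / 4) : ℝ) ≤ ((n : ℝ) / 3) ^ (-(5 / 4) : ℝ) :=
    Real.rpow_le_rpow_of_nonpos (by positivity) h1 (by norm_num)
  have h5 : ((n : ℝ) / 3) ^ (-(5 / 4) : ℝ) = (3 : ℝ) ^ (5 / 4 : ℝ) * (n : ℝ) ^ (-(5 / 4) : ℝ) := by
    rw [Real.div_rpow hn0.le (by norm_num), Real.rpow_neg (by norm_num : (0 : ℝ) ≤ 3) (5 / 4)]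
    field_simp
  rw [h5] at h4
  exact h4.trans (mul_le_mul_of_nonneg_right E3T_three (Real.rpow_nonneg hn0.le _))

theorem rec_bound {f : ℕ → ℝ} (h1 : ∀ n, f n ≤ 1) {C : ℝ} (hC : 0 < C) {k : ℕ}
    (h : ∀ n, k ≤ n → f n ≤ C * (n : ℝ) ^ (-(5 / 4) : ℝ) + (1 / 8) * f (n / 2)) :
    ∃ D : ℝ, 0 < D ∧ ∀ n : ℕ, 1 ≤ n → f n ≤ D * (n : ℝ) ^ (-(5 / 4) : ℝ) := by
  have hK0 : (0 : ℝ) ≤ ((max k 2 : ℕ) : ℝ) ^ (5 / 4 : ℝ) := by positivity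
  refine ⟨2 * C + ((max k 2 : ℕ) : ℝ) ^ (5 / 4 : ℝ), by positivity, fun n => ?_⟩
  induction n using Nat.strong_induction_on with
  | _ n ih =>
    intro hn
    have hn0 : (0 : ℝ) < n := by exact_mod_cast hn
    have hp : (0 : ℝ) < (n : ℝ) ^ (-(5 / 4) : ℝ) := Real.rpow_pos_of_pos hn0 _
    by_cases hk : n < max k 2
    · have h2 := E3T_one hn hk.le
      calc f n ≤ 1 := h1 n
        _ ≤ ((max k 2 : ℕ) : ℝ) ^ (5 / 4 : ℝ) * (n : ℝ) ^ (-(5 / 4) : ℝ) := h2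
        _ ≤ _ := mul_le_mul_of_nonneg_right (by linarith) hp.le
    · have hk1 : k ≤ n := (le_max_left k 2).trans (not_lt.1 hk)
      have hk2 : 2 ≤ n := (le_max_right k 2).trans (not_lt.1 hk)
      have h3 := ih (n / 2) (by omega) (by omega)
      have h4 := E3T_half hk2
      have hD : 0 ≤ 2 * C + ((max k 2 : ℕ) : ℝ) ^ (5 / 4 : ℝ) := by positivity
      have h5 := mul_le_mul_of_nonneg_left h4 hD
      have h6 := h n hk1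
      have h7 : f n ≤ C * (n : ℝ) ^ (-(5 / 4) : ℝ) + (1 / 8) *
          ((2 * C + ((max k 2 : ℕ) : ℝ) ^ (5 / 4 : ℝ)) * (4 * (n : ℝ) ^ (-(5 / 4) : ℝ))) := by
        linarith
      have h8 : C * (n : ℝ) ^ (-(5 / 4) : ℝ) + (1 / 8) *
          ((2 * C + ((max k 2 : ℕ) : ℝ) ^ (5 / 4 : ℝ)) * (4 * (n : ℝ) ^ (-(5 / 4) : ℝ))) =
          (C + (1 / 2) * (2 * C + ((max k 2 : ℕ) : ℝ) ^ (5 / 4 : ℝ))) * (n : ℝ) ^ (-(5 / 4) : ℝ) := by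
        ring
      rw [h8] at h7
      exact h7.trans (mul_le_mul_of_nonneg_right (by linarith) hp.le)

/-- FOUR ARM EXPONENT, critical bond percolation on `ℤ²` -/
theorem p4half (hS : SepOut) : ∃ c C : ℝ, 0 < c ∧ 0 < C ∧ ∀ n : ℕ, 1 ≤ n →
    c * (n : ℝ) ^ (-(5 / 4) : ℝ) ≤ p4 (1 / 2) n ∧ p4 (1 / 2) n ≤ C * (n : ℝ) ^ (-(5 / 4) : ℝ) := by
  obtain ⟨c, hc, h1⟩ := CY.p4_ge
  obtain ⟨ε, hε, hRS⟩ := rsc_half
  obtain ⟨k, C, hk, hC, h2⟩ := sep_out1 hS rswIn dualIn ε (1 / 8) hε (by norm_num)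
  obtain ⟨C', hC', h3⟩ := wO_le
  obtain ⟨D, hD, h4⟩ := rec_bound (f := fun n => p4 (1 / 2) n)
    (fun n => pq_le_one (by norm_num) (by norm_num) _ _) (C := C * C') (by positivity) (k := k)
    (by
      intro n hn
      have h5 := h2 (1 / 2) n (by norm_num) (by norm_num) (hRS n) hn
      have h6 := h3 (3 * n) (by omega)
      have h7 : ((3 * n : ℕ) : ℝ) ^ (-(5 / 4) : ℝ) ≤ (n : ℝ) ^ (-(5 / 4) : ℝ) :=
        E3T_anti (by omega) (by omega)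
      have h8 : C * wO (1 / 2) (3 * n) ≤ C * C' * (n : ℝ) ^ (-(5 / 4) : ℝ) := by
        rw [mul_assoc]
        exact mul_le_mul_of_nonneg_left (h6.trans (mul_le_mul_of_nonneg_left h7 hC'.le)) hC.le
      linarith)
  exact ⟨c, D, hc, hD, fun n hn => ⟨h1 n hn, h4 n hn⟩⟩

end FKN
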