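import Pool.Agent.Lib.MP_216314_pr.N.FX6

/-!
# The one arm probability in the whole near critical regime
-/

set_option autoImplicit false

noncomputable section

namespace FKF

open Finset FKI FKN Filter Topology
open FKP hiding bx an

/-- the window with more convenient constants: for `0 < s ≤ s1` the scale `M` is at least `3`, the crossing probabilities of bounded aspect ratio
are at least `c0` at `1/2 - s`, and the arms are comparable -/
theorem win_use (hW : Win) : ∃ (s1 c0 a b B : ℝ) (A : ℕ) (M : ℝ → ℕ), 0 < s1 ∧ s1 ≤ 1 / 4 ∧ 0 < c0 ∧ c0 ≤ 1 ∧ 0 < a ∧ 0 < b ∧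
    0 < B ∧ 1 ≤ A ∧ ∀ s : ℝ, 0 < s → s ≤ s1 → 3 ≤ M s ∧ (M s : ℝ) * s ^ (4 / 3 : ℝ) ≤ b ∧ a ≤ (M s : ℝ) * s ^ (4 / 3 : ℝ) ∧
      (∀ k l : ℕ, 1 ≤ k → 1 ≤ l → k ≤ 32 * l → l ≤ 32 * M s → c0 ≤ hq (1 / 2 - s) k l) ∧
      (∀ n : ℕ, 1 ≤ n → n ≤ M s → p1 (1 / 2 + s) n ≤ B * p1 (1 / 2) n ∧ a * p1 (1 / 2) n ≤ p1 (1 / 2 - s) n) ∧
      gf (1 / 2 + s) (A * M s) ≤ Real.exp (-8) / 25 := by
  obtain ⟨s0, ε, cw, Cw, M, hs0, hs4, hε, hcw, hCw, hwin, hsup⟩ := hW
  obtain ⟨A, hA, hgf⟩ := hsup (Real.exp (-8) / 25) (by positivity)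
  obtain ⟨s1', hs1', hlarge⟩ := scale_large hcw 3
  obtain ⟨c0, hc0, hrsw⟩ := rswIn ε hε 32
  refine ⟨min s0 s1', min c0 1, cw, Cw, Cw, A, M, lt_min hs0 hs1', (min_le_left _ _).trans hs4, lt_min hc0 one_pos,
    min_le_right _ _, hcw, hCw, hCw, hA, fun s hs hss => ?_⟩
  obtain ⟨⟨w1, w2⟩, ⟨_, wR⟩, w3⟩ := hwin s hs (hss.trans (min_le_left _ _))
  have hsq : 0 < s ^ (4 / 3 : ℝ) := Real.rpow_pos_of_pos hs _
  have hs43 : s ^ (-(4 / 3) : ℝ) = (s ^ (4 / 3 : ℝ))⁻¹ := Real.rpow_neg hs.le _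
  have hs14 : s ≤ 1 / 4 := hss.trans ((min_le_left _ _).trans hs4)
  refine ⟨?_, ?_, ?_, ?_, w3, hgf s hs (hss.trans (min_le_left _ _))⟩
  · have h2 := (hlarge s hs (hss.trans (min_le_right _ _))).trans w1
    exact_mod_cast h2
  · rw [hs43, ← div_eq_mul_inv, le_div_iff₀ hsq] at w2
    exact w2
  · rw [hs43, ← div_eq_mul_inv, div_le_iff₀ hsq] at w1
    exact w1
  · intro k l hk hl h1 h2
    exact (min_le_left _ _).trans ((hrsw (1 / 2 - s) (M s) (by linarith) (by linarith) wR k l hk hl).1 h1 h2)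

theorem FX8_pow {n : ℕ} (hn : 1 ≤ n) : (n : ℝ) ^ (-(5 / 48) : ℝ) ≤ 1 :=
  Real.rpow_le_one_of_one_le_of_nonpos (by exact_mod_cast hn) (by norm_num)

theorem FX8_arm_line {q : ℝ} (h0 : 0 ≤ q) (h1 : q ≤ 1) (n : ℕ) : q ^ n ≤ p1 q n := by
  refine (FX5_line h0 h1 n).trans ?_
  refine pq_mono h0 h1 fun ω _ hc => ⟨((n : ℤ), 0), ?_, hc⟩
  unfold nrm
  simp

/-- `c^(2l+1)` as an exponential -/
theorem FX8_exp {c0 : ℝ} (hc : 0 < c0) (hc1 : c0 ≤ 1) {l : ℕ} {t : ℝ} (h : (l : ℝ) ≤ t) :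
    c0 * Real.exp (-(2 * Real.log (1 / c0) * t)) ≤ c0 ^ (2 * l + 1) := by
  have h3 : Real.log (1 / c0) = -Real.log c0 := by rw [one_div, Real.log_inv]
  have h4 : Real.log c0 ≤ 0 := Real.log_nonpos hc.le hc1
  have h5 : c0 ^ (2 * l + 1) = c0 * Real.exp (2 * l * Real.log c0) := by
    rw [pow_succ, mul_comm, ← Real.exp_log hc, ← Real.exp_nat_mul, Real.exp_log hc]
    congr 2
    push_cast
    ring
  rw [h5, h3]
  refine mul_le_mul_of_nonneg_left (Real.exp_le_exp.2 ?_) hc.le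
  nlinarith

/-- supercritical side -/
theorem arm_sup (hW : Win) (h1 : One12) : ∃ c C : ℝ, 0 < c ∧ 0 < C ∧ ∀ (n : ℕ) (p : ℝ), 1 ≤ n → 1 / 2 ≤ p → p ≤ 1 →
    c * max ((n : ℝ) ^ (-(5 / 48) : ℝ)) ((p - 1 / 2) ^ (5 / 36 : ℝ)) ≤ p1 p n ∧
    p1 p n ≤ C * max ((n : ℝ) ^ (-(5 / 48) : ℝ)) ((p - 1 / 2) ^ (5 / 36 : ℝ)) := by
  obtain ⟨cθ, Cθ, hcθ, hCθ, hθ⟩ := theta_main hW h1
  obtain ⟨s1, c0, a, b, B, A, M, hs1, hs14, hc0, hc01, ha, hb, hB, hA, hwin⟩ := win_use hW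
  obtain ⟨c1, C1, hc1, hC1, hpi⟩ := h1
  set C2 : ℝ := B * C1 * a ^ (-(5 / 48) : ℝ) with hC2
  have hC2p : 0 < C2 := by positivity
  have hs1q : 0 < s1 ^ (5 / 36 : ℝ) := Real.rpow_pos_of_pos hs1 _
  refine ⟨min c1 cθ, max (max C1 (B * C1)) (max C2 (s1 ^ (-(5 / 36) : ℝ))), lt_min hc1 hcθ,
    lt_max_of_lt_left (lt_max_of_lt_left hC1), fun n p hn hp hp1 => ?_⟩
  have hn0 : (0 : ℝ) < n := by exact_mod_cast hn
  have hnp : 0 < (n : ℝ) ^ (-(5 / 48) : ℝ) := Real.rpow_pos_of_pos hn0 _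
  obtain ⟨s, hs⟩ : ∃ s : ℝ, s = p - 1 / 2 := ⟨_, rfl⟩
  have hp' : p = 1 / 2 + s := by rw [hs]; ring
  rw [← hs]
  have hs0 : 0 ≤ s := by rw [hs]; linarith
  have hsq0 : 0 ≤ s ^ (5 / 36 : ℝ) := Real.rpow_nonneg hs0 _
  have hmono : p1 (1 / 2) n ≤ p1 p n := p1_mono_q (by norm_num) hp hp1 n
  constructor
  · have l1 : min c1 cθ * (n : ℝ) ^ (-(5 / 48) : ℝ) ≤ p1 p n :=
      (mul_le_mul_of_nonneg_right (min_le_left _ _) hnp.le).trans ((hpi n hn).1.trans hmono)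
    have l2 : min c1 cθ * s ^ (5 / 36 : ℝ) ≤ p1 p n := by
      rcases hs0.eq_or_lt with h | h
      · rw [← h, Real.zero_rpow (by norm_num), mul_zero]
        exact (p1_bd (by linarith) hp1 n).1
      · have h2 := (hθ ⟨p, by constructor <;> linarith⟩ (by show 1 / 2 < p; linarith)).1
        have h3 := theta_le ⟨p, by constructor <;> linarith⟩ n
        have h4 : cθ * s ^ (5 / 36 : ℝ) ≤ p1 p n := by
          rw [hs]
          exact h2.trans h3
        exact (mul_le_mul_of_nonneg_right (min_le_right _ _) hsq0).trans h4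
    rcases max_cases ((n : ℝ) ^ (-(5 / 48) : ℝ)) (s ^ (5 / 36 : ℝ)) with ⟨h, _⟩ | ⟨h, _⟩
    · rw [h]; exact l1
    · rw [h]; exact l2
  · have u1 : ∀ D : ℝ, D ≤ max (max C1 (B * C1)) (max C2 (s1 ^ (-(5 / 36) : ℝ))) → p1 p n ≤ D * (n : ℝ) ^ (-(5 / 48) : ℝ) →
        p1 p n ≤ max (max C1 (B * C1)) (max C2 (s1 ^ (-(5 / 36) : ℝ))) * max ((n : ℝ) ^ (-(5 / 48) : ℝ)) (s ^ (5 / 36 : ℝ)) := by
      intro D hD h
      have hpos : 0 ≤ max (max C1 (B * C1)) (max C2 (s1 ^ (-(5 / 36) : ℝ))) := hC1.le.trans ((le_max_left _ _).trans (le_max_left _ _))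
      exact h.trans ((mul_le_mul_of_nonneg_right hD hnp.le).trans (mul_le_mul_of_nonneg_left (le_max_left _ _) hpos))
    have u2 : ∀ D : ℝ, D ≤ max (max C1 (B * C1)) (max C2 (s1 ^ (-(5 / 36) : ℝ))) → p1 p n ≤ D * s ^ (5 / 36 : ℝ) →
        p1 p n ≤ max (max C1 (B * C1)) (max C2 (s1 ^ (-(5 / 36) : ℝ))) * max ((n : ℝ) ^ (-(5 / 48) : ℝ)) (s ^ (5 / 36 : ℝ)) := by
      intro D hD h
      have hpos : 0 ≤ max (max C1 (B * C1)) (max C2 (s1 ^ (-(5 / 36) : ℝ))) := hC1.le.trans ((le_max_left _ _).trans (le_max_left _ _))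
      exact h.trans ((mul_le_mul_of_nonneg_right hD hsq0).trans (mul_le_mul_of_nonneg_left (le_max_right _ _) hpos))
    rcases hs0.eq_or_lt with h | hspos
    · refine u1 C1 ((le_max_left _ _).trans (le_max_left _ _)) ?_
      rw [hp', ← h, add_zero]
      exact (hpi n hn).2
    · rcases le_or_gt s s1 with h | h
      · obtain ⟨hM3, hMb, hMa, _, harm, _⟩ := hwin s hspos h
        rcases Nat.lt_or_ge (M s) n with h2 | h2
        · refine u2 C2 ((le_max_left _ _).trans (le_max_right _ _)) ?_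
          have h3 : p1 p n ≤ p1 p (M s) := p1_anti' (by linarith) hp1 h2.le
          have h4 := (harm (M s) (by omega) le_rfl).1
          rw [← hp'] at h4
          have h5 := (hpi (M s) (by omega)).2
          have hMr : (0 : ℝ) < M s := by
            have : 0 < M s := by omega
            exact_mod_cast this
          have h6 : (M s : ℝ) ^ (-(5 / 48) : ℝ) ≤ a ^ (-(5 / 48) : ℝ) * s ^ (5 / 36 : ℝ) := by
            have h7 : a * s ^ (-(4 / 3) : ℝ) ≤ M s := by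
              rw [Real.rpow_neg hspos.le, ← div_eq_mul_inv, div_le_iff₀ (Real.rpow_pos_of_pos hspos _)]
              exact hMa
            have h8 := Real.rpow_le_rpow_of_nonpos (mul_pos ha (Real.rpow_pos_of_pos hspos _)) h7
              (by norm_num : (-(5 / 48) : ℝ) ≤ 0)
            rw [rpow_scale hspos ha] at h8
            norm_num at h8 ⊢
            exact h8
          calc p1 p n ≤ B * p1 (1 / 2) (M s) := h3.trans h4
            _ ≤ B * (C1 * (M s : ℝ) ^ (-(5 / 48) : ℝ)) := mul_le_mul_of_nonneg_left h5 hB.le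
            _ ≤ B * (C1 * (a ^ (-(5 / 48) : ℝ) * s ^ (5 / 36 : ℝ))) :=
                mul_le_mul_of_nonneg_left (mul_le_mul_of_nonneg_left h6 hC1.le) hB.le
            _ = C2 * s ^ (5 / 36 : ℝ) := by rw [hC2]; ring
        · refine u1 (B * C1) ((le_max_right _ _).trans (le_max_left _ _)) ?_
          have h3 := (harm n hn h2).1
          rw [← hp'] at h3
          calc p1 p n ≤ B * p1 (1 / 2) n := h3
            _ ≤ B * (C1 * (n : ℝ) ^ (-(5 / 48) : ℝ)) := mul_le_mul_of_nonneg_left (hpi n hn).2 hB.le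
            _ = _ := by ring
      · refine u2 (s1 ^ (-(5 / 36) : ℝ)) ((le_max_right _ _).trans (le_max_right _ _)) ?_
        have h2 := (p1_bd (by linarith : 0 ≤ p) hp1 n).2
        refine h2.trans ?_
        rw [Real.rpow_neg hs1.le, ← div_eq_inv_mul, one_le_div hs1q]
        exact Real.rpow_le_rpow hs1.le h.le (by norm_num)

/-- subcritical side, upper bound -/
theorem arm_sub_up (hW : Win) (h1 : One12) : ∃ c C : ℝ, 0 < c ∧ 0 < C ∧ ∀ (n : ℕ) (p : ℝ), 1 ≤ n → 1 / 4 ≤ p → p ≤ 1 / 2 →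
    p1 p n ≤ C * (n : ℝ) ^ (-(5 / 48) : ℝ) * Real.exp (-(c * n * (1 / 2 - p) ^ (4 / 3 : ℝ))) := by
  obtain ⟨s1, c0, a, b, B, A, M, hs1, hs14, hc0, hc01, ha, hb, hB, hA, hwin⟩ := win_use hW
  obtain ⟨c1, C1, hc1, hC1, hpi⟩ := h1
  have hA' : (1 : ℝ) ≤ A := by exact_mod_cast hA
  obtain ⟨D, hD⟩ : ∃ D : ℝ, D = 2 * A * b := ⟨_, rfl⟩
  have hDp : 0 < D := by rw [hD]; positivity
  obtain ⟨c, hc⟩ : ∃ c : ℝ, c = 1 / (2 * D) := ⟨_, rfl⟩
  have hcp : 0 < c := by rw [hc]; positivity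
  have hcD : c * D = 1 / 2 := by rw [hc]; field_simp
  have hs1q : 0 < s1 ^ (4 / 3 : ℝ) := Real.rpow_pos_of_pos hs1 _
  have hs1q1 : s1 ^ (4 / 3 : ℝ) ≤ 1 := Real.rpow_le_one hs1.le (by linarith) (by norm_num)
  have small : ∀ (n : ℕ) (p s : ℝ), 1 ≤ n → p = 1 / 2 - s → 0 < s → s ≤ s1 →
      p1 p n ≤ 2 * Real.exp 4 * C1 * (n : ℝ) ^ (-(5 / 48) : ℝ) * Real.exp (-(c * n * s ^ (4 / 3 : ℝ))) := by
    intro n p s hn hp hs hss
    obtain ⟨hM3, hMb, hMa, _, harm, hgf⟩ := hwin s hs hss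
    have hp0 : 0 ≤ p := by linarith
    have hp1 : p ≤ 1 := by linarith
    have hn0 : (0 : ℝ) < n := by exact_mod_cast hn
    have hnp : 0 < (n : ℝ) ^ (-(5 / 48) : ℝ) := Real.rpow_pos_of_pos hn0 _
    have hsq : 0 < s ^ (4 / 3 : ℝ) := Real.rpow_pos_of_pos hs _
    have hN : 3 ≤ A * M s := le_trans hM3 (Nat.le_mul_of_pos_left _ (by omega))
    have hNr : (1 : ℝ) ≤ ((A * M s : ℕ) : ℝ) := by
      have : 1 ≤ A * M s := by omega
      exact_mod_cast this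
    have hNs : ((A * M s : ℕ) : ℝ) * s ^ (4 / 3 : ℝ) ≤ D / 2 := by
      rw [hD]
      push_cast
      calc (A : ℝ) * M s * s ^ (4 / 3 : ℝ) = A * ((M s : ℝ) * s ^ (4 / 3 : ℝ)) := by ring
        _ ≤ A * b := mul_le_mul_of_nonneg_left hMb (by positivity)
        _ = 2 * A * b / 2 := by ring
    have hKs : (((A * M s : ℕ) : ℝ) + 1) * s ^ (4 / 3 : ℝ) ≤ D := by nlinarith
    have he4 : 1 ≤ Real.exp 4 := Real.one_le_exp (by norm_num)
    rcases Nat.lt_or_ge n (2 * (A * M s)) with h | h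
    · have h2 : p1 p n ≤ C1 * (n : ℝ) ^ (-(5 / 48) : ℝ) :=
        (p1_mono_q hp0 (by linarith) (by norm_num) n).trans (hpi n hn).2
      have h3 : c * n * s ^ (4 / 3 : ℝ) ≤ 1 / 2 := by
        have h4 : (n : ℝ) ≤ 2 * ((A * M s : ℕ) : ℝ) := by exact_mod_cast h.le
        have h5 : (n : ℝ) * s ^ (4 / 3 : ℝ) ≤ D := by
          calc (n : ℝ) * s ^ (4 / 3 : ℝ) ≤ 2 * ((A * M s : ℕ) : ℝ) * s ^ (4 / 3 : ℝ) := mul_le_mul_of_nonneg_right h4 hsq.le
            _ = 2 * (((A * M s : ℕ) : ℝ) * s ^ (4 / 3 : ℝ)) := by ring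
            _ ≤ D := by linarith
        calc c * n * s ^ (4 / 3 : ℝ) = c * (n * s ^ (4 / 3 : ℝ)) := by ring
          _ ≤ c * D := mul_le_mul_of_nonneg_left h5 hcp.le
          _ = 1 / 2 := hcD
      have h4 : 1 ≤ 2 * Real.exp 4 * Real.exp (-(c * n * s ^ (4 / 3 : ℝ))) := by
        have h5 : 1 ≤ Real.exp 4 * Real.exp (-(c * n * s ^ (4 / 3 : ℝ))) := by
          rw [← Real.exp_add]
          exact Real.one_le_exp (by linarith)
        linarith
      calc p1 p n ≤ C1 * (n : ℝ) ^ (-(5 / 48) : ℝ) * 1 := by linarith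
        _ ≤ C1 * (n : ℝ) ^ (-(5 / 48) : ℝ) * (2 * Real.exp 4 * Real.exp (-(c * n * s ^ (4 / 3 : ℝ)))) :=
            mul_le_mul_of_nonneg_left h4 (by positivity)
        _ = _ := by ring
    · have e1 : 1 - p = 1 / 2 + s := by rw [hp]; ring
      have h2 := sub_decay hp0 hp1 hN (by rw [e1]; exact hgf) h
      obtain ⟨K, hK⟩ : ∃ K : ℝ, K = ((A * M s : ℕ) : ℝ) + 1 := ⟨_, rfl⟩
      have hKp : 0 < K := by rw [hK]; positivity
      rw [← hK] at h2 hKs
      have h3 : p1 p (2 * (A * M s)) ≤ C1 * K ^ (-(5 / 48) : ℝ) := by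
        have h4 : p1 p (2 * (A * M s)) ≤ C1 * ((2 * (A * M s) : ℕ) : ℝ) ^ (-(5 / 48) : ℝ) :=
          (p1_mono_q hp0 (by linarith) (by norm_num) _).trans (hpi _ (by omega)).2
        refine h4.trans (mul_le_mul_of_nonneg_left ?_ hC1.le)
        refine Real.rpow_le_rpow_of_nonpos hKp ?_ (by norm_num)
        rw [hK]
        push_cast at hNr ⊢
        linarith
      have h4 : K ^ (-(5 / 48) : ℝ) ≤ (n : ℝ) ^ (-(5 / 48) : ℝ) * (2 * Real.exp (n / (2 * K))) := by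
        have h5 : K ^ (-(5 / 48) : ℝ) = (n : ℝ) ^ (-(5 / 48) : ℝ) * (n / K) ^ (5 / 48 : ℝ) := by
          rw [Real.div_rpow hn0.le hKp.le, Real.rpow_neg hKp.le, Real.rpow_neg hn0.le]
          have := Real.rpow_pos_of_pos hn0 (5 / 48)
          field_simp
        rw [h5]
        refine mul_le_mul_of_nonneg_left ?_ hnp.le
        have h6 : 0 ≤ (n : ℝ) / K := by positivity
        have h7 : ((n : ℝ) / K) ^ (5 / 48 : ℝ) ≤ 1 + n / K := by
          rcases le_total ((n : ℝ) / K) 1 with h8 | h8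
          · have := Real.rpow_le_one h6 h8 (by norm_num : (0 : ℝ) ≤ 5 / 48)
            linarith
          · have : ((n : ℝ) / K) ^ (5 / 48 : ℝ) ≤ ((n : ℝ) / K) ^ (1 : ℝ) :=
              Real.rpow_le_rpow_of_exponent_le h8 (by norm_num)
            rw [Real.rpow_one] at this
            linarith
        have h8 := Real.add_one_le_exp ((n : ℝ) / (2 * K))
        have h9 : (n : ℝ) / (2 * K) = (n / K) / 2 := by field_simp
        rw [h9] at h8 ⊢
        linarith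
      have h5 : Real.exp (n / (2 * K)) * Real.exp (-((n : ℝ) / K)) ≤ Real.exp (-(c * n * s ^ (4 / 3 : ℝ))) := by
        rw [← Real.exp_add]
        refine Real.exp_le_exp.2 ?_
        have h6 : c * n * s ^ (4 / 3 : ℝ) ≤ n / (2 * K) := by
          rw [le_div_iff₀ (by positivity)]
          calc c * n * s ^ (4 / 3 : ℝ) * (2 * K) = 2 * (c * (K * s ^ (4 / 3 : ℝ))) * n := by ring
            _ ≤ 2 * (c * D) * n := by
                refine mul_le_mul_of_nonneg_right ?_ hn0.le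
                exact mul_le_mul_of_nonneg_left (mul_le_mul_of_nonneg_left hKs hcp.le) (by norm_num)
            _ = n := by rw [hcD]; ring
        have h7 : (n : ℝ) / K = n / (2 * K) + n / (2 * K) := by
          field_simp
          ring
        linarith
      have hep := Real.exp_pos (-((n : ℝ) / K))
      calc p1 p n ≤ Real.exp 4 * p1 p (2 * (A * M s)) * Real.exp (-((n : ℝ) / K)) := h2
        _ ≤ Real.exp 4 * (C1 * ((n : ℝ) ^ (-(5 / 48) : ℝ) * (2 * Real.exp (n / (2 * K))))) * Real.exp (-((n : ℝ) / K)) := by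
            refine mul_le_mul_of_nonneg_right (mul_le_mul_of_nonneg_left ?_ (Real.exp_pos _).le) hep.le
            exact h3.trans (mul_le_mul_of_nonneg_left h4 hC1.le)
        _ = 2 * Real.exp 4 * C1 * (n : ℝ) ^ (-(5 / 48) : ℝ) * (Real.exp (n / (2 * K)) * Real.exp (-((n : ℝ) / K))) := by ring
        _ ≤ _ := mul_le_mul_of_nonneg_left h5 (by positivity)
  refine ⟨c * s1 ^ (4 / 3 : ℝ), 2 * Real.exp 4 * C1, by positivity, by positivity, fun n p hn hp4 hp12 => ?_⟩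
  have hn0 : (0 : ℝ) < n := by exact_mod_cast hn
  have hnp : 0 < (n : ℝ) ^ (-(5 / 48) : ℝ) := Real.rpow_pos_of_pos hn0 _
  obtain ⟨s, hs⟩ : ∃ s : ℝ, s = 1 / 2 - p := ⟨_, rfl⟩
  have hp' : p = 1 / 2 - s := by rw [hs]; ring
  rw [← hs]
  have hs0 : 0 ≤ s := by rw [hs]; linarith
  have hs1' : s ≤ 1 := by rw [hs]; linarith
  have hsq0 : 0 ≤ s ^ (4 / 3 : ℝ) := Real.rpow_nonneg hs0 _
  have hsq1 : s ^ (4 / 3 : ℝ) ≤ 1 := Real.rpow_le_one hs0 hs1' (by norm_num)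
  have he4 : 1 ≤ Real.exp 4 := Real.one_le_exp (by norm_num)
  rcases hs0.eq_or_lt with h | hspos
  · rw [hp', ← h, Real.zero_rpow (by norm_num), mul_zero, neg_zero, Real.exp_zero, mul_one, sub_zero]
    refine (hpi n hn).2.trans (mul_le_mul_of_nonneg_right ?_ hnp.le)
    nlinarith
  · rcases le_or_gt s s1 with h | h
    · refine (small n p s hn hp' hspos h).trans ?_
      refine mul_le_mul_of_nonneg_left (Real.exp_le_exp.2 ?_) (by positivity)
      have h2 : c * s1 ^ (4 / 3 : ℝ) * n * s ^ (4 / 3 : ℝ) ≤ c * 1 * n * s ^ (4 / 3 : ℝ) := by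
        have h3 : 0 ≤ c * n * s ^ (4 / 3 : ℝ) := by positivity
        nlinarith
      linarith
    · have h2 := small n (1 / 2 - s1) s1 hn rfl hs1 le_rfl
      have h3 : p1 p n ≤ p1 (1 / 2 - s1) n := p1_mono_q (by linarith) (by linarith) (by linarith) n
      refine (h3.trans h2).trans ?_
      refine mul_le_mul_of_nonneg_left (Real.exp_le_exp.2 ?_) (by positivity)
      have h4 : 0 ≤ c * n * s1 ^ (4 / 3 : ℝ) := by positivity
      nlinarith

/-- subcritical side, lower bound -/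
theorem arm_sub_low (hW : Win) (h1 : One12) : ∃ c C : ℝ, 0 < c ∧ 0 < C ∧ ∀ (n : ℕ) (p : ℝ), 1 ≤ n → 1 / 4 ≤ p → p ≤ 1 / 2 →
    c * (n : ℝ) ^ (-(5 / 48) : ℝ) * Real.exp (-(C * n * (1 / 2 - p) ^ (4 / 3 : ℝ))) ≤ p1 p n := by
  obtain ⟨s1, c0, a, b, B, A, M, hs1, hs14, hc0, hc01, ha, hb, hB, hA, hwin⟩ := win_use hW
  obtain ⟨c1, C1, hc1, hC1, hpi⟩ := h1
  have hl0 : 0 ≤ Real.log (1 / c0) := Real.log_nonneg (by rw [le_div_iff₀ hc0]; linarith)
  have hl4 : 0 < Real.log 4 := Real.log_pos (by norm_num)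
  obtain ⟨D, hD⟩ : ∃ D : ℝ, D = 4 * Real.log (1 / c0) / a := ⟨_, rfl⟩
  have hDp : 0 ≤ D := by rw [hD]; positivity
  have hs1q : 0 < s1 ^ (4 / 3 : ℝ) := Real.rpow_pos_of_pos hs1 _
  obtain ⟨c, hc⟩ : ∃ c : ℝ, c = min (min c1 (a * c1 * c0 ^ 5)) (min (a * c1) 1) := ⟨_, rfl⟩
  have hcp : 0 < c := by rw [hc]; positivity
  have hcle1 : c ≤ c1 := by rw [hc]; exact (min_le_left _ _).trans (min_le_left _ _)
  have hcle2 : c ≤ a * c1 * c0 ^ 5 := by rw [hc]; exact (min_le_left _ _).trans (min_le_right _ _)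
  have hcle3 : c ≤ a * c1 := by rw [hc]; exact (min_le_right _ _).trans (min_le_left _ _)
  have hcle4 : c ≤ 1 := by rw [hc]; exact (min_le_right _ _).trans (min_le_right _ _)
  obtain ⟨C, hC⟩ : ∃ C : ℝ, C = max (D + 1) (Real.log 4 / s1 ^ (4 / 3 : ℝ)) := ⟨_, rfl⟩
  have hCp : 0 < C := by rw [hC]; exact lt_max_of_lt_left (by linarith)
  have hCle1 : D ≤ C := by rw [hC]; exact le_trans (by linarith) (le_max_left _ _)
  have hCle2 : Real.log 4 / s1 ^ (4 / 3 : ℝ) ≤ C := by rw [hC]; exact le_max_right _ _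
  refine ⟨c, C, hcp, hCp, fun n p hn hp4 hp12 => ?_⟩
  have hn0 : (0 : ℝ) < n := by exact_mod_cast hn
  have hnp : 0 < (n : ℝ) ^ (-(5 / 48) : ℝ) := Real.rpow_pos_of_pos hn0 _
  obtain ⟨s, hs⟩ : ∃ s : ℝ, s = 1 / 2 - p := ⟨_, rfl⟩
  have hp' : p = 1 / 2 - s := by rw [hs]; ring
  rw [← hs]
  have hs0 : 0 ≤ s := by rw [hs]; linarith
  have hsq0 : 0 ≤ s ^ (4 / 3 : ℝ) := Real.rpow_nonneg hs0 _
  have hp0 : 0 ≤ p := by linarith
  have hp1 : p ≤ 1 := by linarith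
  have hle1 : Real.exp (-(C * n * s ^ (4 / 3 : ℝ))) ≤ 1 := Real.exp_le_one_iff.2 (by
    have : 0 ≤ C * n * s ^ (4 / 3 : ℝ) := by positivity
    linarith)
  have hexp := Real.exp_pos (-(C * n * s ^ (4 / 3 : ℝ)))
  rcases hs0.eq_or_lt with h | hspos
  · have h2 : p1 p n = p1 (1 / 2) n := by rw [hp', ← h, sub_zero]
    rw [h2]
    refine le_trans ?_ (hpi n hn).1
    calc c * (n : ℝ) ^ (-(5 / 48) : ℝ) * Real.exp (-(C * n * s ^ (4 / 3 : ℝ))) ≤ c * (n : ℝ) ^ (-(5 / 48) : ℝ) * 1 :=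
          mul_le_mul_of_nonneg_left hle1 (by positivity)
      _ ≤ c1 * (n : ℝ) ^ (-(5 / 48) : ℝ) := by
          rw [mul_one]
          exact mul_le_mul_of_nonneg_right hcle1 hnp.le
  · rcases le_or_gt s s1 with h | h
    · obtain ⟨hM3, hMb, hMa, hcr, harm, _⟩ := hwin s hspos h
      rw [← hp'] at hcr
      have hMr : (0 : ℝ) < M s := by
        have : 0 < M s := by omega
        exact_mod_cast this
      rcases Nat.lt_or_ge (M s) n with h2 | h2
      · obtain ⟨j, hj⟩ : ∃ j, j = M s / 2 := ⟨_, rfl⟩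
        obtain ⟨l, hl⟩ : ∃ l, l = n / (2 * j) := ⟨_, rfl⟩
        have hj1 : 1 ≤ j := by omega
        have h3 := p1_ext hp0 hp1 (j := j) (k := M s) (n := n) (by omega) h2.le
        have h4 : c0 ≤ hq p (2 * M s) (M s - j) := hcr _ _ (by omega) (by omega) (by omega) (by omega)
        have h5 : c0 ^ (2 * l + 1) ≤ hq p ((l + 1) * (2 * j)) (2 * j) :=
          FX5_glue hp0 hp1 hc0 (hcr _ _ (by omega) (by omega) (by omega) (by omega))
            (hcr _ _ (by omega) (by omega) (by omega) (by omega)) l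
        have h6 : hq p ((l + 1) * (2 * j)) (2 * j) ≤ hq p n (2 * j) := by
          refine hq_anti hp0 hp1 ?_
          have h7 := Nat.lt_div_mul_add (a := n) (b := 2 * j) (by omega)
          rw [hl, Nat.add_mul, one_mul]
          exact h7.le
        have h7 : (l : ℝ) ≤ 2 * n / M s := by
          rw [le_div_iff₀ hMr]
          have h8 : l * M s ≤ 2 * n := by
            have h9 : l * (2 * j) ≤ n := by rw [hl]; exact Nat.div_mul_le_self _ _
            have h10 : M s ≤ 2 * (2 * j) := by omega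
            calc l * M s ≤ l * (2 * (2 * j)) := Nat.mul_le_mul_left _ h10
              _ = 2 * (l * (2 * j)) := by ring
              _ ≤ 2 * n := by omega
          exact_mod_cast h8
        have h8 := FX8_exp hc0 hc01 h7
        have h9 : 2 * Real.log (1 / c0) * (2 * n / M s) ≤ C * n * s ^ (4 / 3 : ℝ) := by
          have h10 : 1 / (M s : ℝ) ≤ s ^ (4 / 3 : ℝ) / a := by
            rw [div_le_div_iff₀ hMr ha]
            linarith
          calc 2 * Real.log (1 / c0) * (2 * n / M s) = 4 * Real.log (1 / c0) * n * (1 / M s) := by ring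
            _ ≤ 4 * Real.log (1 / c0) * n * (s ^ (4 / 3 : ℝ) / a) := mul_le_mul_of_nonneg_left h10 (by positivity)
            _ = D * n * s ^ (4 / 3 : ℝ) := by rw [hD]; ring
            _ ≤ C * n * s ^ (4 / 3 : ℝ) := by
                refine mul_le_mul_of_nonneg_right (mul_le_mul_of_nonneg_right hCle1 hn0.le) hsq0
        have h10 : Real.exp (-(C * n * s ^ (4 / 3 : ℝ))) ≤ Real.exp (-(2 * Real.log (1 / c0) * (2 * n / M s))) :=
          Real.exp_le_exp.2 (by linarith)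
        have h11 : c0 * Real.exp (-(C * n * s ^ (4 / 3 : ℝ))) ≤ hq p n (2 * j) :=
          (mul_le_mul_of_nonneg_left h10 hc0.le).trans (h8.trans (h5.trans h6))
        have h12 : a * c1 * (n : ℝ) ^ (-(5 / 48) : ℝ) ≤ p1 p (M s) := by
          have h13 := (harm (M s) (by omega) le_rfl).2
          rw [← hp'] at h13
          have h14 := (hpi (M s) (by omega)).1
          have h15 : (n : ℝ) ^ (-(5 / 48) : ℝ) ≤ (M s : ℝ) ^ (-(5 / 48) : ℝ) :=
            Real.rpow_le_rpow_of_nonpos hMr (by exact_mod_cast h2.le) (by norm_num)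
          calc a * c1 * (n : ℝ) ^ (-(5 / 48) : ℝ) ≤ a * (c1 * (M s : ℝ) ^ (-(5 / 48) : ℝ)) := by
                rw [mul_assoc]
                exact mul_le_mul_of_nonneg_left (mul_le_mul_of_nonneg_left h15 hc1.le) ha.le
            _ ≤ a * p1 (1 / 2) (M s) := mul_le_mul_of_nonneg_left h14 ha.le
            _ ≤ _ := h13
        have h13 : c0 ^ 4 ≤ hq p (2 * M s) (M s - j) ^ 4 := pow_le_pow_left₀ hc0.le h4 4
        calc c * (n : ℝ) ^ (-(5 / 48) : ℝ) * Real.exp (-(C * n * s ^ (4 / 3 : ℝ)))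
            ≤ a * c1 * c0 ^ 5 * (n : ℝ) ^ (-(5 / 48) : ℝ) * Real.exp (-(C * n * s ^ (4 / 3 : ℝ))) :=
              mul_le_mul_of_nonneg_right (mul_le_mul_of_nonneg_right hcle2 hnp.le) hexp.le
          _ = a * c1 * (n : ℝ) ^ (-(5 / 48) : ℝ) * c0 ^ 4 * (c0 * Real.exp (-(C * n * s ^ (4 / 3 : ℝ)))) := by ring
          _ ≤ p1 p (M s) * hq p (2 * M s) (M s - j) ^ 4 * hq p n (2 * j) := by
              have hp1' := (p1_bd hp0 hp1 (M s)).1
              refine mul_le_mul (mul_le_mul h12 h13 (by positivity) hp1') h11 (by positivity) ?_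
              exact mul_nonneg hp1' (pow_nonneg (hq_nonneg hp0 hp1 _ _) 4)
          _ ≤ p1 p n := h3
      · have h3 := (harm n hn h2).2
        rw [← hp'] at h3
        have h4 := (hpi n hn).1
        calc c * (n : ℝ) ^ (-(5 / 48) : ℝ) * Real.exp (-(C * n * s ^ (4 / 3 : ℝ))) ≤ c * (n : ℝ) ^ (-(5 / 48) : ℝ) * 1 :=
              mul_le_mul_of_nonneg_left hle1 (by positivity)
          _ ≤ a * c1 * (n : ℝ) ^ (-(5 / 48) : ℝ) := by
              rw [mul_one]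
              exact mul_le_mul_of_nonneg_right hcle3 hnp.le
          _ = a * (c1 * (n : ℝ) ^ (-(5 / 48) : ℝ)) := by ring
          _ ≤ a * p1 (1 / 2) n := mul_le_mul_of_nonneg_left h4 ha.le
          _ ≤ p1 p n := h3
    · have h2 := FX8_arm_line hp0 hp1 n
      have h3 : (1 / 4 : ℝ) ^ n ≤ p ^ n := pow_le_pow_left₀ (by norm_num) hp4 n
      have h4 : (1 / 4 : ℝ) ^ n = Real.exp (-(n * Real.log 4)) := by
        rw [one_div, inv_pow, Real.exp_neg, Real.exp_nat_mul, Real.exp_log (by norm_num)]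
      have h5 : (n : ℝ) * Real.log 4 ≤ C * n * s ^ (4 / 3 : ℝ) := by
        have h6 : s1 ^ (4 / 3 : ℝ) ≤ s ^ (4 / 3 : ℝ) := Real.rpow_le_rpow hs1.le h.le (by norm_num)
        have h7 : Real.log 4 ≤ C * s ^ (4 / 3 : ℝ) := by
          rw [div_le_iff₀ hs1q] at hCle2
          exact hCle2.trans (mul_le_mul_of_nonneg_left h6 hCp.le)
        calc (n : ℝ) * Real.log 4 ≤ n * (C * s ^ (4 / 3 : ℝ)) := mul_le_mul_of_nonneg_left h7 hn0.le
          _ = _ := by ring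
      have h6 := FX8_pow hn
      calc c * (n : ℝ) ^ (-(5 / 48) : ℝ) * Real.exp (-(C * n * s ^ (4 / 3 : ℝ)))
          ≤ 1 * 1 * Real.exp (-(C * n * s ^ (4 / 3 : ℝ))) := by
            refine mul_le_mul_of_nonneg_right ?_ hexp.le
            exact mul_le_mul hcle4 h6 hnp.le (by norm_num)
        _ ≤ Real.exp (-(n * Real.log 4)) := by
            rw [one_mul, one_mul]
            exact Real.exp_le_exp.2 (by linarith)
        _ ≤ p1 p n := by
            rw [← h4]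
            exact h3.trans h2

/-- **The one arm probability in the whole near critical regime** -/
theorem arm_main (hW : Win) (h1 : One12) : ∃ c C : ℝ, 0 < c ∧ 0 < C ∧ ∀ n : ℕ, 1 ≤ n →
    (∀ p : ℝ, 1 / 2 ≤ p → p ≤ 1 →
      c * max ((n : ℝ) ^ (-(5 / 48) : ℝ)) ((p - 1 / 2) ^ (5 / 36 : ℝ)) ≤ p1 p n ∧
      p1 p n ≤ C * max ((n : ℝ) ^ (-(5 / 48) : ℝ)) ((p - 1 / 2) ^ (5 / 36 : ℝ))) ∧
    (∀ p : ℝ, 1 / 4 ≤ p → p ≤ 1 / 2 →
      c * (n : ℝ) ^ (-(5 / 48) : ℝ) * Real.exp (-(C * n * (1 / 2 - p) ^ (4 / 3 : ℝ))) ≤ p1 p n ∧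
      p1 p n ≤ C * (n : ℝ) ^ (-(5 / 48) : ℝ) * Real.exp (-(c * n * (1 / 2 - p) ^ (4 / 3 : ℝ)))) := by
  obtain ⟨a1, A1, ha1, hA1, e1⟩ := arm_sup hW h1
  obtain ⟨a2, A2, ha2, hA2, e2⟩ := arm_sub_up hW h1
  obtain ⟨a3, A3, ha3, hA3, e3⟩ := arm_sub_low hW h1
  refine ⟨min a1 (min a2 a3), max A1 (max A2 A3), by positivity, by positivity, fun n hn => ⟨fun p hp hp' => ?_, fun p hp hp' => ?_⟩⟩
  · obtain ⟨h2, h3⟩ := e1 n p hn hp hp'
    have hm : 0 ≤ max ((n : ℝ) ^ (-(5 / 48) : ℝ)) ((p - 1 / 2) ^ (5 / 36 : ℝ)) :=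
      le_max_of_le_left (Real.rpow_nonneg (Nat.cast_nonneg n) _)
    exact ⟨(mul_le_mul_of_nonneg_right (min_le_left _ _) hm).trans h2,
      h3.trans (mul_le_mul_of_nonneg_right (le_max_left _ _) hm)⟩
  · have hn0 : (0 : ℝ) ≤ (n : ℝ) ^ (-(5 / 48) : ℝ) := Real.rpow_nonneg (Nat.cast_nonneg n) _
    have hs0 : 0 ≤ (n : ℝ) * (1 / 2 - p) ^ (4 / 3 : ℝ) := mul_nonneg (Nat.cast_nonneg n) (Real.rpow_nonneg (by linarith) _)
    constructor
    · refine le_trans ?_ (e3 n p hn hp hp')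
      refine mul_le_mul (mul_le_mul_of_nonneg_right ((min_le_right _ _).trans (min_le_right _ _)) hn0) (Real.exp_le_exp.2 ?_)
        (Real.exp_pos _).le (by positivity)
      have h4 : A3 ≤ max A1 (max A2 A3) := (le_max_right _ _).trans (le_max_right _ _)
      nlinarith [mul_le_mul_of_nonneg_right h4 hs0]
    · refine (e2 n p hn hp hp').trans ?_
      refine mul_le_mul (mul_le_mul_of_nonneg_right ((le_max_left _ _).trans (le_max_right _ _)) hn0) (Real.exp_le_exp.2 ?_)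
        (Real.exp_pos _).le (by positivity)
      have h4 : min a1 (min a2 a3) ≤ a2 := (min_le_right _ _).trans (min_le_left _ _)
      nlinarith [mul_le_mul_of_nonneg_right h4 hs0]

end FKF
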