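import Pool.Agent.Lib.MP_216314_pr.N.DWin
import Pool.Agent.Lib.MP_216314_pr.N.E3T
import Pool.Agent.Lib.MP_216314_pr.N.FX8
import Pool.Agent.Lib.MP_216314_pr.K.KEnd

/-!
# The near critical regime: assembly

`win_in`: below the correlation length everything is as at the critical point, and the correlation length is of order `|p - 1/2| ^ (-4/3)`:
separation of four arms (B, C, D), the four arm law at the critical point (E, Q4), the derivative of the crossing probabilities on the torus (NT, NA, NW).
`one12_in`: the one arm law at the critical point (K).
-/

set_option autoImplicit false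

namespace FKF

theorem one12_in : One12 := by
  obtain ⟨c, C, hc, hC, h⟩ := CY.one_arm
  refine ⟨c, C, hc, hC, fun n hn => ?_⟩
  rw [p1_half]
  exact h n hn

theorem law4_in : FKN.Law4 := FKN.p4half FKN.sepOut_all

theorem win_in : Win := FKN.winL law4_in

end FKF
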