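import Pool.Agent.Lib.MP_216314_pr.N.BDef

/-!
# The boundary of the box: geometry

All statements are case analyses: unfold `bp`, `be`, `ef`, `nrm`, `fl`, `dl`, `ea`, `eb`, set `τ = t % (8 n)` (`0 ≤ τ < 8 n`), `split_ifs`, `omega`. For `t + 1`: `(t + 1) % (8 n) = τ + 1` or `0`
(if `τ = 8 n - 1`). `|x|` and `max`: `abs_cases`, `max_cases`, or characterise `nrm v ≤ d ↔ -d ≤ v.1 ≤ d ∧ -d ≤ v.2 ≤ d` first.
`bp_lip`: one step changes by at most one unit vector (`be_ends`), then induction on `|t - s|`. `ef_circ`, `bp_circ`: put `s`, `t` in `[0, 8 n)` (`k` collects the periods); by cases of the two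
sides (16 cases, `omega`): if the points are on the same side the difference of the parameters is the distance; on neighbouring sides the circular distance is the sum of the two distances to the corner, each
`≤ d` (for faces: check the offsets); on opposite sides the distance is `≥ 2 n - 1 > d`... (for `n = 1`, `d = 0`: equal points). `k ∈ {-1, 0, 1}` after reduction.
(All statements were checked by computer for `n ≤ 5`.)
-/

set_option autoImplicit false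

noncomputable section

namespace FKN

open Finset FKI FKP

theorem AP1_le {v : V} {d : ℤ} : nrm v ≤ d ↔ (-d ≤ v.1 ∧ v.1 ≤ d) ∧ (-d ≤ v.2 ∧ v.2 ≤ d) := by
  unfold nrm
  rw [max_le_iff, abs_le, abs_le]

theorem AP1_eq {v : V} {n : ℕ} : nrm v = n ↔ ((-(n : ℤ) ≤ v.1 ∧ v.1 ≤ n) ∧ (-(n : ℤ) ≤ v.2 ∧ v.2 ≤ n)) ∧
    (v.1 = n ∨ v.1 = -(n : ℤ) ∨ v.2 = n ∨ v.2 = -(n : ℤ)) := by
  unfold nrm
  rcases abs_cases v.1 with h1 | h1 <;> rcases abs_cases v.2 with h2 | h2 <;>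
    rcases max_cases |v.1| |v.2| with h3 | h3 <;> constructor <;> intro h <;> omega

theorem AP1_val (n : ℕ) {t τ : ℤ} (h : t % (8 * (n : ℤ)) = τ) :
    (τ < 2 * n → bp n t = ((n : ℤ), τ - n) ∧ be n t = ((n : ℤ), τ - n, true) ∧ ef n t = ((n : ℤ), τ - n)) ∧
    (2 * (n : ℤ) ≤ τ → τ < 4 * n → bp n t = (3 * n - τ, (n : ℤ)) ∧ be n t = (3 * n - τ - 1, (n : ℤ), false) ∧
      ef n t = (3 * n - τ - 1, (n : ℤ))) ∧
    (4 * (n : ℤ) ≤ τ → τ < 6 * n → bp n t = (-(n : ℤ), 5 * n - τ) ∧ be n t = (-(n : ℤ), 5 * n - τ - 1, true) ∧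
      ef n t = (-(n : ℤ) - 1, 5 * n - τ - 1)) ∧
    (6 * (n : ℤ) ≤ τ → bp n t = (τ - 7 * n, -(n : ℤ)) ∧ be n t = (τ - 7 * n, -(n : ℤ), false) ∧
      ef n t = (τ - 7 * n, -(n : ℤ) - 1)) := by
  unfold bp be ef
  rw [h]
  refine ⟨fun h1 => ?_, fun h1 h2 => ?_, fun h1 h2 => ?_, fun h1 => ?_⟩
  · rw [if_pos h1, if_pos h1, if_pos h1]
    exact ⟨rfl, rfl, rfl⟩
  · have h3 : ¬ τ < 2 * n := by omega
    rw [if_neg h3, if_neg h3, if_neg h3, if_pos h2, if_pos h2, if_pos h2]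
    exact ⟨rfl, rfl, rfl⟩
  · have h3 : ¬ τ < 2 * n := by omega
    have h4 : ¬ τ < 4 * n := by omega
    rw [if_neg h3, if_neg h3, if_neg h3, if_neg h4, if_neg h4, if_neg h4, if_pos h2, if_pos h2, if_pos h2]
    exact ⟨rfl, rfl, rfl⟩
  · have h3 : ¬ τ < 2 * n := by omega
    have h4 : ¬ τ < 4 * n := by omega
    have h5 : ¬ τ < 6 * n := by omega
    rw [if_neg h3, if_neg h3, if_neg h3, if_neg h4, if_neg h4, if_neg h4, if_neg h5, if_neg h5, if_neg h5]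
    exact ⟨rfl, rfl, rfl⟩

theorem AP1_cases {n : ℕ} (hn : 1 ≤ n) (t : ℤ) : ∃ τ : ℤ, t % (8 * (n : ℤ)) = τ ∧ 0 ≤ τ ∧ τ < 8 * n ∧
    ((τ < 2 * n ∧ bp n t = ((n : ℤ), τ - n) ∧ be n t = ((n : ℤ), τ - n, true) ∧ ef n t = ((n : ℤ), τ - n)) ∨
    (2 * (n : ℤ) ≤ τ ∧ τ < 4 * n ∧ bp n t = (3 * n - τ, (n : ℤ)) ∧ be n t = (3 * n - τ - 1, (n : ℤ), false) ∧
      ef n t = (3 * n - τ - 1, (n : ℤ))) ∨
    (4 * (n : ℤ) ≤ τ ∧ τ < 6 * n ∧ bp n t = (-(n : ℤ), 5 * n - τ) ∧ be n t = (-(n : ℤ), 5 * n - τ - 1, true) ∧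
      ef n t = (-(n : ℤ) - 1, 5 * n - τ - 1)) ∨
    (6 * (n : ℤ) ≤ τ ∧ bp n t = (τ - 7 * n, -(n : ℤ)) ∧ be n t = (τ - 7 * n, -(n : ℤ), false) ∧
      ef n t = (τ - 7 * n, -(n : ℤ) - 1))) := by
  obtain ⟨v1, v2, v3, v4⟩ := AP1_val n (t := t) rfl
  have h0 : 0 ≤ t % (8 * (n : ℤ)) := Int.emod_nonneg _ (by omega)
  have h1 : t % (8 * (n : ℤ)) < 8 * n := Int.emod_lt_of_pos _ (by omega)
  refine ⟨_, rfl, h0, h1, ?_⟩
  generalize t % (8 * (n : ℤ)) = τ at v1 v2 v3 v4 h0 h1 ⊢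
  by_cases a1 : τ < 2 * n
  · exact Or.inl ⟨a1, v1 a1⟩
  · by_cases a2 : τ < 4 * n
    · exact Or.inr (Or.inl ⟨by omega, a2, v2 (by omega) a2⟩)
    · by_cases a3 : τ < 6 * n
      · exact Or.inr (Or.inr (Or.inl ⟨by omega, a3, v3 (by omega) a3⟩))
      · exact Or.inr (Or.inr (Or.inr ⟨by omega, v4 (by omega)⟩))

theorem AP1_succ {n : ℕ} (hn : 1 ≤ n) {t τ τ' : ℤ} (h : t % (8 * (n : ℤ)) = τ)
    (h' : (t + 1) % (8 * (n : ℤ)) = τ') : (τ' = τ + 1 ∧ τ + 1 < 8 * n) ∨ (τ' = 0 ∧ τ = 8 * n - 1) := by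
  have h0 : 0 ≤ τ := by
    rw [← h]
    exact Int.emod_nonneg _ (by omega)
  have h1 : τ < 8 * n := by
    rw [← h]
    exact Int.emod_lt_of_pos _ (by omega)
  have h2 : (t + 1) % (8 * (n : ℤ)) = (τ + 1) % (8 * (n : ℤ)) := by
    rw [← h, Int.emod_add_emod]
  rw [h2] at h'
  by_cases h3 : τ + 1 < 8 * n
  · left
    rw [Int.emod_eq_of_lt (by omega) h3] at h'
    exact ⟨h'.symm, h3⟩
  · right
    have h4 : τ + 1 = 8 * (n : ℤ) := by omega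
    rw [h4, Int.emod_self] at h'
    exact ⟨h'.symm, by omega⟩

theorem AP1_ea_true (x y : ℤ) : ea (x, y, true) = (x, y) ∧ eb (x, y, true) = (x, y + 1) := ⟨rfl, rfl⟩

theorem AP1_ea_false (x y : ℤ) : ea (x, y, false) = (x, y) ∧ eb (x, y, false) = (x + 1, y) := ⟨rfl, rfl⟩

theorem AP1_pair (a b c d : ℤ) : ((a, b) : V) = (c, d) ↔ a = c ∧ b = d := Prod.mk.injEq a b c d ▸ Iff.rfl

/-- the two ends of `be`, the step of `bp` -/
theorem AP1_ends {n : ℕ} (hn : 1 ≤ n) (t : ℤ) : ((ea (be n t) = bp n t ∧ eb (be n t) = bp n (t + 1)) ∨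
    (ea (be n t) = bp n (t + 1) ∧ eb (be n t) = bp n t)) := by
  obtain ⟨τ, h, h0, h1, hc⟩ := AP1_cases hn t
  obtain ⟨τ', h', h0', h1', hc'⟩ := AP1_cases hn (t + 1)
  have hs := AP1_succ hn h h'
  rcases hc with ⟨a1, e1, e2, _⟩ | ⟨a1, a2, e1, e2, _⟩ | ⟨a1, a2, e1, e2, _⟩ | ⟨a1, e1, e2, _⟩ <;>
    rcases hc' with ⟨b1, f1, _, _⟩ | ⟨b1, b2, f1, _, _⟩ | ⟨b1, b2, f1, _, _⟩ | ⟨b1, f1, _, _⟩ <;>
    rw [e1, e2, f1] <;>
    first
    | (rw [(AP1_ea_true _ _).1, (AP1_ea_true _ _).2, AP1_pair, AP1_pair, AP1_pair, AP1_pair]; omega)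
    | (rw [(AP1_ea_false _ _).1, (AP1_ea_false _ _).2, AP1_pair, AP1_pair, AP1_pair, AP1_pair]; omega)

theorem AP1_mem {r : ℕ} {e : Edge} : e ∈ bx r ↔
    (e.2.2 = false ∧ -(r : ℤ) ≤ e.1 ∧ e.1 < r ∧ -(r : ℤ) ≤ e.2.1 ∧ e.2.1 ≤ r) ∨
    (e.2.2 = true ∧ -(r : ℤ) ≤ e.1 ∧ e.1 ≤ r ∧ -(r : ℤ) ≤ e.2.1 ∧ e.2.1 < r) := by
  unfold bx
  exact mem_box

/-- the two ends of the dual edge -/
theorem AP1_dl_true (x y : ℤ) : ea (dl (x, y, true)) = (x - 1, y) ∧ eb (dl (x, y, true)) = (x, y) := by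
  refine ⟨rfl, ?_⟩
  show (x - 1 + 1, y) = (x, y)
  rw [sub_add_cancel]

theorem AP1_dl_false (x y : ℤ) : ea (dl (x, y, false)) = (x, y - 1) ∧ eb (dl (x, y, false)) = (x, y) := by
  refine ⟨rfl, ?_⟩
  show (x, y - 1 + 1) = (x, y)
  rw [sub_add_cancel]

theorem AP1_fl_le {f : V} {d : ℤ} : fl f ≤ d ↔ (f.1 ≤ d ∧ -f.1 - 1 ≤ d) ∧ (f.2 ≤ d ∧ -f.2 - 1 ≤ d) := by
  unfold fl
  rw [max_le_iff, max_le_iff, max_le_iff]

theorem AP1_fl_eq {f : V} {n : ℤ} : fl f = n ↔ ((f.1 ≤ n ∧ -f.1 - 1 ≤ n) ∧ (f.2 ≤ n ∧ -f.2 - 1 ≤ n)) ∧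
    (f.1 = n ∨ -f.1 - 1 = n ∨ f.2 = n ∨ -f.2 - 1 = n) := by
  unfold fl
  rcases max_cases f.1 (-f.1 - 1) with h1 | h1 <;> rcases max_cases f.2 (-f.2 - 1) with h2 | h2 <;>
    rcases max_cases (max f.1 (-f.1 - 1)) (max f.2 (-f.2 - 1)) with h3 | h3 <;> constructor <;> intro h <;> omega

theorem AP1_step {n : ℕ} (hn : 1 ≤ n) (t : ℤ) : nrm (bp n (t + 1) - bp n t) ≤ 1 := by
  rw [AP1_le]
  rcases AP1_ends hn t with ⟨h1, h2⟩ | ⟨h1, h2⟩ <;> rw [← h1, ← h2] <;>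
    obtain ⟨x, y, b⟩ := be n t <;> cases b <;> unfold ea eb <;>
    simp only [Prod.fst_sub, Prod.snd_sub, if_true, if_false, Bool.false_eq_true] <;> omega

theorem AP1_tri (u v w : V) : nrm (u - w) ≤ nrm (u - v) + nrm (v - w) := by
  have h1 := (AP1_le (v := u - v)).1 le_rfl
  have h2 := (AP1_le (v := v - w)).1 le_rfl
  rw [AP1_le]
  simp only [Prod.fst_sub, Prod.snd_sub] at h1 h2 ⊢
  omega

theorem AP1_symm (u v : V) : nrm (u - v) = nrm (v - u) := by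
  unfold nrm
  rw [Prod.fst_sub, Prod.snd_sub, Prod.fst_sub, Prod.snd_sub, abs_sub_comm u.1, abs_sub_comm u.2]

theorem AP1_lip {n : ℕ} (hn : 1 ≤ n) (t : ℤ) (k : ℕ) : nrm (bp n (t + k) - bp n t) ≤ k := by
  induction k with
  | zero =>
    rw [AP1_le]
    simp
  | succ k ih =>
    have h1 := AP1_step hn (t + k)
    have h2 := AP1_tri (bp n (t + k + 1)) (bp n (t + k)) (bp n t)
    have h3 : t + ((k + 1 : ℕ) : ℤ) = t + k + 1 := by
      push_cast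
      ring
    rw [h3]
    push_cast
    linarith

/-- the parameters from the reduced ones -/
theorem AP1_red {n : ℕ} {t s τ σ : ℤ} {d : ℕ} (h : t % (8 * (n : ℤ)) = τ) (h' : s % (8 * (n : ℤ)) = σ)
    (hc : (-(2 * (d : ℤ)) ≤ τ - σ ∧ τ - σ ≤ 2 * d) ∨
      (-(2 * (d : ℤ)) ≤ τ - σ - 8 * n ∧ τ - σ - 8 * n ≤ 2 * d) ∨
      (-(2 * (d : ℤ)) ≤ τ - σ + 8 * n ∧ τ - σ + 8 * n ≤ 2 * d)) :
    ∃ k : ℤ, |t - s - 8 * n * k| ≤ 2 * d := by
  have h1 := Int.emod_add_mul_ediv t (8 * (n : ℤ))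
  have h2 := Int.emod_add_mul_ediv s (8 * (n : ℤ))
  rw [h] at h1
  rw [h'] at h2
  rcases hc with hc | hc | hc
  · refine ⟨t / (8 * (n : ℤ)) - s / (8 * (n : ℤ)), ?_⟩
    have h3 : t - s - 8 * n * (t / (8 * (n : ℤ)) - s / (8 * (n : ℤ))) = τ - σ := by
      linear_combination -h1 + h2
    rw [h3, abs_le]
    exact hc
  · refine ⟨t / (8 * (n : ℤ)) - s / (8 * (n : ℤ)) + 1, ?_⟩
    have h3 : t - s - 8 * n * (t / (8 * (n : ℤ)) - s / (8 * (n : ℤ)) + 1) = τ - σ - 8 * n := by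
      linear_combination -h1 + h2
    rw [h3, abs_le]
    exact hc
  · refine ⟨t / (8 * (n : ℤ)) - s / (8 * (n : ℤ)) - 1, ?_⟩
    have h3 : t - s - 8 * n * (t / (8 * (n : ℤ)) - s / (8 * (n : ℤ)) - 1) = τ - σ + 8 * n := by
      linear_combination -h1 + h2
    rw [h3, abs_le]
    exact hc

theorem bp_nrm {n : ℕ} (hn : 1 ≤ n) (t : ℤ) : nrm (bp n t) = n := by
  obtain ⟨τ, h, h0, h1, hc⟩ := AP1_cases hn t
  rw [AP1_eq]
  rcases hc with ⟨a1, e1, _⟩ | ⟨a1, a2, e1, _⟩ | ⟨a1, a2, e1, _⟩ | ⟨a1, e1, _⟩ <;> rw [e1] <;>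
    dsimp only <;> omega

theorem exists_bp {n : ℕ} (hn : 1 ≤ n) {v : V} (h : nrm v = n) : ∃ t : ℤ, 0 ≤ t ∧ t < 8 * n ∧ bp n t = v := by
  rw [AP1_eq] at h
  obtain ⟨x, y⟩ := v
  simp only at h
  have key : ∀ t : ℤ, 0 ≤ t → t < 8 * n → t % (8 * (n : ℤ)) = t := fun t h1 h2 => Int.emod_eq_of_lt h1 h2
  by_cases h1 : x = n ∧ y < n
  · refine ⟨y + n, by omega, by omega, ?_⟩
    rw [((AP1_val n (key (y + n) (by omega) (by omega))).1 (by omega)).1]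
    exact Prod.ext (by simp only; omega) (by simp only; omega)
  · by_cases h2 : y = n ∧ -(n : ℤ) < x
    · refine ⟨3 * n - x, by omega, by omega, ?_⟩
      rw [((AP1_val n (key (3 * n - x) (by omega) (by omega))).2.1 (by omega) (by omega)).1]
      exact Prod.ext (by simp only; omega) (by simp only; omega)
    · by_cases h3 : x = -(n : ℤ) ∧ -(n : ℤ) < y
      · refine ⟨5 * n - y, by omega, by omega, ?_⟩
        rw [((AP1_val n (key (5 * n - y) (by omega) (by omega))).2.2.1 (by omega) (by omega)).1]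
        exact Prod.ext (by simp only; omega) (by simp only; omega)
      · refine ⟨x + 7 * n, by omega, by omega, ?_⟩
        rw [((AP1_val n (key (x + 7 * n) (by omega) (by omega))).2.2.2 (by omega)).1]
        exact Prod.ext (by simp only; omega) (by simp only; omega)

theorem bp_per (n : ℕ) (t k : ℤ) : bp n (t + 8 * n * k) = bp n t := by
  unfold bp
  rw [Int.add_mul_emod_self_left]

theorem ef_per (n : ℕ) (t k : ℤ) : ef n (t + 8 * n * k) = ef n t := by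
  unfold ef
  rw [Int.add_mul_emod_self_left]

theorem be_per (n : ℕ) (t k : ℤ) : be n (t + 8 * n * k) = be n t := by
  unfold be
  rw [Int.add_mul_emod_self_left]

theorem be_ends {n : ℕ} (hn : 1 ≤ n) (t : ℤ) : (ea (be n t) = bp n t ∧ eb (be n t) = bp n (t + 1)) ∨
    (ea (be n t) = bp n (t + 1) ∧ eb (be n t) = bp n t) := by
  exact AP1_ends hn t

theorem be_mem {n : ℕ} (hn : 1 ≤ n) (t : ℤ) : be n t ∈ bx n := by
  obtain ⟨τ, h, h0, h1, hc⟩ := AP1_cases hn t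
  rw [AP1_mem]
  rcases hc with ⟨a1, _, e1, _⟩ | ⟨a1, a2, _, e1, _⟩ | ⟨a1, a2, _, e1, _⟩ | ⟨a1, _, e1, _⟩ <;> rw [e1] <;>
    simp only [Bool.false_eq_true, Bool.true_eq_false, true_and, false_and, or_false, false_or] <;> omega

theorem ef_end {n : ℕ} (hn : 1 ≤ n) (t : ℤ) : ef n t = ea (dl (be n t)) ∨ ef n t = eb (dl (be n t)) := by
  obtain ⟨τ, h, h0, h1, hc⟩ := AP1_cases hn t
  rcases hc with ⟨a1, _, e1, e2⟩ | ⟨a1, a2, _, e1, e2⟩ | ⟨a1, a2, _, e1, e2⟩ | ⟨a1, _, e1, e2⟩ <;> rw [e1, e2]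
  · right
    rw [(AP1_dl_true _ _).2]
  · right
    rw [(AP1_dl_false _ _).2]
  · left
    rw [(AP1_dl_true _ _).1]
  · left
    rw [(AP1_dl_false _ _).1]

theorem ef_unique {n : ℕ} (hn : 1 ≤ n) {t : ℤ} {e : Edge} (he : e ∈ bx n)
    (h : ef n t = ea (dl e) ∨ ef n t = eb (dl e)) : e = be n t := by
  obtain ⟨τ, h', h0, h1, hc⟩ := AP1_cases hn t
  rw [AP1_mem] at he
  obtain ⟨x, y, b⟩ := e
  cases b
  · rw [(AP1_dl_false x y).1, (AP1_dl_false x y).2] at h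
    rcases hc with ⟨a1, _, e1, e2⟩ | ⟨a1, a2, _, e1, e2⟩ | ⟨a1, a2, _, e1, e2⟩ | ⟨a1, _, e1, e2⟩ <;>
      rw [e2] at h <;> rw [e1] <;>
      simp only [Prod.mk.injEq, Bool.false_eq_true, Bool.true_eq_false, true_and, false_and, and_false, and_true,
        or_false] at h he ⊢ <;> omega
  · rw [(AP1_dl_true x y).1, (AP1_dl_true x y).2] at h
    rcases hc with ⟨a1, _, e1, e2⟩ | ⟨a1, a2, _, e1, e2⟩ | ⟨a1, a2, _, e1, e2⟩ | ⟨a1, _, e1, e2⟩ <;>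
      rw [e2] at h <;> rw [e1] <;>
      simp only [Prod.mk.injEq, Bool.false_eq_true, Bool.true_eq_false, true_and, false_and, and_false, and_true,
        false_or] at h he ⊢ <;> omega

theorem exists_ef {n : ℕ} (hn : 1 ≤ n) {f : V} {e : Edge} (he : e ∈ bx n) (hf : fl f = n)
    (h : f = ea (dl e) ∨ f = eb (dl e)) : ∃ t : ℤ, 0 ≤ t ∧ t < 8 * n ∧ ef n t = f := by
  rw [AP1_fl_eq] at hf
  rw [AP1_mem] at he
  have key : ∀ t : ℤ, 0 ≤ t → t < 8 * n → t % (8 * (n : ℤ)) = t := fun t h1 h2 => Int.emod_eq_of_lt h1 h2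
  have hr : (f.1 = n ∧ -(n : ℤ) ≤ f.2 ∧ f.2 < n) ∨ (f.2 = n ∧ -(n : ℤ) ≤ f.1 ∧ f.1 < n) ∨
      (f.1 = -(n : ℤ) - 1 ∧ -(n : ℤ) ≤ f.2 ∧ f.2 < n) ∨ (f.2 = -(n : ℤ) - 1 ∧ -(n : ℤ) ≤ f.1 ∧ f.1 < n) := by
    obtain ⟨x, y, b⟩ := e
    obtain ⟨u, v⟩ := f
    cases b
    · rw [(AP1_dl_false x y).1, (AP1_dl_false x y).2] at h
      simp only [Prod.mk.injEq, Bool.false_eq_true, true_and, false_and, or_false] at h he hf ⊢
      omega
    · rw [(AP1_dl_true x y).1, (AP1_dl_true x y).2] at h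
      simp only [Prod.mk.injEq, Bool.true_eq_false, true_and, false_and, false_or] at h he hf ⊢
      omega
  obtain ⟨x, y⟩ := f
  simp only at hr
  rcases hr with h1 | h1 | h1 | h1
  · refine ⟨y + n, by omega, by omega, ?_⟩
    rw [((AP1_val n (key (y + n) (by omega) (by omega))).1 (by omega)).2.2]
    exact Prod.ext (by simp only; omega) (by simp only; omega)
  · refine ⟨3 * n - 1 - x, by omega, by omega, ?_⟩
    rw [((AP1_val n (key (3 * n - 1 - x) (by omega) (by omega))).2.1 (by omega) (by omega)).2.2]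
    exact Prod.ext (by simp only; omega) (by simp only; omega)
  · refine ⟨5 * n - 1 - y, by omega, by omega, ?_⟩
    rw [((AP1_val n (key (5 * n - 1 - y) (by omega) (by omega))).2.2.1 (by omega) (by omega)).2.2]
    exact Prod.ext (by simp only; omega) (by simp only; omega)
  · refine ⟨x + 7 * n, by omega, by omega, ?_⟩
    rw [((AP1_val n (key (x + 7 * n) (by omega) (by omega))).2.2.2 (by omega)).2.2]
    exact Prod.ext (by simp only; omega) (by simp only; omega)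

theorem fl_ef {n : ℕ} (hn : 1 ≤ n) (t : ℤ) : fl (ef n t) = n := by
  obtain ⟨τ, h, h0, h1, hc⟩ := AP1_cases hn t
  rw [AP1_fl_eq]
  rcases hc with ⟨a1, _, _, e1⟩ | ⟨a1, a2, _, _, e1⟩ | ⟨a1, a2, _, _, e1⟩ | ⟨a1, _, _, e1⟩ <;> rw [e1] <;>
    dsimp only <;> omega

theorem bp_lip {n : ℕ} (hn : 1 ≤ n) (t s : ℤ) : nrm (bp n t - bp n s) ≤ |t - s| := by
  rcases le_total s t with h | h
  · obtain ⟨k, hk⟩ := Int.eq_ofNat_of_zero_le (sub_nonneg.2 h)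
    have h1 := AP1_lip hn s k
    have h2 : s + (k : ℤ) = t := by
      omega
    rw [h2] at h1
    rw [abs_of_nonneg (sub_nonneg.2 h), hk]
    exact h1
  · obtain ⟨k, hk⟩ := Int.eq_ofNat_of_zero_le (sub_nonneg.2 h)
    have h1 := AP1_lip hn t k
    have h2 : t + (k : ℤ) = s := by
      omega
    rw [h2] at h1
    rw [abs_sub_comm, abs_of_nonneg (sub_nonneg.2 h), hk, AP1_symm]
    exact h1

theorem ef_bp {n : ℕ} (hn : 1 ≤ n) (t : ℤ) : nrm (ef n t - bp n t) ≤ 1 := by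
  obtain ⟨τ, h, h0, h1, hc⟩ := AP1_cases hn t
  rw [AP1_le]
  rcases hc with ⟨a1, e1, _, e2⟩ | ⟨a1, a2, e1, _, e2⟩ | ⟨a1, a2, e1, _, e2⟩ | ⟨a1, e1, _, e2⟩ <;> rw [e1, e2] <;>
    simp only [Prod.fst_sub, Prod.snd_sub] <;> omega

theorem ef_circ {n : ℕ} {t s : ℤ} {d : ℕ} (hd : d < n) (h : nrm (ef n t - ef n s) ≤ d) :
    ∃ k : ℤ, |t - s - 8 * n * k| ≤ 2 * d := by
  have hn : 1 ≤ n := by omega
  obtain ⟨τ, ht, h0, h1, hc⟩ := AP1_cases hn t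
  obtain ⟨σ, hs, h0', h1', hc'⟩ := AP1_cases hn s
  refine AP1_red ht hs ?_
  rw [AP1_le] at h
  rcases hc with ⟨a1, _, _, e1⟩ | ⟨a1, a2, _, _, e1⟩ | ⟨a1, a2, _, _, e1⟩ | ⟨a1, _, _, e1⟩ <;>
    rcases hc' with ⟨b1, _, _, f1⟩ | ⟨b1, b2, _, _, f1⟩ | ⟨b1, b2, _, _, f1⟩ | ⟨b1, _, _, f1⟩ <;>
    rw [e1, f1] at h <;> simp only [Prod.fst_sub, Prod.snd_sub] at h <;> omega

theorem bp_circ {n : ℕ} {t s : ℤ} {d : ℕ} (hd : d < n) (h : nrm (bp n t - bp n s) ≤ d) :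
    ∃ k : ℤ, |t - s - 8 * n * k| ≤ 2 * d := by
  have hn : 1 ≤ n := by omega
  obtain ⟨τ, ht, h0, h1, hc⟩ := AP1_cases hn t
  obtain ⟨σ, hs, h0', h1', hc'⟩ := AP1_cases hn s
  refine AP1_red ht hs ?_
  rw [AP1_le] at h
  rcases hc with ⟨a1, e1, _⟩ | ⟨a1, a2, e1, _⟩ | ⟨a1, a2, e1, _⟩ | ⟨a1, e1, _⟩ <;>
    rcases hc' with ⟨b1, f1, _⟩ | ⟨b1, b2, f1, _⟩ | ⟨b1, b2, f1, _⟩ | ⟨b1, f1, _⟩ <;>
    rw [e1, f1] at h <;> simp only [Prod.fst_sub, Prod.snd_sub] at h <;> omega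

theorem fl_edge (e : Edge) : fl (ea e) - fl (eb e) ≤ 1 ∧ fl (eb e) - fl (ea e) ≤ 1 := by
  obtain ⟨x, y, b⟩ := e
  have h1 := (AP1_fl_le (f := ea (x, y, b))).1 le_rfl
  have h2 := (AP1_fl_le (f := eb (x, y, b))).1 le_rfl
  have h3 : fl (ea (x, y, b)) ≤ fl (eb (x, y, b)) + 1 := by
    rw [AP1_fl_le]
    cases b <;> simp only [ea, eb, if_true, if_false, Bool.false_eq_true] at h2 ⊢ <;> omega
  have h4 : fl (eb (x, y, b)) ≤ fl (ea (x, y, b)) + 1 := by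
    rw [AP1_fl_le]
    cases b <;> simp only [ea, eb, if_true, if_false, Bool.false_eq_true] at h1 ⊢ <;> omega
  omega

theorem fl_le_of_bx {h : ℕ} {e : Edge} (he : e ∈ bx h) : fl (ea (dl e)) ≤ h ∧ fl (eb (dl e)) ≤ h := by
  rw [AP1_mem] at he
  obtain ⟨x, y, b⟩ := e
  rw [AP1_fl_le, AP1_fl_le]
  cases b
  · rw [(AP1_dl_false x y).1, (AP1_dl_false x y).2]
    simp only [Bool.false_eq_true, true_and, false_and, or_false] at he ⊢
    omega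
  · rw [(AP1_dl_true x y).1, (AP1_dl_true x y).2]
    simp only [Bool.true_eq_false, true_and, false_and, false_or] at he ⊢
    omega

theorem nrm_fl (f : V) : fl f ≤ nrm f ∧ nrm f ≤ fl f + 1 := by
  have h1 := (AP1_fl_le (f := f)).1 le_rfl
  have h2 := (AP1_le (v := f)).1 le_rfl
  constructor
  · rw [AP1_fl_le]
    omega
  · rw [AP1_le]
    omega

end FKN
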