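import Pool.Agent.Lib.MP_216314_pr.N.AP1
import Pool.Agent.Lib.MP_216314_pr.Chain

/-!
# Box duality, existence

Proof of `BD1` by contradiction. Let `R` be the set of the faces `f` with `(gr (dc (bx n) ω)).Reachable (ef n s) f` for some `t1 ≤ s < t3`, and suppose that no `ef n s'` with
`t3 ≤ s' < t1 + 8 n` is in `R`. Define the chain `c e = 1` if `e ∈ bx n` and exactly one of the faces `ea (dl e)`, `eb (dl e)` is in `R`, `c e = 0` otherwise (classical, in `ZMod 2`: for `e ∈ bx n`,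
`c e = 1_R (ea (dl e)) + 1_R (eb (dl e))`).
(1) `c e ≠ 0` implies `e ∈ ω` (otherwise `dl e ∈ dc (bx n) ω` connects the two faces).
(2) the boundary (`bd`, Chain) of `c` is `ind (bp n t1) + ind (bp n t3)`: at a vertex `v` with `nrm v < n` all four edges are in `bx n` and each of the four faces around `v`
(`(v.1 - 1, v.2 - 1)`, `(v.1, v.2 - 1)`, `(v.1 - 1, v.2)`, `(v.1, v.2)`) occurs twice: `bd c v = 0` (`dl (x, y, false) = (x, y - 1, true)`: faces `(x, y - 1)`, `(x, y)`; `dl (x, y, true) = (x - 1, y, false)`: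
faces `(x - 1, y)`, `(x, y)`). `nrm v > n`: no edge at `v` is in `bx n`, `bd c v = 0`. `v = bp n t` on the boundary: the faces around `v` which are adjacent to only one edge at `v` of `bx n` are `ef n (t - 1)` and `ef n t`, so
`bd c v = 1_R (ef n (t - 1)) + 1_R (ef n t)` (cases: corner or not, four sides; at a corner only two edges at `v` are in `bx n`). For `t1 ≤ t < t1 + 8 n` (`bp_per`): `ef n t ∈ R` iff `t < t3`; so the sum is `1` exactly for
`t = t1` (`ef n (t1 - 1) = ef n (t1 + 8 n - 1) ∉ R`) and `t = t3`. (`bp n` is injective on `[t1, t1 + 8 n)`: `bp n t = bp n t'` implies `8 n ∣ t - t'`: cases.)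
(3) Let `S` be the finite set of the vertices of `[-n,n]²` connected to `bp n t1` in `gr (ω ∩ bx n)`. `∑ v ∈ S, bd c v = 0`: by (1) every `e` with `c e ≠ 0` has both ends in `S` or none, and each end contributes `c e` (rewrite
`bd c v = ∑ e ∈ bx n, (if ea e = v then c e else 0) + (if eb e = v then c e else 0)` and exchange the sums). By (2) the sum is `1 + [bp n t3 ∈ S]`, so `bp n t3 ∈ S`, contradiction.
(Fully proved tools of the same kind: `bd_sum`, `cutc`, `prim2` in MP_216314_pr_Y.tgz, and `pth` in Chain.)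
-/

set_option autoImplicit false

noncomputable section

namespace FKN

open Finset FKI FKP

private theorem AP2_bd_sum {S : Finset Edge} {c : Edge → ZMod 2} (hS : ∀ e, e ∉ S → c e = 0) {T : Finset V}
    (hT : ∀ e ∈ S, ea e ∈ T ∧ eb e ∈ T) : ∑ v ∈ T, bd c v = 0 := by
  classical
  have hc : c = ∑ e ∈ S, (fun e' => c e * sg e e') := by
    funext e'
    rw [Finset.sum_apply]
    by_cases h : e' ∈ S
    · rw [sum_eq_single e']
      · simp [sg]
      · intro b _ hb
        simp [sg, hb.symm]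
      · intro h2
        exact absurd h h2
    · rw [hS e' h]
      symm
      apply sum_eq_zero
      intro e he
      have : e' ≠ e := fun h2 => h (h2 ▸ he)
      simp [sg, this]
  have hbd : ∀ v, bd c v = ∑ e ∈ S, c e * (ind (ea e) v + ind (eb e) v) := by
    intro v
    have h1 : ∀ e : Edge, c e * (ind (ea e) v + ind (eb e) v) = bd (fun e' => c e * sg e e') v := by
      intro e
      rw [← bd_sg e v]
      unfold bd
      ring
    simp only [h1]
    unfold bd
    rw [← sum_add_distrib.symm]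
    conv_lhs => rw [hc]
    simp only [Finset.sum_apply, sum_add_distrib]
  simp only [hbd]
  rw [sum_comm]
  apply sum_eq_zero
  intro e he
  rw [← mul_sum, sum_add_distrib]
  have h1 : ∀ u ∈ T, ∑ v ∈ T, ind u v = 1 := by
    intro u hu
    unfold ind
    rw [sum_ite_eq' T u, if_pos hu]
  rw [h1 _ (hT e he).1, h1 _ (hT e he).2]
  have : (1 : ZMod 2) + 1 = 0 := by decide
  rw [this, mul_zero]

private theorem AP2_adj {ω : Finset Edge} {e : Edge} (h : e ∈ ω) : (gr ω).Adj (ea e) (eb e) := by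
  unfold gr
  rw [SimpleGraph.fromRel_adj]
  refine ⟨?_, Or.inl ⟨e, h, rfl, rfl⟩⟩
  obtain ⟨x, y, t⟩ := e
  cases t
  · simp [ea, eb]
  · simp [ea, eb]

private theorem AP2_reach_fin {ω : Finset Edge} {a v : V} (h : (gr ω).Reachable a v) :
    v ∈ insert a (ω.image ea ∪ ω.image eb) := by
  classical
  obtain ⟨p⟩ := h
  cases p.reverse with
  | nil => exact mem_insert_self _ _
  | cons hadj _ =>
    unfold gr at hadj
    rw [SimpleGraph.fromRel_adj] at hadj
    refine mem_insert_of_mem (mem_union.2 ?_)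
    rcases hadj.2 with ⟨e, he, h1, h2⟩ | ⟨e, he, h1, h2⟩
    · exact Or.inl (mem_image.2 ⟨e, he, h1⟩)
    · exact Or.inr (mem_image.2 ⟨e, he, h2⟩)

/-- the sum of the boundary over a cluster -/
private theorem AP2_comp {ω : Finset Edge} {c : Edge → ZMod 2} (hc : ∀ e, c e ≠ 0 → e ∈ ω) {x : V}
    (hx : bd c x ≠ 0) : ∃ v : V, (gr ω).Reachable x v ∧ v ≠ x ∧ bd c v ≠ 0 := by
  classical
  by_contra hcon
  push Not at hcon
  obtain ⟨T, hT⟩ : ∃ T : Finset V, ∀ v, v ∈ T ↔ (gr ω).Reachable x v := by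
    refine ⟨(insert x (ω.image ea ∪ ω.image eb)).filter fun v => (gr ω).Reachable x v, fun v => ?_⟩
    rw [mem_filter]
    exact ⟨fun h => h.2, fun h => ⟨AP2_reach_fin h, h⟩⟩
  have hend : ∀ e ∈ ω, (ea e ∈ T ↔ eb e ∈ T) := by
    intro e he
    rw [hT, hT]
    exact ⟨fun h => h.trans (AP2_adj he).reachable, fun h => h.trans (AP2_adj he).symm.reachable⟩
  have h0 : ∑ v ∈ T, bd (fun e => if ea e ∈ T then c e else 0) v = 0 := by
    refine AP2_bd_sum (S := ω.filter fun e => ea e ∈ T) ?_ ?_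
    · intro e he
      rw [mem_filter, not_and_or] at he
      by_cases h : ea e ∈ T
      · rw [if_pos h]
        by_contra h1
        rcases he with h2 | h2
        · exact h2 (hc e h1)
        · exact h2 h
      · rw [if_neg h]
    · intro e he
      rw [mem_filter] at he
      exact ⟨he.2, (hend e he.1).1 he.2⟩
  have h1 : ∀ v ∈ T, bd (fun e => if ea e ∈ T then c e else 0) v = bd c v := by
    intro v hv
    have h2 : ∀ e : Edge, (ea e = v ∨ eb e = v) → (if ea e ∈ T then c e else 0) = c e := by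
      intro e he
      by_cases h3 : c e = 0
      · rw [h3]
        split_ifs <;> rfl
      · rw [if_pos]
        rcases he with h4 | h4
        · rw [h4]
          exact hv
        · rw [hend e (hc e h3), h4]
          exact hv
    unfold bd
    beta_reduce
    rw [h2 (v.1 - 1, v.2, false) (Or.inr (by simp [eb])), h2 (v.1, v.2, false) (Or.inl (by simp [ea])),
      h2 (v.1, v.2 - 1, true) (Or.inr (by simp [eb])), h2 (v.1, v.2, true) (Or.inl (by simp [ea]))]
  rw [sum_congr rfl h1, sum_eq_single x] at h0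
  · exact hx h0
  · intro v hv hvx
    exact hcon v ((hT v).1 hv) hvx
  · intro h2
    exact absurd ((hT x).2 (SimpleGraph.Reachable.refl x)) h2

open Classical in
/-- the chain of the edges of `F` between the faces -/
private def AP2_c (k : V → ZMod 2) (F : Finset Edge) (e : Edge) : ZMod 2 :=
  if e ∈ F then k (ea (dl e)) + k (eb (dl e)) else 0

open Classical in
private theorem AP2_bd_c (k : V → ZMod 2) (F : Finset Edge) (x y : ℤ) : bd (AP2_c k F) (x, y) =
    (if ((x - 1, y, false) : Edge) ∈ F then k (x - 1, y - 1) + k (x - 1, y) else 0) +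
    (if ((x, y, false) : Edge) ∈ F then k (x, y - 1) + k (x, y) else 0) +
    (if ((x, y - 1, true) : Edge) ∈ F then k (x - 1, y - 1) + k (x, y - 1) else 0) +
    (if ((x, y, true) : Edge) ∈ F then k (x - 1, y) + k (x, y) else 0) := by
  simp only [bd, AP2_c, dl, ea, eb, Equiv.coe_fn_mk, Bool.false_eq_true, if_false, if_true, sub_add_cancel]

private theorem AP2_iff {k : V → ZMod 2} {F F' : Finset Edge} {x y : ℤ}
    (h1 : ((x - 1, y, false) : Edge) ∈ F ↔ ((x - 1, y, false) : Edge) ∈ F')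
    (h2 : ((x, y, false) : Edge) ∈ F ↔ ((x, y, false) : Edge) ∈ F')
    (h3 : ((x, y - 1, true) : Edge) ∈ F ↔ ((x, y - 1, true) : Edge) ∈ F')
    (h4 : ((x, y, true) : Edge) ∈ F ↔ ((x, y, true) : Edge) ∈ F') :
    bd (AP2_c k F) (x, y) = bd (AP2_c k F') (x, y) := by
  rw [AP2_bd_c, AP2_bd_c]
  simp only [h1, h2, h3, h4]

private theorem AP2_not {k : V → ZMod 2} {F F' : Finset Edge} {x y : ℤ}
    (h1 : ((x - 1, y, false) : Edge) ∈ F ↔ ((x - 1, y, false) : Edge) ∉ F')
    (h2 : ((x, y, false) : Edge) ∈ F ↔ ((x, y, false) : Edge) ∉ F')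
    (h3 : ((x, y - 1, true) : Edge) ∈ F ↔ ((x, y - 1, true) : Edge) ∉ F')
    (h4 : ((x, y, true) : Edge) ∈ F ↔ ((x, y, true) : Edge) ∉ F') :
    bd (AP2_c k F) (x, y) = bd (AP2_c k F') (x, y) := by
  classical
  rw [AP2_bd_c, AP2_bd_c]
  simp only [h1, h2, h3, h4, ite_not]
  generalize k (x - 1, y - 1) = a
  generalize k (x - 1, y) = b
  generalize k (x, y - 1) = c
  generalize k (x, y) = d
  revert a b c d
  split_ifs <;> decide

private theorem AP2_all {k : V → ZMod 2} {F : Finset Edge} {x y : ℤ}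
    (h1 : ((x - 1, y, false) : Edge) ∈ F) (h2 : ((x, y, false) : Edge) ∈ F)
    (h3 : ((x, y - 1, true) : Edge) ∈ F) (h4 : ((x, y, true) : Edge) ∈ F) : bd (AP2_c k F) (x, y) = 0 := by
  classical
  rw [AP2_bd_c, if_pos h1, if_pos h2, if_pos h3, if_pos h4]
  generalize k (x - 1, y - 1) = a
  generalize k (x - 1, y) = b
  generalize k (x, y - 1) = c
  generalize k (x, y) = d
  revert a b c d
  decide

private theorem AP2_none {k : V → ZMod 2} {F : Finset Edge} {x y : ℤ}
    (h1 : ((x - 1, y, false) : Edge) ∉ F) (h2 : ((x, y, false) : Edge) ∉ F)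
    (h3 : ((x, y - 1, true) : Edge) ∉ F) (h4 : ((x, y, true) : Edge) ∉ F) : bd (AP2_c k F) (x, y) = 0 := by
  classical
  rw [AP2_bd_c, if_neg h1, if_neg h2, if_neg h3, if_neg h4]
  rfl

private theorem AP2_mem {m : ℕ} {x y : ℤ} {t : Bool} : ((x, y, t) : Edge) ∈ bx m ↔
    (t = false ∧ -(m : ℤ) ≤ x ∧ x < m ∧ -(m : ℤ) ≤ y ∧ y ≤ m) ∨
    (t = true ∧ -(m : ℤ) ≤ x ∧ x ≤ m ∧ -(m : ℤ) ≤ y ∧ y < m) := by
  unfold bx
  rw [mem_box]

private theorem AP2_memf {m : ℕ} {x y : ℤ} : ((x, y, false) : Edge) ∈ bx m ↔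
    (-(m : ℤ) ≤ x ∧ x < m ∧ -(m : ℤ) ≤ y ∧ y ≤ m) := by
  rw [AP2_mem]
  simp

private theorem AP2_memt {m : ℕ} {x y : ℤ} : ((x, y, true) : Edge) ∈ bx m ↔
    (-(m : ℤ) ≤ x ∧ x ≤ m ∧ -(m : ℤ) ≤ y ∧ y < m) := by
  rw [AP2_mem]
  simp

/-- the boundary of the chain of the box at a boundary vertex -/
private theorem AP2_box {m : ℕ} (hm : 1 ≤ m) (k : V → ZMod 2) (t : ℤ) :
    bd (AP2_c k (bx m)) (bp m t) = k (ef m (t - 1)) + k (ef m t) := by
  classical
  have hm8 : (0 : ℤ) < 8 * m := by omega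
  obtain ⟨τ, hτ⟩ : ∃ τ : ℤ, t % (8 * m) = τ := ⟨_, rfl⟩
  have h0 : 0 ≤ τ := by
    rw [← hτ]
    exact Int.emod_nonneg _ hm8.ne'
  have h8 : τ < 8 * m := by
    rw [← hτ]
    exact Int.emod_lt_of_pos _ hm8
  have hpred : (t - 1) % (8 * m) = if τ = 0 then 8 * (m : ℤ) - 1 else τ - 1 := by
    have e1 : (t - 1) % (8 * m) = (τ - 1) % (8 * m) := by
      rw [← hτ, Int.emod_sub_emod]
    rw [e1]
    split_ifs with h
    · rw [h]
      have e2 : (0 - 1 : ℤ) = (8 * m - 1) + (8 * m) * (-1) := by ring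
      rw [e2, Int.add_mul_emod_self_left]
      exact Int.emod_eq_of_lt (by omega) (by omega)
    · exact Int.emod_eq_of_lt (by omega) (by omega)
  have fin : ∀ a b c d : ZMod 2, a + b + (a + c) + (b + d) = c + d := by decide
  unfold bp ef
  rw [hpred, hτ]
  rcases lt_trichotomy τ 0 with c0 | c0 | c0
  · exfalso; omega
  · -- corner `(m, -m)`
    subst c0
    rw [if_pos (show (0 : ℤ) = 0 from rfl), if_pos (show (0 : ℤ) < 2 * m by omega),
      if_neg (show ¬ (8 * (m : ℤ) - 1 < 2 * m) by omega), if_neg (show ¬ (8 * (m : ℤ) - 1 < 4 * m) by omega),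
      if_neg (show ¬ (8 * (m : ℤ) - 1 < 6 * m) by omega), if_pos (show (0 : ℤ) < 2 * m by omega), AP2_bd_c,
      if_pos (by rw [AP2_memf]; omega), if_neg (by rw [AP2_memf]; omega), if_neg (by rw [AP2_memt]; omega),
      if_pos (by rw [AP2_memt]; omega)]
    have e1 : (8 * (m : ℤ) - 1 - 7 * m) = m - 1 := by ring
    have e2 : (0 - (m : ℤ)) = -m := by ring
    rw [e1, e2]
    generalize k ((m : ℤ) - 1, -(m : ℤ) - 1) = a
    generalize k ((m : ℤ) - 1, -(m : ℤ)) = b
    generalize k ((m : ℤ), -(m : ℤ)) = c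
    revert a b c
    decide
  rw [if_neg c0.ne']
  rcases lt_trichotomy τ (2 * m) with c1 | c1 | c1
  · rw [if_pos c1, if_pos (show τ - 1 < 2 * m by omega), if_pos c1, AP2_bd_c,
      if_pos (by rw [AP2_memf]; omega), if_neg (by rw [AP2_memf]; omega), if_pos (by rw [AP2_memt]; omega),
      if_pos (by rw [AP2_memt]; omega)]
    have e1 : τ - 1 - (m : ℤ) = τ - m - 1 := by ring
    rw [e1]
    generalize k ((m : ℤ) - 1, τ - m - 1) = a
    generalize k ((m : ℤ) - 1, τ - m) = b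
    generalize k ((m : ℤ), τ - m - 1) = c
    generalize k ((m : ℤ), τ - m) = d
    revert a b c d
    decide
  · rw [if_neg (show ¬ τ < 2 * m by omega), if_pos (show τ < 4 * m by omega),
      if_pos (show τ - 1 < 2 * m by omega), if_neg (show ¬ τ < 2 * m by omega), if_pos (show τ < 4 * m by omega),
      AP2_bd_c,
      if_pos (by rw [AP2_memf]; omega), if_neg (by rw [AP2_memf]; omega), if_pos (by rw [AP2_memt]; omega),
      if_neg (by rw [AP2_memt]; omega)]
    have e1 : 3 * (m : ℤ) - τ = m := by omega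
    have e2 : τ - 1 - (m : ℤ) = m - 1 := by omega
    rw [e1, e2]
    generalize k ((m : ℤ) - 1, (m : ℤ) - 1) = a
    generalize k ((m : ℤ) - 1, (m : ℤ)) = b
    generalize k ((m : ℤ), (m : ℤ) - 1) = c
    revert a b c
    decide
  rcases lt_trichotomy τ (4 * m) with c2 | c2 | c2
  · rw [if_neg (show ¬ τ < 2 * m by omega), if_pos c2,
      if_neg (show ¬ τ - 1 < 2 * m by omega), if_pos (show τ - 1 < 4 * m by omega),
      if_neg (show ¬ τ < 2 * m by omega), if_pos c2, AP2_bd_c,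
      if_pos (by rw [AP2_memf]; omega), if_pos (by rw [AP2_memf]; omega), if_pos (by rw [AP2_memt]; omega),
      if_neg (by rw [AP2_memt]; omega)]
    have e1 : 3 * (m : ℤ) - (τ - 1) - 1 = 3 * m - τ := by ring
    rw [e1]
    generalize k (3 * (m : ℤ) - τ - 1, (m : ℤ) - 1) = a
    generalize k (3 * (m : ℤ) - τ - 1, (m : ℤ)) = b
    generalize k (3 * (m : ℤ) - τ, (m : ℤ) - 1) = c
    generalize k (3 * (m : ℤ) - τ, (m : ℤ)) = d
    revert a b c d
    decide
  · rw [if_neg (show ¬ τ < 2 * m by omega), if_neg (show ¬ τ < 4 * m by omega), if_pos (show τ < 6 * m by omega),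
      if_neg (show ¬ τ - 1 < 2 * m by omega), if_pos (show τ - 1 < 4 * m by omega),
      if_neg (show ¬ τ < 2 * m by omega), if_neg (show ¬ τ < 4 * m by omega), if_pos (show τ < 6 * m by omega),
      AP2_bd_c,
      if_neg (by rw [AP2_memf]; omega), if_pos (by rw [AP2_memf]; omega), if_pos (by rw [AP2_memt]; omega),
      if_neg (by rw [AP2_memt]; omega)]
    have e1 : 3 * (m : ℤ) - (τ - 1) - 1 = -m := by omega
    have e2 : 5 * (m : ℤ) - τ = m := by omega
    rw [e1, e2]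
    generalize k (-(m : ℤ) - 1, (m : ℤ) - 1) = a
    generalize k (-(m : ℤ), (m : ℤ) - 1) = b
    generalize k (-(m : ℤ), (m : ℤ)) = c
    revert a b c
    decide
  rcases lt_trichotomy τ (6 * m) with c3 | c3 | c3
  · rw [if_neg (show ¬ τ < 2 * m by omega), if_neg (show ¬ τ < 4 * m by omega), if_pos c3,
      if_neg (show ¬ τ - 1 < 2 * m by omega), if_neg (show ¬ τ - 1 < 4 * m by omega),
      if_pos (show τ - 1 < 6 * m by omega),
      if_neg (show ¬ τ < 2 * m by omega), if_neg (show ¬ τ < 4 * m by omega), if_pos c3, AP2_bd_c,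
      if_neg (by rw [AP2_memf]; omega), if_pos (by rw [AP2_memf]; omega), if_pos (by rw [AP2_memt]; omega),
      if_pos (by rw [AP2_memt]; omega)]
    have e1 : 5 * (m : ℤ) - (τ - 1) - 1 = 5 * m - τ := by ring
    rw [e1]
    generalize k (-(m : ℤ) - 1, 5 * (m : ℤ) - τ - 1) = a
    generalize k (-(m : ℤ) - 1, 5 * (m : ℤ) - τ) = b
    generalize k (-(m : ℤ), 5 * (m : ℤ) - τ - 1) = c
    generalize k (-(m : ℤ), 5 * (m : ℤ) - τ) = d
    revert a b c d
    decide
  · rw [if_neg (show ¬ τ < 2 * m by omega), if_neg (show ¬ τ < 4 * m by omega), if_neg (show ¬ τ < 6 * m by omega),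
      if_neg (show ¬ τ - 1 < 2 * m by omega), if_neg (show ¬ τ - 1 < 4 * m by omega),
      if_pos (show τ - 1 < 6 * m by omega),
      if_neg (show ¬ τ < 2 * m by omega), if_neg (show ¬ τ < 4 * m by omega), if_neg (show ¬ τ < 6 * m by omega),
      AP2_bd_c,
      if_neg (by rw [AP2_memf]; omega), if_pos (by rw [AP2_memf]; omega), if_neg (by rw [AP2_memt]; omega),
      if_pos (by rw [AP2_memt]; omega)]
    have e1 : 5 * (m : ℤ) - (τ - 1) - 1 = -m := by omega
    have e2 : τ - 7 * (m : ℤ) = -m := by omega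
    rw [e1, e2]
    generalize k (-(m : ℤ), -(m : ℤ) - 1) = a
    generalize k (-(m : ℤ) - 1, -(m : ℤ)) = b
    generalize k (-(m : ℤ), -(m : ℤ)) = c
    revert a b c
    decide
  · rw [if_neg (show ¬ τ < 2 * m by omega), if_neg (show ¬ τ < 4 * m by omega), if_neg (show ¬ τ < 6 * m by omega),
      if_neg (show ¬ τ - 1 < 2 * m by omega), if_neg (show ¬ τ - 1 < 4 * m by omega),
      if_neg (show ¬ τ - 1 < 6 * m by omega),
      if_neg (show ¬ τ < 2 * m by omega), if_neg (show ¬ τ < 4 * m by omega), if_neg (show ¬ τ < 6 * m by omega),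
      AP2_bd_c,
      if_pos (by rw [AP2_memf]; omega), if_pos (by rw [AP2_memf]; omega), if_neg (by rw [AP2_memt]; omega),
      if_pos (by rw [AP2_memt]; omega)]
    have e1 : τ - 1 - 7 * (m : ℤ) = τ - 7 * m - 1 := by ring
    rw [e1]
    generalize k (τ - 7 * (m : ℤ) - 1, -(m : ℤ) - 1) = a
    generalize k (τ - 7 * (m : ℤ) - 1, -(m : ℤ)) = b
    generalize k (τ - 7 * (m : ℤ), -(m : ℤ) - 1) = c
    generalize k (τ - 7 * (m : ℤ), -(m : ℤ)) = d
    revert a b c d
    decide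

private theorem AP2_nrm_le {v : V} {d : ℤ} : nrm v ≤ d ↔ (-d ≤ v.1 ∧ v.1 ≤ d) ∧ (-d ≤ v.2 ∧ v.2 ≤ d) := by
  unfold nrm
  rw [max_le_iff, abs_le, abs_le]

/-- box duality, existence -/
theorem BD1 {n : ℕ} (hn : 1 ≤ n) {ω : Finset Edge} {t1 t3 : ℤ} (h1 : t1 < t3) (h2 : t3 < t1 + 8 * n)
    (h : ¬ Conn (bx n) ω (bp n t1) (bp n t3)) :
    ∃ s s' : ℤ, (t1 ≤ s ∧ s < t3) ∧ (t3 ≤ s' ∧ s' < t1 + 8 * n) ∧ (gr (dc (bx n) ω)).Reachable (ef n s) (ef n s') := by
  classical
  by_contra hcon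
  push Not at hcon
  have hx : ∀ s s' : ℤ, t1 ≤ s → s < t3 → t3 ≤ s' → s' < t1 + 8 * n →
      ¬ (gr (dc (bx n) ω)).Reachable (ef n s) (ef n s') := fun s s' a b c d => hcon s s' ⟨a, b⟩ ⟨c, d⟩
  have hr8 : (0 : ℤ) < 8 * n := by omega
  obtain ⟨k, hk⟩ : ∃ k : V → ZMod 2, k = fun f =>
      if ∃ s : ℤ, t1 ≤ s ∧ s < t3 ∧ (gr (dc (bx n) ω)).Reachable (ef n s) f then 1 else 0 := ⟨_, rfl⟩
  have hk1 : ∀ t : ℤ, t1 ≤ t → t < t3 → k (ef n t) = 1 := by
    intro t ht1 ht2
    rw [hk]
    exact if_pos ⟨t, ht1, ht2, SimpleGraph.Reachable.refl _⟩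
  have hk0 : ∀ t : ℤ, t3 ≤ t → t < t1 + 8 * n → k (ef n t) = 0 := by
    intro t ht1 ht2
    rw [hk]
    refine if_neg ?_
    rintro ⟨s, hs1, hs2, hs3⟩
    exact hx s t hs1 hs2 ht1 ht2 hs3
  have hkadj : ∀ e : Edge, e ∈ dc (bx n) ω → k (ea e) = k (eb e) := by
    intro e he
    have hadj := AP2_adj he
    rw [hk]
    have h3 : (∃ s : ℤ, t1 ≤ s ∧ s < t3 ∧ (gr (dc (bx n) ω)).Reachable (ef n s) (ea e)) ↔
        (∃ s : ℤ, t1 ≤ s ∧ s < t3 ∧ (gr (dc (bx n) ω)).Reachable (ef n s) (eb e)) := by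
      constructor
      · rintro ⟨s, hs1, hs2, hs3⟩
        exact ⟨s, hs1, hs2, hs3.trans hadj.reachable⟩
      · rintro ⟨s, hs1, hs2, hs3⟩
        exact ⟨s, hs1, hs2, hs3.trans hadj.symm.reachable⟩
    simp only [h3]
  have hsupp : ∀ e, AP2_c k (bx n) e ≠ 0 → e ∈ ω ∩ bx n := by
    intro e he
    unfold AP2_c at he
    by_cases h3 : e ∈ bx n
    · rw [if_pos h3] at he
      rw [mem_inter]
      refine ⟨?_, h3⟩
      by_contra h4
      apply he
      have h5 : dl e ∈ dc (bx n) ω := by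
        unfold dc
        rw [mem_map]
        exact ⟨e, mem_sdiff.2 ⟨h3, h4⟩, rfl⟩
      rw [hkadj _ h5]
      have h6 : ∀ a : ZMod 2, a + a = 0 := by decide
      exact h6 _
    · rw [if_neg h3] at he
      exact absurd rfl he
  have hinner : ∀ t : ℤ, bd (AP2_c k (bx n)) (bp n t) = k (ef n (t - 1)) + k (ef n t) := AP2_box hn k
  have h11 : ∀ a : ZMod 2, a + a = 0 := by decide
  have hzero : ∀ v : V, v ≠ bp n t1 → v ≠ bp n t3 → bd (AP2_c k (bx n)) v = 0 := by
    intro v hv1 hv3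
    rcases lt_trichotomy (nrm v) n with h3 | h3 | h3
    · have h4 : nrm v ≤ (n : ℤ) - 1 := by omega
      rw [AP2_nrm_le] at h4
      obtain ⟨x, y⟩ := v
      simp only at h4
      apply AP2_all
      · rw [AP2_memf]
        omega
      · rw [AP2_memf]
        omega
      · rw [AP2_memt]
        omega
      · rw [AP2_memt]
        omega
    · obtain ⟨t0, _, _, ht0⟩ := exists_bp hn h3
      obtain ⟨t, ht1, ht2, ht⟩ : ∃ t : ℤ, t1 ≤ t ∧ t < t1 + 8 * n ∧ bp n t = v := by
        refine ⟨t1 + (t0 - t1) % (8 * n), ?_, ?_, ?_⟩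
        · have := Int.emod_nonneg (t0 - t1) hr8.ne'
          omega
        · have := Int.emod_lt_of_pos (t0 - t1) hr8
          omega
        · rw [← ht0, ← bp_per n (t1 + (t0 - t1) % (8 * n)) ((t0 - t1) / (8 * n))]
          congr 1
          have := Int.emod_add_mul_ediv (t0 - t1) (8 * n)
          linarith
      have hne1 : t ≠ t1 := fun h => hv1 (by rw [← ht, h])
      have hne3 : t ≠ t3 := fun h => hv3 (by rw [← ht, h])
      rw [← ht, hinner]
      rcases lt_or_ge t t3 with h4 | h4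
      · rw [hk1 t ht1 h4, hk1 (t - 1) (by omega) (by omega)]
        exact h11 1
      · rw [hk0 t h4 ht2, hk0 (t - 1) (by omega) (by omega)]
        rfl
    · have h6 : ¬ nrm v ≤ n := not_le.2 h3
      rw [AP2_nrm_le] at h6
      obtain ⟨x, y⟩ := v
      simp only at h6
      apply AP2_none
      · rw [AP2_memf]
        omega
      · rw [AP2_memf]
        omega
      · rw [AP2_memt]
        omega
      · rw [AP2_memt]
        omega
  have hone : bd (AP2_c k (bx n)) (bp n t1) ≠ 0 := by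
    rw [hinner, hk1 t1 le_rfl h1]
    have h3 : k (ef n (t1 - 1)) = 0 := by
      rw [← ef_per n (t1 - 1) 1, mul_one]
      exact hk0 _ (by omega) (by omega)
    rw [h3]
    decide
  obtain ⟨v, hv1, hv2, hv3⟩ := AP2_comp hsupp hone
  have hv4 : v ≠ bp n t3 := fun h' => h (h' ▸ hv1)
  exact hv3 (hzero v hv2 hv4)

end FKN
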