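import Pool.Agent.Lib.MP_216314_pr.N.AP3

/-!
# Annulus duality, exclusion

Proof of `AN2`. Let `Z1 = bp n T1`, `Z3 = bp n T3` (`exists_bp`), and exchange names such that... (the arc chain is needed from `min T1 T3` to `max T1 T3`; its boundary is `ind Z1 + ind Z3` in both cases). Chains: `c1`, `c3` from `pth`
for `bp r τ1 ~ Z1`, `bp r τ3 ~ Z3`, supported in `ω ∩ an r n`; `w1` = `arc_chain` of `bx r` for `[τ1, τ3)` (boundary `ind (bp r τ1) + ind (bp r τ3)`); `w2` = `arc_chain` of `bx n` between `T1` and `T3` (boundary `ind Z1 + ind Z3`).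
`c = c1 + c3 + w1 + w2` has `bd c = 0` and support in `bx n`. `CY.potential` gives `z` (`0` on the faces of level `≥ n`). `κ f = (max (-n) (min (n - 1) f.1), max (-n) (min (n - 1) f.2))`.
(1) `z (κ f)` is constant along the edges of `dc (an r n) ω`: let `e ∈ an r n`, `e ∉ ω`. `c1 e = c3 e = 0`, `w1 e = 0` (`be r t ∈ bx r`). If both faces of `e` have level `< n`: `e` is not a boundary edge of `bx n`, so `w2 e = 0`, `z f + z g = c e = 0`, `κ f = f`.
If one face has level `n` then both have the same `κ`.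
(2) all faces of level `< r` have the same value of `z`: two neighbouring ones are separated by an edge `e ∈ bx r` which is not a boundary edge of `bx r` (and not of `bx n`), so `c e = 0`; (connect along rows and columns, or induction).
(3) for every `t`: `z (ef r t) + z (inner face of be r t) = c (be r t) = w1 (be r t)` (`c1`, `c3` vanish on `bx r`, and `be r t ≠ be n t'`), so `z (ef r s) = z_in + 1` for `τ1 ≤ s < τ3` and `z (ef r s') = z_in` for `τ3 ≤ s' < τ1 + 8 r` (`be_inj`).
`κ (ef r t) = ef r t` since its level is `r < n`. With (1): no connection.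
-/

set_option autoImplicit false

noncomputable section

namespace FKN

open Finset FKI FKP

private theorem AQ2_two (a : ZMod 2) : a + a = 0 := by
  revert a
  decide

private theorem AQ2_eq {a b : ZMod 2} (h : a + b = 0) : a = b := by
  have h1 := AQ2_two b
  linear_combination h - h1

private theorem AQ2_beT {n : ℕ} {t x y : ℤ} (h : be n t = (x, y, true)) : x = n ∨ x = -(n : ℤ) := by
  unfold be at h
  split_ifs at h
  · simp only [Prod.mk.injEq] at h
    left
    exact h.1.symm
  · simp at h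
  · simp only [Prod.mk.injEq] at h
    right
    exact h.1.symm
  · simp at h

private theorem AQ2_beF {n : ℕ} {t x y : ℤ} (h : be n t = (x, y, false)) : y = n ∨ y = -(n : ℤ) := by
  unfold be at h
  split_ifs at h
  · simp at h
  · simp only [Prod.mk.injEq] at h
    left
    exact h.2.1.symm
  · simp at h
  · simp only [Prod.mk.injEq] at h
    right
    exact h.2.1.symm

private theorem AQ2_rows {z : V → ZMod 2} {r : ℕ} (hr : 1 ≤ r)
    (hz1 : ∀ i j : ℤ, -(r : ℤ) ≤ i → i < r → -(r : ℤ) < j → j < r → z (i, j) = z (i, j - 1))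
    (hz2 : ∀ i j : ℤ, -(r : ℤ) < i → i < r → -(r : ℤ) ≤ j → j < r → z (i, j) = z (i - 1, j)) :
    ∀ i j : ℤ, -(r : ℤ) ≤ i → i < r → -(r : ℤ) ≤ j → j < r → z (i, j) = z (-(r : ℤ), -(r : ℤ)) := by
  have ha : ∀ (k : ℕ) (j : ℤ), -(r : ℤ) + k < r → -(r : ℤ) ≤ j → j < r → z (-(r : ℤ) + k, j) = z (-(r : ℤ), j) := by
    intro k
    induction k with
    | zero =>
      intro j _ _ _
      rw [Nat.cast_zero, add_zero]
    | succ k ih =>
      intro j h1 h2 h3
      have h4 := hz2 (-(r : ℤ) + ((k + 1 : ℕ) : ℤ)) j (by push_cast; omega) h1 h2 h3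
      have e : -(r : ℤ) + ((k + 1 : ℕ) : ℤ) - 1 = -(r : ℤ) + k := by push_cast; ring
      rw [e] at h4
      rw [h4]
      exact ih j (by push_cast at h1; omega) h2 h3
  have hb : ∀ (k : ℕ), -(r : ℤ) + k < r → z (-(r : ℤ), -(r : ℤ) + k) = z (-(r : ℤ), -(r : ℤ)) := by
    intro k
    induction k with
    | zero =>
      intro _
      rw [Nat.cast_zero, add_zero]
    | succ k ih =>
      intro h1
      have h4 := hz1 (-(r : ℤ)) (-(r : ℤ) + ((k + 1 : ℕ) : ℤ)) le_rfl (by omega) (by push_cast; omega) h1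
      have e : -(r : ℤ) + ((k + 1 : ℕ) : ℤ) - 1 = -(r : ℤ) + k := by push_cast; ring
      rw [e] at h4
      rw [h4]
      exact ih (by push_cast at h1; omega)
  intro i j h1 h2 h3 h4
  have e1 : i = -(r : ℤ) + ((i + r).toNat : ℤ) := by omega
  have e2 : j = -(r : ℤ) + ((j + r).toNat : ℤ) := by omega
  have k1 := ha (i + r).toNat j (by omega) h3 h4
  rw [← e1] at k1
  have k2 := hb (j + r).toNat (by omega)
  rw [← e2] at k2
  rw [k1, k2]

private theorem AQ2_inner {z : V → ZMod 2} {c : Edge → ZMod 2} {r : ℕ} (hr : 1 ≤ r)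
    (hz1 : ∀ i j : ℤ, z (i, j) + z (i, j - 1) = c (i, j, false))
    (hz2 : ∀ i j : ℤ, z (i, j) + z (i - 1, j) = c (i, j, true)) (t : ℤ) :
    ∃ i j : ℤ, (-(r : ℤ) ≤ i ∧ i < r ∧ -(r : ℤ) ≤ j ∧ j < r) ∧ z (ef r t) + z (i, j) = c (be r t) := by
  have h0 : 0 ≤ t % (8 * r) := Int.emod_nonneg _ (by omega)
  have h8 : t % (8 * r) < 8 * r := Int.emod_lt_of_pos _ (by omega)
  unfold ef be
  generalize t % (8 * r) = τ at *
  split_ifs with g1 g2 g3
  · exact ⟨(r : ℤ) - 1, τ - r, ⟨by omega, by omega, by omega, by omega⟩, hz2 _ _⟩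
  · exact ⟨3 * r - τ - 1, (r : ℤ) - 1, ⟨by omega, by omega, by omega, by omega⟩, hz1 _ _⟩
  · refine ⟨-(r : ℤ), 5 * r - τ - 1, ⟨by omega, by omega, by omega, by omega⟩, ?_⟩
    rw [add_comm]
    exact hz2 _ _
  · refine ⟨τ - 7 * r, -(r : ℤ), ⟨by omega, by omega, by omega, by omega⟩, ?_⟩
    rw [add_comm]
    exact hz1 _ _

/-- the nearest face inside -/
private def AQ2_kap (n : ℕ) (f : V) : V :=
  (max (-(n : ℤ)) (min ((n : ℤ) - 1) f.1), max (-(n : ℤ)) (min ((n : ℤ) - 1) f.2))

private theorem AQ2_kapid {n : ℕ} {i j : ℤ} (h1 : -(n : ℤ) ≤ i) (h2 : i < n) (h3 : -(n : ℤ) ≤ j) (h4 : j < n) :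
    AQ2_kap n (i, j) = (i, j) := by
  unfold AQ2_kap
  simp only
  rw [min_eq_right (by omega), min_eq_right (by omega), max_eq_right (by omega), max_eq_right (by omega)]

private theorem AQ2_reach {G : SimpleGraph V} {φ : V → ZMod 2} (h : ∀ u v, G.Adj u v → φ u = φ v) {u v : V}
    (huv : G.Reachable u v) : φ u = φ v := by
  obtain ⟨p⟩ := huv
  induction p with
  | nil => rfl
  | cons hadj _ ih => exact (h _ _ hadj).trans ih

theorem AN2 {r n : ℕ} (hr : 1 ≤ r) (hrn : r < n) {ω : Finset Edge} {τ1 τ3 : ℤ} (h1 : τ1 < τ3) (h2 : τ3 < τ1 + 8 * r)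
    {Z1 Z3 : V} (hZ1 : nrm Z1 = n) (hZ3 : nrm Z3 = n) (hc1 : Conn (an r n) ω (bp r τ1) Z1)
    (hc3 : Conn (an r n) ω (bp r τ3) Z3) {s s' : ℤ} (h3 : τ1 ≤ s) (h4 : s < τ3) (h5 : τ3 ≤ s')
    (h6 : s' < τ1 + 8 * r) : ¬ (gr (dc (an r n) ω)).Reachable (ef r s) (ef r s') := by
  have hn : 1 ≤ n := by omega
  intro hreach
  obtain ⟨T1, hT1, hT1', hb1⟩ := exists_bp hn hZ1
  obtain ⟨T3, hT3, hT3', hb3⟩ := exists_bp hn hZ3
  obtain ⟨c1, hc1a, hc1b⟩ := pth hc1
  obtain ⟨c3, hc3a, hc3b⟩ := pth hc3
  obtain ⟨w1, hw1a, hw1b, hw1c, hw1d⟩ := arc_chain hr h1.le h2.le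
  have hw2 : ∃ w2 : Edge → ZMod 2, (∀ e, e ∉ bx n → w2 e = 0) ∧ (∀ e, w2 e ≠ 0 → ∃ t, e = be n t) ∧
      ∀ v, bd w2 v = ind Z1 v + ind Z3 v := by
    rcases le_total T1 T3 with hT | hT
    · obtain ⟨w, ha, hb, -, hd⟩ := arc_chain hn hT (by omega)
      refine ⟨w, ha, ?_, ?_⟩
      · intro e he
        obtain ⟨t, -, -, ht⟩ := hb e he
        exact ⟨t, ht⟩
      · intro v
        rw [hd, hb1, hb3]
    · obtain ⟨w, ha, hb, -, hd⟩ := arc_chain hn hT (by omega)
      refine ⟨w, ha, ?_, ?_⟩
      · intro e he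
        obtain ⟨t, -, -, ht⟩ := hb e he
        exact ⟨t, ht⟩
      · intro v
        rw [hd, hb1, hb3, add_comm]
  obtain ⟨w2, hw2a, hw2b, hw2c⟩ := hw2
  have hrn' : bx r ⊆ bx n := box_mono (by omega) (by omega) (by omega) (by omega)
  set c : Edge → ZMod 2 := c1 + c3 + w1 + w2 with hc
  have hcv : ∀ e, c e = c1 e + c3 e + w1 e + w2 e := fun e => rfl
  have hcs : ∀ e, e ∉ bx n → c e = 0 := by
    intro e he
    have g1 : e ∉ ω ∩ an r n := fun hh => he (mem_sdiff.1 (mem_inter.1 hh).2).1
    rw [hcv, hc1a e g1, hc3a e g1, hw1a e (fun hh => he (hrn' hh)), hw2a e he]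
    ring
  have hcb : ∀ v, bd c v = 0 := by
    intro v
    rw [hc, bd_add, bd_add, bd_add, hc1b, hc3b, hw1d, hw2c]
    linear_combination AQ2_two (ind (bp r τ1) v) + AQ2_two (ind (bp r τ3) v) + AQ2_two (ind Z1 v) + AQ2_two (ind Z3 v)
  obtain ⟨z, hz1, hz2, -⟩ := CY.potential hcs hcb
  -- the function of the faces is constant along dual open edges
  have hpan : ∀ e ∈ an r n, e ∉ ω → (∀ t, e ≠ be n t) → c e = 0 := by
    intro e he heω hbe
    have g1 : e ∉ ω ∩ an r n := fun hh => heω (mem_inter.1 hh).1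
    have g2 : w2 e = 0 := by
      by_contra hcon
      obtain ⟨t, ht⟩ := hw2b e hcon
      exact hbe t ht
    rw [hcv, hc1a e g1, hc3a e g1, hw1a e (mem_sdiff.1 he).2, g2]
    ring
  have hconst : ∀ u v : V, (gr (dc (an r n) ω)).Adj u v → z (AQ2_kap n u) = z (AQ2_kap n v) := by
    have key : ∀ e ∈ an r n, e ∉ ω → z (AQ2_kap n (ea (dl e))) = z (AQ2_kap n (eb (dl e))) := by
      intro e he heω
      have hebx : e ∈ bx n := (mem_sdiff.1 he).1
      unfold bx at hebx
      rw [mem_box] at hebx
      obtain ⟨x, y, b⟩ := e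
      cases b
      · have e1 : ea (dl (x, y, false)) = (x, y - 1) := by simp [dl, ea]
        have e2 : eb (dl (x, y, false)) = (x, y) := by simp [dl, eb]
        rw [e1, e2]
        simp only [true_and, Bool.false_eq_true, false_and, or_false] at hebx
        obtain ⟨b1, b2, b3, b4⟩ := hebx
        by_cases hy1 : y = n
        · have : AQ2_kap n (x, y - 1) = AQ2_kap n (x, y) := by
            unfold AQ2_kap
            simp only [Prod.mk.injEq, true_and]
            omega
          rw [this]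
        · by_cases hy2 : y = -(n : ℤ)
          · have : AQ2_kap n (x, y - 1) = AQ2_kap n (x, y) := by
              unfold AQ2_kap
              simp only [Prod.mk.injEq, true_and]
              omega
            rw [this]
          · rw [AQ2_kapid b1 b2 (by omega) (by omega), AQ2_kapid b1 b2 (by omega) (by omega)]
            have g := hpan (x, y, false) he heω (fun t ht => by
              rcases AQ2_beF ht.symm with g | g <;> omega)
            have g2 := hz1 x y
            rw [g] at g2
            exact (AQ2_eq g2).symm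
      · have e1 : ea (dl (x, y, true)) = (x - 1, y) := by simp [dl, ea]
        have e2 : eb (dl (x, y, true)) = (x, y) := by simp [dl, eb]
        rw [e1, e2]
        simp only [true_and, Bool.true_eq_false, false_and, false_or] at hebx
        obtain ⟨b1, b2, b3, b4⟩ := hebx
        by_cases hy1 : x = n
        · have : AQ2_kap n (x - 1, y) = AQ2_kap n (x, y) := by
            unfold AQ2_kap
            simp only [Prod.mk.injEq, and_true]
            omega
          rw [this]
        · by_cases hy2 : x = -(n : ℤ)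
          · have : AQ2_kap n (x - 1, y) = AQ2_kap n (x, y) := by
              unfold AQ2_kap
              simp only [Prod.mk.injEq, and_true]
              omega
            rw [this]
          · rw [AQ2_kapid (by omega) (by omega) b3 b4, AQ2_kapid (by omega) (by omega) b3 b4]
            have g := hpan (x, y, true) he heω (fun t ht => by
              rcases AQ2_beT ht.symm with g | g <;> omega)
            have g2 := hz2 x y
            rw [g] at g2
            exact (AQ2_eq g2).symm
    intro u v huv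
    obtain ⟨e', he', hends⟩ := pexit_adj huv
    unfold dc at he'
    rw [mem_map] at he'
    obtain ⟨e, he, rfl⟩ := he'
    have hk := key e (mem_sdiff.1 he).1 (mem_sdiff.1 he).2
    rcases hends with ⟨g1, g2⟩ | ⟨g1, g2⟩
    · rw [← g1, ← g2]
      exact hk
    · rw [← g1, ← g2]
      exact hk.symm
  have hzz := AQ2_reach (φ := fun f => z (AQ2_kap n f)) hconst hreach
  have hkef : ∀ t, AQ2_kap n (ef r t) = ef r t := by
    intro t
    have g := fl_ef hr t
    have g1 : (ef r t).1 ≤ r ∧ -(ef r t).1 - 1 ≤ r ∧ (ef r t).2 ≤ r ∧ -(ef r t).2 - 1 ≤ r := by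
      unfold fl at g
      have g2 := g.le
      rw [max_le_iff, max_le_iff, max_le_iff] at g2
      exact ⟨g2.1.1, g2.1.2, g2.2.1, g2.2.2⟩
    obtain ⟨k1, k2, k3, k4⟩ := g1
    exact AQ2_kapid (i := (ef r t).1) (j := (ef r t).2) (by omega) (by omega) (by omega) (by omega)
  have hzz' : z (ef r s) = z (ef r s') := by
    have := hzz
    simp only [hkef] at this
    exact this
  -- faces of level `< r`
  have hpin : ∀ e ∈ bx r, (∀ t, e ≠ be n t) → c e = w1 e := by
    intro e he hbe
    have g1 : e ∉ ω ∩ an r n := fun hh => (mem_sdiff.1 (mem_inter.1 hh).2).2 he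
    have g2 : w2 e = 0 := by
      by_contra hcon
      obtain ⟨t, ht⟩ := hw2b e hcon
      exact hbe t ht
    rw [hcv, hc1a e g1, hc3a e g1, g2]
    ring
  have hz0 := AQ2_rows (z := z) hr
    (fun i j b1 b2 b3 b4 => by
      have he : ((i, j, false) : Edge) ∈ bx r := by
        unfold bx
        rw [mem_box]
        left
        exact ⟨rfl, b1, b2, b3.le, b4.le⟩
      have g := hpin _ he (fun t ht => by
        rcases AQ2_beF ht.symm with g | g <;> omega)
      have g2 : w1 (i, j, false) = 0 := by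
        by_contra hcon
        obtain ⟨t, -, -, ht⟩ := hw1b _ hcon
        rcases AQ2_beF ht.symm with g | g <;> omega
      have g3 := hz1 i j
      rw [g, g2] at g3
      exact AQ2_eq g3)
    (fun i j b1 b2 b3 b4 => by
      have he : ((i, j, true) : Edge) ∈ bx r := by
        unfold bx
        rw [mem_box]
        right
        exact ⟨rfl, b1.le, b2.le, b3, b4⟩
      have g := hpin _ he (fun t ht => by
        rcases AQ2_beT ht.symm with g | g <;> omega)
      have g2 : w1 (i, j, true) = 0 := by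
        by_contra hcon
        obtain ⟨t, -, -, ht⟩ := hw1b _ hcon
        rcases AQ2_beT ht.symm with g | g <;> omega
      have g3 := hz2 i j
      rw [g, g2] at g3
      exact AQ2_eq g3)
  have hval : ∀ t, z (ef r t) + z (-(r : ℤ), -(r : ℤ)) = w1 (be r t) := by
    intro t
    obtain ⟨i, j, ⟨b1, b2, b3, b4⟩, hz⟩ := AQ2_inner hr hz1 hz2 t
    rw [hz0 i j b1 b2 b3 b4] at hz
    rw [hz]
    refine hpin _ (be_mem hr t) ?_
    intro t' ht'
    have hm := be_mem hr t
    rw [ht'] at hm
    unfold bx at hm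
    rw [mem_box] at hm
    rcases hbt : be n t' with ⟨x, y, b⟩
    rw [hbt] at hm
    cases b
    · rcases AQ2_beF hbt with g | g
      · simp at hm
        omega
      · simp at hm
        omega
    · rcases AQ2_beT hbt with g | g
      · simp at hm
        omega
      · simp at hm
        omega
  have v1 := hval s
  have v2 := hval s'
  rw [hw1c s h3 h4] at v1
  have v3 : w1 (be r s') = 0 := by
    by_contra hcon
    obtain ⟨t, ht1, ht2, ht⟩ := hw1b _ hcon
    obtain ⟨k, hk⟩ := be_inj hr ht
    have hk0 : 0 < k := by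
      by_contra hcon2
      push Not at hcon2
      have : (8 * (r : ℤ)) * k ≤ 0 := mul_nonpos_of_nonneg_of_nonpos (by positivity) hcon2
      omega
    have hk1 : (8 * (r : ℤ)) * 1 ≤ (8 * (r : ℤ)) * k := mul_le_mul_of_nonneg_left (by omega) (by positivity)
    omega
  rw [v3] at v2
  rw [hzz', v2] at v1
  exact absurd v1 (by decide)

end FKN
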