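import Pool.Agent.Lib.MP_216314_pr.N.BQ

/-!
# Surgery: closing the two dual balls

`D = bx n \ {e0}`, `ω' = insert e0 ω`, `η = dc (bx n) ω' = dc D ω` (`dc_insert`), `B2 = bl n (ef n t2) (r - 1)`, `B4` the same with `t4`.

* `star`: suppose `¬ (gr η).Reachable f (ef n t2)`. `offarm_of` with `Γ = η`, `E = (an h n).map dl`, `K = K2`, `z = ef n t2`, `ω := dc (an h n) ω`, `b := f`, `u := g`: for `w ∈ K2`: `w` is connected to
  `ef n t2` in `η` (hypothesis), so not to `f`. For `e' ∈ η` in `bxa (ef n t2) R`: `e' = dl e`, `e ∈ D`, `e ∉ ω`; `fl (ef n t2) = n` and the ends of `dl e` are at distance `≤ R` from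
  `ef n t2`, so `nrm ≥ n - R > h + 1`, so their level is `> h` (`nrm_fl`), and `e ∉ bx h` (`fl_le_of_bx`): `e ∈ an h n`, `dl e ∈ dc (an h n) ω`. This contradicts `¬ OffArm`.
* `closing`: by contradiction suppose `¬ Conn (bx n) (ω' \ (B2 ∪ B4)) (bp n t1) (bp n t3)`. `BD1` gives `s` (first arc), `s'` (second arc) and a path in
  `η'' = dc (bx n) (ω' \ (B2 ∪ B4))`; `η'' ⊆ η ∪ (B2 ∪ B4).map dl`. Let `N2 = {f | nrm (f - ef n t2) ≤ r}`, `N4` the same. Every edge of `B2.map dl` has both ends in `N2` (the ends of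
  `dl e` are at distance `≤ 1` from `ea e`, which is at distance `≤ r - 1` from `ef n t2`; prove this small lemma with `dl`, `ea`, `nrm`).
  `G` = the set of all faces `f` with: `(gr η).Reachable f (ef n i)` for some `i` in the first arc, or `(gr η).Reachable f g` for some `g ∈ N2`.
  (i) no face `ef n i'`, `i'` in the second arc, is in `G`: if it is connected to `ef n i` in `η`: `BD2` (`Conn (bx n) ω' (bp n t1) (bp n t3)`, through `e0`). If it is connected to `g ∈ N2`: it is at distance `≥ R`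
  from `ef n t2` (`far2`), so by `star` it is connected to `ef n t2`, `t2` in the first arc: `BD2`.
  (ii) `G ∩ N4 = ∅`: let `f ∈ N4`. If `f` is connected to `ef n i`, `i` in the first arc: `ef n i` is at distance `≥ R` from `ef n t4` (`far4`), so by `star` for `t4` it is connected to `ef n t4`, `t4` in the
  second arc: `BD2`. If `f` is connected to `g ∈ N2`: `g` is at distance `≥ R` from `ef n t4` (`far24`: `R + r ≤ nrm (ef n t2 - ef n t4)`), so by `star` for `t4` (from `g` to `f ∈ N4`), `g ~ ef n t4`; `f` is at distance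
  `≥ R` from `ef n t2`, so by `star` for `t2` (from `f` to `g ∈ N2`), `f ~ ef n t2`. So `ef n t2 ~ ef n t4`: `BD2`.
  (iii) `G` is closed under the edges of `η''`: edges of `η`: clear. Edges of `B2.map dl`: both ends are in `N2 ⊆ G`. Edges of `B4.map dl`: both ends are in `N4`, not in `G`.
  So `ef n s ∈ G` and `ef n s' ∈ G` (induction along the path), contradiction to (i).
  Then `Conn (bx n) (ω' \ (B2 ∪ B4)) (bp n t1) (bp n t3)`; `¬ Conn (D \ (B2 ∪ B4)) ω (bp n t1) (bp n t3)` since `bp n t1 ~ (0,0)`, `bp n t3 ~ (1,0)` in `ω ∩ D` and `¬ Conn D ω (0,0) (1,0)`.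
  `gr_insert` with `e = e0` (`(ω' \ (B2 ∪ B4)) ∩ bx n ⊆ insert e0 (ω ∩ (D \ (B2 ∪ B4)))`): `bp n t1 ~ (0,0)`, `(1,0) ~ bp n t3` in `ω ∩ (D \ (B2 ∪ B4))` (the claim) or
  `bp n t1 ~ (1,0)`, which is impossible (`bp n t1 ~ (0,0)` in `ω ∩ D`).
-/

set_option autoImplicit false

noncomputable section

namespace FKN

open Finset FKI FKP

private theorem BC_tri (z v : V) : nrm z ≤ nrm (v - z) + nrm v := by
  have h := nrm_tri z v 0
  rw [sub_zero, sub_zero, nrm_sub_comm z v] at h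
  exact h

private theorem BC_mem_dc {F ω : Finset Edge} {e : Edge} : e ∈ dc F ω ↔ ∃ e1 ∈ F, e1 ∉ ω ∧ dl e1 = e := by
  unfold dc
  rw [Finset.mem_map]
  constructor
  · rintro ⟨e1, h1, h2⟩
    rw [Finset.mem_sdiff] at h1
    exact ⟨e1, h1.1, h1.2, h2⟩
  · rintro ⟨e1, h1, h2, h3⟩
    exact ⟨e1, Finset.mem_sdiff.2 ⟨h1, h2⟩, h3⟩

private theorem BC_edge {Γ : Finset Edge} {e : Edge} (he : e ∈ Γ) : (gr Γ).Reachable (ea e) (eb e) := by
  have h := pexit_edge (F := Γ) (ω := Γ) he he (u := ea e) (v := eb e) (Or.inl ⟨rfl, rfl⟩)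
  unfold Conn at h
  rw [Finset.inter_self] at h
  exact h

/-- a set closed under the edges of `Γ` -/
private theorem BC_closed {Γ : Finset Edge} (G : V → Prop) (hG : ∀ e ∈ Γ, (G (ea e) ↔ G (eb e))) {a b : V}
    (h : (gr Γ).Reachable a b) (ha : G a) : G b := by
  obtain ⟨p⟩ := h
  induction p with
  | nil => exact ha
  | @cons u v w hadj p ih =>
    apply ih
    obtain ⟨e, he, hends⟩ := pexit_adj hadj
    rcases hends with ⟨h1, h2⟩ | ⟨h1, h2⟩
    · rw [← h2]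
      rw [← h1] at ha
      exact (hG e he).1 ha
    · rw [← h1]
      rw [← h2] at ha
      exact (hG e he).2 ha

/-- the ends of the dual edge -/
private theorem BC_dl (e : Edge) : nrm (ea (dl e) - ea e) ≤ 1 ∧ nrm (eb (dl e) - ea e) ≤ 1 := by
  obtain ⟨x, y, t⟩ := e
  cases t <;> simp [dl, ea, eb, nrm]

private theorem BC_ball {n r : ℕ} (hr1 : 1 ≤ r) {z : V} {e : Edge} (he : e ∈ bl n z (r - 1)) :
    nrm (ea (dl e) - z) ≤ r ∧ nrm (eb (dl e) - z) ≤ r := by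
  unfold bl at he
  rw [Finset.mem_inter, mem_bxa] at he
  have h1 : nrm (ea e - z) ≤ ((r - 1 : ℕ) : ℤ) := he.2.1
  have h2 : ((r - 1 : ℕ) : ℤ) = (r : ℤ) - 1 := by omega
  have h3 := nrm_tri (ea (dl e)) (ea e) z
  have h4 := nrm_tri (eb (dl e)) (ea e) z
  obtain ⟨h5, h6⟩ := BC_dl e
  constructor <;> omega

theorem star {n h r R : ℕ} (hr : r < R) (hR : h + R + 2 < n) {ω : Finset Edge} {t : ℤ} {K : Set V}
    (hK : ∀ f ∈ K, (gr (dc (bx n \ {e0}) ω)).Reachable (ef n t) f)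
    (hg : ¬ OffArm ((an h n).map dl.toEmbedding) K (ef n t) r R (dc (an h n) ω)) {f g : V}
    (hfg : (gr (dc (bx n \ {e0}) ω)).Reachable f g) (hf : (R : ℤ) ≤ nrm (f - ef n t)) (hgt : nrm (g - ef n t) ≤ r) :
    (gr (dc (bx n \ {e0}) ω)).Reachable f (ef n t) := by
  by_contra hcon
  have hn : 1 ≤ n := by omega
  refine hg (offarm_of (Γ := dc (bx n \ {e0}) ω) hr hfg hf hgt ?_ ?_)
  · intro w hw h1
    exact hcon (h1.trans (hK w hw).symm)
  · intro e' he' h1 _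
    obtain ⟨e, he, heω, rfl⟩ := BC_mem_dc.1 he'
    have h2 : e ∉ bx h := by
      intro h3
      obtain ⟨h4, -⟩ := fl_le_of_bx h3
      have h5 := (nrm_fl (ea (dl e))).2
      have h6 := (nrm_fl (ef n t)).1
      rw [fl_ef hn t] at h6
      have h7 := BC_tri (ef n t) (ea (dl e))
      have h8 : nrm (ea (dl e) - ef n t) ≤ (R : ℤ) := (mem_bxa.1 h1).1
      omega
    have h3 : e ∈ an h n := Finset.mem_sdiff.2 ⟨(Finset.mem_sdiff.1 he).1, h2⟩
    exact ⟨Finset.mem_map.2 ⟨e, h3, rfl⟩, BC_mem_dc.2 ⟨e, h3, heω, rfl⟩⟩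

theorem closing {n h r R : ℕ} (hr1 : 1 ≤ r) (hr : r < R) (hR : h + R + 2 < n) {ω : Finset Edge}
    {t1 t2 t3 t4 : ℤ} (h12 : t1 ≤ t2) (h23 : t2 < t3) (h34 : t3 ≤ t4) (h41 : t4 < t1 + 8 * n)
    (ha : Conn (bx n \ {e0}) ω (0, 0) (bp n t1)) (hb : Conn (bx n \ {e0}) ω (1, 0) (bp n t3))
    (hab : ¬ Conn (bx n \ {e0}) ω (0, 0) (1, 0)) {K2 K4 : Set V}
    (hK2 : ∀ f ∈ K2, (gr (dc (bx n \ {e0}) ω)).Reachable (ef n t2) f)
    (hK4 : ∀ f ∈ K4, (gr (dc (bx n \ {e0}) ω)).Reachable (ef n t4) f)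
    (hg2 : ¬ OffArm ((an h n).map dl.toEmbedding) K2 (ef n t2) r R (dc (an h n) ω))
    (hg4 : ¬ OffArm ((an h n).map dl.toEmbedding) K4 (ef n t4) r R (dc (an h n) ω))
    (far2 : ∀ s : ℤ, t3 ≤ s → s < t1 + 8 * n → (R : ℤ) ≤ nrm (ef n s - ef n t2))
    (far4 : ∀ s : ℤ, t1 ≤ s → s < t3 → (R : ℤ) ≤ nrm (ef n s - ef n t4))
    (far24 : (R : ℤ) + r ≤ nrm (ef n t2 - ef n t4)) :
    Conn ((bx n \ {e0}) \ (bl n (ef n t2) (r - 1) ∪ bl n (ef n t4) (r - 1))) ω (0, 0) (bp n t1) ∧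
    Conn ((bx n \ {e0}) \ (bl n (ef n t2) (r - 1) ∪ bl n (ef n t4) (r - 1))) ω (1, 0) (bp n t3) := by
  have hn : 1 ≤ n := by omega
  have h13 : t1 < t3 := by omega
  have h31 : t3 < t1 + 8 * n := by omega
  have ea0 : ea e0 = (0, 0) := rfl
  have eb0 : eb e0 = (1, 0) := by simp [e0, eb]
  have he0 : e0 ∈ bx n := by
    rw [mem_bx', ea0, eb0]
    constructor
    · simp [nrm]
    · simp [nrm]
      omega
  have hmono : ∀ u v : V, Conn (bx n \ {e0}) ω u v → Conn (bx n) (insert e0 ω) u v := fun u v h =>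
    h.mono Finset.sdiff_subset (Finset.subset_insert _ _)
  have hC : Conn (bx n) (insert e0 ω) (bp n t1) (bp n t3) := by
    have h1 : Conn (bx n) (insert e0 ω) (0, 0) (1, 0) :=
      pexit_edge he0 (Finset.mem_insert_self _ _) (Or.inl ⟨ea0, eb0⟩)
    exact ((hmono _ _ ha).symm.trans h1).trans (hmono _ _ hb)
  have bd : ∀ s s' : ℤ, t1 ≤ s → s < t3 → t3 ≤ s' → s' < t1 + 8 * n →
      ¬ (gr (dc (bx n \ {e0}) ω)).Reachable (ef n s) (ef n s') := by
    intro s s' h1 h2 h3 h4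
    have h5 := BD2 hn h13 h31 hC h1 h2 h3 h4
    rw [dc_insert] at h5
    exact h5
  -- the set of faces
  let G : V → Prop := fun f => (∃ i : ℤ, t1 ≤ i ∧ i < t3 ∧ (gr (dc (bx n \ {e0}) ω)).Reachable f (ef n i)) ∨
    (∃ g : V, nrm (g - ef n t2) ≤ r ∧ (gr (dc (bx n \ {e0}) ω)).Reachable f g)
  have hG1 : ∀ i' : ℤ, t3 ≤ i' → i' < t1 + 8 * n → ¬ G (ef n i') := by
    rintro i' h1 h2 (⟨i, h3, h4, h5⟩ | ⟨g, h3, h4⟩)
    · exact bd i i' h3 h4 h1 h2 h5.symm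
    · have h5 := star hr hR hK2 hg2 h4 (far2 i' h1 h2) h3
      exact bd t2 i' h12 h23 h1 h2 h5.symm
  have hG2 : ∀ f : V, nrm (f - ef n t4) ≤ r → ¬ G f := by
    rintro f h1 (⟨i, h3, h4, h5⟩ | ⟨g, h3, h4⟩)
    · have h6 := star hr hR hK4 hg4 h5.symm (far4 i h3 h4) h1
      exact bd i t4 h3 h4 h34 h41 h6
    · have k1 := nrm_tri (ef n t2) g (ef n t4)
      have k2 := nrm_sub_comm (ef n t2) g
      have h5 : (R : ℤ) ≤ nrm (g - ef n t4) := by omega
      have k3 := nrm_tri (ef n t2) f (ef n t4)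
      have k4 := nrm_sub_comm (ef n t2) f
      have h6 : (R : ℤ) ≤ nrm (f - ef n t2) := by omega
      have h7 := star hr hR hK4 hg4 h4.symm h5 h1
      have h8 := star hr hR hK2 hg2 h4 h6 h3
      exact bd t2 t4 h12 h23 h34 h41 ((h8.symm.trans h4).trans h7)
  have hG3 : ∀ e ∈ dc (bx n) (insert e0 ω \ (bl n (ef n t2) (r - 1) ∪ bl n (ef n t4) (r - 1))),
      (G (ea e) ↔ G (eb e)) := by
    intro e he
    obtain ⟨e1, h1, h2, rfl⟩ := BC_mem_dc.1 he
    by_cases h3 : e1 ∈ insert e0 ω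
    · by_cases h4 : e1 ∈ bl n (ef n t2) (r - 1)
      · obtain ⟨h5, h6⟩ := BC_ball hr1 h4
        exact ⟨fun _ => Or.inr ⟨_, h6, SimpleGraph.Reachable.refl _⟩,
          fun _ => Or.inr ⟨_, h5, SimpleGraph.Reachable.refl _⟩⟩
      · by_cases h5 : e1 ∈ bl n (ef n t4) (r - 1)
        · obtain ⟨h6, h7⟩ := BC_ball hr1 h5
          exact ⟨fun h => absurd h (hG2 _ h6), fun h => absurd h (hG2 _ h7)⟩
        · exfalso
          apply h2
          rw [Finset.mem_sdiff, Finset.mem_union]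
          exact ⟨h3, fun h => h.elim h4 h5⟩
    · have h4 : dl e1 ∈ dc (bx n \ {e0}) ω := by
        rw [← dc_insert]
        exact BC_mem_dc.2 ⟨e1, h1, h3, rfl⟩
      have h5 := BC_edge h4
      constructor
      · rintro (⟨i, h6, h7, h8⟩ | ⟨g, h6, h7⟩)
        · exact Or.inl ⟨i, h6, h7, h5.symm.trans h8⟩
        · exact Or.inr ⟨g, h6, h5.symm.trans h7⟩
      · rintro (⟨i, h6, h7, h8⟩ | ⟨g, h6, h7⟩)
        · exact Or.inl ⟨i, h6, h7, h5.trans h8⟩
        · exact Or.inr ⟨g, h6, h5.trans h7⟩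
  have hC2 : Conn (bx n) (insert e0 ω \ (bl n (ef n t2) (r - 1) ∪ bl n (ef n t4) (r - 1))) (bp n t1) (bp n t3) := by
    by_contra hcon
    obtain ⟨s, s', ⟨h1, h2⟩, ⟨h3, h4⟩, h5⟩ := BD1 hn h13 h31 hcon
    have h6 : G (ef n s) := Or.inl ⟨s, h1, h2, SimpleGraph.Reachable.refl _⟩
    exact hG1 s' h3 h4 (BC_closed G hG3 h5 h6)
  -- removal of the edge at the origin
  have hsub : (insert e0 ω \ (bl n (ef n t2) (r - 1) ∪ bl n (ef n t4) (r - 1))) ∩ bx n ⊆
      insert e0 (ω ∩ ((bx n \ {e0}) \ (bl n (ef n t2) (r - 1) ∪ bl n (ef n t4) (r - 1)))) := by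
    intro e he
    rw [Finset.mem_inter, Finset.mem_sdiff, Finset.mem_insert] at he
    obtain ⟨⟨h1, h2⟩, h3⟩ := he
    rw [Finset.mem_insert]
    by_cases h4 : e = e0
    · exact Or.inl h4
    · right
      rw [Finset.mem_inter, Finset.mem_sdiff, Finset.mem_sdiff, Finset.mem_singleton]
      exact ⟨h1.resolve_left h4, ⟨h3, h4⟩, h2⟩
  have hlift : ∀ u v : V, (gr (ω ∩ ((bx n \ {e0}) \ (bl n (ef n t2) (r - 1) ∪ bl n (ef n t4) (r - 1))))).Reachable u v →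
      Conn (bx n \ {e0}) ω u v := fun u v h =>
    SimpleGraph.Reachable.mono (gr_mono (Finset.inter_subset_inter (Finset.Subset.refl _) Finset.sdiff_subset)) h
  have hC3 : (gr (insert e0 (ω ∩ ((bx n \ {e0}) \ (bl n (ef n t2) (r - 1) ∪ bl n (ef n t4) (r - 1)))))).Reachable
      (bp n t1) (bp n t3) := SimpleGraph.Reachable.mono (gr_mono hsub) hC2
  have hC4 : ¬ (gr (ω ∩ ((bx n \ {e0}) \ (bl n (ef n t2) (r - 1) ∪ bl n (ef n t4) (r - 1))))).Reachable
      (bp n t1) (bp n t3) := fun h => hab ((ha.trans (hlift _ _ h)).trans hb.symm)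
  rcases gr_insert hC3 hC4 with ⟨h1, h2⟩ | ⟨h1, h2⟩
  · rw [ea0] at h1
    rw [eb0] at h2
    exact ⟨h1.symm, h2⟩
  · rw [eb0] at h1
    exact absurd (ha.trans (hlift _ _ h1)) hab

end FKN
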