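import Pool.Agent.Lib.MP_216314_pr.N.AP

/-!
# The lattice points on the boundary and helper1's parametrisation

* `sq_bp`: `gw θ = max (-1) (min 1 (|8 fract ((θ - 1) / 8) - 4| - 2))`, `sq θ = (gw θ, gw (θ - 2))`. With `θ = t / n`: `8 n fract ((θ - 1) / 8) = (t - n) % (8 n)` (as real numbers:
  `Int.fract (a / b) = (a % b) / b` for integers, `b = 8 n > 0`; see `Int.fract_div_intCast_eq_div_intCast_mod` or `Int.floor_intCast_div_natCast`/`Int.emod_def`). So `n gw (t / n) = max (-n) (min n (|τ - 4 n| - 2 n))` with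
  `τ = (t - n) % (8 n)`, and `(bp n t).1` is the same by cases (four ranges of `t % (8 n)`; `τ = (t % (8n)) - n` or `+ 7 n`), `(bp n t).2` with `τ' = (t - 3 n) % (8 n)`.
  (Prove first the integer identity `(bp n t).1 = max (-n) (min n (|(t - n) % (8 n) - 4 n| - 2 n))`, `(bp n t).2 = max (-n) (min n (|(t - 3 n) % (8 n) - 4 n| - 2 n))`, by `omega` after the splitting of the
  absolute value and of the cases; then cast.)
* `cyc_of`: `θo = ![T1 / n, T3 / n]`, `θd = ![T2 / n, T4 / n]`; `Fin.forall_fin_two`; all inequalities are divisions of integer inequalities by `n > 0`.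
-/

set_option autoImplicit false

noncomputable section

namespace FKN

open Finset FKI FKP

theorem BCy_fract {n : ℕ} (hn : 1 ≤ n) (u : ℤ) :
    Int.fract ((u : ℝ) / (8 * n)) = ((u % (8 * n) : ℤ) : ℝ) / (8 * n) := by
  have hn' : (0 : ℝ) < n := by exact_mod_cast hn
  have h8 : (0 : ℤ) < 8 * n := by
    have : (0 : ℤ) < n := by exact_mod_cast hn
    linarith
  have h0 : 0 ≤ u % (8 * n) := Int.emod_nonneg _ h8.ne'
  have h1 : u % (8 * n) < 8 * n := Int.emod_lt_of_pos _ h8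
  have e : u = (8 * n) * (u / (8 * n)) + u % (8 * n) := (Int.mul_ediv_add_emod _ _).symm
  have e' : (u : ℝ) = (8 * n) * ((u / (8 * n) : ℤ) : ℝ) + ((u % (8 * n) : ℤ) : ℝ) := by
    exact_mod_cast congrArg (fun z : ℤ => (z : ℝ)) e
  have h0' : (0 : ℝ) ≤ ((u % (8 * n) : ℤ) : ℝ) := by exact_mod_cast h0
  have h1' : ((u % (8 * n) : ℤ) : ℝ) < 8 * n := by exact_mod_cast h1
  have e2 : (u : ℝ) / (8 * n) = ((u / (8 * n) : ℤ) : ℝ) + ((u % (8 * n) : ℤ) : ℝ) / (8 * n) := by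
    nth_rewrite 1 [e']
    rw [add_div, mul_div_cancel_left₀ _ (by positivity)]
  rw [e2, Int.fract_intCast_add, Int.fract_eq_self.2]
  exact ⟨by positivity, by rw [div_lt_one (by positivity)]; exact h1'⟩

theorem BCy_gw {n : ℕ} (hn : 1 ≤ n) (u : ℤ) {θ : ℝ} (hθ : (θ - 1) / 8 = (u : ℝ) / (8 * n)) :
    ((n : ℤ) : ℝ) * gw θ = ((max (-(n : ℤ)) (min (n : ℤ) (|u % (8 * n) - 4 * n| - 2 * n)) : ℤ) : ℝ) := by
  have hn' : (0 : ℝ) < n := by exact_mod_cast hn
  rw [gw, hθ, BCy_fract hn]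
  push_cast
  rw [mul_max_of_nonneg _ _ hn'.le, mul_min_of_nonneg _ _ hn'.le, mul_sub]
  have e1 : (8 : ℝ) * (((u % (8 * n) : ℤ) : ℝ) / (8 * n)) - 4 = (((u % (8 * n) : ℤ) : ℝ) - 4 * n) / n := by
    field_simp
  have e2 : (n : ℝ) * |(8 : ℝ) * (((u % (8 * n) : ℤ) : ℝ) / (8 * n)) - 4| = |((u % (8 * n) : ℤ) : ℝ) - 4 * n| := by
    rw [e1, abs_div, abs_of_pos hn', mul_div_cancel₀ _ hn'.ne']
  rw [e2]
  congr 1
  · ring
  · congr 1
    · ring
    · ring

theorem BCy_one {n : ℕ} (hn : 1 ≤ n) (t : ℤ) :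
    (bp n t).1 = max (-(n : ℤ)) (min (n : ℤ) (|(t - n) % (8 * n) - 4 * n| - 2 * n)) := by
  have hn' : (1 : ℤ) ≤ n := by exact_mod_cast hn
  have h8 : (0 : ℤ) < 8 * n := by linarith
  have h0 : 0 ≤ t % (8 * n) := Int.emod_nonneg _ h8.ne'
  have h1 : t % (8 * n) < 8 * n := Int.emod_lt_of_pos _ h8
  have e : (t - n) % (8 * n) = if t % (8 * n) < n then t % (8 * n) + 7 * n else t % (8 * n) - n := by
    rw [Int.sub_emod, Int.emod_eq_of_lt (a := (n : ℤ)) (by linarith) (by linarith)]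
    split_ifs with h
    · rw [← Int.add_emod_right, Int.emod_eq_of_lt (by linarith) (by linarith)]
      ring
    · rw [Int.emod_eq_of_lt (by linarith) (by linarith)]
  rw [e]
  unfold bp
  generalize t % (8 * n) = m at *
  rcases abs_cases ((if m < n then m + 7 * n else m - n) - 4 * n) with ⟨ha, hb⟩ | ⟨ha, hb⟩
  · rw [ha]; clear ha
    split_ifs at hb ⊢ <;> simp only [] <;> omega
  · rw [ha]; clear ha
    split_ifs at hb ⊢ <;> simp only [] <;> omega

theorem BCy_two {n : ℕ} (hn : 1 ≤ n) (t : ℤ) :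
    (bp n t).2 = max (-(n : ℤ)) (min (n : ℤ) (|(t - 3 * n) % (8 * n) - 4 * n| - 2 * n)) := by
  have hn' : (1 : ℤ) ≤ n := by exact_mod_cast hn
  have h8 : (0 : ℤ) < 8 * n := by linarith
  have h0 : 0 ≤ t % (8 * n) := Int.emod_nonneg _ h8.ne'
  have h1 : t % (8 * n) < 8 * n := Int.emod_lt_of_pos _ h8
  have e : (t - 3 * n) % (8 * n) = if t % (8 * n) < 3 * n then t % (8 * n) + 5 * n else t % (8 * n) - 3 * n := by
    rw [Int.sub_emod, Int.emod_eq_of_lt (a := 3 * (n : ℤ)) (by linarith) (by linarith)]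
    split_ifs with h
    · rw [← Int.add_emod_right, Int.emod_eq_of_lt (by linarith) (by linarith)]
      ring
    · rw [Int.emod_eq_of_lt (by linarith) (by linarith)]
  rw [e]
  unfold bp
  generalize t % (8 * n) = m at *
  rcases abs_cases ((if m < 3 * n then m + 5 * n else m - 3 * n) - 4 * n) with ⟨ha, hb⟩ | ⟨ha, hb⟩
  · rw [ha]; clear ha
    split_ifs at hb ⊢ <;> simp only [] <;> omega
  · rw [ha]; clear ha
    split_ifs at hb ⊢ <;> simp only [] <;> omega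

theorem sq_bp {n : ℕ} (hn : 1 ≤ n) (t : ℤ) : (((bp n t).1 : ℝ), ((bp n t).2 : ℝ)) =
    (((n : ℤ) : ℝ) * (sq ((t : ℝ) / n)).1, ((n : ℤ) : ℝ) * (sq ((t : ℝ) / n)).2) := by
  have hn' : (0 : ℝ) < n := by exact_mod_cast hn
  rw [BCy_one hn, BCy_two hn]
  have e1 : (((t : ℝ) / n) - 1) / 8 = ((t - n : ℤ) : ℝ) / (8 * n) := by
    push_cast
    field_simp
  have e2 : (((t : ℝ) / n - 2) - 1) / 8 = ((t - 3 * n : ℤ) : ℝ) / (8 * n) := by
    push_cast
    field_simp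
    ring
  simp only [sq]
  rw [BCy_gw hn _ e1, BCy_gw hn _ e2]

theorem cyc_of {n : ℕ} (hn : 1 ≤ n) {T1 T2 T3 T4 G : ℤ} (hG : 0 ≤ G) (h1 : G ≤ T2 - T1) (h2 : G ≤ T3 - T2)
    (h3 : G ≤ T4 - T3) (h4 : G ≤ T1 + 8 * n - T4) : CycR ![bp n T1, bp n T3] ![bp n T2, bp n T4] n G := by
  have hn' : (0 : ℝ) < n := by exact_mod_cast hn
  have key : ∀ a b : ℤ, G ≤ b - a → b - a ≤ 8 * n - G →
      (G : ℝ) / ((n : ℤ) : ℝ) ≤ (b : ℝ) / n - (a : ℝ) / n ∧ (b : ℝ) / n - (a : ℝ) / n ≤ 8 - (G : ℝ) / ((n : ℤ) : ℝ) := by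
    intro a b ha hb
    have ha' : (G : ℝ) ≤ b - a := by exact_mod_cast ha
    have hb' : (b : ℝ) - a ≤ 8 * n - G := by exact_mod_cast hb
    have e : ((n : ℤ) : ℝ) = (n : ℝ) := by norm_cast
    rw [e, ← sub_div]
    constructor
    · exact div_le_div_of_nonneg_right ha' hn'.le
    · rw [div_le_iff₀ hn', sub_mul, div_mul_cancel₀ _ hn'.ne']
      exact hb'
  refine ⟨![(T1 : ℝ) / n, (T3 : ℝ) / n], ![(T2 : ℝ) / n, (T4 : ℝ) / n], ?_, ?_, ?_, ?_⟩
  · rw [Fin.forall_fin_two]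
    exact ⟨sq_bp hn T1, sq_bp hn T3⟩
  · rw [Fin.forall_fin_two]
    exact ⟨sq_bp hn T2, sq_bp hn T4⟩
  · intro i j hij
    fin_cases i <;> fin_cases j
    · exact key T1 T2 h1 (by linarith)
    · exact key T1 T4 (by linarith) (by linarith)
    · exact absurd hij (by decide)
    · exact key T3 T4 h3 (by linarith)
  · intro i j hij
    fin_cases i <;> fin_cases j
    · exact absurd hij (by decide)
    · exact absurd hij (by decide)
    · exact key T2 T3 h2 (by linarith)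
    · exact absurd hij (by decide)

end FKN
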