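import Pool.Agent.Lib.MP_216314_pr.N.BIT
import Pool.Agent.Lib.MP_216314_pr.N.BCy

/-!
# The landing state at the points of a grid, inner boundary

Mirror of N/BSt (see there). `T i = s * (t i / s)`, `yo = ![bp r T1, bp r T3]`, `yd = ![bp r T2, bp r T4]`; `cyc_of` for `n := r`. `BS Fp Fm (bdP n) (bdD n) yo yd s ω` with `Fp = an r n \ bxs yd (w s)`, `Fm = an r n \ bxs yo (w s)`.
Open: sources `![Z, Z']` (`nrm = n`: `bdP`), targets `![bp r t1, bp r t3]`. Dual: sources `![ef n S2, ef n S4]`: `bdD`: `max |2 x + 1| |2 y + 1| = 2 n + 1` for `(x, y) = ef n S` (from `fl_ef`: `fl f = n` implies it, `abs_cases`), targets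
`![ef r t2, ef r t4]`. Inclusions: `an r n ∩ bxs yd (w s) ⊆ bli r n (ef r t2) (r3 - 1) ∪ bli r n (ef r t4) (r3 - 1)`, `an r n ∩ bxs yo (w s) ⊆ bli r n (g (bp r t1)) ρ ∪ bli r n (g (bp r t3)) ρ`.
-/

set_option autoImplicit false

noncomputable section

namespace FKN

open Finset FKI FKP

theorem BISt_near {n s j : ℕ} (hn : 1 ≤ n) {t : ℤ} (h1 : (s : ℤ) * j ≤ t) (h2 : t < s * j + s) :
    nrm (bp n t - bp n (s * j)) ≤ s - 1 := by
  refine le_trans (bp_lip hn _ _) ?_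
  rw [abs_of_nonneg (by omega)]
  omega

theorem BISt_near' {n s j : ℕ} (hn : 1 ≤ n) {t : ℤ} (h1 : (s : ℤ) * j ≤ t) (h2 : t < s * j + s) :
    nrm (ef n t - bp n (s * j)) ≤ s := by
  have h3 := nrm_tri (ef n t) (bp n t) (bp n (s * j))
  have h4 := ef_bp hn t
  have h5 := BISt_near hn h1 h2
  omega

theorem BISt_sub {y z : V} {a b : ℤ} {e : Edge} (he : e ∈ bxa y a) (h : a + nrm (y - z) ≤ b) : e ∈ bxa z b := by
  rw [mem_bxa] at he ⊢
  have h1 := nrm_tri (ea e) y z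
  have h2 := nrm_tri (eb e) y z
  omega

theorem BISt_open {r n s w r3 j2 j4 : ℕ} (hr : 1 ≤ r) {t2 t4 : ℤ} (hw1 : w * s + s + 1 ≤ r3)
    (h1 : (s : ℤ) * j2 ≤ t2) (h2 : t2 < s * j2 + s) (h3 : (s : ℤ) * j4 ≤ t4) (h4 : t4 < s * j4 + s) :
    an r n \ (bli r n (ef r t2) (r3 - 1) ∪ bli r n (ef r t4) (r3 - 1)) ⊆
      an r n \ bxs ![bp r (s * j2), bp r (s * j4)] (w * (s : ℕ)) := by
  have hw : ((w : ℤ) * s + s) ≤ ((r3 - 1 : ℕ) : ℤ) := by
    have : w * s + s ≤ r3 - 1 := by omega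
    exact_mod_cast this
  intro e he
  rw [mem_sdiff] at he ⊢
  refine ⟨he.1, ?_⟩
  intro hb
  apply he.2
  unfold bxs at hb
  rw [mem_biUnion] at hb
  obtain ⟨i, _, hi⟩ := hb
  have hen : e ∈ an r n := he.1
  rw [mem_union]
  unfold bli
  rw [mem_inter, mem_inter]
  fin_cases i
  · left
    refine ⟨hen, BISt_sub hi ?_⟩
    have h5 := BISt_near' hr h1 h2
    rw [nrm_sub_comm] at h5
    exact le_trans (add_le_add (le_refl _) h5) hw
  · right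
    refine ⟨hen, BISt_sub hi ?_⟩
    have h5 := BISt_near' hr h3 h4
    rw [nrm_sub_comm] at h5
    exact le_trans (add_le_add (le_refl _) h5) hw

theorem BISt_dual {r n s w ρ m j1 j3 : ℕ} (hr : 1 ≤ r) {t1 t3 : ℤ} (hw2 : w * s + s + m ≤ ρ)
    (h1 : (s : ℤ) * j1 ≤ t1) (h2 : t1 < s * j1 + s) (h3 : (s : ℤ) * j3 ≤ t3) (h4 : t3 < s * j3 + s)
    (g : V → V) (hg : ∀ z, nrm z = r → nrm (g z - z) ≤ m) (ω : Finset Edge) :
    dc (an r n) (ω ∪ (bli r n (g (bp r t1)) ρ ∪ bli r n (g (bp r t3)) ρ)) ⊆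
      dc (an r n \ bxs ![bp r (s * j1), bp r (s * j3)] (w * (s : ℕ))) ω := by
  have hw : ((w : ℤ) * s + s + m) ≤ (ρ : ℤ) := by exact_mod_cast hw2
  unfold dc
  refine Finset.map_subset_map.2 ?_
  intro e he
  rw [mem_sdiff, mem_union, mem_union] at he
  obtain ⟨he1, he2⟩ := he
  rw [mem_sdiff, mem_sdiff]
  refine ⟨⟨he1, ?_⟩, fun h => he2 (Or.inl h)⟩
  intro hb
  apply he2
  right
  unfold bxs at hb
  rw [mem_biUnion] at hb
  obtain ⟨i, _, hi⟩ := hb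
  unfold bli
  rw [mem_inter, mem_inter]
  fin_cases i
  · left
    refine ⟨he1, BISt_sub hi ?_⟩
    have h5 := BISt_near hr h1 h2
    have h6 := hg _ (bp_nrm hr t1)
    have h7 := nrm_tri (bp r (s * j1)) (bp r t1) (g (bp r t1))
    rw [nrm_sub_comm] at h5 h6
    exact le_trans (add_le_add (le_refl _) h7) (by omega)
  · right
    refine ⟨he1, BISt_sub hi ?_⟩
    have h5 := BISt_near hr h3 h4
    have h6 := hg _ (bp_nrm hr t3)
    have h7 := nrm_tri (bp r (s * j3)) (bp r t3) (g (bp r t3))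
    rw [nrm_sub_comm] at h5 h6
    exact le_trans (add_le_add (le_refl _) h7) (by omega)

theorem BISt_j {r s : ℕ} (hs : 1 ≤ s) {t : ℤ} (h0 : 0 ≤ t) (h1 : t < 16 * r) :
    ∃ j : ℕ, j ≤ 16 * r / s ∧ (s : ℤ) * j ≤ t ∧ t < s * j + s := by
  obtain ⟨τ, rfl⟩ := Int.eq_ofNat_of_zero_le h0
  refine ⟨τ / s, Nat.div_le_div_right (by omega), ?_, ?_⟩
  · exact_mod_cast Nat.mul_div_le τ s
  · have := Nat.lt_mul_div_succ τ (by omega : 0 < s)
    rw [Nat.mul_add, Nat.mul_one] at this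
    exact_mod_cast this

theorem BISt_ef {n : ℕ} (hn : 1 ≤ n) (t : ℤ) :
    max |2 * (ef n t).1 + 1| |2 * (ef n t).2 + 1| = 2 * n + 1 := by
  have h := fl_ef hn t
  unfold fl at h
  generalize (ef n t).1 = x at *
  generalize (ef n t).2 = y at *
  rcases abs_cases (2 * x + 1) with ⟨ha, hb⟩ | ⟨ha, hb⟩ <;>
    rcases abs_cases (2 * y + 1) with ⟨hc, hd⟩ | ⟨hc, hd⟩ <;> rw [ha, hc] <;> omega

theorem statei {r h n r1 R1 r2 R2 r3 R3 ρ m s w : ℕ} (hr : 1 ≤ r) (hhr : h ≤ 2 * r) (hn : 2 * h ≤ n)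
    (hr1 : r1 + 1 < R1) (hR1 : r + R1 + 2 < h) (hr2 : r2 < R2) (hR2 : r + R2 + 2 < h) (hr3 : 1 ≤ r3) (hr3' : r3 < R3)
    (hR3 : r + R3 + 2 < h) (hRr : R3 + r3 ≤ r) (hm1 : ρ + m + R2 ≤ r1) (hm2 : ρ + m ≤ r2) (hρ : 2 * (R3 + r3) + m ≤ ρ)
    (hs : 1 ≤ s) (hw1 : w * s + s + 1 ≤ r3) (hw2 : w * s + s + m ≤ ρ) (hw3 : 100 * w * s + s + m ≤ ρ)
    (g : V → V) (hg : ∀ z, nrm z = r → nrm (g z - z) ≤ m) {ω : Finset Edge} (hF : Four' r n ω)
    (hg1 : ¬ Bad (an r h) (an r h) (sph h) (sph r) (r1 + 1) R1 ω)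
    (hg2 : ¬ Bad (an r h) (an r h) (sph h) (sph r) r2 R2 ω)
    (hg3 : ∀ z1 z3 : V, nrm z1 = r → nrm z3 = r →
      ¬ Bad ((an r h).map dl.toEmbedding) ((an r h \ (bli r n (g z1) ρ ∪ bli r n (g z3) ρ)).map dl.toEmbedding) (fsp h)
        (efs r) r3 R3 (dc (an r h) ω)) :
    ∃ j1 j2 j3 j4 : ℕ, (j1 ≤ 16 * r / s ∧ j2 ≤ 16 * r / s ∧ j3 ≤ 16 * r / s ∧ j4 ≤ 16 * r / s) ∧
      CycR ![bp r (s * j1), bp r (s * j3)] ![bp r (s * j2), bp r (s * j4)] r (100 * w * (s : ℕ)) ∧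
      BS (an r n \ bxs ![bp r (s * j2), bp r (s * j4)] (w * (s : ℕ)))
        (an r n \ bxs ![bp r (s * j1), bp r (s * j3)] (w * (s : ℕ))) (bdP n) (bdD n)
        ![bp r (s * j1), bp r (s * j3)] ![bp r (s * j2), bp r (s * j4)] (s : ℕ) ω := by
  have hn1 : 1 ≤ n := by omega
  obtain ⟨t1, t2, t3, t4, S2, S4, ⟨ht1, ht1'⟩, ⟨hg12, hg23, hg34, hg41⟩, ⟨h12, h23, h34, h41⟩,
    ⟨Z, hZ, hc1⟩, ⟨Z', hZ', hc3⟩, hd2, hd4⟩ :=
    surgeryi hr hhr hn hr1 hR1 hr2 hR2 hr3 hr3' hR3 hRr hm1 hm2 hρ g hg hF hg1 hg2 hg3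
  obtain ⟨j1, hj1, hj1a, hj1b⟩ := BISt_j (r := r) hs (t := t1) (by omega) (by omega)
  obtain ⟨j2, hj2, hj2a, hj2b⟩ := BISt_j (r := r) hs (t := t2) (by omega) (by omega)
  obtain ⟨j3, hj3, hj3a, hj3b⟩ := BISt_j (r := r) hs (t := t3) (by omega) (by omega)
  obtain ⟨j4, hj4, hj4a, hj4b⟩ := BISt_j (r := r) hs (t := t4) (by omega) (by omega)
  have hw3' : (100 * (w : ℤ) * s + s + m) ≤ (ρ : ℤ) := by exact_mod_cast hw3
  have hG0 : (0 : ℤ) ≤ 100 * (w : ℤ) * s := by positivity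
  refine ⟨j1, j2, j3, j4, ⟨hj1, hj2, hj3, hj4⟩, ?_, ?_, ?_⟩
  · exact cyc_of hr hG0 (by omega) (by omega) (by omega) (by omega)
  · refine ⟨![Z, Z'], ![bp r t1, bp r t3], ?_, ?_, ?_⟩
    · intro i
      fin_cases i
      · exact hZ
      · exact hZ'
    · intro i
      fin_cases i
      · exact le_trans (BISt_near hr hj1a hj1b) (by omega)
      · exact le_trans (BISt_near hr hj3a hj3b) (by omega)
    · have hsub := BISt_open (n := n) hr hw1 hj2a hj2b hj4a hj4b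
      intro i
      fin_cases i
      · exact SimpleGraph.Reachable.mono (gr_mono (Finset.inter_subset_inter (Finset.Subset.refl ω) hsub)) hc1
      · exact SimpleGraph.Reachable.mono (gr_mono (Finset.inter_subset_inter (Finset.Subset.refl ω) hsub)) hc3
  · refine ⟨![ef n S2, ef n S4], ![ef r t2, ef r t4], ?_, ?_, ?_⟩
    · intro i
      fin_cases i
      · exact BISt_ef hn1 S2
      · exact BISt_ef hn1 S4
    · intro i
      fin_cases i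
      · exact BISt_near' hr hj2a hj2b
      · exact BISt_near' hr hj4a hj4b
    · have hsub := BISt_dual (n := n) hr hw2 hj1a hj1b hj3a hj3b g hg ω
      intro i
      fin_cases i
      · exact SimpleGraph.Reachable.mono (gr_mono hsub) hd2
      · exact SimpleGraph.Reachable.mono (gr_mono hsub) hd4

end FKN
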