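import Pool.Agent.Lib.MP_216314_pr.N.BG
import Pool.Agent.Lib.MP_216314_pr.N.AP

/-!
# Arm separation at the inner boundary of an annulus: definitions

`bli r n z ρ`: the edges of `an r n` at distance at most `ρ` from `z`. `efs r`: the faces `ef r t` (they are next to the boundary of `[-r,r]²`, outside). In the whole part `h = 2 r` bounds the local
annulus `an r h`; its crossing clusters join `sph h` and `sph r`, the contact is on `sph r`; the dual ones join `fsp h` and `efs r`.
-/

set_option autoImplicit false

noncomputable section

namespace FKN

open Finset FKI FKP

/-- the edges of the annulus at distance at most `ρ` from `z` -/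
def bli (r n : ℕ) (z : V) (ρ : ℕ) : Finset Edge := an r n ∩ bxa z ρ

/-- the faces next to the inner boundary -/
def efs (r : ℕ) : Set V := {f | ∃ t : ℤ, ef r t = f}

end FKN
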