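import Pool.Agent.Lib.MP_216314_pr.N.BZa
import Pool.Agent.Lib.MP_216314_pr.N.BIDef

/-!
# Probability of the bad events, inner boundary

Mirror of N/BZa, N/CP (`bad_prim`, `bad_dual`: adaptation, on top of `bad_le`, `offarm_le`, `pr_dc` of N/CP).

* `bad_primi`: `bad_le` with `E = F = an r h`, `I` = the finite set `sph h`, `J = sph r`, `l = p1' q r h` (the crossing event is `One' r h`, read backwards).
* `bad_duali`: `pr_dc`, `bad_le` with `E = (an r h).map dl`, `I` = the finite set `fsp h`, `J = efs r ⊆ fsp r` (`fl_ef`), `l = p1' (1 - q) (r + 1) h`: an open path of faces in `(an r h).map dl` from level `h` (`nrm ≥ h`) to level `r` (`nrm ≤ r + 1`) crosses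
  `an (r + 1) h`, as in `bad_dual`.
* `bad_alli`, `bdi_dep`: as `bad_all`, `bd_dep` (N/BZa).
* `four_badi`: `Four' r n ω → Four' h n (ω ∩ an h n)`: for the path from `u` (`nrm u = r`) to `Z` take the last vertex `v` with `nrm v = h` (`last_exit'`, N/BG: the edges after it have an end of `nrm > h`, so they are in `an h n`), `Conn (an r n) ω u v`; the same for `u'`;
  `¬ Conn (an h n) ω v v'` since `an h n ⊆ an r n` and `¬ Conn (an r n) ω u u'`. `IPC.Pr_indep` with `E₁ = an r h`, `E₂ = an h n`, disjoint.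
-/

set_option autoImplicit false

noncomputable section

namespace FKN

open Finset FKI FKP

theorem bad_primi {q : ℝ} (hq0 : 0 ≤ q) (hq1 : q ≤ 1) {r h ρ R : ℕ} (hrh : r < h) (hρ : ρ < R) (hl : p1' q r h < 1) :
    IPC.Pr q (an r h) (Bad (an r h) (an r h) (sph h) (sph r) ρ R) ≤ p1' q ρ R / (1 - p1' q r h) := by
  obtain ⟨I, hI⟩ := CB_fin (fun v => nrm v = h) h (fun v hv => hv.le)
  have hI' : (I : Set V) = sph h := hI
  rw [← hI']
  refine bad_le hq0 hq1 (Finset.Subset.refl _) ?_ (l := p1' q r h) ?_ hl (fun K z => offarm_le hq0 hq1 _ K z hρ)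
    (p1C_nonneg hq0 hq1 ρ R)
  · intro u hu h1
    have h2 : u ∈ sph h := hI' ▸ (Finset.mem_coe.2 hu)
    have h3 : nrm u = h := h2
    have h4 : nrm u = r := h1
    have : (r : ℤ) < h := by exact_mod_cast hrh
    omega
  · refine le_trans (pq_mono hq0 hq1 ?_) (pr_cross hq0 hq1 (Finset.Subset.refl (an r h)) 0 hrh.le)
    rintro ω _ ⟨u, hu, w, hw, hc⟩
    have h2 : u ∈ sph h := hI' ▸ (Finset.mem_coe.2 hu)
    have h3 : nrm u = h := h2
    have h4 : nrm w = r := hw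
    exact ⟨w, u, by rw [sub_zero]; exact h4.le, by rw [sub_zero]; exact h3.ge, hc.symm⟩

theorem bad_duali {q : ℝ} (hq0 : 0 ≤ q) (hq1 : q ≤ 1) {r h ρ R : ℕ} (hr : 1 ≤ r) (hrh : r + 1 < h) (hρ : ρ < R)
    (hl : p1' (1 - q) (r + 1) h < 1) {F : Finset Edge} (hF : F ⊆ an r h) :
    IPC.Pr q (an r h) (fun ω => Bad ((an r h).map dl.toEmbedding) (F.map dl.toEmbedding) (fsp h) (efs r) ρ R (dc (an r h) ω)) ≤
      p1' (1 - q) ρ R / (1 - p1' (1 - q) (r + 1) h) := by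
  rw [pr_dc]
  have hq0' : 0 ≤ 1 - q := by linarith
  have hq1' : 1 - q ≤ 1 := by linarith
  have hF' : F.map dl.toEmbedding ⊆ (an r h).map dl.toEmbedding := Finset.map_subset_map.2 hF
  obtain ⟨I, hI⟩ := CB_fin (fun v => fl v = h) (h + 1) (fun v hv => by
    have := (CB_fl v).2
    push_cast
    rw [hv] at this
    exact this)
  have hI' : (I : Set V) = fsp h := hI
  rw [← hI']
  refine bad_le hq0' hq1' hF' ?_ (l := p1' (1 - q) (r + 1) h) ?_ hl (fun K z => offarm_le hq0' hq1' _ K z hρ)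
    (p1C_nonneg hq0' hq1' ρ R)
  · intro u hu h1
    have h2 : u ∈ fsp h := hI' ▸ (Finset.mem_coe.2 hu)
    have h3 : fl u = h := h2
    obtain ⟨t, ht⟩ := h1
    have h4 : fl u = r := by
      rw [← ht]
      exact fl_ef hr t
    have : (r : ℤ) + 1 < h := by exact_mod_cast hrh
    omega
  · refine le_trans (pq_mono hq0' hq1' ?_) (pr_cross hq0' hq1' hF' 0 hrh.le)
    rintro ω _ ⟨u, hu, w, hw, hc⟩
    have h2 : u ∈ fsp h := hI' ▸ (Finset.mem_coe.2 hu)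
    have h3 : fl u = h := h2
    obtain ⟨t, ht⟩ := hw
    have h4 : fl w = r := by
      rw [← ht]
      exact fl_ef hr t
    have h5 := (CB_fl u).1
    have h6 := (CB_fl w).2
    refine ⟨w, u, ?_, ?_, hc.symm⟩
    · rw [sub_zero]
      push_cast
      linarith
    · rw [sub_zero]
      linarith

/-- all bad events -/
def Bdi (r h n r1 R1 r2 R2 r3 R3 ρ m : ℕ) (ω : Finset Edge) : Prop :=
  Bad (an r h) (an r h) (sph h) (sph r) (r1 + 1) R1 ω ∨ Bad (an r h) (an r h) (sph h) (sph r) r2 R2 ω ∨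
  ∃ z1 z3 : V, nrm z1 = r ∧ nrm z3 = r ∧
    Bad ((an r h).map dl.toEmbedding) ((an r h \ (bli r n (cg r m z1) ρ ∪ bli r n (cg r m z3) ρ)).map dl.toEmbedding)
      (fsp h) (efs r) r3 R3 (dc (an r h) ω)

theorem bad_alli {q : ℝ} (hq0 : 0 ≤ q) (hq1 : q ≤ 1) {r h n r1 R1 r2 R2 r3 R3 ρ m : ℕ} (hr : 1 ≤ r) (hm : 1 ≤ m)
    (hh : r + 1 < h) (hr1 : r1 + 1 < R1) (hr2 : r2 < R2) (hr3 : r3 < R3) {c b1 b2 b3 : ℝ} (hc : 0 < c)
    (hl : p1' q r h ≤ 1 - c) (hl' : p1' (1 - q) (r + 1) h ≤ 1 - c) (h1 : p1' q (r1 + 1) R1 ≤ b1) (h2 : p1' q r2 R2 ≤ b2)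
    (h3 : p1' (1 - q) r3 R3 ≤ b3) : IPC.Pr q (an r h) (Bdi r h n r1 R1 r2 R2 r3 R3 ρ m) ≤
      (b1 + b2 + ((8 * r / m + 1 : ℕ) : ℝ) ^ 2 * b3) / c := by
  have hk := fun (a b l : ℝ) (ha : 0 ≤ a) (hab : a ≤ b) (hlc : l ≤ 1 - c) => (show a / (1 - l) ≤ b / c from by
    have h1l : c ≤ 1 - l := by linarith
    calc a / (1 - l) ≤ a / c := div_le_div_of_nonneg_left ha hc h1l
      _ ≤ b / c := div_le_div_of_nonneg_right hab hc.le)
  have hq0' : 0 ≤ 1 - q := by linarith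
  have hq1' : 1 - q ≤ 1 := by linarith
  have e1 := bad_primi hq0 hq1 (r := r) (h := h) (by omega) hr1 (by linarith)
  have e2 := bad_primi hq0 hq1 (r := r) (h := h) (by omega) hr2 (by linarith)
  have e1' := e1.trans (hk _ _ _ (IPC.Pr_nonneg hq0 hq1 _ _) h1 hl)
  have e2' := e2.trans (hk _ _ _ (IPC.Pr_nonneg hq0 hq1 _ _) h2 hl)
  obtain ⟨D, hD⟩ : ∃ D : ℕ × ℕ → Finset Edge → Prop, D = fun k ω =>
    Bad ((an r h).map dl.toEmbedding)
      ((an r h \ (bli r n (bp r (m * k.1)) ρ ∪ bli r n (bp r (m * k.2)) ρ)).map dl.toEmbedding)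
      (fsp h) (efs r) r3 R3 (dc (an r h) ω) := ⟨_, rfl⟩
  have e3 : ∀ k : ℕ × ℕ, IPC.Pr q (an r h) (D k) ≤ b3 / c := by
    intro k
    rw [hD]
    refine (bad_duali hq0 hq1 hr hh hr3 (by linarith) Finset.sdiff_subset).trans ?_
    exact hk _ _ _ (IPC.Pr_nonneg hq0' hq1' _ _) h3 hl'
  have e4 : IPC.Pr q (an r h) (Bdi r h n r1 R1 r2 R2 r3 R3 ρ m) ≤
      IPC.Pr q (an r h) (fun ω => Bad (an r h) (an r h) (sph h) (sph r) (r1 + 1) R1 ω ∨
        (Bad (an r h) (an r h) (sph h) (sph r) r2 R2 ω ∨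
        ∃ k ∈ (range (8 * r / m + 1) ×ˢ range (8 * r / m + 1)), D k ω)) := by
    refine IPC.Pr_mono hq0 hq1 _ fun ω _ hB => ?_
    rcases hB with hB | hB | ⟨z1, z3, hz1, hz3, hB⟩
    · exact Or.inl hB
    · exact Or.inr (Or.inl hB)
    · right
      right
      obtain ⟨i, hi, gi⟩ := cg_mem (n := r) hr hm hz1
      obtain ⟨j, hj, gj⟩ := cg_mem (n := r) hr hm hz3
      refine ⟨(i, j), ?_, ?_⟩
      · rw [Finset.mem_product, Finset.mem_range, Finset.mem_range]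
        exact ⟨by show i < 8 * r / m + 1; omega, by show j < 8 * r / m + 1; omega⟩
      · rw [hD]
        rw [gi, gj] at hB
        exact hB
  refine e4.trans ((IPC.Pr_or_le hq0 hq1 _ _ _).trans ?_)
  have e5 := IPC.Pr_or_le hq0 hq1 (an r h) (Bad (an r h) (an r h) (sph h) (sph r) r2 R2)
    (fun ω => ∃ k ∈ (range (8 * r / m + 1) ×ˢ range (8 * r / m + 1)), D k ω)
  have e6 := IPC.Pr_exists_le hq0 hq1 (an r h) (range (8 * r / m + 1) ×ˢ range (8 * r / m + 1)) D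
  have e7 : ∑ k ∈ range (8 * r / m + 1) ×ˢ range (8 * r / m + 1), IPC.Pr q (an r h) (D k) ≤
      ((8 * r / m + 1 : ℕ) : ℝ) ^ 2 * (b3 / c) := by
    refine (Finset.sum_le_sum fun k _ => e3 k).trans (le_of_eq ?_)
    rw [Finset.sum_const, Finset.card_product, Finset.card_range, nsmul_eq_mul, Nat.cast_mul, pow_two]
  have e8 : (b1 + b2 + ((8 * r / m + 1 : ℕ) : ℝ) ^ 2 * b3) / c =
      b1 / c + (b2 / c + ((8 * r / m + 1 : ℕ) : ℝ) ^ 2 * (b3 / c)) := by ring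
  rw [e8]
  exact add_le_add e1' (e5.trans (add_le_add e2' (e6.trans e7)))

theorem bdi_dep (r h n r1 R1 r2 R2 r3 R3 ρ m : ℕ) (ω : Finset Edge) :
    Bdi r h n r1 R1 r2 R2 r3 R3 ρ m ω ↔ Bdi r h n r1 R1 r2 R2 r3 R3 ρ m (ω ∩ an r h) := by
  have h1 := BZa_bad (Finset.Subset.refl (an r h)) (Finset.Subset.refl (an r h)) (sph h) (sph r) (r1 + 1) R1 ω
  have h2 := BZa_bad (Finset.Subset.refl (an r h)) (Finset.Subset.refl (an r h)) (sph h) (sph r) r2 R2 ω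
  have h3 : dc (an r h) (ω ∩ an r h) = dc (an r h) ω := by
    unfold dc
    rw [Finset.sdiff_inter_self_right]
  unfold Bdi
  rw [← h1, ← h2, h3]

theorem BIZa_exit {r h n : ℕ} (hrh : r ≤ h) (hn : h ≤ n) {ω : Finset Edge} {u w : V} (hu : nrm u = r)
    (hw : nrm w = n) (hc : Conn (an r n) ω u w) :
    ∃ v, nrm v = h ∧ Conn (an r n) ω u v ∧ Conn (an h n) ω v w := by
  have hrh' : (r : ℤ) ≤ h := by exact_mod_cast hrh
  have hn' : (h : ℤ) ≤ n := by exact_mod_cast hn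
  have hst : ∀ e : Edge, nrm (ea e) - nrm (eb e) ≤ 1 ∧ nrm (eb e) - nrm (ea e) ≤ 1 := fun e => by
    have := nrmC_step 0 e
    rw [sub_zero, sub_zero] at this
    exact this
  obtain ⟨y, hy, h1, h2⟩ := last_leave nrm (t := (h : ℤ)) (by rw [hu]; exact hrh') hc
  obtain ⟨c, hc1, h3, h4⟩ := last_exit nrm (fun e _ => hst e) (t := (h : ℤ)) hy (by rw [hw]; exact hn') h2
  refine ⟨c, hc1, h1.trans (h3.mono (Finset.filter_subset _ _) (Finset.Subset.refl _)),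
    h4.mono ?_ (Finset.Subset.refl _)⟩
  intro e he
  rw [mem_filter, mem_filter] at he
  obtain ⟨⟨h5, h6⟩, -⟩ := he
  refine Finset.mem_sdiff.2 ⟨(Finset.mem_sdiff.1 h5).1, fun h7 => ?_⟩
  rw [mem_bx_iff] at h7
  rcases h6 with h6 | h6
  · exact absurd h7.1 (not_le.2 h6)
  · exact absurd h7.2 (not_le.2 h6)

theorem BIZa_anti {r h n : ℕ} (hrh : r ≤ h) (hn : h ≤ n) {ω : Finset Edge} (hF : Four' r n ω) : Four' h n ω := by
  obtain ⟨u, u', hu, hu', ⟨w, hw, hc⟩, ⟨w', hw', hc'⟩, hnc⟩ := hF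
  obtain ⟨v, h1, h2, h3⟩ := BIZa_exit hrh hn hu hw hc
  obtain ⟨v', h1', h2', h3'⟩ := BIZa_exit hrh hn hu' hw' hc'
  refine ⟨v, v', h1, h1', ⟨w, hw, h3⟩, ⟨w', hw', h3'⟩, fun h4 => hnc ?_⟩
  have hsub2 : an h n ⊆ an r n := Finset.sdiff_subset_sdiff (Finset.Subset.refl _) (bxC_sub hrh)
  exact (h2.trans (h4.mono hsub2 (Finset.Subset.refl _))).trans h2'.symm

theorem four_badi {q : ℝ} (hq0 : 0 ≤ q) (hq1 : q ≤ 1) {r h n : ℕ} (hrh : r ≤ h) (hn : h ≤ n) {X : Finset Edge → Prop}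
    (hX : ∀ ω, X ω ↔ X (ω ∩ an r h)) :
    IPC.Pr q (an r n) (fun ω => Four' r n ω ∧ X ω) ≤ IPC.Pr q (an r h) X * p4' q h n := by
  have hrn : r ≤ n := hrh.trans hn
  have hsub1 : an r h ⊆ an r n := Finset.sdiff_subset_sdiff (bxC_sub hn) (Finset.Subset.refl _)
  have hsub2 : an h n ⊆ an r n := Finset.sdiff_subset_sdiff (Finset.Subset.refl _) (bxC_sub hrh)
  have hdisj : Disjoint (an r h) (an h n) := by
    rw [Finset.disjoint_left]
    intro e h1 h2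
    exact (Finset.mem_sdiff.1 h2).2 (Finset.mem_sdiff.1 h1).1
  have h4 : ∀ ω, Four' h n ω ↔ Four' h n (ω ∩ an h n) := fun ω => by
    unfold Four'
    have h5 : ∀ u v : V, Conn (an h n) ω u v ↔ Conn (an h n) (ω ∩ an h n) u v :=
      fun u v => dep_Conn (Finset.Subset.refl _) u v ω
    simp only [← h5]
  have e1 : IPC.Pr q (an r n) (fun ω => Four' r n ω ∧ X ω) ≤ IPC.Pr q (an r n) (fun ω => X ω ∧ Four' h n ω) :=
    IPC.Pr_mono hq0 hq1 _ fun ω _ hω => ⟨hω.2, BIZa_anti hrh hn hω.1⟩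
  have e2 := IPC.Pr_indep q (E₁ := an r h) (E₂ := an h n) (E := an r n) hsub1 hsub2 hdisj
    X (Four' h n) (fun ω _ => hX ω) (fun ω _ => h4 ω)
  have e3 := IPC.Pr_restrict q (E₁ := an r h) (E := an r n) hsub1 X (fun ω _ => hX ω)
  have e4 := IPC.Pr_restrict q hsub2 (Four' h n) (fun ω _ => h4 ω)
  rw [e2, e3, e4] at e1
  exact e1

end FKN
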