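import Pool.Agent.Lib.MP_216314_pr.N.BZ
import Pool.Agent.Lib.MP_216314_pr.N.BIZa
import Pool.Agent.Lib.MP_216314_pr.N.BISt

/-!
# The separation of the four arms at the inner boundary: `SepInn`

Mirror of N/BZ. Constants as there: `M1`, `M2`, `M3`, `k = 28 M1 (M2 + 1) M3 (w + 2) (n₀ + 8)`, now `s = r / k` (`k ≤ r`), `h = 2 r`, `8 r ≤ n`; `r3 = (w + 2) s`, `R3 = M3 r3`, `m = R3`, `ρ = 6 R3`, `r2 = 7 R3`, `R2 = M2 r2`, `r1 = R2 + r2`, `R1 = M1 r1`.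
`params` (N/BZ) with `n := r` gives all inequalities: `r / 2 + R1 + 2 < r` implies `r + R1 + 2 < 2 r = h`, etc.; `r1 + 1 < R1` since `M1 ≥ 4`, `r1 ≥ 1`.
`sep_badi`: as `sep_bad`, with `p1' q (r1 + 1) R1 ≤ C ((r1 + 1) / R1)^α ≤ C 2^α (1 / M1)^α` (`r1 + 1 ≤ 2 r1`): choose `M1` by `small_pow` with `B = 3 C 2^α / (θ c)`-like constant, `M2`, `M3` as in `sep_bad`; `num_params` with `n := r`.
`sepInn`: `OneLt` for `n := 2 r` (`RS ε q (2 r)` follows from `RS ε q n`; `2 r / 2 = r`), `OneIn` for `N := n`. `p4' q r n = Pr q (an r n) (Four' r n) ≤ Pr (Four' ∧ Bdi) + Pr (Four' ∧ ¬ Bdi)`, the first `≤ θ p4' q (2 r) n` (`four_badi`, `bdi_dep`), the second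
`≤ ∑ over quadruples` (`statei`, `g = cg r m`, `cg_near` with `n := r`) exactly as in `sepOut`. (Copy the proof of `sepOut` when it is available: MP_216314_pr_N_BZ.lean in the store.)
-/

set_option autoImplicit false

noncomputable section

namespace FKN

open Finset FKI FKP

/-- the bad events have small probability -/
theorem sep_badi {C α c : ℝ} (hC : 0 < C) (hα : 0 < α) (hc : 0 < c) {θ : ℝ} (hθ : 0 < θ) (w n₀ : ℕ) :
    ∃ M1 M2 M3 : ℕ, 4 ≤ M1 ∧ 4 ≤ M2 ∧ 100 ≤ M3 ∧ ∀ (q : ℝ) (r n s : ℕ), 0 ≤ q → q ≤ 1 → 4 * r ≤ n →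
      28 * M1 * (M2 + 1) * M3 * (w + 2) * (n₀ + 8) ≤ r → s = r / (28 * M1 * (M2 + 1) * M3 * (w + 2) * (n₀ + 8)) →
      (∀ a b : ℕ, 1 ≤ a → a ≤ b → b ≤ n → p1' q a b ≤ C * ((a : ℝ) / b) ^ α ∧ p1' (1 - q) a b ≤ C * ((a : ℝ) / b) ^ α) →
      p1' q r (2 * r) ≤ 1 - c → p1' (1 - q) (r + 1) (2 * r) ≤ 1 - c →
      IPC.Pr q (an r (2 * r)) (Bdi r (2 * r) n (M2 * (7 * (M3 * ((w + 2) * s))) + 7 * (M3 * ((w + 2) * s)))
        (M1 * (M2 * (7 * (M3 * ((w + 2) * s))) + 7 * (M3 * ((w + 2) * s)))) (7 * (M3 * ((w + 2) * s)))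
        (M2 * (7 * (M3 * ((w + 2) * s)))) ((w + 2) * s) (M3 * ((w + 2) * s)) (6 * (M3 * ((w + 2) * s)))
        (M3 * ((w + 2) * s))) ≤ θ := by
  have hδ : 0 < θ * c / (3 * C) := by positivity
  obtain ⟨M1, hM1, hM1', hM1b⟩ := small_pow hα hδ ((2 : ℝ) ^ α) 4
  obtain ⟨M2, hM2, hM2', hM2b⟩ := small_pow hα hδ 1 4
  obtain ⟨M3, hM3, hM3', hM3b⟩ := small_pow hα hδ (((448 * M1 * (M2 + 1) * (n₀ + 8) + 1 : ℕ) : ℝ) ^ 2) 100
  refine ⟨M1, M2, M3, hM1, hM2, hM3, ?_⟩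
  intro q r n s hq0 hq1 hrn hn hs hp hl hl'
  obtain ⟨hs1, hn0, hh2, hh, hr1, hR1, hr2, hR2, hr3, hr3', hR3, hRr, hm1, hm2, hρ, hw1, hw2, hw3, hm, hg⟩ :=
    params hM1 hM2 hM3 rfl hn hs
  obtain ⟨hN1, -⟩ := num_params (w := w) (n₀ := n₀) hM1 hM2 hM3 rfl hn hs
  have hr : ∀ (x M : ℕ), 1 ≤ x → ((x : ℝ) / ((M * x : ℕ) : ℝ)) = 1 / (M : ℝ) := by
    intro x M hx
    have hx' : (x : ℝ) ≠ 0 := by
      have : 0 < x := hx
      positivity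
    rw [Nat.cast_mul, mul_comm (M : ℝ) (x : ℝ), ← div_div, div_self hx']
  obtain ⟨a1, ha1⟩ : ∃ a1 : ℕ, a1 = M2 * (7 * (M3 * ((w + 2) * s))) + 7 * (M3 * ((w + 2) * s)) := ⟨_, rfl⟩
  rw [← ha1] at hr1 hR1 hm1 ⊢
  have ha1' : 1 ≤ a1 := by omega
  have h4a : 4 * a1 ≤ M1 * a1 := Nat.mul_le_mul_right a1 hM1
  have hA := (hp (a1 + 1) (M1 * a1) (by omega) (by omega) (by omega)).1
  have hB := (hp (7 * (M3 * ((w + 2) * s))) (M2 * (7 * (M3 * ((w + 2) * s)))) (by omega) hr2.le (by omega)).1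
  have hD := (hp ((w + 2) * s) (M3 * ((w + 2) * s)) hr3 hr3'.le (by omega)).2
  rw [hr _ _ (by omega)] at hB hD
  have hA' : p1' q (a1 + 1) (M1 * a1) ≤ C * ((2 : ℝ) ^ α * (1 / (M1 : ℝ)) ^ α) := by
    refine hA.trans (mul_le_mul_of_nonneg_left ?_ hC.le)
    rw [← Real.mul_rpow (by norm_num) (by positivity)]
    refine Real.rpow_le_rpow (by positivity) ?_ hα.le
    rw [← hr a1 M1 ha1', ← mul_div_assoc]
    refine div_le_div_of_nonneg_right ?_ (by positivity)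
    have h5 : (1 : ℝ) ≤ (a1 : ℝ) := by exact_mod_cast ha1'
    rw [Nat.cast_add, Nat.cast_one]
    linarith
  rw [one_mul] at hM2b
  have hb := bad_alli hq0 hq1 (n := n) (ρ := 6 * (M3 * ((w + 2) * s))) (h := 2 * r) (r := r) (by omega) hm (by omega)
    (by omega) hr2 hr3' hc hl hl' hA' hB hD
  refine hb.trans ?_
  rw [div_le_iff₀ hc]
  have hx1 : C * ((2 : ℝ) ^ α * (1 / (M1 : ℝ)) ^ α) ≤ θ * c / 3 := by
    have h1 := mul_le_mul_of_nonneg_left hM1b hC.le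
    have h2 : C * (θ * c / (3 * C)) = θ * c / 3 := by
      field_simp
    rw [h2] at h1
    exact h1
  have hx2 : C * (1 / (M2 : ℝ)) ^ α ≤ θ * c / 3 := by
    have h1 := mul_le_mul_of_nonneg_left hM2b hC.le
    have h2 : C * (θ * c / (3 * C)) = θ * c / 3 := by
      field_simp
    rw [h2] at h1
    exact h1
  have hx3 : ((8 * r / (M3 * ((w + 2) * s)) + 1 : ℕ) : ℝ) ^ 2 * (C * (1 / (M3 : ℝ)) ^ α) ≤ θ * c / 3 := by
    have h1 := mul_le_mul_of_nonneg_left hM3b hC.le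
    have h2 : C * (θ * c / (3 * C)) = θ * c / 3 := by
      field_simp
    rw [h2] at h1
    refine le_trans ?_ h1
    have h3 : ((8 * r / (M3 * ((w + 2) * s)) + 1 : ℕ) : ℝ) ^ 2 ≤
        ((448 * M1 * (M2 + 1) * (n₀ + 8) + 1 : ℕ) : ℝ) ^ 2 := by
      have h4 : ((8 * r / (M3 * ((w + 2) * s)) + 1 : ℕ) : ℝ) ≤
        ((448 * M1 * (M2 + 1) * (n₀ + 8) + 1 : ℕ) : ℝ) := Nat.cast_le.2 hN1
      exact pow_le_pow_left₀ (Nat.cast_nonneg _) h4 2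
    have h5 : 0 ≤ C * (1 / (M3 : ℝ)) ^ α := by positivity
    have h6 := mul_le_mul_of_nonneg_right h3 h5
    refine h6.trans (le_of_eq ?_)
    ring
  linarith

theorem sepInn (h1 : OneIn) (h2 : OneLt) : SepInn := by
  classical
  intro ε θ hε hθ w
  obtain ⟨C, α, hC, hα, h1'⟩ := h1 ε hε
  obtain ⟨c, n₀, hc, h2'⟩ := h2 ε hε
  obtain ⟨M1, M2, M3, hM1, hM2, hM3, hbad⟩ := sep_badi hC hα hc hθ w n₀
  have hkpos : 0 < 28 * M1 * (M2 + 1) * M3 * (w + 2) * (n₀ + 8) := by positivity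
  refine ⟨28 * M1 * (M2 + 1) * M3 * (w + 2) * (n₀ + 8),
    (32 * ((28 * M1 * (M2 + 1) * M3 * (w + 2) * (n₀ + 8) : ℕ) : ℝ)) ^ 4 + 1, hkpos, by positivity, ?_⟩
  intro q r n hq0 hq1 hRS hkn h8
  obtain ⟨k, hk⟩ : ∃ k : ℕ, k = 28 * M1 * (M2 + 1) * M3 * (w + 2) * (n₀ + 8) := ⟨_, rfl⟩
  rw [← hk] at hkn hbad hkpos ⊢
  obtain ⟨s, hs⟩ : ∃ s : ℕ, s = r / k := ⟨_, rfl⟩
  rw [← hs]
  obtain ⟨hs1, hn0, hh2, hh, hr1, hR1, hr2, hR2, hr3, hr3', hR3, hRr, hm1, hm2, hρ, hw1, hw2, hw3, hm, hg⟩ :=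
    params hM1 hM2 hM3 hk hkn hs
  obtain ⟨-, hN2⟩ := num_params (w := w) (n₀ := n₀) hM1 hM2 hM3 hk hkn hs
  have hRS2 : RS ε q (2 * r) := fun a ha hb => hRS a ha (by omega)
  have hlt := h2' q (2 * r) hq0 hq1 hRS2 (by omega)
  rw [Nat.mul_div_cancel_left r (by norm_num : 0 < 2)] at hlt
  have hb := hbad q r n s hq0 hq1 (by omega) hkn hs (fun a b ha hab hbn => h1' q n hq0 hq1 hRS a b ha hab hbn)
    hlt.1 hlt.2
  have hfb := four_badi hq0 hq1 (r := r) (h := 2 * r) (n := n) (by omega) (by omega)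
    (bdi_dep r (2 * r) n (M2 * (7 * (M3 * ((w + 2) * s))) + 7 * (M3 * ((w + 2) * s)))
        (M1 * (M2 * (7 * (M3 * ((w + 2) * s))) + 7 * (M3 * ((w + 2) * s)))) (7 * (M3 * ((w + 2) * s)))
        (M2 * (7 * (M3 * ((w + 2) * s)))) ((w + 2) * s) (M3 * ((w + 2) * s)) (6 * (M3 * ((w + 2) * s)))
        (M3 * ((w + 2) * s)))
  have hp4 : 0 ≤ p4' q (2 * r) n := IPC.Pr_nonneg hq0 hq1 _ _
  have hfb2 := hfb.trans (mul_le_mul_of_nonneg_right hb hp4)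
  have hsplit := IPC.Pr_split q (an r n) (Four' r n)
    (Bdi r (2 * r) n (M2 * (7 * (M3 * ((w + 2) * s))) + 7 * (M3 * ((w + 2) * s)))
        (M1 * (M2 * (7 * (M3 * ((w + 2) * s))) + 7 * (M3 * ((w + 2) * s)))) (7 * (M3 * ((w + 2) * s)))
        (M2 * (7 * (M3 * ((w + 2) * s)))) ((w + 2) * s) (M3 * ((w + 2) * s)) (6 * (M3 * ((w + 2) * s)))
        (M3 * ((w + 2) * s)))
  -- the union over the grid
  obtain ⟨S, hS⟩ : ∃ S : Finset ((ℕ × ℕ) × (ℕ × ℕ)), S =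
      ((Finset.range (32 * k) ×ˢ Finset.range (32 * k)) ×ˢ (Finset.range (32 * k) ×ˢ Finset.range (32 * k))).filter
        (fun j => CycR ![bp r (s * j.1.1), bp r (s * j.2.1)] ![bp r (s * j.1.2), bp r (s * j.2.2)] r
          (100 * w * (s : ℕ))) := ⟨_, rfl⟩
  have hcard : (S.card : ℝ) ≤ (32 * (k : ℝ)) ^ 4 := by
    have h3 : S.card ≤ (32 * k) ^ 4 := by
      rw [hS]
      refine (Finset.card_filter_le _ _).trans (le_of_eq ?_)
      rw [Finset.card_product, Finset.card_product, Finset.card_range]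
      ring
    have h4 : (S.card : ℝ) ≤ (((32 * k) ^ 4 : ℕ) : ℝ) := Nat.cast_le.2 h3
    rw [Nat.cast_pow, Nat.cast_mul] at h4
    exact h4
  have hun : IPC.Pr q (an r n) (fun ω => Four' r n ω ∧ ¬ Bdi r (2 * r) n
        (M2 * (7 * (M3 * ((w + 2) * s))) + 7 * (M3 * ((w + 2) * s)))
        (M1 * (M2 * (7 * (M3 * ((w + 2) * s))) + 7 * (M3 * ((w + 2) * s)))) (7 * (M3 * ((w + 2) * s)))
        (M2 * (7 * (M3 * ((w + 2) * s)))) ((w + 2) * s) (M3 * ((w + 2) * s)) (6 * (M3 * ((w + 2) * s)))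
        (M3 * ((w + 2) * s)) ω) ≤
      ∑ j ∈ S, IPC.Pr q (an r n) (BS (an r n \ bxs ![bp r (s * j.1.2), bp r (s * j.2.2)] (w * (s : ℕ)))
        (an r n \ bxs ![bp r (s * j.1.1), bp r (s * j.2.1)] (w * (s : ℕ))) (bdP n) (bdD n)
        ![bp r (s * j.1.1), bp r (s * j.2.1)] ![bp r (s * j.1.2), bp r (s * j.2.2)] (s : ℕ)) := by
    refine le_trans ?_ (IPC.Pr_exists_le hq0 hq1 (an r n) S (fun j =>
      BS (an r n \ bxs ![bp r (s * j.1.2), bp r (s * j.2.2)] (w * (s : ℕ)))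
        (an r n \ bxs ![bp r (s * j.1.1), bp r (s * j.2.1)] (w * (s : ℕ))) (bdP n) (bdD n)
        ![bp r (s * j.1.1), bp r (s * j.2.1)] ![bp r (s * j.1.2), bp r (s * j.2.2)] (s : ℕ)))
    refine IPC.Pr_mono hq0 hq1 _ ?_
    rintro ω - ⟨hF, hnB⟩
    obtain ⟨j1, j2, j3, j4, ⟨hj1, hj2, hj3, hj4⟩, hcyc, hBS⟩ :=
      statei (r := r) (h := 2 * r) (n := n)
        (r1 := M2 * (7 * (M3 * ((w + 2) * s))) + 7 * (M3 * ((w + 2) * s)))
        (R1 := M1 * (M2 * (7 * (M3 * ((w + 2) * s))) + 7 * (M3 * ((w + 2) * s))))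
        (by omega) le_rfl (by omega) (by
          have h4a := Nat.mul_le_mul_right (M2 * (7 * (M3 * ((w + 2) * s))) + 7 * (M3 * ((w + 2) * s))) hM1
          omega)
        (by omega) hr2 (by omega) hr3 hr3' (by omega) hRr hm1 hm2 hρ hs1 hw1 hw2 hw3
        (cg r (M3 * ((w + 2) * s))) (fun z hz => cg_near (by omega) hm hz) hF
        (fun h => hnB (Or.inl h)) (fun h => hnB (Or.inr (Or.inl h)))
        (fun z1 z3 hz1 hz3 h => hnB (Or.inr (Or.inr ⟨z1, z3, hz1, hz3, h⟩)))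
    refine ⟨((j1, j2), (j3, j4)), ?_, hBS⟩
    rw [hS, Finset.mem_filter]
    refine ⟨?_, hcyc⟩
    rw [Finset.mem_product, Finset.mem_product, Finset.mem_product, Finset.mem_range, Finset.mem_range,
      Finset.mem_range, Finset.mem_range]
    exact ⟨⟨lt_of_le_of_lt hj1 hN2, lt_of_le_of_lt hj2 hN2⟩, ⟨lt_of_le_of_lt hj3 hN2, lt_of_le_of_lt hj4 hN2⟩⟩
  have hp4n : p4' q r n ≤ θ * p4' q (2 * r) n +
      ∑ j ∈ S, IPC.Pr q (an r n) (BS (an r n \ bxs ![bp r (s * j.1.2), bp r (s * j.2.2)] (w * (s : ℕ)))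
        (an r n \ bxs ![bp r (s * j.1.1), bp r (s * j.2.1)] (w * (s : ℕ))) (bdP n) (bdD n)
        ![bp r (s * j.1.1), bp r (s * j.2.1)] ![bp r (s * j.1.2), bp r (s * j.2.2)] (s : ℕ)) := by
    unfold p4' at hfb2 ⊢
    rw [hsplit]
    exact add_le_add hfb2 hun
  have hk4 : (0 : ℝ) ≤ (32 * (k : ℝ)) ^ 4 := by positivity
  rcases S.eq_empty_or_nonempty with hSe | hSne
  · refine ⟨![bp r 0, bp r (4 * r)], ![bp r (2 * r), bp r (6 * r)], ?_, ?_⟩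
    · have hgz : 100 * (w : ℤ) * (s : ℤ) ≤ 2 * (r : ℤ) := by
        have h5 : ((100 * w * s : ℕ) : ℤ) ≤ ((2 * r : ℕ) : ℤ) := Nat.cast_le.2 hg
        rw [Nat.cast_mul, Nat.cast_mul, Nat.cast_mul] at h5
        exact h5
      have hgz0 : 0 ≤ 100 * (w : ℤ) * (s : ℤ) := by positivity
      exact cyc_of (by omega) hgz0 (by linarith) (by linarith) (by linarith) (by linarith)
    · rw [hSe, Finset.sum_empty, add_zero] at hp4n
      have h6 := IPC.Pr_nonneg hq0 hq1 (an r n) (BS (an r n \ bxs ![bp r (2 * r), bp r (6 * r)] (w * (s : ℕ)))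
        (an r n \ bxs ![bp r 0, bp r (4 * r)] (w * (s : ℕ))) (bdP n) (bdD n)
        ![bp r 0, bp r (4 * r)] ![bp r (2 * r), bp r (6 * r)] (s : ℕ))
      have h7 : 0 ≤ ((32 * (k : ℝ)) ^ 4 + 1) * IPC.Pr q (an r n) (BS (an r n \ bxs ![bp r (2 * r), bp r (6 * r)] (w * (s : ℕ)))
        (an r n \ bxs ![bp r 0, bp r (4 * r)] (w * (s : ℕ))) (bdP n) (bdD n)
        ![bp r 0, bp r (4 * r)] ![bp r (2 * r), bp r (6 * r)] (s : ℕ)) := mul_nonneg (by linarith) h6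
      linarith
  · obtain ⟨j, hjS, hjmax⟩ := Finset.exists_max_image S (fun j => IPC.Pr q (an r n)
      (BS (an r n \ bxs ![bp r (s * j.1.2), bp r (s * j.2.2)] (w * (s : ℕ)))
        (an r n \ bxs ![bp r (s * j.1.1), bp r (s * j.2.1)] (w * (s : ℕ))) (bdP n) (bdD n)
        ![bp r (s * j.1.1), bp r (s * j.2.1)] ![bp r (s * j.1.2), bp r (s * j.2.2)] (s : ℕ))) hSne
    have hcyc : CycR ![bp r (s * j.1.1), bp r (s * j.2.1)] ![bp r (s * j.1.2), bp r (s * j.2.2)] r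
          (100 * w * (s : ℕ)) := by
      rw [hS, Finset.mem_filter] at hjS
      exact hjS.2
    refine ⟨_, _, hcyc, ?_⟩
    have h6 := IPC.Pr_nonneg hq0 hq1 (an r n) (BS (an r n \ bxs ![bp r (s * j.1.2), bp r (s * j.2.2)] (w * (s : ℕ)))
        (an r n \ bxs ![bp r (s * j.1.1), bp r (s * j.2.1)] (w * (s : ℕ))) (bdP n) (bdD n)
        ![bp r (s * j.1.1), bp r (s * j.2.1)] ![bp r (s * j.1.2), bp r (s * j.2.2)] (s : ℕ))
    have h9' := Finset.sum_le_card_nsmul S _ _ hjmax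
    rw [nsmul_eq_mul] at h9'
    have h9 := mul_le_mul_of_nonneg_right hcard h6
    have h10 := hp4n.trans (add_le_add le_rfl (h9'.trans h9))
    rw [add_mul, one_mul]
    linarith

end FKN
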