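import Pool.Agent.Lib.MP_216314_pr.N.BZ
import Pool.Agent.Lib.MP_216314_pr.N.BIZ
import Pool.Agent.Lib.MP_216314_pr.N.CR

/-!
# Separation of four arms, unconditional
-/

set_option autoImplicit false

noncomputable section

namespace FKN

open Finset FKI FKP

theorem oneIn_all : OneIn := CR_oneIn

theorem oneLt_all : OneLt := CR_oneLt

/-- separation at the outer boundary -/
theorem sepOut_all : SepOut := sepOut oneIn_all oneLt_all

/-- separation at the inner boundary -/
theorem sepInn_all : SepInn := sepInn oneIn_all oneLt_all

end FKN
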