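import Pool.Agent.Lib.MP_216314_pr.N.BDef
import Pool.Agent.Lib.MP_216314_pr.P.PExit

/-!
# Arm separation: lemmas about graphs

* `gr_union_hit`: a path from `a` in `ω ∪ B` which leaves the cluster of `a` in `ω`: the first edge which is not in `ω` is in `B`, and the vertex before it is connected
  to `a` in `ω` (induction on the walk from `a`; or: if no end of an edge of `B` is connected to `a` in `ω` then the cluster of `a` in `ω` is closed under the edges of `ω ∪ B`).
* `gr_insert`: a walk in `insert e ω` from `x` to `y`, not connected in `ω`. Induction on the walk (from `x`): first step `x → x'` by an edge of `ω`: `x'` is connected to `x` in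
  `ω`, so `¬ (gr ω).Reachable x' y`, use the induction hypothesis. First step by `e` (`x`, `x'` are its ends): if `(gr ω).Reachable x' y` done; otherwise the induction
  hypothesis for `x'` gives `x' ~ ea e`, `eb e ~ y` or `x' ~ eb e`, `ea e ~ y`; since `x ≠ x'` are the two ends of `e`, in one case it is the claim (with `x` itself being an end) and
  in the other case `x' ` is the wrong end: e.g. `x = ea e`, `x' = eb e`: case `x' ~ ea e, eb e ~ y`: then `eb e = x' ~ y`, contradiction; case `x' ~ eb e, ea e ~ y`: then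
  `x = ea e ~ y`, contradiction to the hypothesis.
* `last_exit'`: last exit with strictly higher edges: as `last_exit` (P/PExit: `pexit_aux`), the edges after the last visit of the level `t` have at least one end above `t`. (From
  `last_exit` one gets edges with both ends `≥ t`; redo the induction of `pexit_aux` with the filter `t < f (ea e) ∨ t < f (eb e)`: statement: either all is in the filter and
  `t < f a ∨ a = b`, or there is `c`.)
* `offarm_of`: let `φ v = nrm (v - z)` (it changes by at most `1` along an edge: `nrm_edge`). The path from `u` to `b`: `first_hit` of the level `R` gives `w`, `φ w = R`, and a connection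
  of `u`, `w` by edges of `Γ` with both ends `φ ≤ R`; then `last_exit'` (level `r`) in this configuration gives `u'` with `φ u' = r` and a connection of `u'`, `w` by edges with an end `φ > r`.
  These edges are in `bxa z R \ bxa z r` (`mem_bxa`), in `E` and `ω` by hypothesis, and they do not touch `K`, since their ends are connected to `b` in `Γ` (every edge used by the walk
  has its ends in the cluster of `b`: use the lemma `reach_inter`: if `(gr Γ').Reachable b x`, `Γ' ⊆ Γ` then `(gr (Γ'.filter (both ends connected to b in Γ))).Reachable b x`).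
* `ball_conn`: any two vertices of `[-n,n]²` at distance `≤ r` from `z` are connected by edges of `bl n z r` (go along a row, then along a column: the set
  of such vertices is a rectangle `[x1,x2] × [y1,y2]` with `x1 = max (-n) (z.1 - r)` etc.; induction along `ℤ` intervals).
* `mem_bxa`, `mem_bx'`: by `mem_box` and cases on the kind of the edge.
-/

set_option autoImplicit false

noncomputable section

namespace FKN

open Finset FKI FKP

theorem mem_bxa {z : V} {r : ℤ} {e : Edge} : e ∈ bxa z r ↔ nrm (ea e - z) ≤ r ∧ nrm (eb e - z) ≤ r := by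
  obtain ⟨x, y, t⟩ := e
  obtain ⟨a, b⟩ := z
  unfold bxa nrm
  rw [mem_box]
  cases t
  · simp only [ea, eb, Prod.fst_sub, Prod.snd_sub, max_le_iff, abs_le]
    simp
    omega
  · simp only [ea, eb, Prod.fst_sub, Prod.snd_sub, max_le_iff, abs_le]
    simp
    omega

theorem mem_bx' {n : ℕ} {e : Edge} : e ∈ bx n ↔ nrm (ea e) ≤ n ∧ nrm (eb e) ≤ n := by
  obtain ⟨x, y, t⟩ := e
  unfold bx nrm
  rw [mem_box]
  cases t
  · simp only [ea, eb, max_le_iff, abs_le]
    simp
    omega
  · simp only [ea, eb, max_le_iff, abs_le]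
    simp
    omega

theorem nrm_tri (u v w : V) : nrm (u - w) ≤ nrm (u - v) + nrm (v - w) := by
  unfold nrm
  simp only [Prod.fst_sub, Prod.snd_sub]
  have h1 := abs_sub_le u.1 v.1 w.1
  have h2 := abs_sub_le u.2 v.2 w.2
  have h3 := le_max_left |u.1 - v.1| |u.2 - v.2|
  have h4 := le_max_right |u.1 - v.1| |u.2 - v.2|
  have h5 := le_max_left |v.1 - w.1| |v.2 - w.2|
  have h6 := le_max_right |v.1 - w.1| |v.2 - w.2|
  exact max_le (by linarith) (by linarith)

theorem nrm_sub_comm (u v : V) : nrm (u - v) = nrm (v - u) := by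
  unfold nrm
  simp only [Prod.fst_sub, Prod.snd_sub]
  rw [abs_sub_comm u.1, abs_sub_comm u.2]

theorem nrm_edge (z : V) (e : Edge) : nrm (ea e - z) - nrm (eb e - z) ≤ 1 ∧ nrm (eb e - z) - nrm (ea e - z) ≤ 1 := by
  have h1 : nrm (ea e - eb e) ≤ 1 := by
    obtain ⟨x, y, t⟩ := e
    unfold nrm
    cases t <;> simp [ea, eb]
  have h2 : nrm (eb e - ea e) ≤ 1 := by
    rw [nrm_sub_comm]
    exact h1
  have h3 := nrm_tri (ea e) (eb e) z
  have h4 := nrm_tri (eb e) (ea e) z
  constructor
  · linarith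
  · linarith

private theorem BG_edge {ω : Finset Edge} {e : Edge} (he : e ∈ ω) {u v : V}
    (h : (ea e = u ∧ eb e = v) ∨ (ea e = v ∧ eb e = u)) : (gr ω).Reachable u v := by
  have h1 : Conn ω ω u v := pexit_edge he he h
  exact h1.reach

theorem gr_union_hit {ω B : Finset Edge} {a b : V} (h : (gr (ω ∪ B)).Reachable a b) (h' : ¬ (gr ω).Reachable a b) :
    ∃ e ∈ B, (gr ω).Reachable a (ea e) ∨ (gr ω).Reachable a (eb e) := by
  by_contra hcon
  push Not at hcon
  apply h'
  obtain ⟨p⟩ := h
  have key : ∀ (c u v : V), (gr (ω ∪ B)).Walk u v → (∀ e ∈ B, ¬ (gr ω).Reachable c (ea e) ∧ ¬ (gr ω).Reachable c (eb e)) →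
      (gr ω).Reachable c u → (gr ω).Reachable c v := by
    intro c u v q hc
    induction q with
    | nil => exact fun h => h
    | @cons u v w hadj q ih =>
      intro hu
      apply ih
      obtain ⟨e, he, hends⟩ := pexit_adj hadj
      rcases mem_union.1 he with he | he
      · exact hu.trans (BG_edge he hends)
      · exfalso
        rcases hends with ⟨h1, h2⟩ | ⟨h1, h2⟩
        · exact (hc e he).1 (by rw [h1]; exact hu)
        · exact (hc e he).2 (by rw [h2]; exact hu)
  exact key a a b p hcon (SimpleGraph.Reachable.refl _)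

theorem gr_insert {ω : Finset Edge} {e : Edge} {x y : V} (h : (gr (insert e ω)).Reachable x y)
    (h' : ¬ (gr ω).Reachable x y) : ((gr ω).Reachable x (ea e) ∧ (gr ω).Reachable (eb e) y) ∨
      ((gr ω).Reachable x (eb e) ∧ (gr ω).Reachable (ea e) y) := by
  obtain ⟨p⟩ := h
  have key : ∀ (u v : V), (gr (insert e ω)).Walk u v → ((gr ω).Reachable u v ∨
      ((gr ω).Reachable u (ea e) ∧ (gr ω).Reachable (eb e) v) ∨
      ((gr ω).Reachable u (eb e) ∧ (gr ω).Reachable (ea e) v)) := by
    intro u v q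
    induction q with
    | nil => exact Or.inl (SimpleGraph.Reachable.refl _)
    | @cons u v w hadj q ih =>
      obtain ⟨e', he', hends⟩ := pexit_adj hadj
      rcases mem_insert.1 he' with he' | he'
      · subst he'
        rcases hends with ⟨h1, h2⟩ | ⟨h1, h2⟩
        · subst h1 h2
          rcases ih with h3 | ⟨h3, h4⟩ | ⟨h3, h4⟩
          · exact Or.inr (Or.inl ⟨SimpleGraph.Reachable.refl _, h3⟩)
          · exact Or.inr (Or.inl ⟨SimpleGraph.Reachable.refl _, h4⟩)
          · exact Or.inl h4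
        · subst h1 h2
          rcases ih with h3 | ⟨h3, h4⟩ | ⟨h3, h4⟩
          · exact Or.inr (Or.inr ⟨SimpleGraph.Reachable.refl _, h3⟩)
          · exact Or.inl h4
          · exact Or.inr (Or.inr ⟨SimpleGraph.Reachable.refl _, h4⟩)
      · have huv : (gr ω).Reachable u v := BG_edge he' hends
        rcases ih with h3 | ⟨h3, h4⟩ | ⟨h3, h4⟩
        · exact Or.inl (huv.trans h3)
        · exact Or.inr (Or.inl ⟨huv.trans h3, h4⟩)
        · exact Or.inr (Or.inr ⟨huv.trans h3, h4⟩)
  rcases key x y p with h1 | h1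
  · exact absurd h1 h'
  · exact h1

private theorem BG_aux {Γ : Finset Edge} (f : V → ℤ)
    (hf : ∀ e ∈ Γ, f (ea e) - f (eb e) ≤ 1 ∧ f (eb e) - f (ea e) ≤ 1) {t : ℤ} {a b : V}
    (p : (gr Γ).Walk a b) (hb : t ≤ f b) :
    ((gr (Γ.filter (fun e => t < f (ea e) ∨ t < f (eb e)))).Reachable a b ∧ t ≤ f a ∧ (t < f a ∨ a = b)) ∨
    ∃ c, f c = t ∧ (gr Γ).Reachable a c ∧
      (gr (Γ.filter (fun e => t < f (ea e) ∨ t < f (eb e)))).Reachable c b := by
  induction p with
  | nil => exact Or.inl ⟨SimpleGraph.Reachable.refl _, hb, Or.inr rfl⟩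
  | @cons u v w hadj p ih =>
    obtain ⟨e, he, hends⟩ := pexit_adj hadj
    have hfe := hf e he
    have hc1 : (gr Γ).Reachable u v := BG_edge he hends
    rcases ih hb with ⟨h1, h2, h3⟩ | ⟨c, h1, h2, h3⟩
    · by_cases hv : t < f v
      · have he2 : e ∈ Γ.filter (fun e => t < f (ea e) ∨ t < f (eb e)) := by
          rw [mem_filter]
          refine ⟨he, ?_⟩
          rcases hends with ⟨h4, h5⟩ | ⟨h4, h5⟩
          · right
            rw [h5]
            exact hv
          · left
            rw [h4]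
            exact hv
        have hub := (BG_edge he2 hends).trans h1
        by_cases hu : t < f u
        · exact Or.inl ⟨hub, hu.le, Or.inl hu⟩
        · right
          refine ⟨u, ?_, SimpleGraph.Reachable.refl _, hub⟩
          rcases hends with ⟨h4, h5⟩ | ⟨h4, h5⟩
          · rw [h4, h5] at hfe
            omega
          · rw [h4, h5] at hfe
            omega
      · exact Or.inr ⟨v, le_antisymm (not_lt.1 hv) h2, hc1, h1⟩
    · exact Or.inr ⟨c, h1, hc1.trans h2, h3⟩

theorem last_exit' {Γ : Finset Edge} (f : V → ℤ)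
    (hf : ∀ e ∈ Γ, f (ea e) - f (eb e) ≤ 1 ∧ f (eb e) - f (ea e) ≤ 1) {a b : V} {t : ℤ}
    (ha : f a ≤ t) (hb : t ≤ f b) (hc : (gr Γ).Reachable a b) :
    ∃ c, f c = t ∧ (gr Γ).Reachable a c ∧
      (gr (Γ.filter (fun e => t < f (ea e) ∨ t < f (eb e)))).Reachable c b := by
  obtain ⟨p⟩ := hc
  rcases BG_aux f hf p hb with ⟨h1, h2, -⟩ | h
  · exact ⟨a, le_antisymm ha h2, SimpleGraph.Reachable.refl _, h1⟩
  · exact h

open Classical in
/-- the edges of a walk have their ends in the cluster -/
private theorem BG_reach {Γ Γ' : Finset Edge} (hΓ : Γ' ⊆ Γ) {b u w : V} (p : (gr Γ').Walk u w) :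
    (gr Γ).Reachable b u →
    (gr (Γ'.filter (fun e => (gr Γ).Reachable b (ea e) ∧ (gr Γ).Reachable b (eb e)))).Reachable u w := by
  induction p with
  | nil => exact fun _ => SimpleGraph.Reachable.refl _
  | @cons u v w hadj p ih =>
    intro hu
    obtain ⟨e, he, hends⟩ := pexit_adj hadj
    have hv : (gr Γ).Reachable b v := hu.trans (BG_edge (hΓ he) hends)
    have he2 : e ∈ Γ'.filter (fun e => (gr Γ).Reachable b (ea e) ∧ (gr Γ).Reachable b (eb e)) := by
      rw [mem_filter]
      refine ⟨he, ?_⟩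
      rcases hends with ⟨h1, h2⟩ | ⟨h1, h2⟩
      · rw [h1, h2]
        exact ⟨hu, hv⟩
      · rw [h1, h2]
        exact ⟨hv, hu⟩
    exact (BG_edge he2 hends).trans (ih hv)

theorem offarm_of {Γ E : Finset Edge} {K : Set V} {z : V} {r R : ℕ} {ω : Finset Edge} {b u : V} (hrR : r < R)
    (h : (gr Γ).Reachable b u) (hb : (R : ℤ) ≤ nrm (b - z)) (hu : nrm (u - z) ≤ r)
    (hK : ∀ w ∈ K, ¬ (gr Γ).Reachable b w) (hΓ : ∀ e ∈ Γ, e ∈ bxa z R → e ∉ bxa z r → e ∈ E ∧ e ∈ ω) :
    OffArm E K z r R ω := by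
  classical
  have hrR' : (r : ℤ) < R := by exact_mod_cast hrR
  have hcu : Conn Γ Γ u b := Conn.of_reach (Finset.Subset.refl _) h.symm
  obtain ⟨w, hw1, hw2, hw3⟩ := first_hit (fun v => nrm (v - z)) (fun e _ => nrm_edge z e)
    (hu.trans hrR'.le) hb hcu
  have hwb : (gr Γ).Reachable b w := hw2.reach.symm
  have hw4 : (gr (Γ.filter (fun e => nrm (ea e - z) ≤ R ∧ nrm (eb e - z) ≤ R))).Reachable u w := by
    have h1 : (gr (Γ ∩ Γ.filter (fun e => nrm (ea e - z) ≤ R ∧ nrm (eb e - z) ≤ R))).Reachable u w := hw3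
    rwa [Finset.inter_eq_right.2 (filter_subset _ _)] at h1
  obtain ⟨u', hu1, hu2, hu3⟩ := last_exit' (fun v => nrm (v - z)) (fun e _ => nrm_edge z e) (t := (r : ℤ))
    hu (by rw [hw1]; exact hrR'.le) hw4
  have hsub1 : Γ.filter (fun e => nrm (ea e - z) ≤ R ∧ nrm (eb e - z) ≤ R) ⊆ Γ := filter_subset _ _
  have hbu : (gr Γ).Reachable b u' := by
    have h1 : Conn Γ Γ u u' := Conn.mono hsub1 hsub1 (Conn.of_reach (Finset.Subset.refl _) hu2)
    exact h.trans h1.reach
  obtain ⟨p⟩ := hu3
  have hfin := BG_reach (Γ := Γ) (b := b) ((filter_subset _ _).trans hsub1) p hbu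
  refine ⟨u', w, hu1, hw1, ?_⟩
  have hsub2 : ((Γ.filter (fun e => nrm (ea e - z) ≤ R ∧ nrm (eb e - z) ≤ R)).filter
      (fun e => (r : ℤ) < nrm (ea e - z) ∨ (r : ℤ) < nrm (eb e - z))).filter
      (fun e => (gr Γ).Reachable b (ea e) ∧ (gr Γ).Reachable b (eb e)) ⊆
      ω ∩ ((E ∩ (bxa z R \ bxa z r)) \ tch E K) := by
    intro e he
    rw [mem_filter, mem_filter, mem_filter] at he
    obtain ⟨⟨⟨h1, h2⟩, h3⟩, h4, h5⟩ := he
    have h6 : e ∈ bxa z R := mem_bxa.2 h2
    have h7 : e ∉ bxa z r := by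
      rw [mem_bxa]
      rintro ⟨h8, h9⟩
      rcases h3 with h3 | h3
      · exact absurd h8 (not_le.2 h3)
      · exact absurd h9 (not_le.2 h3)
    obtain ⟨h8, h9⟩ := hΓ e h1 h6 h7
    rw [mem_inter, mem_sdiff, mem_inter, mem_sdiff]
    refine ⟨h9, ⟨h8, h6, h7⟩, ?_⟩
    unfold tch
    rw [mem_filter]
    rintro ⟨-, h10 | h10⟩
    · exact hK _ h10 h4
    · exact hK _ h10 h5
  have h1 : Conn _ _ u' w := Conn.of_reach (Finset.Subset.refl _) hfin
  exact (Conn.mono hsub2 hsub2 h1).mono inter_subset_right inter_subset_left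

private theorem BG_row {F : Finset Edge} {x y : ℤ} (d : ℕ) :
    (∀ i : ℤ, x ≤ i → i < x + d → (i, y, false) ∈ F) → (gr F).Reachable (x, y) (x + d, y) := by
  induction d with
  | zero =>
    intro _
    rw [Nat.cast_zero, add_zero]
  | succ d ih =>
    intro h
    have h1 := ih fun i h1 h2 => h i h1 (by push_cast; omega)
    have h2 : (x + d, y, false) ∈ F := h _ (by omega) (by push_cast; omega)
    refine h1.trans (BG_edge h2 (Or.inl ⟨rfl, ?_⟩))
    simp only [eb]
    push_cast
    rw [add_assoc]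

private theorem BG_col {F : Finset Edge} {x y : ℤ} (d : ℕ) :
    (∀ i : ℤ, y ≤ i → i < y + d → (x, i, true) ∈ F) → (gr F).Reachable (x, y) (x, y + d) := by
  induction d with
  | zero =>
    intro _
    rw [Nat.cast_zero, add_zero]
  | succ d ih =>
    intro h
    have h1 := ih fun i h1 h2 => h i h1 (by push_cast; omega)
    have h2 : (x, y + d, true) ∈ F := h _ (by omega) (by push_cast; omega)
    refine h1.trans (BG_edge h2 (Or.inl ⟨rfl, ?_⟩))
    simp only [eb]
    push_cast
    rw [add_assoc]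

private theorem BG_row' {F : Finset Edge} {x x' y : ℤ}
    (h : ∀ i : ℤ, min x x' ≤ i → i < max x x' → (i, y, false) ∈ F) : (gr F).Reachable (x, y) (x', y) := by
  rcases le_total x x' with hx | hx
  · obtain ⟨d, hd⟩ := Int.eq_ofNat_of_zero_le (sub_nonneg.2 hx)
    have e : x' = x + d := by omega
    subst e
    exact BG_row d fun i h1 h2 => h i (by rw [min_eq_left hx]; exact h1) (by rw [max_eq_right hx]; exact h2)
  · obtain ⟨d, hd⟩ := Int.eq_ofNat_of_zero_le (sub_nonneg.2 hx)
    have e : x = x' + d := by omega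
    subst e
    exact (BG_row d fun i h1 h2 => h i (by rw [min_eq_right hx]; exact h1) (by rw [max_eq_left hx]; exact h2)).symm

private theorem BG_col' {F : Finset Edge} {x y y' : ℤ}
    (h : ∀ i : ℤ, min y y' ≤ i → i < max y y' → (x, i, true) ∈ F) : (gr F).Reachable (x, y) (x, y') := by
  rcases le_total y y' with hx | hx
  · obtain ⟨d, hd⟩ := Int.eq_ofNat_of_zero_le (sub_nonneg.2 hx)
    have e : y' = y + d := by omega
    subst e
    exact BG_col d fun i h1 h2 => h i (by rw [min_eq_left hx]; exact h1) (by rw [max_eq_right hx]; exact h2)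
  · obtain ⟨d, hd⟩ := Int.eq_ofNat_of_zero_le (sub_nonneg.2 hx)
    have e : y = y' + d := by omega
    subst e
    exact (BG_col d fun i h1 h2 => h i (by rw [min_eq_right hx]; exact h1) (by rw [max_eq_left hx]; exact h2)).symm

theorem ball_conn {n r : ℕ} {z u v : V} (hz : nrm z ≤ n) (hu : nrm u ≤ n) (hv : nrm v ≤ n) (hu' : nrm (u - z) ≤ r)
    (hv' : nrm (v - z) ≤ r) : (gr (bl n z r)).Reachable u v := by
  obtain ⟨a, b⟩ := z
  obtain ⟨x, y⟩ := u
  obtain ⟨x', y'⟩ := v
  unfold nrm at hz hu hv hu' hv'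
  simp only [Prod.fst_sub, Prod.snd_sub, max_le_iff, abs_le] at hz hu hv hu' hv'
  refine (BG_row' (x' := x') ?_).trans (BG_col' ?_)
  · intro i h1 h2
    have h3 : (x ≤ i ∨ x' ≤ i) ∧ (i < x ∨ i < x') := ⟨min_le_iff.1 h1, lt_max_iff.1 h2⟩
    unfold bl
    rw [mem_inter, mem_bx', mem_bxa]
    unfold nrm
    simp only [ea, eb, Prod.fst_sub, Prod.snd_sub, max_le_iff, abs_le]
    simp
    omega
  · intro i h1 h2
    have h3 : (y ≤ i ∨ y' ≤ i) ∧ (i < y ∨ i < y') := ⟨min_le_iff.1 h1, lt_max_iff.1 h2⟩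
    unfold bl
    rw [mem_inter, mem_bx', mem_bxa]
    unfold nrm
    simp only [ea, eb, Prod.fst_sub, Prod.snd_sub, max_le_iff, abs_le]
    simp
    omega

end FKN
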