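import Pool.Agent.Lib.MP_216314_pr.N.BIQ

/-!
# Inner surgery: closing the two dual balls

Mirror of N/BC. `D = an r n`, `η = dc D ω`, `B2 = bli r n (ef r t2) (ρ - 1)`, `B4` the same with `t4`.

* `stari`: suppose `¬ (gr η).Reachable f (ef r t)`. `offarm_of` with `Γ = η`, `E = (an r h).map dl`, `K`, `z = ef r t`, `ω := dc (an r h) ω`, `b := f`, `u := g`. For `e' ∈ η` in `bxa (ef r t) R`: `e' = dl e`, `e ∈ an r n`, `e ∉ ω`; `fl (ef r t) = r`, so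
  `nrm (ef r t) ≤ r + 1` (`nrm_fl`), the ends of `e'` have level `≤ nrm ≤ r + 1 + R < h`, so `e ∈ bx h` (`bx_of_fl`), `e ∈ an r h`, `e' ∈ dc (an r h) ω`. Contradiction to `¬ OffArm`.
* `closingi`: first show that no `ef r s` (`τ1 ≤ s < τ3`) is connected to an `ef r s'` (`τ3 ≤ s' < τ1 + 8 r`) in `η'' = dc D (ω \ (B2 ∪ B4))`, by the set `G` exactly as in `closing` (N/BC): `G` = the faces connected in `η` to some `ef r i`, `τ1 ≤ i < τ3`, or to some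
  `g ∈ N2 = {g | nrm (g - ef r t2) ≤ ρ}`; the exclusion is `AN2` for `ω` (instead of `BD2`), `stari` instead of `star`; `η'' ⊆ η ∪ (B2 ∪ B4).map dl`, and both ends of an edge of `B2.map dl` are in `N2`. Then `AN1` for the configuration `ω \ (B2 ∪ B4)`
  (`¬ Conn D (ω \ ..) (bp r τ1) (bp r τ3)` by `Conn.mono`) gives `Z`, `Z'`; `Conn D (ω \ B) u v` and `Conn (D \ B) ω u v` are the same (`(ω \ B) ∩ D = ω ∩ (D \ B)`).
-/

set_option autoImplicit false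

noncomputable section

namespace FKN

open Finset FKI FKP

private theorem BIC_tri (z v : V) : nrm v ≤ nrm (v - z) + nrm z := by
  have h := nrm_tri v z 0
  rw [sub_zero, sub_zero] at h
  exact h

private theorem BIC_mem_dc {F ω : Finset Edge} {e : Edge} : e ∈ dc F ω ↔ ∃ e1 ∈ F, e1 ∉ ω ∧ dl e1 = e := by
  unfold dc
  rw [Finset.mem_map]
  constructor
  · rintro ⟨e1, h1, h2⟩
    rw [Finset.mem_sdiff] at h1
    exact ⟨e1, h1.1, h1.2, h2⟩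
  · rintro ⟨e1, h1, h2, h3⟩
    exact ⟨e1, Finset.mem_sdiff.2 ⟨h1, h2⟩, h3⟩

private theorem BIC_edge {Γ : Finset Edge} {e : Edge} (he : e ∈ Γ) : (gr Γ).Reachable (ea e) (eb e) := by
  have h := pexit_edge (F := Γ) (ω := Γ) he he (u := ea e) (v := eb e) (Or.inl ⟨rfl, rfl⟩)
  unfold Conn at h
  rw [Finset.inter_self] at h
  exact h

/-- a set closed under the edges of `Γ` -/
private theorem BIC_closed {Γ : Finset Edge} (G : V → Prop) (hG : ∀ e ∈ Γ, (G (ea e) ↔ G (eb e))) {a b : V}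
    (h : (gr Γ).Reachable a b) (ha : G a) : G b := by
  obtain ⟨p⟩ := h
  induction p with
  | nil => exact ha
  | @cons u v w hadj p ih =>
    apply ih
    obtain ⟨e, he, hends⟩ := pexit_adj hadj
    rcases hends with ⟨h1, h2⟩ | ⟨h1, h2⟩
    · rw [← h2]
      rw [← h1] at ha
      exact (hG e he).1 ha
    · rw [← h1]
      rw [← h2] at ha
      exact (hG e he).2 ha

/-- the ends of the dual edge -/
private theorem BIC_dl (e : Edge) : nrm (ea (dl e) - ea e) ≤ 1 ∧ nrm (eb (dl e) - ea e) ≤ 1 := by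
  obtain ⟨x, y, t⟩ := e
  cases t <;> simp [dl, ea, eb, nrm]

private theorem BIC_ball {r n ρ : ℕ} (hρ1 : 1 ≤ ρ) {z : V} {e : Edge} (he : e ∈ bli r n z (ρ - 1)) :
    nrm (ea (dl e) - z) ≤ ρ ∧ nrm (eb (dl e) - z) ≤ ρ := by
  unfold bli at he
  rw [Finset.mem_inter, mem_bxa] at he
  have h1 : nrm (ea e - z) ≤ ((ρ - 1 : ℕ) : ℤ) := he.2.1
  have h2 : ((ρ - 1 : ℕ) : ℤ) = (ρ : ℤ) - 1 := by omega
  have h3 := nrm_tri (ea (dl e)) (ea e) z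
  have h4 := nrm_tri (eb (dl e)) (ea e) z
  obtain ⟨h5, h6⟩ := BIC_dl e
  constructor <;> omega

private theorem BIC_conn {D B ω : Finset Edge} {u v : V} (h : Conn D (ω \ B) u v) : Conn (D \ B) ω v u := by
  have h1 : (ω \ B) ∩ D = ω ∩ (D \ B) := by
    ext e
    simp only [Finset.mem_inter, Finset.mem_sdiff]
    tauto
  unfold Conn at h ⊢
  rw [h1] at h
  exact h.symm

theorem stari {r h n ρ R : ℕ} (hr : 1 ≤ r) (hρ : ρ < R) (hR : r + R + 2 < h) (hhn : h ≤ n) {ω : Finset Edge} {t : ℤ}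
    {K : Set V} (hK : ∀ f ∈ K, (gr (dc (an r n) ω)).Reachable (ef r t) f)
    (hg : ¬ OffArm ((an r h).map dl.toEmbedding) K (ef r t) ρ R (dc (an r h) ω)) {f g : V}
    (hfg : (gr (dc (an r n) ω)).Reachable f g) (hf : (R : ℤ) ≤ nrm (f - ef r t)) (hgt : nrm (g - ef r t) ≤ ρ) :
    (gr (dc (an r n) ω)).Reachable f (ef r t) := by
  by_contra hcon
  refine hg (offarm_of (Γ := dc (an r n) ω) hρ hfg hf hgt ?_ ?_)
  · intro w hw h1
    exact hcon (h1.trans (hK w hw).symm)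
  · intro e' he' h1 _
    obtain ⟨e, he, heω, rfl⟩ := BIC_mem_dc.1 he'
    have h2 : e ∈ bx h := by
      refine bx_of_fl (Or.inl ?_)
      have h5 := (nrm_fl (ea (dl e))).1
      have h6 := (nrm_fl (ef r t)).2
      rw [fl_ef hr t] at h6
      have h7 := BIC_tri (ef r t) (ea (dl e))
      have h8 : nrm (ea (dl e) - ef r t) ≤ (R : ℤ) := (mem_bxa.1 h1).1
      omega
    have h3 : e ∈ an r h := Finset.mem_sdiff.2 ⟨h2, (Finset.mem_sdiff.1 he).2⟩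
    exact ⟨Finset.mem_map.2 ⟨e, h3, rfl⟩, BIC_mem_dc.2 ⟨e, h3, heω, rfl⟩⟩

theorem closingi {r h n ρ R : ℕ} (hr : 1 ≤ r) (hρ1 : 1 ≤ ρ) (hρ : ρ < R) (hR : r + R + 2 < h) (hhn : h < n)
    {ω : Finset Edge} {τ1 t2 τ3 t4 : ℤ} (h12 : τ1 ≤ t2) (h23 : t2 < τ3) (h34 : τ3 ≤ t4) (h41 : t4 < τ1 + 8 * r)
    {Z1 Z3 : V} (hZ1 : nrm Z1 = n) (hZ3 : nrm Z3 = n) (ha : Conn (an r n) ω (bp r τ1) Z1)
    (hb : Conn (an r n) ω (bp r τ3) Z3) (hab : ¬ Conn (an r n) ω (bp r τ1) (bp r τ3)) {K2 K4 : Set V}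
    (hK2 : ∀ f ∈ K2, (gr (dc (an r n) ω)).Reachable (ef r t2) f)
    (hK4 : ∀ f ∈ K4, (gr (dc (an r n) ω)).Reachable (ef r t4) f)
    (hg2 : ¬ OffArm ((an r h).map dl.toEmbedding) K2 (ef r t2) ρ R (dc (an r h) ω))
    (hg4 : ¬ OffArm ((an r h).map dl.toEmbedding) K4 (ef r t4) ρ R (dc (an r h) ω))
    (far2 : ∀ s : ℤ, τ3 ≤ s → s < τ1 + 8 * r → (R : ℤ) ≤ nrm (ef r s - ef r t2))
    (far4 : ∀ s : ℤ, τ1 ≤ s → s < τ3 → (R : ℤ) ≤ nrm (ef r s - ef r t4))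
    (far24 : (R : ℤ) + ρ ≤ nrm (ef r t2 - ef r t4)) :
    (∃ Z : V, nrm Z = n ∧
      Conn (an r n \ (bli r n (ef r t2) (ρ - 1) ∪ bli r n (ef r t4) (ρ - 1))) ω Z (bp r τ1)) ∧
    (∃ Z : V, nrm Z = n ∧
      Conn (an r n \ (bli r n (ef r t2) (ρ - 1) ∪ bli r n (ef r t4) (ρ - 1))) ω Z (bp r τ3)) := by
  have h13 : τ1 < τ3 := by omega
  have h31 : τ3 < τ1 + 8 * r := by omega
  have hrn : r < n := by omega
  have hhn' : h ≤ n := hhn.le
  have bd : ∀ s s' : ℤ, τ1 ≤ s → s < τ3 → τ3 ≤ s' → s' < τ1 + 8 * r →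
      ¬ (gr (dc (an r n) ω)).Reachable (ef r s) (ef r s') := fun s s' h1 h2 h3 h4 =>
    AN2 hr hrn h13 h31 hZ1 hZ3 ha hb h1 h2 h3 h4
  -- the set of faces
  let G : V → Prop := fun f => (∃ i : ℤ, τ1 ≤ i ∧ i < τ3 ∧ (gr (dc (an r n) ω)).Reachable f (ef r i)) ∨
    (∃ g : V, nrm (g - ef r t2) ≤ ρ ∧ (gr (dc (an r n) ω)).Reachable f g)
  have hG1 : ∀ i' : ℤ, τ3 ≤ i' → i' < τ1 + 8 * r → ¬ G (ef r i') := by
    rintro i' h1 h2 (⟨i, h3, h4, h5⟩ | ⟨g, h3, h4⟩)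
    · exact bd i i' h3 h4 h1 h2 h5.symm
    · have h5 := stari hr hρ hR hhn' hK2 hg2 h4 (far2 i' h1 h2) h3
      exact bd t2 i' h12 h23 h1 h2 h5.symm
  have hG2 : ∀ f : V, nrm (f - ef r t4) ≤ ρ → ¬ G f := by
    rintro f h1 (⟨i, h3, h4, h5⟩ | ⟨g, h3, h4⟩)
    · have h6 := stari hr hρ hR hhn' hK4 hg4 h5.symm (far4 i h3 h4) h1
      exact bd i t4 h3 h4 h34 h41 h6
    · have k1 := nrm_tri (ef r t2) g (ef r t4)
      have k2 := nrm_sub_comm (ef r t2) g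
      have h5 : (R : ℤ) ≤ nrm (g - ef r t4) := by omega
      have k3 := nrm_tri (ef r t2) f (ef r t4)
      have k4 := nrm_sub_comm (ef r t2) f
      have h6 : (R : ℤ) ≤ nrm (f - ef r t2) := by omega
      have h7 := stari hr hρ hR hhn' hK4 hg4 h4.symm h5 h1
      have h8 := stari hr hρ hR hhn' hK2 hg2 h4 h6 h3
      exact bd t2 t4 h12 h23 h34 h41 ((h8.symm.trans h4).trans h7)
  have hG3 : ∀ e ∈ dc (an r n) (ω \ (bli r n (ef r t2) (ρ - 1) ∪ bli r n (ef r t4) (ρ - 1))),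
      (G (ea e) ↔ G (eb e)) := by
    intro e he
    obtain ⟨e1, h1, h2, rfl⟩ := BIC_mem_dc.1 he
    by_cases h3 : e1 ∈ ω
    · by_cases h4 : e1 ∈ bli r n (ef r t2) (ρ - 1)
      · obtain ⟨h5, h6⟩ := BIC_ball hρ1 h4
        exact ⟨fun _ => Or.inr ⟨_, h6, SimpleGraph.Reachable.refl _⟩,
          fun _ => Or.inr ⟨_, h5, SimpleGraph.Reachable.refl _⟩⟩
      · by_cases h5 : e1 ∈ bli r n (ef r t4) (ρ - 1)
        · obtain ⟨h6, h7⟩ := BIC_ball hρ1 h5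
          exact ⟨fun h => absurd h (hG2 _ h6), fun h => absurd h (hG2 _ h7)⟩
        · exfalso
          apply h2
          rw [Finset.mem_sdiff, Finset.mem_union]
          exact ⟨h3, fun h => h.elim h4 h5⟩
    · have h4 : dl e1 ∈ dc (an r n) ω := BIC_mem_dc.2 ⟨e1, h1, h3, rfl⟩
      have h5 := BIC_edge h4
      constructor
      · rintro (⟨i, h6, h7, h8⟩ | ⟨g, h6, h7⟩)
        · exact Or.inl ⟨i, h6, h7, h5.symm.trans h8⟩
        · exact Or.inr ⟨g, h6, h5.symm.trans h7⟩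
      · rintro (⟨i, h6, h7, h8⟩ | ⟨g, h6, h7⟩)
        · exact Or.inl ⟨i, h6, h7, h5.trans h8⟩
        · exact Or.inr ⟨g, h6, h5.trans h7⟩
  have hx : ∀ s s' : ℤ, τ1 ≤ s → s < τ3 → τ3 ≤ s' → s' < τ1 + 8 * r →
      ¬ (gr (dc (an r n) (ω \ (bli r n (ef r t2) (ρ - 1) ∪ bli r n (ef r t4) (ρ - 1))))).Reachable
        (ef r s) (ef r s') := by
    intro s s' h1 h2 h3 h4 h5
    have h6 : G (ef r s) := Or.inl ⟨s, h1, h2, SimpleGraph.Reachable.refl _⟩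
    exact hG1 s' h3 h4 (BIC_closed G hG3 h5 h6)
  have hc : ¬ Conn (an r n) (ω \ (bli r n (ef r t2) (ρ - 1) ∪ bli r n (ef r t4) (ρ - 1))) (bp r τ1) (bp r τ3) :=
    fun h0 => hab (h0.mono (Finset.Subset.refl _) Finset.sdiff_subset)
  obtain ⟨⟨⟨Z, hZ, hc1⟩, Z', hZ', hc3⟩, -, -⟩ := AN1 hr hrn h13 h31 hx hc
  exact ⟨⟨Z, hZ, BIC_conn hc1⟩, Z', hZ', BIC_conn hc3⟩

end FKN
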