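import Pool.Agent.Lib.MP_216314_pr.N.BG
import Pool.Agent.Lib.MP_216314_pr.N.AP

/-!
# Distances on the boundary

* `far_ball`: `be n t ∉ bl n y ρ`, `be n t ∈ bx n` (`be_mem`), so `be n t ∉ bxa y ρ`: one of its ends `bp n t`, `bp n (t + 1)` (`be_ends`) is at distance `> ρ` from `y` (`mem_bxa`); since
  `nrm (bp n t - bp n (t + 1)) ≤ 1` (`bp_lip`), `ρ ≤ nrm (bp n t - y)` (`nrm_tri`).
* `gap`: `ρ ≤ nrm (bp n t - y) ≤ nrm (bp n t - bp n t') + nrm (bp n t' - y) ≤ |t - t'| + m`.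
* `far2`: suppose `d := nrm (ef n s - ef n t) < R` (`d ≥ 0`, as a natural number `d < n`). `ef_circ`: `|s - t - 8 n k| ≤ 2 d` for some `k`. Since `0 < s - t < 8 n` and `2 d < 2 n`, `k = 0` or `k = 1`.
  `k = 0`: `t < t3 ≤ s ≤ t + 2 d`, so `|t - t3| ≤ 2 d`, and `gap` (with `y3`, `t' = t3`) gives `ρ - m ≤ 2 d < 2 R`, contradiction. `k = 1`: `t1 + 8 n > s ≥ t + 8 n - 2 d`, so
  `0 ≤ t - t1 < 2 d`, and `gap` (with `y1`, `t' = t1`) gives `ρ - m ≤ 2 d`, contradiction.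
* `far4`: the same with `t` in the second arc, `s` in the first one (`k = 0`: `s < t3 ≤ t`, `|t - t3| ≤ 2 d`; `k = -1`: `t` close to `t1 + 8 n`; use `bp_per` for `y1`: `nrm (y1 - bp n (t1 + 8 n)) ≤ m`).
-/

set_option autoImplicit false

noncomputable section

namespace FKN

open Finset FKI FKP

theorem BM_nonneg (v : V) : 0 ≤ nrm v := (abs_nonneg v.1).trans (le_max_left _ _)

theorem far_ball {n ρ : ℕ} (hn : 1 ≤ n) {y : V} {t : ℤ} (h : be n t ∉ bl n y ρ) : (ρ : ℤ) ≤ nrm (bp n t - y) := by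
  have h1 : be n t ∉ bxa y ρ := fun h2 => h (Finset.mem_inter.2 ⟨be_mem hn t, h2⟩)
  rw [mem_bxa] at h1
  by_contra hcon
  push Not at hcon
  have h2 := nrm_tri (bp n (t + 1)) (bp n t) y
  have h3 := bp_lip hn (t + 1) t
  have h4 : |t + 1 - t| = 1 := by
    rw [add_sub_cancel_left]
    exact abs_one
  rw [h4] at h3
  apply h1
  rcases be_ends hn t with ⟨h5, h6⟩ | ⟨h5, h6⟩
  · rw [h5, h6]
    exact ⟨hcon.le, by linarith⟩
  · rw [h5, h6]
    exact ⟨by linarith, hcon.le⟩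

theorem gap {n ρ m : ℕ} (hn : 1 ≤ n) {y : V} {t t' : ℤ} (h : be n t ∉ bl n y ρ) (hy : nrm (y - bp n t') ≤ m) :
    (ρ : ℤ) ≤ |t - t'| + m := by
  have h1 := far_ball hn h
  have h2 := nrm_tri (bp n t) (bp n t') y
  have h3 := bp_lip hn t t'
  have h4 := nrm_sub_comm (bp n t') y
  linarith

theorem BM_k {n : ℕ} {d : ℕ} {x k : ℤ} (hd : d < n) (h0 : 0 < x) (h1 : x < 8 * n)
    (h : |x - 8 * n * k| ≤ 2 * d) : k = 0 ∨ k = 1 := by
  rw [abs_le] at h
  have hd' : (d : ℤ) < n := by exact_mod_cast hd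
  have h2 : 0 ≤ k := by
    by_contra hc
    have h3 : k ≤ -1 := by omega
    nlinarith
  have h3 : k ≤ 1 := by
    by_contra hc
    have h4 : 2 ≤ k := by omega
    nlinarith
  omega

theorem BM_k' {n : ℕ} {d : ℕ} {x k : ℤ} (hd : d < n) (h0 : x < 0) (h1 : -(8 * n) < x)
    (h : |x - 8 * n * k| ≤ 2 * d) : k = 0 ∨ k = -1 := by
  have h2 : |-x - 8 * n * (-k)| ≤ 2 * d := by
    have h3 : -x - 8 * n * (-k) = -(x - 8 * n * k) := by ring
    rw [h3, abs_neg]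
    exact h
  rcases BM_k hd (by omega) (by omega) h2 with h3 | h3
  · left
    omega
  · right
    omega

theorem far2 {n ρ m R : ℕ} (hn : 1 ≤ n) (hR : R ≤ n) (hρ : 2 * R + m ≤ ρ) {y1 y3 : V} {t1 t3 t s : ℤ}
    (hy1 : nrm (y1 - bp n t1) ≤ m) (hy3 : nrm (y3 - bp n t3) ≤ m) (h1 : t1 ≤ t) (h2 : t < t3) (h3 : t3 ≤ s)
    (h4 : s < t1 + 8 * n) (hb1 : be n t ∉ bl n y1 ρ) (hb3 : be n t ∉ bl n y3 ρ) : (R : ℤ) ≤ nrm (ef n s - ef n t) := by
  by_contra hcon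
  push Not at hcon
  have h0 := BM_nonneg (ef n s - ef n t)
  obtain ⟨d, hd⟩ : ∃ d : ℕ, nrm (ef n s - ef n t) = d := ⟨(nrm (ef n s - ef n t)).toNat, by omega⟩
  have hdn : d < n := by omega
  obtain ⟨k, hk⟩ := ef_circ hdn hd.le
  have g3 := gap hn hb3 hy3
  have g1 := gap hn hb1 hy1
  rcases BM_k hdn (by omega) (by omega) hk with h5 | h5
  · subst h5
    rw [mul_zero, sub_zero] at hk
    have h6 := le_abs_self (s - t)
    have h7 : |t - t3| = t3 - t := by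
      rw [abs_sub_comm]
      exact abs_of_nonneg (by omega)
    rw [h7] at g3
    omega
  · subst h5
    rw [mul_one] at hk
    have h6 := neg_abs_le (s - t - 8 * n)
    have h7 : |t - t1| = t - t1 := abs_of_nonneg (by omega)
    rw [h7] at g1
    omega

theorem far4 {n ρ m R : ℕ} (hn : 1 ≤ n) (hR : R ≤ n) (hρ : 2 * R + m ≤ ρ) {y1 y3 : V} {t1 t3 t s : ℤ}
    (hy1 : nrm (y1 - bp n t1) ≤ m) (hy3 : nrm (y3 - bp n t3) ≤ m) (h1 : t1 ≤ s) (h2 : s < t3) (h3 : t3 ≤ t)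
    (h4 : t < t1 + 8 * n) (hb1 : be n t ∉ bl n y1 ρ) (hb3 : be n t ∉ bl n y3 ρ) : (R : ℤ) ≤ nrm (ef n s - ef n t) := by
  by_contra hcon
  push Not at hcon
  have h0 := BM_nonneg (ef n s - ef n t)
  obtain ⟨d, hd⟩ : ∃ d : ℕ, nrm (ef n s - ef n t) = d := ⟨(nrm (ef n s - ef n t)).toNat, by omega⟩
  have hdn : d < n := by omega
  obtain ⟨k, hk⟩ := ef_circ hdn hd.le
  have g3 := gap hn hb3 hy3
  have hy1' : nrm (y1 - bp n (t1 + 8 * n)) ≤ m := by
    have h5 := bp_per n t1 1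
    rw [mul_one] at h5
    rw [h5]
    exact hy1
  have g1 := gap hn hb1 hy1'
  rcases BM_k' hdn (by omega) (by omega) hk with h5 | h5
  · subst h5
    rw [mul_zero, sub_zero] at hk
    have h6 := neg_abs_le (s - t)
    have h7 : |t - t3| = t - t3 := abs_of_nonneg (by omega)
    rw [h7] at g3
    omega
  · subst h5
    have h8 : s - t - 8 * n * -1 = s - t + 8 * n := by ring
    rw [h8] at hk
    have h6 := le_abs_self (s - t + 8 * n)
    have h7 : |t - (t1 + 8 * n)| = t1 + 8 * n - t := by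
      rw [abs_sub_comm]
      exact abs_of_nonneg (by omega)
    rw [h7] at g1
    omega

end FKN
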