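import Pool.Agent.Lib.MP_216314_pr.N.BIDef
import Pool.Agent.Lib.MP_216314_pr.N.BM

/-!
# Distances on the inner boundary

As N/BM (see there for the proofs), with the hypothesis `be n t ∉ bl n y ρ` replaced by `ρ ≤ nrm (bp n t - y)`.

* `far_balli`: `e ∉ bli r n y ρ`, `e ∈ an r n` give `e ∉ bxa y ρ`: an end of `e` is at distance `> ρ` from `y`, and at distance `≤ 1` from `bp r t`: `ρ ≤ nrm (bp r t - y)`.
* `gapi`: `ρ ≤ nrm (bp n t - y) ≤ nrm (bp n t - bp n t') + nrm (bp n t' - y) ≤ |t - t'| + m`.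
* `far2i`: suppose `d := nrm (ef n s - ef n t) < R`. `ef_circ`: `|s - t - 8 n k| ≤ 2 d` for some `k`. Since `0 < s - t < 8 n`, `k = 0` or `k = 1`. `k = 0`: `t < t3 ≤ s ≤ t + 2 d`, so `|t - t3| ≤ 2 d`, and `gapi` (with `y3`, `t' = t3`) gives
  `ρ - m ≤ 2 d < 2 R`, contradiction. `k = 1`: `0 ≤ t - t1 < 2 d`, and `gapi` (with `y1`, `t' = t1`), contradiction.
* `far4i`: the same with `t` in the second arc (`k = 0`: `s < t3 ≤ t`; `k = -1`: `t` close to `t1 + 8 n`, `bp_per`).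
-/

set_option autoImplicit false

noncomputable section

namespace FKN

open Finset FKI FKP

theorem far_balli {r n ρ : ℕ} {y : V} {t : ℤ} {e : Edge} (he : e ∈ an r n) (h : e ∉ bli r n y ρ)
    (h1 : nrm (ea e - bp r t) ≤ 1) (h2 : nrm (eb e - bp r t) ≤ 1) : (ρ : ℤ) ≤ nrm (bp r t - y) := by
  have h3 : e ∉ bxa y ρ := fun h4 => h (Finset.mem_inter.2 ⟨he, h4⟩)
  rw [mem_bxa] at h3
  by_contra hcon
  push Not at hcon
  have h4 := nrm_tri (ea e) (bp r t) y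
  have h5 := nrm_tri (eb e) (bp r t) y
  exact h3 ⟨by linarith, by linarith⟩

theorem gapi {n ρ m : ℕ} (hn : 1 ≤ n) {y : V} {t t' : ℤ} (h : (ρ : ℤ) ≤ nrm (bp n t - y))
    (hy : nrm (y - bp n t') ≤ m) : (ρ : ℤ) ≤ |t - t'| + m := by
  have h2 := nrm_tri (bp n t) (bp n t') y
  have h3 := bp_lip hn t t'
  have h4 := nrm_sub_comm (bp n t') y
  linarith

theorem far2i {n ρ m R : ℕ} (hn : 1 ≤ n) (hR : R ≤ n) (hρ : 2 * R + m ≤ ρ) {y1 y3 : V} {t1 t3 t s : ℤ}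
    (hy1 : nrm (y1 - bp n t1) ≤ m) (hy3 : nrm (y3 - bp n t3) ≤ m) (h1 : t1 ≤ t) (h2 : t < t3) (h3 : t3 ≤ s)
    (h4 : s < t1 + 8 * n) (hb1 : (ρ : ℤ) ≤ nrm (bp n t - y1)) (hb3 : (ρ : ℤ) ≤ nrm (bp n t - y3)) :
    (R : ℤ) ≤ nrm (ef n s - ef n t) := by
  by_contra hcon
  push Not at hcon
  have h0 := BM_nonneg (ef n s - ef n t)
  obtain ⟨d, hd⟩ : ∃ d : ℕ, nrm (ef n s - ef n t) = d := ⟨(nrm (ef n s - ef n t)).toNat, by omega⟩
  have hdn : d < n := by omega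
  obtain ⟨k, hk⟩ := ef_circ hdn hd.le
  have g3 := gapi hn hb3 hy3
  have g1 := gapi hn hb1 hy1
  rcases BM_k hdn (by omega) (by omega) hk with h5 | h5
  · subst h5
    rw [mul_zero, sub_zero] at hk
    have h6 := le_abs_self (s - t)
    have h7 : |t - t3| = t3 - t := by
      rw [abs_sub_comm]
      exact abs_of_nonneg (by omega)
    rw [h7] at g3
    omega
  · subst h5
    rw [mul_one] at hk
    have h6 := neg_abs_le (s - t - 8 * n)
    have h7 : |t - t1| = t - t1 := abs_of_nonneg (by omega)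
    rw [h7] at g1
    omega

theorem far4i {n ρ m R : ℕ} (hn : 1 ≤ n) (hR : R ≤ n) (hρ : 2 * R + m ≤ ρ) {y1 y3 : V} {t1 t3 t s : ℤ}
    (hy1 : nrm (y1 - bp n t1) ≤ m) (hy3 : nrm (y3 - bp n t3) ≤ m) (h1 : t1 ≤ s) (h2 : s < t3) (h3 : t3 ≤ t)
    (h4 : t < t1 + 8 * n) (hb1 : (ρ : ℤ) ≤ nrm (bp n t - y1)) (hb3 : (ρ : ℤ) ≤ nrm (bp n t - y3)) :
    (R : ℤ) ≤ nrm (ef n s - ef n t) := by
  by_contra hcon
  push Not at hcon
  have h0 := BM_nonneg (ef n s - ef n t)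
  obtain ⟨d, hd⟩ : ∃ d : ℕ, nrm (ef n s - ef n t) = d := ⟨(nrm (ef n s - ef n t)).toNat, by omega⟩
  have hdn : d < n := by omega
  obtain ⟨k, hk⟩ := ef_circ hdn hd.le
  have g3 := gapi hn hb3 hy3
  have hy1' : nrm (y1 - bp n (t1 + 8 * n)) ≤ m := by
    have h5 := bp_per n t1 1
    rw [mul_one] at h5
    rw [h5]
    exact hy1
  have g1 := gapi hn hb1 hy1'
  rcases BM_k' hdn (by omega) (by omega) hk with h5 | h5
  · subst h5
    rw [mul_zero, sub_zero] at hk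
    have h6 := neg_abs_le (s - t)
    have h7 : |t - t3| = t - t3 := abs_of_nonneg (by omega)
    rw [h7] at g3
    omega
  · subst h5
    have h8 : s - t - 8 * n * -1 = s - t + 8 * n := by ring
    rw [h8] at hk
    have h6 := le_abs_self (s - t + 8 * n)
    have h7 : |t - (t1 + 8 * n)| = t1 + 8 * n - t := by
      rw [abs_sub_comm]
      exact abs_of_nonneg (by omega)
    rw [h7] at g1
    omega

end FKN
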