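import Pool.Agent.Lib.MP_216314_pr.N.BIDef

/-!
# Inner surgery, primal part

`D = an r n = bx n \ bx r`, `A = an r h ⊆ D` (`h ≤ n`). This is the mirror of N/BP (outer version).

* `loc_in`: `first_hit` (P/PExit) with `f = nrm`, `t = h` for the path from `u` (`nrm u = r ≤ h`) to `Z` (`nrm Z = n ≥ h`): `c` with `nrm c = h` and a connection of `u`, `c` by edges of `an r n` with both ends `nrm ≤ h`: such edges are in
  `bx h \ bx r = an r h` (`mem_bx'`). So `u`, `c` are in `cls (an r h) ω u`.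
* `ball_conn_i`: every vertex `u` with `r ≤ nrm u`, `nrm (u - z) ≤ ρ` is connected by an edge of `bli r n z (ρ + 1)` to a vertex `u'` with `nrm u' ≥ r + 1`, `nrm (u' - z) ≤ ρ + 1` if `nrm u = r` (step outwards: if `|u.1| = r` change `u.1` by its sign,
  otherwise `|u.2| = r`, change `u.2`). The set `T` of the vertices with `nrm ≥ r + 1` and at distance `≤ ρ + 1` from `z` is connected by edges with both ends in `T` (all such edges are in `bli r n z (ρ + 1)`): by symmetry let `z.1 = r`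
  (the other sides: the same with coordinates exchanged / signs). `T` contains the column `x = r + 1`, `|y - z.2| ≤ ρ + 1` (`ρ + 1 < r`), which is connected; a vertex of `T` with `x ≥ r + 1` is joined to the column along its row; a vertex
  of `T` with `x ≤ r` has `|y| ≥ r + 1` (as `x ≥ r - ρ - 1 > -r`), and its row to the right up to `x = r + 1` is in `T`.
* `step1i`: let `z = pk (sph r) (cls A ω v)`, `z ∈ K = cls A ω v`, `nrm z = r`, `Conn D ω a z`. Suppose `Conn D (ω ∪ bli r n z ρ) b a` (symmetric). `gr_union_hit` gives an end `u` of an edge of `bli r n z ρ` with `Conn D ω b u`, `nrm (u - z) ≤ ρ`.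
  `offarm_of` with `Γ = ω ∩ D`, `E = A`, `K`: `nrm (b - z) ≥ n - r ≥ R`; the vertices of `K` are connected to `a` in `ω ∩ D`, so not to `b`; an edge `e ∈ Γ` in `bxa z R` has ends of `nrm ≤ r + R ≤ h`, so it is in `A`. So `Bad` holds.
* `step2i`: as `step2` (N/BP) with the same changes.
* `primi`: from `Four' r n ω`: `u`, `u'` with `nrm = r`, `Z`, `Z'` with `nrm = n`, `Conn D ω u Z`, `Conn D ω u' Z'`, `¬ Conn D ω u u'`. `K1 = cls A ω u`, `K3 = cls A ω u'` (`loc_in`), `z1 = pk (sph r) K1`, `z3 = pk (sph r) K3`, `Conn D ω z1 Z`, `Conn D ω z3 Z'`,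
  `¬ Conn D ω Z Z'`. `step1i` with `ρ = r1 + 1`, `a = Z`, `b = Z'`. `r1 < nrm (z1 - z3)`: otherwise `ball_conn_i` (`ρ = r1`) connects `z1`, `z3` in `bli r n z1 (r1 + 1)`. `step2i` with `B = bli r n z1 m1`, `a = Z`, `b = Z'`; the conclusion for `z1`, `z3`
  follows since they are connected to `Z`, `Z'`.
-/

set_option autoImplicit false

noncomputable section

namespace FKN

open Finset FKI FKP

theorem BIP_an {r h n : ℕ} (hhn : h ≤ n) : an r h ⊆ an r n := by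
  intro e he
  unfold an at he ⊢
  rw [mem_sdiff, mem_bx'] at he ⊢
  have h1 : (h : ℤ) ≤ n := by exact_mod_cast hhn
  exact ⟨⟨he.1.1.trans h1, he.1.2.trans h1⟩, he.2⟩

theorem BIP_far {r n h R : ℕ} (hR : r + R + 1 < h) {z : V} (hz : nrm z = r) {e : Edge} (he : e ∈ an r n)
    (hb : e ∈ bxa z R) : e ∈ an r h := by
  unfold an at he ⊢
  rw [mem_sdiff] at he ⊢
  refine ⟨?_, he.2⟩
  rw [mem_bx']
  rw [mem_bxa] at hb
  have h2 := nrm_tri (ea e) z 0
  have h3 := nrm_tri (eb e) z 0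
  rw [sub_zero, sub_zero, hz] at h2 h3
  have h4 := hb.1
  have h5 := hb.2
  constructor <;> omega

theorem BIP_bl {r n m ρ : ℕ} (h : m ≤ ρ) (z : V) : bli r n z m ⊆ bli r n z ρ := by
  intro e he
  unfold bli at he ⊢
  rw [mem_inter, mem_bxa] at he ⊢
  exact ⟨he.1, by omega, by omega⟩

theorem BIP_one {r n R : ℕ} (hR : r + R ≤ n) {z a : V} (hz : nrm z = r) (ha : nrm a = n) :
    (R : ℤ) ≤ nrm (a - z) := by
  have h2 := nrm_tri a z 0
  rw [sub_zero, sub_zero, hz, ha] at h2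
  omega

private theorem BIP_edge {ω : Finset Edge} {e : Edge} (he : e ∈ ω) {u v : V}
    (h : (ea e = u ∧ eb e = v) ∨ (ea e = v ∧ eb e = u)) : (gr ω).Reachable u v := by
  have h1 : Conn ω ω u v := pexit_edge he he h
  exact h1.reach

private theorem BIP_row {F : Finset Edge} {x y : ℤ} (d : ℕ) :
    (∀ i : ℤ, x ≤ i → i < x + d → (i, y, false) ∈ F) → (gr F).Reachable (x, y) (x + d, y) := by
  induction d with
  | zero =>
    intro _
    rw [Nat.cast_zero, add_zero]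
  | succ d ih =>
    intro h
    have h1 := ih fun i h1 h2 => h i h1 (by push_cast; omega)
    have h2 : (x + d, y, false) ∈ F := h _ (by omega) (by push_cast; omega)
    refine h1.trans (BIP_edge h2 (Or.inl ⟨rfl, ?_⟩))
    simp only [eb]
    push_cast
    rw [add_assoc]

private theorem BIP_col {F : Finset Edge} {x y : ℤ} (d : ℕ) :
    (∀ i : ℤ, y ≤ i → i < y + d → (x, i, true) ∈ F) → (gr F).Reachable (x, y) (x, y + d) := by
  induction d with
  | zero =>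
    intro _
    rw [Nat.cast_zero, add_zero]
  | succ d ih =>
    intro h
    have h1 := ih fun i h1 h2 => h i h1 (by push_cast; omega)
    have h2 : (x, y + d, true) ∈ F := h _ (by omega) (by push_cast; omega)
    refine h1.trans (BIP_edge h2 (Or.inl ⟨rfl, ?_⟩))
    simp only [eb]
    push_cast
    rw [add_assoc]

private theorem BIP_row' {F : Finset Edge} {x x' y : ℤ}
    (h : ∀ i : ℤ, min x x' ≤ i → i < max x x' → (i, y, false) ∈ F) : (gr F).Reachable (x, y) (x', y) := by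
  rcases le_total x x' with hx | hx
  · obtain ⟨d, hd⟩ := Int.eq_ofNat_of_zero_le (sub_nonneg.2 hx)
    have e : x' = x + d := by omega
    subst e
    exact BIP_row d fun i h1 h2 => h i (by rw [min_eq_left hx]; exact h1) (by rw [max_eq_right hx]; exact h2)
  · obtain ⟨d, hd⟩ := Int.eq_ofNat_of_zero_le (sub_nonneg.2 hx)
    have e : x = x' + d := by omega
    subst e
    exact (BIP_row d fun i h1 h2 => h i (by rw [min_eq_right hx]; exact h1) (by rw [max_eq_left hx]; exact h2)).symm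

private theorem BIP_col' {F : Finset Edge} {x y y' : ℤ}
    (h : ∀ i : ℤ, min y y' ≤ i → i < max y y' → (x, i, true) ∈ F) : (gr F).Reachable (x, y) (x, y') := by
  rcases le_total y y' with hx | hx
  · obtain ⟨d, hd⟩ := Int.eq_ofNat_of_zero_le (sub_nonneg.2 hx)
    have e : y' = y + d := by omega
    subst e
    exact BIP_col d fun i h1 h2 => h i (by rw [min_eq_left hx]; exact h1) (by rw [max_eq_right hx]; exact h2)
  · obtain ⟨d, hd⟩ := Int.eq_ofNat_of_zero_le (sub_nonneg.2 hx)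
    have e : y = y' + d := by omega
    subst e
    exact (BIP_col d fun i h1 h2 => h i (by rw [min_eq_right hx]; exact h1) (by rw [max_eq_left hx]; exact h2)).symm

theorem BIP_memf {r n ρ : ℕ} {a b i j : ℤ} : (i, j, false) ∈ bli r n (a, b) ρ ↔
    ((-(n : ℤ) ≤ i ∧ i + 1 ≤ n) ∧ -(n : ℤ) ≤ j ∧ j ≤ n) ∧ (i < -(r : ℤ) ∨ (r : ℤ) < i + 1 ∨ j < -(r : ℤ) ∨ (r : ℤ) < j) ∧
      (a - ρ ≤ i ∧ i + 1 ≤ a + ρ) ∧ b - ρ ≤ j ∧ j ≤ b + ρ := by
  unfold bli an
  rw [mem_inter, mem_sdiff, mem_bx', mem_bx', mem_bxa]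
  unfold nrm
  simp only [ea, eb, Prod.fst_sub, Prod.snd_sub, max_le_iff, abs_le]
  simp
  omega

theorem BIP_memt {r n ρ : ℕ} {a b i j : ℤ} : (i, j, true) ∈ bli r n (a, b) ρ ↔
    ((-(n : ℤ) ≤ i ∧ i ≤ n) ∧ -(n : ℤ) ≤ j ∧ j + 1 ≤ n) ∧ (i < -(r : ℤ) ∨ (r : ℤ) < i ∨ j < -(r : ℤ) ∨ (r : ℤ) < j + 1) ∧
      (a - ρ ≤ i ∧ i ≤ a + ρ) ∧ b - ρ ≤ j ∧ j + 1 ≤ b + ρ := by
  unfold bli an
  rw [mem_inter, mem_sdiff, mem_bx', mem_bx', mem_bxa]
  unfold nrm
  simp only [ea, eb, Prod.fst_sub, Prod.snd_sub, max_le_iff, abs_le]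
  simp
  omega

/-- from a vertex to the column outside, left and right sides -/
theorem BIP_h {r n ρ : ℕ} {a b c x y : ℤ} (hρ : ρ + 1 < r) (hn : r + ρ + 1 ≤ n)
    (hz : (a = r ∧ c = r + 1) ∨ (a = -(r : ℤ) ∧ c = -(r : ℤ) - 1)) (hb : -(r : ℤ) ≤ b ∧ b ≤ r)
    (hu : (r : ℤ) ≤ x ∨ x ≤ -(r : ℤ) ∨ (r : ℤ) ≤ y ∨ y ≤ -(r : ℤ)) (hx : a - ρ ≤ x ∧ x ≤ a + ρ)
    (hy : b - ρ ≤ y ∧ y ≤ b + ρ) : ∃ y' : ℤ, b - ρ - 1 ≤ y' ∧ y' ≤ b + ρ + 1 ∧
      (gr (bli r n (a, b) (ρ + 1))).Reachable (x, y) (c, y') := by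
  by_cases h1 : -(r : ℤ) < x ∧ x < r ∧ (y = r ∨ y = -(r : ℤ))
  · obtain ⟨h2, h3, h4⟩ := h1
    rcases h4 with h4 | h4
    · refine ⟨y + 1, by omega, by omega, ?_⟩
      refine (BIP_edge (e := (x, y, true)) (u := (x, y)) (v := (x, y + 1)) ?_ (Or.inl ⟨rfl, rfl⟩)).trans (BIP_row' ?_)
      · rw [BIP_memt]
        push_cast
        omega
      · intro i h5 h6
        have h7 : (x ≤ i ∨ c ≤ i) ∧ (i < x ∨ i < c) := ⟨min_le_iff.1 h5, lt_max_iff.1 h6⟩
        rw [BIP_memf]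
        push_cast
        omega
    · refine ⟨y - 1, by omega, by omega, ?_⟩
      refine (BIP_edge (e := (x, y - 1, true)) (u := (x, y)) (v := (x, y - 1)) ?_
        (Or.inr ⟨rfl, ?_⟩)).trans (BIP_row' ?_)
      · rw [BIP_memt]
        push_cast
        omega
      · show (x, y - 1 + 1) = (x, y)
        rw [sub_add_cancel]
      · intro i h5 h6
        have h7 : (x ≤ i ∨ c ≤ i) ∧ (i < x ∨ i < c) := ⟨min_le_iff.1 h5, lt_max_iff.1 h6⟩
        rw [BIP_memf]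
        push_cast
        omega
  · refine ⟨y, by omega, by omega, BIP_row' ?_⟩
    intro i h5 h6
    have h7 : (x ≤ i ∨ c ≤ i) ∧ (i < x ∨ i < c) := ⟨min_le_iff.1 h5, lt_max_iff.1 h6⟩
    rw [BIP_memf]
    push_cast
    omega

/-- from a vertex to the row outside, lower and upper sides -/
theorem BIP_v {r n ρ : ℕ} {a b c x y : ℤ} (hρ : ρ + 1 < r) (hn : r + ρ + 1 ≤ n)
    (hz : (b = r ∧ c = r + 1) ∨ (b = -(r : ℤ) ∧ c = -(r : ℤ) - 1)) (hb : -(r : ℤ) ≤ a ∧ a ≤ r)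
    (hu : (r : ℤ) ≤ x ∨ x ≤ -(r : ℤ) ∨ (r : ℤ) ≤ y ∨ y ≤ -(r : ℤ)) (hx : a - ρ ≤ x ∧ x ≤ a + ρ)
    (hy : b - ρ ≤ y ∧ y ≤ b + ρ) : ∃ x' : ℤ, a - ρ - 1 ≤ x' ∧ x' ≤ a + ρ + 1 ∧
      (gr (bli r n (a, b) (ρ + 1))).Reachable (x, y) (x', c) := by
  by_cases h1 : -(r : ℤ) < y ∧ y < r ∧ (x = r ∨ x = -(r : ℤ))
  · obtain ⟨h2, h3, h4⟩ := h1
    rcases h4 with h4 | h4
    · refine ⟨x + 1, by omega, by omega, ?_⟩
      refine (BIP_edge (e := (x, y, false)) (u := (x, y)) (v := (x + 1, y)) ?_ (Or.inl ⟨rfl, rfl⟩)).trans (BIP_col' ?_)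
      · rw [BIP_memf]
        push_cast
        omega
      · intro i h5 h6
        have h7 : (y ≤ i ∨ c ≤ i) ∧ (i < y ∨ i < c) := ⟨min_le_iff.1 h5, lt_max_iff.1 h6⟩
        rw [BIP_memt]
        push_cast
        omega
    · refine ⟨x - 1, by omega, by omega, ?_⟩
      refine (BIP_edge (e := (x - 1, y, false)) (u := (x, y)) (v := (x - 1, y)) ?_
        (Or.inr ⟨rfl, ?_⟩)).trans (BIP_col' ?_)
      · rw [BIP_memf]
        push_cast
        omega
      · show (x - 1 + 1, y) = (x, y)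
        rw [sub_add_cancel]
      · intro i h5 h6
        have h7 : (y ≤ i ∨ c ≤ i) ∧ (i < y ∨ i < c) := ⟨min_le_iff.1 h5, lt_max_iff.1 h6⟩
        rw [BIP_memt]
        push_cast
        omega
  · refine ⟨x, by omega, by omega, BIP_col' ?_⟩
    intro i h5 h6
    have h7 : (y ≤ i ∨ c ≤ i) ∧ (i < y ∨ i < c) := ⟨min_le_iff.1 h5, lt_max_iff.1 h6⟩
    rw [BIP_memt]
    push_cast
    omega

theorem BIP_ge {r : ℕ} {x y : ℤ} (h : (r : ℤ) ≤ max |x| |y|) :
    (r : ℤ) ≤ x ∨ x ≤ -(r : ℤ) ∨ (r : ℤ) ≤ y ∨ y ≤ -(r : ℤ) := by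
  rcases le_max_iff.1 h with h | h
  · rcases le_abs.1 h with h | h
    · exact Or.inl h
    · right; left; omega
  · rcases le_abs.1 h with h | h
    · exact Or.inr (Or.inr (Or.inl h))
    · right; right; right; omega

theorem loc_in {r h n : ℕ} (hrh : r ≤ h) (hhn : h ≤ n) {ω : Finset Edge} {u Z : V} (hu : nrm u = r) (hZ : nrm Z = n)
    (hc : Conn (an r n) ω u Z) : Cro (sph h) (sph r) (cls (an r h) ω u) := by
  have hf : ∀ e ∈ an r n, nrm (ea e) - nrm (eb e) ≤ 1 ∧ nrm (eb e) - nrm (ea e) ≤ 1 := by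
    intro e _
    have h1 := nrm_edge 0 e
    rw [sub_zero, sub_zero] at h1
    exact h1
  obtain ⟨c, h1, h2, h3⟩ := first_hit nrm hf (t := (h : ℤ)) (by rw [hu]; exact_mod_cast hrh)
    (by rw [hZ]; exact_mod_cast hhn) hc
  refine ⟨⟨c, ?_, h1⟩, u, Conn.refl _ _ _, hu⟩
  show Conn (an r h) ω u c
  refine h3.mono ?_ (Finset.Subset.refl _)
  intro e he
  rw [mem_filter] at he
  unfold an at he ⊢
  rw [mem_sdiff] at he ⊢
  exact ⟨mem_bx'.2 he.2, he.1.2⟩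

theorem ball_conn_i {r n ρ : ℕ} {z u v : V} (hρ : ρ + 1 < r) (hn : r + ρ + 1 ≤ n) (hz : nrm z = r) (hu : r ≤ nrm u)
    (hv : r ≤ nrm v) (hu' : nrm (u - z) ≤ ρ) (hv' : nrm (v - z) ≤ ρ) : (gr (bli r n z (ρ + 1))).Reachable u v := by
  obtain ⟨a, b⟩ := z
  obtain ⟨x, y⟩ := u
  obtain ⟨x', y'⟩ := v
  have hu1 := BIP_ge (x := x) (y := y) hu
  have hv1 := BIP_ge (x := x') (y := y') hv
  have hzle : nrm (a, b) ≤ r := hz.le
  unfold nrm at hzle hu' hv'
  simp only [Prod.fst_sub, Prod.snd_sub, max_le_iff, abs_le] at hzle hu' hv'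
  have hz1 := BIP_ge (r := r) (x := a) (y := b) hz.ge
  have hside : (a = r ∨ a = -(r : ℤ)) ∨ (b = r ∨ b = -(r : ℤ)) := by omega
  rcases hside with hs | hs
  · obtain ⟨c, hc⟩ : ∃ c : ℤ, (a = r ∧ c = r + 1) ∨ (a = -(r : ℤ) ∧ c = -(r : ℤ) - 1) := by
      rcases hs with hs | hs
      · exact ⟨r + 1, Or.inl ⟨hs, rfl⟩⟩
      · exact ⟨-(r : ℤ) - 1, Or.inr ⟨hs, rfl⟩⟩
    obtain ⟨p, hp1, hp2, hp3⟩ := BIP_h hρ hn hc (x := x) (y := y) (b := b) (by omega) hu1 (by omega) (by omega)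
    obtain ⟨p', hq1, hq2, hq3⟩ := BIP_h hρ hn hc (x := x') (y := y') (b := b) (by omega) hv1 (by omega) (by omega)
    refine (hp3.trans (BIP_col' ?_)).trans hq3.symm
    intro i h5 h6
    have h7 : (p ≤ i ∨ p' ≤ i) ∧ (i < p ∨ i < p') := ⟨min_le_iff.1 h5, lt_max_iff.1 h6⟩
    rw [BIP_memt]
    push_cast
    omega
  · obtain ⟨c, hc⟩ : ∃ c : ℤ, (b = r ∧ c = r + 1) ∨ (b = -(r : ℤ) ∧ c = -(r : ℤ) - 1) := by
      rcases hs with hs | hs
      · exact ⟨r + 1, Or.inl ⟨hs, rfl⟩⟩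
      · exact ⟨-(r : ℤ) - 1, Or.inr ⟨hs, rfl⟩⟩
    obtain ⟨p, hp1, hp2, hp3⟩ := BIP_v hρ hn hc (x := x) (y := y) (a := a) (by omega) hu1 (by omega) (by omega)
    obtain ⟨p', hq1, hq2, hq3⟩ := BIP_v hρ hn hc (x := x') (y := y') (a := a) (by omega) hv1 (by omega) (by omega)
    refine (hp3.trans (BIP_row' ?_)).trans hq3.symm
    intro i h5 h6
    have h7 : (p ≤ i ∨ p' ≤ i) ∧ (i < p ∨ i < p') := ⟨min_le_iff.1 h5, lt_max_iff.1 h6⟩
    rw [BIP_memf]
    push_cast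
    omega

theorem step1i {r h n ρ R : ℕ} (hρ : ρ < R) (hR : r + R + 1 < h) (hn : 2 * h ≤ n) {ω : Finset Edge} {a b v : V}
    (hb : nrm b = n) (hab : ¬ Conn (an r n) ω a b) (hv : Cro (sph h) (sph r) (cls (an r h) ω v))
    (hav : Conn (an r n) ω a v) (hg : ¬ Bad (an r h) (an r h) (sph h) (sph r) ρ R ω) :
    ¬ Conn (an r n) (ω ∪ bli r n (pk (sph r) (cls (an r h) ω v)) ρ) a b := by
  intro hc
  obtain ⟨hzK, hzn⟩ := pk_spec hv
  set z := pk (sph r) (cls (an r h) ω v) with hzd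
  have hzn' : nrm z = r := hzn
  have hc1 := hc.symm
  unfold Conn at hc1
  rw [union_inter_distrib_right] at hc1
  have hba : ¬ (gr (ω ∩ an r n)).Reachable b a := fun h1 => hab h1.symm
  obtain ⟨e, he, h1⟩ := gr_union_hit hc1 hba
  have he1 : e ∈ bxa z ρ := (mem_inter.1 (mem_inter.1 he).1).2
  rw [mem_bxa] at he1
  obtain ⟨u, hu, hu'⟩ : ∃ u : V, (gr (ω ∩ an r n)).Reachable b u ∧ nrm (u - z) ≤ ρ := by
    rcases h1 with h1 | h1
    · exact ⟨_, h1, he1.1⟩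
    · exact ⟨_, h1, he1.2⟩
  apply hg
  refine ⟨v, hv, ?_⟩
  refine offarm_of hρ hu (BIP_one (by omega) hzn' hb) hu' ?_ ?_
  · intro w hw hbw
    have h2 : Conn (an r n) ω v w := Conn.mono (BIP_an (by omega)) (Finset.Subset.refl _) hw
    exact hab ((hav.trans h2).trans (Conn.symm hbw))
  · intro e' he' h2 _
    rw [mem_inter] at he'
    exact ⟨BIP_far hR hzn' he'.2 h2, he'.1⟩

theorem step2i {r h n r1 r2 R2 m1 : ℕ} (hr : r2 < R2) (hR : r + R2 + 1 < h) (hn : 2 * h ≤ n) (hm : m1 + R2 ≤ r1)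
    {ω B : Finset Edge} {a b v z1 : V} (ha : nrm a = n) (hB : B ⊆ bli r n z1 m1)
    (hab : ¬ Conn (an r n) (ω ∪ B) a b) (hv : Cro (sph h) (sph r) (cls (an r h) ω v))
    (hbv : Conn (an r n) ω b v) (hz : (r1 : ℤ) < nrm (z1 - pk (sph r) (cls (an r h) ω v)))
    (hg : ¬ Bad (an r h) (an r h) (sph h) (sph r) r2 R2 ω) :
    ¬ Conn (an r n) (ω ∪ B ∪ bli r n (pk (sph r) (cls (an r h) ω v)) r2) a b := by
  intro hc
  obtain ⟨hzK, hzn⟩ := pk_spec hv
  set z := pk (sph r) (cls (an r h) ω v) with hzd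
  have hzn' : nrm z = r := hzn
  have hc1 := hc
  unfold Conn at hc1
  rw [union_inter_distrib_right] at hc1
  obtain ⟨e, he, h1⟩ := gr_union_hit hc1 hab
  have he1 : e ∈ bxa z r2 := (mem_inter.1 (mem_inter.1 he).1).2
  rw [mem_bxa] at he1
  obtain ⟨u, hu, hu'⟩ : ∃ u : V, (gr ((ω ∪ B) ∩ an r n)).Reachable a u ∧ nrm (u - z) ≤ r2 := by
    rcases h1 with h1 | h1
    · exact ⟨_, h1, he1.1⟩
    · exact ⟨_, h1, he1.2⟩
  apply hg
  refine ⟨v, hv, ?_⟩
  refine offarm_of hr hu (BIP_one (by omega) hzn' ha) hu' ?_ ?_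
  · intro w hw haw
    have h2 : Conn (an r n) ω v w := Conn.mono (BIP_an (by omega)) (Finset.Subset.refl _) hw
    have h3 : Conn (an r n) (ω ∪ B) b w :=
      Conn.mono (Finset.Subset.refl _) subset_union_left (hbv.trans h2)
    exact hab (Conn.trans haw h3.symm)
  · intro e' he' h2 _
    rw [mem_inter, mem_union] at he'
    refine ⟨BIP_far hR hzn' he'.2 h2, ?_⟩
    rcases he'.1 with h3 | h3
    · exact h3
    · exfalso
      have h4 : e' ∈ bxa z1 m1 := (mem_inter.1 (hB h3)).2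
      rw [mem_bxa] at h4 h2
      have h5 := nrm_tri z1 (ea e') z
      rw [nrm_sub_comm z1 (ea e')] at h5
      have h6 := h4.1
      have h7 := h2.1
      rw [← hzd] at h7
      omega

theorem primi {r h n r1 R1 r2 R2 m1 : ℕ} (hr1 : r1 + 1 < R1) (hR1 : r + R1 + 1 < h) (hhr : h ≤ 2 * r) (hn : 2 * h ≤ n)
    (hr2 : r2 < R2) (hR2 : r + R2 + 1 < h) (hm : m1 + R2 ≤ r1) {ω : Finset Edge} (hF : Four' r n ω)
    (hg1 : ¬ Bad (an r h) (an r h) (sph h) (sph r) (r1 + 1) R1 ω)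
    (hg2 : ¬ Bad (an r h) (an r h) (sph h) (sph r) r2 R2 ω) :
    ∃ z1 z3 Z1 Z3 : V, nrm z1 = r ∧ nrm z3 = r ∧ nrm Z1 = n ∧ nrm Z3 = n ∧ Conn (an r n) ω z1 Z1 ∧
      Conn (an r n) ω z3 Z3 ∧ (r1 : ℤ) < nrm (z1 - z3) ∧
      ¬ Conn (an r n) (ω ∪ bli r n z1 m1 ∪ bli r n z3 r2) z1 z3 := by
  obtain ⟨u, u', hu, hu', ⟨Z, hZ, hc⟩, ⟨Z', hZ', hc'⟩, hno⟩ := hF
  have hv1 := loc_in (h := h) (by omega) (by omega) hu hZ hc
  have hv3 := loc_in (h := h) (by omega) (by omega) hu' hZ' hc'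
  obtain ⟨hz1K, hz1⟩ := pk_spec hv1
  obtain ⟨hz3K, hz3⟩ := pk_spec hv3
  have hsub : an r h ⊆ an r n := BIP_an (by omega)
  have huz1 : Conn (an r n) ω u (pk (sph r) (cls (an r h) ω u)) := Conn.mono hsub (Finset.Subset.refl _) hz1K
  have huz3 : Conn (an r n) ω u' (pk (sph r) (cls (an r h) ω u')) := Conn.mono hsub (Finset.Subset.refl _) hz3K
  have hno' : ¬ Conn (an r n) ω Z Z' := fun h1 => hno ((hc.trans h1).trans hc'.symm)
  have hs1 := step1i hr1 hR1 hn hZ' hno' hv1 hc.symm hg1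
  set z1 := pk (sph r) (cls (an r h) ω u) with hz1d
  set z3 := pk (sph r) (cls (an r h) ω u') with hz3d
  have hz1' : nrm z1 = r := hz1
  have hz3' : nrm z3 = r := hz3
  have hzZ : Conn (an r n) ω z1 Z := huz1.symm.trans hc
  have hzZ' : Conn (an r n) ω z3 Z' := huz3.symm.trans hc'
  have hfar : (r1 : ℤ) < nrm (z1 - z3) := by
    by_contra hle
    rw [not_lt] at hle
    have h1 : (gr (bli r n z1 (r1 + 1))).Reachable z1 z3 := by
      refine ball_conn_i (by omega) (by omega) hz1' hz1'.ge hz3'.ge ?_ ?_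
      · rw [sub_self]
        show max |(0 : ℤ)| |(0 : ℤ)| ≤ (r1 : ℤ)
        rw [abs_zero, max_self]
        omega
      · rw [nrm_sub_comm]
        exact hle
    have hsub2 : bli r n z1 (r1 + 1) ⊆ (ω ∪ bli r n z1 (r1 + 1)) ∩ an r n := by
      intro e he
      rw [mem_inter, mem_union]
      exact ⟨Or.inr he, (mem_inter.1 he).1⟩
    have h2 : Conn (an r n) (ω ∪ bli r n z1 (r1 + 1)) z1 z3 :=
      SimpleGraph.Reachable.mono (gr_mono hsub2) h1
    have h3 : Conn (an r n) (ω ∪ bli r n z1 (r1 + 1)) z1 Z :=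
      Conn.mono (Finset.Subset.refl _) subset_union_left hzZ
    have h4 : Conn (an r n) (ω ∪ bli r n z1 (r1 + 1)) z3 Z' :=
      Conn.mono (Finset.Subset.refl _) subset_union_left hzZ'
    exact hs1 ((h3.symm.trans h2).trans h4)
  refine ⟨z1, z3, Z, Z', hz1', hz3', hZ, hZ', hzZ, hzZ', hfar, ?_⟩
  have hs2 := step2i (B := bli r n z1 m1) (z1 := z1) hr2 hR2 hn hm hZ (Finset.Subset.refl _) (b := Z') ?_ hv3 hc'.symm hfar hg2
  · intro h1
    have h3 : Conn (an r n) (ω ∪ bli r n z1 m1 ∪ bli r n z3 r2) z1 Z :=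
      Conn.mono (Finset.Subset.refl _) (subset_union_left.trans subset_union_left) hzZ
    have h4 : Conn (an r n) (ω ∪ bli r n z1 m1 ∪ bli r n z3 r2) z3 Z' :=
      Conn.mono (Finset.Subset.refl _) (subset_union_left.trans subset_union_left) hzZ'
    exact hs2 ((h3.symm.trans h1).trans h4)
  · intro h1
    refine hs1 (Conn.mono (Finset.Subset.refl _) ?_ h1)
    exact union_subset_union_right (BIP_bl (by omega) _)

end FKN
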