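import Pool.Agent.Lib.MP_216314_pr.N.BIDef
import Pool.Agent.Lib.MP_216314_pr.N.AQ1
import Pool.Agent.Lib.MP_216314_pr.N.AQ2

/-!
# Inner surgery, dual part

`D = an r n`. `bx_of_fl`: a face of level `< h` is inside `[-h,h]²`, so its four edges are in `bx h` (`dl`, `fl`, `mem_bx'`, cases; checked by computer). `ef_near`: the edges `e` such that `ef r t` is an end of `dl e` are the four edges of
this face; the face has the vertices `(x,y)`, `(x+1,y)`, `(x,y+1)`, `(x+1,y+1)`, `(x,y) = ef r t`, and `bp r t` is one of them (cases), so `nrm (ea e - bp r t) ≤ 1`, `nrm (eb e - bp r t) ≤ 1`.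

* `dual_loci`: `Γ = dc D (ω ∪ B)`, the path from `ef r s` (level `r ≤ h`, `fl_ef`) to `ef n S` (level `n ≥ h`). `first_hit` (P/PExit, with `F = Γ`, `ω = Γ`, `f = fl`, `fl_edge`, `t = h`) gives `w` with `fl w = h`, `Reachable w (ef n S)` and a connection of
  `ef r s`, `w` by edges of `Γ` with both ends of level `≤ h`; we need one end of level `< h`: use `last_exit'` (N/BG) with `f = - fl`, `t = -h` from `ef n S` to `ef r s`: `w` with `fl w = h` and a connection of `w` and `ef r s` by edges of `Γ` with an end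
  of level `< h`. Such an edge is `dl e`, `e ∈ an r n \ (ω ∪ B)`, `e ∈ bx h` (`bx_of_fl`), so `e ∈ an r h \ B`, `e ∉ ω`. So with `K = cls ((an r h \ B).map dl) (dc (an r h) ω) w`: `w`, `ef r s ∈ K`: `Cro (fsp h) (efs r) K`. All elements of `K` are
  connected to `w`, hence to `ef n S`, in `Γ`. `z = pk (efs r) K ∈ K`, `z = ef r t` for some `t`; `z ≠ w` (levels `r < h`), so `z` is an end of an edge `dl e` with `e ∈ an r h \ B` (first edge of the walk in `K`): `ef_near`.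
* `duali`: `ω2 = ω ∪ B`. `Conn D ω2 (bp r τ1) Z1`, `Conn D ω2 (bp r τ3) Z3` (`Conn.mono`), so by `AN2` there is no connection `ef r s ~ ef r s'` in `dc D ω2`. `AN1` gives `s`, `S` and `s'`, `S'`. `dual_loci` for both. The number `t` is moved by a multiple
  of `8 r` into `[τ1, τ1 + 8 r)` (`ef_per`, `bp_per`); it is in the right arc since `ef r s ~ ef n S ~ ef r t` in `dc D ω2` and `AN2`.
-/

set_option autoImplicit false

noncomputable section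

namespace FKN

open Finset FKI FKP

theorem bx_of_fl {h : ℕ} {e : Edge} (hf : fl (ea (dl e)) < h ∨ fl (eb (dl e)) < h) : e ∈ bx h := by
  rw [AP1_mem]
  have hf' : fl (ea (dl e)) ≤ (h : ℤ) - 1 ∨ fl (eb (dl e)) ≤ (h : ℤ) - 1 := by omega
  obtain ⟨x, y, b⟩ := e
  rw [AP1_fl_le, AP1_fl_le] at hf'
  cases b
  · rw [(AP1_dl_false x y).1, (AP1_dl_false x y).2] at hf'
    simp only [Bool.false_eq_true, true_and, false_and, or_false] at hf' ⊢
    omega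
  · rw [(AP1_dl_true x y).1, (AP1_dl_true x y).2] at hf'
    simp only [Bool.true_eq_false, true_and, false_and, false_or] at hf' ⊢
    omega

theorem ef_near {r : ℕ} (hr : 1 ≤ r) {t : ℤ} {e : Edge} (h : ef r t = ea (dl e) ∨ ef r t = eb (dl e)) :
    nrm (ea e - bp r t) ≤ 1 ∧ nrm (eb e - bp r t) ≤ 1 := by
  obtain ⟨τ, h', h0, h1, hc⟩ := AP1_cases hr t
  obtain ⟨x, y, b⟩ := e
  rw [AP1_le, AP1_le]
  cases b
  · rw [(AP1_dl_false x y).1, (AP1_dl_false x y).2] at h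
    rw [(AP1_ea_false x y).1, (AP1_ea_false x y).2]
    rcases hc with ⟨a1, e1, _, e2⟩ | ⟨a1, a2, e1, _, e2⟩ | ⟨a1, a2, e1, _, e2⟩ | ⟨a1, e1, _, e2⟩ <;>
      rw [e2] at h <;> rw [e1] <;>
      simp only [Prod.mk.injEq, Prod.fst_sub, Prod.snd_sub] at h ⊢ <;> omega
  · rw [(AP1_dl_true x y).1, (AP1_dl_true x y).2] at h
    rw [(AP1_ea_true x y).1, (AP1_ea_true x y).2]
    rcases hc with ⟨a1, e1, _, e2⟩ | ⟨a1, a2, e1, _, e2⟩ | ⟨a1, a2, e1, _, e2⟩ | ⟨a1, e1, _, e2⟩ <;>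
      rw [e2] at h <;> rw [e1] <;>
      simp only [Prod.mk.injEq, Prod.fst_sub, Prod.snd_sub] at h ⊢ <;> omega

theorem BIQ_sub1 {r n h : ℕ} (ω B : Finset Edge) :
    (dc (an r n) (ω ∪ B)).filter (fun e => -(h : ℤ) < -fl (ea e) ∨ -(h : ℤ) < -fl (eb e)) ⊆
      dc (an r h) ω ∩ (an r h \ B).map dl.toEmbedding := by
  intro e' he'
  rw [mem_filter] at he'
  obtain ⟨he1, he2⟩ := he'
  unfold dc at he1
  rw [Finset.mem_map] at he1
  obtain ⟨e, he, rfl⟩ := he1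
  rw [mem_sdiff, mem_union, not_or] at he
  obtain ⟨k1, k3, k4⟩ := he
  unfold an at k1
  rw [mem_sdiff] at k1
  have he3 : fl (ea (dl e)) < h ∨ fl (eb (dl e)) < h := by
    rcases he2 with k8 | k8
    · exact Or.inl (neg_lt_neg_iff.1 k8)
    · exact Or.inr (neg_lt_neg_iff.1 k8)
  have k5 : e ∈ bx h := bx_of_fl he3
  have k6 : e ∈ an r h := mem_sdiff.2 ⟨k5, k1.2⟩
  rw [mem_inter]
  exact ⟨Finset.mem_map.2 ⟨e, mem_sdiff.2 ⟨k6, k3⟩, rfl⟩, Finset.mem_map.2 ⟨e, mem_sdiff.2 ⟨k6, k4⟩, rfl⟩⟩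

theorem BIQ_edge {r h : ℕ} {ω B : Finset Edge} {e' : Edge}
    (he : e' ∈ dc (an r h) ω ∩ (an r h \ B).map dl.toEmbedding) :
    ∃ e, e' = dl e ∧ e ∈ bx h ∧ e ∉ bx r ∧ e ∉ ω ∧ e ∉ B := by
  rw [mem_inter] at he
  obtain ⟨he1, he2⟩ := he
  unfold dc at he1
  rw [Finset.mem_map] at he1 he2
  obtain ⟨e, h1, rfl⟩ := he1
  obtain ⟨e2, h2, h3⟩ := he2
  have h4 : e2 = e := dl.injective h3
  subst h4
  rw [mem_sdiff] at h1 h2
  have h5 := h1.1
  unfold an at h5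
  rw [mem_sdiff] at h5
  exact ⟨e2, rfl, h5.1, h5.2, h1.2, h2.2⟩

theorem BIQ_sub2 {r n h : ℕ} (hhn : h ≤ n) (ω B : Finset Edge) :
    dc (an r h) ω ∩ (an r h \ B).map dl.toEmbedding ⊆ dc (an r n) (ω ∪ B) := by
  intro e' he'
  obtain ⟨e, rfl, k1, k2, k3, k4⟩ := BIQ_edge he'
  have hhn' : (h : ℤ) ≤ n := by exact_mod_cast hhn
  unfold dc
  refine Finset.mem_map.2 ⟨e, ?_, rfl⟩
  unfold an
  rw [mem_sdiff, mem_sdiff, mem_union, not_or]
  refine ⟨⟨?_, k2⟩, k3, k4⟩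
  rw [mem_bx'] at k1 ⊢
  exact ⟨k1.1.trans hhn', k1.2.trans hhn'⟩


theorem dual_loci {r h n : ℕ} (hr : 1 ≤ r) (hrh : r < h) (hhn : h ≤ n) {ω B : Finset Edge} {s S : ℤ}
    (hp : (gr (dc (an r n) (ω ∪ B))).Reachable (ef r s) (ef n S)) :
    ∃ (w : V) (t : ℤ), Cro (fsp h) (efs r) (cls ((an r h \ B).map dl.toEmbedding) (dc (an r h) ω) w) ∧
      pk (efs r) (cls ((an r h \ B).map dl.toEmbedding) (dc (an r h) ω) w) = ef r t ∧
      (∃ e ∈ an r h \ B, nrm (ea e - bp r t) ≤ 1 ∧ nrm (eb e - bp r t) ≤ 1) ∧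
      ∀ f ∈ cls ((an r h \ B).map dl.toEmbedding) (dc (an r h) ω) w,
        (gr (dc (an r n) (ω ∪ B))).Reachable (ef n S) f := by
  have hn : 1 ≤ n := by omega
  obtain ⟨w, hw1, hw2, hw3⟩ := last_exit' (fun v => -fl v) (fun e _ => by
      have := fl_edge e
      constructor
      · show -fl (ea e) - -fl (eb e) ≤ 1
        omega
      · show -fl (eb e) - -fl (ea e) ≤ 1
        omega) (a := ef n S) (b := ef r s) (t := -(h : ℤ))
    (by
      show -fl (ef n S) ≤ -(h : ℤ)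
      rw [fl_ef hn]
      omega)
    (by
      show -(h : ℤ) ≤ -fl (ef r s)
      rw [fl_ef hr]
      omega) hp.symm
  have hw1' : fl w = h := neg_injective hw1
  have hws : Conn ((an r h \ B).map dl.toEmbedding) (dc (an r h) ω) w (ef r s) :=
    SimpleGraph.Reachable.mono (gr_mono (BIQ_sub1 ω B)) hw3
  have hCro : Cro (fsp h) (efs r) (cls ((an r h \ B).map dl.toEmbedding) (dc (an r h) ω) w) :=
    ⟨⟨w, Conn.refl _ _ _, hw1'⟩, ⟨ef r s, hws, ⟨s, rfl⟩⟩⟩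
  have hz := pk_spec hCro
  have hall : ∀ f ∈ cls ((an r h \ B).map dl.toEmbedding) (dc (an r h) ω) w,
      (gr (dc (an r n) (ω ∪ B))).Reachable (ef n S) f := by
    intro f hf
    exact hw2.trans (SimpleGraph.Reachable.mono (gr_mono (BIQ_sub2 hhn ω B)) hf)
  obtain ⟨z, hzd⟩ : ∃ z, z = pk (efs r) (cls ((an r h \ B).map dl.toEmbedding) (dc (an r h) ω) w) := ⟨_, rfl⟩
  rw [← hzd] at hz
  obtain ⟨hz1, t, ht⟩ := hz
  have hz1' : Conn ((an r h \ B).map dl.toEmbedding) (dc (an r h) ω) z w := Conn.symm hz1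
  have hz2' : fl z = r := by
    rw [← ht]
    exact fl_ef hr t
  have hnear : ∃ e ∈ an r h \ B, nrm (ea e - bp r t) ≤ 1 ∧ nrm (eb e - bp r t) ≤ 1 := by
    obtain ⟨p⟩ := hz1'
    cases p with
    | nil =>
      exfalso
      rw [hz2'] at hw1'
      have : r = h := by exact_mod_cast hw1'
      omega
    | cons hadj p =>
      obtain ⟨e', he', hends⟩ := pexit_adj hadj
      obtain ⟨e, rfl, k1, k2, k3, k4⟩ := BIQ_edge he'
      have k5 : z = ea (dl e) ∨ z = eb (dl e) := by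
        rcases hends with ⟨k6, _⟩ | ⟨_, k6⟩
        · exact Or.inl k6.symm
        · exact Or.inr k6.symm
      rw [← ht] at k5
      exact ⟨e, mem_sdiff.2 ⟨mem_sdiff.2 ⟨k1, k2⟩, k4⟩, ef_near hr k5⟩
  exact ⟨w, t, hCro, by rw [← hzd]; exact ht.symm, hnear, hall⟩

theorem BIQ_shift (r : ℕ) (hr : 1 ≤ r) (t1 t : ℤ) : ∃ t2 : ℤ, t1 ≤ t2 ∧ t2 < t1 + 8 * r ∧ ef r t2 = ef r t ∧
    bp r t2 = bp r t := by
  have h8 : (0 : ℤ) < 8 * r := by omega
  have h1 := Int.emod_add_mul_ediv (t - t1) (8 * r)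
  have h2 := Int.emod_nonneg (t - t1) h8.ne'
  have h3 := Int.emod_lt_of_pos (t - t1) h8
  have h4 : t1 + (t - t1) % (8 * r) = t + 8 * r * (-((t - t1) / (8 * r))) := by
    linear_combination h1
  refine ⟨t1 + (t - t1) % (8 * r), by omega, by omega, ?_, ?_⟩
  · rw [h4, ef_per]
  · rw [h4, bp_per]


theorem duali {r h n : ℕ} (hr : 1 ≤ r) (hrh : r < h) (hhn : h < n) {ω B : Finset Edge} {τ1 τ3 : ℤ} (h1 : τ1 < τ3)
    (h2 : τ3 < τ1 + 8 * r) {Z1 Z3 : V} (hZ1 : nrm Z1 = n) (hZ3 : nrm Z3 = n) (ha : Conn (an r n) ω (bp r τ1) Z1)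
    (hb : Conn (an r n) ω (bp r τ3) Z3) (hab : ¬ Conn (an r n) (ω ∪ B) (bp r τ1) (bp r τ3)) :
    ∃ (t2 t4 S2 S4 : ℤ) (w2 w4 : V), (τ1 ≤ t2 ∧ t2 < τ3) ∧ (τ3 ≤ t4 ∧ t4 < τ1 + 8 * r) ∧
      (∃ e ∈ an r h \ B, nrm (ea e - bp r t2) ≤ 1 ∧ nrm (eb e - bp r t2) ≤ 1) ∧
      (∃ e ∈ an r h \ B, nrm (ea e - bp r t4) ≤ 1 ∧ nrm (eb e - bp r t4) ≤ 1) ∧
      (Cro (fsp h) (efs r) (cls ((an r h \ B).map dl.toEmbedding) (dc (an r h) ω) w2) ∧
        pk (efs r) (cls ((an r h \ B).map dl.toEmbedding) (dc (an r h) ω) w2) = ef r t2 ∧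
        ∀ f ∈ cls ((an r h \ B).map dl.toEmbedding) (dc (an r h) ω) w2,
          (gr (dc (an r n) (ω ∪ B))).Reachable (ef n S2) f) ∧
      (Cro (fsp h) (efs r) (cls ((an r h \ B).map dl.toEmbedding) (dc (an r h) ω) w4) ∧
        pk (efs r) (cls ((an r h \ B).map dl.toEmbedding) (dc (an r h) ω) w4) = ef r t4 ∧
        ∀ f ∈ cls ((an r h \ B).map dl.toEmbedding) (dc (an r h) ω) w4,
          (gr (dc (an r n) (ω ∪ B))).Reachable (ef n S4) f) := by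
  have hrn : r < n := hrh.trans hhn
  have ha' : Conn (an r n) (ω ∪ B) (bp r τ1) Z1 := ha.mono (Finset.Subset.refl _) Finset.subset_union_left
  have hb' : Conn (an r n) (ω ∪ B) (bp r τ3) Z3 := hb.mono (Finset.Subset.refl _) Finset.subset_union_left
  have hno : ∀ s s' : ℤ, τ1 ≤ s → s < τ3 → τ3 ≤ s' → s' < τ1 + 8 * r →
      ¬ (gr (dc (an r n) (ω ∪ B))).Reachable (ef r s) (ef r s') := fun s s' k1 k2 k3 k4 =>
    AN2 hr hrn h1 h2 hZ1 hZ3 ha' hb' k1 k2 k3 k4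
  obtain ⟨_, ⟨s, S, hs1, hs2, hs⟩, ⟨s', S', hs1', hs2', hs'⟩⟩ := AN1 hr hrn h1 h2 hno hab
  obtain ⟨w2, t, a1, a2, a3, a4⟩ := dual_loci hr hrh hhn.le hs
  obtain ⟨w4, t', b1, b2, b3, b4⟩ := dual_loci hr hrh hhn.le hs'
  obtain ⟨t2, c1, c2, c3, c4⟩ := BIQ_shift r hr τ1 t
  obtain ⟨t4, d1, d2, d3, d4⟩ := BIQ_shift r hr τ1 t'
  have hu2 := a4 _ (pk_spec a1).1
  have hv2 := b4 _ (pk_spec b1).1
  rw [a2, ← c3] at hu2
  rw [b2, ← d3] at hv2
  have e2 : t2 < τ3 := by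
    by_contra hcon
    push Not at hcon
    exact hno s t2 hs1 hs2 hcon c2 (hs.trans hu2)
  have e4 : τ3 ≤ t4 := by
    by_contra hcon
    push Not at hcon
    exact hno t4 s' d1 hcon hs1' hs2' ((hs'.trans hv2).symm)
  refine ⟨t2, t4, S, S', w2, w4, ⟨c1, e2⟩, ⟨e4, d2⟩, ?_, ?_, ⟨a1, by rw [a2, c3], a4⟩, ⟨b1, by rw [b2, d3], b4⟩⟩
  · rw [c4]
    exact a3
  · rw [d4]
    exact b3

end FKN
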