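import Pool.Agent.Lib.MP_216314_pr.N.BIP
import Pool.Agent.Lib.MP_216314_pr.N.BIC
import Pool.Agent.Lib.MP_216314_pr.N.BIM

/-!
# The separation theorem at the inner boundary (deterministic)

Proof of `surgeryi` (mirror of `surgery`, N/BT). `primi` with `m1 := ρ + m` gives `z1`, `z3`, `Z1`, `Z3`. `exists_bp` (for `bx r`): `0 ≤ t1 < 8 r`, `bp r t1 = z1`, and `t3` with `bp r t3 = z3`, `t1 < t3 < t1 + 8 r` (`bp_per`; `z1 ≠ z3`). `y1 = g z1`, `y3 = g z3`,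
`B = bli r n y1 ρ ∪ bli r n y3 ρ ⊆ bli r n z1 (ρ + m) ∪ bli r n z3 r2`, so `¬ Conn D (ω ∪ B) z1 z3`. `duali` gives `t2`, `t4`, `S2`, `S4`, `w2`, `w4` and the clusters `K2`, `K4`. `hg3 z1 z3` gives `¬ OffArm ..` for `K2`, `K4`. The elements of `K2` are
connected to `ef n S2`, so to `ef r t2 ∈ K2` (`pk_spec`) in `dc D (ω ∪ B) ⊆ dc D ω`. `far_balli` gives `ρ ≤ nrm (bp r t2 - y1)` etc. `closingi` with `far2i`, `far4i` (`R := R3`), `far2i` with `R := R3 + r3` for `far24` (`nrm_sub_comm`).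
`¬ Conn D ω z1 z3` by `Conn.mono`. The gaps: `gapi`, `bp_per`, as in `surgery`.
-/

set_option autoImplicit false

noncomputable section

namespace FKN

open Finset FKI FKP

theorem surgeryi {r h n r1 R1 r2 R2 r3 R3 ρ m : ℕ} (hr : 1 ≤ r) (hhr : h ≤ 2 * r) (hn : 2 * h ≤ n)
    (hr1 : r1 + 1 < R1) (hR1 : r + R1 + 2 < h) (hr2 : r2 < R2) (hR2 : r + R2 + 2 < h) (hr3 : 1 ≤ r3) (hr3' : r3 < R3)
    (hR3 : r + R3 + 2 < h) (hRr : R3 + r3 ≤ r) (hm1 : ρ + m + R2 ≤ r1) (hm2 : ρ + m ≤ r2) (hρ : 2 * (R3 + r3) + m ≤ ρ)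
    (g : V → V) (hg : ∀ z, nrm z = r → nrm (g z - z) ≤ m) {ω : Finset Edge} (hF : Four' r n ω)
    (hg1 : ¬ Bad (an r h) (an r h) (sph h) (sph r) (r1 + 1) R1 ω)
    (hg2 : ¬ Bad (an r h) (an r h) (sph h) (sph r) r2 R2 ω)
    (hg3 : ∀ z1 z3 : V, nrm z1 = r → nrm z3 = r →
      ¬ Bad ((an r h).map dl.toEmbedding) ((an r h \ (bli r n (g z1) ρ ∪ bli r n (g z3) ρ)).map dl.toEmbedding) (fsp h)
        (efs r) r3 R3 (dc (an r h) ω)) :
    ∃ (t1 t2 t3 t4 S2 S4 : ℤ), (0 ≤ t1 ∧ t1 < 8 * r) ∧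
      ((ρ : ℤ) ≤ t2 - t1 + m ∧ (ρ : ℤ) ≤ t3 - t2 + m ∧ (ρ : ℤ) ≤ t4 - t3 + m ∧ (ρ : ℤ) ≤ t1 + 8 * r - t4 + m) ∧
      (t1 < t2 ∧ t2 < t3 ∧ t3 < t4 ∧ t4 < t1 + 8 * r) ∧
      (∃ Z : V, nrm Z = n ∧
        Conn (an r n \ (bli r n (ef r t2) (r3 - 1) ∪ bli r n (ef r t4) (r3 - 1))) ω Z (bp r t1)) ∧
      (∃ Z : V, nrm Z = n ∧
        Conn (an r n \ (bli r n (ef r t2) (r3 - 1) ∪ bli r n (ef r t4) (r3 - 1))) ω Z (bp r t3)) ∧
      (gr (dc (an r n) (ω ∪ (bli r n (g (bp r t1)) ρ ∪ bli r n (g (bp r t3)) ρ)))).Reachable (ef n S2) (ef r t2) ∧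
      (gr (dc (an r n) (ω ∪ (bli r n (g (bp r t1)) ρ ∪ bli r n (g (bp r t3)) ρ)))).Reachable (ef n S4) (ef r t4) := by
  have hhn : h < n := by omega
  have hnc0 : ∀ z1 z3 : V, ¬ Conn (an r n) (ω ∪ bli r n z1 (ρ + m) ∪ bli r n z3 r2) z1 z3 →
      ¬ Conn (an r n) ω z1 z3 := fun z1 z3 h0 h1 =>
    h0 (h1.mono (Finset.Subset.refl _) (Finset.subset_union_left.trans Finset.subset_union_left))
  obtain ⟨z1, z3, Z1, Z3, hz1, hz3, hZ1, hZ3, hc1, hc3, hfar, hnc⟩ :=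
    primi (m1 := ρ + m) hr1 (by omega) hhr hn hr2 (by omega) hm1 hF hg1 hg2
  obtain ⟨t1, ht1, ht1', rfl⟩ := exists_bp hr hz1
  obtain ⟨t3', ht3, ht3', hb3⟩ := exists_bp hr hz3
  have hne : t3' ≠ t1 := by
    intro h0
    subst h0
    rw [hb3] at hfar
    simp only [sub_self] at hfar
    have h0 : nrm (0 : V) = 0 := by simp [nrm]
    rw [h0] at hfar
    omega
  have hex : ∃ t3 : ℤ, t1 < t3 ∧ t3 < t1 + 8 * r ∧ bp r t3 = z3 := by
    rcases lt_or_ge t1 t3' with h0 | h0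
    · exact ⟨t3', h0, by omega, hb3⟩
    · refine ⟨t3' + 8 * r, by omega, by omega, ?_⟩
      have h1 := bp_per r t3' 1
      rw [mul_one] at h1
      rw [h1, hb3]
  clear hb3 hne ht3 ht3' t3'
  obtain ⟨t3, h13, h31, rfl⟩ := hex
  have hy1 := hg _ hz1
  have hy3 := hg _ hz3
  have hsub : bli r n (g (bp r t1)) ρ ∪ bli r n (g (bp r t3)) ρ ⊆ bli r n (bp r t1) (ρ + m) ∪ bli r n (bp r t3) r2 := by
    intro e he
    rw [Finset.mem_union] at he ⊢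
    unfold bli at he ⊢
    rw [Finset.mem_inter, Finset.mem_inter, mem_bxa, mem_bxa] at he
    rw [Finset.mem_inter, Finset.mem_inter, mem_bxa, mem_bxa]
    rcases he with ⟨h1, h2, h3⟩ | ⟨h1, h2, h3⟩
    · left
      have h4 := nrm_tri (ea e) (g (bp r t1)) (bp r t1)
      have h5 := nrm_tri (eb e) (g (bp r t1)) (bp r t1)
      exact ⟨h1, by push_cast; omega, by push_cast; omega⟩
    · right
      have h4 := nrm_tri (ea e) (g (bp r t3)) (bp r t3)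
      have h5 := nrm_tri (eb e) (g (bp r t3)) (bp r t3)
      exact ⟨h1, by omega, by omega⟩
  have hncB : ¬ Conn (an r n) (ω ∪ (bli r n (g (bp r t1)) ρ ∪ bli r n (g (bp r t3)) ρ)) (bp r t1) (bp r t3) := by
    intro h0
    apply hnc
    refine Conn.mono (Finset.Subset.refl _) ?_ h0
    rw [Finset.union_assoc]
    exact Finset.union_subset_union (Finset.Subset.refl _) hsub
  have hab : ¬ Conn (an r n) ω (bp r t1) (bp r t3) := hnc0 _ _ hnc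
  obtain ⟨t2, t4, S2, S4, w2, w4, ⟨h12, h23⟩, ⟨h34, h41⟩, ⟨e2, he2D, he2a, he2b⟩, ⟨e4, he4D, he4a, he4b⟩,
    ⟨hC2, hp2, hr2'⟩, ⟨hC4, hp4, hr4'⟩⟩ :=
    duali (r := r) (h := h) (n := n) hr (by omega) hhn h13 h31 hZ1 hZ3 hc1 hc3 hncB
  have hbad := hg3 _ _ hz1 hz3
  set B := bli r n (g (bp r t1)) ρ ∪ bli r n (g (bp r t3)) ρ with hB
  have ho2 : ¬ OffArm ((an r h).map dl.toEmbedding) (cls ((an r h \ B).map dl.toEmbedding) (dc (an r h) ω) w2)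
      (ef r t2) r3 R3 (dc (an r h) ω) := by
    intro h0
    apply hbad
    refine ⟨w2, hC2, ?_⟩
    rw [hp2]
    exact h0
  have ho4 : ¬ OffArm ((an r h).map dl.toEmbedding) (cls ((an r h \ B).map dl.toEmbedding) (dc (an r h) ω) w4)
      (ef r t4) r3 R3 (dc (an r h) ω) := by
    intro h0
    apply hbad
    refine ⟨w4, hC4, ?_⟩
    rw [hp4]
    exact h0
  have he2 : ef r t2 ∈ cls ((an r h \ B).map dl.toEmbedding) (dc (an r h) ω) w2 := by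
    have h0 := (pk_spec hC2).1
    rw [hp2] at h0
    exact h0
  have he4 : ef r t4 ∈ cls ((an r h \ B).map dl.toEmbedding) (dc (an r h) ω) w4 := by
    have h0 := (pk_spec hC4).1
    rw [hp4] at h0
    exact h0
  have hmono : gr (dc (an r n) (ω ∪ B)) ≤ gr (dc (an r n) ω) := by
    apply gr_mono
    unfold dc
    apply Finset.map_subset_map.2
    exact Finset.sdiff_subset_sdiff (Finset.Subset.refl _) Finset.subset_union_left
  have hK2 : ∀ f ∈ cls ((an r h \ B).map dl.toEmbedding) (dc (an r h) ω) w2,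
      (gr (dc (an r n) ω)).Reachable (ef r t2) f := fun f hf =>
    (((hr2' _ he2).symm.trans (hr2' f hf)).mono hmono)
  have hK4 : ∀ f ∈ cls ((an r h \ B).map dl.toEmbedding) (dc (an r h) ω) w4,
      (gr (dc (an r n) ω)).Reachable (ef r t4) f := fun f hf =>
    (((hr4' _ he4).symm.trans (hr4' f hf)).mono hmono)
  have hD2 : e2 ∈ an r n := by
    have h0 := (Finset.mem_sdiff.1 he2D).1
    rw [an, Finset.mem_sdiff] at h0 ⊢
    refine ⟨?_, h0.2⟩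
    rw [mem_bx'] at h0 ⊢
    obtain ⟨⟨h1, h2⟩, -⟩ := h0
    exact ⟨by omega, by omega⟩
  have hD4 : e4 ∈ an r n := by
    have h0 := (Finset.mem_sdiff.1 he4D).1
    rw [an, Finset.mem_sdiff] at h0 ⊢
    refine ⟨?_, h0.2⟩
    rw [mem_bx'] at h0 ⊢
    obtain ⟨⟨h1, h2⟩, -⟩ := h0
    exact ⟨by omega, by omega⟩
  have hb21 : (ρ : ℤ) ≤ nrm (bp r t2 - g (bp r t1)) :=
    far_balli hD2 (fun h0 => (Finset.mem_sdiff.1 he2D).2 (Finset.mem_union_left _ h0)) he2a he2b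
  have hb23 : (ρ : ℤ) ≤ nrm (bp r t2 - g (bp r t3)) :=
    far_balli hD2 (fun h0 => (Finset.mem_sdiff.1 he2D).2 (Finset.mem_union_right _ h0)) he2a he2b
  have hb41 : (ρ : ℤ) ≤ nrm (bp r t4 - g (bp r t1)) :=
    far_balli hD4 (fun h0 => (Finset.mem_sdiff.1 he4D).2 (Finset.mem_union_left _ h0)) he4a he4b
  have hb43 : (ρ : ℤ) ≤ nrm (bp r t4 - g (bp r t3)) :=
    far_balli hD4 (fun h0 => (Finset.mem_sdiff.1 he4D).2 (Finset.mem_union_right _ h0)) he4a he4b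
  have hfar2 : ∀ s : ℤ, t3 ≤ s → s < t1 + 8 * r → (R3 : ℤ) ≤ nrm (ef r s - ef r t2) := fun s hs hs' =>
    far2i hr (by omega) (by omega) hy1 hy3 h12 h23 hs hs' hb21 hb23
  have hfar4 : ∀ s : ℤ, t1 ≤ s → s < t3 → (R3 : ℤ) ≤ nrm (ef r s - ef r t4) := fun s hs hs' =>
    far4i hr (by omega) (by omega) hy1 hy3 hs hs' h34 h41 hb41 hb43
  have hfar24 : (R3 : ℤ) + r3 ≤ nrm (ef r t2 - ef r t4) := by
    have h0 := far2i (R := R3 + r3) (s := t4) hr hRr hρ hy1 hy3 h12 h23 h34 h41 hb21 hb23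
    rw [nrm_sub_comm] at h0
    push_cast at h0
    exact h0
  have hcl := closingi (h := h) hr hr3 hr3' hR3 hhn h12 h23 h34 h41 hZ1 hZ3 hc1 hc3 hab hK2 hK4 ho2 ho4
    hfar2 hfar4 hfar24
  have g21 := gapi hr hb21 hy1
  have g23 := gapi hr hb23 hy3
  have g43 := gapi hr hb43 hy3
  have hy1' : nrm (g (bp r t1) - bp r (t1 + 8 * r)) ≤ m := by
    have h1 := bp_per r t1 1
    rw [mul_one] at h1
    rw [h1]
    exact hy1
  have g41 := gapi hr hb41 hy1'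
  rw [abs_of_nonneg (by omega)] at g21
  rw [abs_of_nonpos (by omega)] at g23
  rw [abs_of_nonneg (by omega)] at g43
  rw [abs_of_nonpos (by omega)] at g41
  refine ⟨t1, t2, t3, t4, S2, S4, ⟨ht1, ht1'⟩, ⟨by omega, by omega, by omega, by omega⟩,
    ⟨by omega, by omega, by omega, by omega⟩, hcl.1, hcl.2, hr2' _ he2, hr4' _ he4⟩

end FKN
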