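import Pool.Agent.Lib.MP_216314_pr.N.BG

/-!
# Surgery, primal part

`D = bx n \ {e0}`, `A = an h n = bx n \ bx h`, `e0 ∈ bx h` (`1 ≤ h`), so `A ⊆ D`. `Conn F ω u v` is `(gr (ω ∩ F)).Reachable u v`.

* `loc_cl`: `last_exit'` for `Γ = ω ∩ (bx n \ {e0})`, `f = nrm`, `t = h` gives `v` with `nrm v = h`, `Conn D ω a v`, and a connection of `v` and `u` by edges with an end of
  `nrm > h`: such edges of `bx n` are in `an h n` (`mem_bx'`). So `u ∈ cls (an h n) ω v`, `nrm u = n`, `v ∈ cls ..`, `nrm v = h`.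
* `step1`: let `z = pk (sph n) (cls A ω v)`, `z ∈ K = cls A ω v` (`pk_spec`), `nrm z = n`, `Conn D ω a z`. Suppose `Conn D (ω ∪ bl n z r) a b`. Then (symmetric) `Conn D (ω ∪ bl) b a`, and
  `gr_union_hit` with `ω ∩ D`, `bl n z r ∩ D` gives an end `u` of an edge of `bl n z r` with `Conn D ω b u`, so `nrm (u - z) ≤ r` (`mem_bxa`). `offarm_of` with `Γ = ω ∩ D`, `E = A`, `K`:
  `nrm (b - z) ≥ n - 1 ≥ R`; the vertices of `K` are connected to `a` in `ω ∩ D`, so not to `b`; an edge `e ∈ Γ` in `bxa z R` has `nrm (ea e) ≥ n - R > h`, so it is in `A`. So `Bad` holds.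
* `step2`: the same for `ω' = ω ∪ B` in place of `ω` on the side of `a`: `B ⊆ bl n z1 m1`, `z3 = pk (sph n) (cls A ω v3)`, `Conn D ω b v3`, `nrm (z1 - z3) > r1 ≥ m1 + R2`. Suppose
  `Conn D (ω ∪ B ∪ bl n z3 r2) a b`, and `¬ Conn D (ω ∪ B) a b` (from `step1`, `m1 ≤ r1`, `bl` is monotone). `gr_union_hit`: an end `u` of an edge of `bl n z3 r2` with `Conn D (ω ∪ B) a u`.
  `offarm_of` with `Γ = (ω ∪ B) ∩ D`, `b := a`, `z := z3`, `K = cls A ω v3` (all its vertices are connected to `b` in `ω ∩ D`, so not to `a` in `Γ`): an edge of `Γ` in `bxa z3 R2` is not in `B`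
  (it would have an end at distance `≤ m1` from `z1` and `≤ R2` from `z3`), so it is in `ω`, and in `A` as before.
* `prim`: `Four n ω`: `a = (0,0)`, `b = (1,0)` (`FKN.Four`); `loc_cl` for both; `z1`, `z3` as above; `step1`; `r1 < nrm (z1 - z3)`: otherwise `z1`, `z3` are connected in `bl n z1 r1`
  (`ball_conn`; `bl n z1 r1 ⊆ D`: its edges are far from the origin, `r1 + 1 < n`), so `Conn D (ω ∪ bl n z1 r1) a b`, contradiction to `step1`. `step2` with `B = bl n z1 m1`.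
-/

set_option autoImplicit false

noncomputable section

namespace FKN

open Finset FKI FKP

theorem BP_e0 {h : ℕ} (hh : 1 ≤ h) : e0 ∈ bx h := by
  rw [mem_bx']
  have h1 : (1 : ℤ) ≤ h := by exact_mod_cast hh
  refine ⟨?_, ?_⟩
  · show max |(0 : ℤ)| |(0 : ℤ)| ≤ (h : ℤ)
    rw [abs_zero, max_self]
    omega
  · show max |(0 : ℤ) + 1| |(0 : ℤ)| ≤ (h : ℤ)
    rw [zero_add, abs_one, abs_zero]
    exact max_le h1 (by omega)

theorem BP_an {n h : ℕ} (hh : 1 ≤ h) : an h n ⊆ bx n \ {e0} := by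
  intro e he
  unfold an at he
  rw [mem_sdiff] at he ⊢
  refine ⟨he.1, ?_⟩
  intro h1
  rw [mem_singleton] at h1
  rw [h1] at he
  exact he.2 (BP_e0 hh)

theorem BP_far {n h R : ℕ} (hR : h + R + 1 < n) {z : V} (hz : nrm z = n) {e : Edge} (he : e ∈ bx n)
    (hb : e ∈ bxa z R) : e ∈ an h n := by
  unfold an
  rw [mem_sdiff]
  refine ⟨he, ?_⟩
  intro h1
  rw [mem_bx'] at h1
  rw [mem_bxa] at hb
  have h2 := nrm_tri z (ea e) 0
  rw [sub_zero, sub_zero, nrm_sub_comm z (ea e)] at h2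
  have h3 := h1.1
  have h4 := hb.1
  rw [hz] at h2
  omega

theorem BP_bl {n m r : ℕ} (h : m ≤ r) (z : V) : bl n z m ⊆ bl n z r := by
  intro e he
  unfold bl at he ⊢
  rw [mem_inter, mem_bxa] at he ⊢
  exact ⟨he.1, by omega, by omega⟩

theorem BP_one {n R : ℕ} (hR : R + 1 < n) {z a : V} (hz : nrm z = n) (ha : nrm a ≤ 1) :
    (R : ℤ) ≤ nrm (a - z) := by
  have h2 := nrm_tri z a 0
  rw [sub_zero, sub_zero, nrm_sub_comm z a, hz] at h2
  omega

theorem loc_cl {n h : ℕ} (hh : h < n) {ω : Finset Edge} {a u : V} (ha : nrm a ≤ h) (hu : nrm u = n)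
    (hc : Conn (bx n \ {e0}) ω a u) :
    ∃ v : V, Cro (sph h) (sph n) (cls (an h n) ω v) ∧ Conn (bx n \ {e0}) ω a v := by
  have hf : ∀ e ∈ ω ∩ (bx n \ {e0}), nrm (ea e) - nrm (eb e) ≤ 1 ∧ nrm (eb e) - nrm (ea e) ≤ 1 := by
    intro e _
    have h1 := nrm_edge 0 e
    rw [sub_zero, sub_zero] at h1
    exact h1
  obtain ⟨c, h1, h2, h3⟩ := last_exit' nrm hf ha (by rw [hu]; exact_mod_cast hh.le) hc
  refine ⟨c, ⟨⟨c, Conn.refl _ _ _, h1⟩, u, ?_, hu⟩, h2⟩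
  show (gr (ω ∩ an h n)).Reachable c u
  refine SimpleGraph.Reachable.mono (gr_mono ?_) h3
  intro e he
  rw [mem_filter, mem_inter, mem_sdiff] at he
  rw [mem_inter]
  refine ⟨he.1.1, ?_⟩
  unfold an
  rw [mem_sdiff]
  refine ⟨he.1.2.1, ?_⟩
  intro h4
  rw [mem_bx'] at h4
  rcases he.2 with h5 | h5
  · exact absurd h4.1 (not_le.2 h5)
  · exact absurd h4.2 (not_le.2 h5)

theorem step1 {n h r R : ℕ} (hh : 1 ≤ h) (hr : r < R) (hR : h + R + 1 < n) {ω : Finset Edge} {a b v : V}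
    (hb : nrm b ≤ 1) (hab : ¬ Conn (bx n \ {e0}) ω a b) (hv : Cro (sph h) (sph n) (cls (an h n) ω v))
    (hav : Conn (bx n \ {e0}) ω a v) (hg : ¬ Bad (an h n) (an h n) (sph h) (sph n) r R ω) :
    ¬ Conn (bx n \ {e0}) (ω ∪ bl n (pk (sph n) (cls (an h n) ω v)) r) a b := by
  intro hc
  obtain ⟨hzK, hzn⟩ := pk_spec hv
  set z := pk (sph n) (cls (an h n) ω v) with hzd
  have hzn' : nrm z = n := hzn
  have hc1 := hc.symm
  unfold Conn at hc1
  rw [union_inter_distrib_right] at hc1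
  have hba : ¬ (gr (ω ∩ (bx n \ {e0}))).Reachable b a := fun h1 => hab h1.symm
  obtain ⟨e, he, h1⟩ := gr_union_hit hc1 hba
  have he1 : e ∈ bxa z r := (mem_inter.1 (mem_inter.1 he).1).2
  rw [mem_bxa] at he1
  obtain ⟨u, hu, hu'⟩ : ∃ u : V, (gr (ω ∩ (bx n \ {e0}))).Reachable b u ∧ nrm (u - z) ≤ r := by
    rcases h1 with h1 | h1
    · exact ⟨_, h1, he1.1⟩
    · exact ⟨_, h1, he1.2⟩
  apply hg
  refine ⟨v, hv, ?_⟩
  refine offarm_of hr hu (BP_one (by omega) hzn' hb) hu' ?_ ?_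
  · intro w hw hbw
    have h2 : Conn (bx n \ {e0}) ω v w := Conn.mono (BP_an hh) (Finset.Subset.refl _) hw
    exact hab ((hav.trans h2).trans (Conn.symm hbw))
  · intro e' he' h2 _
    rw [mem_inter, mem_sdiff] at he'
    exact ⟨BP_far hR hzn' he'.2.1 h2, he'.1⟩

theorem step2 {n h r1 r2 R2 m1 : ℕ} (hh : 1 ≤ h) (hr : r2 < R2) (hR : h + R2 + 1 < n) (hm : m1 + R2 ≤ r1)
    {ω B : Finset Edge} {a b v z1 : V} (ha : nrm a ≤ 1) (hB : B ⊆ bl n z1 m1)
    (hab : ¬ Conn (bx n \ {e0}) (ω ∪ B) a b) (hv : Cro (sph h) (sph n) (cls (an h n) ω v))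
    (hbv : Conn (bx n \ {e0}) ω b v) (hz : (r1 : ℤ) < nrm (z1 - pk (sph n) (cls (an h n) ω v)))
    (hg : ¬ Bad (an h n) (an h n) (sph h) (sph n) r2 R2 ω) :
    ¬ Conn (bx n \ {e0}) (ω ∪ B ∪ bl n (pk (sph n) (cls (an h n) ω v)) r2) a b := by
  intro hc
  obtain ⟨hzK, hzn⟩ := pk_spec hv
  set z := pk (sph n) (cls (an h n) ω v) with hzd
  have hzn' : nrm z = n := hzn
  have hc1 := hc
  unfold Conn at hc1
  rw [union_inter_distrib_right] at hc1
  obtain ⟨e, he, h1⟩ := gr_union_hit hc1 hab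
  have he1 : e ∈ bxa z r2 := (mem_inter.1 (mem_inter.1 he).1).2
  rw [mem_bxa] at he1
  obtain ⟨u, hu, hu'⟩ : ∃ u : V, (gr ((ω ∪ B) ∩ (bx n \ {e0}))).Reachable a u ∧ nrm (u - z) ≤ r2 := by
    rcases h1 with h1 | h1
    · exact ⟨_, h1, he1.1⟩
    · exact ⟨_, h1, he1.2⟩
  apply hg
  refine ⟨v, hv, ?_⟩
  refine offarm_of hr hu (BP_one (by omega) hzn' ha) hu' ?_ ?_
  · intro w hw haw
    have h2 : Conn (bx n \ {e0}) ω v w := Conn.mono (BP_an hh) (Finset.Subset.refl _) hw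
    have h3 : Conn (bx n \ {e0}) (ω ∪ B) b w :=
      Conn.mono (Finset.Subset.refl _) subset_union_left (hbv.trans h2)
    exact hab (Conn.trans haw h3.symm)
  · intro e' he' h2 _
    rw [mem_inter, mem_sdiff, mem_union] at he'
    refine ⟨BP_far hR hzn' he'.2.1 h2, ?_⟩
    rcases he'.1 with h3 | h3
    · exact h3
    · exfalso
      have h4 : e' ∈ bxa z1 m1 := (mem_inter.1 (hB h3)).2
      rw [mem_bxa] at h4 h2
      have h5 := nrm_tri z1 (ea e') z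
      rw [nrm_sub_comm z1 (ea e')] at h5
      have h6 := h4.1
      have h7 := h2.1
      rw [← hzd] at h7
      omega

theorem prim {n h r1 R1 r2 R2 m1 : ℕ} (hh : 1 ≤ h) (hr1 : r1 < R1) (hR1 : h + R1 + 1 < n) (hr2 : r2 < R2)
    (hR2 : h + R2 + 1 < n) (hm : m1 + R2 ≤ r1) {ω : Finset Edge} (hF : Four n ω)
    (hg1 : ¬ Bad (an h n) (an h n) (sph h) (sph n) r1 R1 ω) (hg2 : ¬ Bad (an h n) (an h n) (sph h) (sph n) r2 R2 ω) :
    ∃ z1 z3 : V, nrm z1 = n ∧ nrm z3 = n ∧ Conn (bx n \ {e0}) ω (0, 0) z1 ∧ Conn (bx n \ {e0}) ω (1, 0) z3 ∧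
      (r1 : ℤ) < nrm (z1 - z3) ∧ ¬ Conn (bx n \ {e0}) (ω ∪ bl n z1 m1 ∪ bl n z3 r2) (0, 0) (1, 0) := by
  obtain ⟨⟨u1, hu1, hc1⟩, ⟨u3, hu3, hc3⟩, hno⟩ := hF
  have hn0 : nrm ((0, 0) : V) = 0 := by
    show max |(0 : ℤ)| |(0 : ℤ)| = 0
    rw [abs_zero, max_self]
  have hn1 : nrm ((1, 0) : V) = 1 := by
    show max |(1 : ℤ)| |(0 : ℤ)| = 1
    rw [abs_zero, abs_one]
    rfl
  have hhn : h < n := by omega
  obtain ⟨v1, hv1, hav1⟩ := loc_cl hhn (by rw [hn0]; omega) hu1 hc1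
  obtain ⟨v3, hv3, hbv3⟩ := loc_cl hhn (by rw [hn1]; omega) hu3 hc3
  obtain ⟨hz1K, hz1⟩ := pk_spec hv1
  obtain ⟨hz3K, hz3⟩ := pk_spec hv3
  have hs1 := step1 hh hr1 hR1 hn1.le hno hv1 hav1 hg1
  have hcz1 : Conn (bx n \ {e0}) ω (0, 0) (pk (sph n) (cls (an h n) ω v1)) :=
    hav1.trans (Conn.mono (BP_an hh) (Finset.Subset.refl _) hz1K)
  have hcz3 : Conn (bx n \ {e0}) ω (1, 0) (pk (sph n) (cls (an h n) ω v3)) :=
    hbv3.trans (Conn.mono (BP_an hh) (Finset.Subset.refl _) hz3K)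
  have hfar : (r1 : ℤ) < nrm (pk (sph n) (cls (an h n) ω v1) - pk (sph n) (cls (an h n) ω v3)) := by
    by_contra hle
    rw [not_lt] at hle
    have hz1' : nrm (pk (sph n) (cls (an h n) ω v1)) = n := hz1
    have hz3' : nrm (pk (sph n) (cls (an h n) ω v3)) = n := hz3
    set z1 := pk (sph n) (cls (an h n) ω v1) with hz1d
    set z3 := pk (sph n) (cls (an h n) ω v3) with hz3d
    have h1 : (gr (bl n z1 r1)).Reachable z1 z3 := by
      refine ball_conn hz1'.le hz1'.le hz3'.le ?_ ?_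
      · rw [sub_self]
        show max |(0 : ℤ)| |(0 : ℤ)| ≤ (r1 : ℤ)
        rw [abs_zero, max_self]
        omega
      · rw [nrm_sub_comm]
        exact hle
    have hsub : bl n z1 r1 ⊆ (ω ∪ bl n z1 r1) ∩ (bx n \ {e0}) := by
      intro e he
      rw [mem_inter, mem_union, mem_sdiff]
      refine ⟨Or.inr he, (mem_inter.1 he).1, ?_⟩
      intro h2
      rw [mem_singleton] at h2
      have h3 : e ∈ bxa z1 r1 := (mem_inter.1 he).2
      rw [mem_bxa] at h3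
      have h4 := nrm_tri z1 (ea e) 0
      rw [sub_zero, sub_zero, nrm_sub_comm z1 (ea e), hz1'] at h4
      have h5 : nrm (ea e) = 0 := by
        rw [h2]
        exact hn0
      have h6 := h3.1
      omega
    have h2 : Conn (bx n \ {e0}) (ω ∪ bl n z1 r1) z1 z3 :=
      SimpleGraph.Reachable.mono (gr_mono hsub) h1
    have h3 : Conn (bx n \ {e0}) (ω ∪ bl n z1 r1) (0, 0) z1 :=
      Conn.mono (Finset.Subset.refl _) subset_union_left hcz1
    have h4 : Conn (bx n \ {e0}) (ω ∪ bl n z1 r1) (1, 0) z3 :=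
      Conn.mono (Finset.Subset.refl _) subset_union_left hcz3
    exact hs1 ((h3.trans h2).trans h4.symm)
  refine ⟨_, _, hz1, hz3, hcz1, hcz3, hfar, ?_⟩
  refine step2 hh hr2 hR2 hm (by rw [hn0]; omega) (Finset.Subset.refl _) ?_ hv3 hbv3 hfar hg2
  intro h1
  refine hs1 (Conn.mono (Finset.Subset.refl _) ?_ h1)
  exact union_subset_union_right (BP_bl (by omega) _)

end FKN
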