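import Pool.Agent.Lib.MP_216314_pr.N.BG
import Pool.Agent.Lib.MP_216314_pr.N.AP

/-!
# Surgery, dual part

`D = bx n \ {e0}`, `ω2` = the configuration with the two balls opened; `dc F ω = (F \ ω).map dl`; `a = (0,0)`, `b = (1,0)` are the ends of `e0` (`ea e0`, `eb e0`), and
`ea (dl e0) = (0,-1)`, `eb (dl e0) = (0,0)` are its two faces.

* `dc_erase`: `bx n \ ω.erase e0 = insert e0 ((bx n \ {e0}) \ ω)` (`e0 ∈ bx n`, `1 ≤ n`), so `dc (bx n) (ω.erase e0) = insert (dl e0) (dc D ω)`. `dc_insert`: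
  `bx n \ insert e0 ω = (bx n \ {e0}) \ ω`.
* `dual1`: (1) `¬ Conn (bx n) (ω2.erase e0) (bp n t1) (bp n t3)`: `ω2.erase e0 ∩ bx n = ω2 ∩ D`, and `bp n t1` is connected to `a`, `bp n t3` to `b`, in `ω2 ∩ D`.
  (2) `BD1` gives `s`, `s'` and a dual path in `dc (bx n) (ω2.erase e0) = insert (dl e0) (dc D ω2)`. (3) `Conn (bx n) (insert e0 ω2) (bp n t1) (bp n t3)`
  (`bp n t1 ~ a ~ b ~ bp n t3`), so by `BD2` no two faces `ef n s`, `ef n s'` (`s` in the first arc, `s'` in the second) are connected in `dc (bx n) (insert e0 ω2) = dc D ω2`. (4) `gr_insert`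
  (with `e = dl e0`) for the path of (2): `ef n s ~ ea (dl e0)`, `eb (dl e0) ~ ef n s'` or `ef n s ~ eb (dl e0)`, `ea (dl e0) ~ ef n s'`: the two alternatives for `(u, v)`.
* `dual_loc`: `Reachable u (ef n s)` in `Γ = dc D (ω ∪ B)`, `fl u ≤ h`, `fl (ef n s) = n` (`fl_ef`). `last_exit'` with `f = fl`, `t = h` (`fl_edge`): `w` with `fl w = h`, `Reachable u w` in
  `Γ` and a connection of `w` and `ef n s` by edges of `Γ` with an end of level `> h`. Such an edge is `dl e` with `e ∈ D \ (ω ∪ B)`, `e ∉ bx h` (`fl_le_of_bx`), so `e ∈ an h n \ B`,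
  `e ∉ ω`: it is in `((an h n \ B).map dl) ∩ dc (an h n) ω`. So with `K = cls ((an h n \ B).map dl) (dc (an h n) ω) w`: `w ∈ K`, `ef n s ∈ K`: `Cro (fsp h) (fsp n) K`.
  All elements of `K` are connected to `w` in `Γ` (`1 ≤ h`: `an h n ⊆ D`). `z = pk (fsp n) K ∈ K`, `fl z = n`; `z ≠ w` (`h < n`), so `z` is an end of an edge `dl e` with `e ∈ an h n \ B` (the
  first edge of the walk from `z` to `w`), so `z = ef n t` with `0 ≤ t < 8 n` (`exists_ef`) and `e = be n t` (`ef_unique`), `be n t ∉ B`.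
* `dual`: `dual1` for `ω2 = ω ∪ B`, then `dual_loc` for `u` and for `v` (`fl (0,0) = 0`, `fl (0,-1) = 0`). The number `t` of `dual_loc` for `u` is changed by a multiple of `8 n` (`ef_per`, `be_per`) such
  that `t1 ≤ t2 < t1 + 8 n`; `t3 ≤ t2` is impossible: `ef n s ~ u ~ ef n t2` in `dc D ω2` contradicts the last statement of `dual1`. The same for `t4`.
-/

set_option autoImplicit false

noncomputable section

namespace FKN

open Finset FKI FKP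

theorem dc_erase {n : ℕ} (hn : 1 ≤ n) (ω : Finset Edge) :
    dc (bx n) (ω.erase e0) = insert (dl e0) (dc (bx n \ {e0}) ω) := by
  have h1 : bx n \ ω.erase e0 = insert e0 ((bx n \ {e0}) \ ω) := by
    have h0 : e0 ∈ bx n := by
      rw [mem_bx']
      have h2 : (1 : ℤ) ≤ n := by exact_mod_cast hn
      constructor
      · show max |(0 : ℤ)| |(0 : ℤ)| ≤ n
        simp
      · show max |(0 : ℤ) + 1| |(0 : ℤ)| ≤ n
        simp
        omega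
    ext e
    simp only [mem_sdiff, mem_erase, mem_insert, mem_singleton, not_and]
    by_cases h2 : e = e0
    · subst h2
      simp [h0]
    · simp [h2]
  unfold dc
  rw [h1, Finset.map_insert]
  rfl

theorem dc_insert {n : ℕ} (ω : Finset Edge) : dc (bx n) (insert e0 ω) = dc (bx n \ {e0}) ω := by
  have h1 : bx n \ insert e0 ω = (bx n \ {e0}) \ ω := by
    ext e
    simp only [mem_sdiff, mem_insert, mem_singleton, not_or]
    tauto
  unfold dc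
  rw [h1]

theorem BQ_e0 {n : ℕ} (hn : 1 ≤ n) : e0 ∈ bx n := by
  rw [mem_bx']
  have h2 : (1 : ℤ) ≤ n := by exact_mod_cast hn
  constructor
  · show max |(0 : ℤ)| |(0 : ℤ)| ≤ n
    simp
  · show max |(0 : ℤ) + 1| |(0 : ℤ)| ≤ n
    simp
    omega

theorem dual1 {n : ℕ} (hn : 1 ≤ n) {ω2 : Finset Edge} {t1 t3 : ℤ} (h1 : t1 < t3) (h2 : t3 < t1 + 8 * n)
    (ha : Conn (bx n \ {e0}) ω2 (0, 0) (bp n t1)) (hb : Conn (bx n \ {e0}) ω2 (1, 0) (bp n t3))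
    (hab : ¬ Conn (bx n \ {e0}) ω2 (0, 0) (1, 0)) :
    (∃ s s' : ℤ, ∃ u v : V, (t1 ≤ s ∧ s < t3) ∧ (t3 ≤ s' ∧ s' < t1 + 8 * n) ∧
      ((u = (0, 0) ∧ v = (0, -1)) ∨ (u = (0, -1) ∧ v = (0, 0))) ∧
      (gr (dc (bx n \ {e0}) ω2)).Reachable u (ef n s) ∧ (gr (dc (bx n \ {e0}) ω2)).Reachable v (ef n s')) ∧
    ∀ s s' : ℤ, t1 ≤ s → s < t3 → t3 ≤ s' → s' < t1 + 8 * n →
      ¬ (gr (dc (bx n \ {e0}) ω2)).Reachable (ef n s) (ef n s') := by
  have hno : ∀ s s' : ℤ, t1 ≤ s → s < t3 → t3 ≤ s' → s' < t1 + 8 * n →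
      ¬ (gr (dc (bx n \ {e0}) ω2)).Reachable (ef n s) (ef n s') := by
    intro s s' k1 k2 k3 k4
    have hc : Conn (bx n) (insert e0 ω2) (bp n t1) (bp n t3) := by
      have a1 : Conn (bx n) (insert e0 ω2) (0, 0) (bp n t1) :=
        ha.mono Finset.sdiff_subset (Finset.subset_insert _ _)
      have b1 : Conn (bx n) (insert e0 ω2) (1, 0) (bp n t3) :=
        hb.mono Finset.sdiff_subset (Finset.subset_insert _ _)
      have c1 : Conn (bx n) (insert e0 ω2) (0, 0) (1, 0) :=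
        pexit_edge (BQ_e0 hn) (Finset.mem_insert_self _ _) (Or.inl ⟨rfl, rfl⟩)
      exact (a1.symm.trans c1).trans b1
    have h3 := BD2 hn h1 h2 hc k1 k2 k3 k4
    rw [dc_insert] at h3
    exact h3
  refine ⟨?_, hno⟩
  have hnc : ¬ Conn (bx n) (ω2.erase e0) (bp n t1) (bp n t3) := by
    intro hc
    have hc' : Conn (bx n \ {e0}) ω2 (bp n t1) (bp n t3) := by
      refine SimpleGraph.Reachable.mono (gr_mono ?_) hc
      intro e he
      rw [mem_inter, mem_erase] at he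
      rw [mem_inter, mem_sdiff, mem_singleton]
      exact ⟨he.1.2, he.2, he.1.1⟩
    exact hab ((ha.trans hc').trans hb.symm)
  obtain ⟨s, s', hs, hs', hr⟩ := BD1 hn h1 h2 hnc
  rw [dc_erase hn] at hr
  rcases gr_insert hr (hno s s' hs.1 hs.2 hs'.1 hs'.2) with ⟨h3, h4⟩ | ⟨h3, h4⟩
  · exact ⟨s, s', (0, -1), (0, 0), hs, hs', Or.inr ⟨rfl, rfl⟩, h3.symm, h4⟩
  · exact ⟨s, s', (0, 0), (0, -1), hs, hs', Or.inl ⟨rfl, rfl⟩, h3.symm, h4⟩

theorem BQ_sub1 {n h : ℕ} (ω B : Finset Edge) :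
    (dc (bx n \ {e0}) (ω ∪ B)).filter (fun e => (h : ℤ) < fl (ea e) ∨ (h : ℤ) < fl (eb e)) ⊆
      dc (an h n) ω ∩ (an h n \ B).map dl.toEmbedding := by
  intro e' he'
  rw [mem_filter] at he'
  obtain ⟨he1, he2⟩ := he'
  unfold dc at he1
  rw [Finset.mem_map] at he1
  obtain ⟨e, he, rfl⟩ := he1
  rw [mem_sdiff, mem_sdiff, mem_union, not_or] at he
  obtain ⟨⟨k1, _⟩, k3, k4⟩ := he
  have k5 : e ∉ bx h := by
    intro k6
    have k7 := fl_le_of_bx k6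
    rcases he2 with k8 | k8
    · exact absurd k8 (not_lt.2 k7.1)
    · exact absurd k8 (not_lt.2 k7.2)
  have k6 : e ∈ an h n := mem_sdiff.2 ⟨k1, k5⟩
  rw [mem_inter]
  exact ⟨Finset.mem_map.2 ⟨e, mem_sdiff.2 ⟨k6, k3⟩, rfl⟩, Finset.mem_map.2 ⟨e, mem_sdiff.2 ⟨k6, k4⟩, rfl⟩⟩

theorem BQ_edge {n h : ℕ} {ω B : Finset Edge} {e' : Edge}
    (he : e' ∈ dc (an h n) ω ∩ (an h n \ B).map dl.toEmbedding) :
    ∃ e, e' = dl e ∧ e ∈ bx n ∧ e ∉ bx h ∧ e ∉ ω ∧ e ∉ B := by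
  rw [mem_inter] at he
  obtain ⟨he1, he2⟩ := he
  unfold dc at he1
  rw [Finset.mem_map] at he1 he2
  obtain ⟨e, h1, rfl⟩ := he1
  obtain ⟨e2, h2, h3⟩ := he2
  have h4 : e2 = e := dl.injective h3
  subst h4
  rw [mem_sdiff] at h1 h2
  have h5 := h1.1
  unfold an at h5
  rw [mem_sdiff] at h5
  exact ⟨e2, rfl, h5.1, h5.2, h1.2, h2.2⟩

theorem BQ_sub2 {n h : ℕ} (h1 : 1 ≤ h) (ω B : Finset Edge) :
    dc (an h n) ω ∩ (an h n \ B).map dl.toEmbedding ⊆ dc (bx n \ {e0}) (ω ∪ B) := by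
  intro e' he'
  obtain ⟨e, rfl, k1, k2, k3, k4⟩ := BQ_edge he'
  unfold dc
  refine Finset.mem_map.2 ⟨e, ?_, rfl⟩
  rw [mem_sdiff, mem_sdiff, mem_union, not_or, mem_singleton]
  refine ⟨⟨k1, ?_⟩, k3, k4⟩
  intro h2
  rw [h2] at k2
  exact k2 (BQ_e0 h1)

theorem dual_loc {n h : ℕ} (h1 : 1 ≤ h) (hh : h < n) {ω B : Finset Edge} {u : V} {s : ℤ} (hu : fl u ≤ h)
    (hr : (gr (dc (bx n \ {e0}) (ω ∪ B))).Reachable u (ef n s)) :
    ∃ (w : V) (t : ℤ), Cro (fsp h) (fsp n) (cls ((an h n \ B).map dl.toEmbedding) (dc (an h n) ω) w) ∧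
      pk (fsp n) (cls ((an h n \ B).map dl.toEmbedding) (dc (an h n) ω) w) = ef n t ∧ be n t ∉ B ∧
      ∀ f ∈ cls ((an h n \ B).map dl.toEmbedding) (dc (an h n) ω) w,
        (gr (dc (bx n \ {e0}) (ω ∪ B))).Reachable u f := by
  have hn : 1 ≤ n := by omega
  obtain ⟨w, hw1, hw2, hw3⟩ := last_exit' fl (fun e _ => fl_edge e) hu
    (by rw [fl_ef hn]; exact_mod_cast hh.le) hr
  have hws : Conn ((an h n \ B).map dl.toEmbedding) (dc (an h n) ω) w (ef n s) :=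
    SimpleGraph.Reachable.mono (gr_mono (BQ_sub1 ω B)) hw3
  have hCro : Cro (fsp h) (fsp n) (cls ((an h n \ B).map dl.toEmbedding) (dc (an h n) ω) w) :=
    ⟨⟨w, Conn.refl _ _ _, hw1⟩, ⟨ef n s, hws, fl_ef hn s⟩⟩
  have hz := pk_spec hCro
  have hall : ∀ f ∈ cls ((an h n \ B).map dl.toEmbedding) (dc (an h n) ω) w,
      (gr (dc (bx n \ {e0}) (ω ∪ B))).Reachable u f := by
    intro f hf
    exact hw2.trans (SimpleGraph.Reachable.mono (gr_mono (BQ_sub2 h1 ω B)) hf)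
  obtain ⟨z, hzd⟩ : ∃ z, z = pk (fsp n) (cls ((an h n \ B).map dl.toEmbedding) (dc (an h n) ω) w) := ⟨_, rfl⟩
  rw [← hzd] at hz
  obtain ⟨hz1, hz2⟩ := hz
  have hz1' : Conn ((an h n \ B).map dl.toEmbedding) (dc (an h n) ω) z w := Conn.symm hz1
  have hz2' : fl z = n := hz2
  obtain ⟨t, ht1, ht2⟩ : ∃ t : ℤ, z = ef n t ∧ be n t ∉ B := by
    obtain ⟨p⟩ := hz1'
    cases p with
    | nil =>
      exfalso
      rw [hz2'] at hw1
      have : n = h := by exact_mod_cast hw1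
      omega
    | cons hadj p =>
      obtain ⟨e', he', hends⟩ := pexit_adj hadj
      obtain ⟨e, rfl, k1, k2, k3, k4⟩ := BQ_edge he'
      have k5 : z = ea (dl e) ∨ z = eb (dl e) := by
        rcases hends with ⟨k6, _⟩ | ⟨_, k6⟩
        · exact Or.inl k6.symm
        · exact Or.inr k6.symm
      obtain ⟨t, _, _, k6⟩ := exists_ef hn k1 hz2' k5
      rw [← k6] at k5
      have k7 := ef_unique hn k1 k5
      exact ⟨t, k6.symm, by rw [← k7]; exact k4⟩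
  exact ⟨w, t, hCro, by rw [← hzd]; exact ht1, ht2, hall⟩

theorem BQ_shift (n : ℕ) (hn : 1 ≤ n) (t1 t : ℤ) : ∃ t2 : ℤ, t1 ≤ t2 ∧ t2 < t1 + 8 * n ∧ ef n t2 = ef n t ∧
    be n t2 = be n t := by
  have h8 : (0 : ℤ) < 8 * n := by omega
  have h1 := Int.emod_add_mul_ediv (t - t1) (8 * n)
  have h2 := Int.emod_nonneg (t - t1) h8.ne'
  have h3 := Int.emod_lt_of_pos (t - t1) h8
  have h4 : t1 + (t - t1) % (8 * n) = t + 8 * n * (-((t - t1) / (8 * n))) := by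
    linear_combination h1
  refine ⟨t1 + (t - t1) % (8 * n), by omega, by omega, ?_, ?_⟩
  · rw [h4, ef_per]
  · rw [h4, be_per]

theorem dual {n h : ℕ} (hh1 : 1 ≤ h) (hh : h < n) {ω B : Finset Edge} {t1 t3 : ℤ} (h1 : t1 < t3)
    (h2 : t3 < t1 + 8 * n) (ha : Conn (bx n \ {e0}) ω (0, 0) (bp n t1)) (hb : Conn (bx n \ {e0}) ω (1, 0) (bp n t3))
    (hab : ¬ Conn (bx n \ {e0}) (ω ∪ B) (0, 0) (1, 0)) :
    ∃ (t2 t4 : ℤ) (u v w2 w4 : V), (t1 ≤ t2 ∧ t2 < t3) ∧ (t3 ≤ t4 ∧ t4 < t1 + 8 * n) ∧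
      ((u = (0, 0) ∧ v = (0, -1)) ∨ (u = (0, -1) ∧ v = (0, 0))) ∧ be n t2 ∉ B ∧ be n t4 ∉ B ∧
      (Cro (fsp h) (fsp n) (cls ((an h n \ B).map dl.toEmbedding) (dc (an h n) ω) w2) ∧
        pk (fsp n) (cls ((an h n \ B).map dl.toEmbedding) (dc (an h n) ω) w2) = ef n t2 ∧
        ∀ f ∈ cls ((an h n \ B).map dl.toEmbedding) (dc (an h n) ω) w2,
          (gr (dc (bx n \ {e0}) (ω ∪ B))).Reachable u f) ∧
      (Cro (fsp h) (fsp n) (cls ((an h n \ B).map dl.toEmbedding) (dc (an h n) ω) w4) ∧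
        pk (fsp n) (cls ((an h n \ B).map dl.toEmbedding) (dc (an h n) ω) w4) = ef n t4 ∧
        ∀ f ∈ cls ((an h n \ B).map dl.toEmbedding) (dc (an h n) ω) w4,
          (gr (dc (bx n \ {e0}) (ω ∪ B))).Reachable v f) := by
  have hn : 1 ≤ n := by omega
  have ha' : Conn (bx n \ {e0}) (ω ∪ B) (0, 0) (bp n t1) := ha.mono (Finset.Subset.refl _) Finset.subset_union_left
  have hb' : Conn (bx n \ {e0}) (ω ∪ B) (1, 0) (bp n t3) := hb.mono (Finset.Subset.refl _) Finset.subset_union_left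
  obtain ⟨⟨s, s', u, v, hs, hs', huv, hu, hv⟩, hno⟩ := dual1 hn h1 h2 ha' hb' hab
  have f0 : fl (0, 0) ≤ (h : ℤ) := by
    have : fl (0, 0) = 0 := by simp [fl]
    omega
  have f1 : fl (0, -1) ≤ (h : ℤ) := by
    have : fl (0, -1) = 0 := by simp [fl]
    omega
  have fu : fl u ≤ (h : ℤ) ∧ fl v ≤ (h : ℤ) := by
    rcases huv with ⟨h3, h4⟩ | ⟨h3, h4⟩
    · rw [h3, h4]
      exact ⟨f0, f1⟩
    · rw [h3, h4]
      exact ⟨f1, f0⟩
  obtain ⟨w2, t, a1, a2, a3, a4⟩ := dual_loc hh1 hh fu.1 hu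
  obtain ⟨w4, t', b1, b2, b3, b4⟩ := dual_loc hh1 hh fu.2 hv
  obtain ⟨t2, c1, c2, c3, c4⟩ := BQ_shift n hn t1 t
  obtain ⟨t4, d1, d2, d3, d4⟩ := BQ_shift n hn t1 t'
  have hu2 := a4 _ (pk_spec a1).1
  have hv2 := b4 _ (pk_spec b1).1
  rw [a2, ← c3] at hu2
  rw [b2, ← d3] at hv2
  have e2 : t2 < t3 := by
    by_contra hcon
    push Not at hcon
    exact hno s t2 hs.1 hs.2 hcon c2 (hu.symm.trans hu2)
  have e4 : t3 ≤ t4 := by
    by_contra hcon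
    push Not at hcon
    exact hno t4 s' d1 hcon hs'.1 hs'.2 (hv2.symm.trans hv)
  refine ⟨t2, t4, u, v, w2, w4, ⟨c1, e2⟩, ⟨e4, d2⟩, huv, by rw [c4]; exact a3, by rw [d4]; exact b3,
    ⟨a1, by rw [a2, c3], a4⟩, ⟨b1, by rw [b2, d3], b4⟩⟩

end FKN
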