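import Pool.Agent.Lib.MP_216314_pr.N.BT
import Pool.Agent.Lib.MP_216314_pr.N.BCy

/-!
# The landing state at the points of a grid

`T i = s * (t i / s)` (so `0 ≤ t i - T i ≤ s - 1`), `zo = ![bp n T1, bp n T3]`, `zd = ![bp n T2, bp n T4]`.
* gaps: `T2 - T1 ≥ t2 - t1 - (s - 1) ≥ ρ - m - s ≥ 100 w s`, the same for the others; `cyc_of`.
* `BS Fp Fm SeP SeD zo zd s ω` with `Fp = (bx n \ {e0}) \ bxs zd (w s)`, `Fm = (bx n \ {e0}) \ bxs zo (w s)` unfolds (`BS`, `StE`, `StG`, `SeP`, `SeD`, `nearS`, `nearT`) to two parts.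
  Open: sources `![(0,0), (1,0)]` (permutation `1`), targets `v = ![bp n t1, bp n t3]`: `nrm (bp n t1 - bp n T1) ≤ s - 1` (`bp_lip`). `bx n ∩ bxs zd (w s) ⊆ bl n (ef n t2) (r3 - 1) ∪ bl n (ef n t4) (r3 - 1)`: an edge
  in `bxa (bp n T2) (w s)` has its ends at distance `≤ w s` from `bp n T2`, `nrm (bp n T2 - ef n t2) ≤ (s - 1) + 1` (`bp_lip`, `ef_bp`), and `w s + s ≤ r3 - 1`. So `Conn` in the smaller set of edges gives
  reachability in `gr (ω ∩ Fp)` (`gr_mono`).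
  Dual: sources `![u, v]` (permutation `1` or `swap 0 1`), targets `![ef n t2, ef n t4]`, at distance `≤ s` from `bp n T2`, `bp n T4`. `dc (bx n \ {e0}) (ω ∪ (bl n (g z1) ρ ∪ bl n (g z3) ρ)) ⊆ dc Fm ω`:
  an edge of `bx n` in `bxs zo (w s)` is in `bl n (g (bp n t1)) ρ` or `bl n (g (bp n t3)) ρ`, since `nrm (bp n T1 - g (bp n t1)) ≤ (s - 1) + m` and `w s + s + m ≤ ρ` (`bxs`, `mem_bxa`, `nrm_tri`).
-/

set_option autoImplicit false

noncomputable section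

namespace FKN

open Finset FKI FKP

theorem BSt_near {n s j : ℕ} (hn : 1 ≤ n) {t : ℤ} (h1 : (s : ℤ) * j ≤ t) (h2 : t < s * j + s) :
    nrm (bp n t - bp n (s * j)) ≤ s - 1 := by
  refine le_trans (bp_lip hn _ _) ?_
  rw [abs_of_nonneg (by omega)]
  omega

theorem BSt_near' {n s j : ℕ} (hn : 1 ≤ n) {t : ℤ} (h1 : (s : ℤ) * j ≤ t) (h2 : t < s * j + s) :
    nrm (ef n t - bp n (s * j)) ≤ s := by
  have h3 := nrm_tri (ef n t) (bp n t) (bp n (s * j))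
  have h4 := ef_bp hn t
  have h5 := BSt_near hn h1 h2
  omega

theorem BSt_sub {y z : V} {a b : ℤ} {e : Edge} (he : e ∈ bxa y a) (h : a + nrm (y - z) ≤ b) : e ∈ bxa z b := by
  rw [mem_bxa] at he ⊢
  have h1 := nrm_tri (ea e) y z
  have h2 := nrm_tri (eb e) y z
  omega

theorem BSt_open {n s w r3 j2 j4 : ℕ} (hn : 1 ≤ n) {t2 t4 : ℤ} (hw1 : w * s + s + 1 ≤ r3)
    (h1 : (s : ℤ) * j2 ≤ t2) (h2 : t2 < s * j2 + s) (h3 : (s : ℤ) * j4 ≤ t4) (h4 : t4 < s * j4 + s) :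
    (bx n \ {e0}) \ (bl n (ef n t2) (r3 - 1) ∪ bl n (ef n t4) (r3 - 1)) ⊆
      (bx n \ {e0}) \ bxs ![bp n (s * j2), bp n (s * j4)] (w * (s : ℕ)) := by
  have hw : ((w : ℤ) * s + s) ≤ ((r3 - 1 : ℕ) : ℤ) := by
    have : w * s + s ≤ r3 - 1 := by omega
    exact_mod_cast this
  intro e he
  rw [mem_sdiff] at he ⊢
  refine ⟨he.1, ?_⟩
  intro hb
  apply he.2
  unfold bxs at hb
  rw [mem_biUnion] at hb
  obtain ⟨i, _, hi⟩ := hb
  have hen : e ∈ bx n := (mem_sdiff.1 he.1).1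
  rw [mem_union]
  unfold bl
  rw [mem_inter, mem_inter]
  fin_cases i
  · left
    refine ⟨hen, BSt_sub hi ?_⟩
    have h5 := BSt_near' hn h1 h2
    rw [nrm_sub_comm] at h5
    exact le_trans (add_le_add (le_refl _) h5) hw
  · right
    refine ⟨hen, BSt_sub hi ?_⟩
    have h5 := BSt_near' hn h3 h4
    rw [nrm_sub_comm] at h5
    exact le_trans (add_le_add (le_refl _) h5) hw

theorem BSt_dual {n s w ρ m j1 j3 : ℕ} (hn : 1 ≤ n) {t1 t3 : ℤ} (hw2 : w * s + s + m ≤ ρ)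
    (h1 : (s : ℤ) * j1 ≤ t1) (h2 : t1 < s * j1 + s) (h3 : (s : ℤ) * j3 ≤ t3) (h4 : t3 < s * j3 + s)
    (g : V → V) (hg : ∀ z, nrm z = n → nrm (g z - z) ≤ m) (ω : Finset Edge) :
    dc (bx n \ {e0}) (ω ∪ (bl n (g (bp n t1)) ρ ∪ bl n (g (bp n t3)) ρ)) ⊆
      dc ((bx n \ {e0}) \ bxs ![bp n (s * j1), bp n (s * j3)] (w * (s : ℕ))) ω := by
  have hw : ((w : ℤ) * s + s + m) ≤ (ρ : ℤ) := by exact_mod_cast hw2
  unfold dc
  refine Finset.map_subset_map.2 ?_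
  intro e he
  rw [mem_sdiff, mem_union, mem_union] at he
  obtain ⟨he1, he2⟩ := he
  rw [mem_sdiff, mem_sdiff]
  refine ⟨⟨he1, ?_⟩, fun h => he2 (Or.inl h)⟩
  intro hb
  apply he2
  right
  unfold bxs at hb
  rw [mem_biUnion] at hb
  obtain ⟨i, _, hi⟩ := hb
  have hen : e ∈ bx n := (mem_sdiff.1 he1).1
  unfold bl
  rw [mem_inter, mem_inter]
  fin_cases i
  · left
    refine ⟨hen, BSt_sub hi ?_⟩
    have h5 := BSt_near hn h1 h2
    have h6 := hg _ (bp_nrm hn t1)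
    have h7 := nrm_tri (bp n (s * j1)) (bp n t1) (g (bp n t1))
    rw [nrm_sub_comm] at h5 h6
    exact le_trans (add_le_add (le_refl _) h7) (by omega)
  · right
    refine ⟨hen, BSt_sub hi ?_⟩
    have h5 := BSt_near hn h3 h4
    have h6 := hg _ (bp_nrm hn t3)
    have h7 := nrm_tri (bp n (s * j3)) (bp n t3) (g (bp n t3))
    rw [nrm_sub_comm] at h5 h6
    exact le_trans (add_le_add (le_refl _) h7) (by omega)

theorem BSt_j {n s : ℕ} (hs : 1 ≤ s) {t : ℤ} (h0 : 0 ≤ t) (h1 : t < 16 * n) :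
    ∃ j : ℕ, j ≤ 16 * n / s ∧ (s : ℤ) * j ≤ t ∧ t < s * j + s := by
  obtain ⟨τ, rfl⟩ := Int.eq_ofNat_of_zero_le h0
  refine ⟨τ / s, Nat.div_le_div_right (by omega), ?_, ?_⟩
  · exact_mod_cast Nat.mul_div_le τ s
  · have := Nat.lt_mul_div_succ τ (by omega : 0 < s)
    rw [Nat.mul_add, Nat.mul_one] at this
    exact_mod_cast this

theorem state {n h r1 R1 r2 R2 r3 R3 ρ m s w : ℕ} (hh : 1 ≤ h) (hr1 : r1 < R1) (hR1 : h + R1 + 2 < n) (hr2 : r2 < R2)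
    (hR2 : h + R2 + 2 < n) (hr3 : 1 ≤ r3) (hr3' : r3 < R3) (hR3 : h + R3 + 2 < n) (hRr : R3 + r3 ≤ n)
    (hm1 : ρ + m + R2 ≤ r1) (hm2 : ρ + m ≤ r2) (hρ : 2 * (R3 + r3) + m ≤ ρ)
    (hs : 1 ≤ s) (hw1 : w * s + s + 1 ≤ r3) (hw2 : w * s + s + m ≤ ρ) (hw3 : 100 * w * s + s + m ≤ ρ)
    (g : V → V) (hg : ∀ z, nrm z = n → nrm (g z - z) ≤ m) {ω : Finset Edge} (hF : Four n ω)
    (hg1 : ¬ Bad (an h n) (an h n) (sph h) (sph n) r1 R1 ω)
    (hg2 : ¬ Bad (an h n) (an h n) (sph h) (sph n) r2 R2 ω)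
    (hg3 : ∀ z1 z3 : V, nrm z1 = n → nrm z3 = n →
      ¬ Bad ((an h n).map dl.toEmbedding) ((an h n \ (bl n (g z1) ρ ∪ bl n (g z3) ρ)).map dl.toEmbedding) (fsp h) (fsp n)
        r3 R3 (dc (an h n) ω)) :
    ∃ j1 j2 j3 j4 : ℕ, (j1 ≤ 16 * n / s ∧ j2 ≤ 16 * n / s ∧ j3 ≤ 16 * n / s ∧ j4 ≤ 16 * n / s) ∧
      CycR ![bp n (s * j1), bp n (s * j3)] ![bp n (s * j2), bp n (s * j4)] n (100 * w * (s : ℕ)) ∧
      BS ((bx n \ {e0}) \ bxs ![bp n (s * j2), bp n (s * j4)] (w * (s : ℕ)))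
        ((bx n \ {e0}) \ bxs ![bp n (s * j1), bp n (s * j3)] (w * (s : ℕ))) SeP SeD
        ![bp n (s * j1), bp n (s * j3)] ![bp n (s * j2), bp n (s * j4)] (s : ℕ) ω := by
  have hn : 1 ≤ n := by omega
  obtain ⟨t1, t2, t3, t4, u, v, ⟨ht1, ht1'⟩, ⟨hg12, hg23, hg34, hg41⟩, ⟨h12, h23, h34, h41⟩, huv, hc1, hc3, hd2, hd4⟩ :=
    surgery hh hr1 hR1 hr2 hR2 hr3 hr3' hR3 hRr hm1 hm2 hρ g hg hF hg1 hg2 hg3
  obtain ⟨j1, hj1, hj1a, hj1b⟩ := BSt_j (n := n) hs (t := t1) (by omega) (by omega)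
  obtain ⟨j2, hj2, hj2a, hj2b⟩ := BSt_j (n := n) hs (t := t2) (by omega) (by omega)
  obtain ⟨j3, hj3, hj3a, hj3b⟩ := BSt_j (n := n) hs (t := t3) (by omega) (by omega)
  obtain ⟨j4, hj4, hj4a, hj4b⟩ := BSt_j (n := n) hs (t := t4) (by omega) (by omega)
  have hw3' : (100 * (w : ℤ) * s + s + m) ≤ (ρ : ℤ) := by exact_mod_cast hw3
  have hG0 : (0 : ℤ) ≤ 100 * (w : ℤ) * s := by positivity
  refine ⟨j1, j2, j3, j4, ⟨hj1, hj2, hj3, hj4⟩, ?_, ?_, ?_⟩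
  · exact cyc_of hn hG0 (by omega) (by omega) (by omega) (by omega)
  · refine ⟨![(0, 0), (1, 0)], ![bp n t1, bp n t3], ⟨1, ?_⟩, ?_, ?_⟩
    · intro i
      fin_cases i <;> simp [nrm]
    · intro i
      fin_cases i
      · exact le_trans (BSt_near hn hj1a hj1b) (by omega)
      · exact le_trans (BSt_near hn hj3a hj3b) (by omega)
    · have hsub := BSt_open hn hw1 hj2a hj2b hj4a hj4b
      intro i
      fin_cases i
      · exact SimpleGraph.Reachable.mono (gr_mono (Finset.inter_subset_inter (Finset.Subset.refl ω) hsub)) hc1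
      · exact SimpleGraph.Reachable.mono (gr_mono (Finset.inter_subset_inter (Finset.Subset.refl ω) hsub)) hc3
  · refine ⟨![u, v], ![ef n t2, ef n t4], ?_, ?_, ?_⟩
    · rcases huv with ⟨rfl, rfl⟩ | ⟨rfl, rfl⟩
      · refine ⟨1, ?_⟩
        intro i
        fin_cases i <;> simp [nrm]
      · refine ⟨Equiv.swap 0 1, ?_⟩
        intro i
        fin_cases i <;> simp [nrm]
    · intro i
      fin_cases i
      · exact BSt_near' hn hj2a hj2b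
      · exact BSt_near' hn hj4a hj4b
    · have hsub := BSt_dual hn hw2 hj1a hj1b hj3a hj3b g hg ω
      intro i
      fin_cases i
      · exact SimpleGraph.Reachable.mono (gr_mono hsub) hd2
      · exact SimpleGraph.Reachable.mono (gr_mono hsub) hd4

end FKN
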