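import Pool.Agent.Lib.MP_216314_pr.N.BP
import Pool.Agent.Lib.MP_216314_pr.N.BC
import Pool.Agent.Lib.MP_216314_pr.N.BM

/-!
# The separation theorem (deterministic)

Proof of `surgery`. `prim` with `m1 := ρ + m` gives `z1`, `z3`. `exists_bp` gives `0 ≤ t1 < 8 n`, `bp n t1 = z1`, and `t3'` with `bp n t3' = z3`, `0 ≤ t3' < 8 n`; `t3' ≠ t1` since
`nrm (z1 - z3) > r1 ≥ 0`; let `t3 = t3'` if `t1 < t3'`, `t3 = t3' + 8 n` otherwise (`bp_per`), so `t1 < t3 < t1 + 8 n`. Let `y1 = g z1`, `y3 = g z3`, `B = bl n y1 ρ ∪ bl n y3 ρ`.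
`bl n y1 ρ ⊆ bl n z1 (ρ + m)` and `bl n y3 ρ ⊆ bl n z3 (ρ + m) ⊆ bl n z3 r2` (`mem_bxa`, `nrm_tri`), so `¬ Conn D (ω ∪ B) (0,0) (1,0)`. `dual` gives `t2`, `t4`, `u`, `v`, `w2`, `w4`, with the sets `K2`, `K4`
(clusters). `¬ Bad ..` (`hg3 z1 z3`) gives `¬ OffArm ((an h n).map dl) K2 (ef n t2) r3 R3 (dc (an h n) ω)` and the same for `K4`. The elements of `K2` are connected to `u` and so to `ef n t2 ∈ K2`
(`pk_spec`) in `dc D (ω ∪ B) ⊆ dc D ω` (`gr_mono`). `closing` with `far2`, `far4` (`R := R3`), `far2` with `R := R3 + r3` for `far24` (`nrm_sub_comm`; `be n t2 ∉ B`, `be n t4 ∉ B`).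
Also `¬ Conn D ω (0,0) (1,0)` (from `Four`). The gaps: `gap` for `t2` with `y1`, `t1` and with `y3`, `t3`; for `t4` with `y3`, `t3` and with `y1`, `t1 + 8 n` (`bp_per`); signs from `t1 ≤ t2 < t3 ≤ t4 < t1 + 8 n`.
-/

set_option autoImplicit false

noncomputable section

namespace FKN

open Finset FKI FKP

theorem surgery {n h r1 R1 r2 R2 r3 R3 ρ m : ℕ} (hh : 1 ≤ h) (hr1 : r1 < R1) (hR1 : h + R1 + 2 < n) (hr2 : r2 < R2)
    (hR2 : h + R2 + 2 < n) (hr3 : 1 ≤ r3) (hr3' : r3 < R3) (hR3 : h + R3 + 2 < n) (hRr : R3 + r3 ≤ n)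
    (hm1 : ρ + m + R2 ≤ r1) (hm2 : ρ + m ≤ r2) (hρ : 2 * (R3 + r3) + m ≤ ρ)
    (g : V → V) (hg : ∀ z, nrm z = n → nrm (g z - z) ≤ m) {ω : Finset Edge} (hF : Four n ω)
    (hg1 : ¬ Bad (an h n) (an h n) (sph h) (sph n) r1 R1 ω)
    (hg2 : ¬ Bad (an h n) (an h n) (sph h) (sph n) r2 R2 ω)
    (hg3 : ∀ z1 z3 : V, nrm z1 = n → nrm z3 = n →
      ¬ Bad ((an h n).map dl.toEmbedding) ((an h n \ (bl n (g z1) ρ ∪ bl n (g z3) ρ)).map dl.toEmbedding) (fsp h) (fsp n)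
        r3 R3 (dc (an h n) ω)) :
    ∃ (t1 t2 t3 t4 : ℤ) (u v : V), (0 ≤ t1 ∧ t1 < 8 * n) ∧
      ((ρ : ℤ) ≤ t2 - t1 + m ∧ (ρ : ℤ) ≤ t3 - t2 + m ∧ (ρ : ℤ) ≤ t4 - t3 + m ∧ (ρ : ℤ) ≤ t1 + 8 * n - t4 + m) ∧
      (t1 < t2 ∧ t2 < t3 ∧ t3 < t4 ∧ t4 < t1 + 8 * n) ∧
      ((u = (0, 0) ∧ v = (0, -1)) ∨ (u = (0, -1) ∧ v = (0, 0))) ∧
      Conn ((bx n \ {e0}) \ (bl n (ef n t2) (r3 - 1) ∪ bl n (ef n t4) (r3 - 1))) ω (0, 0) (bp n t1) ∧
      Conn ((bx n \ {e0}) \ (bl n (ef n t2) (r3 - 1) ∪ bl n (ef n t4) (r3 - 1))) ω (1, 0) (bp n t3) ∧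
      (gr (dc (bx n \ {e0}) (ω ∪ (bl n (g (bp n t1)) ρ ∪ bl n (g (bp n t3)) ρ)))).Reachable u (ef n t2) ∧
      (gr (dc (bx n \ {e0}) (ω ∪ (bl n (g (bp n t1)) ρ ∪ bl n (g (bp n t3)) ρ)))).Reachable v (ef n t4) := by
  have hn : 1 ≤ n := by omega
  obtain ⟨z1, z3, hz1, hz3, hc1, hc3, hfar, hnc⟩ := prim (m1 := ρ + m) hh hr1 (by omega) hr2 (by omega) hm1 hF hg1 hg2
  obtain ⟨t1, ht1, ht1', rfl⟩ := exists_bp hn hz1
  obtain ⟨t3', ht3, ht3', hb3⟩ := exists_bp hn hz3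
  have hne : t3' ≠ t1 := by
    intro h0
    subst h0
    rw [hb3] at hfar
    simp only [sub_self] at hfar
    have h0 : nrm (0 : V) = 0 := by simp [nrm]
    rw [h0] at hfar
    omega
  have hex : ∃ t3 : ℤ, t1 < t3 ∧ t3 < t1 + 8 * n ∧ bp n t3 = z3 := by
    rcases lt_or_ge t1 t3' with h0 | h0
    · exact ⟨t3', h0, by omega, hb3⟩
    · refine ⟨t3' + 8 * n, by omega, by omega, ?_⟩
      have h1 := bp_per n t3' 1
      rw [mul_one] at h1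
      rw [h1, hb3]
  clear hb3 hne ht3 ht3' t3'
  obtain ⟨t3, h13, h31, rfl⟩ := hex
  have hy1 := hg _ hz1
  have hy3 := hg _ hz3
  have hsub : bl n (g (bp n t1)) ρ ∪ bl n (g (bp n t3)) ρ ⊆ bl n (bp n t1) (ρ + m) ∪ bl n (bp n t3) r2 := by
    intro e he
    rw [Finset.mem_union] at he ⊢
    unfold bl at he ⊢
    rw [Finset.mem_inter, Finset.mem_inter, mem_bxa, mem_bxa] at he
    rw [Finset.mem_inter, Finset.mem_inter, mem_bxa, mem_bxa]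
    rcases he with ⟨h1, h2, h3⟩ | ⟨h1, h2, h3⟩
    · left
      have h4 := nrm_tri (ea e) (g (bp n t1)) (bp n t1)
      have h5 := nrm_tri (eb e) (g (bp n t1)) (bp n t1)
      exact ⟨h1, by push_cast; omega, by push_cast; omega⟩
    · right
      have h4 := nrm_tri (ea e) (g (bp n t3)) (bp n t3)
      have h5 := nrm_tri (eb e) (g (bp n t3)) (bp n t3)
      exact ⟨h1, by omega, by omega⟩
  have hncB : ¬ Conn (bx n \ {e0}) (ω ∪ (bl n (g (bp n t1)) ρ ∪ bl n (g (bp n t3)) ρ)) (0, 0) (1, 0) := by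
    intro h0
    apply hnc
    refine Conn.mono (Finset.Subset.refl _) ?_ h0
    rw [Finset.union_assoc]
    exact Finset.union_subset_union (Finset.Subset.refl _) hsub
  obtain ⟨t2, t4, u, v, w2, w4, ⟨h12, h23⟩, ⟨h34, h41⟩, huv, hb2, hb4, ⟨hC2, hp2, hr2'⟩, ⟨hC4, hp4, hr4'⟩⟩ :=
    dual hh (by omega) h13 h31 hc1 hc3 hncB
  have hbad := hg3 _ _ hz1 hz3
  set B := bl n (g (bp n t1)) ρ ∪ bl n (g (bp n t3)) ρ with hB
  have ho2 : ¬ OffArm ((an h n).map dl.toEmbedding) (cls ((an h n \ B).map dl.toEmbedding) (dc (an h n) ω) w2)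
      (ef n t2) r3 R3 (dc (an h n) ω) := by
    intro h0
    apply hbad
    refine ⟨w2, hC2, ?_⟩
    rw [hp2]
    exact h0
  have ho4 : ¬ OffArm ((an h n).map dl.toEmbedding) (cls ((an h n \ B).map dl.toEmbedding) (dc (an h n) ω) w4)
      (ef n t4) r3 R3 (dc (an h n) ω) := by
    intro h0
    apply hbad
    refine ⟨w4, hC4, ?_⟩
    rw [hp4]
    exact h0
  have he2 : ef n t2 ∈ cls ((an h n \ B).map dl.toEmbedding) (dc (an h n) ω) w2 := by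
    have h0 := (pk_spec hC2).1
    rw [hp2] at h0
    exact h0
  have he4 : ef n t4 ∈ cls ((an h n \ B).map dl.toEmbedding) (dc (an h n) ω) w4 := by
    have h0 := (pk_spec hC4).1
    rw [hp4] at h0
    exact h0
  have hmono : gr (dc (bx n \ {e0}) (ω ∪ B)) ≤ gr (dc (bx n \ {e0}) ω) := by
    apply gr_mono
    unfold dc
    apply Finset.map_subset_map.2
    exact Finset.sdiff_subset_sdiff (Finset.Subset.refl _) Finset.subset_union_left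
  have hK2 : ∀ f ∈ cls ((an h n \ B).map dl.toEmbedding) (dc (an h n) ω) w2,
      (gr (dc (bx n \ {e0}) ω)).Reachable (ef n t2) f := fun f hf =>
    (((hr2' _ he2).symm.trans (hr2' f hf)).mono hmono)
  have hK4 : ∀ f ∈ cls ((an h n \ B).map dl.toEmbedding) (dc (an h n) ω) w4,
      (gr (dc (bx n \ {e0}) ω)).Reachable (ef n t4) f := fun f hf =>
    (((hr4' _ he4).symm.trans (hr4' f hf)).mono hmono)
  have hb21 : be n t2 ∉ bl n (g (bp n t1)) ρ := fun h0 => hb2 (Finset.mem_union_left _ h0)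
  have hb23 : be n t2 ∉ bl n (g (bp n t3)) ρ := fun h0 => hb2 (Finset.mem_union_right _ h0)
  have hb41 : be n t4 ∉ bl n (g (bp n t1)) ρ := fun h0 => hb4 (Finset.mem_union_left _ h0)
  have hb43 : be n t4 ∉ bl n (g (bp n t3)) ρ := fun h0 => hb4 (Finset.mem_union_right _ h0)
  have hfar2 : ∀ s : ℤ, t3 ≤ s → s < t1 + 8 * n → (R3 : ℤ) ≤ nrm (ef n s - ef n t2) := fun s hs hs' =>
    far2 hn (by omega) (by omega) hy1 hy3 h12 h23 hs hs' hb21 hb23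
  have hfar4 : ∀ s : ℤ, t1 ≤ s → s < t3 → (R3 : ℤ) ≤ nrm (ef n s - ef n t4) := fun s hs hs' =>
    far4 hn (by omega) (by omega) hy1 hy3 hs hs' h34 h41 hb41 hb43
  have hfar24 : (R3 : ℤ) + r3 ≤ nrm (ef n t2 - ef n t4) := by
    have h0 := far2 (R := R3 + r3) (s := t4) hn hRr hρ hy1 hy3 h12 h23 h34 h41 hb21 hb23
    rw [nrm_sub_comm] at h0
    push_cast at h0
    exact h0
  have hcl := closing (h := h) hr3 hr3' hR3 h12 h23 h34 h41 hc1 hc3 hF.2.2 hK2 hK4 ho2 ho4 hfar2 hfar4 hfar24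
  have g21 := gap hn hb21 hy1
  have g23 := gap hn hb23 hy3
  have g43 := gap hn hb43 hy3
  have hy1' : nrm (g (bp n t1) - bp n (t1 + 8 * n)) ≤ m := by
    have h1 := bp_per n t1 1
    rw [mul_one] at h1
    rw [h1]
    exact hy1
  have g41 := gap hn hb41 hy1'
  rw [abs_of_nonneg (by omega)] at g21
  rw [abs_of_nonpos (by omega)] at g23
  rw [abs_of_nonneg (by omega)] at g43
  rw [abs_of_nonpos (by omega)] at g41
  refine ⟨t1, t2, t3, t4, u, v, ⟨ht1, ht1'⟩, ⟨by omega, by omega, by omega, by omega⟩,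
    ⟨by omega, by omega, by omega, by omega⟩, huv, hcl.1, hcl.2, hr2' _ he2, hr4' _ he4⟩

end FKN
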