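import Pool.Agent.Lib.MP_216314_pr.N.BZa
import Pool.Agent.Lib.MP_216314_pr.N.BSt

/-!
# The separation of the four arms: `SepOut`

Choice of the constants. Given `ε`, `θ`, `w`: `(C, α)` from `OneIn`, `(c, n₀)` from `OneLt`. `δ = θ c / (3 C)` (so `C / c * x ≤ θ / 3` for `x ≤ δ`). Natural numbers, in this order:
`M1 ≥ 4` with `(1 / M1)^α ≤ δ`, `M2 ≥ 4` with `(1 / M2)^α ≤ δ`, `Nc = 448 * M1 * (M2 + 1) * (n₀ + 8) + 1`, `M3 ≥ 100` with `Nc^2 * (1 / M3)^α ≤ δ` (`small_pow`).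
`k = 28 * M1 * (M2 + 1) * M3 * (w + 2) * (n₀ + 8)`. For `n ≥ k`, `s = n / k ≥ 1`, `k s ≤ n < k (s + 1) ≤ 2 k s`, `h = n / 2`:
`r3 = (w + 2) s`, `R3 = M3 r3`, `m = R3`, `ρ = 6 R3`, `r2 = 7 R3`, `R2 = M2 r2`, `r1 = R2 + r2`, `R1 = M1 r1 = 7 M1 (M2 + 1) M3 (w + 2) s`, so `4 * (n₀ + 8) * R1 = k s ≤ n`, `R1 ≥ 100`.
Hypotheses of `state` (`g = cg n m`, `cg_near`): `h + R1 + 2 < n` (`32 R1 ≤ n`), `2 (R3 + r3) + m ≤ ρ` (`r3 ≤ R3`), `w s + s + 1 ≤ (w + 2) s`, `w s + s + m ≤ ρ`, `100 w s + s + m ≤ 6 R3` (`5 R3 ≥ 500 (w + 2) s`).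
`params` states all this; `num_params` bounds `8 n / m + 1 ≤ Nc` (`8 n < 16 k s = 448 M1 (M2+1) (n₀+8) R3`) and `16 n / s < 32 k`.
`(r1 : ℝ) / R1 = 1 / M1` etc. So by `bad_all` (`b1 = C (1/M1)^α` ..) `Pr q (an h n) Bd ≤ θ`, and `four_bad`: `Pr q (bx n) (Four n ∧ Bd) ≤ θ * p4 q (n / 2)` (`bd_dep`).
`Pr q (bx n) (Four n ∧ ¬ Bd) ≤ ∑ over (j1,j2,j3,j4) ∈ (range (32 k))^4 satisfying CycR .. of Pr q (bx n) (BS ..)` (`state`, `IPC.Pr_exists_le`; `¬ Bd` gives `hg1`, `hg2`, `hg3`).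
If the set `S` of quadruples satisfying `CycR` is nonempty take the quadruple with the largest probability (`Finset.exists_max_image`), and the sum is `≤ (32 k)^4 * max`. If it is empty the sum is `0`; take
`zo = ![bp n 0, bp n (4 n)]`, `zd = ![bp n (2 n), bp n (6 n)]` (`cyc_of` with `G = 100 w s ≤ 2 n`) and the term `≥ 0`. `C := (32 k)^4 + 1`.
`p4 q n = Pr q (bx n) (Four n) ≤ Pr (Four n ∧ Bd) + Pr (Four n ∧ ¬ Bd)` (`IPC.Pr_split`).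
-/

set_option autoImplicit false

noncomputable section

namespace FKN

open Finset FKI FKP

theorem small_pow {α δ : ℝ} (hα : 0 < α) (hδ : 0 < δ) (B : ℝ) (m₀ : ℕ) :
    ∃ M : ℕ, m₀ ≤ M ∧ 1 ≤ M ∧ B * (1 / (M : ℝ)) ^ α ≤ δ := by
  have h1 : Filter.Tendsto (fun M : ℕ => (1 / (M : ℝ)) ^ α) Filter.atTop (nhds (0 ^ α)) :=
    (tendsto_one_div_atTop_nhds_zero_nat (𝕜 := ℝ)).rpow_const (Or.inr hα.le)
  rw [Real.zero_rpow hα.ne'] at h1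
  have h2 := h1.const_mul B
  rw [mul_zero] at h2
  have h3 := (h2.eventually (gt_mem_nhds hδ)).and (Filter.eventually_ge_atTop (max m₀ 1))
  obtain ⟨M, hM1, hM2⟩ := h3.exists
  exact ⟨M, (le_max_left _ _).trans hM2, (le_max_right _ _).trans hM2, hM1.le⟩

theorem params {M1 M2 M3 w n₀ k n s : ℕ} (hM1 : 4 ≤ M1) (hM2 : 4 ≤ M2) (hM3 : 100 ≤ M3)
    (hk : k = 28 * M1 * (M2 + 1) * M3 * (w + 2) * (n₀ + 8)) (hn : k ≤ n) (hs : s = n / k) :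
    1 ≤ s ∧ n₀ ≤ n ∧ 2 ≤ n / 2 ∧ n / 2 + 1 < n ∧
    (M2 * (7 * (M3 * ((w + 2) * s))) + 7 * (M3 * ((w + 2) * s)) < M1 * (M2 * (7 * (M3 * ((w + 2) * s))) + 7 * (M3 * ((w + 2) * s)))) ∧
    n / 2 + M1 * (M2 * (7 * (M3 * ((w + 2) * s))) + 7 * (M3 * ((w + 2) * s))) + 2 < n ∧
    7 * (M3 * ((w + 2) * s)) < M2 * (7 * (M3 * ((w + 2) * s))) ∧ n / 2 + M2 * (7 * (M3 * ((w + 2) * s))) + 2 < n ∧
    1 ≤ (w + 2) * s ∧ (w + 2) * s < M3 * ((w + 2) * s) ∧ n / 2 + M3 * ((w + 2) * s) + 2 < n ∧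
    M3 * ((w + 2) * s) + (w + 2) * s ≤ n ∧
    6 * (M3 * ((w + 2) * s)) + M3 * ((w + 2) * s) + M2 * (7 * (M3 * ((w + 2) * s))) ≤
      M2 * (7 * (M3 * ((w + 2) * s))) + 7 * (M3 * ((w + 2) * s)) ∧
    6 * (M3 * ((w + 2) * s)) + M3 * ((w + 2) * s) ≤ 7 * (M3 * ((w + 2) * s)) ∧
    2 * (M3 * ((w + 2) * s) + (w + 2) * s) + M3 * ((w + 2) * s) ≤ 6 * (M3 * ((w + 2) * s)) ∧
    w * s + s + 1 ≤ (w + 2) * s ∧ w * s + s + M3 * ((w + 2) * s) ≤ 6 * (M3 * ((w + 2) * s)) ∧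
    100 * w * s + s + M3 * ((w + 2) * s) ≤ 6 * (M3 * ((w + 2) * s)) ∧ 1 ≤ M3 * ((w + 2) * s) ∧ 100 * w * s ≤ 2 * n := by
  have hkpos : 0 < k := by
    rw [hk]
    positivity
  have hs1 : 1 ≤ s := by
    rw [hs]
    exact Nat.div_pos hn hkpos
  have hks : k * s ≤ n := by
    rw [hs]
    exact Nat.mul_div_le n k
  have hA : (w + 2) * s = w * s + 2 * s := by ring
  have hws : 100 * w * s = 100 * (w * s) := by ring
  have hE : k * s = 4 * (n₀ * (M1 * (M2 * (7 * (M3 * ((w + 2) * s))) + 7 * (M3 * ((w + 2) * s))))) +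
      32 * (M1 * (M2 * (7 * (M3 * ((w + 2) * s))) + 7 * (M3 * ((w + 2) * s)))) := by
    rw [hk]
    ring
  rw [hws]
  generalize (w + 2) * s = A at *
  generalize w * s = W at *
  have hB : 100 * A ≤ M3 * A := Nat.mul_le_mul_right A hM3
  generalize M3 * A = B at *
  have hD : 4 * (7 * B) ≤ M2 * (7 * B) := Nat.mul_le_mul_right _ hM2
  generalize M2 * (7 * B) = D at *
  have hE2 : 4 * (D + 7 * B) ≤ M1 * (D + 7 * B) := Nat.mul_le_mul_right _ hM1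
  generalize M1 * (D + 7 * B) = E at *
  have hF : n₀ * 1 ≤ n₀ * E := Nat.mul_le_mul_left n₀ (by omega)
  generalize n₀ * E = F at *
  refine ⟨hs1, ?_, ?_, ?_, ?_, ?_, ?_, ?_, ?_, ?_, ?_, ?_, ?_, ?_, ?_, ?_, ?_, ?_, ?_, ?_⟩ <;> omega

theorem num_params {M1 M2 M3 w n₀ k n s : ℕ} (hM1 : 4 ≤ M1) (hM2 : 4 ≤ M2) (hM3 : 100 ≤ M3)
    (hk : k = 28 * M1 * (M2 + 1) * M3 * (w + 2) * (n₀ + 8)) (hn : k ≤ n) (hs : s = n / k) :
    8 * n / (M3 * ((w + 2) * s)) + 1 ≤ 448 * M1 * (M2 + 1) * (n₀ + 8) + 1 ∧ 16 * n / s < 32 * k := by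
  have hkpos : 0 < k := by
    rw [hk]
    positivity
  have hs1 : 1 ≤ s := by
    rw [hs]
    exact Nat.div_pos hn hkpos
  have h1 : n < k * (s + 1) := by
    rw [hs]
    exact Nat.lt_mul_div_succ n hkpos
  have h2 : k * 1 ≤ k * s := Nat.mul_le_mul_left k hs1
  have h3 : n < 2 * (k * s) := by
    rw [Nat.mul_add] at h1
    omega
  constructor
  · have h4 : 8 * n / (M3 * ((w + 2) * s)) ≤ 448 * M1 * (M2 + 1) * (n₀ + 8) := by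
      apply Nat.div_le_of_le_mul
      have h5 : M3 * ((w + 2) * s) * (448 * M1 * (M2 + 1) * (n₀ + 8)) = 16 * (k * s) := by
        rw [hk]
        ring
      rw [h5]
      omega
    omega
  · apply Nat.div_lt_of_lt_mul
    have h5 : s * (32 * k) = 32 * (k * s) := by ring
    rw [h5]
    omega

/-- the bad events have small probability -/
theorem sep_bad {C α c : ℝ} (hC : 0 < C) (hα : 0 < α) (hc : 0 < c) {θ : ℝ} (hθ : 0 < θ) (w n₀ : ℕ) :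
    ∃ M1 M2 M3 : ℕ, 4 ≤ M1 ∧ 4 ≤ M2 ∧ 100 ≤ M3 ∧ ∀ (q : ℝ) (n s : ℕ), 0 ≤ q → q ≤ 1 →
      28 * M1 * (M2 + 1) * M3 * (w + 2) * (n₀ + 8) ≤ n → s = n / (28 * M1 * (M2 + 1) * M3 * (w + 2) * (n₀ + 8)) →
      (∀ r R : ℕ, 1 ≤ r → r ≤ R → R ≤ n → p1' q r R ≤ C * ((r : ℝ) / R) ^ α ∧ p1' (1 - q) r R ≤ C * ((r : ℝ) / R) ^ α) →
      p1' q (n / 2) n ≤ 1 - c → p1' (1 - q) (n / 2 + 1) n ≤ 1 - c →
      IPC.Pr q (an (n / 2) n) (Bd n (n / 2) (M2 * (7 * (M3 * ((w + 2) * s))) + 7 * (M3 * ((w + 2) * s)))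
        (M1 * (M2 * (7 * (M3 * ((w + 2) * s))) + 7 * (M3 * ((w + 2) * s)))) (7 * (M3 * ((w + 2) * s)))
        (M2 * (7 * (M3 * ((w + 2) * s)))) ((w + 2) * s) (M3 * ((w + 2) * s)) (6 * (M3 * ((w + 2) * s)))
        (M3 * ((w + 2) * s))) ≤ θ := by
  have hδ : 0 < θ * c / (3 * C) := by positivity
  obtain ⟨M1, hM1, hM1', hM1b⟩ := small_pow hα hδ 1 4
  obtain ⟨M2, hM2, hM2', hM2b⟩ := small_pow hα hδ 1 4
  obtain ⟨M3, hM3, hM3', hM3b⟩ := small_pow hα hδ (((448 * M1 * (M2 + 1) * (n₀ + 8) + 1 : ℕ) : ℝ) ^ 2) 100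
  refine ⟨M1, M2, M3, hM1, hM2, hM3, ?_⟩
  intro q n s hq0 hq1 hn hs hp hl hl'
  obtain ⟨hs1, hn0, hh2, hh, hr1, hR1, hr2, hR2, hr3, hr3', hR3, hRr, hm1, hm2, hρ, hw1, hw2, hw3, hm, hg⟩ :=
    params hM1 hM2 hM3 rfl hn hs
  obtain ⟨hN1, -⟩ := num_params (w := w) (n₀ := n₀) hM1 hM2 hM3 rfl hn hs
  have hr : ∀ (x M : ℕ), 1 ≤ x → ((x : ℝ) / ((M * x : ℕ) : ℝ)) = 1 / (M : ℝ) := by
    intro x M hx
    have hx' : (x : ℝ) ≠ 0 := by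
      have : 0 < x := hx
      positivity
    rw [Nat.cast_mul, mul_comm (M : ℝ) (x : ℝ), ← div_div, div_self hx']
  have hA := (hp (M2 * (7 * (M3 * ((w + 2) * s))) + 7 * (M3 * ((w + 2) * s)))
    (M1 * (M2 * (7 * (M3 * ((w + 2) * s))) + 7 * (M3 * ((w + 2) * s)))) (by omega) hr1.le (by omega)).1
  have hB := (hp (7 * (M3 * ((w + 2) * s))) (M2 * (7 * (M3 * ((w + 2) * s)))) (by omega) hr2.le (by omega)).1
  have hD := (hp ((w + 2) * s) (M3 * ((w + 2) * s)) hr3 hr3'.le (by omega)).2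
  rw [hr _ _ (by omega)] at hA hB hD
  rw [one_mul] at hM1b hM2b
  have hb := bad_all hq0 hq1 (ρ := 6 * (M3 * ((w + 2) * s))) hm hh hr1 hr2 hr3' hc hl hl' hA hB hD
  refine hb.trans ?_
  rw [div_le_iff₀ hc]
  have hx1 : C * (1 / (M1 : ℝ)) ^ α ≤ θ * c / 3 := by
    have h1 := mul_le_mul_of_nonneg_left hM1b hC.le
    have h2 : C * (θ * c / (3 * C)) = θ * c / 3 := by
      field_simp
    rw [h2] at h1
    exact h1
  have hx2 : C * (1 / (M2 : ℝ)) ^ α ≤ θ * c / 3 := by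
    have h1 := mul_le_mul_of_nonneg_left hM2b hC.le
    have h2 : C * (θ * c / (3 * C)) = θ * c / 3 := by
      field_simp
    rw [h2] at h1
    exact h1
  have hx3 : ((8 * n / (M3 * ((w + 2) * s)) + 1 : ℕ) : ℝ) ^ 2 * (C * (1 / (M3 : ℝ)) ^ α) ≤ θ * c / 3 := by
    have h1 := mul_le_mul_of_nonneg_left hM3b hC.le
    have h2 : C * (θ * c / (3 * C)) = θ * c / 3 := by
      field_simp
    rw [h2] at h1
    refine le_trans ?_ h1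
    have h3 : ((8 * n / (M3 * ((w + 2) * s)) + 1 : ℕ) : ℝ) ^ 2 ≤
        ((448 * M1 * (M2 + 1) * (n₀ + 8) + 1 : ℕ) : ℝ) ^ 2 := by
      have h4 : ((8 * n / (M3 * ((w + 2) * s)) + 1 : ℕ) : ℝ) ≤
        ((448 * M1 * (M2 + 1) * (n₀ + 8) + 1 : ℕ) : ℝ) := Nat.cast_le.2 hN1
      exact pow_le_pow_left₀ (Nat.cast_nonneg _) h4 2
    have h5 : 0 ≤ C * (1 / (M3 : ℝ)) ^ α := by positivity
    have h6 := mul_le_mul_of_nonneg_right h3 h5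
    refine h6.trans (le_of_eq ?_)
    ring
  linarith

theorem sepOut (h1 : OneIn) (h2 : OneLt) : SepOut := by
  classical
  intro ε θ hε hθ w
  obtain ⟨C, α, hC, hα, h1'⟩ := h1 ε hε
  obtain ⟨c, n₀, hc, h2'⟩ := h2 ε hε
  obtain ⟨M1, M2, M3, hM1, hM2, hM3, hbad⟩ := sep_bad hC hα hc hθ w n₀
  have hkpos : 0 < 28 * M1 * (M2 + 1) * M3 * (w + 2) * (n₀ + 8) := by positivity
  refine ⟨28 * M1 * (M2 + 1) * M3 * (w + 2) * (n₀ + 8),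
    (32 * ((28 * M1 * (M2 + 1) * M3 * (w + 2) * (n₀ + 8) : ℕ) : ℝ)) ^ 4 + 1, hkpos, by positivity, ?_⟩
  intro q n hq0 hq1 hRS hkn
  obtain ⟨k, hk⟩ : ∃ k : ℕ, k = 28 * M1 * (M2 + 1) * M3 * (w + 2) * (n₀ + 8) := ⟨_, rfl⟩
  rw [← hk] at hkn hbad hkpos ⊢
  obtain ⟨s, hs⟩ : ∃ s : ℕ, s = n / k := ⟨_, rfl⟩
  rw [← hs]
  obtain ⟨hs1, hn0, hh2, hh, hr1, hR1, hr2, hR2, hr3, hr3', hR3, hRr, hm1, hm2, hρ, hw1, hw2, hw3, hm, hg⟩ :=
    params hM1 hM2 hM3 hk hkn hs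
  obtain ⟨-, hN2⟩ := num_params (w := w) (n₀ := n₀) hM1 hM2 hM3 hk hkn hs
  have hb := hbad q n s hq0 hq1 hkn hs (fun r R hr hrR hRn => h1' q n hq0 hq1 hRS r R hr hrR hRn)
    (h2' q n hq0 hq1 hRS hn0).1 (h2' q n hq0 hq1 hRS hn0).2
  have hfb := four_bad hq0 hq1 (n := n) (h := n / 2) (by omega) (by omega)
    (bd_dep n (n / 2) (M2 * (7 * (M3 * ((w + 2) * s))) + 7 * (M3 * ((w + 2) * s)))
        (M1 * (M2 * (7 * (M3 * ((w + 2) * s))) + 7 * (M3 * ((w + 2) * s)))) (7 * (M3 * ((w + 2) * s)))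
        (M2 * (7 * (M3 * ((w + 2) * s)))) ((w + 2) * s) (M3 * ((w + 2) * s)) (6 * (M3 * ((w + 2) * s)))
        (M3 * ((w + 2) * s)))
  have hp4 : 0 ≤ p4 q (n / 2) := IPC.Pr_nonneg hq0 hq1 _ _
  have hfb2 := hfb.trans (mul_le_mul_of_nonneg_right hb hp4)
  have hsplit := IPC.Pr_split q (bx n) (Four n)
    (Bd n (n / 2) (M2 * (7 * (M3 * ((w + 2) * s))) + 7 * (M3 * ((w + 2) * s)))
        (M1 * (M2 * (7 * (M3 * ((w + 2) * s))) + 7 * (M3 * ((w + 2) * s)))) (7 * (M3 * ((w + 2) * s)))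
        (M2 * (7 * (M3 * ((w + 2) * s)))) ((w + 2) * s) (M3 * ((w + 2) * s)) (6 * (M3 * ((w + 2) * s)))
        (M3 * ((w + 2) * s)))
  -- the union over the grid
  obtain ⟨S, hS⟩ : ∃ S : Finset ((ℕ × ℕ) × (ℕ × ℕ)), S =
      ((Finset.range (32 * k) ×ˢ Finset.range (32 * k)) ×ˢ (Finset.range (32 * k) ×ˢ Finset.range (32 * k))).filter
        (fun j => CycR ![bp n (s * j.1.1), bp n (s * j.2.1)] ![bp n (s * j.1.2), bp n (s * j.2.2)] n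
          (100 * w * (s : ℕ))) := ⟨_, rfl⟩
  have hcard : (S.card : ℝ) ≤ (32 * (k : ℝ)) ^ 4 := by
    have h3 : S.card ≤ (32 * k) ^ 4 := by
      rw [hS]
      refine (Finset.card_filter_le _ _).trans (le_of_eq ?_)
      rw [Finset.card_product, Finset.card_product, Finset.card_range]
      ring
    have h4 : (S.card : ℝ) ≤ (((32 * k) ^ 4 : ℕ) : ℝ) := Nat.cast_le.2 h3
    rw [Nat.cast_pow, Nat.cast_mul] at h4
    exact h4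
  have hun : IPC.Pr q (bx n) (fun ω => Four n ω ∧ ¬ Bd n (n / 2) (M2 * (7 * (M3 * ((w + 2) * s))) + 7 * (M3 * ((w + 2) * s)))
        (M1 * (M2 * (7 * (M3 * ((w + 2) * s))) + 7 * (M3 * ((w + 2) * s)))) (7 * (M3 * ((w + 2) * s)))
        (M2 * (7 * (M3 * ((w + 2) * s)))) ((w + 2) * s) (M3 * ((w + 2) * s)) (6 * (M3 * ((w + 2) * s)))
        (M3 * ((w + 2) * s)) ω) ≤
      ∑ j ∈ S, IPC.Pr q (bx n) (BS ((bx n \ {e0}) \ bxs ![bp n (s * j.1.2), bp n (s * j.2.2)] (w * (s : ℕ)))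
        ((bx n \ {e0}) \ bxs ![bp n (s * j.1.1), bp n (s * j.2.1)] (w * (s : ℕ))) SeP SeD
        ![bp n (s * j.1.1), bp n (s * j.2.1)] ![bp n (s * j.1.2), bp n (s * j.2.2)] (s : ℕ)) := by
    refine le_trans ?_ (IPC.Pr_exists_le hq0 hq1 (bx n) S (fun j =>
      BS ((bx n \ {e0}) \ bxs ![bp n (s * j.1.2), bp n (s * j.2.2)] (w * (s : ℕ)))
        ((bx n \ {e0}) \ bxs ![bp n (s * j.1.1), bp n (s * j.2.1)] (w * (s : ℕ))) SeP SeD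
        ![bp n (s * j.1.1), bp n (s * j.2.1)] ![bp n (s * j.1.2), bp n (s * j.2.2)] (s : ℕ)))
    refine IPC.Pr_mono hq0 hq1 _ ?_
    rintro ω - ⟨hF, hnB⟩
    obtain ⟨j1, j2, j3, j4, ⟨hj1, hj2, hj3, hj4⟩, hcyc, hBS⟩ :=
      state (n := n) (h := n / 2) (by omega) hr1 hR1 hr2 hR2 hr3 hr3' hR3 hRr hm1 hm2 hρ hs1 hw1 hw2 hw3
        (cg n (M3 * ((w + 2) * s))) (fun z hz => cg_near (by omega) hm hz) hF
        (fun h => hnB (Or.inl h)) (fun h => hnB (Or.inr (Or.inl h)))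
        (fun z1 z3 hz1 hz3 h => hnB (Or.inr (Or.inr ⟨z1, z3, hz1, hz3, h⟩)))
    refine ⟨((j1, j2), (j3, j4)), ?_, hBS⟩
    rw [hS, Finset.mem_filter]
    refine ⟨?_, hcyc⟩
    rw [Finset.mem_product, Finset.mem_product, Finset.mem_product, Finset.mem_range, Finset.mem_range,
      Finset.mem_range, Finset.mem_range]
    exact ⟨⟨lt_of_le_of_lt hj1 hN2, lt_of_le_of_lt hj2 hN2⟩, ⟨lt_of_le_of_lt hj3 hN2, lt_of_le_of_lt hj4 hN2⟩⟩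
  have hp4n : p4 q n ≤ θ * p4 q (n / 2) +
      ∑ j ∈ S, IPC.Pr q (bx n) (BS ((bx n \ {e0}) \ bxs ![bp n (s * j.1.2), bp n (s * j.2.2)] (w * (s : ℕ)))
        ((bx n \ {e0}) \ bxs ![bp n (s * j.1.1), bp n (s * j.2.1)] (w * (s : ℕ))) SeP SeD
        ![bp n (s * j.1.1), bp n (s * j.2.1)] ![bp n (s * j.1.2), bp n (s * j.2.2)] (s : ℕ)) := by
    unfold p4 at hfb2 ⊢
    rw [hsplit]
    exact add_le_add hfb2 hun
  have hk4 : (0 : ℝ) ≤ (32 * (k : ℝ)) ^ 4 := by positivity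
  rcases S.eq_empty_or_nonempty with hSe | hSne
  · refine ⟨![bp n 0, bp n (4 * n)], ![bp n (2 * n), bp n (6 * n)], ?_, ?_⟩
    · have hgz : 100 * (w : ℤ) * (s : ℤ) ≤ 2 * (n : ℤ) := by
        have h5 : ((100 * w * s : ℕ) : ℤ) ≤ ((2 * n : ℕ) : ℤ) := Nat.cast_le.2 hg
        rw [Nat.cast_mul, Nat.cast_mul, Nat.cast_mul] at h5
        exact h5
      have hgz0 : 0 ≤ 100 * (w : ℤ) * (s : ℤ) := by positivity
      exact cyc_of (by omega) hgz0 (by linarith) (by linarith) (by linarith) (by linarith)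
    · rw [hSe, Finset.sum_empty, add_zero] at hp4n
      have h6 := IPC.Pr_nonneg hq0 hq1 (bx n) (BS ((bx n \ {e0}) \ bxs ![bp n (2 * n), bp n (6 * n)] (w * (s : ℕ)))
        ((bx n \ {e0}) \ bxs ![bp n 0, bp n (4 * n)] (w * (s : ℕ))) SeP SeD
        ![bp n 0, bp n (4 * n)] ![bp n (2 * n), bp n (6 * n)] (s : ℕ))
      have h7 : 0 ≤ ((32 * (k : ℝ)) ^ 4 + 1) * IPC.Pr q (bx n) (BS ((bx n \ {e0}) \ bxs ![bp n (2 * n), bp n (6 * n)] (w * (s : ℕ)))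
        ((bx n \ {e0}) \ bxs ![bp n 0, bp n (4 * n)] (w * (s : ℕ))) SeP SeD
        ![bp n 0, bp n (4 * n)] ![bp n (2 * n), bp n (6 * n)] (s : ℕ)) := mul_nonneg (by linarith) h6
      linarith
  · obtain ⟨j, hjS, hjmax⟩ := Finset.exists_max_image S (fun j => IPC.Pr q (bx n)
      (BS ((bx n \ {e0}) \ bxs ![bp n (s * j.1.2), bp n (s * j.2.2)] (w * (s : ℕ)))
        ((bx n \ {e0}) \ bxs ![bp n (s * j.1.1), bp n (s * j.2.1)] (w * (s : ℕ))) SeP SeD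
        ![bp n (s * j.1.1), bp n (s * j.2.1)] ![bp n (s * j.1.2), bp n (s * j.2.2)] (s : ℕ))) hSne
    have hcyc : CycR ![bp n (s * j.1.1), bp n (s * j.2.1)] ![bp n (s * j.1.2), bp n (s * j.2.2)] n
          (100 * w * (s : ℕ)) := by
      rw [hS, Finset.mem_filter] at hjS
      exact hjS.2
    refine ⟨_, _, hcyc, ?_⟩
    have h6 := IPC.Pr_nonneg hq0 hq1 (bx n) (BS ((bx n \ {e0}) \ bxs ![bp n (s * j.1.2), bp n (s * j.2.2)] (w * (s : ℕ)))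
        ((bx n \ {e0}) \ bxs ![bp n (s * j.1.1), bp n (s * j.2.1)] (w * (s : ℕ))) SeP SeD
        ![bp n (s * j.1.1), bp n (s * j.2.1)] ![bp n (s * j.1.2), bp n (s * j.2.2)] (s : ℕ))
    have h8 := Finset.sum_le_card_nsmul S _ _ hjmax
    rw [nsmul_eq_mul] at h8
    have h9 := mul_le_mul_of_nonneg_right hcard h6
    have h10 := hp4n.trans (add_le_add le_rfl (h8.trans h9))
    rw [add_mul, one_mul]
    linarith

end FKN
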