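import Pool.Agent.Lib.MP_216314_pr.N.CP
import Pool.Agent.Lib.MP_216314_pr.N.AP
import Pool.Agent.Lib.MP_216314_pr.N.EH

/-!
# Probability of the bad events

`OneIn`: power bound for the one arm probability of an annulus. `OneLt`: the annulus between `n/2` and `n` is crossed with probability `≤ 1 - c`.
`cg n m z`: coarse grid point near the boundary vertex `z`.

* `cg_near`: `exists_bp` gives `t` with `bp n t = z`, `0 ≤ t < 8 n`; `cg n m z = bp n (m * (t / m))`, `0 ≤ t - m * (t / m) < m`, `bp_lip`.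
* `cg_mem`: `cg n m z` is one of the points `bp n (m * j)`, `j ≤ 8 * n / m`.
* `four_bad`: `Four n ω → Four h (ω ∩ bx h)` (`CY.four_anti`, EH; `Four h` depends on `bx h` only), and `X` depends on `an h n = bx n \ bx h` only. `IPC.Pr_indep` (`E₁ = an h n`, `E₂ = bx h`) and `IPC.Pr_mono`.
* `bad_all`: union bound `IPC.Pr_or_le`, `IPC.Pr_exists_le` over pairs `(i, j)` in `range (8 n / m + 1)`²: if there are `z1`, `z3` with `nrm = n` and the dual event for `g = cg n m` then there are `i`, `j`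
  with `g z1 = bp n (m i)`, `g z3 = bp n (m j)` (`cg_mem`). Each term: `bad_dual` (`IPC.Pr_restrict` is not needed: all is on `an h n`), `OneIn`-type bounds are hypotheses here: `b1`, `b2`, `b3` bound the one arm
  probabilities, `l`, `l'` the crossing probabilities.
-/

set_option autoImplicit false

noncomputable section

namespace FKN

open Finset FKI FKP

/-- power bound for the one arm probabilities -/
def OneIn : Prop := ∀ ε : ℝ, 0 < ε → ∃ C α : ℝ, 0 < C ∧ 0 < α ∧ ∀ (q : ℝ) (N : ℕ), 0 ≤ q → q ≤ 1 → RS ε q N →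
  ∀ r R : ℕ, 1 ≤ r → r ≤ R → R ≤ N → p1' q r R ≤ C * ((r : ℝ) / R) ^ α ∧ p1' (1 - q) r R ≤ C * ((r : ℝ) / R) ^ α

/-- the annulus between `n/2` and `n` is crossed with probability at most `1 - c` -/
def OneLt : Prop := ∀ ε : ℝ, 0 < ε → ∃ (c : ℝ) (n₀ : ℕ), 0 < c ∧ ∀ (q : ℝ) (n : ℕ), 0 ≤ q → q ≤ 1 → RS ε q n → n₀ ≤ n →
  p1' q (n / 2) n ≤ 1 - c ∧ p1' (1 - q) (n / 2 + 1) n ≤ 1 - c

open Classical in
/-- coarse grid point near the boundary vertex `z` -/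
def cg (n m : ℕ) (z : V) : V :=
  if h : ∃ t : ℤ, 0 ≤ t ∧ t < 8 * n ∧ bp n t = z then bp n (m * (h.choose / m)) else z

theorem BZa_cg {n : ℕ} (hn : 1 ≤ n) (m : ℕ) {z : V} (hz : nrm z = n) :
    ∃ t : ℤ, 0 ≤ t ∧ t < 8 * n ∧ bp n t = z ∧ cg n m z = bp n (m * (t / m)) := by
  have h : ∃ t : ℤ, 0 ≤ t ∧ t < 8 * n ∧ bp n t = z := exists_bp hn hz
  refine ⟨h.choose, h.choose_spec.1, h.choose_spec.2.1, h.choose_spec.2.2, ?_⟩
  unfold cg
  rw [dif_pos h]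

theorem cg_near {n m : ℕ} (hn : 1 ≤ n) (hm : 1 ≤ m) {z : V} (hz : nrm z = n) : nrm (cg n m z - z) ≤ m := by
  obtain ⟨t, h1, h2, h3, h4⟩ := BZa_cg hn m hz
  rw [h4, ← h3]
  refine (bp_lip hn _ _).trans ?_
  have hm0 : (0 : ℤ) < (m : ℤ) := by exact_mod_cast hm
  have h5 := Int.emod_add_mul_ediv t m
  have h6 := Int.emod_nonneg t (ne_of_gt hm0)
  have h7 := Int.emod_lt_of_pos t hm0
  rw [abs_le]
  constructor
  · linarith
  · linarith

theorem cg_mem {n m : ℕ} (hn : 1 ≤ n) (hm : 1 ≤ m) {z : V} (hz : nrm z = n) :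
    ∃ j : ℕ, j ≤ 8 * n / m ∧ cg n m z = bp n (m * j) := by
  obtain ⟨t, h1, h2, h3, h4⟩ := BZa_cg hn m hz
  obtain ⟨s, hs⟩ : ∃ s : ℕ, (s : ℤ) = t := ⟨t.toNat, Int.toNat_of_nonneg h1⟩
  rw [← hs] at h2 h4
  refine ⟨s / m, Nat.div_le_div_right (by omega), ?_⟩
  rw [h4, Int.natCast_div]

/-- all bad events -/
def Bd (n h r1 R1 r2 R2 r3 R3 ρ m : ℕ) (ω : Finset Edge) : Prop :=
  Bad (an h n) (an h n) (sph h) (sph n) r1 R1 ω ∨ Bad (an h n) (an h n) (sph h) (sph n) r2 R2 ω ∨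
  ∃ z1 z3 : V, nrm z1 = n ∧ nrm z3 = n ∧
    Bad ((an h n).map dl.toEmbedding) ((an h n \ (bl n (cg n m z1) ρ ∪ bl n (cg n m z3) ρ)).map dl.toEmbedding)
      (fsp h) (fsp n) r3 R3 (dc (an h n) ω)

theorem bad_all {q : ℝ} (hq0 : 0 ≤ q) (hq1 : q ≤ 1) {n h r1 R1 r2 R2 r3 R3 ρ m : ℕ} (hm : 1 ≤ m) (hh : h + 1 < n)
    (hr1 : r1 < R1) (hr2 : r2 < R2) (hr3 : r3 < R3) {c b1 b2 b3 : ℝ} (hc : 0 < c)
    (hl : p1' q h n ≤ 1 - c) (hl' : p1' (1 - q) (h + 1) n ≤ 1 - c) (h1 : p1' q r1 R1 ≤ b1) (h2 : p1' q r2 R2 ≤ b2)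
    (h3 : p1' (1 - q) r3 R3 ≤ b3) : IPC.Pr q (an h n) (Bd n h r1 R1 r2 R2 r3 R3 ρ m) ≤
      (b1 + b2 + ((8 * n / m + 1 : ℕ) : ℝ) ^ 2 * b3) / c := by
  have hk := fun (a b l : ℝ) (ha : 0 ≤ a) (hab : a ≤ b) (hlc : l ≤ 1 - c) => (show a / (1 - l) ≤ b / c from by
    have h1l : c ≤ 1 - l := by linarith
    calc a / (1 - l) ≤ a / c := div_le_div_of_nonneg_left ha hc h1l
      _ ≤ b / c := div_le_div_of_nonneg_right hab hc.le)
  have hq0' : 0 ≤ 1 - q := by linarith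
  have hq1' : 1 - q ≤ 1 := by linarith
  have e1 := bad_prim hq0 hq1 (n := n) (h := h) (by omega) hr1 (by linarith)
  have e2 := bad_prim hq0 hq1 (n := n) (h := h) (by omega) hr2 (by linarith)
  have e1' := e1.trans (hk _ _ _ (IPC.Pr_nonneg hq0 hq1 _ _) h1 hl)
  have e2' := e2.trans (hk _ _ _ (IPC.Pr_nonneg hq0 hq1 _ _) h2 hl)
  obtain ⟨D, hD⟩ : ∃ D : ℕ × ℕ → Finset Edge → Prop, D = fun k ω =>
    Bad ((an h n).map dl.toEmbedding) ((an h n \ (bl n (bp n (m * k.1)) ρ ∪ bl n (bp n (m * k.2)) ρ)).map dl.toEmbedding)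
      (fsp h) (fsp n) r3 R3 (dc (an h n) ω) := ⟨_, rfl⟩
  have e3 : ∀ k : ℕ × ℕ, IPC.Pr q (an h n) (D k) ≤ b3 / c := by
    intro k
    rw [hD]
    refine (bad_dual hq0 hq1 hh hr3 (by linarith) Finset.sdiff_subset).trans ?_
    exact hk _ _ _ (IPC.Pr_nonneg hq0' hq1' _ _) h3 hl'
  have e4 : IPC.Pr q (an h n) (Bd n h r1 R1 r2 R2 r3 R3 ρ m) ≤
      IPC.Pr q (an h n) (fun ω => Bad (an h n) (an h n) (sph h) (sph n) r1 R1 ω ∨
        (Bad (an h n) (an h n) (sph h) (sph n) r2 R2 ω ∨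
        ∃ k ∈ (range (8 * n / m + 1) ×ˢ range (8 * n / m + 1)), D k ω)) := by
    refine IPC.Pr_mono hq0 hq1 _ fun ω _ hB => ?_
    rcases hB with hB | hB | ⟨z1, z3, hz1, hz3, hB⟩
    · exact Or.inl hB
    · exact Or.inr (Or.inl hB)
    · right
      right
      obtain ⟨i, hi, gi⟩ := cg_mem (n := n) (by omega) hm hz1
      obtain ⟨j, hj, gj⟩ := cg_mem (n := n) (by omega) hm hz3
      refine ⟨(i, j), ?_, ?_⟩
      · rw [Finset.mem_product, Finset.mem_range, Finset.mem_range]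
        exact ⟨by show i < 8 * n / m + 1; omega, by show j < 8 * n / m + 1; omega⟩
      · rw [hD]
        rw [gi, gj] at hB
        exact hB
  refine e4.trans ((IPC.Pr_or_le hq0 hq1 _ _ _).trans ?_)
  have e5 := IPC.Pr_or_le hq0 hq1 (an h n) (Bad (an h n) (an h n) (sph h) (sph n) r2 R2)
    (fun ω => ∃ k ∈ (range (8 * n / m + 1) ×ˢ range (8 * n / m + 1)), D k ω)
  have e6 := IPC.Pr_exists_le hq0 hq1 (an h n) (range (8 * n / m + 1) ×ˢ range (8 * n / m + 1)) D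
  have e7 : ∑ k ∈ range (8 * n / m + 1) ×ˢ range (8 * n / m + 1), IPC.Pr q (an h n) (D k) ≤
      ((8 * n / m + 1 : ℕ) : ℝ) ^ 2 * (b3 / c) := by
    refine (Finset.sum_le_sum fun k _ => e3 k).trans (le_of_eq ?_)
    rw [Finset.sum_const, Finset.card_product, Finset.card_range, nsmul_eq_mul, Nat.cast_mul, pow_two]
  have e8 : (b1 + b2 + ((8 * n / m + 1 : ℕ) : ℝ) ^ 2 * b3) / c =
      b1 / c + (b2 / c + ((8 * n / m + 1 : ℕ) : ℝ) ^ 2 * (b3 / c)) := by ring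
  rw [e8]
  exact add_le_add e1' (e5.trans (add_le_add e2' (e6.trans e7)))

theorem BZa_conn {F G ω : Finset Edge} (hF : F ⊆ G) (u v : V) : Conn F ω u v ↔ Conn F (ω ∩ G) u v :=
  dep_Conn hF u v ω

theorem BZa_bad {E F G : Finset Edge} (hE : E ⊆ G) (hF : F ⊆ G) (I J : Set V) (r R : ℕ) (ω : Finset Edge) :
    Bad E F I J r R ω ↔ Bad E F I J r R (ω ∩ G) := by
  have h1 : ∀ v, cls F ω v = cls F (ω ∩ G) v := by
    intro v
    ext u
    exact BZa_conn hF v u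
  have h2 : ∀ (K : Set V) (z : V), OffArm E K z r R ω ↔ OffArm E K z r R (ω ∩ G) := by
    intro K z
    unfold OffArm
    have h3 : (E ∩ (bxa z R \ bxa z r)) \ tch E K ⊆ G :=
      (Finset.sdiff_subset.trans Finset.inter_subset_left).trans hE
    constructor
    · rintro ⟨u, w, a1, a2, a3⟩
      exact ⟨u, w, a1, a2, (BZa_conn h3 u w).1 a3⟩
    · rintro ⟨u, w, a1, a2, a3⟩
      exact ⟨u, w, a1, a2, (BZa_conn h3 u w).2 a3⟩
  unfold Bad
  constructor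
  · rintro ⟨v, a1, a2⟩
    refine ⟨v, ?_, ?_⟩
    · rw [← h1]
      exact a1
    · rw [← h1]
      exact (h2 _ _).1 a2
  · rintro ⟨v, a1, a2⟩
    rw [← h1] at a1 a2
    exact ⟨v, a1, (h2 _ _).2 a2⟩

theorem bd_dep (n h r1 R1 r2 R2 r3 R3 ρ m : ℕ) (ω : Finset Edge) :
    Bd n h r1 R1 r2 R2 r3 R3 ρ m ω ↔ Bd n h r1 R1 r2 R2 r3 R3 ρ m (ω ∩ an h n) := by
  have h1 := BZa_bad (Finset.Subset.refl (an h n)) (Finset.Subset.refl (an h n)) (sph h) (sph n) r1 R1 ω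
  have h2 := BZa_bad (Finset.Subset.refl (an h n)) (Finset.Subset.refl (an h n)) (sph h) (sph n) r2 R2 ω
  have h3 : dc (an h n) (ω ∩ an h n) = dc (an h n) ω := by
    unfold dc
    rw [Finset.sdiff_inter_self_right]
  unfold Bd
  rw [← h1, ← h2, h3]

theorem four_bad {q : ℝ} (hq0 : 0 ≤ q) (hq1 : q ≤ 1) {n h : ℕ} (hh : 1 ≤ h) (hn : h ≤ n) {X : Finset Edge → Prop}
    (hX : ∀ ω, X ω ↔ X (ω ∩ an h n)) :
    IPC.Pr q (bx n) (fun ω => Four n ω ∧ X ω) ≤ IPC.Pr q (an h n) X * p4 q h := by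
  have hsub : bx h ⊆ bx n := box_mono (by omega) (by omega) (by omega) (by omega)
  have h4 : ∀ ω, Four h ω ↔ Four h (ω ∩ bx h) := fun ω => CY.EH_dep h ω
  have e1 : IPC.Pr q (bx n) (fun ω => Four n ω ∧ X ω) ≤ IPC.Pr q (bx n) (fun ω => X ω ∧ Four h ω) :=
    IPC.Pr_mono hq0 hq1 _ fun ω _ hω => ⟨hω.2, CY.four_anti hh hn hω.1⟩
  have e2 := IPC.Pr_indep q (E₁ := an h n) (E₂ := bx h) (E := bx n) Finset.sdiff_subset hsub Finset.sdiff_disjoint
    X (Four h) (fun ω _ => hX ω) (fun ω _ => h4 ω)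
  have e3 := IPC.Pr_restrict q (E₁ := an h n) (E := bx n) Finset.sdiff_subset X (fun ω _ => hX ω)
  have e4 := IPC.Pr_restrict q hsub (Four h) (fun ω _ => h4 ω)
  rw [e2, e3, e4] at e1
  exact e1

end FKN
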