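import Pool.Agent.Lib.MP_216314_pr.N.ZI

/-!
# MP_216314_pr: Cardy's constant `√3/4` for the number of crossing clusters of critical bond percolation on the square lattice

Bond percolation on the square lattice with parameter `1/2` in the rectangle `FKG.dst L K`: the edges with both end points in `-L ≤ x + y ≤ 0`, `|x - y| ≤ K`
(the sides on the lines `x + y = 0` and `x + y = -L` have length `√2 K`, the other two have length `L/√2`). A configuration is a set `ω` of open edges; `NX.crs L ω` is the number of the
clusters (connected components of the graph of the open edges) which meet both lines `x + y = 0` and `x + y = -L`, and `NX.EN L K` is its mean over all the subsets `ω` of `FKG.dst L K`.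

The theorem: for even `L` the exact density of crossing clusters `c L` (per unit of `x - y`); for all `L`: `L c(L) → √3/4`, with an error `O(1/L)`; for all the rectangles the mean number of crossing clusters is `2 K c(L)` up to an error
which is bounded uniformly in `L` and `K`; rectangles with ratio `2k : 1` and mesh `1/L`: the mean number divided by `2k` is `√3/4` up to `C (1/k + 1/L)`.
-/

set_option autoImplicit false

theorem Pool.Agent.Results.MP_216314_pr.CrossingClusters.result :
    ∃ (c : ℕ → ℝ) (C : ℝ),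
      (∀ n : ℕ, 1 ≤ n → c (2 * n) =
        3 / 2 * ∏ j ∈ Finset.range n, ((6 * (j : ℝ) + 5) * (6 * j + 7) / ((6 * j + 2) * (6 * j + 4))) -
        ∏ j ∈ Finset.range n, ((6 * (j : ℝ) + 4) * (6 * j + 8) / ((6 * j + 1) * (6 * j + 5)))) ∧
      (∀ L : ℕ, 1 ≤ L → |L * c L - √3 / 4| ≤ C / L) ∧
      (∀ L : ℕ, 1 ≤ L → ∀ K : ℕ, |NX.EN L K - 2 * K * c L| ≤ C) ∧
      (∀ k L : ℕ, 1 ≤ k → 1 ≤ L → |NX.EN L (k * L) / (2 * k) - √3 / 4| ≤ C * (1 / k + 1 / L)) := by
  obtain ⟨c, C, hC, h1, h2, h3⟩ := NX.master
  refine ⟨c, C, fun n hn => ?_, h2, h3, fun k L hk hL => ?_⟩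
  · rw [h1 n hn]
    unfold NX.an NX.bn
    rfl
  · have hk0 : (0 : ℝ) < k := by exact_mod_cast hk
    have hL0 : (0 : ℝ) < L := by exact_mod_cast hL
    have h4 := h3 L hL (k * L)
    have h5 := h2 L hL
    have h6 : NX.EN L (k * L) / (2 * k) - √3 / 4 =
        (NX.EN L (k * L) - 2 * ((k * L : ℕ) : ℝ) * c L) / (2 * k) + (L * c L - √3 / 4) := by
      push_cast
      field_simp
      ring
    rw [h6]
    calc |(NX.EN L (k * L) - 2 * ((k * L : ℕ) : ℝ) * c L) / (2 * k) + (L * c L - √3 / 4)|
        ≤ |(NX.EN L (k * L) - 2 * ((k * L : ℕ) : ℝ) * c L) / (2 * k)| + |L * c L - √3 / 4| := abs_add_le _ _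
      _ ≤ C / (2 * k) + C / L := by
        rw [abs_div, abs_of_pos (by positivity : (0 : ℝ) < 2 * k)]
        gcongr
      _ ≤ C * (1 / k + 1 / L) := by
        have h7 : C / (2 * k) ≤ C / k := by
          rw [div_le_div_iff₀ (by positivity) hk0]
          nlinarith
        have h8 : C * (1 / (k : ℝ) + 1 / L) = C / k + C / L := by ring
        rw [h8]
        linarith
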