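import Pool.Agent.Lib.MP_216314_pr.N.DFin
import Pool.Agent.Lib.MP_216314_pr.N.BFin

/-!
# The inequality from arm separation and gluing
-/

set_option autoImplicit false

namespace FKN

theorem sepIn : SepIn := sepIn_of sepOut_all sepInn_all rswIn dualIn

end FKN
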