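import Pool.Agent.Lib.MP_216314_pr.N.DStA
import Pool.Agent.Lib.MP_216314_pr.N.DCvC

/-!
# Stream D: extension of canonical states and gluing

PROOFS.
`can_out`: `geo_can_out` (`l = 2`) and `ext_rings` with `E = bx (2 n')`, `Fp`, `Fm` the two regions of `CanO 2 {e0} SeP SeD n`; `A = StG SeP (ringT (cO 2 n) (rr 2 n))`, `A'` the same at `n'`. `RN Lo` does not meet `Fm` by the second part of `geo_can_out` and `av_o`. The new regions are contained in those of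
`CanO 2 {e0} SeP SeD n'` (`e0 ∈ bx (n - 5 rr 2 n)`, so `e0 ∉ RN Lo`; `bxs (cO 2 n) (10 rr 2 n) ⊆ bx (n' - 5 rr 2 n')` and it does not contain `e0`). Radii `≤ rr 2 n' = n' / 200 ≤ N`.
`can_inn`: the same with `geo_can_inn` (`n := r`, `n' := r'`) and `E = bx n`.
`can_glue`: `CanO 2 {e0} SeP SeD n` and `CanI 2 r m` depend on disjoint sets of edges (`CanO_region`-type bounds: the first is in `bx (n + 10 rr 2 n + 1)`, the second outside `bx (r - 10 rr 2 r - 2)`), so their probabilities multiply (`pq_indep` of `N/GA.lean`);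
then `ext_rings` with `geo_can_out` from `n` to `n' := r`, `E = bx m`, `Fp` = union of the two open regions, `Fm` = union of the two dual regions, `A η` = both `StG SeP (ringT (cO 2 n) ..) η` and `StG (bdP m) (ringT (cO 2 r) ..) η`, `A' = StG SeP (bdP m)`: the arm from the source goes to the circuit at `cO 2 n i`, by
`link_o` to a point of the circuit at `cO 2 r i`, which is connected (`ring_uniq`) to the point of the outer arm. The same for the dual arms. The extended regions are contained in `bx m \ {e0}`.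
-/

set_option autoImplicit false

noncomputable section

namespace FKN

open Finset FKI FKP

private theorem DExtA_bx (k : ℕ) : bx k = bxa (0 : V) (k : ℤ) := by
  unfold bx bxa
  simp

private theorem DExtA_bxm {k k' : ℕ} (h : k ≤ k') : bx k ⊆ bx k' := by
  have h' : (k : ℤ) ≤ k' := by exact_mod_cast h
  unfold bx
  exact box_mono (by linarith) h' (by linarith) h'

private theorem DExtA_near {k : ℕ} {e : Edge} (he : e ∈ bx k) : nrm (e.1, e.2.1) ≤ k := by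
  rw [DExtA_bx] at he
  have h := bxa_near he
  rwa [sub_zero] at h

private theorem DExtA_of {k : ℕ} {e : Edge} (he : nrm (e.1, e.2.1) ≤ (k : ℤ) - 1) : e ∈ bx k := by
  rw [DExtA_bx]
  exact (bxa_of_near (by rwa [sub_zero])).1

private theorem DExtA_nrm (n : ℕ) (θ : ℝ) : nrm (ptR n θ) = n := by
  have h := ptR_norm (ρ := (n : ℝ)) (θ := θ) (Nat.cast_nonneg n)
  rw [abs_le] at h
  have a : ((nrm (ptR n θ) : ℤ) : ℝ) < ((n : ℤ) : ℝ) + 1 := by
    rw [Int.cast_natCast]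
    linarith [h.2]
  have b : ((n : ℤ) : ℝ) < ((nrm (ptR n θ) : ℤ) : ℝ) + 1 := by
    rw [Int.cast_natCast]
    linarith [h.1]
  have a' : nrm (ptR n θ) < (n : ℤ) + 1 := by exact_mod_cast a
  have b' : (n : ℤ) < nrm (ptR n θ) + 1 := by exact_mod_cast b
  omega

private theorem DExtA_tri {n : ℕ} {a x : V} {w : ℤ} (ha : nrm a = n) (h : nrm (x - a) ≤ w) :
    (n : ℤ) - w ≤ nrm x ∧ nrm x ≤ n + w := by
  have t1 := nrmD_tri (x - a) a
  have t2 := nrmD_tri (a - x) x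
  rw [sub_add_cancel] at t1 t2
  have t3 : nrm (a - x) = nrm (x - a) := by rw [← nrm_neg, neg_sub]
  rw [ha] at t1 t2
  rw [t3] at t2
  constructor
  · linarith
  · linarith

private theorem DExtA_bxs {n : ℕ} {a : Fin 2 → V} (ha : ∀ i, nrm (a i) = n) {w : ℤ} {e : Edge}
    (he : e ∈ bxs a w) : (n : ℤ) - w ≤ nrm (e.1, e.2.1) ∧ nrm (e.1, e.2.1) ≤ n + w := by
  obtain ⟨i, _, hi⟩ := Finset.mem_biUnion.1 he
  exact DExtA_tri (ha i) (bxa_near hi)

private theorem DExtA_ud {n : ℕ} {a : Fin 2 → V} (ha : ∀ i, nrm (a i) = n) {w : ℤ} {e : Edge}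
    (he : e ∈ ud (bxs a w)) :
    (n : ℤ) - (w + 1) ≤ nrm (e.1, e.2.1) ∧ nrm (e.1, e.2.1) ≤ n + (w + 1) := by
  obtain ⟨d, hd, rfl⟩ := Finset.mem_map.1 he
  obtain ⟨i, _, hi⟩ := Finset.mem_biUnion.1 hd
  have h : dl.symm.toEmbedding d ∈ ud (bxa (a i) w) := Finset.mem_map_of_mem _ hi
  exact DExtA_tri (ha i) (ud_bxa_near h)

private theorem DExtA_rr (n : ℕ) : 200 * rr 2 n ≤ n := by
  unfold rr
  exact Nat.mul_div_le n (100 * 2)

private theorem DExtA_rrm {n n' : ℕ} (h : n ≤ n') : rr 2 n ≤ rr 2 n' := by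
  unfold rr
  exact Nat.div_le_div_right h

private theorem DExtA_cO (n : ℕ) (i : Fin 2) : nrm (cO 2 n i) = n := DExtA_nrm n _

private theorem DExtA_cD (n : ℕ) (i : Fin 2) : nrm (cD 2 n i) = n := DExtA_nrm n _

private theorem DExtA_e0 : nrm ((e0 : Edge).1, (e0 : Edge).2.1) = 0 := rfl

private theorem DExtA_e0m {k : ℕ} (hk : 1 ≤ k) : e0 ∈ bx k := by
  refine DExtA_of ?_
  rw [DExtA_e0]
  have : (1 : ℤ) ≤ k := by exact_mod_cast hk
  linarith

/-- position of the end boxes -/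
private theorem DExtA_boxO {n k : ℕ} (hn : 1200 ≤ n) (hk : 2 * n ≤ k) :
    bxs (cO 2 n) (10 * rr 2 n) ⊆ bx k \ {e0} := by
  intro e he
  have h := DExtA_bxs (DExtA_cO n) he
  have hr := DExtA_rr n
  rw [Finset.mem_sdiff, Finset.mem_singleton]
  refine ⟨DExtA_of (by omega), ?_⟩
  rintro rfl
  rw [DExtA_e0] at h
  omega

private theorem DExtA_boxD {n k : ℕ} (hn : 1200 ≤ n) (hk : 2 * n ≤ k) :
    ud (bxs (cD 2 n) (10 * rr 2 n)) ⊆ bx k \ {e0} := by
  intro e he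
  have h := DExtA_ud (DExtA_cD n) he
  have hr := DExtA_rr n
  rw [Finset.mem_sdiff, Finset.mem_singleton]
  refine ⟨DExtA_of (by omega), ?_⟩
  rintro rfl
  rw [DExtA_e0] at h
  omega

/-- the end boxes are far from the centre -/
private theorem DExtA_farO {n k : ℕ} (hn : 1200 ≤ n) (hk : 3 * k ≤ 2 * n) {e : Edge}
    (he : e ∈ bxs (cO 2 n) (10 * rr 2 n)) : e ∉ bx k := by
  intro h1
  have h := DExtA_bxs (DExtA_cO n) he
  have h2 := DExtA_near h1
  have hr := DExtA_rr n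
  omega

private theorem DExtA_farD {n k : ℕ} (hn : 1200 ≤ n) (hk : 3 * k ≤ 2 * n) {e : Edge}
    (he : e ∈ ud (bxs (cD 2 n) (10 * rr 2 n))) : e ∉ bx k := by
  intro h1
  have h := DExtA_ud (DExtA_cD n) he
  have h2 := DExtA_near h1
  have hr := DExtA_rr n
  omega

private theorem DExtA_core {c q : ℝ} {N : ℕ} (hc : 0 < c) (hc1 : c ≤ 1) (h0 : 0 ≤ q) (h1 : q ≤ 1)
    (hRB : RB c q N) {E Fp Fm Fp' Fm' : Finset Edge} {Lp Lm : Finset (V × ℤ)} {M : ℕ}
    (hMp : Lp.card ≤ M) (hMm : Lm.card ≤ M)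
    (hLp : ∀ p ∈ Lp, 1 ≤ p.2 ∧ p.2 ≤ N) (hLm : ∀ p ∈ Lm, 1 ≤ p.2 ∧ p.2 ≤ N)
    (hFp : Fp ⊆ E) (hFm : Fm ⊆ E) (hNp : RN Lp ⊆ E) (hNm : ud (RN Lm) ⊆ E)
    (d1 : Disjoint (RN Lp) Fm) (d2 : Disjoint (ud (RN Lm)) Fp) (d3 : Disjoint (RN Lp) (ud (RN Lm)))
    {A D : Finset Edge → Prop} (iA : Inc A) (iD : Inc D)
    {Sp Tp Sm Tm : Finset Edge → (Fin 2 → V) → Prop}
    (hSp : IncS Sp) (hTp : IncS Tp) (hSm : IncS Sm) (hTm : IncS Tm)
    (hA : ∀ η, A η → Rings Lp η → StG Sp Tp η) (hD : ∀ η, D η → Rings Lm η → StG Sm Tm η)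
    (hp1 : Fp ⊆ Fp') (hp2 : RN Lp ⊆ Fp') (hm1 : Fm ⊆ Fm') (hm2 : ud (RN Lm) ⊆ Fm') :
    IPC.Pr q E (fun ω => A (ω ∩ Fp) ∧ D (dc Fm ω)) ≤
      (c ^ (8 * M))⁻¹ * IPC.Pr q E (StE Fp' Fm' Sp Tp Sm Tm) := by
  have e1 := ext_rings hc hc1 h0 h1 hRB hMp hMm hLp hLm hFp hFm hNp hNm d1 d2 d3 iA iD
    (StG_inc hSp hTp) (StG_inc hSm hTm) hA hD
  have e2 : IPC.Pr q E (StE (Fp ∪ RN Lp) (Fm ∪ ud (RN Lm)) Sp Tp Sm Tm) ≤
      IPC.Pr q E (StE Fp' Fm' Sp Tp Sm Tm) :=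
    pr_StE_mono h0 h1 hSp hTp hSm hTm (Finset.union_subset hp1 hp2) (Finset.union_subset hm1 hm2)
  have hpos : 0 < c ^ (8 * M) := pow_pos hc _
  rw [le_inv_mul_iff₀ hpos, mul_comm]
  exact e1.trans e2

private theorem DExtA_linkO {n n' M : ℕ} {Lo Ld : Finset (V × ℤ)} (hG : GeoCan 2 M n n' Lo Ld)
    {Sg : Finset Edge → (Fin 2 → V) → Prop} {η : Finset Edge}
    (h : StG Sg (ringT (cO 2 n) (rr 2 n)) η) (hR : Rings Lo η) :
    StG Sg (ringT (cO 2 n') (rr 2 n')) η := by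
  obtain ⟨s, v, hs, hv, hr⟩ := h
  choose v' hv' using fun i => hG.link_o η i (v i) hR (hv i)
  exact ⟨s, v', hs, fun i => (hv' i).1, fun i => (hr i).trans (hv' i).2⟩

private theorem DExtA_linkD {n n' M : ℕ} {Lo Ld : Finset (V × ℤ)} (hG : GeoCan 2 M n n' Lo Ld)
    {Sg : Finset Edge → (Fin 2 → V) → Prop} {η : Finset Edge}
    (h : StG Sg (ringT (cD 2 n) (rr 2 n)) η) (hR : Rings Ld η) :
    StG Sg (ringT (cD 2 n') (rr 2 n')) η := by
  obtain ⟨s, v, hs, hv, hr⟩ := h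
  choose v' hv' using fun i => hG.link_d η i (v i) hR (hv i)
  exact ⟨s, v', hs, fun i => (hv' i).1, fun i => (hr i).trans (hv' i).2⟩

/-- gluing of two families of arms at the circuits -/
private theorem DExtA_join {a : Fin 2 → V} {r : ℤ} (hr : 0 ≤ r)
    {Sg Tg : Finset Edge → (Fin 2 → V) → Prop} {η : Finset Edge}
    (h : StG Sg (ringT a r) η) (h' : StG Tg (ringT a r) η) : StG Sg Tg η := by
  obtain ⟨s, v, hs, hv, hc⟩ := h
  obtain ⟨s', v', hs', hv', hc'⟩ := h'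
  exact ⟨s, s', hs, hs', fun i =>
    ((hc i).trans (ring_uniq hr (hv i) (hv' i))).trans (hc' i).symm⟩

private theorem DExtA_dc {F F' ω : Finset Edge} (h : F ⊆ F') : dc F ω ⊆ dc F' ω := by
  unfold dc
  exact Finset.map_subset_map.2 (Finset.sdiff_subset_sdiff h (Finset.Subset.refl _))

/-- universal extension, outwards -/
theorem can_out {c : ℝ} (hc : 0 < c) (hc1 : c ≤ 1) (κ : ℕ) : ∃ C : ℝ, 0 < C ∧ ∀ (q : ℝ) (n n' N : ℕ), 0 ≤ q → q ≤ 1 → RB c q N →
    n' ≤ 100 * N → 1200 ≤ n → 3 * n ≤ n' → n' ≤ κ * n → wO q n ≤ C * wO q n' := by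
  obtain ⟨M, hM⟩ := geo_can_out (l := 2) (by norm_num) κ
  refine ⟨(c ^ (8 * M))⁻¹, inv_pos.2 (pow_pos hc _), ?_⟩
  intro q n n' N h0 h1 hRB hN hn h3 hκ
  obtain ⟨Lo, Ld, hG, g1, g2, g3, g4, g5, g6⟩ := hM n n' (by omega) h3 hκ
  have hr := DExtA_rr n
  have hr' := DExtA_rr n'
  have hmax : max n n' = n' := max_eq_right (by omega)
  have hrN : rr 2 n' ≤ N := by omega
  have hrN' : ((rr 2 n' : ℕ) : ℤ) ≤ N := by exact_mod_cast hrN
  have hLo : ∀ p ∈ Lo, 1 ≤ p.2 ∧ p.2 ≤ (N : ℤ) := by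
    intro p hp
    have h := hG.rad_o p hp
    rw [hmax] at h
    exact ⟨h.1, h.2.trans hrN'⟩
  have hLd : ∀ p ∈ Ld, 1 ≤ p.2 ∧ p.2 ≤ (N : ℤ) := by
    intro p hp
    have h := hG.rad_d p hp
    rw [hmax] at h
    exact ⟨h.1, h.2.trans hrN'⟩
  have hX : ({e0} : Finset Edge) ⊆ bx n := Finset.singleton_subset_iff.2 (DExtA_e0m (by omega))
  have hreg := CanO_region (l := 2) (by norm_num) {e0} n hX
  have hreg' : ((bx (n - 5 * rr 2 n) \ {e0}) ∪ bxs (cO 2 n) (10 * rr 2 n)) ∪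
      ((bx (n - 5 * rr 2 n) \ {e0}) ∪ ud (bxs (cD 2 n) (10 * rr 2 n))) ⊆ bx (2 * n') :=
    hreg.trans (DExtA_bxm (by omega))
  have e1 : wO q n = IPC.Pr q (bx (2 * n')) (CanO 2 {e0} SeP SeD n) :=
    pr_StE q SeP (ringT (cO 2 n) (rr 2 n)) SeD (ringT (cD 2 n) (rr 2 n)) hreg hreg'
  have hcore : bx (n - 5 * rr 2 n) \ {e0} ⊆ bx (n' - 5 * rr 2 n') \ {e0} :=
    Finset.sdiff_subset_sdiff (DExtA_bxm (by omega)) (Finset.Subset.refl _)
  have he0 : e0 ∈ bx (n - 5 * rr 2 n) := DExtA_e0m (by omega)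
  have hE : bx (n' + 5 * rr 2 n') ⊆ bx (2 * n') := DExtA_bxm (by omega)
  rw [e1]
  refine DExtA_core hc hc1 h0 h1 hRB hG.card_o hG.card_d hLo hLd
    (Finset.union_subset_left hreg') (Finset.union_subset_right hreg') (g5.trans hE) (g6.trans hE)
    ?_ ?_ hG.disj (StG_inc SeP_inc (ringT_inc _ _)) (StG_inc SeD_inc (ringT_inc _ _))
    SeP_inc (ringT_inc _ _) SeD_inc (ringT_inc _ _)
    (fun η h hR => DExtA_linkO hG h hR) (fun η h hR => DExtA_linkD hG h hR) ?_ ?_ ?_ ?_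
  · exact Finset.disjoint_union_right.2
      ⟨Finset.disjoint_of_subset_right Finset.sdiff_subset g1, hG.av_o⟩
  · exact Finset.disjoint_union_right.2
      ⟨Finset.disjoint_of_subset_right Finset.sdiff_subset g2, hG.av_d⟩
  · refine Finset.union_subset (hcore.trans Finset.subset_union_left) ?_
    exact (DExtA_boxO hn (by omega)).trans Finset.subset_union_left
  · intro e he
    have hne : e ≠ e0 := by
      rintro rfl
      exact Finset.disjoint_left.1 g1 he he0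
    rcases Finset.mem_union.1 (g3 he) with h | h
    · exact Finset.mem_union_left _ (Finset.mem_sdiff.2 ⟨h, fun h2 => hne (Finset.mem_singleton.1 h2)⟩)
    · exact Finset.mem_union_right _ h
  · refine Finset.union_subset (hcore.trans Finset.subset_union_left) ?_
    exact (DExtA_boxD hn (by omega)).trans Finset.subset_union_left
  · intro e he
    have hne : e ≠ e0 := by
      rintro rfl
      exact Finset.disjoint_left.1 g2 he he0
    rcases Finset.mem_union.1 (g4 he) with h | h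
    · exact Finset.mem_union_left _ (Finset.mem_sdiff.2 ⟨h, fun h2 => hne (Finset.mem_singleton.1 h2)⟩)
    · exact Finset.mem_union_right _ h

/-- universal extension, inwards -/
theorem can_inn {c : ℝ} (hc : 0 < c) (hc1 : c ≤ 1) (κ : ℕ) : ∃ C : ℝ, 0 < C ∧ ∀ (q : ℝ) (r r' n N : ℕ), 0 ≤ q → q ≤ 1 → RB c q N →
    r ≤ 100 * N → 1200 ≤ r' → 3 * r' ≤ r → r ≤ κ * r' → 2 * r ≤ n → wI q r n ≤ C * wI q r' n := by
  obtain ⟨M, hM⟩ := geo_can_inn (l := 2) (by norm_num) κ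
  refine ⟨(c ^ (8 * M))⁻¹, inv_pos.2 (pow_pos hc _), ?_⟩
  intro q r r' n N h0 h1 hRB hN hr0 h3 hκ hn
  obtain ⟨Lo, Ld, hG, g1, g2, g3, g4⟩ := hM r r' (by omega) h3 hκ
  have hr := DExtA_rr r
  have hr' := DExtA_rr r'
  have hrm := DExtA_rrm (n := r') (n' := r) (by omega)
  have hmax : max r r' = r := max_eq_left (by omega)
  have hrN : rr 2 r ≤ N := by omega
  have hrN' : ((rr 2 r : ℕ) : ℤ) ≤ N := by exact_mod_cast hrN
  have hLo : ∀ p ∈ Lo, 1 ≤ p.2 ∧ p.2 ≤ (N : ℤ) := by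
    intro p hp
    have h := hG.rad_o p hp
    rw [hmax] at h
    exact ⟨h.1, h.2.trans hrN'⟩
  have hLd : ∀ p ∈ Ld, 1 ≤ p.2 ∧ p.2 ≤ (N : ℤ) := by
    intro p hp
    have h := hG.rad_d p hp
    rw [hmax] at h
    exact ⟨h.1, h.2.trans hrN'⟩
  have hreg := CanI_region (l := 2) (r := r) (n := n) (by norm_num) hn
  have hE : bx (r + 5 * rr 2 r) ⊆ bx n := DExtA_bxm (by omega)
  have han : an (r + 5 * rr 2 r) n ⊆ an (r' + 5 * rr 2 r') n :=
    Finset.sdiff_subset_sdiff (Finset.Subset.refl _) (DExtA_bxm (by omega))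
  have hdan : ∀ {F : Finset Edge}, F ⊆ bx (r + 5 * rr 2 r) → Disjoint F (an (r + 5 * rr 2 r) n) := by
    intro F hF
    rw [Finset.disjoint_left]
    intro e h2 h3
    exact (Finset.mem_sdiff.1 h3).2 (hF h2)
  unfold wI
  refine DExtA_core hc hc1 h0 h1 hRB hG.card_o hG.card_d hLo hLd
    (Finset.union_subset_left hreg) (Finset.union_subset_right hreg) (g1.trans hE) (g2.trans hE)
    ?_ ?_ hG.disj (StG_inc (bdP_inc _) (ringT_inc _ _)) (StG_inc (bdD_inc _) (ringT_inc _ _))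
    (bdP_inc _) (ringT_inc _ _) (bdD_inc _) (ringT_inc _ _)
    (fun η h hR => DExtA_linkO hG h hR) (fun η h hR => DExtA_linkD hG h hR) ?_ ?_ ?_ ?_
  · exact Finset.disjoint_union_right.2 ⟨hdan g1, hG.av_o⟩
  · exact Finset.disjoint_union_right.2 ⟨hdan g2, hG.av_d⟩
  · refine Finset.union_subset (han.trans Finset.subset_union_left) ?_
    intro e he
    refine Finset.mem_union_left _ (Finset.mem_sdiff.2 ⟨?_, ?_⟩)
    · exact hreg (Finset.mem_union_left _ (Finset.mem_union_right _ he))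
    · exact DExtA_farO (by omega) (by omega) he
  · intro e he
    rcases g3 e he with h | h
    · exact Finset.mem_union_left _ (Finset.mem_sdiff.2 ⟨hE (g1 he), h⟩)
    · exact Finset.mem_union_right _ h
  · refine Finset.union_subset (han.trans Finset.subset_union_left) ?_
    intro e he
    refine Finset.mem_union_left _ (Finset.mem_sdiff.2 ⟨?_, ?_⟩)
    · exact hreg (Finset.mem_union_right _ (Finset.mem_union_right _ he))
    · exact DExtA_farD (by omega) (by omega) he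
  · intro e he
    rcases g4 e he with h | h
    · exact Finset.mem_union_left _ (Finset.mem_sdiff.2 ⟨hE (g2 he), h⟩)
    · exact Finset.mem_union_right _ h

/-- gluing of an outer canonical state at scale `n` and an inner canonical state at scale `r` -/
theorem can_glue {c : ℝ} (hc : 0 < c) (hc1 : c ≤ 1) (κ : ℕ) : ∃ C : ℝ, 0 < C ∧ ∀ (q : ℝ) (n r m N : ℕ), 0 ≤ q → q ≤ 1 → RB c q N →
    r ≤ 100 * N → 1200 ≤ n → 3 * n ≤ r → r ≤ κ * n → 2 * r ≤ m →
    wO q n * wI q r m ≤ C * IPC.Pr q (bx m) (StE (bx m \ {e0}) (bx m \ {e0}) SeP (bdP m) SeD (bdD m)) := by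
  obtain ⟨M, hM⟩ := geo_can_out (l := 2) (by norm_num) κ
  refine ⟨(c ^ (8 * M))⁻¹, inv_pos.2 (pow_pos hc _), ?_⟩
  intro q n r m N h0 h1 hRB hN hn h3 hκ hm
  obtain ⟨Lo, Ld, hG, g1, g2, g3, g4, g5, g6⟩ := hM n r (by omega) h3 hκ
  have hr := DExtA_rr n
  have hr' := DExtA_rr r
  have hmax : max n r = r := max_eq_right (by omega)
  have hrN : rr 2 r ≤ N := by omega
  have hrN' : ((rr 2 r : ℕ) : ℤ) ≤ N := by exact_mod_cast hrN
  have hLo : ∀ p ∈ Lo, 1 ≤ p.2 ∧ p.2 ≤ (N : ℤ) := by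
    intro p hp
    have h := hG.rad_o p hp
    rw [hmax] at h
    exact ⟨h.1, h.2.trans hrN'⟩
  have hLd : ∀ p ∈ Ld, 1 ≤ p.2 ∧ p.2 ≤ (N : ℤ) := by
    intro p hp
    have h := hG.rad_d p hp
    rw [hmax] at h
    exact ⟨h.1, h.2.trans hrN'⟩
  have hX : ({e0} : Finset Edge) ⊆ bx n := Finset.singleton_subset_iff.2 (DExtA_e0m (by omega))
  have hregO := CanO_region (l := 2) (by norm_num) {e0} n hX
  have hregI := CanI_region (l := 2) (r := r) (n := m) (by norm_num) hm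
  have h2n : bx (2 * n) ⊆ bx m := DExtA_bxm (by omega)
  obtain ⟨FpO, hFpO⟩ : ∃ F, F = (bx (n - 5 * rr 2 n) \ {e0}) ∪ bxs (cO 2 n) (10 * rr 2 n) := ⟨_, rfl⟩
  obtain ⟨FmO, hFmO⟩ : ∃ F, F = (bx (n - 5 * rr 2 n) \ {e0}) ∪ ud (bxs (cD 2 n) (10 * rr 2 n)) :=
    ⟨_, rfl⟩
  obtain ⟨FpI, hFpI⟩ : ∃ F, F = an (r + 5 * rr 2 r) m ∪ bxs (cO 2 r) (10 * rr 2 r) := ⟨_, rfl⟩
  obtain ⟨FmI, hFmI⟩ : ∃ F, F = an (r + 5 * rr 2 r) m ∪ ud (bxs (cD 2 r) (10 * rr 2 r)) := ⟨_, rfl⟩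
  rw [← hFpO, ← hFmO] at hregO
  rw [← hFpI, ← hFmI] at hregI
  have hregO' : FpO ∪ FmO ⊆ bx m := hregO.trans h2n
  have e1 : wO q n = IPC.Pr q (bx m) (StE FpO FmO SeP (ringT (cO 2 n) (rr 2 n)) SeD
      (ringT (cD 2 n) (rr 2 n))) := by
    have h := pr_StE q SeP (ringT (cO 2 n) (rr 2 n)) SeD (ringT (cD 2 n) (rr 2 n)) hregO hregO'
    rw [← h, hFpO, hFmO]
    rfl
  have e2 : wI q r m = IPC.Pr q (bx m) (StE FpI FmI (bdP m) (ringT (cO 2 r) (rr 2 r)) (bdD m)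
      (ringT (cD 2 r) (rr 2 r))) := by
    rw [hFpI, hFmI]
    rfl
  have hsep : ∀ e ∈ bx (2 * n), e ∉ FpI ∪ FmI := by
    intro e he h
    have hbig : e ∈ bx (r + 5 * rr 2 r) := DExtA_bxm (by omega) he
    rw [hFpI, hFmI] at h
    rcases Finset.mem_union.1 h with h | h
    · rcases Finset.mem_union.1 h with h | h
      · exact (Finset.mem_sdiff.1 h).2 hbig
      · exact DExtA_farO (by omega) (by omega) h he
    · rcases Finset.mem_union.1 h with h | h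
      · exact (Finset.mem_sdiff.1 h).2 hbig
      · exact DExtA_farD (by omega) (by omega) h he
  have hdisj : Disjoint (FpO ∪ FmO) (FpI ∪ FmI) := by
    rw [Finset.disjoint_left]
    intro e he
    exact hsep e (hregO he)
  have e3 := pq_indep q hregO' hregI hdisj
    (StE_dep FpO FmO SeP (ringT (cO 2 n) (rr 2 n)) SeD (ringT (cD 2 n) (rr 2 n)))
    (StE_dep FpI FmI (bdP m) (ringT (cO 2 r) (rr 2 r)) (bdD m) (ringT (cD 2 r) (rr 2 r)))
  rw [e1, e2, ← e3]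
  obtain ⟨A, hAd⟩ : ∃ A : Finset Edge → Prop, A = fun η =>
    StG SeP (ringT (cO 2 n) (rr 2 n)) η ∧ StG (bdP m) (ringT (cO 2 r) (rr 2 r)) η := ⟨_, rfl⟩
  obtain ⟨D, hDd⟩ : ∃ D : Finset Edge → Prop, D = fun η =>
    StG SeD (ringT (cD 2 n) (rr 2 n)) η ∧ StG (bdD m) (ringT (cD 2 r) (rr 2 r)) η := ⟨_, rfl⟩
  have iO := StG_inc SeP_inc (ringT_inc (cO 2 n) (rr 2 n))
  have iO' := StG_inc (bdP_inc (l := 2) m) (ringT_inc (cO 2 r) (rr 2 r))
  have iD := StG_inc SeD_inc (ringT_inc (cD 2 n) (rr 2 n))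
  have iD' := StG_inc (bdD_inc (l := 2) m) (ringT_inc (cD 2 r) (rr 2 r))
  have iA : Inc A := by
    intro ω ω' h2 h4
    rw [hAd] at h4 ⊢
    exact ⟨iO _ _ h2 h4.1, iO' _ _ h2 h4.2⟩
  have iDD : Inc D := by
    intro ω ω' h2 h4
    rw [hDd] at h4 ⊢
    exact ⟨iD _ _ h2 h4.1, iD' _ _ h2 h4.2⟩
  have e4 : IPC.Pr q (bx m) (fun ω => StE FpO FmO SeP (ringT (cO 2 n) (rr 2 n)) SeD
      (ringT (cD 2 n) (rr 2 n)) ω ∧ StE FpI FmI (bdP m) (ringT (cO 2 r) (rr 2 r)) (bdD m)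
      (ringT (cD 2 r) (rr 2 r)) ω) ≤
      IPC.Pr q (bx m) (fun ω => A (ω ∩ (FpO ∪ FpI)) ∧ D (dc (FmO ∪ FmI) ω)) := by
    refine pq_mono h0 h1 fun ω _ h => ?_
    rw [hAd, hDd]
    refine ⟨⟨iO _ _ ?_ h.1.1, iO' _ _ ?_ h.2.1⟩, ⟨iD _ _ ?_ h.1.2, iD' _ _ ?_ h.2.2⟩⟩
    · exact Finset.inter_subset_inter (Finset.Subset.refl _) Finset.subset_union_left
    · exact Finset.inter_subset_inter (Finset.Subset.refl _) Finset.subset_union_right
    · exact DExtA_dc Finset.subset_union_left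
    · exact DExtA_dc Finset.subset_union_right
  have he0 : e0 ∈ bx (n - 5 * rr 2 n) := DExtA_e0m (by omega)
  have he0' : e0 ∈ bx (2 * n) := DExtA_e0m (by omega)
  have he0I : e0 ∉ FpI ∪ FmI := hsep e0 he0'
  have hE : bx (r + 5 * rr 2 r) ⊆ bx m := DExtA_bxm (by omega)
  have hdan : ∀ {F : Finset Edge}, F ⊆ bx (r + 5 * rr 2 r) → Disjoint F (an (r + 5 * rr 2 r) m) := by
    intro F hF
    rw [Finset.disjoint_left]
    intro e h2 h4
    exact (Finset.mem_sdiff.1 h4).2 (hF h2)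
  have hsub : ∀ {F : Finset Edge}, F ⊆ bx m → e0 ∉ F → F ⊆ bx m \ {e0} := by
    intro F hF h2 e he
    rw [Finset.mem_sdiff, Finset.mem_singleton]
    refine ⟨hF he, ?_⟩
    rintro rfl
    exact h2 he
  have hcO : FpO ⊆ bx m \ {e0} := by
    rw [hFpO]
    refine Finset.union_subset ?_ (DExtA_boxO hn (by omega))
    exact Finset.sdiff_subset_sdiff (DExtA_bxm (by omega)) (Finset.Subset.refl _)
  have hcD : FmO ⊆ bx m \ {e0} := by
    rw [hFmO]
    refine Finset.union_subset ?_ (DExtA_boxD hn (by omega))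
    exact Finset.sdiff_subset_sdiff (DExtA_bxm (by omega)) (Finset.Subset.refl _)
  refine e4.trans ?_
  refine DExtA_core hc hc1 h0 h1 hRB hG.card_o hG.card_d hLo hLd
    (Finset.union_subset (Finset.union_subset_left hregO') (Finset.union_subset_left hregI))
    (Finset.union_subset (Finset.union_subset_right hregO') (Finset.union_subset_right hregI))
    (g5.trans hE) (g6.trans hE) ?_ ?_ hG.disj iA iDD
    SeP_inc (bdP_inc _) SeD_inc (bdD_inc _) ?_ ?_ ?_ ?_ ?_ ?_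
  · refine Finset.disjoint_union_right.2 ⟨?_, ?_⟩
    · rw [hFmO]
      exact Finset.disjoint_union_right.2
        ⟨Finset.disjoint_of_subset_right Finset.sdiff_subset g1, hG.av_o⟩
    · rw [hFmI]
      exact Finset.disjoint_union_right.2 ⟨hdan g5, hG.av_o'⟩
  · refine Finset.disjoint_union_right.2 ⟨?_, ?_⟩
    · rw [hFpO]
      exact Finset.disjoint_union_right.2
        ⟨Finset.disjoint_of_subset_right Finset.sdiff_subset g2, hG.av_d⟩
    · rw [hFpI]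
      exact Finset.disjoint_union_right.2 ⟨hdan g6, hG.av_d'⟩
  · intro η h hR
    rw [hAd] at h
    exact DExtA_join (Nat.cast_nonneg _) (DExtA_linkO hG h.1 hR) h.2
  · intro η h hR
    rw [hDd] at h
    exact DExtA_join (Nat.cast_nonneg _) (DExtA_linkD hG h.1 hR) h.2
  · refine Finset.union_subset hcO (hsub (Finset.union_subset_left hregI) fun h => he0I ?_)
    exact Finset.mem_union_left _ h
  · exact hsub (g5.trans hE) fun h => Finset.disjoint_left.1 g1 h he0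
  · refine Finset.union_subset hcD (hsub (Finset.union_subset_right hregI) fun h => he0I ?_)
    exact Finset.mem_union_right _ h
  · exact hsub (g6.trans hE) fun h => Finset.disjoint_left.1 g2 h he0

end FKN
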