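import Pool.Agent.Lib.MP_216314_pr.N.DRec

/-!
# Stream D: gluing in the plane

PROOF of `p4_ext` (`p4 q r ≤ C p4 q n` for `r ≤ n ≤ κ r`). `c` from `rb_of_rs`, `C1` from `rec_out`, `A` the constant of `can_out hc hc1 (4 κ)`, `c0` from `p4_base ε (400 κ + 1)`. If `r < 400`: `n ≤ 400 κ`, `p4 q r ≤ 1 ≤ (1 / c0) p4 q n`. If `400 ≤ r`: `RS ε q r` (`RS_mono`), `p4 q r ≤ C1 wO q (3 r)`, `can_out` from `3 r` to `12 n`, `N = n`
(`12 n ≤ 100 n`, `3 (3 r) ≤ 12 n`, `12 n ≤ 4 κ (3 r)`), `wO q (12 n) ≤ p4 q n` (`wO_le_p4`).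
PROOF of `glu` (`p4 q r * p4' q (30 r) n ≤ C p4 q n` for `30 r ≤ n`). Let `k` be from `rec_inn`, `r0 = max k 400`. Three cases.
(a) `n < 240 (r + r0)`: if `r ≥ r0` then `n ≤ 480 r`: `p4_ext` with `κ = 480`, `p4' ≤ 1`; if `r < r0` then `n < 480 r0`: `p4_base`.
(b) `n ≥ 240 (r + r0)`, `r ≥ r0`: `p4 q r ≤ C1 wO q (3 r)`, `p4' q (30 r) n ≤ C2 wI q (10 r) n` (`30 r / 3 = 10 r`, `k ≤ 30 r`, `8 * 30 r ≤ n`), `can_glue` with `κ = 10`, `n := 3 r`, `r := 10 r`, `m := n`, `N := n` (`1200 ≤ 3 r`, `3 (3 r) ≤ 10 r ≤ 10 (3 r)`, `2 (10 r) ≤ n`), and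
`four_of_arms`: the probability of the arms is at most `p4 q n`.
(c) `n ≥ 240 (r + r0)`, `r < r0`: `p4 q r ≤ 1 ≤ (1 / c0) wO q (3 r0)` (`wO_base ε (3 r0)`; `RS ε q 1` from `RS ε q n`), `p4' q (30 r) n ≤ p4' q (30 r0) n` (`p4'_mono`, `30 r ≤ 30 r0 ≤ n`) and then as in (b) with `r0` in place of `r`.
-/

set_option autoImplicit false

noncomputable section

namespace FKN

open Finset FKI FKP

private theorem DGlu_RS {ε q : ℝ} {N N' : ℕ} (h : N' ≤ N) (hR : RS ε q N) : RS ε q N' :=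
  fun n h1 h2 => hR n h1 (h2.trans h)

private theorem DGlu_one_le {c x y : ℝ} (hc : 0 < c) (hx : x ≤ 1) (hy : c ≤ y) : x ≤ (1 / c) * y := by
  refine hx.trans ?_
  rw [one_div, ← div_eq_inv_mul, le_div_iff₀ hc, one_mul]
  exact hy


theorem p4_ext (hS : SepOut) (hR : RswIn) (hD : DualIn) (κ : ℕ) : ∀ ε : ℝ, 0 < ε → ∃ C : ℝ, 0 < C ∧ ∀ (q : ℝ) (r n : ℕ), 0 ≤ q → q ≤ 1 →
    RS ε q n → 1 ≤ r → r ≤ n → n ≤ κ * r → p4 q r ≤ C * p4 q n := by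
  intro ε hε
  obtain ⟨c, hc, hc1, hrb⟩ := rb_of_rs hR hD ε hε
  obtain ⟨C1, hC1, hrec⟩ := rec_out hS hR hD ε hε
  obtain ⟨A, hA, hcan⟩ := can_out hc hc1 (4 * κ)
  obtain ⟨c0, hc0, hbase⟩ := p4_base ε hε (400 * κ + 1)
  have pc0 : 0 < 1 / c0 := one_div_pos.2 hc0
  have pCA : 0 < C1 * A := mul_pos hC1 hA
  refine ⟨C1 * A + 1 / c0, add_pos pCA pc0, ?_⟩
  intro q r n h0 h1 hRS hr hrn hn
  obtain ⟨hn0, hn1⟩ := p4_nonneg h0 h1 n
  obtain ⟨hr0, hr1⟩ := p4_nonneg h0 h1 r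
  by_cases h4 : r < 400
  · have h5 : n ≤ 400 * κ + 1 := by
      have : κ * r ≤ κ * 400 := Nat.mul_le_mul_left κ h4.le
      omega
    have h6 := hbase q n h0 h1 (DGlu_RS (by omega) hRS) (by omega) h5
    have h7 := DGlu_one_le hc0 hr1 h6
    have h8 : 0 ≤ C1 * A * p4 q n := mul_nonneg pCA.le hn0
    rw [add_mul]
    linarith
  · have h5 := hrec q r h0 h1 (DGlu_RS hrn hRS) hr
    have h9 : 12 * n ≤ 4 * κ * (3 * r) := by
      have : 4 * κ * (3 * r) = 12 * (κ * r) := by ring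
      omega
    have h6 := hcan q (3 * r) (12 * n) n h0 h1 (hrb q n h0 h1 hRS) (by omega) (by omega) (by omega) h9
    have h7 : wO q (12 * n) ≤ p4 q n := wO_le_p4 h0 h1 (by omega) (by omega)
    have h8 : 0 ≤ (1 / c0) * p4 q n := mul_nonneg pc0.le hn0
    have h10 : C1 * wO q (3 * r) ≤ C1 * (A * p4 q n) :=
      mul_le_mul_of_nonneg_left (h6.trans (mul_le_mul_of_nonneg_left h7 hA.le)) hC1.le
    rw [add_mul, mul_assoc]
    linarith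

theorem glu (hS : SepOut) (hS' : SepInn) (hR : RswIn) (hD : DualIn) : ∀ ε : ℝ, 0 < ε → ∃ C : ℝ, 0 < C ∧ ∀ (q : ℝ) (r n : ℕ),
    0 ≤ q → q ≤ 1 → RS ε q n → 1 ≤ r → 30 * r ≤ n → p4 q r * p4' q (30 * r) n ≤ C * p4 q n := by
  intro ε hε
  obtain ⟨c, hc, hc1, hrb⟩ := rb_of_rs hR hD ε hε
  obtain ⟨C1, hC1, hrec⟩ := rec_out hS hR hD ε hε
  obtain ⟨k, C2, hC2, hinn⟩ := rec_inn hS' hR hD ε hε
  obtain ⟨C3, hC3, hglue⟩ := can_glue hc hc1 10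
  obtain ⟨C4, hC4, hext⟩ := p4_ext hS hR hD 480 ε hε
  set r0 : ℕ := max k 400 with hr0
  have hk0 : k ≤ r0 := le_max_left _ _
  have h400 : 400 ≤ r0 := le_max_right _ _
  obtain ⟨c0, hc0, hbase⟩ := p4_base ε hε (480 * r0)
  obtain ⟨c1, hc1', hwb⟩ := wO_base ε hε (3 * r0)
  have pc0 : 0 < 1 / c0 := one_div_pos.2 hc0
  have pc1 : 0 < 1 / c1 := one_div_pos.2 hc1'
  have p12 : 0 < (C1 + 1 / c1) * C2 := mul_pos (add_pos hC1 pc1) hC2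
  have p123 : 0 < (C1 + 1 / c1) * C2 * C3 := mul_pos p12 hC3
  refine ⟨C4 + 1 / c0 + (C1 + 1 / c1) * C2 * C3, add_pos (add_pos hC4 pc0) p123, ?_⟩
  intro q r n h0 h1 hRS hr hrn
  obtain ⟨hn0, hn1⟩ := p4_nonneg h0 h1 n
  obtain ⟨hr0', hr1⟩ := p4_nonneg h0 h1 r
  obtain ⟨hp0, hp1⟩ := p4'_nonneg h0 h1 (30 * r) n
  have hRS1 : RS ε q 1 := DGlu_RS (by omega) hRS
  have n1 : 0 ≤ C4 * p4 q n := mul_nonneg hC4.le hn0
  have n2 : 0 ≤ (1 / c0) * p4 q n := mul_nonneg pc0.le hn0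
  have n3 : 0 ≤ (C1 + 1 / c1) * C2 * C3 * p4 q n := mul_nonneg p123.le hn0
  rw [add_mul, add_mul]
  by_cases hcase : n < 240 * (r + r0)
  · by_cases hrr : r0 ≤ r
    · have h5 := hext q r n h0 h1 hRS hr (by omega) (by omega)
      have h6 : p4 q r * p4' q (30 * r) n ≤ p4 q r * 1 := mul_le_mul_of_nonneg_left hp1 hr0'
      linarith
    · have h6 := hbase q n h0 h1 hRS1 (by omega) (by omega)
      have h7 : p4 q r * p4' q (30 * r) n ≤ 1 * 1 := mul_le_mul hr1 hp1 hp0 zero_le_one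
      rw [one_mul] at h7
      have h8 := DGlu_one_le hc0 h7 h6
      linarith
  · obtain ⟨R, hR1, hR2, hR3⟩ : ∃ R : ℕ, r ≤ R ∧ (r0 ≤ R ∧ 240 * R ≤ n) ∧
        p4 q r ≤ (C1 + 1 / c1) * wO q (3 * R) := by
      by_cases hrr : r0 ≤ r
      · refine ⟨r, le_refl r, ⟨hrr, by omega⟩, ?_⟩
        have h5 := hrec q r h0 h1 (DGlu_RS (by omega) hRS) hr
        have h6 : 0 ≤ wO q (3 * r) := IPC.Pr_nonneg h0 h1 _ _
        have h7 : 0 ≤ (1 / c1) * wO q (3 * r) := mul_nonneg pc1.le h6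
        rw [add_mul]
        linarith
      · refine ⟨r0, by omega, ⟨le_refl r0, by omega⟩, ?_⟩
        have h5 := hwb q (3 * r0) h0 h1 hRS1 (by omega) (le_refl _)
        have h6 : 0 ≤ wO q (3 * r0) := IPC.Pr_nonneg h0 h1 _ _
        have h7 := DGlu_one_le hc1' hr1 h5
        have h8 : 0 ≤ C1 * wO q (3 * r0) := mul_nonneg hC1.le h6
        rw [add_mul]
        linarith
    obtain ⟨hR2, hR4⟩ := hR2
    have a1 : p4' q (30 * r) n ≤ p4' q (30 * R) n := p4'_mono h0 h1 (by omega) (by omega) (le_refl n)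
    have a2 := hinn q (30 * R) n h0 h1 hRS (by omega) (by omega)
    have e1 : 30 * R / 3 = 10 * R := by omega
    rw [e1] at a2
    have a3 := hglue q (3 * R) (10 * R) n n h0 h1 (hrb q n h0 h1 hRS) (by omega) (by omega) (by omega) (by omega) (by omega)
    have a4 : IPC.Pr q (bx n) (StE (bx n \ {e0}) (bx n \ {e0}) SeP (bdP n) SeD (bdD n)) ≤ p4 q n :=
      IPC.Pr_mono h0 h1 _ fun ω _ h => four_of_arms h
    have w1 : 0 ≤ wO q (3 * R) := IPC.Pr_nonneg h0 h1 _ _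
    have w2 : 0 ≤ wI q (10 * R) n := IPC.Pr_nonneg h0 h1 _ _
    have a5 : p4 q r * p4' q (30 * r) n ≤ ((C1 + 1 / c1) * wO q (3 * R)) * (C2 * wI q (10 * R) n) :=
      mul_le_mul hR3 (a1.trans a2) hp0 (mul_nonneg (add_pos hC1 pc1).le w1)
    have a6 : ((C1 + 1 / c1) * wO q (3 * R)) * (C2 * wI q (10 * R) n) =
        (C1 + 1 / c1) * C2 * (wO q (3 * R) * wI q (10 * R) n) := by ring
    have a7 : (C1 + 1 / c1) * C2 * (wO q (3 * R) * wI q (10 * R) n) ≤ (C1 + 1 / c1) * C2 * (C3 * p4 q n) :=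
      mul_le_mul_of_nonneg_left (a3.trans (mul_le_mul_of_nonneg_left a4 hC3.le)) p12.le
    have a8 : (C1 + 1 / c1) * C2 * (C3 * p4 q n) = (C1 + 1 / c1) * C2 * C3 * p4 q n := by ring
    linarith

end FKN
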