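import Pool.Agent.Lib.MP_216314_pr.N.DTorE
import Pool.Agent.Lib.MP_216314_pr.N.DGlu

/-!
# Stream D: final theorem

PROOF of `fin2` (`p4 q r ≤ C rho q m` for `r ≤ m ≤ κ r`). We may assume `κ ≥ 1`. `n = m / (12 κ)`, so `n ≤ r`. `c` from `rb_of_rs`, `C1` from `rec_out`, `A` the constant of `tor_can hc hc1 (8 κ)`, `c0` from `rho_base ε (4812 κ)`. If `n < 400`: `m < 4812 κ`, `p4 ≤ 1 ≤ (1 / c0) rho q m` (`RS ε q 1` from `RS ε q m`, `m ≥ 1`).
If `n ≥ 400`: `p4 q r ≤ p4 q n` (`p4_anti`), `p4 q n ≤ C1 wO q (3 n)` (`RS ε q n`), `wO q (3 n) ≤ A rho q m`: `1200 ≤ 3 n`, `4 (3 n) ≤ m`, `m ≤ 12 κ (n + 1) ≤ 8 κ (3 n)`, `RB c q (3 n)` from `RB c q m` (`RB_anti`; `rb_of_rs` at scale `m`).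
PROOF of `sepIn`, `K = 30`. Second part: `fin2` with `κ = 30`. First part: `30 r ≤ m`. If `m < 360 r`: `p4' ≤ 1` and `fin2` with `κ = 360`. If `m ≥ 360 r`: `n = m / 12 ≥ 30 r`: `p4' q (30 r) m ≤ p4' q (30 r) n` (`p4'_mono`), `glu` at `n` (`RS ε q n`): `p4 q r * p4' q (30 r) n ≤ C p4 q n`, and `fin2` with `κ = 24`,
`n ≤ m ≤ 12 (n + 1) ≤ 24 n`.
-/

set_option autoImplicit false

noncomputable section

namespace FKN

open Finset FKI FKP

private theorem DFin_RS {ε q : ℝ} {N N' : ℕ} (h : N' ≤ N) (hR : RS ε q N) : RS ε q N' :=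
  fun n h1 h2 => hR n h1 (h2.trans h)

theorem fin2 (hS : SepOut) (hR : RswIn) (hD : DualIn) (κ : ℕ) : ∀ ε : ℝ, 0 < ε → ∃ C : ℝ, 0 < C ∧ ∀ (q : ℝ) (r m : ℕ), 0 ≤ q → q ≤ 1 →
    RS ε q m → 1 ≤ r → r ≤ m → m ≤ κ * r → p4 q r ≤ C * rho q m := by
  intro ε hε
  obtain ⟨c, hc, hc1, hRB⟩ := rb_of_rs hR hD ε hε
  obtain ⟨C1, hC1, hrec⟩ := rec_out hS hR hD ε hε
  obtain ⟨A, hA, htor⟩ := tor_can hc hc1 (8 * κ)
  obtain ⟨c0, hc0, hbase⟩ := rho_base ε hε (4812 * κ)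
  refine ⟨max (1 / c0) (C1 * A), lt_max_of_lt_left (by positivity), ?_⟩
  intro q r m h0 h1 hRS hr hrm hm
  have hκ : 1 ≤ κ := by
    rcases Nat.eq_zero_or_pos κ with h | h
    · rw [h, zero_mul] at hm
      omega
    · exact h
  have hκ' : 0 < 12 * κ := by omega
  have hrho := rho_nonneg h0 h1 m
  obtain ⟨n, hn⟩ : ∃ n : ℕ, n = m / (12 * κ) := ⟨_, rfl⟩
  have hn1 : 12 * κ * n ≤ m := by
    rw [hn]
    exact Nat.mul_div_le m (12 * κ)
  have hn2 : m < 12 * κ * (n + 1) := by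
    rw [hn]
    exact Nat.lt_mul_div_succ m hκ'
  have hnκ : n ≤ κ * n := Nat.le_mul_of_pos_left n hκ
  have hn1' : 12 * (κ * n) ≤ m := by
    rw [← mul_assoc]
    exact hn1
  rcases Nat.lt_or_ge n 400 with h | h
  · have h2 : m ≤ 4812 * κ := by
      have h3 : 12 * κ * (n + 1) ≤ 12 * κ * 400 := Nat.mul_le_mul_left _ (by omega)
      omega
    have h3 := hbase q m h0 h1 (DFin_RS (by omega) hRS) h2
    have h4 := (p4_nonneg h0 h1 r).2
    have h5 : 1 ≤ 1 / c0 * rho q m := by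
      rw [one_div, inv_mul_eq_div, le_div_iff₀ hc0, one_mul]
      exact h3
    calc p4 q r ≤ 1 / c0 * rho q m := h4.trans h5
      _ ≤ max (1 / c0) (C1 * A) * rho q m := mul_le_mul_of_nonneg_right (le_max_left _ _) hrho
  · have hnr : n ≤ r := by
      have h3 : 12 * κ * n ≤ κ * r := hn1.trans hm
      have h4 : κ * (12 * n) ≤ κ * r := by
        calc κ * (12 * n) = 12 * κ * n := by ring
          _ ≤ κ * r := h3
      have h5 := Nat.le_of_mul_le_mul_left h4 hκ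
      omega
    have hnm : n ≤ m := by omega
    have h2 : p4 q r ≤ p4 q n := p4_anti h0 h1 (by omega) hnr
    have h3 : p4 q n ≤ C1 * wO q (3 * n) := hrec q n h0 h1 (DFin_RS hnm hRS) (by omega)
    have h4 : m ≤ 8 * κ * (3 * n) := by
      have h5 : κ * 1 ≤ κ * n := Nat.mul_le_mul_left _ (by omega)
      have h6 : 12 * κ * (n + 1) = 12 * (κ * n) + 12 * κ := by ring
      have h7 : 8 * κ * (3 * n) = 24 * (κ * n) := by ring
      omega
    have h5 : wO q (3 * n) ≤ A * rho q m :=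
      htor q (3 * n) m h0 h1 (RB_anti (hRB q m h0 h1 hRS) (by omega)) (by omega) (by omega) h4
    calc p4 q r ≤ C1 * wO q (3 * n) := h2.trans h3
      _ ≤ C1 * (A * rho q m) := mul_le_mul_of_nonneg_left h5 hC1.le
      _ = C1 * A * rho q m := by ring
      _ ≤ max (1 / c0) (C1 * A) * rho q m := mul_le_mul_of_nonneg_right (le_max_right _ _) hrho

theorem sepIn_of (hS : SepOut) (hS' : SepInn) (hR : RswIn) (hD : DualIn) : SepIn := by
  intro ε hε
  obtain ⟨C30, hC30, h30⟩ := fin2 hS hR hD 30 ε hε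
  obtain ⟨C360, hC360, h360⟩ := fin2 hS hR hD 360 ε hε
  obtain ⟨C24, hC24, h24⟩ := fin2 hS hR hD 24 ε hε
  obtain ⟨Cg, hCg, hg⟩ := glu hS hS' hR hD ε hε
  refine ⟨30, max C30 (max C360 (Cg * C24)), by norm_num, lt_max_of_lt_left hC30, ?_⟩
  intro q m h0 h1 hRS
  have hrho := rho_nonneg h0 h1 m
  constructor
  · intro r hr hm
    have hp := (p4_nonneg h0 h1 r).1
    rcases Nat.lt_or_ge m (360 * r) with h | h
    · have h2 := (p4'_nonneg h0 h1 (30 * r) m).2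
      calc p4 q r * p4' q (30 * r) m ≤ p4 q r * 1 := mul_le_mul_of_nonneg_left h2 hp
        _ = p4 q r := mul_one _
        _ ≤ C360 * rho q m := h360 q r m h0 h1 hRS hr (by omega) h.le
        _ ≤ max C30 (max C360 (Cg * C24)) * rho q m :=
          mul_le_mul_of_nonneg_right ((le_max_left _ _).trans (le_max_right _ _)) hrho
    · obtain ⟨n, hn⟩ : ∃ n : ℕ, n = m / 12 := ⟨_, rfl⟩
      have hn1 : 30 * r ≤ n := by omega
      have hn2 : n ≤ m := by omega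
      have h2 : p4' q (30 * r) m ≤ p4' q (30 * r) n := p4'_mono h0 h1 (le_refl _) hn1 hn2
      calc p4 q r * p4' q (30 * r) m ≤ p4 q r * p4' q (30 * r) n := mul_le_mul_of_nonneg_left h2 hp
        _ ≤ Cg * p4 q n := hg q r n h0 h1 (DFin_RS hn2 hRS) hr hn1
        _ ≤ Cg * (C24 * rho q m) :=
          mul_le_mul_of_nonneg_left (h24 q n m h0 h1 hRS (by omega) hn2 (by omega)) hCg.le
        _ = Cg * C24 * rho q m := by ring
        _ ≤ max C30 (max C360 (Cg * C24)) * rho q m :=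
          mul_le_mul_of_nonneg_right ((le_max_right _ _).trans (le_max_right _ _)) hrho
  · intro r hr hrm hm
    calc p4 q r ≤ C30 * rho q m := h30 q r m h0 h1 hRS hr hrm hm
      _ ≤ max C30 (max C360 (Cg * C24)) * rho q m := mul_le_mul_of_nonneg_right (le_max_left _ _) hrho

end FKN
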