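import Pool.Agent.Lib.MP_216314_pr.N.NDef
import Pool.Agent.Lib.MP_216314_pr.P.PSymC
import Pool.Agent.Lib.MP_25e40f_pr.A.Har

/-!
# Measure lemmas for the parameter `q`

The lemmas of `P/PProbA`, `P/PProbB`, `P/PSymA` for `IPC.Pr q`.
-/

set_option autoImplicit false

noncomputable section

namespace FKN

open Finset FKI FKP

theorem pq_nonneg {q : ℝ} (h0 : 0 ≤ q) (h1 : q ≤ 1) (E : Finset Edge) (A : Finset Edge → Prop) :
    0 ≤ IPC.Pr q E A := IPC.Pr_nonneg h0 h1 E A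

theorem pq_le_one {q : ℝ} (h0 : 0 ≤ q) (h1 : q ≤ 1) (E : Finset Edge) (A : Finset Edge → Prop) :
    IPC.Pr q E A ≤ 1 := IPC.Pr_le_one h0 h1 E A

theorem pq_mono {q : ℝ} (h0 : 0 ≤ q) (h1 : q ≤ 1) {E : Finset Edge} {A B : Finset Edge → Prop}
    (h : ∀ ω, ω ⊆ E → A ω → B ω) : IPC.Pr q E A ≤ IPC.Pr q E B := IPC.Pr_mono h0 h1 E h

theorem pq_congr {q : ℝ} {E : Finset Edge} {A B : Finset Edge → Prop}
    (h : ∀ ω, ω ⊆ E → (A ω ↔ B ω)) : IPC.Pr q E A = IPC.Pr q E B := IPC.Pr_congr q E h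

/-- image of the measure under a bijection of the edges -/
theorem pq_map (q : ℝ) (σ : Edge ≃ Edge) (E : Finset Edge) (A : Finset Edge → Prop) :
    IPC.Pr q (E.map σ.toEmbedding) A = IPC.Pr q E (fun ω => A (ω.map σ.toEmbedding)) := by
  have h1 := IPC.EE_image q E (fun e => σ e) (fun a _ b _ hab => σ.injective hab) (fun ω => IPC.ind (A ω))
  have h2 : ∀ F : Finset Edge, F.map σ.toEmbedding = F.image (fun e => σ e) := by
    intro F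
    rw [Finset.map_eq_image]
    rfl
  unfold IPC.Pr
  rw [h2 E, h1]
  refine IPC.EE_congr q E fun ω _ => ?_
  show IPC.ind (A (ω.image fun e => σ e)) = IPC.ind (A (ω.map σ.toEmbedding))
  rw [h2 ω]

/-- complement: `q ↦ 1 - q` -/
theorem pq_compl (q : ℝ) (E : Finset Edge) (A : Finset Edge → Prop) :
    IPC.Pr q E (fun ω => A (E \ ω)) = IPC.Pr (1 - q) E A := by
  classical
  unfold IPC.Pr IPC.EE
  refine Finset.sum_nbij' (fun ω => E \ ω) (fun ω => E \ ω) ?_ ?_ ?_ ?_ ?_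
  · intro ω _
    exact Finset.mem_powerset.2 Finset.sdiff_subset
  · intro ω _
    exact Finset.mem_powerset.2 Finset.sdiff_subset
  · intro ω hω
    exact Finset.sdiff_sdiff_eq_self (Finset.mem_powerset.1 hω)
  · intro ω hω
    exact Finset.sdiff_sdiff_eq_self (Finset.mem_powerset.1 hω)
  · intro ω hω
    rw [Finset.sdiff_sdiff_eq_self (Finset.mem_powerset.1 hω), sub_sub_cancel]
    ring

theorem pq_not (q : ℝ) (E : Finset Edge) (A : Finset Edge → Prop) :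
    IPC.Pr q E (fun ω => ¬ A ω) = 1 - IPC.Pr q E A := IPC.Pr_not q E A

/-- marginals -/
theorem pq_dep (q : ℝ) {E F : Finset Edge} (hF : F ⊆ E) {A : Finset Edge → Prop} (hA : Dep F A) :
    IPC.Pr q E A = IPC.Pr q F A := IPC.Pr_restrict q hF A fun ω _ => hA ω

/-- independence -/
theorem pq_indep (q : ℝ) {E F G : Finset Edge} (hF : F ⊆ E) (hG : G ⊆ E) (hd : Disjoint F G)
    {A B : Finset Edge → Prop} (hA : Dep F A) (hB : Dep G B) :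
    IPC.Pr q E (fun ω => A ω ∧ B ω) = IPC.Pr q E A * IPC.Pr q E B :=
  IPC.Pr_indep q hF hG hd A B (fun ω _ => hA ω) (fun ω _ => hB ω)

theorem pq_super {q : ℝ} (h0 : 0 ≤ q) (h1 : q ≤ 1) {E E' : Finset Edge} (hE : E ⊆ E')
    {A : Finset Edge → Prop} (hA : FKP.Inc A) : IPC.Pr q E A ≤ IPC.Pr q E' A :=
  IPC.Pr_mono_E h0 h1 hE hA

/-- Harris inequality -/
theorem pq_fkg {q : ℝ} (h0 : 0 ≤ q) (h1 : q ≤ 1) (E : Finset Edge) {A B : Finset Edge → Prop}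
    (hA : FKP.Inc A) (hB : FKP.Inc B) :
    IPC.Pr q E A * IPC.Pr q E B ≤ IPC.Pr q E (fun ω => A ω ∧ B ω) := IPC.harris h0 h1 E A B hA hB

theorem pq_mono_q {q q' : ℝ} (h0 : 0 ≤ q) (hq : q ≤ q') (h1 : q' ≤ 1) (E : Finset Edge)
    {A : Finset Edge → Prop} (hA : FKP.Inc A) : IPC.Pr q E A ≤ IPC.Pr q' E A :=
  IPC.Pr_mono_p h0 hq h1 E hA

theorem pq_or_le {q : ℝ} (h0 : 0 ≤ q) (h1 : q ≤ 1) (E : Finset Edge) (A B : Finset Edge → Prop) :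
    IPC.Pr q E (fun ω => A ω ∨ B ω) ≤ IPC.Pr q E A + IPC.Pr q E B := IPC.Pr_or_le h0 h1 E A B

/-- Harris inequality for two decreasing events -/
theorem pq_fkg_not {q : ℝ} (h0 : 0 ≤ q) (h1 : q ≤ 1) (E : Finset Edge) {A B : Finset Edge → Prop}
    (hA : FKP.Inc A) (hB : FKP.Inc B) :
    IPC.Pr q E (fun ω => ¬ A ω) * IPC.Pr q E (fun ω => ¬ B ω) ≤
      IPC.Pr q E (fun ω => ¬ A ω ∧ ¬ B ω) := by
  have e1 : IPC.Pr q E (fun ω => ¬ A ω ∧ ¬ B ω) = 1 - IPC.Pr q E (fun ω => A ω ∨ B ω) := by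
    rw [← pq_not]
    exact pq_congr fun ω _ => not_or.symm
  have e2 := IPC.Pr_split q E A B
  have e3 := IPC.Pr_split q E (fun ω => A ω ∨ B ω) A
  have e4 : IPC.Pr q E (fun ω => (A ω ∨ B ω) ∧ A ω) = IPC.Pr q E A :=
    pq_congr fun ω _ => ⟨fun h => h.2, fun h => ⟨Or.inl h, h⟩⟩
  have e5 := IPC.Pr_split q E B A
  have e6 : IPC.Pr q E (fun ω => (A ω ∨ B ω) ∧ ¬ A ω) = IPC.Pr q E (fun ω => B ω ∧ ¬ A ω) :=
    pq_congr fun ω _ => ⟨fun h => ⟨h.1.resolve_left h.2, h.2⟩, fun h => ⟨Or.inr h.1, h.2⟩⟩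
  have e7 : IPC.Pr q E (fun ω => B ω ∧ A ω) = IPC.Pr q E (fun ω => A ω ∧ B ω) :=
    pq_congr fun ω _ => and_comm
  have e8 := pq_fkg h0 h1 E hA hB
  rw [e1, pq_not, pq_not]
  nlinarith [e2, e3, e4, e5, e6, e7, e8]

/-- disjoint events -/
theorem pq_part {q : ℝ} (h0 : 0 ≤ q) (h1 : q ≤ 1) {E : Finset Edge} {ι : Type} (T : Finset ι)
    (D : Finset Edge → ι) (B : ι → Finset Edge → Prop) (A : Finset Edge → Prop)
    (hA : ∀ ω, ω ⊆ E → ∀ d ∈ T, D ω = d → B d ω → A ω) :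
    ∑ d ∈ T, IPC.Pr q E (fun ω => D ω = d ∧ B d ω) ≤ IPC.Pr q E A :=
  IPC.sum_Pr_le h0 h1 E T (fun d ω => D ω = d ∧ B d ω) A
    (fun _ _ _ _ _ _ h2 h3 => h2.1.symm.trans h3.1) (fun ω hω d hd h2 => hA ω hω d hd h2.1 h2.2)

theorem pq_part_eq (q : ℝ) {E : Finset Edge} {ι : Type} (T : Finset ι)
    (D : Finset Edge → ι) (A : Finset Edge → Prop) (hA : ∀ ω, ω ⊆ E → (A ω ↔ D ω ∈ T)) :
    ∑ d ∈ T, IPC.Pr q E (fun ω => D ω = d) = IPC.Pr q E A := by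
  rw [← IPC.Pr_exists_eq q E T (fun d ω => D ω = d) (fun _ _ _ _ _ _ h2 h3 => h2.symm.trans h3)]
  refine pq_congr fun ω hω => ?_
  rw [hA ω hω]
  exact ⟨fun ⟨k, hk, h⟩ => h ▸ hk, fun h => ⟨_, h, rfl⟩⟩

/-- union bound for the complements -/
theorem pq_and_ge {q : ℝ} (h0 : 0 ≤ q) (h1 : q ≤ 1) (E : Finset Edge) (A B : Finset Edge → Prop) :
    IPC.Pr q E A + IPC.Pr q E B - 1 ≤ IPC.Pr q E (fun ω => A ω ∧ B ω) := by
  have e1 := pq_or_le h0 h1 E (fun ω => ¬ A ω) (fun ω => ¬ B ω)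
  have e2 : IPC.Pr q E (fun ω => ¬ A ω ∨ ¬ B ω) = 1 - IPC.Pr q E (fun ω => A ω ∧ B ω) := by
    rw [← pq_not]
    exact pq_congr fun ω _ => not_and_or.symm
  rw [e2, pq_not, pq_not] at e1
  linarith

/-- crossing probabilities in any position -/
theorem pq_HC (q : ℝ) {x1 x2 y1 y2 : ℤ} (a b : ℕ) (ha : x2 = x1 + a) (hb : y2 = y1 + b)
    {E : Finset Edge} (hE : box x1 x2 y1 y2 ⊆ E) : IPC.Pr q E (HC x1 x2 y1 y2) = hq q a b := by
  rw [pq_dep q hE (dep_HC (Finset.Subset.refl _))]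
  have h1 : box x1 x2 y1 y2 = (box 0 a 0 b).map (shE x1 y1).toEmbedding := by
    rw [box_sh, zero_add, zero_add, ha, hb, add_comm x1, add_comm y1]
  rw [h1, pq_map]
  unfold hq
  congr 1
  funext ω
  have h2 := HC_sh x1 y1 0 a 0 b ω
  rw [zero_add, zero_add, add_comm (a : ℤ), add_comm (b : ℤ), ← ha, ← hb] at h2
  exact propext h2

theorem pq_VC (q : ℝ) {x1 x2 y1 y2 : ℤ} (a b : ℕ) (ha : x2 = x1 + a) (hb : y2 = y1 + b)
    {E : Finset Edge} (hE : box x1 x2 y1 y2 ⊆ E) : IPC.Pr q E (VC x1 x2 y1 y2) = hq q b a := by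
  rw [pq_dep q hE (dep_VC (Finset.Subset.refl _))]
  have h1 : VC x1 x2 y1 y2 = fun ω => HC y1 y2 x1 x2 (ω.map trE.toEmbedding) := by
    funext ω
    exact propext (HC_tr x1 x2 y1 y2 ω).symm
  rw [h1, ← pq_map, box_tr]
  exact pq_HC q b a hb ha (Finset.Subset.refl _)

theorem hq_nonneg {q : ℝ} (h0 : 0 ≤ q) (h1 : q ≤ 1) (a b : ℕ) : 0 ≤ hq q a b :=
  pq_nonneg h0 h1 _ _

theorem hq_le_one {q : ℝ} (h0 : 0 ≤ q) (h1 : q ≤ 1) (a b : ℕ) : hq q a b ≤ 1 :=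
  pq_le_one h0 h1 _ _

theorem hq_mono_q {q q' : ℝ} (h0 : 0 ≤ q) (hq' : q ≤ q') (h1 : q' ≤ 1) (a b : ℕ) :
    hq q a b ≤ hq q' a b := pq_mono_q h0 hq' h1 _ (inc_HC _ _ _ _)

end FKN
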