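import Pool.Agent.Lib.MP_216314_pr.N.DDef
import Pool.Agent.Lib.MP_25e40f_pr.A.Har
import Pool.Agent.Lib.MP_216314_pr.N.GA

/-!
# Stream D: the FKG inequality for a pair of an increasing and a decreasing event

PROOFS.
`mixed_fkg`: Let `N = Np ∪ Nm`, `E0 = E \ N`. Fix the configuration `ω0 = ω ∩ E0` (sum over it; write `Pr q E A` as the sum over
`ω0 ⊆ E0`, `ωp ⊆ Np`, `ωm ⊆ Nm` of the product of the weights). Given `ω0`, `Ap` and `Bp` depend on `ω0 ∪ ωp` only (`Ap` depends on `Fp`, which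
does not meet `Nm`), `Am` and `Bm` on `ω0 ∪ ωm` only, so the conditional probability of the right side is
`P(Ap ∧ Bp | ω0) P(Am ∧ Bm | ω0)`, and by Harris (`pq_fkg` of GA for the two increasing events on `Np`, and for the two decreasing events on `Nm`, `pq_fkg_not` or
complement) it is at least `P(Ap | ω0) P(Bp) P(Am | ω0) P(Bm) = P(Ap ∧ Am | ω0) P(Bp) P(Bm)`. Sum over `ω0`.
Tools: `IPC.EE` (expectation as a sum over the power set), `IPC.EE_union`-type lemmas of `MP_25e40f_pr/A/Bas.lean` (look for the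
decomposition of `EE` over a disjoint union / `EE_insert`), `pq_*` of `N/GA.lean`.
-/

set_option autoImplicit false

noncomputable section

namespace FKN

open Finset FKI FKP

/-- if the two sets have the same trace on `F`, an event depending on `F` holds for both or for none -/
private theorem DFkA_dep {F : Finset Edge} {A : Finset Edge → Prop} (hA : Dep F A) {ω ω' : Finset Edge}
    (h : ω ∩ F = ω' ∩ F) : IPC.ind (A ω) = IPC.ind (A ω') := by
  have h1 : A ω ↔ A ω' := (hA ω).trans ((by rw [h] : A (ω ∩ F) ↔ A (ω' ∩ F)).trans (hA ω').symm)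
  rw [propext h1]

/-- traces: the part `m` does not meet `F` -/
private theorem DFkA_tr {F u p m : Finset Edge} (hm : Disjoint m F) : (u ∪ (p ∪ m)) ∩ F = (u ∪ p) ∩ F := by
  ext x
  simp only [Finset.mem_inter, Finset.mem_union]
  constructor
  · rintro ⟨h | h | h, hF⟩
    · exact ⟨Or.inl h, hF⟩
    · exact ⟨Or.inr h, hF⟩
    · exact absurd hF (Finset.disjoint_left.1 hm h)
  · rintro ⟨h | h, hF⟩
    · exact ⟨Or.inl h, hF⟩
    · exact ⟨Or.inr (Or.inl h), hF⟩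

/-- traces: the part `p` does not meet `F` -/
private theorem DFkA_tr' {F u p m : Finset Edge} (hp : Disjoint p F) : (u ∪ (p ∪ m)) ∩ F = (u ∪ m) ∩ F := by
  rw [Finset.union_comm p m]
  exact DFkA_tr hp

/-- traces: `u` does not meet `F` -/
private theorem DFkA_tr0 {F u p : Finset Edge} (hu : Disjoint u F) : (u ∪ p) ∩ F = p ∩ F := by
  ext x
  simp only [Finset.mem_inter, Finset.mem_union]
  constructor
  · rintro ⟨h | h, hF⟩
    · exact absurd hF (Finset.disjoint_left.1 hu h)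
    · exact ⟨h, hF⟩
  · rintro ⟨h, hF⟩
    exact ⟨Or.inr h, hF⟩

/-- Harris for decreasing functions with values at most one -/
private theorem DFkA_harris_dec {q : ℝ} (h0 : 0 ≤ q) (h1 : q ≤ 1) (E : Finset Edge) (f g : Finset Edge → ℝ)
    (hf : ∀ ω ω', ω ⊆ ω' → f ω' ≤ f ω) (hg : ∀ ω ω', ω ⊆ ω' → g ω' ≤ g ω) :
    IPC.EE q E f * IPC.EE q E g ≤ IPC.EE q E (fun ω => f ω * g ω) := by
  have h := IPC.EE_harris h0 h1 E (fun ω => -1 * f ω) (fun ω => -1 * g ω)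
    (fun ω ω' hω => by have := hf ω ω' hω; linarith) (fun ω ω' hω => by have := hg ω ω' hω; linarith)
  rw [IPC.EE_const_mul, IPC.EE_const_mul] at h
  have e : IPC.EE q E (fun ω => -1 * f ω * (-1 * g ω)) = IPC.EE q E (fun ω => f ω * g ω) :=
    IPC.EE_congr q E fun ω _ => by ring
  rw [e] at h
  linarith

/-- the expectation of a product over two independent parts -/
private theorem DFkA_two (q : ℝ) {P M : Finset Edge} (hd : Disjoint P M) (f a m : Finset Edge → ℝ)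
    (h : ∀ p, p ⊆ P → ∀ n, n ⊆ M → f (p ∪ n) = a p * m n) :
    IPC.EE q (P ∪ M) f = IPC.EE q P a * IPC.EE q M m := by
  rw [IPC.EE_union q hd f, mul_comm, ← IPC.EE_const_mul]
  refine IPC.EE_congr q P fun p hp => ?_
  rw [mul_comm, ← IPC.EE_const_mul]
  exact IPC.EE_congr q M fun n hn => h p hp n hn

/-- mixed FKG (Kesten): `Ap` (increasing) depends on `Fp`, `Am` (decreasing) on `Fm`, `Bp` (increasing) on `Np`, `Bm` (decreasing) on `Nm`;
`Np` does not meet `Fm`, `Nm` does not meet `Fp`, `Np` does not meet `Nm`. -/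
theorem mixed_fkg {q : ℝ} (h0 : 0 ≤ q) (h1 : q ≤ 1) {E Fp Fm Np Nm : Finset Edge}
    (hFp : Fp ⊆ E) (hFm : Fm ⊆ E) (hNp : Np ⊆ E) (hNm : Nm ⊆ E)
    (d1 : Disjoint Np Fm) (d2 : Disjoint Nm Fp) (d3 : Disjoint Np Nm)
    {Ap Am Bp Bm : Finset Edge → Prop} (iAp : Inc Ap) (iBp : Inc Bp)
    (iAm : ∀ ω ω', ω ⊆ ω' → Am ω' → Am ω) (iBm : ∀ ω ω', ω ⊆ ω' → Bm ω' → Bm ω)
    (dAp : Dep Fp Ap) (dAm : Dep Fm Am) (dBp : Dep Np Bp) (dBm : Dep Nm Bm) :
    IPC.Pr q E (fun ω => Ap ω ∧ Am ω) * IPC.Pr q E Bp * IPC.Pr q E Bm ≤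
      IPC.Pr q E (fun ω => (Ap ω ∧ Bp ω) ∧ (Am ω ∧ Bm ω)) := by
  have hN : Np ∪ Nm ⊆ E := Finset.union_subset hNp hNm
  have hd : Disjoint (E \ (Np ∪ Nm)) (Np ∪ Nm) := Finset.sdiff_disjoint
  have hE : E = (E \ (Np ∪ Nm)) ∪ (Np ∪ Nm) := (Finset.sdiff_union_of_subset hN).symm
  -- the conditional probabilities
  have e1 : IPC.Pr q E (fun ω => Ap ω ∧ Am ω) = IPC.EE q (E \ (Np ∪ Nm)) (fun u =>
      IPC.EE q Np (fun p => IPC.ind (Ap (u ∪ p))) * IPC.EE q Nm (fun m => IPC.ind (Am (u ∪ m)))) := by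
    have e : IPC.Pr q E (fun ω => Ap ω ∧ Am ω) =
        IPC.EE q ((E \ (Np ∪ Nm)) ∪ (Np ∪ Nm)) (fun ω => IPC.ind (Ap ω ∧ Am ω)) := by
      rw [← hE]
      rfl
    rw [e, IPC.EE_union q hd]
    refine IPC.EE_congr q _ fun u _ => ?_
    refine DFkA_two q d3 _ _ _ fun p hp m hm => ?_
    rw [IPC.ind_and, DFkA_dep dAp (DFkA_tr (Finset.disjoint_of_subset_left hm d2)),
      DFkA_dep dAm (DFkA_tr' (Finset.disjoint_of_subset_left hp d1))]
  have e2 : IPC.Pr q E (fun ω => (Ap ω ∧ Bp ω) ∧ (Am ω ∧ Bm ω)) = IPC.EE q (E \ (Np ∪ Nm)) (fun u =>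
      IPC.EE q Np (fun p => IPC.ind (Ap (u ∪ p)) * IPC.ind (Bp p)) *
        IPC.EE q Nm (fun m => IPC.ind (Am (u ∪ m)) * IPC.ind (Bm m))) := by
    have e : IPC.Pr q E (fun ω => (Ap ω ∧ Bp ω) ∧ (Am ω ∧ Bm ω)) =
        IPC.EE q ((E \ (Np ∪ Nm)) ∪ (Np ∪ Nm)) (fun ω => IPC.ind ((Ap ω ∧ Bp ω) ∧ (Am ω ∧ Bm ω))) := by
      rw [← hE]
      rfl
    rw [e, IPC.EE_union q hd]
    refine IPC.EE_congr q _ fun u hu => ?_
    have hu1 : Disjoint u (Np ∪ Nm) := Finset.disjoint_of_subset_left hu hd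
    have hup : Disjoint u Np := Finset.disjoint_of_subset_right Finset.subset_union_left hu1
    have hum : Disjoint u Nm := Finset.disjoint_of_subset_right Finset.subset_union_right hu1
    refine DFkA_two q d3 _ _ _ fun p hp m hm => ?_
    have b1 : IPC.ind (Bp (u ∪ (p ∪ m))) = IPC.ind (Bp p) := by
      refine DFkA_dep dBp ?_
      rw [DFkA_tr (Finset.disjoint_of_subset_left hm d3.symm), DFkA_tr0 hup]
    have b2 : IPC.ind (Bm (u ∪ (p ∪ m))) = IPC.ind (Bm m) := by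
      refine DFkA_dep dBm ?_
      rw [DFkA_tr' (Finset.disjoint_of_subset_left hp d3), DFkA_tr0 hum]
    rw [IPC.ind_and, IPC.ind_and, IPC.ind_and, b1, b2,
      DFkA_dep dAp (DFkA_tr (Finset.disjoint_of_subset_left hm d2)),
      DFkA_dep dAm (DFkA_tr' (Finset.disjoint_of_subset_left hp d1))]
  have e3 : IPC.Pr q E Bp = IPC.EE q Np (fun p => IPC.ind (Bp p)) := pq_dep q hNp dBp
  have e4 : IPC.Pr q E Bm = IPC.EE q Nm (fun m => IPC.ind (Bm m)) := pq_dep q hNm dBm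
  have n3 : 0 ≤ IPC.Pr q E Bp := pq_nonneg h0 h1 E Bp
  have n4 : 0 ≤ IPC.Pr q E Bm := pq_nonneg h0 h1 E Bm
  rw [e1, e2, mul_assoc, mul_comm, ← IPC.EE_const_mul]
  refine IPC.EE_mono h0 h1 _ fun u _ => ?_
  have k1 : IPC.EE q Np (fun p => IPC.ind (Ap (u ∪ p))) * IPC.Pr q E Bp ≤
      IPC.EE q Np (fun p => IPC.ind (Ap (u ∪ p)) * IPC.ind (Bp p)) := by
    rw [e3]
    exact IPC.EE_harris h0 h1 Np _ _
      (fun ω ω' h => IPC.ind_mono (iAp _ _ (Finset.union_subset_union_right h)))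
      (fun ω ω' h => IPC.ind_mono (iBp _ _ h))
  have k2 : IPC.EE q Nm (fun m => IPC.ind (Am (u ∪ m))) * IPC.Pr q E Bm ≤
      IPC.EE q Nm (fun m => IPC.ind (Am (u ∪ m)) * IPC.ind (Bm m)) := by
    rw [e4]
    exact DFkA_harris_dec h0 h1 Nm _ _
      (fun ω ω' h => IPC.ind_mono (iAm _ _ (Finset.union_subset_union_right h)))
      (fun ω ω' h => IPC.ind_mono (iBm _ _ h))
  have n1 : 0 ≤ IPC.EE q Np (fun p => IPC.ind (Ap (u ∪ p)) * IPC.ind (Bp p)) :=
    IPC.EE_nonneg h0 h1 Np fun p _ => mul_nonneg (IPC.ind_nonneg _) (IPC.ind_nonneg _)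
  have n2 : 0 ≤ IPC.EE q Nm (fun m => IPC.ind (Am (u ∪ m))) :=
    IPC.EE_nonneg h0 h1 Nm fun m _ => IPC.ind_nonneg _
  have k3 := mul_le_mul k1 k2 (mul_nonneg n2 n4) n1
  refine le_trans (le_of_eq ?_) k3
  ring

end FKN
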