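import Pool.Agent.Lib.MP_216314_pr.N.DTopA
import Pool.Agent.Lib.MP_216314_pr.N.DCvC

/-!
# Stream D: lower bound for the inner canonical state when the two scales are comparable

PROOF. Let `l = 2`. `geo_can_inn` from the scale `N1 = 2 n` to the scale `r` (`3 r ≤ 2 n`, `2 n ≤ 2 κ r`) gives `Lo`, `Ld` (at most `M` circuits of radius at most `rr 2 (2 n) = n / 100`). Add the big circuits at the scale `2 n`: `Lo' = Lo ∪ {(cO 2 (2 n) i, rr 2 (2 n))}`,
`Ld' = Ld ∪ {(cD 2 (2 n) i, rr 2 (2 n))}` (at most `M + 2` circuits). `Disjoint (RN Lo') (ud (RN Ld'))`: `disj`, `av_o`, `av_d` (`bxa a (3 R) ⊆ bxa a (10 R)`), and the big circuits of different colours are far from each other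
(`nrm (cO 2 (2 n) i - cD 2 (2 n) j) ≥ 2 n - 2` by `ray_sep` or explicit coordinates, `6 R + 2 ≤ 6 n / 100 + 2`).
With `ext_rings` (or `mixed_fkg`) for trivial events (`Fp = Fm = ∅`, `A = D = True`-like; the probability of a sure event is 1) the probability of `Rings Lo' (ω ∩ RN Lo')` and `Rings Ld' (dc (ud (RN Ld')) ω)` under `Pr q E`, `E = bx (3 n)` (contains everything, `rr` is small), is at least `c ^ (8 (M + 2))`.
On this event `CanI 2 r n ω` holds: for each `i` there are `v` with `RP (cO 2 (2 n) i) (rr 2 (2 n)) η v` and by `link_o` `v'` with `RP (cO 2 r i) (rr 2 r) η v'`, connected in `η = ω ∩ RN Lo'`; `nrm v > n > nrm v'`, so the path from `v'` to `v` has a first point `u` with `nrm u = n`, and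
`v'` is connected to `u` in `η ∩ bx n` (`exitA` of NTc with `F' = F ∩ bx n`). All edges of `RN Lo' ∩ bx n` are in `an (r + 5 rr 2 r) n ∪ bxs (cO 2 r) (10 rr 2 r)`: the big circuits do not meet `bx n` (`2 n - 1 - 3 R > n`), for `Lo` it is the last part of `geo_can_inn`.
`RP (cO 2 r i) (rr 2 r)` only uses edges of `bxa (cO 2 r i) (3 rr 2 r) ⊆ bx n` (`RP_dep`). The same for the dual arms with `dual_exit` of `DTopA` (`bdD n` is `lvf f = 2 n + 1`).
Finally `wI q r n` is a probability under `Pr q (bx n)`; `CanI` depends on a subset of `bx n` (`CanI_region`, `StE_dep`, `pr_StE`).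
-/

set_option autoImplicit false

noncomputable section

namespace FKN

open Finset FKI FKP

private theorem DWiB_bx (k : ℕ) : bx k = bxa (0 : V) (k : ℤ) := by
  unfold bx bxa
  simp

private theorem DWiB_bxm {k k' : ℕ} (h : k ≤ k') : bx k ⊆ bx k' := by
  have h' : (k : ℤ) ≤ k' := by exact_mod_cast h
  unfold bx
  exact box_mono (by linarith) h' (by linarith) h'

private theorem DWiB_near {k : ℕ} {e : Edge} (he : e ∈ bx k) : nrm (e.1, e.2.1) ≤ k := by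
  rw [DWiB_bx] at he
  have h := bxa_near he
  rwa [sub_zero] at h

private theorem DWiB_of {k : ℕ} {e : Edge} (he : nrm (e.1, e.2.1) ≤ (k : ℤ) - 1) : e ∈ bx k := by
  rw [DWiB_bx]
  exact (bxa_of_near (by rwa [sub_zero])).1

private theorem DWiB_nrm (n : ℕ) (θ : ℝ) : nrm (ptR n θ) = n := by
  have h := ptR_norm (ρ := (n : ℝ)) (θ := θ) (Nat.cast_nonneg n)
  rw [abs_le] at h
  have a : ((nrm (ptR n θ) : ℤ) : ℝ) < ((n : ℤ) : ℝ) + 1 := by
    rw [Int.cast_natCast]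
    linarith [h.2]
  have b : ((n : ℤ) : ℝ) < ((nrm (ptR n θ) : ℤ) : ℝ) + 1 := by
    rw [Int.cast_natCast]
    linarith [h.1]
  have a' : nrm (ptR n θ) < (n : ℤ) + 1 := by exact_mod_cast a
  have b' : (n : ℤ) < nrm (ptR n θ) + 1 := by exact_mod_cast b
  omega

private theorem DWiB_tri {n : ℕ} {a x : V} {w : ℤ} (ha : nrm a = n) (h : nrm (x - a) ≤ w) :
    (n : ℤ) - w ≤ nrm x ∧ nrm x ≤ n + w := by
  have t1 := nrmD_tri (x - a) a
  have t2 := nrmD_tri (a - x) x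
  rw [sub_add_cancel] at t1 t2
  have t3 : nrm (a - x) = nrm (x - a) := by rw [← nrm_neg, neg_sub]
  rw [ha] at t1 t2
  rw [t3] at t2
  constructor
  · linarith
  · linarith

private theorem DWiB_bxs {a : Fin 2 → V} {w : ℤ} {e : Edge} (he : e ∈ bxs a w) :
    ∃ i, nrm ((e.1, e.2.1) - a i) ≤ w := by
  obtain ⟨i, _, hi⟩ := Finset.mem_biUnion.1 he
  exact ⟨i, bxa_near hi⟩

private theorem DWiB_ud {a : Fin 2 → V} {w : ℤ} {e : Edge} (he : e ∈ ud (bxs a w)) :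
    ∃ i, nrm ((e.1, e.2.1) - a i) ≤ w + 1 := by
  obtain ⟨i, _, hi⟩ := Finset.mem_biUnion.1 (mem_ud.1 he)
  exact ⟨i, ud_bxa_near (mem_ud.2 hi)⟩

private theorem DWiB_rr (n : ℕ) : 200 * rr 2 n ≤ n := by
  unfold rr
  exact Nat.mul_div_le n (100 * 2)

private theorem DWiB_cO (n : ℕ) (i : Fin 2) : nrm (cO 2 n i) = n := DWiB_nrm n _

private theorem DWiB_cD (n : ℕ) (i : Fin 2) : nrm (cD 2 n i) = n := DWiB_nrm n _

/-- distance of the big circuits of different colours -/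
private theorem DWiB_sep (n : ℕ) (i j : Fin 2) : (n : ℤ) - 1 ≤ nrm (cO 2 n i - cD 2 n j) := by
  obtain ⟨h1, h2⟩ := th_gap (l := 2) (by norm_num)
  have hab : (2 : ℝ) ≤ |thD 2 j - thO 2 i| ∧ |thD 2 j - thO 2 i| ≤ 8 - 2 := by
    have e : (4 : ℝ) / ((2 : ℕ) : ℝ) = 2 := by norm_num
    rcases le_or_gt i j with h | h
    · obtain ⟨ha, hb⟩ := h1 i j h
      rw [e] at ha hb
      rw [abs_of_nonneg (by linarith)]
      exact ⟨ha, hb⟩
    · obtain ⟨ha, hb⟩ := h2 i j h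
      rw [e] at ha hb
      rw [abs_sub_comm, abs_of_nonneg (by linarith)]
      exact ⟨ha, hb⟩
  have h3 := ptR_ang (ρ := (n : ℝ)) (ρ' := (n : ℝ)) (Nat.cast_nonneg n) (by norm_num) hab.1 hab.2
  rw [sub_self, abs_zero] at h3
  have h4 : ((n : ℤ) : ℝ) - 1 ≤ ((nrm (cO 2 n i - cD 2 n j) : ℤ) : ℝ) := by
    unfold cO cD
    rw [Int.cast_natCast]
    linarith
  exact_mod_cast h4

/-- the family with two more circuits -/
private def DWiB_add (L : Finset (V × ℤ)) (a : Fin 2 → V) (R : ℤ) : Finset (V × ℤ) :=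
  L ∪ univ.image fun i => (a i, R)

private theorem DWiB_card {L : Finset (V × ℤ)} {a : Fin 2 → V} {R : ℤ} {M : ℕ} (h : L.card ≤ M) :
    (DWiB_add L a R).card ≤ M + 2 := by
  have h2 : ((univ : Finset (Fin 2)).image fun i => (a i, R)).card ≤ 2 :=
    le_trans card_image_le (by simp)
  exact le_trans (card_union_le _ _) (by omega)

private theorem DWiB_RN (L : Finset (V × ℤ)) (a : Fin 2 → V) (R : ℤ) :
    RN (DWiB_add L a R) = RN L ∪ bxs a (3 * R) := by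
  unfold RN DWiB_add bxs
  rw [Finset.union_biUnion, Finset.image_biUnion]

private theorem DWiB_udu (F G : Finset Edge) : ud (F ∪ G) = ud F ∪ ud G := by
  unfold ud
  rw [Finset.map_union]

private theorem DWiB_rings {L : Finset (V × ℤ)} {a : Fin 2 → V} {R : ℤ} {η : Finset Edge}
    (h : Rings (DWiB_add L a R) η) : Rings L η ∧ ∀ i, ∃ v, RP (a i) R η v := by
  constructor
  · intro p hp
    exact h p (Finset.mem_union_left _ hp)
  · intro i
    exact h (a i, R) (Finset.mem_union_right _ (Finset.mem_image.2 ⟨i, mem_univ _, rfl⟩))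

private theorem DWiB_rad {L : Finset (V × ℤ)} {a : Fin 2 → V} {R N : ℤ}
    (h : ∀ p ∈ L, 1 ≤ p.2 ∧ p.2 ≤ N) (hR : 1 ≤ R ∧ R ≤ N) :
    ∀ p ∈ DWiB_add L a R, 1 ≤ p.2 ∧ p.2 ≤ N := by
  intro p hp
  rcases Finset.mem_union.1 hp with h1 | h1
  · exact h p h1
  · obtain ⟨i, _, rfl⟩ := Finset.mem_image.1 h1
    exact hR

private theorem DWiB_bxs_mono (a : Fin 2 → V) {w w' : ℤ} (h : w ≤ w') : bxs a w ⊆ bxs a w' := by
  intro e he
  obtain ⟨i, _, hi⟩ := Finset.mem_biUnion.1 he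
  refine Finset.mem_biUnion.2 ⟨i, mem_univ _, ?_⟩
  unfold bxa at hi ⊢
  exact box_mono (by omega) (by omega) (by omega) (by omega) hi

private theorem DWiB_lvf (v : V) : 2 * nrm v - 1 ≤ lvf v ∧ lvf v ≤ 2 * nrm v + 1 := by
  unfold nrm lvf
  obtain ⟨x, y⟩ := v
  show 2 * max |x| |y| - 1 ≤ max |2 * x + 1| |2 * y + 1| ∧ max |2 * x + 1| |2 * y + 1| ≤ 2 * max |x| |y| + 1
  rcases abs_cases x with ⟨h1, h1'⟩ | ⟨h1, h1'⟩ <;> rcases abs_cases y with ⟨h2, h2'⟩ | ⟨h2, h2'⟩ <;>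
    rcases abs_cases (2 * x + 1) with ⟨h3, h3'⟩ | ⟨h3, h3'⟩ <;>
    rcases abs_cases (2 * y + 1) with ⟨h4, h4'⟩ | ⟨h4, h4'⟩ <;>
    rw [h1, h2, h3, h4] <;> omega

/-- the open arms -/
private theorem DWiB_open {r n : ℕ} {R : ℤ} {Lo : Finset (V × ℤ)} {ω F : Finset Edge}
    (hr : 1200 ≤ r) (hn : 3 * r ≤ n) (hR : 3 * R ≤ n)
    (hlink : ∀ (η : Finset Edge) (i : Fin 2) (v : V), Rings Lo η → RP (cO 2 (2 * n) i) R η v →
      ∃ v', RP (cO 2 r i) (rr 2 r) η v' ∧ (gr η).Reachable v v')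
    (hreg : RN (DWiB_add Lo (cO 2 (2 * n)) R) ∩ bx n ⊆ F)
    (hbx : bxs (cO 2 r) (10 * rr 2 r) ⊆ F) (hR0 : 0 ≤ R)
    (h : Rings (DWiB_add Lo (cO 2 (2 * n)) R) (ω ∩ RN (DWiB_add Lo (cO 2 (2 * n)) R))) :
    StG (bdP n) (ringT (cO 2 r) (rr 2 r)) (ω ∩ F) := by
  obtain ⟨h1, h2⟩ := DWiB_rings h
  have hrr := DWiB_rr r
  have key : ∀ i : Fin 2, ∃ s v' : V, nrm s = n ∧ RP (cO 2 r i) (rr 2 r) (ω ∩ F) v' ∧
      (gr (ω ∩ F)).Reachable s v' := by
    intro i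
    obtain ⟨v, hv⟩ := h2 i
    obtain ⟨v', hv', hc⟩ := hlink _ i v h1 hv
    have n1 := (DWiB_tri (DWiB_cO (2 * n) i) (RP_near hR0 hv)).1
    have n2 := (DWiB_tri (DWiB_cO r i) (RP_near (by positivity) hv')).2
    have hc' : Conn (RN (DWiB_add Lo (cO 2 (2 * n)) R)) ω v' v := hc.symm
    obtain ⟨z, hz, hz'⟩ := exitA hreg hc' (by omega) (by push_cast at n1; omega)
    refine ⟨z, v', hz, ?_, hz'.symm⟩
    refine RP_mono ?_ ((RP_dep (by positivity) _ _).1 hv')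
    intro e he
    obtain ⟨he1, he2⟩ := Finset.mem_inter.1 he
    refine Finset.mem_inter.2 ⟨(Finset.mem_inter.1 he1).1, hbx ?_⟩
    refine DWiB_bxs_mono _ (show 3 * (rr 2 r : ℤ) ≤ 10 * rr 2 r by omega) ?_
    exact Finset.mem_biUnion.2 ⟨i, mem_univ _, he2⟩
  choose s v' hs hv hc using key
  exact ⟨s, v', hs, hv, hc⟩

/-- the dual arms -/
private theorem DWiB_dual {r n : ℕ} {R : ℤ} {Ld : Finset (V × ℤ)} {ω F : Finset Edge}
    (hr : 1200 ≤ r) (hn : 3 * r ≤ n) (hR : 6 * R ≤ n)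
    (hlink : ∀ (η : Finset Edge) (i : Fin 2) (v : V), Rings Ld η → RP (cD 2 (2 * n) i) R η v →
      ∃ v', RP (cD 2 r i) (rr 2 r) η v' ∧ (gr η).Reachable v v')
    (hreg : ud (RN (DWiB_add Ld (cD 2 (2 * n)) R)) ∩ bx n ⊆ F)
    (hbx : ud (bxs (cD 2 r) (10 * rr 2 r)) ⊆ F) (hR0 : 0 ≤ R)
    (h : Rings (DWiB_add Ld (cD 2 (2 * n)) R) (dc (ud (RN (DWiB_add Ld (cD 2 (2 * n)) R))) ω)) :
    StG (bdD n) (ringT (cD 2 r) (rr 2 r)) (dc F ω) := by
  obtain ⟨h1, h2⟩ := DWiB_rings h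
  have hrr := DWiB_rr r
  have key : ∀ i : Fin 2, ∃ s v' : V, lvf s = 2 * n + 1 ∧ RP (cD 2 r i) (rr 2 r) (dc F ω) v' ∧
      (gr (dc F ω)).Reachable s v' := by
    intro i
    obtain ⟨v, hv⟩ := h2 i
    obtain ⟨v', hv', hc⟩ := hlink _ i v h1 hv
    have n1 := (DWiB_tri (DWiB_cD (2 * n) i) (RP_near hR0 hv)).1
    have n2 := (DWiB_tri (DWiB_cD r i) (RP_near (by positivity) hv')).2
    have l1 := (DWiB_lvf v).1
    have l2 := (DWiB_lvf v').2
    obtain ⟨z, hz, hz'⟩ := dual_exit hreg hc.symm (by omega) (by push_cast at n1; omega)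
    refine ⟨z, v', hz, ?_, hz'.symm⟩
    refine RP_mono ?_ ((RP_dep (by positivity) _ _).1 hv')
    intro e he
    obtain ⟨he1, he2⟩ := Finset.mem_inter.1 he
    unfold dc at he1 ⊢
    rw [Finset.mem_map_equiv, Finset.mem_sdiff] at he1 ⊢
    refine ⟨hbx ?_, he1.2⟩
    rw [mem_ud, Equiv.apply_symm_apply]
    refine DWiB_bxs_mono _ (show 3 * (rr 2 r : ℤ) ≤ 10 * rr 2 r by omega) ?_
    exact Finset.mem_biUnion.2 ⟨i, mem_univ _, he2⟩
  choose s v' hs hv hc using key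
  exact ⟨s, v', hs, hv, hc⟩

theorem wI_base {c : ℝ} (hc : 0 < c) (hc1 : c ≤ 1) (κ : ℕ) : ∃ C : ℝ, 0 < C ∧ ∀ (q : ℝ) (r n : ℕ), 0 ≤ q → q ≤ 1 → RB c q n →
    1200 ≤ r → 3 * r ≤ n → n ≤ κ * r → 1 ≤ C * wI q r n := by
  obtain ⟨M, hM⟩ := geo_can_inn (l := 2) (by norm_num) (2 * κ)
  refine ⟨(c ^ (8 * (M + 2)))⁻¹, inv_pos.2 (pow_pos hc _), ?_⟩
  intro q r n h0 h1 hRB hr hn hκ
  obtain ⟨Lo, Ld, hG, g1, g2, g3, g4⟩ := hM (2 * n) r (by omega) (by omega)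
    (by rw [mul_assoc]; exact Nat.mul_le_mul_left 2 hκ)
  have hr2 := DWiB_rr (2 * n)
  have hrr := DWiB_rr r
  have hR1 : 1 ≤ rr 2 (2 * n) := by
    unfold rr
    rw [Nat.le_div_iff_mul_le (by norm_num)]
    omega
  have hmax : max (2 * n) r = 2 * n := max_eq_left (by omega)
  obtain ⟨R, hRe⟩ : ∃ R : ℕ, rr 2 (2 * n) = R := ⟨_, rfl⟩
  have hG1 := hG.rad_o
  have hG2 := hG.rad_d
  have hlo := hG.link_o
  have hld := hG.link_d
  have hao := hG.av_o
  have had := hG.av_d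
  rw [hmax, hRe] at hG1 hG2
  rw [hRe] at hlo hld hao had hr2 hR1 g1 g2
  have hRn : (R : ℤ) ≤ n := by omega
  have hLo : ∀ p ∈ DWiB_add Lo (cO 2 (2 * n)) (R : ℤ), 1 ≤ p.2 ∧ p.2 ≤ (n : ℤ) :=
    DWiB_rad (fun p hp => ⟨(hG1 p hp).1, (hG1 p hp).2.trans hRn⟩) ⟨by omega, hRn⟩
  have hLd : ∀ p ∈ DWiB_add Ld (cD 2 (2 * n)) (R : ℤ), 1 ≤ p.2 ∧ p.2 ≤ (n : ℤ) :=
    DWiB_rad (fun p hp => ⟨(hG2 p hp).1, (hG2 p hp).2.trans hRn⟩) ⟨by omega, hRn⟩
  -- positions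
  have pO : ∀ e ∈ bxs (cO 2 (2 * n)) (3 * (R : ℤ)),
      ((2 * n : ℕ) : ℤ) - 3 * R ≤ nrm (e.1, e.2.1) ∧ nrm (e.1, e.2.1) ≤ (2 * n : ℕ) + 3 * (R : ℤ) := by
    intro e he
    obtain ⟨i, hi⟩ := DWiB_bxs he
    exact DWiB_tri (DWiB_cO (2 * n) i) hi
  have pD : ∀ e ∈ ud (bxs (cD 2 (2 * n)) (3 * (R : ℤ))),
      ((2 * n : ℕ) : ℤ) - (3 * R + 1) ≤ nrm (e.1, e.2.1) ∧
        nrm (e.1, e.2.1) ≤ (2 * n : ℕ) + (3 * (R : ℤ) + 1) := by
    intro e he
    obtain ⟨i, hi⟩ := DWiB_ud he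
    exact DWiB_tri (DWiB_cD (2 * n) i) hi
  have hNO : RN (DWiB_add Lo (cO 2 (2 * n)) (R : ℤ)) ⊆ bx (3 * n) := by
    rw [DWiB_RN]
    refine Finset.union_subset (g1.trans (DWiB_bxm (by omega))) ?_
    intro e he
    have h := (pO e he).2
    exact DWiB_of (by push_cast at h ⊢; omega)
  have hND : ud (RN (DWiB_add Ld (cD 2 (2 * n)) (R : ℤ))) ⊆ bx (3 * n) := by
    rw [DWiB_RN, DWiB_udu]
    refine Finset.union_subset (g2.trans (DWiB_bxm (by omega))) ?_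
    intro e he
    have h := (pD e he).2
    exact DWiB_of (by push_cast at h ⊢; omega)
  have hRO : RN (DWiB_add Lo (cO 2 (2 * n)) (R : ℤ)) ∩ bx n ⊆
      an (r + 5 * rr 2 r) n ∪ bxs (cO 2 r) (10 * rr 2 r) := by
    rw [DWiB_RN]
    intro e he
    obtain ⟨he1, he2⟩ := Finset.mem_inter.1 he
    rcases Finset.mem_union.1 he1 with h | h
    · rcases g3 e h with h' | h'
      · exact Finset.mem_union_left _ (Finset.mem_sdiff.2 ⟨he2, h'⟩)
      · exact Finset.mem_union_right _ h'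
    · have h3 := (pO e h).1
      have h4 := DWiB_near he2
      exfalso
      push_cast at h3
      omega
  have hRD : ud (RN (DWiB_add Ld (cD 2 (2 * n)) (R : ℤ))) ∩ bx n ⊆
      an (r + 5 * rr 2 r) n ∪ ud (bxs (cD 2 r) (10 * rr 2 r)) := by
    rw [DWiB_RN, DWiB_udu]
    intro e he
    obtain ⟨he1, he2⟩ := Finset.mem_inter.1 he
    rcases Finset.mem_union.1 he1 with h | h
    · rcases g4 e h with h' | h'
      · exact Finset.mem_union_left _ (Finset.mem_sdiff.2 ⟨he2, h'⟩)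
      · exact Finset.mem_union_right _ h'
    · have h3 := (pD e h).1
      have h4 := DWiB_near he2
      exfalso
      push_cast at h3
      omega
  have hdisj : Disjoint (RN (DWiB_add Lo (cO 2 (2 * n)) (R : ℤ)))
      (ud (RN (DWiB_add Ld (cD 2 (2 * n)) (R : ℤ)))) := by
    rw [DWiB_RN, DWiB_RN, DWiB_udu, Finset.disjoint_union_left, Finset.disjoint_union_right,
      Finset.disjoint_union_right]
    refine ⟨⟨hG.disj, ?_⟩, ?_, ?_⟩
    · exact Finset.disjoint_of_subset_right (ud_mono (DWiB_bxs_mono _ (by omega))) hao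
    · exact (Finset.disjoint_of_subset_right (DWiB_bxs_mono _ (by omega)) had).symm
    · rw [Finset.disjoint_left]
      intro e he he'
      obtain ⟨i, hi⟩ := DWiB_bxs he
      obtain ⟨j, hj⟩ := DWiB_ud he'
      have h3 := DWiB_sep (2 * n) i j
      have h4 := nrmD_tri (cO 2 (2 * n) i - (e.1, e.2.1)) ((e.1, e.2.1) - cD 2 (2 * n) j)
      rw [sub_add_sub_cancel] at h4
      have h5 : nrm (cO 2 (2 * n) i - (e.1, e.2.1)) = nrm ((e.1, e.2.1) - cO 2 (2 * n) i) := by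
        rw [← nrm_neg, neg_sub]
      rw [h5] at h4
      push_cast at h3
      omega
  have key := ext_rings (E := bx (3 * n)) (Fp := ∅) (Fm := ∅) hc hc1 h0 h1 hRB
    (DWiB_card hG.card_o) (DWiB_card hG.card_d) hLo hLd
    (Finset.empty_subset _) (Finset.empty_subset _) hNO hND (Finset.disjoint_empty_right _)
    (Finset.disjoint_empty_right _) hdisj (A := fun _ => True) (D := fun _ => True)
    (A' := Rings (DWiB_add Lo (cO 2 (2 * n)) (R : ℤ))) (D' := Rings (DWiB_add Ld (cD 2 (2 * n)) (R : ℤ)))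
    (fun _ _ _ h => h) (fun _ _ _ h => h) (Rings_inc _) (Rings_inc _) (fun _ _ h => h) (fun _ _ h => h)
  have e1 : IPC.Pr q (bx (3 * n)) (fun _ => True ∧ True) = 1 :=
    IPC.Pr_true q (bx (3 * n)) fun _ _ => ⟨trivial, trivial⟩
  rw [e1, one_mul] at key
  have hreg := CanI_region (l := 2) (r := r) (n := n) (by norm_num) (by omega)
  have e2 : IPC.Pr q (bx (3 * n)) (CanI 2 r n) = wI q r n :=
    pr_StE q (bdP n) (ringT (cO 2 r) (rr 2 r)) (bdD n) (ringT (cD 2 r) (rr 2 r))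
      (hreg.trans (DWiB_bxm (by omega))) hreg
  have e3 := key.trans (pq_mono (B := CanI 2 r n) h0 h1 (by
    rintro ω _ ⟨ha, hd⟩
    rw [Finset.empty_union] at ha hd
    exact ⟨DWiB_open hr hn (by omega) hlo hRO Finset.subset_union_right (by omega) ha,
      DWiB_dual hr hn (by omega) hld hRD Finset.subset_union_right (by omega) hd⟩))
  rw [e2] at e3
  have hpos : 0 < c ^ (8 * (M + 2)) := pow_pos hc _
  rw [inv_mul_eq_div, le_div_iff₀ hpos, one_mul]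
  exact e3

end FKN
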