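import Pool.Agent.Lib.MP_216314_pr.N.DBase
import Pool.Agent.Lib.MP_216314_pr.N.DWiB
import Pool.Agent.Lib.MP_216314_pr.N.DOutA
import Pool.Agent.Lib.MP_216314_pr.N.DExtA

/-!
# Stream D: recursion over the scales

PROOF of `rec_out`. Let `c` be from `rb_of_rs` for `ε`, `A ≥ 1` the constant of `can_out hc hc1 8`, `θ = 1 / (2 A)`, `k`, `C1` from `sep_out1` for `ε`, `θ`, `n0 = max (2 k) 1600`, `c0` from `wO_base ε (3 * n0)`, `C = max (2 C1) (1 / c0)`. Claim: `p4 q n ≤ C wO q (3 n)` for `n ≥ 1`, `RS ε q n`; strong induction on `n`.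
If `n < n0`: `p4 q n ≤ 1 ≤ C c0 ≤ C wO q (3 n)`. If `n ≥ n0`: `p4 q n ≤ C1 wO q (3 n) + θ p4 q (n / 2)`, `p4 q (n / 2) ≤ p4 q (n / 4)` (`p4_anti` of NTg), by induction (`RS_mono` of NTj) `p4 q (n / 4) ≤ C wO q (3 (n / 4))`, and `can_out` with `3 (n/4) → 3 n`, `N = n`:
`1200 ≤ 3 (n/4)`, `3 * (3 (n/4)) ≤ 3 n`, `3 n ≤ 8 * (3 (n / 4))`, `3 n ≤ 100 n`: `wO q (3 (n/4)) ≤ A wO q (3 n)`. Total `≤ (C1 + θ C A) wO q (3 n) ≤ C wO q (3 n)`. (`wO ≥ 0`.)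
PROOF of `rec_inn`. `c` as before, `A ≥ 1` the constant of `can_inn hc hc1 8`, `B` the constant of `wI_base hc hc1 200`, `θ = 1 / (2 A)`, `k1`, `C1` from `sep_inn1` for `ε`, `θ`, `k = max k1 3600`, `C = max (2 C1) B`. Claim for `k ≤ r`, `8 r ≤ n`: strong induction on `n - r` (or on `n / r`).
If `n < 32 r`: `r' = r / 3 ≥ 1200`, `3 r' ≤ n`, `n ≤ 32 r ≤ 200 r'`, so `p4' q r n ≤ 1 ≤ B wI q r' n`. If `32 r ≤ n`: `p4' q r n ≤ C1 wI q (r / 3) n + θ p4' q (2 r) n`, `p4' q (2 r) n ≤ p4' q (4 r) n` (`p4'_mono` of NTg), by induction `p4' q (4 r) n ≤ C wI q (4 r / 3) n`, and `can_inn` with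
`r := 4 r / 3`, `r' := r / 3`, `N = n`: `1200 ≤ r / 3`, `3 (r / 3) ≤ 4 r / 3`, `4 r / 3 ≤ 8 (r / 3)`, `2 (4 r / 3) ≤ n`, `4 r / 3 ≤ 100 n`: `wI q (4 r / 3) n ≤ A wI q (r / 3) n`.
-/

set_option autoImplicit false

noncomputable section

namespace FKN

open Finset FKI FKP

theorem DRec_RS {ε q : ℝ} {N N' : ℕ} (h : RS ε q N) (hN : N' ≤ N) : RS ε q N' :=
  fun n h1 h2 => h n h1 (h2.trans hN)

theorem DRec_wO {q : ℝ} (h0 : 0 ≤ q) (h1 : q ≤ 1) (n : ℕ) : 0 ≤ wO q n := IPC.Pr_nonneg h0 h1 _ _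

theorem DRec_wI {q : ℝ} (h0 : 0 ≤ q) (h1 : q ≤ 1) (r n : ℕ) : 0 ≤ wI q r n := IPC.Pr_nonneg h0 h1 _ _

theorem DRec_step {A C C1 P P' w w' : ℝ} (hA : 0 < A) (hC : 2 * C1 ≤ C) (hC0 : 0 ≤ C) (hw : 0 ≤ w)
    (h1 : P ≤ C1 * w + 1 / (2 * A) * P') (h2 : P' ≤ C * w') (h3 : w' ≤ A * w) : P ≤ C * w := by
  have h4 : P' ≤ C * (A * w) := h2.trans (mul_le_mul_of_nonneg_left h3 hC0)
  have h5 : 1 / (2 * A) * P' ≤ 1 / (2 * A) * (C * (A * w)) :=
    mul_le_mul_of_nonneg_left h4 (by positivity)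
  have h6 : 1 / (2 * A) * (C * (A * w)) = C / 2 * w := by
    field_simp
  rw [h6] at h5
  have h7 : 2 * C1 * w ≤ C * w := mul_le_mul_of_nonneg_right hC hw
  linarith

theorem rec_out (hS : SepOut) (hR : RswIn) (hD : DualIn) : ∀ ε : ℝ, 0 < ε → ∃ C : ℝ, 0 < C ∧ ∀ (q : ℝ) (n : ℕ), 0 ≤ q → q ≤ 1 →
    RS ε q n → 1 ≤ n → p4 q n ≤ C * wO q (3 * n) := by
  intro ε hε
  obtain ⟨c, hc, hc1, hRB⟩ := rb_of_rs hR hD ε hε
  obtain ⟨A, hA, hcan⟩ := can_out hc hc1 8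
  obtain ⟨k, C1, hk, hC1, hsep⟩ := sep_out1 hS hR hD ε (1 / (2 * A)) hε (by positivity)
  obtain ⟨c0, hc0, hbase⟩ := wO_base ε hε (3 * max (2 * k) 1600)
  refine ⟨max (2 * C1) (1 / c0), lt_max_of_lt_right (by positivity), ?_⟩
  intro q n h0 h1
  have hCpos : 0 < max (2 * C1) (1 / c0) := lt_max_of_lt_right (by positivity)
  induction n using Nat.strong_induction_on with
  | _ n ih =>
    intro hRS hn
    by_cases hlt : n < max (2 * k) 1600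
    · have h2 := hbase q (3 * n) h0 h1 (DRec_RS hRS hn) (by omega) (by omega)
      have h3 := (p4_nonneg h0 h1 n).2
      have h4 : 1 ≤ 1 / c0 * wO q (3 * n) := by
        have h5 : 1 / c0 * c0 ≤ 1 / c0 * wO q (3 * n) := mul_le_mul_of_nonneg_left h2 (by positivity)
        have h6 : 1 / c0 * c0 = 1 := by field_simp
        rw [h6] at h5
        exact h5
      have h5 : 1 / c0 * wO q (3 * n) ≤ max (2 * C1) (1 / c0) * wO q (3 * n) :=
        mul_le_mul_of_nonneg_right (le_max_right _ _) (DRec_wO h0 h1 _)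
      linarith
    · rw [not_lt, max_le_iff] at hlt
      obtain ⟨hk2, h16⟩ := hlt
      have h2 := hsep q n h0 h1 hRS (by omega)
      have h3 : p4 q (n / 2) ≤ p4 q (n / 4) := p4_anti h0 h1 (by omega) (by omega)
      have h4 := ih (n / 4) (by omega) (DRec_RS hRS (by omega)) (by omega)
      have h5 := hcan q (3 * (n / 4)) (3 * n) n h0 h1 (hRB q n h0 h1 hRS) (by omega) (by omega) (by omega)
        (by omega)
      exact DRec_step hA (le_max_left _ _) hCpos.le (DRec_wO h0 h1 _) h2 (h3.trans h4) h5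

theorem rec_inn (hS : SepInn) (hR : RswIn) (hD : DualIn) : ∀ ε : ℝ, 0 < ε → ∃ (k : ℕ) (C : ℝ), 0 < C ∧ ∀ (q : ℝ) (r n : ℕ), 0 ≤ q → q ≤ 1 →
    RS ε q n → k ≤ r → 8 * r ≤ n → p4' q r n ≤ C * wI q (r / 3) n := by
  intro ε hε
  obtain ⟨c, hc, hc1, hRB⟩ := rb_of_rs hR hD ε hε
  obtain ⟨A, hA, hcan⟩ := can_inn hc hc1 8
  obtain ⟨B, hB, hbase⟩ := wI_base hc hc1 200
  obtain ⟨k1, C1, hk1, hC1, hsep⟩ := sep_inn1 hS hR hD ε (1 / (2 * A)) hε (by positivity)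
  have hCpos : 0 < max (2 * C1) B := lt_max_of_lt_right hB
  refine ⟨max k1 3600, max (2 * C1) B, hCpos, ?_⟩
  intro q r n h0 h1 hRS
  obtain ⟨d, hd⟩ : ∃ d, n - r = d := ⟨_, rfl⟩
  induction d using Nat.strong_induction_on generalizing r with
  | _ d ih =>
    intro hk hn
    rw [max_le_iff] at hk
    obtain ⟨hka, hkb⟩ := hk
    by_cases hlt : n < 32 * r
    · have h2 := hbase q (r / 3) n h0 h1 (hRB q n h0 h1 hRS) (by omega) (by omega) (by omega)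
      have h3 := (p4'_nonneg h0 h1 r n).2
      have h5 : B * wI q (r / 3) n ≤ max (2 * C1) B * wI q (r / 3) n :=
        mul_le_mul_of_nonneg_right (le_max_right _ _) (DRec_wI h0 h1 _ _)
      linarith
    · rw [not_lt] at hlt
      have h2 := hsep q r n h0 h1 hRS hka hn
      have h3 : p4' q (2 * r) n ≤ p4' q (4 * r) n := p4'_mono h0 h1 (by omega) (by omega) le_rfl
      have h4 := ih (n - 4 * r) (by omega) (4 * r) rfl (max_le (by omega) (by omega)) (by omega)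
      have h5 := hcan q (4 * r / 3) (r / 3) n n h0 h1 (hRB q n h0 h1 hRS) (by omega) (by omega) (by omega)
        (by omega) (by omega)
      exact DRec_step hA (le_max_left _ _) hCpos.le (DRec_wI h0 h1 _ _) h2 (h3.trans h4) h5

end FKN
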