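import Pool.Agent.Lib.MP_216314_pr.N.DDef
import Pool.Agent.Lib.MP_216314_pr.P.PCross
import Pool.Agent.Lib.MP_216314_pr.P.PExit
import Pool.Agent.Lib.MP_216314_pr.N.GA

/-!
# Stream D: circuits, basic properties

PROOFS.
`FKP.Conn F ω u v` is reachability in `gr (ω ∩ F)`. `RP_dep`: all `Conn` in `RP` are inside sub boxes of `bxa a (3 r)` (`Conn F ω = Conn F (ω ∩ G)` for
`F ⊆ G`). `RP_near`: `FKP.conn_mem_box` (PExit) or the case of equality. `Ring_of_cross`: take for `v` the left end of the horizontal crossing of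
the upper rectangle; the vertical crossings of the right and of the left rectangle meet it (`FKP.cross` in PCross: a horizontal crossing of
a rectangle and a vertical crossing of an overlapping rectangle have connected end points), and the lower horizontal crossing meets
the vertical crossings.
-/

set_option autoImplicit false

noncomputable section

namespace FKN

open Finset FKI FKP

theorem RP_mono {a : V} {r : ℤ} {η η' : Finset Edge} {v : V} (h : η ⊆ η') (hv : RP a r η v) : RP a r η' v := by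
  obtain ⟨⟨y1, y1', a1, a2, a3, a4, c1, d1⟩, ⟨y2, y2', b1, b2, b3, b4, c2, d2⟩,
    ⟨x3, x3', e1, e2, e3, e4, c3, d3⟩, ⟨x4, x4', f1, f2, f3, f4, c4, d4⟩⟩ := hv
  exact ⟨⟨y1, y1', a1, a2, a3, a4, c1.mono (Finset.Subset.refl _) h, d1.mono (Finset.Subset.refl _) h⟩,
    ⟨y2, y2', b1, b2, b3, b4, c2.mono (Finset.Subset.refl _) h, d2.mono (Finset.Subset.refl _) h⟩,
    ⟨x3, x3', e1, e2, e3, e4, c3.mono (Finset.Subset.refl _) h, d3.mono (Finset.Subset.refl _) h⟩,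
    ⟨x4, x4', f1, f2, f3, f4, c4.mono (Finset.Subset.refl _) h, d4.mono (Finset.Subset.refl _) h⟩⟩

theorem Ring_inc (a : V) (r : ℤ) : Inc (Ring a r) := by
  rintro ω ω' hs ⟨v, hv⟩
  exact ⟨v, RP_mono hs hv⟩

/-- `RP` depends on the edges of the box of radius `3 r` -/
theorem RP_dep {a : V} {r : ℤ} (hr : 0 ≤ r) (η : Finset Edge) (v : V) :
    RP a r η v ↔ RP a r (η ∩ bxa a (3 * r)) v := by
  have h1 : ∀ u w, Conn (box (a.1 - 3 * r) (a.1 + 3 * r) (a.2 + r) (a.2 + 3 * r)) η u w ↔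
      Conn (box (a.1 - 3 * r) (a.1 + 3 * r) (a.2 + r) (a.2 + 3 * r)) (η ∩ bxa a (3 * r)) u w :=
    fun u w => dep_Conn (box_mono (by omega) (by omega) (by omega) (by omega)) u w η
  have h2 : ∀ u w, Conn (box (a.1 - 3 * r) (a.1 + 3 * r) (a.2 - 3 * r) (a.2 - r)) η u w ↔
      Conn (box (a.1 - 3 * r) (a.1 + 3 * r) (a.2 - 3 * r) (a.2 - r)) (η ∩ bxa a (3 * r)) u w :=
    fun u w => dep_Conn (box_mono (by omega) (by omega) (by omega) (by omega)) u w η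
  have h3 : ∀ u w, Conn (box (a.1 + r) (a.1 + 3 * r) (a.2 - 3 * r) (a.2 + 3 * r)) η u w ↔
      Conn (box (a.1 + r) (a.1 + 3 * r) (a.2 - 3 * r) (a.2 + 3 * r)) (η ∩ bxa a (3 * r)) u w :=
    fun u w => dep_Conn (box_mono (by omega) (by omega) (by omega) (by omega)) u w η
  have h4 : ∀ u w, Conn (box (a.1 - 3 * r) (a.1 - r) (a.2 - 3 * r) (a.2 + 3 * r)) η u w ↔
      Conn (box (a.1 - 3 * r) (a.1 - r) (a.2 - 3 * r) (a.2 + 3 * r)) (η ∩ bxa a (3 * r)) u w :=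
    fun u w => dep_Conn (box_mono (by omega) (by omega) (by omega) (by omega)) u w η
  have h5 : ∀ u w, Conn (bxa a (3 * r)) η u w ↔ Conn (bxa a (3 * r)) (η ∩ bxa a (3 * r)) u w :=
    fun u w => dep_Conn (Finset.Subset.refl _) u w η
  constructor
  · rintro ⟨⟨y1, y1', a1, a2, a3, a4, c1, d1⟩, ⟨y2, y2', b1, b2, b3, b4, c2, d2⟩,
      ⟨x3, x3', e1, e2, e3, e4, c3, d3⟩, ⟨x4, x4', f1, f2, f3, f4, c4, d4⟩⟩
    exact ⟨⟨y1, y1', a1, a2, a3, a4, (h1 _ _).1 c1, (h5 _ _).1 d1⟩,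
      ⟨y2, y2', b1, b2, b3, b4, (h2 _ _).1 c2, (h5 _ _).1 d2⟩,
      ⟨x3, x3', e1, e2, e3, e4, (h3 _ _).1 c3, (h5 _ _).1 d3⟩,
      ⟨x4, x4', f1, f2, f3, f4, (h4 _ _).1 c4, (h5 _ _).1 d4⟩⟩
  · exact RP_mono Finset.inter_subset_left

theorem Ring_dep {a : V} {r : ℤ} (hr : 0 ≤ r) : Dep (bxa a (3 * r)) (Ring a r) := by
  intro ω
  constructor
  · rintro ⟨v, hv⟩
    exact ⟨v, (RP_dep hr ω v).1 hv⟩
  · rintro ⟨v, hv⟩
    exact ⟨v, (RP_dep hr ω v).2 hv⟩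

/-- a point of `RP` is in the box of radius `3 r` -/
theorem RP_near {a : V} {r : ℤ} (hr : 0 ≤ r) {η : Finset Edge} {v : V} (hv : RP a r η v) : nrm (v - a) ≤ 3 * r := by
  obtain ⟨⟨y, y', a1, a2, a3, a4, c1, d1⟩, -⟩ := hv
  have h := conn_mem_box (x1 := a.1 - 3 * r) (x2 := a.1 + 3 * r) (y1 := a.2 - 3 * r) (y2 := a.2 + 3 * r)
    (Conn.symm d1) ⟨by simp, by simp; omega, by simp; omega, by simp; omega⟩
  unfold nrm
  rw [Prod.fst_sub, Prod.snd_sub, max_le_iff, abs_le, abs_le]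
  omega

/-- four crossings of the rectangles of the annulus give a circuit -/
theorem Ring_of_cross {a : V} {r : ℤ} (hr : 0 ≤ r) {η : Finset Edge}
    (ht : HC (a.1 - 3 * r) (a.1 + 3 * r) (a.2 + r) (a.2 + 3 * r) η)
    (hb : HC (a.1 - 3 * r) (a.1 + 3 * r) (a.2 - 3 * r) (a.2 - r) η)
    (hR : VC (a.1 + r) (a.1 + 3 * r) (a.2 - 3 * r) (a.2 + 3 * r) η)
    (hL : VC (a.1 - 3 * r) (a.1 - r) (a.2 - 3 * r) (a.2 + 3 * r) η) : Ring a r η := by
  obtain ⟨y1, y1', a1, a2, a3, a4, c1⟩ := ht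
  obtain ⟨y2, y2', b1, b2, b3, b4, c2⟩ := hb
  obtain ⟨x3, x3', e1, e2, e3, e4, c3⟩ := hR
  obtain ⟨x4, x4', f1, f2, f3, f4, c4⟩ := hL
  have k1 : Conn (bxa a (3 * r)) η (a.1 - 3 * r, y1) (x3, a.2 - 3 * r) :=
    cross (ω := η ∩ bxa a (3 * r)) (by omega) (le_refl _) (by omega) (le_refl _) ⟨a1, a2⟩ ⟨a3, a4⟩ ⟨e1, e2⟩ ⟨e3, e4⟩
      ((dep_Conn (box_mono (by omega) (by omega) (by omega) (by omega)) _ _ η).1 c1)
      ((dep_Conn (box_mono (by omega) (by omega) (by omega) (by omega)) _ _ η).1 c3)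
  have k2 : Conn (bxa a (3 * r)) η (a.1 - 3 * r, y1) (x4, a.2 - 3 * r) :=
    cross (ω := η ∩ bxa a (3 * r)) (le_refl _) (by omega) (by omega) (le_refl _) ⟨a1, a2⟩ ⟨a3, a4⟩ ⟨f1, f2⟩ ⟨f3, f4⟩
      ((dep_Conn (box_mono (by omega) (by omega) (by omega) (by omega)) _ _ η).1 c1)
      ((dep_Conn (box_mono (by omega) (by omega) (by omega) (by omega)) _ _ η).1 c4)
  have k3 : Conn (bxa a (3 * r)) η (a.1 - 3 * r, y2) (x3, a.2 - 3 * r) :=
    cross (ω := η ∩ bxa a (3 * r)) (by omega) (le_refl _) (le_refl _) (by omega) ⟨b1, b2⟩ ⟨b3, b4⟩ ⟨e1, e2⟩ ⟨e3, e4⟩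
      ((dep_Conn (box_mono (by omega) (by omega) (by omega) (by omega)) _ _ η).1 c2)
      ((dep_Conn (box_mono (by omega) (by omega) (by omega) (by omega)) _ _ η).1 c3)
  exact ⟨(a.1 - 3 * r, y1), ⟨y1, y1', a1, a2, a3, a4, c1, Conn.refl _ _ _⟩,
    ⟨y2, y2', b1, b2, b3, b4, c2, k1.trans k3.symm⟩, ⟨x3, x3', e1, e2, e3, e4, c3, k1⟩,
    ⟨x4, x4', f1, f2, f3, f4, c4, k2⟩⟩

end FKN
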