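import Pool.Agent.Lib.MP_216314_pr.N.DRgA

/-!
# Stream D: circuits meet

PROOFS.
`ring_adj`: let `d = a' - a`, `|d.1|, |d.2| ≤ 4 r`. If `0 ≤ d.1` the right rectangle of `a` (`x - a.1 ∈ [r, 3 r]`, `y - a.2 ∈ [-3 r, 3 r]`), otherwise its left rectangle:
it is crossed vertically. If `0 ≤ d.2` the lower rectangle of `a'` (`y - a'.2 ∈ [-3 r, -r]`), otherwise the upper rectangle of `a'`: it is crossed
horizontally. In all four cases the two rectangles cross each other in the sense of `FKP.cross` (for `0 ≤ d`: `d.1 - 3 r ≤ r`, `3 r ≤ d.1 + 3 r`,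
`-3 r ≤ d.2 - 3 r`, `d.2 - r ≤ 3 r`), so the crossings are connected to each other in `gr η`. `ring_uniq`: the case `a' = a`.
`ring_cross`: a path from the box of radius `r` to the outside of the open box of radius `3 r` contains a crossing of one of the four rectangles in the
short direction (first time at which one of the four coordinates `±(x - a.1)`, `±(y - a.2)` is equal to `3 r`, then the last time before
at which the same coordinate is `≤ r`: between these times the path is in the rectangle: use `FKP.first_hit`, `FKP.last_exit`, `FKP.pexit_aux` of PExit), which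
meets (`FKP.cross`) the crossing in the long direction. The case `r = 0` is included (then the first time at distance 0 gives a point equal to `a`).
`chain_reach`: induction on `j` with `ring_adj` and `ring_uniq`. `chain_big`: by `chain_reach` all points of the circuits of the chain are connected;
a point of `RP (c j₂) r` is within `r'` of `a'` (`RP_near`), a point of `RP (c j₁) r` is at distance at least `3 r'` from `a'`; apply `ring_cross`.
-/

set_option autoImplicit false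

noncomputable section

namespace FKN

open Finset FKI FKP

private theorem DRgB_nrm {v a : V} {t : ℤ} :
    nrm (v - a) ≤ t ↔ a.1 - t ≤ v.1 ∧ v.1 ≤ a.1 + t ∧ a.2 - t ≤ v.2 ∧ v.2 ≤ a.2 + t := by
  unfold nrm
  rw [Prod.fst_sub, Prod.snd_sub, max_le_iff, abs_le, abs_le]
  constructor
  · rintro ⟨⟨h1, h2⟩, h3, h4⟩
    exact ⟨by omega, by omega, by omega, by omega⟩
  · rintro ⟨h1, h2, h3, h4⟩
    exact ⟨⟨by omega, by omega⟩, by omega, by omega⟩

private theorem DRgB_mem {x1 x2 y1 y2 : ℤ} {e : Edge}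
    (h1 : x1 ≤ (ea e).1 ∧ (ea e).1 ≤ x2 ∧ y1 ≤ (ea e).2 ∧ (ea e).2 ≤ y2)
    (h2 : x1 ≤ (eb e).1 ∧ (eb e).1 ≤ x2 ∧ y1 ≤ (eb e).2 ∧ (eb e).2 ≤ y2) : e ∈ box x1 x2 y1 y2 := by
  rw [mem_box]
  obtain ⟨x, y, b⟩ := e
  cases b
  · simp only [ea, eb] at h1 h2 ⊢
    simp at h1 h2 ⊢
    omega
  · simp only [ea, eb] at h1 h2 ⊢
    simp at h1 h2 ⊢
    omega

private theorem DRgB_ends (e : Edge) : (eb e = ((ea e).1 + 1, (ea e).2)) ∨ (eb e = ((ea e).1, (ea e).2 + 1)) := by
  obtain ⟨x, y, b⟩ := e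
  cases b
  · left
    simp [ea, eb]
  · right
    simp [ea, eb]

private theorem DRgB_tri (u v w : V) : nrm (u - w) ≤ nrm (u - v) + nrm (v - w) := by
  unfold nrm
  simp only [Prod.fst_sub, Prod.snd_sub]
  have h1 := abs_sub_le u.1 v.1 w.1
  have h2 := abs_sub_le u.2 v.2 w.2
  apply max_le
  · exact h1.trans (add_le_add (le_max_left _ _) (le_max_left _ _))
  · exact h2.trans (add_le_add (le_max_right _ _) (le_max_right _ _))

private theorem DRgB_edge (e : Edge) : nrm (ea e - eb e) ≤ 1 ∧ nrm (eb e - ea e) ≤ 1 := by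
  rw [DRgB_nrm, DRgB_nrm]
  rcases DRgB_ends e with h | h
  · rw [h]
    simp
    omega
  · rw [h]
    simp
    omega

/-- two circuits of the same radius with centres at distance at most `4 r` meet -/
theorem ring_adj {a a' : V} {r : ℤ} (hr : 0 ≤ r) {η : Finset Edge} {v v' : V} (ha : nrm (a' - a) ≤ 4 * r)
    (hv : RP a r η v) (hv' : RP a' r η v') : (gr η).Reachable v v' := by
  rw [DRgB_nrm] at ha
  obtain ⟨-, -, ⟨x3, x3', e1, e2, e3, e4, c3, d3⟩, ⟨x4, x4', f1, f2, f3, f4, c4, d4⟩⟩ := hv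
  obtain ⟨⟨y1, y1', a1, a2, a3, a4, c1, d1⟩, ⟨y2, y2', b1, b2, b3, b4, c2, d2⟩, -, -⟩ := hv'
  rcases le_total a.1 a'.1 with hx | hx
  · rcases le_total a.2 a'.2 with hy | hy
    · have h := cross (by omega) (by omega) (by omega) (by omega) ⟨b1, b2⟩ ⟨b3, b4⟩ ⟨e1, e2⟩ ⟨e3, e4⟩ c2 c3
      exact (d3.reach.trans h.symm).trans d2.reach.symm
    · have h := cross (by omega) (by omega) (by omega) (by omega) ⟨a1, a2⟩ ⟨a3, a4⟩ ⟨e1, e2⟩ ⟨e3, e4⟩ c1 c3
      exact (d3.reach.trans h.symm).trans d1.reach.symm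
  · rcases le_total a.2 a'.2 with hy | hy
    · have h := cross (by omega) (by omega) (by omega) (by omega) ⟨b1, b2⟩ ⟨b3, b4⟩ ⟨f1, f2⟩ ⟨f3, f4⟩ c2 c4
      exact (d4.reach.trans h.symm).trans d2.reach.symm
    · have h := cross (by omega) (by omega) (by omega) (by omega) ⟨a1, a2⟩ ⟨a3, a4⟩ ⟨f1, f2⟩ ⟨f3, f4⟩ c1 c4
      exact (d4.reach.trans h.symm).trans d1.reach.symm

/-- all points of `RP a r η` are connected to each other -/
theorem ring_uniq {a : V} {r : ℤ} (hr : 0 ≤ r) {η : Finset Edge} {v v' : V}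
    (hv : RP a r η v) (hv' : RP a r η v') : (gr η).Reachable v v' :=
  ring_adj hr (DRgB_nrm.2 ⟨by omega, by omega, by omega, by omega⟩) hv hv'

/-- a path from the inner box to the outside meets the circuit -/
theorem ring_cross {a : V} {r : ℤ} (hr : 0 ≤ r) {η : Finset Edge} {u w v : V} (hu : nrm (u - a) ≤ r)
    (hw : 3 * r ≤ nrm (w - a)) (hc : (gr η).Reachable u w) (hv : RP a r η v) : (gr η).Reachable u v := by
  have hc0 : Conn η η u w := Conn.of_reach (Finset.Subset.refl _) hc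
  obtain ⟨c, hc1, -, hc2⟩ := first_hit (F := η) (ω := η) (fun v => nrm (v - a)) (t := 3 * r) (a := u) (b := w)
    (fun e _ => by
      show nrm (ea e - a) - nrm (eb e - a) ≤ 1 ∧ nrm (eb e - a) - nrm (ea e - a) ≤ 1
      have h1 := DRgB_tri (ea e) (eb e) a
      have h2 := DRgB_tri (eb e) (ea e) a
      have h3 := DRgB_edge e
      omega) (le_trans hu (by omega)) hw hc0
  have hcN : nrm (c - a) ≤ 3 * r := le_of_eq hc1
  rw [DRgB_nrm] at hu hcN
  obtain ⟨⟨y1, y1', a1, a2, a3, a4, g1, d1⟩, ⟨y2, y2', b1, b2, b3, b4, g2, d2⟩,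
    ⟨x3, x3', e1, e2, e3, e4, g3, d3⟩, ⟨x4, x4', f1, f2, f3, f4, g4, d4⟩⟩ := hv
  have hF : ∀ e ∈ η.filter (fun e => nrm (ea e - a) ≤ 3 * r ∧ nrm (eb e - a) ≤ 3 * r),
      (a.1 - 3 * r ≤ (ea e).1 ∧ (ea e).1 ≤ a.1 + 3 * r ∧ a.2 - 3 * r ≤ (ea e).2 ∧ (ea e).2 ≤ a.2 + 3 * r) ∧
      (a.1 - 3 * r ≤ (eb e).1 ∧ (eb e).1 ≤ a.1 + 3 * r ∧ a.2 - 3 * r ≤ (eb e).2 ∧ (eb e).2 ≤ a.2 + 3 * r) := by
    intro e he
    rw [mem_filter] at he
    exact ⟨DRgB_nrm.1 he.2.1, DRgB_nrm.1 he.2.2⟩
  have hcase : c.1 = a.1 + 3 * r ∨ c.1 = a.1 - 3 * r ∨ c.2 = a.2 + 3 * r ∨ c.2 = a.2 - 3 * r := by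
    have h : nrm (c - a) = 3 * r := hc1
    by_contra hcon
    push Not at hcon
    have h2 : nrm (c - a) ≤ 3 * r - 1 := DRgB_nrm.2 ⟨by omega, by omega, by omega, by omega⟩
    omega
  rcases hcase with hcc | hcc | hcc | hcc
  · -- right
    obtain ⟨c', k1, k2, k3⟩ := last_exit (fun v => v.1 - a.1) (t := r) (a := u) (b := c)
      (fun e _ => by
        show (ea e).1 - a.1 - ((eb e).1 - a.1) ≤ 1 ∧ (eb e).1 - a.1 - ((ea e).1 - a.1) ≤ 1
        rcases DRgB_ends e with h | h
        · rw [h]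
          constructor <;> omega
        · rw [h]
          constructor <;> omega) (by show u.1 - a.1 ≤ r; omega) (by show r ≤ c.1 - a.1; omega) hc2
    have k1' : c'.1 = a.1 + r := by
      have : c'.1 - a.1 = r := k1
      omega
    have k4 : Conn (box (a.1 + r) (a.1 + 3 * r) (a.2 - 3 * r) (a.2 + 3 * r)) η c' c := by
      refine k3.mono ?_ (Finset.Subset.refl _)
      intro e he
      rw [mem_filter] at he
      have h1 := hF e he.1
      have h2 : r ≤ (ea e).1 - a.1 ∧ r ≤ (eb e).1 - a.1 := he.2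
      exact DRgB_mem ⟨by omega, by omega, by omega, by omega⟩ ⟨by omega, by omega, by omega, by omega⟩
    have k5 := conn_mem_box k4.symm ⟨by omega, by omega, by omega, by omega⟩
    have hc' : c' = (a.1 + r, c'.2) := Prod.ext k1' rfl
    have hcx : c = (a.1 + 3 * r, c.2) := Prod.ext hcc rfl
    rw [hc', hcx] at k4
    have h := cross (le_refl _) (le_refl _) (le_refl _) (le_refl _) ⟨by omega, by omega⟩ ⟨by omega, by omega⟩
      ⟨e1, e2⟩ ⟨e3, e4⟩ k4 g3
    rw [← hc'] at h
    exact (k2.reach.trans h).trans d3.reach.symm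
  · -- left
    obtain ⟨c', k1, k2, k3⟩ := last_exit (fun v => a.1 - v.1) (t := r) (a := u) (b := c)
      (fun e _ => by
        show a.1 - (ea e).1 - (a.1 - (eb e).1) ≤ 1 ∧ a.1 - (eb e).1 - (a.1 - (ea e).1) ≤ 1
        rcases DRgB_ends e with h | h
        · rw [h]
          constructor <;> omega
        · rw [h]
          constructor <;> omega) (by show a.1 - u.1 ≤ r; omega) (by show r ≤ a.1 - c.1; omega) hc2
    have k1' : c'.1 = a.1 - r := by
      have : a.1 - c'.1 = r := k1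
      omega
    have k4 : Conn (box (a.1 - 3 * r) (a.1 - r) (a.2 - 3 * r) (a.2 + 3 * r)) η c' c := by
      refine k3.mono ?_ (Finset.Subset.refl _)
      intro e he
      rw [mem_filter] at he
      have h1 := hF e he.1
      have h2 : r ≤ a.1 - (ea e).1 ∧ r ≤ a.1 - (eb e).1 := he.2
      exact DRgB_mem ⟨by omega, by omega, by omega, by omega⟩ ⟨by omega, by omega, by omega, by omega⟩
    have k5 := conn_mem_box k4.symm ⟨by omega, by omega, by omega, by omega⟩
    have hc' : c' = (a.1 - r, c'.2) := Prod.ext k1' rfl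
    have hcx : c = (a.1 - 3 * r, c.2) := Prod.ext hcc rfl
    have k6 := k4.symm
    rw [hc', hcx] at k6
    have h := cross (le_refl _) (le_refl _) (le_refl _) (le_refl _) ⟨by omega, by omega⟩ ⟨by omega, by omega⟩
      ⟨f1, f2⟩ ⟨f3, f4⟩ k6 g4
    rw [← hcx] at h
    exact ((k2.reach.trans k4.reach).trans h).trans d4.reach.symm
  · -- top
    obtain ⟨c', k1, k2, k3⟩ := last_exit (fun v => v.2 - a.2) (t := r) (a := u) (b := c)
      (fun e _ => by
        show (ea e).2 - a.2 - ((eb e).2 - a.2) ≤ 1 ∧ (eb e).2 - a.2 - ((ea e).2 - a.2) ≤ 1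
        rcases DRgB_ends e with h | h
        · rw [h]
          constructor <;> omega
        · rw [h]
          constructor <;> omega) (by show u.2 - a.2 ≤ r; omega) (by show r ≤ c.2 - a.2; omega) hc2
    have k1' : c'.2 = a.2 + r := by
      have : c'.2 - a.2 = r := k1
      omega
    have k4 : Conn (box (a.1 - 3 * r) (a.1 + 3 * r) (a.2 + r) (a.2 + 3 * r)) η c' c := by
      refine k3.mono ?_ (Finset.Subset.refl _)
      intro e he
      rw [mem_filter] at he
      have h1 := hF e he.1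
      have h2 : r ≤ (ea e).2 - a.2 ∧ r ≤ (eb e).2 - a.2 := he.2
      exact DRgB_mem ⟨by omega, by omega, by omega, by omega⟩ ⟨by omega, by omega, by omega, by omega⟩
    have k5 := conn_mem_box k4.symm ⟨by omega, by omega, by omega, by omega⟩
    have hc' : c' = (c'.1, a.2 + r) := Prod.ext rfl k1'
    have hcx : c = (c.1, a.2 + 3 * r) := Prod.ext rfl hcc
    rw [hc', hcx] at k4
    have h := cross (le_refl _) (le_refl _) (le_refl _) (le_refl _) ⟨a1, a2⟩ ⟨a3, a4⟩
      ⟨by omega, by omega⟩ ⟨by omega, by omega⟩ g1 k4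
    rw [← hc'] at h
    exact (k2.reach.trans h.symm).trans d1.reach.symm
  · -- bottom
    obtain ⟨c', k1, k2, k3⟩ := last_exit (fun v => a.2 - v.2) (t := r) (a := u) (b := c)
      (fun e _ => by
        show a.2 - (ea e).2 - (a.2 - (eb e).2) ≤ 1 ∧ a.2 - (eb e).2 - (a.2 - (ea e).2) ≤ 1
        rcases DRgB_ends e with h | h
        · rw [h]
          constructor <;> omega
        · rw [h]
          constructor <;> omega) (by show a.2 - u.2 ≤ r; omega) (by show r ≤ a.2 - c.2; omega) hc2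
    have k1' : c'.2 = a.2 - r := by
      have : a.2 - c'.2 = r := k1
      omega
    have k4 : Conn (box (a.1 - 3 * r) (a.1 + 3 * r) (a.2 - 3 * r) (a.2 - r)) η c' c := by
      refine k3.mono ?_ (Finset.Subset.refl _)
      intro e he
      rw [mem_filter] at he
      have h1 := hF e he.1
      have h2 : r ≤ a.2 - (ea e).2 ∧ r ≤ a.2 - (eb e).2 := he.2
      exact DRgB_mem ⟨by omega, by omega, by omega, by omega⟩ ⟨by omega, by omega, by omega, by omega⟩
    have k5 := conn_mem_box k4.symm ⟨by omega, by omega, by omega, by omega⟩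
    have hc' : c' = (c'.1, a.2 - r) := Prod.ext rfl k1'
    have hcx : c = (c.1, a.2 - 3 * r) := Prod.ext rfl hcc
    have k6 := k4.symm
    rw [hc', hcx] at k6
    have h := cross (le_refl _) (le_refl _) (le_refl _) (le_refl _) ⟨b1, b2⟩ ⟨b3, b4⟩
      ⟨by omega, by omega⟩ ⟨by omega, by omega⟩ g2 k6
    rw [← hcx] at h
    exact ((k2.reach.trans k4.reach).trans h.symm).trans d2.reach.symm

/-- a chain of circuits -/
theorem chain_reach {c : ℕ → V} {T : ℕ} {r : ℤ} (hr : 0 ≤ r) (hs : ∀ j < T, nrm (c (j + 1) - c j) ≤ 4 * r)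
    {η : Finset Edge} (hR : ∀ j ≤ T, Ring (c j) r η) {v : V} (hv : RP (c 0) r η v) :
    ∀ j ≤ T, ∀ w, RP (c j) r η w → (gr η).Reachable v w := by
  intro j
  induction j with
  | zero =>
    intro _ w hw
    exact ring_uniq hr hv hw
  | succ j ih =>
    intro hj w hw
    obtain ⟨w0, hw0⟩ := hR j (by omega)
    exact (ih (by omega) w0 hw0).trans (ring_adj hr (hs j (by omega)) hw0 hw)

/-- a chain of small circuits from the outside of a big circuit to its inner box is connected to the big circuit -/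
theorem chain_big {c : ℕ → V} {T : ℕ} {r r' : ℤ} (hr : 0 ≤ r) (hr' : 0 ≤ r') (hs : ∀ j < T, nrm (c (j + 1) - c j) ≤ 4 * r)
    {a' : V} {j₁ j₂ : ℕ} (h1 : j₁ ≤ T) (h2 : j₂ ≤ T) (hj1 : 3 * r' + 3 * r ≤ nrm (c j₁ - a'))
    (hj2 : nrm (c j₂ - a') + 3 * r ≤ r') {η : Finset Edge} (hR : ∀ j ≤ T, Ring (c j) r η) {v w : V}
    (hv : RP (c 0) r η v) (hw : RP a' r' η w) : (gr η).Reachable v w := by
  obtain ⟨w1, hw1⟩ := hR j₁ h1
  obtain ⟨w2, hw2⟩ := hR j₂ h2
  have n1 := RP_near hr hw1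
  have n2 := RP_near hr hw2
  have k1 := chain_reach hr hs hR hv j₁ h1 w1 hw1
  have k2 := chain_reach hr hs hR hv j₂ h2 w2 hw2
  have m1 : 3 * r' ≤ nrm (w1 - a') := by
    have h := DRgB_tri (c j₁) w1 a'
    have h3 : nrm (c j₁ - w1) ≤ 3 * r := by
      rw [DRgB_nrm] at n1 ⊢
      omega
    omega
  have m2 : nrm (w2 - a') ≤ r' := by
    have h := DRgB_tri w2 (c j₂) a'
    omega
  exact k2.trans (ring_cross hr' m2 m1 (k2.symm.trans k1) hw)

end FKN
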