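import Pool.Agent.Lib.MP_216314_pr.N.NTb
import Pool.Agent.Lib.MP_216314_pr.N.DDef

/-!
# Stream D: intersection numbers on the torus

`tdg m ω`: the lifted graph of the faces of the torus, two neighbouring faces are joined when the edge between them is closed.
`tor_int`: an open path from `v` to `v + (2 m + 1) w` and a dual path from `f` to `f + (2 m + 1) u` exist together only if `w`, `u` are parallel.

PROOF. Let `N = 2 m + 1`. For `c : Edge → ℤ` and a face `F` let `circ c F = c (F.1, F.2, false) + c (F.1 + 1, F.2, true) - c (F.1, F.2 + 1, false) - c (F.1, F.2, true)`.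
CLAIM A. If `(tdg m ω).Reachable f g` then there is `c : Edge → ℤ` with
 (i) `c (shv (pr m z) e) = c e`;  (ii) `c e = 0` if `cm m e ∈ ω`;
 (iii) `circ c F = [F ≡ g] - [F ≡ f]` where `[F ≡ G] = if bal m F.1 = bal m G.1 ∧ bal m F.2 = bal m G.2 then 1 else 0`;
 (iv) `∑ i ∈ range N, c (a + i, y, false) = (g.2 - y) / N - (f.2 - y) / N` (floor division) for all `a y`;
 (v) `∑ i ∈ range N, c (x, a + i, true) = -((g.1 - x) / N - (f.1 - x) / N)` for all `a x`.
Induction on the walk. Empty walk: `c = 0`. A step across the edge `e` (`cm m e ∉ ω`): let `δ e' = if cm m e' = cm m e then 1 else 0`. The faces of `e = (a, b, false)` are `ea (dl e) = (a, b - 1)`, `eb (dl e) = (a, b)`, those of `e = (a, b, true)` are `(a - 1, b)`, `(a, b)`.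
For a horizontal edge add `δ` for the step from `ea (dl e)` to `eb (dl e)` and subtract it for the reverse step; for a vertical edge subtract `δ`, respectively add it. Check of (iii): horizontal `e`: `circ δ F = [F ≡ (a,b)] - [(F.1, F.2 + 1) ≡ (a,b)]`; vertical:
`circ δ F = [(F.1 + 1, F.2) ≡ (a,b)] - [F ≡ (a,b)]`. (iv): for horizontal `e` the sum of `δ` over a period is `1` if `N ∣ b - y`, else `0`, which is `(b - y) / N - (b - 1 - y) / N`; for vertical `e` both sides are `0`. (v) similar. (Residues: `bal_eq`, `cm_eq` of NTa; exactly one `i` in a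
period has a given residue.)
CLAIM B. Now `g = f + pr m u`, so `circ c = 0`, the sums in (iv) are `u.2`, those in (v) are `- u.1`. There is `k : V → ℤ` with `k (eb e) - k (ea e) = c e` for all `e`: `k (x, y) = P x + Q x y`, `P (x + 1) - P x = c (x, 0, false)`, `Q x 0 = 0`, `Q x (y + 1) - Q x y = c (x, y, true)` (primitives of
functions on `ℤ` exist); `k (x + 1, y) - k (x, y) = c (x, y, false)` by induction on `y` in both directions and `circ c = 0`.
CLAIM C. `k (x + N, y) = k (x, y) + u.2`, `k (x, y + N) = k (x, y) - u.1` (sums over a period), so `k (v + pr m w) = k v + w.1 * u.2 - w.2 * u.1` (`Int.induction_on`). By (ii) `k` is constant on the clusters of `tgr m ω`. Hence `w.1 * u.2 = w.2 * u.1`.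
`not_W_of_dual`: `u = (0, 1)` gives `w.1 = 0`, `u = (1, 0)` gives `w.2 = 0`.
`tdg_shift`: as `tgr_shift` in NTb.
-/

set_option autoImplicit false

noncomputable section

namespace FKN

open Finset FKI FKP

/-- the lifted graph of the faces -/
def tdg (m : ℕ) (ω : Finset Edge) : SimpleGraph V :=
  SimpleGraph.fromRel (fun f g => ∃ e : Edge, cm m e ∉ ω ∧ ea (dl e) = f ∧ eb (dl e) = g)

private theorem DTorA_dl_ne (e : Edge) : ea (dl e) ≠ eb (dl e) := by
  obtain ⟨a, b, c⟩ := e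
  intro h
  have e1 := congrArg Prod.fst h
  have e2 := congrArg Prod.snd h
  cases c <;> simp [dl, ea, eb] at e1 e2

private theorem DTorA_adj {m : ℕ} {ω : Finset Edge} {u v : V} : (tdg m ω).Adj u v ↔
    ∃ e : Edge, cm m e ∉ ω ∧ ((ea (dl e) = u ∧ eb (dl e) = v) ∨ (ea (dl e) = v ∧ eb (dl e) = u)) := by
  unfold tdg
  rw [SimpleGraph.fromRel_adj]
  constructor
  · rintro ⟨_, ⟨e, h1, h2, h3⟩ | ⟨e, h1, h2, h3⟩⟩
    · exact ⟨e, h1, Or.inl ⟨h2, h3⟩⟩
    · exact ⟨e, h1, Or.inr ⟨h2, h3⟩⟩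
  · rintro ⟨e, h1, ⟨rfl, rfl⟩ | ⟨rfl, rfl⟩⟩
    · exact ⟨DTorA_dl_ne e, Or.inl ⟨e, h1, rfl, rfl⟩⟩
    · exact ⟨(DTorA_dl_ne e).symm, Or.inr ⟨e, h1, rfl, rfl⟩⟩

theorem tdg_edge {m : ℕ} {ω : Finset Edge} {e : Edge} (h : cm m e ∉ ω) : (tdg m ω).Reachable (ea (dl e)) (eb (dl e)) := by
  exact (DTorA_adj.2 ⟨e, h, Or.inl ⟨rfl, rfl⟩⟩).reachable

theorem tdg_anti {m : ℕ} {ω ω' : Finset Edge} (h : ω ⊆ ω') : tdg m ω' ≤ tdg m ω := by
  intro u v huv
  rw [DTorA_adj] at huv ⊢
  obtain ⟨e, h1, h2⟩ := huv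
  exact ⟨e, fun h3 => h1 (h h3), h2⟩

private theorem DTorA_dl_shv (v : V) (e : Edge) : dl (shv v e) = shv v (dl e) := by
  obtain ⟨a, b, c⟩ := e
  cases c
  · show ((a + v.1, b + v.2 - 1, true) : Edge) = (a + v.1, b - 1 + v.2, true)
    rw [show b + v.2 - 1 = b - 1 + v.2 by ring]
  · show ((a + v.1 - 1, b + v.2, false) : Edge) = (a - 1 + v.1, b + v.2, false)
    rw [show a + v.1 - 1 = a - 1 + v.1 by ring]

private theorem DTorA_shift (m : ℕ) (ω : Finset Edge) (w : V) {u v : V} (h : (tdg m ω).Reachable u v) :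
    (tdg m ω).Reachable (u + pr m w) (v + pr m w) := by
  obtain ⟨p⟩ := h
  induction p with
  | nil => exact SimpleGraph.Reachable.refl _
  | @cons a b c hab p ih =>
    refine SimpleGraph.Reachable.trans (SimpleGraph.Adj.reachable ?_) ih
    rw [DTorA_adj] at hab ⊢
    obtain ⟨e, h1, h2⟩ := hab
    refine ⟨shv (pr m w) e, by rw [cm_pr]; exact h1, ?_⟩
    rw [DTorA_dl_shv, ea_shv, eb_shv]
    rcases h2 with ⟨rfl, rfl⟩ | ⟨rfl, rfl⟩
    · exact Or.inl ⟨rfl, rfl⟩
    · exact Or.inr ⟨rfl, rfl⟩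

theorem tdg_shift (m : ℕ) (ω : Finset Edge) (w u v : V) :
    (tdg m ω).Reachable (u + pr m w) (v + pr m w) ↔ (tdg m ω).Reachable u v := by
  refine ⟨fun h => ?_, DTorA_shift m ω w⟩
  have h1 := DTorA_shift m ω (-w) h
  rw [pr_neg, add_neg_cancel_right, add_neg_cancel_right] at h1
  exact h1

/-! ### Residues -/

private theorem DTorA_bal_iff (m : ℕ) (x y : ℤ) :
    bal m x = bal m y ↔ ∃ k : ℤ, x = y + (2 * m + 1) * k := by
  constructor
  · intro h
    obtain ⟨k, hk⟩ := bal_spec m x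
    obtain ⟨l, hl⟩ := bal_spec m y
    refine ⟨k - l, ?_⟩
    rw [h] at hk
    linarith
  · exact bal_eq

private theorem DTorA_bal_shift (m : ℕ) (x y c : ℤ) : bal m (x + c) = bal m y ↔ bal m x = bal m (y - c) := by
  rw [DTorA_bal_iff, DTorA_bal_iff]
  constructor
  · rintro ⟨k, hk⟩
    exact ⟨k, by linarith⟩
  · rintro ⟨k, hk⟩
    exact ⟨k, by linarith⟩

private theorem DTorA_count (m : ℕ) (a b : ℤ) :
    ∑ i ∈ range (2 * m + 1), (if bal m (a + (i : ℤ)) = bal m b then (1 : ℤ) else 0) = 1 := by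
  have hN : (0 : ℤ) < 2 * (m : ℤ) + 1 := by omega
  set r : ℤ := (b - a) % (2 * (m : ℤ) + 1) with hr
  have hr0 : 0 ≤ r := Int.emod_nonneg _ (by omega)
  have hr1 : r < 2 * (m : ℤ) + 1 := Int.emod_lt_of_pos _ hN
  have hr2 : r + (2 * (m : ℤ) + 1) * ((b - a) / (2 * (m : ℤ) + 1)) = b - a := Int.emod_add_mul_ediv _ _
  rw [Finset.sum_eq_single r.toNat]
  · rw [if_pos]
    rw [DTorA_bal_iff]
    refine ⟨-((b - a) / (2 * (m : ℤ) + 1)), ?_⟩
    rw [Int.toNat_of_nonneg hr0]
    linarith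
  · intro i hi hne
    rw [if_neg]
    intro h
    rw [DTorA_bal_iff] at h
    obtain ⟨k, hk⟩ := h
    have hi' : (i : ℤ) < 2 * (m : ℤ) + 1 := by
      have := Finset.mem_range.1 hi
      omega
    have h3 : (i : ℤ) - r = (2 * (m : ℤ) + 1) * (k + (b - a) / (2 * (m : ℤ) + 1)) := by
      linarith
    have h4 : k + (b - a) / (2 * (m : ℤ) + 1) = 0 := by
      by_contra h5
      rcases lt_or_gt_of_ne h5 with h6 | h6
      · have h7 : k + (b - a) / (2 * (m : ℤ) + 1) ≤ -1 := by omega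
        nlinarith
      · have h7 : 1 ≤ k + (b - a) / (2 * (m : ℤ) + 1) := by omega
        nlinarith
    rw [h4, mul_zero] at h3
    apply hne
    omega
  · intro h
    exfalso
    apply h
    rw [Finset.mem_range]
    omega

private theorem DTorA_floor (m : ℕ) (b y : ℤ) :
    (b - y) / (2 * (m : ℤ) + 1) - (b - 1 - y) / (2 * (m : ℤ) + 1) = if bal m y = bal m b then 1 else 0 := by
  have hN : (0 : ℤ) < 2 * (m : ℤ) + 1 := by omega
  obtain ⟨t, ht⟩ : ∃ t, t = b - y := ⟨_, rfl⟩
  have e1 : b - 1 - y = t - 1 := by omega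
  rw [e1, ← ht]
  have h0 := Int.emod_nonneg t (show (2 * (m : ℤ) + 1) ≠ 0 by omega)
  have h1 := Int.emod_lt_of_pos t hN
  have h2 := Int.emod_add_mul_ediv t (2 * (m : ℤ) + 1)
  set r := t % (2 * (m : ℤ) + 1) with hr
  set q := t / (2 * (m : ℤ) + 1) with hq
  by_cases hr0 : r = 0
  · have h3 : (t - 1) / (2 * (m : ℤ) + 1) = q - 1 := by
      have h4 : t - 1 = (2 * (m : ℤ)) + (2 * (m : ℤ) + 1) * (q - 1) := by
        rw [hr0] at h2
        linarith
      rw [h4, Int.add_mul_ediv_left _ _ (by omega), Int.ediv_eq_zero_of_lt (by omega) (by omega)]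
      ring
    rw [h3, if_pos]
    · ring
    · rw [DTorA_bal_iff]
      refine ⟨-q, ?_⟩
      rw [hr0] at h2
      linarith
  · have h3 : (t - 1) / (2 * (m : ℤ) + 1) = q := by
      have h4 : t - 1 = (r - 1) + (2 * (m : ℤ) + 1) * q := by linarith
      rw [h4, Int.add_mul_ediv_left _ _ (by omega), Int.ediv_eq_zero_of_lt (by omega) (by omega)]
      ring
    rw [h3, if_neg]
    · ring
    · intro h5
      rw [DTorA_bal_iff] at h5
      obtain ⟨k, hk⟩ := h5
      have h6 : t = (2 * (m : ℤ) + 1) * (-k) := by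
        rw [ht]
        linarith
      apply hr0
      rw [hr, h6, Int.mul_emod_right]

/-! ### Cochains -/

private def DTorA_ind (m : ℕ) (F G : V) : ℤ := if bal m F.1 = bal m G.1 ∧ bal m F.2 = bal m G.2 then 1 else 0

private structure DTorA_Coc (m : ℕ) (ω : Finset Edge) (f g : V) (c : Edge → ℤ) : Prop where
  zer : ∀ e, cm m e ∈ ω → c e = 0
  circ : ∀ x y : ℤ, c (x, y, false) + c (x + 1, y, true) - c (x, y + 1, false) - c (x, y, true) =
    DTorA_ind m (x, y) g - DTorA_ind m (x, y) f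
  sx : ∀ a y : ℤ, ∑ i ∈ range (2 * m + 1), c (a + (i : ℤ), y, false) =
    (g.2 - y) / (2 * (m : ℤ) + 1) - (f.2 - y) / (2 * (m : ℤ) + 1)
  sy : ∀ x a : ℤ, ∑ i ∈ range (2 * m + 1), c (x, a + (i : ℤ), true) =
    -((g.1 - x) / (2 * (m : ℤ) + 1) - (f.1 - x) / (2 * (m : ℤ) + 1))

private theorem DTorA_Coc_refl (m : ℕ) (ω : Finset Edge) (f : V) : DTorA_Coc m ω f f (fun _ => 0) := by
  refine ⟨fun _ _ => rfl, ?_, ?_, ?_⟩
  · intro x y
    ring
  · intro a y
    simp
  · intro a y
    simp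

private theorem DTorA_Coc_trans {m : ℕ} {ω : Finset Edge} {f g h : V} {c c' : Edge → ℤ}
    (H : DTorA_Coc m ω f g c) (H' : DTorA_Coc m ω g h c') : DTorA_Coc m ω f h (fun e => c e + c' e) := by
  refine ⟨?_, ?_, ?_, ?_⟩
  · intro e he
    show c e + c' e = 0
    rw [H.zer e he, H'.zer e he, add_zero]
  · intro x y
    have h1 := H.circ x y
    have h2 := H'.circ x y
    show c (x, y, false) + c' (x, y, false) + (c (x + 1, y, true) + c' (x + 1, y, true)) -
      (c (x, y + 1, false) + c' (x, y + 1, false)) - (c (x, y, true) + c' (x, y, true)) = _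
    linarith
  · intro a y
    rw [Finset.sum_add_distrib, H.sx, H'.sx]
    ring
  · intro x a
    rw [Finset.sum_add_distrib, H.sy, H'.sy]
    ring

private theorem DTorA_Coc_symm {m : ℕ} {ω : Finset Edge} {f g : V} {c : Edge → ℤ}
    (H : DTorA_Coc m ω f g c) : DTorA_Coc m ω g f (fun e => -c e) := by
  refine ⟨?_, ?_, ?_, ?_⟩
  · intro e he
    show -c e = 0
    rw [H.zer e he, neg_zero]
  · intro x y
    have h1 := H.circ x y
    show -c (x, y, false) + -c (x + 1, y, true) - -c (x, y + 1, false) - -c (x, y, true) = _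
    linarith
  · intro a y
    rw [Finset.sum_neg_distrib, H.sx]
    ring
  · intro x a
    rw [Finset.sum_neg_distrib, H.sy]
    ring

private theorem DTorA_cm_iff (m : ℕ) (x y a b : ℤ) (s t : Bool) :
    cm m ((x, y, s) : Edge) = cm m ((a, b, t) : Edge) ↔ (bal m x = bal m a ∧ bal m y = bal m b) ∧ s = t := by
  unfold cm
  constructor
  · intro h
    have h1 := congrArg Prod.fst h
    have h2 := congrArg Prod.snd h
    have h3 := congrArg Prod.fst h2
    have h4 := congrArg Prod.snd h2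
    exact ⟨⟨h1, h3⟩, h4⟩
  · rintro ⟨⟨h1, h2⟩, h3⟩
    exact Prod.ext h1 (Prod.ext h2 h3)

private theorem DTorA_Coc_hor {m : ℕ} {ω : Finset Edge} {a b : ℤ} (h : cm m ((a, b, false) : Edge) ∉ ω) :
    DTorA_Coc m ω (a, b - 1) (a, b) (fun e => if cm m e = cm m ((a, b, false) : Edge) then 1 else 0) := by
  refine ⟨?_, ?_, ?_, ?_⟩
  · intro e he
    show (if cm m e = cm m ((a, b, false) : Edge) then (1 : ℤ) else 0) = 0
    rw [if_neg]
    intro h1
    rw [h1] at he
    exact h he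
  · intro x y
    show (if cm m ((x, y, false) : Edge) = cm m ((a, b, false) : Edge) then (1 : ℤ) else 0) +
      (if cm m ((x + 1, y, true) : Edge) = cm m ((a, b, false) : Edge) then (1 : ℤ) else 0) -
      (if cm m ((x, y + 1, false) : Edge) = cm m ((a, b, false) : Edge) then (1 : ℤ) else 0) -
      (if cm m ((x, y, true) : Edge) = cm m ((a, b, false) : Edge) then (1 : ℤ) else 0) =
      (if bal m x = bal m a ∧ bal m y = bal m b then (1 : ℤ) else 0) -
      (if bal m x = bal m a ∧ bal m y = bal m (b - 1) then (1 : ℤ) else 0)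
    simp only [DTorA_cm_iff, DTorA_bal_shift m y b 1, and_true, Bool.true_eq_false, and_false, if_false]
    ring
  · intro a' y
    show ∑ i ∈ range (2 * m + 1),
      (if cm m ((a' + (i : ℤ), y, false) : Edge) = cm m ((a, b, false) : Edge) then (1 : ℤ) else 0) =
      (b - y) / (2 * (m : ℤ) + 1) - (b - 1 - y) / (2 * (m : ℤ) + 1)
    rw [DTorA_floor]
    simp only [DTorA_cm_iff, and_true]
    by_cases hy : bal m y = bal m b
    · rw [if_pos hy]
      refine Eq.trans ?_ (DTorA_count m a' a)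
      refine Finset.sum_congr rfl fun i _ => ?_
      simp only [hy, and_true]
    · rw [if_neg hy]
      refine Finset.sum_eq_zero fun i _ => ?_
      rw [if_neg]
      exact fun h1 => hy h1.2
  · intro x a'
    show ∑ i ∈ range (2 * m + 1),
      (if cm m ((x, a' + (i : ℤ), true) : Edge) = cm m ((a, b, false) : Edge) then (1 : ℤ) else 0) =
      -((a - x) / (2 * (m : ℤ) + 1) - (a - x) / (2 * (m : ℤ) + 1))
    rw [sub_self, neg_zero]
    refine Finset.sum_eq_zero fun i _ => ?_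
    rw [if_neg]
    rw [DTorA_cm_iff]
    exact fun h1 => absurd h1.2 (by decide)

private theorem DTorA_Coc_ver {m : ℕ} {ω : Finset Edge} {a b : ℤ} (h : cm m ((a, b, true) : Edge) ∉ ω) :
    DTorA_Coc m ω (a - 1, b) (a, b) (fun e => -(if cm m e = cm m ((a, b, true) : Edge) then 1 else 0)) := by
  refine ⟨?_, ?_, ?_, ?_⟩
  · intro e he
    show -(if cm m e = cm m ((a, b, true) : Edge) then (1 : ℤ) else 0) = 0
    rw [if_neg]
    · rfl
    intro h1
    rw [h1] at he
    exact h he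
  · intro x y
    show -(if cm m ((x, y, false) : Edge) = cm m ((a, b, true) : Edge) then (1 : ℤ) else 0) +
      -(if cm m ((x + 1, y, true) : Edge) = cm m ((a, b, true) : Edge) then (1 : ℤ) else 0) -
      -(if cm m ((x, y + 1, false) : Edge) = cm m ((a, b, true) : Edge) then (1 : ℤ) else 0) -
      -(if cm m ((x, y, true) : Edge) = cm m ((a, b, true) : Edge) then (1 : ℤ) else 0) =
      (if bal m x = bal m a ∧ bal m y = bal m b then (1 : ℤ) else 0) -
      (if bal m x = bal m (a - 1) ∧ bal m y = bal m b then (1 : ℤ) else 0)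
    simp only [DTorA_cm_iff, DTorA_bal_shift m x a 1, and_true, Bool.false_eq_true, and_false, if_false]
    ring
  · intro a' y
    show ∑ i ∈ range (2 * m + 1),
      -(if cm m ((a' + (i : ℤ), y, false) : Edge) = cm m ((a, b, true) : Edge) then (1 : ℤ) else 0) =
      (b - y) / (2 * (m : ℤ) + 1) - (b - y) / (2 * (m : ℤ) + 1)
    rw [sub_self]
    refine Finset.sum_eq_zero fun i _ => ?_
    rw [if_neg]
    · rfl
    rw [DTorA_cm_iff]
    exact fun h1 => absurd h1.2 (by decide)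
  · intro x a'
    show ∑ i ∈ range (2 * m + 1),
      -(if cm m ((x, a' + (i : ℤ), true) : Edge) = cm m ((a, b, true) : Edge) then (1 : ℤ) else 0) =
      -((a - x) / (2 * (m : ℤ) + 1) - (a - 1 - x) / (2 * (m : ℤ) + 1))
    rw [DTorA_floor, Finset.sum_neg_distrib, neg_inj]
    simp only [DTorA_cm_iff, and_true]
    by_cases hx : bal m x = bal m a
    · rw [if_pos hx]
      refine Eq.trans ?_ (DTorA_count m a' b)
      refine Finset.sum_congr rfl fun i _ => ?_
      simp only [hx, true_and]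
    · rw [if_neg hx]
      refine Finset.sum_eq_zero fun i _ => ?_
      rw [if_neg]
      exact fun h1 => hx h1.1

private theorem DTorA_Coc_edge {m : ℕ} {ω : Finset Edge} {e : Edge} (h : cm m e ∉ ω) :
    ∃ c, DTorA_Coc m ω (ea (dl e)) (eb (dl e)) c := by
  obtain ⟨a, b, t⟩ := e
  cases t
  · have e1 : ea (dl ((a, b, false) : Edge)) = (a, b - 1) := rfl
    have e2 : eb (dl ((a, b, false) : Edge)) = (a, b) := by simp [dl, eb]
    rw [e1, e2]
    exact ⟨_, DTorA_Coc_hor h⟩
  · have e1 : ea (dl ((a, b, true) : Edge)) = (a - 1, b) := rfl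
    have e2 : eb (dl ((a, b, true) : Edge)) = (a, b) := by simp [dl, eb]
    rw [e1, e2]
    exact ⟨_, DTorA_Coc_ver h⟩

private theorem DTorA_Coc_exists {m : ℕ} {ω : Finset Edge} {f g : V} (h : (tdg m ω).Reachable f g) :
    ∃ c, DTorA_Coc m ω f g c := by
  obtain ⟨p⟩ := h
  induction p with
  | nil => exact ⟨_, DTorA_Coc_refl m ω _⟩
  | @cons a b c hab p ih =>
    obtain ⟨c2, h2⟩ := ih
    rw [DTorA_adj] at hab
    obtain ⟨e, h1, ⟨rfl, rfl⟩ | ⟨rfl, rfl⟩⟩ := hab
    · obtain ⟨c1, h3⟩ := DTorA_Coc_edge h1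
      exact ⟨_, DTorA_Coc_trans h3 h2⟩
    · obtain ⟨c1, h3⟩ := DTorA_Coc_edge h1
      exact ⟨_, DTorA_Coc_trans (DTorA_Coc_symm h3) h2⟩

/-! ### Potentials -/

private theorem DTorA_prim (p : ℤ → ℤ) : ∃ P : ℤ → ℤ, P 0 = 0 ∧ ∀ x, P (x + 1) = P x + p x := by
  refine ⟨fun x => ∑ i ∈ range x.toNat, p i - ∑ i ∈ range (-x).toNat, p (-(i : ℤ) - 1), by simp, ?_⟩
  intro x
  show ∑ i ∈ range (x + 1).toNat, p i - ∑ i ∈ range (-(x + 1)).toNat, p (-(i : ℤ) - 1) =
    ∑ i ∈ range x.toNat, p i - ∑ i ∈ range (-x).toNat, p (-(i : ℤ) - 1) + p x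
  rcases le_or_gt 0 x with hx | hx
  · have e1 : (x + 1).toNat = x.toNat + 1 := by omega
    have e2 : (-(x + 1)).toNat = 0 := by omega
    have e3 : (-x).toNat = 0 := by omega
    rw [e1, e2, e3, Finset.sum_range_succ, Int.toNat_of_nonneg hx]
    ring
  · have e1 : (x + 1).toNat = 0 := by omega
    have e2 : (-x).toNat = (-(x + 1)).toNat + 1 := by omega
    have e3 : x.toNat = 0 := by omega
    have e4 : (((-(x + 1)).toNat : ℕ) : ℤ) = -(x + 1) := Int.toNat_of_nonneg (by omega)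
    rw [e1, e2, e3, Finset.sum_range_succ, e4]
    have e5 : -(-(x + 1)) - 1 = x := by ring
    rw [e5]
    ring

private theorem DTorA_pot {c : Edge → ℤ}
    (hc : ∀ x y : ℤ, c (x, y, false) + c (x + 1, y, true) - c (x, y + 1, false) - c (x, y, true) = 0) :
    ∃ k : ℤ → ℤ → ℤ, (∀ x y, k (x + 1) y = k x y + c (x, y, false)) ∧
      (∀ x y, k x (y + 1) = k x y + c (x, y, true)) := by
  obtain ⟨P, hP0, hP⟩ := DTorA_prim (fun x => c (x, 0, false))
  have hQ : ∀ x : ℤ, ∃ Q : ℤ → ℤ, Q 0 = 0 ∧ ∀ y, Q (y + 1) = Q y + c (x, y, true) :=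
    fun x => DTorA_prim (fun y => c (x, y, true))
  choose Q hQ0 hQ1 using hQ
  refine ⟨fun x y => P x + Q x y, ?_, ?_⟩
  · intro x y
    show P (x + 1) + Q (x + 1) y = P x + Q x y + c (x, y, false)
    have hP1 : P (x + 1) = P x + c (x, 0, false) := hP x
    rw [hP1]
    have key : Q (x + 1) y + c (x, 0, false) = Q x y + c (x, y, false) := by
      induction y using Int.induction_on with
      | zero => rw [hQ0, hQ0]
      | succ i ih =>
        rw [hQ1, hQ1]
        have h1 := hc x i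
        linarith
      | pred i ih =>
        have h1 := hc x (-(i : ℤ) - 1)
        have h2 := hQ1 (x + 1) (-(i : ℤ) - 1)
        have h3 := hQ1 x (-(i : ℤ) - 1)
        rw [sub_add_cancel] at h1 h2 h3
        linarith
    linarith
  · intro x y
    show P x + Q x (y + 1) = P x + Q x y + c (x, y, true)
    rw [hQ1]
    ring

private theorem DTorA_per {K : ℤ → ℤ} {N s : ℤ} (h : ∀ x, K (x + N) = K x + s) (x j : ℤ) :
    K (x + N * j) = K x + j * s := by
  induction j using Int.induction_on with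
  | zero =>
    rw [mul_zero, add_zero, zero_mul, add_zero]
  | succ i ih =>
    have e1 : x + N * ((i : ℤ) + 1) = x + N * i + N := by ring
    rw [e1, h, ih]
    ring
  | pred i ih =>
    have e1 : x + N * (-(i : ℤ)) = x + N * (-(i : ℤ) - 1) + N := by ring
    rw [e1, h] at ih
    linarith

private theorem DTorA_sum_x {c : Edge → ℤ} {k : ℤ → ℤ → ℤ} (h : ∀ x y, k (x + 1) y = k x y + c (x, y, false))
    (x y : ℤ) (n : ℕ) : k (x + n) y = k x y + ∑ i ∈ range n, c (x + (i : ℤ), y, false) := by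
  induction n with
  | zero => simp
  | succ n ih =>
    rw [Finset.sum_range_succ]
    have e1 : x + ((n + 1 : ℕ) : ℤ) = x + (n : ℤ) + 1 := by
      push_cast
      ring
    rw [e1, h, ih]
    ring

private theorem DTorA_sum_y {c : Edge → ℤ} {k : ℤ → ℤ → ℤ} (h : ∀ x y, k x (y + 1) = k x y + c (x, y, true))
    (x y : ℤ) (n : ℕ) : k x (y + n) = k x y + ∑ i ∈ range n, c (x, y + (i : ℤ), true) := by
  induction n with
  | zero => simp
  | succ n ih =>
    rw [Finset.sum_range_succ]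
    have e1 : y + ((n + 1 : ℕ) : ℤ) = y + (n : ℤ) + 1 := by
      push_cast
      ring
    rw [e1, h, ih]
    ring

private theorem DTorA_period (m : ℕ) (g x u : ℤ) :
    (g + (2 * (m : ℤ) + 1) * u - x) / (2 * (m : ℤ) + 1) - (g - x) / (2 * (m : ℤ) + 1) = u := by
  have e1 : g + (2 * (m : ℤ) + 1) * u - x = (g - x) + (2 * (m : ℤ) + 1) * u := by ring
  rw [e1, Int.add_mul_ediv_left _ _ (by omega)]
  ring

theorem tor_int {m : ℕ} {ω : Finset Edge} {f v u w : V} (hd : (tdg m ω).Reachable f (f + pr m u))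
    (hp : (tgr m ω).Reachable v (v + pr m w)) : w.1 * u.2 = w.2 * u.1 := by
  obtain ⟨c, hc⟩ := DTorA_Coc_exists hd
  have hind : ∀ x y : ℤ, DTorA_ind m (x, y) (f + pr m u) = DTorA_ind m (x, y) f := by
    intro x y
    unfold DTorA_ind
    have e1 : bal m (f + pr m u).1 = bal m f.1 := bal_add m f.1 u.1
    have e2 : bal m (f + pr m u).2 = bal m f.2 := bal_add m f.2 u.2
    rw [e1, e2]
  obtain ⟨k, hk1, hk2⟩ := DTorA_pot (c := c) (fun x y => by rw [hc.circ, hind, sub_self])
  have hx : ∀ y x : ℤ, k (x + (2 * (m : ℤ) + 1)) y = k x y + u.2 := by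
    intro y x
    have h1 := DTorA_sum_x hk1 x y (2 * m + 1)
    rw [hc.sx] at h1
    have e1 : (f + pr m u).2 = f.2 + (2 * (m : ℤ) + 1) * u.2 := rfl
    rw [e1, DTorA_period] at h1
    have e2 : ((2 * m + 1 : ℕ) : ℤ) = 2 * (m : ℤ) + 1 := by push_cast; rfl
    rw [e2] at h1
    exact h1
  have hy : ∀ x y : ℤ, k x (y + (2 * (m : ℤ) + 1)) = k x y + (-u.1) := by
    intro x y
    have h1 := DTorA_sum_y hk2 x y (2 * m + 1)
    rw [hc.sy] at h1
    have e1 : (f + pr m u).1 = f.1 + (2 * (m : ℤ) + 1) * u.1 := rfl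
    rw [e1, DTorA_period] at h1
    have e2 : ((2 * m + 1 : ℕ) : ℤ) = 2 * (m : ℤ) + 1 := by push_cast; rfl
    rw [e2] at h1
    exact h1
  have hconst : ∀ a b : V, (tgr m ω).Reachable a b → k a.1 a.2 = k b.1 b.2 := by
    intro a b hab
    obtain ⟨p⟩ := hab
    induction p with
    | nil => rfl
    | @cons a b d hab p ih =>
      rw [← ih]
      rw [tgr_adj] at hab
      obtain ⟨e, h1, h2⟩ := hab
      have h3 : k (ea e).1 (ea e).2 = k (eb e).1 (eb e).2 := by
        have h4 := hc.zer e h1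
        obtain ⟨x, y, t⟩ := e
        cases t
        · have e1 : eb ((x, y, false) : Edge) = (x + 1, y) := by simp [eb]
          rw [e1]
          show k x y = k (x + 1) y
          rw [hk1, h4, add_zero]
        · have e1 : eb ((x, y, true) : Edge) = (x, y + 1) := by simp [eb]
          rw [e1]
          show k x y = k x (y + 1)
          rw [hk2, h4, add_zero]
      rcases h2 with ⟨rfl, rfl⟩ | ⟨rfl, rfl⟩
      · exact h3
      · exact h3.symm
  have h5 := hconst _ _ hp
  have h6 : k (v + pr m w).1 (v + pr m w).2 = k v.1 v.2 + w.1 * u.2 + w.2 * (-u.1) := by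
    have e1 : (v + pr m w).1 = v.1 + (2 * (m : ℤ) + 1) * w.1 := rfl
    have e2 : (v + pr m w).2 = v.2 + (2 * (m : ℤ) + 1) * w.2 := rfl
    rw [e1, e2, DTorA_per (K := fun y => k (v.1 + (2 * (m : ℤ) + 1) * w.1) y) (hy _) v.2 w.2,
      DTorA_per (K := fun x => k x v.2) (hx v.2) v.1 w.1]
  rw [h6] at h5
  linarith

theorem not_W_of_dual {m : ℕ} {ω : Finset Edge} {f g : V} (h1 : (tdg m ω).Reachable f (f + pr m (0, 1)))
    (h2 : (tdg m ω).Reachable g (g + pr m (1, 0))) : ¬ W m ω := by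
  rintro ⟨v, w, hw, hr⟩
  have h3 := tor_int h1 hr
  have h4 := tor_int h2 hr
  have h5 : w.1 * 1 = w.2 * 0 := h3
  have h6 : w.1 * 0 = w.2 * 1 := h4
  apply hw
  refine Prod.ext ?_ ?_
  · show w.1 = 0
    linarith
  · show w.2 = 0
    linarith

end FKN
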