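import Mathlib
import Pool.Agent.Lib.MP_216314_pr.P.PCross
import Pool.Agent.Lib.MP_216314_pr.N.NTc
import Pool.Agent.Lib.MP_216314_pr.N.NTd

/-!
# JOB NTm: construction of winding loops (combinatorics, about 250 lines)

* `lf m F ω = F.filter (cm m e ∈ ω)`: planar configuration on a finite set `F` of edges of the lift.  `conn_lf`: if `box x1 x2 y1 y2 ⊆ TE m` and `Conn (box x1 x2 y1 y2) (sh m (-z) ω) u w`, then with
  `B = box (z.1 + x1) (z.1 + x2) (z.2 + y1) (z.2 + y2)`: `Conn B (lf m F ω) (u + z) (w + z)` for every `F ⊇ B`: an edge `e ∈ box x1 x2 y1 y2 ∩ sh m (-z) ω` gives the edge `shv z e ∈ B` with `cm m (shv z e) ∈ ω` (`mem_sh`, `cm_self`).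
* `lf_tgr`: `(gr (lf m F ω)).Reachable u w → (tgr m ω).Reachable u w` (`SimpleGraph.Reachable.mono`).
* `cross_tor`: `conn_lf` for both with `F` the union of both boxes, then `FKP.cross` and `lf_tgr`.
* `net` : `λ = VC 0 m (-m) m ω`, `σ = VC 0 m (-m) m (sh m (0, -(m : ℤ)) ω)` (a vertical crossing of the rectangle `[0, m] × [0, 2 m]` of the lift, `z = (0, m)`; and also of `[0, m] × [-2m-1, -1]`, `z = (0, -m-1)`: the two `z` differ by a period, `sh m (-z) ω` is the same: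
  `sh_per`), `τ = HC (-m) m 0 m ω`, `β = HC (-m) m (-m) (-1) ω`.  `cross_tor` four times: `τ ~ λ`, `τ ~ σ`, `β ~ λ`, `β ~ σ - pr (0, 1)` (`~`: the starting points of the fixed crossings are connected in the lift).
  So the starting point `b` of `λ` satisfies `b ~ b + pr (0, 1)` (`tgr_shift`).  `ω = sh m (-0) ω` by `sh_zero`.
* `T5b_comb`: moreover `λ' = VC (-m) 0 (-m) m ω`, which meets `τ`.  The arm: `One m ω`: `Conn (bx m) ω 0 z`, `nrm z = m`, so `z.1 = m` or `z.1 = -m` or `z.2 = m` or `z.2 = -m`.  `z.1 = m`: `subcross` with `f = (·.1)`, `s = 0`, `t = m` in `gr (ω ∩ bx m)`: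
  a connection inside `[0, m] × [-m, m]` from `x = 0` to `x = m`, connected to `0`; it is a horizontal crossing of `box 0 m (-m) m`; `cross_tor` (or `FKP.cross`) with `λ`.  `z.1 = -m`: with `λ'` (`f = -x`).  `z.2 = m`: vertical crossing of `[-m, m] × [0, m]`, meets `τ`.
  `z.2 = -m`: `f = -y`, `s = 1`, `t = m`: vertical crossing of `[-m, m] × [-m, -1]`, meets `β`.  So `0 ~ b` and `0 ~ b ~ b + pr (0,1) ~ pr (0, 1)`.
-/

set_option autoImplicit false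

namespace FKN

open Finset FKI FKP

/-- planar configuration -/
def lf (m : ℕ) (F ω : Finset Edge) : Finset Edge := F.filter (fun e => cm m e ∈ ω)

theorem NTm_ne (e : Edge) : ea e ≠ eb e := by
  obtain ⟨x, y, t⟩ := e
  cases t <;> simp [ea, eb]

theorem NTm_adj {ω : Finset Edge} {u v : V} (h : (gr ω).Adj u v) :
    ∃ e ∈ ω, (ea e = u ∧ eb e = v) ∨ (ea e = v ∧ eb e = u) := by
  unfold gr at h
  rw [SimpleGraph.fromRel_adj] at h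
  rcases h.2 with ⟨e, he, h1, h2⟩ | ⟨e, he, h1, h2⟩
  · exact ⟨e, he, Or.inl ⟨h1, h2⟩⟩
  · exact ⟨e, he, Or.inr ⟨h1, h2⟩⟩

theorem NTm_map {ω : Finset Edge} {G : SimpleGraph V} (f : V → V)
    (hf : ∀ e ∈ ω, G.Reachable (f (ea e)) (f (eb e))) {u v : V} (h : (gr ω).Reachable u v) :
    G.Reachable (f u) (f v) := by
  obtain ⟨p⟩ := h
  induction p with
  | nil => exact SimpleGraph.Reachable.refl _
  | cons h _ ih =>
    refine SimpleGraph.Reachable.trans ?_ ih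
    obtain ⟨e, he, ⟨h1, h2⟩ | ⟨h1, h2⟩⟩ := NTm_adj h
    · rw [← h1, ← h2]
      exact hf e he
    · rw [← h1, ← h2]
      exact (hf e he).symm

theorem NTm_edge {ω : Finset Edge} {e : Edge} (he : e ∈ ω) : (gr ω).Reachable (ea e) (eb e) := by
  refine SimpleGraph.Adj.reachable ?_
  unfold gr
  rw [SimpleGraph.fromRel_adj]
  exact ⟨NTm_ne e, Or.inl ⟨e, he, rfl, rfl⟩⟩

theorem conn_lf {m : ℕ} {ω F : Finset Edge} (hω : ω ⊆ TE m) {z : V} {x1 x2 y1 y2 : ℤ} (hb : box x1 x2 y1 y2 ⊆ TE m)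
    (hF : box (z.1 + x1) (z.1 + x2) (z.2 + y1) (z.2 + y2) ⊆ F) {u w : V}
    (h : Conn (box x1 x2 y1 y2) (sh m (-z) ω) u w) :
    Conn (box (z.1 + x1) (z.1 + x2) (z.2 + y1) (z.2 + y2)) (lf m F ω) (u + z) (w + z) := by
  refine NTm_map (fun a => a + z) ?_ h
  intro e he
  rw [Finset.mem_inter] at he
  obtain ⟨he1, he2⟩ := he
  have h1 : cm m (shv z e) ∈ ω := by
    have h2 := (mem_sh (-z) hω (e := e)).1 (by rw [cm_self (hb he2)]; exact he1)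
    rw [neg_neg] at h2
    exact h2
  have h3 : shv z e ∈ box (z.1 + x1) (z.1 + x2) (z.2 + y1) (z.2 + y2) := by
    rw [mem_box] at he2 ⊢
    have s1 : (shv z e).1 = e.1 + z.1 := rfl
    have s2 : (shv z e).2.1 = e.2.1 + z.2 := rfl
    have s3 : (shv z e).2.2 = e.2.2 := rfl
    rw [s1, s2, s3]
    rcases he2 with ⟨k1, k2, k3, k4, k5⟩ | ⟨k1, k2, k3, k4, k5⟩
    · exact Or.inl ⟨k1, by omega, by omega, by omega, by omega⟩
    · exact Or.inr ⟨k1, by omega, by omega, by omega, by omega⟩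
  have h4 : shv z e ∈ lf m F ω ∩ box (z.1 + x1) (z.1 + x2) (z.2 + y1) (z.2 + y2) := by
    unfold lf
    rw [Finset.mem_inter, Finset.mem_filter]
    exact ⟨⟨hF h3, h1⟩, h3⟩
  have h5 := NTm_edge h4
  rw [ea_shv, eb_shv] at h5
  exact h5

theorem lf_tgr {m : ℕ} {ω F : Finset Edge} {u w : V} (h : (gr (lf m F ω)).Reachable u w) : (tgr m ω).Reachable u w := by
  refine NTm_map (fun a => a) ?_ h
  intro e he
  unfold lf at he
  rw [Finset.mem_filter] at he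
  exact tgr_edge he.2

theorem sh_per {m : ℕ} (z w : V) (ω : Finset Edge) : sh m (z + pr m w) ω = sh m z ω := by
  unfold sh
  refine Finset.image_congr ?_
  intro e _
  show cm m (shv (z + pr m w) e) = cm m (shv z e)
  rw [add_comm, ← shv_shv, cm_pr]

theorem cross_tor {m : ℕ} {ω : Finset Edge} (hω : ω ⊆ TE m) {z z' : V} {x1 x2 y1 y2 x3 x4 y3 y4 : ℤ}
    (hb : box x1 x2 y1 y2 ⊆ TE m) (hb' : box x3 x4 y3 y4 ⊆ TE m)
    (g1 : z.1 + x1 ≤ z'.1 + x3) (g2 : z'.1 + x4 ≤ z.1 + x2) (g3 : z'.2 + y3 ≤ z.2 + y1) (g4 : z.2 + y2 ≤ z'.2 + y4)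
    {yu yu' xv xv' : ℤ} (hu : y1 ≤ yu ∧ yu ≤ y2) (hu' : y1 ≤ yu' ∧ yu' ≤ y2) (hv : x3 ≤ xv ∧ xv ≤ x4) (hv' : x3 ≤ xv' ∧ xv' ≤ x4)
    (hH : Conn (box x1 x2 y1 y2) (sh m (-z) ω) (x1, yu) (x2, yu'))
    (hV : Conn (box x3 x4 y3 y4) (sh m (-z') ω) (xv, y3) (xv', y4)) :
    (tgr m ω).Reachable ((x1, yu) + z) ((xv, y3) + z') := by
  have k1 := conn_lf hω hb (F := box (z.1 + x1) (z.1 + x2) (z.2 + y1) (z.2 + y2) ∪
    box (z'.1 + x3) (z'.1 + x4) (z'.2 + y3) (z'.2 + y4)) Finset.subset_union_left hH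
  have k2 := conn_lf hω hb' (F := box (z.1 + x1) (z.1 + x2) (z.2 + y1) (z.2 + y2) ∪
    box (z'.1 + x3) (z'.1 + x4) (z'.2 + y3) (z'.2 + y4)) Finset.subset_union_right hV
  have e1 : ((x1, yu) + z : V) = (z.1 + x1, z.2 + yu) := Prod.ext (add_comm _ _) (add_comm _ _)
  have e2 : ((x2, yu') + z : V) = (z.1 + x2, z.2 + yu') := Prod.ext (add_comm _ _) (add_comm _ _)
  have e3 : ((xv, y3) + z' : V) = (z'.1 + xv, z'.2 + y3) := Prod.ext (add_comm _ _) (add_comm _ _)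
  have e4 : ((xv', y4) + z' : V) = (z'.1 + xv', z'.2 + y4) := Prod.ext (add_comm _ _) (add_comm _ _)
  rw [e1, e2] at k1
  rw [e3, e4] at k2
  rw [e1, e3]
  refine lf_tgr (cross g1 g2 g3 g4 ?_ ?_ ?_ ?_ k1 k2)
  · exact ⟨by omega, by omega⟩
  · exact ⟨by omega, by omega⟩
  · exact ⟨by omega, by omega⟩
  · exact ⟨by omega, by omega⟩

theorem NTm_box {m : ℕ} {x1 x2 y1 y2 : ℤ} (h1 : -(m : ℤ) ≤ x1) (h2 : x2 ≤ m) (h3 : -(m : ℤ) ≤ y1)
    (h4 : y2 ≤ m) : box x1 x2 y1 y2 ⊆ TE m := by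
  intro e he
  rw [mem_box] at he
  rw [mem_TE]
  rcases he with ⟨_, k2, k3, k4, k5⟩ | ⟨_, k2, k3, k4, k5⟩
  · exact ⟨⟨by omega, by omega⟩, ⟨by omega, by omega⟩⟩
  · exact ⟨⟨by omega, by omega⟩, ⟨by omega, by omega⟩⟩

/-- two crossings in the box `[-m, m]²` -/
theorem NTm_cr {m : ℕ} {ω : Finset Edge} (hω : ω ⊆ TE m) {x1 x2 y1 y2 x3 x4 y3 y4 : ℤ}
    (hb : box x1 x2 y1 y2 ⊆ TE m) (hb' : box x3 x4 y3 y4 ⊆ TE m)
    (g1 : x1 ≤ x3) (g2 : x4 ≤ x2) (g3 : y3 ≤ y1) (g4 : y2 ≤ y4)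
    {yu yu' xv xv' : ℤ} (hu : y1 ≤ yu ∧ yu ≤ y2) (hu' : y1 ≤ yu' ∧ yu' ≤ y2) (hv : x3 ≤ xv ∧ xv ≤ x4) (hv' : x3 ≤ xv' ∧ xv' ≤ x4)
    (hH : Conn (box x1 x2 y1 y2) ω (x1, yu) (x2, yu'))
    (hV : Conn (box x3 x4 y3 y4) ω (xv, y3) (xv', y4)) :
    (tgr m ω).Reachable (x1, yu) (xv, y3) := by
  have e0 : sh m (-0) ω = ω := by
    rw [neg_zero]
    exact sh_zero hω
  have h := cross_tor hω (z := 0) (z' := 0) hb hb' (by simpa using g1) (by simpa using g2) (by simpa using g3)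
    (by simpa using g4) hu hu' hv hv' (by rw [e0]; exact hH) (by rw [e0]; exact hV)
  rw [add_zero, add_zero] at h
  exact h

theorem NTm_tau {m : ℕ} {ω : Finset Edge} (hω : ω ⊆ TE m) {x x' : ℤ} (hx : 0 ≤ x ∧ x ≤ m) (hx' : 0 ≤ x' ∧ x' ≤ m)
    (hb : Conn (box 0 m (-m) m) ω (x, -m) (x', m)) {y y' : ℤ} (hy : 0 ≤ y ∧ y ≤ m) (hy' : 0 ≤ y' ∧ y' ≤ m)
    (hc : Conn (box (-m) m 0 m) ω (-m, y) (m, y')) : (tgr m ω).Reachable (-(m : ℤ), y) (x, -(m : ℤ)) :=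
  NTm_cr hω (NTm_box le_rfl le_rfl (by omega) le_rfl) (NTm_box (by omega) le_rfl le_rfl le_rfl)
    (by omega) le_rfl (by omega) le_rfl hy hy' hx hx' hc hb

theorem NTm_bet {m : ℕ} {ω : Finset Edge} (hω : ω ⊆ TE m) {x x' : ℤ} (hx : 0 ≤ x ∧ x ≤ m) (hx' : 0 ≤ x' ∧ x' ≤ m)
    (hb : Conn (box 0 m (-m) m) ω (x, -m) (x', m)) {y y' : ℤ} (hy : -(m : ℤ) ≤ y ∧ y ≤ -1) (hy' : -(m : ℤ) ≤ y' ∧ y' ≤ -1)
    (hc : Conn (box (-m) m (-m) (-1)) ω (-m, y) (m, y')) : (tgr m ω).Reachable (-(m : ℤ), y) (x, -(m : ℤ)) :=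
  NTm_cr hω (NTm_box le_rfl le_rfl le_rfl (by omega)) (NTm_box (by omega) le_rfl le_rfl le_rfl)
    (by omega) le_rfl le_rfl (by omega) hy hy' hx hx' hc hb

theorem net {m : ℕ} {ω : Finset Edge} (hω : ω ⊆ TE m) (h1 : VC 0 m (-m) m ω) (h2 : VC 0 m (-m) m (sh m (0, -(m : ℤ)) ω))
    (h3 : HC (-m) m 0 m ω) (h4 : HC (-m) m (-m) (-1) ω) {x x' : ℤ} (hx : 0 ≤ x ∧ x ≤ m) (hx' : 0 ≤ x' ∧ x' ≤ m)
    (hb : Conn (box 0 m (-m) m) ω (x, -m) (x', m)) : (tgr m ω).Reachable (x, -(m : ℤ)) ((x, -(m : ℤ)) + pr m (0, 1)) := by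
  have _ := h1
  obtain ⟨xs, xs', a1, a2, a3, a4, hσ⟩ := h2
  obtain ⟨yt, yt', b1, b2, b3, b4, hτ⟩ := h3
  obtain ⟨yb, yb', c1, c2, c3, c4, hβ⟩ := h4
  have r1 := NTm_tau hω hx hx' hb ⟨b1, b2⟩ ⟨b3, b4⟩ hτ
  have r2 := NTm_bet hω hx hx' hb ⟨c1, c2⟩ ⟨c3, c4⟩ hβ
  have e0 : sh m (-0) ω = ω := by
    rw [neg_zero]
    exact sh_zero hω
  have e1 : sh m (-((0, (m : ℤ)) : V)) ω = sh m (0, -(m : ℤ)) ω := by
    rw [Prod.neg_mk, neg_zero]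
  have e2 : sh m (-((0, -(m : ℤ) - 1) : V)) ω = sh m (0, -(m : ℤ)) ω := by
    have e3 : (-((0, -(m : ℤ) - 1) : V)) = (0, -(m : ℤ)) + pr m (0, 1) := by
      refine Prod.ext ?_ ?_
      · show -(0 : ℤ) = 0 + (2 * m + 1) * 0
        ring
      · show -(-(m : ℤ) - 1) = -(m : ℤ) + (2 * m + 1) * 1
        ring
    rw [e3, sh_per]
  have hb1 : box (-(m : ℤ)) m 0 m ⊆ TE m := NTm_box le_rfl le_rfl (by omega) le_rfl
  have hb2 : box 0 (m : ℤ) (-m) m ⊆ TE m := NTm_box (by omega) le_rfl le_rfl le_rfl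
  have hb3 : box (-(m : ℤ)) m (-m) (-1) ⊆ TE m := NTm_box le_rfl le_rfl le_rfl (by omega)
  have r3 : (tgr m ω).Reachable ((-(m : ℤ), yt) + 0) ((xs, -(m : ℤ)) + (0, (m : ℤ))) := by
    refine cross_tor hω hb1 hb2 ?_ ?_ ?_ ?_ ⟨b1, b2⟩ ⟨b3, b4⟩ ⟨a1, a2⟩ ⟨a3, a4⟩ (by rw [e0]; exact hτ)
      (by rw [e1]; exact hσ)
    · show (0 : ℤ) + -(m : ℤ) ≤ 0 + 0
      omega
    · show (0 : ℤ) + (m : ℤ) ≤ 0 + m
      omega
    · show (m : ℤ) + -(m : ℤ) ≤ 0 + 0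
      omega
    · show (0 : ℤ) + (m : ℤ) ≤ m + m
      omega
  have r4 : (tgr m ω).Reachable ((-(m : ℤ), yb) + 0) ((xs, -(m : ℤ)) + (0, -(m : ℤ) - 1)) := by
    refine cross_tor hω hb3 hb2 ?_ ?_ ?_ ?_ ⟨c1, c2⟩ ⟨c3, c4⟩ ⟨a1, a2⟩ ⟨a3, a4⟩ (by rw [e0]; exact hβ)
      (by rw [e2]; exact hσ)
    · show (0 : ℤ) + -(m : ℤ) ≤ 0 + 0
      omega
    · show (0 : ℤ) + (m : ℤ) ≤ 0 + m
      omega
    · show (-(m : ℤ) - 1) + -(m : ℤ) ≤ 0 + -(m : ℤ)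
      omega
    · show (0 : ℤ) + -1 ≤ (-(m : ℤ) - 1) + m
      omega
  rw [add_zero] at r3 r4
  have r5 := (tgr_shift m ω (0, 1) _ _).2 (r2.symm.trans r4)
  have e4 : (((xs, -(m : ℤ)) + (0, -(m : ℤ) - 1) : V)) + pr m (0, 1) = (xs, -(m : ℤ)) + (0, (m : ℤ)) := by
    refine Prod.ext ?_ ?_
    · show xs + 0 + (2 * m + 1) * 0 = xs + 0
      ring
    · show -(m : ℤ) + (-(m : ℤ) - 1) + (2 * m + 1) * 1 = -(m : ℤ) + m
      ring
  rw [e4] at r5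
  exact (r1.symm.trans r3).trans r5.symm

theorem net_W {m : ℕ} {ω : Finset Edge} (hω : ω ⊆ TE m) (h1 : VC 0 m (-m) m ω) (h2 : VC 0 m (-m) m (sh m (0, -(m : ℤ)) ω))
    (h3 : HC (-m) m 0 m ω) (h4 : HC (-m) m (-m) (-1) ω) : W m ω := by
  obtain ⟨x, x', a1, a2, a3, a4, hb⟩ := id h1
  refine ⟨(x, -(m : ℤ)), (0, 1), ?_, net hω h1 h2 h3 h4 ⟨a1, a2⟩ ⟨a3, a4⟩ hb⟩
  intro h
  have := congrArg Prod.snd h
  simp at this

theorem NTm_step {ω : Finset Edge} {u v : V} (h : (gr ω).Adj u v) : |u.1 - v.1| ≤ 1 ∧ |u.2 - v.2| ≤ 1 := by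
  obtain ⟨e, _, h1⟩ := NTm_adj h
  have key : ∀ e : Edge, |(ea e).1 - (eb e).1| ≤ 1 ∧ |(ea e).2 - (eb e).2| ≤ 1 := by
    rintro ⟨x, y, t⟩
    cases t
    · show |x - (x + 1)| ≤ 1 ∧ |y - y| ≤ 1
      rw [abs_le, abs_le]
      exact ⟨⟨by omega, by omega⟩, ⟨by omega, by omega⟩⟩
    · show |x - x| ≤ 1 ∧ |y - (y + 1)| ≤ 1
      rw [abs_le, abs_le]
      exact ⟨⟨by omega, by omega⟩, ⟨by omega, by omega⟩⟩
  rcases h1 with ⟨h1, h2⟩ | ⟨h1, h2⟩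
  · rw [← h1, ← h2]
    exact key e
  · rw [← h1, ← h2, abs_sub_comm (eb e).1, abs_sub_comm (eb e).2]
    exact key e

theorem NTm_in {m : ℕ} {ω : Finset Edge} {u v : V} (h : Conn (bx m) ω u v) (hu : nrm u ≤ m) : nrm v ≤ m := by
  unfold Conn at h
  obtain ⟨p⟩ := h
  induction p with
  | nil => exact hu
  | cons h _ ih =>
    apply ih
    obtain ⟨e, he, h1⟩ := NTm_adj h
    have h2 := mem_bx.1 (Finset.mem_inter.1 he).2
    rcases h1 with ⟨h1, h3⟩ | ⟨h1, h3⟩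
    · rw [← h3]
      exact h2.2
    · rw [← h1]
      exact h2.1

theorem NTm_nrm {m : ℕ} {v : V} (h : nrm v ≤ m) : (-(m : ℤ) ≤ v.1 ∧ v.1 ≤ m) ∧ (-(m : ℤ) ≤ v.2 ∧ v.2 ≤ m) := by
  unfold nrm at h
  have h1 := (max_le_iff.1 h).1
  have h2 := (max_le_iff.1 h).2
  exact ⟨abs_le.1 h1, abs_le.1 h2⟩

theorem NTm_rst {m : ℕ} {ω F : Finset Edge} {S : Set V}
    (hF : ∀ e ∈ bx m, ea e ∈ S → eb e ∈ S → e ∈ F) {u w : V}
    (h : (rst (gr (ω ∩ bx m)) S).Reachable u w) : Conn F ω u w := by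
  refine SimpleGraph.Reachable.mono ?_ h
  intro a b hab
  obtain ⟨h1, h2, h3⟩ := hab
  obtain ⟨e, he, h4⟩ := NTm_adj h1
  rw [Finset.mem_inter] at he
  unfold gr
  rw [SimpleGraph.fromRel_adj]
  refine ⟨h1.ne, ?_⟩
  rcases h4 with ⟨h4, h5⟩ | ⟨h4, h5⟩
  · left
    refine ⟨e, Finset.mem_inter.2 ⟨he.1, hF e he.2 ?_ ?_⟩, h4, h5⟩
    · rw [h4]; exact h2
    · rw [h5]; exact h3
  · right
    refine ⟨e, Finset.mem_inter.2 ⟨he.1, hF e he.2 ?_ ?_⟩, h4, h5⟩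
    · rw [h4]; exact h3
    · rw [h5]; exact h2

/-- an edge whose ends are in a rectangle is in the box of the rectangle -/
theorem NTm_ebox {x1 x2 y1 y2 : ℤ} {e : Edge} (h1 : x1 ≤ (ea e).1) (h2 : (eb e).1 ≤ x2) (h3 : y1 ≤ (ea e).2)
    (h4 : (eb e).2 ≤ y2) : e ∈ box x1 x2 y1 y2 := by
  obtain ⟨x, y, t⟩ := e
  rw [mem_box]
  cases t
  · left
    have k1 : x1 ≤ x := h1
    have k2 : x + 1 ≤ x2 := h2
    have k3 : y1 ≤ y := h3
    have k4 : y ≤ y2 := h4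
    exact ⟨rfl, k1, by show x < x2; omega, k3, k4⟩
  · right
    have k1 : x1 ≤ x := h1
    have k2 : x ≤ x2 := h2
    have k3 : y1 ≤ y := h3
    have k4 : y + 1 ≤ y2 := h4
    exact ⟨rfl, k1, k2, k3, by show y < y2; omega⟩

theorem NTm_bxb (m : ℕ) {x1 x2 y1 y2 : ℤ} (h1 : -(m : ℤ) ≤ x1) (h2 : x2 ≤ m) (h3 : -(m : ℤ) ≤ y1)
    (h4 : y2 ≤ m) : box x1 x2 y1 y2 ⊆ bx m := box_mono h1 h2 h3 h4

theorem T5b_comb {m : ℕ} (hm : 1 ≤ m) {ω : Finset Edge} (hω : ω ⊆ TE m) (h1 : VC 0 m (-m) m ω) (h2 : VC 0 m (-m) m (sh m (0, -(m : ℤ)) ω))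
    (h3 : HC (-m) m 0 m ω) (h4 : HC (-m) m (-m) (-1) ω) (h5 : VC (-m) 0 (-m) m ω) (h : One m ω) : Gz m ω := by
  obtain ⟨x, x', a1, a2, a3, a4, hb⟩ := id h1
  have hnet := net hω h1 h2 h3 h4 ⟨a1, a2⟩ ⟨a3, a4⟩ hb
  obtain ⟨yt, yt', b1, b2, b3, b4, hτ⟩ := h3
  obtain ⟨yb, yb', c1, c2, c3, c4, hβ⟩ := h4
  obtain ⟨x5, x5', d1, d2, d3, d4, hl⟩ := h5
  have rτ := NTm_tau hω ⟨a1, a2⟩ ⟨a3, a4⟩ hb ⟨b1, b2⟩ ⟨b3, b4⟩ hτ
  have rβ := NTm_bet hω ⟨a1, a2⟩ ⟨a3, a4⟩ hb ⟨c1, c2⟩ ⟨c3, c4⟩ hβ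
  have toT : ∀ u v : V, Conn (bx m) ω u v → (tgr m ω).Reachable u v := fun u v huv =>
    SimpleGraph.Reachable.mono (tgr_mono Finset.inter_subset_left) (conn_tgr (bx_sub_TE le_rfl) huv)
  have hz : nrm ((0, 0) : V) ≤ m := by
    show max |(0 : ℤ)| |(0 : ℤ)| ≤ (m : ℤ)
    rw [abs_zero, max_self]
    exact Int.natCast_nonneg m
  have key : (tgr m ω).Reachable (0, 0) (x, -(m : ℤ)) := by
    obtain ⟨u, hu, hc⟩ := h
    have hc' : (gr (ω ∩ bx m)).Reachable (0, 0) u := hc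
    have hcase : u.1 = m ∨ u.1 = -(m : ℤ) ∨ u.2 = m ∨ u.2 = -(m : ℤ) := by
      unfold nrm at hu
      rcases max_choice |u.1| |u.2| with h6 | h6
      · rw [h6] at hu
        rcases abs_eq (Int.natCast_nonneg m) |>.1 hu with h7 | h7
        · exact Or.inl h7
        · exact Or.inr (Or.inl h7)
      · rw [h6] at hu
        rcases abs_eq (Int.natCast_nonneg m) |>.1 hu with h7 | h7
        · exact Or.inr (Or.inr (Or.inl h7))
        · exact Or.inr (Or.inr (Or.inr h7))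
    have hebd : ∀ e ∈ bx m, ((-(m : ℤ) ≤ (ea e).1 ∧ (ea e).1 ≤ m) ∧ (-(m : ℤ) ≤ (ea e).2 ∧ (ea e).2 ≤ m)) ∧
        ((-(m : ℤ) ≤ (eb e).1 ∧ (eb e).1 ≤ m) ∧ (-(m : ℤ) ≤ (eb e).2 ∧ (eb e).2 ≤ m)) := fun e he =>
      ⟨NTm_nrm (mem_bx.1 he).1, NTm_nrm (mem_bx.1 he).2⟩
    rcases hcase with h6 | h6 | h6 | h6
    · obtain ⟨p, w, hp, hw, hr, hg⟩ := subcross (fun v : V => v.1) (fun a b hab => (NTm_step hab).1) hc'
        (s := 0) (t := m) (by omega) le_rfl (by show (m : ℤ) ≤ u.1; omega)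
      have hcn : Conn (box 0 m (-m) m) ω p w := by
        refine NTm_rst (m := m) ?_ hr
        intro e he k1 k2
        obtain ⟨⟨_, k3, k4⟩, ⟨⟨_, k5⟩, _, k6⟩⟩ := hebd e he
        exact NTm_ebox k1.1 k5 k3 k6
      have q0 : Conn (bx m) ω (0, 0) p := hg
      have q1 : Conn (bx m) ω p w := hcn.mono (NTm_bxb m (by omega) le_rfl le_rfl le_rfl) (Finset.Subset.refl _)
      have n1 := NTm_nrm (NTm_in q0 hz)
      have n2 := NTm_nrm (NTm_in q1 (NTm_in q0 hz))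
      obtain ⟨p1, p2⟩ := p
      obtain ⟨w1, w2⟩ := w
      have hp : p1 = 0 := hp
      have hw : w1 = m := hw
      subst hp hw
      have r1 := NTm_cr hω (NTm_box (by omega) le_rfl le_rfl le_rfl) (NTm_box (by omega) le_rfl le_rfl le_rfl)
        le_rfl le_rfl le_rfl le_rfl n1.2 n2.2 ⟨a1, a2⟩ ⟨a3, a4⟩ hcn hb
      exact (toT _ _ q0).trans r1
    · obtain ⟨p, w, hp, hw, hr, hg⟩ := subcross (fun v : V => -v.1) (fun a b hab => by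
          have h7 := (NTm_step hab).1
          show |-a.1 - -b.1| ≤ 1
          have h8 : -a.1 - -b.1 = -(a.1 - b.1) := by ring
          rw [h8, abs_neg]
          exact h7) hc'
        (s := 0) (t := m) (by omega) (by show -(0 : ℤ) ≤ 0; omega) (by show (m : ℤ) ≤ -u.1; omega)
      have hcn : Conn (box (-m) 0 (-m) m) ω p w := by
        refine NTm_rst (m := m) ?_ hr
        intro e he k1 k2
        obtain ⟨⟨⟨k0, _⟩, k3, k4⟩, ⟨⟨_, k5⟩, _, k6⟩⟩ := hebd e he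
        have k7 : 0 ≤ -(eb e).1 := k2.1
        exact NTm_ebox k0 (by omega) k3 k6
      have q0 : Conn (bx m) ω (0, 0) p := hg
      have q1 : Conn (bx m) ω p w := hcn.mono (NTm_bxb m le_rfl (by omega) le_rfl le_rfl) (Finset.Subset.refl _)
      have n1 := NTm_nrm (NTm_in q0 hz)
      have n2 := NTm_nrm (NTm_in q1 (NTm_in q0 hz))
      obtain ⟨p1, p2⟩ := p
      obtain ⟨w1, w2⟩ := w
      have hp : -p1 = 0 := hp
      have hw : -w1 = m := hw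
      have hp' : p1 = 0 := by omega
      have hw' : w1 = -(m : ℤ) := by omega
      subst hp' hw'
      have hB : box (-(m : ℤ)) 0 (-m) m ⊆ TE m := NTm_box le_rfl (by omega) le_rfl le_rfl
      have r1 := NTm_cr hω hB hB le_rfl le_rfl le_rfl le_rfl n2.2 n1.2 ⟨d1, d2⟩ ⟨d3, d4⟩ hcn.symm hl
      have r2 : (tgr m ω).Reachable (-(m : ℤ), yt) (x5, -(m : ℤ)) :=
        NTm_cr hω (NTm_box le_rfl le_rfl (by omega) le_rfl) hB le_rfl (by omega) (by omega) le_rfl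
          ⟨b1, b2⟩ ⟨b3, b4⟩ ⟨d1, d2⟩ ⟨d3, d4⟩ hτ hl
      exact ((((toT _ _ q0).trans (toT _ _ q1)).trans r1).trans r2.symm).trans rτ
    · obtain ⟨p, w, hp, hw, hr, hg⟩ := subcross (fun v : V => v.2) (fun a b hab => (NTm_step hab).2) hc'
        (s := 0) (t := m) (by omega) le_rfl (by show (m : ℤ) ≤ u.2; omega)
      have hcn : Conn (box (-m) m 0 m) ω p w := by
        refine NTm_rst (m := m) ?_ hr
        intro e he k1 k2
        obtain ⟨⟨⟨k0, _⟩, _⟩, ⟨⟨_, k5⟩, _, k6⟩⟩ := hebd e he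
        exact NTm_ebox k0 k5 k1.1 k6
      have q0 : Conn (bx m) ω (0, 0) p := hg
      have q1 : Conn (bx m) ω p w := hcn.mono (NTm_bxb m le_rfl le_rfl (by omega) le_rfl) (Finset.Subset.refl _)
      have n1 := NTm_nrm (NTm_in q0 hz)
      have n2 := NTm_nrm (NTm_in q1 (NTm_in q0 hz))
      obtain ⟨p1, p2⟩ := p
      obtain ⟨w1, w2⟩ := w
      have hp : p2 = 0 := hp
      have hw : w2 = m := hw
      subst hp hw
      have hB : box (-(m : ℤ)) m 0 m ⊆ TE m := NTm_box le_rfl le_rfl (by omega) le_rfl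
      have r1 := NTm_cr hω hB hB le_rfl le_rfl le_rfl le_rfl ⟨b1, b2⟩ ⟨b3, b4⟩ n1.1 n2.1 hτ hcn
      exact ((toT _ _ q0).trans r1.symm).trans rτ
    · obtain ⟨p, w, hp, hw, hr, hg⟩ := subcross (fun v : V => -v.2) (fun a b hab => by
          have h7 := (NTm_step hab).2
          show |-a.2 - -b.2| ≤ 1
          have h8 : -a.2 - -b.2 = -(a.2 - b.2) := by ring
          rw [h8, abs_neg]
          exact h7) hc'
        (s := 1) (t := m) (by omega) (by show -(0 : ℤ) ≤ 1; omega) (by show (m : ℤ) ≤ -u.2; omega)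
      have hcn : Conn (box (-m) m (-m) (-1)) ω p w := by
        refine NTm_rst (m := m) ?_ hr
        intro e he k1 k2
        obtain ⟨⟨⟨k0, _⟩, k3, k4⟩, ⟨⟨_, k5⟩, _, k6⟩⟩ := hebd e he
        have k7 : 1 ≤ -(eb e).2 := k2.1
        exact NTm_ebox k0 k5 k3 (by omega)
      have q0 : Conn (bx m) ω (0, 0) p := hg
      have q1 : Conn (bx m) ω p w := hcn.mono (NTm_bxb m le_rfl le_rfl le_rfl (by omega)) (Finset.Subset.refl _)
      have n1 := NTm_nrm (NTm_in q0 hz)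
      have n2 := NTm_nrm (NTm_in q1 (NTm_in q0 hz))
      obtain ⟨p1, p2⟩ := p
      obtain ⟨w1, w2⟩ := w
      have hp : -p2 = 1 := hp
      have hw : -w2 = m := hw
      have hp' : p2 = -1 := by omega
      have hw' : w2 = -(m : ℤ) := by omega
      subst hp' hw'
      have hB : box (-(m : ℤ)) m (-m) (-1) ⊆ TE m := NTm_box le_rfl le_rfl le_rfl (by omega)
      have r1 := NTm_cr hω hB hB le_rfl le_rfl le_rfl le_rfl ⟨c1, c2⟩ ⟨c3, c4⟩ n2.1 n1.1 hβ hcn.symm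
      exact (((toT _ _ q0).trans (toT _ _ q1)).trans r1.symm).trans rβ
  refine ⟨(0, 1), ?_, ?_⟩
  · intro h
    have := congrArg Prod.snd h
    simp at this
  · have e1 := (tgr_shift m ω (0, 1) _ _).2 key
    have e2 : (((0, 0) : V) + pr m (0, 1)) = pr m (0, 1) := zero_add _
    rw [e2] at e1
    exact (key.trans hnet).trans e1.symm

end FKN
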