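import Pool.Agent.Lib.MP_216314_pr.N.DTorA
import Pool.Agent.Lib.MP_216314_pr.N.DRgC
import Pool.Agent.Lib.MP_216314_pr.N.NTf
import Pool.Agent.Lib.MP_216314_pr.N.NTm

/-!
# Stream D: lifts of configurations of the torus

`lf m F ω` (NTm): the edges `e ∈ F` of the plane with `cm m e ∈ ω`.

PROOFS.
`pr_lf`: the event depends on `ω ∩ F.image (cm m)` only, `F.image (cm m) ⊆ TE m` (`cm_mem`); `IPC.EE_image` for the map `cm m`, injective on `F` (see `pq_map` in `N/GA.lean`), and `lf m F (ω'.image (cm m)) = ω'` for `ω' ⊆ F`.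
`cm_inj`: two edges of the box with the same representative have coordinates which differ by multiples of `2 m + 1` (`cm_eq` of NTa) and by at most `6 r + 1 ≤ 2 m`.
`dlf_tdg`: `dc F (lf m F ω)` consists of the `dl e`, `e ∈ F`, `cm m e ∉ ω`: walk induction.
`RP_sh`: translate all the connections (`Conn` of translated boxes; `NTm_map`-like walk induction or `FKP.conn_map` with `cp_sh`).
`lf_shift`: translation of the lift by a period. `tor_rings`: `Ring a r (lf m G ω)` depends only on `lf m (bxa a (3 r)) ω` (`Ring_dep`; `lf m G ω ∩ F = lf m F ω` for `F ⊆ G`), so its probability is that of `Ring a r` under `Pr q (bxa a (3 r))` (`pr_lf`, `cm_inj`), at least `c ^ 4`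
(`ring_prob`); then Harris for increasing events on `TE m` (induction on `L`). `tor_rings_dual`: the probability of `Ring a r (dc G (lf m G ω))` is (`pr_lf` with `F = ud (bxa a (3 r))`, `pr_dcu`) that of `Ring a r` under `Pr (1 - q) (bxa a (3 r))`, at least `c ^ 4` (`RB_symm`); these events
are decreasing in `ω`: Harris (`harris_dec` of NTf, or `pq_fkg_not` of GA).
-/

set_option autoImplicit false

noncomputable section

namespace FKN

open Finset FKI FKP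

private theorem DTorB_mem {m : ℕ} {F ω : Finset Edge} {e : Edge} : e ∈ lf m F ω ↔ e ∈ F ∧ cm m e ∈ ω := by
  unfold lf
  rw [Finset.mem_filter]

private theorem DTorB_dep {m : ℕ} (F ω : Finset Edge) : lf m F (ω ∩ F.image (cm m)) = lf m F ω := by
  ext e
  rw [DTorB_mem, DTorB_mem, Finset.mem_inter]
  constructor
  · rintro ⟨h1, h2, -⟩
    exact ⟨h1, h2⟩
  · rintro ⟨h1, h2⟩
    exact ⟨h1, h2, Finset.mem_image_of_mem _ h1⟩

theorem pr_lf {q : ℝ} {m : ℕ} {F : Finset Edge} (hi : Set.InjOn (cm m) (F : Set Edge)) (A : Finset Edge → Prop) :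
    IPC.Pr q (TE m) (fun ω => A (lf m F ω)) = IPC.Pr q F A := by
  have hsub : F.image (cm m) ⊆ TE m := by
    intro e he
    obtain ⟨e', -, rfl⟩ := Finset.mem_image.1 he
    exact cm_mem m e'
  have hdep : Dep (F.image (cm m)) (fun ω => A (lf m F ω)) := by
    intro ω
    show A (lf m F ω) ↔ A (lf m F (ω ∩ F.image (cm m)))
    rw [DTorB_dep]
  rw [pq_dep q hsub hdep]
  have h1 := IPC.EE_image q F (cm m) hi (fun ω => IPC.ind (A (lf m F ω)))
  refine h1.trans ?_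
  refine IPC.EE_congr q F fun ω hω => ?_
  have h2 : lf m F (ω.image (cm m)) = ω := by
    ext e
    rw [DTorB_mem, Finset.mem_image]
    constructor
    · rintro ⟨h3, e', h4, h5⟩
      have h6 : e' = e := hi (Finset.mem_coe.2 (hω h4)) (Finset.mem_coe.2 h3) h5
      rw [← h6]
      exact h4
    · intro h3
      exact ⟨hω h3, e, h3, rfl⟩
  show IPC.ind (A (lf m F (ω.image (cm m)))) = IPC.ind (A ω)
  rw [h2]

theorem cm_inj {m : ℕ} {a : V} {r : ℤ} (hr : 3 * r + 1 ≤ m) :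
    Set.InjOn (cm m) ((bxa a (3 * r) ∪ ud (bxa a (3 * r)) : Finset Edge) : Set Edge) := by
  have key : ∀ e ∈ bxa a (3 * r) ∪ ud (bxa a (3 * r)), a.1 - 3 * r ≤ e.1 ∧ e.1 ≤ a.1 + 3 * r ∧
      a.2 - 3 * r ≤ e.2.1 ∧ e.2.1 ≤ a.2 + 3 * r := by
    rintro ⟨x, y, t⟩ he
    rw [Finset.mem_union, mem_ud] at he
    unfold bxa at he
    rw [mem_box, mem_box] at he
    cases t
    · have e1 : dl ((x, y, false) : Edge) = (x, y - 1, true) := rfl
      rw [e1] at he
      simp at he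
      simp only
      omega
    · have e1 : dl ((x, y, true) : Edge) = (x - 1, y, false) := rfl
      rw [e1] at he
      simp at he
      simp only
      omega
  intro e he e' he' h
  have k1 := key e (Finset.mem_coe.1 he)
  have k2 := key e' (Finset.mem_coe.1 he')
  obtain ⟨w, hw⟩ := cm_eq h
  have g : ∀ x y z : ℤ, y = x + (2 * (m : ℤ) + 1) * z → y - x ≤ 2 * m → x - y ≤ 2 * m → y = x := by
    intro x y z h1 h2 h3
    have h4 : z = 0 := by
      by_contra hne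
      rcases lt_or_gt_of_ne hne with h5 | h5
      · nlinarith
      · nlinarith
    rw [h1, h4, mul_zero, add_zero]
  have e1 : e'.1 = e.1 + (2 * (m : ℤ) + 1) * w.1 := by
    rw [hw]
    rfl
  have e2 : e'.2.1 = e.2.1 + (2 * (m : ℤ) + 1) * w.2 := by
    rw [hw]
    rfl
  have e3 : e'.2.2 = e.2.2 := by
    rw [hw]
    rfl
  have f1 := g _ _ _ e1 (by omega) (by omega)
  have f2 := g _ _ _ e2 (by omega) (by omega)
  exact Prod.ext f1.symm (Prod.ext f2.symm e3.symm)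

theorem lf_inter {m : ℕ} {F G ω : Finset Edge} (h : F ⊆ G) : lf m G ω ∩ F = lf m F ω := by
  ext e
  rw [Finset.mem_inter, DTorB_mem, DTorB_mem]
  constructor
  · rintro ⟨⟨-, h1⟩, h2⟩
    exact ⟨h2, h1⟩
  · rintro ⟨h1, h2⟩
    exact ⟨⟨h h1, h2⟩, h1⟩

theorem lf_dep {m : ℕ} (F ω : Finset Edge) : lf m F (ω ∩ F.image (cm m)) = lf m F ω := by
  exact DTorB_dep F ω

theorem lf_TE {m : ℕ} {F ω : Finset Edge} (h : F ⊆ TE m) : lf m F ω = ω ∩ F := by
  ext e
  rw [Finset.mem_inter, DTorB_mem]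
  constructor
  · rintro ⟨h1, h2⟩
    rw [cm_self (h h1)] at h2
    exact ⟨h2, h1⟩
  · rintro ⟨h1, h2⟩
    rw [cm_self (h h2)]
    exact ⟨h2, h1⟩

private theorem DTorB_dmem {F ω : Finset Edge} {e : Edge} (h : e ∈ dc F ω) : ∃ e' : Edge, e' ∈ F ∧ e' ∉ ω ∧ dl e' = e := by
  unfold dc at h
  rw [Finset.mem_map] at h
  obtain ⟨e', h1, h2⟩ := h
  rw [Finset.mem_sdiff] at h1
  exact ⟨e', h1.1, h1.2, h2⟩

theorem dlf_tdg {m : ℕ} {F ω : Finset Edge} {f g : V} (h : (gr (dc F (lf m F ω))).Reachable f g) : (tdg m ω).Reachable f g := by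
  refine NTm_map (fun a => a) ?_ h
  intro e he
  obtain ⟨e', h1, h2, rfl⟩ := DTorB_dmem he
  exact tdg_edge fun h3 => h2 (DTorB_mem.2 ⟨h1, h3⟩)

private theorem DTorB_conn {F F' η : Finset Edge} {z : V} (hF : ∀ e ∈ F, shv z e ∈ F') {u w : V} (h : Conn F η u w) :
    Conn F' (η.image (shv z)) (u + z) (w + z) := by
  refine NTm_map (fun a => a + z) ?_ h
  intro e he
  rw [Finset.mem_inter] at he
  have h4 : shv z e ∈ η.image (shv z) ∩ F' :=
    Finset.mem_inter.2 ⟨Finset.mem_image_of_mem _ he.1, hF e he.2⟩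
  have h5 := NTm_edge h4
  rw [ea_shv, eb_shv] at h5
  exact h5

private theorem DTorB_box {z : V} {x1 x2 y1 y2 x3 x4 y3 y4 : ℤ} (h1 : x3 = x1 + z.1) (h2 : x4 = x2 + z.1)
    (h3 : y3 = y1 + z.2) (h4 : y4 = y2 + z.2) : ∀ e ∈ box x1 x2 y1 y2, shv z e ∈ box x3 x4 y3 y4 := by
  intro e he
  rw [mem_box] at he ⊢
  have s1 : (shv z e).1 = e.1 + z.1 := rfl
  have s2 : (shv z e).2.1 = e.2.1 + z.2 := rfl
  have s3 : (shv z e).2.2 = e.2.2 := rfl
  rw [s1, s2, s3]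
  rcases he with ⟨k1, k2, k3, k4, k5⟩ | ⟨k1, k2, k3, k4, k5⟩
  · exact Or.inl ⟨k1, by omega, by omega, by omega, by omega⟩
  · exact Or.inr ⟨k1, by omega, by omega, by omega, by omega⟩

private theorem DTorB_pt {z : V} {x y x' y' : ℤ} (h1 : x' = x + z.1) (h2 : y' = y + z.2) : ((x, y) : V) + z = (x', y') := by
  rw [h1, h2]
  rfl

theorem RP_sh {a : V} {r : ℤ} {η : Finset Edge} {v : V} (z : V) (h : RP a r η v) : RP (a + z) r (η.image (shv z)) (v + z) := by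
  have s1 : (a + z).1 = a.1 + z.1 := rfl
  have s2 : (a + z).2 = a.2 + z.2 := rfl
  have hB : ∀ e ∈ bxa a (3 * r), shv z e ∈ bxa (a + z) (3 * r) := by
    unfold bxa
    rw [s1, s2]
    exact DTorB_box (by ring) (by ring) (by ring) (by ring)
  obtain ⟨⟨y1, y1', a1, a2, a3, a4, c1, d1⟩, ⟨y2, y2', b1, b2, b3, b4, c2, d2⟩,
    ⟨x3, x3', e1, e2, e3, e4, c3, d3⟩, ⟨x4, x4', f1, f2, f3, f4, c4, d4⟩⟩ := h
  unfold RP
  rw [s1, s2]
  refine ⟨⟨y1 + z.2, y1' + z.2, by omega, by omega, by omega, by omega, ?_, ?_⟩,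
    ⟨y2 + z.2, y2' + z.2, by omega, by omega, by omega, by omega, ?_, ?_⟩,
    ⟨x3 + z.1, x3' + z.1, by omega, by omega, by omega, by omega, ?_, ?_⟩,
    ⟨x4 + z.1, x4' + z.1, by omega, by omega, by omega, by omega, ?_, ?_⟩⟩
  · have h1 := DTorB_conn (DTorB_box (z := z) (x3 := a.1 + z.1 - 3 * r) (x4 := a.1 + z.1 + 3 * r)
      (y3 := a.2 + z.2 + r) (y4 := a.2 + z.2 + 3 * r) (by ring) (by ring) (by ring) (by ring)) c1
    rw [DTorB_pt (x := a.1 - 3 * r) (x' := a.1 + z.1 - 3 * r) (by ring) rfl, DTorB_pt (x := a.1 + 3 * r) (x' := a.1 + z.1 + 3 * r) (by ring) rfl] at h1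
    exact h1
  · have h1 := DTorB_conn hB d1
    rw [DTorB_pt (x := a.1 - 3 * r) (x' := a.1 + z.1 - 3 * r) (by ring) rfl] at h1
    exact h1
  · have h1 := DTorB_conn (DTorB_box (z := z) (x3 := a.1 + z.1 - 3 * r) (x4 := a.1 + z.1 + 3 * r)
      (y3 := a.2 + z.2 - 3 * r) (y4 := a.2 + z.2 - r) (by ring) (by ring) (by ring) (by ring)) c2
    rw [DTorB_pt (x := a.1 - 3 * r) (x' := a.1 + z.1 - 3 * r) (by ring) rfl, DTorB_pt (x := a.1 + 3 * r) (x' := a.1 + z.1 + 3 * r) (by ring) rfl] at h1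
    exact h1
  · have h1 := DTorB_conn hB d2
    rw [DTorB_pt (x := a.1 - 3 * r) (x' := a.1 + z.1 - 3 * r) (by ring) rfl] at h1
    exact h1
  · have h1 := DTorB_conn (DTorB_box (z := z) (x3 := a.1 + z.1 + r) (x4 := a.1 + z.1 + 3 * r)
      (y3 := a.2 + z.2 - 3 * r) (y4 := a.2 + z.2 + 3 * r) (by ring) (by ring) (by ring) (by ring)) c3
    rw [DTorB_pt (y := a.2 - 3 * r) (y' := a.2 + z.2 - 3 * r) rfl (by ring), DTorB_pt (y := a.2 + 3 * r) (y' := a.2 + z.2 + 3 * r) rfl (by ring)] at h1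
    exact h1
  · have h1 := DTorB_conn hB d3
    rw [DTorB_pt (y := a.2 - 3 * r) (y' := a.2 + z.2 - 3 * r) rfl (by ring)] at h1
    exact h1
  · have h1 := DTorB_conn (DTorB_box (z := z) (x3 := a.1 + z.1 - 3 * r) (x4 := a.1 + z.1 - r)
      (y3 := a.2 + z.2 - 3 * r) (y4 := a.2 + z.2 + 3 * r) (by ring) (by ring) (by ring) (by ring)) c4
    rw [DTorB_pt (y := a.2 - 3 * r) (y' := a.2 + z.2 - 3 * r) rfl (by ring), DTorB_pt (y := a.2 + 3 * r) (y' := a.2 + z.2 + 3 * r) rfl (by ring)] at h1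
    exact h1
  · have h1 := DTorB_conn hB d4
    rw [DTorB_pt (y := a.2 - 3 * r) (y' := a.2 + z.2 - 3 * r) rfl (by ring)] at h1
    exact h1

/-- an edge of the lift, translated by a period -/
theorem lf_shift {m : ℕ} {G ω : Finset Edge} {e : Edge} (w : V) (h : e ∈ lf m G ω) (hG : shv (pr m w) e ∈ G) :
    shv (pr m w) e ∈ lf m G ω := by
  rw [DTorB_mem] at h ⊢
  refine ⟨hG, ?_⟩
  rw [cm_pr]
  exact h.2

private theorem DTorB_dl (v : V) (e : Edge) : shv v (dl e) = dl (shv v e) := by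
  obtain ⟨x, y, t⟩ := e
  cases t
  · refine Prod.ext rfl (Prod.ext ?_ rfl)
    show y - 1 + v.2 = y + v.2 - 1
    ring
  · refine Prod.ext ?_ (Prod.ext rfl rfl)
    show x - 1 + v.1 = x + v.1 - 1
    ring

/-- a dual edge of the lift, translated by a period -/
theorem dlf_shift {m : ℕ} {G ω : Finset Edge} {e : Edge} (w : V) (h : e ∈ dc G (lf m G ω)) (hG : shv (pr m w) e ∈ G.map dl.toEmbedding) :
    shv (pr m w) e ∈ dc G (lf m G ω) := by
  obtain ⟨e', h1, h2, rfl⟩ := DTorB_dmem h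
  rw [DTorB_dl] at hG ⊢
  unfold dc
  rw [Finset.mem_map] at hG ⊢
  obtain ⟨e2, h3, h4⟩ := hG
  have h5 : e2 = shv (pr m w) e' := dl.injective h4
  rw [h5] at h3
  refine ⟨shv (pr m w) e', Finset.mem_sdiff.2 ⟨h3, fun h6 => ?_⟩, rfl⟩
  rw [DTorB_mem, cm_pr] at h6
  exact h2 (DTorB_mem.2 ⟨h1, h6.2⟩)

private theorem DTorB_sub {L : Finset (V × ℤ)} {p : V × ℤ} (hp : p ∈ L) : bxa p.1 (3 * p.2) ⊆ RN L := by
  unfold RN
  exact Finset.subset_biUnion_of_mem (fun p : V × ℤ => bxa p.1 (3 * p.2)) hp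

private theorem DTorB_lfmono {m : ℕ} {G ω ω' : Finset Edge} (h : ω ⊆ ω') : lf m G ω ⊆ lf m G ω' := by
  intro e he
  rw [DTorB_mem] at he ⊢
  exact ⟨he.1, h he.2⟩

private theorem DTorB_one {c q : ℝ} {N m : ℕ} (hc : 0 ≤ c) (h0 : 0 ≤ q) (h1 : q ≤ 1) (hRB : RB c q N) {G : Finset Edge}
    {a : V} {r : ℤ} (hr : 1 ≤ r) (hN : r ≤ N) (hm : 3 * r + 1 ≤ m) (hG : bxa a (3 * r) ⊆ G) :
    c ^ 4 ≤ IPC.Pr q (TE m) (fun ω => Ring a r (lf m G ω)) := by
  have e1 : IPC.Pr q (TE m) (fun ω => Ring a r (lf m G ω)) =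
      IPC.Pr q (TE m) (fun ω => Ring a r (lf m (bxa a (3 * r)) ω)) := by
    refine pq_congr fun ω _ => ?_
    rw [Ring_dep (a := a) (by omega : 0 ≤ r) (lf m G ω), lf_inter hG]
  rw [e1, pr_lf ((cm_inj hm).mono (by
    rw [Finset.coe_union]
    exact Set.subset_union_left)) (Ring a r)]
  obtain ⟨k, hk⟩ : ∃ k : ℕ, (k : ℤ) = r := ⟨r.toNat, Int.toNat_of_nonneg (by omega)⟩
  rw [← hk]
  exact ring_prob hc h0 h1 hRB (by omega) (by omega) a

private theorem DTorB_oneD {c q : ℝ} {N m : ℕ} (hc : 0 ≤ c) (h0 : 0 ≤ q) (h1 : q ≤ 1) (hRB : RB c q N) {G : Finset Edge}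
    {a : V} {r : ℤ} (hr : 1 ≤ r) (hN : r ≤ N) (hm : 3 * r + 1 ≤ m) (hG : ud (bxa a (3 * r)) ⊆ G) :
    c ^ 4 ≤ IPC.Pr q (TE m) (fun ω => Ring a r (dc G (lf m G ω))) := by
  have e0 : ∀ η : Finset Edge, dc G η ∩ bxa a (3 * r) = dc (ud (bxa a (3 * r))) η := by
    intro η
    ext e
    unfold dc
    rw [Finset.mem_inter, Finset.mem_map_equiv, Finset.mem_map_equiv, Finset.mem_sdiff, Finset.mem_sdiff, mem_ud,
      Equiv.apply_symm_apply]
    constructor
    · rintro ⟨⟨h2, h3⟩, h4⟩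
      exact ⟨h4, h3⟩
    · rintro ⟨h2, h3⟩
      exact ⟨⟨hG (mem_ud.2 (by rw [Equiv.apply_symm_apply]; exact h2)), h3⟩, h2⟩
  have e1 : IPC.Pr q (TE m) (fun ω => Ring a r (dc G (lf m G ω))) =
      IPC.Pr q (TE m) (fun ω => Ring a r (dc (ud (bxa a (3 * r))) (lf m (ud (bxa a (3 * r))) ω))) := by
    refine pq_congr fun ω _ => ?_
    rw [Ring_dep (a := a) (by omega : 0 ≤ r) (dc G (lf m G ω)), e0, ← dc_dep, lf_inter hG]
  rw [e1, pr_lf ((cm_inj hm).mono (by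
    rw [Finset.coe_union]
    exact Set.subset_union_right)) (fun η => Ring a r (dc (ud (bxa a (3 * r))) η)),
    pr_dcu (Finset.Subset.refl _)]
  obtain ⟨k, hk⟩ : ∃ k : ℕ, (k : ℤ) = r := ⟨r.toNat, Int.toNat_of_nonneg (by omega)⟩
  rw [← hk]
  exact ring_prob hc (by linarith) (by linarith) (RB_symm hRB) (by omega) (by omega) a

private theorem DTorB_dec {q : ℝ} (h0 : 0 ≤ q) (h1 : q ≤ 1) (E : Finset Edge) {A B : Finset Edge → Prop}
    (hA : ∀ ω ω', ω ⊆ ω' → A ω' → A ω) (hB : ∀ ω ω', ω ⊆ ω' → B ω' → B ω) :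
    IPC.Pr q E A * IPC.Pr q E B ≤ IPC.Pr q E (fun ω => A ω ∧ B ω) := by
  have h2 := pq_fkg_not h0 h1 E (A := fun ω => ¬ A ω) (B := fun ω => ¬ B ω)
    (fun ω ω' h h3 h4 => h3 (hA ω ω' h h4)) (fun ω ω' h h3 h4 => h3 (hB ω ω' h h4))
  simp only [not_not] at h2
  exact h2

theorem tor_rings {c q : ℝ} {N m : ℕ} (hc : 0 ≤ c) (h0 : 0 ≤ q) (h1 : q ≤ 1) (hRB : RB c q N) (L : Finset (V × ℤ)) {G : Finset Edge}
    (hL : ∀ p ∈ L, 1 ≤ p.2 ∧ p.2 ≤ N ∧ 3 * p.2 + 1 ≤ m) (hG : RN L ⊆ G) :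
    c ^ (4 * L.card) ≤ IPC.Pr q (TE m) (fun ω => Rings L (lf m G ω)) := by
  classical
  induction L using Finset.induction_on with
  | empty =>
    rw [IPC.Pr_true q (TE m) (fun ω _ p hp => absurd hp (Finset.notMem_empty p)), Finset.card_empty, mul_zero, pow_zero]
  | insert p L hp ih =>
    have hG' : RN L ⊆ G := by
      refine Finset.Subset.trans ?_ hG
      unfold RN
      exact Finset.biUnion_subset_biUnion_of_subset_left _ (Finset.subset_insert p L)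
    have hp' : bxa p.1 (3 * p.2) ⊆ G := (DTorB_sub (Finset.mem_insert_self p L)).trans hG
    have ih' := ih (fun x hx => hL x (Finset.mem_insert_of_mem hx)) hG'
    obtain ⟨k1, k2, k3⟩ := hL p (Finset.mem_insert_self p L)
    have g1 := DTorB_one hc h0 h1 hRB k1 k2 k3 hp'
    have i1 : FKP.Inc (fun ω => Ring p.1 p.2 (lf m G ω)) := fun ω ω' h h2 =>
      Ring_inc p.1 p.2 _ _ (DTorB_lfmono h) h2
    have i2 : FKP.Inc (fun ω => Rings L (lf m G ω)) := fun ω ω' h h2 =>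
      Rings_inc L _ _ (DTorB_lfmono h) h2
    have g2 := pq_fkg h0 h1 (TE m) i1 i2
    have g3 : IPC.Pr q (TE m) (fun ω => Ring p.1 p.2 (lf m G ω) ∧ Rings L (lf m G ω)) ≤
        IPC.Pr q (TE m) (fun ω => Rings (insert p L) (lf m G ω)) := by
      refine pq_mono h0 h1 fun ω _ h x hx => ?_
      rcases Finset.mem_insert.1 hx with hx | hx
      · rw [hx]
        exact h.1
      · exact h.2 x hx
    rw [Finset.card_insert_of_notMem hp]
    calc c ^ (4 * (L.card + 1)) = c ^ 4 * c ^ (4 * L.card) := by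
          rw [← pow_add]
          congr 1
          ring
      _ ≤ IPC.Pr q (TE m) (fun ω => Ring p.1 p.2 (lf m G ω)) * IPC.Pr q (TE m) (fun ω => Rings L (lf m G ω)) :=
          mul_le_mul g1 ih' (by positivity) (pq_nonneg h0 h1 _ _)
      _ ≤ _ := g2.trans g3

theorem tor_rings_dual {c q : ℝ} {N m : ℕ} (hc : 0 ≤ c) (h0 : 0 ≤ q) (h1 : q ≤ 1) (hRB : RB c q N) (L : Finset (V × ℤ)) {G : Finset Edge}
    (hL : ∀ p ∈ L, 1 ≤ p.2 ∧ p.2 ≤ N ∧ 3 * p.2 + 1 ≤ m) (hG : ud (RN L) ⊆ G) :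
    c ^ (4 * L.card) ≤ IPC.Pr q (TE m) (fun ω => Rings L (dc G (lf m G ω))) := by
  classical
  induction L using Finset.induction_on with
  | empty =>
    rw [IPC.Pr_true q (TE m) (fun ω _ p hp => absurd hp (Finset.notMem_empty p)), Finset.card_empty, mul_zero, pow_zero]
  | insert p L hp ih =>
    have hG' : ud (RN L) ⊆ G := by
      refine Finset.Subset.trans (ud_mono ?_) hG
      unfold RN
      exact Finset.biUnion_subset_biUnion_of_subset_left _ (Finset.subset_insert p L)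
    have hp' : ud (bxa p.1 (3 * p.2)) ⊆ G := (ud_mono (DTorB_sub (Finset.mem_insert_self p L))).trans hG
    have ih' := ih (fun x hx => hL x (Finset.mem_insert_of_mem hx)) hG'
    obtain ⟨k1, k2, k3⟩ := hL p (Finset.mem_insert_self p L)
    have g1 := DTorB_oneD hc h0 h1 hRB k1 k2 k3 hp'
    have i1 : ∀ ω ω' : Finset Edge, ω ⊆ ω' → Ring p.1 p.2 (dc G (lf m G ω')) → Ring p.1 p.2 (dc G (lf m G ω)) :=
      fun ω ω' h h2 => Ring_inc p.1 p.2 _ _ (dc_mono (Finset.Subset.refl _) (DTorB_lfmono h)) h2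
    have i2 : ∀ ω ω' : Finset Edge, ω ⊆ ω' → Rings L (dc G (lf m G ω')) → Rings L (dc G (lf m G ω)) :=
      fun ω ω' h h2 => Rings_inc L _ _ (dc_mono (Finset.Subset.refl _) (DTorB_lfmono h)) h2
    have g2 := DTorB_dec h0 h1 (TE m) i1 i2
    have g3 : IPC.Pr q (TE m) (fun ω => Ring p.1 p.2 (dc G (lf m G ω)) ∧ Rings L (dc G (lf m G ω))) ≤
        IPC.Pr q (TE m) (fun ω => Rings (insert p L) (dc G (lf m G ω))) := by
      refine pq_mono h0 h1 fun ω _ h x hx => ?_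
      rcases Finset.mem_insert.1 hx with hx | hx
      · rw [hx]
        exact h.1
      · exact h.2 x hx
    rw [Finset.card_insert_of_notMem hp]
    calc c ^ (4 * (L.card + 1)) = c ^ 4 * c ^ (4 * L.card) := by
          rw [← pow_add]
          congr 1
          ring
      _ ≤ IPC.Pr q (TE m) (fun ω => Ring p.1 p.2 (dc G (lf m G ω))) *
          IPC.Pr q (TE m) (fun ω => Rings L (dc G (lf m G ω))) :=
          mul_le_mul g1 ih' (by positivity) (pq_nonneg h0 h1 _ _)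
      _ ≤ _ := g2.trans g3

end FKN
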