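import Pool.Agent.Lib.MP_216314_pr.N.DRgB
import Pool.Agent.Lib.MP_216314_pr.N.DGwB
import Pool.Agent.Lib.MP_216314_pr.N.DPkA

/-!
# Stream D: chains of circuits around the torus

PROOF. `cO 2 n = ![(n,0), (-n,0)]`, `cD 2 n = ![(0,n), (0,-n)]` (`ptR`, `thO`, `thD`: angles 1, 5 and 3, 7; `gw_val`). Let `N = 2 m + 1`, `R = rr 2 n = n / 200 ≥ 6`, `r = R / 3 ≥ 2` (`3 r ≤ R`, `n ≤ 1050 r`), `T = 2100 κ`, `M = 3 (T + 1)`.
`Lo` = the circuits of radius `r` around `(n + ((N - 2 n) * j) / T, 0)`, `0 ≤ j ≤ T` (integer division; from `(n, 0)` to `(N - n, 0)`). `Ld` = the circuits of radius `r` around `(0, n + ((N - 2 n) * j) / T)` and around `((N * j) / T, m)`, `0 ≤ j ≤ T`.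
Steps: `N / T ≤ (2 κ n + 1) / (2100 κ) ≤ r + 1`, so steps are at most `r + 2 ≤ 4 r`. `link_o`: `chain_big` twice: all circuits of the chain are connected to `v` (`3 r ≤ R`; the other end is at distance `N - 2 n ≥ 3 R + 3 r`), and to `v'`. The same for `link_v`. `link_h`: `chain_reach`.
`pos_o`: `e ∈ RN Lo` has `|e.2.1| ≤ 3 r`, `n - 3 r ≤ e.1 ≤ N - n + 3 r` (`bxa_near`, `mem` of the union); `bal m e.1` is `e.1` or `e.1 - N`. `pos_d`: `e ∈ ud (RN Ld)` has (`ud_bxa_near`) `n - 3 r - 1 ≤ e.2.1 ≤ N - n + 3 r + 1` (also for the horizontal chain, since `m ≥ 4 n`), `bal m e.2.1` is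
`e.2.1` or `e.2.1 - N`.
-/

set_option autoImplicit false

noncomputable section

namespace FKN

open Finset FKI FKP

structure GeoTor (M n m r : ℕ) (Lo Ld : Finset (V × ℤ)) : Prop where
  card_o : Lo.card ≤ M
  card_d : Ld.card ≤ M
  rad_o : ∀ p ∈ Lo, 1 ≤ p.2 ∧ p.2 ≤ rr 2 n
  rad_d : ∀ p ∈ Ld, 1 ≤ p.2 ∧ p.2 ≤ rr 2 n
  in_o : RN Lo ⊆ bx (3 * m)
  in_d : ud (RN Ld) ⊆ bx (3 * m)
  pos_o : ∀ e ∈ RN Lo, |(cm m e).2.1| ≤ rr 2 n ∧ (n : ℤ) - rr 2 n ≤ |(cm m e).1|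
  pos_d : ∀ e ∈ ud (RN Ld), (n : ℤ) - rr 2 n - 1 ≤ |(cm m e).2.1|
  link_o : ∀ (η : Finset Edge) (v v' : V), Rings Lo η → RP (cO 2 n 0) (rr 2 n) η v →
    RP (cO 2 n 1 + pr m (1, 0)) (rr 2 n) η v' → (gr η).Reachable v v'
  link_v : ∀ (η : Finset Edge) (v v' : V), Rings Ld η → RP (cD 2 n 0) (rr 2 n) η v →
    RP (cD 2 n 1 + pr m (0, 1)) (rr 2 n) η v' → (gr η).Reachable v v'
  /-- the horizontal dual chain from `(0, m)` to `(2 m + 1, m)` -/
  link_h : ∀ (η : Finset Edge) (v v' : V), Rings Ld η → RP ((0, (m : ℤ)) : V) r η v →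
    RP (((0, (m : ℤ)) : V) + pr m (1, 0)) r η v' → (gr η).Reachable v v'
  mem_h : (((0, (m : ℤ)) : V), (r : ℤ)) ∈ Ld
  rle : 3 * r ≤ rr 2 n

private theorem DTorC_pt {n : ℕ} {θ a b : ℝ} {A B : ℤ} (ha : gw θ = a) (hb : gw (θ - 2) = b) (hA : (n : ℝ) * a = (A : ℝ))
    (hB : (n : ℝ) * b = (B : ℝ)) : ptR n θ = (A, B) := by
  unfold ptR
  rw [ha, hb, hA, hB, round_intCast, round_intCast]

theorem can_pts (n : ℕ) : cO 2 n 0 = ((n : ℤ), (0 : ℤ)) ∧ cO 2 n 1 = (-(n : ℤ), (0 : ℤ)) ∧ cD 2 n 0 = ((0 : ℤ), (n : ℤ)) ∧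
    cD 2 n 1 = ((0 : ℤ), -(n : ℤ)) := by
  have t1 : thO 2 0 = 1 := by unfold thO; norm_num
  have t2 : thO 2 1 = 5 := by unfold thO; norm_num
  have t3 : thD 2 0 = 3 := by unfold thD; norm_num
  have t4 : thD 2 1 = 7 := by unfold thD; norm_num
  have s1 := (sq_val (θ := 1) (by norm_num) (by norm_num)).1 (by norm_num)
  have s2 := (sq_val (θ := 5) (by norm_num) (by norm_num)).2.2.1 (by norm_num) (by norm_num)
  have s3 := (sq_val (θ := 3) (by norm_num) (by norm_num)).2.1 (by norm_num) (by norm_num)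
  have s4 := (sq_val (θ := 7) (by norm_num) (by norm_num)).2.2.2 (by norm_num)
  refine ⟨?_, ?_, ?_, ?_⟩
  · unfold cO
    rw [t1]
    exact DTorC_pt s1.1 s1.2 (by push_cast; ring) (by push_cast; ring)
  · unfold cO
    rw [t2]
    exact DTorC_pt s2.1 s2.2 (by push_cast; ring) (by push_cast; ring)
  · unfold cD
    rw [t3]
    exact DTorC_pt s3.1 s3.2 (by push_cast; ring) (by push_cast; ring)
  · unfold cD
    rw [t4]
    exact DTorC_pt s4.1 s4.2 (by push_cast; ring) (by push_cast; ring)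

/-- the `j`-th point of a subdivision -/
private def DTorC_f (D : ℤ) (T j : ℕ) : ℤ := (D * j) / T

private theorem DTorC_zero (D : ℤ) (T : ℕ) : DTorC_f D T 0 = 0 := by
  unfold DTorC_f
  rw [Nat.cast_zero, mul_zero, Int.zero_ediv]

private theorem DTorC_last (D : ℤ) {T : ℕ} (hT : 0 < T) : DTorC_f D T T = D := by
  unfold DTorC_f
  exact Int.mul_ediv_cancel D (by omega)

private theorem DTorC_step {D : ℤ} {T : ℕ} (hT : 0 < T) {r : ℤ} (h0 : 0 ≤ D) (h : D ≤ r * T) (j : ℕ) :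
    0 ≤ DTorC_f D T (j + 1) - DTorC_f D T j ∧ DTorC_f D T (j + 1) - DTorC_f D T j ≤ r := by
  unfold DTorC_f
  have hT' : (0 : ℤ) < (T : ℤ) := by exact_mod_cast hT
  have h1 : D * ((j + 1 : ℕ) : ℤ) = D * j + D := by push_cast; ring
  rw [h1]
  constructor
  · have h2 : D * (j : ℤ) / T ≤ (D * j + D) / T := Int.ediv_le_ediv hT' (by linarith)
    linarith
  · have h2 : (D * j + D) / T ≤ (D * j + r * T) / T := Int.ediv_le_ediv hT' (by linarith)
    rw [Int.add_mul_ediv_right _ _ hT'.ne'] at h2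
    linarith

private theorem DTorC_bd {D : ℤ} {T : ℕ} (hT : 0 < T) (h0 : 0 ≤ D) {j : ℕ} (hj : j ≤ T) :
    0 ≤ DTorC_f D T j ∧ DTorC_f D T j ≤ D := by
  unfold DTorC_f
  have hT' : (0 : ℤ) < (T : ℤ) := by exact_mod_cast hT
  have hj' : (j : ℤ) ≤ T := by exact_mod_cast hj
  constructor
  · exact Int.ediv_nonneg (mul_nonneg h0 (by omega)) hT'.le
  · have h2 : D * (j : ℤ) / T ≤ (D * T) / T := Int.ediv_le_ediv hT' (mul_le_mul_of_nonneg_left hj' h0)
    rwa [Int.mul_ediv_cancel D hT'.ne'] at h2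

/-- a chain -/
private def DTorC_L (c : ℕ → V) (T : ℕ) (r : ℤ) : Finset (V × ℤ) := (range (T + 1)).image fun j => (c j, r)

private theorem DTorC_mem {c : ℕ → V} {T : ℕ} {r : ℤ} {p : V × ℤ} : p ∈ DTorC_L c T r ↔ ∃ j ≤ T, p = (c j, r) := by
  unfold DTorC_L
  rw [mem_image]
  constructor
  · rintro ⟨j, hj, rfl⟩
    rw [mem_range] at hj
    exact ⟨j, by omega, rfl⟩
  · rintro ⟨j, hj, rfl⟩
    exact ⟨j, by rw [mem_range]; omega, rfl⟩

private theorem DTorC_card (c : ℕ → V) (T : ℕ) (r : ℤ) : (DTorC_L c T r).card ≤ T + 1 := by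
  unfold DTorC_L
  exact le_trans card_image_le (by rw [card_range])

private theorem DTorC_RN {L : Finset (V × ℤ)} {e : Edge} (he : e ∈ RN L) : ∃ p ∈ L, e ∈ bxa p.1 (3 * p.2) := by
  unfold RN at he
  rw [mem_biUnion] at he
  obtain ⟨p, hp, h⟩ := he
  exact ⟨p, hp, h⟩

private theorem DTorC_ud {L : Finset (V × ℤ)} {e : Edge} (he : e ∈ ud (RN L)) :
    ∃ p ∈ L, e ∈ ud (bxa p.1 (3 * p.2)) := by
  rw [mem_ud] at he
  obtain ⟨p, hp, h⟩ := DTorC_RN he
  exact ⟨p, hp, mem_ud.2 h⟩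

private theorem DTorC_bx {k : ℕ} {e : Edge} (h1 : -(k : ℤ) + 1 ≤ e.1) (h2 : e.1 ≤ (k : ℤ) - 1) (h3 : -(k : ℤ) + 1 ≤ e.2.1)
    (h4 : e.2.1 ≤ (k : ℤ) - 1) : e ∈ bx k := by
  have h : bx k = bxa 0 (k : ℤ) := by
    unfold bx bxa
    rw [Prod.fst_zero, Prod.snd_zero, zero_sub, zero_add]
  rw [h]
  refine (bxa_of_near ?_).1
  unfold nrm
  simp only [Prod.fst_sub, Prod.snd_sub, Prod.fst_zero, Prod.snd_zero]
  exact max_le (abs_le.2 ⟨by omega, by omega⟩) (abs_le.2 ⟨by omega, by omega⟩)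

private theorem DTorC_nrm {u a : V} {t : ℤ} (h : nrm (u - a) ≤ t) :
    a.1 - t ≤ u.1 ∧ u.1 ≤ a.1 + t ∧ a.2 - t ≤ u.2 ∧ u.2 ≤ a.2 + t := by
  unfold nrm at h
  simp only [Prod.fst_sub, Prod.snd_sub] at h
  rw [max_le_iff, abs_le, abs_le] at h
  omega

private theorem DTorC_bal {m : ℕ} {x t : ℤ} (h0 : 0 ≤ t) (_ht : t ≤ m) (h1 : t ≤ x) (h2 : x ≤ 2 * m + 1 - t) : t ≤ |bal m x| := by
  rcases le_or_gt x m with h | h
  · rw [bal_self (by omega) h, abs_of_nonneg (by omega)]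
    exact h1
  · have e : x = (x - (2 * m + 1)) + (2 * (m : ℤ) + 1) * 1 := by ring
    rw [e, bal_add, bal_self (by omega) (by omega), abs_of_nonpos (by omega)]
    omega

theorem geo_tor (κ : ℕ) : ∃ M : ℕ, ∀ n m : ℕ, 1200 ≤ n → 4 * n ≤ m → m ≤ κ * n → ∃ (r : ℕ) (Lo Ld : Finset (V × ℤ)), 1 ≤ r ∧
    GeoTor M n m r Lo Ld := by
  refine ⟨3 * (2100 * κ + 1), ?_⟩
  intro n m hn hm hκ
  obtain ⟨R, hR⟩ : ∃ R, R = rr 2 n := ⟨_, rfl⟩
  obtain ⟨r, hr⟩ : ∃ r, r = R / 3 := ⟨_, rfl⟩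
  have hR' : R = n / 200 := by
    rw [hR]
    unfold rr
    norm_num
  have hr2 : 2 ≤ r := by omega
  have h3r : 3 * r ≤ R := by omega
  have hnr : n ≤ 900 * r := by omega
  have hRn : 200 * R ≤ n := by omega
  have hκ1 : 1 ≤ κ := by
    by_contra h
    have h1 : κ = 0 := by omega
    rw [h1, zero_mul] at hκ
    omega
  obtain ⟨T, hT⟩ : ∃ T, T = 2100 * κ := ⟨_, rfl⟩
  have hT0 : 0 < T := by omega
  obtain ⟨N, hN⟩ : ∃ N : ℤ, N = 2 * (m : ℤ) + 1 := ⟨_, rfl⟩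
  have hNr : N ≤ (r : ℤ) * T := by
    have h1 : m ≤ κ * (900 * r) := le_trans hκ (Nat.mul_le_mul_left κ hnr)
    have h2 : (2 * m + 1 : ℕ) ≤ r * T := by
      have h3 : 2 * (κ * (900 * r)) + 1 ≤ r * (2100 * κ) := by
        have h4 : 1 * 1 ≤ κ * r := Nat.mul_le_mul hκ1 (by omega)
        have h5 : r * (2100 * κ) = 2100 * (κ * r) := by ring
        have h6 : 2 * (κ * (900 * r)) = 1800 * (κ * r) := by ring
        omega
      rw [hT]
      omega
    rw [hN]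
    exact_mod_cast h2
  obtain ⟨D, hD⟩ : ∃ D : ℤ, D = N - 2 * n := ⟨_, rfl⟩
  have hD0 : 0 ≤ D := by omega
  have hDr : D ≤ (r : ℤ) * T := by omega
  have hN0 : 0 ≤ N := by omega
  -- the three chains
  obtain ⟨co, hco⟩ : ∃ co : ℕ → V, co = fun j => ((n : ℤ) + DTorC_f D T j, (0 : ℤ)) := ⟨_, rfl⟩
  obtain ⟨cv, hcv⟩ : ∃ cv : ℕ → V, cv = fun j => ((0 : ℤ), (n : ℤ) + DTorC_f D T j) := ⟨_, rfl⟩
  obtain ⟨ch, hch⟩ : ∃ ch : ℕ → V, ch = fun j => (DTorC_f N T j, (m : ℤ)) := ⟨_, rfl⟩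
  have so : ∀ j < T, nrm (co (j + 1) - co j) ≤ 4 * (r : ℤ) := by
    intro j _
    obtain ⟨h1, h2⟩ := DTorC_step hT0 hD0 hDr j
    rw [hco]
    unfold nrm
    simp only [Prod.fst_sub, Prod.snd_sub]
    exact max_le (abs_le.2 ⟨by omega, by omega⟩) (abs_le.2 ⟨by omega, by omega⟩)
  have sv : ∀ j < T, nrm (cv (j + 1) - cv j) ≤ 4 * (r : ℤ) := by
    intro j _
    obtain ⟨h1, h2⟩ := DTorC_step hT0 hD0 hDr j
    rw [hcv]
    unfold nrm
    simp only [Prod.fst_sub, Prod.snd_sub]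
    exact max_le (abs_le.2 ⟨by omega, by omega⟩) (abs_le.2 ⟨by omega, by omega⟩)
  have sh : ∀ j < T, nrm (ch (j + 1) - ch j) ≤ 4 * (r : ℤ) := by
    intro j _
    obtain ⟨h1, h2⟩ := DTorC_step hT0 hN0 hNr j
    rw [hch]
    unfold nrm
    simp only [Prod.fst_sub, Prod.snd_sub]
    exact max_le (abs_le.2 ⟨by omega, by omega⟩) (abs_le.2 ⟨by omega, by omega⟩)
  have co0 : co 0 = ((n : ℤ), (0 : ℤ)) := by rw [hco]; simp only [DTorC_zero, add_zero]
  have coT : co T = (N - n, (0 : ℤ)) := by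
    rw [hco]
    simp only [DTorC_last D hT0]
    exact Prod.ext (by show (n : ℤ) + D = N - n; omega) rfl
  have cv0 : cv 0 = ((0 : ℤ), (n : ℤ)) := by rw [hcv]; simp only [DTorC_zero, add_zero]
  have cvT : cv T = ((0 : ℤ), N - n) := by
    rw [hcv]
    simp only [DTorC_last D hT0]
    exact Prod.ext rfl (by show (n : ℤ) + D = N - n; omega)
  have ch0 : ch 0 = ((0 : ℤ), (m : ℤ)) := by rw [hch]; simp only [DTorC_zero]
  have chT : ch T = (N, (m : ℤ)) := by rw [hch]; simp only [DTorC_last N hT0]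
  have big : ∀ c : ℕ → V, (∀ j < T, nrm (c (j + 1) - c j) ≤ 4 * (r : ℤ)) → nrm (c T - c 0) = D → nrm (c 0 - c T) = D →
      ∀ (η : Finset Edge) (v v' : V), Rings (DTorC_L c T r) η → RP (c 0) R η v → RP (c T) R η v' → (gr η).Reachable v v' := by
    intro c hc d1 d2 η v v' hη hv hv'
    have hRg : ∀ j ≤ T, Ring (c j) r η := fun j hj => hη (c j, r) (DTorC_mem.2 ⟨j, hj, rfl⟩)
    obtain ⟨v0, hv0⟩ := hRg 0 (Nat.zero_le T)
    have z0 : ∀ u : V, nrm (u - u) = 0 := fun u => by rw [sub_self, nrm_zero]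
    have k1 := chain_big (c := c) (T := T) (r := (r : ℤ)) (r' := (R : ℤ)) (by omega) (by omega) hc (a' := c 0) (j₁ := T) (j₂ := 0)
      le_rfl (Nat.zero_le T) (by rw [d1]; omega) (by rw [z0]; omega) hRg hv0 hv
    have k2 := chain_big (c := c) (T := T) (r := (r : ℤ)) (r' := (R : ℤ)) (by omega) (by omega) hc (a' := c T) (j₁ := 0) (j₂ := T)
      (Nat.zero_le T) le_rfl (by rw [d2]; omega) (by rw [z0]; omega) hRg hv0 hv'
    exact k1.symm.trans k2
  have sub1 : ∀ L L' : Finset (V × ℤ), ∀ η : Finset Edge, Rings (L ∪ L') η → Rings L η ∧ Rings L' η :=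
    fun L L' η h => ⟨fun p hp => h p (mem_union_left _ hp), fun p hp => h p (mem_union_right _ hp)⟩
  obtain ⟨q1, q2, q3, q4⟩ := can_pts n
  have dO : nrm (co T - co 0) = D ∧ nrm (co 0 - co T) = D := by
    rw [coT, co0]
    unfold nrm
    simp only [Prod.fst_sub, Prod.snd_sub, sub_self, abs_zero]
    constructor
    · rw [abs_of_nonneg (by omega), max_eq_left (by omega)]
      omega
    · rw [abs_of_nonpos (by omega), max_eq_left (by omega)]
      omega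
  have dV : nrm (cv T - cv 0) = D ∧ nrm (cv 0 - cv T) = D := by
    rw [cvT, cv0]
    unfold nrm
    simp only [Prod.fst_sub, Prod.snd_sub, sub_self, abs_zero]
    constructor
    · rw [abs_of_nonneg (a := N - (n : ℤ) - n) (by omega), max_eq_right (by omega)]
      omega
    · rw [abs_of_nonpos (a := (n : ℤ) - (N - n)) (by omega), max_eq_right (by omega)]
      omega
  -- positions of the dual boxes
  have posd : ∀ e ∈ ud (RN (DTorC_L cv T r ∪ DTorC_L ch T r)),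
      (-(3 * (r : ℤ)) - 1 ≤ e.1 ∧ e.1 ≤ N + 3 * r + 1) ∧ ((n : ℤ) - 3 * r - 1 ≤ e.2.1 ∧ e.2.1 ≤ N - n + 3 * r + 1) := by
    intro e he
    obtain ⟨p, hp, hpe⟩ := DTorC_ud he
    have h1 := DTorC_nrm (ud_bxa_near hpe)
    rw [mem_union] at hp
    rcases hp with hp | hp
    · obtain ⟨j, hj, rfl⟩ := DTorC_mem.1 hp
      obtain ⟨b1, b2⟩ := DTorC_bd hT0 hD0 hj
      rw [hcv] at h1
      simp only at h1
      refine ⟨⟨by omega, by omega⟩, by omega, by omega⟩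
    · obtain ⟨j, hj, rfl⟩ := DTorC_mem.1 hp
      obtain ⟨b1, b2⟩ := DTorC_bd hT0 hN0 hj
      rw [hch] at h1
      simp only at h1
      refine ⟨⟨by omega, by omega⟩, by omega, by omega⟩
  have poso : ∀ e ∈ RN (DTorC_L co T r),
      ((n : ℤ) - 3 * r ≤ e.1 ∧ e.1 ≤ N - n + 3 * r) ∧ (-(3 * (r : ℤ)) ≤ e.2.1 ∧ e.2.1 ≤ 3 * r) := by
    intro e he
    obtain ⟨p, hp, hpe⟩ := DTorC_RN he
    have h1 := DTorC_nrm (bxa_near hpe)
    obtain ⟨j, hj, rfl⟩ := DTorC_mem.1 hp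
    obtain ⟨b1, b2⟩ := DTorC_bd hT0 hD0 hj
    rw [hco] at h1
    simp only at h1
    refine ⟨⟨by omega, by omega⟩, by omega, by omega⟩
  refine ⟨r, DTorC_L co T r, DTorC_L cv T r ∪ DTorC_L ch T r, by omega, ?_⟩
  rw [hR] at h3r hRn
  constructor
  case card_o =>
    have := DTorC_card co T r
    omega
  case card_d =>
    have h1 := card_union_le (DTorC_L cv T r) (DTorC_L ch T r)
    have h2 := DTorC_card cv T r
    have h3 := DTorC_card ch T r
    omega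
  case rad_o =>
    intro p hp
    obtain ⟨j, hj, rfl⟩ := DTorC_mem.1 hp
    exact ⟨by show (1 : ℤ) ≤ r; omega, by show (r : ℤ) ≤ _; omega⟩
  case rad_d =>
    intro p hp
    rw [mem_union] at hp
    rcases hp with hp | hp
    · obtain ⟨j, hj, rfl⟩ := DTorC_mem.1 hp
      exact ⟨by show (1 : ℤ) ≤ r; omega, by show (r : ℤ) ≤ _; omega⟩
    · obtain ⟨j, hj, rfl⟩ := DTorC_mem.1 hp
      exact ⟨by show (1 : ℤ) ≤ r; omega, by show (r : ℤ) ≤ _; omega⟩
  case in_o =>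
    intro e he
    obtain ⟨⟨h1, h2⟩, h3, h4⟩ := poso e he
    refine DTorC_bx ?_ ?_ ?_ ?_ <;> push_cast <;> omega
  case in_d =>
    intro e he
    obtain ⟨⟨h1, h2⟩, h3, h4⟩ := posd e he
    refine DTorC_bx ?_ ?_ ?_ ?_ <;> push_cast <;> omega
  case pos_o =>
    intro e he
    obtain ⟨⟨h1, h2⟩, h3, h4⟩ := poso e he
    have e1 : (cm m e).2.1 = bal m e.2.1 := rfl
    have e2 : (cm m e).1 = bal m e.1 := rfl
    rw [e1, e2]
    constructor
    · rw [bal_self (by omega) (by omega), abs_le]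
      constructor <;> omega
    · exact DTorC_bal (by omega) (by omega) (by omega) (by omega)
  case pos_d =>
    intro e he
    obtain ⟨⟨h1, h2⟩, h3, h4⟩ := posd e he
    have e1 : (cm m e).2.1 = bal m e.2.1 := rfl
    rw [e1]
    exact DTorC_bal (by omega) (by omega) (by omega) (by omega)
  case link_o =>
    intro η v v' hη hv hv'
    refine big co so dO.1 dO.2 η v v' hη ?_ ?_
    · rw [co0, ← q1, hR]
      exact hv
    · have h1 : cO 2 n 1 + pr m (1, 0) = co T := by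
        rw [q2, coT]
        unfold pr
        refine Prod.ext ?_ ?_
        · show -(n : ℤ) + (2 * (m : ℤ) + 1) * 1 = N - n
          rw [hN]
          ring
        · show (0 : ℤ) + (2 * (m : ℤ) + 1) * 0 = 0
          ring
      rw [← h1, hR]
      exact hv'
  case link_v =>
    intro η v v' hη hv hv'
    refine big cv sv dV.1 dV.2 η v v' (sub1 _ _ η hη).1 ?_ ?_
    · rw [cv0, ← q3, hR]
      exact hv
    · have h1 : cD 2 n 1 + pr m (0, 1) = cv T := by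
        rw [q4, cvT]
        unfold pr
        refine Prod.ext ?_ ?_
        · show (0 : ℤ) + (2 * (m : ℤ) + 1) * 0 = 0
          ring
        · show -(n : ℤ) + (2 * (m : ℤ) + 1) * 1 = N - n
          rw [hN]
          ring
      rw [← h1, hR]
      exact hv'
  case link_h =>
    intro η v v' hη hv hv'
    have hRg : ∀ j ≤ T, Ring (ch j) r η := fun j hj => (sub1 _ _ η hη).2 (ch j, r) (DTorC_mem.2 ⟨j, hj, rfl⟩)
    have h1 : ((0, (m : ℤ)) : V) + pr m (1, 0) = ch T := by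
      rw [chT]
      unfold pr
      refine Prod.ext ?_ ?_
      · show (0 : ℤ) + (2 * (m : ℤ) + 1) * 1 = N
        rw [hN]
        ring
      · show (m : ℤ) + (2 * (m : ℤ) + 1) * 0 = m
        ring
    rw [h1] at hv'
    rw [← ch0] at hv
    exact chain_reach (by omega) sh hRg hv T le_rfl v' hv'
  case mem_h =>
    rw [mem_union]
    right
    exact DTorC_mem.2 ⟨0, Nat.zero_le T, by rw [ch0]⟩
  case rle => exact h3r

end FKN
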