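import Pool.Agent.Lib.MP_216314_pr.N.DTorB
import Pool.Agent.Lib.MP_216314_pr.N.DTorC
import Pool.Agent.Lib.MP_216314_pr.N.DStA

/-!
# Stream D: the canonical state and the chains around the torus make `e0` pivotal

PROOF. `G = bx (3 m)`, `η = lf m G ω`, `η' = dc G (lf m G ω)`, `N = 2 m + 1`, `R = rr 2 n`.
From `hC`: `s`, `v : Fin 2 → V` with `SeP .. s` (a permutation `σ` with `nrm (s i - ![(0,0),(1,0)] (σ i)) ≤ 0`, so `s i = ![(0,0),(1,0)] (σ i)`), `RP (cO 2 n i) R (ω ∩ Fp) (v i)`, `(gr (ω ∩ Fp)).Reachable (s i) (v i)`; the same for the dual arms: `s'`, `v'` with `Fm`, `cD`, in `gr (dc Fm ω)`;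
`Fp`, `Fm ⊆ bx (2 n) ⊆ TE m` (`CanO_region`, `bx_sub_TE` of NTa).
(a) `W m (insert e0 ω)`. `gr (ω ∩ Fp)` is a subgraph of `tgr m ω` (`cm_self`; `conn_tgr` of NTb). `s 0`, `s 1` are the two ends of `e0` in some order, connected in `tgr m (insert e0 ω)` (`tgr_edge`). So `v 0 ~ v 1` there. `RP (cO 2 n 0) R η (v 0)`: `RP_dep` and `RP_mono`, since
`ω ∩ Fp ∩ bxa (cO 2 n 0) (3 R) ⊆ η`. `RP (cO 2 n 1 + pr m (1,0)) R η (v 1 + pr m (1,0))`: `RP_sh` for `ω ∩ Fp ∩ bxa (cO 2 n 1) (3 R)`, whose translate is contained in `η` (`cm_pr` of NTa; the translated box is in `bx (3 m)`). `link_o`, `lf_tgr`: `v 0 ~ v 1 + pr m (1,0)` in `tgr m ω`. Hence `v 1 ~ v 1 + pr m (1,0)`.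
(b) `¬ W m (ω.erase e0)`: `not_W_of_dual` for `ω.erase e0`. All dual connections of `ω` hold in `tdg m ω ≤ tdg m (ω.erase e0)` (`tdg_anti`). `gr (dc Fm ω)`-connections are `tdg m ω`-connections (`cm_self`). The two faces of `e0` are connected in `tdg m (ω.erase e0)` (`tdg_edge`, `cm m e0 = e0`): `v' 0 ~ v' 1`.
`RP (cD 2 n 0) R η' (v' 0)` and `RP (cD 2 n 1 + pr m (0,1)) R η' (v' 1 + pr m (0,1))` as in (a) (`dc Fm ω ∩ bxa (cD 2 n i) (3 R) ⊆ η'`, `dlf_shift`), `link_v`, `dlf_tdg`: `v' 0 ~ v' 1 + pr m (0,1)`. So `v' 1 ~ v' 1 + pr m (0,1)`.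
Horizontal: `mem_h` gives `g` with `RP (0,m) r η' g`; by `RP_sh` and `dlf_shift` (the edges of `η' ∩ bxa (0,m) (3 r)`) `RP ((0,m) + pr m (1,0)) r η' (g + pr m (1,0))`; `link_h`, `dlf_tdg`: `g ~ g + pr m (1,0)`.
(`shv (pr m w) (dl e) = dl (shv (pr m w) e)`.)
-/

set_option autoImplicit false

noncomputable section

namespace FKN

open Finset FKI FKP

private theorem DTorD_bx {k : ℕ} {e : Edge} (h1 : -(k : ℤ) + 1 ≤ e.1) (h2 : e.1 ≤ (k : ℤ) - 1) (h3 : -(k : ℤ) + 1 ≤ e.2.1)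
    (h4 : e.2.1 ≤ (k : ℤ) - 1) : e ∈ bx k := by
  have h : bx k = bxa 0 (k : ℤ) := by
    unfold bx bxa
    rw [Prod.fst_zero, Prod.snd_zero, zero_sub, zero_add]
  rw [h]
  refine (bxa_of_near ?_).1
  unfold nrm
  simp only [Prod.fst_sub, Prod.snd_sub, Prod.fst_zero, Prod.snd_zero]
  exact max_le (abs_le.2 ⟨by omega, by omega⟩) (abs_le.2 ⟨by omega, by omega⟩)

private theorem DTorD_nrm {u a : V} {t : ℤ} (h : nrm (u - a) ≤ t) :
    a.1 - t ≤ u.1 ∧ u.1 ≤ a.1 + t ∧ a.2 - t ≤ u.2 ∧ u.2 ≤ a.2 + t := by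
  unfold nrm at h
  simp only [Prod.fst_sub, Prod.snd_sub] at h
  rw [max_le_iff, abs_le, abs_le] at h
  omega

private theorem DTorD_eq {u a : V} (h : nrm (u - a) ≤ 0) : u = a := by
  have h1 := DTorD_nrm h
  exact Prod.ext (by omega) (by omega)

/-- the edge crossed by a dual edge -/
private theorem DTorD_map {k : ℕ} {e : Edge} (h1 : -(k : ℤ) + 2 ≤ e.1) (h2 : e.1 ≤ (k : ℤ) - 2) (h3 : -(k : ℤ) + 2 ≤ e.2.1)
    (h4 : e.2.1 ≤ (k : ℤ) - 2) : e ∈ (bx k).map dl.toEmbedding := by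
  rw [Finset.mem_map_equiv]
  obtain ⟨x, y, t⟩ := e
  simp only at h1 h2 h3 h4
  cases t
  · have e1 : dl.symm (x, y, false) = (x + 1, y, true) := by
      rw [Equiv.symm_apply_eq]
      simp [dl]
    rw [e1]
    exact DTorD_bx (by show _ ≤ x + 1; omega) (by show x + 1 ≤ _; omega) (by show _ ≤ y; omega) (by show y ≤ _; omega)
  · have e1 : dl.symm (x, y, true) = (x, y + 1, false) := by
      rw [Equiv.symm_apply_eq]
      simp [dl]
    rw [e1]
    exact DTorD_bx (by show _ ≤ x; omega) (by show x ≤ _; omega) (by show _ ≤ y + 1; omega) (by show y + 1 ≤ _; omega)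

theorem tor_piv {M n m r : ℕ} {Lo Ld : Finset (V × ℤ)} (hn : 1200 ≤ n) (hm : 4 * n ≤ m) (hr : 1 ≤ r) (hG : GeoTor M n m r Lo Ld)
    {ω : Finset Edge} (hω : ω ⊆ TE m) (hC : CanO 2 {e0} SeP SeD n ω) (hp : Rings Lo (lf m (bx (3 * m)) ω))
    (hd : Rings Ld (dc (bx (3 * m)) (lf m (bx (3 * m)) ω))) : Piv e0 (W m) ω := by
  have hRn : 200 * rr 2 n ≤ n := by
    unfold rr
    omega
  have hreg := CanO_region (l := 2) (by norm_num) {e0} n (Finset.singleton_subset_iff.2 (e0_mem (by omega)))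
  obtain ⟨Fp, hFp⟩ : ∃ Fp : Finset Edge, Fp = (bx (n - 5 * rr 2 n) \ {e0}) ∪ bxs (cO 2 n) (10 * rr 2 n) := ⟨_, rfl⟩
  obtain ⟨Fm, hFm⟩ : ∃ Fm : Finset Edge, Fm = (bx (n - 5 * rr 2 n) \ {e0}) ∪ ud (bxs (cD 2 n) (10 * rr 2 n)) := ⟨_, rfl⟩
  unfold CanO at hC
  rw [← hFp, ← hFm] at hreg hC
  have hp2 : Fp ⊆ bx (2 * n) := Finset.Subset.trans Finset.subset_union_left hreg
  have hm2 : Fm ⊆ bx (2 * n) := Finset.Subset.trans Finset.subset_union_right hreg
  have hpT : Fp ⊆ TE m := hp2.trans (bx_sub_TE (by omega))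
  have hmT : Fm ⊆ TE m := hm2.trans (bx_sub_TE (by omega))
  have hpG : Fp ⊆ bx (3 * m) := hp2.trans (bx_mono (by omega))
  have hmG : Fm ⊆ bx (3 * m) := hm2.trans (bx_mono (by omega))
  obtain ⟨q1, q2, q3, q4⟩ := can_pts n
  have hrle := hG.rle
  obtain ⟨⟨s, v, ⟨σ, hσ⟩, hv, hsv⟩, ⟨s', v', ⟨σ', hσ'⟩, hv', hsv'⟩⟩ := hC
  have he0 : e0 ∈ TE m := bx_sub_TE (show 1 ≤ m by omega) (e0_mem le_rfl)
  have hcm0 : cm m e0 = e0 := cm_self he0
  constructor
  · -- the winding loop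
    have t1 : ∀ u w : V, (gr (ω ∩ Fp)).Reachable u w → (tgr m ω).Reachable u w := by
      intro u w h
      exact (conn_tgr hpT h).mono (tgr_mono Finset.inter_subset_left)
    have t2 : tgr m ω ≤ tgr m (insert e0 ω) := tgr_mono (Finset.subset_insert _ _)
    have hedge : (tgr m (insert e0 ω)).Reachable ((0, 0) : V) (1, 0) := by
      have h := tgr_edge (m := m) (ω := insert e0 ω) (e := e0) (by rw [hcm0]; exact Finset.mem_insert_self _ _)
      exact h
    have hf : ∀ j j' : Fin 2, (tgr m (insert e0 ω)).Reachable ((![(0, 0), (1, 0)] : Fin 2 → V) j)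
        ((![(0, 0), (1, 0)] : Fin 2 → V) j') := by
      intro j j'
      fin_cases j <;> fin_cases j'
      · exact SimpleGraph.Reachable.refl _
      · exact hedge
      · exact hedge.symm
      · exact SimpleGraph.Reachable.refl _
    have hs0 : s 0 = (![(0, 0), (1, 0)] : Fin 2 → V) (σ 0) := DTorD_eq (hσ 0)
    have hs1 : s 1 = (![(0, 0), (1, 0)] : Fin 2 → V) (σ 1) := DTorD_eq (hσ 1)
    have h01 : (tgr m (insert e0 ω)).Reachable (v 1) (v 0) := by
      have k0 := (t1 _ _ (hsv 0)).mono t2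
      have k1 := (t1 _ _ (hsv 1)).mono t2
      rw [hs0] at k0
      rw [hs1] at k1
      exact (k1.symm.trans (hf _ _)).trans k0
    have hsub : ω ∩ Fp ⊆ lf m (bx (3 * m)) ω := by
      intro e he
      rw [Finset.mem_inter] at he
      unfold lf
      rw [Finset.mem_filter, cm_self (hpT he.2)]
      exact ⟨hpG he.2, he.1⟩
    have r1 : RP (cO 2 n 0) (rr 2 n) (lf m (bx (3 * m)) ω) (v 0) := RP_mono hsub (hv 0)
    have r2 : RP (cO 2 n 1 + pr m (1, 0)) (rr 2 n) (lf m (bx (3 * m)) ω) (v 1 + pr m (1, 0)) := by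
      have h1 := (RP_dep (a := cO 2 n 1) (r := (rr 2 n : ℤ)) (by omega) (ω ∩ Fp) (v 1)).1 (hv 1)
      refine RP_mono ?_ (RP_sh (pr m (1, 0)) h1)
      intro e' he'
      rw [Finset.mem_image] at he'
      obtain ⟨e, he, rfl⟩ := he'
      rw [Finset.mem_inter] at he
      have h2 := DTorD_nrm (bxa_near he.2)
      rw [q2] at h2
      simp only at h2
      have s1 : (shv (pr m (1, 0)) e).1 = e.1 + (2 * (m : ℤ) + 1) * 1 := rfl
      have s2 : (shv (pr m (1, 0)) e).2.1 = e.2.1 + (2 * (m : ℤ) + 1) * 0 := rfl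
      refine lf_shift (1, 0) (hsub he.1) (DTorD_bx ?_ ?_ ?_ ?_)
      · rw [s1]; push_cast; omega
      · rw [s1]; push_cast; omega
      · rw [s2]; push_cast; omega
      · rw [s2]; push_cast; omega
    have k := (lf_tgr (hG.link_o _ _ _ hp r1 r2)).mono t2
    exact ⟨v 1, (1, 0), by simp, h01.trans k⟩
  · -- no winding loop without the edge
    have t2 : tdg m ω ≤ tdg m (ω.erase e0) := tdg_anti (Finset.erase_subset _ _)
    have t1 : ∀ u w : V, (gr (dc Fm ω)).Reachable u w → (tdg m ω).Reachable u w := by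
      intro u w h
      refine dlf_tdg (F := Fm) ?_
      rw [lf_TE hmT, dc_dep]
      exact h
    have hedge : (tdg m (ω.erase e0)).Reachable ((0, -1) : V) (0, 0) := by
      have h := tdg_edge (m := m) (ω := ω.erase e0) (e := e0) (by rw [hcm0]; exact Finset.notMem_erase _ _)
      have e1 : ea (dl e0) = ((0, -1) : V) := by simp [dl, e0, ea]
      have e2 : eb (dl e0) = ((0, 0) : V) := by simp [dl, e0, eb]
      rw [e1, e2] at h
      exact h
    have hf : ∀ j j' : Fin 2, (tdg m (ω.erase e0)).Reachable ((![(0, 0), (0, -1)] : Fin 2 → V) j)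
        ((![(0, 0), (0, -1)] : Fin 2 → V) j') := by
      intro j j'
      fin_cases j <;> fin_cases j'
      · exact SimpleGraph.Reachable.refl _
      · exact hedge.symm
      · exact hedge
      · exact SimpleGraph.Reachable.refl _
    have hs0 : s' 0 = (![(0, 0), (0, -1)] : Fin 2 → V) (σ' 0) := DTorD_eq (hσ' 0)
    have hs1 : s' 1 = (![(0, 0), (0, -1)] : Fin 2 → V) (σ' 1) := DTorD_eq (hσ' 1)
    have h01 : (tdg m (ω.erase e0)).Reachable (v' 1) (v' 0) := by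
      have k0 := (t1 _ _ (hsv' 0)).mono t2
      have k1 := (t1 _ _ (hsv' 1)).mono t2
      rw [hs0] at k0
      rw [hs1] at k1
      exact (k1.symm.trans (hf _ _)).trans k0
    have hsub : dc Fm ω ⊆ dc (bx (3 * m)) (lf m (bx (3 * m)) ω) := by
      intro e he
      unfold dc at he ⊢
      rw [Finset.mem_map_equiv, Finset.mem_sdiff] at he ⊢
      refine ⟨hmG he.1, fun h => he.2 ?_⟩
      unfold lf at h
      rw [Finset.mem_filter, cm_self (hmT he.1)] at h
      exact h.2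
    have r1 : RP (cD 2 n 0) (rr 2 n) (dc (bx (3 * m)) (lf m (bx (3 * m)) ω)) (v' 0) := RP_mono hsub (hv' 0)
    have r2 : RP (cD 2 n 1 + pr m (0, 1)) (rr 2 n) (dc (bx (3 * m)) (lf m (bx (3 * m)) ω)) (v' 1 + pr m (0, 1)) := by
      have h1 := (RP_dep (a := cD 2 n 1) (r := (rr 2 n : ℤ)) (by omega) (dc Fm ω) (v' 1)).1 (hv' 1)
      refine RP_mono ?_ (RP_sh (pr m (0, 1)) h1)
      intro e' he'
      rw [Finset.mem_image] at he'
      obtain ⟨e, he, rfl⟩ := he'
      rw [Finset.mem_inter] at he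
      have h2 := DTorD_nrm (bxa_near he.2)
      rw [q4] at h2
      simp only at h2
      have s1 : (shv (pr m (0, 1)) e).1 = e.1 + (2 * (m : ℤ) + 1) * 0 := rfl
      have s2 : (shv (pr m (0, 1)) e).2.1 = e.2.1 + (2 * (m : ℤ) + 1) * 1 := rfl
      refine dlf_shift (0, 1) (hsub he.1) (DTorD_map ?_ ?_ ?_ ?_)
      · rw [s1]; push_cast; omega
      · rw [s1]; push_cast; omega
      · rw [s2]; push_cast; omega
      · rw [s2]; push_cast; omega
    have k := (dlf_tdg (hG.link_v _ _ _ hd r1 r2)).mono t2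
    have hV : (tdg m (ω.erase e0)).Reachable (v' 1) (v' 1 + pr m (0, 1)) := h01.trans k
    -- the horizontal dual loop
    obtain ⟨g, hg⟩ : Ring ((0, (m : ℤ)) : V) r (dc (bx (3 * m)) (lf m (bx (3 * m)) ω)) := hd _ hG.mem_h
    have r3 : RP (((0, (m : ℤ)) : V) + pr m (1, 0)) r (dc (bx (3 * m)) (lf m (bx (3 * m)) ω)) (g + pr m (1, 0)) := by
      have h1 := (RP_dep (a := ((0, (m : ℤ)) : V)) (r := (r : ℤ)) (by omega) _ g).1 hg
      refine RP_mono ?_ (RP_sh (pr m (1, 0)) h1)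
      intro e' he'
      rw [Finset.mem_image] at he'
      obtain ⟨e, he, rfl⟩ := he'
      rw [Finset.mem_inter] at he
      have h2 := DTorD_nrm (bxa_near he.2)
      simp only at h2
      have s1 : (shv (pr m (1, 0)) e).1 = e.1 + (2 * (m : ℤ) + 1) * 1 := rfl
      have s2 : (shv (pr m (1, 0)) e).2.1 = e.2.1 + (2 * (m : ℤ) + 1) * 0 := rfl
      refine dlf_shift (1, 0) he.1 (DTorD_map ?_ ?_ ?_ ?_)
      · rw [s1]; push_cast; omega
      · rw [s1]; push_cast; omega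
      · rw [s2]; push_cast; omega
      · rw [s2]; push_cast; omega
    have hH := (dlf_tdg (hG.link_h _ _ _ hd hg r3)).mono t2
    exact not_W_of_dual hV hH

end FKN
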