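import Pool.Agent.Lib.MP_216314_pr.N.DTorD
import Pool.Agent.Lib.MP_216314_pr.N.DBase

/-!
# Stream D: from the plane to the torus, probabilities

PROOF of `tor_can`. `geo_tor κ` gives `M`, `r`, `Lo`, `Ld`; `C = 1 / c ^ (8 M)`. `mixed_fkg` with `E = TE m`, `Fp`, `Fm` the two regions of `CanO 2 {e0} SeP SeD n` (`⊆ bx (2 n) ⊆ TE m`), `Np = (RN Lo).image (cm m)`, `Nm = (ud (RN Ld)).image (cm m)` (`⊆ TE m`, `cm_mem`),
`Ap ω = StG SeP (ringT (cO 2 n) (rr 2 n)) (ω ∩ Fp)`, `Am ω = StG SeD (ringT (cD 2 n) (rr 2 n)) (dc Fm ω)`, `Bp ω = Rings Lo (lf m (bx (3 m)) ω)`, `Bm ω = Rings Ld (dc (bx (3 m)) (lf m (bx (3 m)) ω))`. `Bp` depends on `Np`: `Rings_dep` and `lf_inter`, `lf_dep`; `Bm` depends on `Nm` (a dual edge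
`f ∈ RN Ld` is in `dc G (lf m G ω)` iff `cm m (dl.symm f) ∉ ω`). Disjointness: an edge of `Np` has `|e.2.1| ≤ R`, `|e.1| ≥ n - R` (`R = rr 2 n`, `pos_o`), an edge of `Nm` has `|e.2.1| ≥ n - R - 1`; the edges of `bx (n - 5 R)` have `|e.1|, |e.2.1| ≤ n - 5 R`, those of
`bxs (cO 2 n) (10 R)` have `|e.2.1| ≤ 10 R`, those of `ud (bxs (cD 2 n) (10 R))` have `|e.2.1| ≥ n - 10 R - 1 > R` (`can_pts`, `bxa_near`, `ud_bxa_near`; `n ≥ 200 R`, `R ≥ 6`). `tor_rings`, `tor_rings_dual` (radii `≤ R ≤ n`, `3 R + 1 ≤ m`), `tor_piv`, `pr_StE` (`wO q n` is computed in `TE m`).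
PROOF of `rho_base`: the configuration `ω0 = {(x, 0, false) : -m ≤ x ≤ m, x ≠ 0}` satisfies `Piv e0 (W m)`: in `insert e0 ω0` the line `y = 0` is open, `0 ~ pr m (1, 0)`; in `ω0.erase e0 = ω0`: `not_W_of_dual` with the column `x = 0`: the faces `(0, y)`, `(0, y + 1)` are separated by
`(0, y + 1, false)`, closed for all `y` (representative `(0, bal m (y+1), false)`, which is not in `ω0`), so `(0,0) ~ (0, 2 m + 1)`; and the row `y = 0`: the faces `(x, 0)`, `(x + 1, 0)` are separated by the vertical edge `(x + 1, 0, true)`, closed. Then `conf_pr`, `q_of_rs`, `card_TE` and the minimum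
over `m ≤ M`.
-/

set_option autoImplicit false

noncomputable section

namespace FKN

open Finset FKI FKP

private theorem DTorE_dep_o {m : ℕ} {L : Finset (V × ℤ)} {G : Finset Edge} (hL : ∀ p ∈ L, 0 ≤ p.2) (hG : RN L ⊆ G) :
    Dep ((RN L).image (cm m)) (fun ω => Rings L (lf m G ω)) := by
  intro ω
  show Rings L (lf m G ω) ↔ Rings L (lf m G (ω ∩ (RN L).image (cm m)))
  rw [Rings_dep hL (lf m G ω), Rings_dep hL (lf m G (ω ∩ (RN L).image (cm m))), lf_inter hG, lf_inter hG, lf_dep]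

private theorem DTorE_dep_d {m : ℕ} {L : Finset (V × ℤ)} (G : Finset Edge) (hL : ∀ p ∈ L, 0 ≤ p.2) :
    Dep ((ud (RN L)).image (cm m)) (fun ω => Rings L (dc G (lf m G ω))) := by
  intro ω
  show Rings L (dc G (lf m G ω)) ↔ Rings L (dc G (lf m G (ω ∩ (ud (RN L)).image (cm m))))
  rw [Rings_dep hL (dc G (lf m G ω)), Rings_dep hL (dc G (lf m G (ω ∩ (ud (RN L)).image (cm m))))]
  have h : dc G (lf m G ω) ∩ RN L = dc G (lf m G (ω ∩ (ud (RN L)).image (cm m))) ∩ RN L := by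
    ext f
    unfold dc lf
    rw [Finset.mem_inter, Finset.mem_inter, Finset.mem_map_equiv, Finset.mem_map_equiv, Finset.mem_sdiff,
      Finset.mem_sdiff, Finset.mem_filter, Finset.mem_filter, Finset.mem_inter]
    constructor
    · rintro ⟨⟨h1, h2⟩, h3⟩
      exact ⟨⟨h1, fun h4 => h2 ⟨h4.1, h4.2.1⟩⟩, h3⟩
    · rintro ⟨⟨h1, h2⟩, h3⟩
      refine ⟨⟨h1, fun h4 => h2 ⟨h4.1, h4.2, ?_⟩⟩, h3⟩
      refine Finset.mem_image_of_mem _ ?_
      rw [mem_ud, Equiv.apply_symm_apply]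
      exact h3
  rw [h]

private theorem DTorE_near {l : ℕ} {a : Fin l → V} {w : ℤ} {e : Edge} (he : e ∈ bxs a w) :
    ∃ i, nrm ((e.1, e.2.1) - a i) ≤ w := by
  unfold bxs at he
  rw [Finset.mem_biUnion] at he
  obtain ⟨i, _, hi⟩ := he
  exact ⟨i, bxa_near hi⟩

private theorem DTorE_near' {l : ℕ} {a : Fin l → V} {w : ℤ} {e : Edge} (he : e ∈ ud (bxs a w)) :
    ∃ i, nrm ((e.1, e.2.1) - a i) ≤ w + 1 := by
  rw [mem_ud] at he
  unfold bxs at he
  rw [Finset.mem_biUnion] at he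
  obtain ⟨i, _, hi⟩ := he
  exact ⟨i, ud_bxa_near (mem_ud.2 hi)⟩

private theorem DTorE_bx {r : ℕ} {e : Edge} (he : e ∈ bx r) : |e.1| ≤ r ∧ |e.2.1| ≤ r := by
  have h := (mem_bx.1 he).1
  unfold nrm at h
  rw [max_le_iff] at h
  exact h

private theorem DTorE_o {n : ℕ} {w : ℤ} {x : Edge} {i : Fin 2} (h : nrm ((x.1, x.2.1) - cO 2 n i) ≤ w) : |x.2.1| ≤ w := by
  have hp := can_pts n
  unfold nrm at h
  rw [max_le_iff] at h
  have h2 : |x.2.1 - (cO 2 n i).2| ≤ w := h.2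
  have h3 : (cO 2 n i).2 = 0 := by
    fin_cases i
    · exact congrArg Prod.snd hp.1
    · exact congrArg Prod.snd hp.2.1
  rw [h3, sub_zero] at h2
  exact h2

private theorem DTorE_d {n : ℕ} {w : ℤ} {x : Edge} {i : Fin 2} (h : nrm ((x.1, x.2.1) - cD 2 n i) ≤ w) :
    (n : ℤ) - w ≤ |x.2.1| := by
  have hp := can_pts n
  unfold nrm at h
  rw [max_le_iff] at h
  have h2 : |x.2.1 - (cD 2 n i).2| ≤ w := h.2
  have h3 : (cD 2 n i).2 = n ∨ (cD 2 n i).2 = -n := by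
    fin_cases i
    · exact Or.inl (congrArg Prod.snd hp.2.2.1)
    · exact Or.inr (congrArg Prod.snd hp.2.2.2)
  rw [abs_le] at h2
  rcases h3 with h3 | h3
  · rw [h3] at h2
    have := le_abs_self x.2.1
    omega
  · rw [h3] at h2
    have := neg_abs_le x.2.1
    omega

theorem tor_can {c : ℝ} (hc : 0 < c) (hc1 : c ≤ 1) (κ : ℕ) : ∃ C : ℝ, 0 < C ∧ ∀ (q : ℝ) (n m : ℕ), 0 ≤ q → q ≤ 1 → RB c q n →
    1200 ≤ n → 4 * n ≤ m → m ≤ κ * n → wO q n ≤ C * rho q m := by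
  obtain ⟨M, hM⟩ := geo_tor κ
  refine ⟨1 / c ^ (8 * M), by positivity, ?_⟩
  intro q n m h0 h1 hRB hn hm hm'
  obtain ⟨r, Lo, Ld, hr, hG⟩ := hM n m hn hm hm'
  have hR1 : 200 * rr 2 n ≤ n := by
    unfold rr
    have := Nat.div_mul_le_self n (100 * 2)
    omega
  have hR2 : 6 ≤ rr 2 n := by
    unfold rr
    omega
  have hRz1 : 200 * (rr 2 n : ℤ) ≤ n := by exact_mod_cast hR1
  have hRz2 : 6 ≤ (rr 2 n : ℤ) := by exact_mod_cast hR2
  have hreg := CanO_region (l := 2) (by norm_num) {e0} n (by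
    rw [Finset.singleton_subset_iff]
    exact e0_mem (by omega))
  have hTE : bx (2 * n) ⊆ TE m := bx_sub_TE (by omega)
  have hw : wO q n = IPC.Pr q (TE m) (CanO 2 {e0} SeP SeD n) :=
    pr_StE q _ _ _ _ hreg (hreg.trans hTE)
  have hFp := (Finset.subset_union_left.trans hreg).trans hTE
  have hFm := (Finset.subset_union_right.trans hreg).trans hTE
  have hNp : (RN Lo).image (cm m) ⊆ TE m := by
    intro e he
    rw [Finset.mem_image] at he
    obtain ⟨e', _, rfl⟩ := he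
    exact cm_mem m e'
  have hNm : (ud (RN Ld)).image (cm m) ⊆ TE m := by
    intro e he
    rw [Finset.mem_image] at he
    obtain ⟨e', _, rfl⟩ := he
    exact cm_mem m e'
  have hsub : ((n - 5 * rr 2 n : ℕ) : ℤ) = n - 5 * rr 2 n := by
    have : 5 * rr 2 n ≤ n := by omega
    rw [Nat.cast_sub this]
    push_cast
    ring
  have d1 : Disjoint ((RN Lo).image (cm m)) ((bx (n - 5 * rr 2 n) \ {e0}) ∪ ud (bxs (cD 2 n) (10 * rr 2 n))) := by
    rw [Finset.disjoint_left]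
    intro x hx hx'
    rw [Finset.mem_image] at hx
    obtain ⟨e, he, rfl⟩ := hx
    have hpos := hG.pos_o e he
    rcases Finset.mem_union.1 hx' with h2 | h2
    · have h3 := DTorE_bx (Finset.mem_sdiff.1 h2).1
      rw [hsub] at h3
      omega
    · obtain ⟨i, hi⟩ := DTorE_near' h2
      have h3 := DTorE_d hi
      omega
  have d2 : Disjoint ((ud (RN Ld)).image (cm m)) ((bx (n - 5 * rr 2 n) \ {e0}) ∪ bxs (cO 2 n) (10 * rr 2 n)) := by
    rw [Finset.disjoint_left]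
    intro x hx hx'
    rw [Finset.mem_image] at hx
    obtain ⟨e, he, rfl⟩ := hx
    have hpos := hG.pos_d e he
    rcases Finset.mem_union.1 hx' with h2 | h2
    · have h3 := DTorE_bx (Finset.mem_sdiff.1 h2).1
      rw [hsub] at h3
      omega
    · obtain ⟨i, hi⟩ := DTorE_near h2
      have h3 := DTorE_o hi
      omega
  have d3 : Disjoint ((RN Lo).image (cm m)) ((ud (RN Ld)).image (cm m)) := by
    rw [Finset.disjoint_left]
    intro x hx hx'
    rw [Finset.mem_image] at hx hx'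
    obtain ⟨e, he, rfl⟩ := hx
    obtain ⟨e', he', hee⟩ := hx'
    have hpos := hG.pos_o e he
    have hpos' := hG.pos_d e' he'
    rw [hee] at hpos'
    omega
  have hLo : ∀ p ∈ Lo, 0 ≤ p.2 := fun p hp => by
    have := hG.rad_o p hp
    omega
  have hLd : ∀ p ∈ Ld, 0 ≤ p.2 := fun p hp => by
    have := hG.rad_d p hp
    omega
  have hmz : 4 * (n : ℤ) ≤ m := by exact_mod_cast hm
  have key := mixed_fkg h0 h1 hFp hFm hNp hNm d1 d2 d3
    (Ap := fun ω => StG SeP (ringT (cO 2 n) (rr 2 n)) (ω ∩ ((bx (n - 5 * rr 2 n) \ {e0}) ∪ bxs (cO 2 n) (10 * rr 2 n))))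
    (Am := fun ω => StG SeD (ringT (cD 2 n) (rr 2 n))
      (dc ((bx (n - 5 * rr 2 n) \ {e0}) ∪ ud (bxs (cD 2 n) (10 * rr 2 n))) ω))
    (Bp := fun ω => Rings Lo (lf m (bx (3 * m)) ω))
    (Bm := fun ω => Rings Ld (dc (bx (3 * m)) (lf m (bx (3 * m)) ω)))
    (fun ω ω' hω ha => StG_inc SeP_inc (ringT_inc _ _) _ _ (Finset.inter_subset_inter hω (Finset.Subset.refl _)) ha)
    (fun ω ω' hω ha => Rings_inc Lo _ _ (by
      unfold lf
      exact Finset.monotone_filter_right _ (fun e _ he => hω he)) ha)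
    (fun ω ω' hω ha => StG_inc SeD_inc (ringT_inc _ _) _ _ (dc_mono (Finset.Subset.refl _) hω) ha)
    (fun ω ω' hω ha => Rings_inc Ld _ _ (dc_mono (Finset.Subset.refl _) (by
      unfold lf
      exact Finset.monotone_filter_right _ (fun e _ he => hω he))) ha)
    (fun ω => by
      show _ ↔ StG SeP (ringT (cO 2 n) (rr 2 n)) (ω ∩ _ ∩ _)
      rw [Finset.inter_assoc, Finset.inter_self])
    (fun ω => by
      show _ ↔ StG SeD (ringT (cD 2 n) (rr 2 n)) (dc _ (ω ∩ _))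
      rw [dc_dep])
    (DTorE_dep_o hLo hG.in_o) (DTorE_dep_d (bx (3 * m)) hLd)
  have kp := tor_rings hc.le h0 h1 hRB Lo (G := bx (3 * m)) (m := m) (fun p hp => by
    have := hG.rad_o p hp
    refine ⟨this.1, ?_, ?_⟩ <;> omega) hG.in_o
  have kd := tor_rings_dual hc.le h0 h1 hRB Ld (G := bx (3 * m)) (m := m) (fun p hp => by
    have := hG.rad_d p hp
    refine ⟨this.1, ?_, ?_⟩ <;> omega) hG.in_d
  have kp' : c ^ (4 * M) ≤ IPC.Pr q (TE m) (fun ω => Rings Lo (lf m (bx (3 * m)) ω)) :=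
    le_trans (pow_le_pow_of_le_one hc.le hc1 (Nat.mul_le_mul_left 4 hG.card_o)) kp
  have kd' : c ^ (4 * M) ≤ IPC.Pr q (TE m) (fun ω => Rings Ld (dc (bx (3 * m)) (lf m (bx (3 * m)) ω))) :=
    le_trans (pow_le_pow_of_le_one hc.le hc1 (Nat.mul_le_mul_left 4 hG.card_d)) kd
  have kr : IPC.Pr q (TE m) (fun ω => (StG SeP (ringT (cO 2 n) (rr 2 n))
        (ω ∩ ((bx (n - 5 * rr 2 n) \ {e0}) ∪ bxs (cO 2 n) (10 * rr 2 n))) ∧ Rings Lo (lf m (bx (3 * m)) ω)) ∧
      (StG SeD (ringT (cD 2 n) (rr 2 n)) (dc ((bx (n - 5 * rr 2 n) \ {e0}) ∪ ud (bxs (cD 2 n) (10 * rr 2 n))) ω) ∧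
        Rings Ld (dc (bx (3 * m)) (lf m (bx (3 * m)) ω)))) ≤ rho q m := by
    refine pq_mono h0 h1 ?_
    rintro ω hω ⟨⟨ha, hb⟩, ⟨hd, hb'⟩⟩
    exact tor_piv hn hm hr hG hω ⟨ha, hd⟩ hb hb'
  have hcan : 0 ≤ IPC.Pr q (TE m) (CanO 2 {e0} SeP SeD n) := pq_nonneg h0 h1 _ _
  have hcM : (0 : ℝ) < c ^ (4 * M) := by positivity
  have e8 : c ^ (8 * M) = c ^ (4 * M) * c ^ (4 * M) := by
    rw [← pow_add]
    congr 1
    ring
  have hfin : c ^ (8 * M) * wO q n ≤ rho q m := by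
    rw [hw, e8]
    refine le_trans ?_ (le_trans key kr)
    have s1 : IPC.Pr q (TE m) (CanO 2 {e0} SeP SeD n) * c ^ (4 * M) ≤
        IPC.Pr q (TE m) (CanO 2 {e0} SeP SeD n) * IPC.Pr q (TE m) (fun ω => Rings Lo (lf m (bx (3 * m)) ω)) :=
      mul_le_mul_of_nonneg_left kp' hcan
    have s2 := mul_le_mul s1 kd' hcM.le (mul_nonneg hcan (pq_nonneg h0 h1 _ _))
    calc c ^ (4 * M) * c ^ (4 * M) * IPC.Pr q (TE m) (CanO 2 {e0} SeP SeD n)
        = IPC.Pr q (TE m) (CanO 2 {e0} SeP SeD n) * c ^ (4 * M) * c ^ (4 * M) := by ring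
      _ ≤ _ := s2
  have hc8 : (0 : ℝ) < c ^ (8 * M) := by positivity
  rw [one_div, inv_mul_eq_div, le_div_iff₀ hc8, mul_comm]
  exact hfin

private def DTorE_conf (m : ℕ) : Finset Edge :=
  (TE m).filter (fun e => e.1 ≠ 0 ∧ e.2.1 = 0 ∧ e.2.2 = false)

private theorem DTorE_bal0 (m : ℕ) : bal m 0 = 0 := bal_self (by omega) (by omega)

private theorem DTorE_W (m : ℕ) : W m (insert e0 (DTorE_conf m)) := by
  refine ⟨(0, 0), (1, 0), by simp, ?_⟩
  have key : ∀ k : ℕ, (tgr m (insert e0 (DTorE_conf m))).Reachable ((0 : ℤ), (0 : ℤ)) ((k : ℤ), (0 : ℤ)) := by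
    intro k
    induction k with
    | zero => exact SimpleGraph.Reachable.refl _
    | succ k ih =>
      have hmem : cm m ((k : ℤ), (0 : ℤ), false) ∈ insert e0 (DTorE_conf m) := by
        rw [Finset.mem_insert]
        by_cases hk : bal m (k : ℤ) = 0
        · left
          unfold cm e0
          rw [hk, DTorE_bal0]
        · right
          unfold DTorE_conf
          rw [Finset.mem_filter]
          exact ⟨cm_mem m _, hk, DTorE_bal0 m, rfl⟩
      have h1 := tgr_edge hmem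
      have e1 : ea ((k : ℤ), (0 : ℤ), false) = ((k : ℤ), (0 : ℤ)) := rfl
      have e2 : eb ((k : ℤ), (0 : ℤ), false) = (((k + 1 : ℕ) : ℤ), (0 : ℤ)) := by
        simp [eb]
      rw [e1, e2] at h1
      exact ih.trans h1
  have h2 := key (2 * m + 1)
  have e3 : ((0 : ℤ), (0 : ℤ)) + pr m (1, 0) = (((2 * m + 1 : ℕ) : ℤ), (0 : ℤ)) := by
    unfold pr
    push_cast
    simp
  rw [e3]
  exact h2

private theorem DTorE_nW (m : ℕ) : ¬ W m ((DTorE_conf m).erase e0) := by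
  have hv : ∀ k : ℕ, (tdg m ((DTorE_conf m).erase e0)).Reachable ((0 : ℤ), (0 : ℤ)) ((0 : ℤ), (k : ℤ)) := by
    intro k
    induction k with
    | zero => exact SimpleGraph.Reachable.refl _
    | succ k ih =>
      have hmem : cm m ((0 : ℤ), (k : ℤ) + 1, false) ∉ (DTorE_conf m).erase e0 := by
        intro h
        have h1 := Finset.mem_of_mem_erase h
        unfold DTorE_conf at h1
        rw [Finset.mem_filter] at h1
        exact h1.2.1 (DTorE_bal0 m)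
      have h1 := tdg_edge hmem
      have e1 : ea (dl ((0 : ℤ), (k : ℤ) + 1, false)) = ((0 : ℤ), (k : ℤ)) := by
        simp [dl, ea]
      have e2 : eb (dl ((0 : ℤ), (k : ℤ) + 1, false)) = ((0 : ℤ), ((k + 1 : ℕ) : ℤ)) := by
        simp [dl, eb]
      rw [e1, e2] at h1
      exact ih.trans h1
  have hh : ∀ k : ℕ, (tdg m ((DTorE_conf m).erase e0)).Reachable ((0 : ℤ), (0 : ℤ)) ((k : ℤ), (0 : ℤ)) := by
    intro k
    induction k with
    | zero => exact SimpleGraph.Reachable.refl _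
    | succ k ih =>
      have hmem : cm m ((k : ℤ) + 1, (0 : ℤ), true) ∉ (DTorE_conf m).erase e0 := by
        intro h
        have h1 := Finset.mem_of_mem_erase h
        unfold DTorE_conf at h1
        rw [Finset.mem_filter] at h1
        have h2 : (cm m ((k : ℤ) + 1, (0 : ℤ), true)).2.2 = true := rfl
        rw [h1.2.2.2] at h2
        exact Bool.noConfusion h2
      have h1 := tdg_edge hmem
      have e1 : ea (dl ((k : ℤ) + 1, (0 : ℤ), true)) = ((k : ℤ), (0 : ℤ)) := by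
        simp [dl, ea]
      have e2 : eb (dl ((k : ℤ) + 1, (0 : ℤ), true)) = (((k + 1 : ℕ) : ℤ), (0 : ℤ)) := by
        simp [dl, eb]
      rw [e1, e2] at h1
      exact ih.trans h1
  refine not_W_of_dual (f := ((0 : ℤ), (0 : ℤ))) (g := ((0 : ℤ), (0 : ℤ))) ?_ ?_
  · have h2 := hv (2 * m + 1)
    have e3 : ((0 : ℤ), (0 : ℤ)) + pr m (0, 1) = ((0 : ℤ), ((2 * m + 1 : ℕ) : ℤ)) := by
      unfold pr
      push_cast
      simp
    rw [e3]
    exact h2
  · have h2 := hh (2 * m + 1)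
    have e3 : ((0 : ℤ), (0 : ℤ)) + pr m (1, 0) = (((2 * m + 1 : ℕ) : ℤ), (0 : ℤ)) := by
      unfold pr
      push_cast
      simp
    rw [e3]
    exact h2

theorem rho_base (ε : ℝ) (hε : 0 < ε) (M : ℕ) : ∃ c : ℝ, 0 < c ∧ ∀ (q : ℝ) (m : ℕ), 0 ≤ q → q ≤ 1 → RS ε q 1 → m ≤ M →
    c ≤ rho q m := by
  refine ⟨(min (ε / 2) 1) ^ (2 * (2 * M + 1) ^ 2), by positivity, ?_⟩
  intro q m h0 h1 hRS hm
  obtain ⟨h2, h3⟩ := q_of_rs h0 h1 hε hRS
  have hc : (0 : ℝ) ≤ min (ε / 2) 1 := by positivity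
  have h4 := conf_pr (q := q) hc (le_trans (min_le_left _ _) h2) (le_trans (min_le_left _ _) h3)
    (E := TE m) (ω0 := DTorE_conf m) (Finset.filter_subset _ _) (A := Piv e0 (W m)) ⟨DTorE_W m, DTorE_nW m⟩
  refine le_trans ?_ h4
  rw [card_TE]
  refine pow_le_pow_of_le_one hc (min_le_right _ _) ?_
  have h5 : 2 * m + 1 ≤ 2 * M + 1 := by omega
  exact Nat.mul_le_mul_left 2 (Nat.pow_le_pow_left h5 2)

end FKN
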