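import Pool.Agent.Lib.MP_216314_pr.N.GT

/-!
# Circuits around the origin and quasi-multiplicativity of one arm
-/

set_option autoImplicit false

noncomputable section

namespace FKN

open Finset FKI FKP

/-- circuit in the annulus of radii `j`, `k` around the origin -/
def Rg (j k : ℕ) (ω : Finset Edge) : Prop := Bar (-(k : ℤ)) k 0 0 j k ω

theorem inc_Rg (j k : ℕ) : FKP.Inc (Rg j k) := inc_Bar _ _ _ _ _ _

theorem nrm_dsG (v : V) : nrm v = dsG 0 0 v := by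
  unfold nrm dsG
  rw [sub_zero, sub_zero]

theorem nrm_le {t : ℤ} {v : V} : nrm v ≤ t ↔ (-t ≤ v.1 ∧ v.1 ≤ t) ∧ (-t ≤ v.2 ∧ v.2 ≤ t) := by
  rw [nrm_dsG, dsG_le, zero_sub, zero_add]

/-- edges of the square -/
theorem mem_bxN {r : ℕ} {e : Edge} : e ∈ bx r ↔ nrm (ea e) ≤ r ∧ nrm (eb e) ≤ r := by
  unfold bx
  rw [box_ends, nrm_le, nrm_le]
  have h6 := ea_eb e
  omega

/-- a path leaving the square contains a path inside the square to its boundary -/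
theorem exitN {m : ℕ} {ω : Finset Edge} {u v : V} (h : (gr ω).Reachable u v) (hu : nrm u ≤ m)
    (hv : (m : ℤ) ≤ nrm v) : ∃ c, nrm c = m ∧ Conn (bx m) ω u c ∧ (gr ω).Reachable c v := by
  rw [nrm_dsG] at hu hv
  obtain ⟨c, h1, h2, h3⟩ := first_hit (F := ω) (ω := ω) (dsG 0 0) (fun e _ => dsG_edge 0 0 e) hu hv
    (Conn.of_reach (Finset.Subset.refl _) h)
  refine ⟨c, by rw [nrm_dsG, h1], ?_, h2.reach⟩
  refine h3.mono ?_ (Finset.Subset.refl _)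
  intro e he
  rw [mem_filter] at he
  rw [mem_bxN, nrm_dsG, nrm_dsG]
  exact he.2

/-- every path across the annulus meets the circuit at the same cluster -/
theorem rg_pt {j k : ℕ} (hj : j ≤ k) {ω : Finset Edge} (h : Rg j k ω) :
    ∃ p : V, ∀ u v : V, nrm u ≤ j → (k : ℤ) ≤ nrm v → (gr ω).Reachable u v →
      (gr ω).Reachable u p := by
  obtain ⟨p, hp⟩ := bar_pt (Y1 := -(k : ℤ)) (Y2 := k) (cx := 0) (cy := 0) (j := j) (k := k)
    (by omega) (by omega) (by omega) (by omega) (by omega) h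
  refine ⟨p, fun u v hu hv huv => ?_⟩
  have hu' : nrm u ≤ (k : ℤ) := hu.trans (by exact_mod_cast hj)
  obtain ⟨c, h1, h2, _⟩ := exitN huv hu' hv
  have hu2 := nrm_le.1 hu'
  refine hp (-(k : ℤ)) k u c h2 hu2.2.1 hu2.2.2 ?_ ?_
  · rw [← nrm_dsG]
    exact hu
  · rw [← nrm_dsG, h1]

/-- probability of a circuit -/
theorem pr_Rg {q c : ℝ} (h0 : 0 ≤ q) (h1 : q ≤ 1) (hc0 : 0 ≤ c) {j k : ℕ} (hjk : j < k)
    (hh : c ≤ hq q (2 * k) (k - j)) {E : Finset Edge} (hE : bx k ⊆ E) :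
    c ^ 4 ≤ IPC.Pr q E (Rg j k) := by
  have hsub : ∀ {x1 x2 y1 y2 : ℤ}, -(k : ℤ) ≤ x1 → x2 ≤ k → -(k : ℤ) ≤ y1 → y2 ≤ k →
      FKP.box x1 x2 y1 y2 ⊆ E := fun h1 h2 h3 h4 => (box_mono h1 h2 h3 h4).trans hE
  have hc1 : c ≤ 1 := hh.trans (hq_le_one h0 h1 _ _)
  unfold Rg Bar
  have e1 : max (-(k : ℤ)) (0 - k) = -(k : ℤ) := by omega
  have e2 : min (k : ℤ) (0 + k) = k := by omega
  rw [e1, e2]
  refine pq_fkg4 h0 h1 (inc_VC _ _ _ _) (inc_VC _ _ _ _) (inc_imp (inc_HC _ _ _ _))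
    (inc_imp (inc_HC _ _ _ _)) hc0 ?_ ?_ ?_ ?_
  · rw [pq_VC q (k - j) (2 * k) (by omega) (by omega)
      (hsub (by omega) (by omega) (by omega) (by omega))]
    exact hh
  · rw [pq_VC q (k - j) (2 * k) (by omega) (by omega)
      (hsub (by omega) (by omega) (by omega) (by omega))]
    exact hh
  · refine pq_imp_ge hc1 fun hP => ?_
    rw [pq_HC q (2 * k) (k - j) (by omega) (by omega)
      (hsub (by omega) (by omega) (by omega) (by omega))]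
    exact hh
  · refine pq_imp_ge hc1 fun hP => ?_
    rw [pq_HC q (2 * k) (k - j) (by omega) (by omega)
      (hsub (by omega) (by omega) (by omega) (by omega))]
    exact hh

theorem inc_OneG (r : ℕ) : FKP.Inc (One r) := by
  rintro ω ω' hs ⟨u, hu, hc⟩
  exact ⟨u, hu, hc.mono (Finset.Subset.refl _) hs⟩

theorem inc_OneG' (r R : ℕ) : FKP.Inc (One' r R) := by
  rintro ω ω' hs ⟨u, w, hu, hw, hc⟩
  exact ⟨u, w, hu, hw, hc.mono (Finset.Subset.refl _) hs⟩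

theorem dep_OneG {r : ℕ} {E : Finset Edge} (hE : bx r ⊆ E) : Dep E (One r) := by
  intro ω
  constructor
  · rintro ⟨u, hu, hc⟩
    exact ⟨u, hu, (dep_Conn hE _ _ ω).1 hc⟩
  · rintro ⟨u, hu, hc⟩
    exact ⟨u, hu, (dep_Conn hE _ _ ω).2 hc⟩

theorem dep_OneG' {r R : ℕ} {E : Finset Edge} (hE : an r R ⊆ E) : Dep E (One' r R) := by
  intro ω
  constructor
  · rintro ⟨u, w, hu, hw, hc⟩
    exact ⟨u, w, hu, hw, (dep_Conn hE _ _ ω).1 hc⟩
  · rintro ⟨u, w, hu, hw, hc⟩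
    exact ⟨u, w, hu, hw, (dep_Conn hE _ _ ω).2 hc⟩

theorem bx_sub {r R : ℕ} (h : r ≤ R) : bx r ⊆ bx R := by
  intro e he
  rw [mem_bxN] at he ⊢
  have : (r : ℤ) ≤ R := by exact_mod_cast h
  exact ⟨he.1.trans this, he.2.trans this⟩

theorem box_bx {x1 x2 y1 y2 : ℤ} {m : ℕ} (h1 : -(m : ℤ) ≤ x1) (h2 : x2 ≤ m) (h3 : -(m : ℤ) ≤ y1)
    (h4 : y2 ≤ m) : FKP.box x1 x2 y1 y2 ⊆ bx m := box_mono h1 h2 h3 h4

theorem an_sub (r R : ℕ) : an r R ⊆ bx R := by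
  unfold an
  exact Finset.sdiff_subset

/-- gluing through two circuits -/
theorem one_geo {j r R m : ℕ} (hj : j ≤ r) (hR : r ≤ R) (hm : 2 * R ≤ m) {ω : Finset Edge}
    (hω : ω ⊆ bx m) (h1 : One r ω) (h2 : Rg j r ω) (h3 : HC 0 (2 * R) 0 j ω) (h4 : Rg R (2 * R) ω)
    (h5 : One' R m ω) : One m ω := by
  obtain ⟨u, hu, hc⟩ := h1
  obtain ⟨p, hp⟩ := rg_pt hj h2
  obtain ⟨y, y', a1, a2, a3, a4, hd⟩ := h3
  obtain ⟨p', hp'⟩ := rg_pt (by omega) h4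
  obtain ⟨v, w, hv, hw, he⟩ := h5
  have n0 : nrm ((0, 0) : V) = 0 := by simp [nrm]
  have ny : nrm ((0, y) : V) ≤ (j : ℤ) := nrm_le.2 ⟨⟨by show -(j : ℤ) ≤ 0; omega, by show (0 : ℤ) ≤ j; omega⟩,
    by show -(j : ℤ) ≤ y; omega, a2⟩
  have ny' : (2 * (R : ℤ)) ≤ nrm ((2 * (R : ℤ), y') : V) := by
    refine le_trans ?_ (le_max_left _ _)
    show 2 * (R : ℤ) ≤ |2 * (R : ℤ)|
    exact le_abs_self _
  have r1 := hp (0, 0) u (by omega) (by omega) hc.reach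
  have r2 := hp (0, y) (2 * (R : ℤ), y') ny (by omega) hd.reach
  have r3 := hp' (0, y) (2 * (R : ℤ), y') (by omega) (by push_cast; omega) hd.reach
  have r4 := hp' v w (by omega) (by push_cast; omega) he.reach
  refine ⟨w, hw, Conn.of_reach hω ?_⟩
  exact (r1.trans r2.symm).trans ((r3.trans r4.symm).trans he.reach)

/-- gluing through one circuit -/
theorem one_geo2 {j r m : ℕ} (hj : j ≤ r) (hm : r ≤ m) {ω : Finset Edge}
    (hω : ω ⊆ bx m) (h1 : One r ω) (h2 : Rg j r ω) (h3 : HC 0 m 0 j ω) : One m ω := by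
  obtain ⟨u, hu, hc⟩ := h1
  obtain ⟨p, hp⟩ := rg_pt hj h2
  obtain ⟨y, y', a1, a2, a3, a4, hd⟩ := h3
  have n0 : nrm ((0, 0) : V) = 0 := by simp [nrm]
  have ny : nrm ((0, y) : V) ≤ (j : ℤ) := nrm_le.2 ⟨⟨by show -(j : ℤ) ≤ 0; omega, by show (0 : ℤ) ≤ j; omega⟩,
    by show -(j : ℤ) ≤ y; omega, a2⟩
  have ny' : nrm (((m : ℤ), y') : V) = m := by
    unfold nrm
    show max |(m : ℤ)| |y'| = m
    rw [Nat.abs_cast, max_eq_left]
    rw [abs_le]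
    omega
  have r1 := hp (0, 0) u (by omega) (by omega) hc.reach
  have r2 := hp (0, y) ((m : ℤ), y') ny (by omega) hd.reach
  refine ⟨((m : ℤ), y'), ny', Conn.of_reach hω ?_⟩
  exact (r1.trans r2.symm).trans hd.reach

/-- in a fully open square the origin is connected to every vertex -/
theorem full_conn {R : ℕ} {ω : Finset Edge} (h : bx R ⊆ ω) {u : V} (hu : nrm u ≤ R) :
    (gr ω).Reachable (0, 0) u := by
  have hstep : ∀ e : Edge, nrm (ea e) ≤ R → nrm (eb e) ≤ R → (gr ω).Reachable (ea e) (eb e) := by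
    intro e h1 h2
    have h3 : e ∈ ω := h (mem_bxN.2 ⟨h1, h2⟩)
    exact (pexit_edge h3 h3 (Or.inl ⟨rfl, rfl⟩)).reach
  have hx : ∀ k : ℕ, k ≤ R → (gr ω).Reachable (0, 0) ((k : ℤ), 0) ∧
      (gr ω).Reachable (0, 0) (-(k : ℤ), 0) := by
    intro k
    induction k with
    | zero =>
      intro _
      exact ⟨by simp, by simp⟩
    | succ k ih =>
      intro hk
      obtain ⟨i1, i2⟩ := ih (by omega)
      have s1 := hstep ((k : ℤ), 0, false) (nrm_le.2 (by simp only [ea]; omega))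
        (nrm_le.2 (by simp [eb]; omega))
      have s2 := hstep (-((k : ℤ) + 1), 0, false) (nrm_le.2 (by simp only [ea]; omega))
        (nrm_le.2 (by simp [eb]; omega))
      constructor
      · push_cast
        exact i1.trans s1
      · push_cast
        have e1 : eb (-((k : ℤ) + 1), 0, false) = (-(k : ℤ), 0) := by
          show ((-((k : ℤ) + 1) + 1, 0) : V) = (-(k : ℤ), 0)
          have : -((k : ℤ) + 1) + 1 = -k := by ring
          rw [this]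
        rw [e1] at s2
        exact i2.trans s2.symm
  have hy : ∀ x : ℤ, -(R : ℤ) ≤ x → x ≤ R → ∀ k : ℕ, k ≤ R → (gr ω).Reachable (x, 0) (x, (k : ℤ)) ∧
      (gr ω).Reachable (x, 0) (x, -(k : ℤ)) := by
    intro x hx1 hx2 k
    induction k with
    | zero =>
      intro _
      exact ⟨by simp, by simp⟩
    | succ k ih =>
      intro hk
      obtain ⟨i1, i2⟩ := ih (by omega)
      have s1 := hstep (x, (k : ℤ), true) (nrm_le.2 (by simp only [ea]; omega))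
        (nrm_le.2 (by simp [eb]; omega))
      have s2 := hstep (x, -((k : ℤ) + 1), true) (nrm_le.2 (by simp only [ea]; omega))
        (nrm_le.2 (by simp [eb]; omega))
      constructor
      · push_cast
        exact i1.trans s1
      · push_cast
        have e1 : eb (x, -((k : ℤ) + 1), true) = (x, -(k : ℤ)) := by
          show ((x, -((k : ℤ) + 1) + 1) : V) = (x, -(k : ℤ))
          have : -((k : ℤ) + 1) + 1 = -k := by ring
          rw [this]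
        rw [e1] at s2
        exact i2.trans s2.symm
  obtain ⟨x, y⟩ := u
  rw [nrm_le] at hu
  simp only at hu
  have a1 : (gr ω).Reachable (0, 0) (x, 0) := by
    rcases le_total 0 x with h1 | h1
    · obtain ⟨k, rfl⟩ : ∃ k : ℕ, x = k := ⟨x.toNat, by omega⟩
      exact (hx k (by omega)).1
    · obtain ⟨k, rfl⟩ : ∃ k : ℕ, x = -(k : ℤ) := ⟨(-x).toNat, by omega⟩
      exact (hx k (by omega)).2
  have a2 : (gr ω).Reachable (x, 0) (x, y) := by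
    rcases le_total 0 y with h1 | h1
    · obtain ⟨k, rfl⟩ : ∃ k : ℕ, y = k := ⟨y.toNat, by omega⟩
      exact (hy x (by omega) (by omega) k (by omega)).1
    · obtain ⟨k, rfl⟩ : ∃ k : ℕ, y = -(k : ℤ) := ⟨(-y).toNat, by omega⟩
      exact (hy x (by omega) (by omega) k (by omega)).2
  exact a1.trans a2

/-- quasi-multiplicativity of the one arm event -/
def QmIn : Prop := ∀ ε : ℝ, 0 < ε → ∀ K : ℕ, ∃ C : ℝ, 0 < C ∧ ∀ (q : ℝ) (m : ℕ), 0 ≤ q → q ≤ 1 →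
  RS ε q m → ∀ r R : ℕ, 1 ≤ r → r ≤ R → R ≤ K * r → R ≤ m → p1 q r * p1' q R m ≤ C * p1 q m

theorem pOne {q : ℝ} {r m : ℕ} (h : r ≤ m) : IPC.Pr q (bx m) (One r) = p1 q r :=
  pq_dep q (bx_sub h) (dep_OneG (Finset.Subset.refl _))

theorem pOne' (q : ℝ) (R m : ℕ) : IPC.Pr q (bx m) (One' R m) = p1' q R m :=
  pq_dep q (an_sub R m) (dep_OneG' (Finset.Subset.refl _))

theorem qm_one {q ε : ℝ} (h0 : 0 ≤ q) (h1 : q ≤ 1) (hε : 0 < ε) (hε1 : ε ≤ 1) (hq2 : ε / 2 ≤ q)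
    {R K m : ℕ} (hRK : R ≤ K) (hRm : R ≤ m) :
    p1' q R m ≤ ((ε / 2) ^ (bx K).card)⁻¹ * p1 q m := by
  have hb0 : (0 : ℝ) < (ε / 2) ^ (bx K).card := by positivity
  have hpR0 : 0 ≤ p1' q R m := pq_nonneg h0 h1 _ _
  have hI : FKP.Inc (fun ω => bx R ⊆ ω) := fun ω ω' hs h => h.trans hs
  have f1 := pq_fkg h0 h1 (bx m) hI (inc_OneG' R m)
  rw [pOne', pq_all q (bx_sub hRm)] at f1
  have f2 : IPC.Pr q (bx m) (fun ω => bx R ⊆ ω ∧ One' R m ω) ≤ p1 q m := by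
    refine pq_mono h0 h1 fun ω hω hh => ?_
    obtain ⟨hfull, u, w, hu, hw, hc⟩ := hh
    exact ⟨w, hw, Conn.of_reach hω ((full_conn hfull hu.le).trans hc.reach)⟩
  have f3 : (ε / 2) ^ (bx K).card ≤ q ^ (bx R).card :=
    (pow_le_pow_of_le_one (by linarith) (by linarith) (Finset.card_le_card (bx_sub hRK))).trans
      (pow_le_pow_left₀ (by linarith) hq2 _)
  have f4 : (ε / 2) ^ (bx K).card * p1' q R m ≤ p1 q m :=
    (mul_le_mul_of_nonneg_right f3 hpR0).trans (f1.trans f2)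
  rw [inv_mul_eq_div, le_div_iff₀ hb0]
  linarith

theorem chain5 {a b c x1 x2 x3 y1 y2 y3 y4 t : ℝ} (ha : 0 ≤ a) (hb : 0 ≤ b) (hc : 0 < c)
    (k1 : c ^ 4 ≤ x1) (g1 : a * x1 ≤ y1) (k2 : c ≤ x2) (g2 : y1 * x2 ≤ y2) (k3 : c ^ 4 ≤ x3)
    (g3 : y2 * x3 ≤ y3) (g4 : y3 * b ≤ y4) (g5 : y4 ≤ t) : a * b ≤ (c ^ 9)⁻¹ * t := by
  have e1 : a * c ^ 4 ≤ y1 := (mul_le_mul_of_nonneg_left k1 ha).trans g1
  have e2 : a * c ^ 4 * c ≤ y2 :=
    (mul_le_mul e1 k2 hc.le (le_trans (by positivity) e1)).trans g2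
  have e3 : a * c ^ 4 * c * c ^ 4 ≤ y3 :=
    (mul_le_mul e2 k3 (by positivity) (le_trans (by positivity) e2)).trans g3
  have e4 : a * c ^ 4 * c * c ^ 4 * b ≤ t := (mul_le_mul_of_nonneg_right e3 hb).trans (g4.trans g5)
  rw [inv_mul_eq_div, le_div_iff₀ (by positivity)]
  calc a * b * c ^ 9 = a * c ^ 4 * c * c ^ 4 * b := by ring
    _ ≤ t := e4

theorem chain3 {a b c x1 x2 y1 y2 t : ℝ} (ha : 0 ≤ a) (hb : b ≤ 1) (hc : 0 < c) (hc1 : c ≤ 1)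
    (k1 : c ^ 4 ≤ x1) (g1 : a * x1 ≤ y1) (k2 : c ≤ x2) (g2 : y1 * x2 ≤ y2)
    (g5 : y2 ≤ t) : a * b ≤ (c ^ 9)⁻¹ * t := by
  have e1 : a * c ^ 4 ≤ y1 := (mul_le_mul_of_nonneg_left k1 ha).trans g1
  have e2 : a * c ^ 4 * c ≤ t :=
    (mul_le_mul e1 k2 hc.le (le_trans (by positivity) e1)).trans (g2.trans g5)
  rw [inv_mul_eq_div, le_div_iff₀ (by positivity)]
  have e4 : b * c ^ 4 ≤ 1 := mul_le_one₀ hb (by positivity) (pow_le_one₀ hc.le hc1)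
  calc a * b * c ^ 9 = (a * c ^ 4 * c) * (b * c ^ 4) := by ring
    _ ≤ (a * c ^ 4 * c) * 1 := mul_le_mul_of_nonneg_left e4 (by positivity)
    _ ≤ t := by linarith

theorem qm_two {q c : ℝ} (h0 : 0 ≤ q) (h1 : q ≤ 1) (hc0 : 0 < c) {j r R m : ℕ} (hj : j ≤ r)
    (hr : r ≤ R) (hm : 2 * R ≤ m) (k1 : c ^ 4 ≤ IPC.Pr q (bx m) (Rg j r))
    (k2 : c ≤ IPC.Pr q (bx m) (HC 0 (2 * R) 0 j)) (k3 : c ^ 4 ≤ IPC.Pr q (bx m) (Rg R (2 * R))) :
    p1 q r * p1' q R m ≤ (c ^ 9)⁻¹ * p1 q m := by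
  have hpr0 : 0 ≤ p1 q r := pq_nonneg h0 h1 _ _
  have hpR0 : 0 ≤ p1' q R m := pq_nonneg h0 h1 _ _
  have g1 := pq_fkg h0 h1 (bx m) (inc_OneG r) (inc_Rg j r)
  have g2 := pq_fkg h0 h1 (bx m) (inc_and (inc_OneG r) (inc_Rg j r)) (inc_HC 0 (2 * R) 0 j)
  have g3 := pq_fkg h0 h1 (bx m) (inc_and (inc_and (inc_OneG r) (inc_Rg j r))
    (inc_HC 0 (2 * R) 0 j)) (inc_Rg R (2 * R))
  have g4 := pq_fkg h0 h1 (bx m) (inc_and (inc_and (inc_and (inc_OneG r) (inc_Rg j r))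
    (inc_HC 0 (2 * R) 0 j)) (inc_Rg R (2 * R))) (inc_OneG' R m)
  have g5 : IPC.Pr q (bx m) (fun ω => (((One r ω ∧ Rg j r ω) ∧
      HC 0 (2 * R) 0 j ω) ∧ Rg R (2 * R) ω) ∧ One' R m ω) ≤ p1 q m :=
    pq_mono h0 h1 fun ω hω hh => one_geo hj hr hm hω hh.1.1.1.1 hh.1.1.1.2 hh.1.1.2 hh.1.2 hh.2
  rw [pOne (by omega)] at g1
  rw [pOne'] at g4
  exact chain5 hpr0 hpR0 hc0 k1 g1 k2 g2 k3 g3 g4 g5

theorem qm_three {q c : ℝ} (h0 : 0 ≤ q) (h1 : q ≤ 1) (hc0 : 0 < c) (hc1 : c ≤ 1) {j r R m : ℕ}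
    (hj : j ≤ r) (hm : r ≤ m) (k1 : c ^ 4 ≤ IPC.Pr q (bx m) (Rg j r))
    (k2 : c ≤ IPC.Pr q (bx m) (HC 0 m 0 j)) :
    p1 q r * p1' q R m ≤ (c ^ 9)⁻¹ * p1 q m := by
  have hpr0 : 0 ≤ p1 q r := pq_nonneg h0 h1 _ _
  have hpR1 : p1' q R m ≤ 1 := pq_le_one h0 h1 _ _
  have g1 := pq_fkg h0 h1 (bx m) (inc_OneG r) (inc_Rg j r)
  have g2 := pq_fkg h0 h1 (bx m) (inc_and (inc_OneG r) (inc_Rg j r)) (inc_HC 0 m 0 j)
  have g5 : IPC.Pr q (bx m) (fun ω => (One r ω ∧ Rg j r ω) ∧ HC 0 m 0 j ω) ≤ p1 q m :=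
    pq_mono h0 h1 fun ω hω hh => one_geo2 hj hm hω hh.1.1 hh.1.2 hh.2
  rw [pOne hm] at g1
  exact chain3 hpr0 hpR1 hc0 hc1 k1 g1 k2 g2 g5

theorem qmIn : QmIn := by
  intro ε hε K
  obtain ⟨c, hc0, hrsw⟩ := rswL ε hε (6 * K + 6)
  refine ⟨(c ^ 9)⁻¹ + ((ε / 2) ^ (bx K).card)⁻¹, by positivity, ?_⟩
  intro q m h0 h1 hR r R hr hrR hRK hRm
  have hRL := rl_of_rs hR
  have hm1 : 1 ≤ m := by omega
  have hsc : ∀ b : ℕ, b ≤ m → b ≤ (6 * K + 6) * m := fun b hb =>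
    hb.trans (Nat.le_mul_of_pos_left m (by omega))
  have hsm : ∀ b : ℕ, 4 * b ≤ (6 * K + 6) * b := fun b => Nat.mul_le_mul_right b (by omega)
  have h11 : ε ≤ hq q 1 1 := hRL 1 le_rfl hm1
  have hε1 : ε ≤ 1 := h11.trans (hq_le_one h0 h1 _ _)
  have hq2 := q_ge h0 h1 h11
  have hp0 : 0 ≤ p1 q m := pq_nonneg h0 h1 _ _
  rw [add_mul]
  by_cases hr2 : r = 1
  · subst hr2
    have f5 := qm_one h0 h1 hε hε1 hq2 (R := R) (K := K) (m := m) (by omega) hRm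
    have hpr1 : p1 q 1 ≤ 1 := pq_le_one h0 h1 _ _
    have hpR0 : 0 ≤ p1' q R m := pq_nonneg h0 h1 _ _
    have f6 := mul_le_mul_of_nonneg_right hpr1 hpR0
    have f7 : 0 ≤ (c ^ 9)⁻¹ * p1 q m := by positivity
    linarith
  · have hj1 : 1 ≤ r / 2 := by omega
    have hc1 : c ≤ 1 := (hrsw q m h0 h1 hRL 1 1 le_rfl (by omega) (hsc 1 hm1)).trans
      (hq_le_one h0 h1 _ _)
    have k1 : c ^ 4 ≤ IPC.Pr q (bx m) (Rg (r / 2) r) := by
      refine pr_Rg h0 h1 hc0.le (by omega) ?_ (bx_sub (by omega))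
      exact hrsw q m h0 h1 hRL _ _ (by omega) (le_trans (by omega) (hsm (r - r / 2))) (hsc _ (by omega))
    have h7 : 2 * R ≤ (6 * K + 6) * (r / 2) := by
      calc 2 * R ≤ 2 * (K * r) := Nat.mul_le_mul_left _ hRK
        _ ≤ 2 * (K * (3 * (r / 2))) := Nat.mul_le_mul_left _ (Nat.mul_le_mul_left _ (by omega))
        _ = 6 * K * (r / 2) := by ring
        _ ≤ (6 * K + 6) * (r / 2) := Nat.mul_le_mul_right _ (by omega)
    have f7 : 0 ≤ ((ε / 2) ^ (bx K).card)⁻¹ * p1 q m := by positivity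
    by_cases hRm2 : 2 * R ≤ m
    · have k2 : c ≤ IPC.Pr q (bx m) (HC 0 (2 * R) 0 ((r / 2 : ℕ) : ℤ)) := by
        rw [pq_HC q (2 * R) (r / 2) (by push_cast; ring) (by ring)
          (box_bx (by omega) (by omega) (by omega) (by omega))]
        exact hrsw q m h0 h1 hRL _ _ hj1 h7 (hsc _ (by omega))
      have k3 : c ^ 4 ≤ IPC.Pr q (bx m) (Rg R (2 * R)) := by
        refine pr_Rg h0 h1 hc0.le (by omega) ?_ (bx_sub hRm2)
        have h8 : 2 * R - R = R := by omega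
        rw [h8]
        exact hrsw q m h0 h1 hRL _ _ (by omega) (le_trans (by omega) (hsm R)) (hsc _ hRm)
      have e5 := qm_two h0 h1 hc0 (by omega) hrR hRm2 k1 k2 k3
      linarith
    · have k2 : c ≤ IPC.Pr q (bx m) (HC 0 m 0 ((r / 2 : ℕ) : ℤ)) := by
        rw [pq_HC q m (r / 2) (by ring) (by ring)
          (box_bx (by omega) (by omega) (by omega) (by omega))]
        exact hrsw q m h0 h1 hRL _ _ hj1 (le_trans (by omega) h7) (hsc _ (by omega))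
      have e3 := qm_three (R := R) h0 h1 hc0 hc1 (by omega) (by omega) k1 k2
      linarith

end FKN
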