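import Pool.Agent.Lib.MP_216314_pr.N.GT

/-!
# Russo-Seymour-Welsh near one, at a single scale

Square root trick for windows on the side of the square, reflection, and a barrier around the window.
-/

set_option autoImplicit false

noncomputable section

namespace FKN

open Finset FKI FKP

/-- square root trick -/
theorem sqrt_trick {q : ℝ} (h0 : 0 ≤ q) (h1 : q ≤ 1) (E : Finset Edge)
    (A : ℕ → Finset Edge → Prop) (hA : ∀ i, FKP.Inc (A i)) {η : ℝ} (hη : 0 ≤ η) (M : ℕ)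
    (h : ∀ i < M, η ≤ IPC.Pr q E (fun ω => ¬ A i ω)) :
    η ^ M ≤ IPC.Pr q E (fun ω => ¬ ∃ i < M, A i ω) := by
  induction M with
  | zero =>
    rw [pow_zero, IPC.Pr_true q E]
    rintro ω _ ⟨i, hi, _⟩
    omega
  | succ M ih =>
    have h2 := ih fun i hi => h i (by omega)
    have hI : FKP.Inc (fun ω => ∃ i < M, A i ω) := by
      rintro ω ω' hs ⟨i, hi, hAi⟩
      exact ⟨i, hi, hA i _ _ hs hAi⟩
    have h3 := pq_fkg_not h0 h1 E hI (hA M)
    have h4 : IPC.Pr q E (fun ω => ¬ (∃ i < M, A i ω) ∧ ¬ A M ω) ≤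
        IPC.Pr q E (fun ω => ¬ ∃ i < M + 1, A i ω) := by
      refine pq_mono h0 h1 fun ω _ hh => ?_
      rintro ⟨i, hi, hAi⟩
      rcases Nat.lt_succ_iff_lt_or_eq.1 hi with h5 | h5
      · exact hh.1 ⟨i, h5, hAi⟩
      · subst h5
        exact hh.2 hAi
    calc η ^ (M + 1) = η ^ M * η := pow_succ _ _
      _ ≤ IPC.Pr q E (fun ω => ¬ ∃ i < M, A i ω) * IPC.Pr q E (fun ω => ¬ A M ω) :=
        mul_le_mul h2 (h M (by omega)) hη (le_trans (by positivity) h2)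
      _ ≤ _ := h3
      _ ≤ _ := h4

/-- horizontal crossing of the square ending in a window of the right side -/
def Wn (n w i : ℕ) (ω : Finset Edge) : Prop :=
  ∃ y y' : ℤ, 0 ≤ y ∧ y ≤ n ∧ 0 ≤ y' ∧ y' ≤ n ∧ ((i * w : ℕ) : ℤ) ≤ y' ∧ y' ≤ ((i * w : ℕ) : ℤ) + w ∧
    Conn (FKP.box 0 n 0 n) ω (0, y) ((n : ℤ), y')

theorem inc_Wn (n w i : ℕ) : FKP.Inc (Wn n w i) := by
  rintro ω ω' hs ⟨y, y', h1, h2, h3, h4, h5, h6, hc⟩
  exact ⟨y, y', h1, h2, h3, h4, h5, h6, hc.mono (Finset.Subset.refl _) hs⟩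

theorem dep_Wn {n w i : ℕ} {E : Finset Edge} (hE : FKP.box 0 n 0 n ⊆ E) : Dep E (Wn n w i) := by
  intro ω
  constructor
  · rintro ⟨y, y', h1, h2, h3, h4, h5, h6, hc⟩
    exact ⟨y, y', h1, h2, h3, h4, h5, h6, (dep_Conn hE _ _ ω).1 hc⟩
  · rintro ⟨y, y', h1, h2, h3, h4, h5, h6, hc⟩
    exact ⟨y, y', h1, h2, h3, h4, h5, h6, (dep_Conn hE _ _ ω).2 hc⟩

theorem hc_wn {n w M : ℕ} (hM : n < M * w) {ω : Finset Edge} (h : HC 0 n 0 n ω) :
    ∃ i < M, Wn n w i ω := by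
  obtain ⟨y, y', h1, h2, h3, h4, hc⟩ := h
  have hw : 0 < w := by
    rcases Nat.eq_zero_or_pos w with h5 | h5
    · subst h5
      simp at hM
    · exact h5
  obtain ⟨m, rfl⟩ : ∃ m : ℕ, y' = m := ⟨y'.toNat, by omega⟩
  have h5 : m ≤ n := by exact_mod_cast h4
  refine ⟨m / w, ?_, y, m, h1, h2, h3, h4, ?_, ?_, hc⟩
  · exact (Nat.div_lt_iff_lt_mul hw).2 (lt_of_le_of_lt h5 hM)
  · exact_mod_cast Nat.div_mul_le_self m w
  · have h6 := Nat.div_add_mod m w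
    have h7 := Nat.mod_lt m hw
    have h8 : m ≤ m / w * w + w := by
      rw [Nat.mul_comm] at h6
      omega
    exact_mod_cast h8

/-- the two crossings and the barrier form a crossing of the double square -/
theorem win_geo {n w i r : ℕ} (hwr : w ≤ r) (hrn : 4 * r ≤ n) {ω : Finset Edge}
    (hω : ω ⊆ FKP.box 0 (2 * n) 0 n) (h1 : Wn n w i ω)
    (h2 : Wn n w i (ω.map (rxE (2 * n)).toEmbedding))
    (h3 : Bar 0 n n ((i * w : ℕ) : ℤ) r (2 * r) ω) : HC 0 (2 * n) 0 n ω := by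
  obtain ⟨y, y', a1, a2, a3, a4, a5, a6, hc⟩ := h1
  obtain ⟨u, u', b1, b2, b3, b4, b5, b6, hd⟩ := h2
  obtain ⟨p, hp⟩ := bar_pt (Y1 := 0) (Y2 := n) (cx := n) (cy := ((i * w : ℕ) : ℤ)) (j := r)
    (k := 2 * r) (by omega) (by omega) (by omega) (by omega) (by omega) h3
  have hF : (FKP.box (n : ℤ) (2 * n) 0 n).map (rxE (2 * n)).toEmbedding = FKP.box 0 n 0 n := by
    rw [box_rx]
    congr 1
    · ring
    · ring
  have hd' : Conn (FKP.box n (2 * n) 0 n) ω (2 * (n : ℤ), u) ((n : ℤ), u') := by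
    rw [← conn_map (cp_rx (2 * (n : ℤ))), hF]
    have e1 : rxV (2 * (n : ℤ)) (2 * (n : ℤ), u) = (0, u) := by
      show (2 * (n : ℤ) - 2 * n, u) = ((0 : ℤ), u)
      rw [sub_self]
    have e2 : rxV (2 * (n : ℤ)) ((n : ℤ), u') = ((n : ℤ), u') := by
      show (2 * (n : ℤ) - n, u') = ((n : ℤ), u')
      have : 2 * (n : ℤ) - n = n := by ring
      rw [this]
    rw [e1, e2]
    exact hd
  have r1 := hp 0 n ((n : ℤ), y') (0, y) hc.symm a3 a4
    (dsG_le.2 ⟨⟨by show (n : ℤ) - r ≤ n; omega, by show (n : ℤ) ≤ n + r; omega⟩,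
      by show ((i * w : ℕ) : ℤ) - r ≤ y'; omega, by show y' ≤ ((i * w : ℕ) : ℤ) + r; omega⟩)
    (by
      refine le_trans ?_ (le_max_left _ _)
      show 2 * (r : ℤ) ≤ |0 - (n : ℤ)|
      rw [zero_sub, abs_neg, Nat.abs_cast]
      omega)
  have r2 := hp n (2 * n) ((n : ℤ), u') (2 * (n : ℤ), u) hd'.symm b3 b4
    (dsG_le.2 ⟨⟨by show (n : ℤ) - r ≤ n; omega, by show (n : ℤ) ≤ n + r; omega⟩,
      by show ((i * w : ℕ) : ℤ) - r ≤ u'; omega, by show u' ≤ ((i * w : ℕ) : ℤ) + r; omega⟩)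
    (by
      refine le_trans ?_ (le_max_left _ _)
      show 2 * (r : ℤ) ≤ |2 * (n : ℤ) - n|
      have : 2 * (n : ℤ) - n = n := by ring
      rw [this, Nat.abs_cast]
      omega)
  refine ⟨y, u, a1, a2, b1, b2, Conn.of_reach hω ?_⟩
  exact (hc.reach.trans r1).trans (r2.symm.trans hd'.symm.reach)

/-- no barrier at the first `K` scales -/
def NB (n w : ℕ) (cy : ℤ) (K : ℕ) (ω : Finset Edge) : Prop :=
  ∀ i < K, ¬ Bar 0 n n cy ((3 ^ i * w : ℕ) : ℤ) (2 * ((3 ^ i * w : ℕ) : ℤ)) ω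

theorem pr_NB {q c : ℝ} (h0 : 0 ≤ q) (h1 : q ≤ 1) (hc1 : c ≤ 1) {n w : ℕ} (hw : 1 ≤ w)
    {cy : ℤ} (hy1 : 0 ≤ cy) (hy2 : cy ≤ n) (K : ℕ) (hK : 2 * (3 ^ K * w) ≤ n)
    (hh : ∀ i < K, c ≤ IPC.Pr q (FKP.box 0 (2 * n) 0 n)
      (Bar 0 n n cy ((3 ^ i * w : ℕ) : ℤ) (2 * ((3 ^ i * w : ℕ) : ℤ)))) :
    IPC.Pr q (FKP.box 0 (2 * n) 0 n) (NB n w cy K) ≤ (1 - c) ^ K := by
  classical
  induction K with
  | zero =>
    rw [pow_zero]
    exact pq_le_one h0 h1 _ _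
  | succ K ih =>
    have h3K : 3 ^ (K + 1) * w = 3 * (3 ^ K * w) := by ring
    rw [h3K] at hK
    have hpos : 1 ≤ 3 ^ K * w := Nat.mul_pos (by positivity) hw
    have h2 := ih (by omega) fun i hi => hh i (by omega)
    set E : Finset Edge := FKP.box 0 (2 * n) 0 n with hE
    set R : ℤ := ((3 ^ K * w : ℕ) : ℤ) with hR
    have hRn : 6 * R ≤ n := by omega
    have hmem : ∀ e : Edge, 0 ≤ (ea e).2 → (eb e).2 ≤ (n : ℤ) → dsG n cy (ea e) ≤ 2 * R →
        dsG n cy (eb e) ≤ 2 * R → e ∈ E := by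
      intro e k1 k2 k3 k4
      rw [dsG_le] at k3 k4
      rw [hE, box_ends]
      omega
    have hdA : Dep (E.filter (fun e => dsG n cy (ea e) < R ∧ dsG n cy (eb e) < R)) (NB n w cy K) := by
      intro ω
      unfold NB
      refine forall_congr' fun i => ?_
      refine imp_congr_right fun hi => ?_
      refine not_congr ?_
      have hi3 : 3 * (3 ^ i * w) ≤ 3 ^ K * w := by
        have h4 : 3 ^ (i + 1) ≤ 3 ^ K := Nat.pow_le_pow_right (by norm_num) hi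
        calc 3 * (3 ^ i * w) = 3 ^ (i + 1) * w := by ring
          _ ≤ 3 ^ K * w := Nat.mul_le_mul_right _ h4
      have hi1 : 1 ≤ 3 ^ i * w := Nat.mul_pos (by positivity) hw
      refine dep_Bar (by omega) (by omega) hy1 hy2 (fun e k1 k2 k3 k4 k5 k6 => ?_) ω
      rw [mem_filter]
      exact ⟨hmem e k1 k2 (by omega) (by omega), by omega, by omega⟩
    have hdB : Dep (E.filter (fun e => R ≤ dsG n cy (ea e) ∧ R ≤ dsG n cy (eb e)))
        (fun ω => ¬ Bar 0 n n cy R (2 * R) ω) := by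
      refine dep_not (dep_Bar (by omega) (by omega) hy1 hy2 fun e k1 k2 k3 k4 k5 k6 => ?_)
      rw [mem_filter]
      exact ⟨hmem e k1 k2 k5 k6, k3, k4⟩
    have hdis : Disjoint (E.filter (fun e => dsG n cy (ea e) < R ∧ dsG n cy (eb e) < R))
        (E.filter (fun e => R ≤ dsG n cy (ea e) ∧ R ≤ dsG n cy (eb e))) := by
      rw [Finset.disjoint_left]
      intro e he he'
      rw [mem_filter] at he he'
      omega
    have h5 : IPC.Pr q E (NB n w cy (K + 1)) =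
        IPC.Pr q E (fun ω => NB n w cy K ω ∧ ¬ Bar 0 n n cy R (2 * R) ω) := by
      refine pq_congr fun ω _ => ?_
      constructor
      · intro h
        exact ⟨fun i hi => h i (by omega), h K (by omega)⟩
      · rintro ⟨h6, h7⟩ i hi
        rcases Nat.lt_succ_iff_lt_or_eq.1 hi with h8 | h8
        · exact h6 i h8
        · subst h8
          exact h7
    rw [h5, pq_indep q (filter_subset _ _) (filter_subset _ _) hdis hdA hdB, pq_not, pow_succ]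
    have h6 := hh K (by omega)
    have h7 : (0 : ℝ) ≤ (1 - c) ^ K := pow_nonneg (by linarith) K
    refine mul_le_mul h2 ?_ ?_ h7
    · linarith
    · have := pq_le_one h0 h1 E (Bar 0 n n cy R (2 * R))
      linarith

theorem two_one {q c η : ℝ} (h0 : 0 ≤ q) (h1 : q ≤ 1) (hc0 : 0 ≤ c) (hc1 : c ≤ 1)
    (hc : ∀ a b : ℕ, 1 ≤ b → a ≤ 4 * b → c ≤ hq q a b) (hη : 0 ≤ η) (hη1 : η ≤ 1) {n M K : ℕ}
    (hM : M = 8 * 3 ^ K) (hn : M ≤ n) (hh : 1 - η ^ M < hq q n n) :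
    1 - 2 * η - (1 - c ^ 4) ^ K ≤ hq q (2 * n) n := by
  have h3K : 1 ≤ 3 ^ K := Nat.one_le_pow _ _ (by norm_num)
  have hMpos : 0 < M := by omega
  set w : ℕ := n / M + 1 with hw
  have hw1 : 1 ≤ w := Nat.le_add_left 1 (n / M)
  have hMw : n < M * w := Nat.lt_mul_div_succ n hMpos
  have hKw : 4 * (3 ^ K * w) ≤ n := by
    have h2 : M * (n / M) ≤ n := Nat.mul_div_le n M
    have h3 : 2 * (4 * (3 ^ K * w)) = M * (n / M) + M := by
      rw [hw]
      generalize n / M = d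
      rw [hM]
      ring
    omega
  have hwn : FKP.box 0 (n : ℤ) 0 n ⊆ FKP.box 0 (2 * n) 0 n := box_mono le_rfl (by omega) le_rfl le_rfl
  obtain ⟨i, hiM, hi⟩ : ∃ i < M, IPC.Pr q (FKP.box 0 n 0 n) (fun ω => ¬ Wn n w i ω) < η := by
    by_contra hcon
    push Not at hcon
    have h2 := sqrt_trick h0 h1 (FKP.box 0 n 0 n) (Wn n w) (inc_Wn n w) hη M hcon
    have h3 : IPC.Pr q (FKP.box 0 (n : ℤ) 0 n) (fun ω => ¬ ∃ i < M, Wn n w i ω) ≤
        IPC.Pr q (FKP.box 0 n 0 n) (fun ω => ¬ HC 0 n 0 n ω) :=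
      pq_mono h0 h1 fun ω _ hn' hc' => hn' (hc_wn hMw hc')
    have h4 : IPC.Pr q (FKP.box 0 (n : ℤ) 0 n) (fun ω => ¬ HC 0 n 0 n ω) = 1 - hq q n n := pq_not q _ _
    rw [h4] at h3
    linarith
  have hcy : ((i * w : ℕ) : ℤ) ≤ n := by
    by_contra hcon
    push Not at hcon
    have h2 : IPC.Pr q (FKP.box 0 (n : ℤ) 0 n) (fun ω => ¬ Wn n w i ω) = 1 := by
      refine IPC.Pr_true q _ fun ω _ => ?_
      rintro ⟨y, y', a1, a2, a3, a4, a5, a6, _⟩
      omega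
    linarith
  have p1 : 1 - η ≤ IPC.Pr q (FKP.box 0 (2 * n) 0 n) (Wn n w i) := by
    rw [pq_dep q hwn (dep_Wn (Finset.Subset.refl _))]
    rw [pq_not] at hi
    linarith
  have hEm : (FKP.box 0 (2 * (n : ℤ)) 0 n).map (rxE (2 * n)).toEmbedding = FKP.box 0 (2 * n) 0 n := by
    rw [box_rx, sub_self, sub_zero]
  have p2 : 1 - η ≤ IPC.Pr q (FKP.box 0 (2 * n) 0 n)
      (fun ω => Wn n w i (ω.map (rxE (2 * n)).toEmbedding)) := by
    rw [← pq_map q (rxE (2 * (n : ℤ))) (FKP.box 0 (2 * n) 0 n) (Wn n w i), hEm]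
    exact p1
  have p3 : IPC.Pr q (FKP.box 0 (2 * n) 0 n) (NB n w ((i * w : ℕ) : ℤ) K) ≤ (1 - c ^ 4) ^ K := by
    refine pr_NB h0 h1 (pow_le_one₀ hc0 hc1) hw1 (by omega) hcy K (by omega) fun l hl => ?_
    have hl3 : 3 ^ l * w ≤ 3 ^ K * w :=
      Nat.mul_le_mul_right _ (Nat.pow_le_pow_right (by norm_num) hl.le)
    have hl1 : 1 ≤ 3 ^ l * w := Nat.mul_pos (by positivity) hw1
    exact pr_Bar h0 h1 hc0 hc1 hl1 (fun a ha => hc a _ hl1 ha) (by omega) hcy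
      (box_mono (by omega) (by omega) (by omega) (by omega))
  have p4 : 1 - (1 - c ^ 4) ^ K ≤ IPC.Pr q (FKP.box 0 (2 * n) 0 n)
      (fun ω => ¬ NB n w ((i * w : ℕ) : ℤ) K ω) := by
    rw [pq_not]
    linarith
  have p5 := pq_and_ge h0 h1 (FKP.box 0 (2 * n) 0 n) (Wn n w i)
    (fun ω => Wn n w i (ω.map (rxE (2 * n)).toEmbedding))
  have p6 := pq_and_ge h0 h1 (FKP.box 0 (2 * n) 0 n)
    (fun ω => Wn n w i ω ∧ Wn n w i (ω.map (rxE (2 * n)).toEmbedding))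
    (fun ω => ¬ NB n w ((i * w : ℕ) : ℤ) K ω)
  have p7 : IPC.Pr q (FKP.box 0 (2 * n) 0 n) (fun ω => (Wn n w i ω ∧
      Wn n w i (ω.map (rxE (2 * n)).toEmbedding)) ∧ ¬ NB n w ((i * w : ℕ) : ℤ) K ω) ≤
      IPC.Pr q (FKP.box 0 (2 * n) 0 n) (HC 0 (2 * n) 0 n) := by
    refine pq_mono h0 h1 fun ω hω hA => ?_
    obtain ⟨⟨g1, g2⟩, g3⟩ := hA
    unfold NB at g3
    push Not at g3
    obtain ⟨l, hl, g4⟩ := g3
    have hl3 : 3 ^ l * w ≤ 3 ^ K * w :=
      Nat.mul_le_mul_right _ (Nat.pow_le_pow_right (by norm_num) hl.le)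
    have hl4 : w ≤ 3 ^ l * w := Nat.le_mul_of_pos_left _ (by positivity)
    exact win_geo hl4 (by omega) hω g1 g2 g4
  have p8 : IPC.Pr q (FKP.box 0 (2 * n) 0 n) (HC 0 (2 * n) 0 n) = hq q (2 * n) n :=
    pq_HC q (2 * n) n (by push_cast; ring) (by ring) (Finset.Subset.refl _)
  rw [p8] at p7
  linarith

/-- Russo-Seymour-Welsh near one -/
theorem rswOne : RswOne := by
  intro κ δ hδ
  obtain ⟨c, hc0, hc⟩ := rsw_half 4
  have hc1 : c ≤ 1 := (hc 1 (by norm_num) le_rfl 1 1 le_rfl (by norm_num)).trans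
    (hq_le_one (by norm_num) le_rfl 1 1)
  set δ' : ℝ := min (δ / (4 * (κ + 1))) 1 with hδ'
  have hκ : (0 : ℝ) < κ + 1 := by positivity
  have hδ'0 : 0 < δ' := lt_min (by positivity) one_pos
  have hδ'1 : δ' ≤ 1 := min_le_right _ _
  have hδ'2 : 4 * (κ + 1) * δ' ≤ δ := by
    have h2 : δ' ≤ δ / (4 * (κ + 1)) := min_le_left _ _
    rw [le_div_iff₀ (by positivity)] at h2
    linarith
  have hc4 : 0 < c ^ 4 := by positivity
  have hc41 : c ^ 4 ≤ 1 := pow_le_one₀ hc0.le hc1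
  obtain ⟨K, hK⟩ := exists_pow_lt_of_lt_one hδ'0 (by linarith : 1 - c ^ 4 < 1)
  set M : ℕ := 8 * 3 ^ K with hM
  set η : ℝ := δ' / 2 with hη
  have hη0 : 0 < η := by positivity
  have hηM : 0 < η ^ M := by positivity
  refine ⟨min (min (c / 2) (η ^ M / 2)) δ', max M 2, lt_min (lt_min (by positivity) (by positivity)) hδ'0, ?_⟩
  intro q n h0 h1 hn hh
  have hn1 : M ≤ n := (le_max_left _ _).trans hn
  have hn2 : 2 ≤ n := (le_max_right _ _).trans hn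
  have e1 : min (min (c / 2) (η ^ M / 2)) δ' ≤ c / 2 := (min_le_left _ _).trans (min_le_left _ _)
  have e2 : min (min (c / 2) (η ^ M / 2)) δ' ≤ η ^ M / 2 := (min_le_left _ _).trans (min_le_right _ _)
  have e3 : min (min (c / 2) (η ^ M / 2)) δ' ≤ δ' := min_le_right _ _
  have hq2 : 1 / 2 ≤ q := by
    by_contra hcon
    push Not at hcon
    have h2 := hq_mono_q h0 hcon.le (by norm_num : (1 / 2 : ℝ) ≤ 1) n n
    obtain ⟨k, rfl⟩ : ∃ k, n = k + 1 := ⟨n - 1, by omega⟩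
    have h3 := dualIn (1 / 2) k (k + 1)
    have h4 := hc (1 / 2) le_rfl (by norm_num) (k + 1 + 1) k (by omega) (by omega)
    have h5 : (1 - 1 / 2 : ℝ) = 1 / 2 := by norm_num
    rw [h5] at h3
    linarith
  have h2n : 1 - 2 * δ' ≤ hq q (2 * n) n := by
    have h2 := two_one h0 h1 hc0.le hc1 (fun a b hb ha => hc q hq2 h1 a b hb ha) hη0.le (by linarith)
      hM hn1 (by linarith)
    have h3 : 2 * η = δ' := by rw [hη]; ring
    linarith
  have hnn : 1 - δ' ≤ hq q n n := by linarith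
  have key : ∀ k : ℕ, 1 - (4 * k + 1) * δ' ≤ hq q ((k + 1) * n) n := by
    intro k
    induction k with
    | zero =>
      rw [zero_add, one_mul]
      simpa using hnn
    | succ k ih =>
      have h2 := hq_glue_one h0 h1 (a := (k + 1) * n) (b := 2 * n) (N := n)
        (Nat.le_mul_of_pos_left _ (by omega)) (by omega)
      have h3 : (k + 1) * n + 2 * n - n = (k + 1 + 1) * n := by
        rw [Nat.add_mul (k + 1) 1 n, one_mul]
        omega
      rw [h3] at h2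
      push_cast
      linarith
  rcases Nat.eq_zero_or_pos κ with hκ0 | hκ0
  · subst hκ0
    rw [zero_mul]
    have h2 : hq q n n ≤ hq q 0 n := hq_anti h0 h1 (Nat.zero_le n)
    have h3 : δ' ≤ δ := by
      push_cast at hδ'2
      linarith
    linarith
  · obtain ⟨k, rfl⟩ : ∃ k, κ = k + 1 := ⟨κ - 1, by omega⟩
    have h2 := key k
    push_cast at hδ'2
    have h3 : (4 * (k : ℝ) + 1) * δ' ≤ 4 * (k + 1 + 1) * δ' :=
      mul_le_mul_of_nonneg_right (by linarith) hδ'0.le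
    linarith

end FKN
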