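import Mathlib
import Pool.Agent.Lib.MP_25e40f_pr.A.Rus
import Pool.Agent.Lib.MP_216314_pr.N.NTa
import Pool.Agent.Lib.MP_216314_pr.N.NTf

/-!
# JOB NAa: Russo's formula (also for non monotone events), sums over the edges of the torus (about 200 lines)

* `deriv_abs`: `IPC.EE_hasDerivAt` for `f ω = IPC.ind (B ω)`: derivative `∑_e EE q (E.erase e) (ind (B (insert e ω)) - ind (B ω))`; absolute value: triangle inequality for the sum and for `EE` (`|EE f| ≤ EE |f|`, from `EE_mono` twice);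
  `|ind P - ind Q| = ind (¬ (P ↔ Q))`; for `ω ⊆ E.erase e`: `ω.erase e = ω`; `Pr q E (PivB e B) = Pr q (E.erase e) (fun ω => ¬ (B (insert e ω) ↔ B ω))` by `IPC.Pr_restrict` (the event depends on `ω.erase e = ω ∩ E.erase e` only) .
* `deriv_inc`: the same without absolute values: for increasing `A`: `ind (A (insert e ω)) - ind (A ω) = ind (A (insert e ω) ∧ ¬ A ω)` (`ω ⊆ E.erase e`).
* `piv_fin`: `Pr (PivB e B) ≤ Pr (B (insert e ω)) + Pr (B (ω.erase e)) ≤ Pr B / q + Pr B / (1 - q) ≤ 8 Pr B` for `q ∈ [1/4, 3/4]` (`fin_ins`, `fin_era` of NTf, `IPC.Pr_or_le`).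
* `tor_sum`: number of `e ∈ TE m` with `nrm (ea e) = d`: `16 d` for `1 ≤ d ≤ m` (two edges for each of the `8 d` vertices of norm `d`), `2` for `d = 0`; the number with `nrm (ea e) ≤ 4` is at most `162`.  Upper bounds suffice: `{e | nrm (ea e) = d} ⊆` four sides
  (`x = d`, `x = -d`, `y = d`, `y = -d`), each `≤ 2 (2 d + 1)` edges, total `≤ 8 (2 d + 1) ≤ 24 d` for `d ≥ 1`.  Split the sum over `e` by `d = (nrm (ea e)).toNat ∈ range (m + 1)` (`Finset.sum_fiberwise_of_maps_to`), `d ≤ 4`: at most `162` terms `≤ B`; `d ≥ 5`: `≤ 24 d * D * g ((d + 2) / 3)`,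
  `d ≤ 3 r` with `r = (d + 2) / 3`, each `r ∈ [1, m]` comes from at most three `d`: `∑_d 24 d D g(r(d)) ≤ 216 D ∑_r r g r` (again `sum_fiberwise` by `r`; or bound `∑_{d ∈ Icc 5 m} h ((d+2)/3) ≤ 3 ∑_{r ∈ Icc 1 m} h r` for `h ≥ 0`).
-/

set_option autoImplicit false

namespace FKN

open Finset FKI FKP

private theorem NAa_ins (e : Edge) (ω : Finset Edge) : insert e (ω.erase e) = insert e ω := by
  ext x
  simp only [Finset.mem_insert, Finset.mem_erase]
  tauto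

private theorem NAa_pivB (q : ℝ) (E : Finset Edge) (e : Edge) (B : Finset Edge → Prop) :
    IPC.Pr q E (PivB e B) = IPC.Pr q (E.erase e) (fun ω => ¬ (B (insert e ω) ↔ B ω)) := by
  rw [← IPC.Pr_erase q E e]
  refine IPC.Pr_congr q E fun ω _ => ?_
  unfold PivB
  rw [NAa_ins]

private theorem NAa_piv (q : ℝ) (E : Finset Edge) (e : Edge) (A : Finset Edge → Prop) :
    IPC.Pr q E (Piv e A) = IPC.Pr q (E.erase e) (fun ω => A (insert e ω) ∧ ¬ A ω) := by
  rw [← IPC.Pr_erase q E e]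
  refine IPC.Pr_congr q E fun ω _ => ?_
  unfold Piv
  rw [NAa_ins]

theorem deriv_abs (E : Finset Edge) (B : Finset Edge → Prop) {q : ℝ} (h0 : 0 ≤ q) (h1 : q ≤ 1) :
    ∃ D : ℝ, HasDerivAt (fun x : ℝ => IPC.Pr x E B) D q ∧ |D| ≤ ∑ e ∈ E, IPC.Pr q E (PivB e B) := by
  refine ⟨_, IPC.EE_hasDerivAt E (fun ω => IPC.ind (B ω)) q, ?_⟩
  refine (Finset.abs_sum_le_sum_abs _ _).trans (Finset.sum_le_sum fun e _ => ?_)
  rw [NAa_pivB]
  have k1 : 0 ≤ IPC.EE q (E.erase e) (fun ω => IPC.ind (¬ (B (insert e ω) ↔ B ω)) +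
      (IPC.ind (B (insert e ω)) - IPC.ind (B ω))) := by
    refine IPC.EE_nonneg h0 h1 _ fun ω _ => ?_
    by_cases a : B (insert e ω) <;> by_cases b : B ω
    · rw [IPC.ind_of a, IPC.ind_of b]
      have := IPC.ind_nonneg (¬ (B (insert e ω) ↔ B ω))
      linarith
    · rw [IPC.ind_of a, IPC.ind_not b]
      have := IPC.ind_nonneg (¬ (B (insert e ω) ↔ B ω))
      linarith
    · rw [IPC.ind_not a, IPC.ind_of b, IPC.ind_of (fun h => a (h.2 b))]
      norm_num
    · rw [IPC.ind_not a, IPC.ind_not b]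
      have := IPC.ind_nonneg (¬ (B (insert e ω) ↔ B ω))
      linarith
  have k2 : 0 ≤ IPC.EE q (E.erase e) (fun ω => IPC.ind (¬ (B (insert e ω) ↔ B ω)) -
      (IPC.ind (B (insert e ω)) - IPC.ind (B ω))) := by
    refine IPC.EE_nonneg h0 h1 _ fun ω _ => ?_
    by_cases a : B (insert e ω) <;> by_cases b : B ω
    · rw [IPC.ind_of a, IPC.ind_of b]
      have := IPC.ind_nonneg (¬ (B (insert e ω) ↔ B ω))
      linarith
    · rw [IPC.ind_of a, IPC.ind_not b, IPC.ind_of (fun h => b (h.1 a))]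
      norm_num
    · rw [IPC.ind_not a, IPC.ind_of b]
      have := IPC.ind_nonneg (¬ (B (insert e ω) ↔ B ω))
      linarith
    · rw [IPC.ind_not a, IPC.ind_not b]
      have := IPC.ind_nonneg (¬ (B (insert e ω) ↔ B ω))
      linarith
  rw [IPC.EE_add q (E.erase e) (fun ω => IPC.ind (¬ (B (insert e ω) ↔ B ω)))
    (fun ω => IPC.ind (B (insert e ω)) - IPC.ind (B ω))] at k1
  rw [IPC.EE_sub q (E.erase e) (fun ω => IPC.ind (¬ (B (insert e ω) ↔ B ω)))
    (fun ω => IPC.ind (B (insert e ω)) - IPC.ind (B ω))] at k2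
  unfold IPC.Pr
  rw [abs_le]
  constructor
  · linarith
  · linarith

theorem deriv_inc (E : Finset Edge) {A : Finset Edge → Prop} (hA : IPC.Inc A) (q : ℝ) :
    HasDerivAt (fun x : ℝ => IPC.Pr x E A) (∑ e ∈ E, IPC.Pr q E (Piv e A)) q := by
  have h := IPC.EE_hasDerivAt E (fun ω => IPC.ind (A ω)) q
  refine h.congr_deriv (Finset.sum_congr rfl fun e _ => ?_)
  rw [NAa_piv]
  unfold IPC.Pr
  refine IPC.EE_congr q _ fun ω _ => ?_
  by_cases h1 : A ω
  · have h2 : A (insert e ω) := hA _ _ (Finset.subset_insert _ _) h1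
    rw [IPC.ind_of h1, IPC.ind_of h2, IPC.ind_not (fun h => h.2 h1), sub_self]
  · by_cases h2 : A (insert e ω)
    · rw [IPC.ind_not h1, IPC.ind_of h2, IPC.ind_of ⟨h2, h1⟩, sub_zero]
    · rw [IPC.ind_not h1, IPC.ind_not h2, IPC.ind_not (fun h => h2 h.1), sub_zero]

private theorem NAa_ins_le {q : ℝ} (h0 : 1 / 4 ≤ q) (h1 : q ≤ 3 / 4) {E : Finset Edge} {e : Edge}
    (he : e ∈ E) (B : Finset Edge → Prop) :
    IPC.Pr q E (fun ω => B (insert e ω)) ≤ 4 * IPC.Pr q E B := by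
  have q0 : 0 ≤ q := by linarith
  have q1 : q ≤ 1 := by linarith
  have k1 := fin_ins q0 q1 he B
  have k2 := IPC.Pr_nonneg q0 q1 E (fun ω => B (insert e ω))
  have k3 : 1 / 4 * IPC.Pr q E (fun ω => B (insert e ω)) ≤ q * IPC.Pr q E (fun ω => B (insert e ω)) :=
    mul_le_mul_of_nonneg_right h0 k2
  linarith

private theorem NAa_era_le {q : ℝ} (h0 : 1 / 4 ≤ q) (h1 : q ≤ 3 / 4) {E : Finset Edge} {e : Edge}
    (he : e ∈ E) (B : Finset Edge → Prop) :
    IPC.Pr q E (fun ω => B (ω.erase e)) ≤ 4 * IPC.Pr q E B := by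
  have q0 : 0 ≤ q := by linarith
  have q1 : q ≤ 1 := by linarith
  have k1 := fin_era q0 q1 he B
  have k2 := IPC.Pr_nonneg q0 q1 E (fun ω => B (ω.erase e))
  have k3 : 1 / 4 * IPC.Pr q E (fun ω => B (ω.erase e)) ≤ (1 - q) * IPC.Pr q E (fun ω => B (ω.erase e)) :=
    mul_le_mul_of_nonneg_right (by linarith) k2
  linarith

theorem piv_fin {q : ℝ} (h0 : 1 / 4 ≤ q) (h1 : q ≤ 3 / 4) {E : Finset Edge} {e : Edge} (he : e ∈ E) (B : Finset Edge → Prop) :
    IPC.Pr q E (PivB e B) ≤ 8 * IPC.Pr q E B := by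
  have q0 : 0 ≤ q := by linarith
  have q1 : q ≤ 1 := by linarith
  have k1 : IPC.Pr q E (PivB e B) ≤ IPC.Pr q E (fun ω => B (insert e ω) ∨ B (ω.erase e)) := by
    refine IPC.Pr_mono q0 q1 E fun ω _ h => ?_
    unfold PivB at h
    tauto
  have k2 := IPC.Pr_or_le q0 q1 E (fun ω => B (insert e ω)) (fun ω => B (ω.erase e))
  have k3 := NAa_ins_le h0 h1 he B
  have k4 := NAa_era_le h0 h1 he B
  linarith

theorem piv_fin' {q : ℝ} (h0 : 1 / 4 ≤ q) (h1 : q ≤ 3 / 4) {E : Finset Edge} {e : Edge} (he : e ∈ E) (B : Finset Edge → Prop) :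
    IPC.Pr q E (Piv e B) ≤ 4 * IPC.Pr q E B := by
  have q0 : 0 ≤ q := by linarith
  have q1 : q ≤ 1 := by linarith
  have k1 : IPC.Pr q E (Piv e B) ≤ IPC.Pr q E (fun ω => B (insert e ω)) :=
    IPC.Pr_mono q0 q1 E fun ω _ h => h.1
  exact k1.trans (NAa_ins_le h0 h1 he B)

private theorem NAa_TE {a b : ℕ} (h : a ≤ b) : TE a ⊆ TE b := by
  intro e he
  rw [mem_TE'] at he ⊢
  omega

private theorem NAa_card {r : ℕ} (hr : 1 ≤ r) : (TE (3 * r) \ TE (3 * r - 3)).card ≤ 144 * r := by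
  obtain ⟨s, rfl⟩ : ∃ s, r = s + 1 := ⟨r - 1, by omega⟩
  have e : 3 * (s + 1) - 3 = 3 * s := by omega
  rw [e, Finset.card_sdiff_of_subset (NAa_TE (by omega)), card_TE, card_TE]
  have h : 2 * (2 * (3 * (s + 1)) + 1) ^ 2 ≤ 144 * (s + 1) + 2 * (2 * (3 * s) + 1) ^ 2 := by
    nlinarith
  omega

theorem tor_sum {m : ℕ} {F : Edge → ℝ} {g : ℕ → ℝ} (hg : ∀ r, 0 ≤ g r) {B D : ℝ} (hB : 0 ≤ B) (hD : 0 ≤ D)
    (h1 : ∀ e ∈ TE m, F e ≤ B) (h2 : ∀ e ∈ TE m, ∀ d : ℕ, nrm (ea e) = d → 5 ≤ d → F e ≤ D * g ((d + 2) / 3)) :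
    ∑ e ∈ TE m, F e ≤ 162 * B + 216 * D * ∑ r ∈ Icc 1 m, (r : ℝ) * g r := by
  classical
  rw [← Finset.sum_filter_add_sum_filter_not (TE m) (fun e => nrm (ea e) ≤ 4)]
  have k1 : ∑ e ∈ (TE m).filter (fun e => nrm (ea e) ≤ 4), F e ≤ 162 * B := by
    have c1 : ((TE m).filter (fun e => nrm (ea e) ≤ 4)).card ≤ 162 := by
      have c2 : (TE m).filter (fun e => nrm (ea e) ≤ 4) ⊆ TE 4 := by
        intro e he
        rw [Finset.mem_filter] at he
        rw [mem_TE']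
        exact he.2
      refine (Finset.card_le_card c2).trans ?_
      rw [card_TE]
      norm_num
    calc ∑ e ∈ (TE m).filter (fun e => nrm (ea e) ≤ 4), F e
        ≤ ∑ _e ∈ (TE m).filter (fun e => nrm (ea e) ≤ 4), B :=
          Finset.sum_le_sum fun e he => h1 e (Finset.mem_filter.1 he).1
      _ = (((TE m).filter (fun e => nrm (ea e) ≤ 4)).card : ℝ) * B := by
          rw [Finset.sum_const, nsmul_eq_mul]
      _ ≤ 162 * B := mul_le_mul_of_nonneg_right (by exact_mod_cast c1) hB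
  have k2 : ∑ e ∈ (TE m).filter (fun e => ¬ nrm (ea e) ≤ 4), F e ≤
      144 * D * ∑ r ∈ Icc 1 m, (r : ℝ) * g r := by
    have hmap : ∀ e ∈ (TE m).filter (fun e => ¬ nrm (ea e) ≤ 4),
        ((nrm (ea e)).toNat + 2) / 3 ∈ Icc 1 m := by
      intro e he
      rw [Finset.mem_filter, mem_TE'] at he
      rw [Finset.mem_Icc]
      omega
    rw [← Finset.sum_fiberwise_of_maps_to hmap, Finset.mul_sum]
    refine Finset.sum_le_sum fun r hr => ?_
    rw [Finset.mem_Icc] at hr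
    have c1 : (((TE m).filter (fun e => ¬ nrm (ea e) ≤ 4)).filter
        (fun e => ((nrm (ea e)).toNat + 2) / 3 = r)).card ≤ 144 * r := by
      refine (Finset.card_le_card ?_).trans (NAa_card hr.1)
      intro e he
      rw [Finset.mem_filter, Finset.mem_filter, mem_TE'] at he
      rw [Finset.mem_sdiff, mem_TE', mem_TE']
      omega
    have hDg : 0 ≤ D * g r := mul_nonneg hD (hg r)
    calc ∑ e ∈ ((TE m).filter (fun e => ¬ nrm (ea e) ≤ 4)).filter
          (fun e => ((nrm (ea e)).toNat + 2) / 3 = r), F e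
        ≤ ∑ _e ∈ ((TE m).filter (fun e => ¬ nrm (ea e) ≤ 4)).filter
          (fun e => ((nrm (ea e)).toNat + 2) / 3 = r), D * g r := by
          refine Finset.sum_le_sum fun e he => ?_
          rw [Finset.mem_filter, Finset.mem_filter] at he
          have h3 := h2 e he.1.1 (nrm (ea e)).toNat (by omega) (by omega)
          rw [he.2] at h3
          exact h3
      _ = ((((TE m).filter (fun e => ¬ nrm (ea e) ≤ 4)).filter
          (fun e => ((nrm (ea e)).toNat + 2) / 3 = r)).card : ℝ) * (D * g r) := by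
          rw [Finset.sum_const, nsmul_eq_mul]
      _ ≤ ((144 * r : ℕ) : ℝ) * (D * g r) := mul_le_mul_of_nonneg_right (by exact_mod_cast c1) hDg
      _ = 144 * D * ((r : ℝ) * g r) := by
          push_cast
          ring
  have k3 : 0 ≤ ∑ r ∈ Icc 1 m, (r : ℝ) * g r :=
    Finset.sum_nonneg fun r _ => mul_nonneg (Nat.cast_nonneg r) (hg r)
  have k4 : 144 * D * ∑ r ∈ Icc 1 m, (r : ℝ) * g r ≤ 216 * D * ∑ r ∈ Icc 1 m, (r : ℝ) * g r :=
    mul_le_mul_of_nonneg_right (by linarith) k3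
  linarith

end FKN
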