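import Mathlib
import Pool.Agent.Lib.MP_216314_pr.N.NDef
import Pool.Agent.Lib.MP_216314_pr.N.GR

/-!
# Near-critical percolation: definitions, second part

`Per ε η s m`: crossing bounds up to scale `m` for all parameters in `[1/2 - s, 1/2 + s]`, and the winding probabilities of the tori of side `2 j + 1`, `j ≤ m`, vary by at most `η`.
`th`: percolation probability, `ta`: two point function, `ch`: mean cluster size.
-/

set_option autoImplicit false

noncomputable section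

namespace FKN

open Finset FKI FKP

/-- the exact law of four arms at the critical point -/
def Law4 : Prop := ∃ c C : ℝ, 0 < c ∧ 0 < C ∧ ∀ n : ℕ, 1 ≤ n →
  c * (n : ℝ) ^ (-(5 / 4) : ℝ) ≤ p4 (1 / 2) n ∧ p4 (1 / 2) n ≤ C * (n : ℝ) ^ (-(5 / 4) : ℝ)

/-- the exact law of one arm at the critical point -/
def Law1 : Prop := ∃ c C : ℝ, 0 < c ∧ 0 < C ∧ ∀ n : ℕ, 1 ≤ n →
  c * (n : ℝ) ^ (-(5 / 48) : ℝ) ≤ p1 (1 / 2) n ∧ p1 (1 / 2) n ≤ C * (n : ℝ) ^ (-(5 / 48) : ℝ)

/-- the perturbative regime -/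
def Per (ε η s : ℝ) (m : ℕ) : Prop := (∀ q : ℝ, 1 / 2 - s ≤ q → q ≤ 1 / 2 + s → RS ε q m) ∧
  ∀ j : ℕ, 1 ≤ j → j ≤ m → FW (1 / 2 + s) j - FW (1 / 2 - s) j ≤ η

/-- the percolation probability -/
def th (q : ℝ) : ℝ := ⨅ n : ℕ, p1 q n

/-- the two point function -/
def ta (q : ℝ) (x : V) : ℝ := ⨆ n : ℕ, IPC.Pr q (bx n) (fun ω => Conn (bx n) ω (0, 0) x)

/-- the mean size of the cluster of the origin -/
def ch (q : ℝ) : ENNReal := ∑' x : V, ENNReal.ofReal (ta q x)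

end FKN
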