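import Mathlib
import Pool.Agent.Lib.MP_216314_pr.N.NTg

/-!
# JOB NTh: an edge which is pivotal for a pivotality: three independent four arm events (about 250 lines)

`v = ea e'`, `nrm v = d ≥ 5`, `r = (d + 2) / 3`, so `2 r < d`, `1 ≤ r ≤ m` (`d ≤ m` since `e' ∈ TE m`, `mem_TE'`).
* `far`: `st m v s ∉ bx r` for `s ∈ bx r`: otherwise (`cm_eq`-like: `cm m (shv v s) = f`, `f ∈ bx r`, `f = shv (v + pr w) s` for some `w`), `nrm (v + pr w) ≤ 2 r < d`, contradicting `nrm_tor`.
  So `(bx r).image (st m v)` is disjoint from `bx r`; and if `2 d ≤ m` it is a subset of `bx (2 d)` (`d + r ≤ 2 d ≤ m`: there `bal` does nothing), hence disjoint from `an (2 d) m`.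
* `T2`: `e' = (v.1, v.2, t) = st m v (et t)`.  `PivB e' (Piv e0 (W m)) ω`.
  (a) `Piv e0 (W m)` holds for `ω⁺ = insert e' ω` or for `ω⁻ = ω.erase e'`; by `T1` (t = false), `FourT_mono`, `FourT_an`: `FourT false r` and (if `2 d ≤ m`) `Four' (2 d) m` hold for `ω^±`; they do not depend on `e'` (`dep_FourT`, `dep_Four'`, `e' ∉ bx r` since
      `nrm (ea e') = d > r`, `e' ∈ bx (2 d)`: `ω^± ∩ bx r = ω ∩ bx r`).
  (b) `Piv e0 (W m) (insert e' ω)` and `Piv e0 (W m) (ω.erase e')` are different: by monotonicity of `W m` (`W_inc`), `Piv e' (W m)` holds for `insert e0 ω` or `ω.erase e0` (write the four statements `W (ω ± e0 ± e')`, `insert e0 (insert e' ω) = insert e' (insert e0 ω)`,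
      `e0 ≠ e'`).  Let `ω1` be this configuration.  `sh m (-v)` maps `e'` to `et t` (`st_neg`), so `Piv (et t) (W m) (sh m (-v) ω1)` (`sh_insert`, `sh_erase`, `W_sh`), `T1`, `FourT_mono`: `FourT t r (sh m (-v) ω1)`; it does not depend on
      `st m (-v) e0 ∉ bx r` (`far` with `s = st m (-v) e0`, as `st m v s = e0 ∈ bx r`): `FourT t r (sh m (-v) ω)`.
* `T2_pr`: the three events depend on the disjoint sets `bx r`, `(bx r).image (st m v)` (`dep_sh`), `an (2 d) m`; `IPC.Pr_indep` twice; `Pr_FT` and `p4_FT`; `p4_tor`, `p4'_tor`.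
-/

set_option autoImplicit false

namespace FKN

open Finset FKI FKP

private theorem NTh_ins {e : Edge} {F ω : Finset Edge} (h : e ∉ F) : insert e ω ∩ F = ω ∩ F :=
  Finset.insert_inter_of_notMem h

private theorem NTh_era {e : Edge} {F ω : Finset Edge} (h : e ∉ F) : ω.erase e ∩ F = ω ∩ F := by
  ext x
  simp only [mem_inter, mem_erase]
  constructor
  · rintro ⟨⟨_, h1⟩, h2⟩
    exact ⟨h1, h2⟩
  · rintro ⟨h1, h2⟩
    refine ⟨⟨?_, h1⟩, h2⟩
    rintro rfl
    exact h h2

private theorem NTh_four {A : Finset Edge → Prop} (hA : IPC.Inc A) {e f : Edge} (hef : e ≠ f)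
    {ω : Finset Edge} (h : PivB f (Piv e A) ω) :
    (Piv e A (insert f ω) ∨ Piv e A (ω.erase f)) ∧ (Piv f A (insert e ω) ∨ Piv f A (ω.erase e)) := by
  have e1 : insert f (insert e ω) = insert e (insert f ω) := Finset.insert_comm _ _ _
  have e2 : (insert e ω).erase f = insert e (ω.erase f) := Finset.erase_insert_of_ne hef
  have e3 : insert f (ω.erase e) = (insert f ω).erase e := (Finset.erase_insert_of_ne hef.symm).symm
  have e4 : (ω.erase e).erase f = (ω.erase f).erase e := Finset.erase_right_comm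
  have m1 : A ((ω.erase f).erase e) → A (insert e (ω.erase f)) :=
    hA _ _ ((Finset.erase_subset _ _).trans (Finset.subset_insert _ _))
  have m2 : A ((insert f ω).erase e) → A (insert e (insert f ω)) :=
    hA _ _ ((Finset.erase_subset _ _).trans (Finset.subset_insert _ _))
  have m3 : A ((ω.erase f).erase e) → A ((insert f ω).erase e) :=
    hA _ _ (Finset.erase_subset_erase _ ((Finset.erase_subset _ _).trans (Finset.subset_insert _ _)))
  have m4 : A (insert e (ω.erase f)) → A (insert e (insert f ω)) :=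
    hA _ _ (Finset.insert_subset_insert _ ((Finset.erase_subset _ _).trans (Finset.subset_insert _ _)))
  unfold PivB Piv at h
  unfold Piv
  rw [e1, e2, e3, e4]
  generalize A ((ω.erase f).erase e) = a at *
  generalize A (insert e (ω.erase f)) = b at *
  generalize A ((insert f ω).erase e) = c at *
  generalize A (insert e (insert f ω)) = d at *
  tauto

theorem far {m d r : ℕ} {v : V} (hv : nrm v = d) (hd : d ≤ m) (hr : 2 * r < d) {s : Edge} (hs : s ∈ bx r) : st m v s ∉ bx r := by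
  intro hf
  obtain ⟨w, hw⟩ := cm_spec m (shv v s)
  have h1 := congrArg ea hw
  rw [ea_shv, ea_shv] at h1
  change ea s + v = ea (st m v s) + pr m w at h1
  have h2 : v + pr m (-w) = ea (st m v s) - ea s := by
    rw [pr_neg]
    linear_combination h1
  have h3 := nrm_tor (m := m) (v := v) (by rw [hv]; exact_mod_cast hd) (-w)
  rw [h2, hv] at h3
  have h4 := nrm_add_le (ea (st m v s)) (-(ea s))
  rw [nrm_neg, ← sub_eq_add_neg] at h4
  have h5 := (mem_bx.1 hf).1
  have h6 := (mem_bx.1 hs).1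
  omega

theorem far' {m d r : ℕ} {v : V} (hv : nrm v = d) (hd : 2 * d ≤ m) (hr : 2 * r < d) : (bx r).image (st m v) ⊆ bx (2 * d) := by
  intro e he
  obtain ⟨s, hs, rfl⟩ := mem_image.1 he
  obtain ⟨h1, h2⟩ := mem_bx.1 hs
  have h3 := nrm_add_le (ea s) v
  have h4 := nrm_add_le (eb s) v
  have h5 : shv v s ∈ bx (2 * d) := by
    rw [mem_bx, ea_shv, eb_shv]
    push_cast
    constructor <;> omega
  have h6 : st m v s = shv v s := cm_self (bx_sub_TE hd h5)
  rw [h6]
  exact h5

theorem T2 {m : ℕ} {ω : Finset Edge} (hω : ω ⊆ TE m) {v : V} {t : Bool} {d r : ℕ} (hv : nrm v = d) (hd : 5 ≤ d) (hm : d ≤ m)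
    (hr : r = (d + 2) / 3) (h : PivB (v.1, v.2, t) (Piv e0 (W m)) ω) :
    Four r ω ∧ FourT t r (sh m (-v) ω) ∧ (2 * d ≤ m → Four' (2 * d) m ω) := by
  have hr2 : 2 * r < d := by omega
  have hr1 : 1 ≤ r := by omega
  have hrm : r ≤ m := by omega
  have hm1 : 1 ≤ m := by omega
  obtain ⟨e', he'⟩ : ∃ e' : Edge, e' = (v.1, v.2, t) := ⟨_, rfl⟩
  rw [← he'] at h
  have hea : ea e' = v := by
    rw [he']
    rfl
  have heT : e' ∈ TE m := by
    rw [mem_TE', hea, hv]
    exact_mod_cast hm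
  have her : e' ∉ bx r := by
    intro h0
    have h1 := (mem_bx.1 h0).1
    rw [hea, hv] at h1
    omega
  have hne : e0 ≠ e' := by
    intro h0
    rw [← h0] at her
    exact her (e0_mem hr1)
  have he0T : e0 ∈ TE m := bx_sub_TE hm1 (e0_mem le_rfl)
  obtain ⟨ha, hb⟩ := NTh_four (W_inc m) hne h
  have hA : ∃ ω' : Finset Edge, ω' ⊆ TE m ∧ (∀ F : Finset Edge, e' ∉ F → ω' ∩ F = ω ∩ F) ∧
      Piv e0 (W m) ω' := by
    rcases ha with ha | ha
    · exact ⟨insert e' ω, insert_subset heT hω, fun F hF => NTh_ins hF, ha⟩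
    · exact ⟨ω.erase e', (erase_subset _ _).trans hω, fun F hF => NTh_era hF, ha⟩
  have hs0 : st m (-v) e0 ∉ bx r := by
    intro h0
    have h1 := far hv hm hr2 h0
    rw [st_st, add_neg_cancel, st_zero he0T] at h1
    exact h1 (e0_mem hr1)
  have hB : ∃ ω1 : Finset Edge, ω1 ⊆ TE m ∧ sh m (-v) ω1 ∩ bx r = sh m (-v) ω ∩ bx r ∧
      Piv e' (W m) ω1 := by
    rcases hb with hb | hb
    · refine ⟨insert e0 ω, insert_subset he0T hω, ?_, hb⟩
      rw [sh_insert]
      exact NTh_ins hs0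
    · refine ⟨ω.erase e0, (erase_subset _ _).trans hω, ?_, hb⟩
      rw [sh_erase (-v) hω he0T]
      exact NTh_era hs0
  obtain ⟨ω', hω', hF, hP⟩ := hA
  obtain ⟨ω1, hω1, hF1, hP1⟩ := hB
  have hT := T1 hm1 (t := false) hω' hP
  refine ⟨?_, ?_, ?_⟩
  · rw [four_iff, dep_FourT (Finset.Subset.refl _), ← hF _ her, ← dep_FourT (Finset.Subset.refl _)]
    exact FourT_mono hr1 hrm hT
  · have hst : st m (-v) e' = et t := by
      have h1 : e' = shv v (et t) := by
        rw [he', shv, et]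
        simp
      have h2 : et t ∈ TE m := by
        rw [mem_TE]
        simp [et]
      have h3 : st m v (et t) = e' := by
        rw [st, ← h1]
        exact cm_self heT
      rw [← h3]
      exact st_neg v h2
    have hP2 : Piv (et t) (W m) (sh m (-v) ω1) := by
      constructor
      · rw [← hst, ← sh_insert, W_sh (-v) (insert_subset heT hω1)]
        exact hP1.1
      · rw [← hst, ← sh_erase (-v) hω1 heT, W_sh (-v) ((erase_subset _ _).trans hω1)]
        exact hP1.2
    have hT1 := FourT_mono hr1 hrm (T1 hm1 (sh_sub m (-v) ω1) hP2)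
    rw [dep_FourT (Finset.Subset.refl _), hF1, ← dep_FourT (Finset.Subset.refl _)] at hT1
    exact hT1
  · intro h2d
    have hea2 : e' ∉ an (2 * d) m := by
      intro h0
      apply (mem_sdiff.1 h0).2
      have h1 : nrm (eb e') ≤ d + 1 := by
        rw [eb_eq, hea, ← hv]
        have h2 := nrm_add_le v (eb ((0 : ℤ), (0 : ℤ), e'.2.2))
        rw [eb_et] at h2
        exact h2
      rw [mem_bx, hea, hv]
      push_cast
      constructor <;> omega
    have h4 := FourT_an (by omega) h2d hT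
    rw [dep_Four' (Finset.Subset.refl _), hF _ hea2, ← dep_Four' (Finset.Subset.refl _)] at h4
    exact h4

theorem T2_pr {q : ℝ} (h0 : 0 ≤ q) (h1 : q ≤ 1) {m : ℕ} {e : Edge} {d r : ℕ} (hv : nrm (ea e) = d) (hd : 5 ≤ d) (hm : d ≤ m)
    (hr : r = (d + 2) / 3) :
    IPC.Pr q (TE m) (PivB e (Piv e0 (W m))) ≤ p4 q r * p4 q r ∧
      (2 * d ≤ m → IPC.Pr q (TE m) (PivB e (Piv e0 (W m))) ≤ p4 q r * p4 q r * p4' q (2 * d) m) := by
  have hr2 : 2 * r < d := by omega
  have hrm : r ≤ m := by omega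
  have hdisj : Disjoint (bx r) ((bx r).image (st m (ea e))) := by
    rw [Finset.disjoint_right]
    intro f hf
    obtain ⟨s, hs, rfl⟩ := mem_image.1 hf
    exact far hv hm hr2 hs
  have hI : (bx r).image (st m (ea e)) ⊆ TE m := by
    intro f hf
    obtain ⟨s, hs, rfl⟩ := mem_image.1 hf
    exact st_mem _ _ _
  have hB : bx r ⊆ TE m := bx_sub_TE hrm
  have dF : ∀ ω : Finset Edge, Four r ω ↔ Four r (ω ∩ bx r) := fun ω => by
    rw [four_iff, four_iff]
    exact dep_FourT (Finset.Subset.refl _) ω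
  have dT : ∀ ω : Finset Edge, ω ⊆ TE m → (FourT e.2.2 r (sh m (-(ea e)) ω) ↔
      FourT e.2.2 r (sh m (-(ea e)) (ω ∩ (bx r).image (st m (ea e))))) := fun ω hω =>
    dep_sh (ea e) hB (A := FourT e.2.2 r) (fun ω' => dep_FourT (Finset.Subset.refl _) ω') hω
  have eT : IPC.Pr q (TE m) (fun ω => FourT e.2.2 r (sh m (-(ea e)) ω)) = p4 q r := by
    rw [Pr_FT q hrm (ea e) (A := FourT e.2.2 r) (fun ω' => dep_FourT (Finset.Subset.refl _) ω')]
    exact p4_FT q _ r
  have e1 : IPC.Pr q (TE m) (fun ω => Four r ω ∧ FourT e.2.2 r (sh m (-(ea e)) ω)) =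
      p4 q r * p4 q r := by
    rw [IPC.Pr_indep q hB hI hdisj (Four r) (fun ω => FourT e.2.2 r (sh m (-(ea e)) ω))
      (fun ω _ => dF ω) dT, p4_tor q hrm, eT]
  constructor
  · rw [← e1]
    refine IPC.Pr_mono h0 h1 _ fun ω hω h => ?_
    obtain ⟨a1, a2, _⟩ := T2 hω (v := ea e) (t := e.2.2) hv hd hm hr h
    exact ⟨a1, a2⟩
  · intro h2d
    have hA : an (2 * d) m ⊆ TE m := sdiff_subset.trans (bx_sub_TE le_rfl)
    have hd2 : Disjoint (bx r ∪ (bx r).image (st m (ea e))) (an (2 * d) m) := by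
      rw [Finset.disjoint_right]
      intro f hf hf2
      apply (mem_sdiff.1 hf).2
      rcases mem_union.1 hf2 with h3 | h3
      · exact bx_mono (by omega) h3
      · exact far' hv h2d hr2 h3
    have i1 : ∀ ω : Finset Edge, ω ∩ (bx r ∪ (bx r).image (st m (ea e))) ∩ bx r = ω ∩ bx r := by
      intro ω
      rw [inter_assoc, inter_eq_right.2 subset_union_left]
    have i2 : ∀ ω : Finset Edge, ω ∩ (bx r ∪ (bx r).image (st m (ea e))) ∩ (bx r).image (st m (ea e)) =
        ω ∩ (bx r).image (st m (ea e)) := by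
      intro ω
      rw [inter_assoc, inter_eq_right.2 subset_union_right]
    have e2 : IPC.Pr q (TE m) (fun ω => (Four r ω ∧ FourT e.2.2 r (sh m (-(ea e)) ω)) ∧
        Four' (2 * d) m ω) = p4 q r * p4 q r * p4' q (2 * d) m := by
      rw [IPC.Pr_indep q (union_subset hB hI) hA hd2
        (fun ω => Four r ω ∧ FourT e.2.2 r (sh m (-(ea e)) ω)) (Four' (2 * d) m), e1,
        p4'_tor q le_rfl]
      · intro ω hω
        have b1 := dF (ω ∩ (bx r ∪ (bx r).image (st m (ea e))))
        rw [i1] at b1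
        have b2 := dT (ω ∩ (bx r ∪ (bx r).image (st m (ea e)))) (inter_subset_left.trans hω)
        rw [i2] at b2
        rw [dF ω, dT ω hω, b1, b2]
      · exact fun ω _ => dep_Four' (Finset.Subset.refl _) ω
    rw [← e2]
    refine IPC.Pr_mono h0 h1 _ fun ω hω h => ?_
    obtain ⟨a1, a2, a3⟩ := T2 hω (v := ea e) (t := e.2.2) hv hd hm hr h
    exact ⟨⟨a1, a2⟩, a3 h2d⟩

end FKN
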