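import Mathlib
import Pool.Agent.Lib.MP_216314_pr.N.NTh

/-!
# JOB NTi: pivotal edges for the winding cluster of the origin (about 300 lines)

`v = ea e'`, `e' = (v.1, v.2, t)`, `x = v`, `y = eb e' = v + eb (et t)`, `nrm v = d ≥ 5`, `r = (d + 2) / 3`, `2 r < d ≤ m`.  `Piv e' (Gz m) ω`: `G⁺ = tgr m (insert e' ω)`, `G = tgr m (ω.erase e')`: `0 ~⁺ pr w`, `w ≠ 0`, and `0 ≁ pr w'` in `G` for `w' ≠ 0`.
* `One r ω`: `exit1` in `G⁺` (norm of `pr m w ≥ 2 m + 1`), `e' ∉ bx r`.  `One' (2 d) m ω` if `2 d ≤ m`: `exit2` in `G⁺` from `0` with `r := 2 d`, `R := m`; `e' ∈ bx (2 d)`, so not in `an (2 d) m`.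
* `contr` (contraction): let `f : V → V` with `G.Reachable (f (ea e)) (f (eb e))` for all `e` with `cm m e ∈ ω.erase e'`, and for all translates `e = shv (pr m u) e'`; then `G⁺.Reachable a b → G.Reachable (f a) (f b)` (`tgr_map`, `tgr_ins`).
* (i) `x ≁ y` in `G`: otherwise `contr` with `f = id` (`tgr_shift`) gives `0 ~ pr w` in `G`.
* (ii) the cluster of `y` in `G` contains a vertex `z` with `nrm (z - v) ≥ r`: suppose not.  `f a := x + pr u` if `∃ u, a ~ y + pr u` in `G`, else `f a := a` (`Classical`).  The `u` is unique: `y + pr u ~ y + pr u'` gives `y ~ y + pr (u' - u)`, then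
      `nrm (y + pr (u'-u) - v) < r`, but it is `≥ 2 m + 1 - 1`.  Edges of `G`: both ends are in the same cluster, so `f` of both ends is the same or both are fixed.  Translates of `e'`: ends `x + pr u`, `y + pr u`: `f (y + pr u) = x + pr u`;
      `f (x + pr u) = x + pr u`: if `x + pr u ~ y + pr u'`, then `u ≠ u'` by (i) (with `tgr_shift`), and `x + pr (u - u') ~ y` has `nrm (pr (u - u')) ≥ 2 m + 1 > r`, contradiction.  So `f 0 ~ f (pr w)` in `G`; `f 0 = 0` since `0 ~ y + pr u` would give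
      `- pr u ~ y`, so `nrm (- pr u - v) < r < d`, contradicting `nrm_tor` (`nrm (v + pr u) ≥ d`); the same for `pr w`.  So `0 ~ pr w` in `G`, contradiction.
* (iii) the cluster of `x` contains a vertex `z` with `nrm (z - v) ≥ r`: the same with `x`, `y` exchanged (`f a := y + pr u` if `a ~ x + pr u`).
* `FourT t r (sh m (-v) ω)`: recentre (`tgr_sh` with `-v`; `sh m (-v) (ω.erase e') = (sh m (-v) ω).erase (et t)`): `0` and `eb (et t)` are connected in `tgr m ((sh m (-v) ω).erase (et t))` to vertices of norm `≥ r`, `exit1` gives the two arms,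
  `conn_tgr` the non-connection; `(η.erase (et t)) ∩ bx r = η ∩ (bx r \ {et t})`.
* `T3_pr`: independence: `bx r`, `(bx r).image (st m v)` (`far`), `an (2 d) m` (`far'`), as in `T2_pr`.
* `Gz_One`: `Gz m ω → One m ω`: `exit1`.
-/

set_option autoImplicit false

namespace FKN

open Finset FKI FKP

theorem contr {m : ℕ} {ω : Finset Edge} {e' : Edge} (f : V → V)
    (h1 : ∀ e : Edge, cm m e ∈ ω.erase e' → (tgr m (ω.erase e')).Reachable (f (ea e)) (f (eb e)))
    (h2 : ∀ u : V, (tgr m (ω.erase e')).Reachable (f (ea e' + pr m u)) (f (eb e' + pr m u))) {a b : V}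
    (h : (tgr m (insert e' ω)).Reachable a b) : (tgr m (ω.erase e')).Reachable (f a) (f b) := by
  refine tgr_map f (fun e he => ?_) h
  rcases tgr_ins he with h3 | ⟨w, rfl⟩
  · exact h1 e h3
  · rw [ea_shv, eb_shv]
    exact h2 w

/-- the ends of a pivotal edge are not connected -/
theorem T3_a {m : ℕ} {ω : Finset Edge} {e' : Edge} (h : Piv e' (Gz m) ω) :
    ¬ (tgr m (ω.erase e')).Reachable (ea e') (eb e') := by
  intro hc
  obtain ⟨⟨w, hw, hr⟩, h2⟩ := h
  refine h2 ⟨w, hw, ?_⟩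
  exact contr (fun a => a) (fun e he => tgr_edge he)
    (fun u => (tgr_shift m (ω.erase e') u (ea e') (eb e')).2 hc) hr

private theorem NTi_end {e : Edge} {x : V} (hx : x = ea e ∨ x = eb e) : nrm (x - ea e) ≤ 1 := by
  rcases hx with rfl | rfl
  · rw [sub_self, nrm_zero]
    exact zero_le_one
  · rw [eb_eq, add_sub_cancel_left, eb_et]

/-- the contraction of the clusters of the translates of `y` to the translates of `x` -/
private theorem NTi_key {m : ℕ} {ω : Finset Edge} {e' : Edge} (h : Piv e' (Gz m) ω) {x y : V}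
    (hxy : (x = ea e' ∧ y = eb e') ∨ (x = eb e' ∧ y = ea e'))
    (hyy : ∀ u : V, u ≠ 0 → ¬ (tgr m (ω.erase e')).Reachable y (y + pr m u))
    (hyx : ∀ u : V, u ≠ 0 → ¬ (tgr m (ω.erase e')).Reachable y (x + pr m u))
    (hy0 : ∀ u : V, ¬ (tgr m (ω.erase e')).Reachable y (pr m u)) : False := by
  classical
  obtain ⟨⟨w, hw, hr⟩, h2⟩ := h
  obtain ⟨G, hG⟩ : ∃ G, G = tgr m (ω.erase e') := ⟨_, rfl⟩
  have hsh : ∀ u a b : V, G.Reachable (a + pr m u) (b + pr m u) ↔ G.Reachable a b := by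
    rw [hG]
    exact fun u a b => tgr_shift m _ u a b
  rw [← hG] at hyy hyx hy0
  -- uniqueness of the period
  have huniq : ∀ a u u' : V, G.Reachable a (y + pr m u) → G.Reachable a (y + pr m u') → u = u' := by
    intro a u u' h3 h4
    by_contra hne
    refine hyy (u' - u) (sub_ne_zero.2 fun c => hne c.symm) ((hsh u _ _).1 ?_)
    have e1 : y + pr m (u' - u) + pr m u = y + pr m u' := by
      rw [pr_sub]
      abel
    rw [e1]
    exact h3.symm.trans h4
  let f : V → V := fun a =>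
    if hc : ∃ u : V, G.Reachable a (y + pr m u) then x + pr m (Classical.choose hc) else a
  have hf1 : ∀ a u : V, G.Reachable a (y + pr m u) → f a = x + pr m u := by
    intro a u h3
    have hc : ∃ u : V, G.Reachable a (y + pr m u) := ⟨u, h3⟩
    have h4 : f a = x + pr m (Classical.choose hc) := dif_pos hc
    rw [h4, huniq a _ _ (Classical.choose_spec hc) h3]
  have hf2 : ∀ a : V, (¬ ∃ u : V, G.Reachable a (y + pr m u)) → f a = a := fun a hc => dif_neg hc
  have hfy : ∀ u : V, f (y + pr m u) = x + pr m u := fun u => hf1 _ u (SimpleGraph.Reachable.refl _)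
  have hfx : ∀ u : V, f (x + pr m u) = x + pr m u := by
    intro u
    by_cases hc : ∃ u' : V, G.Reachable (x + pr m u) (y + pr m u')
    · obtain ⟨u', hu'⟩ := hc
      rw [hf1 _ u' hu']
      by_contra hne
      have hne' : u - u' ≠ 0 := by
        intro c
        rw [sub_eq_zero.1 c] at hne
        exact hne rfl
      refine hyx (u - u') hne' ((hsh u' _ _).1 ?_)
      have e1 : x + pr m (u - u') + pr m u' = x + pr m u := by
        rw [pr_sub]
        abel
      rw [e1]
      exact hu'.symm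
    · exact hf2 _ hc
  have hf0 : ∀ u : V, f (pr m u) = pr m u := by
    intro u
    refine hf2 _ ?_
    rintro ⟨u', hu'⟩
    refine hy0 (u - u') ((hsh u' _ _).1 ?_)
    have e1 : pr m (u - u') + pr m u' = pr m u := by
      rw [pr_sub]
      abel
    rw [e1]
    exact hu'.symm
  have h3 : G.Reachable (f 0) (f (pr m w)) := by
    rw [hG]
    refine contr f (fun e he => ?_) (fun u => ?_) hr
    · have hab : G.Reachable (ea e) (eb e) := by
        rw [hG]
        exact tgr_edge he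
      rw [← hG]
      by_cases hc : ∃ u : V, G.Reachable (ea e) (y + pr m u)
      · obtain ⟨u, hu⟩ := hc
        rw [hf1 _ u hu, hf1 _ u (hab.symm.trans hu)]
      · rw [hf2 _ hc, hf2 _ fun ⟨u, hu⟩ => hc ⟨u, hab.trans hu⟩]
        exact hab
    · rcases hxy with ⟨h4, h5⟩ | ⟨h4, h5⟩
      · rw [← h4, ← h5, hfx, hfy]
      · rw [← h4, ← h5, hfx, hfy]
  have h4 := hf0 0
  rw [pr_zero] at h4
  rw [h4, hf0, hG] at h3
  exact h2 ⟨w, hw, h3⟩

/-- both clusters are large -/
theorem T3_b {m : ℕ} {ω : Finset Edge} {e' : Edge} {d r : ℕ} (hv : nrm (ea e') = d) (hd : 5 ≤ d)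
    (hm : d ≤ m) (hr : r = (d + 2) / 3) (h : Piv e' (Gz m) ω) {x y : V} (hxy : (x = ea e' ∧ y = eb e') ∨ (x = eb e' ∧ y = ea e')) :
    ∃ z : V, (tgr m (ω.erase e')).Reachable y z ∧ (r : ℤ) ≤ nrm (z - ea e') := by
  by_contra hc
  push Not at hc
  have hx1 : nrm (x - ea e') ≤ 1 := NTi_end (by
    rcases hxy with h1 | h1
    · exact Or.inl h1.1
    · exact Or.inr h1.1)
  have hy1 : nrm (y - ea e') ≤ 1 := NTi_end (by
    rcases hxy with h1 | h1
    · exact Or.inr h1.2
    · exact Or.inl h1.2)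
  have far1 : ∀ a u : V, nrm (a - ea e') ≤ 1 → u ≠ 0 → ¬ (tgr m (ω.erase e')).Reachable y (a + pr m u) := by
    intro a u ha hu hR
    have h1 := hc _ hR
    have h2 := nrm_pr (m := m) hu
    have h3 := nrm_sub_le (pr m u) (-(a - ea e'))
    rw [nrm_neg] at h3
    have e1 : pr m u - -(a - ea e') = a + pr m u - ea e' := by abel
    rw [e1] at h3
    omega
  refine NTi_key h hxy (fun u hu => far1 y u hy1 hu) (fun u hu => far1 x u hx1 hu) fun u hR => ?_
  have h1 := hc _ hR
  have h2 := nrm_tor (m := m) (v := ea e') (by omega) (-u)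
  have e1 : ea e' + pr m (-u) = -(pr m u - ea e') := by
    rw [pr_neg]
    abel
  rw [e1, nrm_neg] at h2
  omega

private theorem NTi_ins {e : Edge} {ω F : Finset Edge} {u v : V} (he : e ∉ F)
    (h : Conn F (insert e ω) u v) : Conn F ω u v := by
  have e1 : insert e ω ∩ F = ω ∩ F := by
    ext a
    rw [mem_inter, mem_inter, mem_insert]
    constructor
    · rintro ⟨rfl | h1, h2⟩
      · exact absurd h2 he
      · exact ⟨h1, h2⟩
    · rintro ⟨h1, h2⟩
      exact ⟨Or.inr h1, h2⟩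
  unfold Conn at h ⊢
  rw [← e1]
  exact h

private theorem NTi_era {e : Edge} {ω F : Finset Edge} {u v : V}
    (h : Conn F (ω.erase e) u v) : Conn (F \ {e}) ω u v := by
  have e1 : ω.erase e ∩ F = ω ∩ (F \ {e}) := by
    ext a
    rw [mem_inter, mem_inter, mem_erase, mem_sdiff, mem_singleton]
    tauto
  unfold Conn at h ⊢
  rw [← e1]
  exact h

private theorem NTi_norm {v : V} {t : Bool} {d : ℕ} (hv : nrm v = d) :
    nrm (ea (v.1, v.2, t)) = d ∧ nrm (eb (v.1, v.2, t)) ≤ d + 1 := by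
  have h1 : ea (v.1, v.2, t) = v := rfl
  refine ⟨by rw [h1]; exact hv, ?_⟩
  have h2 := eb_eq (v.1, v.2, t)
  rw [h2, h1]
  have h3 := nrm_add_le v (eb ((0 : ℤ), (0 : ℤ), t))
  rw [eb_et, hv] at h3
  exact h3

theorem T3 {m : ℕ} {ω : Finset Edge} (hω : ω ⊆ TE m) {v : V} {t : Bool} {d r : ℕ} (hv : nrm v = d) (hd : 5 ≤ d) (hm : d ≤ m)
    (hr : r = (d + 2) / 3) (h : Piv (v.1, v.2, t) (Gz m) ω) :
    One r ω ∧ FourT t r (sh m (-v) ω) ∧ (2 * d ≤ m → One' (2 * d) m ω) := by
  obtain ⟨e', he'⟩ : ∃ e' : Edge, e' = (v.1, v.2, t) := ⟨_, rfl⟩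
  have hnorm := NTi_norm (t := t) hv
  rw [← he'] at h hnorm
  have hea : ea e' = v := by rw [he']; rfl
  have heb : eb e' = v + eb (et t) := by
    rw [eb_eq, hea, he']
    rfl
  obtain ⟨⟨w, hw, hR⟩, _⟩ := id h
  have hpr := nrm_pr (m := m) hw
  have h0 : nrm (0 : V) = 0 := nrm_zero
  refine ⟨?_, ?_, fun h2d => ?_⟩
  · obtain ⟨z, hz1, hz2⟩ := exit1 (m := m) (r := r) (by omega) hR (by omega) (by omega)
    refine ⟨z, hz1, NTi_ins ?_ hz2⟩
    rw [mem_bx]
    intro hc
    omega
  · -- recentre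
    have heT : e' ∈ TE m := by
      rw [mem_TE', hnorm.1]
      exact_mod_cast hm
    have h00 : et t ∈ TE m := by
      rw [mem_TE']
      show nrm ((0 : ℤ), (0 : ℤ)) ≤ m
      have : nrm ((0 : ℤ), (0 : ℤ)) = 0 := nrm_zero
      omega
    have hst : st m (-v) e' = et t := by
      have h3 : st m v (et t) = e' := by
        unfold st
        have h4 : shv v (et t) = e' := by
          rw [he']
          show ((0 : ℤ) + v.1, (0 : ℤ) + v.2, t) = (v.1, v.2, t)
          rw [zero_add, zero_add]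
        rw [h4, cm_self heT]
      rw [← h3]
      exact st_neg v h00
    have hera : sh m (-v) (ω.erase e') = (sh m (-v) ω).erase (et t) := by
      rw [sh_erase (-v) hω heT, hst]
    have hreach : ∀ a b : V, (tgr m ((sh m (-v) ω).erase (et t))).Reachable (a + -v) (b + -v) ↔
        (tgr m (ω.erase e')).Reachable a b := by
      intro a b
      rw [← hera]
      exact tgr_sh (-v) ((Finset.erase_subset _ _).trans hω) a b
    have hcon : ∀ y z : V, (tgr m (ω.erase e')).Reachable y z → nrm (y + -v) ≤ 1 → (r : ℤ) ≤ nrm (z - ea e') →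
        ∃ u : V, nrm u = r ∧ Conn (bx r \ {et t}) (sh m (-v) ω) (y + -v) u := by
      intro y z h1 h2 h3
      rw [hea, sub_eq_add_neg] at h3
      obtain ⟨u, hu1, hu2⟩ := exit1 (m := m) (r := r) (by omega) ((hreach y z).2 h1) (by omega) h3
      exact ⟨u, hu1, NTi_era hu2⟩
    have ev : v + -v = (0, 0) := by rw [add_neg_cancel]; rfl
    have ee : eb e' + -v = eb (et t) := by rw [heb]; abel
    refine ⟨?_, ?_, ?_⟩
    · obtain ⟨z, hz1, hz2⟩ := T3_b (x := eb e') (y := ea e') (by rw [hnorm.1]) hd hm hr h (Or.inr ⟨rfl, rfl⟩)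
      rw [hea] at hz1
      have h3 := hcon v z hz1 (by rw [add_neg_cancel, h0]; exact zero_le_one) hz2
      rw [ev] at h3
      exact h3
    · obtain ⟨z, hz1, hz2⟩ := T3_b (x := ea e') (y := eb e') (by rw [hnorm.1]) hd hm hr h (Or.inl ⟨rfl, rfl⟩)
      have h3 := hcon (eb e') z hz1 (by rw [ee]; exact (eb_et t).le) hz2
      rw [ee] at h3
      exact h3
    · intro hc
      have hsub : bx r \ {et t} ⊆ TE m := Finset.sdiff_subset.trans (bx_sub_TE (by omega))
      have h3 := conn_tgr hsub hc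
      have h4 : (tgr m ((sh m (-v) ω).erase (et t))).Reachable (0, 0) (eb (et t)) := by
        refine SimpleGraph.Reachable.mono (tgr_mono ?_) h3
        intro a ha
        rw [mem_inter, mem_sdiff, mem_singleton] at ha
        rw [mem_erase]
        exact ⟨ha.2.2, ha.1⟩
      rw [← ev, ← ee, hreach, ← hea] at h4
      exact T3_a h h4
  · obtain ⟨a, z, ha1, hz1, hz2, _⟩ := exit2 (m := m) (r := 2 * d) (R := m) h2d le_rfl hR
      (by push_cast; omega) (by omega)
    refine ⟨a, z, ha1, hz1, NTi_ins ?_ hz2⟩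
    unfold an
    rw [mem_sdiff]
    rintro ⟨_, hc⟩
    apply hc
    rw [mem_bx]
    push_cast
    omega

theorem T3_pr {q : ℝ} (h0 : 0 ≤ q) (h1 : q ≤ 1) {m : ℕ} {e : Edge} {d r : ℕ} (hv : nrm (ea e) = d) (hd : 5 ≤ d) (hm : d ≤ m)
    (hr : r = (d + 2) / 3) :
    IPC.Pr q (TE m) (Piv e (Gz m)) ≤ p1 q r * p4 q r ∧
      (2 * d ≤ m → IPC.Pr q (TE m) (Piv e (Gz m)) ≤ p1 q r * p4 q r * p1' q (2 * d) m) := by
  obtain ⟨v, t, hvt, hv'⟩ : ∃ (v : V) (t : Bool), e = (v.1, v.2, t) ∧ nrm v = d := ⟨(e.1, e.2.1), e.2.2, rfl, hv⟩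
  have hr2 : 2 * r < d := by omega
  have hrm : r ≤ m := by omega
  have hbT : bx r ⊆ TE m := bx_sub_TE hrm
  have hbI : (bx r).image (st m v) ⊆ TE m := by
    intro a ha
    obtain ⟨b, _, rfl⟩ := Finset.mem_image.1 ha
    exact st_mem m v b
  have hdis : Disjoint (bx r) ((bx r).image (st m v)) := by
    rw [Finset.disjoint_left]
    intro a ha hc
    obtain ⟨b, hb, rfl⟩ := Finset.mem_image.1 hc
    exact far hv' hm hr2 hb ha
  have hF : ∀ ω : Finset Edge, FourT t r ω ↔ FourT t r (ω ∩ bx r) := fun ω => dep_FourT (Finset.Subset.refl _) ω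
  have hF2 : ∀ ω : Finset Edge, ω ⊆ TE m →
      (FourT t r (sh m (-v) ω) ↔ FourT t r (sh m (-v) (ω ∩ (bx r).image (st m v)))) :=
    fun ω hω => dep_sh v hbT hF hω
  have hP2 : IPC.Pr q (TE m) (fun ω => FourT t r (sh m (-v) ω)) = p4 q r := by
    rw [Pr_FT q hrm v hF, p4_FT]
  have hind := IPC.Pr_indep q hbT hbI hdis (One r) (fun ω => FourT t r (sh m (-v) ω))
    (fun ω _ => dep_One (Finset.Subset.refl _) ω) hF2
  rw [p1_tor q hrm, hP2] at hind
  refine ⟨?_, fun h2d => ?_⟩
  · rw [← hind]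
    refine IPC.Pr_mono h0 h1 _ fun ω hω h => ?_
    rw [hvt] at h
    obtain ⟨a1, a2, _⟩ := T3 hω hv' hd hm hr h
    exact ⟨a1, a2⟩
  · have hub : bx r ∪ (bx r).image (st m v) ⊆ bx (2 * d) :=
      Finset.union_subset (bx_mono (by omega)) (far' hv' h2d hr2)
    have hdis2 : Disjoint (bx r ∪ (bx r).image (st m v)) (an (2 * d) m) := by
      rw [Finset.disjoint_left]
      intro a ha hc
      unfold an at hc
      exact (Finset.mem_sdiff.1 hc).2 (hub ha)
    have hanT : an (2 * d) m ⊆ TE m := Finset.sdiff_subset.trans (bx_sub_TE le_rfl)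
    have hA : ∀ ω : Finset Edge, ω ⊆ TE m → ((One r ω ∧ FourT t r (sh m (-v) ω)) ↔
        (One r (ω ∩ (bx r ∪ (bx r).image (st m v))) ∧
          FourT t r (sh m (-v) (ω ∩ (bx r ∪ (bx r).image (st m v)))))) := by
      intro ω hω
      have b1 : One r ω ↔ One r (ω ∩ (bx r ∪ (bx r).image (st m v))) :=
        dep_One Finset.subset_union_left ω
      have b2 : FourT t r (sh m (-v) ω) ↔
          FourT t r (sh m (-v) (ω ∩ (bx r ∪ (bx r).image (st m v)))) := by
        rw [hF2 ω hω, hF2 (ω ∩ (bx r ∪ (bx r).image (st m v))) (Finset.inter_subset_left.trans hω)]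
        have e1 : ω ∩ (bx r ∪ (bx r).image (st m v)) ∩ (bx r).image (st m v) =
            ω ∩ (bx r).image (st m v) := by
          rw [Finset.inter_assoc, Finset.inter_eq_right.2 Finset.subset_union_right]
        rw [e1]
      exact and_congr b1 b2
    have hind2 := IPC.Pr_indep q (Finset.union_subset hbT hbI) hanT hdis2
      (fun ω => One r ω ∧ FourT t r (sh m (-v) ω)) (One' (2 * d) m) hA
      (fun ω _ => dep_One' (Finset.Subset.refl _) ω)
    rw [hind, p1'_tor q le_rfl] at hind2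
    rw [← hind2]
    refine IPC.Pr_mono h0 h1 _ fun ω hω h => ?_
    rw [hvt] at h
    obtain ⟨a1, a2, a3⟩ := T3 hω hv' hd hm hr h
    exact ⟨⟨a1, a2⟩, a3 h2d⟩

theorem Gz_One {m : ℕ} {ω : Finset Edge} (h : Gz m ω) : One m ω := by
  obtain ⟨w, hw, hR⟩ := h
  have hpr := nrm_pr (m := m) hw
  have h0 : nrm (0 : V) = 0 := nrm_zero
  obtain ⟨z, hz1, hz2⟩ := exit1 (m := m) (r := m) le_rfl hR (by omega) (by omega)
  exact ⟨z, hz1, hz2⟩

end FKN
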