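import Mathlib
import Pool.Agent.Lib.MP_216314_pr.N.GB

/-!
# Crossing probabilities in the plane: position, monotonicity, scales
-/

set_option autoImplicit false

namespace FKN

open Finset FKI FKP

theorem Pr_HC (q : ℝ) (x y : ℤ) (a b : ℕ) :
    IPC.Pr q (box x (x + a) y (y + b)) (HC x (x + a) y (y + b)) = hq q a b :=
  pq_HC q a b rfl rfl (Finset.Subset.refl _)

theorem Pr_VC (q : ℝ) (x y : ℤ) (a b : ℕ) :
    IPC.Pr q (box x (x + a) y (y + b)) (VC x (x + a) y (y + b)) = hq q b a :=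
  pq_VC q a b rfl rfl (Finset.Subset.refl _)

theorem hq_bd {q : ℝ} (h0 : 0 ≤ q) (h1 : q ≤ 1) (a b : ℕ) : 0 ≤ hq q a b ∧ hq q a b ≤ 1 :=
  ⟨hq_nonneg h0 h1 a b, hq_le_one h0 h1 a b⟩

theorem hq_anti_a {q : ℝ} (h0 : 0 ≤ q) (h1 : q ≤ 1) {a a' : ℕ} (h : a ≤ a') (b : ℕ) : hq q a' b ≤ hq q a b :=
  hq_anti h0 h1 h

theorem hq_mono_b {q : ℝ} (h0 : 0 ≤ q) (h1 : q ≤ 1) (a : ℕ) {b b' : ℕ} (h : b ≤ b') : hq q a b ≤ hq q a b' :=
  hq_mono h0 h1 h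

theorem hq_cont (a b : ℕ) : Continuous (fun q : ℝ => hq q a b) :=
  IPC.Pr_continuous _ _

theorem RS_mono {ε q : ℝ} {N N' : ℕ} (h : N' ≤ N) (hR : RS ε q N) : RS ε q N' :=
  fun n h1 h2 => hR n h1 (h2.trans h)

theorem RS_weak {ε ε' q : ℝ} {N : ℕ} (h : ε' ≤ ε) (hR : RS ε q N) : RS ε' q N :=
  fun n h1 h2 => ⟨h.trans (hR n h1 h2).1, by linarith [(hR n h1 h2).2]⟩

theorem RS_q (hD : DualIn) {ε t : ℝ} (ht0 : 0 ≤ t) (ht : t ≤ 1 / 2) {N : ℕ}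
    (h : ∀ n : ℕ, 1 ≤ n → n ≤ N → hq (1 / 2 + t) n n ≤ 1 - ε) {q : ℝ} (h1 : 1 / 2 - t ≤ q) (h2 : q ≤ 1 / 2 + t) :
    RS ε q N := by
  intro n hn hN
  have hu := h n hn hN
  have hq0 : 0 ≤ q := by linarith
  have hq1 : q ≤ 1 := by linarith
  refine ⟨?_, (hq_mono_q hq0 h2 (by linarith) n n).trans hu⟩
  have e1 : hq (1 / 2 - t) n n ≤ hq q n n := hq_mono_q (by linarith) h1 hq1 n n
  have e2 : hq (1 / 2 - t) (n + 1) n ≤ hq (1 / 2 - t) n n :=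
    hq_anti (by linarith) (by linarith) (Nat.le_succ n)
  have e3 := hD (1 / 2 - t) n n
  have e4 : (1 : ℝ) - (1 / 2 - t) = 1 / 2 + t := by ring
  rw [e4] at e3
  have e5 : hq (1 / 2 + t) (n + 1) n ≤ hq (1 / 2 + t) n n :=
    hq_anti (by linarith) (by linarith) (Nat.le_succ n)
  linarith

theorem hq_half (hD : DualIn) (n : ℕ) : hq (1 / 2) (n + 1) n = 1 / 2 ∧ 1 / 2 ≤ hq (1 / 2) n n := by
  have e3 := hD (1 / 2) n n
  have e4 : (1 : ℝ) - 1 / 2 = 1 / 2 := by norm_num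
  rw [e4] at e3
  have e5 : hq (1 / 2) (n + 1) n = 1 / 2 := by linarith
  refine ⟨e5, ?_⟩
  have := hq_anti (q := 1 / 2) (by norm_num) (by norm_num) (a := n + 1) (a' := n) (b := n) (Nat.le_succ n)
  linarith

end FKN
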