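import Mathlib
import Pool.Agent.Lib.MP_216314_pr.N.NTg
import Pool.Agent.Lib.MP_216314_pr.N.NTi
import Pool.Agent.Lib.MP_216314_pr.N.NTj
import Pool.Agent.Lib.MP_216314_pr.N.NTm

/-!
# JOB NTn: winding probabilities from crossing probabilities (about 200 lines)

Probabilities of the five events of `T5b_comb` on `TE m`: `Pr_sh` (for `h2`), `IPC.Pr_restrict` to the box (`⊆ TE m`; `dep_HC`, `dep_VC`), `Pr_HC`, `Pr_VC` (write the box as `box x (x + a) y (y + b)`): `hq q (2 m) m` for `h1, h2, h3, h5` and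
`hq q (2 m) (m - 1)` for `h4` (`m ≥ 2`).
* `T5a`: `net_W` and the union bound for the complements of four events (`IPC.Pr_not`, `Pr_or_le`); `hq q (3 (m-1)) (m-1) ≤ hq q (2 m) (m - 1) ≤ hq q (2 m) m` for `m ≥ 3` (`hq_anti_a`, `hq_mono_b`).
* `FW_ge`: `RswIn` with `κ = 4` (`2 m ≤ 4 (m - 1)` for `m ≥ 2`) and Harris (`harris_list`; the events are increasing: `sh_mono`, `inc_HC`, `inc_VC`): `FW q m ≥ c^4`.  For `m ≤ 1`: all edges open (`fin_full`, `Gz_full` gives `W`): `≥ (1/4)^18`.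
* `T5b`: Harris for `One m` and the five events.  `m ≤ 1`: `fin_full`, `Gz_full`, `p1 ≤ 1`.  Second part: `Gz_One`, `p1_tor`.
-/

set_option autoImplicit false

namespace FKN

open Finset FKI FKP

/-- the Harris inequality for two increasing events, from the form for decreasing events -/
private theorem NTn_harris {q : ℝ} (h0 : 0 ≤ q) (h1 : q ≤ 1) (E : Finset Edge) {A B : Finset Edge → Prop}
    (hA : IPC.Inc A) (hB : IPC.Inc B) : IPC.Pr q E A * IPC.Pr q E B ≤ IPC.Pr q E (fun ω => A ω ∧ B ω) := by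
  have h := harris_dec h0 h1 E hA hB
  have e1 := IPC.Pr_split q E A B
  have e2 := IPC.Pr_split q E (fun ω => ¬ B ω) A
  have e3 := IPC.Pr_not q E B
  have e4 : IPC.Pr q E (fun ω => ¬ B ω ∧ A ω) = IPC.Pr q E (fun ω => A ω ∧ ¬ B ω) :=
    IPC.Pr_congr q E fun ω _ => and_comm
  have e5 : IPC.Pr q E (fun ω => ¬ B ω ∧ ¬ A ω) = IPC.Pr q E (fun ω => ¬ A ω ∧ ¬ B ω) :=
    IPC.Pr_congr q E fun ω _ => and_comm
  rw [e4, e5, e3] at e2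
  have e6 : (1 - IPC.Pr q E A) * (1 - IPC.Pr q E B)
      = 1 - IPC.Pr q E A - IPC.Pr q E B + IPC.Pr q E A * IPC.Pr q E B := by ring
  linarith

private theorem NTn_inc_and {A B : Finset Edge → Prop} (hA : IPC.Inc A) (hB : IPC.Inc B) :
    IPC.Inc (fun ω => A ω ∧ B ω) :=
  fun ω ω' hs h => ⟨hA ω ω' hs h.1, hB ω ω' hs h.2⟩

/-- both of two events -/
private theorem NTn_and {q : ℝ} (h0 : 0 ≤ q) (h1 : q ≤ 1) (E : Finset Edge) (A B : Finset Edge → Prop) :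
    IPC.Pr q E A + IPC.Pr q E B - 1 ≤ IPC.Pr q E (fun ω => A ω ∧ B ω) := by
  have e1 := IPC.Pr_split q E A B
  have e2 : IPC.Pr q E (fun ω => A ω ∧ ¬ B ω) ≤ IPC.Pr q E (fun ω => ¬ B ω) :=
    IPC.Pr_mono h0 h1 E fun ω _ h => h.2
  have e3 := IPC.Pr_not q E B
  linarith

private theorem NTn_box {m : ℕ} {x1 x2 y1 y2 : ℤ} (g1 : -(m : ℤ) ≤ x1) (g2 : x2 ≤ m) (g3 : -(m : ℤ) ≤ y1)
    (g4 : y2 ≤ m) : box x1 x2 y1 y2 ⊆ TE m := by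
  intro e he
  rw [mem_box] at he
  rw [mem_TE]
  rcases he with ⟨_, h1, h2, h3, h4⟩ | ⟨_, h1, h2, h3, h4⟩
  · exact ⟨⟨by omega, by omega⟩, ⟨by omega, by omega⟩⟩
  · exact ⟨⟨by omega, by omega⟩, ⟨by omega, by omega⟩⟩

private theorem NTn_HC (q : ℝ) {m : ℕ} {x1 x2 y1 y2 : ℤ} {a b : ℕ} (hx : x2 = x1 + a) (hy : y2 = y1 + b)
    (g1 : -(m : ℤ) ≤ x1) (g2 : x2 ≤ m) (g3 : -(m : ℤ) ≤ y1) (g4 : y2 ≤ m) :
    IPC.Pr q (TE m) (HC x1 x2 y1 y2) = hq q a b := by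
  subst hx hy
  rw [IPC.Pr_restrict q (NTn_box g1 g2 g3 g4) _ (fun ω _ => dep_HC (Finset.Subset.refl _) ω), Pr_HC]

private theorem NTn_VC (q : ℝ) {m : ℕ} {x1 x2 y1 y2 : ℤ} {a b : ℕ} (hx : x2 = x1 + a) (hy : y2 = y1 + b)
    (g1 : -(m : ℤ) ≤ x1) (g2 : x2 ≤ m) (g3 : -(m : ℤ) ≤ y1) (g4 : y2 ≤ m) :
    IPC.Pr q (TE m) (VC x1 x2 y1 y2) = hq q b a := by
  subst hx hy
  rw [IPC.Pr_restrict q (NTn_box g1 g2 g3 g4) _ (fun ω _ => dep_VC (Finset.Subset.refl _) ω), Pr_VC]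

private theorem NTn_p1 (q : ℝ) (m : ℕ) : IPC.Pr q (TE m) (VC 0 m (-m) m) = hq q (2 * m) m :=
  NTn_VC q (a := m) (b := 2 * m) (by ring) (by push_cast; ring) (by omega) (by omega) (by omega) (by omega)

private theorem NTn_p2 (q : ℝ) (m : ℕ) :
    IPC.Pr q (TE m) (fun ω => VC 0 m (-m) m (sh m (0, -(m : ℤ)) ω)) = hq q (2 * m) m := by
  rw [Pr_sh q m (0, -(m : ℤ)) (VC 0 m (-m) m)]
  exact NTn_p1 q m

private theorem NTn_p3 (q : ℝ) (m : ℕ) : IPC.Pr q (TE m) (HC (-m) m 0 m) = hq q (2 * m) m :=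
  NTn_HC q (a := 2 * m) (b := m) (by push_cast; ring) (by ring) (by omega) (by omega) (by omega) (by omega)

private theorem NTn_p4 (q : ℝ) {m : ℕ} (hm : 1 ≤ m) :
    IPC.Pr q (TE m) (HC (-m) m (-m) (-1)) = hq q (2 * m) (m - 1) :=
  NTn_HC q (a := 2 * m) (b := m - 1) (by push_cast; ring) (by omega) (by omega) (by omega) (by omega) (by omega)

private theorem NTn_p5 (q : ℝ) (m : ℕ) : IPC.Pr q (TE m) (VC (-m) 0 (-m) m) = hq q (2 * m) m :=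
  NTn_VC q (a := m) (b := 2 * m) (by ring) (by push_cast; ring) (by omega) (by omega) (by omega) (by omega)

private theorem NTn_i2 (m : ℕ) : IPC.Inc (fun ω => VC 0 m (-m) m (sh m (0, -(m : ℤ)) ω)) :=
  fun _ _ hs h => inc_VC _ _ _ _ _ _ (sh_mono _ hs) h

private theorem NTn_One_inc (m : ℕ) : IPC.Inc (One m) := by
  rintro ω ω' hs ⟨u, hu, hc⟩
  exact ⟨u, hu, hc.mono (Finset.Subset.refl _) hs⟩

/-- the four crossings -/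
private def NTn_A (m : ℕ) (ω : Finset Edge) : Prop :=
  (VC 0 m (-m) m ω ∧ VC 0 m (-m) m (sh m (0, -(m : ℤ)) ω)) ∧ (HC (-m) m 0 m ω ∧ HC (-m) m (-m) (-1) ω)

private theorem NTn_A_inc (m : ℕ) : IPC.Inc (NTn_A m) :=
  NTn_inc_and (NTn_inc_and (inc_VC _ _ _ _) (NTn_i2 m)) (NTn_inc_and (inc_HC _ _ _ _) (inc_HC _ _ _ _))

private theorem NTn_A_ge {q c : ℝ} (h0 : 0 ≤ q) (h1 : q ≤ 1) (hc : 0 ≤ c) {m : ℕ} (hm : 1 ≤ m)
    (e1 : c ≤ hq q (2 * m) m) (e2 : c ≤ hq q (2 * m) (m - 1)) : c ^ 4 ≤ IPC.Pr q (TE m) (NTn_A m) := by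
  have a1 := NTn_harris h0 h1 (TE m) (A := VC 0 m (-m) m) (B := fun ω => VC 0 m (-m) m (sh m (0, -(m : ℤ)) ω))
    (inc_VC _ _ _ _) (NTn_i2 m)
  have a2 := NTn_harris h0 h1 (TE m) (A := HC (-m) m 0 m) (B := HC (-m) m (-m) (-1))
    (inc_HC _ _ _ _) (inc_HC _ _ _ _)
  rw [NTn_p1, NTn_p2] at a1
  rw [NTn_p3, NTn_p4 q hm] at a2
  have a3 := NTn_harris h0 h1 (TE m) (A := fun ω => VC 0 m (-m) m ω ∧ VC 0 m (-m) m (sh m (0, -(m : ℤ)) ω))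
    (B := fun ω => HC (-m) m 0 m ω ∧ HC (-m) m (-m) (-1) ω)
    (NTn_inc_and (inc_VC _ _ _ _) (NTn_i2 m)) (NTn_inc_and (inc_HC _ _ _ _) (inc_HC _ _ _ _))
  have b1 : c * c ≤ hq q (2 * m) m * hq q (2 * m) m := mul_le_mul e1 e1 hc (le_trans hc e1)
  have b2 : c * c ≤ hq q (2 * m) m * hq q (2 * m) (m - 1) := mul_le_mul e1 e2 hc (le_trans hc e1)
  have b3 : (c * c) * (c * c) ≤ IPC.Pr q (TE m) (fun ω => VC 0 m (-m) m ω ∧ VC 0 m (-m) m (sh m (0, -(m : ℤ)) ω)) *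
      IPC.Pr q (TE m) (fun ω => HC (-m) m 0 m ω ∧ HC (-m) m (-m) (-1) ω) :=
    mul_le_mul (b1.trans a1) (b2.trans a2) (mul_nonneg hc hc) (le_trans (mul_nonneg hc hc) (b1.trans a1))
  calc c ^ 4 = (c * c) * (c * c) := by ring
    _ ≤ _ := b3
    _ ≤ _ := a3

/-- all edges open on a small torus -/
private theorem NTn_small {q : ℝ} (hq4 : 1 / 4 ≤ q) (h1 : q ≤ 1) {m : ℕ} (hm : m ≤ 1) {A : Finset Edge → Prop}
    (hA : A (TE m)) : ((1 : ℝ) / 4) ^ 18 ≤ IPC.Pr q (TE m) A := by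
  have h0 : 0 ≤ q := le_trans (by norm_num) hq4
  have h2 := fin_full h0 h1 (TE m) hA
  have h3 : (TE m).card ≤ 18 := by
    rw [card_TE]
    have h4 : 2 * m + 1 ≤ 3 := by omega
    calc 2 * (2 * m + 1) ^ 2 ≤ 2 * 3 ^ 2 := Nat.mul_le_mul_left 2 (Nat.pow_le_pow_left h4 2)
      _ = 18 := by norm_num
  calc ((1 : ℝ) / 4) ^ 18 ≤ ((1 : ℝ) / 4) ^ (TE m).card := pow_le_pow_of_le_one (by norm_num) (by norm_num) h3
    _ ≤ q ^ (TE m).card := pow_le_pow_left₀ (by norm_num) hq4 _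
    _ ≤ _ := h2

private theorem NTn_W_full (m : ℕ) : W m (TE m) := by
  obtain ⟨w, hw, h⟩ := Gz_full m
  exact ⟨0, w, hw, by rw [zero_add]; exact h⟩

/-- the crossing probabilities at scale `m` -/
private theorem NTn_rsw {ε c q : ℝ} (hc : ∀ (q : ℝ) (N : ℕ), 0 ≤ q → q ≤ 1 → RS ε q N →
    ∀ a b : ℕ, 1 ≤ a → 1 ≤ b → (a ≤ 4 * b → b ≤ 4 * N → c ≤ hq q a b) ∧ (b ≤ 4 * a → a ≤ 4 * N → hq q a b ≤ 1 - c))
    (h0 : 0 ≤ q) (h1 : q ≤ 1) {m : ℕ} (hm : 2 ≤ m) (hS : RS ε q m) :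
    c ≤ hq q (2 * m) m ∧ c ≤ hq q (2 * m) (m - 1) :=
  ⟨(hc q m h0 h1 hS (2 * m) m (by omega) (by omega)).1 (by omega) (by omega),
    (hc q m h0 h1 hS (2 * m) (m - 1) (by omega) (by omega)).1 (by omega) (by omega)⟩

theorem T5a {q : ℝ} (h0 : 0 ≤ q) (h1 : q ≤ 1) {m : ℕ} (hm : 3 ≤ m) {δ : ℝ} (h : 1 - δ ≤ hq q (3 * (m - 1)) (m - 1)) :
    1 - 4 * δ ≤ FW q m := by
  have h2 : hq q (3 * (m - 1)) (m - 1) ≤ hq q (2 * m) (m - 1) := hq_anti_a h0 h1 (by omega) _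
  have h3 : hq q (2 * m) (m - 1) ≤ hq q (2 * m) m := hq_mono_b h0 h1 _ (by omega)
  have a1 := NTn_and h0 h1 (TE m) (VC 0 m (-m) m) (fun ω => VC 0 m (-m) m (sh m (0, -(m : ℤ)) ω))
  have a2 := NTn_and h0 h1 (TE m) (HC (-m) m 0 m) (HC (-m) m (-m) (-1))
  rw [NTn_p1, NTn_p2] at a1
  rw [NTn_p3, NTn_p4 q (by omega)] at a2
  have a3 := NTn_and h0 h1 (TE m) (fun ω => VC 0 m (-m) m ω ∧ VC 0 m (-m) m (sh m (0, -(m : ℤ)) ω))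
    (fun ω => HC (-m) m 0 m ω ∧ HC (-m) m (-m) (-1) ω)
  have a4 : IPC.Pr q (TE m) (fun ω => (VC 0 m (-m) m ω ∧ VC 0 m (-m) m (sh m (0, -(m : ℤ)) ω)) ∧
      (HC (-m) m 0 m ω ∧ HC (-m) m (-m) (-1) ω)) ≤ FW q m :=
    IPC.Pr_mono h0 h1 (TE m) fun ω hω hh => net_W hω hh.1.1 hh.1.2 hh.2.1 hh.2.2
  linarith

theorem FW_ge (hR : RswIn) {ε : ℝ} (hε : 0 < ε) : ∃ c : ℝ, 0 < c ∧ ∀ (q : ℝ) (m : ℕ), 1 / 4 ≤ q → q ≤ 1 → RS ε q m →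
    c ≤ FW q m := by
  obtain ⟨c, hc0, hc⟩ := hR ε hε 4
  refine ⟨min (c ^ 4) (((1 : ℝ) / 4) ^ 18), lt_min (pow_pos hc0 4) (by positivity), ?_⟩
  intro q m hq4 h1 hS
  have h0 : 0 ≤ q := le_trans (by norm_num) hq4
  by_cases hm : 2 ≤ m
  · obtain ⟨e1, e2⟩ := NTn_rsw hc h0 h1 hm hS
    refine le_trans (min_le_left _ _) ?_
    refine le_trans (NTn_A_ge h0 h1 hc0.le (by omega) e1 e2) ?_
    exact IPC.Pr_mono h0 h1 (TE m) fun ω hω hh => net_W hω hh.1.1 hh.1.2 hh.2.1 hh.2.2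
  · refine le_trans (min_le_right _ _) ?_
    exact NTn_small hq4 h1 (by omega) (NTn_W_full m)

theorem T5b (hR : RswIn) {ε : ℝ} (hε : 0 < ε) : ∃ C : ℝ, 0 < C ∧ ∀ (q : ℝ) (m : ℕ), 1 / 4 ≤ q → q ≤ 1 → RS ε q m →
    p1 q m ≤ C * FG q m := by
  obtain ⟨c, hc0, hc⟩ := hR ε hε 4
  have hc' : 0 < min (c ^ 5) (((1 : ℝ) / 4) ^ 18) := lt_min (pow_pos hc0 5) (by positivity)
  refine ⟨1 / min (c ^ 5) (((1 : ℝ) / 4) ^ 18), one_div_pos.2 hc', ?_⟩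
  intro q m hq4 h1 hS
  have h0 : 0 ≤ q := le_trans (by norm_num) hq4
  obtain ⟨g1, g2⟩ := p1_nonneg h0 h1 m
  rw [one_div, ← div_eq_inv_mul, le_div_iff₀ hc']
  by_cases hm : 2 ≤ m
  · obtain ⟨e1, e2⟩ := NTn_rsw hc h0 h1 hm hS
    have b1 := NTn_A_ge h0 h1 hc0.le (by omega) e1 e2
    have b2 := NTn_harris h0 h1 (TE m) (A := NTn_A m) (B := VC (-m) 0 (-m) m) (NTn_A_inc m) (inc_VC _ _ _ _)
    rw [NTn_p5] at b2
    have b3 : c ^ 5 ≤ IPC.Pr q (TE m) (fun ω => NTn_A m ω ∧ VC (-m) 0 (-m) m ω) := by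
      refine le_trans ?_ b2
      calc c ^ 5 = c ^ 4 * c := by ring
        _ ≤ _ := mul_le_mul b1 e1 hc0.le (le_trans (pow_nonneg hc0.le 4) b1)
    have b4 := NTn_harris h0 h1 (TE m) (A := One m) (B := fun ω => NTn_A m ω ∧ VC (-m) 0 (-m) m ω)
      (NTn_One_inc m) (NTn_inc_and (NTn_A_inc m) (inc_VC _ _ _ _))
    rw [p1_tor q (le_refl m)] at b4
    have b5 : IPC.Pr q (TE m) (fun ω => One m ω ∧ (NTn_A m ω ∧ VC (-m) 0 (-m) m ω)) ≤ FG q m :=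
      IPC.Pr_mono h0 h1 (TE m) fun ω hω hh =>
        T5b_comb (by omega) hω hh.2.1.1.1 hh.2.1.1.2 hh.2.1.2.1 hh.2.1.2.2 hh.2.2 hh.1
    calc p1 q m * min (c ^ 5) (((1 : ℝ) / 4) ^ 18) ≤ p1 q m * c ^ 5 :=
          mul_le_mul_of_nonneg_left (min_le_left _ _) g1
      _ ≤ p1 q m * IPC.Pr q (TE m) (fun ω => NTn_A m ω ∧ VC (-m) 0 (-m) m ω) :=
          mul_le_mul_of_nonneg_left b3 g1
      _ ≤ _ := b4
      _ ≤ _ := b5
  · have b1 : ((1 : ℝ) / 4) ^ 18 ≤ FG q m := NTn_small hq4 h1 (by omega) (Gz_full m)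
    calc p1 q m * min (c ^ 5) (((1 : ℝ) / 4) ^ 18) ≤ 1 * min (c ^ 5) (((1 : ℝ) / 4) ^ 18) :=
          mul_le_mul_of_nonneg_right g2 hc'.le
      _ ≤ ((1 : ℝ) / 4) ^ 18 := by rw [one_mul]; exact min_le_right _ _
      _ ≤ _ := b1

theorem FG_le {q : ℝ} (h0 : 0 ≤ q) (h1 : q ≤ 1) (m : ℕ) : FG q m ≤ p1 q m := by
  rw [← p1_tor q (le_refl m)]
  exact IPC.Pr_mono h0 h1 (TE m) fun ω _ h => Gz_One h

theorem FG_pos {q : ℝ} (h0 : 0 < q) (h1 : q ≤ 1) (m : ℕ) : 0 < FG q m := by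
  have h2 := fin_full h0.le h1 (TE m) (Gz_full m)
  exact lt_of_lt_of_le (pow_pos h0 _) h2

end FKN
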