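import Mathlib
import Pool.Agent.Lib.MP_216314_pr.N.NDefB
import Pool.Agent.Lib.MP_216314_pr.N.NTn
import Pool.Agent.Lib.MP_216314_pr.N.NAa

/-!
# JOB NAb: differential inequalities for `rho` and `FG`, derivative of `FW` (about 200 lines)

* `FW_deriv`: `deriv_inc` (`W_inc`), every term is `rho q m` (`rho_all`), `card_TE`.
* `p4_rho`: second part of `SepIn` with `r = m` (`m ≤ K * m` since `K ≥ 6`).
* `rho_deriv`: `deriv_abs` for `B = Piv e0 (W m)`, `tor_sum` with `F e = Pr (PivB e B)`, bound `B := 8 rho` (`piv_fin`), `g = p4 q`, `D := C rho` (constant `C` of `SepIn`): for `d = nrm (ea e) ≥ 5` (`d ≤ m` by `mem_TE'`), `r = (d + 2) / 3`: if `K r ≤ m` then `2 d ≤ 6 r ≤ K r ≤ m`,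
  `T2_pr`: `≤ p4 q r * p4 q r * p4' q (2 d) m ≤ p4 q r * (p4 q r * p4' q (K r) m)` (`p4'_mono`, inner radius `2 d ≤ K r`) `≤ p4 q r * (C rho)`; if `m < K r`: `≤ p4 q r * p4 q r ≤ p4 q r * (C rho)`.
  Total `≤ 1296 rho + 216 C rho ∑ r p4 q r`.
* `FG_deriv`: the same with `deriv_inc` (`Gz_inc`), `T3_pr`, `piv_fin'`: `2 d ≤ m`: `≤ p1 q r * p4 q r * p1' q (2 d) m`, `QmIn` with `K = 6`, `R = 2 d ≤ 6 r`: `p1 q r * p1' q (2 d) m ≤ C p1 q m ≤ C C' FG q m` (`T5b`); `m < 2 d`: `≤ p1 q r * p4 q r`,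
  `QmIn` with `R = m ≤ 6 r` and `p1'_self`: `p1 q r ≤ C p1 q m`.
-/

set_option autoImplicit false

namespace FKN

open Finset FKI FKP

theorem FW_deriv (m : ℕ) (q : ℝ) : HasDerivAt (fun x : ℝ => FW x m) (2 * (2 * (m : ℝ) + 1) ^ 2 * rho q m) q := by
  have h1 := deriv_inc (TE m) (W_inc m) q
  have h2 : ∑ e ∈ TE m, IPC.Pr q (TE m) (Piv e (W m)) = 2 * (2 * (m : ℝ) + 1) ^ 2 * rho q m := by
    rw [Finset.sum_congr rfl (fun e he => rho_all q he), Finset.sum_const, card_TE, nsmul_eq_mul]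
    push_cast
    ring
  rw [h2] at h1
  exact h1

theorem p4_rho (hS : SepIn) {ε : ℝ} (hε : 0 < ε) : ∃ C : ℝ, 0 < C ∧ ∀ (q : ℝ) (m : ℕ), 0 ≤ q → q ≤ 1 → 1 ≤ m → RS ε q m →
    p4 q m ≤ C * rho q m := by
  obtain ⟨K, C, hK, hC, h⟩ := hS ε hε
  refine ⟨C, hC, ?_⟩
  intro q m h0 h1 hm hR
  exact (h q m h0 h1 hR).2 m hm le_rfl (Nat.le_mul_of_pos_left m (by omega))

private theorem NAb_sum {q : ℝ} (h0 : 0 ≤ q) (h1 : q ≤ 1) (m : ℕ) : 0 ≤ ∑ r ∈ Icc 1 m, (r : ℝ) * p4 q r :=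
  Finset.sum_nonneg fun r _ => mul_nonneg (Nat.cast_nonneg r) (p4_nonneg h0 h1 r).1

private theorem NAb_tot {A R C S : ℝ} (hR : 0 ≤ R) (hC : 0 ≤ C) (hS : 0 ≤ S) {a : ℝ} (ha : 0 ≤ a)
    (h : A ≤ 162 * (a * R) + 216 * (C * R) * S) : A ≤ (162 * a + 216 * C) * R * (1 + S) := by
  have h1 : 0 ≤ a * R * S := mul_nonneg (mul_nonneg ha hR) hS
  have h2 : 0 ≤ C * R := mul_nonneg hC hR
  have h3 : (162 * a + 216 * C) * R * (1 + S) =
      162 * (a * R) + 162 * (a * R * S) + 216 * (C * R) + 216 * (C * R) * S := by ring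
  rw [h3]
  linarith

theorem rho_deriv (hS : SepIn) {ε : ℝ} (hε : 0 < ε) : ∃ C : ℝ, 0 < C ∧ ∀ (q : ℝ) (m : ℕ), 1 / 4 ≤ q → q ≤ 3 / 4 → 1 ≤ m → RS ε q m →
    ∃ D : ℝ, HasDerivAt (fun x : ℝ => rho x m) D q ∧ |D| ≤ C * rho q m * (1 + ∑ r ∈ Icc 1 m, (r : ℝ) * p4 q r) := by
  obtain ⟨K, C, hK, hC, h⟩ := hS ε hε
  refine ⟨162 * 8 + 216 * C, by positivity, ?_⟩
  intro q m hq1 hq2 hm hR
  have h0 : 0 ≤ q := by linarith
  have h1 : q ≤ 1 := by linarith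
  have hrho : 0 ≤ rho q m := rho_nonneg h0 h1 m
  obtain ⟨s1, s2⟩ := h q m h0 h1 hR
  obtain ⟨D, hD, hDb⟩ := deriv_abs (TE m) (Piv e0 (W m)) h0 h1
  refine ⟨D, hD, ?_⟩
  have ht := tor_sum (m := m) (F := fun e => IPC.Pr q (TE m) (PivB e (Piv e0 (W m)))) (g := fun r => p4 q r)
    (fun r => (p4_nonneg h0 h1 r).1) (B := 8 * rho q m) (D := C * rho q m) (by positivity) (by positivity)
    (fun e he => piv_fin hq1 hq2 he _)
    (by
      intro e he d hd hd5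
      show IPC.Pr q (TE m) (PivB e (Piv e0 (W m))) ≤ C * rho q m * p4 q ((d + 2) / 3)
      have hdm : d ≤ m := by
        have h2 := mem_TE'.1 he
        rw [hd] at h2
        exact_mod_cast h2
      obtain ⟨r, hr⟩ : ∃ r, r = (d + 2) / 3 := ⟨_, rfl⟩
      obtain ⟨t1, t2⟩ := T2_pr h0 h1 hd hd5 hdm hr
      rw [← hr]
      have hp : 0 ≤ p4 q r := (p4_nonneg h0 h1 r).1
      have hr1 : 1 ≤ r := by omega
      have hrm : r ≤ m := by omega
      have hd3 : 2 * d ≤ 6 * r := by omega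
      have h6 : 6 * r ≤ K * r := Nat.mul_le_mul_right r hK
      rcases le_or_gt (K * r) m with hKr | hKr
      · have h3 := t2 (by omega)
        have h4 : p4' q (2 * d) m ≤ p4' q (K * r) m := p4'_mono h0 h1 (by omega) hKr le_rfl
        calc IPC.Pr q (TE m) (PivB e (Piv e0 (W m))) ≤ p4 q r * p4 q r * p4' q (2 * d) m := h3
          _ ≤ p4 q r * p4 q r * p4' q (K * r) m := mul_le_mul_of_nonneg_left h4 (mul_nonneg hp hp)
          _ = p4 q r * (p4 q r * p4' q (K * r) m) := by ring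
          _ ≤ p4 q r * (C * rho q m) := mul_le_mul_of_nonneg_left (s1 r hr1 hKr) hp
          _ = C * rho q m * p4 q r := by ring
      · calc IPC.Pr q (TE m) (PivB e (Piv e0 (W m))) ≤ p4 q r * p4 q r := t1
          _ ≤ p4 q r * (C * rho q m) := mul_le_mul_of_nonneg_left (s2 r hr1 hrm hKr.le) hp
          _ = C * rho q m * p4 q r := by ring)
  exact NAb_tot hrho hC.le (NAb_sum h0 h1 m) (by norm_num) (hDb.trans ht)

theorem FG_deriv (hR : RswIn) (hQ : QmIn) {ε : ℝ} (hε : 0 < ε) : ∃ C : ℝ, 0 < C ∧ ∀ (q : ℝ) (m : ℕ), 1 / 4 ≤ q → q ≤ 3 / 4 → 1 ≤ m →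
    RS ε q m → ∃ D : ℝ, HasDerivAt (fun x : ℝ => FG x m) D q ∧ |D| ≤ C * FG q m * (1 + ∑ r ∈ Icc 1 m, (r : ℝ) * p4 q r) := by
  obtain ⟨C1, hC1, hq⟩ := hQ ε hε 6
  obtain ⟨C2, hC2, hf⟩ := T5b hR hε
  refine ⟨162 * 4 + 216 * (C1 * C2), by positivity, ?_⟩
  intro q m hq1 hq2 hm hRS
  have h0 : 0 ≤ q := by linarith
  have h1 : q ≤ 1 := by linarith
  have hFG : 0 ≤ FG q m := IPC.Pr_nonneg h0 h1 _ _
  have hp1 : C1 * p1 q m ≤ C1 * C2 * FG q m := by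
    calc C1 * p1 q m ≤ C1 * (C2 * FG q m) := mul_le_mul_of_nonneg_left (hf q m hq1 h1 hRS) hC1.le
      _ = C1 * C2 * FG q m := by ring
  refine ⟨∑ e ∈ TE m, IPC.Pr q (TE m) (Piv e (Gz m)), deriv_inc (TE m) (Gz_inc m) q, ?_⟩
  rw [abs_of_nonneg (Finset.sum_nonneg fun e _ => IPC.Pr_nonneg h0 h1 _ _)]
  have ht := tor_sum (m := m) (F := fun e => IPC.Pr q (TE m) (Piv e (Gz m))) (g := fun r => p4 q r)
    (fun r => (p4_nonneg h0 h1 r).1) (B := 4 * FG q m) (D := C1 * C2 * FG q m) (by positivity) (by positivity)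
    (fun e he => piv_fin' hq1 hq2 he _)
    (by
      intro e he d hd hd5
      show IPC.Pr q (TE m) (Piv e (Gz m)) ≤ C1 * C2 * FG q m * p4 q ((d + 2) / 3)
      have hdm : d ≤ m := by
        have h2 := mem_TE'.1 he
        rw [hd] at h2
        exact_mod_cast h2
      obtain ⟨r, hr⟩ : ∃ r, r = (d + 2) / 3 := ⟨_, rfl⟩
      obtain ⟨t1, t2⟩ := T3_pr h0 h1 hd hd5 hdm hr
      rw [← hr]
      have hp : 0 ≤ p4 q r := (p4_nonneg h0 h1 r).1
      have hr1 : 1 ≤ r := by omega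
      have hrm : r ≤ m := by omega
      have hd3 : 2 * d ≤ 6 * r := by omega
      rcases le_or_gt (2 * d) m with hdd | hdd
      · have h3 := hq q m h0 h1 hRS r (2 * d) hr1 (by omega) hd3 hdd
        calc IPC.Pr q (TE m) (Piv e (Gz m)) ≤ p1 q r * p4 q r * p1' q (2 * d) m := t2 hdd
          _ = p4 q r * (p1 q r * p1' q (2 * d) m) := by ring
          _ ≤ p4 q r * (C1 * C2 * FG q m) := mul_le_mul_of_nonneg_left (h3.trans hp1) hp
          _ = C1 * C2 * FG q m * p4 q r := by ring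
      · have h3 := hq q m h0 h1 hRS r m hr1 hrm (by omega) le_rfl
        rw [p1'_self, mul_one] at h3
        calc IPC.Pr q (TE m) (Piv e (Gz m)) ≤ p1 q r * p4 q r := t1
          _ = p4 q r * p1 q r := by ring
          _ ≤ p4 q r * (C1 * C2 * FG q m) := mul_le_mul_of_nonneg_left (h3.trans hp1) hp
          _ = C1 * C2 * FG q m * p4 q r := by ring)
  exact NAb_tot hFG (by positivity) (NAb_sum h0 h1 m) (by norm_num) ht

end FKN
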