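import Mathlib

/-!
# JOB NAc: two lemmas of calculus (only Mathlib, about 200 lines)

`boot` (bootstrap): right of `x0`: the set of `x` such that the bounds hold on `[x0, x]` is closed, and open to the right: if the bounds hold on `[x0, c]` the functions
`log f - K F` and `- log f - K F` are antitone there, so `|log (f c) - log (f x0)| ≤ K (F c - F x0) ≤ K (F b - F a) ≤ 1/2 < log 2`.  Left of `x0`: apply the result to `x ↦ f (-x)`, `F ↦ - F (-x)`.
`gron`: `log f - K F` is antitone on `[a, b]`.  `log_ge`: `F - c log` is monotone on `[s0, t]`.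
`sum_rp`: induction with the weighted inequality of the means.
-/

set_option autoImplicit false

namespace FKN

open Finset

private theorem NAc_mono {a b : ℝ} (hab : a ≤ b) {g g' : ℝ → ℝ} (hg : ∀ x ∈ Set.Icc a b, HasDerivAt g (g' x) x)
    (h0 : ∀ x ∈ Set.Icc a b, 0 ≤ g' x) : g a ≤ g b := by
  have h1 : MonotoneOn g (Set.Icc a b) := by
    refine monotoneOn_of_deriv_nonneg (convex_Icc a b) ?_ ?_ ?_
    · exact fun x hx => (hg x hx).continuousAt.continuousWithinAt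
    · exact fun x hx => (hg x (interior_subset hx)).differentiableAt.differentiableWithinAt
    · intro x hx
      rw [(hg x (interior_subset hx)).deriv]
      exact h0 x (interior_subset hx)
  exact h1 (Set.left_mem_Icc.2 hab) (Set.right_mem_Icc.2 hab) hab

private theorem NAc_log {a b K : ℝ} (hab : a ≤ b) {f F f' F' : ℝ → ℝ}
    (hf : ∀ x ∈ Set.Icc a b, HasDerivAt f (f' x) x) (hF : ∀ x ∈ Set.Icc a b, HasDerivAt F (F' x) x)
    (hpos : ∀ x ∈ Set.Icc a b, 0 < f x) (h : ∀ x ∈ Set.Icc a b, |f' x| ≤ K * f x * F' x) :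
    Real.log (f b) - Real.log (f a) ≤ K * (F b - F a) ∧ Real.log (f a) - Real.log (f b) ≤ K * (F b - F a) := by
  have hl : ∀ x ∈ Set.Icc a b, |f' x / f x| ≤ K * F' x := by
    intro x hx
    have hp := hpos x hx
    rw [abs_div, abs_of_pos hp, div_le_iff₀ hp]
    calc |f' x| ≤ K * f x * F' x := h x hx
      _ = K * F' x * f x := by ring
  constructor
  · have h1 := NAc_mono (g := fun x => K * F x - Real.log (f x)) (g' := fun x => K * F' x - f' x / f x) hab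
      (fun x hx => ((hF x hx).const_mul K).sub ((hf x hx).log (hpos x hx).ne'))
      (fun x hx => by
        have h2 := le_abs_self (f' x / f x)
        have h3 := hl x hx
        show 0 ≤ K * F' x - f' x / f x
        linarith)
    have h4 : K * F a - Real.log (f a) ≤ K * F b - Real.log (f b) := h1
    linarith
  · have h1 := NAc_mono (g := fun x => K * F x + Real.log (f x)) (g' := fun x => K * F' x + f' x / f x) hab
      (fun x hx => ((hF x hx).const_mul K).add ((hf x hx).log (hpos x hx).ne'))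
      (fun x hx => by
        have h2 := neg_abs_le (f' x / f x)
        have h3 := hl x hx
        show 0 ≤ K * F' x + f' x / f x
        linarith)
    have h4 : K * F a + Real.log (f a) ≤ K * F b + Real.log (f b) := h1
    linarith

private theorem NAc_exp : Real.exp (1 / 2) < 2 := by
  have h1 := Real.exp_one_lt_d9
  have h2 : Real.exp (1 / 2) * Real.exp (1 / 2) = Real.exp 1 := by
    rw [← Real.exp_add]
    norm_num
  by_contra h
  have h3 : 2 ≤ Real.exp (1 / 2) := not_lt.1 h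
  nlinarith

private theorem NAc_two {x y : ℝ} (hx : 0 < x) (hy : 0 < y) (h : Real.log y - Real.log x ≤ 1 / 2) : y < 2 * x := by
  have h1 : y ≤ x * Real.exp (1 / 2) := by
    have h2 : Real.log y ≤ Real.log x + 1 / 2 := by linarith
    calc y = Real.exp (Real.log y) := (Real.exp_log hy).symm
      _ ≤ Real.exp (Real.log x + 1 / 2) := Real.exp_le_exp.2 h2
      _ = x * Real.exp (1 / 2) := by rw [Real.exp_add, Real.exp_log hx]
  have h3 := NAc_exp
  nlinarith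

private theorem NAc_right {a b K : ℝ} {f F f' F' : ℝ → ℝ}
    (hf : ∀ x ∈ Set.Icc a b, HasDerivAt f (f' x) x) (hF : ∀ x ∈ Set.Icc a b, HasDerivAt F (F' x) x)
    (hpos : 0 < f a) (hF0 : ∀ x ∈ Set.Icc a b, 0 ≤ F' x) (hK : 0 ≤ K)
    (h : ∀ x ∈ Set.Icc a b, f a / 2 ≤ f x → f x ≤ 2 * f a → |f' x| ≤ K * f x * F' x)
    (hsm : K * (F b - F a) ≤ 1 / 2) : ∀ x ∈ Set.Icc a b, f a / 2 ≤ f x ∧ f x ≤ 2 * f a := by
  have hcont : ContinuousOn f (Set.Icc a b) := fun x hx => (hf x hx).continuousAt.continuousWithinAt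
  -- strict bounds at the end point
  have key : ∀ c ∈ Set.Icc a b, (∀ y ∈ Set.Icc a c, f a / 2 ≤ f y ∧ f y ≤ 2 * f a) → f a / 2 < f c ∧ f c < 2 * f a := by
    intro c hc hy
    have hsub : ∀ x ∈ Set.Icc a c, x ∈ Set.Icc a b := fun x hx => ⟨hx.1, hx.2.trans hc.2⟩
    have hp : ∀ x ∈ Set.Icc a c, 0 < f x := fun x hx => by
      have := (hy x hx).1
      linarith
    obtain ⟨h1, h2⟩ := NAc_log (K := K) hc.1 (fun x hx => hf x (hsub x hx)) (fun x hx => hF x (hsub x hx)) hp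
      (fun x hx => h x (hsub x hx) (hy x hx).1 (hy x hx).2)
    have hFc : F c ≤ F b := NAc_mono hc.2 (fun x hx => hF x ⟨hc.1.trans hx.1, hx.2⟩)
      (fun x hx => hF0 x ⟨hc.1.trans hx.1, hx.2⟩)
    have h3 : K * (F c - F a) ≤ 1 / 2 := le_trans (mul_le_mul_of_nonneg_left (by linarith) hK) hsm
    have hpc : 0 < f c := hp c (Set.right_mem_Icc.2 hc.1)
    have h4 := NAc_two hpos hpc (h1.trans h3)
    have h5 := NAc_two hpc hpos (h2.trans h3)
    exact ⟨by linarith, h4⟩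
  -- continuous induction
  have hs : Set.Icc a b ⊆ {x | f a / 2 ≤ f x ∧ f x ≤ 2 * f a} := by
    by_contra hne
    rw [Set.not_subset] at hne
    obtain ⟨z, hz, hzb⟩ := hne
    let S : Set ℝ := {x | x ∈ Set.Icc a b ∧ ¬ (f a / 2 ≤ f x ∧ f x ≤ 2 * f a)}
    have hSne : S.Nonempty := ⟨z, hz, hzb⟩
    have hSbd : BddBelow S := ⟨a, fun x hx => hx.1.1⟩
    obtain ⟨c, hcdef⟩ : ∃ c, c = sInf S := ⟨_, rfl⟩
    have hca : a ≤ c := hcdef ▸ le_csInf hSne (fun x hx => hx.1.1)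
    have hcz : c ≤ z := hcdef ▸ csInf_le hSbd ⟨hz, hzb⟩
    have hc : c ∈ Set.Icc a b := ⟨hca, hcz.trans hz.2⟩
    have hlt : ∀ y, a ≤ y → y < c → f a / 2 ≤ f y ∧ f y ≤ 2 * f a := by
      intro y hy1 hy2
      by_contra hy3
      have hyS : y ∈ S := ⟨⟨hy1, (hy2.le).trans hc.2⟩, hy3⟩
      have := csInf_le hSbd hyS
      rw [← hcdef] at this
      linarith
    have hcc : f a / 2 ≤ f c ∧ f c ≤ 2 * f a := by
      rcases hca.eq_or_lt with hac | hac
      · rw [← hac]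
        exact ⟨by linarith, by linarith⟩
      · have hcl : c ∈ closure (Set.Ico a c) := by
          rw [closure_Ico hac.ne]
          exact Set.right_mem_Icc.2 hca
        have hcw : ContinuousWithinAt f (Set.Ico a c) c := (hf c hc).continuousAt.continuousWithinAt
        constructor
        · have h1 : f c ∈ closure (f '' Set.Ico a c) := hcw.mem_closure_image hcl
          have h2 : f '' Set.Ico a c ⊆ Set.Ici (f a / 2) := by
            rintro _ ⟨y, hy, rfl⟩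
            exact (hlt y hy.1 hy.2).1
          exact closure_minimal h2 isClosed_Ici h1
        · have h1 : f c ∈ closure (f '' Set.Ico a c) := hcw.mem_closure_image hcl
          have h2 : f '' Set.Ico a c ⊆ Set.Iic (2 * f a) := by
            rintro _ ⟨y, hy, rfl⟩
            exact (hlt y hy.1 hy.2).2
          exact closure_minimal h2 isClosed_Iic h1
    have hk := key c hc (fun y hy => by
      rcases hy.2.eq_or_lt with h1 | h1
      · rw [h1]
        exact hcc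
      · exact hlt y hy.1 h1)
    have hev : ∀ᶠ y in nhds c, f a / 2 < f y ∧ f y < 2 * f a := by
      have h1 := (hf c hc).continuousAt.eventually (Ioo_mem_nhds hk.1 hk.2)
      exact h1.mono fun y hy => hy
    obtain ⟨δ, hδ, hball⟩ := Metric.eventually_nhds_iff.1 hev
    obtain ⟨y, hyS, hyc⟩ : ∃ y ∈ S, y < c + δ := by
      refine exists_lt_of_csInf_lt hSne ?_
      rw [← hcdef]
      linarith
    have hcy : c ≤ y := by
      have := csInf_le hSbd hyS
      rwa [← hcdef] at this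
    have h1 := hball (y := y) (by
      rw [Real.dist_eq, abs_of_nonneg (by linarith)]
      linarith)
    exact hyS.2 ⟨h1.1.le, h1.2.le⟩
  exact hs

theorem boot {a b x0 K : ℝ} (hx : x0 ∈ Set.Icc a b) {f F f' F' : ℝ → ℝ}
    (hf : ∀ x ∈ Set.Icc a b, HasDerivAt f (f' x) x) (hF : ∀ x ∈ Set.Icc a b, HasDerivAt F (F' x) x)
    (hpos : 0 < f x0) (hF0 : ∀ x ∈ Set.Icc a b, 0 ≤ F' x) (hK : 0 ≤ K)
    (h : ∀ x ∈ Set.Icc a b, f x0 / 2 ≤ f x → f x ≤ 2 * f x0 → |f' x| ≤ K * f x * F' x)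
    (hsm : K * (F b - F a) ≤ 1 / 2) : ∀ x ∈ Set.Icc a b, f x0 / 2 ≤ f x ∧ f x ≤ 2 * f x0 := by
  have hFa : F a ≤ F x0 := NAc_mono hx.1 (fun x hx' => hF x ⟨hx'.1, hx'.2.trans hx.2⟩)
    (fun x hx' => hF0 x ⟨hx'.1, hx'.2.trans hx.2⟩)
  have hFb : F x0 ≤ F b := NAc_mono hx.2 (fun x hx' => hF x ⟨hx.1.trans hx'.1, hx'.2⟩)
    (fun x hx' => hF0 x ⟨hx.1.trans hx'.1, hx'.2⟩)
  intro x hxx
  rcases le_total x0 x with h1 | h1
  · exact NAc_right (a := x0) (b := b) (K := K) (f := f) (F := F) (f' := f') (F' := F')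
      (fun y hy => hf y ⟨hx.1.trans hy.1, hy.2⟩) (fun y hy => hF y ⟨hx.1.trans hy.1, hy.2⟩) hpos
      (fun y hy => hF0 y ⟨hx.1.trans hy.1, hy.2⟩) hK (fun y hy => h y ⟨hx.1.trans hy.1, hy.2⟩)
      (le_trans (mul_le_mul_of_nonneg_left (by linarith) hK) hsm) x ⟨h1, hxx.2⟩
  · have hm : ∀ y ∈ Set.Icc (-x0) (-a), -y ∈ Set.Icc a b := fun y hy =>
      ⟨by linarith [hy.2], by linarith [hy.1, hx.2]⟩
    have h2 := NAc_right (a := -x0) (b := -a) (K := K) (f := fun y => f (-y)) (F := fun y => -F (-y))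
      (f' := fun y => - f' (-y)) (F' := fun y => F' (-y))
      (fun y hy => by
        have h3 := (hf (-y) (hm y hy)).comp y (hasDerivAt_neg y)
        have h4 : f' (-y) * -1 = - f' (-y) := by ring
        rw [h4] at h3
        exact h3)
      (fun y hy => by
        have h3 := ((hF (-y) (hm y hy)).comp y (hasDerivAt_neg y)).neg
        have h4 : -(F' (-y) * -1) = F' (-y) := by ring
        rw [h4] at h3
        exact h3)
      (by
        show 0 < f (- -x0)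
        rw [neg_neg]
        exact hpos)
      (fun y hy => hF0 (-y) (hm y hy)) hK
      (fun y hy => by
        show f (- -x0) / 2 ≤ f (-y) → f (-y) ≤ 2 * f (- -x0) → |-f' (-y)| ≤ K * f (-y) * F' (-y)
        rw [neg_neg, abs_neg]
        exact h (-y) (hm y hy))
      (by
        show K * (-F (- -a) - -F (- -x0)) ≤ 1 / 2
        rw [neg_neg, neg_neg]
        exact le_trans (mul_le_mul_of_nonneg_left (by linarith) hK) hsm)
      (-x) ⟨by linarith, by linarith [hxx.1]⟩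
    have h3 : f (- -x0) / 2 ≤ f (- -x) ∧ f (- -x) ≤ 2 * f (- -x0) := h2
    rw [neg_neg, neg_neg] at h3
    exact h3

theorem gron {a b K : ℝ} (hab : a ≤ b) {f F f' F' : ℝ → ℝ}
    (hf : ∀ x ∈ Set.Icc a b, HasDerivAt f (f' x) x) (hF : ∀ x ∈ Set.Icc a b, HasDerivAt F (F' x) x)
    (hpos : ∀ x ∈ Set.Icc a b, 0 < f x) (h : ∀ x ∈ Set.Icc a b, |f' x| ≤ K * f x * F' x) :
    f b ≤ f a * Real.exp (K * (F b - F a)) := by
  have h1 := (NAc_log hab hf hF hpos h).1
  have ha := hpos a (Set.left_mem_Icc.2 hab)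
  have hb := hpos b (Set.right_mem_Icc.2 hab)
  calc f b = Real.exp (Real.log (f b)) := (Real.exp_log hb).symm
    _ ≤ Real.exp (Real.log (f a) + K * (F b - F a)) := Real.exp_le_exp.2 (by linarith)
    _ = f a * Real.exp (K * (F b - F a)) := by rw [Real.exp_add, Real.exp_log ha]

theorem log_ge {s0 t c : ℝ} (h0 : 0 < s0) (hst : s0 ≤ t) {F F' : ℝ → ℝ}
    (hF : ∀ x ∈ Set.Icc s0 t, HasDerivAt F (F' x) x) (h : ∀ x ∈ Set.Icc s0 t, c / x ≤ F' x) :
    c * Real.log (t / s0) ≤ F t - F s0 := by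
  have h1 := NAc_mono (g := fun x => F x - c * Real.log x) (g' := fun x => F' x - c * x⁻¹) hst
    (fun x hx => (hF x hx).sub ((Real.hasDerivAt_log (lt_of_lt_of_le h0 hx.1).ne').const_mul c))
    (fun x hx => by
      have h2 := h x hx
      rw [div_eq_mul_inv] at h2
      show 0 ≤ F' x - c * x⁻¹
      linarith)
  have h2 : F s0 - c * Real.log s0 ≤ F t - c * Real.log t := h1
  rw [Real.log_div (lt_of_lt_of_le h0 hst).ne' h0.ne']
  linarith

theorem mean_bd {a b c C : ℝ} (hab : a ≤ b) {F F' : ℝ → ℝ}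
    (hF : ∀ x ∈ Set.Icc a b, HasDerivAt F (F' x) x) (h : ∀ x ∈ Set.Icc a b, c ≤ F' x ∧ F' x ≤ C) :
    c * (b - a) ≤ F b - F a ∧ F b - F a ≤ C * (b - a) := by
  constructor
  · have h1 := NAc_mono (g := fun x => F x - c * x) (g' := fun x => F' x - c * 1) hab
      (fun x hx => (hF x hx).sub ((hasDerivAt_id x).const_mul c))
      (fun x hx => by
        have h2 := (h x hx).1
        show 0 ≤ F' x - c * 1
        linarith)
    have h2 : F a - c * a ≤ F b - c * b := h1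
    linarith
  · have h1 := NAc_mono (g := fun x => C * x - F x) (g' := fun x => C * 1 - F' x) hab
      (fun x hx => ((hasDerivAt_id x).const_mul C).sub (hF x hx))
      (fun x hx => by
        have h2 := (h x hx).2
        show 0 ≤ C * 1 - F' x
        linarith)
    have h2 : C * a - F a ≤ C * b - F b := h1
    linarith

theorem sum_rp (m : ℕ) : ∑ r ∈ Icc 1 m, (r : ℝ) * (r : ℝ) ^ (-(5 / 4) : ℝ) ≤ 2 * (m : ℝ) ^ ((3 / 4) : ℝ) := by
  induction m with
  | zero =>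
    have h1 : Icc 1 0 = (∅ : Finset ℕ) := by simp
    rw [h1, Finset.sum_empty]
    positivity
  | succ m ih =>
    rw [Finset.sum_Icc_succ_top (by omega)]
    have hm : (0 : ℝ) < ((m + 1 : ℕ) : ℝ) := by positivity
    have hx : ((m + 1 : ℕ) : ℝ) * ((m + 1 : ℕ) : ℝ) ^ (-(5 / 4) : ℝ) = ((m + 1 : ℕ) : ℝ) ^ (-(1 / 4) : ℝ) := by
      nth_rewrite 1 [← Real.rpow_one ((m + 1 : ℕ) : ℝ)]
      rw [← Real.rpow_add hm]
      norm_num
    rw [hx]
    have h1 := Real.geom_mean_le_arith_mean2_weighted (w₁ := 3 / 4) (w₂ := 1 / 4) (p₁ := (m : ℝ)) (p₂ := ((m + 1 : ℕ) : ℝ))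
      (by norm_num) (by norm_num) (by positivity) hm.le (by norm_num)
    have h2 : ((m + 1 : ℕ) : ℝ) ^ (-(1 / 4) : ℝ) * ((m + 1 : ℕ) : ℝ) ^ ((1 / 4) : ℝ) = 1 := by
      rw [← Real.rpow_add hm]
      norm_num
    have h3 : ((m + 1 : ℕ) : ℝ) ^ ((3 / 4) : ℝ) * ((m + 1 : ℕ) : ℝ) ^ ((1 / 4) : ℝ) = ((m + 1 : ℕ) : ℝ) := by
      rw [← Real.rpow_add hm]
      norm_num
    have h4 : 0 < ((m + 1 : ℕ) : ℝ) ^ ((1 / 4) : ℝ) := Real.rpow_pos_of_pos hm _
    have h5 : ((m + 1 : ℕ) : ℝ) = (m : ℝ) + 1 := by push_cast; ring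
    have h6 : (2 * (m : ℝ) ^ ((3 / 4) : ℝ) + ((m + 1 : ℕ) : ℝ) ^ (-(1 / 4) : ℝ)) * ((m + 1 : ℕ) : ℝ) ^ ((1 / 4) : ℝ) ≤
        (2 * ((m + 1 : ℕ) : ℝ) ^ ((3 / 4) : ℝ)) * ((m + 1 : ℕ) : ℝ) ^ ((1 / 4) : ℝ) := by
      have e1 : (2 * (m : ℝ) ^ ((3 / 4) : ℝ) + ((m + 1 : ℕ) : ℝ) ^ (-(1 / 4) : ℝ)) * ((m + 1 : ℕ) : ℝ) ^ ((1 / 4) : ℝ) =
          2 * ((m : ℝ) ^ ((3 / 4) : ℝ) * ((m + 1 : ℕ) : ℝ) ^ ((1 / 4) : ℝ)) +
            ((m + 1 : ℕ) : ℝ) ^ (-(1 / 4) : ℝ) * ((m + 1 : ℕ) : ℝ) ^ ((1 / 4) : ℝ) := by ring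
      have e2 : (2 * ((m + 1 : ℕ) : ℝ) ^ ((3 / 4) : ℝ)) * ((m + 1 : ℕ) : ℝ) ^ ((1 / 4) : ℝ) =
          2 * (((m + 1 : ℕ) : ℝ) ^ ((3 / 4) : ℝ) * ((m + 1 : ℕ) : ℝ) ^ ((1 / 4) : ℝ)) := by ring
      rw [e1, e2, h2, h3, h5]
      rw [h5] at h1
      linarith
    have h7 := le_of_mul_le_mul_right h6 h4
    linarith

private theorem NAc_x {x : ℝ} (hx : 0 < x) : (x ^ ((3 / 4) : ℝ)) ^ ((4 / 3) : ℝ) = x := by
  rw [← Real.rpow_mul hx.le]
  norm_num

private theorem NAc_c {s c : ℝ} (hs : 0 < s) (hc : 0 < c) :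
    (c / s) ^ ((4 / 3) : ℝ) = c ^ ((4 / 3) : ℝ) * s ^ (-(4 / 3) : ℝ) := by
  rw [Real.div_rpow hc.le hs.le, Real.rpow_neg hs.le, div_eq_mul_inv]

theorem pow_inv43 {s x c : ℝ} (hs : 0 < s) (hx : 0 < x) (hc : 0 < c) (h : s * x ^ ((3 / 4) : ℝ) ≤ c) :
    x ≤ c ^ ((4 / 3) : ℝ) * s ^ (-(4 / 3) : ℝ) := by
  have h1 : x ^ ((3 / 4) : ℝ) ≤ c / s := by
    rw [le_div_iff₀ hs]
    linarith
  have h2 := Real.rpow_le_rpow (Real.rpow_nonneg hx.le _) h1 (show (0 : ℝ) ≤ 4 / 3 by norm_num)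
  rw [NAc_x hx, NAc_c hs hc] at h2
  exact h2

theorem pow_inv43' {s x c : ℝ} (hs : 0 < s) (hx : 0 < x) (hc : 0 < c) (h : c ≤ s * x ^ ((3 / 4) : ℝ)) :
    c ^ ((4 / 3) : ℝ) * s ^ (-(4 / 3) : ℝ) ≤ x := by
  have h1 : c / s ≤ x ^ ((3 / 4) : ℝ) := by
    rw [div_le_iff₀ hs]
    linarith
  have h2 := Real.rpow_le_rpow (div_pos hc hs).le h1 (show (0 : ℝ) ≤ 4 / 3 by norm_num)
  rw [NAc_x hx, NAc_c hs hc] at h2
  exact h2

end FKN
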