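import Mathlib
import Pool.Agent.Lib.MP_216314_pr.N.NAb
import Pool.Agent.Lib.MP_216314_pr.N.NAc
import Pool.Agent.Lib.MP_216314_pr.N.NTg

/-!
# JOB NAd: stability of `rho` in the perturbative regime (about 150 lines)

Constants: `C1` of `rho_deriv`, `C2` of `p4_rho`, `c0, C0` of `Law4`.  For `q = 1/2`: `(c0 / C2) j^(-5/4) ≤ rho (1/2) j ≤ p4 (1/2) j ≤ C0 j^(-5/4)` (`rho_le_p4`; `RS ε (1/2) j` from `Per` since `1/2 ∈ [1/2 - s, 1/2 + s]`, `RS` for a smaller scale is immediate).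
Strong induction on `j` for the first two inequalities (for all `q` in the interval).  For `j` and `q` with `rho (1/2) j / 2 ≤ rho q j ≤ 2 rho (1/2) j`:
  for `r ≤ j`: `p4 q r ≤ C2 rho q r ≤ 2 C2 rho (1/2) r ≤ 2 C2 C0 r^(-5/4)` (induction hypothesis for `r < j`, the assumption for `r = j`), so `1 + ∑_{r ≤ j} r p4 q r ≤ 1 + 4 C2 C0 j^(3/4) ≤ (1 + 4 C2 C0) j^(3/4)` (`sum_rp`, `1 ≤ j^(3/4)`),
  `j² rho q j ≥ j² (c0 / (2 C2)) j^(-5/4) = (c0 / (2 C2)) j^(3/4)`, so `1 + ∑ ≤ C3 j² rho q j`, `C3 = (1 + 4 C2 C0) 2 C2 / c0`.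
  Hence `|rho'| ≤ C1 rho (1 + ∑) ≤ (C1 C3 / 8) rho * FW'` with `FW' = 2 (2 j + 1)² rho ≥ 8 j² rho` (`FW_deriv`).
`boot` (NAc) with `x0 = 1/2`, `a = 1/2 - s`, `b = 1/2 + s`, `f = rho · j`, `F = FW · j`, `K = C1 C3 / 8`, `η = 1 / (2 K)` gives the two inequalities for `j` (derivative functions: choose `f'` by `Classical.choose` from `rho_deriv`; `rho_nonneg`).
The third inequality is then the displayed computation.
-/

set_option autoImplicit false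

namespace FKN

open Finset FKI FKP

theorem Per_mono {ε η η' s : ℝ} {m : ℕ} (h : η ≤ η') (hP : Per ε η s m) : Per ε η' s m :=
  ⟨hP.1, fun j h1 h2 => (hP.2 j h1 h2).trans h⟩

private theorem NAd_RS {ε q : ℝ} {N N' : ℕ} (h : N' ≤ N) (hR : RS ε q N) : RS ε q N' :=
  fun n h1 h2 => hR n h1 (h2.trans h)

theorem Per_le {ε η s : ℝ} {m m' : ℕ} (h : m' ≤ m) (hP : Per ε η s m) : Per ε η s m' :=
  ⟨fun q h1 h2 => NAd_RS h (hP.1 q h1 h2), fun j h1 h2 => hP.2 j h1 (h2.trans h)⟩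

private theorem NAd_pow {j : ℕ} (hj : 1 ≤ j) :
    (j : ℝ) ^ 2 * (j : ℝ) ^ (-(5 / 4) : ℝ) = (j : ℝ) ^ ((3 / 4) : ℝ) := by
  have hj0 : (0 : ℝ) < j := by exact_mod_cast hj
  rw [← Real.rpow_natCast (j : ℝ) 2, ← Real.rpow_add hj0]
  norm_num

private theorem NAd_third {C2 c0 C0 q : ℝ} {j : ℕ} (hj : 1 ≤ j) (hC2 : 0 < C2) (hc0 : 0 < c0)
    (hC0 : 0 < C0)
    (h4 : ∀ r : ℕ, 1 ≤ r → r ≤ j → c0 * (r : ℝ) ^ (-(5 / 4) : ℝ) ≤ p4 (1 / 2) r ∧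
      p4 (1 / 2) r ≤ C0 * (r : ℝ) ^ (-(5 / 4) : ℝ))
    (hq : ∀ r : ℕ, 1 ≤ r → r ≤ j → p4 q r ≤ C2 * rho q r)
    (hh : p4 (1 / 2) j ≤ C2 * rho (1 / 2) j)
    (hr : ∀ r : ℕ, 1 ≤ r → r ≤ j → rho q r ≤ 2 * rho (1 / 2) r)
    (hl : rho (1 / 2) j / 2 ≤ rho q j) :
    1 + ∑ r ∈ Icc 1 j, (r : ℝ) * p4 q r ≤ (1 + 4 * C2 * C0) * (2 * C2 / c0) * (j : ℝ) ^ 2 * rho q j := by
  have hj1 : (1 : ℝ) ≤ j := by exact_mod_cast hj
  have hj34 : (1 : ℝ) ≤ (j : ℝ) ^ ((3 / 4) : ℝ) := Real.one_le_rpow hj1 (by norm_num)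
  have h1 : ∑ r ∈ Icc 1 j, (r : ℝ) * p4 q r ≤
      ∑ r ∈ Icc 1 j, (2 * C2 * C0) * ((r : ℝ) * (r : ℝ) ^ (-(5 / 4) : ℝ)) := by
    refine Finset.sum_le_sum fun r hr' => ?_
    obtain ⟨hr1, hr2⟩ := Finset.mem_Icc.1 hr'
    have hr0 : (0 : ℝ) ≤ r := Nat.cast_nonneg r
    have e1 := hq r hr1 hr2
    have e2 := hr r hr1 hr2
    have e3 : rho (1 / 2) r ≤ p4 (1 / 2) r := rho_le_p4 (by norm_num) (by norm_num) hr1
    have e4 := (h4 r hr1 hr2).2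
    have e5 : p4 q r ≤ 2 * C2 * C0 * (r : ℝ) ^ (-(5 / 4) : ℝ) := by
      have e6 : C2 * rho q r ≤ C2 * (2 * (C0 * (r : ℝ) ^ (-(5 / 4) : ℝ))) := by
        refine mul_le_mul_of_nonneg_left ?_ hC2.le
        linarith
      calc p4 q r ≤ C2 * rho q r := e1
        _ ≤ C2 * (2 * (C0 * (r : ℝ) ^ (-(5 / 4) : ℝ))) := e6
        _ = 2 * C2 * C0 * (r : ℝ) ^ (-(5 / 4) : ℝ) := by ring
    calc (r : ℝ) * p4 q r ≤ (r : ℝ) * (2 * C2 * C0 * (r : ℝ) ^ (-(5 / 4) : ℝ)) :=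
          mul_le_mul_of_nonneg_left e5 hr0
      _ = (2 * C2 * C0) * ((r : ℝ) * (r : ℝ) ^ (-(5 / 4) : ℝ)) := by ring
  rw [← Finset.mul_sum] at h1
  have h2 := sum_rp j
  have h3 : (2 * C2 * C0) * ∑ r ∈ Icc 1 j, (r : ℝ) * (r : ℝ) ^ (-(5 / 4) : ℝ) ≤
      (2 * C2 * C0) * (2 * (j : ℝ) ^ ((3 / 4) : ℝ)) := mul_le_mul_of_nonneg_left h2 (by positivity)
  have hlhs : 1 + ∑ r ∈ Icc 1 j, (r : ℝ) * p4 q r ≤ (1 + 4 * C2 * C0) * (j : ℝ) ^ ((3 / 4) : ℝ) := by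
    have e1 : (1 + 4 * C2 * C0) * (j : ℝ) ^ ((3 / 4) : ℝ) =
        (j : ℝ) ^ ((3 / 4) : ℝ) + (2 * C2 * C0) * (2 * (j : ℝ) ^ ((3 / 4) : ℝ)) := by ring
    rw [e1]
    linarith
  refine hlhs.trans ?_
  have hlow : c0 * (j : ℝ) ^ (-(5 / 4) : ℝ) ≤ 2 * C2 * rho q j := by
    have e1 := (h4 j hj le_rfl).1
    have e2 : C2 * rho (1 / 2) j ≤ C2 * (2 * rho q j) := mul_le_mul_of_nonneg_left (by linarith) hC2.le
    linarith
  have hmul : (1 + 4 * C2 * C0) / c0 * (j : ℝ) ^ 2 * (c0 * (j : ℝ) ^ (-(5 / 4) : ℝ)) ≤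
      (1 + 4 * C2 * C0) / c0 * (j : ℝ) ^ 2 * (2 * C2 * rho q j) :=
    mul_le_mul_of_nonneg_left hlow (by positivity)
  have e1 : (1 + 4 * C2 * C0) / c0 * (j : ℝ) ^ 2 * (c0 * (j : ℝ) ^ (-(5 / 4) : ℝ)) =
      (1 + 4 * C2 * C0) * (j : ℝ) ^ ((3 / 4) : ℝ) := by
    rw [← NAd_pow hj]
    field_simp
  have e2 : (1 + 4 * C2 * C0) / c0 * (j : ℝ) ^ 2 * (2 * C2 * rho q j) =
      (1 + 4 * C2 * C0) * (2 * C2 / c0) * (j : ℝ) ^ 2 * rho q j := by ring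
  rw [e1, e2] at hmul
  exact hmul

theorem stab (hS : SepIn) (h4 : Law4) {ε : ℝ} (hε : 0 < ε) : ∃ η C : ℝ, 0 < η ∧ 0 < C ∧ ∀ (s : ℝ) (m : ℕ), 0 ≤ s → s ≤ 1 / 4 →
    Per ε η s m → ∀ j : ℕ, 1 ≤ j → j ≤ m → ∀ q : ℝ, 1 / 2 - s ≤ q → q ≤ 1 / 2 + s →
      rho (1 / 2) j / 2 ≤ rho q j ∧ rho q j ≤ 2 * rho (1 / 2) j ∧
        1 + ∑ r ∈ Icc 1 j, (r : ℝ) * p4 q r ≤ C * (j : ℝ) ^ 2 * rho q j := by
  obtain ⟨C1, hC1, hder⟩ := rho_deriv hS hε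
  obtain ⟨C2, hC2, hp4⟩ := p4_rho hS hε
  obtain ⟨c0, C0, hc0, hC0, hlaw⟩ := h4
  obtain ⟨C3, hC3e⟩ : ∃ C3 : ℝ, C3 = (1 + 4 * C2 * C0) * (2 * C2 / c0) := ⟨_, rfl⟩
  have hC3 : 0 < C3 := by rw [hC3e]; positivity
  obtain ⟨K, hKe⟩ : ∃ K : ℝ, K = C1 * C3 / 8 := ⟨_, rfl⟩
  have hK : 0 < K := by rw [hKe]; positivity
  refine ⟨1 / (2 * K), C3, by positivity, hC3, ?_⟩
  intro s m hs0 hs4 hP
  have hRS : ∀ q : ℝ, 1 / 2 - s ≤ q → q ≤ 1 / 2 + s → ∀ j : ℕ, j ≤ m → RS ε q j :=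
    fun q h1 h2 j hj => NAd_RS hj (hP.1 q h1 h2)
  have hhalf1 : 1 / 2 - s ≤ (1 / 2 : ℝ) := by linarith
  have hhalf2 : (1 / 2 : ℝ) ≤ 1 / 2 + s := by linarith
  have hthird : ∀ j : ℕ, 1 ≤ j → j ≤ m → ∀ q : ℝ, 1 / 2 - s ≤ q → q ≤ 1 / 2 + s →
      (∀ r : ℕ, 1 ≤ r → r ≤ j → rho q r ≤ 2 * rho (1 / 2) r) → rho (1 / 2) j / 2 ≤ rho q j →
      1 + ∑ r ∈ Icc 1 j, (r : ℝ) * p4 q r ≤ C3 * (j : ℝ) ^ 2 * rho q j := by
    intro j hj hjm q hq1 hq2 hr hl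
    rw [hC3e]
    refine NAd_third hj hC2 hc0 hC0 (fun r h1 _ => hlaw r h1) ?_ ?_ hr hl
    · intro r h1 h2
      exact hp4 q r (by linarith) (by linarith) h1 (hRS q hq1 hq2 r (h2.trans hjm))
    · exact hp4 (1 / 2) j (by norm_num) (by norm_num) hj (hRS _ hhalf1 hhalf2 j hjm)
  have main : ∀ j : ℕ, 1 ≤ j → j ≤ m → ∀ q : ℝ, 1 / 2 - s ≤ q → q ≤ 1 / 2 + s →
      rho (1 / 2) j / 2 ≤ rho q j ∧ rho q j ≤ 2 * rho (1 / 2) j := by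
    intro j
    induction j using Nat.strong_induction_on with
    | _ j ih =>
    intro hj hjm q hq1 hq2
    have hj0 : (0 : ℝ) < j := by exact_mod_cast hj
    classical
    have hD : ∀ x : ℝ, ∃ D : ℝ, x ∈ Set.Icc (1 / 2 - s) (1 / 2 + s) →
        HasDerivAt (fun x : ℝ => rho x j) D x ∧
          |D| ≤ C1 * rho x j * (1 + ∑ r ∈ Icc 1 j, (r : ℝ) * p4 x r) := by
      intro x
      by_cases hx : x ∈ Set.Icc (1 / 2 - s) (1 / 2 + s)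
      · obtain ⟨D, h1, h2⟩ := hder x j (by linarith [hx.1]) (by linarith [hx.2]) hj
          (hRS x hx.1 hx.2 j hjm)
        exact ⟨D, fun _ => ⟨h1, h2⟩⟩
      · exact ⟨0, fun h => absurd h hx⟩
    choose f' hf' using hD
    have hpos : 0 < rho (1 / 2) j := by
      have e1 := (hlaw j hj).1
      have e2 := hp4 (1 / 2) j (by norm_num) (by norm_num) hj (hRS _ hhalf1 hhalf2 j hjm)
      have e3 : 0 < c0 * (j : ℝ) ^ (-(5 / 4) : ℝ) := mul_pos hc0 (Real.rpow_pos_of_pos hj0 _)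
      exact pos_of_mul_pos_right (lt_of_lt_of_le e3 (e1.trans e2)) hC2.le
    have hb := boot (a := 1 / 2 - s) (b := 1 / 2 + s) (x0 := 1 / 2) (K := K) ⟨hhalf1, hhalf2⟩
      (f := fun x => rho x j) (F := fun x => FW x j) (f' := f')
      (F' := fun x => 2 * (2 * (j : ℝ) + 1) ^ 2 * rho x j)
      (fun x hx => (hf' x hx).1) (fun x _ => FW_deriv j x) hpos
      (fun x hx => mul_nonneg (by positivity)
        (rho_nonneg (by linarith [hx.1]) (by linarith [hx.2]) j)) hK.le ?_ ?_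
    · exact hb q ⟨hq1, hq2⟩
    · intro x hx hx1 hx2
      have hx1' : rho (1 / 2) j / 2 ≤ rho x j := hx1
      have hx2' : rho x j ≤ 2 * rho (1 / 2) j := hx2
      have hrn : 0 ≤ rho x j := rho_nonneg (by linarith [hx.1]) (by linarith [hx.2]) j
      have h3 := hthird j hj hjm x hx.1 hx.2 (fun r h1 h2 => by
        rcases Nat.lt_or_ge r j with h | h
        · exact (ih r h h1 (h2.trans hjm) x hx.1 hx.2).2
        · have h5 : r = j := le_antisymm h2 h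
          rw [h5]
          exact hx2') hx1'
      have h4 := (hf' x hx).2
      show |f' x| ≤ K * rho x j * (2 * (2 * (j : ℝ) + 1) ^ 2 * rho x j)
      calc |f' x| ≤ C1 * rho x j * (1 + ∑ r ∈ Icc 1 j, (r : ℝ) * p4 x r) := h4
        _ ≤ C1 * rho x j * (C3 * (j : ℝ) ^ 2 * rho x j) :=
          mul_le_mul_of_nonneg_left h3 (mul_nonneg hC1.le hrn)
        _ = (C1 * C3 / 8) * rho x j * ((8 * (j : ℝ) ^ 2) * rho x j) := by ring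
        _ ≤ K * rho x j * (2 * (2 * (j : ℝ) + 1) ^ 2 * rho x j) := by
          rw [← hKe]
          refine mul_le_mul_of_nonneg_left ?_ (mul_nonneg hK.le hrn)
          refine mul_le_mul_of_nonneg_right ?_ hrn
          nlinarith
    · show K * (FW (1 / 2 + s) j - FW (1 / 2 - s) j) ≤ 1 / 2
      have h5 := hP.2 j hj hjm
      calc K * (FW (1 / 2 + s) j - FW (1 / 2 - s) j) ≤ K * (1 / (2 * K)) :=
            mul_le_mul_of_nonneg_left h5 hK.le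
        _ = 1 / 2 := by field_simp
  intro j hj hjm q hq1 hq2
  have h1 := main j hj hjm q hq1 hq2
  exact ⟨h1.1, h1.2, hthird j hj hjm q hq1 hq2
    (fun r h2 h3 => (main r h2 (h3.trans hjm) q hq1 hq2).2) h1.1⟩

end FKN
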