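import Mathlib
import Pool.Agent.Lib.MP_216314_pr.N.NAd

/-!
# JOB NAe: consequences of stability (about 150 lines)

Take `η` of `stab`.  (a) `rho q j ~ rho (1/2) j ~ j^(-5/4)` (`p4_rho`, `rho_le_p4`, `Law4`).  (b) `FW_deriv`: the derivative `2 (2 j + 1)² rho q j` is between `8 j² c j^(-5/4)` and `18 j² C j^(-5/4)` (`j ≥ 1`), `mean_bd` on `[1/2 - s, 1/2 + s]` (length `2 s`) and, for the last inequality,
on `[1/2, 1/2 + s]`.  (c) `FG_deriv` and the third inequality of `stab`: `|FG'| ≤ C FG (1 + ∑) ≤ C C3 FG j² rho ≤ K FG FW'`; `gron` on `[1/2 - s, 1/2 + s]`; `FW (1/2 + s) - FW (1/2 - s) ≤ 1`; `FG_pos`; then `p1 (1/2 + s) j ≤ C FG (1/2 + s) j` (`T5b`), `FG (1/2 - s) j ≤ p1 (1/2 - s) j` (`FG_le`).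
`FW_mono`: monotone in `q` (`IPC.Pr_mono_p`, `W_inc`).
-/

set_option autoImplicit false

namespace FKN

open Finset FKI FKP

theorem FW_mono {q q' : ℝ} (h0 : 0 ≤ q) (h : q ≤ q') (h1 : q' ≤ 1) (m : ℕ) : FW q m ≤ FW q' m :=
  IPC.Pr_mono_p h0 h h1 (TE m) (W_inc m)

theorem FW_bd {q : ℝ} (h0 : 0 ≤ q) (h1 : q ≤ 1) (m : ℕ) : 0 ≤ FW q m ∧ FW q m ≤ 1 :=
  ⟨IPC.Pr_nonneg h0 h1 _ _, IPC.Pr_le_one h0 h1 _ _⟩

theorem NAe_pow {x : ℝ} (hx : 0 < x) : x ^ 2 * x ^ (-(5 / 4) : ℝ) = x ^ ((3 / 4) : ℝ) := by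
  have h1 : x ^ 2 = x ^ (2 : ℝ) := (Real.rpow_natCast x 2).symm
  rw [h1, ← Real.rpow_add hx]
  norm_num

theorem NAe_sq {x : ℝ} (hx : 1 ≤ x) : 8 * x ^ 2 ≤ 2 * (2 * x + 1) ^ 2 ∧ 2 * (2 * x + 1) ^ 2 ≤ 18 * x ^ 2 := by
  constructor
  · nlinarith
  · nlinarith

theorem stabAll (hS : SepIn) (hR : RswIn) (hQ : QmIn) (h4 : Law4) {ε : ℝ} (hε : 0 < ε) : ∃ η c C : ℝ, 0 < η ∧ 0 < c ∧ 0 < C ∧
    ∀ (s : ℝ) (m : ℕ), 0 ≤ s → s ≤ 1 / 4 → Per ε η s m → ∀ j : ℕ, 1 ≤ j → j ≤ m →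
      (∀ q : ℝ, 1 / 2 - s ≤ q → q ≤ 1 / 2 + s → c * (j : ℝ) ^ (-(5 / 4) : ℝ) ≤ rho q j ∧ rho q j ≤ C * (j : ℝ) ^ (-(5 / 4) : ℝ)) ∧
      c * s * (j : ℝ) ^ ((3 / 4) : ℝ) ≤ FW (1 / 2 + s) j - FW (1 / 2 - s) j ∧
      FW (1 / 2 + s) j - FW (1 / 2 - s) j ≤ C * s * (j : ℝ) ^ ((3 / 4) : ℝ) ∧
      p1 (1 / 2 + s) j ≤ C * p1 (1 / 2 - s) j := by
  obtain ⟨η, C3, hη, hC3, hstab⟩ := stab hS h4 hε
  obtain ⟨C2, hC2, hp4⟩ := p4_rho hS hε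
  obtain ⟨C1, hC1, hFG⟩ := FG_deriv hR hQ hε
  obtain ⟨C5, hC5, hT5⟩ := T5b hR hε
  obtain ⟨c0, C0, hc0, hC0, hl⟩ := h4
  have ha1 : 0 < c0 / (2 * C2) := by positivity
  have hE : 0 < C5 * Real.exp (C1 * C3 / 8) := by positivity
  refine ⟨η, c0 / (2 * C2), 72 * C0 + C5 * Real.exp (C1 * C3 / 8), hη, ha1, by positivity, ?_⟩
  intro s m hs0 hs1 hP j hj1 hjm
  have hjR : (1 : ℝ) ≤ (j : ℝ) := by exact_mod_cast hj1
  have hjp : (0 : ℝ) < (j : ℝ) := by linarith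
  have hRS : ∀ q : ℝ, 1 / 2 - s ≤ q → q ≤ 1 / 2 + s → RS ε q j := fun q h1 h2 =>
    RS_mono hjm (hP.1 q h1 h2)
  have hpw : 0 < (j : ℝ) ^ (-(5 / 4) : ℝ) := Real.rpow_pos_of_pos hjp _
  have hpw2 : 0 < (j : ℝ) ^ ((3 / 4) : ℝ) := Real.rpow_pos_of_pos hjp _
  -- (a)
  have hmid := hp4 (1 / 2) j (by norm_num) (by norm_num) hj1 (hRS _ (by linarith) (by linarith))
  have hmid2 : rho (1 / 2) j ≤ p4 (1 / 2) j := rho_le_p4 (by norm_num) (by norm_num) hj1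
  obtain ⟨hl1, hl2⟩ := hl j hj1
  have hlow : c0 / C2 * (j : ℝ) ^ (-(5 / 4) : ℝ) ≤ rho (1 / 2) j := by
    rw [div_mul_eq_mul_div, div_le_iff₀ hC2]
    linarith
  have ha : ∀ q : ℝ, 1 / 2 - s ≤ q → q ≤ 1 / 2 + s →
      c0 / (2 * C2) * (j : ℝ) ^ (-(5 / 4) : ℝ) ≤ rho q j ∧ rho q j ≤ 2 * C0 * (j : ℝ) ^ (-(5 / 4) : ℝ) := by
    intro q h1 h2
    obtain ⟨g1, g2, _⟩ := hstab s m hs0 hs1 hP j hj1 hjm q h1 h2
    constructor
    · have e : c0 / (2 * C2) = c0 / C2 / 2 := by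
        field_simp
      rw [e]
      linarith
    · linarith
  obtain ⟨hs8, hs18⟩ := NAe_sq hjR
  -- derivative bounds
  have hder : ∀ q ∈ Set.Icc (1 / 2 - s) (1 / 2 + s),
      8 * (c0 / (2 * C2)) * (j : ℝ) ^ ((3 / 4) : ℝ) ≤ 2 * (2 * (j : ℝ) + 1) ^ 2 * rho q j ∧
        2 * (2 * (j : ℝ) + 1) ^ 2 * rho q j ≤ 36 * C0 * (j : ℝ) ^ ((3 / 4) : ℝ) := by
    intro q hq
    obtain ⟨g1, g2⟩ := ha q hq.1 hq.2
    rw [← NAe_pow hjp]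
    have g0 : 0 ≤ rho q j := le_trans (by positivity) g1
    constructor
    · calc 8 * (c0 / (2 * C2)) * ((j : ℝ) ^ 2 * (j : ℝ) ^ (-(5 / 4) : ℝ))
          = 8 * (j : ℝ) ^ 2 * (c0 / (2 * C2) * (j : ℝ) ^ (-(5 / 4) : ℝ)) := by ring
        _ ≤ 8 * (j : ℝ) ^ 2 * rho q j := mul_le_mul_of_nonneg_left g1 (by positivity)
        _ ≤ 2 * (2 * (j : ℝ) + 1) ^ 2 * rho q j := mul_le_mul_of_nonneg_right hs8 g0
    · calc 2 * (2 * (j : ℝ) + 1) ^ 2 * rho q j ≤ 18 * (j : ℝ) ^ 2 * rho q j :=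
            mul_le_mul_of_nonneg_right hs18 g0
        _ ≤ 18 * (j : ℝ) ^ 2 * (2 * C0 * (j : ℝ) ^ (-(5 / 4) : ℝ)) :=
            mul_le_mul_of_nonneg_left g2 (by positivity)
        _ = 36 * C0 * ((j : ℝ) ^ 2 * (j : ℝ) ^ (-(5 / 4) : ℝ)) := by ring
  have hmean := mean_bd (a := 1 / 2 - s) (b := 1 / 2 + s) (by linarith) (fun x _ => FW_deriv j x) hder
  have hlen : (1 / 2 + s) - (1 / 2 - s) = 2 * s := by ring
  rw [hlen] at hmean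
  have hsp : 0 ≤ s * (j : ℝ) ^ ((3 / 4) : ℝ) := by positivity
  refine ⟨?_, ?_, ?_, ?_⟩
  · intro q h1 h2
    obtain ⟨g1, g2⟩ := ha q h1 h2
    refine ⟨g1, g2.trans (mul_le_mul_of_nonneg_right ?_ hpw.le)⟩
    linarith
  · refine le_trans ?_ hmean.1
    have h5 : 0 ≤ c0 / (2 * C2) * (s * (j : ℝ) ^ ((3 / 4) : ℝ)) := by positivity
    linarith
  · refine hmean.2.trans ?_
    have h5 : 0 ≤ C5 * Real.exp (C1 * C3 / 8) * (s * (j : ℝ) ^ ((3 / 4) : ℝ)) := by positivity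
    have h6 : 36 * C0 * (j : ℝ) ^ ((3 / 4) : ℝ) * (2 * s) = 72 * C0 * (s * (j : ℝ) ^ ((3 / 4) : ℝ)) := by ring
    rw [h6, mul_assoc _ s, add_mul]
    linarith
  · -- (c)
    have hD : ∀ q ∈ Set.Icc (1 / 2 - s) (1 / 2 + s), ∃ D : ℝ, HasDerivAt (fun x : ℝ => FG x j) D q ∧
        |D| ≤ C1 * C3 / 8 * FG q j * (2 * (2 * (j : ℝ) + 1) ^ 2 * rho q j) := by
      intro q hq
      obtain ⟨D, h1, h2⟩ := hFG q j (by linarith [hq.1]) (by linarith [hq.2]) hj1 (hRS q hq.1 hq.2)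
      obtain ⟨_, _, g3⟩ := hstab s m hs0 hs1 hP j hj1 hjm q hq.1 hq.2
      refine ⟨D, h1, h2.trans ?_⟩
      have hF : 0 ≤ FG q j := (FG_pos (by linarith [hq.1]) (by linarith [hq.2]) j).le
      have g0 : 0 ≤ rho q j := le_trans (by positivity) (ha q hq.1 hq.2).1
      calc C1 * FG q j * (1 + ∑ r ∈ Icc 1 j, (r : ℝ) * p4 q r)
          ≤ C1 * FG q j * (C3 * (j : ℝ) ^ 2 * rho q j) := mul_le_mul_of_nonneg_left g3 (by positivity)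
        _ = C1 * C3 / 8 * FG q j * (8 * (j : ℝ) ^ 2 * rho q j) := by ring
        _ ≤ C1 * C3 / 8 * FG q j * (2 * (2 * (j : ℝ) + 1) ^ 2 * rho q j) :=
            mul_le_mul_of_nonneg_left (mul_le_mul_of_nonneg_right hs8 g0) (by positivity)
    choose! D hD1 using hD
    have hg := gron (a := 1 / 2 - s) (b := 1 / 2 + s) (K := C1 * C3 / 8) (by linarith)
      (f := fun x => FG x j) (F := fun x => FW x j) (f' := D) (F' := fun x => 2 * (2 * (j : ℝ) + 1) ^ 2 * rho x j)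
      (fun x hx => (hD1 x hx).1) (fun x _ => FW_deriv j x)
      (fun x hx => FG_pos (by linarith [hx.1]) (by linarith [hx.2]) j) (fun x hx => (hD1 x hx).2)
    have h1 := hT5 (1 / 2 + s) j (by linarith) (by linarith) (hRS _ (by linarith) (by linarith))
    have h2 : FG (1 / 2 - s) j ≤ p1 (1 / 2 - s) j := FG_le (by linarith) (by linarith) j
    have h3 : FW (1 / 2 + s) j - FW (1 / 2 - s) j ≤ 1 := by
      have e1 := (FW_bd (q := 1 / 2 + s) (by linarith) (by linarith) j).2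
      have e2 := (FW_bd (q := 1 / 2 - s) (by linarith) (by linarith) j).1
      linarith
    have h4 : Real.exp (C1 * C3 / 8 * (FW (1 / 2 + s) j - FW (1 / 2 - s) j)) ≤ Real.exp (C1 * C3 / 8) := by
      refine Real.exp_le_exp.2 ?_
      have : 0 ≤ C1 * C3 / 8 := by positivity
      nlinarith
    have hFm : 0 < FG (1 / 2 - s) j := FG_pos (by linarith) (by linarith) j
    have hpm : 0 ≤ p1 (1 / 2 - s) j := hFm.le.trans h2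
    calc p1 (1 / 2 + s) j ≤ C5 * FG (1 / 2 + s) j := h1
      _ ≤ C5 * (FG (1 / 2 - s) j * Real.exp (C1 * C3 / 8 * (FW (1 / 2 + s) j - FW (1 / 2 - s) j))) :=
          mul_le_mul_of_nonneg_left hg hC5.le
      _ ≤ C5 * (p1 (1 / 2 - s) j * Real.exp (C1 * C3 / 8)) :=
          mul_le_mul_of_nonneg_left (mul_le_mul h2 h4 (Real.exp_pos _).le hpm) hC5.le
      _ = C5 * Real.exp (C1 * C3 / 8) * p1 (1 / 2 - s) j := by ring
      _ ≤ (72 * C0 + C5 * Real.exp (C1 * C3 / 8)) * p1 (1 / 2 - s) j :=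
          mul_le_mul_of_nonneg_right (by linarith) hpm

end FKN
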