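import Mathlib
import Pool.Agent.Lib.MP_216314_pr.N.NTc
import Pool.Agent.Lib.MP_216314_pr.N.NTd

/-!
# JOB NTk: a winding loop crosses squares or rectangles (combinatorics, about 200 lines)

`k ≥ 1`, `k ≤ m`; `X : ℤ → ℤ` with `X t + k ≤ X (t + 1)`, `X (t + N) = X t + (2 m + 1)`, `X (t + 1) + k - X (t - 1) ≤ m`.
`PH j ω` = property the horizontal strip is crossed vertically in the lift: there are `u w` with `u.2 = 0`, `w.2 = k` connected in `rst (tgr m ω) {v | 0 ≤ v.2 ∧ v.2 ≤ k}`.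
* `wind_strip`: if `W m ω` then the horizontal strip `0 ≤ y ≤ k` is crossed vertically or the vertical strip `0 ≤ x ≤ k` is crossed horizontally.  Proof: `v ~ v + pr w`, `w ≠ 0`, say `w.2 ≠ 0`, up to `w ↦ -w` (start from the other end, periodicity) `w.2 > 0`.
  `v ~ v + pr w ~ v + 2 pr w` (`tgr_shift`).  Let `s = (2 m + 1) j` be the smallest multiple with `v.2 ≤ s`, so `s ≤ v.2 + 2 m`, `s + k ≤ v.2 + 2 (2 m + 1) ≤ (v + 2 pr w).2`.  `subcross` with `f = (·.2)`, `s`, `t = s + k` (`nrm_step`);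
  translate back by `- pr (0, j)` (`tgr_shift` for the restricted graph: redo `Reachable.map`, the translation maps the strip to the strip).
* `strip_cross`: if the horizontal strip is crossed vertically, then there is `t` with `0 ≤ t < N` such that the square `[X t, X t + k] × [0, k]` is crossed horizontally, i.e. `HC 0 k 0 k (sh m (-(X t, 0)) ω)`, or the rectangle
  `[X (t-1), X (t+1) + k] × [0, k]` is crossed vertically: `VC 0 (X (t+1) + k - X (t-1)) 0 k (sh m (-(X (t-1), 0)) ω)`.  Proof: the path starts at `u`, `u.2 = 0`; translate by a period such that `X t ≤ u.1 ≤ X (t+1)` with `0 ≤ t < N` (`X` is increasing, unbounded).  If the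
  path (in the strip) stays in `X (t-1) ≤ x ≤ X (t+1) + k`, it crosses the rectangle vertically.  Otherwise it reaches `x ≥ X (t+1) + k` or `x ≤ X (t-1)`: `subcross` with `f = (·.1)` in the graph restricted to the strip gives a connection from
  `x = X (t+1)` to `x = X (t+1) + k` inside the square at `X (t+1)`, or (reversed) from `x = X (t-1) + k ≤ X t` to `x = X (t-1)` inside the square at `X (t-1)`.  Squares with index `-1`, `N` are translates by a period of those with index `N - 1`, `0`: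
  `sh m (-(X t, 0)) ω` is the same configuration (`sh m (pr m w) ω = ω`; `cm_pr`).
* From the lift to `HC`: after recentring (`tgr_sh`-like map for the restricted graphs) all vertices are in `[0, L] × [0, k] ⊆ [-m, m]²`, the edges `e` with both ends there satisfy `cm m e = e` and `e ∈ box 0 L 0 k`: `to_conn`.
-/

set_option autoImplicit false

namespace FKN

open Finset FKI FKP

private theorem NTk_map {G G' : SimpleGraph V} {S S' : Set V} (f : V → V)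
    (hG : ∀ u v, G.Adj u v → G'.Adj (f u) (f v)) (hS : ∀ u ∈ S, f u ∈ S') {u v : V}
    (h : (rst G S).Reachable u v) : (rst G' S').Reachable (f u) (f v) :=
  h.map (⟨f, fun hab => ⟨hG _ _ hab.1, hS _ hab.2.1, hS _ hab.2.2⟩⟩ : (rst G S) →g (rst G' S'))

private theorem NTk_le (G : SimpleGraph V) (S : Set V) : rst G S ≤ G := fun _ _ h => h.1

private theorem NTk_mem {G : SimpleGraph V} {S : Set V} {u v : V} (hu : u ∈ S) (h : (rst G S).Reachable u v) : v ∈ S := by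
  rw [SimpleGraph.reachable_iff_reflTransGen] at h
  induction h with
  | refl => exact hu
  | tail _ h1 _ => exact h1.2.2

private theorem NTk_stay {G : SimpleGraph V} {R : Set V} {u w : V} (h : G.Reachable u w) :
    (rst G R).Reachable u w ∨ ∃ z, z ∉ R ∧ G.Reachable u z := by
  by_cases hz : ∃ z, z ∉ R ∧ G.Reachable u z
  · exact Or.inr hz
  · left
    push Not at hz
    have hR : ∀ z, G.Reachable u z → z ∈ R := fun z h => by
      by_contra hn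
      exact hz z hn h
    rw [SimpleGraph.reachable_iff_reflTransGen] at h
    induction h with
    | refl => exact SimpleGraph.Reachable.refl _
    | @tail b c h1 h2 ih =>
      have hb : G.Reachable u b := SimpleGraph.reachable_iff_reflTransGen u b |>.2 h1
      have hc : G.Reachable u c := hb.trans h2.reachable
      have h3 : (rst G R).Adj b c := ⟨h2, hR _ hb, hR _ hc⟩
      exact ih.trans h3.reachable

private theorem NTk_shift {m : ℕ} {ω : Finset Edge} (w : V) {u v : V} (h : (tgr m ω).Adj u v) :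
    (tgr m ω).Adj (u + pr m w) (v + pr m w) := by
  rw [tgr_adj] at h ⊢
  obtain ⟨e, he, h1⟩ := h
  refine ⟨shv (pr m w) e, by rw [cm_pr]; exact he, ?_⟩
  rw [ea_shv, eb_shv]
  rcases h1 with ⟨h1, h2⟩ | ⟨h1, h2⟩
  · left; exact ⟨by rw [h1], by rw [h2]⟩
  · right; exact ⟨by rw [h1], by rw [h2]⟩

/-- a connection of the lift inside a rectangle of the fundamental domain of a recentred configuration -/
theorem to_conn {m : ℕ} {ω : Finset Edge} (hω : ω ⊆ TE m) {z : V} {L k : ℕ} (hL : L ≤ m) (hk : k ≤ m) {u w : V}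
    (h : (rst (tgr m ω) {v | (z.1 ≤ v.1 ∧ v.1 ≤ z.1 + L) ∧ (z.2 ≤ v.2 ∧ v.2 ≤ z.2 + k)}).Reachable u w) :
    Conn (box 0 L 0 k) (sh m (-z) ω) (u - z) (w - z) := by
  have key : ∀ a b : V, (rst (tgr m ω) {v | (z.1 ≤ v.1 ∧ v.1 ≤ z.1 + L) ∧ (z.2 ≤ v.2 ∧ v.2 ≤ z.2 + k)}).Adj a b →
      (gr (sh m (-z) ω ∩ box 0 L 0 k)).Adj (a - z) (b - z) := by
    intro a b hab
    obtain ⟨h1, h2, h3⟩ := hab
    have hne : a ≠ b := h1.ne
    rw [tgr_adj] at h1
    obtain ⟨e, he, h4⟩ := h1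
    have h5 : ea e ∈ {v : V | (z.1 ≤ v.1 ∧ v.1 ≤ z.1 + L) ∧ (z.2 ≤ v.2 ∧ v.2 ≤ z.2 + k)} ∧
        eb e ∈ {v : V | (z.1 ≤ v.1 ∧ v.1 ≤ z.1 + L) ∧ (z.2 ≤ v.2 ∧ v.2 ≤ z.2 + k)} := by
      rcases h4 with ⟨h5, h6⟩ | ⟨h5, h6⟩
      · rw [h5, h6]; exact ⟨h2, h3⟩
      · rw [h5, h6]; exact ⟨h3, h2⟩
    obtain ⟨h5, h6⟩ := h5
    obtain ⟨⟨h51, h52⟩, h53, h54⟩ := h5
    obtain ⟨⟨h61, h62⟩, h63, h64⟩ := h6
    have hb : shv (-z) e ∈ box 0 L 0 k := by
      obtain ⟨x, y, t⟩ := e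
      rw [mem_box]
      cases t
      · left
        simp only [ea, eb, shv, Prod.fst_neg, Prod.snd_neg, Bool.false_eq_true, if_false] at *
        refine ⟨trivial, ?_, ?_, ?_, ?_⟩ <;> omega
      · right
        simp only [ea, eb, shv, Prod.fst_neg, Prod.snd_neg, if_true] at *
        refine ⟨trivial, ?_, ?_, ?_, ?_⟩ <;> omega
    have hT : shv (-z) e ∈ TE m := by
      rw [mem_TE]
      have hL' : (L : ℤ) ≤ m := by exact_mod_cast hL
      have hk' : (k : ℤ) ≤ m := by exact_mod_cast hk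
      simp only [ea, shv, Prod.fst_neg, Prod.snd_neg] at *
      refine ⟨⟨?_, ?_⟩, ?_, ?_⟩ <;> omega
    have hs : shv (-z) e ∈ sh m (-z) ω := by
      have h7 := (mem_sh (-z) hω (e := shv (-z) e)).2 (by
        rw [shv_shv, neg_neg, add_neg_cancel, shv_zero]
        exact he)
      rw [cm_self hT] at h7
      exact h7
    have hm : shv (-z) e ∈ sh m (-z) ω ∩ box 0 L 0 k := mem_inter.2 ⟨hs, hb⟩
    unfold gr
    rw [SimpleGraph.fromRel_adj]
    refine ⟨fun h => hne (sub_left_injective h), ?_⟩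
    rcases h4 with ⟨h7, h8⟩ | ⟨h7, h8⟩
    · left
      exact ⟨_, hm, by rw [ea_shv, h7, sub_eq_add_neg], by rw [eb_shv, h8, sub_eq_add_neg]⟩
    · right
      exact ⟨_, hm, by rw [ea_shv, h7, sub_eq_add_neg], by rw [eb_shv, h8, sub_eq_add_neg]⟩
  unfold Conn
  exact h.map (⟨fun v => v - z, fun {a b} hab => key a b hab⟩ :
    (rst (tgr m ω) {v | (z.1 ≤ v.1 ∧ v.1 ≤ z.1 + L) ∧ (z.2 ≤ v.2 ∧ v.2 ≤ z.2 + k)}) →g (gr (sh m (-z) ω ∩ box 0 L 0 k)))

private theorem NTk_ws {m k : ℕ} (hk : k ≤ m) {ω : Finset Edge} (f : V → ℤ) (g : ℤ → V)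
    (hf : ∀ u v, (tgr m ω).Adj u v → |f u - f v| ≤ 1) (hadd : ∀ u w, f (u + pr m w) = f u + (2 * m + 1) * f w)
    (hg : ∀ j, f (g j) = j) {v w : V} (hw : 0 < f w) (h : (tgr m ω).Reachable v (v + pr m w)) :
    ∃ u w : V, f u = 0 ∧ f w = k ∧ (rst (tgr m ω) {v | 0 ≤ f v ∧ f v ≤ k}).Reachable u w := by
  have h1 : (tgr m ω).Reachable (v + pr m w) (v + pr m w + pr m w) := (tgr_shift m ω w v (v + pr m w)).2 h
  have h2 := h.trans h1
  have hM : (0 : ℤ) < 2 * m + 1 := by positivity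
  obtain ⟨j, hj⟩ : ∃ j : ℤ, j = (f v + 2 * m) / (2 * m + 1) := ⟨_, rfl⟩
  have h3 : (f v + 2 * m) % (2 * m + 1) + (2 * m + 1) * j = f v + 2 * m := by rw [hj]; exact Int.emod_add_mul_ediv _ _
  have h4 := Int.emod_nonneg (f v + 2 * m) hM.ne'
  have h5 := Int.emod_lt_of_pos (f v + 2 * m) hM
  obtain ⟨s, hs⟩ : ∃ s : ℤ, s = (2 * m + 1) * j := ⟨_, rfl⟩
  rw [← hs] at h3
  have hkm : (k : ℤ) ≤ m := by exact_mod_cast hk
  have h6 : (2 * (m : ℤ) + 1) * 1 ≤ (2 * m + 1) * f w := mul_le_mul_of_nonneg_left (by omega) hM.le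
  have h7 : s + k ≤ f (v + pr m w + pr m w) := by
    rw [hadd, hadd]
    linarith
  obtain ⟨a, b, ha, hb, hab, -⟩ := subcross f hf h2 (s := s) (t := s + k) (by linarith [Int.natCast_nonneg k]) (by linarith) h7
  have h8 : ∀ x : V, f (x + pr m (g (-j))) = f x - s := by
    intro x
    rw [hadd, hg, hs]
    ring
  refine ⟨a + pr m (g (-j)), b + pr m (g (-j)), by rw [h8, ha, sub_self], by rw [h8, hb]; ring, ?_⟩
  refine NTk_map (fun x => x + pr m (g (-j))) (fun u v h => NTk_shift _ h) ?_ hab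
  intro x hx
  obtain ⟨hx1, hx2⟩ := hx
  refine ⟨?_, ?_⟩
  · rw [h8]; linarith
  · rw [h8]; linarith

private theorem NTk_ws' {m k : ℕ} (hk : k ≤ m) {ω : Finset Edge} (f : V → ℤ) (g : ℤ → V)
    (hf : ∀ u v, (tgr m ω).Adj u v → |f u - f v| ≤ 1) (hadd : ∀ u w, f (u + pr m w) = f u + (2 * m + 1) * f w)
    (hneg : ∀ w, f (-w) = - f w)
    (hg : ∀ j, f (g j) = j) {v w : V} (hw : f w ≠ 0) (h : (tgr m ω).Reachable v (v + pr m w)) :
    ∃ u w : V, f u = 0 ∧ f w = k ∧ (rst (tgr m ω) {v | 0 ≤ f v ∧ f v ≤ k}).Reachable u w := by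
  rcases lt_or_gt_of_ne hw with h1 | h1
  · refine NTk_ws hk f g hf hadd hg (v := v + pr m w) (w := -w) (by rw [hneg]; linarith) ?_
    rw [pr_neg, add_neg_cancel_right]
    exact h.symm
  · exact NTk_ws hk f g hf hadd hg h1 h

theorem wind_strip {m k : ℕ} (hk : k ≤ m) {ω : Finset Edge} (h : W m ω) :
    (∃ u w : V, u.2 = 0 ∧ w.2 = k ∧ (rst (tgr m ω) {v | 0 ≤ v.2 ∧ v.2 ≤ k}).Reachable u w) ∨
    (∃ u w : V, u.1 = 0 ∧ w.1 = k ∧ (rst (tgr m ω) {v | 0 ≤ v.1 ∧ v.1 ≤ k}).Reachable u w) := by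
  obtain ⟨v, w, hw, h⟩ := h
  by_cases h2 : w.2 = 0
  · right
    have h1 : w.1 ≠ 0 := fun h1 => hw (Prod.ext h1 h2)
    exact NTk_ws' hk (fun v => v.1) (fun j => (j, 0)) (fun u v h => (nrm_step h).2.1) (fun u w => rfl) (fun w => rfl)
      (fun j => rfl) h1 h
  · left
    exact NTk_ws' hk (fun v => v.2) (fun j => (0, j)) (fun u v h => (nrm_step h).2.2) (fun u w => rfl) (fun w => rfl)
      (fun j => rfl) h2 h

private theorem NTk_sh (m : ℕ) (v w : V) (ω : Finset Edge) : sh m (v + pr m w) ω = sh m v ω := by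
  unfold sh
  refine Finset.image_congr ?_
  intro e _
  show cm m (shv (v + pr m w) e) = cm m (shv v e)
  rw [add_comm, ← shv_shv, cm_pr]

private theorem NTk_X {m N : ℕ} {X : ℤ → ℤ} (hp : ∀ t, X (t + N) = X t + (2 * m + 1)) (t j : ℤ) :
    X (t + N * j) = X t + (2 * m + 1) * j := by
  induction j using Int.induction_on with
  | zero => simp
  | succ i ih =>
    have h1 : t + (N : ℤ) * ((i : ℤ) + 1) = t + N * i + N := by ring
    rw [h1, hp, ih]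
    ring
  | pred i ih =>
    have h1 := hp (t + (N : ℤ) * (-(i : ℤ) - 1))
    have h2 : t + (N : ℤ) * (-(i : ℤ) - 1) + N = t + N * (-(i : ℤ)) := by ring
    rw [h2, ih] at h1
    linarith

private theorem NTk_per {m k N : ℕ} (hN : 1 ≤ N) {X : ℤ → ℤ}
    (hp : ∀ t, X (t + N) = X t + (2 * m + 1)) {L : ℤ → ℕ} (hL : ∀ t, (L t : ℤ) = X (t + 1) + k - X (t - 1))
    {ω : Finset Edge} {t : ℤ}
    (h : HC 0 k 0 k (sh m (-(X t, 0)) ω) ∨ VC 0 (L t) 0 k (sh m (-(X (t - 1), 0)) ω)) :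
    ∃ t : ℤ, 0 ≤ t ∧ t < N ∧ (HC 0 k 0 k (sh m (-(X t, 0)) ω) ∨ VC 0 (L t) 0 k (sh m (-(X (t - 1), 0)) ω)) := by
  have hN0 : (0 : ℤ) < N := by exact_mod_cast hN
  refine ⟨t % N, Int.emod_nonneg _ hN0.ne', Int.emod_lt_of_pos _ hN0, ?_⟩
  have h0 : t = t % N + N * (t / N) := (Int.emod_add_mul_ediv t N).symm
  have h1 : ∀ s : ℤ, X (t + s) = X (t % N + s) + (2 * m + 1) * (t / N) := by
    intro s
    rw [← NTk_X hp]
    congr 1
    linarith
  have h2 : ∀ s : ℤ, sh m (-(X (t + s), 0)) ω = sh m (-(X (t % N + s), 0)) ω := by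
    intro s
    rw [h1 s, ← NTk_sh m (-(X (t % N + s), 0)) (-(t / N), 0) ω]
    congr 1
    refine Prod.ext ?_ ?_
    · show -(X (t % N + s) + (2 * m + 1) * (t / N)) = -X (t % N + s) + (2 * m + 1) * (-(t / N))
      ring
    · show -(0 : ℤ) = -0 + (2 * m + 1) * 0
      ring
  have h3 : L t = L (t % N) := by
    have h4 : (L t : ℤ) = L (t % N) := by
      rw [hL, hL, h1 1, sub_eq_add_neg t 1, h1 (-1), ← sub_eq_add_neg (t % N) 1]
      ring
    exact_mod_cast h4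
  have h5 := h2 0
  have h6 := h2 (-1)
  rw [add_zero, add_zero] at h5
  rw [← sub_eq_add_neg, ← sub_eq_add_neg] at h6
  rw [← h3, ← h5, ← h6]
  exact h

private theorem NTk_find {k : ℕ} (hk1 : 1 ≤ k) {X : ℤ → ℤ} (hX : ∀ t, X t + k ≤ X (t + 1)) (a : ℤ) :
    ∃ t : ℤ, X t ≤ a ∧ a ≤ X (t + 1) := by
  have hk : (1 : ℤ) ≤ k := by exact_mod_cast hk1
  have hmon : Monotone (fun t : ℤ => X t - t) := by
    refine monotone_int_of_le_succ ?_
    intro t
    have := hX t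
    show X t - t ≤ X (t + 1) - (t + 1)
    linarith
  obtain ⟨t, ht, ht'⟩ := Int.exists_greatest_of_bdd (P := fun t => X t ≤ a) ⟨max 0 (a - X 0), by
    intro z hz
    by_contra hn
    push Not at hn
    have h0 : 0 < z := lt_of_le_of_lt (le_max_left _ _) hn
    have h1 : a - X 0 < z := lt_of_le_of_lt (le_max_right _ _) hn
    have h2 := hmon h0.le
    simp only [sub_zero] at h2
    linarith⟩ ⟨min 0 (a - X 0), by
    have h0 : min 0 (a - X 0) ≤ 0 := min_le_left _ _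
    have h1 : min 0 (a - X 0) ≤ a - X 0 := min_le_right _ _
    have h2 := hmon h0
    simp only [sub_zero] at h2
    linarith⟩
  refine ⟨t, ht, ?_⟩
  by_contra hn
  push Not at hn
  have := ht' (t + 1) hn.le
  omega

theorem strip_cross {m k N : ℕ} (hk1 : 1 ≤ k) (hk : k ≤ m) (hN : 1 ≤ N) {X : ℤ → ℤ} (hX : ∀ t, X t + k ≤ X (t + 1))
    (hp : ∀ t, X (t + N) = X t + (2 * m + 1)) {L : ℤ → ℕ} (hL : ∀ t, (L t : ℤ) = X (t + 1) + k - X (t - 1)) (hLm : ∀ t, L t ≤ m)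
    {ω : Finset Edge} (hω : ω ⊆ TE m)
    (h : ∃ u w : V, u.2 = 0 ∧ w.2 = k ∧ (rst (tgr m ω) {v | 0 ≤ v.2 ∧ v.2 ≤ k}).Reachable u w) :
    ∃ t : ℤ, 0 ≤ t ∧ t < N ∧ (HC 0 k 0 k (sh m (-(X t, 0)) ω) ∨ VC 0 (L t) 0 k (sh m (-(X (t - 1), 0)) ω)) := by
  obtain ⟨u, w, hu, hw, h⟩ := h
  obtain ⟨t, ht1, ht2⟩ := NTk_find hk1 hX u.1
  have hk0 : (0 : ℤ) ≤ k := Int.natCast_nonneg k
  have huS : u ∈ {v : V | 0 ≤ v.2 ∧ v.2 ≤ k} := ⟨by omega, by omega⟩
  have hstep : ∀ a b, (rst (tgr m ω) {v : V | 0 ≤ v.2 ∧ v.2 ≤ k}).Adj a b → |a.1 - b.1| ≤ 1 := fun a b h => (nrm_step h.1).2.1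
  have hXt := hX (t - 1)
  rw [sub_add_cancel] at hXt
  have hXt' := hX t
  -- a crossing of a square
  have sq : ∀ s : ℤ, (∃ a b : V, a.1 = X s ∧ b.1 = X s + k ∧ a ∈ {v : V | 0 ≤ v.2 ∧ v.2 ≤ k} ∧
      (rst (rst (tgr m ω) {v : V | 0 ≤ v.2 ∧ v.2 ≤ k}) {v : V | X s ≤ v.1 ∧ v.1 ≤ X s + k}).Reachable a b) →
      HC 0 k 0 k (sh m (-(X s, 0)) ω) := by
    rintro s ⟨a, b, ha, hb, haS, hab⟩
    have hbS : b ∈ {v : V | 0 ≤ v.2 ∧ v.2 ≤ k} := NTk_mem haS (hab.mono (NTk_le _ _))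
    have h1 : (rst (tgr m ω) {v : V | ((X s, (0 : ℤ)).1 ≤ v.1 ∧ v.1 ≤ (X s, (0 : ℤ)).1 + k) ∧
        ((X s, (0 : ℤ)).2 ≤ v.2 ∧ v.2 ≤ (X s, (0 : ℤ)).2 + k)}).Reachable a b := by
      refine hab.mono ?_
      intro x y hxy
      obtain ⟨⟨h1, h2, h3⟩, h4, h5⟩ := hxy
      refine ⟨h1, ⟨h4, h2.1, ?_⟩, ⟨h5, h3.1, ?_⟩⟩
      · rw [zero_add]; exact h2.2
      · rw [zero_add]; exact h3.2
    have h2 := to_conn hω hk hk h1
    refine ⟨a.2, b.2, haS.1, haS.2, hbS.1, hbS.2, ?_⟩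
    have e1 : a - (X s, (0 : ℤ)) = (0, a.2) := Prod.ext (by show a.1 - X s = 0; rw [ha]; ring) (by show a.2 - 0 = a.2; ring)
    have e2 : b - (X s, (0 : ℤ)) = ((k : ℤ), b.2) := Prod.ext (by show b.1 - X s = k; rw [hb]; ring) (by show b.2 - 0 = b.2; ring)
    rw [e1, e2] at h2
    exact h2
  rcases NTk_stay (R := {v : V | X (t - 1) ≤ v.1 ∧ v.1 ≤ X (t + 1) + k}) h with h1 | ⟨z, hz, h1⟩
  · -- the path stays in the rectangle
    refine NTk_per hN hp hL (t := t) (Or.inr ?_)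
    have huR : u ∈ {v : V | X (t - 1) ≤ v.1 ∧ v.1 ≤ X (t + 1) + k} := ⟨by omega, by omega⟩
    have hwR : w ∈ {v : V | X (t - 1) ≤ v.1 ∧ v.1 ≤ X (t + 1) + k} := NTk_mem huR h1
    have hLt := hL t
    have h2 : (rst (tgr m ω) {v : V | ((X (t - 1), (0 : ℤ)).1 ≤ v.1 ∧ v.1 ≤ (X (t - 1), (0 : ℤ)).1 + L t) ∧
        ((X (t - 1), (0 : ℤ)).2 ≤ v.2 ∧ v.2 ≤ (X (t - 1), (0 : ℤ)).2 + k)}).Reachable u w := by
      refine h1.mono ?_
      intro x y hxy
      obtain ⟨⟨h1, h2, h3⟩, h4, h5⟩ := hxy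
      refine ⟨h1, ⟨⟨h4.1, ?_⟩, h2.1, ?_⟩, ⟨⟨h5.1, ?_⟩, h3.1, ?_⟩⟩
      · show x.1 ≤ X (t - 1) + L t
        have := h4.2
        omega
      · rw [zero_add]; exact h2.2
      · show y.1 ≤ X (t - 1) + L t
        have := h5.2
        omega
      · rw [zero_add]; exact h3.2
    have h3 := to_conn hω (hLm t) hk h2
    obtain ⟨hu1, hu2⟩ := huR
    obtain ⟨hw1, hw2⟩ := hwR
    refine ⟨u.1 - X (t - 1), w.1 - X (t - 1), by omega, by omega, by omega, by omega, ?_⟩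
    have e1 : u - (X (t - 1), (0 : ℤ)) = (u.1 - X (t - 1), 0) := Prod.ext rfl (by show u.2 - 0 = 0; rw [hu]; ring)
    have e2 : w - (X (t - 1), (0 : ℤ)) = (w.1 - X (t - 1), (k : ℤ)) := Prod.ext rfl (by show w.2 - 0 = k; rw [hw]; ring)
    rw [e1, e2] at h3
    exact h3
  · by_cases hz1 : X (t + 1) + k ≤ z.1
    · refine NTk_per hN hp hL (t := t + 1) (Or.inl (sq (t + 1) ?_))
      obtain ⟨a, b, ha, hb, hab, hua⟩ := subcross (fun v => v.1) hstep h1 (s := X (t + 1)) (t := X (t + 1) + k) (by omega) ht2 hz1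
      exact ⟨a, b, ha, hb, NTk_mem huS hua, hab⟩
    · have hz2 : z.1 ≤ X (t - 1) := by
        by_contra hn
        push Not at hn hz1
        exact hz ⟨hn.le, hz1.le⟩
      refine NTk_per hN hp hL (t := t - 1) (Or.inl (sq (t - 1) ?_))
      obtain ⟨a, b, ha, hb, hab, hua⟩ := subcross (fun v => v.1) hstep h1.symm (s := X (t - 1)) (t := X (t - 1) + k) (by omega) hz2
        (show X (t - 1) + k ≤ u.1 by omega)
      exact ⟨a, b, ha, hb, NTk_mem huS (h1.trans hua), hab⟩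

private theorem NTk_ea (e : Edge) : ea (tre e) = (ea e).swap := rfl

private theorem NTk_eb (e : Edge) : eb (tre e) = (eb e).swap := by
  obtain ⟨x, y, t⟩ := e
  cases t <;> rfl

private theorem NTk_tr {m : ℕ} {ω : Finset Edge} {u v : V} (h : (tgr m ω).Adj u v) :
    (tgr m (ω.image tre)).Adj u.swap v.swap := by
  rw [tgr_adj] at h ⊢
  obtain ⟨e, he, h1⟩ := h
  refine ⟨tre e, mem_image.2 ⟨cm m e, he, rfl⟩, ?_⟩
  rw [NTk_ea, NTk_eb]
  rcases h1 with ⟨h1, h2⟩ | ⟨h1, h2⟩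
  · left; exact ⟨by rw [h1], by rw [h2]⟩
  · right; exact ⟨by rw [h1], by rw [h2]⟩

private theorem NTk_conn {x1 x2 y1 y2 : ℤ} {ω : Finset Edge} {u v : V}
    (h : Conn (box x1 x2 y1 y2) (ω.image tre) u v) : Conn (box y1 y2 x1 x2) ω u.swap v.swap := by
  unfold Conn at h ⊢
  refine h.map (⟨fun v => v.swap, fun {a b} hab => ?_⟩ :
    (gr (ω.image tre ∩ box x1 x2 y1 y2)) →g (gr (ω ∩ box y1 y2 x1 x2)))
  have key : ∀ e : Edge, e ∈ ω.image tre ∩ box x1 x2 y1 y2 → tre e ∈ ω ∩ box y1 y2 x1 x2 := by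
    intro e he
    rw [mem_inter, mem_image] at he
    obtain ⟨⟨e', he', rfl⟩, h2⟩ := he
    rw [tre_tre, mem_inter]
    refine ⟨he', ?_⟩
    obtain ⟨x, y, t⟩ := e'
    rw [mem_box] at h2 ⊢
    cases t
    · left
      rcases h2 with ⟨h, _⟩ | ⟨_, h3, h4, h5, h6⟩
      · exact absurd h (by simp [tre])
      · exact ⟨rfl, h5, h6, h3, h4⟩
    · right
      rcases h2 with ⟨_, h3, h4, h5, h6⟩ | ⟨h, _⟩
      · exact ⟨rfl, h5, h6, h3, h4⟩
      · exact absurd h (by simp [tre])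
  unfold gr at hab ⊢
  rw [SimpleGraph.fromRel_adj] at hab ⊢
  obtain ⟨hne, hab⟩ := hab
  refine ⟨fun h => hne (Prod.swap_injective h), ?_⟩
  rcases hab with ⟨e, he, h1, h2⟩ | ⟨e, he, h1, h2⟩
  · left
    exact ⟨tre e, key e he, by rw [NTk_ea, h1], by rw [NTk_eb, h2]⟩
  · right
    exact ⟨tre e, key e he, by rw [NTk_ea, h1], by rw [NTk_eb, h2]⟩

private theorem NTk_shtr (m : ℕ) (v : V) (ω : Finset Edge) : sh m v (ω.image tre) = (sh m v.swap ω).image tre := by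
  unfold sh
  rw [image_image, image_image]
  rfl

theorem strip_cross' {m k N : ℕ} (hk1 : 1 ≤ k) (hk : k ≤ m) (hN : 1 ≤ N) {X : ℤ → ℤ} (hX : ∀ t, X t + k ≤ X (t + 1))
    (hp : ∀ t, X (t + N) = X t + (2 * m + 1)) {L : ℤ → ℕ} (hL : ∀ t, (L t : ℤ) = X (t + 1) + k - X (t - 1)) (hLm : ∀ t, L t ≤ m)
    {ω : Finset Edge} (hω : ω ⊆ TE m)
    (h : ∃ u w : V, u.1 = 0 ∧ w.1 = k ∧ (rst (tgr m ω) {v | 0 ≤ v.1 ∧ v.1 ≤ k}).Reachable u w) :
    ∃ t : ℤ, 0 ≤ t ∧ t < N ∧ (VC 0 k 0 k (sh m (-(0, X t)) ω) ∨ HC 0 k 0 (L t) (sh m (-(0, X (t - 1))) ω)) := by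
  obtain ⟨u, w, hu, hw, h⟩ := h
  have hω' : ω.image tre ⊆ TE m := by
    intro e he
    obtain ⟨e', he', rfl⟩ := mem_image.1 he
    exact tre_mem.2 (hω he')
  have h1 : (rst (tgr m (ω.image tre)) {v : V | 0 ≤ v.2 ∧ v.2 ≤ k}).Reachable u.swap w.swap :=
    NTk_map (fun v => v.swap) (fun a b hab => NTk_tr hab) (fun a ha => ha) h
  obtain ⟨t, ht1, ht2, h2⟩ := strip_cross hk1 hk hN hX hp hL hLm hω' ⟨u.swap, w.swap, hu, hw, h1⟩
  refine ⟨t, ht1, ht2, ?_⟩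
  rcases h2 with ⟨y, y', hy1, hy2, hy3, hy4, h3⟩ | ⟨y, y', hy1, hy2, hy3, hy4, h3⟩
  · left
    rw [NTk_shtr] at h3
    exact ⟨y, y', hy1, hy2, hy3, hy4, NTk_conn h3⟩
  · right
    rw [NTk_shtr] at h3
    exact ⟨y, y', hy1, hy2, hy3, hy4, NTk_conn h3⟩

end FKN
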