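import Mathlib
import Pool.Agent.Lib.MP_216314_pr.N.NTf
import Pool.Agent.Lib.MP_216314_pr.N.NTj
import Pool.Agent.Lib.MP_216314_pr.N.NTk

/-!
# JOB NTl: `FW q m ≤ 1 - c` under crossing bounds (about 200 lines)

`m ≥ 8`: `k := (2 m + 1) / 16 ≥ 1`, `X t := t * (2 m + 1) / 16` (floor division in `ℤ`): `X t + k ≤ X (t + 1) ≤ X t + k + 1`, `X (t + 16) = X t + (2 m + 1)`, `L t := (X (t + 1) + k - X (t - 1)).toNat ≤ 3 k + 2 ≤ 5 k`, and `L t ≤ m` since `16 L t ≤ 3 (2 m + 1) + 32 ≤ 16 m`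
for `m ≥ 4`... (check: `6 m + 35 ≤ 16 m` for `m ≥ 4`).
* `¬ W m ω` if none of the `64` events of `wind_strip`, `strip_cross`, `strip_cross'` (N = 16) holds.
* each of the events is increasing (`sh_mono`, `inc_HC`, `inc_VC`) and has probability `hq q k k` (squares: `Pr_sh`, `IPC.Pr_restrict` to `box 0 k 0 k ⊆ TE m` (`dep_HC`), `Pr_HC`, `Pr_VC` with `x = y = 0`) or `hq q k (L t)` (rectangles, crossed in the short direction
  `k` of a `k × L t` rectangle); by `RswIn` with `κ = 5` (`N := m`; `L t ≤ 5 k`, `k ≤ 5 m`) the latter is `≤ 1 - c₁`, and `hq q k k ≤ 1 - ε`.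
* `harris_dec_list` for the list of the `64` events: `P(none) ≥ (min ε c₁)^64` (`List.prod` of terms `≥ c`: `List.pow_card_le_prod`-like, or prove by induction `c ^ L.length ≤ prod`).
* `m < 8`: all edges closed: `IPC`-bound `fin_empty` (NTf), `not_W_empty`: `P(¬ W) ≥ (1 - q)^(card TE) ≥ (1/4)^(2 * 15^2)`.
-/

set_option autoImplicit false

namespace FKN

open Finset FKI FKP

theorem NTl_pow {c : ℝ} (hc : 0 ≤ c) (l : List ℝ) (h : ∀ x ∈ l, c ≤ x) : c ^ l.length ≤ l.prod := by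
  induction l with
  | nil => simp
  | cons x l ih =>
    rw [List.length_cons, List.prod_cons, pow_succ']
    refine mul_le_mul (h x (by simp)) (ih fun y hy => h y (by simp [hy])) (pow_nonneg hc _)
      (hc.trans (h x (by simp)))

/-- the probability of a recentred event of a rectangle -/
theorem NTl_Pr (q : ℝ) {m a b : ℕ} (ha : a ≤ m) (hb : b ≤ m) (v : V) {A : Finset Edge → Prop}
    (hA : Dep (box 0 a 0 b) A) :
    IPC.Pr q (TE m) (fun ω => A (sh m (-v) ω)) = IPC.Pr q (box 0 a 0 b) A := by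
  rw [Pr_sh]
  refine IPC.Pr_restrict q ?_ A fun ω _ => hA ω
  intro e he
  rw [mem_TE]
  rw [mem_box] at he
  rcases he with ⟨_, h1, h2, h3, h4⟩ | ⟨_, h1, h2, h3, h4⟩
  · exact ⟨⟨by omega, by omega⟩, ⟨by omega, by omega⟩⟩
  · exact ⟨⟨by omega, by omega⟩, ⟨by omega, by omega⟩⟩

theorem NTl_HC (q : ℝ) {m a b : ℕ} (ha : a ≤ m) (hb : b ≤ m) (v : V) :
    IPC.Pr q (TE m) (fun ω => HC 0 a 0 b (sh m (-v) ω)) = hq q a b :=
  NTl_Pr q ha hb v (dep_HC (Finset.Subset.refl _))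

theorem NTl_VC (q : ℝ) {m a b : ℕ} (ha : a ≤ m) (hb : b ≤ m) (v : V) :
    IPC.Pr q (TE m) (fun ω => VC 0 a 0 b (sh m (-v) ω)) = hq q b a := by
  rw [NTl_Pr q ha hb v (dep_VC (Finset.Subset.refl _))]
  have h := Pr_VC q 0 0 a b
  rw [zero_add, zero_add] at h
  exact h

theorem NTl_iHC (m : ℕ) (a b : ℤ) (v : V) : IPC.Inc (fun ω => HC 0 a 0 b (sh m (-v) ω)) :=
  fun _ _ h h1 => inc_HC 0 a 0 b _ _ (sh_mono (-v) h) h1

theorem NTl_iVC (m : ℕ) (a b : ℤ) (v : V) : IPC.Inc (fun ω => VC 0 a 0 b (sh m (-v) ω)) :=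
  fun _ _ h h1 => inc_VC 0 a 0 b _ _ (sh_mono (-v) h) h1

theorem NTl_small {q : ℝ} {m : ℕ} (h0 : 0 ≤ q) (h1 : q ≤ 3 / 4) (hm : m < 8) :
    FW q m ≤ 1 - (1 / 4 : ℝ) ^ 450 := by
  have h2 := fin_empty h0 (by linarith) (TE m) (A := fun ω => ¬ W m ω) (not_W_empty m)
  rw [IPC.Pr_not, card_TE] at h2
  have h3 : 2 * (2 * m + 1) ^ 2 ≤ 450 := by
    have h4 : 2 * m + 1 ≤ 15 := by omega
    have h5 : (2 * m + 1) ^ 2 ≤ 15 ^ 2 := Nat.pow_le_pow_left h4 2
    omega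
  have h4 : (1 / 4 : ℝ) ^ 450 ≤ (1 / 4 : ℝ) ^ (2 * (2 * m + 1) ^ 2) :=
    pow_le_pow_of_le_one (by norm_num) (by norm_num) h3
  have h5 : (1 / 4 : ℝ) ^ (2 * (2 * m + 1) ^ 2) ≤ (1 - q) ^ (2 * (2 * m + 1) ^ 2) :=
    pow_le_pow_left₀ (by norm_num) (by linarith) _
  unfold FW
  linarith

theorem NTl_big {q c : ℝ} {m : ℕ} (h0 : 0 ≤ q) (h1 : q ≤ 1) (hm : 8 ≤ m) (hc : 0 ≤ c)
    (hR : ∀ a b : ℕ, 1 ≤ a → 1 ≤ b → b ≤ 5 * a → a ≤ 5 * m → hq q a b ≤ 1 - c) :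
    FW q m ≤ 1 - c ^ 64 := by
  set X : ℤ → ℤ := fun t => t * (2 * m + 1) / 16 with hXd
  set k : ℕ := (2 * m + 1) / 16 with hkd
  set L : ℤ → ℕ := fun t => (X (t + 1) + k - X (t - 1)).toNat with hLd
  have hk1 : 1 ≤ k := by omega
  have hkm : k ≤ m := by omega
  have hX1 : ∀ t, X (t + 1) = (t * (2 * m + 1) + (2 * m + 1)) / 16 := by
    intro t
    show (t + 1) * (2 * m + 1) / 16 = _
    rw [add_mul, one_mul]
  have hX2 : ∀ t, X (t - 1) = (t * (2 * m + 1) - (2 * m + 1)) / 16 := by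
    intro t
    show (t - 1) * (2 * m + 1) / 16 = _
    rw [sub_mul, one_mul]
  have hX : ∀ t, X t + k ≤ X (t + 1) := by
    intro t
    rw [hX1]
    show t * (2 * m + 1) / 16 + (k : ℤ) ≤ _
    generalize t * (2 * (m : ℤ) + 1) = A
    omega
  have hp : ∀ t, X (t + (16 : ℕ)) = X t + (2 * m + 1) := by
    intro t
    show (t + ((16 : ℕ) : ℤ)) * (2 * m + 1) / 16 = t * (2 * m + 1) / 16 + (2 * m + 1)
    rw [add_mul]
    generalize t * (2 * (m : ℤ) + 1) = A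
    push_cast
    omega
  have hL0 : ∀ t, X (t + 1) + k - X (t - 1) ≤ m ∧ X (t + 1) + k - X (t - 1) ≤ 5 * k ∧
      1 ≤ X (t + 1) + k - X (t - 1) := by
    intro t
    rw [hX1, hX2]
    generalize t * (2 * (m : ℤ) + 1) = A
    refine ⟨?_, ?_, ?_⟩ <;> omega
  have hL : ∀ t, (L t : ℤ) = X (t + 1) + k - X (t - 1) := by
    intro t
    exact Int.toNat_of_nonneg (by linarith [(hL0 t).2.2])
  have hLm : ∀ t, L t ≤ m := by
    intro t
    have h2 := hL t
    have h3 := (hL0 t).1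
    omega
  have hL5 : ∀ t, L t ≤ 5 * k := by
    intro t
    have h2 := hL t
    have h3 := (hL0 t).2.1
    omega
  have hL1 : ∀ t, 1 ≤ L t := by
    intro t
    have h2 := hL t
    have h3 := (hL0 t).2.2
    omega
  set E1 : ℕ → Finset Edge → Prop := fun t ω => HC 0 k 0 k (sh m (-(X t, 0)) ω) with hE1
  set E2 : ℕ → Finset Edge → Prop := fun t ω => VC 0 (L t) 0 k (sh m (-(X (t - 1), 0)) ω) with hE2
  set E3 : ℕ → Finset Edge → Prop := fun t ω => VC 0 k 0 k (sh m (-(0, X t)) ω) with hE3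
  set E4 : ℕ → Finset Edge → Prop := fun t ω => HC 0 k 0 (L t) (sh m (-(0, X (t - 1))) ω) with hE4
  set l : List (Finset Edge → Prop) := (List.range 16).map E1 ++ (List.range 16).map E2 ++
    (List.range 16).map E3 ++ (List.range 16).map E4 with hl
  have hmem : ∀ A ∈ l, ∃ t : ℕ, A = E1 t ∨ A = E2 t ∨ A = E3 t ∨ A = E4 t := by
    intro A hA
    rw [hl] at hA
    simp only [List.mem_append, List.mem_map] at hA
    rcases hA with ((⟨t, _, h⟩ | ⟨t, _, h⟩) | ⟨t, _, h⟩) | ⟨t, _, h⟩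
    · exact ⟨t, Or.inl h.symm⟩
    · exact ⟨t, Or.inr (Or.inl h.symm)⟩
    · exact ⟨t, Or.inr (Or.inr (Or.inl h.symm))⟩
    · exact ⟨t, Or.inr (Or.inr (Or.inr h.symm))⟩
  have hmem' : ∀ t : ℕ, t < 16 → E1 t ∈ l ∧ E2 t ∈ l ∧ E3 t ∈ l ∧ E4 t ∈ l := by
    intro t ht
    rw [hl]
    simp only [List.mem_append, List.mem_map]
    exact ⟨Or.inl (Or.inl (Or.inl ⟨t, List.mem_range.2 ht, rfl⟩)),
      Or.inl (Or.inl (Or.inr ⟨t, List.mem_range.2 ht, rfl⟩)),
      Or.inl (Or.inr ⟨t, List.mem_range.2 ht, rfl⟩), Or.inr ⟨t, List.mem_range.2 ht, rfl⟩⟩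
  have hinc : ∀ A ∈ l, IPC.Inc A := by
    intro A hA
    obtain ⟨t, h | h | h | h⟩ := hmem A hA
    · rw [h]
      exact NTl_iHC m k k _
    · rw [h]
      exact NTl_iVC m _ k _
    · rw [h]
      exact NTl_iVC m k k _
    · rw [h]
      exact NTl_iHC m k _ _
  have hle : ∀ A ∈ l, c ≤ 1 - IPC.Pr q (TE m) A := by
    intro A hA
    obtain ⟨t, h | h | h | h⟩ := hmem A hA
    · have h2 : IPC.Pr q (TE m) A = hq q k k := by
        rw [h]
        exact NTl_HC q hkm hkm _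
      have h3 := hR k k hk1 hk1 (by omega) (by omega)
      linarith
    · have h2 : IPC.Pr q (TE m) A = hq q k (L t) := by
        rw [h]
        exact NTl_VC q (hLm t) hkm _
      have h3 := hR k (L t) hk1 (hL1 t) (hL5 t) (by omega)
      linarith
    · have h2 : IPC.Pr q (TE m) A = hq q k k := by
        rw [h]
        exact NTl_VC q hkm hkm _
      have h3 := hR k k hk1 hk1 (by omega) (by omega)
      linarith
    · have h2 : IPC.Pr q (TE m) A = hq q k (L t) := by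
        rw [h]
        exact NTl_HC q hkm (hLm t) _
      have h3 := hR k (L t) hk1 (hL1 t) (hL5 t) (by omega)
      linarith
  have h2 := harris_dec_list h0 h1 (TE m) l hinc
  have h3 : c ^ 64 ≤ (l.map (fun A => 1 - IPC.Pr q (TE m) A)).prod := by
    have h4 := NTl_pow hc (l.map (fun A => 1 - IPC.Pr q (TE m) A)) (by
      intro x hx
      rw [List.mem_map] at hx
      obtain ⟨A, hA, rfl⟩ := hx
      exact hle A hA)
    have h5 : (l.map (fun A => 1 - IPC.Pr q (TE m) A)).length = 64 := by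
      rw [List.length_map, hl]
      simp only [List.length_append, List.length_map, List.length_range]
    rw [h5] at h4
    exact h4
  have h4 : IPC.Pr q (TE m) (fun ω => ∀ A ∈ l, ¬ A ω) ≤ IPC.Pr q (TE m) (fun ω => ¬ W m ω) := by
    refine IPC.Pr_mono h0 h1 (TE m) fun ω hω h hW => ?_
    rcases wind_strip hkm hW with h5 | h5
    · obtain ⟨t, ht0, ht1, h6⟩ := strip_cross hk1 hkm (by norm_num : 1 ≤ 16) hX hp hL hLm hω h5
      obtain ⟨n, rfl⟩ := Int.eq_ofNat_of_zero_le ht0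
      have hn : n < 16 := by
        have h7 : ((n : ℕ) : ℤ) < ((16 : ℕ) : ℤ) := ht1
        exact_mod_cast h7
      rcases h6 with h6 | h6
      · exact h _ (hmem' n hn).1 h6
      · exact h _ (hmem' n hn).2.1 h6
    · obtain ⟨t, ht0, ht1, h6⟩ := strip_cross' hk1 hkm (by norm_num : 1 ≤ 16) hX hp hL hLm hω h5
      obtain ⟨n, rfl⟩ := Int.eq_ofNat_of_zero_le ht0
      have hn : n < 16 := by
        have h7 : ((n : ℕ) : ℤ) < ((16 : ℕ) : ℤ) := ht1
        exact_mod_cast h7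
      rcases h6 with h6 | h6
      · exact h _ (hmem' n hn).2.2.1 h6
      · exact h _ (hmem' n hn).2.2.2 h6
  rw [IPC.Pr_not] at h4
  unfold FW
  linarith

theorem T4 (hR : RswIn) {ε : ℝ} (hε : 0 < ε) : ∃ c : ℝ, 0 < c ∧ ∀ (q : ℝ) (m : ℕ), 0 ≤ q → q ≤ 3 / 4 → RS ε q m →
    FW q m ≤ 1 - c := by
  obtain ⟨c, hc, h⟩ := hR ε hε 5
  refine ⟨min (c ^ 64) ((1 / 4 : ℝ) ^ 450), lt_min (pow_pos hc _) (by positivity), ?_⟩
  intro q m h0 h1 hRS
  rcases lt_or_ge m 8 with hm | hm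
  · have h2 := NTl_small h0 h1 hm
    have h3 := min_le_right (c ^ 64) ((1 / 4 : ℝ) ^ 450)
    linarith
  · have h2 := NTl_big h0 (by linarith : q ≤ 1) hm hc.le (fun a b ha hb h4 h5 =>
      (h q m h0 (by linarith) hRS a b ha hb).2 h4 h5)
    have h3 := min_le_left (c ^ 64) ((1 / 4 : ℝ) ^ 450)
    linarith

end FKN
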