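import Mathlib
import Pool.Agent.Lib.MP_216314_pr.N.GL
import Pool.Agent.Lib.MP_216314_pr.N.NTl
import Pool.Agent.Lib.MP_216314_pr.N.NAe

/-!
# JOB NAf: the perturbative scale (about 250 lines)

* `rs_half`: lower bound: `rsw_half` (GL) with `κ = 1`.  Upper bound: `hq (1/2) n n = 1 - hq (1/2) (n + 1) (n - 1)` (`DualIn` with `a = n - 1`, `b = n`); `n ≥ 2`: `n + 1 ≤ 3 (n - 1)`, `rsw_half` with `κ = 3`; `n = 1`: `hq (1/2) 2 0 ≥ (1/2)^2` (`hq_line`, GB).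
* `good_small`: `hq (1/2) n n ≤ 1 - 2 ε` for all `n ≤ n0` implies `hq (1/2 + s) n n ≤ 1 - ε` for small `s` (`hq_cont`, finitely many `n`; `hq_mono_q` for smaller `s`).
* `scaleM`.  Constants: `εc` of `rs_half`; `c4` of `T4` for `εc` (so `FW (1/2) m ≤ 1 - c4`); `δ = c4 / 16`; `ε1, n0` of `RswOne` with `κ = 9`, `δ`; `ε = min ε1 (εc / 2)`; `ε'` of `rs_scale ε 3` (GL): `RS ε q N → RS ε' q (3 N)`; `η, c, C` of `stabAll` for `ε'`;
  `η1 = min η0 (min η (c4 / 4))`.  `Δ j s = FW (1/2 + s) j - FW (1/2 - s) j`.  `Good s N`: `∀ n, 1 ≤ n → n ≤ N → hq (1/2 + s) n n ≤ 1 - ε`.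
  `S s = {m | ∃ N, Good s N ∧ m ≤ 3 N ∧ ∀ j, 1 ≤ j → j ≤ m → Δ j s ≤ η1}`.  For `m ∈ S s`: `Per ε' η1 s m` (`RS_q` (NTj), `rs_scale`, `RS_mono`), so for `m ≥ 1` by `stabAll`: `c s m^(3/4) ≤ η1`, `m ≤ C' s^(-4/3)` (`pow_inv43`).  `0 ∈ S s` with `N = n0 + 1` for `s ≤ s1` (`good_small`).
  Let `M` be the maximum of `S s`.  `M + 1 ∉ S s`.
  Case A: some `N` with `Good s N`, `M + 1 ≤ 3 N`.  Then `Δ (M+1) s > η1`.  `Δ (M+1) 0 = 0` and continuity in `s` (`IPC.Pr_continuous`): intermediate value theorem: `s' ∈ [0, s]` with `Δ (M+1) s' = η1`.  `Per ε' η1 s' (M+1)` (`Δ j` is monotone in `s`: `FW_mono`).  `stabAll`: `η1 ≤ C s' (M+1)^(3/4) ≤ C s (M+1)^(3/4)`,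
  `M + 1 ≥ (η1 / C)^(4/3) s^(-4/3)` (`pow_inv43'`), which is `≥ 2` if `s ≤ s1` is small, so `M ≥ 1` and `M ≥ (M+1)/2`.
  Case B: `3 N ≤ M` for all `N` with `Good s N`.  With the `N` of `M ∈ S s`: `M = 3 N`, `N ≥ n0 + 1`, and `Good s (N + 1)` fails: `hq (1/2 + s) (N+1) (N+1) > 1 - ε`, so `RswOne`: `1 - δ ≤ hq (1/2+s) (9 (N+1)) (N+1) ≤ hq (1/2+s) (3 (M-1)) (M-1)` (`hq_anti_a`, `hq_mono_b`; `M - 1 = 3 N - 1 ≥ N + 1`,
  `3 (M-1) = 9 N - 3 ≤ 9 (N+1)`), `T5a`: `FW (1/2+s) M ≥ 1 - 4 δ = 1 - c4/4`, and `FW (1/2 - s) M ≤ FW (1/2) M ≤ 1 - c4`: `Δ M s ≥ 3 c4 / 4 > η1`, contradiction.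
-/

set_option autoImplicit false

namespace FKN

open Finset FKI FKP

theorem rs_half : ∃ ε : ℝ, 0 < ε ∧ ∀ N : ℕ, RS ε (1 / 2) N := by
  obtain ⟨c1, hc1, h1⟩ := rsw_half 1
  obtain ⟨c3, hc3, h3⟩ := rsw_half 3
  refine ⟨min c1 (min c3 (1 / 4)), lt_min hc1 (lt_min hc3 (by norm_num)), ?_⟩
  intro N n hn _
  have e1 := h1 (1 / 2) le_rfl (by norm_num) n n hn (by omega)
  have m1 : min c1 (min c3 (1 / 4)) ≤ c1 := min_le_left _ _
  have m2 : min c1 (min c3 (1 / 4)) ≤ c3 := (min_le_right _ _).trans (min_le_left _ _)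
  have m3 : min c1 (min c3 (1 / 4)) ≤ 1 / 4 := (min_le_right _ _).trans (min_le_right _ _)
  refine ⟨m1.trans e1, ?_⟩
  have e2 := dualIn (1 / 2) (n - 1) n
  have e3 : (1 : ℝ) - 1 / 2 = 1 / 2 := by norm_num
  rw [e3, Nat.sub_add_cancel hn] at e2
  rcases Nat.lt_or_ge n 2 with h | h
  · have h4 : n = 1 := by omega
    subst h4
    have e4 := hq_line (q := 1 / 2) (by norm_num) (by norm_num) (1 + 1) (1 - 1)
    have e5 : ((1 : ℝ) / 2) ^ (1 + 1) = 1 / 4 := by norm_num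
    rw [e5] at e4
    rw [e2]
    linarith
  · have e4 := h3 (1 / 2) le_rfl (by norm_num) (n + 1) (n - 1) (by omega) (by omega)
    rw [e2]
    linarith

theorem good_small {ε : ℝ} (hε : 0 < ε) (n0 : ℕ) (h : ∀ n : ℕ, 1 ≤ n → n ≤ n0 → hq (1 / 2) n n ≤ 1 - 2 * ε) :
    ∃ s1 : ℝ, 0 < s1 ∧ s1 ≤ 1 / 4 ∧ ∀ s : ℝ, 0 ≤ s → s ≤ s1 → ∀ n : ℕ, 1 ≤ n → n ≤ n0 → hq (1 / 2 + s) n n ≤ 1 - ε := by
  induction n0 with
  | zero =>
    refine ⟨1 / 4, by norm_num, le_rfl, fun s _ _ n h1 h2 => ?_⟩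
    omega
  | succ k ih =>
    obtain ⟨s1, h1, h2, h3⟩ := ih (fun n g1 g2 => h n g1 (by omega))
    obtain ⟨δ, hδ, h4⟩ := Metric.continuous_iff.1 (hq_cont (k + 1) (k + 1)) (1 / 2) ε hε
    refine ⟨min s1 (δ / 2), lt_min h1 (by linarith), (min_le_left _ _).trans h2, ?_⟩
    intro s g0 g1 n g2 g3
    have g4 : s ≤ s1 := g1.trans (min_le_left _ _)
    have g5 : s ≤ δ / 2 := g1.trans (min_le_right _ _)
    rcases Nat.lt_or_ge n (k + 1) with g | g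
    · exact h3 s g0 g4 n g2 (by omega)
    · have g6 : n = k + 1 := by omega
      subst g6
      have g7 := h4 (1 / 2 + s) (by
        rw [Real.dist_eq]
        have : 1 / 2 + s - 1 / 2 = s := by ring
        rw [this, abs_of_nonneg g0]
        linarith)
      rw [Real.dist_eq] at g7
      have g8 := (abs_lt.1 g7).2
      have g9 := h (k + 1) (by omega) le_rfl
      linarith

theorem NAf_cont (j : ℕ) : Continuous (fun s : ℝ => FW (1 / 2 + s) j - FW (1 / 2 - s) j) := by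
  have h1 : Continuous (fun q : ℝ => FW q j) := IPC.Pr_continuous _ _
  exact (h1.comp (continuous_const.add continuous_id)).sub (h1.comp (continuous_const.sub continuous_id))

theorem scaleM (hS : SepIn) (hR : RswIn) (h1 : RswOne) (hD : DualIn) (hQ : QmIn) (h4 : Law4) : ∃ ε' : ℝ, 0 < ε' ∧
    ∀ η0 : ℝ, 0 < η0 → ∃ s1 c C : ℝ, 0 < s1 ∧ s1 ≤ 1 / 4 ∧ 0 < c ∧ 0 < C ∧ ∀ s : ℝ, 0 < s → s ≤ s1 →
      ∃ M : ℕ, 1 ≤ M ∧ c * s ^ (-(4 / 3) : ℝ) ≤ M ∧ (M : ℝ) ≤ C * s ^ (-(4 / 3) : ℝ) ∧ Per ε' η0 s M := by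
  obtain ⟨εc, hεc, hrs⟩ := rs_half
  obtain ⟨c4, hc4, hT4⟩ := T4 hR hεc
  obtain ⟨ε1, n0, hε1, hone⟩ := h1 9 (c4 / 16) (by positivity)
  have hε : 0 < min ε1 (εc / 2) := lt_min hε1 (by positivity)
  obtain ⟨ε, he⟩ : ∃ ε, ε = min ε1 (εc / 2) := ⟨_, rfl⟩
  rw [← he] at hε
  have he1 : ε ≤ ε1 := he ▸ min_le_left _ _
  have he2 : ε ≤ εc / 2 := he ▸ min_le_right _ _
  obtain ⟨ε', hε', hsc⟩ := rs_scale ε hε 3
  refine ⟨ε', hε', ?_⟩
  intro η0 hη0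
  obtain ⟨η, c, C, hη, hc, hC, hst⟩ := stabAll hS hR hQ h4 hε'
  obtain ⟨η1, he3⟩ : ∃ η1, η1 = min η0 (min η (c4 / 4)) := ⟨_, rfl⟩
  have hη1 : 0 < η1 := by
    rw [he3]
    exact lt_min hη0 (lt_min hη (by positivity))
  have hη1a : η1 ≤ η0 := he3 ▸ min_le_left _ _
  have hη1b : η1 ≤ η := he3 ▸ (min_le_right _ _).trans (min_le_left _ _)
  have hη1c : η1 ≤ c4 / 4 := he3 ▸ (min_le_right _ _).trans (min_le_right _ _)
  obtain ⟨sg, hsg0, hsg1, hgood⟩ := good_small hε (n0 + 1) (fun n g1 g2 => by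
    have := (hrs (n0 + 1) n g1 g2).2
    linarith)
  have hsm : 0 < η1 / (2 * C) := by positivity
  refine ⟨min sg (η1 / (2 * C)), (η1 / C) ^ ((4 / 3) : ℝ) / 2, (η1 / c) ^ ((4 / 3) : ℝ), lt_min hsg0 hsm,
    (min_le_left _ _).trans hsg1, ?_, ?_, ?_⟩
  · have := Real.rpow_pos_of_pos (show 0 < η1 / C by positivity) (4 / 3)
    linarith
  · exact Real.rpow_pos_of_pos (by positivity) _
  intro s hs0 hs
  have hsg : s ≤ sg := hs.trans (min_le_left _ _)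
  have hs4 : s ≤ 1 / 4 := hsg.trans hsg1
  have hsmall : s * 2 ≤ η1 / C := by
    have h5 : s ≤ η1 / (2 * C) := hs.trans (min_le_right _ _)
    rw [le_div_iff₀ (by positivity)] at h5
    rw [le_div_iff₀ hC]
    linarith
  -- crossing bounds
  have hper1 : ∀ N m : ℕ, (∀ n : ℕ, 1 ≤ n → n ≤ N → hq (1 / 2 + s) n n ≤ 1 - ε) → m ≤ 3 * N →
      ∀ q : ℝ, 1 / 2 - s ≤ q → q ≤ 1 / 2 + s → RS ε' q m := by
    intro N m hN hm q g1 g2
    have g3 := RS_q hD hs0.le (by linarith) hN g1 g2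
    exact RS_mono hm (hsc q N (by linarith) (by linarith) g3)
  obtain ⟨S, hSdef⟩ : ∃ S : Set ℕ, S = {m | ∃ N : ℕ, (∀ n : ℕ, 1 ≤ n → n ≤ N → hq (1 / 2 + s) n n ≤ 1 - ε) ∧ m ≤ 3 * N ∧
      ∀ j : ℕ, 1 ≤ j → j ≤ m → FW (1 / 2 + s) j - FW (1 / 2 - s) j ≤ η1} := ⟨_, rfl⟩
  have hmem : ∀ m : ℕ, m ∈ S ↔ ∃ N : ℕ, (∀ n : ℕ, 1 ≤ n → n ≤ N → hq (1 / 2 + s) n n ≤ 1 - ε) ∧ m ≤ 3 * N ∧
      ∀ j : ℕ, 1 ≤ j → j ≤ m → FW (1 / 2 + s) j - FW (1 / 2 - s) j ≤ η1 := by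
    intro m
    rw [hSdef]
    exact Iff.rfl
  have hPer : ∀ m ∈ S, Per ε' η1 s m := by
    intro m hm
    obtain ⟨N, g1, g2, g3⟩ := (hmem m).1 hm
    exact ⟨hper1 N m g1 g2, g3⟩
  have hbd : ∀ m ∈ S, 1 ≤ m → (m : ℝ) ≤ (η1 / c) ^ ((4 / 3) : ℝ) * s ^ (-(4 / 3) : ℝ) := by
    intro m hm hm1
    have g1 := hPer m hm
    obtain ⟨_, g2, _, _⟩ := hst s m hs0.le hs4 (Per_mono hη1b g1) m hm1 le_rfl
    have g3 := g1.2 m hm1 le_rfl
    refine pow_inv43 hs0 (by exact_mod_cast hm1) (by positivity) ?_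
    rw [le_div_iff₀ hc]
    linarith
  have h0 : 0 ∈ S := by
    rw [hmem]
    refine ⟨n0 + 1, hgood s hs0.le hsg, Nat.zero_le _, ?_⟩
    intro j g1 g2
    omega
  obtain ⟨M, hM, hM1⟩ : ∃ M, M ∈ S ∧ M + 1 ∉ S := by
    by_contra hcon
    have hcon' : ∀ M, M ∈ S → M + 1 ∈ S := by
      intro M hM
      by_contra hM1
      exact hcon ⟨M, hM, hM1⟩
    have hall : ∀ M : ℕ, M ∈ S := by
      intro M
      induction M with
      | zero => exact h0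
      | succ k ih => exact hcon' k ih
    obtain ⟨n, hn⟩ := exists_nat_gt ((η1 / c) ^ ((4 / 3) : ℝ) * s ^ (-(4 / 3) : ℝ))
    have g1 := hbd (n + 1) (hall _) (by omega)
    push_cast at g1
    linarith
  obtain ⟨N, hN1, hN2, hN3⟩ := (hmem M).1 hM
  -- case distinction
  by_cases hA : ∃ N' : ℕ, (∀ n : ℕ, 1 ≤ n → n ≤ N' → hq (1 / 2 + s) n n ≤ 1 - ε) ∧ M + 1 ≤ 3 * N'
  · obtain ⟨N', hN'1, hN'2⟩ := hA
    have hbig : η1 < FW (1 / 2 + s) (M + 1) - FW (1 / 2 - s) (M + 1) := by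
      by_contra hle
      rw [not_lt] at hle
      refine hM1 ((hmem _).2 ⟨N', hN'1, hN'2, ?_⟩)
      intro j g1 g2
      rcases Nat.lt_or_ge j (M + 1) with g | g
      · exact hN3 j g1 (by omega)
      · have g5 : j = M + 1 := by omega
        rw [g5]
        exact hle
    obtain ⟨s', hs', hs'e⟩ : ∃ s' ∈ Set.Icc 0 s, FW (1 / 2 + s') (M + 1) - FW (1 / 2 - s') (M + 1) = η1 := by
      have g1 := intermediate_value_Icc hs0.le (NAf_cont (M + 1)).continuousOn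
      have g2 : η1 ∈ Set.Icc (FW (1 / 2 + 0) (M + 1) - FW (1 / 2 - 0) (M + 1))
          (FW (1 / 2 + s) (M + 1) - FW (1 / 2 - s) (M + 1)) := by
        refine ⟨?_, hbig.le⟩
        rw [add_zero, sub_zero, sub_self]
        exact hη1.le
      exact g1 g2
    have hP' : Per ε' η1 s' (M + 1) := by
      refine ⟨fun q g1 g2 => hper1 N' (M + 1) hN'1 hN'2 q (by linarith [hs'.2]) (by linarith [hs'.2]), ?_⟩
      intro j g1 g2
      rcases Nat.lt_or_ge j (M + 1) with g | g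
      · have g3 := hN3 j g1 (by omega)
        have g4 : FW (1 / 2 + s') j ≤ FW (1 / 2 + s) j :=
          FW_mono (by linarith [hs'.1]) (by linarith [hs'.2]) (by linarith) j
        have g5 : FW (1 / 2 - s) j ≤ FW (1 / 2 - s') j :=
          FW_mono (by linarith) (by linarith [hs'.2]) (by linarith [hs'.1]) j
        linarith
      · have g5 : j = M + 1 := by omega
        rw [g5]
        exact hs'e.le
    obtain ⟨_, _, g3, _⟩ := hst s' (M + 1) hs'.1 (hs'.2.trans hs4) (Per_mono hη1b hP') (M + 1) (by omega) le_rfl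
    rw [hs'e] at g3
    have hMp : (0 : ℝ) < ((M + 1 : ℕ) : ℝ) := by positivity
    have g4 : η1 / C ≤ s * ((M + 1 : ℕ) : ℝ) ^ ((3 / 4) : ℝ) := by
      rw [div_le_iff₀ hC]
      have g5 : 0 ≤ ((M + 1 : ℕ) : ℝ) ^ ((3 / 4) : ℝ) := (Real.rpow_pos_of_pos hMp _).le
      have g6 : s' * ((M + 1 : ℕ) : ℝ) ^ ((3 / 4) : ℝ) ≤ s * ((M + 1 : ℕ) : ℝ) ^ ((3 / 4) : ℝ) :=
        mul_le_mul_of_nonneg_right hs'.2 g5
      nlinarith
    have g5 := pow_inv43' hs0 hMp (by positivity) g4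
    have g6 : (2 : ℝ) ≤ (η1 / C) ^ ((4 / 3) : ℝ) * s ^ (-(4 / 3) : ℝ) := by
      refine pow_inv43 hs0 (by norm_num) (by positivity) (le_trans ?_ hsmall)
      refine mul_le_mul_of_nonneg_left ?_ hs0.le
      calc (2 : ℝ) ^ ((3 / 4) : ℝ) ≤ (2 : ℝ) ^ (1 : ℝ) :=
            Real.rpow_le_rpow_of_exponent_le (by norm_num) (by norm_num)
        _ = 2 := Real.rpow_one 2
    push_cast at g5
    have g7 : (1 : ℝ) ≤ (M : ℝ) := by linarith
    have g8 : 1 ≤ M := by exact_mod_cast g7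
    refine ⟨M, g8, ?_, hbd M hM g8, Per_mono hη1a (hPer M hM)⟩
    linarith
  · exfalso
    have hB : ∀ N' : ℕ, (∀ n : ℕ, 1 ≤ n → n ≤ N' → hq (1 / 2 + s) n n ≤ 1 - ε) → 3 * N' ≤ M := by
      intro N' g1
      by_contra g2
      exact hA ⟨N', g1, by omega⟩
    have g1 := hB N hN1
    have g2 : M = 3 * N := by omega
    have g3 := hB (n0 + 1) (hgood s hs0.le hsg)
    have g4 : n0 + 1 ≤ N := by omega
    have g5 : 1 - ε < hq (1 / 2 + s) (N + 1) (N + 1) := by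
      by_contra hle
      rw [not_lt] at hle
      have g6 := hB (N + 1) (fun n a1 a2 => by
        rcases Nat.lt_or_ge n (N + 1) with a3 | a3
        · exact hN1 n a1 (by omega)
        · have a4 : n = N + 1 := by omega
          rw [a4]
          exact hle)
      omega
    have g6 := hone (1 / 2 + s) (N + 1) (by linarith) (by linarith) (by omega) (by linarith)
    have g7 : hq (1 / 2 + s) (9 * (N + 1)) (N + 1) ≤ hq (1 / 2 + s) (3 * (M - 1)) (N + 1) :=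
      hq_anti_a (by linarith) (by linarith) (by omega) _
    have g8 : hq (1 / 2 + s) (3 * (M - 1)) (N + 1) ≤ hq (1 / 2 + s) (3 * (M - 1)) (M - 1) :=
      hq_mono_b (by linarith) (by linarith) _ (by omega)
    have g9 := T5a (q := 1 / 2 + s) (by linarith) (by linarith) (m := M) (by omega) (g6.trans (g7.trans g8))
    have g10 : FW (1 / 2 - s) M ≤ FW (1 / 2) M := FW_mono (by linarith) (by linarith) (by norm_num) M
    have g11 := hT4 (1 / 2) M (by norm_num) (by norm_num) (hrs M)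
    have g12 := hN3 M (by omega) le_rfl
    linarith

end FKN
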