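import Mathlib
import Pool.Agent.Lib.MP_216314_pr.N.NAf

/-!
# JOB NAg: the characteristic length is at most `C t^(-4/3)` (about 200 lines)

`upperL`.  Let `ε'` of `scaleM`, `η` of `stabAll` for `ε'`, `s1, c, C` of `scaleM` for `η0 = η`.  Let `0 < t ≤ s1`, `N ≥ 1` with `hq (1/2 + t) n n ≤ 1 - ε` for `n ≤ N`.  For all `q ∈ [1/2, 1/2 + t]`: `RS ε q N` (`RS_q`).  Constants of `SepIn` for `ε`: `K, CS`; `FW_ge`, `T4` for `ε`: `c0 ≤ FW q N ≤ 1 - c0`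
(`q ≤ 3/4`).  For `s ∈ (0, t]`, `q = 1/2 + s`, `M = M(s)` of `scaleM`: `p4 q M ≥ rho q M ≥ c M^(-5/4)` (`rho_le_p4`, `stabAll` with `j = m = M`).  If `K M ≤ N`: `poin` with `r = K M`, `m = N`: `c0² (K M)² ≤ FW (1 - FW) (K M)² ≤ 9 N² p4' q (K M) N`; `SepIn`: `p4 q M * p4' q (K M) N ≤ CS rho q N`.  So
`N² rho q N ≥ c' M² M^(-5/4) = c' M^(3/4) ≥ c'' / s`.  The condition `K M ≤ N` holds if `K C s^(-4/3) ≤ N`, i.e. `s ≥ s0 := (K C / N)^(3/4)`.  If `s0 ≥ t` then `N ≤ K C t^(-4/3)`.  Otherwise `log_ge` on `[s0, t]` for `F s = FW (1/2 + s) N`, `F' = 2 (2N+1)² rho ≥ 8 N² rho ≥ c3 / s`: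
`c3 log (t / s0) ≤ 1`, so `t ≤ exp (1/c3) s0`, `N ≤ C4 t^(-4/3)`.  `N = 0` is trivial.
`exL`: let `n1 ≥ n0`; by `good_small`-like continuity (`hq (1/2) n n ≤ 1 - 2 ε` for `n ≤ n0`, hypothesis `ε` small: `2 ε ≤ εc` of `rs_half`) and `upperL` the least `L ≥ 1` with `1 - ε < hq (1/2 + t) L L` exists (otherwise all `N` satisfy the hypothesis of `upperL`), `L - 1 ≤ C t^(-4/3)` by `upperL`
and `L > n0` for `t ≤ s1` by `good_small`; `L ≤ C' t^(-4/3)` as `1 ≤ t^(-4/3)`.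
-/

set_option autoImplicit false

namespace FKN

open Finset FKI FKP

private theorem NAg_rp {A : ℝ} (hA : 0 < A) : (A ^ ((3 / 4) : ℝ)) ^ ((4 / 3) : ℝ) = A := by
  rw [← Real.rpow_mul hA.le]
  norm_num

private theorem NAg_rp2 {c s : ℝ} (hc : 0 < c) (hs : 0 < s) :
    (c * s ^ (-(4 / 3) : ℝ)) ^ ((3 / 4) : ℝ) = c ^ ((3 / 4) : ℝ) / s := by
  rw [Real.mul_rpow hc.le (Real.rpow_nonneg hs.le _), ← Real.rpow_mul hs.le]
  have h : (-(4 / 3) : ℝ) * (3 / 4) = -1 := by norm_num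
  rw [h, Real.rpow_neg_one]
  exact (div_eq_mul_inv _ _).symm

private theorem NAg_rp3 {M : ℝ} (hM : 0 < M) : M ^ 2 * M ^ (-(5 / 4) : ℝ) = M ^ ((3 / 4) : ℝ) := by
  rw [← Real.rpow_natCast M 2, ← Real.rpow_add hM]
  norm_num

/-- lower bound for the derivative -/
private theorem NAg_key {q s : ℝ} (h0 : 0 ≤ q) (h1 : q ≤ 1) (hs : 0 < s) {K M N : ℕ} (hK : 1 ≤ K) (hM : 1 ≤ M)
    (hKM : K * M ≤ N) {CS cF c4 cs cM : ℝ} (hCS : 0 < CS) (hcF : 0 < cF) (hc4 : 0 < c4) (hcs : 0 < cs) (hcM : 0 < cM)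
    (e1 : p4 q M * p4' q (K * M) N ≤ CS * rho q N) (e2 : cF ≤ FW q N) (e3 : FW q N ≤ 1 - c4)
    (e4 : cs * (M : ℝ) ^ (-(5 / 4) : ℝ) ≤ rho q M) (e5 : cM * s ^ (-(4 / 3) : ℝ) ≤ M) :
    cF * c4 * cs * cM ^ ((3 / 4) : ℝ) / (9 * CS) / s ≤ (N : ℝ) ^ 2 * rho q N := by
  have hM0 : (0 : ℝ) < M := by exact_mod_cast hM
  have hKM1 : 1 ≤ K * M := Nat.mul_pos hK hM
  have a1 := poin h0 h1 hKM1 hKM
  obtain ⟨p0, -⟩ := p4_nonneg h0 h1 M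
  have a2 := rho_le_p4 h0 h1 hM
  have a3 : cs * (M : ℝ) ^ (-(5 / 4) : ℝ) ≤ p4 q M := e4.trans a2
  have a4 : cF * c4 ≤ FW q N * (1 - FW q N) :=
    mul_le_mul e2 (by linarith) hc4.le (hcF.le.trans e2)
  have a5 : (M : ℝ) ^ 2 ≤ ((K * M : ℕ) : ℝ) ^ 2 := by
    have h2 : (M : ℝ) ≤ ((K * M : ℕ) : ℝ) := by
      exact_mod_cast Nat.le_mul_of_pos_left M hK
    exact pow_le_pow_left₀ hM0.le h2 2
  have a6 : cF * c4 * (M : ℝ) ^ 2 ≤ 9 * (N : ℝ) ^ 2 * p4' q (K * M) N := by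
    refine le_trans ?_ a1
    exact mul_le_mul a4 a5 (by positivity) (le_trans (by positivity) a4)
  have a7 : cF * c4 * (M : ℝ) ^ 2 * (cs * (M : ℝ) ^ (-(5 / 4) : ℝ)) ≤ 9 * (N : ℝ) ^ 2 * (CS * rho q N) := by
    have b1 : cF * c4 * (M : ℝ) ^ 2 * (cs * (M : ℝ) ^ (-(5 / 4) : ℝ)) ≤
        9 * (N : ℝ) ^ 2 * p4' q (K * M) N * p4 q M :=
      mul_le_mul a6 a3 (by positivity) (le_trans (by positivity) a6)
    refine b1.trans ?_
    have b2 : 9 * (N : ℝ) ^ 2 * p4' q (K * M) N * p4 q M = 9 * (N : ℝ) ^ 2 * (p4 q M * p4' q (K * M) N) := by ring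
    rw [b2]
    exact mul_le_mul_of_nonneg_left e1 (by positivity)
  have a8 : cF * c4 * (M : ℝ) ^ 2 * (cs * (M : ℝ) ^ (-(5 / 4) : ℝ)) = cF * c4 * cs * (M : ℝ) ^ ((3 / 4) : ℝ) := by
    rw [← NAg_rp3 hM0]
    ring
  have a9 : cM ^ ((3 / 4) : ℝ) / s ≤ (M : ℝ) ^ ((3 / 4) : ℝ) := by
    rw [← NAg_rp2 hcM hs]
    exact Real.rpow_le_rpow (by positivity) e5 (by norm_num)
  rw [a8] at a7
  have a10 : cF * c4 * cs * (cM ^ ((3 / 4) : ℝ) / s) ≤ 9 * (N : ℝ) ^ 2 * (CS * rho q N) :=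
    (mul_le_mul_of_nonneg_left a9 (by positivity)).trans a7
  have a11 : cF * c4 * cs * cM ^ ((3 / 4) : ℝ) / (9 * CS) / s = (cF * c4 * cs * (cM ^ ((3 / 4) : ℝ) / s)) / (9 * CS) := by
    ring
  rw [a11, div_le_iff₀ (by positivity)]
  calc _ ≤ _ := a10
    _ = _ := by ring

theorem upperL (hS : SepIn) (hR : RswIn) (h1 : RswOne) (hD : DualIn) (hQ : QmIn) (h4 : Law4) {ε : ℝ} (hε : 0 < ε) :
    ∃ s1 C : ℝ, 0 < s1 ∧ s1 ≤ 1 / 4 ∧ 0 < C ∧ ∀ t : ℝ, 0 < t → t ≤ s1 → ∀ N : ℕ,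
      (∀ n : ℕ, 1 ≤ n → n ≤ N → hq (1 / 2 + t) n n ≤ 1 - ε) → (N : ℝ) ≤ C * t ^ (-(4 / 3) : ℝ) := by
  obtain ⟨ε', hε', hsc⟩ := scaleM hS hR h1 hD hQ h4
  obtain ⟨η, cs, Cs, hη, hcs, -, hst⟩ := stabAll hS hR hQ h4 hε'
  obtain ⟨s1, cM, CM, hs1, hs1', hcM, hCM, hM⟩ := hsc η hη
  obtain ⟨K, CS, hK, hCS, hSep⟩ := hS ε hε
  obtain ⟨cF, hcF, hF⟩ := FW_ge hR hε
  obtain ⟨c4, hc4, hF4⟩ := T4 hR hε
  have hK1 : 1 ≤ K := by omega
  have hK0 : (0 : ℝ) < K := by exact_mod_cast hK1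
  obtain ⟨c3, hc3⟩ : ∃ c3 : ℝ, c3 = 8 * (cF * c4 * cs * cM ^ ((3 / 4) : ℝ) / (9 * CS)) := ⟨_, rfl⟩
  have hc30 : 0 < c3 := by rw [hc3]; positivity
  obtain ⟨A, hA⟩ : ∃ A : ℝ, A = K * CM := ⟨_, rfl⟩
  have hA0 : 0 < A := by rw [hA]; positivity
  obtain ⟨e, he⟩ : ∃ e : ℝ, e = Real.exp (-(1 / c3)) := ⟨_, rfl⟩
  have he0 : 0 < e := by rw [he]; exact Real.exp_pos _
  have he1 : e ≤ 1 := by
    rw [he]
    apply Real.exp_le_one_iff.2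
    have : 0 < 1 / c3 := by positivity
    linarith
  refine ⟨s1, A * e ^ (-(4 / 3) : ℝ), hs1, hs1', by positivity, ?_⟩
  intro t ht ht1 N hN
  rcases Nat.eq_zero_or_pos N with hN0 | hN0
  · rw [hN0]
    have : 0 ≤ A * e ^ (-(4 / 3) : ℝ) * t ^ (-(4 / 3) : ℝ) := by positivity
    simpa using this
  have hN0' : (0 : ℝ) < N := by exact_mod_cast hN0
  have hX : (0 : ℝ) < (N : ℝ) ^ ((3 / 4) : ℝ) := by positivity
  have ha : (0 : ℝ) < A ^ ((3 / 4) : ℝ) := by positivity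
  obtain ⟨s0, hs0⟩ : ∃ s0 : ℝ, s0 = A ^ ((3 / 4) : ℝ) / (N : ℝ) ^ ((3 / 4) : ℝ) := ⟨_, rfl⟩
  have hs00 : 0 < s0 := by rw [hs0]; positivity
  -- it is enough to compare `t` with `s0`
  have hfin : t * e ≤ s0 := by
    rcases le_or_gt t s0 with hts | hts
    · calc t * e ≤ t * 1 := mul_le_mul_of_nonneg_left he1 ht.le
        _ = t := mul_one t
        _ ≤ s0 := hts
    · have hder : ∀ x ∈ Set.Icc s0 t, HasDerivAt (fun x : ℝ => FW (1 / 2 + x) N)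
          (2 * (2 * (N : ℝ) + 1) ^ 2 * rho (1 / 2 + x) N) x := fun x _ =>
        HasDerivAt.comp_const_add (1 / 2 : ℝ) x (FW_deriv N (1 / 2 + x))
      have hlow : ∀ x ∈ Set.Icc s0 t, c3 / x ≤ 2 * (2 * (N : ℝ) + 1) ^ 2 * rho (1 / 2 + x) N := by
        rintro x ⟨hx1, hx2⟩
        have hx0 : 0 < x := lt_of_lt_of_le hs00 hx1
        obtain ⟨M, hM1, hM2, hM3, hM4⟩ := hM x hx0 (hx2.trans ht1)
        have hq0 : (0 : ℝ) ≤ 1 / 2 + x := by linarith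
        have hq1 : 1 / 2 + x ≤ 1 := by linarith
        have hRS : RS ε (1 / 2 + x) N := RS_q hD ht.le (by linarith) hN (by linarith) (by linarith)
        have hAN : A * x ^ (-(4 / 3) : ℝ) ≤ N := by
          have b1 : A ^ ((3 / 4) : ℝ) ≤ x * (N : ℝ) ^ ((3 / 4) : ℝ) := by
            rw [hs0, div_le_iff₀ hX] at hx1
            exact hx1
          have b2 := pow_inv43' hx0 hN0' ha b1
          rw [NAg_rp hA0] at b2
          exact b2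
        have hKM : K * M ≤ N := by
          have b1 : (K : ℝ) * M ≤ N := by
            calc (K : ℝ) * M ≤ K * (CM * x ^ (-(4 / 3) : ℝ)) := mul_le_mul_of_nonneg_left hM3 hK0.le
              _ = A * x ^ (-(4 / 3) : ℝ) := by rw [hA]; ring
              _ ≤ N := hAN
          exact_mod_cast b1
        have hstM := (hst x M hx0.le (hx2.trans (ht1.trans hs1')) hM4 M hM1 (le_refl M)).1 (1 / 2 + x)
          (by linarith) (le_refl _)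
        have hk := NAg_key hq0 hq1 hx0 hK1 hM1 hKM hCS hcF hc4 hcs hcM
          ((hSep (1 / 2 + x) N hq0 hq1 hRS).1 M hM1 hKM) (hF (1 / 2 + x) N (by linarith) hq1 hRS)
          (hF4 (1 / 2 + x) N hq0 (by linarith) hRS) hstM.1 hM2
        have hr0 := rho_nonneg hq0 hq1 N
        have b3 : c3 / x = 8 * (cF * c4 * cs * cM ^ ((3 / 4) : ℝ) / (9 * CS) / x) := by rw [hc3]; ring
        rw [b3]
        nlinarith
      have hlog := log_ge hs00 hts.le hder hlow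
      have b1 : FW (1 / 2 + t) N ≤ 1 := (FW_bd (by linarith) (by linarith) N).2
      have b2 : 0 ≤ FW (1 / 2 + s0) N := (FW_bd (by linarith) (by linarith) N).1
      have b3 : c3 * Real.log (t / s0) ≤ 1 := by
        have b4 : c3 * Real.log (t / s0) ≤ FW (1 / 2 + t) N - FW (1 / 2 + s0) N := hlog
        linarith
      have b4 : Real.log (t / s0) ≤ 1 / c3 := by
        rw [le_div_iff₀ hc30]
        linarith
      have b5 : t / s0 ≤ Real.exp (1 / c3) := by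
        rw [← Real.exp_log (div_pos ht hs00)]
        exact Real.exp_le_exp.2 b4
      have b6 : e * Real.exp (1 / c3) = 1 := by
        rw [he, ← Real.exp_add]
        simp
      rw [div_le_iff₀ hs00] at b5
      calc t * e ≤ (Real.exp (1 / c3) * s0) * e := mul_le_mul_of_nonneg_right b5 he0.le
        _ = (e * Real.exp (1 / c3)) * s0 := by ring
        _ = s0 := by rw [b6, one_mul]
  have g1 : t * e * (N : ℝ) ^ ((3 / 4) : ℝ) ≤ A ^ ((3 / 4) : ℝ) := by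
    rw [hs0, le_div_iff₀ hX] at hfin
    exact hfin
  have g2 := pow_inv43 (mul_pos ht he0) hN0' ha g1
  rw [NAg_rp hA0, Real.mul_rpow ht.le he0.le] at g2
  calc (N : ℝ) ≤ _ := g2
    _ = _ := by ring

theorem exL (hS : SepIn) (hR : RswIn) (h1 : RswOne) (hD : DualIn) (hQ : QmIn) (h4 : Law4) : ∃ ε1 : ℝ, 0 < ε1 ∧
    ∀ (ε : ℝ) (n0 : ℕ), 0 < ε → ε ≤ ε1 → ∃ s1 C : ℝ, 0 < s1 ∧ s1 ≤ 1 / 4 ∧ 0 < C ∧ ∀ t : ℝ, 0 < t → t ≤ s1 →
      ∃ L : ℕ, n0 ≤ L ∧ 1 ≤ L ∧ 1 - ε < hq (1 / 2 + t) L L ∧ (L : ℝ) ≤ C * t ^ (-(4 / 3) : ℝ) := by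
  obtain ⟨εc, hεc, hhalf⟩ := rs_half
  refine ⟨εc / 2, by positivity, ?_⟩
  intro ε n0 hε hε1
  obtain ⟨s1, hs1, hs1', hgood⟩ := good_small hε n0 (fun n hn _ => by
    have h2 := (hhalf n n hn (le_refl n)).2
    linarith)
  obtain ⟨s2, C, hs2, hs2', hC, hup⟩ := upperL hS hR h1 hD hQ h4 hε
  refine ⟨min s1 s2, C + 1, lt_min hs1 hs2, (min_le_left _ _).trans hs1', by positivity, ?_⟩
  intro t ht ht1
  have ht2 : t ≤ s1 := ht1.trans (min_le_left _ _)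
  have ht3 : t ≤ s2 := ht1.trans (min_le_right _ _)
  have hex : ∃ L : ℕ, 1 ≤ L ∧ 1 - ε < hq (1 / 2 + t) L L := by
    by_contra hcon
    push Not at hcon
    obtain ⟨N, hN⟩ := exists_nat_gt (C * t ^ (-(4 / 3) : ℝ))
    have h2 := hup t ht ht3 N (fun n hn _ => hcon n hn)
    linarith
  classical
  obtain ⟨L, ⟨hL1, hL2⟩, hmin⟩ : ∃ L : ℕ, (1 ≤ L ∧ 1 - ε < hq (1 / 2 + t) L L) ∧
      ∀ n : ℕ, n < L → ¬ (1 ≤ n ∧ 1 - ε < hq (1 / 2 + t) n n) :=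
    ⟨Nat.find hex, Nat.find_spec hex, fun n hn => Nat.find_min hex hn⟩
  have hn0 : n0 ≤ L := by
    by_contra hcon
    have h2 := hgood t ht.le ht2 L hL1 (by omega)
    linarith
  refine ⟨L, hn0, hL1, hL2, ?_⟩
  have h3 := hup t ht ht3 (L - 1) (fun n hn hnL => by
    by_contra hcon
    exact hmin n (by omega) ⟨hn, not_le.1 hcon⟩)
  have h5 : (1 : ℝ) ≤ t ^ (-(4 / 3) : ℝ) :=
    Real.one_le_rpow_of_pos_of_le_one_of_nonpos ht (by linarith) (by norm_num)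
  have h6 : (L : ℝ) = ((L - 1 : ℕ) : ℝ) + 1 := by
    have h7 : L = (L - 1) + 1 := by omega
    exact_mod_cast h7
  rw [h6, add_mul, one_mul]
  exact add_le_add h3 h5

end FKN
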