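import Mathlib
import Pool.Agent.Lib.MP_216314_pr.N.GL
import Pool.Agent.Lib.MP_216314_pr.N.NTj

/-!
# JOB NIa: renormalization of crossing probabilities near one (about 200 lines)

`f a b = 1 - hq q a b`.
* `hq_two`: the strips `[0,a] × [0,b]` and `[0,a] × [b+1, 2b+1]` have disjoint edge sets; a crossing of one of them is a crossing of `[0,a] × [0,2b+1]`: `Pr_indep` / `pq_indep` (GA) for the complements (`IPC.Pr_not`), `pq_HC`, `Conn.mono`.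
* `hq_long_one`: induction on `k ≥ 2` with `hq_glue_one` (GB; `a = k n`, `b = 2 n`, `N = n`): `f((k+1)n, n) ≤ f(kn,n) + f(2n,n) + f(n,n)`, `f(n,n) ≤ f(2n,n)` (`hq_anti_a`).
* `hq_rec`: `2 (2n+1) = 4n+2 ≤ 6 n` (`n ≥ 1`): `f(4n+2, 2n+1) ≤ f(4n+2, n)^2 ≤ f(6n,n)^2 ≤ (9 f(2n,n))^2`.
* `nk n k = 2^k (n+1) - 1`: `nk n 0 = n`, `nk n (k+1) = 2 nk n k + 1`.  `hq_seq`: `81 f(2 n_{k+1}, n_{k+1}) ≤ (81 f(2 n_k, n_k))^2 ≤ exp(-2^k)^2`.
* `hq_exp`: `N ≥ n`: take `k` with `n_k ≤ N < n_{k+1}` (`Nat.find`, or induction); `f(κ N, N) ≤ 2κ f(2N, N)`, `f(2N, N) ≤ f(2 n_{k+1}, n_k) ≤ f(6 n_k, n_k) ≤ 9 f(2 n_k, n_k) ≤ exp(-2^k)`; `N + 1 ≤ 2^(k+1) (n+1) ≤ 4 n 2^k`, so `exp(-2^k) ≤ exp(-N / (4n))`.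
* `hq_chain`: `hq_glue` (GB): `hq q (k n) n ≥ c^(2k)` if `c ≤ hq q (2n) n`, `c ≤ hq q n n`, `k ≥ 1`, `0 ≤ c ≤ 1`; for `N ≤ k n`: `hq q N n ≥ c^(2k)`.
-/

set_option autoImplicit false

namespace FKN

open Finset FKI FKP

/-- scales -/
def nk (n k : ℕ) : ℕ := 2 ^ k * (n + 1) - 1

theorem nk_zero (n : ℕ) : nk n 0 = n := by
  unfold nk
  rw [pow_zero, one_mul, Nat.add_sub_cancel]

theorem nk_succ (n k : ℕ) : nk n (k + 1) = 2 * nk n k + 1 := by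
  unfold nk
  have h1 : 1 ≤ 2 ^ k * (n + 1) := Nat.mul_pos (Nat.pow_pos (by norm_num)) (Nat.succ_pos n)
  have h2 : 2 ^ (k + 1) * (n + 1) = 2 * (2 ^ k * (n + 1)) := by ring
  rw [h2]
  omega

theorem nk_ge {n : ℕ} (hn : 1 ≤ n) (k : ℕ) : 1 ≤ nk n k ∧ n ≤ nk n k ∧ k ≤ nk n k := by
  induction k with
  | zero =>
    rw [nk_zero]
    exact ⟨hn, le_rfl, Nat.zero_le n⟩
  | succ k ih =>
    obtain ⟨h1, h2, h3⟩ := ih
    rw [nk_succ]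
    exact ⟨by omega, by omega, by omega⟩

theorem hq_two {q : ℝ} (h0 : 0 ≤ q) (h1 : q ≤ 1) (a b : ℕ) : 1 - hq q a (2 * b + 1) ≤ (1 - hq q a b) ^ 2 := by
  have hF : box 0 (a : ℤ) 0 b ⊆ box 0 (a : ℤ) 0 ((2 * b + 1 : ℕ) : ℤ) :=
    box_mono le_rfl le_rfl le_rfl (by push_cast; omega)
  have hG : box 0 (a : ℤ) (b + 1) ((2 * b + 1 : ℕ) : ℤ) ⊆ box 0 (a : ℤ) 0 ((2 * b + 1 : ℕ) : ℤ) :=
    box_mono le_rfl le_rfl (by omega) le_rfl
  have hd : Disjoint (box 0 (a : ℤ) 0 b) (box 0 (a : ℤ) (b + 1) ((2 * b + 1 : ℕ) : ℤ)) := by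
    rw [Finset.disjoint_left]
    intro e he he'
    rw [mem_box] at he he'
    rcases he with ⟨h, h5, h6, h7, h8⟩ | ⟨h, h5, h6, h7, h8⟩ <;>
      rcases he' with ⟨k, k5, k6, k7, k8⟩ | ⟨k, k5, k6, k7, k8⟩ <;> omega
  have eA : IPC.Pr q (box 0 (a : ℤ) 0 ((2 * b + 1 : ℕ) : ℤ)) (HC 0 a 0 b) = hq q a b :=
    pq_HC q a b (by ring) (by ring) hF
  have eB : IPC.Pr q (box 0 (a : ℤ) 0 ((2 * b + 1 : ℕ) : ℤ)) (HC 0 a (b + 1) ((2 * b + 1 : ℕ) : ℤ)) = hq q a b :=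
    pq_HC q a b (by ring) (by push_cast; ring) hG
  have dA : Dep (box 0 (a : ℤ) 0 b) (fun ω => ¬ HC 0 a 0 b ω) := fun ω =>
    not_congr (dep_HC (Finset.Subset.refl _) ω)
  have dB : Dep (box 0 (a : ℤ) (b + 1) ((2 * b + 1 : ℕ) : ℤ)) (fun ω => ¬ HC 0 a (b + 1) ((2 * b + 1 : ℕ) : ℤ) ω) :=
    fun ω => not_congr (dep_HC (Finset.Subset.refl _) ω)
  have e1 := pq_indep q hF hG hd dA dB
  rw [pq_not, pq_not, eA, eB] at e1
  have e2 : 1 - hq q a (2 * b + 1) = IPC.Pr q (box 0 (a : ℤ) 0 ((2 * b + 1 : ℕ) : ℤ))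
      (fun ω => ¬ HC 0 a 0 ((2 * b + 1 : ℕ) : ℤ) ω) := by
    rw [pq_not]
    rfl
  have e3 : (1 - hq q a b) ^ 2 = (1 - hq q a b) * (1 - hq q a b) := by ring
  rw [e2, e3, ← e1]
  refine pq_mono h0 h1 fun ω _ h => ⟨fun hA => h ?_, fun hB => h ?_⟩
  · obtain ⟨y, y', k1, k2, k3, k4, hc⟩ := hA
    exact ⟨y, y', k1, by push_cast; omega, k3, by push_cast; omega, hc.mono hF (Finset.Subset.refl _)⟩
  · obtain ⟨y, y', k1, k2, k3, k4, hc⟩ := hB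
    exact ⟨y, y', by omega, k2, by omega, k4, hc.mono hG (Finset.Subset.refl _)⟩

theorem hq_long_one {q : ℝ} (h0 : 0 ≤ q) (h1 : q ≤ 1) (n : ℕ) {k : ℕ} (hk : 2 ≤ k) :
    1 - hq q (k * n) n ≤ (2 * (k : ℝ) - 3) * (1 - hq q (2 * n) n) := by
  induction k, hk using Nat.le_induction with
  | base =>
    have e : (2 : ℝ) * ((2 : ℕ) : ℝ) - 3 = 1 := by norm_num
    rw [e, one_mul]
  | succ k hk ih =>
    have h3 := hq_glue_one h0 h1 (a := k * n) (b := 2 * n) (N := n) (Nat.le_mul_of_pos_left _ (by omega)) (by omega)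
    have e1 : k * n + 2 * n - n = (k + 1) * n := by
      rw [Nat.add_mul, one_mul]
      omega
    rw [e1] at h3
    have h4 := hq_anti_a h0 h1 (a := n) (a' := 2 * n) (by omega) n
    push_cast
    nlinarith

theorem hq_rec {q : ℝ} (h0 : 0 ≤ q) (h1 : q ≤ 1) {n : ℕ} (hn : 1 ≤ n) :
    1 - hq q (2 * (2 * n + 1)) (2 * n + 1) ≤ 81 * (1 - hq q (2 * n) n) ^ 2 := by
  have e1 := hq_two h0 h1 (2 * (2 * n + 1)) n
  have e2 := hq_anti_a h0 h1 (a := 2 * (2 * n + 1)) (a' := 6 * n) (by omega) n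
  have e3 := hq_long_one h0 h1 n (k := 6) (by norm_num)
  have e4 : (2 : ℝ) * ((6 : ℕ) : ℝ) - 3 = 9 := by norm_num
  rw [e4] at e3
  have e5 := (hq_bd h0 h1 (2 * (2 * n + 1)) n).2
  have e6 : (1 - hq q (2 * (2 * n + 1)) n) ^ 2 ≤ (9 * (1 - hq q (2 * n) n)) ^ 2 :=
    pow_le_pow_left₀ (by linarith) (by linarith) 2
  calc 1 - hq q (2 * (2 * n + 1)) (2 * n + 1) ≤ (1 - hq q (2 * (2 * n + 1)) n) ^ 2 := e1
    _ ≤ (9 * (1 - hq q (2 * n) n)) ^ 2 := e6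
    _ = 81 * (1 - hq q (2 * n) n) ^ 2 := by ring

theorem hq_seq {q : ℝ} (h0 : 0 ≤ q) (h1 : q ≤ 1) {n : ℕ} (hn : 1 ≤ n) (h : 81 * (1 - hq q (2 * n) n) ≤ Real.exp (-1)) (k : ℕ) :
    81 * (1 - hq q (2 * nk n k) (nk n k)) ≤ Real.exp (-(2 : ℝ) ^ k) := by
  induction k with
  | zero =>
    rw [nk_zero, pow_zero]
    exact h
  | succ k ih =>
    have h2 := hq_rec h0 h1 (nk_ge hn k).1
    have h3 := (hq_bd h0 h1 (2 * nk n k) (nk n k)).2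
    rw [nk_succ]
    have e1 : Real.exp (-(2 : ℝ) ^ (k + 1)) = Real.exp (-(2 : ℝ) ^ k) ^ 2 := by
      rw [← Real.exp_nat_mul]
      congr 1
      push_cast
      ring
    rw [e1]
    have h4 : (81 * (1 - hq q (2 * nk n k) (nk n k))) ^ 2 ≤ Real.exp (-(2 : ℝ) ^ k) ^ 2 :=
      pow_le_pow_left₀ (by linarith) ih 2
    calc 81 * (1 - hq q (2 * (2 * nk n k + 1)) (2 * nk n k + 1)) ≤
        81 * (81 * (1 - hq q (2 * nk n k) (nk n k)) ^ 2) := by linarith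
      _ = (81 * (1 - hq q (2 * nk n k) (nk n k))) ^ 2 := by ring
      _ ≤ _ := h4

theorem NIa_scale {n : ℕ} (hn : 1 ≤ n) {N : ℕ} (hN : n ≤ N) : ∃ k : ℕ, nk n k ≤ N ∧ N < nk n (k + 1) := by
  classical
  have hex : ∃ k : ℕ, N < nk n (k + 1) := ⟨N, by have := (nk_ge hn (N + 1)).2.2; omega⟩
  refine ⟨Nat.find hex, ?_, Nat.find_spec hex⟩
  rcases Nat.eq_zero_or_pos (Nat.find hex) with h | h
  · rw [h, nk_zero]
    exact hN
  · have h2 := Nat.find_min hex (m := Nat.find hex - 1) (by omega)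
    rw [Nat.sub_add_cancel h] at h2
    omega

theorem hq_exp {q : ℝ} (h0 : 0 ≤ q) (h1 : q ≤ 1) {n : ℕ} (hn : 1 ≤ n) (h : 81 * (1 - hq q (2 * n) n) ≤ Real.exp (-1)) {N κ : ℕ}
    (hN : n ≤ N) (hκ : 2 ≤ κ) : 1 - hq q (κ * N) N ≤ 2 * (κ : ℝ) * Real.exp (-((N : ℝ) / (4 * n))) := by
  obtain ⟨k, hk1, hk2⟩ := NIa_scale hn hN
  have hg := nk_ge hn k
  have a1 := hq_long_one h0 h1 N hκ
  have a2 := hq_bd h0 h1 (2 * N) N
  rw [nk_succ] at hk2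
  have a3 := hq_anti_a h0 h1 (a := 2 * N) (a' := 6 * nk n k) (by omega) N
  have a4 := hq_mono_b h0 h1 (6 * nk n k) (b := nk n k) (b' := N) hk1
  have a5 := hq_long_one h0 h1 (nk n k) (k := 6) (by norm_num)
  have e4 : (2 : ℝ) * ((6 : ℕ) : ℝ) - 3 = 9 := by norm_num
  rw [e4] at a5
  have a6 := hq_seq h0 h1 hn h k
  have a7 := Real.exp_pos (-(2 : ℝ) ^ k)
  have a8 : 1 - hq q (2 * N) N ≤ Real.exp (-(2 : ℝ) ^ k) := by linarith
  have hn0 : (0 : ℝ) < n := by exact_mod_cast hn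
  have a9 : (N : ℝ) / (4 * n) ≤ (2 : ℝ) ^ k := by
    rw [div_le_iff₀ (by positivity)]
    have b1 : N ≤ 2 ^ k * (4 * n) := by
      have b2 : nk n k = 2 ^ k * (n + 1) - 1 := rfl
      have b3 : 2 ^ k * (n + 1) ≤ 2 ^ k * (2 * n) := Nat.mul_le_mul_left _ (by omega)
      have b4 : 2 ^ k * (4 * n) = 2 * (2 ^ k * (2 * n)) := by ring
      have b5 : 1 ≤ 2 ^ k * (n + 1) := Nat.mul_pos (Nat.pow_pos (by norm_num)) (Nat.succ_pos n)
      omega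
    exact_mod_cast b1
  have a10 : Real.exp (-(2 : ℝ) ^ k) ≤ Real.exp (-((N : ℝ) / (4 * n))) :=
    Real.exp_le_exp.2 (by linarith)
  have hκ2 : (2 : ℝ) ≤ κ := by exact_mod_cast hκ
  calc 1 - hq q (κ * N) N ≤ (2 * (κ : ℝ) - 3) * (1 - hq q (2 * N) N) := a1
    _ ≤ (2 * (κ : ℝ)) * (1 - hq q (2 * N) N) := by
      refine mul_le_mul_of_nonneg_right (by linarith) (by linarith)
    _ ≤ 2 * (κ : ℝ) * Real.exp (-((N : ℝ) / (4 * n))) := by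
      refine mul_le_mul_of_nonneg_left (a8.trans a10) (by linarith)

theorem hq_chain {q : ℝ} (h0 : 0 ≤ q) (h1 : q ≤ 1) {c : ℝ} (hc0 : 0 ≤ c) (hc1 : c ≤ 1) {n k N : ℕ} (hk : 1 ≤ k) (hN : N ≤ k * n)
    (h2 : c ≤ hq q (2 * n) n) : c ^ (2 * k) ≤ hq q N n := by
  have key : ∀ k : ℕ, 1 ≤ k → c ^ (2 * k) ≤ hq q (k * n) n := by
    intro k hk
    have h3 := hq_anti_a h0 h1 (a := n) (a' := 2 * n) (by omega) n
    induction k, hk using Nat.le_induction with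
    | base =>
      rw [one_mul, mul_one, sq]
      nlinarith
    | succ k hk ih =>
      have h4 := hq_glue h0 h1 (a := k * n) (b := 2 * n) (N := n) (Nat.le_mul_of_pos_left _ hk) (by omega)
      have e1 : k * n + 2 * n - n = (k + 1) * n := by
        rw [Nat.add_mul, one_mul]
        omega
      rw [e1] at h4
      refine le_trans ?_ h4
      have e2 : c ^ (2 * (k + 1)) = c ^ (2 * k) * c * c := by ring
      rw [e2]
      have hp : (0 : ℝ) ≤ c ^ (2 * k) := by positivity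
      exact mul_le_mul (mul_le_mul ih h2 hc0 (hp.trans ih)) (h2.trans h3) hc0
        (mul_nonneg (hp.trans ih) (hc0.trans h2))
  exact (key k hk).trans (hq_anti_a h0 h1 hN n)

end FKN
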