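import Pool.Agent.Lib.MP_216314_pr.N.FW
import Pool.Agent.Lib.MP_216314_pr.N.GW
import Pool.Agent.Lib.MP_216314_pr.N.GR
import Pool.Agent.Lib.MP_216314_pr.N.NAg
import Pool.Agent.Lib.MP_216314_pr.N.NIa

/-!
# The near critical window from arm separation and the exact law of four arms
-/

set_option autoImplicit false

namespace FKN

open Finset FKI FKP

private theorem nw_p1_mono {q q' : ℝ} (h0 : 0 ≤ q) (h : q ≤ q') (h1 : q' ≤ 1) (r : ℕ) : p1 q r ≤ p1 q' r := by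
  refine IPC.Pr_mono_p h0 h h1 _ ?_
  rintro ω ω' hω ⟨u, hu, hc⟩
  exact ⟨u, hu, hc.mono (Finset.Subset.refl _) hω⟩

private theorem nw_exp {a δ : ℝ} (ha : 0 < a) (hδ : 0 < δ) (B : ℝ) :
    ∃ A : ℕ, 1 ≤ A ∧ B ≤ A ∧ 8 * Real.exp (-(a * A)) ≤ δ := by
  obtain ⟨A, hA⟩ := exists_nat_ge (max (max 1 B) (8 / (a * δ)))
  have h1 : (1 : ℝ) ≤ A := (le_max_left _ _).trans ((le_max_left _ _).trans hA)
  have h2 : B ≤ A := (le_max_right _ _).trans ((le_max_left _ _).trans hA)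
  have h3 : 8 / (a * δ) ≤ A := (le_max_right _ _).trans hA
  refine ⟨A, by exact_mod_cast h1, h2, ?_⟩
  have h4 : a * A + 1 ≤ Real.exp (a * A) := Real.add_one_le_exp _
  have h5 : 0 < a * A := mul_pos ha (by linarith)
  rw [div_le_iff₀ (mul_pos ha hδ)] at h3
  rw [Real.exp_neg, ← div_eq_mul_inv, div_le_iff₀ (Real.exp_pos _)]
  nlinarith

theorem win (hS : SepIn) (h4 : Law4) : FKF.Win := by
  classical
  obtain ⟨ε', hε', hM⟩ := scaleM hS rswIn rswOne dualIn qmIn h4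
  obtain ⟨η, c1, C1, hη, hc1, hC1, hst⟩ := stabAll hS rswIn qmIn h4 hε'
  obtain ⟨s1, c2, C2, hs1, hs14, hc2, hC2, hsc⟩ := hM η hη
  obtain ⟨ε3, n3, hε3, h3⟩ := rswOne 2 (Real.exp (-1) / 81) (by positivity)
  obtain ⟨ε1, hε1, hx⟩ := exL hS rswIn rswOne dualIn qmIn h4
  obtain ⟨s2, C3, hs2, hs24, hC3, hL⟩ := hx (min ε3 ε1) n3 (lt_min hε3 hε1) (min_le_right _ _)
  have hch : ∀ s : ℝ, ∃ M : ℕ, 0 < s → s ≤ s1 →
      1 ≤ M ∧ c2 * s ^ (-(4 / 3) : ℝ) ≤ M ∧ (M : ℝ) ≤ C2 * s ^ (-(4 / 3) : ℝ) ∧ Per ε' η s M := by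
    intro s
    by_cases h : 0 < s ∧ s ≤ s1
    · obtain ⟨M, hM⟩ := hsc s h.1 h.2
      exact ⟨M, fun _ _ => hM⟩
    · exact ⟨0, fun h1 h2 => absurd ⟨h1, h2⟩ h⟩
  choose M hMs using hch
  refine ⟨min s1 s2, ε', min c2 C1⁻¹, max C2 C1, M, lt_min hs1 hs2, (min_le_left _ _).trans hs14, hε',
    lt_min hc2 (inv_pos.2 hC1), lt_max_of_lt_left hC2, ?_, ?_⟩
  · intro s hs hs0
    have hs1' : s ≤ s1 := hs0.trans (min_le_left _ _)
    obtain ⟨hM1, hMl, hMu, hP⟩ := hMs s hs hs1'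
    have hp : 0 ≤ s ^ (-(4 / 3) : ℝ) := Real.rpow_nonneg hs.le _
    have hs4 : s ≤ 1 / 4 := hs1'.trans hs14
    refine ⟨⟨(mul_le_mul_of_nonneg_right (min_le_left _ _) hp).trans hMl,
      hMu.trans (mul_le_mul_of_nonneg_right (le_max_left _ _) hp)⟩,
      ⟨hP.1 _ (by linarith) le_rfl, hP.1 _ le_rfl (by linarith)⟩, ?_⟩
    intro n hn hnM
    have h5 := (hst s (M s) hs.le hs4 hP n hn hnM).2.2.2
    have h6 : p1 (1 / 2 - s) n ≤ p1 (1 / 2) n := nw_p1_mono (by linarith) (by linarith) (by norm_num) n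
    have h7 : p1 (1 / 2) n ≤ p1 (1 / 2 + s) n := nw_p1_mono (by norm_num) (by linarith) (by linarith) n
    have h8 : 0 ≤ p1 (1 / 2) n := IPC.Pr_nonneg (by norm_num) (by norm_num) _ _
    constructor
    · calc p1 (1 / 2 + s) n ≤ C1 * p1 (1 / 2 - s) n := h5
        _ ≤ C1 * p1 (1 / 2) n := mul_le_mul_of_nonneg_left h6 hC1.le
        _ ≤ max C2 C1 * p1 (1 / 2) n := mul_le_mul_of_nonneg_right (le_max_right _ _) h8
    · calc min c2 C1⁻¹ * p1 (1 / 2) n ≤ C1⁻¹ * p1 (1 / 2) n := mul_le_mul_of_nonneg_right (min_le_right _ _) h8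
        _ ≤ C1⁻¹ * (C1 * p1 (1 / 2 - s) n) := mul_le_mul_of_nonneg_left (h7.trans h5) (inv_nonneg.2 hC1.le)
        _ = p1 (1 / 2 - s) n := by rw [← mul_assoc, inv_mul_cancel₀ hC1.ne', one_mul]
  · intro δ hδ
    obtain ⟨A, hA1, hAB, hAe⟩ := nw_exp (a := c2 / (4 * C3)) (by positivity) hδ (C3 / c2)
    refine ⟨A, hA1, ?_⟩
    intro s hs hs0
    have hs1' : s ≤ s1 := hs0.trans (min_le_left _ _)
    have hs2' : s ≤ s2 := hs0.trans (min_le_right _ _)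
    obtain ⟨hM1, hMl, hMu, hP⟩ := hMs s hs hs1'
    obtain ⟨L, hLn, hL1, hLh, hLu⟩ := hL s hs hs2'
    have hq0 : (0 : ℝ) ≤ 1 / 2 + s := by linarith
    have hq1 : (1 : ℝ) / 2 + s ≤ 1 := by linarith
    have h5 : 1 - Real.exp (-1) / 81 ≤ hq (1 / 2 + s) (2 * L) L := by
      refine h3 _ L hq0 hq1 hLn ?_
      have := min_le_left ε3 ε1
      linarith
    have h6 : 81 * (1 - hq (1 / 2 + s) (2 * L) L) ≤ Real.exp (-1) := by linarith
    have hLpos : (0 : ℝ) < L := by exact_mod_cast hL1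
    have hMpos : (0 : ℝ) < M s := by exact_mod_cast hM1
    have hLM : (L : ℝ) ≤ C3 / c2 * M s := by
      have hp : 0 ≤ s ^ (-(4 / 3) : ℝ) := Real.rpow_nonneg hs.le _
      calc (L : ℝ) ≤ C3 * s ^ (-(4 / 3) : ℝ) := hLu
        _ = C3 / c2 * (c2 * s ^ (-(4 / 3) : ℝ)) := by field_simp
        _ ≤ C3 / c2 * M s := mul_le_mul_of_nonneg_left hMl (by positivity)
    have hLN : L ≤ A * M s := by
      have h7 : (L : ℝ) ≤ ((A * M s : ℕ) : ℝ) := by
        push_cast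
        exact hLM.trans (mul_le_mul_of_nonneg_right hAB hMpos.le)
      exact_mod_cast h7
    have h7 := hq_exp hq0 hq1 hL1 h6 (N := A * M s) (κ := 4) hLN (by norm_num)
    show 1 - hq (1 / 2 + s) (4 * (A * M s)) (A * M s) ≤ δ
    refine h7.trans (le_trans ?_ hAe)
    have h8 : c2 / (4 * C3) * A ≤ ((A * M s : ℕ) : ℝ) / (4 * L) := by
      push_cast
      rw [le_div_iff₀ (by positivity)]
      have h9 : c2 * L ≤ C3 * M s := by
        have := mul_le_mul_of_nonneg_left hLM hc2.le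
        calc c2 * L ≤ c2 * (C3 / c2 * M s) := this
          _ = C3 * M s := by field_simp
      have h10 : c2 / (4 * C3) * A * (4 * L) = A * (c2 * L) / C3 := by field_simp
      rw [h10, div_le_iff₀ hC3]
      have hA0 : (0 : ℝ) ≤ A := Nat.cast_nonneg _
      nlinarith [mul_le_mul_of_nonneg_left h9 hA0]
    have h11 : Real.exp (-(((A * M s : ℕ) : ℝ) / (4 * L))) ≤ Real.exp (-(c2 / (4 * C3) * A)) :=
      Real.exp_le_exp.2 (neg_le_neg h8)
    have h12 : (2 : ℝ) * ((4 : ℕ) : ℝ) = 8 := by norm_num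
    rw [h12]
    exact mul_le_mul_of_nonneg_left h11 (by norm_num)

end FKN
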