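import Pool.Agent.Lib.MP_216314_pr.N.DEnd
import Pool.Agent.Lib.MP_216314_pr.N.NW

/-!
# The near critical window from the law of four arms
-/

set_option autoImplicit false

namespace FKN

theorem winL (h4 : Law4) : FKF.Win := win sepIn h4

end FKN
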