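import Pool.Agent.Lib.MP_216314_pr.N.E3A
import Pool.Agent.Lib.MP_216314_pr.N.E3C

/-!
# From the four arms around the cylinder to the event of the exact law

PROOF of `t4_w0` (`r = 0`, `cs = true`, `L = 2 n`; `e0 ∉ ω`, `bc ∈ ω`). Tiles at height `0` for every `j`: tile `(2 n j, 0)` has the edge `te (2 n j) 0`, `red n` of it is `e0 ∉ ω`, parity even, so `¬ DG`: the faces `(2 n j, 1)`, `(2 n j + 1, 0)` are connected (in the
upper part); tile `(2 n j + 1, 0)` has the edge with `red n .. = bc ∈ ω`, parity odd, so `¬ DG`: the faces `(2 n j + 1, 1)`, `(2 n j + 2, 0)` are connected (upper part) (`te_shift`, `red_shift`, `dg_shift`). Use `ing_up` for the side `false`, `inf_side` to pass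
between `InF` and `InG` (faces with `y > 0` have only the side `false`; faces of height `0` other than cut ones have both sides), `ing_row` to pass to `GC`, and `GC` reflexive for the start. Write `Z b g` for `GC` node `(b, g)`.
 (A) plaquette `(0,-1)` = face `(1, 0)`, cut. With `u = (true, 1)`: `InF .. 1 0` (side `cs = true`, reflexivity); by `path0D` and `E3T4` (`(0,-1)` to `(n, -1 - n)`) `InF .. (2 n + 1) 0`, which is cut, so `InG .. true (2 n + 1) 0`, i.e. `GC (true, 1) (true, 1 + 2 n)`.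
 (B) plaquette `(0, 0)` = face `(0, 1)`. With `u = (false, 1)`: `InG .. false 1 0`, so `InG .. false 0 1` (tile `(0,0)`), `InF .. 0 1`, `path0D`: `InF .. (2 n) 1`, `InG .. false (2 n) 1`, tile `(2 n, 0)`: `InG .. false (2 n + 1) 0`, so `GC (false, 1) (false, 1 + 2 n)`.
 (C) case `(0,0)` to `(1 + n, -n)` open: with `u = (b, 0)` (any `b`): `InF .. 0 0` (not cut), `path0P`: `InF .. (1 + 2 n) 1`, so `InG .. false (2 n + 1) 1`, tile `(2 n + 1, 0)`: `InG .. false (2 n + 2) 0`, so `GC (b, 0) (false, 2 + 2 n)`: sectors `(b, 0)` done; for the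
 sectors `(b, 2)`: `GC (false, 0) (b, 2 + 2 n)` (glue at the gap `2 + 2 n`: `¬ 2 n ∣ 2 + 2 n - 1`).
 (C') case `(1,0)` to `(n, -n)` open: with `u = (b, 2)`: `InG .. false 2 0`, tile `(1, 0)`: `InG .. false 1 1`, `InF .. 1 1`, `path0P`: `InF .. (2 n) 0`, not cut: `GC (b, 2) (b', 0 + 2 n)` for both `b'`.
 Then `wl_of_sectors`: sector `(true, 1)`: (A), `(false, 1)`: (B), `(b, 0)`, `(b, 2)`: (C) or (C'), in the first or in the second form of the disjunction.
PROOF of `t4_w1` (`r = 1`, `cs = false`; `e0 ∈ ω`, `bc ∉ ω`). Now the tiles at height `0` are in the lower part (side `true`, `ing_lo`): tile `(2 n j, 0)`: even parity, the edge is open: `DG`: the faces `(2 n j, 0)`, `(2 n j + 1, 1)` are connected; tile `(2 n j + 1, 0)`: odd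
parity, the edge is closed: `DG`: the faces `(2 n j + 1, 0)`, `(2 n j + 2, 1)` are connected.
 (A) `u = (b, 0)` : face `(0, 1)` = plaquette `(0,0)` : `InF .. 0 1`, `path1D`: `InF .. (2 n) 1` (not cut): `GC (b, 0) (b', 2 n)`.
 (B) `u = (b, 2)`: `InG .. true 2 1` (glue if `b = false`), so `InG .. true 1 0`, `InF .. 1 0` (height `0 ≠ 1`), `path1D` from the plaquette `(0,-1)`: `InF .. (2 n + 1) 0`, `InG .. true (2 n + 1) 0`, `InG .. true (2 n + 2) 1`: `GC (b, 2) (true, 2 + 2 n)`.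
 (C) case `(0,0)` to `(1 + n, -n)` open: `u = (true, 1)`: `InG .. true 1 1`, so `InG .. true 0 0`, `InF .. 0 0`, `path1P`: `InF .. (2 n + 1) 1`, cut, `cs = false`: `InG .. false (2 n + 1) 1`: `GC (true, 1) (false, 1 + 2 n)`. This gives the sectors `(true, 1)` (first form) and
 `(false, 1)` (second form).
 (C') case `(1,0)` to `(n, -n)` open: `u = (false, 1)`: `InG .. false 1 1`, cut, `InF .. 1 1`, `path1P`: `InF .. (2 n) 0`, `InG .. true (2 n) 0`, `InG .. true (2 n + 1) 1`: `GC (false, 1) (true, 1 + 2 n)`: sectors `(false, 1)` and `(true, 1)`.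
Here `L = 2 n` in `wl_of_sectors` is `((2 * n : ℕ) : ℤ)`: `push_cast`. The vertices `(1 + n, -n)`: `v.1 - v.2 = 1 + 2 n`, `v.1 + v.2 = 1`; `(n, -n)`: `2 n`, `0`; plaquettes `(n, -n)`: `2 n`, `0 + 1`; `(n, -1 - n)`: `2 n + 1`, `-1 + 1 = 0`.
-/

set_option autoImplicit false

noncomputable section

namespace CY

open Finset FKI FKP FKN

section

variable {n m : ℕ} {α : Pat (2 * n)} {ω : Finset Edge}

private theorem E3D_dg0 {n : ℕ} (hn : 2 ≤ n) (ω : Finset Edge) (j : ℤ) : DG n ω (j * (2 * n : ℕ)) 0 ↔ e0 ∈ ω := by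
  have h := dg_shift (n := n) (by omega) ω 0 0 j
  rw [add_zero] at h
  rw [h]
  unfold DG
  have h1 : te 0 0 = e0 := by
    rw [te_even (by norm_num)]
    rfl
  have h2 : red n e0 = e0 := by
    show ((0 : ℤ) - ((0 : ℤ) - 0) / (2 * n) * n, (0 : ℤ) + ((0 : ℤ) - 0) / (2 * n) * n, false) = (0, 0, false)
    simp
  rw [h1, h2]
  constructor
  · intro hh
    exact hh.1 (by norm_num)
  · intro hh
    exact ⟨fun _ => hh, fun _ => by norm_num⟩

private theorem E3D_dg1 {n : ℕ} (hn : 2 ≤ n) (ω : Finset Edge) (j : ℤ) : DG n ω (j * (2 * n : ℕ) + 1) 0 ↔ bc ∉ ω := by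
  rw [dg_shift (n := n) (by omega) ω 1 0 j]
  unfold DG
  have h1 : te 1 0 = bc := by
    rw [te_odd (by norm_num)]
    rfl
  have h2 : red n bc = bc := by
    show ((1 : ℤ) - ((1 : ℤ) - -1) / (2 * n) * n, (-1 : ℤ) + ((1 : ℤ) - -1) / (2 * n) * n, true) = (1, -1, true)
    have h3 : ((1 : ℤ) - -1) / (2 * n) = 0 := Int.ediv_eq_zero_of_lt (by norm_num) (by omega)
    rw [h3]
    simp
  rw [h1, h2]
  constructor
  · intro hh hb
    have := hh.2 hb
    norm_num at this
  · intro hh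
    exact ⟨fun c => by norm_num at c, fun c => absurd c hh⟩

private theorem E3D_nd {n : ℕ} (hn : 2 ≤ n) {k : ℤ} (j : ℤ) (h0 : 1 ≤ k) (h1 : k ≤ 3) : ¬ ((2 * n : ℕ) : ℤ) ∣ k + j * (2 * n : ℕ) := by
  intro h
  have h2 : ((2 * n : ℕ) : ℤ) ∣ k := (dvd_add_left (Dvd.intro_left j rfl)).1 h
  have h3 := Int.le_of_dvd (by omega) h2
  push_cast at h3
  omega

/-- gaps `0` modulo the period are not cut -/
private theorem E3D_nd0 {n : ℕ} (hn : 2 ≤ n) : ¬ ((2 * n : ℕ) : ℤ) ∣ 0 - 1 := by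
  intro h
  have h2 : ((2 * n : ℕ) : ℤ) ∣ 1 := by
    have := (dvd_neg (α := ℤ)).2 h
    simpa using this
  have h3 := Int.le_of_dvd (by norm_num) h2
  push_cast at h3
  omega

private theorem E3D_ndL {n : ℕ} (hn : 2 ≤ n) : ¬ ((2 * n : ℕ) : ℤ) ∣ ((2 * n : ℕ) : ℤ) - 1 := by
  intro h
  have h2 : ((2 * n : ℕ) : ℤ) ∣ 1 := (dvd_sub_right (dvd_refl _)).1 h
  have h3 := Int.le_of_dvd (by norm_num) h2
  push_cast at h3
  omega

private theorem E3D_glue {L : ℕ} {P Q : Pat L} {g : ℤ} (h : ¬ (L : ℤ) ∣ g - 1) (b b' : Bool) : GC P Q (b, g) (b', g) := by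
  by_cases hb : b = b'
  · rw [hb]
    exact Relation.EqvGen.refl _
  · exact Relation.EqvGen.rel _ _ (Or.inr (Or.inr ⟨rfl, h⟩))

private theorem E3D_row0 {u : Bool × ℤ} {b : Bool} {k : ℤ} :
    InG n m 0 α ω u b k 0 ↔ GC (pur n m 0 α ω) (plr n m 0 α ω) u (b, k) := by
  have h := ing_row (n := n) (m := m) (r := 0) (α := α) (ω := ω) (u := u) (Nat.zero_le _) b k
  rwa [Nat.cast_zero] at h

private theorem E3D_row1 {u : Bool × ℤ} {b : Bool} {k : ℤ} (hm : 1 ≤ m) :
    InG n m 1 α ω u b k 1 ↔ GC (pur n m 1 α ω) (plr n m 1 α ω) u (b, k) := by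
  have h := ing_row (n := n) (m := m) (r := 1) (α := α) (ω := ω) (u := u) (by omega) b k
  rwa [Nat.cast_one] at h

/-- side of a face for `r = 0` -/
private theorem E3D_s0 {u : Bool × ℤ} {b : Bool} {k y : ℤ} (h1 : b = true → y ≤ 0) (h2 : b = false → 0 ≤ y)
    (hc : y = 0 → ((2 * n : ℕ) : ℤ) ∣ k - 1 → b = true) :
    InF n m 0 true α ω u k y ↔ InG n m 0 α ω u b k y :=
  inf_side (Nat.zero_le _) (by rw [Nat.cast_zero]; exact h1) (by rw [Nat.cast_zero]; exact h2) (by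
    rintro ⟨c1, c2⟩
    rw [Nat.cast_zero] at c1
    exact hc c1 c2)

/-- side of a face for `r = 1` -/
private theorem E3D_s1 {u : Bool × ℤ} {b : Bool} {k y : ℤ} (hm : 1 ≤ m) (h1 : b = true → y ≤ 1) (h2 : b = false → 1 ≤ y)
    (hc : y = 1 → ((2 * n : ℕ) : ℤ) ∣ k - 1 → b = false) :
    InF n m 1 false α ω u k y ↔ InG n m 1 α ω u b k y :=
  inf_side (by omega) (by rw [Nat.cast_one]; exact h1) (by rw [Nat.cast_one]; exact h2) (by
    rintro ⟨c1, c2⟩
    rw [Nat.cast_one] at c1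
    exact hc c1 c2)

/-- the tile `(2 n j, 0)`, `r = 0` -/
private theorem E3D_t0a {u : Bool × ℤ} (hn : 2 ≤ n) (hm : 1 ≤ m) (h0 : e0 ∉ ω) (j : ℤ) :
    InG n m 0 α ω u false (j * (2 * n : ℕ)) 1 ↔ InG n m 0 α ω u false (j * (2 * n : ℕ) + 1) 0 := by
  have h := (ing_up (n := n) (m := m) (r := 0) (α := α) (ω := ω) (u := u) (by omega) (k := j * (2 * n : ℕ)) (y := 0)
    (by simp) (by omega)).2 (fun c => h0 ((E3D_dg0 hn ω j).1 c))
  rwa [zero_add] at h

/-- the tile `(2 n j + 1, 0)`, `r = 0` -/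
private theorem E3D_t0b {u : Bool × ℤ} (hn : 2 ≤ n) (hm : 1 ≤ m) (hbc : bc ∈ ω) (j : ℤ) :
    InG n m 0 α ω u false (j * (2 * n : ℕ) + 1) 1 ↔ InG n m 0 α ω u false (j * (2 * n : ℕ) + 2) 0 := by
  have h := (ing_up (n := n) (m := m) (r := 0) (α := α) (ω := ω) (u := u) (by omega) (k := j * (2 * n : ℕ) + 1) (y := 0)
    (by simp) (by omega)).2 (fun c => (E3D_dg1 hn ω j).1 c hbc)
  rwa [zero_add, add_assoc, one_add_one_eq_two] at h

/-- the tile `(2 n j, 0)`, `r = 1` -/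
private theorem E3D_t1a {u : Bool × ℤ} (hn : 2 ≤ n) (h0 : e0 ∈ ω) (j : ℤ) :
    InG n m 1 α ω u true (j * (2 * n : ℕ)) 0 ↔ InG n m 1 α ω u true (j * (2 * n : ℕ) + 1) 1 := by
  have h := (ing_lo (n := n) (m := m) (r := 1) (α := α) (ω := ω) (u := u) (by omega) (k := j * (2 * n : ℕ)) (y := 0)
    (by omega) (by simp)).1 ((E3D_dg0 hn ω j).2 h0)
  rwa [zero_add] at h

/-- the tile `(2 n j + 1, 0)`, `r = 1` -/
private theorem E3D_t1b {u : Bool × ℤ} (hn : 2 ≤ n) (hbc : bc ∉ ω) (j : ℤ) :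
    InG n m 1 α ω u true (j * (2 * n : ℕ) + 1) 0 ↔ InG n m 1 α ω u true (j * (2 * n : ℕ) + 2) 1 := by
  have h := (ing_lo (n := n) (m := m) (r := 1) (α := α) (ω := ω) (u := u) (by omega) (k := j * (2 * n : ℕ) + 1) (y := 0)
    (by omega) (by simp)).1 ((E3D_dg1 hn ω j).2 hbc)
  rwa [zero_add, add_assoc, one_add_one_eq_two] at h

private theorem E3D_e1 (n : ℕ) : (1 : ℤ) + n - -(n : ℤ) = 1 + (2 * n : ℕ) := by push_cast; ring
private theorem E3D_e2 (n : ℕ) : (1 : ℤ) + n + -(n : ℤ) = 1 := by ring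
private theorem E3D_e3 (n : ℕ) : (n : ℤ) - -(n : ℤ) = (2 * n : ℕ) := by push_cast; ring
private theorem E3D_e4 (n : ℕ) : (n : ℤ) + -(n : ℤ) = 0 := by ring
private theorem E3D_e5 (n : ℕ) : (n : ℤ) - (-1 - (n : ℤ)) = 1 + (2 * n : ℕ) := by push_cast; ring
private theorem E3D_e6 (n : ℕ) : (n : ℤ) + (-1 - (n : ℤ)) + 1 = 0 := by ring

/-- assembly of the sectors -/
private theorem E3D_cases {L : ℕ} {P Q : Pat L} (h0 : ∀ b : Bool, ∃ (b' : Bool) (g' : ℤ), 0 ≤ g' ∧ g' ≤ 2 ∧
      (GC P Q (b, 0) (b', g' + L) ∨ GC P Q (b', g') (b, 0 + L)))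
    (h1 : ∀ b : Bool, ∃ (b' : Bool) (g' : ℤ), 0 ≤ g' ∧ g' ≤ 2 ∧
      (GC P Q (b, 1) (b', g' + L) ∨ GC P Q (b', g') (b, 1 + L)))
    (h2 : ∀ b : Bool, ∃ (b' : Bool) (g' : ℤ), 0 ≤ g' ∧ g' ≤ 2 ∧
      (GC P Q (b, 2) (b', g' + L) ∨ GC P Q (b', g') (b, 2 + L))) : WL 2 2 P Q := by
  refine wl_of_sectors fun b g hg hg' => ?_
  have h3 : g = 0 ∨ g = 1 ∨ g = 2 := by omega
  rcases h3 with h3 | h3 | h3
  · rw [h3]
    exact h0 b
  · rw [h3]
    exact h1 b
  · rw [h3]
    exact h2 b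

theorem t4_w0 (hn : 2 ≤ n) (hm : 1 ≤ m) (hω : ω ⊆ cylE n m) (h0 : e0 ∉ ω) (hbc : bc ∈ ω) (hT : E3T4 n m ω) : Wr n m 0 α ω := by
  obtain ⟨hP, hD1, hD2⟩ := hT
  unfold Wr
  have c0 : ((2 * n : ℕ) : ℤ) = 1 * (2 * n : ℕ) := (one_mul _).symm
  have A : GC (pur n m 0 α ω) (plr n m 0 α ω) (true, 1) (true, 1 + (2 * n : ℕ)) := by
    have s1 : InG n m 0 α ω (true, 1) true 1 0 := E3D_row0.2 (Relation.EqvGen.refl _)
    have s2 : InF n m 0 true α ω (true, 1) 1 0 :=
      (E3D_s0 (b := true) (fun _ => le_rfl) (fun c => by cases c) (fun _ _ => rfl)).2 s1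
    have s3 := path0D (α := α) (u := (true, 1)) hn hbc hD2
    simp only at s3
    rw [E3D_e5, E3D_e6, show (0 : ℤ) - -1 = 1 by norm_num, show (0 : ℤ) + -1 + 1 = 0 by norm_num] at s3
    have s4 := s3.1 s2
    exact E3D_row0.1 ((E3D_s0 (b := true) (fun _ => le_rfl) (fun c => by cases c) (fun _ _ => rfl)).1 s4)
  have B : GC (pur n m 0 α ω) (plr n m 0 α ω) (false, 1) (false, 1 + (2 * n : ℕ)) := by
    have s1 : InG n m 0 α ω (false, 1) false 1 0 := E3D_row0.2 (Relation.EqvGen.refl _)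
    have s2 : InG n m 0 α ω (false, 1) false 0 1 := by
      have := E3D_t0a (α := α) (u := (false, 1)) hn hm h0 0
      rw [zero_mul, zero_add] at this
      exact this.2 s1
    have s3 : InF n m 0 true α ω (false, 1) 0 1 :=
      (E3D_s0 (b := false) (fun c => by cases c) (fun _ => by norm_num) (fun c => by norm_num at c)).2 s2
    have s4 := path0D (α := α) (u := (false, 1)) hn hbc hD1
    simp only at s4
    rw [E3D_e3, E3D_e4, sub_zero, add_zero, zero_add] at s4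
    have s5 := s4.1 s3
    have s6 : InG n m 0 α ω (false, 1) false (2 * n : ℕ) 1 :=
      (E3D_s0 (b := false) (fun c => by cases c) (fun _ => by norm_num) (fun c => by norm_num at c)).1 s5
    have s7 := E3D_t0a (α := α) (u := (false, 1)) hn hm h0 1
    rw [one_mul] at s7
    have s8 := s7.1 s6
    rw [add_comm] at s8
    exact E3D_row0.1 s8
  rcases hP with hP | hP
  · have C : ∀ b : Bool, GC (pur n m 0 α ω) (plr n m 0 α ω) (b, 0) (false, 2 + (2 * n : ℕ)) := by
      intro b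
      have s1 : InG n m 0 α ω (b, 0) b 0 0 := E3D_row0.2 (Relation.EqvGen.refl _)
      have s2 : InF n m 0 true α ω (b, 0) 0 0 :=
        (E3D_s0 (b := b) (fun _ => le_rfl) (fun _ => le_rfl) (fun _ c => absurd c (E3D_nd0 hn))).2 s1
      have s3 := path0P (α := α) (u := (b, 0)) hn hω hP
      simp only at s3
      rw [E3D_e1, E3D_e2, sub_zero, add_zero] at s3
      have s4 := s3.1 s2
      have s5 : InG n m 0 α ω (b, 0) false (1 + (2 * n : ℕ)) 1 :=
        (E3D_s0 (b := false) (fun c => by cases c) (fun _ => by norm_num) (fun c => by norm_num at c)).1 s4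
      have s6 := E3D_t0b (α := α) (u := (b, 0)) hn hm hbc 1
      rw [one_mul, add_comm, add_comm _ (2 : ℤ)] at s6
      exact E3D_row0.1 (s6.1 s5)
    have hnd : ¬ ((2 * n : ℕ) : ℤ) ∣ 2 + (2 * n : ℕ) - 1 := by
      have := E3D_nd hn (k := 1) 1 (by norm_num) (by norm_num)
      rw [one_mul] at this
      rwa [show (2 : ℤ) + (2 * n : ℕ) - 1 = 1 + (2 * n : ℕ) by ring]
    refine E3D_cases (fun b => ⟨false, 2, by norm_num, le_rfl, Or.inl (C b)⟩) (fun b => ?_)
      (fun b => ⟨false, 0, le_rfl, by norm_num, Or.inr ((C false).trans _ _ _ (E3D_glue hnd false b))⟩)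
    cases b
    · exact ⟨false, 1, by norm_num, by norm_num, Or.inl B⟩
    · exact ⟨true, 1, by norm_num, by norm_num, Or.inl A⟩
  · have C : ∀ b b' : Bool, GC (pur n m 0 α ω) (plr n m 0 α ω) (b, 2) (b', 0 + (2 * n : ℕ)) := by
      intro b b'
      have hg : ¬ ((2 * n : ℕ) : ℤ) ∣ 2 - 1 := by
        have := E3D_nd hn (k := 1) 0 (by norm_num) (by norm_num)
        rw [zero_mul, add_zero] at this
        rwa [show (2 : ℤ) - 1 = 1 by norm_num]
      have s1 : InG n m 0 α ω (b, 2) false 2 0 := E3D_row0.2 (E3D_glue hg b false)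
      have s2 : InG n m 0 α ω (b, 2) false 1 1 := by
        have := E3D_t0b (α := α) (u := (b, 2)) hn hm hbc 0
        rw [zero_mul, zero_add, zero_add] at this
        exact this.2 s1
      have s3 : InF n m 0 true α ω (b, 2) 1 1 :=
        (E3D_s0 (b := false) (fun c => by cases c) (fun _ => by norm_num) (fun c => by norm_num at c)).2 s2
      have s4 := path0P (α := α) (u := (b, 2)) hn hω hP
      simp only at s4
      rw [E3D_e3, E3D_e4, sub_zero, add_zero] at s4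
      have s5 := s4.1 s3
      rw [zero_add]
      exact E3D_row0.1 ((E3D_s0 (b := b') (fun _ => le_rfl) (fun _ => le_rfl) (fun _ c => absurd c (E3D_ndL hn))).1 s5)
    refine E3D_cases (fun b => ⟨true, 2, by norm_num, le_rfl, Or.inr (C true b)⟩) (fun b => ?_)
      (fun b => ⟨true, 0, le_rfl, by norm_num, Or.inl (C b true)⟩)
    cases b
    · exact ⟨false, 1, by norm_num, by norm_num, Or.inl B⟩
    · exact ⟨true, 1, by norm_num, by norm_num, Or.inl A⟩

theorem t4_w1 (hn : 2 ≤ n) (hm : 1 ≤ m) (hω : ω ⊆ cylE n m) (h0 : e0 ∈ ω) (hbc : bc ∉ ω) (hT : E3T4 n m ω) : Wr n m 1 α ω := by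
  obtain ⟨hP, hD1, hD2⟩ := hT
  unfold Wr
  have A : ∀ b b' : Bool, GC (pur n m 1 α ω) (plr n m 1 α ω) (b, 0) (b', 0 + (2 * n : ℕ)) := by
    intro b b'
    have s1 : InG n m 1 α ω (b, 0) b 0 1 := (E3D_row1 hm).2 (Relation.EqvGen.refl _)
    have s2 : InF n m 1 false α ω (b, 0) 0 1 :=
      (E3D_s1 (b := b) hm (fun _ => le_rfl) (fun _ => le_rfl) (fun _ c => absurd c (E3D_nd0 hn))).2 s1
    have s3 := path1D (α := α) (ω := ω) (u := (b, 0)) hn hm hD1
    simp only at s3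
    rw [E3D_e3, E3D_e4, sub_zero, add_zero, zero_add] at s3
    have s4 := s3.1 s2
    rw [zero_add]
    exact (E3D_row1 hm).1 ((E3D_s1 (b := b') hm (fun _ => le_rfl) (fun _ => le_rfl) (fun _ c => absurd c (E3D_ndL hn))).1 s4)
  have B : ∀ b : Bool, GC (pur n m 1 α ω) (plr n m 1 α ω) (b, 2) (true, 2 + (2 * n : ℕ)) := by
    intro b
    have hg : ¬ ((2 * n : ℕ) : ℤ) ∣ 2 - 1 := by
      have := E3D_nd hn (k := 1) 0 (by norm_num) (by norm_num)
      rw [zero_mul, add_zero] at this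
      rwa [show (2 : ℤ) - 1 = 1 by norm_num]
    have s1 : InG n m 1 α ω (b, 2) true 2 1 := (E3D_row1 hm).2 (E3D_glue hg b true)
    have s2 : InG n m 1 α ω (b, 2) true 1 0 := by
      have := E3D_t1b (m := m) (α := α) (u := (b, 2)) hn hbc 0
      rw [zero_mul, zero_add, zero_add] at this
      exact this.2 s1
    have s3 : InF n m 1 false α ω (b, 2) 1 0 :=
      (E3D_s1 (b := true) hm (fun _ => by norm_num) (fun c => by cases c) (fun c => by norm_num at c)).2 s2
    have s4 := path1D (α := α) (ω := ω) (u := (b, 2)) hn hm hD2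
    simp only at s4
    rw [E3D_e5, E3D_e6, show (0 : ℤ) - -1 = 1 by norm_num, show (0 : ℤ) + -1 + 1 = 0 by norm_num] at s4
    have s5 := s4.1 s3
    have s6 : InG n m 1 α ω (b, 2) true (1 + (2 * n : ℕ)) 0 :=
      (E3D_s1 (b := true) hm (fun _ => by norm_num) (fun c => by cases c) (fun c => by norm_num at c)).1 s5
    have s7 := E3D_t1b (m := m) (α := α) (u := (b, 2)) hn hbc 1
    rw [one_mul, add_comm, add_comm _ (2 : ℤ)] at s7
    exact (E3D_row1 hm).1 (s7.1 s6)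
  rcases hP with hP | hP
  · have C : GC (pur n m 1 α ω) (plr n m 1 α ω) (true, 1) (false, 1 + (2 * n : ℕ)) := by
      have s1 : InG n m 1 α ω (true, 1) true 1 1 := (E3D_row1 hm).2 (Relation.EqvGen.refl _)
      have s2 : InG n m 1 α ω (true, 1) true 0 0 := by
        have := E3D_t1a (m := m) (α := α) (u := (true, 1)) hn h0 0
        rw [zero_mul, zero_add] at this
        exact this.2 s1
      have s3 : InF n m 1 false α ω (true, 1) 0 0 :=
        (E3D_s1 (b := true) hm (fun _ => by norm_num) (fun c => by cases c) (fun c => by norm_num at c)).2 s2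
      have s4 := path1P (α := α) (u := (true, 1)) hn hm hω hbc hP
      simp only at s4
      rw [E3D_e1, E3D_e2, sub_zero, add_zero] at s4
      have s5 := s4.1 s3
      exact (E3D_row1 hm).1 ((E3D_s1 (b := false) hm (fun c => by cases c) (fun _ => le_rfl) (fun _ _ => rfl)).1 s5)
    refine E3D_cases (fun b => ⟨true, 0, le_rfl, by norm_num, Or.inl (A b true)⟩) (fun b => ?_)
      (fun b => ⟨true, 2, by norm_num, le_rfl, Or.inl (B b)⟩)
    cases b
    · exact ⟨true, 1, by norm_num, by norm_num, Or.inr C⟩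
    · exact ⟨false, 1, by norm_num, by norm_num, Or.inl C⟩
  · have C : GC (pur n m 1 α ω) (plr n m 1 α ω) (false, 1) (true, 1 + (2 * n : ℕ)) := by
      have s1 : InG n m 1 α ω (false, 1) false 1 1 := (E3D_row1 hm).2 (Relation.EqvGen.refl _)
      have s2 : InF n m 1 false α ω (false, 1) 1 1 :=
        (E3D_s1 (b := false) hm (fun c => by cases c) (fun _ => le_rfl) (fun _ _ => rfl)).2 s1
      have s4 := path1P (α := α) (u := (false, 1)) hn hm hω hbc hP
      simp only at s4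
      rw [E3D_e3, E3D_e4, sub_zero, add_zero] at s4
      have s5 := s4.1 s2
      have s6 : InG n m 1 α ω (false, 1) true (2 * n : ℕ) 0 :=
        (E3D_s1 (b := true) hm (fun _ => by norm_num) (fun c => by cases c) (fun c => by norm_num at c)).1 s5
      have s7 := E3D_t1a (m := m) (α := α) (u := (false, 1)) hn h0 1
      rw [one_mul] at s7
      have s8 := s7.1 s6
      rw [add_comm] at s8
      exact (E3D_row1 hm).1 s8
    refine E3D_cases (fun b => ⟨true, 0, le_rfl, by norm_num, Or.inl (A b true)⟩) (fun b => ?_)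
      (fun b => ⟨true, 2, by norm_num, le_rfl, Or.inl (B b)⟩)
    cases b
    · exact ⟨true, 1, by norm_num, by norm_num, Or.inl C⟩
    · exact ⟨false, 1, by norm_num, by norm_num, Or.inr C⟩

end

end CY
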