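import Pool.Agent.Lib.MP_216314_pr.N.EDef
import Pool.Agent.Lib.MP_216314_pr.K.KFin
import Pool.Agent.Lib.MP_216314_pr.N.DDef

/-!
# Four arms, cylinder against plane: definitions

The cylinder `ℤ² / ⟨(n,-n)⟩` between the heights `-2m` and `2m`; the horizontal line at height `r` cuts the configuration into two patterns `pur` (above) and
`plr` (below). `Wr n m r α`: no two of the four legs at the sites `0`, `1` of this line are connected (`r = 0`: `W4`).
`InG n m r α ω u b k y`: the face `(k, y)`, seen from the side `b` of the line (`true`: below), is connected to the gap `u`. The gaps congruent to `1` modulo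
`2n` are cut (`Cut`). `InF .. cs ..`: the same for faces; the cut faces are represented by their side `cs`.
`lg S`: the (infinite) graph of the edges with `S`; `SP n ω`: lifted open edges except the copies of `e0`; `SD n m ω`: dual edges crossing
closed lifted edges, except the copies of `e0` (the plaquette with lower left corner `v` is written `v`). `E3T4`: an open path from one end of `e0` to the
translate of the other end, and dual paths from both faces of `e0` to their translates, all of them avoid the copies of `e0`.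
`pd N F ω`: dual edges which cross the closed lifted edges of `F`. `co`, `cu`, `cl`: centres of circuits along the corridors of the cylinder of period `20 n`.
-/

set_option autoImplicit false

noncomputable section

namespace CY

open Finset FKI FKP

/-- the pattern of the part below the height `r` -/
def plr (n m r : ℕ) (α : Pat (2 * n)) (ω : Finset Edge) : Pat (2 * n) := pats (tlo n m ω) α (2 * m + r)

/-- the pattern of the part above the height `r` -/
def pur (n m r : ℕ) (α : Pat (2 * n)) (ω : Finset Edge) : Pat (2 * n) := pats (tup n m ω) α (2 * m - r)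

/-- the four legs at height `r` are not connected -/
def Wr (n m r : ℕ) (α : Pat (2 * n)) (ω : Finset Edge) : Prop := WL 2 2 (pur n m r α ω) (plr n m r α ω)

/-- the face `(k, y)`, seen from the side `b` of the line at height `r`, is connected to the gap `u` -/
def InG (n m r : ℕ) (α : Pat (2 * n)) (ω : Finset Edge) (u : Bool × ℤ) (b : Bool) (k y : ℤ) : Prop :=
  ∃ g : ℤ, GC (pur n m r α ω) (plr n m r α ω) u (b, g) ∧
    ((b = true ∧ -(2 * (m : ℤ)) ≤ y ∧ y ≤ r ∧
      Relation.EqvGen (FE (Reg α) (2 * n) (tlo n m ω) (2 * m + r)) (g, 2 * m + r) (k, (y + 2 * m).toNat)) ∨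
    (b = false ∧ (r : ℤ) ≤ y ∧ y ≤ 2 * m ∧
      Relation.EqvGen (FE (Reg α) (2 * n) (tup n m ω) (2 * m - r)) (g, 2 * m - r) (k, (2 * m - y).toNat)))

/-- the cut faces -/
def Cut (n r : ℕ) (k y : ℤ) : Prop := y = r ∧ ((2 * n : ℕ) : ℤ) ∣ k - 1

/-- the face `(k, y)` is connected to the gap `u` -/
def InF (n m r : ℕ) (cs : Bool) (α : Pat (2 * n)) (ω : Finset Edge) (u : Bool × ℤ) (k y : ℤ) : Prop :=
  InG n m r α ω u cs k y ∨ (¬ Cut n r k y ∧ InG n m r α ω u (!cs) k y)

end CY

namespace FKN

open Finset FKI FKP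

/-- the graph of the edges with `S` -/
def lg (S : Edge → Prop) : SimpleGraph V := SimpleGraph.fromRel (fun u v => ∃ e, S e ∧ ea e = u ∧ eb e = v)

/-- lifted open edges without the copies of `e0` -/
def SP (n : ℕ) (ω : Finset Edge) (e : Edge) : Prop := red n e ∈ ω ∧ red n e ≠ e0

/-- dual edges which cross lifted closed edges, without the copies of `e0` -/
def SD (n m : ℕ) (ω : Finset Edge) (f : Edge) : Prop :=
  red n (dl.symm f) ∈ cylE n m ∧ red n (dl.symm f) ∉ ω ∧ red n (dl.symm f) ≠ e0

/-- the edge next to `e0` -/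
def bc : Edge := (1, -1, true)

/-- four arms from `e0` around the cylinder -/
def E3T4 (n m : ℕ) (ω : Finset Edge) : Prop :=
  ((lg (SP n ω)).Reachable (0, 0) (1 + n, -(n : ℤ)) ∨ (lg (SP n ω)).Reachable (1, 0) ((n : ℤ), -(n : ℤ))) ∧
    (lg (SD n m ω)).Reachable (0, 0) ((n : ℤ), -(n : ℤ)) ∧ (lg (SD n m ω)).Reachable (0, -1) ((n : ℤ), -1 - (n : ℤ))

/-- dual edges which cross the closed lifted edges of `F` -/
def pd (N : ℕ) (F ω : Finset Edge) : Finset Edge := dc F (pull N F ω)

/-- translation of edges -/
def trE (t : V) : Edge ↪ Edge := ⟨fun e => (e.1 + t.1, e.2.1 + t.2, e.2.2), by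
  rintro ⟨x, y, b⟩ ⟨x', y', b'⟩ h
  simp only [Prod.mk.injEq, add_left_inj] at h
  exact Prod.ext h.1 (Prod.ext h.2.1 h.2.2)⟩

/-- the path from `(n, 0)` to `(10 n, 0)`, `(10 n, -20 n)`, `(19 n, -20 n)` -/
def po (n t : ℤ) : V := (n + min t (9 * n) + max 0 (t - 29 * n), -min (max (t - 9 * n) 0) (20 * n))

/-- the path from `(0, n)` to `(0, 2 n)`, `(12 n, 2 n)`, `(12 n, -18 n)`, `(20 n, -18 n)`, `(20 n, -19 n)` -/
def pu (n t : ℤ) : V := (min (max (t - n) 0) (12 * n) + min (max (t - 33 * n) 0) (8 * n),
  n + min t n - min (max (t - 13 * n) 0) (20 * n) - max (t - 41 * n) 0)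

/-- the path from `(0, -n)` to `(0, -2 n)`, `(8 n, -2 n)`, `(8 n, -22 n)`, `(20 n, -22 n)`, `(20 n, -21 n)` -/
def pl (n t : ℤ) : V := (min (max (t - n) 0) (8 * n) + min (max (t - 29 * n) 0) (12 * n),
  -n - min t n - min (max (t - 9 * n) 0) (20 * n) + max (t - 41 * n) 0)

/-- centres of circuits along the open corridor -/
def co (n j : ℕ) : V := po n (min ((j : ℤ) * rr 2 n) (38 * n))
/-- centres of circuits along the upper dual corridor -/
def cu (n j : ℕ) : V := pu n (min ((j : ℤ) * rr 2 n) (42 * n))
/-- centres of circuits along the lower dual corridor -/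
def cl (n j : ℕ) : V := pl n (min ((j : ℤ) * rr 2 n) (42 * n))

/-- number of steps of the chains -/
@[irreducible] def TT4 : ℕ := 16800

theorem TT4_eq : TT4 = 16800 := by
  unfold TT4
  rfl

/-- the open circuits -/
def Lo (n : ℕ) : Finset (V × ℤ) := (range (TT4 + 1)).image fun j => (co n j, (rr 2 n : ℤ))
/-- the dual circuits -/
def Ld (n : ℕ) : Finset (V × ℤ) :=
  ((range (TT4 + 1)).image fun j => (cu n j, (rr 2 n : ℤ))) ∪ (range (TT4 + 1)).image fun j => (cl n j, (rr 2 n : ℤ))

/-- the region of the open arms -/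
def Rp (n : ℕ) : Finset Edge := (bx (n - 5 * rr 2 n) \ {e0}) ∪ bxs (cO 2 n) (10 * rr 2 n)
/-- the region of the dual arms -/
def Rm (n : ℕ) : Finset Edge := (bx (n - 5 * rr 2 n) \ {e0}) ∪ ud (bxs (cD 2 n) (10 * rr 2 n))

end FKN
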