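import Pool.Agent.Lib.MP_216314_pr.N.E3Def
import Pool.Agent.Lib.MP_216314_pr.Q4.WBil

/-!
# The law of the two patterns at height `r`

PROOFS. `expect_row`: this is `expect_pats` (K/KFin) with `2 * m + r` rows below and `2 * m - r` rows above: copy the proof. Edges of the lower part: `elo n m h k`, `h < 2 * m + r`, `k < 2 * n`: the edges of `cylE n m` of height `e.1 + e.2.1 < r`;
edges of the upper part: `eup n m h k`, `h < 2 * m - r`: the edges of height `≥ r` (`mem_lo`, `mem_up` with the new bounds; `elo_inj`, `eup_inj` with the new bounds: they follow from `te_inj`, the bounds on `h` are not used there).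
`law_rows` (K/KSum) with `M := 2 * m + r` resp. `2 * m - r`, `L := 2 * n`. `pats_congr`, `lt_lo`, `lt_up` as there. The cardinality: `cylE n m = U ∪ D` disjoint.
`pr_Wr`: `Pr (cylE n m) A = (card (filter A)) / 2 ^ card` (`pproba_eq`, as in `pr_NL`, K/KFin), `expect_row` with `F b a = wW 2 2 b a` (`wW kb kt β α = if WL kb kt β α then 1 else 0`, `Wr n m r α ω = WL 2 2 (pur ..) (plr ..)`), and the definition of
`WB` (Q4/WBil): `WB 2 2 v w = ∑ β, ∑ α, v β * w α * wW 2 2 β α`.
-/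

set_option autoImplicit false

noncomputable section

namespace CY

open Finset FKI FKP

private theorem E3F_lo_inj {n m M : ℕ} (hn : 1 ≤ n) (h k h' k' : ℕ) (_ : h < M) (h2 : k < 2 * n) (_ : h' < M)
    (h4 : k' < 2 * n) (he : elo n m h k = elo n m h' k') : h = h' ∧ k = k' := by
  obtain ⟨h5, h6⟩ := te_inj hn (by omega) (by omega) (by omega) (by omega) he
  omega

private theorem E3F_up_inj {n m M : ℕ} (hn : 1 ≤ n) (h k h' k' : ℕ) (_ : h < M) (h2 : k < 2 * n) (_ : h' < M)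
    (h4 : k' < 2 * n) (he : eup n m h k = eup n m h' k') : h = h' ∧ k = k' := by
  obtain ⟨h5, h6⟩ := te_inj hn (by omega) (by omega) (by omega) (by omega) he
  omega

private theorem E3F_mem_lo {n m r : ℕ} (hn : 1 ≤ n) (hr : r ≤ 2 * m) {e : Edge} :
    e ∈ RE (elo n m) (2 * n) (2 * m + r) ↔ e ∈ cylE n m ∧ e.1 + e.2.1 < r := by
  rw [mem_RE]
  constructor
  · rintro ⟨h, k, h1, h2, h3⟩
    rw [← h3]
    unfold elo
    refine ⟨red_mem hn ?_ ?_, ?_⟩
    · rw [te_height]
      omega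
    · rw [te_height]
      omega
    · rw [red_te_height]
      omega
  · rintro ⟨he, h0⟩
    obtain ⟨k, hk, h1⟩ := exists_te hn he
    have h := mem_cylE.1 he
    obtain ⟨i, hi⟩ := Int.eq_ofNat_of_zero_le (show 0 ≤ e.1 + e.2.1 + 2 * m by omega)
    refine ⟨i, k, by omega, hk, ?_⟩
    unfold elo
    have e1 : ((i : ℤ) - 2 * m) = e.1 + e.2.1 := by omega
    rw [e1]
    exact h1

private theorem E3F_mem_up {n m r : ℕ} (hn : 1 ≤ n) {e : Edge} :
    e ∈ RE (eup n m) (2 * n) (2 * m - r) ↔ e ∈ cylE n m ∧ (r : ℤ) ≤ e.1 + e.2.1 := by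
  rw [mem_RE]
  constructor
  · rintro ⟨h, k, h1, h2, h3⟩
    rw [← h3]
    unfold eup
    refine ⟨red_mem hn ?_ ?_, ?_⟩
    · rw [te_height]
      omega
    · rw [te_height]
      omega
    · rw [red_te_height]
      omega
  · rintro ⟨he, h0⟩
    obtain ⟨k, hk, h1⟩ := exists_te hn he
    have h := mem_cylE.1 he
    obtain ⟨i, hi⟩ := Int.eq_ofNat_of_zero_le (show 0 ≤ 2 * (m : ℤ) - 1 - (e.1 + e.2.1) by omega)
    refine ⟨i, k, by omega, hk, ?_⟩
    unfold eup
    have e1 : 2 * (m : ℤ) - 1 - (i : ℤ) = e.1 + e.2.1 := by omega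
    rw [e1]
    exact h1

open Classical in
/-- the expectation of a function of the two patterns at height `r` -/
theorem expect_row {n m r : ℕ} (hn : 1 ≤ n) (hr : r ≤ 2 * m) (α : Pat (2 * n)) (F : Pat (2 * n) → Pat (2 * n) → ℂ) :
    ∑ ω ∈ (cylE n m).powerset, F (pur n m r α ω) (plr n m r α ω) =
      2 ^ (cylE n m).card * ∑ b, ∑ a, ((⇑(TT : V (2 * n) →ₗ[ℂ] V (2 * n)))^[2 * m - r] (Pi.single α 1)) b *
        ((⇑(TT : V (2 * n) →ₗ[ℂ] V (2 * n)))^[2 * m + r] (Pi.single α 1)) a * F b a := by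
  obtain ⟨U, hU⟩ : ∃ U, U = RE (eup n m) (2 * n) (2 * m - r) := ⟨_, rfl⟩
  obtain ⟨D, hD⟩ : ∃ D, D = RE (elo n m) (2 * n) (2 * m + r) := ⟨_, rfl⟩
  have memU : ∀ e, e ∈ U ↔ e ∈ cylE n m ∧ (r : ℤ) ≤ e.1 + e.2.1 := by
    intro e
    rw [hU]
    exact E3F_mem_up hn
  have memD : ∀ e, e ∈ D ↔ e ∈ cylE n m ∧ e.1 + e.2.1 < r := by
    intro e
    rw [hD]
    exact E3F_mem_lo hn hr
  have hUD : cylE n m = U ∪ D := by
    ext e
    rw [mem_union, memU, memD]
    constructor
    · intro h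
      rcases le_or_gt (r : ℤ) (e.1 + e.2.1) with h1 | h1
      · exact Or.inl ⟨h, h1⟩
      · exact Or.inr ⟨h, h1⟩
    · rintro (h | h)
      · exact h.1
      · exact h.1
  have hdis : Disjoint U D := by
    rw [disjoint_left]
    intro e h1 h2
    have := ((memU e).1 h1).2
    have := ((memD e).1 h2).2
    omega
  have hsplit : ∀ G : Finset Edge → ℂ, ∑ ω ∈ (cylE n m).powerset, G ω =
      ∑ ω ∈ U.powerset, ∑ ρ ∈ D.powerset, G (ω ∪ ρ) := by
    intro G
    rw [← sum_product' U.powerset D.powerset (fun ω ρ => G (ω ∪ ρ))]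
    refine sum_nbij' (fun ω => (ω ∩ U, ω ∩ D)) (fun p => p.1 ∪ p.2) ?_ ?_ ?_ ?_ ?_
    · intro ω _
      rw [mem_product, mem_powerset, mem_powerset]
      exact ⟨inter_subset_right, inter_subset_right⟩
    · rintro ⟨ω, ρ⟩ hp
      rw [mem_product, mem_powerset, mem_powerset] at hp
      rw [mem_powerset, hUD]
      exact union_subset_union hp.1 hp.2
    · intro ω hω
      rw [mem_powerset, hUD] at hω
      show ω ∩ U ∪ ω ∩ D = ω
      rw [← inter_union_distrib_left]
      exact inter_eq_left.2 hω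
    · rintro ⟨ω, ρ⟩ hp
      rw [mem_product, mem_powerset, mem_powerset] at hp
      refine Prod.ext ?_ ?_
      · show (ω ∪ ρ) ∩ U = ω
        rw [union_inter_distrib_right, inter_eq_left.2 hp.1, (disjoint_iff_inter_eq_empty.1
          (hdis.symm.mono_left hp.2)), union_empty]
      · show (ω ∪ ρ) ∩ D = ρ
        rw [union_inter_distrib_right, inter_eq_left.2 hp.2, (disjoint_iff_inter_eq_empty.1
          (hdis.mono_left hp.1)), empty_union]
    · intro ω hω
      rw [mem_powerset, hUD] at hω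
      congr 1
      show ω = ω ∩ U ∪ ω ∩ D
      rw [← inter_union_distrib_left]
      exact (inter_eq_left.2 hω).symm
  have hup : ∀ ω ∈ U.powerset, ∀ ρ ∈ D.powerset, pur n m r α (ω ∪ ρ) = pats (LT (eup n m) (aup m) ω) α (2 * m - r) := by
    intro ω _ ρ hρ
    unfold pur
    refine pats_congr α (2 * m - r) fun i hi k hk => ?_
    rw [← lt_up]
    unfold LT
    have : eup n m i k ∈ ω ∪ ρ ↔ eup n m i k ∈ ω := by
      rw [mem_union]
      refine ⟨fun c => c.resolve_right (fun d => ?_), Or.inl⟩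
      have h1 := mem_powerset.1 hρ d
      have h2 : eup n m i k ∈ U := by
        rw [hU, mem_RE]
        exact ⟨i, k, hi, hk, rfl⟩
      exact disjoint_left.1 hdis h2 h1
    rw [this]
  have hlo : ∀ ω ∈ U.powerset, ∀ ρ ∈ D.powerset, plr n m r α (ω ∪ ρ) = pats (LT (elo n m) (alo m) ρ) α (2 * m + r) := by
    intro ω hω ρ _
    unfold plr
    refine pats_congr α (2 * m + r) fun i hi k hk => ?_
    rw [← lt_lo]
    unfold LT
    have : elo n m i k ∈ ω ∪ ρ ↔ elo n m i k ∈ ρ := by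
      rw [mem_union]
      refine ⟨fun c => c.resolve_left (fun d => ?_), Or.inr⟩
      have h1 := mem_powerset.1 hω d
      have h2 : elo n m i k ∈ D := by
        rw [hD, mem_RE]
        exact ⟨i, k, hi, hk, rfl⟩
      exact disjoint_left.1 hdis h1 h2
    rw [this]
  rw [hsplit, sum_congr rfl (fun ω hω => sum_congr rfl (fun ρ hρ => by rw [hup ω hω ρ hρ, hlo ω hω ρ hρ]))]
  have lawU := law_rows (eup n m) (aup m) (M := 2 * m - r) (L := 2 * n) (E3F_up_inj hn) α (2 * m - r) le_rfl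
  have lawD := law_rows (elo n m) (alo m) (M := 2 * m + r) (L := 2 * n) (E3F_lo_inj hn) α (2 * m + r) le_rfl
  rw [← hU] at lawU
  rw [← hD] at lawD
  have hF : ∀ b a : Pat (2 * n), F b a = ∑ b', ∑ a', (if b = b' then (1 : ℂ) else 0) * (if a = a' then (1 : ℂ) else 0) * F b' a' := by
    intro b a
    rw [sum_eq_single b, sum_eq_single a]
    · rw [if_pos rfl, if_pos rfl, one_mul, one_mul]
    · intro a' _ h
      rw [if_neg (show ¬ a = a' from fun c => h c.symm), mul_zero, zero_mul]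
    · intro h
      exact absurd (mem_univ _) h
    · intro b' _ h
      refine sum_eq_zero fun a' _ => ?_
      rw [if_neg (fun c => h c.symm), zero_mul, zero_mul]
    · intro h
      exact absurd (mem_univ _) h
  calc ∑ ω ∈ U.powerset, ∑ ρ ∈ D.powerset, F (pats (LT (eup n m) (aup m) ω) α (2 * m - r)) (pats (LT (elo n m) (alo m) ρ) α (2 * m + r))
      = ∑ ω ∈ U.powerset, ∑ ρ ∈ D.powerset, ∑ b, ∑ a, (if pats (LT (eup n m) (aup m) ω) α (2 * m - r) = b then (1 : ℂ) else 0) *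
        (if pats (LT (elo n m) (alo m) ρ) α (2 * m + r) = a then (1 : ℂ) else 0) * F b a :=
        sum_congr rfl (fun ω _ => sum_congr rfl (fun ρ _ => hF _ _))
    _ = ∑ b, ∑ a, (∑ ω ∈ U.powerset, (if pats (LT (eup n m) (aup m) ω) α (2 * m - r) = b then (1 : ℂ) else 0)) *
        (∑ ρ ∈ D.powerset, (if pats (LT (elo n m) (alo m) ρ) α (2 * m + r) = a then (1 : ℂ) else 0)) * F b a := by
        have s1 : ∀ ω ∈ U.powerset, (∑ ρ ∈ D.powerset, ∑ b, ∑ a, (if pats (LT (eup n m) (aup m) ω) α (2 * m - r) = b then (1 : ℂ) else 0) *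
            (if pats (LT (elo n m) (alo m) ρ) α (2 * m + r) = a then (1 : ℂ) else 0) * F b a) =
            ∑ b, ∑ a, ∑ ρ ∈ D.powerset, (if pats (LT (eup n m) (aup m) ω) α (2 * m - r) = b then (1 : ℂ) else 0) *
            (if pats (LT (elo n m) (alo m) ρ) α (2 * m + r) = a then (1 : ℂ) else 0) * F b a := by
          intro ω _
          rw [sum_comm]
          exact sum_congr rfl (fun b _ => sum_comm)
        rw [sum_congr rfl s1, sum_comm]
        refine sum_congr rfl fun b _ => ?_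
        rw [sum_comm]
        refine sum_congr rfl fun a _ => ?_
        rw [sum_mul_sum, sum_mul]
        refine sum_congr rfl fun ω _ => ?_
        rw [sum_mul]
    _ = 2 ^ (cylE n m).card * ∑ b, ∑ a, ((⇑(TT : V (2 * n) →ₗ[ℂ] V (2 * n)))^[2 * m - r] (Pi.single α 1)) b *
        ((⇑(TT : V (2 * n) →ₗ[ℂ] V (2 * n)))^[2 * m + r] (Pi.single α 1)) a * F b a := by
        rw [hUD, card_union_of_disjoint hdis, pow_add, mul_sum]
        refine sum_congr rfl fun b _ => ?_
        rw [mul_sum]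
        refine sum_congr rfl fun a _ => ?_
        rw [lawU b, lawD a]
        ring

theorem pr_Wr {n m r : ℕ} (hn : 1 ≤ n) (hr : r ≤ 2 * m) (α : Pat (2 * n)) :
    ((Pr (cylE n m) (Wr n m r α) : ℝ) : ℂ) =
      WB 2 2 ((⇑(TT : V (2 * n) →ₗ[ℂ] V (2 * n)))^[2 * m - r] (Pi.single α 1))
        ((⇑(TT : V (2 * n) →ₗ[ℂ] V (2 * n)))^[2 * m + r] (Pi.single α 1)) := by
  classical
  have h1 := expect_row hn hr α (fun b a => wW 2 2 b a)
  have h2 : WB 2 2 ((⇑(TT : V (2 * n) →ₗ[ℂ] V (2 * n)))^[2 * m - r] (Pi.single α 1))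
        ((⇑(TT : V (2 * n) →ₗ[ℂ] V (2 * n)))^[2 * m + r] (Pi.single α 1)) =
      (∑ ω ∈ (cylE n m).powerset, wW 2 2 (pur n m r α ω) (plr n m r α ω)) / 2 ^ (cylE n m).card := by
    rw [h1, mul_div_cancel_left₀ _ (pow_ne_zero _ two_ne_zero)]
    rfl
  rw [h2, pproba_eq]
  push_cast
  congr 1
  rw [card_filter]
  push_cast
  refine sum_congr rfl fun ω _ => ?_
  unfold wW Wr
  rfl

end CY
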