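import Pool.Agent.Lib.MP_216314_pr.N.E3F
import Pool.Agent.Lib.MP_216314_pr.Q4.ValZ
import Pool.Agent.Lib.MP_216314_pr.K.KEnd

/-!
# The limit of the probability of the event of the exact law

PROOF. `four_lim`: `q` from `exists_q` (K/KEnd), `c`, `C` from `Q4.four_asy` (Q4/ValZ). For `n = k + 1`: `2 * (k + 1)` is `2 * k + 2` by definition; `exists_psi` gives `P`, `Pb` (as in `one_arm`, K/KEnd); `R = ‖WB 2 2 (ev Pb 1) (ev P 1) / EE 1 Pb P 1‖`, the bounds are
`four_asy` (`(k : ℝ) + 1 = n`). Convergence: `Q4.tendsto_WB` with `TT_conv` composed with `m ↦ 2 * m - r` and `m ↦ 2 * m + r` (both tend to infinity) instead of `2 * m`: copy the proof of `Q4.tendsto_legs` (Q4/ValI); this gives the limit `WB .. / EE ..` in `ℂ`, which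
is the real number `R` by `Q4.legs_real`. By `pr_Wr` the terms are `((Pr (cylE n m) (Wr n m r α) : ℝ) : ℂ)` for all `m ≥ r` (eventually), so `Tendsto` of the real numbers follows (`Complex.continuous_re`, or `Complex.continuous_ofReal` embedding:
`(Complex.continuous_re.tendsto _).comp`, `Complex.ofReal_re`; `Filter.Tendsto.congr'`).
-/

set_option autoImplicit false

noncomputable section

namespace CY

open Finset FKI FKP Filter Topology

theorem four_lim : ∃ c C : ℝ, 0 < c ∧ 0 < C ∧ ∀ n : ℕ, 1 ≤ n → ∃ R : ℝ, c * (n : ℝ) ^ (-(5 / 4) : ℝ) ≤ R ∧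
    R ≤ C * (n : ℝ) ^ (-(5 / 4) : ℝ) ∧ ∀ (α : Pat (2 * n)) (r : ℕ), Tendsto (fun m : ℕ => Pr (cylE n m) (Wr n m r α)) atTop (𝓝 R) := by
  obtain ⟨q, hq, hq2⟩ := exists_q
  obtain ⟨c, C, hc, hC, H⟩ := Q4.four_asy hq
  refine ⟨c, C, hc, hC, fun n hn => ?_⟩
  obtain ⟨k, rfl⟩ : ∃ k, n = k + 1 := ⟨n - 1, by omega⟩
  obtain ⟨P, hP⟩ := exists_psi hq (L := 2 * (k + 1)) (by omega) (even_two_mul _)
  obtain ⟨Pb, hPb⟩ := exists_psi hq2 (L := 2 * (k + 1)) (by omega) (even_two_mul _)
  have hb := H k Pb P hPb hP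
  have e0 : (((k + 1 : ℕ) : ℝ)) = (k : ℝ) + 1 := by push_cast; rfl
  refine ⟨‖WB 2 2 (ev Pb fun _ => 1) (ev P fun _ => 1) / EE 1 Pb P (fun _ => 1)‖, ?_, ?_, ?_⟩
  · rw [e0]
    exact hb.1
  · rw [e0]
    exact hb.2
  · intro α r
    have hE : Even (2 * (k + 1)) := even_two_mul _
    have s1 : ∑ δ, (Pi.single α (1 : ℂ) : V (2 * (k + 1))) δ = 1 := by
      rw [Finset.sum_eq_single α]
      · simp
      · intro b _ hb
        simp [hb]
      · intro h
        exact absurd (Finset.mem_univ _) h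
    have t1 : Tendsto (fun m : ℕ => 2 * m - r) atTop atTop := by
      refine tendsto_atTop.2 fun b => ?_
      filter_upwards [eventually_ge_atTop (b + r)] with m hm
      omega
    have t2 : Tendsto (fun m : ℕ => 2 * m + r) atTop atTop := by
      refine tendsto_atTop.2 fun b => ?_
      filter_upwards [eventually_ge_atTop b] with m hm
      omega
    have hb1 := (TT_conv hq2 (by omega) hE hPb (Pi.single α 1) s1).comp t1
    have ha1 := (TT_conv hq (by omega) hE hP (Pi.single α 1) s1).comp t2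
    have h := Q4.tendsto_WB 2 2 hb1 ha1
    have e : WB 2 2 ((∑ α, ev Pb (fun _ => 1) α)⁻¹ • ev Pb (fun _ => 1))
        ((∑ α, ev P (fun _ => 1) α)⁻¹ • ev P (fun _ => 1)) =
        WB 2 2 (ev Pb fun _ => 1) (ev P fun _ => 1) / EE 1 Pb P (fun _ => 1) := by
      rw [WB_smul, EE_one, div_eq_mul_inv, mul_inv]
      ring
    rw [e, Q4.legs_real hq 2 2 (by omega) hE hPb hP] at h
    have h2 := (Complex.continuous_re.tendsto _).comp h
    rw [Complex.ofReal_re] at h2
    refine h2.congr' ?_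
    filter_upwards [eventually_ge_atTop r] with m hm
    have h3 := pr_Wr (n := k + 1) (m := m) (r := r) hn (by omega) α
    have h4 := congrArg Complex.re h3
    rw [Complex.ofReal_re] at h4
    exact h4.symm

end CY
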