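import Pool.Agent.Lib.MP_216314_pr.N.E3I
import Pool.Agent.Lib.MP_216314_pr.N.DRgB

/-!
# Stream E3: translations and linking

PROOFS. `gr η = SimpleGraph.fromRel (fun u v => ∃ e ∈ η, ea e = u ∧ eb e = v)` (Lib Defs/P; look at `gr_pull_le`, Cy/CyA). `gr_le_lg`: as `gr_pull_le`. `reach_tr`: map the walk: the graph homomorphism `v ↦ v + t` from `gr η` to `gr (η.map (trE t))`
(`ea (trE t e) = ea e + t`, `eb (trE t e) = eb e + t`; `SimpleGraph.Reachable.map` with a `Hom`, or induction on the walk as in `lgr_shift`, Cy/CyA). `conn_tr`: `Conn F η u v = (gr (η ∩ F)).Reachable u v`, `(η ∩ F).map = η.map ∩ F.map` and `(box x1 x2 y1 y2).map (trE t) =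
box (x1 + t.1) (x2 + t.1) (y1 + t.2) (y2 + t.2)` (`mem_box`; or only the inclusion and `Conn.mono`). `RP_tr`: the four parts of the definition of `RP`, all coordinates are translated (`add_sub_right_comm`-type identities by `ring`/`omega` inside `show`).
`lg_shift`: as `lgr_shift` (Cy/CyA).
`link_S`: let `η' = η ∪ η0 ∪ η0.map (trE τ)`; every edge of `η'` satisfies `S` (`hS`). `RP a0 r η' v0` (`RP_mono`), `RP (a1 + τ) r η' (v1 + τ)` (`RP_tr`, `RP_mono`), `Ring (c j) r η'` (`Ring_inc`); `chain_reach` (DRgB) from `c 0 = a0` to `c T = a1 + τ` gives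
`(gr η').Reachable v0 (v1 + τ)`; then `gr_le_lg`.
-/

set_option autoImplicit false

noncomputable section

namespace FKN

open Finset FKI FKP

theorem gr_le_lg {S : Edge → Prop} {η : Finset Edge} (h : ∀ e ∈ η, S e) : gr η ≤ lg S := by
  intro u v huv
  unfold gr at huv
  unfold lg
  rw [SimpleGraph.fromRel_adj] at huv ⊢
  obtain ⟨h1, h2⟩ := huv
  refine ⟨h1, ?_⟩
  rcases h2 with ⟨e, he, h3⟩ | ⟨e, he, h3⟩
  · exact Or.inl ⟨e, h e he, h3⟩
  · exact Or.inr ⟨e, h e he, h3⟩

private theorem E3K_ea (t : V) (e : Edge) : ea (trE t e) = ea e + t := by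
  obtain ⟨x, y, b⟩ := e
  exact Prod.ext rfl rfl

private theorem E3K_eb (t : V) (e : Edge) : eb (trE t e) = eb e + t := by
  obtain ⟨x, y, b⟩ := e
  cases b
  · exact Prod.ext (show x + t.1 + 1 = x + 1 + t.1 by ring) rfl
  · exact Prod.ext rfl (show y + t.2 + 1 = y + 1 + t.2 by ring)

theorem reach_tr {η : Finset Edge} {u v : V} (h : (gr η).Reachable u v) (t : V) :
    (gr (η.map (trE t))).Reachable (u + t) (v + t) := by
  obtain ⟨p⟩ := h
  induction p with
  | nil => exact SimpleGraph.Reachable.refl _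
  | @cons a b c hab p ih =>
    refine SimpleGraph.Reachable.trans (SimpleGraph.Adj.reachable ?_) ih
    unfold gr at hab ⊢
    rw [SimpleGraph.fromRel_adj] at hab ⊢
    obtain ⟨hne, hab⟩ := hab
    refine ⟨fun h => hne (add_right_cancel h), ?_⟩
    rcases hab with ⟨e, he, h1, h2⟩ | ⟨e, he, h1, h2⟩
    · exact Or.inl ⟨trE t e, mem_map_of_mem _ he, by rw [E3K_ea, h1], by rw [E3K_eb, h2]⟩
    · exact Or.inr ⟨trE t e, mem_map_of_mem _ he, by rw [E3K_ea, h1], by rw [E3K_eb, h2]⟩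

theorem conn_tr {x1 x2 y1 y2 : ℤ} {η : Finset Edge} {u v : V} (h : Conn (box x1 x2 y1 y2) η u v) (t : V) :
    Conn (box (x1 + t.1) (x2 + t.1) (y1 + t.2) (y2 + t.2)) (η.map (trE t)) (u + t) (v + t) := by
  unfold Conn at h ⊢
  refine SimpleGraph.Reachable.mono (gr_mono ?_) (reach_tr h t)
  intro e he
  rw [mem_map] at he
  obtain ⟨e', he', rfl⟩ := he
  rw [mem_inter] at he' ⊢
  refine ⟨mem_map_of_mem _ he'.1, ?_⟩
  have h1 := mem_box.1 he'.2
  obtain ⟨x, y, b⟩ := e'
  have h2 : trE t (x, y, b) = (x + t.1, y + t.2, b) := rfl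
  rw [h2, mem_box]
  rcases h1 with ⟨g0, g1, g2, g3, g4⟩ | ⟨g0, g1, g2, g3, g4⟩
  · left
    simp only at g0 g1 g2 g3 g4 ⊢
    exact ⟨g0, by omega, by omega, by omega, by omega⟩
  · right
    simp only at g0 g1 g2 g3 g4 ⊢
    exact ⟨g0, by omega, by omega, by omega, by omega⟩

private theorem E3K_conn {x1 x2 y1 y2 x1' x2' y1' y2' : ℤ} {η : Finset Edge} {u v u' v' : V}
    (h : Conn (box x1 x2 y1 y2) η u v) (t : V) (h1 : x1' = x1 + t.1) (h2 : x2' = x2 + t.1)
    (h3 : y1' = y1 + t.2) (h4 : y2' = y2 + t.2) (hu : u' = u + t) (hv : v' = v + t) :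
    Conn (box x1' x2' y1' y2') (η.map (trE t)) u' v' := by
  rw [h1, h2, h3, h4, hu, hv]
  exact conn_tr h t

theorem RP_tr {a : V} {r : ℤ} {η : Finset Edge} {v : V} (h : RP a r η v) (t : V) : RP (a + t) r (η.map (trE t)) (v + t) := by
  obtain ⟨a1, a2⟩ := a
  obtain ⟨t1, t2⟩ := t
  obtain ⟨⟨y, y', h1, h2, h3, h4, h5, h6⟩, ⟨z, z', i1, i2, i3, i4, i5, i6⟩,
    ⟨x, x', j1, j2, j3, j4, j5, j6⟩, ⟨w, w', k1, k2, k3, k4, k5, k6⟩⟩ := h
  simp only at h1 h2 h3 h4 h5 h6 i1 i2 i3 i4 i5 i6 j1 j2 j3 j4 j5 j6 k1 k2 k3 k4 k5 k6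
  unfold bxa at h6 i6 j6 k6
  simp only at h6 i6 j6 k6
  unfold RP bxa
  simp only [Prod.mk_add_mk]
  refine ⟨⟨y + t2, y' + t2, by omega, by omega, by omega, by omega, ?_, ?_⟩,
    ⟨z + t2, z' + t2, by omega, by omega, by omega, by omega, ?_, ?_⟩,
    ⟨x + t1, x' + t1, by omega, by omega, by omega, by omega, ?_, ?_⟩,
    ⟨w + t1, w' + t1, by omega, by omega, by omega, by omega, ?_, ?_⟩⟩
  · exact E3K_conn h5 (t1, t2) (by simp only; ring) (by simp only; ring) (by simp only; ring)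
      (by simp only; ring) (Prod.ext (show a1 + t1 - 3 * r = a1 - 3 * r + t1 by ring) rfl)
      (Prod.ext (show a1 + t1 + 3 * r = a1 + 3 * r + t1 by ring) rfl)
  · exact E3K_conn h6 (t1, t2) (by simp only; ring) (by simp only; ring) (by simp only; ring)
      (by simp only; ring) rfl (Prod.ext (show a1 + t1 - 3 * r = a1 - 3 * r + t1 by ring) rfl)
  · exact E3K_conn i5 (t1, t2) (by simp only; ring) (by simp only; ring) (by simp only; ring)
      (by simp only; ring) (Prod.ext (show a1 + t1 - 3 * r = a1 - 3 * r + t1 by ring) rfl)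
      (Prod.ext (show a1 + t1 + 3 * r = a1 + 3 * r + t1 by ring) rfl)
  · exact E3K_conn i6 (t1, t2) (by simp only; ring) (by simp only; ring) (by simp only; ring)
      (by simp only; ring) rfl (Prod.ext (show a1 + t1 - 3 * r = a1 - 3 * r + t1 by ring) rfl)
  · exact E3K_conn j5 (t1, t2) (by simp only; ring) (by simp only; ring) (by simp only; ring)
      (by simp only; ring) (Prod.ext rfl (show a2 + t2 - 3 * r = a2 - 3 * r + t2 by ring))
      (Prod.ext rfl (show a2 + t2 + 3 * r = a2 + 3 * r + t2 by ring))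
  · exact E3K_conn j6 (t1, t2) (by simp only; ring) (by simp only; ring) (by simp only; ring)
      (by simp only; ring) rfl (Prod.ext rfl (show a2 + t2 - 3 * r = a2 - 3 * r + t2 by ring))
  · exact E3K_conn k5 (t1, t2) (by simp only; ring) (by simp only; ring) (by simp only; ring)
      (by simp only; ring) (Prod.ext rfl (show a2 + t2 - 3 * r = a2 - 3 * r + t2 by ring))
      (Prod.ext rfl (show a2 + t2 + 3 * r = a2 + 3 * r + t2 by ring))
  · exact E3K_conn k6 (t1, t2) (by simp only; ring) (by simp only; ring) (by simp only; ring)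
      (by simp only; ring) rfl (Prod.ext rfl (show a2 + t2 - 3 * r = a2 - 3 * r + t2 by ring))

theorem lg_shift {S : Edge → Prop} {t : V} (hS : ∀ e, S e → S (trE t e)) {u v : V} (h : (lg S).Reachable u v) :
    (lg S).Reachable (u + t) (v + t) := by
  obtain ⟨p⟩ := h
  induction p with
  | nil => exact SimpleGraph.Reachable.refl _
  | @cons a b c hab p ih =>
    refine SimpleGraph.Reachable.trans (SimpleGraph.Adj.reachable ?_) ih
    unfold lg at hab ⊢
    rw [SimpleGraph.fromRel_adj] at hab ⊢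
    obtain ⟨hne, hab⟩ := hab
    refine ⟨fun h => hne (add_right_cancel h), ?_⟩
    rcases hab with ⟨e, he, h1, h2⟩ | ⟨e, he, h1, h2⟩
    · exact Or.inl ⟨trE t e, hS e he, by rw [E3K_ea, h1], by rw [E3K_eb, h2]⟩
    · exact Or.inr ⟨trE t e, hS e he, by rw [E3K_ea, h1], by rw [E3K_eb, h2]⟩

/-- a chain of circuits from a circuit to the translate of another circuit -/
theorem link_S {S : Edge → Prop} {t : V} (hS : ∀ e, S e → S (trE t e)) {c : ℕ → V} {T : ℕ} {r : ℤ} (hr : 0 ≤ r)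
    (hs : ∀ j < T, nrm (c (j + 1) - c j) ≤ 4 * r) {η η0 : Finset Edge} (hη : ∀ e ∈ η, S e) (hη0 : ∀ e ∈ η0, S e)
    (hR : ∀ j ≤ T, Ring (c j) r η) {a0 a1 : V} (h0 : c 0 = a0) (hT : c T = a1 + t) {v0 v1 : V}
    (hv0 : RP a0 r η0 v0) (hv1 : RP a1 r η0 v1) : (lg S).Reachable v0 (v1 + t) := by
  classical
  have hS' : ∀ e ∈ η ∪ (η0 ∪ η0.map (trE t)), S e := by
    intro e he
    rw [mem_union, mem_union] at he
    rcases he with he | he | he
    · exact hη e he
    · exact hη0 e he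
    · rw [mem_map] at he
      obtain ⟨e', he', rfl⟩ := he
      exact hS e' (hη0 e' he')
  have h1 : RP (c 0) r (η ∪ (η0 ∪ η0.map (trE t))) v0 := by
    rw [h0]
    exact RP_mono (subset_union_left.trans subset_union_right) hv0
  have h2 : RP (c T) r (η ∪ (η0 ∪ η0.map (trE t))) (v1 + t) := by
    rw [hT]
    exact RP_mono (subset_union_right.trans subset_union_right) (RP_tr hv1 t)
  exact SimpleGraph.Reachable.mono (gr_le_lg hS') (chain_reach hr hs
    (fun j hj => Ring_inc _ _ _ _ subset_union_left (hR j hj)) h1 T le_rfl _ h2)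

end FKN
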