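import Pool.Agent.Lib.MP_216314_pr.N.E3Def

/-!
# Stream E3: the chains of centres

PROOFS. `cO_vals`: `cO 2 n i = ptR n (thO 2 i)`, `ptR ρ θ = (round (ρ * gw θ), round (ρ * gw (θ - 2)))`, `thO 2 0 = 1`, `thO 2 1 = 5`, `thD 2 0 = 3`, `thD 2 1 = 7` (`norm_num`); `gw θ = max (-1) (min 1 (|8 * Int.fract ((θ - 1) / 8) - 4| - 2))`:
compute `Int.fract` of `0`, `-1/4` (`= 3/4`), `1/2`, `1/4`, `3/4` (`Int.fract_eq_iff` or `Int.fract` unfold with `Int.floor_eq_iff`), so `gw 1 = 1`, `gw (-1) = 0`, `gw 5 = -1`, `gw 3 = 0`, `gw 7 = 0` (`thD 2 1 - 2 = 5`, `thD 2 0 - 2 = 1`).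
`round (n * 1 : ℝ) = n`: `round_natCast`, `round_intCast`, `round_neg`-free: write `(n : ℝ) * (-1) = ((-(n : ℤ) : ℤ) : ℝ)` and `round_intCast`.
`reg_po`, `reg_pu`, `reg_pl`: `unfold po`, `simp only`, `omega` (omega understands `min` and `max`; if it is slow split the range of `t` first with `rcases le_total t (9 * n)` etc. and rewrite `min_eq_left` ..).
`po_lip`: `nrm v = max |v.1| |v.2| ≤ s ↔ -s ≤ v.1 ≤ s ∧ -s ≤ v.2 ≤ s` (`max_le_iff`, `abs_le`); `unfold`, `omega`.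
`co_step`, ..: `co n j = po n (min (j ρ) (38 n))` with `ρ = rr 2 n = n / 200 ≥ 0`: consecutive arguments differ by at most `ρ`; `po_lip`. `co_end`: `TT4 * ρ ≥ 42 n` for `n ≥ 400`: `ρ = n / (100 * 2) = n / 200`, `400 ρ ≥ n` (`omega`), `16800 = 42 * 400`; so the minimum is `38 n`, resp. `42 n`.
`mem_Lo`, `mem_Ld`: unfold (`mem_image`, `mem_range`, `mem_union`). `Lo_card`: `Finset.card_image_le`, `card_union_le`.
-/

set_option autoImplicit false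

noncomputable section

namespace FKN

open Finset FKI FKP

private theorem E3L_gw (θ f : ℝ) (h0 : 0 ≤ f) (h1 : f < 1) (z : ℤ) (hz : (θ - 1) / 8 - f = z) :
    gw θ = max (-1) (min 1 (|8 * f - 4| - 2)) := by
  unfold gw
  have h : Int.fract ((θ - 1) / 8) = f := Int.fract_eq_iff.2 ⟨h0, h1, z, hz⟩
  rw [h]

private theorem E3L_g1 : gw 1 = 1 := by
  rw [E3L_gw 1 0 le_rfl one_pos 0 (by norm_num)]
  norm_num

private theorem E3L_gm : gw (-1) = 0 := by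
  rw [E3L_gw (-1) (3 / 4) (by norm_num) (by norm_num) (-1) (by norm_num)]
  norm_num

private theorem E3L_g5 : gw 5 = -1 := by
  rw [E3L_gw 5 (1 / 2) (by norm_num) (by norm_num) 0 (by norm_num)]
  norm_num

private theorem E3L_g3 : gw 3 = 0 := by
  rw [E3L_gw 3 (1 / 4) (by norm_num) (by norm_num) 0 (by norm_num)]
  have h : |(8 : ℝ) * (1 / 4) - 4| = 2 := by
    rw [abs_of_neg (by norm_num)]
    norm_num
  rw [h]
  norm_num

private theorem E3L_g7 : gw 7 = 0 := by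
  rw [E3L_gw 7 (3 / 4) (by norm_num) (by norm_num) 0 (by norm_num)]
  norm_num

private theorem E3L_pt (n : ℕ) (θ : ℝ) (a b : ℤ) (h1 : gw θ = a) (h2 : gw (θ - 2) = b) :
    ptR n θ = ((n : ℤ) * a, (n : ℤ) * b) := by
  unfold ptR
  rw [h1, h2]
  have e1 : (n : ℝ) * (a : ℝ) = (((n : ℤ) * a : ℤ) : ℝ) := by push_cast; ring
  have e2 : (n : ℝ) * (b : ℝ) = (((n : ℤ) * b : ℤ) : ℝ) := by push_cast; ring
  rw [e1, e2, round_intCast, round_intCast]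

theorem cO_vals (n : ℕ) : cO 2 n 0 = ((n : ℤ), 0) ∧ cO 2 n 1 = (-(n : ℤ), 0) ∧ cD 2 n 0 = (0, (n : ℤ)) ∧ cD 2 n 1 = (0, -(n : ℤ)) := by
  have t1 : thO 2 0 = 1 := by
    unfold thO
    simp
  have t2 : thO 2 1 = 5 := by
    unfold thO
    norm_num
  have t3 : thD 2 0 = 3 := by
    unfold thD
    norm_num
  have t4 : thD 2 1 = 7 := by
    unfold thD
    norm_num
  unfold cO cD
  rw [t1, t2, t3, t4]
  refine ⟨?_, ?_, ?_, ?_⟩
  · rw [E3L_pt n 1 1 0 (by rw [E3L_g1]; norm_num) (by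
      have : (1 : ℝ) - 2 = -1 := by norm_num
      rw [this, E3L_gm]; norm_num)]
    simp
  · rw [E3L_pt n 5 (-1) 0 (by rw [E3L_g5]; norm_num) (by
      have : (5 : ℝ) - 2 = 3 := by norm_num
      rw [this, E3L_g3]; norm_num)]
    simp
  · rw [E3L_pt n 3 0 1 (by rw [E3L_g3]; norm_num) (by
      have : (3 : ℝ) - 2 = 1 := by norm_num
      rw [this, E3L_g1]; norm_num)]
    simp
  · rw [E3L_pt n 7 0 (-1) (by rw [E3L_g7]; norm_num) (by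
      have : (7 : ℝ) - 2 = 5 := by norm_num
      rw [this, E3L_g5]; norm_num)]
    simp

theorem reg_po {n t : ℤ} (hn : 0 ≤ n) (h0 : 0 ≤ t) (h1 : t ≤ 38 * n) :
    (n ≤ (po n t).1 ∧ (po n t).1 ≤ 10 * n ∧ (po n t).2 = 0) ∨
    ((po n t).1 = 10 * n ∧ -(20 * n) ≤ (po n t).2 ∧ (po n t).2 ≤ 0) ∨
    (10 * n ≤ (po n t).1 ∧ (po n t).1 ≤ 19 * n ∧ (po n t).2 = -(20 * n)) := by
  unfold po
  simp only
  omega

theorem reg_pu {n t : ℤ} (hn : 0 ≤ n) (h0 : 0 ≤ t) (h1 : t ≤ 42 * n) :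
    ((pu n t).1 = 0 ∧ n ≤ (pu n t).2 ∧ (pu n t).2 ≤ 2 * n) ∨
    (0 ≤ (pu n t).1 ∧ (pu n t).1 ≤ 12 * n ∧ (pu n t).2 = 2 * n) ∨
    ((pu n t).1 = 12 * n ∧ -(18 * n) ≤ (pu n t).2 ∧ (pu n t).2 ≤ 2 * n) ∨
    (12 * n ≤ (pu n t).1 ∧ (pu n t).1 ≤ 20 * n ∧ (pu n t).2 = -(18 * n)) ∨
    ((pu n t).1 = 20 * n ∧ -(19 * n) ≤ (pu n t).2 ∧ (pu n t).2 ≤ -(18 * n)) := by
  unfold pu
  simp only
  rcases le_total t n with h | h
  · left; omega
  rcases le_total t (13 * n) with h | h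
  · right; left; omega
  rcases le_total t (33 * n) with h | h
  · right; right; left; omega
  rcases le_total t (41 * n) with h | h
  · right; right; right; left; omega
  · right; right; right; right; omega

theorem reg_pl {n t : ℤ} (hn : 0 ≤ n) (h0 : 0 ≤ t) (h1 : t ≤ 42 * n) :
    ((pl n t).1 = 0 ∧ -(2 * n) ≤ (pl n t).2 ∧ (pl n t).2 ≤ -n) ∨
    (0 ≤ (pl n t).1 ∧ (pl n t).1 ≤ 8 * n ∧ (pl n t).2 = -(2 * n)) ∨
    ((pl n t).1 = 8 * n ∧ -(22 * n) ≤ (pl n t).2 ∧ (pl n t).2 ≤ -(2 * n)) ∨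
    (8 * n ≤ (pl n t).1 ∧ (pl n t).1 ≤ 20 * n ∧ (pl n t).2 = -(22 * n)) ∨
    ((pl n t).1 = 20 * n ∧ -(22 * n) ≤ (pl n t).2 ∧ (pl n t).2 ≤ -(21 * n)) := by
  unfold pl
  simp only
  rcases le_total t n with h | h
  · left; omega
  rcases le_total t (9 * n) with h | h
  · right; left; omega
  rcases le_total t (29 * n) with h | h
  · right; right; left; omega
  rcases le_total t (41 * n) with h | h
  · right; right; right; left; omega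
  · right; right; right; right; omega

private theorem E3L_nrm {v : V} {s : ℤ} (h1 : v.1 ≤ s) (h2 : -s ≤ v.1) (h3 : v.2 ≤ s) (h4 : -s ≤ v.2) :
    nrm v ≤ s := max_le (abs_le.2 ⟨h2, h1⟩) (abs_le.2 ⟨h4, h3⟩)

theorem po_lip {n t t' s : ℤ} (hn : 0 ≤ n) (h : t ≤ t') (h' : t' ≤ t + s) : nrm (po n t' - po n t) ≤ s := by
  unfold po
  refine E3L_nrm ?_ ?_ ?_ ?_ <;> simp only [Prod.fst_sub, Prod.snd_sub] <;> omega

theorem pu_lip {n t t' s : ℤ} (hn : 0 ≤ n) (h0 : 0 ≤ t) (h : t ≤ t') (h' : t' ≤ t + s) : nrm (pu n t' - pu n t) ≤ s := by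
  unfold pu
  refine E3L_nrm ?_ ?_ ?_ ?_ <;> simp only [Prod.fst_sub, Prod.snd_sub] <;> omega

theorem pl_lip {n t t' s : ℤ} (hn : 0 ≤ n) (h0 : 0 ≤ t) (h : t ≤ t') (h' : t' ≤ t + s) : nrm (pl n t' - pl n t) ≤ s := by
  unfold pl
  refine E3L_nrm ?_ ?_ ?_ ?_ <;> simp only [Prod.fst_sub, Prod.snd_sub] <;> omega

private theorem E3L_arg (n j : ℕ) (k : ℤ) (hk : 0 ≤ k) : 0 ≤ min ((j : ℤ) * rr 2 n) (k * n) ∧
    min ((j : ℤ) * rr 2 n) (k * n) ≤ min (((j + 1 : ℕ) : ℤ) * rr 2 n) (k * n) ∧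
    min (((j + 1 : ℕ) : ℤ) * rr 2 n) (k * n) ≤ min ((j : ℤ) * rr 2 n) (k * n) + 4 * (rr 2 n : ℤ) := by
  have h1 : (0 : ℤ) ≤ (j : ℤ) * rr 2 n := by positivity
  have h2 : (0 : ℤ) ≤ k * n := by positivity
  have h3 : (((j + 1 : ℕ) : ℤ) * rr 2 n) = (j : ℤ) * rr 2 n + rr 2 n := by
    push_cast
    ring
  have h4 : (0 : ℤ) ≤ (rr 2 n : ℤ) := by positivity
  rw [h3]
  omega

theorem co_step (n j : ℕ) : nrm (co n (j + 1) - co n j) ≤ 4 * (rr 2 n : ℤ) := by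
  have h := E3L_arg n j 38 (by norm_num)
  exact po_lip (Int.natCast_nonneg n) h.2.1 h.2.2

theorem cu_step (n j : ℕ) : nrm (cu n (j + 1) - cu n j) ≤ 4 * (rr 2 n : ℤ) := by
  have h := E3L_arg n j 42 (by norm_num)
  exact pu_lip (Int.natCast_nonneg n) h.1 h.2.1 h.2.2

theorem cl_step (n j : ℕ) : nrm (cl n (j + 1) - cl n j) ≤ 4 * (rr 2 n : ℤ) := by
  have h := E3L_arg n j 42 (by norm_num)
  exact pl_lip (Int.natCast_nonneg n) h.1 h.2.1 h.2.2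

theorem c_zero (n : ℕ) : co n 0 = ((n : ℤ), 0) ∧ cu n 0 = (0, (n : ℤ)) ∧ cl n 0 = (0, -(n : ℤ)) := by
  have h1 : min (((0 : ℕ) : ℤ) * rr 2 n) (38 * (n : ℤ)) = 0 := by
    rw [Nat.cast_zero, zero_mul]
    omega
  have h2 : min (((0 : ℕ) : ℤ) * rr 2 n) (42 * (n : ℤ)) = 0 := by
    rw [Nat.cast_zero, zero_mul]
    omega
  unfold co cu cl
  rw [h1, h2]
  unfold po pu pl
  refine ⟨Prod.ext ?_ ?_, Prod.ext ?_ ?_, Prod.ext ?_ ?_⟩ <;> simp only <;> omega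

theorem c_end {n : ℕ} (hn : 400 ≤ n) : co n TT4 = (19 * (n : ℤ), -(20 * (n : ℤ))) ∧ cu n TT4 = (20 * (n : ℤ), -(19 * (n : ℤ))) ∧
    cl n TT4 = (20 * (n : ℤ), -(21 * (n : ℤ))) := by
  have h0 : n ≤ 400 * rr 2 n := by
    unfold rr
    omega
  have h3 : 42 * (n : ℤ) ≤ (TT4 : ℤ) * rr 2 n := by
    rw [TT4_eq]
    push_cast
    omega
  have h1 : min ((TT4 : ℤ) * rr 2 n) (38 * (n : ℤ)) = 38 * n := by
    rw [min_eq_right]
    omega
  have h2 : min ((TT4 : ℤ) * rr 2 n) (42 * (n : ℤ)) = 42 * n := min_eq_right h3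
  unfold co cu cl
  rw [h1, h2]
  unfold po pu pl
  refine ⟨Prod.ext ?_ ?_, Prod.ext ?_ ?_, Prod.ext ?_ ?_⟩ <;> simp only <;> omega

theorem mem_Lo {n : ℕ} {p : V × ℤ} : p ∈ Lo n ↔ ∃ j ≤ TT4, p = (co n j, (rr 2 n : ℤ)) := by
  unfold Lo
  rw [mem_image]
  constructor
  · rintro ⟨j, hj, h⟩
    exact ⟨j, Nat.lt_succ_iff.1 (mem_range.1 hj), h.symm⟩
  · rintro ⟨j, hj, h⟩
    exact ⟨j, mem_range.2 (Nat.lt_succ_iff.2 hj), h.symm⟩

theorem mem_Ld {n : ℕ} {p : V × ℤ} : p ∈ Ld n ↔ (∃ j ≤ TT4, p = (cu n j, (rr 2 n : ℤ))) ∨ ∃ j ≤ TT4, p = (cl n j, (rr 2 n : ℤ)) := by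
  unfold Ld
  rw [mem_union, mem_image, mem_image]
  constructor
  · rintro (⟨j, hj, h⟩ | ⟨j, hj, h⟩)
    · exact Or.inl ⟨j, Nat.lt_succ_iff.1 (mem_range.1 hj), h.symm⟩
    · exact Or.inr ⟨j, Nat.lt_succ_iff.1 (mem_range.1 hj), h.symm⟩
  · rintro (⟨j, hj, h⟩ | ⟨j, hj, h⟩)
    · exact Or.inl ⟨j, mem_range.2 (Nat.lt_succ_iff.2 hj), h.symm⟩
    · exact Or.inr ⟨j, mem_range.2 (Nat.lt_succ_iff.2 hj), h.symm⟩

theorem L_card (n : ℕ) : (Lo n).card ≤ TT4 + 1 ∧ (Ld n).card ≤ 2 * (TT4 + 1) := by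
  constructor
  · unfold Lo
    refine card_image_le.trans ?_
    rw [card_range]
  · unfold Ld
    refine (card_union_le _ _).trans ?_
    have h1 : (((range (TT4 + 1)).image fun j => (cu n j, (rr 2 n : ℤ))) : Finset (V × ℤ)).card ≤ TT4 + 1 := by
      refine card_image_le.trans ?_
      rw [card_range]
    have h2 : (((range (TT4 + 1)).image fun j => (cl n j, (rr 2 n : ℤ))) : Finset (V × ℤ)).card ≤ TT4 + 1 := by
      refine card_image_le.trans ?_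
      rw [card_range]
    omega

end FKN
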