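import Pool.Agent.Lib.MP_216314_pr.N.E3L
import Pool.Agent.Lib.MP_216314_pr.N.DPkA

/-!
# Stream E3: the places of the edges of the regions

In the following `ρ = rr 2 n = n / 200`.
PROOFS. `mem_RN`: `RN L = L.biUnion fun p => bxa p.1 (3 * p.2)`. `loc_o`: `e ∈ bxa (co n j) (3 ρ)` for some `j ≤ TT4` (`mem_Lo`); `bxa_near` (DPkA) gives `nrm ((e.1, e.2.1) - co n j) ≤ 3 ρ`, i.e. both coordinates differ by at most `3 ρ` (`nrm`, `max_le_iff`, `abs_le`; `Prod.fst_sub`); `co n j = po n t` with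
`t = min (j ρ) (38 n) ∈ [0, 38 n]`, `reg_po` (E3L), `omega`. `loc_d`: the same with `ud_bxa_near` (`≤ 3 ρ + 1`), `reg_pu`, `reg_pl`; `ud` of a union is the union of the `ud` (`mem_ud`, DFkB: `e ∈ ud F ↔ dl e ∈ F`). `loc_p`: `Rp n = (bx (n - 5 ρ) \ {e0}) ∪ bxs (cO 2 n) (10 ρ)`,
`bxs a w = univ.biUnion fun i => bxa (a i) w`, `Fin 2`, `cO_vals` (E3L), `bxa_near`; `bx r = box (-r) r (-r) r`, `FKP.mem_box` (`n - 5 * rr 2 n` is a natural number subtraction: `((n - 5 * rr 2 n : ℕ) : ℤ) ≤ n - 5 ρ` since `5 ρ ≤ n`: `omega` after `unfold rr`). `loc_m`: the same with `ud_bxa_near`.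
-/

set_option autoImplicit false

noncomputable section

namespace FKN

open Finset FKI FKP

section

variable {n : ℕ} {e : Edge}

private theorem E3M_nrm {u a : V} {r : ℤ} (h : nrm (u - a) ≤ r) : a.1 - r ≤ u.1 ∧ u.1 ≤ a.1 + r ∧ a.2 - r ≤ u.2 ∧ u.2 ≤ a.2 + r := by
  unfold nrm at h
  rw [max_le_iff, abs_le, abs_le] at h
  obtain ⟨⟨h1, h2⟩, h3, h4⟩ := h
  simp only [Prod.fst_sub, Prod.snd_sub] at h1 h2 h3 h4
  refine ⟨?_, ?_, ?_, ?_⟩ <;> linarith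

private theorem E3M_rng {n ρ : ℤ} (hn : 0 ≤ n) (hr : 0 ≤ ρ) (j : ℕ) (c : ℤ) (hc : 0 ≤ c) :
    0 ≤ min ((j : ℤ) * ρ) (c * n) ∧ min ((j : ℤ) * ρ) (c * n) ≤ c * n :=
  ⟨le_min (mul_nonneg (Int.natCast_nonneg j) hr) (mul_nonneg hc hn), min_le_right _ _⟩

theorem loc_o (he : e ∈ RN (Lo n)) :
    ((n : ℤ) - 3 * rr 2 n ≤ e.1 ∧ e.1 ≤ 10 * n + 3 * rr 2 n ∧ -(3 * (rr 2 n : ℤ)) ≤ e.2.1 ∧ e.2.1 ≤ 3 * rr 2 n) ∨
    (10 * (n : ℤ) - 3 * rr 2 n ≤ e.1 ∧ e.1 ≤ 10 * n + 3 * rr 2 n ∧ -(20 * (n : ℤ)) - 3 * rr 2 n ≤ e.2.1 ∧ e.2.1 ≤ 3 * rr 2 n) ∨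
    (10 * (n : ℤ) - 3 * rr 2 n ≤ e.1 ∧ e.1 ≤ 19 * n + 3 * rr 2 n ∧ -(20 * (n : ℤ)) - 3 * rr 2 n ≤ e.2.1 ∧
      e.2.1 ≤ -(20 * (n : ℤ)) + 3 * rr 2 n) := by
  unfold RN at he
  rw [mem_biUnion] at he
  obtain ⟨p, hp, hb⟩ := he
  rw [mem_Lo] at hp
  obtain ⟨j, _, rfl⟩ := hp
  obtain ⟨a1, a2, a3, a4⟩ := E3M_nrm (bxa_near hb)
  have hn : (0 : ℤ) ≤ n := Int.natCast_nonneg n
  have hr : (0 : ℤ) ≤ (rr 2 n : ℤ) := Int.natCast_nonneg _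
  obtain ⟨t0, t1⟩ := E3M_rng hn hr j 38 (by norm_num)
  have h := reg_po hn t0 t1
  simp only [co] at a1 a2 a3 a4
  rcases h with h | h | h
  · left; omega
  · right; left; omega
  · right; right; omega

/-- the rectangle with margin `3 ρ + 1` -/
def InR (n : ℕ) (e : Edge) (x1 x2 y1 y2 : ℤ) : Prop :=
  x1 - (3 * rr 2 n + 1) ≤ e.1 ∧ e.1 ≤ x2 + (3 * rr 2 n + 1) ∧ y1 - (3 * rr 2 n + 1) ≤ e.2.1 ∧ e.2.1 ≤ y2 + (3 * rr 2 n + 1)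

theorem loc_d (he : e ∈ ud (RN (Ld n))) :
    (InR n e 0 0 n (2 * n) ∨ InR n e 0 (12 * n) (2 * n) (2 * n) ∨ InR n e (12 * n) (12 * n) (-(18 * n)) (2 * n) ∨
      InR n e (12 * n) (20 * n) (-(18 * n)) (-(18 * n)) ∨ InR n e (20 * n) (20 * n) (-(19 * n)) (-(18 * n))) ∨
    (InR n e 0 0 (-(2 * n)) (-n) ∨ InR n e 0 (8 * n) (-(2 * n)) (-(2 * n)) ∨ InR n e (8 * n) (8 * n) (-(22 * n)) (-(2 * n)) ∨
      InR n e (8 * n) (20 * n) (-(22 * n)) (-(22 * n)) ∨ InR n e (20 * n) (20 * n) (-(22 * n)) (-(21 * n))) := by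
  rw [mem_ud] at he
  unfold RN at he
  rw [mem_biUnion] at he
  obtain ⟨p, hp, hb⟩ := he
  have hn : (0 : ℤ) ≤ n := Int.natCast_nonneg n
  have hr : (0 : ℤ) ≤ (rr 2 n : ℤ) := Int.natCast_nonneg _
  rw [mem_Ld] at hp
  rcases hp with ⟨j, _, rfl⟩ | ⟨j, _, rfl⟩
  · left
    obtain ⟨a1, a2, a3, a4⟩ := E3M_nrm (ud_bxa_near (mem_ud.mpr hb))
    obtain ⟨t0, t1⟩ := E3M_rng hn hr j 42 (by norm_num)
    have h := reg_pu hn t0 t1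
    simp only [cu] at a1 a2 a3 a4
    rcases h with h | h | h | h | h
    · left; unfold InR; omega
    · right; left; unfold InR; omega
    · right; right; left; unfold InR; omega
    · right; right; right; left; unfold InR; omega
    · right; right; right; right; unfold InR; omega
  · right
    obtain ⟨a1, a2, a3, a4⟩ := E3M_nrm (ud_bxa_near (mem_ud.mpr hb))
    obtain ⟨t0, t1⟩ := E3M_rng hn hr j 42 (by norm_num)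
    have h := reg_pl hn t0 t1
    simp only [cl] at a1 a2 a3 a4
    rcases h with h | h | h | h | h
    · left; unfold InR; omega
    · right; left; unfold InR; omega
    · right; right; left; unfold InR; omega
    · right; right; right; left; unfold InR; omega
    · right; right; right; right; unfold InR; omega

private theorem E3M_bx (hb : e ∈ bx (n - 5 * rr 2 n)) :
    -((n : ℤ) - 5 * rr 2 n) ≤ e.1 ∧ e.1 ≤ n - 5 * rr 2 n ∧ -((n : ℤ) - 5 * rr 2 n) ≤ e.2.1 ∧ e.2.1 ≤ n - 5 * rr 2 n := by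
  unfold bx at hb
  rw [FKP.mem_box] at hb
  have h5 : 5 * rr 2 n ≤ n := by
    unfold rr
    omega
  have hc : ((n - 5 * rr 2 n : ℕ) : ℤ) = (n : ℤ) - 5 * rr 2 n := by
    rw [Nat.cast_sub h5]
    push_cast
    ring
  rw [hc] at hb
  rcases hb with ⟨_, b1, b2, b3, b4⟩ | ⟨_, b1, b2, b3, b4⟩
  · refine ⟨?_, ?_, ?_, ?_⟩ <;> omega
  · refine ⟨?_, ?_, ?_, ?_⟩ <;> omega

theorem loc_p (he : e ∈ Rp n) :
    (e ≠ e0 ∧ -((n : ℤ) - 5 * rr 2 n) ≤ e.1 ∧ e.1 ≤ n - 5 * rr 2 n ∧ -((n : ℤ) - 5 * rr 2 n) ≤ e.2.1 ∧ e.2.1 ≤ n - 5 * rr 2 n) ∨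
    ((n : ℤ) - 10 * rr 2 n ≤ e.1 ∧ e.1 ≤ n + 10 * rr 2 n ∧ -(10 * (rr 2 n : ℤ)) ≤ e.2.1 ∧ e.2.1 ≤ 10 * rr 2 n) ∨
    (-(n : ℤ) - 10 * rr 2 n ≤ e.1 ∧ e.1 ≤ -(n : ℤ) + 10 * rr 2 n ∧ -(10 * (rr 2 n : ℤ)) ≤ e.2.1 ∧ e.2.1 ≤ 10 * rr 2 n) := by
  unfold Rp at he
  rw [mem_union, mem_sdiff, mem_singleton] at he
  rcases he with ⟨hb, h0⟩ | he
  · exact Or.inl ⟨h0, E3M_bx hb⟩
  · right
    unfold bxs at he
    rw [mem_biUnion] at he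
    obtain ⟨i, _, hb⟩ := he
    obtain ⟨c1, c2, _, _⟩ := cO_vals n
    obtain ⟨a1, a2, a3, a4⟩ := E3M_nrm (bxa_near hb)
    have hi : i = 0 ∨ i = 1 := by
      fin_cases i
      · exact Or.inl rfl
      · exact Or.inr rfl
    rcases hi with rfl | rfl
    · left
      rw [c1] at a1 a2 a3 a4
      dsimp only at a1 a2 a3 a4
      omega
    · right
      rw [c2] at a1 a2 a3 a4
      dsimp only at a1 a2 a3 a4
      omega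

theorem loc_m (he : e ∈ Rm n) :
    (e ≠ e0 ∧ -((n : ℤ) - 5 * rr 2 n) ≤ e.1 ∧ e.1 ≤ n - 5 * rr 2 n ∧ -((n : ℤ) - 5 * rr 2 n) ≤ e.2.1 ∧ e.2.1 ≤ n - 5 * rr 2 n) ∨
    (-(10 * (rr 2 n : ℤ) + 1) ≤ e.1 ∧ e.1 ≤ 10 * rr 2 n + 1 ∧ (n : ℤ) - (10 * rr 2 n + 1) ≤ e.2.1 ∧ e.2.1 ≤ n + (10 * rr 2 n + 1)) ∨
    (-(10 * (rr 2 n : ℤ) + 1) ≤ e.1 ∧ e.1 ≤ 10 * rr 2 n + 1 ∧ -(n : ℤ) - (10 * rr 2 n + 1) ≤ e.2.1 ∧
      e.2.1 ≤ -(n : ℤ) + (10 * rr 2 n + 1)) := by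
  unfold Rm at he
  rw [mem_union, mem_sdiff, mem_singleton] at he
  rcases he with ⟨hb, h0⟩ | he
  · exact Or.inl ⟨h0, E3M_bx hb⟩
  · right
    rw [mem_ud] at he
    unfold bxs at he
    rw [mem_biUnion] at he
    obtain ⟨i, _, hb⟩ := he
    obtain ⟨_, _, c1, c2⟩ := cO_vals n
    obtain ⟨a1, a2, a3, a4⟩ := E3M_nrm (ud_bxa_near (mem_ud.mpr hb))
    have hi : i = 0 ∨ i = 1 := by
      fin_cases i
      · exact Or.inl rfl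
      · exact Or.inr rfl
    rcases hi with rfl | rfl
    · left
      rw [c1] at a1 a2 a3 a4
      dsimp only at a1 a2 a3 a4
      omega
    · right
      rw [c2] at a1 a2 a3 a4
      dsimp only at a1 a2 a3 a4
      omega

end

end FKN
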