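import Pool.Agent.Lib.MP_216314_pr.N.E3R
import Pool.Agent.Lib.MP_216314_pr.N.E3J
import Pool.Agent.Lib.MP_216314_pr.N.E3P
import Pool.Agent.Lib.MP_216314_pr.N.DStA

/-!
# Stream E3: from the canonical state to the four arms around the cylinder

PROOFS. `wO_eq`: `wO (1/2) n = IPC.Pr (1/2) (bx (2 n)) (CanO 2 {e0} SeP SeD n) = Pr (bx (2 n)) ..` (`pr_half`) `= Pr (cylE (20 n) m) (fun ω => CanO .. (pull (20 n) (bx (2 n)) ω))` (`Pr_pull_bx`, Cy/CyC, with `k = 2 n`, `2 (2 n) < 20 n`, `20 n ≤ m`; `FKP.bx` and `FKN.bx` are the same by `rfl`); unfold `CanO`, `StE`: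
`StG SeP .. (η ∩ Rp n) ∧ StG SeD .. (dc (Rm n) η)` with `η = pull (20 n) (bx (2 n)) ω`; `η ∩ Rp n = pull (20 n) (Rp n) ω` and `dc (Rm n) η = pd (20 n) (Rm n) ω` by `pull_big`, `pd_big` (E3I) and `Rp n ∪ Rm n ⊆ bx (2 n)` (`CanO_region`, DStA, with `l = 2`, `X0 = {e0} ⊆ bx n`, `1 ≤ n`). The goal is stated with
`Pr_congr`/`funext`.
`wO_T4`: `c` from `rb_half` (E3P). `cyl_fkg` (E3I) with `N = 20 n`, `Fp = Rp n`, `Fm = Rm n`, `Np = RN (Lo n)`, `Nm = ud (RN (Ld n))`, `A = StG SeP (ringT (cO 2 n) (rr 2 n))`, `B = Rings (Lo n)`, `D = StG SeD (ringT (cD 2 n) (rr 2 n))`, `B' = Rings (Ld n)`; increasing by `StG_inc`, `SeP_inc`, `SeD_inc`, `ringT_inc` (DStA), `Rings_inc` (DRgC);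
disjointness `dis_pm`, `dis_dp`, `dis_od`, heights `in_cyl` (E3Q). The first factor is `wO (1/2) n`; the second is `≥ c ^ (4 * (Lo n).card) ≥ c ^ (4 * (TT4 + 1))` (`cyl_rings` with `r = rr 2 n`, `1 ≤ rr 2 n`, `6 r + 3 ≤ 20 n`; `mem_Lo` gives `p.2 = rr 2 n`; `L_card`, `pow_le_pow_of_le_one`), the third `≥ c ^ (8 * (TT4 + 1))` (`cyl_rings_d`). The
right side is `≤ Pr (E3T4)` (`Pr_mono`, `t4_of_events`). So `C = (c ^ (12 * (TT4 + 1)))⁻¹`. (Do not let `norm_num`/`simp` evaluate `TT4`; it is a `def`.)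
-/

set_option autoImplicit false

noncomputable section

namespace FKN

open Finset FKI FKP

theorem wO_eq {n m : ℕ} (hn : 400 ≤ n) (hm : 20 * n ≤ m) : wO (1 / 2) n = Pr (cylE (20 * n) m)
    (fun ω => StG SeP (ringT (cO 2 n) (rr 2 n)) (pull (20 * n) (Rp n) ω) ∧
      StG SeD (ringT (cD 2 n) (rr 2 n)) (pd (20 * n) (Rm n) ω)) := by
  have h1 : wO (1 / 2) n = Pr (FKP.bx (2 * n)) (CanO 2 {e0} SeP SeD n) := (pr_half _ _).symm
  rw [h1, ← Pr_pull_bx (n := 20 * n) (m := m) (k := 2 * n) (by omega) hm]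
  have he0 : ({e0} : Finset Edge) ⊆ bx n := by
    rw [Finset.singleton_subset_iff]
    unfold bx e0
    rw [mem_box]
    left
    refine ⟨rfl, ?_, ?_, ?_, ?_⟩
    · change -(n : ℤ) ≤ 0
      omega
    · change (0 : ℤ) < n
      omega
    · change -(n : ℤ) ≤ 0
      omega
    · change (0 : ℤ) ≤ n
      omega
  have hreg : Rp n ∪ Rm n ⊆ FKP.bx (2 * n) := CanO_region (l := 2) (by norm_num) {e0} n he0
  refine Pr_congr fun ω _ => ?_
  have e1 : pull (20 * n) (FKP.bx (2 * n)) ω ∩ Rp n = pull (20 * n) (Rp n) ω :=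
    pull_big (Finset.subset_union_left.trans hreg)
  have e2 : dc (Rm n) (pull (20 * n) (FKP.bx (2 * n)) ω) = pd (20 * n) (Rm n) ω :=
    pd_big (Finset.subset_union_right.trans hreg)
  rw [← e1, ← e2]
  exact Iff.rfl

theorem wO_T4 : ∃ C : ℝ, 0 < C ∧ ∀ n m : ℕ, 400 ≤ n → 20 * n ≤ m → wO (1 / 2) n ≤ C * Pr (cylE (20 * n) m) (E3T4 (20 * n) m) := by
  obtain ⟨c, hc0, hc1, hRB⟩ := rb_half
  refine ⟨(c ^ (12 * (TT4 + 1)))⁻¹, inv_pos.2 (pow_pos hc0 _), fun n m hn hm => ?_⟩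
  have hpos : 0 < c ^ (12 * (TT4 + 1)) := pow_pos hc0 _
  rw [inv_mul_eq_div, le_div_iff₀ hpos]
  have hr : 1 ≤ rr 2 n := by
    unfold rr
    omega
  have hN : 6 * rr 2 n + 3 ≤ 20 * n := by
    unfold rr
    omega
  have hLo : ∀ p ∈ Lo n, p.2 = ((rr 2 n : ℕ) : ℤ) := by
    intro p hp
    obtain ⟨j, -, rfl⟩ := mem_Lo.1 hp
    rfl
  have hLd : ∀ p ∈ Ld n, p.2 = ((rr 2 n : ℕ) : ℤ) := by
    intro p hp
    rcases mem_Ld.1 hp with ⟨j, -, rfl⟩ | ⟨j, -, rfl⟩ <;> rfl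
  have h1 := cyl_rings hc0.le (hRB (rr 2 n)) hr hN (Lo n) hLo
    (fun e he => in_cyl (m := m) hn hm (Or.inr (Or.inr (Or.inl he))))
  have h2 := cyl_rings_d hc0.le (hRB (rr 2 n)) hr hN (Ld n) hLd
    (fun e he => in_cyl (m := m) hn hm (Or.inr (Or.inr (Or.inr he))))
  have h3 := cyl_fkg (N := 20 * n) (m := m) (Fp := Rp n) (Fm := Rm n) (Np := RN (Lo n))
    (Nm := ud (RN (Ld n))) (fun e he => in_cyl hn hm (Or.inl he))
    (fun e he => in_cyl hn hm (Or.inr (Or.inl he)))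
    (fun e he => in_cyl hn hm (Or.inr (Or.inr (Or.inl he))))
    (fun e he => in_cyl hn hm (Or.inr (Or.inr (Or.inr he))))
    (fun e he e' he' => dis_pm hn he he') (fun e he e' he' => dis_dp hn he he')
    (fun e he e' he' => dis_od hn he he')
    (A := StG SeP (ringT (cO 2 n) (rr 2 n))) (B := Rings (Lo n))
    (D := StG SeD (ringT (cD 2 n) (rr 2 n))) (B' := Rings (Ld n))
    (StG_inc SeP_inc (ringT_inc _ _)) (Rings_inc _) (StG_inc SeD_inc (ringT_inc _ _)) (Rings_inc _)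
  have h4 : c ^ (4 * (TT4 + 1)) ≤ c ^ (4 * (Lo n).card) :=
    pow_le_pow_of_le_one hc0.le hc1 (Nat.mul_le_mul_left 4 (L_card n).1)
  have h5 : c ^ (8 * (TT4 + 1)) ≤ c ^ (4 * (Ld n).card) := by
    have h6 := (L_card n).2
    exact pow_le_pow_of_le_one hc0.le hc1 (by omega)
  have h7 : c ^ (12 * (TT4 + 1)) = c ^ (4 * (TT4 + 1)) * c ^ (8 * (TT4 + 1)) := by
    rw [← pow_add]
    exact congrArg (fun k => c ^ k) (by ring)
  have h0 : 0 ≤ wO (1 / 2) n := by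
    rw [wO_eq hn hm]
    exact Pr_nonneg _ _
  rw [← wO_eq hn hm] at h3
  calc wO (1 / 2) n * c ^ (12 * (TT4 + 1))
      = wO (1 / 2) n * c ^ (4 * (TT4 + 1)) * c ^ (8 * (TT4 + 1)) := by rw [h7, mul_assoc]
    _ ≤ wO (1 / 2) n * Pr (cylE (20 * n) m) (fun ω => Rings (Lo n) (pull (20 * n) (RN (Lo n)) ω)) *
        Pr (cylE (20 * n) m) (fun ω => Rings (Ld n) (pd (20 * n) (ud (RN (Ld n))) ω)) := by
      refine mul_le_mul (mul_le_mul_of_nonneg_left (h4.trans h1) h0) (h5.trans h2)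
        (pow_pos hc0 _).le (mul_nonneg h0 (Pr_nonneg _ _))
    _ ≤ Pr (cylE (20 * n) m) (fun ω => (StG SeP (ringT (cO 2 n) (rr 2 n)) (pull (20 * n) (Rp n) ω) ∧
          Rings (Lo n) (pull (20 * n) (RN (Lo n)) ω)) ∧
          (StG SeD (ringT (cD 2 n) (rr 2 n)) (pd (20 * n) (Rm n) ω) ∧
          Rings (Ld n) (pd (20 * n) (ud (RN (Ld n))) ω))) := h3
    _ ≤ Pr (cylE (20 * n) m) (E3T4 (20 * n) m) := by
      refine Pr_mono fun ω _ hω => ?_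
      exact t4_of_events hn hm hω.1.1 hω.1.2 hω.2.1 hω.2.2

end FKN
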