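import Pool.Agent.Lib.MP_216314_pr.N.EDef

/-!
# Every strand which starts at a leg has another leg class

Proof. Work modulo the period. Let `N = Finset.univ ×ˢ Finset.Ico 0 (L : ℤ)` (`Finset (Bool × ℤ)`) and
`C = {x ∈ N | ∃ v, NCp P Q u v ∧ v.1 = x.1 ∧ v.2 % L = x.2}` (classical filter).
(1) The map `(true, r) ↦ (true, Q.f r % L)`, `(false, r) ↦ (false, P.f r % L)` is an involution of `C` without fixed points: it maps `C` to `C`
(if `v.2 % L = r` then `v.2 = r + k L`, `Q.f v.2 = Q.f r + k L` by `Pat.per_mul`, and `(true, Q.f v.2)` is one step further); it is an involution by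
`Pat.per_mul` and `Pat.inv`; it has no fixed point since `Q.f r - r` is odd (`Pat.parity`) and `L` is even (`Pat.even`). So `C.card` is even
(`Finset.sum_involution` in `ZMod 2` as in `even_card`, Z/NKa, or `Finset.card_involution`).
(2) On `C' = {x ∈ C | 2 ≤ x.2}` the map `(b, r) ↦ (!b, r)` is an involution without fixed points (third kind of step; `r = v.2 % L`). So `C'.card` is even.
(3) So `{x ∈ C | x.2 < 2}` has an even number of elements; it contains `(u.1, u.2)` (`IsLeg`: `0 ≤ u.2 < 2 ≤ L`, so `u.2 % L = u.2`; `Pat.two_le`), so it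
contains another `x ≠ (u.1, u.2)`; take the `v` of `x`: `v.2 % L = x.2 < 2`, and if `v.1 = u.1` and `L ∣ v.2 - u.2` then `x = (u.1, u.2)`.
-/

set_option autoImplicit false

noncomputable section

namespace CY

open Finset FKI FKP

section

variable {L : ℕ} {P Q : Pat L}

theorem EB_even (s : Finset (Bool × ℤ)) (g : Bool × ℤ → Bool × ℤ) (h1 : ∀ x ∈ s, g x ∈ s)
    (h2 : ∀ x ∈ s, g (g x) = x) (h3 : ∀ x ∈ s, g x ≠ x) : Even s.card := by
  have h4 : ∑ _x ∈ s, (1 : ZMod 2) = 0 := by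
    refine Finset.sum_involution (fun a _ => g a) ?_ ?_ ?_ ?_
    · intro a _
      decide
    · intro a ha _
      exact h3 a ha
    · intro a ha
      exact h1 a ha
    · intro a ha
      exact h2 a ha
  rw [Finset.sum_const, nsmul_eq_mul, mul_one] at h4
  exact (ZMod.natCast_eq_zero_iff_even).1 h4

theorem EB_mod (α : Pat L) (r : ℤ) : α.f (r % (L : ℤ)) % (L : ℤ) = α.f r % (L : ℤ) := by
  have h1 := α.per_mul (r % (L : ℤ)) (r / (L : ℤ))
  have h2 : r % (L : ℤ) + r / (L : ℤ) * (L : ℤ) = r := by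
    rw [mul_comm]
    exact Int.emod_add_mul_ediv r L
  rw [h2] at h1
  rw [h1, Int.add_mul_emod_self_right]

theorem EB_ne (α : Pat L) (r : ℤ) : α.f r % (L : ℤ) ≠ r := by
  intro h
  obtain ⟨k, hk⟩ := α.even
  obtain ⟨j, hj⟩ := α.parity r
  have h1 := Int.emod_add_mul_ediv (α.f r) L
  rw [h] at h1
  have h2 : (L : ℤ) = k + k := by exact_mod_cast hk
  have h3 : α.f r - r = (L : ℤ) * (α.f r / (L : ℤ)) := by linarith
  rw [h3, h2] at hj
  have h4 : ((k : ℤ) + k) * (α.f r / ((L : ℤ))) = 2 * (k * (α.f r / ((L : ℤ)))) := by ring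
  rw [h2] at h4
  omega

theorem exists_leg {u : Bool × ℤ} (hu : IsLeg 2 2 u) :
    ∃ v : Bool × ℤ, NCp P Q u v ∧ v.2 % (L : ℤ) < 2 ∧ ¬ (v.1 = u.1 ∧ (L : ℤ) ∣ v.2 - u.2) := by
  classical
  have hL2 : 2 ≤ L := P.two_le
  have hL : (2 : ℤ) ≤ (L : ℤ) := by exact_mod_cast hL2
  have hL0 : (L : ℤ) ≠ 0 := by omega
  obtain ⟨pa, hpa⟩ : ∃ pa : Bool → Pat L, pa = fun b => if b = true then Q else P := ⟨_, rfl⟩
  have hpt : pa true = Q := by rw [hpa]; exact if_pos rfl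
  have hpf : pa false = P := by rw [hpa]; exact if_neg (by decide)
  have hst : ∀ v : Bool × ℤ, NSt P Q v (v.1, (pa v.1).f v.2) := by
    rintro ⟨b, x⟩
    cases b
    · right
      left
      refine ⟨rfl, ?_⟩
      show ((false, (pa false).f x) : Bool × ℤ) = (false, P.f x)
      rw [hpf]
    · left
      refine ⟨rfl, ?_⟩
      show ((true, (pa true).f x) : Bool × ℤ) = (true, Q.f x)
      rw [hpt]
  obtain ⟨C, hC⟩ : ∃ C : Finset (Bool × ℤ), C = ((Finset.univ ×ˢ Finset.Ico 0 (L : ℤ)) : Finset (Bool × ℤ)).filter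
      (fun x => ∃ v, NCp P Q u v ∧ v.1 = x.1 ∧ v.2 % (L : ℤ) = x.2) := ⟨_, rfl⟩
  have hmem : ∀ x : Bool × ℤ, x ∈ C ↔ (0 ≤ x.2 ∧ x.2 < L) ∧ ∃ v, NCp P Q u v ∧ v.1 = x.1 ∧ v.2 % (L : ℤ) = x.2 := by
    intro x
    rw [hC, Finset.mem_filter, Finset.mem_product, Finset.mem_Ico]
    exact ⟨fun h => ⟨h.1.2, h.2⟩, fun h => ⟨⟨Finset.mem_univ _, h.1⟩, h.2⟩⟩
  have e1 : Even C.card := by
    refine EB_even C (fun x => (x.1, (pa x.1).f x.2 % (L : ℤ))) ?_ ?_ ?_
    · intro x hx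
      rw [hmem] at hx ⊢
      obtain ⟨_, v, hv, hv1, hv2⟩ := hx
      refine ⟨⟨Int.emod_nonneg _ hL0, Int.emod_lt_of_pos _ (by omega)⟩, (v.1, (pa v.1).f v.2), ?_, hv1, ?_⟩
      · exact Relation.ReflTransGen.tail hv (hst v)
      · show (pa v.1).f v.2 % (L : ℤ) = (pa x.1).f x.2 % (L : ℤ)
        rw [← hv1, ← hv2, EB_mod]
    · intro x hx
      rw [hmem] at hx
      show (x.1, (pa x.1).f ((pa x.1).f x.2 % (L : ℤ)) % (L : ℤ)) = x
      rw [EB_mod, (pa x.1).inv, Int.emod_eq_of_lt hx.1.1 hx.1.2]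
    · intro x _ h
      exact EB_ne (pa x.1) x.2 (congrArg Prod.snd h)
  have e2 : Even (C.filter fun x => 2 ≤ x.2).card := by
    refine EB_even _ (fun x => (!x.1, x.2)) ?_ ?_ ?_
    · intro x hx
      rw [Finset.mem_filter, hmem] at hx ⊢
      obtain ⟨⟨h1, v, hv, hv1, hv2⟩, h2⟩ := hx
      refine ⟨⟨h1, (!v.1, v.2), ?_, ?_, hv2⟩, h2⟩
      · refine Relation.ReflTransGen.tail hv (Or.inr (Or.inr ⟨?_, rfl⟩))
        rw [hv2]
        exact h2
      · show (!v.1) = (!x.1)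
        rw [hv1]
    · rintro ⟨b, r⟩ _
      show (!(!b), r) = (b, r)
      rw [Bool.not_not]
    · rintro ⟨b, r⟩ _ h
      have h1 : (!b) = b := congrArg Prod.fst h
      cases b <;> exact absurd h1 (by decide)
  have e3 : Even (C.filter fun x => ¬ 2 ≤ x.2).card := by
    have h1 := Finset.card_filter_add_card_filter_not (s := C) (fun x => 2 ≤ x.2)
    rw [← h1] at e1
    exact (Nat.even_add.1 e1).1 e2
  obtain ⟨hu0, hu1⟩ := hu
  have hu2 : u.2 < 2 := by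
    rcases hu1 with h | h
    · exact_mod_cast h.2
    · exact_mod_cast h.2
  have hum : u.2 % (L : ℤ) = u.2 := Int.emod_eq_of_lt hu0 (by omega)
  have huC : u ∈ C.filter fun x => ¬ 2 ≤ x.2 := by
    rw [Finset.mem_filter, hmem]
    exact ⟨⟨⟨hu0, by omega⟩, u, Relation.ReflTransGen.refl, rfl, hum⟩, by omega⟩
  have hcard : 1 < (C.filter fun x => ¬ 2 ≤ x.2).card := by
    have h1 : 0 < (C.filter fun x => ¬ 2 ≤ x.2).card := Finset.card_pos.2 ⟨u, huC⟩
    obtain ⟨k, hk⟩ := e3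
    omega
  obtain ⟨x, hx, hxu⟩ := Finset.exists_mem_ne hcard u
  rw [Finset.mem_filter, hmem] at hx
  obtain ⟨⟨_, v, hv, hv1, hv2⟩, h2⟩ := hx
  refine ⟨v, hv, by omega, ?_⟩
  rintro ⟨h3, h4⟩
  apply hxu
  have h5 : v.2 % (L : ℤ) = u.2 % (L : ℤ) := (Int.emod_emod_of_dvd v.2 (dvd_refl _)).symm.trans (by
    rw [Int.emod_emod_of_dvd v.2 (dvd_refl _)]
    exact Int.emod_eq_emod_iff_emod_sub_eq_zero.2 (Int.emod_eq_zero_of_dvd h4))
  refine Prod.ext ?_ ?_
  · rw [← hv1, h3]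
  · rw [← hv2, h5, hum]

end

end CY
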