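import Pool.Agent.Lib.MP_216314_pr.N.EA
import Pool.Agent.Lib.MP_216314_pr.N.EB

/-!
# The gaps next to the legs are connected to distant gaps

Proof. `g = 0`: take the leg `u = (b, 0)` and its left gap `(b, 0)`; `g = 1`: the leg `u = (b, 0)` and its right gap `(b, 1)`; `g = 2`: the leg
`u = (b, 1)` and its right gap `(b, 2)`. `exists_leg` gives `v` with `NCp P Q u v`, `v.2 % L < 2`. If `0 ≤ v.2 < 2` then `v` is a leg (`IsLeg 2 2 v`),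
and `v ≠ u` (otherwise `v.1 = u.1` and `L ∣ 0`), a contradiction to `wl_iff`. So `v.2 < 0` or `v.2 ≥ 2`, and `v.2 = j L + r` with `r ∈ {0, 1}`, so
`v.2 ≤ - L + 1` or `v.2 ≥ L` (`Int.emod_add_mul_ediv`; `j ≤ -1` or `j ≥ 1`). By `gc_side` the gap of `u` is connected to `v` or to `(v.1, v.2 + 1)`.
-/

set_option autoImplicit false

noncomputable section

namespace CY

open Finset FKI FKP

section

variable {L : ℕ} {P Q : Pat L}

theorem EC_leg (h : WL 2 2 P Q) {u : Bool × ℤ} (hu : IsLeg 2 2 u) :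
    ∃ v : Bool × ℤ, NCp P Q u v ∧ (v.2 ≤ 1 - (L : ℤ) ∨ (L : ℤ) ≤ v.2) := by
  obtain ⟨v, hv, h1, h2⟩ := exists_leg (P := P) (Q := Q) hu
  refine ⟨v, hv, ?_⟩
  have hL : 2 ≤ L := P.two_le
  have hL' : (2 : ℤ) ≤ (L : ℤ) := by exact_mod_cast hL
  by_cases h3 : 0 ≤ v.2 ∧ v.2 < 2
  · exfalso
    have hl : IsLeg 2 2 v := by
      refine ⟨h3.1, ?_⟩
      have h4 : v.2 < ((2 : ℕ) : ℤ) := by exact_mod_cast h3.2
      cases hb : v.1
      · exact Or.inr ⟨rfl, h4⟩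
      · exact Or.inl ⟨rfl, h4⟩
    have hne : u ≠ v := by
      rintro rfl
      exact h2 ⟨rfl, by rw [sub_self]; exact dvd_zero _⟩
    exact wl_iff.1 h u v hu hl hne hv
  · have h5 : v.2 % (L : ℤ) + (L : ℤ) * (v.2 / (L : ℤ)) = v.2 := Int.emod_add_mul_ediv _ _
    have h6 : 0 ≤ v.2 % (L : ℤ) := Int.emod_nonneg _ (by omega)
    generalize v.2 % (L : ℤ) = r at h1 h5 h6
    generalize v.2 / (L : ℤ) = q at h5
    rcases lt_trichotomy q 0 with hq | hq | hq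
    · left
      have : (L : ℤ) * q ≤ (L : ℤ) * (-1) := mul_le_mul_of_nonneg_left (by omega) (by omega)
      omega
    · exfalso
      rw [hq, mul_zero] at h5
      exact h3 ⟨by omega, by omega⟩
    · right
      have : (L : ℤ) * 1 ≤ (L : ℤ) * q := mul_le_mul_of_nonneg_left (by omega) (by omega)
      omega

theorem far_gap (h : WL 2 2 P Q) (b : Bool) {g : ℤ} (hg : g = 0 ∨ g = 1 ∨ g = 2) :
    ∃ w : Bool × ℤ, GC P Q (b, g) w ∧ (w.2 ≤ 2 - (L : ℤ) ∨ (L : ℤ) ≤ w.2) := by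
  have hleg : ∀ s : ℤ, s = 0 ∨ s = 1 → IsLeg 2 2 (b, s) := by
    intro s hs
    refine ⟨by show (0 : ℤ) ≤ s; omega, ?_⟩
    have h4 : s < ((2 : ℕ) : ℤ) := by
      have : ((2 : ℕ) : ℤ) = 2 := rfl
      omega
    cases b
    · exact Or.inr ⟨rfl, h4⟩
    · exact Or.inl ⟨rfl, h4⟩
  have key : ∀ s : ℤ, s = 0 ∨ s = 1 → (∃ w : Bool × ℤ, GC P Q (b, s) w ∧ (w.2 ≤ 2 - (L : ℤ) ∨ (L : ℤ) ≤ w.2)) ∧
      (∃ w : Bool × ℤ, GC P Q (b, s + 1) w ∧ (w.2 ≤ 2 - (L : ℤ) ∨ (L : ℤ) ≤ w.2)) := by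
    intro s hs
    obtain ⟨v, hv, h1⟩ := EC_leg h (hleg s hs)
    rcases gc_side hv with ⟨h2, h3⟩ | ⟨h2, h3⟩
    · exact ⟨⟨v, h2, by omega⟩, ⟨(v.1, v.2 + 1), h3, by show v.2 + 1 ≤ _ ∨ _ ≤ v.2 + 1; omega⟩⟩
    · exact ⟨⟨(v.1, v.2 + 1), h2, by show v.2 + 1 ≤ _ ∨ _ ≤ v.2 + 1; omega⟩, ⟨v, h3, by omega⟩⟩
  rcases hg with rfl | rfl | rfl
  · exact (key 0 (Or.inl rfl)).1
  · exact (key 1 (Or.inr rfl)).1
  · exact (key 1 (Or.inr rfl)).2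

end

end CY
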