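import Pool.Agent.Lib.MP_216314_pr.Q4.LDef
import Pool.Agent.Lib.MP_216314_pr.K.KFar
import Pool.Agent.Lib.MP_216314_pr.N.NDef

/-!
# Four arms on the cylinder: definitions

The diagram of two patterns `P` (nodes `(false, x)`) and `Q` (nodes `(true, x)`); the sites `0, 1` modulo the period are legs, the others are
glued. `NSt`: steps between nodes, `NCp`: connection of nodes. `GSt`: steps between the gaps (the gap `g` is between the sites `g - 1` and `g`),
`GC`: connection of gaps. `W4`: the event of the exact law, `S4 k`: the clusters of `(0,0)` and `(1,-1)` in `[-k,k]²` reach the boundary and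
are different. `dz z k y`: a function on the faces of `ℤ²` in the coordinates of the cylinder (`k + y` odd).
-/

set_option autoImplicit false

noncomputable section

namespace CY

open Finset FKI FKP

/-- steps along the strands of the diagram -/
def NSt {L : ℕ} (P Q : Pat L) (u v : Bool × ℤ) : Prop :=
  (u.1 = true ∧ v = (true, Q.f u.2)) ∨ (u.1 = false ∧ v = (false, P.f u.2)) ∨ (2 ≤ u.2 % (L : ℤ) ∧ v = (!u.1, u.2))

/-- connection of nodes -/
def NCp {L : ℕ} (P Q : Pat L) : Bool × ℤ → Bool × ℤ → Prop := Relation.ReflTransGen (NSt P Q)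

/-- steps between the gaps -/
def GSt {L : ℕ} (P Q : Pat L) (u v : Bool × ℤ) : Prop :=
  (u.1 = true ∧ v.1 = true ∧ Reg Q u.2 v.2) ∨ (u.1 = false ∧ v.1 = false ∧ Reg P u.2 v.2) ∨
    (v.2 = u.2 ∧ ¬ (L : ℤ) ∣ u.2 - 1)

/-- connection of gaps -/
def GC {L : ℕ} (P Q : Pat L) : Bool × ℤ → Bool × ℤ → Prop := Relation.EqvGen (GSt P Q)

/-- the event of the exact law -/
def W4 (n m : ℕ) (α : Pat (2 * n)) (ω : Finset Edge) : Prop := WL 2 2 (pup n m α ω) (plo n m α ω)

/-- the event in the plane -/
def S4 (k : ℕ) (ω : Finset Edge) : Prop :=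
  (∃ u : FKI.V, sn u = k ∧ Conn (bx k) ω (0, 0) u) ∧ (∃ u : FKI.V, sn u = k ∧ Conn (bx k) ω (1, -1) u) ∧
    ¬ Conn (bx k) ω (0, 0) (1, -1)

/-- a function of the faces of `ℤ²` as a function of the odd faces of the cylinder -/
def dz (z : FKI.V → ZMod 2) (k y : ℤ) : ZMod 2 := z ((y + k - 1) / 2, (y - k - 1) / 2)

end CY
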