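import Pool.Agent.Lib.MP_216314_pr.N.EDef
import Pool.Agent.Lib.MP_216314_pr.N.NBase
import Pool.Agent.Lib.MP_216314_pr.Cy.CyD

/-!
# Four arms from the edge `bc`

`FourV k ω` (four arms from the edge `bc = (1,-1,true)` with the ends `c = (1,-1)`, `b = (1,0)`). `fourV_le`: let `σ` be the transposition followed by the
translation by `(1,-1)`: `(x, y) ↦ (y, x) ↦ (y + 1, x - 1)`, `(0,0) ↦ (1,-1) = c`, `(1,0) ↦ (1,0) = b`, the edge `(0,0,false)` is mapped to `(1,-1,true)`, and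
`bx (k-1)` is mapped to `E' = box (2-k) k (-k) (k-2) ⊆ bx k` (`= bu (1,-1) (k-1)`). For `ω ⊆ bx k`, `FourV k ω` implies `FourS ω`: `c` is connected in `E' \ {bc}` to a vertex at
distance `sd c = k - 1` from `c`, so is `b`, and `c`, `b` are not connected in `E' \ {bc}`. (`first_hit` with the function `sd (1,-1)` (CyD): a vertex `u` with `sn u = k` has
`sd (1,-1) u ≥ k - 1`, `sd (1,-1) (1,0) = 1 ≤ k - 1`; compare `AR_of_reach`, `hit_of_reach` (CyD), with `ω` replaced by `ω ∩ (bx k \ {bc})`.) `FourS` depends on `E'` only, so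
`Pr (bx k) FourS = Pr E' FourS` (`Pr_dep`), and `Pr E' FourS = Pr (bx (k-1)) (FKN.Four (k-1)) = FKN.p4 (1/2) (k-1)` by the symmetry (`Pr_map`, `conn_map`, `cp_tr`, `cp_sh`,
`box_tr`, `box_sh`, P/PSymA..C; compare `AR_sh`, `Pr_AR` (CyD), `roE`, `cp_trans`, `RA_ro`, `Pr_RA` (CyN)) and `FKN.pr_half` (`FKN.bx r = bx r`, `FKN.nrm v = sn v` hold by `rfl`).
-/

set_option autoImplicit false

noncomputable section

namespace CY

open Finset FKI FKP

/-- four arms from the edge `bc` -/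
def FourV (k : ℕ) (ω : Finset Edge) : Prop :=
  (∃ u : FKI.V, sn u = k ∧ Conn (bx k \ {(1, -1, true)}) ω (1, -1) u) ∧
    (∃ u : FKI.V, sn u = k ∧ Conn (bx k \ {(1, -1, true)}) ω (1, 0) u) ∧
    ¬ Conn (bx k \ {(1, -1, true)}) ω (1, -1) (1, 0)

/-- four arms from the edge `bc` in the square around `c` -/
def EHv_S (m : ℕ) (ω : Finset Edge) : Prop :=
  (∃ u : FKI.V, sd (1, -1) u = m ∧ Conn (bu (1, -1) m \ {(1, -1, true)}) ω (1, -1) u) ∧
    (∃ u : FKI.V, sd (1, -1) u = m ∧ Conn (bu (1, -1) m \ {(1, -1, true)}) ω (1, 0) u) ∧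
    ¬ Conn (bu (1, -1) m \ {(1, -1, true)}) ω (1, -1) (1, 0)

theorem EHv_sub (m : ℕ) : bu (1, -1) m ⊆ bx (m + 1) := by
  unfold bu bx
  refine box_mono ?_ ?_ ?_ ?_ <;> push_cast <;> omega

theorem EHv_hit {m : ℕ} {ω : Finset Edge} {a : FKI.V} (ha : sd (1, -1) a ≤ m)
    (h : ∃ u : FKI.V, sn u = (m + 1 : ℕ) ∧ Conn (bx (m + 1) \ {(1, -1, true)}) ω a u) :
    ∃ u : FKI.V, sd (1, -1) u = m ∧ Conn (bu (1, -1) m \ {(1, -1, true)}) ω a u := by
  obtain ⟨u, hu, hc⟩ := h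
  have hb : (m : ℤ) ≤ sd (1, -1) u := by
    unfold sn at hu
    unfold sd
    push_cast at hu
    show (m : ℤ) ≤ max |u.1 - 1| |u.2 - (-1)|
    rw [le_max_iff]
    rcases max_cases |u.1| |u.2| with h3 | h3
    · left
      rcases abs_cases u.1 with h4 | h4 <;> rcases abs_cases (u.1 - 1) with h5 | h5 <;> omega
    · right
      rcases abs_cases u.2 with h4 | h4 <;> rcases abs_cases (u.2 - (-1)) with h5 | h5 <;> omega
  obtain ⟨c, hc1, -, hc3⟩ := first_hit (sd (1, -1)) (fun e _ => sd_edge (1, -1) e) ha hb hc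
  refine ⟨c, hc1, Conn.mono ?_ (Finset.Subset.refl _) hc3⟩
  intro e he
  rw [mem_filter, mem_sdiff] at he
  rw [mem_sdiff, mem_bu]
  exact ⟨he.2, he.1.2⟩

theorem EHv_imp {m : ℕ} (hm : 1 ≤ m) {ω : Finset Edge} (h : FourV (m + 1) ω) : EHv_S m ω := by
  obtain ⟨h1, h2, h3⟩ := h
  refine ⟨EHv_hit ?_ h1, EHv_hit ?_ h2, ?_⟩
  · rw [sd_self]
    exact Int.natCast_nonneg m
  · have h4 : sd (1, -1) (1, 0) = 1 := by
      unfold sd
      norm_num
    rw [h4]
    exact_mod_cast hm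
  · intro h4
    exact h3 (Conn.mono (Finset.sdiff_subset_sdiff (EHv_sub m) (Finset.Subset.refl _))
      (Finset.Subset.refl _) h4)

theorem EHv_dep (m : ℕ) : Dep (bu (1, -1) m) (EHv_S m) := by
  intro ω
  have h := fun u v : FKI.V => dep_Conn (F := bu (1, -1) m \ {(1, -1, true)})
    (E := bu (1, -1) m) Finset.sdiff_subset u v ω
  unfold EHv_S
  refine and_congr ?_ (and_congr ?_ (not_congr (h _ _)))
  · exact exists_congr fun u => and_congr_right fun _ => h _ _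
  · exact exists_congr fun u => and_congr_right fun _ => h _ _

theorem EHv_box (m : ℕ) : ((bx m).map trE.toEmbedding).map (shE 1 (-1)).toEmbedding = bu (1, -1) m := by
  unfold bx bu
  rw [box_tr, box_sh]
  congr 1 <;> ring

theorem EHv_conn (m : ℕ) (ω : Finset Edge) (u v : FKI.V) :
    Conn (bu (1, -1) m \ {(1, -1, true)}) ((ω.map trE.toEmbedding).map (shE 1 (-1)).toEmbedding)
      (u.2 + 1, u.1 + (-1)) (v.2 + 1, v.1 + (-1)) ↔ Conn (bx m \ {FKN.e0}) ω u v := by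
  have h1 := conn_map (cp_sh 1 (-1)) ((bx m \ {FKN.e0}).map trE.toEmbedding) (ω.map trE.toEmbedding)
    (trV u) (trV v)
  have h2 := conn_map cp_tr (bx m \ {FKN.e0}) ω u v
  have h3 : ((bx m \ {FKN.e0}).map trE.toEmbedding).map (shE 1 (-1)).toEmbedding =
      bu (1, -1) m \ {(1, -1, true)} := by
    rw [Finset.map_sdiff, Finset.map_sdiff, EHv_box, Finset.map_singleton, Finset.map_singleton]
    rfl
  rw [h3] at h1
  exact h1.trans h2

theorem EHv_sd (u : FKI.V) : sd (1, -1) (u.2 + 1, u.1 + (-1)) = sn u := by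
  unfold sd sn
  rw [max_comm]
  show max |u.1 + -1 - -1| |u.2 + 1 - 1| = max |u.1| |u.2|
  rw [add_sub_cancel_right, add_sub_cancel_right]

theorem EHv_iff (m : ℕ) (ω : Finset Edge) :
    EHv_S m ((ω.map trE.toEmbedding).map (shE 1 (-1)).toEmbedding) ↔ FKN.Four m ω := by
  have key : ∀ a : FKI.V, (∃ u : FKI.V, sd (1, -1) u = m ∧ Conn (bu (1, -1) m \ {(1, -1, true)})
      ((ω.map trE.toEmbedding).map (shE 1 (-1)).toEmbedding) (a.2 + 1, a.1 + (-1)) u) ↔
      ∃ u : FKI.V, sn u = m ∧ Conn (bx m \ {FKN.e0}) ω a u := by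
    intro a
    constructor
    · rintro ⟨u, h1, h2⟩
      have h3 : u = (((u.2 + 1, u.1 - 1) : FKI.V).2 + 1, ((u.2 + 1, u.1 - 1) : FKI.V).1 + (-1)) := by
        refine Prod.ext ?_ ?_
        · show u.1 = u.1 - 1 + 1
          ring
        · show u.2 = u.2 + 1 + (-1)
          ring
      refine ⟨(u.2 + 1, u.1 - 1), ?_, ?_⟩
      · rw [← EHv_sd, ← h3]
        exact h1
      · rw [← EHv_conn, ← h3]
        exact h2
    · rintro ⟨u, h1, h2⟩
      refine ⟨(u.2 + 1, u.1 + (-1)), ?_, ?_⟩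
      · rw [EHv_sd]
        exact h1
      · rw [EHv_conn]
        exact h2
  have k1 := key (0, 0)
  have k2 := key (1, 0)
  have k3 := EHv_conn m ω (0, 0) (1, 0)
  have e1 : ((((0, 0) : FKI.V).2 + 1, ((0, 0) : FKI.V).1 + (-1)) : FKI.V) = (1, -1) := by
    refine Prod.ext ?_ ?_
    · show (0 : ℤ) + 1 = 1
      norm_num
    · show (0 : ℤ) + (-1) = -1
      norm_num
  have e2 : ((((1, 0) : FKI.V).2 + 1, ((1, 0) : FKI.V).1 + (-1)) : FKI.V) = (1, 0) := by
    refine Prod.ext ?_ ?_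
    · show (0 : ℤ) + 1 = 1
      norm_num
    · show (1 : ℤ) + (-1) = 0
      norm_num
  rw [e1] at k1 k3
  rw [e2] at k2 k3
  exact and_congr k1 (and_congr k2 (not_congr k3))

theorem fourV_le {k : ℕ} (hk : 2 ≤ k) : Pr (bx k) (FourV k) ≤ FKN.p4 (1 / 2) (k - 1) := by
  obtain ⟨m, rfl⟩ : ∃ m, k = m + 1 := ⟨k - 1, by omega⟩
  have hm : 1 ≤ m := by omega
  have h1 : Pr (bx (m + 1)) (FourV (m + 1)) ≤ Pr (bx (m + 1)) (EHv_S m) :=
    Pr_mono fun ω _ h => EHv_imp hm h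
  rw [Pr_dep (EHv_sub m) (EHv_dep m), ← EHv_box, Pr_map, Pr_map] at h1
  have h2 : (fun ω : Finset Edge => EHv_S m ((ω.map trE.toEmbedding).map (shE 1 (-1)).toEmbedding)) =
      FKN.Four m := by
    funext ω
    exact propext (EHv_iff m ω)
  rw [h2] at h1
  refine h1.trans (le_of_eq ?_)
  rw [FKN.pr_half, Nat.add_sub_cancel]
  rfl

end CY
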