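import Pool.Agent.Lib.MP_216314_pr.N.FM
import Pool.Agent.Lib.MP_216314_pr.Cy.CyB

/-!
# Infinite volume: percolation probability, mean cluster size, two point function

`C0 S`: the cluster of the origin. `thetaP p = P_p(C0 is infinite)`, `chiP p = E_p |C0|`, `tauP p x = P_p(x ∈ C0)`.
-/

set_option autoImplicit false

noncomputable section

namespace FKF

open Finset FKI FKN MeasureTheory ProbabilityTheory Filter Topology
open FKP hiding bx

/-- the graph of the open edges -/
def Gr (S : Set Edge) : SimpleGraph V := SimpleGraph.fromRel (fun u v => ∃ e ∈ S, ea e = u ∧ eb e = v)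

/-- the cluster of the origin -/
def C0 (S : Set Edge) : Set V := {x | (Gr S).Reachable (0, 0) x}

/-- the percolation probability -/
def thetaP (p : unitInterval) : ℝ := (perc p).real {S | (C0 S).Infinite}

/-- the mean size of the cluster of the origin -/
def chiP (p : unitInterval) : ENNReal := ∫⁻ S, ((C0 S).encard : ENNReal) ∂(perc p)

/-- the two point function -/
def tauP (p : unitInterval) (x : V) : ℝ := (perc p).real {S | x ∈ C0 S}

theorem FI_edge (e : Edge) : ∃ n : ℕ, e ∈ bx n := by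
  obtain ⟨x, y, t⟩ := e
  refine ⟨x.natAbs + y.natAbs + 1, ?_⟩
  unfold bx
  rw [mem_box]
  cases t
  · left
    refine ⟨rfl, ?_⟩
    simp only
    omega
  · right
    refine ⟨rfl, ?_⟩
    simp only
    omega

theorem FI_bx {k n : ℕ} (h : k ≤ n) : bx k ⊆ bx n := by
  unfold bx
  exact box_mono (by omega) (by omega) (by omega) (by omega)

theorem FI_tra {k n : ℕ} (h : k ≤ n) (S : Set Edge) : tra (bx k) S ⊆ tra (bx n) S := by
  intro e he
  rw [mem_tra] at he ⊢
  exact ⟨FI_bx h he.1, he.2⟩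

theorem FI_mono {k n : ℕ} (h : k ≤ n) {S : Set Edge} {u v : V} (hc : Conn (bx k) (tra (bx k) S) u v) :
    Conn (bx n) (tra (bx n) S) u v := hc.mono (FI_bx h) (FI_tra h S)

theorem FI_adj {S : Set Edge} {u v : V} : (Gr S).Adj u v ↔
    u ≠ v ∧ ((∃ e ∈ S, ea e = u ∧ eb e = v) ∨ (∃ e ∈ S, ea e = v ∧ eb e = u)) := by
  unfold Gr
  rw [SimpleGraph.fromRel_adj]

theorem FI_step {S : Set Edge} {u v : V} (h : (Gr S).Adj u v) : ∃ n, Conn (bx n) (tra (bx n) S) u v := by
  rw [FI_adj] at h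
  obtain ⟨h0, h | h⟩ := h
  · obtain ⟨e, he, h1, h2⟩ := h
    obtain ⟨n, hn⟩ := FI_edge e
    refine ⟨n, SimpleGraph.Adj.reachable ?_⟩
    unfold gr
    rw [SimpleGraph.fromRel_adj]
    exact ⟨h0, Or.inl ⟨e, Finset.mem_inter.2 ⟨mem_tra.2 ⟨hn, he⟩, hn⟩, h1, h2⟩⟩
  · obtain ⟨e, he, h1, h2⟩ := h
    obtain ⟨n, hn⟩ := FI_edge e
    refine ⟨n, SimpleGraph.Adj.reachable ?_⟩
    unfold gr
    rw [SimpleGraph.fromRel_adj]
    exact ⟨h0, Or.inr ⟨e, Finset.mem_inter.2 ⟨mem_tra.2 ⟨hn, he⟩, hn⟩, h1, h2⟩⟩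

theorem FI_of_reach {ω : Finset Edge} {S : Set Edge} (h : ∀ e ∈ ω, e ∈ S) {u v : V}
    (hr : (gr ω).Reachable u v) : (Gr S).Reachable u v := by
  refine SimpleGraph.Reachable.mono ?_ hr
  intro a b hab
  unfold gr at hab
  rw [SimpleGraph.fromRel_adj] at hab
  rw [FI_adj]
  refine ⟨hab.1, ?_⟩
  rcases hab.2 with ⟨e, he, h1⟩ | ⟨e, he, h1⟩
  · exact Or.inl ⟨e, h e he, h1⟩
  · exact Or.inr ⟨e, h e he, h1⟩

theorem reach_iff (S : Set Edge) (u v : V) :
    (Gr S).Reachable u v ↔ ∃ n, Conn (bx n) (tra (bx n) S) u v := by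
  constructor
  · rintro ⟨w⟩
    induction w with
    | nil => exact ⟨0, Conn.refl _ _ _⟩
    | cons hadj _ ih =>
      obtain ⟨n, hn⟩ := ih
      obtain ⟨m, hm⟩ := FI_step hadj
      exact ⟨max m n, (FI_mono (le_max_left m n) hm).trans (FI_mono (le_max_right m n) hn)⟩
  · rintro ⟨n, hn⟩
    exact FI_of_reach (fun e he => (mem_tra.1 (Finset.mem_inter.1 he).1).2) hn

theorem FI_nrm {v : V} {n : ℕ} : (n : ℤ) ≤ nrm v ↔ (n : ℤ) ≤ |v.1| ∨ (n : ℤ) ≤ |v.2| := le_max_iff

theorem FI_One {n : ℕ} {ω : Finset Edge} : SA n ω → One n ω := by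
  rintro ⟨v, hv, hc⟩
  have h0 : FKP.bx n = bx n := rfl
  by_cases h : nrm v ≤ n
  · refine ⟨v, le_antisymm h ?_, hc⟩
    rw [FI_nrm]
    rcases hv with h1 | h1 | h1 | h1
    · left; rw [h1]; exact le_abs_self _
    · left; rw [h1, abs_neg]; exact le_abs_self _
    · right; rw [h1]; exact le_abs_self _
    · right; rw [h1, abs_neg]; exact le_abs_self _
  · push Not at h
    have h1 : nrm (0, 0) ≤ (n : ℤ) := by
      unfold nrm
      simp
    obtain ⟨c, hc1, _, hc3⟩ := first_hit (F := bx n) (ω := ω) nrm (fun e _ => sn_edge e) h1 h.le hc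
    exact ⟨c, hc1, hc3.mono (Finset.filter_subset _ _) (Finset.Subset.refl _)⟩

theorem FI_inf (S : Set Edge) : (C0 S).Infinite ↔ ∀ n, One n (tra (bx n) S) := by
  constructor
  · intro h n
    have h1 : ∃ x ∈ C0 S, (n : ℤ) ≤ nrm x := by
      by_contra hno
      push Not at hno
      refine h (Set.Finite.subset (s := ((Finset.Icc (-(n : ℤ)) n ×ˢ Finset.Icc (-(n : ℤ)) n : Finset V) : Set V))
        (Finset.finite_toSet _) ?_)
      intro x hx
      have h2 := hno x hx
      have h3 : |x.1| < n := lt_of_le_of_lt (le_max_left _ _) h2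
      have h4 : |x.2| < n := lt_of_le_of_lt (le_max_right _ _) h2
      rw [abs_lt] at h3 h4
      rw [Finset.mem_coe, Finset.mem_product, Finset.mem_Icc, Finset.mem_Icc]
      exact ⟨⟨by omega, by omega⟩, ⟨by omega, by omega⟩⟩
    obtain ⟨x, hx, hn⟩ := h1
    obtain ⟨m, hm⟩ := (reach_iff S _ _).1 hx
    have h2 : SA n (tra (bx m) S) := SA_of_reach hm.reach (FI_nrm.1 hn)
    have h3 : One n (tra (bx m) S) := FI_One h2
    obtain ⟨u, hu, hc⟩ := h3
    refine ⟨u, hu, ?_⟩
    unfold Conn at hc ⊢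
    refine SimpleGraph.Reachable.mono (gr_mono ?_) hc
    intro e he
    rw [Finset.mem_inter, mem_tra] at he ⊢
    exact ⟨⟨he.2, he.1.2⟩, he.2⟩
  · intro h hfin
    have h1 : ∀ n : ℕ, ∃ x ∈ C0 S, nrm x = n := by
      intro n
      obtain ⟨u, hu, hc⟩ := h n
      exact ⟨u, (reach_iff S _ _).2 ⟨n, hc⟩, hu⟩
    have h2 : (Set.range (fun n : ℕ => (n : ℤ))).Finite := by
      refine (hfin.image nrm).subset ?_
      rintro _ ⟨n, rfl⟩
      obtain ⟨x, hx, hn⟩ := h1 n
      exact ⟨x, hx, hn⟩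
    exact Set.infinite_range_of_injective (fun a b hab => by exact_mod_cast hab) h2

theorem One_anti {k n : ℕ} (h : k ≤ n) {S : Set Edge} (hO : One n (tra (bx n) S)) :
    One k (tra (bx k) S) := by
  obtain ⟨u, hu, hc⟩ := hO
  have h2 : SA k (tra (bx n) S) := by
    refine SA_of_reach hc.reach (FI_nrm.1 ?_)
    rw [hu]
    exact_mod_cast h
  obtain ⟨u, hu, hc⟩ := FI_One h2
  refine ⟨u, hu, ?_⟩
  unfold Conn at hc ⊢
  refine SimpleGraph.Reachable.mono (gr_mono ?_) hc
  intro e he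
  rw [Finset.mem_inter, mem_tra] at he ⊢
  exact ⟨⟨he.2, he.1.2⟩, he.2⟩

theorem perc_One (p : unitInterval) (n : ℕ) : (perc p).real {S | One n (tra (bx n) S)} = p1 p n :=
  perc_tra p (bx n) (One n)

theorem p1_anti (p : unitInterval) : Antitone (fun n => p1 p n) := by
  intro k n h
  show p1 p n ≤ p1 p k
  rw [← perc_One, ← perc_One]
  exact measureReal_mono (fun S hS => One_anti h hS) (measure_ne_top _ _)

/-- the percolation probability is the limit of the one arm probabilities -/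
theorem theta_tendsto (p : unitInterval) : Tendsto (fun n => p1 p n) atTop (𝓝 (thetaP p)) := by
  have h1 : {S : Set Edge | (C0 S).Infinite} = ⋂ n, {S | One n (tra (bx n) S)} := by
    ext S
    rw [Set.mem_iInter]
    exact FI_inf S
  have h2 : Tendsto (fun n => perc p {S | One n (tra (bx n) S)}) atTop
      (𝓝 (perc p (⋂ n, {S | One n (tra (bx n) S)}))) := by
    refine tendsto_measure_iInter_atTop (fun n => (meas_tra (bx n) (One n)).nullMeasurableSet) ?_
      ⟨0, measure_ne_top _ _⟩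
    intro k n h S hS
    exact One_anti h hS
  unfold thetaP
  rw [h1]
  have h3 := (ENNReal.tendsto_toReal (measure_ne_top (perc p) (⋂ n, {S | One n (tra (bx n) S)}))).comp h2
  refine h3.congr fun n => ?_
  exact perc_One p n

theorem theta_inf (p : unitInterval) : thetaP p = ⨅ n, p1 p n :=
  tendsto_nhds_unique (theta_tendsto p) (tendsto_atTop_ciInf (p1_anti p)
    ⟨0, by rintro _ ⟨n, rfl⟩; exact IPC.Pr_nonneg p.2.1 p.2.2 _ _⟩)

theorem tau_union (x : V) : {S : Set Edge | x ∈ C0 S} = ⋃ n, {S | Conn (bx n) (tra (bx n) S) (0, 0) x} := by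
  ext S
  rw [Set.mem_iUnion]
  exact reach_iff S _ _

theorem meas_tau (x : V) : MeasurableSet {S : Set Edge | x ∈ C0 S} := by
  rw [tau_union]
  exact MeasurableSet.iUnion fun n => meas_tra (bx n) (fun ω => Conn (bx n) ω (0, 0) x)

theorem tau_tendsto (p : unitInterval) (x : V) :
    Tendsto (fun n => IPC.Pr p (bx n) (fun ω => Conn (bx n) ω (0, 0) x)) atTop (𝓝 (tauP p x)) := by
  have h2 : Tendsto (fun n => perc p {S | Conn (bx n) (tra (bx n) S) (0, 0) x}) atTop
      (𝓝 (perc p (⋃ n, {S | Conn (bx n) (tra (bx n) S) (0, 0) x}))) := by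
    refine tendsto_measure_iUnion_atTop ?_
    intro k n h S hS
    exact FI_mono h hS
  unfold tauP
  rw [tau_union]
  have h3 := (ENNReal.tendsto_toReal (measure_ne_top (perc p) _)).comp h2
  refine h3.congr fun n => ?_
  exact perc_tra p (bx n) (fun ω => Conn (bx n) ω (0, 0) x)

theorem tau_mono (p : unitInterval) (x : V) :
    Monotone (fun n => IPC.Pr p (bx n) (fun ω => Conn (bx n) ω (0, 0) x)) := by
  intro k n h
  show IPC.Pr p (bx k) (fun ω => Conn (bx k) ω (0, 0) x) ≤ IPC.Pr p (bx n) (fun ω => Conn (bx n) ω (0, 0) x)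
  rw [← perc_tra, ← perc_tra]
  exact measureReal_mono (fun S hS => FI_mono h hS) (measure_ne_top _ _)

theorem tau_sup (p : unitInterval) (x : V) :
    tauP p x = ⨆ n, IPC.Pr p (bx n) (fun ω => Conn (bx n) ω (0, 0) x) :=
  tendsto_nhds_unique (tau_tendsto p x) (tendsto_atTop_ciSup (tau_mono p x)
    ⟨1, by rintro _ ⟨n, rfl⟩; exact IPC.Pr_le_one p.2.1 p.2.2 _ _⟩)

/-- the mean cluster size is the sum of the two point function -/
theorem chi_sum (p : unitInterval) : chiP p = ∑' x : V, ENNReal.ofReal (tauP p x) := by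
  have h1 : ∀ S : Set Edge, ((C0 S).encard : ENNReal) =
      ∑' x : V, {S : Set Edge | x ∈ C0 S}.indicator (fun _ => (1 : ENNReal)) S := by
    intro S
    rw [← ENNReal.tsum_set_one, tsum_subtype (C0 S) (fun _ => (1 : ENNReal))]
    refine tsum_congr fun x => ?_
    by_cases hx : x ∈ C0 S
    · rw [Set.indicator_of_mem hx, Set.indicator_of_mem (show S ∈ {S : Set Edge | x ∈ C0 S} from hx)]
    · rw [Set.indicator_of_notMem hx, Set.indicator_of_notMem (show S ∉ {S : Set Edge | x ∈ C0 S} from hx)]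
  unfold chiP
  rw [lintegral_congr h1, lintegral_tsum]
  · refine tsum_congr fun x => ?_
    rw [lintegral_indicator (meas_tau x), lintegral_const, Measure.restrict_apply MeasurableSet.univ,
      Set.univ_inter, one_mul]
    unfold tauP
    exact (ofReal_measureReal (measure_ne_top _ _)).symm
  · intro x
    exact (measurable_const.indicator (meas_tau x)).aemeasurable

end FKF
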