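import Mathlib
import Pool.Agent.Lib.MP_216314_pr.N.NDef

/-!
# Bond percolation on the whole square lattice

`perc p`: the law of the set of open edges of `ℤ²` when every edge is open with probability `p`, independently (Mathlib's
`ProbabilityTheory.setBernoulli`). `tra E S`: the edges of the finite set `E` which are in `S`. `perc_tra`: events which depend only on
the edges of `E` have the probability `IPC.Pr p E`.
-/

set_option autoImplicit false

noncomputable section

namespace FKF

open Finset FKI FKN MeasureTheory ProbabilityTheory
open FKP

/-- bond percolation on `ℤ²`: every edge is open with probability `p`, independently -/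
def perc (p : unitInterval) : Measure (Set Edge) := setBernoulli Set.univ p

instance (p : unitInterval) : IsProbabilityMeasure (perc p) := by
  unfold perc
  infer_instance

open Classical in
/-- the edges of `E` which belong to `S` -/
def tra (E : Finset Edge) (S : Set Edge) : Finset Edge := E.filter (fun e => e ∈ S)

theorem mem_tra {E : Finset Edge} {S : Set Edge} {e : Edge} : e ∈ tra E S ↔ e ∈ E ∧ e ∈ S := by
  classical
  exact Finset.mem_filter

theorem tra_subset (E : Finset Edge) (S : Set Edge) : tra E S ⊆ E := fun _ he => (mem_tra.1 he).1

theorem tra_inter {E F : Finset Edge} (h : F ⊆ E) (S : Set Edge) : tra E S ∩ F = tra F S := by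
  ext e
  rw [Finset.mem_inter, mem_tra, mem_tra]
  exact ⟨fun h1 => ⟨h1.2, h1.1.2⟩, fun h1 => ⟨⟨h h1.1, h1.2⟩, h1.1⟩⟩

theorem perc_eq (p : unitInterval) {E T : Finset Edge} (hT : T ⊆ E) :
    perc p {S | tra E S = T} =
      (unitInterval.toNNReal p : ENNReal) ^ T.card * (unitInterval.toNNReal (unitInterval.symm p) : ENNReal) ^ (E \ T).card := by
  classical
  unfold perc
  rw [setBernoulli_apply']
  have h1 : (fun P : Edge → Prop => {i | P i}) ⁻¹' {S | tra E S = T} =
      Set.pi (E : Set Edge) (fun i => if i ∈ T then {True} else {False}) := by
    ext P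
    rw [Set.mem_preimage, Set.mem_ofPred_eq, Set.mem_pi]
    constructor
    · intro h i hi
      by_cases hiT : i ∈ T
      · rw [if_pos hiT, Set.mem_singleton_iff]
        rw [← h, mem_tra] at hiT
        exact eq_true hiT.2
      · rw [if_neg hiT, Set.mem_singleton_iff]
        rw [← h, mem_tra] at hiT
        exact eq_false fun h2 => hiT ⟨hi, h2⟩
    · intro h
      ext e
      rw [mem_tra]
      constructor
      · rintro ⟨h2, h3⟩
        by_contra h4
        have h5 := h e h2
        rw [if_neg h4, Set.mem_singleton_iff] at h5
        have h6 : P e := h3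
        rw [h5] at h6
        exact h6
      · intro h2
        have h5 := h e (hT h2)
        rw [if_pos h2, Set.mem_singleton_iff] at h5
        refine ⟨hT h2, ?_⟩
        show P e
        rw [h5]
        trivial
  rw [h1, Measure.infinitePi_pi]
  · have h2 : ∀ i ∈ E, ((unitInterval.toNNReal p • Measure.dirac (i ∈ (Set.univ : Set Edge)) +
        unitInterval.toNNReal (unitInterval.symm p) • Measure.dirac False : Measure Prop)
        (if i ∈ T then {True} else {False})) =
        (if i ∈ T then (unitInterval.toNNReal p : ENNReal) else (unitInterval.toNNReal (unitInterval.symm p) : ENNReal)) := by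
      intro i _
      by_cases hi : i ∈ T
      · rw [if_pos hi, if_pos hi]
        simp
      · rw [if_neg hi, if_neg hi]
        simp
    rw [Finset.prod_congr rfl h2, Finset.prod_ite, Finset.prod_const, Finset.prod_const]
    congr 3
    · rw [Finset.filter_mem_eq_inter, Finset.inter_eq_right.2 hT]
    · ext e
      simp
  · intro i _
    split_ifs <;> exact measurableSet_singleton _

theorem meas_eq (E T : Finset Edge) : MeasurableSet {S : Set Edge | tra E S = T} := by
  by_cases hT : T ⊆ E
  · have h1 : {S : Set Edge | tra E S = T} = ⋂ e ∈ E, {S : Set Edge | e ∈ S ↔ e ∈ T} := by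
      ext S
      rw [Set.mem_iInter₂]
      constructor
      · intro h e he
        have h2 : tra E S = T := h
        show e ∈ S ↔ e ∈ T
        rw [← h2, mem_tra]
        exact ⟨fun h3 => ⟨he, h3⟩, fun h3 => h3.2⟩
      · intro h
        show tra E S = T
        ext e
        rw [mem_tra]
        constructor
        · rintro ⟨h2, h3⟩
          exact (h e h2).1 h3
        · intro h2
          exact ⟨hT h2, (h e (hT h2)).2 h2⟩
    rw [h1]
    refine Finset.measurableSet_biInter _ fun e _ => ?_
    by_cases he : e ∈ T
    · have h2 : {S : Set Edge | e ∈ S ↔ e ∈ T} = {S : Set Edge | e ∈ S} := by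
        ext S
        exact ⟨fun h => h.2 he, fun h => ⟨fun _ => he, fun _ => h⟩⟩
      rw [h2]
      exact measurableSet_mem e
    · have h2 : {S : Set Edge | e ∈ S ↔ e ∈ T} = {S : Set Edge | e ∉ S} := by
        ext S
        exact ⟨fun h h3 => he (h.1 h3), fun h => ⟨fun h3 => absurd h3 h, fun h3 => absurd h3 he⟩⟩
      rw [h2]
      exact (measurableSet_mem e).compl
  · have h1 : {S : Set Edge | tra E S = T} = ∅ := by
      ext S
      constructor
      · intro h
        have h2 : tra E S = T := h
        exact hT (h2 ▸ tra_subset E S)
      · intro h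
        exact absurd h (Set.notMem_empty _)
    rw [h1]
    exact MeasurableSet.empty

open Classical in
theorem tra_union (E : Finset Edge) (A : Finset Edge → Prop) :
    {S : Set Edge | A (tra E S)} = ⋃ T ∈ E.powerset.filter A, {S : Set Edge | tra E S = T} := by
  ext S
  rw [Set.mem_iUnion₂]
  constructor
  · intro h
    exact ⟨tra E S, Finset.mem_filter.2 ⟨Finset.mem_powerset.2 (tra_subset E S), h⟩, rfl⟩
  · rintro ⟨T, hT, h⟩
    have h2 : tra E S = T := h
    show A (tra E S)
    rw [h2]
    exact (Finset.mem_filter.1 hT).2

theorem meas_tra (E : Finset Edge) (A : Finset Edge → Prop) :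
    MeasurableSet {S : Set Edge | A (tra E S)} := by
  classical
  rw [tra_union]
  exact Finset.measurableSet_biUnion _ fun T _ => meas_eq E T

/-- events which depend only on the edges of `E` -/
theorem perc_tra (p : unitInterval) (E : Finset Edge) (A : Finset Edge → Prop) :
    (perc p).real {S | A (tra E S)} = IPC.Pr p E A := by
  classical
  rw [tra_union, measureReal_biUnion_finset]
  · unfold IPC.Pr IPC.EE IPC.ind
    rw [Finset.sum_filter]
    refine Finset.sum_congr rfl fun T hT => ?_
    dsimp only
    by_cases hA : A T
    · rw [if_pos hA, if_pos hA, mul_one, measureReal_def, perc_eq p (Finset.mem_powerset.1 hT)]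
      rw [ENNReal.toReal_mul, ENNReal.toReal_pow, ENNReal.toReal_pow]
      rfl
    · rw [if_neg hA, if_neg hA, mul_zero]
  · intro T _ T' _ hne
    rw [Function.onFun, Set.disjoint_left]
    intro S h1 h2
    have h3 : tra E S = T := h1
    have h4 : tra E S = T' := h2
    exact hne (h3.symm.trans h4)
  · intro T _
    exact meas_eq E T

end FKF
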