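import Pool.Agent.Lib.MP_216314_pr.N.FW
import Pool.Agent.Lib.MP_216314_pr.Cy.CyMain

/-!
# The tail of the size of the critical cluster of the origin, in the whole plane
-/

set_option autoImplicit false

noncomputable section

namespace FKF

open Finset FKI FKN MeasureTheory ProbabilityTheory Filter Topology
open FKP hiding bx an

theorem FT_mono {k n : ℕ} (h : k ≤ n) (S : Set Edge) : cs0 k (tra (bx k) S) ≤ cs0 n (tra (bx n) S) := by
  classical
  unfold cs0
  refine Finset.card_le_card ?_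
  intro v hv
  rw [Finset.mem_filter] at hv ⊢
  refine ⟨?_, FI_mono h hv.2⟩
  have h1 := hv.1
  rw [mem_vx] at h1 ⊢
  have h2 : (k : ℤ) ≤ n := by exact_mod_cast h
  exact h1.trans h2

theorem FT_union (N : ℕ) : {S : Set Edge | (N : ℕ∞) ≤ (C0 S).encard} = ⋃ n, {S | N ≤ cs0 n (tra (bx n) S)} := by
  classical
  ext S
  rw [Set.mem_iUnion]
  constructor
  · intro h
    obtain ⟨t, ht, htc⟩ := Set.exists_subset_encard_eq (s := C0 S) (k := (N : ℕ∞)) h
    have hfin : t.Finite := Set.finite_of_encard_eq_coe htc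
    have h1 : ∀ v ∈ hfin.toFinset, ∃ n : ℕ, Conn (bx n) (tra (bx n) S) (0, 0) v ∧ v ∈ vx n := by
      intro v hv
      obtain ⟨n, hn⟩ := (reach_iff S (0, 0) v).1 (ht (hfin.mem_toFinset.1 hv))
      refine ⟨max n (sd (0, 0) v).toNat, FI_mono (le_max_left _ _) hn, ?_⟩
      rw [mem_vx]
      have := le_max_right n (sd (0, 0) v).toNat
      have h3 : sd (0, 0) v ≤ ((sd (0, 0) v).toNat : ℤ) := Int.self_le_toNat _
      have h4 : ((sd (0, 0) v).toNat : ℤ) ≤ ((max n (sd (0, 0) v).toNat : ℕ) : ℤ) := by exact_mod_cast this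
      exact h3.trans h4
    choose! f hf using h1
    refine ⟨hfin.toFinset.sup f, ?_⟩
    show N ≤ cs0 _ _
    have h2 : hfin.toFinset.card = N := by
      have h6 : t.encard = (hfin.toFinset.card : ℕ∞) := by
        rw [Set.Finite.encard_eq_coe_toFinset_card hfin]
      rw [htc] at h6
      exact_mod_cast h6.symm
    rw [← h2]
    unfold cs0
    refine Finset.card_le_card ?_
    intro v hv
    rw [Finset.mem_filter]
    have h5 : f v ≤ hfin.toFinset.sup f := Finset.le_sup (f := f) hv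
    refine ⟨?_, FI_mono h5 (hf v hv).1⟩
    have h6 := (hf v hv).2
    rw [mem_vx] at h6 ⊢
    have h7 : ((f v : ℕ) : ℤ) ≤ ((hfin.toFinset.sup f : ℕ) : ℤ) := by exact_mod_cast h5
    exact h6.trans h7
  · rintro ⟨n, hn⟩
    have h1 : N ≤ cs0 n (tra (bx n) S) := hn
    show (N : ℕ∞) ≤ (C0 S).encard
    unfold cs0 at h1
    have h2 : (((vx n).filter (fun v => Conn (bx n) (tra (bx n) S) (0, 0) v) : Finset V) : Set V) ⊆ C0 S := by
      intro v hv
      rw [Finset.mem_coe, Finset.mem_filter] at hv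
      exact (reach_iff S (0, 0) v).2 ⟨n, hv.2⟩
    have h3 := Set.encard_le_encard h2
    rw [Set.encard_coe_eq_coe_finsetCard] at h3
    refine le_trans ?_ h3
    exact_mod_cast h1

theorem FT_tendsto (p : unitInterval) (N : ℕ) :
    Tendsto (fun n => IPC.Pr p (bx n) (fun ω => N ≤ cs0 n ω)) atTop
      (𝓝 ((perc p).real {S : Set Edge | (N : ℕ∞) ≤ (C0 S).encard})) := by
  have h2 : Tendsto (fun n => perc p {S | N ≤ cs0 n (tra (bx n) S)}) atTop
      (𝓝 (perc p (⋃ n, {S | N ≤ cs0 n (tra (bx n) S)}))) := by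
    refine tendsto_measure_iUnion_atTop ?_
    intro k n h S hS
    exact le_trans (show N ≤ cs0 k (tra (bx k) S) from hS) (FT_mono h S)
  rw [FT_union]
  have h3 := (ENNReal.tendsto_toReal (measure_ne_top (perc p) _)).comp h2
  refine h3.congr fun n => ?_
  exact perc_tra p (bx n) (fun ω => N ≤ cs0 n ω)

/-- **The tail of the critical cluster size** -/
theorem tail_main (h : OneArm) : ∃ c C : ℝ, 0 < c ∧ 0 < C ∧ ∀ (p : unitInterval) (N : ℕ), (p : ℝ) = 1 / 2 → 1 ≤ N →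
    c * (N : ℝ) ^ (-(5 / 91) : ℝ) ≤ (perc p).real {S : Set Edge | (N : ℕ∞) ≤ (C0 S).encard} ∧
    (perc p).real {S : Set Edge | (N : ℕ∞) ≤ (C0 S).encard} ≤ C * (N : ℝ) ^ (-(5 / 91) : ℝ) := by
  obtain ⟨c, C, hc, hC, hb⟩ := tail h
  refine ⟨c, C, hc, hC, fun p N hp hN => ?_⟩
  have h1 : ∀ n : ℕ, N ≤ n → c * (N : ℝ) ^ (-(5 / 91) : ℝ) ≤ IPC.Pr p (bx n) (fun ω => N ≤ cs0 n ω) ∧
      IPC.Pr p (bx n) (fun ω => N ≤ cs0 n ω) ≤ C * (N : ℝ) ^ (-(5 / 91) : ℝ) := by
    intro n hn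
    have h2 := hb N n hN hn
    rw [pr_half] at h2
    rw [hp]
    exact h2
  constructor
  · exact ge_of_tendsto (FT_tendsto p N) (eventually_atTop.2 ⟨N, fun n hn => (h1 n hn).1⟩)
  · exact le_of_tendsto (FT_tendsto p N) (eventually_atTop.2 ⟨N, fun n hn => (h1 n hn).2⟩)

end FKF
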