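import Pool.Agent.Lib.MP_216314_pr.N.FX4b

/-!
# The near critical window: interface

`Win`: for `0 < s ≤ s0` there is a scale `M s` of order `s^(-4/3)` such that at the parameters `1/2 ± s` and up to the scale `M s` the squares are
crossed with probability in `[ε, 1-ε]` and the one arm probability is comparable with the critical one; at the parameter `1/2 + s` and the scale
`A M s` the long crossings have probability close to `1`.
-/

set_option autoImplicit false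

noncomputable section

namespace FKF

open Finset FKI FKN
open FKP hiding bx an

/-- the near critical window -/
def Win : Prop := ∃ (s0 ε c C : ℝ) (M : ℝ → ℕ), 0 < s0 ∧ s0 ≤ 1 / 4 ∧ 0 < ε ∧ 0 < c ∧ 0 < C ∧
  (∀ s : ℝ, 0 < s → s ≤ s0 →
    (c * s ^ (-(4 / 3) : ℝ) ≤ M s ∧ (M s : ℝ) ≤ C * s ^ (-(4 / 3) : ℝ)) ∧
    (RS ε (1 / 2 + s) (M s) ∧ RS ε (1 / 2 - s) (M s)) ∧
    (∀ n : ℕ, 1 ≤ n → n ≤ M s → p1 (1 / 2 + s) n ≤ C * p1 (1 / 2) n ∧ c * p1 (1 / 2) n ≤ p1 (1 / 2 - s) n)) ∧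
  (∀ δ : ℝ, 0 < δ → ∃ A : ℕ, 1 ≤ A ∧ ∀ s : ℝ, 0 < s → s ≤ s0 → gf (1 / 2 + s) (A * M s) ≤ δ)

/-- the one arm exponent at `1/2` -/
def One12 : Prop := ∃ c C : ℝ, 0 < c ∧ 0 < C ∧ ∀ n : ℕ, 1 ≤ n →
  c * (n : ℝ) ^ (-(5 / 48) : ℝ) ≤ p1 (1 / 2) n ∧ p1 (1 / 2) n ≤ C * (n : ℝ) ^ (-(5 / 48) : ℝ)

theorem theta_mono {p q : unitInterval} (h : (p : ℝ) ≤ q) : thetaP p ≤ thetaP q :=
  le_of_tendsto_of_tendsto (theta_tendsto p) (theta_tendsto q)
    (Filter.Eventually.of_forall fun n => p1_mono_q p.2.1 h q.2.2 n)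

theorem tau_mono_p {p q : unitInterval} (h : (p : ℝ) ≤ q) (x : V) : tauP p x ≤ tauP q x :=
  le_of_tendsto_of_tendsto (tau_tendsto p x) (tau_tendsto q x)
    (Filter.Eventually.of_forall fun n => pq_mono_q p.2.1 h q.2.2 _ (inc_Conn _ _ _))

theorem chi_mono {p q : unitInterval} (h : (p : ℝ) ≤ q) : chiP p ≤ chiP q := by
  rw [chi_sum, chi_sum]
  exact ENNReal.tsum_le_tsum fun x => ENNReal.ofReal_le_ofReal (tau_mono_p h x)

theorem tau_zero (p : unitInterval) : tauP p (0, 0) = 1 := by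
  have h1 : {S : Set Edge | ((0, 0) : V) ∈ C0 S} = Set.univ := by
    ext S
    exact ⟨fun _ => trivial, fun _ => SimpleGraph.Reachable.refl _⟩
  unfold tauP
  rw [h1, MeasureTheory.probReal_univ]

theorem one_le_chi (p : unitInterval) : 1 ≤ chiP p := by
  rw [chi_sum]
  have h1 := ENNReal.le_tsum (f := fun x : V => ENNReal.ofReal (tauP p x)) (0, 0)
  rw [tau_zero, ENNReal.ofReal_one] at h1
  exact h1

theorem theta_le (p : unitInterval) (n : ℕ) : thetaP p ≤ p1 p n := by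
  rw [theta_inf]
  exact ciInf_le ⟨0, by rintro _ ⟨m, rfl⟩; exact IPC.Pr_nonneg p.2.1 p.2.2 _ _⟩ n

theorem le_theta {p : unitInterval} {a : ℝ} (h : ∀ n, a ≤ p1 p n) : a ≤ thetaP p := by
  rw [theta_inf]
  exact le_ciInf h

/-- scaling of powers -/
theorem rpow_scale {s a x y : ℝ} (hs : 0 < s) (ha : 0 < a) : (a * s ^ x) ^ y = a ^ y * s ^ (x * y) := by
  rw [Real.mul_rpow ha.le (Real.rpow_nonneg hs.le _), ← Real.rpow_mul hs.le]

/-- the scale is large if `s` is small -/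
theorem scale_large {c : ℝ} (hc : 0 < c) (K : ℝ) : ∃ s1 : ℝ, 0 < s1 ∧ ∀ s : ℝ, 0 < s → s ≤ s1 → K ≤ c * s ^ (-(4 / 3) : ℝ) := by
  refine ⟨(max K 1 / c) ^ (-(3 / 4) : ℝ), Real.rpow_pos_of_pos (by positivity) _, fun s hs h => ?_⟩
  have h1 : ((max K 1 / c) ^ (-(3 / 4) : ℝ)) ^ (-(4 / 3) : ℝ) ≤ s ^ (-(4 / 3) : ℝ) :=
    Real.rpow_le_rpow_of_nonpos hs h (by norm_num)
  rw [← Real.rpow_mul (by positivity)] at h1
  norm_num at h1
  rw [div_le_iff₀ hc] at h1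
  have h2 := le_max_left K 1
  linarith

end FKF
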