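import Pool.Agent.Lib.MP_216314_pr.N.GB
import Pool.Agent.Lib.MP_216314_pr.N.NBase
import Pool.Agent.Lib.MP_216314_pr.Cy.CyE

/-!
# Arms, rings and the two point function at the parameter `q`

The geometric lemmas of `Cy/CyB`, `Cy/CyD`, `Cy/CyE` with the measure `IPC.Pr q`.
-/

set_option autoImplicit false

noncomputable section

namespace FKF

open Finset FKI FKN
open FKP hiding bx

theorem bx_eq (n : ℕ) : FKP.bx n = FKN.bx n := rfl

theorem nrm_sd (v : V) : nrm v = sd (0, 0) v := by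
  unfold nrm sd
  simp

/-- the two forms of the one arm event -/
theorem One_SA (n : ℕ) (ω : Finset Edge) : One n ω ↔ SA n ω := by
  constructor
  · rintro ⟨u, hu, hc⟩
    refine SA_of_reach hc.reach ?_
    rw [← le_max_iff]
    exact hu.ge
  · rintro ⟨v, hv, hc⟩
    have h1 : (n : ℤ) ≤ sd (0, 0) v := by
      rw [← nrm_sd]
      refine le_max_iff.2 ?_
      rcases hv with h1 | h1 | h1 | h1
      · left; rw [h1]; exact le_abs_self _
      · left; rw [h1, abs_neg]; exact le_abs_self _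
      · right; rw [h1]; exact le_abs_self _
      · right; rw [h1, abs_neg]; exact le_abs_self _
    obtain ⟨c, hc1, hc2⟩ := AR_of_reach hc.reach h1
    rw [bu_zero] at hc2
    exact ⟨c, by rw [nrm_sd]; exact hc1, hc2⟩

theorem p1_SA (q : ℝ) (n : ℕ) : p1 q n = IPC.Pr q (FKP.bx n) (SA n) := by
  unfold p1
  have h1 : One n = SA n := by
    funext ω
    exact propext (One_SA n ω)
  rw [h1]
  rfl

/-- at `q = 1/2` -/
theorem p1_half (n : ℕ) : p1 (1 / 2) n = pi1 n := by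
  rw [p1_SA]
  exact (pr_half _ _).symm

theorem p1_bd {q : ℝ} (h0 : 0 ≤ q) (h1 : q ≤ 1) (n : ℕ) : 0 ≤ p1 q n ∧ p1 q n ≤ 1 :=
  ⟨pq_nonneg h0 h1 _ _, pq_le_one h0 h1 _ _⟩

theorem p1_mono_q {q q' : ℝ} (h0 : 0 ≤ q) (h : q ≤ q') (h1 : q' ≤ 1) (n : ℕ) : p1 q n ≤ p1 q' n := by
  rw [p1_SA, p1_SA]
  exact pq_mono_q h0 h h1 _ (inc_SA n)

theorem pq_AR (q : ℝ) {u : V} {m : ℕ} {E : Finset Edge} (hE : bu u m ⊆ E) : IPC.Pr q E (AR u m) = p1 q m := by
  rw [pq_dep q hE (dep_AR (Finset.Subset.refl _)), p1_SA]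
  have h1 : bu u m = (FKP.bx m).map (shE u.1 u.2).toEmbedding := by
    unfold FKP.bx bu
    rw [box_sh]
    congr 1 <;> ring
  rw [h1, pq_map]
  congr 1
  funext ω
  exact propext (AR_sh u m ω)

theorem p1_anti' {q : ℝ} (h0 : 0 ≤ q) (h1 : q ≤ 1) {k n : ℕ} (h : k ≤ n) : p1 q n ≤ p1 q k := by
  rw [← pq_AR q (u := (0, 0)) (Finset.Subset.refl _), ← pq_AR q (u := (0, 0)) (m := k) (E := bu (0, 0) n)
    (bu_sub (by rw [sd_self]; omega))]
  exact pq_mono h0 h1 fun ω _ => AR_anti h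

/-- FKG for a product of lower bounds -/
theorem fkg2 {q : ℝ} (h0 : 0 ≤ q) (h1 : q ≤ 1) {E : Finset Edge} {A B : Finset Edge → Prop} (hA : Inc A) (hB : Inc B)
    {a b : ℝ} (hb : 0 ≤ b) (pa : a ≤ IPC.Pr q E A) (pb : b ≤ IPC.Pr q E B) :
    a * b ≤ IPC.Pr q E (fun ω => A ω ∧ B ω) :=
  (mul_le_mul pa pb hb (pq_nonneg h0 h1 _ _)).trans (pq_fkg h0 h1 E hA hB)

/-- the probability of a ring -/
theorem pq_RG {q : ℝ} (h0 : 0 ≤ q) (h1 : q ≤ 1) {u : V} {j k : ℕ} (hj : j ≤ k) {E : Finset Edge} (hE : bu u k ⊆ E) :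
    hq q (2 * k) (k - j) ^ 4 ≤ IPC.Pr q E (RG u j k) := by
  set c := hq q (2 * k) (k - j) with hc
  have hc0 : 0 ≤ c := hq_nonneg h0 h1 _ _
  have hsub : ∀ {x1 x2 y1 y2 : ℤ}, u.1 - k ≤ x1 → x2 ≤ u.1 + k → u.2 - k ≤ y1 → y2 ≤ u.2 + k →
      box x1 x2 y1 y2 ⊆ E := fun h1 h2 h3 h4 => (box_mono h1 h2 h3 h4).trans hE
  have pR : c ≤ IPC.Pr q E (VC (u.1 + j) (u.1 + k) (u.2 - k) (u.2 + k)) := by
    rw [pq_VC q (k - j) (2 * k) (by omega) (by omega)
      (hsub (by omega) (by omega) (by omega) (by omega))]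
  have pT : c ≤ IPC.Pr q E (HC (u.1 - k) (u.1 + k) (u.2 + j) (u.2 + k)) := by
    rw [pq_HC q (2 * k) (k - j) (by omega) (by omega)
      (hsub (by omega) (by omega) (by omega) (by omega))]
  have pL : c ≤ IPC.Pr q E (VC (u.1 - k) (u.1 - j) (u.2 - k) (u.2 + k)) := by
    rw [pq_VC q (k - j) (2 * k) (by omega) (by omega)
      (hsub (by omega) (by omega) (by omega) (by omega))]
  have pB : c ≤ IPC.Pr q E (HC (u.1 - k) (u.1 + k) (u.2 - k) (u.2 - j)) := by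
    rw [pq_HC q (2 * k) (k - j) (by omega) (by omega)
      (hsub (by omega) (by omega) (by omega) (by omega))]
  have f1 := fkg2 h0 h1 (inc_VC _ _ _ _) (inc_HC _ _ _ _) hc0 pR pT
  have f2 := fkg2 h0 h1 (pup_and (inc_VC _ _ _ _) (inc_HC _ _ _ _)) (inc_VC _ _ _ _) hc0 f1 pL
  have f3 := fkg2 h0 h1 (pup_and (pup_and (inc_VC _ _ _ _) (inc_HC _ _ _ _)) (inc_VC _ _ _ _))
    (inc_HC _ _ _ _) hc0 f2 pB
  have e1 : c ^ 4 = c * c * c * c := by ring
  rw [e1]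
  exact f3

/-- extension of the arm -/
theorem p1_ext {q : ℝ} (h0 : 0 ≤ q) (h1 : q ≤ 1) {j k n : ℕ} (hj : j ≤ k) (hn : k ≤ n) :
    p1 q k * hq q (2 * k) (k - j) ^ 4 * hq q n (2 * j) ≤ p1 q n := by
  have hsub : FKP.bx k ⊆ FKP.bx n := bx_mono hn
  have pS : p1 q k ≤ IPC.Pr q (FKP.bx n) (SA k) := by
    rw [pq_dep q hsub (dep_SA (Finset.Subset.refl _)), ← p1_SA]
  have pR : hq q (2 * k) (k - j) ^ 4 ≤ IPC.Pr q (FKP.bx n) (RG (0, 0) j k) :=
    pq_RG h0 h1 hj (by rw [bu_zero]; exact hsub)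
  have pG : hq q n (2 * j) ≤ IPC.Pr q (FKP.bx n) (HC 0 n (-(j : ℤ)) j) := by
    rw [pq_HC q n (2 * j) (by omega) (by omega) ?_]
    unfold FKP.bx
    exact box_mono (by omega) (by omega) (by omega) (by omega)
  have f1 := fkg2 h0 h1 (inc_SA k) (inc_RG _ _ _) (pow_nonneg (hq_nonneg h0 h1 _ _) 4) pS pR
  have f2 := fkg2 h0 h1 (pup_and (inc_SA k) (inc_RG _ _ _)) (inc_HC _ _ _ _) (hq_nonneg h0 h1 _ _) f1 pG
  refine f2.trans ?_
  rw [p1_SA]
  refine pq_mono h0 h1 ?_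
  rintro ω _ ⟨⟨hS, hR⟩, hG⟩
  unfold RG at hR
  simp only [zero_add, zero_sub] at hR
  exact SA_ext hj hn hS hR.1.1.1 hR.1.1.2 hR.1.2 hR.2 hG

/-- upper bound for the two point function -/
theorem tau_up {q : ℝ} (h0 : 0 ≤ q) (h1 : q ≤ 1) {u v : V} {m : ℕ} (h : 2 * (m : ℤ) < sd u v) (E : Finset Edge) :
    IPC.Pr q E (fun ω => (gr ω).Reachable u v) ≤ p1 q m ^ 2 := by
  have h1' : E ⊆ E ∪ (bu u m ∪ bu v m) := Finset.subset_union_left
  have h2 : bu u m ⊆ E ∪ (bu u m ∪ bu v m) :=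
    Finset.Subset.trans Finset.subset_union_left Finset.subset_union_right
  have h3 : bu v m ⊆ E ∪ (bu u m ∪ bu v m) :=
    Finset.Subset.trans Finset.subset_union_right Finset.subset_union_right
  have hd : Disjoint (bu u m) (bu v m) := by
    rw [Finset.disjoint_left]
    intro e h1 h2
    rw [mem_bu] at h1 h2
    have h3 := sd_tri u (ea e) v
    rw [sd_comm (ea e) v] at h3
    linarith [h1.1, h2.1]
  have h4 : IPC.Pr q (E ∪ (bu u m ∪ bu v m)) (fun ω => AR u m ω ∧ AR v m ω) = p1 q m ^ 2 := by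
    rw [pq_indep q h2 h3 hd (dep_AR (Finset.Subset.refl _)) (dep_AR (Finset.Subset.refl _)), pq_AR q h2,
      pq_AR q h3, sq]
  refine (pq_super h0 h1 h1' (inc_gr u v)).trans ?_
  rw [← h4]
  refine pq_mono h0 h1 fun ω _ hω => ⟨?_, ?_⟩
  · exact AR_of_reach hω (by linarith)
  · exact AR_of_reach hω.symm (by rw [sd_comm]; linarith)

/-- lower bound for the two point function -/
theorem tau_low {q : ℝ} (h0 : 0 ≤ q) (h1 : q ≤ 1) {x : V} {a b j k N : ℕ} (hj : j ≤ k)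
    (hx1 : |x.1| = a) (hx2 : |x.2| = b) (hN : a + b + 2 * k ≤ N) :
    p1 q k ^ 2 * hq q (2 * k) (k - j) ^ 8 * hq q (a + 4 * k) (2 * j) * hq q (b + 4 * k) (2 * j) ≤
      IPC.Pr q (bx N) (fun ω => Conn (bx N) ω (0, 0) x) := by
  have m1 := min_le_left 0 x.1
  have m2 := min_le_right 0 x.1
  have m3 := le_max_left 0 x.1
  have m4 := le_max_right 0 x.1
  have n1 := min_le_left 0 x.2
  have n2 := min_le_right 0 x.2
  have n3 := le_max_left 0 x.2
  have n4 := le_max_right 0 x.2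
  have ha : max 0 x.1 - min 0 x.1 = a := by
    rcases abs_cases x.1 with h | h <;> rcases max_cases 0 x.1 with h2 | h2 <;> rcases min_cases 0 x.1 with h3 | h3 <;> omega
  have hb : max 0 x.2 - min 0 x.2 = b := by
    rcases abs_cases x.2 with h | h <;> rcases max_cases 0 x.2 with h2 | h2 <;> rcases min_cases 0 x.2 with h3 | h3 <;> omega
  have hxa := abs_le.1 hx1.le
  have hxb := abs_le.1 hx2.le
  set c := hq q (2 * k) (k - j) with hc
  have hc0 : 0 ≤ c := hq_nonneg h0 h1 _ _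
  have pS : p1 q k ≤ IPC.Pr q (bx N) (AR (0, 0) k) := by
    rw [pq_AR q (by rw [bu_zero]; exact bx_mono (by omega))]
  have hbx : bu x k ⊆ bx N := by
    have h5 := bu_sub (u := (0, 0)) (u' := x) (m := k) (m' := N) ?_
    · rw [bu_zero] at h5
      exact h5
    · have h6 : sd (0, 0) x ≤ a + b := by
        rw [sd_le]
        simp only [zero_sub, zero_add]
        omega
      have h7 : (a : ℤ) + b + 2 * k ≤ N := by exact_mod_cast hN
      omega
  have pS' : p1 q k ≤ IPC.Pr q (bx N) (AR x k) := by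
    rw [pq_AR q hbx]
  have pR : c ^ 4 ≤ IPC.Pr q (bx N) (RG (0, 0) j k) :=
    pq_RG h0 h1 hj (by rw [bu_zero]; exact bx_mono (by omega))
  have pR' : c ^ 4 ≤ IPC.Pr q (bx N) (RG x j k) := pq_RG h0 h1 hj hbx
  have hN' : (a : ℤ) + b + 2 * k ≤ N := by exact_mod_cast hN
  have pG : hq q (a + 4 * k) (2 * j) ≤ IPC.Pr q (bx N) (HC (min 0 x.1 - 2 * k) (max 0 x.1 + 2 * k) (-(j : ℤ)) j) := by
    rw [pq_HC q (a + 4 * k) (2 * j) (by push_cast; omega) (by push_cast; omega) ?_]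
    unfold bx
    exact box_mono (by omega) (by omega) (by omega) (by omega)
  have pH : hq q (b + 4 * k) (2 * j) ≤ IPC.Pr q (bx N) (VC (x.1 - j) (x.1 + j) (min 0 x.2 - 2 * k) (max 0 x.2 + 2 * k)) := by
    rw [pq_VC q (2 * j) (b + 4 * k) (by push_cast; omega) (by push_cast; omega) ?_]
    unfold bx
    exact box_mono (by omega) (by omega) (by omega) (by omega)
  have iS := inc_AR (0, 0) k
  have iS' := inc_AR x k
  have iR := inc_RG (0, 0) j k
  have iR' := inc_RG x j k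
  have hp := (p1_bd h0 h1 k).1
  have f1 := fkg2 h0 h1 iS iR (pow_nonneg hc0 4) pS pR
  have f2 := fkg2 h0 h1 (pup_and iS iR) iS' hp f1 pS'
  have f3 := fkg2 h0 h1 (pup_and (pup_and iS iR) iS') iR' (pow_nonneg hc0 4) f2 pR'
  have f4 := fkg2 h0 h1 (pup_and (pup_and (pup_and iS iR) iS') iR') (inc_HC _ _ _ _) (hq_nonneg h0 h1 _ _) f3 pG
  have f5 := fkg2 h0 h1 (pup_and (pup_and (pup_and (pup_and iS iR) iS') iR') (inc_HC _ _ _ _)) (inc_VC _ _ _ _)
    (hq_nonneg h0 h1 _ _) f4 pH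
  have e1 : p1 q k ^ 2 * c ^ 8 * hq q (a + 4 * k) (2 * j) * hq q (b + 4 * k) (2 * j) =
      p1 q k * c ^ 4 * p1 q k * c ^ 4 * hq q (a + 4 * k) (2 * j) * hq q (b + 4 * k) (2 * j) := by ring
  rw [e1]
  refine f5.trans (pq_mono h0 h1 ?_)
  rintro ω hω ⟨⟨⟨⟨⟨h2, h3⟩, h4⟩, h5⟩, h6⟩, h7⟩
  exact Conn.of_reach hω (tau_geo hj h2 h3 h4 h5 h6 h7)

end FKF
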