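import Pool.Agent.Lib.MP_216314_pr.N.FX1

/-!
# Beyond the characteristic length, supercritical side

`gf q N`: probability that the rectangle `[0,4N] × [0,N]` is not crossed in the long direction. `gf q (2N+1) ≤ 25 (gf q N)²`.
If `gf q N ≤ 1/700` then `p1 q n ≥ p1 q (2N) / 2` for all `n`.
-/

set_option autoImplicit false

noncomputable section

namespace FKF

open Finset FKI FKN
open FKP hiding bx

/-- failure probability of the long crossing -/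
def gf (q : ℝ) (N : ℕ) : ℝ := 1 - hq q (4 * N) N

theorem gf_nonneg {q : ℝ} (h0 : 0 ≤ q) (h1 : q ≤ 1) (N : ℕ) : 0 ≤ gf q N := by
  unfold gf
  linarith [hq_le_one h0 h1 (4 * N) N]

theorem gf_le_one {q : ℝ} (h0 : 0 ≤ q) (h1 : q ≤ 1) (N : ℕ) : gf q N ≤ 1 := by
  unfold gf
  linarith [hq_nonneg h0 h1 (4 * N) N]

theorem gf_long {q : ℝ} (h0 : 0 ≤ q) (h1 : q ≤ 1) (N k : ℕ) :
    1 - (2 * (k : ℝ) + 1) * gf q N ≤ hq q ((3 * k + 4) * N) N := by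
  induction k with
  | zero =>
    unfold gf
    simp
  | succ k ih =>
    have h2 := hq_glue_one h0 h1 (a := (3 * k + 4) * N) (b := 4 * N) (N := N)
      (by nlinarith) (by omega)
    have h3 : (3 * k + 4) * N + 4 * N - N = (3 * (k + 1) + 4) * N := by
      have : (3 * k + 4) * N + 4 * N = (3 * (k + 1) + 4) * N + N := by ring
      omega
    rw [h3] at h2
    have h4 : hq q (4 * N) N ≤ hq q N N := hq_anti h0 h1 (by omega)
    have h5 : hq q (4 * N) N = 1 - gf q N := by unfold gf; ring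
    push_cast
    linarith

/-- two disjoint strips -/
theorem strips {q : ℝ} (h0 : 0 ≤ q) (h1 : q ≤ 1) (a N : ℕ) :
    1 - hq q a (2 * N + 1) ≤ (1 - hq q a N) ^ 2 := by
  set E : Finset Edge := box 0 a 0 ((2 * N + 1 : ℕ) : ℤ) with hE
  have s1 : box 0 (a : ℤ) 0 (N : ℤ) ⊆ E := box_mono le_rfl le_rfl le_rfl (by push_cast; omega)
  have s2 : box 0 (a : ℤ) ((N : ℤ) + 1) (2 * N + 1) ⊆ E := box_mono le_rfl le_rfl (by omega) (by push_cast; omega)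
  have hd : Disjoint (box 0 (a : ℤ) 0 (N : ℤ)) (box 0 (a : ℤ) ((N : ℤ) + 1) (2 * N + 1)) := by
    rw [Finset.disjoint_left]
    intro e h2 h3
    rw [mem_box] at h2 h3
    omega
  have e1 : IPC.Pr q E (HC 0 a 0 N) = hq q a N := pq_HC q a N (by ring) (by ring) s1
  have e2 : IPC.Pr q E (HC 0 a ((N : ℤ) + 1) (2 * N + 1)) = hq q a N := pq_HC q a N (by ring) (by ring) s2
  have e3 : 1 - hq q a (2 * N + 1) = IPC.Pr q E (fun ω => ¬ HC 0 a 0 ((2 * N + 1 : ℕ) : ℤ) ω) := by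
    rw [pq_not]
    rfl
  have e4 : IPC.Pr q E (fun ω => ¬ HC 0 a 0 N ω ∧ ¬ HC 0 a ((N : ℤ) + 1) (2 * N + 1) ω) = (1 - hq q a N) ^ 2 := by
    rw [pq_indep q s1 s2 hd, pq_not, pq_not, e1, e2, sq]
    · intro ω
      exact not_congr (dep_HC (Finset.Subset.refl _) ω)
    · intro ω
      exact not_congr (dep_HC (Finset.Subset.refl _) ω)
  rw [e3, ← e4]
  refine pq_mono h0 h1 ?_
  intro ω _ hω
  constructor
  · rintro ⟨y, y', l1, l2, l3, l4, hc⟩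
    exact hω ⟨y, y', l1, by push_cast; omega, l3, by push_cast; omega,
      hc.mono s1 (Finset.Subset.refl _)⟩
  · rintro ⟨y, y', l1, l2, l3, l4, hc⟩
    exact hω ⟨y, y', by omega, by push_cast; omega, by omega, by push_cast; omega,
      hc.mono s2 (Finset.Subset.refl _)⟩

theorem gf_rec {q : ℝ} (h0 : 0 ≤ q) (h1 : q ≤ 1) {N : ℕ} (hN : 2 ≤ N) :
    gf q (2 * N + 1) ≤ 25 * gf q N ^ 2 := by
  have h2 := strips h0 h1 (4 * (2 * N + 1)) N
  have h3 := gf_long h0 h1 N 2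
  have h4 : hq q ((3 * 2 + 4) * N) N ≤ hq q (4 * (2 * N + 1)) N := hq_anti h0 h1 (by omega)
  have h5 := hq_le_one h0 h1 (4 * (2 * N + 1)) N
  have h6 : 1 - hq q (4 * (2 * N + 1)) N ≤ 5 * gf q N := by
    push_cast at h3
    linarith
  have h7 := gf_nonneg h0 h1 N
  have h8 : (1 - hq q (4 * (2 * N + 1)) N) ^ 2 ≤ (5 * gf q N) ^ 2 :=
    pow_le_pow_left₀ (by linarith) h6 2
  calc gf q (2 * N + 1) = 1 - hq q (4 * (2 * N + 1)) (2 * N + 1) := rfl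
    _ ≤ (5 * gf q N) ^ 2 := h2.trans h8
    _ = 25 * gf q N ^ 2 := by ring

/-- the scales -/
def Ns (N i : ℕ) : ℕ := (N + 1) * 2 ^ i - 1

theorem Ns_zero (N : ℕ) : Ns N 0 = N := by
  unfold Ns
  simp

theorem Ns_spec (N i : ℕ) : Ns N i + 1 = (N + 1) * 2 ^ i := by
  unfold Ns
  have : 0 < (N + 1) * 2 ^ i := by positivity
  omega

theorem Ns_succ (N i : ℕ) : Ns N (i + 1) = 2 * Ns N i + 1 := by
  have h1 := Ns_spec N i
  have h2 := Ns_spec N (i + 1)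
  have h3 : (N + 1) * 2 ^ (i + 1) = 2 * ((N + 1) * 2 ^ i) := by ring
  omega

theorem Ns_ge (N i : ℕ) : N ≤ Ns N i := by
  have h1 := Ns_spec N i
  have h2 : N + 1 ≤ (N + 1) * 2 ^ i := Nat.le_mul_of_pos_right _ (by positivity)
  omega

theorem Ns_big (N i : ℕ) : i ≤ Ns N i := by
  have h1 := Ns_spec N i
  have h2 : i < 2 ^ i := Nat.lt_two_pow_self
  have h3 : 2 ^ i ≤ (N + 1) * 2 ^ i := Nat.le_mul_of_pos_left _ (by omega)
  omega

theorem gf_iter {q : ℝ} (h0 : 0 ≤ q) (h1 : q ≤ 1) {N : ℕ} (hN : 2 ≤ N) (i : ℕ) :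
    25 * gf q (Ns N i) ≤ (25 * gf q N) ^ (2 ^ i) := by
  induction i with
  | zero => rw [Ns_zero, pow_zero, pow_one]
  | succ i ih =>
    rw [Ns_succ]
    have h2 := gf_rec h0 h1 (N := Ns N i) (hN.trans (Ns_ge N i))
    have h3 : 0 ≤ 25 * gf q (Ns N i) := by linarith [gf_nonneg h0 h1 (Ns N i)]
    calc 25 * gf q (2 * Ns N i + 1) ≤ (25 * gf q (Ns N i)) ^ 2 := by nlinarith
      _ ≤ ((25 * gf q N) ^ (2 ^ i)) ^ 2 := pow_le_pow_left₀ h3 ih 2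
      _ = (25 * gf q N) ^ (2 ^ (i + 1)) := by rw [← pow_mul, pow_succ]

theorem gf_small {q : ℝ} (h0 : 0 ≤ q) (h1 : q ≤ 1) {N : ℕ} (hN : 2 ≤ N) (hg : gf q N ≤ 1 / 700) (i : ℕ) :
    7 * gf q (Ns N i) ≤ (1 / 2 : ℝ) ^ i / 4 := by
  have h2 := gf_iter h0 h1 hN i
  have h3 : 0 ≤ 25 * gf q N := by linarith [gf_nonneg h0 h1 N]
  have h4 : (25 * gf q N) ^ (2 ^ i) ≤ (1 / 28 : ℝ) ^ (2 ^ i) := pow_le_pow_left₀ h3 (by linarith) _
  have h5 : (1 / 28 : ℝ) ^ (2 ^ i) ≤ (1 / 28) ^ i := by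
    refine pow_le_pow_of_le_one (by norm_num) (by norm_num) ?_
    exact Nat.lt_two_pow_self.le
  have h6 : (1 / 28 : ℝ) ^ i ≤ (1 / 2) ^ i := pow_le_pow_left₀ (by norm_num) (by norm_num) i
  have h7 : (0 : ℝ) ≤ (1 / 2) ^ i := by positivity
  by_cases hi : i = 0
  · subst hi
    rw [Ns_zero, pow_zero]
    linarith
  · have h8 : (1 / 28 : ℝ) ^ (2 ^ i) ≤ (1 / 28) ^ (i + 1) := by
      refine pow_le_pow_of_le_one (by norm_num) (by norm_num) ?_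
      exact Nat.lt_two_pow_self
    have h9 : (1 / 28 : ℝ) ^ (i + 1) ≤ (1 / 2) ^ i / 28 := by
      rw [pow_succ]
      linarith
    linarith

theorem sup_step {q : ℝ} (h0 : 0 ≤ q) (h1 : q ≤ 1) {N : ℕ} (hN : 2 ≤ N) (hg : gf q N ≤ 1 / 3) :
    p1 q (2 * N) * (1 - 7 * gf q N) ≤ p1 q (2 * (2 * N + 1)) := by
  have h2 := p1_ext h0 h1 (j := N) (k := 2 * N) (n := 2 * (2 * N + 1)) (by omega) (by omega)
  have e1 : 2 * (2 * N) = 4 * N := by ring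
  have e2 : 2 * N - N = N := by omega
  rw [e1, e2] at h2
  have h3 : hq q (4 * N) N = 1 - gf q N := by unfold gf; ring
  have h4 := gf_long h0 h1 N 1
  have h5 : hq q ((3 * 1 + 4) * N) N ≤ hq q (2 * (2 * N + 1)) N := hq_anti h0 h1 (by omega)
  have h6 : hq q (2 * (2 * N + 1)) N ≤ hq q (2 * (2 * N + 1)) (2 * N) := hq_mono h0 h1 (by omega)
  have h7 : 1 - 3 * gf q N ≤ hq q (2 * (2 * N + 1)) (2 * N) := by
    push_cast at h4
    linarith
  rw [h3] at h2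
  have hp := (p1_bd h0 h1 (2 * N)).1
  have hg0 := gf_nonneg h0 h1 N
  set g := gf q N with hgdef
  have h8 : 1 - 4 * g ≤ (1 - g) ^ 4 := by nlinarith [sq_nonneg g, sq_nonneg (g ^ 2), mul_nonneg hg0 hg0, mul_nonneg hg0 (mul_nonneg hg0 hg0), mul_nonneg (mul_nonneg hg0 hg0) (by linarith : 0 ≤ 1 - g)]
  have h9 : 0 ≤ 1 - 3 * g := by linarith
  have h10 : 1 - 7 * g ≤ (1 - g) ^ 4 * (1 - 3 * g) := by
    have : (1 - 4 * g) * (1 - 3 * g) ≤ (1 - g) ^ 4 * (1 - 3 * g) := mul_le_mul_of_nonneg_right h8 h9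
    nlinarith
  have h11 : (1 - g) ^ 4 * (1 - 3 * g) ≤ (1 - g) ^ 4 * hq q (2 * (2 * N + 1)) (2 * N) :=
    mul_le_mul_of_nonneg_left h7 (by positivity)
  calc p1 q (2 * N) * (1 - 7 * g) ≤ p1 q (2 * N) * ((1 - g) ^ 4 * hq q (2 * (2 * N + 1)) (2 * N)) :=
        mul_le_mul_of_nonneg_left (h10.trans h11) hp
    _ = p1 q (2 * N) * (1 - g) ^ 4 * hq q (2 * (2 * N + 1)) (2 * N) := by ring
    _ ≤ p1 q (2 * (2 * N + 1)) := h2

theorem sup_iter {q : ℝ} (h0 : 0 ≤ q) (h1 : q ≤ 1) {N : ℕ} (hN : 2 ≤ N) (hg : gf q N ≤ 1 / 700) (i : ℕ) :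
    p1 q (2 * N) * (1 / 2 + (1 / 2) ^ (i + 1)) ≤ p1 q (2 * Ns N i) := by
  have hp := (p1_bd h0 h1 (2 * N)).1
  induction i with
  | zero =>
    rw [Ns_zero]
    linarith
  | succ i ih =>
    rw [Ns_succ]
    have h2 := gf_small h0 h1 hN hg i
    have h3 : (1 / 2 : ℝ) ^ i ≤ 1 := pow_le_one₀ (by norm_num) (by norm_num)
    have h4 := sup_step h0 h1 (N := Ns N i) (hN.trans (Ns_ge N i)) (by linarith)
    have hg0 := gf_nonneg h0 h1 (Ns N i)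
    refine le_trans ?_ h4
    have h5 : 0 ≤ 1 - 7 * gf q (Ns N i) := by linarith
    refine le_trans ?_ (mul_le_mul_of_nonneg_right ih h5)
    rw [mul_assoc]
    refine mul_le_mul_of_nonneg_left ?_ hp
    have e1 : (1 / 2 : ℝ) ^ (i + 1 + 1) = (1 / 2) ^ i / 4 := by rw [pow_succ, pow_succ]; ring
    have e2 : (1 / 2 : ℝ) ^ (i + 1) = (1 / 2) ^ i / 2 := by rw [pow_succ]; ring
    rw [e1, e2]
    have h6 : (0 : ℝ) ≤ (1 / 2) ^ i := by positivity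
    nlinarith

/-- **Supercritical side**: the arm survives at all scales -/
theorem sup_lower {q : ℝ} (h0 : 0 ≤ q) (h1 : q ≤ 1) {N : ℕ} (hN : 2 ≤ N) (hg : gf q N ≤ 1 / 700) (n : ℕ) :
    p1 q (2 * N) / 2 ≤ p1 q n := by
  have h2 := sup_iter h0 h1 hN hg n
  have h3 : n ≤ 2 * Ns N n := by
    have := Ns_big N n
    omega
  have h4 := p1_anti' h0 h1 h3
  have hp := (p1_bd h0 h1 (2 * N)).1
  have h5 : (0 : ℝ) ≤ (1 / 2) ^ (n + 1) := by positivity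
  nlinarith [mul_nonneg hp h5]

end FKF
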