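import Pool.Agent.Lib.MP_216314_pr.N.FX2
import Pool.Agent.Lib.MP_216314_pr.N.GD

/-!
# Beyond the characteristic length, subcritical side

If the long crossings at the parameter `1 - q` have failure probability at most `exp (-8) / 25` at the scale `N`, then
`p1 q n ≤ exp 4 * p1 q (2N) * exp (-n/(N+1))` for `n ≥ 2N`.
-/

set_option autoImplicit false

noncomputable section

namespace FKF

open Finset FKI FKN
open FKP hiding bx

/-- the arm crosses one of the four strips -/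
theorem arm_rect {r R : ℕ} (hr : r ≤ R) {ω : Finset Edge} (hS : SA R ω) :
    (HC r R (-(R : ℤ)) R ω ∨ HC (-(R : ℤ)) (-(r : ℤ)) (-(R : ℤ)) R ω) ∨
      (VC (-(R : ℤ)) R r R ω ∨ VC (-(R : ℤ)) R (-(R : ℤ)) (-(r : ℤ)) ω) := by
  have hr' : (r : ℤ) ≤ R := by exact_mod_cast hr
  obtain ⟨⟨vx, vy⟩, hv, hc⟩ := hS
  unfold FKP.bx at hc
  simp only at hv
  have hm := conn_mem_box hc ⟨by simp, by simp, by simp, by simp⟩
  simp only at hm
  rcases hv with hv | hv | hv | hv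
  · subst hv
    obtain ⟨y0, h1, h2, h3, h4⟩ := pgeo_right (t := (r : ℤ)) hc hr' ⟨by simp, by simp, by simp, by simp⟩
    exact Or.inl (Or.inl ⟨y0, vy, h1, h2, hm.2.2.1, hm.2.2.2, h4⟩)
  · subst hv
    obtain ⟨y0, h1, h2, h3, h4⟩ := pgeo_left (t := -(r : ℤ)) hc (by omega) ⟨by simp, by simp, by simp, by simp⟩
    exact Or.inl (Or.inr ⟨vy, y0, hm.2.2.1, hm.2.2.2, h1, h2, h4⟩)
  · subst hv
    obtain ⟨x0, h1, h2, h3, h4⟩ := pgeo_up (t := (r : ℤ)) hc hr' ⟨by simp, by simp, by simp, by simp⟩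
    exact Or.inr (Or.inl ⟨x0, vx, h1, h2, hm.1, hm.2.1, h4⟩)
  · subst hv
    obtain ⟨x0, h1, h2, h3, h4⟩ := pgeo_down (t := -(r : ℤ)) hc (by omega) ⟨by simp, by simp, by simp, by simp⟩
    exact Or.inr (Or.inr ⟨vx, x0, hm.1, hm.2.1, h1, h2, h4⟩)

/-- decoupling of the arm at the radii `a < r ≤ R` -/
theorem p1_split {q : ℝ} (h0 : 0 ≤ q) (h1 : q ≤ 1) {a r R : ℕ} (ha : a < r) (hr : r ≤ R) :
    p1 q R ≤ p1 q a * (4 * hq q (R - r) (2 * R)) := by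
  have hr' : (r : ℤ) ≤ R := by exact_mod_cast hr
  have ha' : (a : ℤ) < r := by exact_mod_cast ha
  set E := FKP.bx R with hE
  have hsub : FKP.bx a ⊆ E := bx_mono (by omega)
  have hA : IPC.Pr q E (SA a) = p1 q a := by
    rw [pq_dep q hsub (dep_SA (Finset.Subset.refl _)), ← p1_SA]
  have key : ∀ (A : Finset Edge → Prop) (F : Finset Edge), F ⊆ E → Disjoint (FKP.bx a) F → Dep F A →
      IPC.Pr q E A = hq q (R - r) (2 * R) →
      IPC.Pr q E (fun ω => SA a ω ∧ A ω) = p1 q a * hq q (R - r) (2 * R) := by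
    intro A F hF hd hdep hprob
    rw [pq_indep q hsub hF hd (dep_SA (Finset.Subset.refl _)) hdep, hA, hprob]
  have hdis : ∀ {x1 x2 y1 y2 : ℤ}, ((r : ℤ) ≤ x1 ∨ x2 ≤ -(r : ℤ) ∨ (r : ℤ) ≤ y1 ∨ y2 ≤ -(r : ℤ)) →
      Disjoint (FKP.bx a) (box x1 x2 y1 y2) := by
    intro x1 x2 y1 y2 h
    rw [Finset.disjoint_left]
    intro e h2 h3
    unfold FKP.bx at h2
    rw [mem_box] at h2 h3
    omega
  have k1 := key (HC r R (-(R : ℤ)) R) (box r R (-(R : ℤ)) R) (box_mono (by omega) le_rfl le_rfl le_rfl)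
    (hdis (Or.inl le_rfl)) (dep_HC (Finset.Subset.refl _))
    (pq_HC q (R - r) (2 * R) (by omega) (by push_cast; ring) (box_mono (by omega) le_rfl le_rfl le_rfl))
  have k2 := key (HC (-(R : ℤ)) (-(r : ℤ)) (-(R : ℤ)) R) (box (-(R : ℤ)) (-(r : ℤ)) (-(R : ℤ)) R)
    (box_mono le_rfl (by omega) le_rfl le_rfl) (hdis (Or.inr (Or.inl le_rfl))) (dep_HC (Finset.Subset.refl _))
    (pq_HC q (R - r) (2 * R) (by omega) (by push_cast; ring) (box_mono le_rfl (by omega) le_rfl le_rfl))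
  have k3 := key (VC (-(R : ℤ)) R r R) (box (-(R : ℤ)) R r R) (box_mono le_rfl le_rfl (by omega) le_rfl)
    (hdis (Or.inr (Or.inr (Or.inl le_rfl)))) (dep_VC (Finset.Subset.refl _))
    (pq_VC q (2 * R) (R - r) (by push_cast; ring) (by omega) (box_mono le_rfl le_rfl (by omega) le_rfl))
  have k4 := key (VC (-(R : ℤ)) R (-(R : ℤ)) (-(r : ℤ))) (box (-(R : ℤ)) R (-(R : ℤ)) (-(r : ℤ)))
    (box_mono le_rfl le_rfl le_rfl (by omega)) (hdis (Or.inr (Or.inr (Or.inr le_rfl)))) (dep_VC (Finset.Subset.refl _))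
    (pq_VC q (2 * R) (R - r) (by push_cast; ring) (by omega) (box_mono le_rfl le_rfl le_rfl (by omega)))
  have h2 : p1 q R ≤ IPC.Pr q E (fun ω => ((SA a ω ∧ HC r R (-(R : ℤ)) R ω) ∨
      (SA a ω ∧ HC (-(R : ℤ)) (-(r : ℤ)) (-(R : ℤ)) R ω)) ∨ ((SA a ω ∧ VC (-(R : ℤ)) R r R ω) ∨
      (SA a ω ∧ VC (-(R : ℤ)) R (-(R : ℤ)) (-(r : ℤ)) ω))) := by
    rw [p1_SA]
    refine pq_mono h0 h1 fun ω _ hω => ?_
    have h3 : SA a ω := by
      have h4 := (One_SA R ω).2 hω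
      obtain ⟨v, hv, hc⟩ := h4
      refine SA_of_reach hc.reach ?_
      rw [← le_max_iff]
      have : (a : ℤ) ≤ nrm v := by rw [hv]; omega
      exact this
    rcases arm_rect hr hω with (h | h) | (h | h)
    · exact Or.inl (Or.inl ⟨h3, h⟩)
    · exact Or.inl (Or.inr ⟨h3, h⟩)
    · exact Or.inr (Or.inl ⟨h3, h⟩)
    · exact Or.inr (Or.inr ⟨h3, h⟩)
  have h5 := pq_or_le h0 h1 E (fun ω => (SA a ω ∧ HC r R (-(R : ℤ)) R ω) ∨
      (SA a ω ∧ HC (-(R : ℤ)) (-(r : ℤ)) (-(R : ℤ)) R ω)) (fun ω => (SA a ω ∧ VC (-(R : ℤ)) R r R ω) ∨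
      (SA a ω ∧ VC (-(R : ℤ)) R (-(R : ℤ)) (-(r : ℤ)) ω))
  have h6 := pq_or_le h0 h1 E (fun ω => SA a ω ∧ HC r R (-(R : ℤ)) R ω)
    (fun ω => SA a ω ∧ HC (-(R : ℤ)) (-(r : ℤ)) (-(R : ℤ)) R ω)
  have h7 := pq_or_le h0 h1 E (fun ω => SA a ω ∧ VC (-(R : ℤ)) R r R ω)
    (fun ω => SA a ω ∧ VC (-(R : ℤ)) R (-(R : ℤ)) (-(r : ℤ)) ω)
  rw [k1, k2] at h6
  rw [k3, k4] at h7
  linarith

theorem sub_step {q : ℝ} (h0 : 0 ≤ q) (h1 : q ≤ 1) {N M : ℕ} (hN : 3 ≤ N) (hM : N ≤ M) :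
    p1 q (2 * (2 * M + 1)) ≤ p1 q (2 * N) * (20 * gf (1 - q) M) := by
  have h2 := p1_split h0 h1 (a := 2 * N) (r := 2 * M + 1) (R := 2 * (2 * M + 1)) (by omega) (by omega)
  have e1 : 2 * (2 * M + 1) - (2 * M + 1) = 2 * M + 1 := by omega
  rw [e1, dualIn q (2 * M) (2 * (2 * (2 * M + 1)))] at h2
  have h0' : 0 ≤ 1 - q := by linarith
  have h1' : 1 - q ≤ 1 := by linarith
  have h3 := gf_long h0' h1' M 2
  have h4 : hq (1 - q) ((3 * 2 + 4) * M) M ≤ hq (1 - q) (2 * (2 * (2 * M + 1)) + 1) M := hq_anti h0' h1' (by omega)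
  have h5 : hq (1 - q) (2 * (2 * (2 * M + 1)) + 1) M ≤ hq (1 - q) (2 * (2 * (2 * M + 1)) + 1) (2 * M) :=
    hq_mono h0' h1' (by omega)
  refine h2.trans (mul_le_mul_of_nonneg_left ?_ (p1_bd h0 h1 _).1)
  push_cast at h3
  linarith

/-- **Subcritical side**: exponential decay -/
theorem sub_decay {q : ℝ} (h0 : 0 ≤ q) (h1 : q ≤ 1) {N : ℕ} (hN : 3 ≤ N)
    (hg : gf (1 - q) N ≤ Real.exp (-8) / 25) {n : ℕ} (hn : 2 * N ≤ n) :
    p1 q n ≤ Real.exp 4 * p1 q (2 * N) * Real.exp (-((n : ℝ) / (N + 1))) := by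
  have hp := (p1_bd h0 h1 (2 * N)).1
  have hK : (0 : ℝ) < N + 1 := by positivity
  have h0' : 0 ≤ 1 - q := by linarith
  have h1' : 1 - q ≤ 1 := by linarith
  rcases Nat.lt_or_ge n (4 * N + 2) with h | h
  · have h2 : p1 q n ≤ p1 q (2 * N) := p1_anti' h0 h1 hn
    have h3 : (n : ℝ) / (N + 1) ≤ 4 := by
      rw [div_le_iff₀ hK]
      have : (n : ℝ) ≤ 4 * N + 2 := by exact_mod_cast h.le
      linarith
    have h4 : 1 ≤ Real.exp 4 * Real.exp (-((n : ℝ) / (N + 1))) := by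
      rw [← Real.exp_add]
      exact Real.one_le_exp (by linarith)
    calc p1 q n ≤ p1 q (2 * N) * 1 := by linarith
      _ ≤ p1 q (2 * N) * (Real.exp 4 * Real.exp (-((n : ℝ) / (N + 1)))) := mul_le_mul_of_nonneg_left h4 hp
      _ = Real.exp 4 * p1 q (2 * N) * Real.exp (-((n : ℝ) / (N + 1))) := by ring
  · have hex : ∃ i, n < 2 * Ns N (i + 2) := by
      refine ⟨n, ?_⟩
      have := Ns_big N (n + 2)
      omega
    classical
    obtain ⟨i, hi, hmin⟩ : ∃ i, n < 2 * Ns N (i + 2) ∧ 2 * Ns N (i + 1) ≤ n := by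
      refine ⟨Nat.find hex, Nat.find_spec hex, ?_⟩
      rcases Nat.eq_zero_or_pos (Nat.find hex) with h2 | h2
      · rw [h2]
        have e1 : Ns N (0 + 1) = 2 * N + 1 := by rw [Ns_succ, Ns_zero]
        rw [e1]
        omega
      · have h3 := Nat.find_min hex (m := Nat.find hex - 1) (by omega)
        have e1 : Nat.find hex - 1 + 2 = Nat.find hex + 1 := by omega
        rw [e1] at h3
        omega
    have h2 := sub_step h0 h1 (N := N) (M := Ns N i) hN (Ns_ge N i)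
    rw [← Ns_succ] at h2
    have h3 : p1 q n ≤ p1 q (2 * Ns N (i + 1)) := p1_anti' h0 h1 hmin
    have h4 := gf_iter h0' h1' (N := N) (by omega) i
    have h5 : 0 ≤ 25 * gf (1 - q) N := by linarith [gf_nonneg h0' h1' N]
    have h6 : (25 * gf (1 - q) N) ^ (2 ^ i) ≤ Real.exp (-8) ^ (2 ^ i) :=
      pow_le_pow_left₀ h5 (by linarith) _
    have h7 : Real.exp (-8) ^ (2 ^ i) = Real.exp (-(8 * 2 ^ i)) := by
      rw [← Real.exp_nat_mul]
      congr 1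
      push_cast
      ring
    have h8 : (n : ℝ) / (N + 1) ≤ 8 * 2 ^ i := by
      rw [div_le_iff₀ hK]
      have h9 := Ns_spec N (i + 2)
      have h10 : n ≤ 2 * ((N + 1) * 2 ^ (i + 2)) := by omega
      have h11 : (n : ℝ) ≤ 2 * ((N + 1) * 2 ^ (i + 2)) := by exact_mod_cast h10
      have e1 : (2 : ℝ) ^ (i + 2) = 4 * 2 ^ i := by rw [pow_add]; ring
      rw [e1] at h11
      linarith
    have h9 : Real.exp (-(8 * 2 ^ i)) ≤ Real.exp (-((n : ℝ) / (N + 1))) := Real.exp_le_exp.2 (by linarith)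
    have h10 : 20 * gf (1 - q) (Ns N i) ≤ Real.exp (-((n : ℝ) / (N + 1))) := by
      have h11 := gf_nonneg h0' h1' (Ns N i)
      have h12 : 25 * gf (1 - q) (Ns N i) ≤ Real.exp (-((n : ℝ) / (N + 1))) :=
        h4.trans ((h6.trans h7.le).trans h9)
      linarith
    have h11 : (1 : ℝ) ≤ Real.exp 4 := Real.one_le_exp (by norm_num)
    have h12 := Real.exp_pos (-((n : ℝ) / (N + 1)))
    calc p1 q n ≤ p1 q (2 * N) * (20 * gf (1 - q) (Ns N i)) := h3.trans h2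
      _ ≤ p1 q (2 * N) * Real.exp (-((n : ℝ) / (N + 1))) := mul_le_mul_of_nonneg_left h10 hp
      _ = 1 * p1 q (2 * N) * Real.exp (-((n : ℝ) / (N + 1))) := by ring
      _ ≤ Real.exp 4 * p1 q (2 * N) * Real.exp (-((n : ℝ) / (N + 1))) :=
        mul_le_mul_of_nonneg_right (mul_le_mul_of_nonneg_right h11 hp) h12.le

end FKF
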