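import Pool.Agent.Lib.MP_216314_pr.N.FX3
import Pool.Agent.Lib.MP_216314_pr.N.FI
import Pool.Agent.Lib.MP_216314_pr.Cy.CyG

/-!
# The mean cluster size, upper bound
-/

set_option autoImplicit false

noncomputable section

namespace FKF

open Finset FKI FKN
open FKP hiding bx an

theorem sum_exp {K : ℝ} (hK : 0 < K) (n : ℕ) :
    ∑ r ∈ Icc 1 n, Real.exp (-((r : ℝ) / (4 * K))) ≤ 4 * K := by
  have ht : 0 < 1 / (4 * K) := by positivity
  have key : ∀ n : ℕ, 1 / (4 * K) * ∑ r ∈ Icc 1 n, Real.exp (-((r : ℝ) / (4 * K))) ≤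
      1 - Real.exp (-((n : ℝ) / (4 * K))) := by
    intro n
    induction n with
    | zero => simp
    | succ n ih =>
      rw [Finset.sum_Icc_succ_top (by omega), mul_add]
      have e1 : Real.exp (-(((n + 1 : ℕ) : ℝ) / (4 * K))) = Real.exp (-((n : ℝ) / (4 * K))) * Real.exp (-(1 / (4 * K))) := by
        rw [← Real.exp_add]
        congr 1
        push_cast
        ring
      rw [e1]
      have h1 : Real.exp (-(1 / (4 * K))) * (1 + 1 / (4 * K)) ≤ 1 := by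
        have h2 := Real.add_one_le_exp (1 / (4 * K))
        have h3 := Real.exp_pos (-(1 / (4 * K)))
        have h4 : Real.exp (-(1 / (4 * K))) * Real.exp (1 / (4 * K)) = 1 := by
          rw [← Real.exp_add]
          simp
        nlinarith
      have h5 := Real.exp_pos (-((n : ℝ) / (4 * K)))
      nlinarith [mul_le_mul_of_nonneg_left h1 h5.le]
  have h1 := key n
  have h2 := Real.exp_pos (-((n : ℝ) / (4 * K)))
  have h3 : 1 / (4 * K) * ∑ r ∈ Icc 1 n, Real.exp (-((r : ℝ) / (4 * K))) ≤ 1 := by linarith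
  rw [one_div, ← div_eq_inv_mul, div_le_one (by positivity)] at h3
  exact h3

theorem rp_sq {x : ℝ} (hx : 0 ≤ x) : (x ^ (-(5 / 48) : ℝ)) ^ 2 = x ^ (-(5 / 24) : ℝ) := by
  rw [← Real.rpow_natCast, ← Real.rpow_mul hx]
  norm_num

/-- the square of the one arm probability at the distance of about `r / 2` -/
theorem F_bd {C1 : ℝ} (hC : 0 < C1) (hpi : ∀ n : ℕ, 1 ≤ n → p1 (1 / 2) n ≤ C1 * (n : ℝ) ^ (-(5 / 48) : ℝ))
    {q : ℝ} (h0 : 0 ≤ q) (h12 : q ≤ 1 / 2) {N : ℕ} (hN : 3 ≤ N) (hg : gf (1 - q) N ≤ Real.exp (-8) / 25)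
    {r : ℕ} (hr : 1 ≤ r) :
    p1 q ((r - 1) / 2) ^ 2 ≤ (2 * C1 ^ 2 + 2) * Real.exp 10 *
      ((r : ℝ) ^ (-(5 / 24) : ℝ) + ((N : ℝ) + 1) ^ (-(5 / 24) : ℝ)) * Real.exp (-((r : ℝ) / (2 * (N + 1)))) := by
  have h1 : q ≤ 1 := by linarith
  set m := (r - 1) / 2 with hm
  have hK : (0 : ℝ) < (N : ℝ) + 1 := by positivity
  have hr0 : (0 : ℝ) < r := by exact_mod_cast hr
  have hp := (p1_bd h0 h1 m).1
  have hrp : 0 < (r : ℝ) ^ (-(5 / 24) : ℝ) := Real.rpow_pos_of_pos hr0 _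
  have hKp : 0 < ((N : ℝ) + 1) ^ (-(5 / 24) : ℝ) := Real.rpow_pos_of_pos hK _
  have hmono : ∀ n : ℕ, 1 ≤ n → p1 q n ^ 2 ≤ C1 ^ 2 * (n : ℝ) ^ (-(5 / 24) : ℝ) := by
    intro n hn
    have h2 : p1 q n ≤ C1 * (n : ℝ) ^ (-(5 / 48) : ℝ) := (p1_mono_q h0 h12 (by norm_num) n).trans (hpi n hn)
    have h3 := pow_le_pow_left₀ (p1_bd h0 h1 n).1 h2 2
    rw [mul_pow, rp_sq (by positivity)] at h3
    exact h3
  rcases Nat.lt_or_ge m (2 * N) with h | h
  · have h2 : p1 q m ^ 2 ≤ (2 * C1 ^ 2 + 2) * (r : ℝ) ^ (-(5 / 24) : ℝ) := by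
      rcases Nat.eq_zero_or_pos m with h3 | h3
      · have h4 : p1 q m ^ 2 ≤ 1 := pow_le_one₀ hp (p1_bd h0 h1 m).2
        have h5 : (r : ℝ) ≤ 2 := by
          have : r ≤ 2 := by omega
          exact_mod_cast this
        have h6 : (1 / 2 : ℝ) ≤ (r : ℝ) ^ (-(5 / 24) : ℝ) := by
          have h7 : (2 : ℝ) ^ (-(5 / 24) : ℝ) ≤ (r : ℝ) ^ (-(5 / 24) : ℝ) :=
            Real.rpow_le_rpow_of_nonpos hr0 h5 (by norm_num)
          have h8 : (2 : ℝ) ^ (-1 : ℝ) ≤ (2 : ℝ) ^ (-(5 / 24) : ℝ) :=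
            Real.rpow_le_rpow_of_exponent_le (by norm_num) (by norm_num)
          rw [Real.rpow_neg_one] at h8
          linarith
        nlinarith [sq_nonneg C1]
      · have h4 := hmono m h3
        have h5 : (r : ℝ) / 4 ≤ m := by
          have : r ≤ 4 * m := by omega
          have h6 : (r : ℝ) ≤ 4 * m := by exact_mod_cast this
          linarith
        have h6 : (m : ℝ) ^ (-(5 / 24) : ℝ) ≤ ((r : ℝ) / 4) ^ (-(5 / 24) : ℝ) :=
          Real.rpow_le_rpow_of_nonpos (by positivity) h5 (by norm_num)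
        have h7 : ((r : ℝ) / 4) ^ (-(5 / 24) : ℝ) ≤ 2 * (r : ℝ) ^ (-(5 / 24) : ℝ) := by
          rw [Real.div_rpow hr0.le (by norm_num), div_le_iff₀ (Real.rpow_pos_of_pos (by norm_num) _)]
          have h8 : (1 / 2 : ℝ) ≤ (4 : ℝ) ^ (-(5 / 24) : ℝ) := by
            have h9 : (4 : ℝ) ^ (-(1 / 2) : ℝ) ≤ (4 : ℝ) ^ (-(5 / 24) : ℝ) :=
              Real.rpow_le_rpow_of_exponent_le (by norm_num) (by norm_num)
            have h10 : (4 : ℝ) ^ (-(1 / 2) : ℝ) = 1 / 2 := by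
              rw [Real.rpow_neg (by norm_num), show (4 : ℝ) = 2 ^ (2 : ℝ) by norm_num, ← Real.rpow_mul (by norm_num)]
              norm_num
            linarith
          nlinarith
        nlinarith [mul_le_mul_of_nonneg_left (h6.trans h7) (sq_nonneg C1)]
    have h3 : (r : ℝ) / (2 * (N + 1)) ≤ 2 := by
      rw [div_le_iff₀ (by positivity)]
      have : r ≤ 4 * N + 1 := by omega
      have h4 : (r : ℝ) ≤ 4 * N + 1 := by exact_mod_cast this
      linarith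
    have h4 : 1 ≤ Real.exp 10 * Real.exp (-((r : ℝ) / (2 * (N + 1)))) := by
      rw [← Real.exp_add]
      exact Real.one_le_exp (by linarith)
    have h5 : 0 ≤ (2 * C1 ^ 2 + 2) * ((r : ℝ) ^ (-(5 / 24) : ℝ) + ((N : ℝ) + 1) ^ (-(5 / 24) : ℝ)) := by positivity
    calc p1 q m ^ 2 ≤ (2 * C1 ^ 2 + 2) * ((r : ℝ) ^ (-(5 / 24) : ℝ) + ((N : ℝ) + 1) ^ (-(5 / 24) : ℝ)) := by
          nlinarith [sq_nonneg C1]
      _ ≤ (2 * C1 ^ 2 + 2) * ((r : ℝ) ^ (-(5 / 24) : ℝ) + ((N : ℝ) + 1) ^ (-(5 / 24) : ℝ)) *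
          (Real.exp 10 * Real.exp (-((r : ℝ) / (2 * (N + 1))))) := le_mul_of_one_le_right h5 h4
      _ = _ := by ring
  · have h2 := sub_decay h0 h1 hN hg h
    have h3 : p1 q m ^ 2 ≤ (Real.exp 4 * p1 q (2 * N) * Real.exp (-((m : ℝ) / (N + 1)))) ^ 2 :=
      pow_le_pow_left₀ hp h2 2
    have h4 := hmono (2 * N) (by omega)
    have h5 : ((2 * N : ℕ) : ℝ) ^ (-(5 / 24) : ℝ) ≤ ((N : ℝ) + 1) ^ (-(5 / 24) : ℝ) := by
      refine Real.rpow_le_rpow_of_nonpos hK ?_ (by norm_num)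
      have : (3 : ℝ) ≤ N := by exact_mod_cast hN
      push_cast
      linarith
    have h6 : Real.exp (-((m : ℝ) / (N + 1))) ^ 2 ≤ Real.exp 2 * Real.exp (-((r : ℝ) / (2 * (N + 1)))) := by
      rw [← Real.exp_nat_mul, ← Real.exp_add]
      refine Real.exp_le_exp.2 ?_
      have h7 : (r : ℝ) ≤ 2 * m + 2 := by
        have : r ≤ 2 * m + 2 := by omega
        exact_mod_cast this
      have h8 : (r : ℝ) / (2 * (N + 1)) ≤ (2 * m + 2) / (2 * (N + 1)) :=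
        div_le_div_of_nonneg_right h7 (by positivity)
      have h9 : (2 * (m : ℝ) + 2) / (2 * (N + 1)) = m / (N + 1) + 1 / (N + 1) := by
        field_simp
      have h10 : 1 / ((N : ℝ) + 1) ≤ 1 := by
        rw [div_le_one hK]
        have : (0 : ℝ) ≤ N := by positivity
        linarith
      have h11 : 0 ≤ (m : ℝ) / (N + 1) := by positivity
      push_cast
      linarith
    have h7 : p1 q (2 * N) ^ 2 ≤ C1 ^ 2 * ((N : ℝ) + 1) ^ (-(5 / 24) : ℝ) :=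
      h4.trans (mul_le_mul_of_nonneg_left h5 (sq_nonneg C1))
    have h8 : (Real.exp 4 * p1 q (2 * N) * Real.exp (-((m : ℝ) / (N + 1)))) ^ 2 =
        Real.exp 8 * p1 q (2 * N) ^ 2 * Real.exp (-((m : ℝ) / (N + 1))) ^ 2 := by
      have : Real.exp 8 = Real.exp 4 ^ 2 := by
        rw [← Real.exp_nat_mul]
        norm_num
      rw [this]
      ring
    have h9 : Real.exp 8 * Real.exp 2 = Real.exp 10 := by
      rw [← Real.exp_add]
      norm_num
    have hE := Real.exp_pos (-((r : ℝ) / (2 * (N + 1))))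
    calc p1 q m ^ 2 ≤ Real.exp 8 * p1 q (2 * N) ^ 2 * Real.exp (-((m : ℝ) / (N + 1))) ^ 2 := h3.trans h8.le
      _ ≤ Real.exp 8 * (C1 ^ 2 * ((N : ℝ) + 1) ^ (-(5 / 24) : ℝ)) *
          (Real.exp 2 * Real.exp (-((r : ℝ) / (2 * (N + 1))))) := by
          refine mul_le_mul (mul_le_mul_of_nonneg_left h7 (Real.exp_pos _).le) h6 (by positivity) (by positivity)
      _ = C1 ^ 2 * Real.exp 10 * ((N : ℝ) + 1) ^ (-(5 / 24) : ℝ) * Real.exp (-((r : ℝ) / (2 * (N + 1)))) := by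
          rw [← h9]
          ring
      _ ≤ (2 * C1 ^ 2 + 2) * Real.exp 10 * ((r : ℝ) ^ (-(5 / 24) : ℝ) + ((N : ℝ) + 1) ^ (-(5 / 24) : ℝ)) *
          Real.exp (-((r : ℝ) / (2 * (N + 1)))) := by
          refine mul_le_mul_of_nonneg_right ?_ hE.le
          refine mul_le_mul ?_ (by linarith) hKp.le (by positivity)
          refine mul_le_mul_of_nonneg_right ?_ (Real.exp_pos _).le
          nlinarith [sq_nonneg C1]

/-- one term of the sum over the spheres -/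
theorem term_bd {K : ℝ} (hK : 0 < K) {r : ℕ} (hr : 1 ≤ r) :
    (r : ℝ) * (((r : ℝ) ^ (-(5 / 24) : ℝ) + K ^ (-(5 / 24) : ℝ)) * Real.exp (-((r : ℝ) / (2 * K)))) ≤
      8 * K ^ (19 / 24 : ℝ) * Real.exp (-((r : ℝ) / (4 * K))) := by
  have hr0 : (0 : ℝ) < r := by exact_mod_cast hr
  have hKp : 0 < K ^ (19 / 24 : ℝ) := Real.rpow_pos_of_pos hK _
  have e1 : (r : ℝ) * (r : ℝ) ^ (-(5 / 24) : ℝ) = (r : ℝ) ^ (19 / 24 : ℝ) := by
    rw [← Real.rpow_one_add' hr0.le (by norm_num)]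
    norm_num
  have e2 : (r : ℝ) * K ^ (-(5 / 24) : ℝ) = K ^ (19 / 24 : ℝ) * (r / K) := by
    have : K ^ (19 / 24 : ℝ) = K * K ^ (-(5 / 24) : ℝ) := by
      rw [← Real.rpow_one_add' hK.le (by norm_num)]
      norm_num
    rw [this]
    field_simp
  have h1 : (r : ℝ) ^ (19 / 24 : ℝ) ≤ K ^ (19 / 24 : ℝ) * (1 + r / K) := by
    have h2 : (r : ℝ) ^ (19 / 24 : ℝ) = K ^ (19 / 24 : ℝ) * (r / K) ^ (19 / 24 : ℝ) := by
      rw [← Real.mul_rpow hK.le (by positivity)]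
      congr 1
      field_simp
    rw [h2]
    refine mul_le_mul_of_nonneg_left ?_ hKp.le
    have h3 : 0 ≤ (r : ℝ) / K := by positivity
    rcases le_total ((r : ℝ) / K) 1 with h4 | h4
    · have := Real.rpow_le_one h3 h4 (by norm_num : (0 : ℝ) ≤ 19 / 24)
      linarith
    · have : ((r : ℝ) / K) ^ (19 / 24 : ℝ) ≤ ((r : ℝ) / K) ^ (1 : ℝ) :=
        Real.rpow_le_rpow_of_exponent_le h4 (by norm_num)
      rw [Real.rpow_one] at this
      linarith
  have h5 : (1 + 2 * ((r : ℝ) / K)) * Real.exp (-((r : ℝ) / (2 * K))) ≤ 8 * Real.exp (-((r : ℝ) / (4 * K))) := by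
    have h6 := Real.add_one_le_exp ((r : ℝ) / (4 * K))
    have h7 : Real.exp (-((r : ℝ) / (2 * K))) * Real.exp ((r : ℝ) / (4 * K)) = Real.exp (-((r : ℝ) / (4 * K))) := by
      rw [← Real.exp_add]
      congr 1
      field_simp
      ring
    have h8 := Real.exp_pos (-((r : ℝ) / (2 * K)))
    have h9 : (r : ℝ) / (4 * K) = (r / K) / 4 := by field_simp
    have h10 : 1 + 2 * ((r : ℝ) / K) ≤ 8 * Real.exp ((r : ℝ) / (4 * K)) := by
      rw [h9] at h6 ⊢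
      linarith
    calc (1 + 2 * ((r : ℝ) / K)) * Real.exp (-((r : ℝ) / (2 * K)))
        ≤ 8 * Real.exp ((r : ℝ) / (4 * K)) * Real.exp (-((r : ℝ) / (2 * K))) := mul_le_mul_of_nonneg_right h10 h8.le
      _ = 8 * (Real.exp (-((r : ℝ) / (2 * K))) * Real.exp ((r : ℝ) / (4 * K))) := by ring
      _ = _ := by rw [h7]
  have h8 := Real.exp_pos (-((r : ℝ) / (2 * K)))
  calc (r : ℝ) * (((r : ℝ) ^ (-(5 / 24) : ℝ) + K ^ (-(5 / 24) : ℝ)) * Real.exp (-((r : ℝ) / (2 * K))))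
      = ((r : ℝ) * (r : ℝ) ^ (-(5 / 24) : ℝ) + (r : ℝ) * K ^ (-(5 / 24) : ℝ)) * Real.exp (-((r : ℝ) / (2 * K))) := by ring
    _ ≤ (K ^ (19 / 24 : ℝ) * (1 + r / K) + K ^ (19 / 24 : ℝ) * (r / K)) * Real.exp (-((r : ℝ) / (2 * K))) := by
        rw [e1, e2]
        exact mul_le_mul_of_nonneg_right (by linarith) h8.le
    _ = K ^ (19 / 24 : ℝ) * ((1 + 2 * ((r : ℝ) / K)) * Real.exp (-((r : ℝ) / (2 * K)))) := by ring
    _ ≤ K ^ (19 / 24 : ℝ) * (8 * Real.exp (-((r : ℝ) / (4 * K)))) := mul_le_mul_of_nonneg_left h5 hKp.le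
    _ = _ := by ring

/-- sum over the spheres -/
theorem sum_spheres (n : ℕ) (f : ℕ → ℝ) (hf0 : ∀ r, 0 ≤ f r) :
    ∑ v ∈ (vx n).erase (0, 0), f (sd (0, 0) v).toNat ≤ ∑ r ∈ Icc 1 n, 8 * ((r : ℝ) * f r) := by
  have h1 : ∀ v ∈ (vx n).erase (0, 0), (sd (0, 0) v).toNat ∈ Icc 1 n := by
    intro v hv
    rw [mem_erase] at hv
    have h2 := mem_vx.1 hv.2
    have h4 : 1 ≤ sd (0, 0) v := by
      have h5 := sd_nonneg (0, 0) v
      have h6 : sd (0, 0) v ≠ 0 := by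
        intro h7
        have h8 := (sd_le (u := (0, 0)) (v := v) (m := 0)).1 h7.le
        simp only at h8
        exact hv.1 (Prod.ext (by simp only; omega) (by simp only; omega))
      omega
    rw [mem_Icc]
    omega
  rw [← sum_fiberwise_of_maps_to h1]
  refine sum_le_sum fun r hr => ?_
  rw [mem_Icc] at hr
  have h3 : ∑ v ∈ ((vx n).erase (0, 0)).filter (fun v => (sd (0, 0) v).toNat = r), f (sd (0, 0) v).toNat =
      (((vx n).erase (0, 0)).filter (fun v => (sd (0, 0) v).toNat = r)).card * f r := by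
    rw [← nsmul_eq_mul, ← sum_const]
    exact sum_congr rfl fun v hv => by rw [(mem_filter.1 hv).2]
  have h4 : (((vx n).erase (0, 0)).filter (fun v => (sd (0, 0) v).toNat = r)).card ≤ 8 * r := by
    refine le_trans (card_le_card fun v hv => ?_) (card_sphere (0, 0) r hr.1 (vx n))
    rw [mem_filter] at hv ⊢
    refine ⟨mem_of_mem_erase hv.1, ?_⟩
    have h5 := sd_nonneg (0, 0) v
    omega
  rw [h3]
  calc ((((vx n).erase (0, 0)).filter (fun v => (sd (0, 0) v).toNat = r)).card : ℝ) * f r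
      ≤ (8 * r : ℕ) * f r := mul_le_mul_of_nonneg_right (by exact_mod_cast h4) (hf0 r)
    _ = 8 * ((r : ℝ) * f r) := by
        push_cast
        ring

theorem tauP_le {q : unitInterval} {x : V} {m : ℕ} (h : 2 * (m : ℤ) < sd (0, 0) x) : tauP q x ≤ p1 q m ^ 2 := by
  rw [tau_sup]
  refine ciSup_le fun n => ?_
  refine le_trans ?_ (tau_up q.2.1 q.2.2 h (bx n))
  exact pq_mono q.2.1 q.2.2 fun ω _ hω => Conn.reach hω

theorem tauP_nonneg (q : unitInterval) (x : V) : 0 ≤ tauP q x := MeasureTheory.measureReal_nonneg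

theorem tauP_le_one (q : unitInterval) (x : V) : tauP q x ≤ 1 := MeasureTheory.measureReal_le_one

/-- **The mean cluster size, upper bound** -/
theorem chi_le {C1 : ℝ} (hC : 0 < C1) (hpi : ∀ n : ℕ, 1 ≤ n → p1 (1 / 2) n ≤ C1 * (n : ℝ) ^ (-(5 / 48) : ℝ)) :
    ∃ C : ℝ, 0 < C ∧ ∀ (q : unitInterval) (N : ℕ), (q : ℝ) ≤ 1 / 2 → 3 ≤ N →
      gf (1 - (q : ℝ)) N ≤ Real.exp (-8) / 25 → chiP q ≤ ENNReal.ofReal (C * ((N : ℝ) + 1) ^ (43 / 24 : ℝ)) := by
  set C3 : ℝ := (2 * C1 ^ 2 + 2) * Real.exp 10 with hC3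
  have hC3p : 0 < C3 := by positivity
  refine ⟨256 * C3 + 1, by positivity, fun q N hq hN hg => ?_⟩
  set K : ℝ := (N : ℝ) + 1 with hKdef
  have hK : 0 < K := by positivity
  have hK1 : 1 ≤ K := by
    have : (0 : ℝ) ≤ N := by positivity
    linarith
  have hbox : ∀ n : ℕ, ∑ x ∈ vx n, tauP q x ≤ (256 * C3 + 1) * K ^ (43 / 24 : ℝ) := by
    intro n
    have h0 : ((0, 0) : V) ∈ vx n := by
      rw [mem_vx, sd_self]
      positivity
    rw [← Finset.add_sum_erase _ _ h0]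
    have h1 : ∑ x ∈ (vx n).erase (0, 0), tauP q x ≤
        ∑ x ∈ (vx n).erase (0, 0), (fun r : ℕ => p1 q ((r - 1) / 2) ^ 2) (sd (0, 0) x).toNat := by
      refine sum_le_sum fun x hx => ?_
      refine tauP_le ?_
      rw [mem_erase] at hx
      have h5 := sd_nonneg (0, 0) x
      have h6 : sd (0, 0) x ≠ 0 := by
        intro h7
        have h8 := (sd_le (u := (0, 0)) (v := x) (m := 0)).1 h7.le
        simp only at h8
        exact hx.1 (Prod.ext (by simp only; omega) (by simp only; omega))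
      omega
    have h2 := sum_spheres n (fun r : ℕ => p1 q ((r - 1) / 2) ^ 2) (fun r => sq_nonneg _)
    have h3 : ∑ r ∈ Icc 1 n, 8 * ((r : ℝ) * p1 q ((r - 1) / 2) ^ 2) ≤
        ∑ r ∈ Icc 1 n, 64 * C3 * K ^ (19 / 24 : ℝ) * Real.exp (-((r : ℝ) / (4 * K))) := by
      refine sum_le_sum fun r hr => ?_
      rw [mem_Icc] at hr
      have h4 := F_bd hC hpi q.2.1 hq hN hg hr.1
      have h5 := term_bd hK hr.1
      have hr0 : (0 : ℝ) ≤ r := by positivity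
      have h6 := mul_le_mul_of_nonneg_left h4 hr0
      calc 8 * ((r : ℝ) * p1 q ((r - 1) / 2) ^ 2)
          ≤ 8 * (r * (C3 * ((r : ℝ) ^ (-(5 / 24) : ℝ) + K ^ (-(5 / 24) : ℝ)) * Real.exp (-((r : ℝ) / (2 * K))))) := by
            linarith
        _ = 8 * C3 * ((r : ℝ) * (((r : ℝ) ^ (-(5 / 24) : ℝ) + K ^ (-(5 / 24) : ℝ)) * Real.exp (-((r : ℝ) / (2 * K))))) := by
            ring
        _ ≤ 8 * C3 * (8 * K ^ (19 / 24 : ℝ) * Real.exp (-((r : ℝ) / (4 * K)))) :=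
            mul_le_mul_of_nonneg_left h5 (by positivity)
        _ = _ := by ring
    have h4 : ∑ r ∈ Icc 1 n, 64 * C3 * K ^ (19 / 24 : ℝ) * Real.exp (-((r : ℝ) / (4 * K))) ≤
        64 * C3 * K ^ (19 / 24 : ℝ) * (4 * K) := by
      rw [← mul_sum]
      exact mul_le_mul_of_nonneg_left (sum_exp hK n) (by positivity)
    have e1 : K ^ (43 / 24 : ℝ) = K * K ^ (19 / 24 : ℝ) := by
      rw [← Real.rpow_one_add' hK.le (by norm_num)]
      norm_num
    have h5 : 1 ≤ K ^ (43 / 24 : ℝ) := Real.one_le_rpow hK1 (by norm_num)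
    have h6 := tauP_le_one q (0, 0)
    have h7 : 64 * C3 * K ^ (19 / 24 : ℝ) * (4 * K) = 256 * C3 * K ^ (43 / 24 : ℝ) := by
      rw [e1]
      ring
    rw [h7] at h4
    have h8 : (256 * C3 + 1) * K ^ (43 / 24 : ℝ) = 256 * C3 * K ^ (43 / 24 : ℝ) + K ^ (43 / 24 : ℝ) := by ring
    rw [h8]
    linarith
  rw [chi_sum, ENNReal.tsum_eq_iSup_sum]
  refine iSup_le fun s => ?_
  obtain ⟨n, hn⟩ : ∃ n : ℕ, s ⊆ vx n := by
    refine ⟨s.sup (fun x => (sd (0, 0) x).toNat), fun x hx => ?_⟩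
    rw [mem_vx]
    have h1 : (sd (0, 0) x).toNat ≤ s.sup (fun x => (sd (0, 0) x).toNat) :=
      Finset.le_sup (f := fun x => (sd (0, 0) x).toNat) hx
    have h2 := sd_nonneg (0, 0) x
    omega
  calc ∑ x ∈ s, ENNReal.ofReal (tauP q x) ≤ ∑ x ∈ vx n, ENNReal.ofReal (tauP q x) := Finset.sum_le_sum_of_subset hn
    _ = ENNReal.ofReal (∑ x ∈ vx n, tauP q x) := (ENNReal.ofReal_sum_of_nonneg fun x _ => tauP_nonneg q x).symm
    _ ≤ ENNReal.ofReal ((256 * C3 + 1) * K ^ (43 / 24 : ℝ)) := ENNReal.ofReal_le_ofReal (hbox n)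

end FKF
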