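import Pool.Agent.Lib.MP_216314_pr.N.FX4
import Pool.Agent.Lib.MP_216314_pr.N.GL

/-!
# The mean cluster size, lower bound
-/

set_option autoImplicit false

noncomputable section

namespace FKF

open Finset FKI FKN
open FKP hiding bx an

theorem tauP_ge (q : unitInterval) (x : V) (n : ℕ) :
    IPC.Pr q (bx n) (fun ω => Conn (bx n) ω (0, 0) x) ≤ tauP q x := by
  rw [tau_sup]
  exact le_ciSup (f := fun n : ℕ => IPC.Pr q (bx n) (fun ω => Conn (bx n) ω (0, 0) x))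
    ⟨1, by rintro _ ⟨m, rfl⟩; exact IPC.Pr_le_one q.2.1 q.2.2 _ _⟩ n

/-- lower bound for the two point function below the characteristic length -/
theorem tau_ge : ∀ ε : ℝ, 0 < ε → ∃ c : ℝ, 0 < c ∧ ∀ (q : unitInterval) (N : ℕ), 2 ≤ N → RS ε q N →
    ∀ x ∈ vx N, c * p1 q N ^ 2 ≤ tauP q x := by
  intro ε hε
  obtain ⟨c, hc, hrsw⟩ := rswIn ε hε 10
  refine ⟨c ^ 10, by positivity, fun q N hN hR x hx => ?_⟩
  have h0 := q.2.1
  have h1 := q.2.2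
  obtain ⟨a, ha⟩ : ∃ a : ℕ, |x.1| = a := ⟨x.1.natAbs, by rw [Int.abs_eq_natAbs]⟩
  obtain ⟨b, hb⟩ : ∃ b : ℕ, |x.2| = b := ⟨x.2.natAbs, by rw [Int.abs_eq_natAbs]⟩
  rw [mem_vx, sd_le] at hx
  simp only [zero_sub, zero_add] at hx
  have ha2 : |x.1| ≤ N := abs_le.2 hx.1
  have hb2 : |x.2| ≤ N := abs_le.2 hx.2
  have ha' : a ≤ N := by
    rw [ha] at ha2
    exact_mod_cast ha2
  have hb' : b ≤ N := by
    rw [hb] at hb2
    exact_mod_cast hb2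
  have h2 := tau_low h0 h1 (x := x) (a := a) (b := b) (j := N / 2) (k := N) (N := a + b + 2 * N) (by omega) ha hb le_rfl
  have h3 := h2.trans (tauP_ge q x (a + b + 2 * N))
  have r1 : c ≤ hq q (2 * N) (N - N / 2) := (hrsw q N h0 h1 hR _ _ (by omega) (by omega)).1 (by omega) (by omega)
  have r2 : c ≤ hq q (a + 4 * N) (2 * (N / 2)) := (hrsw q N h0 h1 hR _ _ (by omega) (by omega)).1 (by omega) (by omega)
  have r3 : c ≤ hq q (b + 4 * N) (2 * (N / 2)) := (hrsw q N h0 h1 hR _ _ (by omega) (by omega)).1 (by omega) (by omega)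
  have hp := sq_nonneg (p1 q N)
  refine le_trans ?_ h3
  calc c ^ 10 * p1 q N ^ 2 = p1 q N ^ 2 * c ^ 8 * c * c := by ring
    _ ≤ p1 q N ^ 2 * hq q (2 * N) (N - N / 2) ^ 8 * hq q (a + 4 * N) (2 * (N / 2)) * hq q (b + 4 * N) (2 * (N / 2)) := by
        have r0 := hq_nonneg h0 h1 (2 * N) (N - N / 2)
        have r4 := hq_nonneg h0 h1 (a + 4 * N) (2 * (N / 2))
        refine mul_le_mul (mul_le_mul (mul_le_mul_of_nonneg_left (pow_le_pow_left₀ hc.le r1 8) hp) r2 hc.le ?_) r3 hc.le ?_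
        · positivity
        · positivity

/-- **The mean cluster size, lower bound** -/
theorem chi_ge : ∀ ε : ℝ, 0 < ε → ∃ c : ℝ, 0 < c ∧ ∀ (q : unitInterval) (N : ℕ), 2 ≤ N → RS ε q N →
    ENNReal.ofReal (c * (N : ℝ) ^ 2 * p1 q N ^ 2) ≤ chiP q := by
  intro ε hε
  obtain ⟨c, hc, hτ⟩ := tau_ge ε hε
  refine ⟨c, hc, fun q N hN hR => ?_⟩
  have h1 : c * (N : ℝ) ^ 2 * p1 q N ^ 2 ≤ ∑ x ∈ vx N, tauP q x := by
    have h2 : ∑ _x ∈ vx N, c * p1 q N ^ 2 ≤ ∑ x ∈ vx N, tauP q x := sum_le_sum fun x hx => hτ q N hN hR x hx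
    rw [sum_const, card_vx, nsmul_eq_mul] at h2
    refine le_trans ?_ h2
    have h3 : (N : ℝ) ^ 2 ≤ (((2 * N + 1) ^ 2 : ℕ) : ℝ) := by
      push_cast
      have : (0 : ℝ) ≤ N := by positivity
      nlinarith
    have h4 : 0 ≤ c * p1 q N ^ 2 := by positivity
    calc c * (N : ℝ) ^ 2 * p1 q N ^ 2 = (N : ℝ) ^ 2 * (c * p1 q N ^ 2) := by ring
      _ ≤ _ := mul_le_mul_of_nonneg_right h3 h4
  calc ENNReal.ofReal (c * (N : ℝ) ^ 2 * p1 q N ^ 2) ≤ ENNReal.ofReal (∑ x ∈ vx N, tauP q x) := ENNReal.ofReal_le_ofReal h1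
    _ = ∑ x ∈ vx N, ENNReal.ofReal (tauP q x) := ENNReal.ofReal_sum_of_nonneg fun x _ => tauP_nonneg q x
    _ ≤ ∑' x : V, ENNReal.ofReal (tauP q x) := ENNReal.sum_le_tsum _
    _ = chiP q := (chi_sum q).symm

end FKF
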