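import Pool.Agent.Lib.MP_216314_pr.N.FX1
import Pool.Agent.Lib.MP_216314_pr.N.FI

/-!
# The correlation length

`xi_lim`: `- log P_p(0 <-> (n,0)) / n` converges. `xi_ge`, `xi_le`: bounds of the limit from the one arm probabilities and from the
crossing probabilities.
-/

set_option autoImplicit false

noncomputable section

namespace FKF

open Finset FKI FKN Filter Topology
open FKP hiding bx

/-- finite volume two point function -/
def FX5t (q : ℝ) (N : ℕ) (x : V) : ℝ := IPC.Pr q (bx N) (fun ω => Conn (bx N) ω (0, 0) x)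

theorem FX5_bd {q : ℝ} (h0 : 0 ≤ q) (h1 : q ≤ 1) (N : ℕ) (x : V) : 0 ≤ FX5t q N x ∧ FX5t q N x ≤ 1 :=
  ⟨pq_nonneg h0 h1 _ _, pq_le_one h0 h1 _ _⟩

theorem FX5_sup {q : ℝ} (h0 : 0 ≤ q) (h1 : q ≤ 1) (N m n : ℕ) :
    FX5t q N ((m : ℤ), 0) * FX5t q N ((n : ℤ), 0) ≤ FX5t q (N + m) (((m + n : ℕ) : ℤ), 0) := by
  have hN : bx N ⊆ bx (N + m) := FI_bx (Nat.le_add_right _ _)
  have p1' : FX5t q N ((m : ℤ), 0) ≤
      IPC.Pr q (bx (N + m)) (fun ω => Conn (bx (N + m)) ω (0, 0) ((m : ℤ), 0)) := by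
    have h2 : FX5t q N ((m : ℤ), 0) = IPC.Pr q (bx (N + m)) (fun ω => Conn (bx N) ω (0, 0) ((m : ℤ), 0)) :=
      (pq_dep q hN (dep_Conn (Finset.Subset.refl _) _ _)).symm
    rw [h2]
    exact pq_mono h0 h1 fun ω _ h => h.mono hN (Finset.Subset.refl _)
  have hF : (bx N).map (shE (m : ℤ) 0).toEmbedding ⊆ bx (N + m) := by
    unfold bx
    rw [box_sh]
    exact box_mono (by push_cast; omega) (by push_cast; omega) (by push_cast; omega) (by push_cast; omega)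
  have p2' : FX5t q N ((n : ℤ), 0) ≤
      IPC.Pr q (bx (N + m)) (fun ω => Conn (bx (N + m)) ω ((m : ℤ), 0) (((m + n : ℕ) : ℤ), 0)) := by
    have h2 : FX5t q N ((n : ℤ), 0) = IPC.Pr q (bx (N + m))
        (fun ω => Conn ((bx N).map (shE (m : ℤ) 0).toEmbedding) ω ((m : ℤ), 0) (((m + n : ℕ) : ℤ), 0)) := by
      rw [pq_dep q hF (dep_Conn (Finset.Subset.refl _) _ _), pq_map]
      refine pq_congr fun ω _ => ?_
      have h3 := conn_map (cp_sh (m : ℤ) 0) (bx N) ω (0, 0) ((n : ℤ), 0)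
      have e1 : shV (m : ℤ) 0 (0, 0) = ((m : ℤ), 0) := by
        show ((0 : ℤ) + m, (0 : ℤ) + 0) = ((m : ℤ), 0)
        simp
      have e2 : shV (m : ℤ) 0 ((n : ℤ), 0) = (((m + n : ℕ) : ℤ), 0) := by
        show ((n : ℤ) + m, (0 : ℤ) + 0) = (((m + n : ℕ) : ℤ), 0)
        rw [add_zero]
        push_cast
        rw [add_comm]
      rw [e1, e2] at h3
      exact h3.symm
    rw [h2]
    exact pq_mono h0 h1 fun ω _ h => h.mono hF (Finset.Subset.refl _)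
  have f1 := fkg2 h0 h1 (inc_Conn (bx (N + m)) (0, 0) ((m : ℤ), 0))
    (inc_Conn (bx (N + m)) ((m : ℤ), 0) (((m + n : ℕ) : ℤ), 0)) (FX5_bd h0 h1 _ _).1 p1' p2'
  refine f1.trans (pq_mono h0 h1 fun ω _ h => h.1.trans h.2)

theorem FX5_line {q : ℝ} (h0 : 0 ≤ q) (h1 : q ≤ 1) (n : ℕ) : q ^ n ≤ FX5t q n ((n : ℤ), 0) := by
  have hsub : box 0 (n : ℤ) 0 0 ⊆ bx n := by
    unfold bx
    exact box_mono (by omega) le_rfl (by omega) (by omega)
  have hcard : (box 0 (n : ℤ) 0 0).card = n := by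
    have h1 : box 0 (n : ℤ) 0 0 = Ico 0 (n : ℤ) ×ˢ (Icc 0 0 ×ˢ {false}) := by
      unfold FKP.box
      simp
    rw [h1, card_product, card_product]
    simp
  have h2 := pq_all q hsub
  rw [hcard] at h2
  rw [← h2]
  exact pq_mono h0 h1 fun ω _ h => (pexit_line n n le_rfl).mono hsub h

theorem FX5_lim (p : unitInterval) (x : V) : Tendsto (fun N => FX5t p N x) atTop (𝓝 (tauP p x)) := tau_tendsto p x

theorem FX5_le (p : unitInterval) (N : ℕ) (x : V) : FX5t p N x ≤ tauP p x :=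
  (tau_mono p x).ge_of_tendsto (tau_tendsto p x) N

/-- supermultiplicativity -/
theorem FX5_mul (p : unitInterval) (m n : ℕ) :
    tauP p ((m : ℤ), 0) * tauP p ((n : ℤ), 0) ≤ tauP p (((m + n : ℕ) : ℤ), 0) := by
  refine le_of_tendsto' ((FX5_lim p ((m : ℤ), 0)).mul (FX5_lim p ((n : ℤ), 0))) fun N => ?_
  exact (FX5_sup p.2.1 p.2.2 N m n).trans (FX5_le p _ _)

theorem FX5_pos (p : unitInterval) (hp : 0 < (p : ℝ)) (n : ℕ) : 0 < tauP p ((n : ℤ), 0) :=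
  lt_of_lt_of_le (pow_pos hp n) ((FX5_line p.2.1 p.2.2 n).trans (FX5_le p n _))

theorem FX5_le_one (p : unitInterval) (x : V) : tauP p x ≤ 1 :=
  le_of_tendsto' (FX5_lim p x) fun N => (FX5_bd p.2.1 p.2.2 N x).2

/-- the exponential decay rate of the two point function -/
theorem xi_lim (p : unitInterval) (hp : 0 < (p : ℝ)) :
    ∃ x : ℝ, 0 ≤ x ∧ Tendsto (fun n : ℕ => -Real.log (tauP p ((n : ℤ), 0)) / n) atTop (𝓝 x) := by
  have hnn : ∀ n : ℕ, 0 ≤ -Real.log (tauP p ((n : ℤ), 0)) := fun n => by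
    have := Real.log_nonpos (FX5_pos p hp n).le (FX5_le_one p _)
    linarith
  have hsub : Subadditive (fun n : ℕ => -Real.log (tauP p ((n : ℤ), 0))) := by
    intro m n
    have h1 := FX5_mul p m n
    have h2 := Real.log_le_log (mul_pos (FX5_pos p hp m) (FX5_pos p hp n)) h1
    rw [Real.log_mul (FX5_pos p hp m).ne' (FX5_pos p hp n).ne'] at h2
    linarith
  have hbdd : BddBelow (Set.range fun n : ℕ => -Real.log (tauP p ((n : ℤ), 0)) / n) := by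
    refine ⟨0, ?_⟩
    rintro _ ⟨n, rfl⟩
    exact div_nonneg (hnn n) (Nat.cast_nonneg n)
  have h3 := hsub.tendsto_lim hbdd
  exact ⟨hsub.lim, ge_of_tendsto' h3 fun n => div_nonneg (hnn n) (Nat.cast_nonneg n), h3⟩

theorem FX5_up (p : unitInterval) {m n : ℕ} (h : 2 * m < n) : tauP p ((n : ℤ), 0) ≤ p1 p m ^ 2 := by
  refine le_of_tendsto' (FX5_lim p _) fun N => ?_
  have h2 : 2 * (m : ℤ) < sd (0, 0) ((n : ℤ), 0) := by
    rw [← nrm_sd]
    refine lt_of_lt_of_le ?_ (le_max_left _ _)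
    show 2 * (m : ℤ) < |(n : ℤ)|
    rw [Nat.abs_cast]
    exact_mod_cast h
  exact (pq_mono p.2.1 p.2.2 fun ω _ hc => hc.reach).trans (tau_up p.2.1 p.2.2 h2 (bx N))

/-- lower bound of the decay rate -/
theorem xi_ge (p : unitInterval) (hp : 0 < (p : ℝ)) {K C x : ℝ} {n0 : ℕ} (hK : 0 < K)
    (h : ∀ n : ℕ, n0 ≤ n → p1 p n ≤ C * Real.exp (-(n : ℝ) / K))
    (hx : Tendsto (fun n : ℕ => -Real.log (tauP p ((n : ℤ), 0)) / n) atTop (𝓝 x)) : 1 / K ≤ x := by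
  have hpos : ∀ n : ℕ, 2 * n0 + 2 ≤ n → 0 < C := by
    intro n hn
    by_contra hC
    push Not at hC
    have h1 := h n (by omega)
    have h2 : 0 < p1 p n := by
      by_contra h3
      push Not at h3
      have h4 : p1 p n = 0 := le_antisymm h3 (p1_bd p.2.1 p.2.2 n).1
      have h5 := FX5_up p (m := n) (n := 2 * n + 1) (by omega)
      rw [h4, zero_pow two_ne_zero] at h5
      exact absurd (FX5_pos p hp (2 * n + 1)) (not_lt.2 h5)
    have h3 : C * Real.exp (-(n : ℝ) / K) ≤ 0 := mul_nonpos_of_nonpos_of_nonneg hC (Real.exp_pos _).le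
    linarith
  have hC := hpos (2 * n0 + 2) le_rfl
  have key : ∀ n : ℕ, 2 * n0 + 2 ≤ n →
      (-(2 * Real.log C) - 2 / K) / n + 1 / K ≤ -Real.log (tauP p ((n : ℤ), 0)) / n := by
    intro n hn
    have hn0 : (0 : ℝ) < n := by exact_mod_cast (show 0 < n by omega)
    obtain ⟨m, hm1, hm2, hm3⟩ : ∃ m : ℕ, 2 * m < n ∧ n ≤ 2 * m + 2 ∧ n0 ≤ m :=
      ⟨(n - 1) / 2, by omega, by omega, by omega⟩
    have h1 := FX5_up p hm1
    have h2 := h m hm3
    have h3 : tauP p ((n : ℤ), 0) ≤ (C * Real.exp (-(m : ℝ) / K)) ^ 2 :=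
      h1.trans (pow_le_pow_left₀ (p1_bd p.2.1 p.2.2 m).1 h2 2)
    have h4 := Real.log_le_log (FX5_pos p hp n) h3
    rw [Real.log_pow, Real.log_mul hC.ne' (Real.exp_pos _).ne', Real.log_exp] at h4
    push_cast at h4
    have h5 : (n : ℝ) ≤ 2 * m + 2 := by exact_mod_cast hm2
    have h6 : ((n : ℝ) - 2) / K ≤ 2 * (m / K) := by
      rw [← mul_div_assoc]
      exact div_le_div_of_nonneg_right (by linarith) hK.le
    rw [le_div_iff₀ hn0, add_mul, div_mul_cancel₀ _ hn0.ne']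
    have h7 : ((n : ℝ) - 2) / K = 1 / K * n - 2 / K := by ring
    have h8 : -(m : ℝ) / K = -(m / K) := by ring
    rw [h8] at h4
    linarith
  have hlim : Tendsto (fun n : ℕ => (-(2 * Real.log C) - 2 / K) / n + 1 / K) atTop (𝓝 (0 + 1 / K)) :=
    (tendsto_const_div_atTop_nhds_zero_nat _).add_const _
  rw [zero_add] at hlim
  refine le_of_tendsto_of_tendsto hlim hx ?_
  filter_upwards [eventually_ge_atTop (2 * n0 + 2)] with n hn
  exact key n hn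

theorem FX5_glue {q c : ℝ} (h0 : 0 ≤ q) (h1 : q ≤ 1) {N : ℕ} (hc : 0 < c) (k2 : c ≤ hq q (2 * N) N)
    (k1 : c ≤ hq q N N) (l : ℕ) : c ^ (2 * l + 1) ≤ hq q ((l + 1) * N) N := by
  induction l with
  | zero =>
    rw [Nat.mul_zero, zero_add, pow_one, one_mul]
    exact k1
  | succ l ih =>
    have h2 := hq_glue h0 h1 (a := (l + 1) * N) (b := 2 * N) (N := N) (Nat.le_mul_of_pos_left _ (by omega)) (by omega)
    have h3 : (l + 1) * N + 2 * N - N = (l + 1 + 1) * N := by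
      rw [Nat.add_mul (l + 1) 1 N, one_mul]
      omega
    rw [h3] at h2
    have h4 : c ^ (2 * (l + 1) + 1) = c ^ (2 * l + 1) * c * c := by ring
    rw [h4]
    refine le_trans ?_ h2
    have h5 : 0 ≤ c ^ (2 * l + 1) := by positivity
    exact mul_le_mul (mul_le_mul ih k2 hc.le (h5.trans ih)) k1 hc.le
      (mul_nonneg (h5.trans ih) (hc.le.trans k2))

theorem FX5_p1pos {q : ℝ} (h0 : 0 < q) (h1 : q ≤ 1) (n : ℕ) : 0 < p1 q n := by
  refine lt_of_lt_of_le (pow_pos h0 n) ((FX5_line h0.le h1 n).trans ?_)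
  refine pq_mono h0.le h1 fun ω _ hc => ⟨((n : ℤ), 0), ?_, hc⟩
  unfold nrm
  simp

theorem FX5_alg {a b d c g g' : ℝ} {l : ℕ} (ha : 0 ≤ a) (hb : 0 ≤ b) (hd : 0 ≤ d) (hc : 0 < c)
    (h : c ^ (2 * l) * c ^ 13 ≤ g) (hg : a ^ 2 * b ^ 8 * g * d ≤ g') :
    a ^ 2 * b ^ 8 * d * c ^ 13 * c ^ (2 * l) ≤ g' := by
  refine le_trans ?_ hg
  have h9 : 0 ≤ a ^ 2 * b ^ 8 := by positivity
  calc a ^ 2 * b ^ 8 * d * c ^ 13 * c ^ (2 * l) = a ^ 2 * b ^ 8 * (c ^ (2 * l) * c ^ 13) * d := by ring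
    _ ≤ _ := mul_le_mul_of_nonneg_right (mul_le_mul_of_nonneg_left h h9) hd

theorem FX5_low (p : unitInterval) (hp : 0 < (p : ℝ)) {j : ℕ} {c : ℝ} (hc : 0 < c)
    (k2 : c ≤ hq p (2 * (2 * j)) (2 * j)) (k1 : c ≤ hq p (2 * j) (2 * j)) :
    ∃ A : ℝ, 0 < A ∧ ∀ l : ℕ, A * c ^ (2 * l) ≤ tauP p (((l * (2 * j) : ℕ) : ℤ), 0) := by
  have h0 : (0 : ℝ) ≤ p := p.2.1
  have h1 : (p : ℝ) ≤ 1 := p.2.2
  have hg := FX5_glue h0 h1 hc k2 k1
  have e1 : 3 * j - j = 2 * j := by omega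
  have e2 : 2 * (3 * j) = (2 + 1) * (2 * j) := by omega
  have e3 : 0 + 4 * (3 * j) = (5 + 1) * (2 * j) := by omega
  have q1 : 0 < hq p (2 * (3 * j)) (3 * j - j) := by
    rw [e1, e2]
    exact lt_of_lt_of_le (pow_pos hc _) (hg 2)
  have q2 : 0 < hq p (0 + 4 * (3 * j)) (2 * j) := by
    rw [e3]
    exact lt_of_lt_of_le (pow_pos hc _) (hg 5)
  have q3 := FX5_p1pos hp h1 (3 * j)
  have hc1 : c ≤ 1 := k1.trans (hq_le_one h0 h1 _ _)
  refine ⟨_, mul_pos (mul_pos (mul_pos (pow_pos q3 2) (pow_pos q1 8)) q2) (pow_pos hc 13), fun l => ?_⟩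
  have h2 := tau_low h0 h1 (x := (((l * (2 * j) : ℕ) : ℤ), 0)) (a := l * (2 * j)) (b := 0) (j := j) (k := 3 * j)
    (N := l * (2 * j) + 0 + 2 * (3 * j)) (by omega) (Nat.abs_cast _) (by simp) le_rfl
  have h3 := FX5_le p (l * (2 * j) + 0 + 2 * (3 * j)) (((l * (2 * j) : ℕ) : ℤ), 0)
  have h4 : l * (2 * j) + 4 * (3 * j) = (l + 5 + 1) * (2 * j) := by ring
  have h5 := hg (l + 5)
  rw [← h4] at h5
  have h6 : c ^ (2 * (l + 5) + 1) = c ^ (2 * l) * c ^ 11 := by ring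
  have h7 : c ^ 13 ≤ c ^ 11 := pow_le_pow_of_le_one hc.le hc1 (by norm_num)
  have h8 : c ^ (2 * l) * c ^ 13 ≤ hq p (l * (2 * j) + 4 * (3 * j)) (2 * j) := by
    refine le_trans ?_ h5
    rw [h6]
    exact mul_le_mul_of_nonneg_left h7 (pow_nonneg hc.le _)
  exact FX5_alg q3.le q1.le q2.le hc h8 (h2.trans h3)

/-- upper bound of the decay rate -/
theorem xi_le (p : unitInterval) (hp : 0 < (p : ℝ)) {j : ℕ} {c x : ℝ} (hj : 1 ≤ j) (hc : 0 < c)
    (k2 : c ≤ hq p (2 * (2 * j)) (2 * j)) (k1 : c ≤ hq p (2 * j) (2 * j))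
    (hx : Tendsto (fun n : ℕ => -Real.log (tauP p ((n : ℤ), 0)) / n) atTop (𝓝 x)) :
    x ≤ 2 * Real.log (1 / c) / (2 * j : ℕ) := by
  obtain ⟨A, hA0, key⟩ := FX5_low p hp hc k2 k1
  obtain ⟨N, hN⟩ : ∃ N : ℕ, N = 2 * j := ⟨_, rfl⟩
  rw [← hN] at key ⊢
  have hNpos : 0 < N := by omega
  have hNr : (0 : ℝ) < N := by exact_mod_cast hNpos
  have hsubseq : Tendsto (fun l : ℕ => l * N) atTop atTop := tendsto_id.atTop_mul_const' hNpos
  have hx2 := hx.comp hsubseq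
  have hlim : Tendsto (fun l : ℕ => (-Real.log A / N) / l + 2 * Real.log (1 / c) / N) atTop
      (𝓝 (0 + 2 * Real.log (1 / c) / N)) := (tendsto_const_div_atTop_nhds_zero_nat _).add_const _
  rw [zero_add] at hlim
  refine le_of_tendsto_of_tendsto hx2 hlim ?_
  filter_upwards [eventually_ge_atTop 1] with l hl
  have hl0 : (0 : ℝ) < l := by exact_mod_cast (show 0 < l by omega)
  show -Real.log (tauP p (((l * N : ℕ) : ℤ), 0)) / ((l * N : ℕ) : ℝ) ≤ _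
  have h2 := Real.log_le_log (mul_pos hA0 (pow_pos hc _)) (key l)
  rw [Real.log_mul hA0.ne' (pow_pos hc _).ne', Real.log_pow] at h2
  have h3 : Real.log (1 / c) = -Real.log c := by rw [one_div, Real.log_inv]
  rw [h3]
  generalize Real.log (tauP p (((l * N : ℕ) : ℤ), 0)) = t at h2 ⊢
  push_cast at h2 ⊢
  rw [div_le_iff₀ (mul_pos hl0 hNr)]
  have h4 : (-Real.log A / N / l + 2 * -Real.log c / N) * (l * N) = -Real.log A - 2 * l * Real.log c := by
    field_simp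
    ring
  rw [h4]
  linarith

end FKF
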