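import Pool.Agent.Lib.MP_216314_pr.N.FW
import Pool.Agent.Lib.MP_216314_pr.N.FX5

/-!
# Scaling relations: the percolation probability, the mean cluster size, the correlation length, from the near critical window
-/

set_option autoImplicit false

noncomputable section

namespace FKF

open Finset FKI FKN Filter Topology
open FKP hiding bx an

/-- **The percolation probability** -/
theorem theta_main (hW : Win) (h1 : One12) : ∃ c C : ℝ, 0 < c ∧ 0 < C ∧ ∀ p : unitInterval, 1 / 2 < (p : ℝ) →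
    c * ((p : ℝ) - 1 / 2) ^ (5 / 36 : ℝ) ≤ thetaP p ∧ thetaP p ≤ C * ((p : ℝ) - 1 / 2) ^ (5 / 36 : ℝ) := by
  obtain ⟨s0, ε, cw, Cw, M, hs0, hs4, hε, hcw, hCw, hwin, hsup⟩ := hW
  obtain ⟨c1, C1, hc1, hC1, hpi⟩ := h1
  obtain ⟨A, hA, hgf⟩ := hsup (1 / 700) (by norm_num)
  obtain ⟨s1', hs1', hlarge⟩ := scale_large hcw 2
  obtain ⟨s1, hs1⟩ : ∃ s1, s1 = min s0 s1' := ⟨_, rfl⟩
  have hs1p : 0 < s1 := by rw [hs1]; exact lt_min hs0 hs1'
  have hs10 : s1 ≤ s0 := by rw [hs1]; exact min_le_left _ _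
  have hs11 : s1 ≤ s1' := by rw [hs1]; exact min_le_right _ _
  have hA' : (1 : ℝ) ≤ A := by exact_mod_cast hA
  have hbase : (0 : ℝ) < 2 * A * Cw := by positivity
  set cs : ℝ := c1 / 2 * (2 * A * Cw) ^ (-(5 / 48) : ℝ) with hcs
  set Cs : ℝ := Cw * C1 * cw ^ (-(5 / 48) : ℝ) with hCs
  have hcsp : 0 < cs := by positivity
  have hCsp : 0 < Cs := by positivity
  have small : ∀ p : unitInterval, ∀ s : ℝ, (p : ℝ) = 1 / 2 + s → 0 < s → s ≤ s1 →
      cs * s ^ (5 / 36 : ℝ) ≤ thetaP p ∧ thetaP p ≤ Cs * s ^ (5 / 36 : ℝ) := by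
    intro p s hp hs hss
    obtain ⟨⟨w1, w2⟩, _, w3⟩ := hwin s hs (hss.trans hs10)
    have hM2 : 2 ≤ M s := by
      have h2 := (hlarge s hs (hss.trans hs11)).trans w1
      exact_mod_cast h2
    have hMr : (0 : ℝ) < M s := by
      have : 0 < M s := by omega
      exact_mod_cast this
    have hsp : 0 < cw * s ^ (-(4 / 3) : ℝ) := mul_pos hcw (Real.rpow_pos_of_pos hs _)
    constructor
    · have hN : 2 ≤ A * M s := le_trans hM2 (Nat.le_mul_of_pos_left _ (by omega))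
      have h2 : p1 p (2 * (A * M s)) / 2 ≤ thetaP p := by
        refine le_theta fun n => sup_lower p.2.1 p.2.2 hN ?_ n
        rw [hp]
        exact hgf s hs (hss.trans hs10)
      have h3 : p1 (1 / 2) (2 * (A * M s)) ≤ p1 p (2 * (A * M s)) :=
        p1_mono_q (by norm_num) (by rw [hp]; linarith) p.2.2 _
      have h4 := (hpi (2 * (A * M s)) (by omega)).1
      have h5 : (2 * A * Cw) ^ (-(5 / 48) : ℝ) * s ^ (5 / 36 : ℝ) ≤ ((2 * (A * M s) : ℕ) : ℝ) ^ (-(5 / 48) : ℝ) := by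
        have h6 : ((2 * (A * M s) : ℕ) : ℝ) ≤ 2 * A * Cw * s ^ (-(4 / 3) : ℝ) := by
          push_cast
          calc 2 * ((A : ℝ) * M s) = 2 * A * M s := by ring
            _ ≤ 2 * A * (Cw * s ^ (-(4 / 3) : ℝ)) := mul_le_mul_of_nonneg_left w2 (by positivity)
            _ = _ := by ring
        have h7 : (0 : ℝ) < ((2 * (A * M s) : ℕ) : ℝ) := by
          have : 0 < 2 * (A * M s) := by omega
          exact_mod_cast this
        have h8 := Real.rpow_le_rpow_of_nonpos h7 h6 (by norm_num : (-(5 / 48) : ℝ) ≤ 0)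
        rw [rpow_scale hs hbase] at h8
        norm_num at h8 ⊢
        exact h8
      calc cs * s ^ (5 / 36 : ℝ) = c1 / 2 * ((2 * A * Cw) ^ (-(5 / 48) : ℝ) * s ^ (5 / 36 : ℝ)) := by rw [hcs]; ring
        _ ≤ c1 / 2 * ((2 * (A * M s) : ℕ) : ℝ) ^ (-(5 / 48) : ℝ) := mul_le_mul_of_nonneg_left h5 (by positivity)
        _ = c1 * ((2 * (A * M s) : ℕ) : ℝ) ^ (-(5 / 48) : ℝ) / 2 := by ring
        _ ≤ p1 p (2 * (A * M s)) / 2 := by linarith
        _ ≤ thetaP p := h2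
    · have h2 := theta_le p (M s)
      have h3 := (w3 (M s) (by omega) le_rfl).1
      rw [← hp] at h3
      have h4 := (hpi (M s) (by omega)).2
      have h5 : (M s : ℝ) ^ (-(5 / 48) : ℝ) ≤ cw ^ (-(5 / 48) : ℝ) * s ^ (5 / 36 : ℝ) := by
        have h8 := Real.rpow_le_rpow_of_nonpos hsp w1 (by norm_num : (-(5 / 48) : ℝ) ≤ 0)
        rw [rpow_scale hs hcw] at h8
        norm_num at h8 ⊢
        exact h8
      calc thetaP p ≤ Cw * p1 (1 / 2) (M s) := h2.trans h3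
        _ ≤ Cw * (C1 * (M s : ℝ) ^ (-(5 / 48) : ℝ)) := mul_le_mul_of_nonneg_left h4 hCw.le
        _ ≤ Cw * (C1 * (cw ^ (-(5 / 48) : ℝ) * s ^ (5 / 36 : ℝ))) :=
            mul_le_mul_of_nonneg_left (mul_le_mul_of_nonneg_left h5 hC1.le) hCw.le
        _ = Cs * s ^ (5 / 36 : ℝ) := by rw [hCs]; ring
  have hs1q : 0 < s1 ^ (5 / 36 : ℝ) := Real.rpow_pos_of_pos hs1p _
  refine ⟨min cs (cs * s1 ^ (5 / 36 : ℝ)), max Cs (s1 ^ (-(5 / 36) : ℝ)), lt_min hcsp (mul_pos hcsp hs1q),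
    lt_max_of_lt_left hCsp, fun p hp => ?_⟩
  obtain ⟨s, hs⟩ : ∃ s : ℝ, s = (p : ℝ) - 1 / 2 := ⟨_, rfl⟩
  have hsp : 0 < s := by rw [hs]; linarith
  have hs12 : s ≤ 1 / 2 := by rw [hs]; linarith [p.2.2]
  rw [← hs]
  have hsq : 0 < s ^ (5 / 36 : ℝ) := Real.rpow_pos_of_pos hsp _
  rcases le_or_gt s s1 with h | h
  · obtain ⟨h2, h3⟩ := small p s (by rw [hs]; ring) hsp h
    exact ⟨(mul_le_mul_of_nonneg_right (min_le_left _ _) hsq.le).trans h2,
      h3.trans (mul_le_mul_of_nonneg_right (le_max_left _ _) hsq.le)⟩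
  · constructor
    · obtain ⟨p', hp'⟩ : ∃ p' : unitInterval, (p' : ℝ) = 1 / 2 + s1 :=
        ⟨⟨1 / 2 + s1, by constructor <;> linarith⟩, rfl⟩
      have h2 := (small p' s1 hp' hs1p le_rfl).1
      have h3 : thetaP p' ≤ thetaP p := theta_mono (by rw [hp']; linarith)
      have h4 : s ^ (5 / 36 : ℝ) ≤ 1 := Real.rpow_le_one hsp.le (by linarith) (by norm_num)
      calc min cs (cs * s1 ^ (5 / 36 : ℝ)) * s ^ (5 / 36 : ℝ) ≤ cs * s1 ^ (5 / 36 : ℝ) * 1 :=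
            mul_le_mul (min_le_right _ _) h4 hsq.le (by positivity)
        _ ≤ thetaP p := by linarith
    · have h2 : thetaP p ≤ 1 := MeasureTheory.measureReal_le_one
      have h3 : 1 ≤ s1 ^ (-(5 / 36) : ℝ) * s ^ (5 / 36 : ℝ) := by
        rw [Real.rpow_neg hs1p.le, ← div_eq_inv_mul, one_le_div hs1q]
        exact Real.rpow_le_rpow hs1p.le h.le (by norm_num)
      exact h2.trans (h3.trans (mul_le_mul_of_nonneg_right (le_max_right _ _) hsq.le))

/-- **The mean cluster size** -/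
theorem chi_main (hW : Win) (h1 : One12) : ∃ c C : ℝ, 0 < c ∧ 0 < C ∧ ∀ p : unitInterval, (p : ℝ) < 1 / 2 →
    ENNReal.ofReal (c * (1 / 2 - (p : ℝ)) ^ (-(43 / 18) : ℝ)) ≤ chiP p ∧
    chiP p ≤ ENNReal.ofReal (C * (1 / 2 - (p : ℝ)) ^ (-(43 / 18) : ℝ)) := by
  obtain ⟨s0, ε, cw, Cw, M, hs0, hs4, hε, hcw, hCw, hwin, hsup⟩ := hW
  obtain ⟨c1, C1, hc1, hC1, hpi⟩ := h1
  obtain ⟨A, hA, hgf⟩ := hsup (Real.exp (-8) / 25) (by positivity)
  obtain ⟨s1', hs1', hlarge⟩ := scale_large hcw 3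
  obtain ⟨s1, hs1⟩ : ∃ s1, s1 = min s0 s1' := ⟨_, rfl⟩
  have hs1p : 0 < s1 := by rw [hs1]; exact lt_min hs0 hs1'
  have hs10 : s1 ≤ s0 := by rw [hs1]; exact min_le_left _ _
  have hs11 : s1 ≤ s1' := by rw [hs1]; exact min_le_right _ _
  have hA' : (1 : ℝ) ≤ A := by exact_mod_cast hA
  obtain ⟨cl, hcl, hlow⟩ := chi_ge ε hε
  obtain ⟨Cu, hCu, hup⟩ := chi_le hC1 (fun n hn => (hpi n hn).2)
  have hbase : (0 : ℝ) < 2 * A * Cw := by positivity
  set cs : ℝ := cl * (cw * c1) ^ 2 * cw ^ (43 / 24 : ℝ) with hcs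
  set Cs : ℝ := Cu * (2 * A * Cw) ^ (43 / 24 : ℝ) with hCs
  have hcsp : 0 < cs := by positivity
  have hCsp : 0 < Cs := by positivity
  have small : ∀ p : unitInterval, ∀ s : ℝ, (p : ℝ) = 1 / 2 - s → 0 < s → s ≤ s1 →
      ENNReal.ofReal (cs * s ^ (-(43 / 18) : ℝ)) ≤ chiP p ∧ chiP p ≤ ENNReal.ofReal (Cs * s ^ (-(43 / 18) : ℝ)) := by
    intro p s hp hs hss
    obtain ⟨⟨w1, w2⟩, ⟨_, wR⟩, w3⟩ := hwin s hs (hss.trans hs10)
    have hM3 : 3 ≤ M s := by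
      have h2 := (hlarge s hs (hss.trans hs11)).trans w1
      exact_mod_cast h2
    have hMr : (0 : ℝ) < M s := by
      have : 0 < M s := by omega
      exact_mod_cast this
    have hsp : 0 < cw * s ^ (-(4 / 3) : ℝ) := mul_pos hcw (Real.rpow_pos_of_pos hs _)
    constructor
    · rw [← hp] at wR
      refine le_trans (ENNReal.ofReal_le_ofReal ?_) (hlow p (M s) (by omega) wR)
      have h3 := (w3 (M s) (by omega) le_rfl).2
      rw [← hp] at h3
      have h4 := (hpi (M s) (by omega)).1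
      have h5 : cw * c1 * (M s : ℝ) ^ (-(5 / 48) : ℝ) ≤ p1 p (M s) := by
        have := mul_le_mul_of_nonneg_left h4 hcw.le
        linarith
      have h6 := pow_le_pow_left₀ (by positivity) h5 2
      rw [mul_pow, rp_sq hMr.le] at h6
      have h7 : (M s : ℝ) ^ 2 * (M s : ℝ) ^ (-(5 / 24) : ℝ) = (M s : ℝ) ^ (43 / 24 : ℝ) := by
        rw [← Real.rpow_natCast (M s : ℝ) 2, ← Real.rpow_add hMr]
        norm_num
      have h8 : cw ^ (43 / 24 : ℝ) * s ^ (-(43 / 18) : ℝ) ≤ (M s : ℝ) ^ (43 / 24 : ℝ) := by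
        have h9 := Real.rpow_le_rpow hsp.le w1 (by norm_num : (0 : ℝ) ≤ 43 / 24)
        rw [rpow_scale hs hcw] at h9
        norm_num at h9 ⊢
        exact h9
      calc cs * s ^ (-(43 / 18) : ℝ) = cl * (cw * c1) ^ 2 * (cw ^ (43 / 24 : ℝ) * s ^ (-(43 / 18) : ℝ)) := by
            rw [hcs]; ring
        _ ≤ cl * (cw * c1) ^ 2 * (M s : ℝ) ^ (43 / 24 : ℝ) := mul_le_mul_of_nonneg_left h8 (by positivity)
        _ = cl * (M s : ℝ) ^ 2 * ((cw * c1) ^ 2 * (M s : ℝ) ^ (-(5 / 24) : ℝ)) := by rw [← h7]; ring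
        _ ≤ cl * (M s : ℝ) ^ 2 * p1 p (M s) ^ 2 := mul_le_mul_of_nonneg_left h6 (by positivity)
    · have hN : 3 ≤ A * M s := le_trans hM3 (Nat.le_mul_of_pos_left _ (by omega))
      have h2 := hup p (A * M s) (by rw [hp]; linarith) hN (by
        have e1 : 1 - (p : ℝ) = 1 / 2 + s := by rw [hp]; ring
        rw [e1]
        exact hgf s hs (hss.trans hs10))
      refine h2.trans (ENNReal.ofReal_le_ofReal ?_)
      have h5 : (((A * M s : ℕ) : ℝ) + 1) ^ (43 / 24 : ℝ) ≤ (2 * A * Cw) ^ (43 / 24 : ℝ) * s ^ (-(43 / 18) : ℝ) := by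
        have h6 : ((A * M s : ℕ) : ℝ) + 1 ≤ 2 * A * Cw * s ^ (-(4 / 3) : ℝ) := by
          have h7 : (1 : ℝ) ≤ ((A * M s : ℕ) : ℝ) := by
            have : 1 ≤ A * M s := by omega
            exact_mod_cast this
          have h8 : ((A * M s : ℕ) : ℝ) = (A : ℝ) * M s := by push_cast; ring
          calc ((A * M s : ℕ) : ℝ) + 1 ≤ 2 * ((A : ℝ) * M s) := by rw [h8] at h7 ⊢; linarith
            _ ≤ 2 * (A * (Cw * s ^ (-(4 / 3) : ℝ))) :=
                mul_le_mul_of_nonneg_left (mul_le_mul_of_nonneg_left w2 (by positivity)) (by norm_num)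
            _ = _ := by ring
        have h8 := Real.rpow_le_rpow (by positivity) h6 (by norm_num : (0 : ℝ) ≤ 43 / 24)
        rw [rpow_scale hs hbase] at h8
        norm_num at h8 ⊢
        exact h8
      calc Cu * (((A * M s : ℕ) : ℝ) + 1) ^ (43 / 24 : ℝ) ≤ Cu * ((2 * A * Cw) ^ (43 / 24 : ℝ) * s ^ (-(43 / 18) : ℝ)) :=
            mul_le_mul_of_nonneg_left h5 hCu.le
        _ = Cs * s ^ (-(43 / 18) : ℝ) := by rw [hCs]; ring
  have hs1q : 0 < s1 ^ (43 / 18 : ℝ) := Real.rpow_pos_of_pos hs1p _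
  refine ⟨min cs (s1 ^ (43 / 18 : ℝ)), max Cs (Cs * s1 ^ (-(43 / 18) : ℝ)), lt_min hcsp hs1q,
    lt_max_of_lt_left hCsp, fun p hp => ?_⟩
  obtain ⟨s, hs⟩ : ∃ s : ℝ, s = 1 / 2 - (p : ℝ) := ⟨_, rfl⟩
  have hsp : 0 < s := by rw [hs]; linarith
  have hs12 : s ≤ 1 / 2 := by rw [hs]; linarith [p.2.1]
  rw [← hs]
  have hsq : 0 < s ^ (-(43 / 18) : ℝ) := Real.rpow_pos_of_pos hsp _
  rcases le_or_gt s s1 with h | h
  · obtain ⟨h2, h3⟩ := small p s (by rw [hs]; ring) hsp h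
    exact ⟨(ENNReal.ofReal_le_ofReal (mul_le_mul_of_nonneg_right (min_le_left _ _) hsq.le)).trans h2,
      h3.trans (ENNReal.ofReal_le_ofReal (mul_le_mul_of_nonneg_right (le_max_left _ _) hsq.le))⟩
  · constructor
    · have h3 : s1 ^ (43 / 18 : ℝ) * s ^ (-(43 / 18) : ℝ) ≤ 1 := by
        rw [Real.rpow_neg hsp.le, ← div_eq_mul_inv, div_le_one (Real.rpow_pos_of_pos hsp _)]
        exact Real.rpow_le_rpow hs1p.le h.le (by norm_num)
      refine le_trans (ENNReal.ofReal_le_ofReal ((mul_le_mul_of_nonneg_right (min_le_right _ _) hsq.le).trans h3)) ?_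
      rw [ENNReal.ofReal_one]
      exact one_le_chi p
    · obtain ⟨p', hp'⟩ : ∃ p' : unitInterval, (p' : ℝ) = 1 / 2 - s1 :=
        ⟨⟨1 / 2 - s1, by constructor <;> linarith⟩, rfl⟩
      have h2 := (small p' s1 hp' hs1p le_rfl).2
      have h3 : chiP p ≤ chiP p' := chi_mono (by rw [hp']; linarith)
      have h4 : 1 ≤ s ^ (-(43 / 18) : ℝ) := by
        rw [Real.rpow_neg hsp.le]
        refine (one_le_inv₀ (Real.rpow_pos_of_pos hsp _)).2 ?_
        exact Real.rpow_le_one hsp.le (by linarith) (by norm_num)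
      refine h3.trans (h2.trans (ENNReal.ofReal_le_ofReal ?_))
      have h5 : 0 < Cs * s1 ^ (-(43 / 18) : ℝ) := mul_pos hCsp (Real.rpow_pos_of_pos hs1p _)
      calc Cs * s1 ^ (-(43 / 18) : ℝ) ≤ Cs * s1 ^ (-(43 / 18) : ℝ) * s ^ (-(43 / 18) : ℝ) := le_mul_of_one_le_right h5.le h4
        _ ≤ max Cs (Cs * s1 ^ (-(43 / 18) : ℝ)) * s ^ (-(43 / 18) : ℝ) :=
            mul_le_mul_of_nonneg_right (le_max_right _ _) hsq.le

/-- the inverse correlation length decreases with the parameter -/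
theorem xi_mono {p q : unitInterval} (hp : 0 < (p : ℝ)) (h : (p : ℝ) ≤ q) {x y : ℝ}
    (hx : Tendsto (fun n : ℕ => -Real.log (tauP p ((n : ℤ), 0)) / n) atTop (𝓝 x))
    (hy : Tendsto (fun n : ℕ => -Real.log (tauP q ((n : ℤ), 0)) / n) atTop (𝓝 y)) : y ≤ x := by
  refine le_of_tendsto_of_tendsto hy hx (Filter.Eventually.of_forall fun n => ?_)
  have h1 := Real.log_le_log (FX5_pos p hp n) (tau_mono_p h ((n : ℤ), 0))
  exact div_le_div_of_nonneg_right (by linarith) (Nat.cast_nonneg n)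

theorem xi_log {p : unitInterval} (hp : 0 < (p : ℝ)) {x : ℝ}
    (hx : Tendsto (fun n : ℕ => -Real.log (tauP p ((n : ℤ), 0)) / n) atTop (𝓝 x)) : x ≤ Real.log (1 / p) := by
  refine le_of_tendsto hx (Filter.Eventually.of_forall fun n => ?_)
  have h1 : (p : ℝ) ^ n ≤ tauP p ((n : ℤ), 0) := (FX5_line p.2.1 p.2.2 n).trans (FX5_le p n _)
  have h2 := Real.log_le_log (pow_pos hp n) h1
  rw [Real.log_pow] at h2
  have h3 : Real.log (1 / p) = -Real.log p := by rw [one_div, Real.log_inv]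
  rw [h3]
  rcases Nat.eq_zero_or_pos n with h4 | h4
  · subst h4
    simp only [Nat.cast_zero, div_zero]
    have := Real.log_nonpos hp.le p.2.2
    linarith
  · rw [div_le_iff₀ (by exact_mod_cast h4)]
    linarith

/-- **The correlation length** -/
theorem xi_main (hW : Win) : ∃ c C : ℝ, 0 < c ∧ 0 < C ∧ ∀ p : unitInterval, 0 < (p : ℝ) → (p : ℝ) < 1 / 2 →
    ∃ x : ℝ, Tendsto (fun n : ℕ => -Real.log (tauP p ((n : ℤ), 0)) / n) atTop (𝓝 x) ∧
      c * (1 / 2 - (p : ℝ)) ^ (4 / 3 : ℝ) ≤ x ∧ x ≤ C * (1 / 2 - (p : ℝ)) ^ (4 / 3 : ℝ) * Real.log (1 / p) := by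
  obtain ⟨s0, ε, cw, Cw, M, hs0, hs4, hε, hcw, hCw, hwin, hsup⟩ := hW
  obtain ⟨A, hA, hgf⟩ := hsup (Real.exp (-8) / 25) (by positivity)
  obtain ⟨s1', hs1', hlarge⟩ := scale_large hcw 3
  obtain ⟨s1, hs1⟩ : ∃ s1, s1 = min s0 s1' := ⟨_, rfl⟩
  have hs1p : 0 < s1 := by rw [hs1]; exact lt_min hs0 hs1'
  have hs10 : s1 ≤ s0 := by rw [hs1]; exact min_le_left _ _
  have hs11 : s1 ≤ s1' := by rw [hs1]; exact min_le_right _ _
  have hA' : (1 : ℝ) ≤ A := by exact_mod_cast hA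
  obtain ⟨c0, hc0, hrsw⟩ := rswIn ε hε 2
  obtain ⟨c, hc, hcle⟩ : ∃ c, c = min c0 (1 / 2) ∧ c ≤ c0 := ⟨_, rfl, min_le_left _ _⟩
  have hcp : 0 < c := by rw [hc]; exact lt_min hc0 (by norm_num)
  have hc12 : c ≤ 1 / 2 := by rw [hc]; exact min_le_right _ _
  have hlogc : 0 < Real.log (1 / c) := Real.log_pos (by rw [lt_div_iff₀ hcp]; linarith)
  have hlog2 : 0 < Real.log 2 := Real.log_pos (by norm_num)
  have hbase : (0 : ℝ) < 2 * A * Cw := by positivity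
  set cs : ℝ := (2 * A * Cw)⁻¹ with hcs
  set Cs : ℝ := 4 * Real.log (1 / c) * cw⁻¹ with hCs
  have hcsp : 0 < cs := by positivity
  have hCsp : 0 < Cs := by positivity
  have small : ∀ p : unitInterval, ∀ s x : ℝ, 0 < (p : ℝ) → (p : ℝ) = 1 / 2 - s → 0 < s → s ≤ s1 →
      Tendsto (fun n : ℕ => -Real.log (tauP p ((n : ℤ), 0)) / n) atTop (𝓝 x) →
      cs * s ^ (4 / 3 : ℝ) ≤ x ∧ x ≤ Cs * s ^ (4 / 3 : ℝ) := by
    intro p s x hp0 hp hs hss hx
    obtain ⟨⟨w1, w2⟩, ⟨_, wR⟩, _⟩ := hwin s hs (hss.trans hs10)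
    have hM3 : 3 ≤ M s := by
      have h2 := (hlarge s hs (hss.trans hs11)).trans w1
      exact_mod_cast h2
    have hMr : (0 : ℝ) < M s := by
      have : 0 < M s := by omega
      exact_mod_cast this
    have hs43 : s ^ (-(4 / 3) : ℝ) = (s ^ (4 / 3 : ℝ))⁻¹ := Real.rpow_neg hs.le _
    have hsq : 0 < s ^ (4 / 3 : ℝ) := Real.rpow_pos_of_pos hs _
    constructor
    · have hN : 3 ≤ A * M s := le_trans hM3 (Nat.le_mul_of_pos_left _ (by omega))
      have e1 : 1 - (p : ℝ) = 1 / 2 + s := by rw [hp]; ring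
      have hdec := fun n (hn : 2 * (A * M s) ≤ n) => sub_decay p.2.1 p.2.2 hN
        (by rw [e1]; exact hgf s hs (hss.trans hs10)) hn
      have h2 := xi_ge p hp0 (K := ((A * M s : ℕ) : ℝ) + 1) (C := Real.exp 4 * p1 p (2 * (A * M s)))
        (n0 := 2 * (A * M s)) (by positivity) (fun n hn => by
          have h3 := hdec n hn
          rw [neg_div]
          exact h3) hx
      refine le_trans ?_ h2
      have h6 : ((A * M s : ℕ) : ℝ) + 1 ≤ 2 * A * Cw * s ^ (-(4 / 3) : ℝ) := by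
        have h7 : (1 : ℝ) ≤ ((A * M s : ℕ) : ℝ) := by
          have : 1 ≤ A * M s := by omega
          exact_mod_cast this
        have h8 : ((A * M s : ℕ) : ℝ) = (A : ℝ) * M s := by push_cast; ring
        calc ((A * M s : ℕ) : ℝ) + 1 ≤ 2 * ((A : ℝ) * M s) := by rw [h8] at h7 ⊢; linarith
          _ ≤ 2 * (A * (Cw * s ^ (-(4 / 3) : ℝ))) :=
              mul_le_mul_of_nonneg_left (mul_le_mul_of_nonneg_left w2 (by positivity)) (by norm_num)
          _ = _ := by ring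
      rw [le_div_iff₀ (by positivity)]
      calc cs * s ^ (4 / 3 : ℝ) * (((A * M s : ℕ) : ℝ) + 1) ≤ cs * s ^ (4 / 3 : ℝ) * (2 * A * Cw * s ^ (-(4 / 3) : ℝ)) :=
            mul_le_mul_of_nonneg_left h6 (by positivity)
        _ = 1 := by
            rw [hs43, hcs]
            field_simp
    · obtain ⟨j, hj⟩ : ∃ j, j = M s / 2 := ⟨_, rfl⟩
      have hj1 : 1 ≤ j := by omega
      rw [← hp] at wR
      have r2 : c0 ≤ hq p (2 * (2 * j)) (2 * j) :=
        (hrsw p (M s) p.2.1 p.2.2 wR _ _ (by omega) (by omega)).1 (by omega) (by omega)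
      have r1 : c0 ≤ hq p (2 * j) (2 * j) :=
        (hrsw p (M s) p.2.1 p.2.2 wR _ _ (by omega) (by omega)).1 (by omega) (by omega)
      have h2 := xi_le p hp0 hj1 hcp (hcle.trans r2) (hcle.trans r1) hx
      refine h2.trans ?_
      have h3 : (M s : ℝ) ≤ 2 * ((2 * j : ℕ) : ℝ) := by
        have : M s ≤ 2 * (2 * j) := by omega
        exact_mod_cast this
      have h4 : (0 : ℝ) < ((2 * j : ℕ) : ℝ) := by
        have : 0 < 2 * j := by omega
        exact_mod_cast this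
      rw [div_le_iff₀ h4]
      have h5 : cw * s ^ (-(4 / 3) : ℝ) ≤ 2 * ((2 * j : ℕ) : ℝ) := w1.trans h3
      rw [hs43] at h5
      have h6 : 1 ≤ 2 * cw⁻¹ * s ^ (4 / 3 : ℝ) * ((2 * j : ℕ) : ℝ) := by
        have h7 := mul_le_mul_of_nonneg_left h5 (show 0 ≤ cw⁻¹ * s ^ (4 / 3 : ℝ) by positivity)
        have h8 : cw⁻¹ * s ^ (4 / 3 : ℝ) * (cw * (s ^ (4 / 3 : ℝ))⁻¹) = 1 := by field_simp
        rw [h8] at h7
        linarith
      calc 2 * Real.log (1 / c) = 2 * Real.log (1 / c) * 1 := by ring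
        _ ≤ 2 * Real.log (1 / c) * (2 * cw⁻¹ * s ^ (4 / 3 : ℝ) * ((2 * j : ℕ) : ℝ)) :=
            mul_le_mul_of_nonneg_left h6 (by positivity)
        _ = Cs * s ^ (4 / 3 : ℝ) * ((2 * j : ℕ) : ℝ) := by rw [hCs]; ring
  have hs1q : 0 < s1 ^ (4 / 3 : ℝ) := Real.rpow_pos_of_pos hs1p _
  refine ⟨min cs (cs * s1 ^ (4 / 3 : ℝ)), max (Cs / Real.log 2) (s1 ^ (-(4 / 3) : ℝ)), lt_min hcsp (mul_pos hcsp hs1q),
    lt_max_of_lt_left (by positivity), fun p hp0 hp => ?_⟩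
  obtain ⟨x, hx0, hx⟩ := xi_lim p hp0
  refine ⟨x, hx, ?_⟩
  obtain ⟨s, hs⟩ : ∃ s : ℝ, s = 1 / 2 - (p : ℝ) := ⟨_, rfl⟩
  have hsp : 0 < s := by rw [hs]; linarith
  have hs12 : s ≤ 1 / 2 := by rw [hs]; linarith [p.2.1]
  rw [← hs]
  have hsq : 0 < s ^ (4 / 3 : ℝ) := Real.rpow_pos_of_pos hsp _
  have hlogp : Real.log 2 ≤ Real.log (1 / p) := by
    refine Real.log_le_log (by norm_num) ?_
    rw [le_div_iff₀ hp0]
    linarith
  rcases le_or_gt s s1 with h | h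
  · obtain ⟨h2, h3⟩ := small p s x hp0 (by rw [hs]; ring) hsp h hx
    refine ⟨(mul_le_mul_of_nonneg_right (min_le_left _ _) hsq.le).trans h2, h3.trans ?_⟩
    have h4 : Cs * s ^ (4 / 3 : ℝ) ≤ Cs / Real.log 2 * s ^ (4 / 3 : ℝ) * Real.log (1 / p) := by
      have h5 : 1 ≤ Real.log (1 / p) / Real.log 2 := by rwa [one_le_div hlog2]
      calc Cs * s ^ (4 / 3 : ℝ) = Cs * s ^ (4 / 3 : ℝ) * 1 := by ring
        _ ≤ Cs * s ^ (4 / 3 : ℝ) * (Real.log (1 / p) / Real.log 2) := mul_le_mul_of_nonneg_left h5 (by positivity)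
        _ = _ := by ring
    refine h4.trans ?_
    refine mul_le_mul_of_nonneg_right ?_ (hlog2.le.trans hlogp)
    exact mul_le_mul_of_nonneg_right (le_max_left _ _) hsq.le
  · constructor
    · obtain ⟨p', hp'⟩ : ∃ p' : unitInterval, (p' : ℝ) = 1 / 2 - s1 :=
        ⟨⟨1 / 2 - s1, by constructor <;> linarith⟩, rfl⟩
      have hp'0 : 0 < (p' : ℝ) := by rw [hp']; linarith
      obtain ⟨y, hy0, hy⟩ := xi_lim p' hp'0
      have h2 := (small p' s1 y hp'0 hp' hs1p le_rfl hy).1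
      have h3 : y ≤ x := xi_mono hp0 (by rw [hp']; linarith) hx hy
      have h4 : s ^ (4 / 3 : ℝ) ≤ 1 := Real.rpow_le_one hsp.le (by linarith) (by norm_num)
      calc min cs (cs * s1 ^ (4 / 3 : ℝ)) * s ^ (4 / 3 : ℝ) ≤ cs * s1 ^ (4 / 3 : ℝ) * 1 :=
            mul_le_mul (min_le_right _ _) h4 hsq.le (by positivity)
        _ ≤ x := by linarith
    · have h2 := xi_log hp0 hx
      have h3 : 1 ≤ s1 ^ (-(4 / 3) : ℝ) * s ^ (4 / 3 : ℝ) := by
        rw [Real.rpow_neg hs1p.le, ← div_eq_inv_mul, one_le_div hs1q]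
        exact Real.rpow_le_rpow hs1p.le h.le (by norm_num)
      have h5 : 0 < Real.log (1 / p) := hlog2.trans_le hlogp
      calc x ≤ 1 * Real.log (1 / p) := by linarith
        _ ≤ s1 ^ (-(4 / 3) : ℝ) * s ^ (4 / 3 : ℝ) * Real.log (1 / p) := mul_le_mul_of_nonneg_right h3 h5.le
        _ ≤ _ := by
            refine mul_le_mul_of_nonneg_right ?_ h5.le
            exact mul_le_mul_of_nonneg_right (le_max_right _ _) hsq.le

end FKF
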