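import Pool.Agent.Lib.MP_216314_pr.N.FX8

/-!
# The two point function in the near critical regime, `1/4 ≤ p ≤ 1/2`
-/

set_option autoImplicit false

noncomputable section

namespace FKF

open Finset FKI FKN Filter Topology
open FKP hiding bx an

theorem FX9_abs (x : V) : ∃ a b : ℕ, |x.1| = a ∧ |x.2| = b :=
  ⟨x.1.natAbs, x.2.natAbs, by rw [Int.abs_eq_natAbs], by rw [Int.abs_eq_natAbs]⟩

/-- crude lower bound -/
theorem FX9_line (q : unitInterval) (x : V) {r : ℕ} (hx : sd (0, 0) x = r) : (q : ℝ) ^ (26 + 2 * r) ≤ tauP q x := by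
  have h0 := q.2.1
  have h1 := q.2.2
  obtain ⟨a, b, ha, hb⟩ := FX9_abs x
  have hle := (sd_le (u := (0, 0)) (v := x) (m := r)).1 hx.le
  simp only [zero_sub, zero_add] at hle
  have ha' : a ≤ r := by
    have := abs_le.2 hle.1
    rw [ha] at this
    exact_mod_cast this
  have hb' : b ≤ r := by
    have := abs_le.2 hle.2
    rw [hb] at this
    exact_mod_cast this
  have h2 := (tau_low h0 h1 (x := x) (a := a) (b := b) (j := 1) (k := 1) (N := a + b + 2 * 1) le_rfl ha hb le_rfl).trans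
    (tauP_ge q x _)
  refine le_trans ?_ h2
  have e1 : (q : ℝ) ^ 1 ≤ p1 q 1 := FX8_arm_line h0 h1 1
  have e2 : (q : ℝ) ^ (2 * 1) ≤ hq q (2 * 1) (1 - 1) := hq_line h0 h1 _ _
  have e3 : (q : ℝ) ^ (a + 4 * 1) ≤ hq q (a + 4 * 1) (2 * 1) := hq_line h0 h1 _ _
  have e4 : (q : ℝ) ^ (b + 4 * 1) ≤ hq q (b + 4 * 1) (2 * 1) := hq_line h0 h1 _ _
  have f1 : ((q : ℝ) ^ 1) ^ 2 ≤ p1 q 1 ^ 2 := pow_le_pow_left₀ (pow_nonneg h0 _) e1 2
  have f2 : ((q : ℝ) ^ (2 * 1)) ^ 8 ≤ hq q (2 * 1) (1 - 1) ^ 8 := pow_le_pow_left₀ (pow_nonneg h0 _) e2 8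
  calc (q : ℝ) ^ (26 + 2 * r) ≤ (q : ℝ) ^ (26 + a + b) := pow_le_pow_of_le_one h0 h1 (by omega)
    _ = ((q : ℝ) ^ 1) ^ 2 * ((q : ℝ) ^ (2 * 1)) ^ 8 * (q : ℝ) ^ (a + 4 * 1) * (q : ℝ) ^ (b + 4 * 1) := by ring
    _ ≤ _ := by
        refine mul_le_mul (mul_le_mul (mul_le_mul f1 f2 (by positivity) (by positivity)) e3 (by positivity) ?_) e4
          (by positivity) ?_
        · have := hq_nonneg h0 h1 (2 * 1) (1 - 1)
          positivity
        · have := hq_nonneg h0 h1 (2 * 1) (1 - 1)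
          have := hq_nonneg h0 h1 (a + 4 * 1) (2 * 1)
          positivity

/-- upper bound -/
theorem tau_near_up (hW : Win) (h1 : One12) : ∃ c C : ℝ, 0 < c ∧ 0 < C ∧ ∀ (p : unitInterval) (x : V) (r : ℕ),
    1 / 4 ≤ (p : ℝ) → (p : ℝ) ≤ 1 / 2 → 1 ≤ r → sd (0, 0) x = r →
    tauP p x ≤ C * (r : ℝ) ^ (-(5 / 24) : ℝ) * Real.exp (-(c * r * (1 / 2 - (p : ℝ)) ^ (4 / 3 : ℝ))) := by
  obtain ⟨c, C, hc, hC, harm⟩ := arm_sub_up hW h1
  refine ⟨min (c / 2) 1, max (2 * C ^ 2) (2 * Real.exp 2), by positivity, by positivity, fun p x r hp4 hp12 hr hx => ?_⟩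
  obtain ⟨s, hs⟩ : ∃ s : ℝ, s = 1 / 2 - (p : ℝ) := ⟨_, rfl⟩
  rw [← hs]
  have hs0 : 0 ≤ s := by rw [hs]; linarith
  have hs1 : s ≤ 1 := by rw [hs]; linarith
  have hr0 : (0 : ℝ) < r := by exact_mod_cast hr
  have hrp : 0 < (r : ℝ) ^ (-(5 / 24) : ℝ) := Real.rpow_pos_of_pos hr0 _
  have hsq0 : 0 ≤ s ^ (4 / 3 : ℝ) := Real.rpow_nonneg hs0 _
  have hsq1 : s ^ (4 / 3 : ℝ) ≤ 1 := Real.rpow_le_one hs0 hs1 (by norm_num)
  have hexp := Real.exp_pos (-(min (c / 2) 1 * r * s ^ (4 / 3 : ℝ)))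
  rcases Nat.lt_or_ge r 3 with h | h
  · have h2 : (r : ℝ) ≤ 2 := by
      have : r ≤ 2 := by omega
      exact_mod_cast this
    have h3 : min (c / 2) 1 * r * s ^ (4 / 3 : ℝ) ≤ 2 := by
      have h4 : min (c / 2) 1 * r ≤ 1 * 2 := mul_le_mul (min_le_right _ _) h2 hr0.le (by norm_num)
      have h5 : 0 ≤ min (c / 2) 1 * r := by positivity
      nlinarith
    have h4 : 1 ≤ Real.exp 2 * Real.exp (-(min (c / 2) 1 * r * s ^ (4 / 3 : ℝ))) := by
      rw [← Real.exp_add]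
      exact Real.one_le_exp (by linarith)
    have h5 : (1 / 2 : ℝ) ≤ (r : ℝ) ^ (-(5 / 24) : ℝ) := by
      have h7 : (2 : ℝ) ^ (-(5 / 24) : ℝ) ≤ (r : ℝ) ^ (-(5 / 24) : ℝ) :=
        Real.rpow_le_rpow_of_nonpos hr0 h2 (by norm_num)
      have h8 : (2 : ℝ) ^ (-1 : ℝ) ≤ (2 : ℝ) ^ (-(5 / 24) : ℝ) :=
        Real.rpow_le_rpow_of_exponent_le (by norm_num) (by norm_num)
      rw [Real.rpow_neg_one] at h8
      linarith
    calc tauP p x ≤ 1 := tauP_le_one p x
      _ ≤ 2 * (r : ℝ) ^ (-(5 / 24) : ℝ) * (Real.exp 2 * Real.exp (-(min (c / 2) 1 * r * s ^ (4 / 3 : ℝ)))) := by nlinarith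
      _ = 2 * Real.exp 2 * (r : ℝ) ^ (-(5 / 24) : ℝ) * Real.exp (-(min (c / 2) 1 * r * s ^ (4 / 3 : ℝ))) := by ring
      _ ≤ _ := by
          refine mul_le_mul_of_nonneg_right (mul_le_mul_of_nonneg_right (le_max_right _ _) hrp.le) hexp.le
  · obtain ⟨m, hm⟩ : ∃ m, m = (r - 1) / 2 := ⟨_, rfl⟩
    have hm1 : 1 ≤ m := by omega
    have hm0 : (0 : ℝ) < m := by exact_mod_cast hm1
    have h2 : tauP p x ≤ p1 p m ^ 2 := tauP_le (by rw [hx, hm]; omega)
    have h3 := harm m p hm1 hp4 hp12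
    rw [← hs] at h3
    have h4 := pow_le_pow_left₀ (p1_bd p.2.1 p.2.2 m).1 h3 2
    have h5 : (C * (m : ℝ) ^ (-(5 / 48) : ℝ) * Real.exp (-(c * m * s ^ (4 / 3 : ℝ)))) ^ 2 =
        C ^ 2 * (m : ℝ) ^ (-(5 / 24) : ℝ) * Real.exp (-(2 * c * m * s ^ (4 / 3 : ℝ))) := by
      rw [mul_pow, mul_pow, rp_sq hm0.le, ← Real.exp_nat_mul]
      congr 2
      push_cast
      ring
    rw [h5] at h4
    have h6 : (r : ℝ) / 4 ≤ m := by
      have : r ≤ 4 * m := by omega
      have h7 : (r : ℝ) ≤ 4 * m := by exact_mod_cast this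
      linarith
    have h7 : (m : ℝ) ^ (-(5 / 24) : ℝ) ≤ 2 * (r : ℝ) ^ (-(5 / 24) : ℝ) := by
      have h8 : (m : ℝ) ^ (-(5 / 24) : ℝ) ≤ ((r : ℝ) / 4) ^ (-(5 / 24) : ℝ) :=
        Real.rpow_le_rpow_of_nonpos (by positivity) h6 (by norm_num)
      refine h8.trans ?_
      rw [Real.div_rpow hr0.le (by norm_num), div_le_iff₀ (Real.rpow_pos_of_pos (by norm_num) _)]
      have h8 : (1 / 2 : ℝ) ≤ (4 : ℝ) ^ (-(5 / 24) : ℝ) := by
        have h9 : (4 : ℝ) ^ (-(1 / 2) : ℝ) ≤ (4 : ℝ) ^ (-(5 / 24) : ℝ) :=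
          Real.rpow_le_rpow_of_exponent_le (by norm_num) (by norm_num)
        have h10 : (4 : ℝ) ^ (-(1 / 2) : ℝ) = 1 / 2 := by
          rw [Real.rpow_neg (by norm_num), show (4 : ℝ) = 2 ^ (2 : ℝ) by norm_num, ← Real.rpow_mul (by norm_num)]
          norm_num
        linarith
      nlinarith
    have h8 : Real.exp (-(2 * c * m * s ^ (4 / 3 : ℝ))) ≤ Real.exp (-(min (c / 2) 1 * r * s ^ (4 / 3 : ℝ))) := by
      refine Real.exp_le_exp.2 ?_
      have h9 : min (c / 2) 1 * r ≤ 2 * c * m := by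
        calc min (c / 2) 1 * r ≤ c / 2 * r := mul_le_mul_of_nonneg_right (min_le_left _ _) hr0.le
          _ = 2 * c * (r / 4) := by ring
          _ ≤ 2 * c * m := mul_le_mul_of_nonneg_left h6 (by positivity)
      nlinarith [mul_le_mul_of_nonneg_right h9 hsq0]
    calc tauP p x ≤ C ^ 2 * (m : ℝ) ^ (-(5 / 24) : ℝ) * Real.exp (-(2 * c * m * s ^ (4 / 3 : ℝ))) := h2.trans h4
      _ ≤ C ^ 2 * (2 * (r : ℝ) ^ (-(5 / 24) : ℝ)) * Real.exp (-(min (c / 2) 1 * r * s ^ (4 / 3 : ℝ))) := by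
          refine mul_le_mul (mul_le_mul_of_nonneg_left h7 (by positivity)) h8 (Real.exp_pos _).le (by positivity)
      _ = 2 * C ^ 2 * (r : ℝ) ^ (-(5 / 24) : ℝ) * Real.exp (-(min (c / 2) 1 * r * s ^ (4 / 3 : ℝ))) := by ring
      _ ≤ _ := mul_le_mul_of_nonneg_right (mul_le_mul_of_nonneg_right (le_max_left _ _) hrp.le) hexp.le

/-- the window also controls the two point function at distances below the scale -/
theorem tau_near_low (hW : Win) (h1 : One12) : ∃ c C : ℝ, 0 < c ∧ 0 < C ∧ ∀ (p : unitInterval) (x : V) (r : ℕ),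
    1 / 4 ≤ (p : ℝ) → (p : ℝ) ≤ 1 / 2 → 1 ≤ r → sd (0, 0) x = r →
    c * (r : ℝ) ^ (-(5 / 24) : ℝ) * Real.exp (-(C * r * (1 / 2 - (p : ℝ)) ^ (4 / 3 : ℝ))) ≤ tauP p x := by
  obtain ⟨s1, c0, a, b, B, A, M, hs1, hs14, hc0, hc01, ha, hb, hB, hA, hwin⟩ := win_use hW
  obtain ⟨c1, C1, hc1, hC1, hpi⟩ := h1
  obtain ⟨ct, hct, htau⟩ := FKP.tau_lower
  have hl0 : 0 ≤ Real.log (1 / c0) := Real.log_nonneg (by rw [le_div_iff₀ hc0]; linarith)
  have hl4 : 0 < Real.log 4 := Real.log_pos (by norm_num)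
  have hs1q : 0 < s1 ^ (4 / 3 : ℝ) := Real.rpow_pos_of_pos hs1 _
  obtain ⟨D, hD⟩ : ∃ D : ℝ, D = 8 * Real.log (1 / c0) / a := ⟨_, rfl⟩
  have hDp : 0 ≤ D := by rw [hD]; positivity
  obtain ⟨C, hC⟩ : ∃ C : ℝ, C = max (D + 1) (2 * Real.log 4 / s1 ^ (4 / 3 : ℝ)) := ⟨_, rfl⟩
  have hCp : 0 < C := by rw [hC]; exact lt_max_of_lt_left (by linarith)
  have hCle1 : D ≤ C := by rw [hC]; exact le_trans (by linarith) (le_max_left _ _)
  have hCle2 : 2 * Real.log 4 / s1 ^ (4 / 3 : ℝ) ≤ C := by rw [hC]; exact le_max_right _ _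
  obtain ⟨c, hc⟩ : ∃ c : ℝ, c = min (min (ct * c1 ^ 2) ((a * c1) ^ 2 * c0 ^ 50)) ((1 / 4) ^ 28) := ⟨_, rfl⟩
  have hcp : 0 < c := by rw [hc]; positivity
  have hcle1 : c ≤ ct * c1 ^ 2 := by rw [hc]; exact (min_le_left _ _).trans (min_le_left _ _)
  have hcle2 : c ≤ (a * c1) ^ 2 * c0 ^ 50 := by rw [hc]; exact (min_le_left _ _).trans (min_le_right _ _)
  have hcle3 : c ≤ (1 / 4) ^ 28 := by rw [hc]; exact min_le_right _ _
  refine ⟨c, C, hcp, hCp, fun p x r hp4 hp12 hr hx => ?_⟩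
  have hr0 : (0 : ℝ) < r := by exact_mod_cast hr
  have hr1 : (1 : ℝ) ≤ r := by exact_mod_cast hr
  have hrp : 0 < (r : ℝ) ^ (-(5 / 24) : ℝ) := Real.rpow_pos_of_pos hr0 _
  have hrp1 : (r : ℝ) ^ (-(5 / 24) : ℝ) ≤ 1 := Real.rpow_le_one_of_one_le_of_nonpos hr1 (by norm_num)
  obtain ⟨s, hs⟩ : ∃ s : ℝ, s = 1 / 2 - (p : ℝ) := ⟨_, rfl⟩
  have hp' : (p : ℝ) = 1 / 2 - s := by rw [hs]; ring
  rw [← hs]
  have hs0 : 0 ≤ s := by rw [hs]; linarith
  have hsq0 : 0 ≤ s ^ (4 / 3 : ℝ) := Real.rpow_nonneg hs0 _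
  have hp0 : 0 ≤ (p : ℝ) := p.2.1
  have hp1 : (p : ℝ) ≤ 1 := p.2.2
  have hle1 : Real.exp (-(C * r * s ^ (4 / 3 : ℝ))) ≤ 1 := Real.exp_le_one_iff.2 (by
    have : 0 ≤ C * r * s ^ (4 / 3 : ℝ) := by positivity
    linarith)
  have hexp := Real.exp_pos (-(C * r * s ^ (4 / 3 : ℝ)))
  obtain ⟨xa, xb, hxa, hxb⟩ := FX9_abs x
  have hle := (sd_le (u := (0, 0)) (v := x) (m := r)).1 hx.le
  simp only [zero_sub, zero_add] at hle
  have hxa' : xa ≤ r := by
    have := abs_le.2 hle.1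
    rw [hxa] at this
    exact_mod_cast this
  have hxb' : xb ≤ r := by
    have := abs_le.2 hle.2
    rw [hxb] at this
    exact_mod_cast this
  rcases hs0.eq_or_lt with h | hspos
  · have hph : (p : ℝ) = 1 / 2 := by rw [hp', ← h, sub_zero]
    have h2 := htau x r (2 * r) hx hr le_rfl
    have h3 : Pr (FKP.bx (2 * r)) (fun ω => Conn (FKP.bx (2 * r)) ω (0, 0) x) ≤ tauP p x := by
      have h4 := tauP_ge p x (2 * r)
      rw [hph] at h4
      rw [pr_half]
      exact h4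
    have h4 : c1 ^ 2 * (r : ℝ) ^ (-(5 / 24) : ℝ) ≤ pi1 r ^ 2 := by
      have h5 := (hpi r hr).1
      rw [p1_half] at h5
      have h6 := pow_le_pow_left₀ (by positivity) h5 2
      rw [mul_pow, rp_sq hr0.le] at h6
      exact h6
    calc c * (r : ℝ) ^ (-(5 / 24) : ℝ) * Real.exp (-(C * r * s ^ (4 / 3 : ℝ))) ≤ c * (r : ℝ) ^ (-(5 / 24) : ℝ) * 1 :=
          mul_le_mul_of_nonneg_left hle1 (by positivity)
      _ ≤ ct * c1 ^ 2 * (r : ℝ) ^ (-(5 / 24) : ℝ) := by
          rw [mul_one]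
          exact mul_le_mul_of_nonneg_right hcle1 hrp.le
      _ = ct * (c1 ^ 2 * (r : ℝ) ^ (-(5 / 24) : ℝ)) := by ring
      _ ≤ ct * pi1 r ^ 2 := mul_le_mul_of_nonneg_left h4 hct.le
      _ ≤ tauP p x := h2.trans h3
  · rcases le_or_gt s s1 with h | h
    · obtain ⟨hM3, hMb, hMa, hcr, harm, _⟩ := hwin s hspos h
      rw [← hp'] at hcr
      rcases Nat.lt_or_ge r 2 with hr2 | hr2
      · have h2 := FX9_line p x hx
        have h3 : (1 / 4 : ℝ) ^ (26 + 2 * r) ≤ (p : ℝ) ^ (26 + 2 * r) := pow_le_pow_left₀ (by norm_num) hp4 _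
        have h4 : (1 / 4 : ℝ) ^ 28 ≤ (1 / 4) ^ (26 + 2 * r) := pow_le_pow_of_le_one (by norm_num) (by norm_num) (by omega)
        calc c * (r : ℝ) ^ (-(5 / 24) : ℝ) * Real.exp (-(C * r * s ^ (4 / 3 : ℝ))) ≤ c * 1 * 1 :=
              mul_le_mul (mul_le_mul_of_nonneg_left hrp1 hcp.le) hle1 hexp.le (by positivity)
          _ ≤ tauP p x := by linarith
      · obtain ⟨k, hk⟩ : ∃ k, k = min r (M s) := ⟨_, rfl⟩
        have hk2 : 2 ≤ k := by rw [hk]; exact le_min hr2 (by omega)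
        have hkr : k ≤ r := by rw [hk]; exact min_le_left _ _
        have hkM : k ≤ M s := by rw [hk]; exact min_le_right _ _
        have hk0 : (0 : ℝ) < k := by
          have : 0 < k := by omega
          exact_mod_cast this
        obtain ⟨j, hj⟩ : ∃ j, j = k / 2 := ⟨_, rfl⟩
        obtain ⟨l, hl⟩ : ∃ l, l = (r + 4 * k) / (2 * j) := ⟨_, rfl⟩
        have hj1 : 1 ≤ j := by omega
        have h3 := (tau_low hp0 hp1 (x := x) (a := xa) (b := xb) (j := j) (k := k) (N := xa + xb + 2 * k) (by omega) hxa hxb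
          le_rfl).trans (tauP_ge p x _)
        have h4 : c0 ≤ hq p (2 * k) (k - j) := hcr _ _ (by omega) (by omega) (by omega) (by omega)
        have h5 : c0 ^ (2 * l + 1) ≤ hq p ((l + 1) * (2 * j)) (2 * j) :=
          FX5_glue hp0 hp1 hc0 (hcr _ _ (by omega) (by omega) (by omega) (by omega))
            (hcr _ _ (by omega) (by omega) (by omega) (by omega)) l
        have h6 : ∀ e : ℕ, e ≤ r → hq p ((l + 1) * (2 * j)) (2 * j) ≤ hq p (e + 4 * k) (2 * j) := by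
          intro e he
          refine hq_anti hp0 hp1 ?_
          have h7 := Nat.lt_div_mul_add (a := r + 4 * k) (b := 2 * j) (by omega)
          rw [hl, Nat.add_mul, one_mul]
          omega
        have h7 : (l : ℝ) ≤ 2 * r / k + 8 := by
          have h8 : l * k ≤ 2 * (r + 4 * k) := by
            have h9 : l * (2 * j) ≤ r + 4 * k := by rw [hl]; exact Nat.div_mul_le_self _ _
            have h10 : k ≤ 2 * (2 * j) := by omega
            calc l * k ≤ l * (2 * (2 * j)) := Nat.mul_le_mul_left _ h10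
              _ = 2 * (l * (2 * j)) := by ring
              _ ≤ 2 * (r + 4 * k) := by omega
          have h9 : (l : ℝ) * k ≤ 2 * (r + 4 * k) := by exact_mod_cast h8
          rw [div_add' _ _ _ hk0.ne', le_div_iff₀ hk0]
          linarith
        have h8 := FX8_exp hc0 hc01 h7
        have h9 : c0 ^ 17 * c0 ^ 4 * Real.exp (-(C * r * s ^ (4 / 3 : ℝ)) / 2) ≤ c0 ^ (2 * l + 1) := by
          refine le_trans ?_ h8
          have e3 : Real.exp (-(2 * Real.log (1 / c0) * (2 * r / k + 8))) =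
              c0 ^ 16 * Real.exp (-(2 * Real.log (1 / c0) * (2 * r / k))) := by
            have e4 : c0 ^ 16 = Real.exp (-(16 * Real.log (1 / c0))) := by
              have h3 : Real.log (1 / c0) = -Real.log c0 := by rw [one_div, Real.log_inv]
              rw [h3, mul_neg, neg_neg]
              rw [show (16 : ℝ) * Real.log c0 = ((16 : ℕ) : ℝ) * Real.log c0 by norm_num, Real.exp_nat_mul,
                Real.exp_log hc0]
            rw [e4, ← Real.exp_add]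
            congr 1
            ring
          rw [e3]
          have e5 : c0 ^ 4 * Real.exp (-(C * r * s ^ (4 / 3 : ℝ)) / 2) ≤ Real.exp (-(2 * Real.log (1 / c0) * (2 * r / k))) := by
            rcases le_or_gt r (M s) with h10 | h10
            · have hkr' : k = r := by rw [hk]; exact min_eq_left h10
              have e6 : (2 : ℝ) * r / k = 2 := by
                rw [hkr']
                field_simp
              have e7 : c0 ^ 4 = Real.exp (-(2 * Real.log (1 / c0) * (2 * r / k))) := by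
                have h3 : Real.log (1 / c0) = -Real.log c0 := by rw [one_div, Real.log_inv]
                rw [e6, h3]
                rw [show -(2 * -Real.log c0 * 2) = ((4 : ℕ) : ℝ) * Real.log c0 by push_cast; ring, Real.exp_nat_mul,
                  Real.exp_log hc0]
              rw [← e7]
              have e8 : Real.exp (-(C * r * s ^ (4 / 3 : ℝ)) / 2) ≤ 1 := Real.exp_le_one_iff.2 (by
                have : 0 ≤ C * r * s ^ (4 / 3 : ℝ) := by positivity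
                linarith)
              have e9 : 0 ≤ c0 ^ 4 := by positivity
              nlinarith
            · have hkM' : k = M s := by rw [hk]; exact min_eq_right h10.le
              have hMr : (0 : ℝ) < M s := by rw [← hkM']; exact hk0
              have e6 : 2 * Real.log (1 / c0) * (2 * r / k) ≤ C * r * s ^ (4 / 3 : ℝ) / 2 := by
                rw [hkM']
                have h11 : 1 / (M s : ℝ) ≤ s ^ (4 / 3 : ℝ) / a := by
                  rw [div_le_div_iff₀ hMr ha]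
                  linarith
                calc 2 * Real.log (1 / c0) * (2 * r / M s) = 4 * Real.log (1 / c0) * r * (1 / M s) := by ring
                  _ ≤ 4 * Real.log (1 / c0) * r * (s ^ (4 / 3 : ℝ) / a) := mul_le_mul_of_nonneg_left h11 (by positivity)
                  _ = D * r * s ^ (4 / 3 : ℝ) / 2 := by rw [hD]; ring
                  _ ≤ C * r * s ^ (4 / 3 : ℝ) / 2 := by
                      refine div_le_div_of_nonneg_right ?_ (by norm_num)
                      exact mul_le_mul_of_nonneg_right (mul_le_mul_of_nonneg_right hCle1 hr0.le) hsq0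
              have e7 : c0 ^ 4 ≤ 1 := pow_le_one₀ hc0.le hc01
              have e8 : Real.exp (-(C * r * s ^ (4 / 3 : ℝ)) / 2) ≤ Real.exp (-(2 * Real.log (1 / c0) * (2 * r / k))) :=
                Real.exp_le_exp.2 (by linarith)
              have e9 := Real.exp_pos (-(C * r * s ^ (4 / 3 : ℝ)) / 2)
              nlinarith
          calc c0 ^ 17 * c0 ^ 4 * Real.exp (-(C * r * s ^ (4 / 3 : ℝ)) / 2)
              = c0 ^ 17 * (c0 ^ 4 * Real.exp (-(C * r * s ^ (4 / 3 : ℝ)) / 2)) := by ring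
            _ ≤ c0 ^ 17 * Real.exp (-(2 * Real.log (1 / c0) * (2 * r / k))) := mul_le_mul_of_nonneg_left e5 (by positivity)
            _ = c0 * (c0 ^ 16 * Real.exp (-(2 * Real.log (1 / c0) * (2 * r / k)))) := by ring
        have h10 : c0 ^ 17 * c0 ^ 4 * Real.exp (-(C * r * s ^ (4 / 3 : ℝ)) / 2) ≤ hq p (xa + 4 * k) (2 * j) :=
          h9.trans (h5.trans (h6 xa hxa'))
        have h11 : c0 ^ 17 * c0 ^ 4 * Real.exp (-(C * r * s ^ (4 / 3 : ℝ)) / 2) ≤ hq p (xb + 4 * k) (2 * j) :=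
          h9.trans (h5.trans (h6 xb hxb'))
        have h12 : (a * c1) ^ 2 * (r : ℝ) ^ (-(5 / 24) : ℝ) ≤ p1 p k ^ 2 := by
          have h13 := (harm k (by omega) hkM).2
          rw [← hp'] at h13
          have h14 := (hpi k (by omega)).1
          have h15 : a * c1 * (k : ℝ) ^ (-(5 / 48) : ℝ) ≤ p1 p k := by
            have := mul_le_mul_of_nonneg_left h14 ha.le
            linarith
          have h16 := pow_le_pow_left₀ (by positivity) h15 2
          rw [mul_pow, rp_sq hk0.le] at h16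
          have h17 : (r : ℝ) ^ (-(5 / 24) : ℝ) ≤ (k : ℝ) ^ (-(5 / 24) : ℝ) :=
            Real.rpow_le_rpow_of_nonpos hk0 (by exact_mod_cast hkr) (by norm_num)
          exact (mul_le_mul_of_nonneg_left h17 (by positivity)).trans h16
        have h13 : c0 ^ 8 ≤ hq p (2 * k) (k - j) ^ 8 := pow_le_pow_left₀ hc0.le h4 8
        have h14 : Real.exp (-(C * r * s ^ (4 / 3 : ℝ)) / 2) * Real.exp (-(C * r * s ^ (4 / 3 : ℝ)) / 2) =
            Real.exp (-(C * r * s ^ (4 / 3 : ℝ))) := by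
          rw [← Real.exp_add]
          congr 1
          ring
        obtain ⟨E, hE⟩ : ∃ E : ℝ, E = Real.exp (-(C * r * s ^ (4 / 3 : ℝ)) / 2) := ⟨_, rfl⟩
        have hEp : 0 < E := by rw [hE]; exact Real.exp_pos _
        rw [← hE] at h10 h11 h14
        have hq1 := hq_nonneg hp0 hp1 (2 * k) (k - j)
        have hq2 := hq_nonneg hp0 hp1 (xa + 4 * k) (2 * j)
        calc c * (r : ℝ) ^ (-(5 / 24) : ℝ) * Real.exp (-(C * r * s ^ (4 / 3 : ℝ)))
            ≤ (a * c1) ^ 2 * c0 ^ 50 * (r : ℝ) ^ (-(5 / 24) : ℝ) * Real.exp (-(C * r * s ^ (4 / 3 : ℝ))) :=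
              mul_le_mul_of_nonneg_right (mul_le_mul_of_nonneg_right hcle2 hrp.le) hexp.le
          _ = (a * c1) ^ 2 * (r : ℝ) ^ (-(5 / 24) : ℝ) * c0 ^ 8 * (c0 ^ 17 * c0 ^ 4 * E) * (c0 ^ 17 * c0 ^ 4 * E) := by
              rw [← h14]
              ring
          _ ≤ p1 p k ^ 2 * hq p (2 * k) (k - j) ^ 8 * hq p (xa + 4 * k) (2 * j) * hq p (xb + 4 * k) (2 * j) := by
              refine mul_le_mul (mul_le_mul (mul_le_mul h12 h13 (by positivity) (by positivity)) h10 (by positivity)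
                (by positivity)) h11 (by positivity) (by positivity)
          _ ≤ tauP p x := h3
    · have h2 := FX9_line p x hx
      have h3 : (1 / 4 : ℝ) ^ (26 + 2 * r) ≤ (p : ℝ) ^ (26 + 2 * r) := pow_le_pow_left₀ (by norm_num) hp4 _
      have h4 : (1 / 4 : ℝ) ^ (26 + 2 * r) = (1 / 4) ^ 26 * Real.exp (-(2 * r * Real.log 4)) := by
        rw [pow_add]
        congr 1
        rw [one_div, inv_pow, Real.exp_neg, show (2 : ℝ) * r * Real.log 4 = ((2 * r : ℕ) : ℝ) * Real.log 4 by push_cast; ring,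
          Real.exp_nat_mul, Real.exp_log (by norm_num)]
      have h5 : 2 * (r : ℝ) * Real.log 4 ≤ C * r * s ^ (4 / 3 : ℝ) := by
        have h6 : s1 ^ (4 / 3 : ℝ) ≤ s ^ (4 / 3 : ℝ) := Real.rpow_le_rpow hs1.le h.le (by norm_num)
        have h7 : 2 * Real.log 4 ≤ C * s ^ (4 / 3 : ℝ) := by
          rw [div_le_iff₀ hs1q] at hCle2
          exact hCle2.trans (mul_le_mul_of_nonneg_left h6 hCp.le)
        calc 2 * (r : ℝ) * Real.log 4 = r * (2 * Real.log 4) := by ring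
          _ ≤ r * (C * s ^ (4 / 3 : ℝ)) := mul_le_mul_of_nonneg_left h7 hr0.le
          _ = _ := by ring
      have h6 : c ≤ (1 / 4 : ℝ) ^ 26 := hcle3.trans (pow_le_pow_of_le_one (by norm_num) (by norm_num) (by norm_num))
      calc c * (r : ℝ) ^ (-(5 / 24) : ℝ) * Real.exp (-(C * r * s ^ (4 / 3 : ℝ)))
          ≤ (1 / 4) ^ 26 * 1 * Real.exp (-(C * r * s ^ (4 / 3 : ℝ))) := by
            refine mul_le_mul_of_nonneg_right ?_ hexp.le
            exact mul_le_mul h6 hrp1 hrp.le (by positivity)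
        _ ≤ (1 / 4) ^ 26 * Real.exp (-(2 * r * Real.log 4)) := by
            rw [mul_one]
            exact mul_le_mul_of_nonneg_left (Real.exp_le_exp.2 (by linarith)) (by positivity)
        _ ≤ tauP p x := by
            rw [← h4]
            exact h3.trans h2

/-- **The two point function in the near critical regime** -/
theorem tau_near (hW : Win) (h1 : One12) : ∃ c C : ℝ, 0 < c ∧ 0 < C ∧ ∀ (p : unitInterval) (x : V) (r : ℕ),
    1 / 4 ≤ (p : ℝ) → (p : ℝ) ≤ 1 / 2 → 1 ≤ r → sd (0, 0) x = r →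
    c * (r : ℝ) ^ (-(5 / 24) : ℝ) * Real.exp (-(C * r * (1 / 2 - (p : ℝ)) ^ (4 / 3 : ℝ))) ≤ tauP p x ∧
    tauP p x ≤ C * (r : ℝ) ^ (-(5 / 24) : ℝ) * Real.exp (-(c * r * (1 / 2 - (p : ℝ)) ^ (4 / 3 : ℝ))) := by
  obtain ⟨a2, A2, ha2, hA2, e2⟩ := tau_near_up hW h1
  obtain ⟨a3, A3, ha3, hA3, e3⟩ := tau_near_low hW h1
  refine ⟨min a2 a3, max A2 A3, by positivity, by positivity, fun p x r hp hp' hr hx => ?_⟩
  have hn0 : (0 : ℝ) ≤ (r : ℝ) ^ (-(5 / 24) : ℝ) := Real.rpow_nonneg (Nat.cast_nonneg r) _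
  have hs0 : 0 ≤ (r : ℝ) * (1 / 2 - (p : ℝ)) ^ (4 / 3 : ℝ) :=
    mul_nonneg (Nat.cast_nonneg r) (Real.rpow_nonneg (by linarith) _)
  constructor
  · refine le_trans ?_ (e3 p x r hp hp' hr hx)
    refine mul_le_mul (mul_le_mul_of_nonneg_right (min_le_right _ _) hn0) (Real.exp_le_exp.2 ?_)
      (Real.exp_pos _).le (by positivity)
    have h4 : A3 ≤ max A2 A3 := le_max_right _ _
    nlinarith [mul_le_mul_of_nonneg_right h4 hs0]
  · refine (e2 p x r hp hp' hr hx).trans ?_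
    refine mul_le_mul (mul_le_mul_of_nonneg_right (le_max_left _ _) hn0) (Real.exp_le_exp.2 ?_)
      (Real.exp_pos _).le (by positivity)
    have h4 : min a2 a3 ≤ a2 := min_le_left _ _
    nlinarith [mul_le_mul_of_nonneg_right h4 hs0]

end FKF
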