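import Pool.Agent.Lib.MP_216314_pr.N.GB
import Pool.Agent.Lib.MP_216314_pr.P.PGood

/-!
# Duality for rectangles

The configuration of the rectangle `[0,a] × [0,b]` is extended to a configuration `xt a b n ω` of the square
`[0,n]²`, and the duality of the square (`VC_good`, `good_VC`) is used.
-/

set_option autoImplicit false

noncomputable section

namespace FKN

open Finset FKI FKP

/-- the configuration of the rectangle, with open vertical edges above it -/
def xt (a b n : ℕ) (ω : Finset Edge) : Finset Edge :=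
  (ω ∩ FKP.box 0 a 0 b) ∪ (Icc 0 (a : ℤ) ×ˢ (Ico (b : ℤ) n ×ˢ {true}))

theorem mem_xt {a b n : ℕ} {ω : Finset Edge} {e : Edge} : e ∈ xt a b n ω ↔
    (e ∈ ω ∧ e ∈ FKP.box 0 a 0 b) ∨ (e.2.2 = true ∧ 0 ≤ e.1 ∧ e.1 ≤ a ∧ b ≤ e.2.1 ∧ e.2.1 < n) := by
  obtain ⟨x, y, t⟩ := e
  simp only [xt, mem_union, mem_inter, mem_product, mem_Icc, mem_Ico, mem_singleton]
  tauto

/-- the dual configuration of the rectangle -/
def duG (a b : ℕ) (ω : Finset Edge) : Finset Edge := (FKP.box 0 a 0 b \ ω).map psi.toEmbedding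

/-- the vertical edges on the left and right side of the dual rectangle -/
def sds (a b : ℕ) : Finset Edge := ({0, (a : ℤ) + 1} : Finset ℤ) ×ˢ (Ico 0 ((b : ℤ) - 1) ×ˢ {true})

theorem mem_sds {a b : ℕ} {e : Edge} : e ∈ sds a b ↔
    (e.1 = 0 ∨ e.1 = a + 1) ∧ 0 ≤ e.2.1 ∧ e.2.1 < b - 1 ∧ e.2.2 = true := by
  obtain ⟨x, y, t⟩ := e
  simp only [sds, mem_product, mem_insert, mem_Ico, mem_singleton]
  tauto

theorem mem_duG {a b : ℕ} {ω : Finset Edge} {e : Edge} (h : e ∈ FKP.box 0 a 0 b) (h' : e ∉ ω) :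
    psi e ∈ duG a b ω := Finset.mem_map.2 ⟨e, Finset.mem_sdiff.2 ⟨h, h'⟩, rfl⟩

theorem duG_hor {a b : ℕ} {ω : Finset Edge} {x y : ℤ} (hx : 0 ≤ x) (hx' : x ≤ a) (hy : 0 ≤ y)
    (hy' : y < b) (h : (x, y, true) ∉ ω) :
    Conn (FKP.box 0 (a + 1) 0 (b - 1)) (duG a b ω) (x, y) (x + 1, y) := by
  have h1 : ((x, y, true) : Edge) ∈ FKP.box 0 a 0 b := by
    rw [mem_box]
    right
    exact ⟨rfl, hx, hx', hy, hy'⟩
  have h2 := mem_duG h1 h
  have h3 : psi (x, y, true) = (x, y, false) := rfl
  rw [h3] at h2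
  have h4 : ((x, y, false) : Edge) ∈ FKP.box 0 ((a : ℤ) + 1) 0 ((b : ℤ) - 1) := by
    rw [mem_box]
    left
    exact ⟨rfl, hx, by show x < (a : ℤ) + 1; omega, hy, by show y ≤ (b : ℤ) - 1; omega⟩
  exact pexit_edge h4 h2 (Or.inl ⟨rfl, rfl⟩)

theorem duG_ver {a b : ℕ} {ω : Finset Edge} {x y : ℤ} (hx : 0 ≤ x) (hx' : x < a) (hy : 0 ≤ y)
    (hy' : y + 1 < b) (h : (x, y + 1, false) ∉ ω) :
    Conn (FKP.box 0 (a + 1) 0 (b - 1)) (duG a b ω) (x + 1, y) (x + 1, y + 1) := by
  have h1 : ((x, y + 1, false) : Edge) ∈ FKP.box 0 a 0 b := by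
    rw [mem_box]
    left
    exact ⟨rfl, hx, hx', by show 0 ≤ y + 1; omega, by show y + 1 ≤ (b : ℤ); omega⟩
  have h2 := mem_duG h1 h
  have h3 : psi (x, y + 1, false) = (x + 1, y, true) := by
    show ((x + 1, y + 1 - 1, true) : Edge) = (x + 1, y, true)
    rw [add_sub_cancel_right]
  rw [h3] at h2
  have h4 : ((x + 1, y, true) : Edge) ∈ FKP.box 0 ((a : ℤ) + 1) 0 ((b : ℤ) - 1) := by
    rw [mem_box]
    right
    exact ⟨rfl, by show 0 ≤ x + 1; omega, by show x + 1 ≤ (a : ℤ) + 1; omega, hy,
      by show y < (b : ℤ) - 1; omega⟩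
  exact pexit_edge h4 h2 (Or.inl ⟨rfl, rfl⟩)

/-- no dual crossing of the rectangle: no dual crossing of the square -/
theorem good_xt {a b n : ℕ} (ha : a ≤ n) (hb : 1 ≤ b) {ω : Finset Edge}
    (h : ¬ HC 0 (a + 1) 0 (b - 1) (duG a b ω)) : Good n (xt a b n ω) := by
  intro j hj
  have key : ((n : ℤ), j).1 < (a : ℤ) ∧ ∃ j0 : ℤ, 0 ≤ j0 ∧ j0 ≤ b - 1 ∧
      Conn (FKP.box 0 (a + 1) 0 (b - 1)) (duG a b ω) (0, j0) (((n : ℤ), j).1 + 1, min ((n : ℤ), j).2 (b - 1)) := by
    refine pexpl_ind (P := fun f => f.1 < (a : ℤ) ∧ ∃ j0 : ℤ, 0 ≤ j0 ∧ j0 ≤ b - 1 ∧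
      Conn (FKP.box 0 (a + 1) 0 (b - 1)) (duG a b ω) (0, j0) (f.1 + 1, min f.2 (b - 1))) ?_ ?_ ?_ hj
    · intro i hi hi'
      refine ⟨by show (-1 : ℤ) < a; omega, min i (b - 1), by omega, by omega, ?_⟩
      have h1 : (((-1 : ℤ), i).1 + 1, min ((-1 : ℤ), i).2 ((b : ℤ) - 1)) = ((0 : ℤ), min i ((b : ℤ) - 1)) := by
        refine Prod.ext ?_ rfl
        show (-1 : ℤ) + 1 = 0
        norm_num
      rw [h1]
      exact Conn.refl _ _ _
    · rintro ⟨f1, f2⟩ ⟨g1, g2⟩ e ⟨hf, hg, hfg⟩ he ⟨hP1, j0, hj0, hj1, hc⟩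
      rw [pexpl_mem_fcs] at hf hg
      rw [mem_xt] at he
      push Not at he
      obtain ⟨he1, he2⟩ := he
      simp only at hf hg hP1 hc
      rcases hfg with ⟨hfg, hee⟩ | ⟨hfg, hfg1, hfg2, hee⟩
      · simp only [Prod.mk.injEq] at hfg
        obtain ⟨h5, h6⟩ := hfg
        obtain ⟨rfl, rfl⟩ : f1 + 1 = g1 ∧ f2 = g2 := ⟨h5.symm, h6.symm⟩
        subst hee
        by_cases hy : (b : ℤ) ≤ f2
        · exact absurd (he2 rfl (by show 0 ≤ f1 + 1; omega) (by show f1 + 1 ≤ (a : ℤ); omega) hy) (by
            show ¬ ((n : ℤ) ≤ f2)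
            omega)
        · have h7 : ((f1 + 1, f2, true) : Edge) ∉ ω := by
            intro h8
            refine he1 h8 ?_
            rw [mem_box]
            right
            exact ⟨rfl, by show 0 ≤ f1 + 1; omega, by show f1 + 1 ≤ (a : ℤ); omega, hf.2.1,
              by show f2 < (b : ℤ); omega⟩
          have h8 := duG_hor (a := a) (b := b) (x := f1 + 1) (y := f2) (by omega) (by omega) hf.2.1 (by omega) h7
          have h9 : min f2 ((b : ℤ) - 1) = f2 := by omega
          rw [h9] at hc
          have h10 := hc.trans h8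
          by_cases h11 : f1 + 1 = (a : ℤ)
          · exfalso
            apply h
            refine ⟨j0, f2, hj0, hj1, hf.2.1, by omega, ?_⟩
            rw [h11] at h10
            exact h10
          · refine ⟨by show f1 + 1 < (a : ℤ); omega, j0, hj0, hj1, ?_⟩
            show Conn _ _ _ (f1 + 1 + 1, min f2 ((b : ℤ) - 1))
            rw [h9]
            exact h10
      · simp only [Prod.mk.injEq] at hfg
        obtain ⟨h5, h6⟩ := hfg
        obtain ⟨rfl, rfl⟩ : f1 = g1 ∧ f2 + 1 = g2 := ⟨h5.symm, h6.symm⟩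
        subst hee
        refine ⟨hP1, j0, hj0, hj1, ?_⟩
        show Conn _ _ _ (f1 + 1, min (f2 + 1) ((b : ℤ) - 1))
        by_cases hy : (b : ℤ) - 1 ≤ f2
        · have h9 : min (f2 + 1) ((b : ℤ) - 1) = min f2 ((b : ℤ) - 1) := by omega
          rw [h9]
          exact hc
        · have h7 : ((f1, f2 + 1, false) : Edge) ∉ ω := by
            intro h8
            refine he1 h8 ?_
            rw [mem_box]
            left
            exact ⟨rfl, hfg1, hP1, by show 0 ≤ f2 + 1; omega, by show f2 + 1 ≤ (b : ℤ); omega⟩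
          have h8 := duG_ver (a := a) (b := b) (x := f1) (y := f2) hfg1 hP1 hf.2.1 (by omega) h7
          have h9 : min (f2 + 1) ((b : ℤ) - 1) = f2 + 1 := by omega
          have h10 : min f2 ((b : ℤ) - 1) = f2 := by omega
          rw [h10] at hc
          rw [h9]
          exact hc.trans h8
    · rintro ⟨f1, f2⟩ ⟨g1, g2⟩ e ⟨hf, hg, hfg⟩ he ⟨hP1, j0, hj0, hj1, hc⟩
      rw [pexpl_mem_fcs] at hf hg
      rw [mem_xt] at he
      push Not at he
      obtain ⟨he1, he2⟩ := he
      simp only at hf hg hP1 hc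
      rcases hfg with ⟨hfg, hee⟩ | ⟨hfg, hfg1, hfg2, hee⟩
      · simp only [Prod.mk.injEq] at hfg
        obtain ⟨h5, h6⟩ := hfg
        obtain ⟨rfl, rfl⟩ : f1 + 1 = g1 ∧ f2 = g2 := ⟨h5.symm, h6.symm⟩
        subst hee
        refine ⟨by show f1 < (a : ℤ); omega, j0, hj0, hj1, ?_⟩
        show Conn _ _ _ (f1 + 1, min f2 ((b : ℤ) - 1))
        by_cases hy : (b : ℤ) ≤ f2
        · exact absurd (he2 rfl (by show 0 ≤ f1 + 1; omega) (by show f1 + 1 ≤ (a : ℤ); omega) hy) (by
            show ¬ ((n : ℤ) ≤ f2)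
            omega)
        · have h7 : ((f1 + 1, f2, true) : Edge) ∉ ω := by
            intro h8
            refine he1 h8 ?_
            rw [mem_box]
            right
            exact ⟨rfl, by show 0 ≤ f1 + 1; omega, by show f1 + 1 ≤ (a : ℤ); omega, hf.2.1,
              by show f2 < (b : ℤ); omega⟩
          have h8 := duG_hor (a := a) (b := b) (x := f1 + 1) (y := f2) (by omega) (by omega) hf.2.1 (by omega) h7
          have h9 : min f2 ((b : ℤ) - 1) = f2 := by omega
          rw [h9] at hc ⊢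
          exact hc.trans h8.symm
      · simp only [Prod.mk.injEq] at hfg
        obtain ⟨h5, h6⟩ := hfg
        obtain ⟨rfl, rfl⟩ : f1 = g1 ∧ f2 + 1 = g2 := ⟨h5.symm, h6.symm⟩
        subst hee
        refine ⟨hP1, j0, hj0, hj1, ?_⟩
        show Conn _ _ _ (f1 + 1, min f2 ((b : ℤ) - 1))
        by_cases hy : (b : ℤ) - 1 ≤ f2
        · have h9 : min (f2 + 1) ((b : ℤ) - 1) = min f2 ((b : ℤ) - 1) := by omega
          rw [h9] at hc
          exact hc
        · have h7 : ((f1, f2 + 1, false) : Edge) ∉ ω := by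
            intro h8
            refine he1 h8 ?_
            rw [mem_box]
            left
            exact ⟨rfl, hfg1, hP1, by show 0 ≤ f2 + 1; omega, by show f2 + 1 ≤ (b : ℤ); omega⟩
          have h8 := duG_ver (a := a) (b := b) (x := f1) (y := f2) hfg1 hP1 hf.2.1 (by omega) h7
          have h9 : min (f2 + 1) ((b : ℤ) - 1) = f2 + 1 := by omega
          have h10 : min f2 ((b : ℤ) - 1) = f2 := by omega
          rw [h9] at hc
          rw [h10]
          exact hc.trans h8.symm
  have h1 : (n : ℤ) < a := key.1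
  omega

theorem xt_line {a b n : ℕ} (ha : a ≤ n) (ω : Finset Edge) {x : ℤ} (hx : 0 ≤ x)
    (hx' : x ≤ a) (k : ℕ) (hk : b + k ≤ n) :
    Conn (FKP.box 0 n 0 n) (xt a b n ω) (x, b) (x, (b : ℤ) + k) := by
  induction k with
  | zero =>
    have h1 : ((b : ℤ) + ((0 : ℕ) : ℤ)) = b := by simp
    rw [h1]
    exact Conn.refl _ _ _
  | succ k ih =>
    have he : ((x, (b : ℤ) + k, true) : Edge) ∈ FKP.box 0 (n : ℤ) 0 n := by
      rw [mem_box]
      right
      exact ⟨rfl, hx, by show x ≤ (n : ℤ); omega, by show 0 ≤ (b : ℤ) + k; omega,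
        by show (b : ℤ) + k < n; omega⟩
    have he2 : ((x, (b : ℤ) + k, true) : Edge) ∈ xt a b n ω := by
      rw [mem_xt]
      right
      exact ⟨rfl, hx, hx', by show (b : ℤ) ≤ (b : ℤ) + k; omega, by show (b : ℤ) + k < n; omega⟩
    refine (ih (by omega)).trans (pexit_edge he he2 (Or.inl ⟨rfl, ?_⟩))
    show ((x, (b : ℤ) + k + 1) : V) = (x, (b : ℤ) + ((k + 1 : ℕ) : ℤ))
    push_cast
    rw [add_assoc]

theorem VC_xt {a b n : ℕ} (ha : a ≤ n) (hb : b ≤ n) {ω : Finset Edge} (h : VC 0 a 0 b ω) :
    VC 0 n 0 n (xt a b n ω) := by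
  obtain ⟨x, x', h1, h2, h3, h4, hc⟩ := h
  have ha' : (a : ℤ) ≤ n := by exact_mod_cast ha
  have hb' : (b : ℤ) ≤ n := by exact_mod_cast hb
  have hc1 : Conn (FKP.box 0 n 0 n) (xt a b n ω) (x, 0) (x', b) := by
    refine SimpleGraph.Reachable.mono (gr_mono ?_) hc
    intro e he
    rw [mem_inter] at he ⊢
    exact ⟨mem_xt.2 (Or.inl he), box_mono le_rfl ha' le_rfl hb' he.2⟩
  have hc2 := xt_line (b := b) ha ω h3 h4 (n - b) (by omega)
  have h5 : (b : ℤ) + ((n - b : ℕ) : ℤ) = n := by omega
  rw [h5] at hc2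
  exact ⟨x, x', h1, h2.trans ha', h3, h4.trans ha', hc1.trans hc2⟩

theorem conn_start {x1 x2 y1 y2 : ℤ} {ω : Finset Edge} {u v : V}
    (hc : Conn (FKP.box x1 x2 y1 y2) ω u v) (huv : u ≠ v) :
    x1 ≤ u.1 ∧ u.1 ≤ x2 ∧ y1 ≤ u.2 ∧ u.2 ≤ y2 := by
  obtain ⟨p⟩ := hc
  cases p with
  | nil => exact absurd rfl huv
  | cons hadj p =>
    obtain ⟨e, he, hends⟩ := pexit_adj hadj
    rw [mem_inter] at he
    have h1 := pexit_box he.2
    rcases hends with ⟨h3, _⟩ | ⟨_, h4⟩
    · rw [← h3]
      exact h1.1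
    · rw [← h4]
      exact h1.2

theorem xt_VC {a b n : ℕ} (hb1 : 1 ≤ b) (hb : b ≤ n) {ω : Finset Edge}
    (h : VC 0 n 0 n (xt a b n ω)) : VC 0 a 0 b ω := by
  obtain ⟨x, x', h1, h2, h3, h4, hc⟩ := h
  have hf : ∀ e ∈ FKP.box 0 (n : ℤ) 0 n, (ea e).2 - (eb e).2 ≤ 1 ∧ (eb e).2 - (ea e).2 ≤ 1 := by
    rintro ⟨x, z, t⟩ _
    cases t <;> simp [ea, eb]
  obtain ⟨c, hc1, _, hc3⟩ := first_hit (fun v : V => v.2) hf (a := (x, 0)) (b := (x', (n : ℤ)))
    (t := (b : ℤ)) (by simp) (by show (b : ℤ) ≤ n; exact_mod_cast hb) hc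
  have hc4 : Conn (FKP.box 0 a 0 b) ω (x, 0) c := by
    refine SimpleGraph.Reachable.mono (gr_mono ?_) hc3
    intro e he
    rw [mem_inter, mem_xt, mem_filter] at he
    rw [mem_inter]
    obtain ⟨he1, _, he3, he4⟩ := he
    rcases he1 with he1 | he1
    · exact he1
    · exfalso
      obtain ⟨x, y, t⟩ := e
      obtain ⟨k1, k2, k3, k4, k5⟩ := he1
      simp only at k1 k2 k3 k4 k5
      subst k1
      simp only [ea, eb] at he3 he4
      simp at he3 he4
      omega
  have hne : ((x, 0) : V) ≠ c := by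
    intro h5
    have h6 : ((x, 0) : V).2 = b := by rw [h5]; exact hc1
    simp only at h6
    omega
  have h5 := conn_start hc4 hne
  have h6 := conn_mem_box hc4 h5
  have hceq : c = (c.1, (b : ℤ)) := Prod.ext rfl hc1
  refine ⟨x, c.1, h5.1, h5.2.1, h6.1, h6.2.1, ?_⟩
  rw [← hceq]
  exact hc4

/-- no dual crossing: open crossing -/
theorem dual_or {a b : ℕ} (hb : 1 ≤ b) {ω : Finset Edge}
    (h : ¬ HC 0 (a + 1) 0 (b - 1) (duG a b ω)) : VC 0 a 0 b ω := by
  have h1 := good_xt (n := a + b) (by omega) hb h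
  have h2 := good_VC (by omega) h1
  exact xt_VC hb (by omega) h2

/-- dual and open crossing exclude each other, even with open sides of the dual rectangle -/
theorem dual_not {a b : ℕ} (hb : 1 ≤ b) {ω : Finset Edge} (h : VC 0 a 0 b ω)
    (h' : HC 0 (a + 1) 0 (b - 1) (duG a b ω ∪ sds a b)) : False := by
  have hG : Good (a + b) (xt a b (a + b) ω) := VC_good (by omega) (VC_xt (by omega) (by omega) h)
  obtain ⟨y, y', h1, h2, h3, h4, hc⟩ := h'
  have key : ∀ v w : V, (gr ((duG a b ω ∪ sds a b) ∩ FKP.box 0 (a + 1) 0 (b - 1))).Walk v w →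
      0 ≤ v.1 → (v.1 - 1, v.2) ∈ DS (a + b) (xt a b (a + b) ω) →
      (w.1 - 1, w.2) ∈ DS (a + b) (xt a b (a + b) ω) := by
    intro v w p
    induction p with
    | nil => exact fun _ h => h
    | @cons u v w hadj p ih =>
      intro hu0 hu
      obtain ⟨e, he, hends⟩ := pexit_adj hadj
      rw [mem_inter, mem_union] at he
      obtain ⟨he1, he2⟩ := he
      have hbox := pexit_box he2
      have hstep : ((ea e).1 - 1, (ea e).2) ∈ DS (a + b) (xt a b (a + b) ω) ↔
          ((eb e).1 - 1, (eb e).2) ∈ DS (a + b) (xt a b (a + b) ω) := by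
        rcases he1 with he1 | he1
        · unfold duG at he1
          rw [Finset.mem_map] at he1
          obtain ⟨e', he', hee⟩ := he1
          rw [mem_sdiff] at he'
          obtain ⟨he3, he4⟩ := he'
          obtain ⟨x, z, t⟩ := e'
          cases t
          · have h5 : e = (x + 1, z - 1, true) := hee.symm
            subst h5
            rw [mem_box] at he3 he2
            simp at he3 he2
            have hs : sep (a + b) (x, z - 1) (x, z) (x, z, false) := by
              refine ⟨?_, ?_, Or.inr ⟨?_, ?_, ?_, rfl⟩⟩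
              · rw [pexpl_mem_fcs]
                push_cast
                omega
              · rw [pexpl_mem_fcs]
                push_cast
                omega
              · simp
              · show 0 ≤ x
                omega
              · show x < ((a + b : ℕ) : ℤ)
                push_cast
                omega
            have hne : (x, z, false) ∉ xt a b (a + b) ω := by
              rw [mem_xt]
              rintro (⟨h5, _⟩ | ⟨h5, _⟩)
              · exact he4 h5
              · exact absurd h5 (by simp)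
            have h6 := DS_step hs hne
            simpa [ea, eb] using h6
          · have h5 : e = (x, z, false) := hee.symm
            subst h5
            rw [mem_box] at he3 he2
            simp at he3 he2
            have hs : sep (a + b) (x - 1, z) (x, z) (x, z, true) := by
              refine ⟨?_, ?_, Or.inl ⟨?_, rfl⟩⟩
              · rw [pexpl_mem_fcs]
                push_cast
                omega
              · rw [pexpl_mem_fcs]
                push_cast
                omega
              · simp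
            have hne : (x, z, true) ∉ xt a b (a + b) ω := by
              rw [mem_xt]
              rintro (⟨h5, _⟩ | ⟨_, _, _, h5, _⟩)
              · exact he4 h5
              · simp only at h5
                omega
            have h6 := DS_step hs hne
            simpa [ea, eb] using h6
        · rw [mem_sds] at he1
          obtain ⟨x, z, t⟩ := e
          simp only at he1
          obtain ⟨h5, h6, h7, h8⟩ := he1
          subst h8
          rcases h5 with h5 | h5
          · subst h5
            have h9 := DS_left (n := a + b) (ω := xt a b (a + b) ω) (j := z) h6 (by push_cast; omega)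
            have h10 := DS_left (n := a + b) (ω := xt a b (a + b) ω) (j := z + 1) (by omega)
              (by push_cast; omega)
            constructor
            · intro _
              simpa [ea, eb] using h10
            · intro _
              simpa [ea, eb] using h9
          · subst h5
            have hs : sep (a + b) ((a : ℤ), z) ((a : ℤ), z + 1) ((a : ℤ), z + 1, false) := by
              refine ⟨?_, ?_, Or.inr ⟨?_, ?_, ?_, rfl⟩⟩
              · rw [pexpl_mem_fcs]
                push_cast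
                omega
              · rw [pexpl_mem_fcs]
                push_cast
                omega
              · simp
              · show (0 : ℤ) ≤ a
                omega
              · show (a : ℤ) < ((a + b : ℕ) : ℤ)
                push_cast
                omega
            have hne : ((a : ℤ), z + 1, false) ∉ xt a b (a + b) ω := by
              rw [mem_xt, mem_box]
              rintro (⟨_, h5 | h5⟩ | ⟨h5, _⟩)
              · simp at h5
              · simp at h5
              · exact absurd h5 (by simp)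
            have h11 := DS_step hs hne
            simpa [ea, eb] using h11
      rcases hends with ⟨h5, h6⟩ | ⟨h5, h6⟩
      · refine ih ?_ ?_
        · rw [← h6]
          exact hbox.2.1
        · rw [← h6]
          rw [← h5] at hu
          exact hstep.1 hu
      · refine ih ?_ ?_
        · rw [← h5]
          exact hbox.1.1
        · rw [← h5]
          rw [← h6] at hu
          exact hstep.2 hu
  obtain ⟨p⟩ := hc
  have h5 := key _ _ p le_rfl (by
    have h6 := DS_left (n := a + b) (ω := xt a b (a + b) ω) (j := y) h1 (by push_cast; omega)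
    simpa using h6)
  have h6 : ∀ k : ℕ, k ≤ b → (((a : ℤ) + k), y') ∈ DS (a + b) (xt a b (a + b) ω) := by
    intro k
    induction k with
    | zero =>
      intro _
      simpa using h5
    | succ k ih =>
      intro hk
      have hs : sep (a + b) ((a : ℤ) + k, y') ((a : ℤ) + ((k + 1 : ℕ) : ℤ), y')
          ((a : ℤ) + ((k + 1 : ℕ) : ℤ), y', true) := by
        refine ⟨?_, ?_, Or.inl ⟨?_, rfl⟩⟩
        · rw [pexpl_mem_fcs]
          push_cast
          omega
        · rw [pexpl_mem_fcs]
          push_cast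
          omega
        · push_cast
          rw [add_assoc]
      have hne : ((a : ℤ) + ((k + 1 : ℕ) : ℤ), y', true) ∉ xt a b (a + b) ω := by
        rw [mem_xt, mem_box]
        rintro (⟨_, h5 | h5⟩ | ⟨_, _, h5, _⟩)
        · simp at h5
        · have h7 := h5.2.2.1
          push_cast at h7
          omega
        · push_cast at h5
          omega
      exact (DS_step hs hne).1 (ih (by omega))
  have h7 := h6 b le_rfl
  refine hG y' ?_
  have h8 : (((a + b : ℕ) : ℤ)) = (a : ℤ) + b := by push_cast; ring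
  rw [h8]
  exact h7

end FKN
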