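import Pool.Agent.Lib.MP_216314_pr.N.GL
import Pool.Agent.Lib.MP_216314_pr.P.PGeo

/-!
# Barriers in a strip

`Bar Y1 Y2 cx cy j k`: open circuit in the annulus of radii `j < k` around `(cx, cy)`, cut by the strip `Y1 ≤ y ≤ Y2`.
-/

set_option autoImplicit false

noncomputable section

namespace FKN

open Finset FKI FKP

/-- the barrier around the square of radius `j` and centre `(cx, cy)`, in the strip `Y1 ≤ y ≤ Y2` -/
def Bar (Y1 Y2 cx cy j k : ℤ) (ω : Finset Edge) : Prop :=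
  ((VC (cx - k) (cx - j) (max Y1 (cy - k)) (min Y2 (cy + k)) ω ∧
  VC (cx + j) (cx + k) (max Y1 (cy - k)) (min Y2 (cy + k)) ω) ∧
  (cy + k ≤ Y2 → HC (cx - k) (cx + k) (cy + j) (cy + k) ω)) ∧
  (Y1 ≤ cy - k → HC (cx - k) (cx + k) (cy - k) (cy - j) ω)

/-- sup distance -/
def dsG (cx cy : ℤ) (v : V) : ℤ := max |v.1 - cx| |v.2 - cy|

theorem dsG_le {cx cy t : ℤ} {v : V} : dsG cx cy v ≤ t ↔
    (cx - t ≤ v.1 ∧ v.1 ≤ cx + t) ∧ (cy - t ≤ v.2 ∧ v.2 ≤ cy + t) := by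
  unfold dsG
  rw [max_le_iff, abs_le, abs_le]
  constructor
  · rintro ⟨⟨h1, h2⟩, h3, h4⟩
    exact ⟨⟨by omega, by omega⟩, by omega, by omega⟩
  · rintro ⟨⟨h1, h2⟩, h3, h4⟩
    exact ⟨⟨by omega, by omega⟩, by omega, by omega⟩

theorem dsG_eq {cx cy t : ℤ} {v : V} (h : dsG cx cy v = t) :
    v.1 = cx + t ∨ v.1 = cx - t ∨ v.2 = cy + t ∨ v.2 = cy - t := by
  unfold dsG at h
  rcases max_cases |v.1 - cx| |v.2 - cy| with h3 | h3
  · rcases abs_cases (v.1 - cx) with h4 | h4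
    · left; omega
    · right; left; omega
  · rcases abs_cases (v.2 - cy) with h4 | h4
    · right; right; left; omega
    · right; right; right; omega

theorem ea_eb (e : Edge) : ((eb e).1 = (ea e).1 + 1 ∧ (eb e).2 = (ea e).2) ∨
    ((eb e).1 = (ea e).1 ∧ (eb e).2 = (ea e).2 + 1) := by
  obtain ⟨x, y, t⟩ := e
  cases t
  · left
    exact ⟨rfl, rfl⟩
  · right
    exact ⟨rfl, rfl⟩

theorem dsG_edge (cx cy : ℤ) (e : Edge) :
    dsG cx cy (ea e) - dsG cx cy (eb e) ≤ 1 ∧ dsG cx cy (eb e) - dsG cx cy (ea e) ≤ 1 := by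
  unfold dsG
  rcases ea_eb e with ⟨h1, h2⟩ | ⟨h1, h2⟩
  · rw [h1, h2]
    have h3 := abs_sub_abs_le_abs_sub ((ea e).1 - cx) ((ea e).1 + 1 - cx)
    have h4 := abs_sub_abs_le_abs_sub ((ea e).1 + 1 - cx) ((ea e).1 - cx)
    have h5 : (ea e).1 - cx - ((ea e).1 + 1 - cx) = -1 := by ring
    have h6 : (ea e).1 + 1 - cx - ((ea e).1 - cx) = 1 := by ring
    rw [h5] at h3
    rw [h6] at h4
    rw [abs_neg, abs_one] at h3
    rw [abs_one] at h4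
    constructor <;> omega
  · rw [h1, h2]
    have h3 := abs_sub_abs_le_abs_sub ((ea e).2 - cy) ((ea e).2 + 1 - cy)
    have h4 := abs_sub_abs_le_abs_sub ((ea e).2 + 1 - cy) ((ea e).2 - cy)
    have h5 : (ea e).2 - cy - ((ea e).2 + 1 - cy) = -1 := by ring
    have h6 : (ea e).2 + 1 - cy - ((ea e).2 - cy) = 1 := by ring
    rw [h5] at h3
    rw [h6] at h4
    rw [abs_neg, abs_one] at h3
    rw [abs_one] at h4
    constructor <;> omega

/-- edges of a rectangle: both ends are in the rectangle -/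
theorem box_ends {x1 x2 y1 y2 : ℤ} {e : Edge} : e ∈ FKP.box x1 x2 y1 y2 ↔
    x1 ≤ (ea e).1 ∧ (eb e).1 ≤ x2 ∧ y1 ≤ (ea e).2 ∧ (eb e).2 ≤ y2 := by
  rw [mem_box]
  obtain ⟨x, y, t⟩ := e
  cases t
  · simp [ea, eb]
  · simp [ea, eb]

theorem bar_pt {Y1 Y2 cx cy j k : ℤ} (hj : 0 ≤ j) (hjk : j ≤ k) (hY : Y1 ≤ cy - k ∨ cy + k ≤ Y2)
    (hc1 : Y1 ≤ cy) (hc2 : cy ≤ Y2) {ω : Finset Edge} (h : Bar Y1 Y2 cx cy j k ω) :
    ∃ p : V, ∀ (X1 X2 : ℤ) (u v : V), Conn (FKP.box X1 X2 Y1 Y2) ω u v → Y1 ≤ u.2 → u.2 ≤ Y2 →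
      dsG cx cy u ≤ j → k ≤ dsG cx cy v → (gr ω).Reachable u p := by
  obtain ⟨⟨⟨hL, hR⟩, hT⟩, hB⟩ := h
  set lo : ℤ := max Y1 (cy - k) with hlo
  set hi : ℤ := min Y2 (cy + k) with hhi
  obtain ⟨xr, xr', r1, r2, r3, r4, hR⟩ := hR
  obtain ⟨xl, xl', l1, l2, l3, l4, hL⟩ := hL
  have hlr : (gr ω).Reachable (xl, lo) (xr, lo) := by
    rcases hY with hY | hY
    · obtain ⟨yb, yb', b1, b2, b3, b4, hB⟩ := hB hY
      have e1 : lo = cy - k := by omega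
      have br := cross (ω := ω) (x1 := cx - k) (x2 := cx + k) (y1 := cy - k) (y2 := cy - j)
        (x3 := cx + j) (x4 := cx + k) (y3 := lo) (y4 := hi) (by omega) le_rfl (by omega) (by omega)
        ⟨b1, b2⟩ ⟨b3, b4⟩ ⟨r1, r2⟩ ⟨r3, r4⟩ hB hR
      have bl := cross (ω := ω) (x1 := cx - k) (x2 := cx + k) (y1 := cy - k) (y2 := cy - j)
        (x3 := cx - k) (x4 := cx - j) (y3 := lo) (y4 := hi) le_rfl (by omega) (by omega) (by omega)
        ⟨b1, b2⟩ ⟨b3, b4⟩ ⟨l1, l2⟩ ⟨l3, l4⟩ hB hL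
      exact bl.symm.trans br
    · obtain ⟨yt, yt', t1, t2, t3, t4, hT⟩ := hT hY
      have e1 : hi = cy + k := by omega
      have tr := cross (ω := ω) (x1 := cx - k) (x2 := cx + k) (y1 := cy + j) (y2 := cy + k)
        (x3 := cx + j) (x4 := cx + k) (y3 := lo) (y4 := hi) (by omega) le_rfl (by omega) (by omega)
        ⟨t1, t2⟩ ⟨t3, t4⟩ ⟨r1, r2⟩ ⟨r3, r4⟩ hT hR
      have tl := cross (ω := ω) (x1 := cx - k) (x2 := cx + k) (y1 := cy + j) (y2 := cy + k)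
        (x3 := cx - k) (x4 := cx - j) (y3 := lo) (y4 := hi) le_rfl (by omega) (by omega) (by omega)
        ⟨t1, t2⟩ ⟨t3, t4⟩ ⟨l1, l2⟩ ⟨l3, l4⟩ hT hL
      exact tl.symm.trans tr
  refine ⟨(xr, lo), fun X1 X2 u v' hc hu1 hu2 hu hv' => ?_⟩
  obtain ⟨⟨vx, vy⟩, hv, _, hc3⟩ := first_hit (F := FKP.box X1 X2 Y1 Y2) (dsG cx cy)
    (fun e _ => dsG_edge cx cy e) (hu.trans hjk) hv' hc
  have hu3 := dsG_le.1 hu
  have hc : Conn (FKP.box (cx - k) (cx + k) lo hi) ω u (vx, vy) := by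
    refine hc3.mono ?_ (Finset.Subset.refl _)
    intro e he
    rw [mem_filter, dsG_le, dsG_le, box_ends] at he
    rw [box_ends]
    omega
  have hm := conn_mem_box hc ⟨by omega, by omega, by omega, by omega⟩
  simp only at hm
  rcases dsG_eq hv with hv | hv | hv | hv
  · simp only at hv
    subst hv
    obtain ⟨y0, h1, h2, h3, h4⟩ := pgeo_right (t := cx + j) hc (by omega)
      ⟨by omega, by omega, by omega, by omega⟩
    have h5 := cross (ω := ω) le_rfl le_rfl le_rfl le_rfl ⟨h1, h2⟩ ⟨hm.2.2.1, hm.2.2.2⟩ ⟨r1, r2⟩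
      ⟨r3, r4⟩ h4 hR
    exact h3.reach.trans h5
  · simp only at hv
    subst hv
    obtain ⟨y0, h1, h2, h3, h4⟩ := pgeo_left (t := cx - j) hc (by omega)
      ⟨by omega, by omega, by omega, by omega⟩
    have h5 := cross (ω := ω) le_rfl le_rfl le_rfl le_rfl ⟨hm.2.2.1, hm.2.2.2⟩ ⟨h1, h2⟩
      ⟨l1, l2⟩ ⟨l3, l4⟩ h4 hL
    exact (hc.reach.trans h5).trans hlr
  · simp only at hv
    have e1 : hi = cy + k := by omega
    have e2 : vy = hi := by omega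
    obtain ⟨yt, yt', t1, t2, t3, t4, hT⟩ := hT (by omega)
    rw [e2] at hc
    obtain ⟨x0, h1, h2, h3, h4⟩ := pgeo_up (t := cy + j) hc (by omega)
      ⟨by omega, by omega, by omega, by omega⟩
    rw [e1] at h4
    have h5 := cross (ω := ω) le_rfl le_rfl le_rfl le_rfl ⟨t1, t2⟩ ⟨t3, t4⟩ ⟨h1, h2⟩
      ⟨hm.1, hm.2.1⟩ hT h4
    have tr := cross (ω := ω) (x1 := cx - k) (x2 := cx + k) (y1 := cy + j) (y2 := cy + k)
      (x3 := cx + j) (x4 := cx + k) (y3 := lo) (y4 := hi) (by omega) le_rfl (by omega) (by omega)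
      ⟨t1, t2⟩ ⟨t3, t4⟩ ⟨r1, r2⟩ ⟨r3, r4⟩ hT hR
    exact (h3.reach.trans h5.symm).trans tr
  · simp only at hv
    have e1 : lo = cy - k := by omega
    have e2 : vy = lo := by omega
    obtain ⟨yb, yb', b1, b2, b3, b4, hB⟩ := hB (by omega)
    rw [e2] at hc
    obtain ⟨x0, h1, h2, h3, h4⟩ := pgeo_down (t := cy - j) hc (by omega)
      ⟨by omega, by omega, by omega, by omega⟩
    have h4' : Conn (FKP.box (cx - k) (cx + k) (cy - k) (cy - j)) ω (vx, cy - k) (x0, cy - j) := by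
      rw [e1] at h4
      exact h4
    have h5 := cross (ω := ω) le_rfl le_rfl le_rfl le_rfl ⟨b1, b2⟩ ⟨b3, b4⟩ ⟨hm.1, hm.2.1⟩
      ⟨h1, h2⟩ hB h4'
    have br := cross (ω := ω) (x1 := cx - k) (x2 := cx + k) (y1 := cy - k) (y2 := cy - j)
      (x3 := cx + j) (x4 := cx + k) (y3 := lo) (y4 := hi) (by omega) le_rfl (by omega) (by omega)
      ⟨b1, b2⟩ ⟨b3, b4⟩ ⟨r1, r2⟩ ⟨r3, r4⟩ hB hR
    have e3 : (vx, lo) = ((vx, cy - k) : V) := by rw [e1]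
    rw [e3] at hc
    exact (hc.reach.trans h5.symm).trans br

theorem inc_imp {P : Prop} {A : Finset Edge → Prop} (hA : FKP.Inc A) : FKP.Inc (fun ω => P → A ω) :=
  fun ω ω' hs h hP => hA ω ω' hs (h hP)

theorem inc_and {A B : Finset Edge → Prop} (hA : FKP.Inc A) (hB : FKP.Inc B) :
    FKP.Inc (fun ω => A ω ∧ B ω) := fun ω ω' hs h => ⟨hA ω ω' hs h.1, hB ω ω' hs h.2⟩

theorem dep_imp {P : Prop} {F : Finset Edge} {A : Finset Edge → Prop} (hA : P → Dep F A) :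
    Dep F (fun ω => P → A ω) := by
  intro ω
  constructor
  · intro h hP
    exact (hA hP ω).1 (h hP)
  · intro h hP
    exact (hA hP ω).2 (h hP)

theorem dep_and {F : Finset Edge} {A B : Finset Edge → Prop} (hA : Dep F A) (hB : Dep F B) :
    Dep F (fun ω => A ω ∧ B ω) := fun ω => and_congr (hA ω) (hB ω)

theorem dep_not {F : Finset Edge} {A : Finset Edge → Prop} (hA : Dep F A) :
    Dep F (fun ω => ¬ A ω) := fun ω => not_congr (hA ω)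

theorem inc_Bar (Y1 Y2 cx cy j k : ℤ) : FKP.Inc (Bar Y1 Y2 cx cy j k) :=
  inc_and (inc_and (inc_and (inc_VC _ _ _ _) (inc_VC _ _ _ _)) (inc_imp (inc_HC _ _ _ _)))
    (inc_imp (inc_HC _ _ _ _))

/-- `Bar` depends on the edges at distance between `j` and `k` -/
theorem dep_Bar {Y1 Y2 cx cy j k : ℤ} (hj : 0 ≤ j) (hjk : j ≤ k) (hc1 : Y1 ≤ cy) (hc2 : cy ≤ Y2)
    {F : Finset Edge}
    (hF : ∀ e : Edge, Y1 ≤ (ea e).2 → (eb e).2 ≤ Y2 → j ≤ dsG cx cy (ea e) → j ≤ dsG cx cy (eb e) →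
      dsG cx cy (ea e) ≤ k → dsG cx cy (eb e) ≤ k → e ∈ F) :
    Dep F (Bar Y1 Y2 cx cy j k) := by
  have hge : ∀ v : V, (v.1 ≤ cx - j ∨ cx + j ≤ v.1 ∨ v.2 ≤ cy - j ∨ cy + j ≤ v.2) → j ≤ dsG cx cy v := by
    intro v hv
    unfold dsG
    rw [le_max_iff, le_abs, le_abs]
    omega
  have key : ∀ e : Edge, ∀ x1 x2 y1 y2 : ℤ, e ∈ FKP.box x1 x2 y1 y2 → cx - k ≤ x1 → x2 ≤ cx + k →
      max Y1 (cy - k) ≤ y1 → y2 ≤ min Y2 (cy + k) →
      (x2 ≤ cx - j ∨ cx + j ≤ x1 ∨ y2 ≤ cy - j ∨ cy + j ≤ y1) → e ∈ F := by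
    intro e x1 x2 y1 y2 he h1 h2 h3 h4 h5
    rw [box_ends] at he
    have h6 := ea_eb e
    refine hF e (by omega) (by omega) (hge _ (by omega)) (hge _ (by omega)) (dsG_le.2 (by omega))
      (dsG_le.2 (by omega))
  refine dep_and (dep_and (dep_and (dep_VC ?_) (dep_VC ?_)) (dep_imp fun hP => dep_HC ?_))
    (dep_imp fun hP => dep_HC ?_)
  · exact fun e he => key e _ _ _ _ he le_rfl (by omega) le_rfl le_rfl (Or.inl le_rfl)
  · exact fun e he => key e _ _ _ _ he (by omega) le_rfl le_rfl le_rfl (Or.inr (Or.inl le_rfl))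
  · exact fun e he => key e _ _ _ _ he le_rfl le_rfl (by omega) (by omega)
      (Or.inr (Or.inr (Or.inr le_rfl)))
  · exact fun e he => key e _ _ _ _ he le_rfl le_rfl (by omega) (by omega)
      (Or.inr (Or.inr (Or.inl le_rfl)))

theorem pq_fkg4 {q : ℝ} (h0 : 0 ≤ q) (h1 : q ≤ 1) {E : Finset Edge} {A B C D : Finset Edge → Prop}
    (hA : FKP.Inc A) (hB : FKP.Inc B) (hC : FKP.Inc C) (hD : FKP.Inc D) {c : ℝ} (hc : 0 ≤ c)
    (a : c ≤ IPC.Pr q E A) (b : c ≤ IPC.Pr q E B) (cc : c ≤ IPC.Pr q E C) (d : c ≤ IPC.Pr q E D) :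
    c ^ 4 ≤ IPC.Pr q E (fun ω => ((A ω ∧ B ω) ∧ C ω) ∧ D ω) := by
  have f1 := pq_fkg h0 h1 E hA hB
  have f2 := pq_fkg h0 h1 E (inc_and hA hB) hC
  have f3 := pq_fkg h0 h1 E (inc_and (inc_and hA hB) hC) hD
  have g1 : c * c ≤ IPC.Pr q E (fun ω => A ω ∧ B ω) := (mul_le_mul a b hc (hc.trans a)).trans f1
  have g2 : c * c * c ≤ IPC.Pr q E (fun ω => (A ω ∧ B ω) ∧ C ω) :=
    (mul_le_mul g1 cc hc (le_trans (by positivity) g1)).trans f2
  have g3 : c * c * c * c ≤ IPC.Pr q E (fun ω => ((A ω ∧ B ω) ∧ C ω) ∧ D ω) :=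
    (mul_le_mul g2 d hc (le_trans (by positivity) g2)).trans f3
  calc c ^ 4 = c * c * c * c := by ring
    _ ≤ _ := g3

theorem pq_imp_ge {q : ℝ} {E : Finset Edge} {P : Prop}
    {A : Finset Edge → Prop} {c : ℝ} (hc : c ≤ 1) (h : P → c ≤ IPC.Pr q E A) :
    c ≤ IPC.Pr q E (fun ω => P → A ω) := by
  by_cases hP : P
  · have h2 : IPC.Pr q E (fun ω => P → A ω) = IPC.Pr q E A :=
      pq_congr fun ω _ => ⟨fun h => h hP, fun h _ => h⟩
    rw [h2]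
    exact h hP
  · rw [IPC.Pr_true q E fun ω _ => fun h => absurd h hP]
    exact hc

/-- probability of a barrier: `c` is a lower bound for crossings of rectangles `4 × 1` -/
theorem pr_Bar {q c : ℝ} (h0 : 0 ≤ q) (h1 : q ≤ 1) (hc0 : 0 ≤ c) (hc1 : c ≤ 1) {r : ℕ} (hr : 1 ≤ r)
    (hh : ∀ a : ℕ, a ≤ 4 * r → c ≤ hq q a r)
    {Y1 Y2 cx cy : ℤ} (hy1 : Y1 ≤ cy) (hy2 : cy ≤ Y2) {E : Finset Edge}
    (hE : FKP.box (cx - 2 * r) (cx + 2 * r) (max Y1 (cy - 2 * r)) (min Y2 (cy + 2 * r)) ⊆ E) :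
    c ^ 4 ≤ IPC.Pr q E (Bar Y1 Y2 cx cy r (2 * r)) := by
  have hsub : ∀ {x1 x2 y1 y2 : ℤ}, cx - 2 * r ≤ x1 → x2 ≤ cx + 2 * r → max Y1 (cy - 2 * r) ≤ y1 →
      y2 ≤ min Y2 (cy + 2 * r) → FKP.box x1 x2 y1 y2 ⊆ E := fun h1 h2 h3 h4 => (box_mono h1 h2 h3 h4).trans hE
  refine pq_fkg4 h0 h1 (inc_VC _ _ _ _) (inc_VC _ _ _ _) (inc_imp (inc_HC _ _ _ _))
    (inc_imp (inc_HC _ _ _ _)) hc0 ?_ ?_ ?_ ?_
  · rw [pq_VC q r (min Y2 (cy + 2 * r) - max Y1 (cy - 2 * r)).toNat (by ring) (by omega)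
      (hsub (by omega) (by omega) le_rfl le_rfl)]
    exact hh _ (by omega)
  · rw [pq_VC q r (min Y2 (cy + 2 * r) - max Y1 (cy - 2 * r)).toNat (by ring) (by omega)
      (hsub (by omega) (by omega) le_rfl le_rfl)]
    exact hh _ (by omega)
  · refine pq_imp_ge hc1 fun hP => ?_
    rw [pq_HC q (4 * r) r (by push_cast; ring) (by ring)
      (hsub (by omega) (by omega) (by omega) (by omega))]
    exact hh _ le_rfl
  · refine pq_imp_ge hc1 fun hP => ?_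
    rw [pq_HC q (4 * r) r (by push_cast; ring) (by ring)
      (hsub (by omega) (by omega) (by omega) (by omega))]
    exact hh _ le_rfl

end FKN
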