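import Pool.Agent.Lib.MP_216314_pr.N.GD
import Pool.Agent.Lib.MP_216314_pr.P.PX
import Pool.Agent.Lib.MP_216314_pr.P.PComb

/-!
# Longer rectangles from shorter ones (Bollobas-Riordan) for the parameter `q`
-/

set_option autoImplicit false

noncomputable section

namespace FKN

open Finset FKI FKP

theorem yv_half {q : ℝ} (h0 : 0 ≤ q) (h1 : q ≤ 1) {n m : ℕ} (hn : 1 ≤ n) (hm : n ≤ m)
    {C : Finset Edge} {z : V → ZMod 2} (hF : Fr n C z) :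
    hq q m (2 * n + 1) / 2 ≤ IPC.Pr q (FKP.box 0 m 0 (2 * n + 1)) (Yv n m C z) := by
  have hbox : (FKP.box 0 (m : ℤ) 0 (2 * n + 1)).map (ryE (2 * n + 1)).toEmbedding
      = FKP.box 0 (m : ℤ) 0 (2 * n + 1) := by
    rw [box_ry]
    congr 1 <;> ring
  have hcast : (((2 * n + 1 : ℕ) : ℕ) : ℤ) = 2 * (n : ℤ) + 1 := by push_cast; ring
  have h1' : hq q m (2 * n + 1) ≤ IPC.Pr q (FKP.box 0 m 0 (2 * n + 1))
      (fun ω => Yv n m C z ω ∨ Yv n m C z (ω.map (ryE (2 * n + 1)).toEmbedding)) := by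
    unfold hq
    rw [hcast]
    exact pq_mono h0 h1 (fun ω _ hω => bar hn hm hF hω)
  have h2 := pq_or_le h0 h1 (FKP.box 0 (m : ℤ) 0 (2 * n + 1)) (Yv n m C z)
    (fun ω => Yv n m C z (ω.map (ryE (2 * n + 1)).toEmbedding))
  have h3 : IPC.Pr q (FKP.box 0 (m : ℤ) 0 (2 * n + 1))
      (fun ω => Yv n m C z (ω.map (ryE (2 * n + 1)).toEmbedding))
      = IPC.Pr q (FKP.box 0 (m : ℤ) 0 (2 * n + 1)) (Yv n m C z) := by
    rw [← pq_map, hbox]
  rw [h3] at h2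
  linarith

theorem xx_lower {q : ℝ} (h0 : 0 ≤ q) (h1 : q ≤ 1) {n m : ℕ} (hn : 1 ≤ n) (hm : n ≤ m) :
    hq q m (2 * n + 1) / 2 * IPC.Pr q (FKP.box 0 n 0 n) (Good n) ≤
      IPC.Pr q (FKP.box 0 m 0 (2 * n + 1)) (XX n m) := by
  classical
  set E := FKP.box 0 (m : ℤ) 0 (2 * n + 1) with hE
  have key : ∀ D : Finset V, ∃ (C : Finset Edge) (z : V → ZMod 2),
      (∃ ω, DS n ω = D ∧ Good n ω) → Fr n C z ∧ C ⊆ fr n D ∧ ∀ f ∈ D, z f = 0 := by
    intro D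
    by_cases hD : ∃ ω, DS n ω = D ∧ Good n ω
    · obtain ⟨C, z, hh⟩ := front hn hD
      exact ⟨C, z, fun _ => hh⟩
    · exact ⟨∅, fun _ => 0, fun h => absurd h hD⟩
  choose C z hCz using key
  set T : Finset (Finset V) :=
    (fcs n).powerset.filter (fun D => ∃ ω, DS n ω = D ∧ Good n ω) with hT
  have hmemT : ∀ D, D ∈ T → ∃ ω, DS n ω = D ∧ Good n ω := fun D hD => (mem_filter.1 hD).2
  have hgood : ∀ ω, ω ⊆ E → (Good n ω ↔ DS n ω ∈ T) := by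
    intro ω _
    constructor
    · intro hg
      rw [hT, mem_filter, mem_powerset]
      refine ⟨?_, ω, rfl, hg⟩
      unfold DS
      exact Finset.filter_subset _ _
    · intro hD
      obtain ⟨ω', h1, h2⟩ := hmemT _ hD
      intro j
      rw [← h1]
      exact h2 j
  have hsum : ∑ D ∈ T, IPC.Pr q E (fun ω => DS n ω = D) = IPC.Pr q (FKP.box 0 n 0 n) (Good n) := by
    rw [pq_part_eq q T (fun ω => DS n ω) (Good n) hgood]
    exact pq_dep q (px_box_sub hm) (good_dep n)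
  have hle : ∑ D ∈ T, IPC.Pr q E (fun ω => DS n ω = D ∧ Yv n m (C D) (z D) ω) ≤ IPC.Pr q E (XX n m) := by
    refine pq_part h0 h1 T (fun ω => DS n ω) (fun D ω => Yv n m (C D) (z D) ω) (XX n m) ?_
    intro ω _ D hD h1 h2
    obtain ⟨hF, hC, _⟩ := hCz D (hmemT D hD)
    exact px_XX hm hF hC h1 h2
  have hterm : ∀ D ∈ T, IPC.Pr q E (fun ω => DS n ω = D) * (hq q m (2 * n + 1) / 2)
      ≤ IPC.Pr q E (fun ω => DS n ω = D ∧ Yv n m (C D) (z D) ω) := by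
    intro D hD
    obtain ⟨hF, hC, hz⟩ := hCz D (hmemT D hD)
    rw [pq_indep q (px_tch_sub hm D) (px_GG_sub n m (z D)) (px_disj hz) (DS_dep n D)
      (px_Yv_dep n m (C D) (z D))]
    exact mul_le_mul_of_nonneg_left (yv_half h0 h1 hn hm hF) (pq_nonneg h0 h1 _ _)
  calc hq q m (2 * n + 1) / 2 * IPC.Pr q (FKP.box 0 n 0 n) (Good n)
      = ∑ D ∈ T, IPC.Pr q E (fun ω => DS n ω = D) * (hq q m (2 * n + 1) / 2) := by
        rw [← Finset.sum_mul, hsum, mul_comm]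
    _ ≤ ∑ D ∈ T, IPC.Pr q E (fun ω => DS n ω = D ∧ Yv n m (C D) (z D) ω) := Finset.sum_le_sum hterm
    _ ≤ IPC.Pr q E (XX n m) := hle

theorem good_ge {q : ℝ} (h0 : 0 ≤ q) (h1 : q ≤ 1) {n : ℕ} (hn : 1 ≤ n) :
    hq q n n ≤ IPC.Pr q (FKP.box 0 n 0 n) (Good n) := by
  have h8 : IPC.Pr q (FKP.box 0 (n : ℤ) 0 n) (VC 0 n 0 n) = hq q n n :=
    pq_VC q n n (by ring) (by ring) (Subset.refl _)
  rw [← h8]
  exact pq_mono h0 h1 fun ω _ hω => VC_good hn hω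

theorem comb_q {q : ℝ} (h0 : 0 ≤ q) (h1 : q ≤ 1) {n m : ℕ} (hn : 1 ≤ n) (hm : n ≤ m) :
    (hq q m (2 * n + 1) / 2 * hq q n n) ^ 2 * hq q n n ≤ hq q (2 * m - n) (2 * n + 1) := by
  set E : Finset Edge := FKP.box ((n : ℤ) - m) m 0 (2 * n + 1) with hE
  have hmn : (n : ℤ) ≤ m := by exact_mod_cast hm
  have hsub : FKP.box 0 (m : ℤ) 0 (2 * n + 1) ⊆ E :=
    box_mono (by omega) (le_refl _) (le_refl _) (le_refl _)
  have hsub' : FKP.box 0 (n : ℤ) 0 n ⊆ E :=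
    box_mono (by omega) hmn (le_refl _) (by omega)
  have hEm : E.map (rxE (n : ℤ)).toEmbedding = E := by
    rw [hE, box_rx, sub_sub_cancel]
  have q3 : 0 ≤ hq q m (2 * n + 1) := hq_nonneg h0 h1 _ _
  have q5 : 0 ≤ hq q n n := hq_nonneg h0 h1 _ _
  have p1 : hq q m (2 * n + 1) / 2 * hq q n n ≤ IPC.Pr q E (XX n m) := by
    rw [pq_dep q hsub (pcomb_dep hm)]
    have q1 := xx_lower h0 h1 hn hm
    have q2 := good_ge h0 h1 hn
    have q4 : hq q m (2 * n + 1) / 2 * hq q n n ≤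
        hq q m (2 * n + 1) / 2 * IPC.Pr q (FKP.box 0 n 0 n) (Good n) :=
      mul_le_mul_of_nonneg_left q2 (by linarith)
    linarith
  have p2 : hq q m (2 * n + 1) / 2 * hq q n n ≤
      IPC.Pr q E (fun ω => XX n m (ω.map (rxE (n : ℤ)).toEmbedding)) := by
    rw [← pq_map q (rxE (n : ℤ)) E (XX n m), hEm]
    exact p1
  have p3 : IPC.Pr q E (HC 0 n 0 n) = hq q n n :=
    pq_HC q n n (by rw [zero_add]) (by rw [zero_add]) hsub'
  have i2 : FKP.Inc (fun ω => XX n m (ω.map (rxE (n : ℤ)).toEmbedding)) := by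
    intro ω ω' hs hX
    exact inc_XX n m _ _ (Finset.map_subset_map.2 hs) hX
  have i12 : FKP.Inc (fun ω => XX n m ω ∧ XX n m (ω.map (rxE (n : ℤ)).toEmbedding)) := by
    intro ω ω' hs hX
    exact ⟨inc_XX n m _ _ hs hX.1, i2 _ _ hs hX.2⟩
  have f1 := pq_fkg h0 h1 E (inc_XX n m) i2
  have f2 := pq_fkg h0 h1 E i12 (inc_HC 0 n 0 n)
  have g1 : IPC.Pr q E (fun ω => (XX n m ω ∧ XX n m (ω.map (rxE (n : ℤ)).toEmbedding)) ∧ HC 0 n 0 n ω)
      ≤ IPC.Pr q E (HC ((n : ℤ) - m) m 0 (2 * n + 1)) :=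
    pq_mono h0 h1 fun ω hω hA => pcomb_geo hω hA.1.1 hA.1.2 hA.2
  have g2 : IPC.Pr q E (HC ((n : ℤ) - m) m 0 (2 * n + 1)) = hq q (2 * m - n) (2 * n + 1) :=
    pq_HC q (2 * m - n) (2 * n + 1) (by omega) (by push_cast; ring) (Finset.Subset.refl _)
  rw [← g2]
  rw [p3] at f2
  have q6 : 0 ≤ hq q m (2 * n + 1) / 2 * hq q n n := mul_nonneg (by linarith) q5
  have k1 : (hq q m (2 * n + 1) / 2 * hq q n n) * (hq q m (2 * n + 1) / 2 * hq q n n)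
      ≤ IPC.Pr q E (fun ω => XX n m ω ∧ XX n m (ω.map (rxE (n : ℤ)).toEmbedding)) :=
    (mul_le_mul p1 p2 q6 (le_trans q6 p1)).trans f1
  have k2 := mul_le_mul_of_nonneg_right k1 q5
  rw [pow_two]
  exact (k2.trans f2).trans g1

end FKN
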