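import Mathlib

/-!
# Counting classes of an equivalence relation on a finite set

`nk r V`: number of the classes of `r` which meet the finite set `V` (the sets `{v ∈ V | r u v}`, `u ∈ V`). `tc r V S`: number of the classes which meet `S ⊆ V`. `cr r V A B`: number of the classes which meet `A` and `B`.
`nk_edge`: one more pair `a, b ∈ V`. `nk_wire`: all the elements of `S` identified. `cr_identity`: `c = 1 + K - K_A - K_B + K_{A ∪ B}`: from `nk_wire` for `A`, `B`, `A ∪ B` and inclusion-exclusion for the sets of classes meeting `A`, `B`.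
`nk_map`: a map which respects the relations and meets every class does not increase the number of classes.
-/

set_option autoImplicit false

noncomputable section

namespace NX

open Finset Classical

variable {α β : Type*}

/-- class of `u` -/
def cl (r : α → α → Prop) (V : Finset α) (u : α) : Finset α := V.filter (fun v => r u v)

/-- number of the classes meeting `V` -/
def nk (r : α → α → Prop) (V : Finset α) : ℕ := (V.image (cl r V)).card

/-- number of the classes meeting `S` -/
def tc (r : α → α → Prop) (V S : Finset α) : ℕ := (S.image (cl r V)).card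

/-- number of the classes meeting `A` and `B` -/
def cr (r : α → α → Prop) (V A B : Finset α) : ℕ := ((A.image (cl r V)) ∩ (B.image (cl r V))).card

private theorem KA_cl {r : α → α → Prop} (hr : Equivalence r) {V : Finset α} {u v : α}
    (hu : u ∈ V) (hv : v ∈ V) : cl r V u = cl r V v ↔ r u v := by
  constructor
  · intro h
    have h1 : v ∈ cl r V v := Finset.mem_filter.2 ⟨hv, hr.refl v⟩
    rw [← h] at h1
    exact (Finset.mem_filter.1 h1).2
  · intro h
    exact Finset.filter_congr fun w _ => ⟨fun h1 => hr.trans (hr.symm h) h1, fun h1 => hr.trans h h1⟩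

private theorem KA_inj {α β γ δ : Type*} [DecidableEq γ] [DecidableEq δ] [Nonempty γ]
    {S : Finset α} {T : Finset β} (F : α → γ) (G : β → δ)
    (R : α → β → Prop) (hk : ∀ t ∈ T, ∃ s ∈ S, R s t)
    (h : ∀ t ∈ T, ∀ t' ∈ T, ∀ s ∈ S, ∀ s' ∈ S, R s t → R s' t' → F s = F s' → G t = G t') :
    (T.image G).card ≤ (S.image F).card := by
  have h1 : ∀ D ∈ T.image G, ∃ C : γ, ∃ s ∈ S, ∃ t ∈ T, F s = C ∧ G t = D ∧ R s t := by
    intro D hD
    obtain ⟨t, ht, htD⟩ := Finset.mem_image.1 hD
    obtain ⟨s, hs, hst⟩ := hk t ht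
    exact ⟨F s, s, hs, t, ht, rfl, htD, hst⟩
  choose! g hg using h1
  refine Finset.card_le_card_of_injOn g ?_ ?_
  · intro D hD
    obtain ⟨s, hs, t, _, e1, _, _⟩ := hg D hD
    exact Finset.mem_coe.2 (Finset.mem_image.2 ⟨s, hs, e1⟩)
  · intro D hD D' hD' he
    obtain ⟨s, hs, t, ht, e1, e2, e3⟩ := hg D hD
    obtain ⟨s', hs', t', ht', e1', e2', e3'⟩ := hg D' hD'
    rw [← e2, ← e2']
    exact h t ht t' ht' s hs s' hs' e3 e3' (by rw [e1, e1', he])

private theorem KA_wire {r r' : α → α → Prop} (hr : Equivalence r) {V S : Finset α} (hS : S ⊆ V)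
    (hne : S.Nonempty)
    (h : ∀ u v, r' u v ↔ r u v ∨ ((∃ s ∈ S, r u s) ∧ ∃ t ∈ S, r v t)) :
    nk r' V + tc r V S = nk r V + 1 := by
  set W : Finset α := V.filter (fun v => ∃ t ∈ S, r v t) with hW
  have c1 : ∀ u, (∃ s ∈ S, r u s) → cl r' V u = W := by
    intro u hu
    refine Finset.filter_congr fun v _ => ?_
    rw [h u v]
    constructor
    · rintro (h1 | ⟨_, h1⟩)
      · obtain ⟨s, hs, hus⟩ := hu
        exact ⟨s, hs, hr.trans (hr.symm h1) hus⟩
      · exact h1
    · intro h1
      exact Or.inr ⟨hu, h1⟩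
  have c2 : ∀ u, (¬ ∃ s ∈ S, r u s) → cl r' V u = cl r V u := by
    intro u hu
    refine Finset.filter_congr fun v _ => ?_
    rw [h u v]
    constructor
    · rintro (h1 | ⟨h1, _⟩)
      · exact h1
      · exact absurd h1 hu
    · exact Or.inl
  have c3 : ∀ u ∈ V, (cl r V u ∈ S.image (cl r V) ↔ ∃ s ∈ S, r u s) := by
    intro u hu
    rw [Finset.mem_image]
    constructor
    · rintro ⟨s, hs, he⟩
      exact ⟨s, hs, (KA_cl hr hu (hS hs)).1 he.symm⟩
    · rintro ⟨s, hs, he⟩
      exact ⟨s, hs, ((KA_cl hr hu (hS hs)).2 he).symm⟩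
  have e1 : V.image (cl r' V) = insert W (V.image (cl r V) \ S.image (cl r V)) := by
    ext D
    rw [Finset.mem_insert, Finset.mem_sdiff, Finset.mem_image, Finset.mem_image (s := V)]
    constructor
    · rintro ⟨u, hu, rfl⟩
      by_cases hus : ∃ s ∈ S, r u s
      · exact Or.inl (c1 u hus)
      · right
        rw [c2 u hus]
        exact ⟨⟨u, hu, rfl⟩, fun h1 => hus ((c3 u hu).1 h1)⟩
    · rintro (rfl | ⟨⟨u, hu, rfl⟩, h1⟩)
      · obtain ⟨s, hs⟩ := hne
        exact ⟨s, hS hs, c1 s ⟨s, hs, hr.refl s⟩⟩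
      · exact ⟨u, hu, c2 u fun h2 => h1 ((c3 u hu).2 h2)⟩
  have e2 : W ∉ V.image (cl r V) \ S.image (cl r V) := by
    rw [Finset.mem_sdiff, Finset.mem_image]
    rintro ⟨⟨u, hu, he⟩, h1⟩
    obtain ⟨s, hs⟩ := hne
    have h2 : s ∈ W := Finset.mem_filter.2 ⟨hS hs, s, hs, hr.refl s⟩
    rw [← he] at h2 h1
    exact h1 ((c3 u hu).2 ⟨s, hs, (Finset.mem_filter.1 h2).2⟩)
  have e3 : S.image (cl r V) ⊆ V.image (cl r V) := Finset.image_subset_image hS
  have e4 := Finset.card_le_card e3
  unfold nk tc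
  rw [e1, Finset.card_insert_of_notMem e2, Finset.card_sdiff_of_subset e3]
  omega

theorem nk_congr {r r' : α → α → Prop} {V : Finset α} (h : ∀ u ∈ V, ∀ v ∈ V, (r u v ↔ r' u v)) : nk r V = nk r' V := by
  unfold nk
  refine congrArg Finset.card (Finset.image_congr fun u hu => ?_)
  exact Finset.filter_congr fun v hv => h u hu v hv

theorem cr_congr {r r' : α → α → Prop} {V A B : Finset α} (hA : A ⊆ V) (hB : B ⊆ V) (h : ∀ u ∈ V, ∀ v ∈ V, (r u v ↔ r' u v)) :
    cr r V A B = cr r' V A B := by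
  have h1 : ∀ u ∈ V, cl r V u = cl r' V u := fun u hu =>
    Finset.filter_congr fun v hv => h u hu v hv
  unfold cr
  rw [Finset.image_congr (s := A) fun u hu => h1 u (hA hu),
    Finset.image_congr (s := B) fun u hu => h1 u (hB hu)]

theorem nk_le_card (r : α → α → Prop) (V : Finset α) : nk r V ≤ V.card := by
  exact Finset.card_image_le

theorem cr_le (r : α → α → Prop) (V A B : Finset α) : cr r V A B ≤ A.card := by
  exact (Finset.card_le_card Finset.inter_subset_left).trans Finset.card_image_le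

/-- one more pair -/
theorem nk_edge {r r' : α → α → Prop} (hr : Equivalence r) {V : Finset α} {a b : α} (ha : a ∈ V) (hb : b ∈ V)
    (h : ∀ u v, r' u v ↔ r u v ∨ (r u a ∧ r b v) ∨ (r u b ∧ r a v)) :
    nk r' V + (if r a b then 0 else 1) = nk r V := by
  have hw := KA_wire (r' := r') hr (S := {a, b}) (fun x hx => by
    rw [Finset.mem_insert, Finset.mem_singleton] at hx
    rcases hx with rfl | rfl
    · exact ha
    · exact hb) ⟨a, Finset.mem_insert_self _ _⟩ (fun u v => by
    rw [h u v]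
    constructor
    · rintro (h1 | ⟨h1, h2⟩ | ⟨h1, h2⟩)
      · exact Or.inl h1
      · exact Or.inr ⟨⟨a, by simp, h1⟩, b, by simp, hr.symm h2⟩
      · exact Or.inr ⟨⟨b, by simp, h1⟩, a, by simp, hr.symm h2⟩
    · rintro (h1 | ⟨⟨s, hs, h1⟩, t, ht, h2⟩)
      · exact Or.inl h1
      · rw [Finset.mem_insert, Finset.mem_singleton] at hs ht
        rcases hs with rfl | rfl
        · rcases ht with rfl | rfl
          · exact Or.inl (hr.trans h1 (hr.symm h2))
          · exact Or.inr (Or.inl ⟨h1, hr.symm h2⟩)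
        · rcases ht with rfl | rfl
          · exact Or.inr (Or.inr ⟨h1, hr.symm h2⟩)
          · exact Or.inl (hr.trans h1 (hr.symm h2)))
  have ht : tc r V {a, b} = 1 + (if r a b then 0 else 1) := by
    unfold tc
    rw [Finset.image_insert, Finset.image_singleton]
    by_cases hab : r a b
    · rw [if_pos hab, (KA_cl hr ha hb).2 hab, Finset.pair_eq_singleton, Finset.card_singleton]
    · rw [if_neg hab, Finset.card_pair fun h1 => hab ((KA_cl hr ha hb).1 h1)]
  rw [ht] at hw
  omega

/-- the elements of `S` are identified -/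
theorem nk_wire {r r' : α → α → Prop} (hr : Equivalence r) {V S : Finset α} (hS : S ⊆ V) (hne : S.Nonempty)
    (h : ∀ u v, r' u v ↔ r u v ∨ ((∃ s ∈ S, r u s) ∧ ∃ t ∈ S, r v t)) :
    nk r' V + tc r V S = nk r V + 1 := by
  exact KA_wire hr hS hne h

theorem cr_identity {r rA rB rAB : α → α → Prop} (hr : Equivalence r) {V A B : Finset α} (hA : A ⊆ V) (hB : B ⊆ V)
    (hAne : A.Nonempty) (hBne : B.Nonempty)
    (h1 : ∀ u v, rA u v ↔ r u v ∨ ((∃ s ∈ A, r u s) ∧ ∃ t ∈ A, r v t))
    (h2 : ∀ u v, rB u v ↔ r u v ∨ ((∃ s ∈ B, r u s) ∧ ∃ t ∈ B, r v t))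
    (h3 : ∀ u v, rAB u v ↔ r u v ∨ ((∃ s ∈ A ∪ B, r u s) ∧ ∃ t ∈ A ∪ B, r v t)) :
    cr r V A B + nk rA V + nk rB V = 1 + nk r V + nk rAB V := by
  have e1 := nk_wire hr hA hAne h1
  have e2 := nk_wire hr hB hBne h2
  have e3 := nk_wire hr (Finset.union_subset hA hB) (hAne.mono Finset.subset_union_left) h3
  unfold tc at e1 e2 e3
  rw [Finset.image_union] at e3
  have e4 := Finset.card_union_add_card_inter (A.image (cl r V)) (B.image (cl r V))
  unfold cr
  omega

/-- a map which respects the relations and meets every class -/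
theorem nk_map {r : α → α → Prop} {r' : β → β → Prop} (hr : Equivalence r) (hr' : Equivalence r') {V : Finset α} {V' : Finset β} (f : α → β)
    (h1 : ∀ u ∈ V, ∀ v ∈ V, r u v → r' (f u) (f v)) (h2 : ∀ v' ∈ V', ∃ u ∈ V, r' (f u) v') : nk r' V' ≤ nk r V := by
  unfold nk
  refine KA_inj (S := V) (T := V') (cl r V) (cl r' V') (fun u v' => r' (f u) v')
    (fun t ht => h2 t ht) ?_
  intro t ht t' ht' s hs s' hs' e3 e3' he
  have e1 := (KA_cl hr hs hs').1 he
  have e2 := h1 _ hs _ hs' e1
  exact (KA_cl hr' ht ht').2 (hr'.trans (hr'.symm e3) (hr'.trans e2 e3'))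

/-- more sites -/
theorem nk_mono (r : α → α → Prop) (hr : Equivalence r) {V V' : Finset α} (h : V ⊆ V') : nk r V ≤ nk r V' ∧ nk r V' ≤ nk r V + (V' \ V).card := by
  constructor
  · unfold nk
    refine KA_inj (S := V') (T := V) (cl r V') (cl r V) (fun u v => u = v)
      (fun t ht => ⟨t, h ht, rfl⟩) ?_
    rintro t ht t' ht' s hs s' hs' rfl rfl he
    exact (KA_cl hr ht ht').2 ((KA_cl hr (h ht) (h ht')).1 he)
  · have e1 : V'.image (cl r V') = V.image (cl r V') ∪ (V' \ V).image (cl r V') := by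
      rw [← Finset.image_union, Finset.union_sdiff_of_subset h]
    have e2 : (V.image (cl r V')).card ≤ nk r V := by
      unfold nk
      refine KA_inj (S := V) (T := V) (cl r V) (cl r V') (fun u v => u = v)
        (fun t ht => ⟨t, ht, rfl⟩) ?_
      rintro t ht t' ht' s hs s' hs' rfl rfl he
      exact (KA_cl hr (h ht) (h ht')).2 ((KA_cl hr ht ht').1 he)
    unfold nk at e2 ⊢
    rw [e1]
    exact (Finset.card_union_le _ _).trans (add_le_add e2 Finset.card_image_le)

end NX
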