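import Pool.Agent.Lib.MP_216314_pr.H.HInv
import Pool.Agent.Lib.MP_216314_pr.N.KA

/-!
# Number of clusters of a set of open tiles, by the process of the noncrossing involution

Conventions of `H/HDef, HProc, HStep, HInv` (namespace `FKH`): sites `(X, h)`, `X + h` odd, `1 ≤ X ≤ 2n+1`; the tile `(j, h)` carries the edge `lo (j,h) - hi (j,h)`; `Cn n c`: connected by the open tiles `c`, the column `2n+1` being wired; `tile n T`: the tile of time `T`;
`st n c T`: noncrossing involution at time `T`; `ltr c t`: the letter of the tile is present (even column and open, or odd column and closed); `inv_st`: regions connected iff current sites connected.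
`sts n H`: the sites up to height `H`. `tls n H`: the tiles below height `H` (`= PT n (2 n H)`).
`nk_process`: induction on `T`: for `c ⊆ PT n T`: `nk (Cn n c) V + card c = nk (Cn n ∅) V + lpE n c T`, where `lpE n c T` is the number of the times `T' < T` with even column, `tile ∈ c` and `st n c T' j = j + 1`. Step (`split_c`): if the new tile `t` is not in `c` nothing changes. If `t ∈ c`, `c = insert t c0`:
`Cn_insert` and `nk_edge` (ends of `t` are sites of `V`): the number of classes drops by one unless `Cn n c0 (lo t) (hi t)`. Odd column: never (`new_iso`: the new site `hi t` is isolated, `lo t ≠ hi t`). Even column: `ends_even`, `RG`/`RT`, `inv_st` (with `c0`): iff `Rl (st n c0 T) (j-1) (j+1)` iff `st n c0 T j = j+1`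
(`Rl_even`: `Rl0 σ (j-1) (j+1)` says that `σ` preserves `{j, j+1}`), and `st n c T = st n c0 T` (`st_congr`).
`nk_empty`: without open tiles only the column `2n+1` is identified.
-/

set_option autoImplicit false

noncomputable section

namespace NX

open Finset QS FKH Classical

/-- the sites up to height `H` -/
def sts (n H : ℕ) : Finset (ℕ × ℕ) := (Icc 1 (2 * n + 1) ×ˢ range (H + 1)).filter (fun u => (u.1 + u.2) % 2 = 1)

/-- the tiles below height `H` -/
def tls (n H : ℕ) : Finset (ℕ × ℕ) := Icc 1 (2 * n) ×ˢ range H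

theorem tls_PT {n : ℕ} (hn : 1 ≤ n) (H : ℕ) : tls n H = PT n (2 * n * H) := by
  unfold PT
  rw [Nat.mul_div_cancel_left _ (by omega : 0 < 2 * n), Nat.mul_mod_right]
  ext t
  unfold tls
  rw [mem_PS, mem_product, mem_Icc, mem_range]
  constructor
  · rintro ⟨h1, h2⟩
    exact ⟨h1, Or.inl h2⟩
  · rintro ⟨h1, h2 | ⟨_, h3⟩⟩
    · exact ⟨h1, h2⟩
    · exfalso
      unfold dn at h3
      split_ifs at h3
      · omega
      · omega

/-- the ends of a tile are sites -/
theorem ends_mem {n H : ℕ} {t : ℕ × ℕ} (h : t ∈ tls n H) : lo t ∈ sts n H ∧ hi t ∈ sts n H := by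
  unfold tls at h
  rw [mem_product, mem_Icc, mem_range] at h
  obtain ⟨⟨h1, h2⟩, h3⟩ := h
  unfold sts
  rw [mem_filter, mem_filter, mem_product, mem_product, mem_Icc, mem_Icc, mem_range, mem_range]
  unfold lo FKH.hi
  split_ifs with hp
  · simp only
    omega
  · simp only
    omega

theorem Rl_even {P j : ℕ} {σ : ℕ → ℕ} (h : IsNC P σ) (h1 : 1 ≤ j) (h2 : j < P) : Rl σ (j - 1) (j + 1) ↔ σ j = j + 1 := by
  unfold Rl Rl0
  have h3 := h.1 j h1 h2.le
  constructor
  · rintro (⟨_, h4⟩ | ⟨h4, _⟩)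
    · have h5 := h4 j (by omega) (by omega)
      omega
    · omega
  · intro h4
    left
    refine ⟨by omega, ?_⟩
    intro x hx hx'
    have h5 : σ (j + 1) = j := by
      rw [← h4]
      exact h3.2.2.2
    rcases (by omega : x = j ∨ x = j + 1) with h6 | h6
    · rw [h6, h4]
      omega
    · rw [h6, h5]
      omega

/-- number of the loops closed at even letters up to time `T` -/
def lpE (n : ℕ) (c : Finset (ℕ × ℕ)) (T : ℕ) : ℕ :=
  ((range T).filter (fun T' => (tile n T').1 % 2 = 0 ∧ tile n T' ∈ c ∧ st n c T' (tile n T').1 = (tile n T').1 + 1)).card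

theorem KB_equiv (n : ℕ) (c : Finset (ℕ × ℕ)) : Equivalence (Cn n c) :=
  ⟨fun u => Cn.refl u, fun h => h.symm, fun h h' => h.trans h'⟩

/-- the condition at one time -/
theorem KB_lpE_succ (n : ℕ) (c : Finset (ℕ × ℕ)) (T : ℕ) : lpE n c (T + 1) = lpE n c T +
    (if (tile n T).1 % 2 = 0 ∧ tile n T ∈ c ∧ st n c T (tile n T).1 = (tile n T).1 + 1 then 1 else 0) := by
  unfold lpE
  rw [range_add_one, filter_insert]
  split_ifs with h
  · rw [card_insert_of_notMem]
    intro h1
    exact absurd (mem_range.1 (mem_filter.1 h1).1) (lt_irrefl _)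
  · rfl

theorem KB_st {n : ℕ} (hn : 1 ≤ n) {c0 : Finset (ℕ × ℕ)} {T T' : ℕ} (h : T' ≤ T) :
    st n (insert (tile n T) c0) T' = st n c0 T' := by
  refine st_congr hn T' fun t ht => ?_
  rw [mem_insert]
  constructor
  · rintro (h1 | h1)
    · rw [h1] at ht
      exact absurd (PT_mono hn h ht) (tile_notMem hn T)
    · exact h1
  · exact Or.inr

theorem KB_lpE {n : ℕ} (hn : 1 ≤ n) {c0 : Finset (ℕ × ℕ)} {T : ℕ} :
    lpE n (insert (tile n T) c0) T = lpE n c0 T := by
  unfold lpE
  congr 1
  refine filter_congr fun T' hT' => ?_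
  rw [mem_range] at hT'
  rw [KB_st hn hT'.le, mem_insert]
  have h1 : tile n T' ≠ tile n T := by
    intro h
    have h2 := tile_mem hn hT'
    rw [h] at h2
    exact tile_notMem hn T h2
  simp only [h1, false_or]

/-- the ends of the new tile are connected iff a loop is closed -/
theorem KB_iff {n : ℕ} (hn : 1 ≤ n) {c0 : Finset (ℕ × ℕ)} {T : ℕ} (hc0 : c0 ⊆ PT n T) :
    Cn n c0 (lo (tile n T)) (FKH.hi (tile n T)) ↔
      (tile n T).1 % 2 = 0 ∧ st n c0 T (tile n T).1 = (tile n T).1 + 1 := by
  have hi' := mod_lt hn T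
  have hb := tile_fst hn T
  have hj : (tile n T).1 = jj n (T / (2 * n)) (T % (2 * n)) := rfl
  rcases Nat.mod_two_eq_zero_or_one (tile n T).1 with hp | hp
  · have h1 := ends_even hi' (hj ▸ hp) c0
    have h2 : Cn n c0 (lo (tile n T)) (FKH.hi (tile n T)) ↔
        Cn n c0 (cu n (T / (2 * n)) (T % (2 * n)) ((tile n T).1 - 1))
          (cu n (T / (2 * n)) (T % (2 * n)) ((tile n T).1 + 1)) := by
      rw [hj]
      rcases h1 with ⟨h1, h2⟩ | ⟨h1, h2⟩
      · constructor
        · intro h3
          exact (h2.symm.trans h3.symm).trans h1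
        · intro h3
          exact (h1.trans h3.symm).trans h2.symm
      · constructor
        · intro h3
          exact (h1.symm.trans h3).trans h2
        · intro h3
          exact (h1.trans h3).trans h2.symm
    have h3 := inv_st hn T hc0 (k := (tile n T).1 - 1) (l := (tile n T).1 + 1) (by omega) (by omega)
      (by omega) (by omega)
    unfold RT RG at h3
    rw [h2, h3, Rl_even (st_nc hn c0 T) hb.1 (by omega)]
    constructor
    · exact fun h => ⟨hp, h⟩
    · exact fun h => h.2
  · constructor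
    · intro h
      exfalso
      have h1 := (new_iso hc0 hi' (hj ▸ hp) h).2 rfl
      have h2 := lo_snd (tile n T)
      have h3 := hi_snd (tile n T)
      have h4 : (lo (tile n T)).2 = (FKH.hi (tile n T)).2 := by
        have h5 : lo (tile n T) = FKH.hi (tile n T) := h1
        rw [h5]
      omega
    · rintro ⟨h, _⟩
      omega

theorem KB_main {n : ℕ} (hn : 1 ≤ n) (H : ℕ) (T : ℕ) : T ≤ 2 * n * H → ∀ c : Finset (ℕ × ℕ), c ⊆ PT n T →
    nk (Cn n c) (sts n H) + c.card = nk (Cn n ∅) (sts n H) + lpE n c T := by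
  induction T with
  | zero =>
    intro _ c hc
    rw [PT_zero, subset_empty] at hc
    rw [hc]
    rfl
  | succ T ih =>
    intro hT c hc
    rcases split_c hn hc with hc0 | ⟨c0, hc0, rfl⟩
    · have hnt : tile n T ∉ c := fun h => tile_notMem hn T (hc0 h)
      rw [KB_lpE_succ, if_neg (fun h => hnt h.2.1), add_zero]
      exact ih (by omega) c hc0
    · have hnt : tile n T ∉ c0 := fun h => tile_notMem hn T (hc0 h)
      have h1 := ih (by omega) c0 hc0
      have hm : tile n T ∈ tls n H := by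
        rw [tls_PT hn]
        exact tile_mem hn (by omega)
      obtain ⟨ha, hb⟩ := ends_mem hm
      have h2 := nk_edge (r' := Cn n (insert (tile n T) c0)) (KB_equiv n c0) ha hb (fun u v => Cn_insert)
      rw [card_insert_of_notMem hnt, KB_lpE_succ, KB_lpE hn, KB_st hn le_rfl]
      by_cases h3 : (tile n T).1 % 2 = 0 ∧ st n c0 T (tile n T).1 = (tile n T).1 + 1
      · rw [if_pos ((KB_iff hn hc0).2 h3)] at h2
        rw [if_pos ⟨h3.1, mem_insert_self _ _, h3.2⟩]
        omega
      · rw [if_neg (fun h => h3 ((KB_iff hn hc0).1 h))] at h2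
        rw [if_neg (fun h => h3 ⟨h.1, h.2.2⟩)]
        omega

theorem nk_process {n : ℕ} (hn : 1 ≤ n) (H : ℕ) {c : Finset (ℕ × ℕ)} (hc : c ⊆ tls n H) :
    nk (Cn n c) (sts n H) + c.card = nk (Cn n ∅) (sts n H) + lpE n c (2 * n * H) := by
  rw [tls_PT hn] at hc
  exact KB_main hn H (2 * n * H) le_rfl c hc

theorem KB_empty {n : ℕ} {u v : ℕ × ℕ} : Cn n ∅ u v ↔ u = v ∨
    ((u.1 = 2 * n + 1 ∧ u.2 % 2 = 0) ∧ (v.1 = 2 * n + 1 ∧ v.2 % 2 = 0)) := by
  constructor
  · intro h
    induction h with
    | rel x y h =>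
      rcases h with ⟨t, ht, _⟩ | h
      · exact absurd ht (notMem_empty t)
      · exact Or.inr h
    | refl x => exact Or.inl rfl
    | symm x y _ ih =>
      rcases ih with h | ⟨h1, h2⟩
      · exact Or.inl h.symm
      · exact Or.inr ⟨h2, h1⟩
    | trans x y z _ _ ih1 ih2 =>
      rcases ih1 with h | ⟨h1, h2⟩
      · rw [h]
        exact ih2
      · rcases ih2 with h' | ⟨h1', h2'⟩
        · rw [← h']
          exact Or.inr ⟨h1, h2⟩
        · exact Or.inr ⟨h1, h2'⟩
  · rintro (h | h)
    · rw [h]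
      exact Cn.refl _
    · exact Relation.EqvGen.rel _ _ (Or.inr h)

theorem KB_cl {α : Type*} (V : Finset α) : Set.InjOn (cl (fun u v : α => u = v) V) V := by
  intro u hu v hv h
  have h1 : u ∈ cl (fun u v : α => u = v) V u := by
    unfold cl
    rw [mem_filter]
    exact ⟨hu, rfl⟩
  rw [h] at h1
  unfold cl at h1
  exact (mem_filter.1 h1).2.symm

theorem KB_nk {α : Type*} (V : Finset α) : nk (fun u v : α => u = v) V = V.card := by
  unfold nk
  exact card_image_of_injOn (KB_cl V)

theorem KB_tc {α : Type*} (V S : Finset α) (h : S ⊆ V) : tc (fun u v : α => u = v) V S = S.card := by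
  unfold tc
  exact card_image_of_injOn ((KB_cl V).mono h)

theorem nk_empty {n : ℕ} (hn : 1 ≤ n) (H : ℕ) :
    nk (Cn n ∅) (sts n H) = ((sts n H).filter (fun u => u.1 ≤ 2 * n)).card + 1 := by
  obtain ⟨V, hV⟩ : ∃ V, V = sts n H := ⟨_, rfl⟩
  obtain ⟨S, hS⟩ : ∃ S, S = V.filter (fun u => ¬ u.1 ≤ 2 * n) := ⟨_, rfl⟩
  have hmem : ∀ u : ℕ × ℕ, u ∈ V ↔ ((1 ≤ u.1 ∧ u.1 ≤ 2 * n + 1) ∧ u.2 < H + 1) ∧ (u.1 + u.2) % 2 = 1 := by
    intro u
    rw [hV]
    unfold sts
    rw [mem_filter, mem_product, mem_Icc, mem_range]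
  have hne : S.Nonempty := by
    refine ⟨(2 * n + 1, 0), ?_⟩
    rw [hS, mem_filter, hmem]
    simp only
    omega
  have h1 : nk (Cn n ∅) V = nk (fun u v : ℕ × ℕ => u = v ∨ ((∃ s ∈ S, u = s) ∧ ∃ t ∈ S, v = t)) V := by
    refine nk_congr fun u hu v hv => ?_
    rw [KB_empty]
    have hu' := (hmem u).1 hu
    have hv' := (hmem v).1 hv
    have k1 : (∃ s ∈ S, u = s) ↔ (u.1 = 2 * n + 1 ∧ u.2 % 2 = 0) := by
      constructor
      · rintro ⟨s, hs, rfl⟩
        rw [hS, mem_filter] at hs
        omega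
      · intro h
        refine ⟨u, ?_, rfl⟩
        rw [hS, mem_filter]
        exact ⟨hu, by omega⟩
    have k2 : (∃ t ∈ S, v = t) ↔ (v.1 = 2 * n + 1 ∧ v.2 % 2 = 0) := by
      constructor
      · rintro ⟨s, hs, rfl⟩
        rw [hS, mem_filter] at hs
        omega
      · intro h
        refine ⟨v, ?_, rfl⟩
        rw [hS, mem_filter]
        exact ⟨hv, by omega⟩
    rw [k1, k2]
  have h2 := nk_wire (r := fun u v : ℕ × ℕ => u = v)
    (r' := fun u v : ℕ × ℕ => u = v ∨ ((∃ s ∈ S, u = s) ∧ ∃ t ∈ S, v = t)) (V := V)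
    ⟨fun _ => rfl, fun h => h.symm, fun h h' => h.trans h'⟩ (by rw [hS]; exact filter_subset _ _) hne
    (fun u v => Iff.rfl)
  have h3 : nk (fun u v : ℕ × ℕ => u = v) V = V.card := KB_nk V
  have h4 : tc (fun u v : ℕ × ℕ => u = v) V S = S.card := KB_tc V S (by rw [hS]; exact filter_subset _ _)
  have h5 : (V.filter (fun u => u.1 ≤ 2 * n)).card + S.card = V.card := by
    rw [hS]
    exact card_filter_add_card_filter_not (s := V) (fun u => u.1 ≤ 2 * n)
  rw [h3, h4] at h2
  rw [← hV, h1]
  omega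

theorem card_sts (n H : ℕ) : ((sts n H).filter (fun u => u.1 ≤ 2 * n)).card = n * (H + 1) := by
  have h1 : (sts n H).filter (fun u => u.1 ≤ 2 * n) =
      (range n ×ˢ range (H + 1)).image (fun p => (2 * p.1 + 1 + p.2 % 2, p.2)) := by
    ext u
    unfold sts
    rw [mem_filter, mem_filter, mem_product, mem_Icc, mem_range, mem_image]
    constructor
    · rintro ⟨⟨⟨h1, h2⟩, h3⟩, h4⟩
      refine ⟨((u.1 - 1) / 2, u.2), ?_, ?_⟩
      · rw [mem_product, mem_range, mem_range]
        simp only
        omega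
      · refine Prod.ext ?_ rfl
        simp only
        omega
    · rintro ⟨p, hp, rfl⟩
      rw [mem_product, mem_range, mem_range] at hp
      simp only
      omega
  rw [h1, card_image_of_injective, card_product, card_range, card_range]
  intro p p' h
  rw [Prod.mk.injEq] at h
  obtain ⟨h2, h3⟩ := h
  refine Prod.ext ?_ h3
  rw [h3] at h2
  omega

end NX
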