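import Pool.Agent.Lib.MP_216314_pr.N.SB

/-!
# The two periods

`Q1 n`: letters `1..2n, 2n..1`, all with probability `1/2` (sector `n`). `Q2 n`: letters `1..2n`, the letter `2n+1` with probability one, letters `2n..1` (sector `n+1`; note that the letters are at most `2n+1 ≤ 2(n+1)`).
`Goodl`: the word `oddL n` resp. `oddL (n+1) = [1,3,...,2n-1] ++ [2n+1]` is a word of `ws`: choose the letters `1,3,...,2n-1` in the first half, nothing in the second half (probability `(1/2)^(4n)`); membership in `ws` of a concatenation: if `(p,w) ∈ ws l`, `(p',w') ∈ ws l'` then `(p*p', w ++ w') ∈ ws (l ++ l')`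
(up to the order of multiplication; prove it), `(1-b, []) , (b,[i]) ∈ ws [(i,b)]`. Symmetry: `ip N v (hB i b w) = ip N (hB i b v) w` (`ip_symm`), so `ip v (opB l w) = ip (opB l.reverse v) w`, and `Q1`, `Q2` are palindromes.
-/

set_option autoImplicit false

noncomputable section

namespace NX

open Finset QS

def Q1 (n : ℕ) : List (ℕ × ℝ) :=
  (List.range (2 * n)).map (fun k => (k + 1, (1 / 2 : ℝ))) ++ (List.range (2 * n)).map (fun k => (2 * n - k, (1 / 2 : ℝ)))

def Q2 (n : ℕ) : List (ℕ × ℝ) :=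
  (List.range (2 * n)).map (fun k => (k + 1, (1 / 2 : ℝ))) ++ ((2 * n + 1, (1 : ℝ)) :: (List.range (2 * n)).map (fun k => (2 * n - k, (1 / 2 : ℝ))))

/-- the word `w` occurs with positive probability -/
private def SH_oc (l : List (ℕ × ℝ)) (w : List ℕ) : Prop := ∃ δ : ℝ, 0 < δ ∧ (δ, w) ∈ ws l

private theorem SH_nil : SH_oc [] [] := ⟨1, one_pos, List.mem_singleton.2 rfl⟩

private theorem SH_skip {t : ℕ × ℝ} {l : List (ℕ × ℝ)} {w : List ℕ} (ht : t.2 < 1) (h : SH_oc l w) :
    SH_oc (t :: l) w := by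
  obtain ⟨δ, h1, h2⟩ := h
  refine ⟨(1 - t.2) * δ, mul_pos (by linarith) h1, ?_⟩
  show ((1 - t.2) * δ, w) ∈ (ws l).map (fun p => ((1 - t.2) * p.1, p.2)) ++
    (ws l).map (fun p => (t.2 * p.1, t.1 :: p.2))
  exact List.mem_append_left _ (List.mem_map.2 ⟨(δ, w), h2, rfl⟩)

private theorem SH_take {t : ℕ × ℝ} {l : List (ℕ × ℝ)} {w : List ℕ} (ht : 0 < t.2) (h : SH_oc l w) :
    SH_oc (t :: l) (t.1 :: w) := by
  obtain ⟨δ, h1, h2⟩ := h
  refine ⟨t.2 * δ, mul_pos ht h1, ?_⟩
  show (t.2 * δ, t.1 :: w) ∈ (ws l).map (fun p => ((1 - t.2) * p.1, p.2)) ++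
    (ws l).map (fun p => (t.2 * p.1, t.1 :: p.2))
  exact List.mem_append_right _ (List.mem_map.2 ⟨(δ, w), h2, rfl⟩)

/-- all the subwords of a list with probabilities strictly between zero and one occur -/
private theorem SH_sub (l : List (ℕ × ℝ)) : ∀ w : List ℕ, (∀ t ∈ l, 0 < t.2 ∧ t.2 < 1) →
    w.Sublist (l.map (fun t => t.1)) → SH_oc l w := by
  induction l with
  | nil =>
    intro w _ h
    rw [List.map_nil, List.sublist_nil] at h
    rw [h]
    exact SH_nil
  | cons t l ih =>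
    intro w hl h
    have h1 := hl t List.mem_cons_self
    have h2 : ∀ t ∈ l, 0 < t.2 ∧ t.2 < 1 := fun t' ht' => hl t' (List.mem_cons_of_mem _ ht')
    rw [List.map_cons, List.sublist_cons_iff] at h
    rcases h with h | ⟨r, rfl, h⟩
    · exact SH_skip h1.2 (ih w h2 h)
    · exact SH_take h1.1 (ih r h2 h)

private theorem SH_app {l' : List (ℕ × ℝ)} {δ' : ℝ} {w' : List ℕ} (h' : (δ', w') ∈ ws l') (l : List (ℕ × ℝ)) :
    ∀ (δ : ℝ) (w : List ℕ), (δ, w) ∈ ws l → (δ * δ', w ++ w') ∈ ws (l ++ l') := by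
  induction l with
  | nil =>
    intro δ w h
    have h1 : (δ, w) = (1, []) := List.mem_singleton.1 h
    obtain ⟨rfl, rfl⟩ := Prod.mk.inj h1
    rw [one_mul]
    exact h'
  | cons t l ih =>
    intro δ w h
    have h0 : (δ, w) ∈ (ws l).map (fun p => ((1 - t.2) * p.1, p.2)) ++
      (ws l).map (fun p => (t.2 * p.1, t.1 :: p.2)) := h
    show (δ * δ', w ++ w') ∈ (ws (l ++ l')).map (fun p => ((1 - t.2) * p.1, p.2)) ++
      (ws (l ++ l')).map (fun p => (t.2 * p.1, t.1 :: p.2))
    rw [List.mem_append, List.mem_map, List.mem_map] at h0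
    rw [List.mem_append, List.mem_map, List.mem_map]
    rcases h0 with ⟨⟨a, b⟩, h1, h2⟩ | ⟨⟨a, b⟩, h1, h2⟩
    · left
      obtain ⟨rfl, rfl⟩ := Prod.mk.inj h2
      exact ⟨(a * δ', b ++ w'), ih a b h1, by rw [mul_assoc]⟩
    · right
      obtain ⟨rfl, rfl⟩ := Prod.mk.inj h2
      exact ⟨(a * δ', b ++ w'), ih a b h1, by rw [mul_assoc]; rfl⟩

private theorem SH_oc_app {l l' : List (ℕ × ℝ)} {w w' : List ℕ} (h : SH_oc l w) (h' : SH_oc l' w') :
    SH_oc (l ++ l') (w ++ w') := by
  obtain ⟨δ, h1, h2⟩ := h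
  obtain ⟨δ', h1', h2'⟩ := h'
  exact ⟨δ * δ', mul_pos h1 h1', SH_app h2' l δ w h2⟩

private theorem SH_hB {N i : ℕ} (h1 : 1 ≤ i) (h2 : i ≤ 2 * N) (b : ℝ) (v w : Vc) :
    ip N v (hB i b w) = ip N (hB i b v) w := by
  have e1 : ip N v (hB i b w) = (1 - (b : ℂ)) * ip N v w + (b : ℂ) * ip N v (QS.ee i w) := by
    unfold ip hB
    rw [Finset.mul_sum, Finset.mul_sum, ← Finset.sum_add_distrib]
    refine Finset.sum_congr rfl fun D _ => ?_
    ring
  have e2 : ip N (hB i b v) w = (1 - (b : ℂ)) * ip N v w + (b : ℂ) * ip N (QS.ee i v) w := by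
    unfold ip hB
    rw [Finset.mul_sum, Finset.mul_sum, ← Finset.sum_add_distrib]
    refine Finset.sum_congr rfl fun D _ => ?_
    ring
  rw [e1, e2, ip_symm h1 h2]

private theorem SH_rev {N : ℕ} (l : List (ℕ × ℝ)) (hl : Adl N l) (v : Vc) : ∀ w : Vc,
    ip N v (opB l w) = ip N (opB l.reverse v) w := by
  induction l with
  | nil => intro w; rfl
  | cons t l ih =>
    intro w
    have h1 := hl t List.mem_cons_self
    have h2 : Adl N l := fun t' ht' => hl t' (List.mem_cons_of_mem _ ht')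
    have e1 : opB (t :: l) w = opB l (hB t.1 t.2 w) := rfl
    rw [e1, ih h2, SH_hB h1.1 h1.2.1, List.reverse_cons, opB_append]
    rfl

private theorem SH_sublist (n : ℕ) : (oddL n).Sublist ((List.range (2 * n)).map (fun k => k + 1)) := by
  induction n with
  | zero => exact List.Sublist.refl _
  | succ n ih =>
    have e1 : oddL (n + 1) = oddL n ++ [2 * n + 1] := by
      unfold oddL
      rw [List.range_succ, List.map_append, List.map_singleton]
    have e2 : (List.range (2 * (n + 1))).map (fun k => k + 1) =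
        (List.range (2 * n)).map (fun k => k + 1) ++ [2 * n + 1, 2 * n + 1 + 1] := by
      rw [show 2 * (n + 1) = 2 * n + 1 + 1 from rfl, List.range_succ, List.range_succ,
        List.map_append, List.map_append, List.map_singleton, List.map_singleton,
        List.append_assoc]
      rfl
    rw [e1, e2]
    exact List.Sublist.append ih ((List.nil_sublist _).cons_cons _)

private theorem SH_half (n : ℕ) :
    ((List.range (2 * n)).map (fun k => (k + 1, (1 / 2 : ℝ)))).reverse =
      (List.range (2 * n)).map (fun k => (2 * n - k, (1 / 2 : ℝ))) := by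
  apply List.ext_getElem
  · rw [List.length_reverse, List.length_map, List.length_map]
  · intro k h1 h2
    rw [List.length_map, List.length_range] at h2
    rw [List.getElem_reverse, List.getElem_map, List.getElem_map, List.getElem_range,
      List.getElem_range, List.length_map, List.length_range]
    rw [show 2 * n - 1 - k + 1 = 2 * n - k by omega]

private theorem SH_half' (n : ℕ) :
    ((List.range (2 * n)).map (fun k => (2 * n - k, (1 / 2 : ℝ)))).reverse =
      (List.range (2 * n)).map (fun k => (k + 1, (1 / 2 : ℝ))) := by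
  rw [← SH_half, List.reverse_reverse]

private theorem SH_firstp (n : ℕ) : ∀ t ∈ (List.range (2 * n)).map (fun k => (k + 1, (1 / 2 : ℝ))),
    1 ≤ t.1 ∧ t.1 ≤ 2 * n ∧ t.2 = 1 / 2 := by
  intro t ht
  rw [List.mem_map] at ht
  obtain ⟨k, hk, rfl⟩ := ht
  rw [List.mem_range] at hk
  refine ⟨?_, ?_, rfl⟩
  · show 1 ≤ k + 1
    omega
  · show k + 1 ≤ 2 * n
    omega

private theorem SH_secp (n : ℕ) : ∀ t ∈ (List.range (2 * n)).map (fun k => (2 * n - k, (1 / 2 : ℝ))),
    1 ≤ t.1 ∧ t.1 ≤ 2 * n ∧ t.2 = 1 / 2 := by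
  intro t ht
  rw [List.mem_map] at ht
  obtain ⟨k, hk, rfl⟩ := ht
  rw [List.mem_range] at hk
  refine ⟨?_, ?_, rfl⟩
  · show 1 ≤ 2 * n - k
    omega
  · show 2 * n - k ≤ 2 * n
    omega

private theorem SH_oc1 (n : ℕ) :
    SH_oc ((List.range (2 * n)).map (fun k => (k + 1, (1 / 2 : ℝ)))) (oddL n) := by
  refine SH_sub _ _ ?_ ?_
  · intro t ht
    rw [(SH_firstp n t ht).2.2]
    norm_num
  · rw [List.map_map]
    exact SH_sublist n

private theorem SH_oc2 (n : ℕ) :
    SH_oc ((List.range (2 * n)).map (fun k => (2 * n - k, (1 / 2 : ℝ)))) [] := by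
  refine SH_sub _ _ ?_ (List.nil_sublist _)
  intro t ht
  rw [(SH_secp n t ht).2.2]
  norm_num

theorem good_Q1 (n : ℕ) : ∃ δ : ℝ, Goodl n (Q1 n) δ := by
  obtain ⟨δ, h1, h2⟩ := SH_oc_app (SH_oc1 n) (SH_oc2 n)
  rw [List.append_nil] at h2
  have hadl : Adl n (Q1 n) := by
    intro t ht
    rcases List.mem_append.1 ht with h3 | h3
    · have h4 := SH_firstp n t h3
      rw [h4.2.2]
      exact ⟨h4.1, h4.2.1, by norm_num, by norm_num⟩
    · have h4 := SH_secp n t h3
      rw [h4.2.2]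
      exact ⟨h4.1, h4.2.1, by norm_num, by norm_num⟩
  refine ⟨δ, hadl, h1, h2, fun v w => ?_⟩
  rw [SH_rev _ hadl]
  have e1 : (Q1 n).reverse = Q1 n := by
    unfold Q1
    rw [List.reverse_append, SH_half, SH_half']
  rw [e1]

theorem good_Q2 (n : ℕ) : ∃ δ : ℝ, Goodl (n + 1) (Q2 n) δ := by
  have h0 : SH_oc ((2 * n + 1, (1 : ℝ)) :: (List.range (2 * n)).map (fun k => (2 * n - k, (1 / 2 : ℝ))))
      [2 * n + 1] := SH_take (t := (2 * n + 1, (1 : ℝ))) one_pos (SH_oc2 n)
  obtain ⟨δ, h1, h2⟩ := SH_oc_app (SH_oc1 n) h0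
  have e0 : oddL n ++ [2 * n + 1] = oddL (n + 1) := by
    unfold oddL
    rw [List.range_succ, List.map_append, List.map_singleton]
  rw [e0] at h2
  have hadl : Adl (n + 1) (Q2 n) := by
    intro t ht
    rcases List.mem_append.1 ht with h3 | h3
    · have h4 := SH_firstp n t h3
      rw [h4.2.2]
      exact ⟨h4.1, by omega, by norm_num, by norm_num⟩
    · rcases List.mem_cons.1 h3 with rfl | h3
      · exact ⟨by show 1 ≤ 2 * n + 1; omega, by show 2 * n + 1 ≤ 2 * (n + 1); omega,
          zero_le_one, le_refl _⟩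
      · have h4 := SH_secp n t h3
        rw [h4.2.2]
        exact ⟨h4.1, by omega, by norm_num, by norm_num⟩
  refine ⟨δ, hadl, h1, h2, fun v w => ?_⟩
  rw [SH_rev _ hadl]
  have e1 : (Q2 n).reverse = Q2 n := by
    unfold Q2
    rw [List.reverse_append, List.reverse_cons, SH_half, SH_half', List.append_assoc]
    rfl
  rw [e1]

private theorem SH_sum (m : ℕ) (f : ℕ → ℕ) :
    (((List.range m).map (fun k => (f k, (1 / 2 : ℝ)))).map (fun t => t.2)).sum = m / 2 := by
  rw [List.map_map]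
  induction m with
  | zero => simp
  | succ m ih =>
    rw [List.range_succ, List.map_append, List.sum_append, ih, List.map_singleton,
      List.sum_singleton]
    show (m : ℝ) / 2 + 1 / 2 = ((m + 1 : ℕ) : ℝ) / 2
    push_cast
    ring

theorem sum_Q1 (n : ℕ) : ((Q1 n).map (fun t => t.2)).sum = 2 * n := by
  unfold Q1
  rw [List.map_append, List.sum_append, SH_sum, SH_sum]
  push_cast
  ring

theorem sum_Q2 (n : ℕ) : ((Q2 n).map (fun t => t.2)).sum = 2 * n + 1 := by
  unfold Q2
  rw [List.map_append, List.sum_append, List.map_cons, List.sum_cons, SH_sum, SH_sum]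
  push_cast
  ring

end NX
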