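import Pool.Agent.Lib.MP_216314_pr.N.SF
import Pool.Agent.Lib.MP_216314_pr.N.SH

/-!
# Combinatorics of the mean number of loops

`EL_congr`: `EL` depends on `σ` through its values on `{1..P}` only (letters `1 ≤ i < P`, `σ, σ'` noncrossing involutions of `{1..P}` which agree on `{1..P}`).
`EL_pos`: letters with probability zero may be dropped.
`upS P σ`: shift by one, with the outer arc `(1, P+2)`. `EL_shift`.
-/

set_option autoImplicit false

noncomputable section

namespace NX

open Finset QS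

def cE (i : ℕ) : ℝ := if i % 2 = 0 then 1 else 0

def cO (i : ℕ) : ℝ := if i % 2 = 1 then 1 else 0

/-- letters between `1` and `P - 1`, probabilities -/
def Adp (P : ℕ) (l : List (ℕ × ℝ)) : Prop := ∀ t ∈ l, 1 ≤ t.1 ∧ t.1 < P ∧ 0 ≤ t.2 ∧ t.2 ≤ 1

/-- shift by one, with an outer arc -/
def upS (P : ℕ) (σ : ℕ → ℕ) : ℕ → ℕ := fun x => if x = 1 then P + 2 else if x = P + 2 then 1 else σ (x - 1) + 1

theorem SI_tail {P : ℕ} {t : ℕ × ℝ} {l : List (ℕ × ℝ)} (h : Adp P (t :: l)) : Adp P l :=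
  fun u hu => h u (List.mem_cons_of_mem t hu)

theorem EL_congr {P : ℕ} (c : ℕ → ℝ) (l : List (ℕ × ℝ)) (hl : Adp P l) : ∀ (σ σ' : ℕ → ℕ), IsNC P σ → IsNC P σ' →
    (∀ x, 1 ≤ x → x ≤ P → σ x = σ' x) → EL c l σ = EL c l σ' := by
  induction l with
  | nil => exact fun _ _ _ _ _ => rfl
  | cons t l ih =>
    intro σ σ' h h' hs
    have ht := hl t List.mem_cons_self
    have h1 : σ t.1 = σ' t.1 := hs t.1 ht.1 ht.2.1.le
    have h2 : σ (t.1 + 1) = σ' (t.1 + 1) := hs (t.1 + 1) (by omega) (by omega)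
    have h3 : ∀ x, 1 ≤ x → x ≤ P → act t.1 σ x = act t.1 σ' x := by
      intro x hx hx'
      unfold act
      rw [h1, h2, hs x hx hx']
    show (1 - t.2) * EL c l σ + t.2 * ((if σ t.1 = t.1 + 1 then c t.1 else 0) + EL c l (act t.1 σ)) =
      (1 - t.2) * EL c l σ' + t.2 * ((if σ' t.1 = t.1 + 1 then c t.1 else 0) + EL c l (act t.1 σ'))
    rw [ih (SI_tail hl) σ σ' h h' hs, h1,
      ih (SI_tail hl) _ _ (act_nc h ht.1 ht.2.1) (act_nc h' ht.1 ht.2.1) h3]

theorem EL_pos (c : ℕ → ℝ) (l : List (ℕ × ℝ)) (σ : ℕ → ℕ) : EL c (l.filter (fun t => t.2 ≠ 0)) σ = EL c l σ := by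
  induction l generalizing σ with
  | nil => rfl
  | cons t l ih =>
    by_cases h : t.2 = 0
    · rw [List.filter_cons_of_neg (by simpa using h)]
      show _ = (1 - t.2) * EL c l σ + t.2 * ((if σ t.1 = t.1 + 1 then c t.1 else 0) + EL c l (act t.1 σ))
      rw [h, ih]
      ring
    · rw [List.filter_cons_of_pos (by simpa using h)]
      show (1 - t.2) * EL c (l.filter (fun t => t.2 ≠ 0)) σ +
          t.2 * ((if σ t.1 = t.1 + 1 then c t.1 else 0) +
            EL c (l.filter (fun t => t.2 ≠ 0)) (act t.1 σ)) =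
        (1 - t.2) * EL c l σ + t.2 * ((if σ t.1 = t.1 + 1 then c t.1 else 0) + EL c l (act t.1 σ))
      rw [ih, ih]

theorem SI_one (P : ℕ) (σ : ℕ → ℕ) : upS P σ 1 = P + 2 := by
  unfold upS
  rw [if_pos rfl]

theorem SI_last (P : ℕ) (σ : ℕ → ℕ) : upS P σ (P + 2) = 1 := by
  unfold upS
  rw [if_neg (by omega), if_pos rfl]

theorem SI_mid {P : ℕ} (σ : ℕ → ℕ) {x : ℕ} (h1 : x ≠ 1) (h2 : x ≠ P + 2) :
    upS P σ x = σ (x - 1) + 1 := by
  unfold upS
  rw [if_neg h1, if_neg h2]

theorem upS_nc {P : ℕ} {σ : ℕ → ℕ} (h : IsNC P σ) : IsNC (P + 2) (upS P σ) := by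
  obtain ⟨hinv, hnc⟩ := h
  constructor
  · intro x hx hx'
    by_cases h1 : x = 1
    · subst h1
      rw [SI_one, SI_last]
      omega
    by_cases h2 : x = P + 2
    · subst h2
      rw [SI_last, SI_one]
      omega
    · have h3 := hinv (x - 1) (by omega) (by omega)
      rw [SI_mid σ h1 h2, SI_mid σ (by omega) (by omega), Nat.add_sub_cancel, h3.2.2.2]
      omega
  · intro x y hx hxy hy hx'
    by_cases h1 : x = 1
    · subst h1
      rw [SI_one] at hy hx' ⊢
      have h3 := hinv (y - 1) (by omega) (by omega)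
      rw [SI_mid σ (by omega) (by omega)]
      omega
    by_cases h2 : x = P + 2
    · subst h2
      rw [SI_last] at hy
      omega
    · rw [SI_mid σ h1 h2] at hy hx' ⊢
      have h3 := hinv (x - 1) (by omega) (by omega)
      rw [SI_mid σ (by omega) (by omega)]
      have h4 := hnc (x - 1) (y - 1) (by omega) (by omega) (by omega) (by omega)
      omega

theorem upS_act {P i : ℕ} {σ : ℕ → ℕ} (h : IsNC P σ) (h1 : 1 ≤ i) (h2 : i < P) : act (i + 1) (upS P σ) = upS P (act i σ) := by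
  have hi := h.1 i h1 h2.le
  have hi' := h.1 (i + 1) (by omega) (by omega)
  have u1 : upS P σ (i + 1) = σ i + 1 := by
    rw [SI_mid σ (by omega) (by omega), Nat.add_sub_cancel]
  have u2 : upS P σ (i + 1 + 1) = σ (i + 1) + 1 := by
    rw [SI_mid σ (by omega) (by omega), Nat.add_sub_cancel]
  have hL : ∀ x, act (i + 1) (upS P σ) x =
      if σ i + 1 = i + 1 + 1 then upS P σ x
      else if x = i + 1 then i + 1 + 1
      else if x = i + 1 + 1 then i + 1
      else if x = σ i + 1 then σ (i + 1) + 1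
      else if x = σ (i + 1) + 1 then σ i + 1
      else upS P σ x := by
    intro x
    unfold act
    rw [u1, u2]
  funext x
  rw [hL]
  by_cases g0 : σ i = i + 1
  · have e : act i σ = σ := by
      funext z
      unfold act
      rw [if_pos g0]
    rw [if_pos (by omega), e]
  rw [if_neg (by omega)]
  by_cases g1 : x = 1
  · subst g1
    rw [if_neg (by omega), if_neg (by omega), if_neg (by omega), if_neg (by omega), SI_one, SI_one]
  by_cases g2 : x = P + 2
  · subst g2
    rw [if_neg (by omega), if_neg (by omega), if_neg (by omega), if_neg (by omega), SI_last, SI_last]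
  rw [SI_mid (act i σ) g1 g2, SI_mid σ g1 g2]
  unfold act
  rw [if_neg g0]
  by_cases g3 : x = 0
  · subst g3
    rw [if_neg (by omega), if_neg (by omega), if_neg (by omega), if_neg (by omega),
      if_neg (by omega), if_neg (by omega), if_neg (by omega), if_neg (by omega)]
  by_cases k1 : x = i + 1
  · rw [if_pos k1, if_pos (show x - 1 = i by omega)]
  rw [if_neg k1, if_neg (show ¬ x - 1 = i by omega)]
  by_cases k2 : x = i + 1 + 1
  · rw [if_pos k2, if_pos (show x - 1 = i + 1 by omega)]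
  rw [if_neg k2, if_neg (show ¬ x - 1 = i + 1 by omega)]
  by_cases k3 : x = σ i + 1
  · rw [if_pos k3, if_pos (show x - 1 = σ i by omega)]
  rw [if_neg k3, if_neg (show ¬ x - 1 = σ i by omega)]
  by_cases k4 : x = σ (i + 1) + 1
  · rw [if_pos k4, if_pos (show x - 1 = σ (i + 1) by omega)]
  rw [if_neg k4, if_neg (show ¬ x - 1 = σ (i + 1) by omega)]

theorem EL_shift {P : ℕ} (c : ℕ → ℝ) (l : List (ℕ × ℝ)) (hl : Adp P l) : ∀ σ, IsNC P σ →
    EL c (l.map (fun t => (t.1 + 1, t.2))) (upS P σ) = EL (fun i => c (i + 1)) l σ := by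
  induction l with
  | nil => exact fun _ _ => rfl
  | cons t l ih =>
    intro σ h
    have ht := hl t List.mem_cons_self
    show (1 - t.2) * EL c (l.map (fun t => (t.1 + 1, t.2))) (upS P σ) +
        t.2 * ((if upS P σ (t.1 + 1) = t.1 + 1 + 1 then c (t.1 + 1) else 0) +
          EL c (l.map (fun t => (t.1 + 1, t.2))) (act (t.1 + 1) (upS P σ))) =
      (1 - t.2) * EL (fun i => c (i + 1)) l σ +
        t.2 * ((if σ t.1 = t.1 + 1 then c (t.1 + 1) else 0) + EL (fun i => c (i + 1)) l (act t.1 σ))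
    have u1 : upS P σ (t.1 + 1) = σ t.1 + 1 := by
      rw [SI_mid σ (by omega) (by omega), Nat.add_sub_cancel]
    rw [upS_act h ht.1 ht.2.1, ih (SI_tail hl) σ h, ih (SI_tail hl) _ (act_nc h ht.1 ht.2.1), u1]
    by_cases g : σ t.1 = t.1 + 1
    · rw [if_pos g, if_pos (by omega)]
    · rw [if_neg g, if_neg (by omega)]

theorem cEO (i : ℕ) : cE i + cO i = 1 := by
  unfold cE cO
  by_cases h : i % 2 = 0
  · rw [if_pos h, if_neg (by omega), add_zero]
  · rw [if_neg h, if_pos (by omega), zero_add]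

end NX
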