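import Pool.Agent.Lib.MP_216314_pr.N.KB
import Pool.Agent.Lib.MP_216314_pr.N.SI

/-!
# Mean over the random tiles

`R`: random tiles, `c0`: fixed open tiles (disjoint from `R`). `bt n R c0 T`: the probability that the letter of the tile of time `T` is present: `1/2` if the tile is in `R`, otherwise `1` or `0` according to `ltr c0`.
`tlL n R c0 T`: the list of the letters of the first `T` tiles with these probabilities. `mean_lp`: the mean of the number of the loops closed at even letters is `EL cE`.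
Proof: more general statement by induction on the number `k` of remaining tiles: for `T0 + k = T` and a fixed configuration `d` of the tiles before `T0`, the mean of the number of loops closed between `T0` and `T` over the random tiles of these times is `EL cE (list of the letters T0, ..., T-1) (st n d T0)`; or the other way round (append at the end:
define the mean of `EL` at the state). Useful facts: `st n c T` and `lpE` depend on the processed tiles only (`st_congr`); `tile_notMem`, `PT_succ`; a sum over the subsets of `insert t R'` splits into two sums (`Finset.sum_powerset_insert`), for a random tile exactly one of the two choices has the letter present.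
For an even column the letter is present iff the tile is open; for an odd column a closed loop has weight `cE = 0`.
-/

set_option autoImplicit false

noncomputable section

namespace NX

open Finset QS FKH Classical

/-- probability of the letter at time `T` -/
def bt (n : ℕ) (R c0 : Finset (ℕ × ℕ)) (T : ℕ) : ℝ := if tile n T ∈ R then 1 / 2 else if ltr c0 (tile n T) then 1 else 0

/-- the list of the letters of the first `T` tiles -/
def tlL (n : ℕ) (R c0 : Finset (ℕ × ℕ)) (T : ℕ) : List (ℕ × ℝ) := (List.range T).map (fun T' => ((tile n T').1, bt n R c0 T'))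

/-- mean of a function of the state after the list -/
def KC_AV (F : (ℕ → ℕ) → ℝ) : List (ℕ × ℝ) → (ℕ → ℕ) → ℝ
  | [], σ => F σ
  | t :: l, σ => (1 - t.2) * KC_AV F l σ + t.2 * KC_AV F l (act t.1 σ)

theorem KC_AV_append (F : (ℕ → ℕ) → ℝ) (t : ℕ × ℝ) (l : List (ℕ × ℝ)) (σ : ℕ → ℕ) :
    KC_AV F (l ++ [t]) σ = KC_AV (fun τ => (1 - t.2) * F τ + t.2 * F (act t.1 τ)) l σ := by
  induction l generalizing σ with
  | nil => rfl
  | cons u l ih =>
    show (1 - u.2) * KC_AV F (l ++ [t]) σ + u.2 * KC_AV F (l ++ [t]) (act u.1 σ) = _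
    rw [ih, ih]
    rfl

theorem KC_EL_append (c : ℕ → ℝ) (t : ℕ × ℝ) (l : List (ℕ × ℝ)) (σ : ℕ → ℕ) :
    EL c (l ++ [t]) σ = EL c l σ + t.2 * KC_AV (fun τ => if τ t.1 = t.1 + 1 then c t.1 else 0) l σ := by
  induction l generalizing σ with
  | nil =>
    show (1 - t.2) * 0 + t.2 * ((if σ t.1 = t.1 + 1 then c t.1 else 0) + 0) =
      0 + t.2 * (if σ t.1 = t.1 + 1 then c t.1 else 0)
    ring
  | cons u l ih =>
    show (1 - u.2) * EL c (l ++ [t]) σ + u.2 * ((if σ u.1 = u.1 + 1 then c u.1 else 0) +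
        EL c (l ++ [t]) (act u.1 σ)) =
      ((1 - u.2) * EL c l σ + u.2 * ((if σ u.1 = u.1 + 1 then c u.1 else 0) + EL c l (act u.1 σ))) +
        t.2 * ((1 - u.2) * KC_AV (fun τ => if τ t.1 = t.1 + 1 then c t.1 else 0) l σ +
          u.2 * KC_AV (fun τ => if τ t.1 = t.1 + 1 then c t.1 else 0) l (act u.1 σ))
    rw [ih, ih]
    ring

theorem KC_tlL_succ (n : ℕ) (R c0 : Finset (ℕ × ℕ)) (T : ℕ) :
    tlL n R c0 (T + 1) = tlL n R c0 T ++ [((tile n T).1, bt n R c0 T)] := by
  unfold tlL
  rw [List.range_succ, List.map_append]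
  rfl

/-- mean over the random tiles before time `T` -/
def KC_mean (n : ℕ) (R c0 : Finset (ℕ × ℕ)) (T : ℕ) (Φ : Finset (ℕ × ℕ) → ℝ) : ℝ :=
  (∑ c ∈ (R ∩ PT n T).powerset, Φ (c ∪ c0)) / 2 ^ (R ∩ PT n T).card

theorem KC_mean_congr {n : ℕ} {R c0 : Finset (ℕ × ℕ)} {T : ℕ} {Φ Φ' : Finset (ℕ × ℕ) → ℝ}
    (h : ∀ c, c ⊆ R ∩ PT n T → Φ (c ∪ c0) = Φ' (c ∪ c0)) :
    KC_mean n R c0 T Φ = KC_mean n R c0 T Φ' := by
  unfold KC_mean
  rw [sum_congr rfl fun c hc => h c (mem_powerset.mp hc)]

theorem KC_mean_lin (n : ℕ) (R c0 : Finset (ℕ × ℕ)) (T : ℕ) (b : ℝ) (Φ Φ' : Finset (ℕ × ℕ) → ℝ) :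
    KC_mean n R c0 T (fun c => Φ c + b * Φ' c) = KC_mean n R c0 T Φ + b * KC_mean n R c0 T Φ' := by
  unfold KC_mean
  rw [sum_add_distrib, ← mul_sum]
  ring

theorem KC_mean_zero (n : ℕ) (R c0 : Finset (ℕ × ℕ)) (Φ : Finset (ℕ × ℕ) → ℝ) :
    KC_mean n R c0 0 Φ = Φ c0 := by
  unfold KC_mean
  rw [PT_zero, inter_empty, powerset_empty, sum_singleton, empty_union, card_empty, pow_zero, div_one]

theorem KC_mean_in {n : ℕ} (hn : 1 ≤ n) {R c0 : Finset (ℕ × ℕ)} {T : ℕ} (hT : tile n T ∈ R)
    (Φ : Finset (ℕ × ℕ) → ℝ) :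
    KC_mean n R c0 (T + 1) Φ = KC_mean n R c0 T (fun c => (Φ c + Φ (insert (tile n T) c)) / 2) := by
  unfold KC_mean
  have h1 : R ∩ PT n (T + 1) = insert (tile n T) (R ∩ PT n T) := by
    rw [PT_succ hn, inter_insert_of_mem hT]
  have h2 : tile n T ∉ R ∩ PT n T := fun h => tile_notMem hn T (mem_inter.mp h).2
  rw [h1, sum_powerset_insert h2, card_insert_of_notMem h2, ← sum_add_distrib, pow_succ]
  have h3 : ∑ c ∈ (R ∩ PT n T).powerset, (Φ (c ∪ c0) + Φ (insert (tile n T) c ∪ c0)) =
      2 * ∑ c ∈ (R ∩ PT n T).powerset, (Φ (c ∪ c0) + Φ (insert (tile n T) (c ∪ c0))) / 2 := by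
    rw [mul_sum]
    refine sum_congr rfl fun c _ => ?_
    rw [insert_union]
    ring
  rw [h3]
  field_simp

theorem KC_mean_out {n : ℕ} (hn : 1 ≤ n) {R c0 : Finset (ℕ × ℕ)} {T : ℕ} (hT : tile n T ∉ R)
    (Φ : Finset (ℕ × ℕ) → ℝ) : KC_mean n R c0 (T + 1) Φ = KC_mean n R c0 T Φ := by
  unfold KC_mean
  have h1 : R ∩ PT n (T + 1) = R ∩ PT n T := by
    rw [PT_succ hn, inter_insert_of_notMem hT]
  rw [h1]

theorem KC_st_insert {n : ℕ} (hn : 1 ≤ n) (c : Finset (ℕ × ℕ)) {T T' : ℕ} (h : T' ≤ T) :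
    st n (insert (tile n T) c) T' = st n c T' := by
  refine st_congr hn T' fun t ht => ?_
  rw [mem_insert]
  constructor
  · rintro (h1 | h1)
    · exfalso
      rw [h1] at ht
      exact tile_notMem hn T (PT_mono hn h ht)
    · exact h1
  · exact Or.inr

theorem KC_st (n : ℕ) (c : Finset (ℕ × ℕ)) (T : ℕ) :
    st n c (T + 1) = if ltr c (tile n T) then act (tile n T).1 (st n c T) else st n c T := rfl

theorem KC_lpE_succ (n : ℕ) (c : Finset (ℕ × ℕ)) (T : ℕ) :
    (lpE n c (T + 1) : ℝ) = lpE n c T +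
      (if (tile n T).1 % 2 = 0 ∧ tile n T ∈ c ∧ st n c T (tile n T).1 = (tile n T).1 + 1 then 1 else 0) := by
  unfold lpE
  rw [range_add_one, filter_insert]
  split_ifs with h
  · rw [card_insert_of_notMem]
    · push_cast
      ring
    · intro h1
      exact notMem_range_self (mem_filter.mp h1).1
  · rw [add_zero]

theorem KC_lpE_insert {n : ℕ} (hn : 1 ≤ n) (c : Finset (ℕ × ℕ)) (T : ℕ) :
    lpE n (insert (tile n T) c) T = lpE n c T := by
  unfold lpE
  congr 1
  refine filter_congr fun T' hT' => ?_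
  have h1 : T' < T := mem_range.mp hT'
  have h2 : tile n T' ∈ insert (tile n T) c ↔ tile n T' ∈ c := by
    rw [mem_insert]
    constructor
    · rintro (h3 | h3)
      · exfalso
        have h4 := tile_mem hn h1
        rw [h3] at h4
        exact tile_notMem hn T h4
      · exact h3
    · exact Or.inr
  rw [h2, KC_st_insert hn c h1.le]

theorem KC_notMem {n : ℕ} (hn : 1 ≤ n) {R c0 : Finset (ℕ × ℕ)} (hd : Disjoint R c0) {T : ℕ}
    (hT : tile n T ∈ R) {c : Finset (ℕ × ℕ)} (hc : c ⊆ R ∩ PT n T) : tile n T ∉ c ∪ c0 := by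
  rw [mem_union]
  rintro (h | h)
  · exact tile_notMem hn T (mem_inter.mp (hc h)).2
  · exact disjoint_left.mp hd hT h

theorem KC_iff {n : ℕ} {R c0 : Finset (ℕ × ℕ)} {T : ℕ}
    (hT : tile n T ∉ R) {c : Finset (ℕ × ℕ)} (hc : c ⊆ R ∩ PT n T) : tile n T ∈ c ∪ c0 ↔ tile n T ∈ c0 := by
  rw [mem_union]
  constructor
  · rintro (h | h)
    · exact absurd (mem_inter.mp (hc h)).1 hT
    · exact h
  · exact Or.inr

theorem KC_state {n : ℕ} (hn : 1 ≤ n) (R c0 : Finset (ℕ × ℕ)) (hd : Disjoint R c0) (T : ℕ)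
    (F : (ℕ → ℕ) → ℝ) : KC_mean n R c0 T (fun c => F (st n c T)) = KC_AV F (tlL n R c0 T) sg0 := by
  induction T generalizing F with
  | zero =>
    rw [KC_mean_zero]
    rfl
  | succ T ih =>
    rw [KC_tlL_succ, KC_AV_append, ← ih]
    by_cases hT : tile n T ∈ R
    · rw [KC_mean_in hn hT]
      have hb : bt n R c0 T = 1 / 2 := if_pos hT
      refine KC_mean_congr fun c hc => ?_
      have h1 := KC_notMem hn hd hT hc
      show (F (st n (c ∪ c0) (T + 1)) + F (st n (insert (tile n T) (c ∪ c0)) (T + 1))) / 2 =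
        (1 - bt n R c0 T) * F (st n (c ∪ c0) T) + bt n R c0 T * F (act (tile n T).1 (st n (c ∪ c0) T))
      rw [hb, KC_st, KC_st, KC_st_insert hn _ (le_refl T)]
      by_cases hp : (tile n T).1 % 2 = 0
      · have h2 : ¬ ltr (c ∪ c0) (tile n T) := by
          unfold ltr
          rintro (h | h)
          · exact h1 h.2
          · omega
        have h3 : ltr (insert (tile n T) (c ∪ c0)) (tile n T) := Or.inl ⟨hp, mem_insert_self _ _⟩
        rw [if_neg h2, if_pos h3]
        ring
      · have h2 : ltr (c ∪ c0) (tile n T) := Or.inr ⟨by omega, h1⟩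
        have h3 : ¬ ltr (insert (tile n T) (c ∪ c0)) (tile n T) := by
          unfold ltr
          rintro (h | h)
          · exact hp h.1
          · exact h.2 (mem_insert_self _ _)
        rw [if_pos h2, if_neg h3]
        ring
    · rw [KC_mean_out hn hT]
      have hb : bt n R c0 T = if ltr c0 (tile n T) then 1 else 0 := if_neg hT
      refine KC_mean_congr fun c hc => ?_
      have h1 := KC_iff (c0 := c0) hT hc
      have h2 : ltr (c ∪ c0) (tile n T) ↔ ltr c0 (tile n T) := by
        unfold ltr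
        rw [h1]
      show F (st n (c ∪ c0) (T + 1)) =
        (1 - bt n R c0 T) * F (st n (c ∪ c0) T) + bt n R c0 T * F (act (tile n T).1 (st n (c ∪ c0) T))
      rw [hb, KC_st]
      by_cases h3 : ltr c0 (tile n T)
      · rw [if_pos (h2.mpr h3), if_pos h3]
        ring
      · rw [if_neg (fun h => h3 (h2.mp h)), if_neg h3]
        ring

theorem KC_main {n : ℕ} (hn : 1 ≤ n) (R c0 : Finset (ℕ × ℕ)) (hd : Disjoint R c0) (T : ℕ) :
    KC_mean n R c0 T (fun c => (lpE n c T : ℝ)) = EL cE (tlL n R c0 T) sg0 := by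
  induction T with
  | zero =>
    rw [KC_mean_zero]
    show ((lpE n c0 0 : ℕ) : ℝ) = 0
    unfold lpE
    simp
  | succ T ih =>
    rw [KC_tlL_succ, KC_EL_append, ← ih, ← KC_state hn R c0 hd T, ← KC_mean_lin]
    by_cases hT : tile n T ∈ R
    · rw [KC_mean_in hn hT]
      have hb : bt n R c0 T = 1 / 2 := if_pos hT
      refine KC_mean_congr fun c hc => ?_
      have h1 := KC_notMem hn hd hT hc
      show ((lpE n (c ∪ c0) (T + 1) : ℝ) + lpE n (insert (tile n T) (c ∪ c0)) (T + 1)) / 2 =
        lpE n (c ∪ c0) T + bt n R c0 T *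
          (if st n (c ∪ c0) T (tile n T).1 = (tile n T).1 + 1 then cE (tile n T).1 else 0)
      rw [KC_lpE_succ, KC_lpE_succ, KC_lpE_insert hn, KC_st_insert hn _ (le_refl T), hb]
      rw [if_neg (fun h => h1 h.2.1)]
      unfold cE
      by_cases hp : (tile n T).1 % 2 = 0
      · by_cases hq : st n (c ∪ c0) T (tile n T).1 = (tile n T).1 + 1
        · rw [if_pos ⟨hp, mem_insert_self _ _, hq⟩, if_pos hq, if_pos hp]
          ring
        · rw [if_neg (fun h => hq h.2.2), if_neg hq]
          ring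
      · rw [if_neg (fun h => hp h.1), if_neg hp]
        simp
    · rw [KC_mean_out hn hT]
      have hb : bt n R c0 T = if ltr c0 (tile n T) then 1 else 0 := if_neg hT
      refine KC_mean_congr fun c hc => ?_
      have h1 := KC_iff (c0 := c0) hT hc
      show (lpE n (c ∪ c0) (T + 1) : ℝ) =
        lpE n (c ∪ c0) T + bt n R c0 T *
          (if st n (c ∪ c0) T (tile n T).1 = (tile n T).1 + 1 then cE (tile n T).1 else 0)
      rw [KC_lpE_succ, hb]
      unfold cE
      by_cases hp : (tile n T).1 % 2 = 0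
      · have h2 : ltr c0 (tile n T) ↔ tile n T ∈ c0 := by
          unfold ltr
          constructor
          · rintro (h | h)
            · exact h.2
            · omega
          · exact fun h => Or.inl ⟨hp, h⟩
        by_cases hq : st n (c ∪ c0) T (tile n T).1 = (tile n T).1 + 1
        · by_cases h3 : tile n T ∈ c0
          · rw [if_pos ⟨hp, h1.mpr h3, hq⟩, if_pos hq, if_pos hp, if_pos (h2.mpr h3)]
            ring
          · rw [if_neg (fun h => h3 (h1.mp h.2.1)), if_neg (fun h => h3 (h2.mp h))]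
            ring
        · rw [if_neg (fun h => hq h.2.2), if_neg hq]
          ring
      · rw [if_neg (fun h => hp h.1), if_neg hp]
        simp

theorem mean_lp {n : ℕ} (hn : 1 ≤ n) (R c0 : Finset (ℕ × ℕ)) (hd : Disjoint R c0) (T : ℕ) (hR : R ⊆ PT n T) :
    (∑ c ∈ R.powerset, (lpE n (c ∪ c0) T : ℝ)) / 2 ^ R.card = EL cE (tlL n R c0 T) sg0 := by
  rw [← KC_main hn R c0 hd T]
  unfold KC_mean
  rw [inter_eq_left.mpr hR]

end NX
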