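import Pool.Agent.Lib.MP_216314_pr.N.KC

/-!
# The letters of the three processes

`tile n (2 n h + i)` has the column `i + 1` (`h` even) or `2n - i` (`h` odd), and the row `h` (`0 ≤ i < 2n`), see `FKH.tile`, `jj`, `tt`.
`list_FW`: all the tiles random: `m` copies of `Q1 n`.
`list_FF`: `n + 1` in place of `n`; random columns `1..2n`, fixed open tiles `(2n+1, h)`, `h` even: the letter `2n+1` is absent in the even rows and present in the odd rows, the letter `2n+2` is absent. After dropping the letters of probability zero: `m` copies of `Q2 n`.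
`list_WW`: `n + 1` in place of `n`, height `2m + 2`; random tiles: columns `2..2n+1`, rows `2..2m+1`; fixed open tiles: row 0: all; row 1: the odd columns and the column `2n+2`; rows `h ≥ 2`: the column `1`, and the column `2n+2` for odd `h`.
After dropping the letters of probability zero: row 0: `2, 4, ..., 2n+2` (probability one), row 1: `2n+2`, then `m` copies of the shifted list `Q2 n`.
(Suggestion: write `List.range (2 n H)` as the concatenation of the rows, `List.range (a + b) = List.range a ++ (List.range b).map (a + ·)`, induction on `m`.)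
-/

set_option autoImplicit false

noncomputable section

namespace NX

open Finset QS FKH Classical

/-- fixed open tiles of the free strip -/
def cFF (n H : ℕ) : Finset (ℕ × ℕ) := (tls (n + 1) H).filter (fun t => t.1 = 2 * n + 1 ∧ t.2 % 2 = 0)

/-- random tiles of the wired strip -/
def RWW (n m : ℕ) : Finset (ℕ × ℕ) := Icc 2 (2 * n + 1) ×ˢ Ico 2 (2 * m + 2)

/-- fixed open tiles of the wired strip -/
def cWW (n m : ℕ) : Finset (ℕ × ℕ) := (tls (n + 1) (2 * m + 2)).filter (fun t =>
  t.2 = 0 ∨ (t.2 = 1 ∧ (t.1 % 2 = 1 ∨ t.1 = 2 * n + 2)) ∨ (2 ≤ t.2 ∧ (t.1 = 1 ∨ (t.1 = 2 * n + 2 ∧ t.2 % 2 = 1))))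

private theorem KD_range {β : Type} (a H : ℕ) (f : ℕ → β) : (List.range (a * H)).map f =
    (List.range H).flatMap (fun h => (List.range a).map (fun i => f (a * h + i))) := by
  induction H with
  | zero => simp
  | succ H ih =>
    rw [Nat.mul_succ, List.range_add, List.map_append, ih, List.range_succ, List.flatMap_append,
      List.flatMap_singleton, List.map_map]
    rfl

private theorem KD_rep_succ (l : List (ℕ × ℝ)) (m : ℕ) : rep l (m + 1) = rep l m ++ l := by
  unfold rep
  rw [List.replicate_succ', List.flatten_append, List.flatten_singleton]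

private theorem KD_rep (row : ℕ → List (ℕ × ℝ)) (Q : List (ℕ × ℝ)) : ∀ m : ℕ,
    (∀ k, k < m → row (2 * k) ++ row (2 * k + 1) = Q) → (List.range (2 * m)).flatMap row = rep Q m := by
  intro m
  induction m with
  | zero =>
    intro _
    rfl
  | succ m ih =>
    intro h
    have e : 2 * (m + 1) = 2 * m + 1 + 1 := by ring
    rw [e, List.range_succ, List.range_succ, List.flatMap_append, List.flatMap_append,
      List.flatMap_singleton, List.flatMap_singleton, ih fun k hk => h k (by omega), KD_rep_succ,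
      List.append_assoc, h m (by omega)]

/-- the probability of the letter of a tile -/
private def KD_P (R c0 : Finset (ℕ × ℕ)) (t : ℕ × ℕ) : ℝ :=
  if t ∈ R then 1 / 2 else if ltr c0 t then 1 else 0

/-- one row -/
private def KD_row (n : ℕ) (R c0 : Finset (ℕ × ℕ)) (h : ℕ) : List (ℕ × ℝ) :=
  (List.range (2 * n)).map (fun i => (jj n h i, KD_P R c0 (jj n h i, h)))

private theorem KD_tlL {n : ℕ} (hn : 1 ≤ n) (R c0 : Finset (ℕ × ℕ)) (H : ℕ) :
    tlL n R c0 (2 * n * H) = (List.range H).flatMap (KD_row n R c0) := by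
  unfold tlL
  rw [KD_range]
  congr 1
  funext h
  unfold KD_row
  apply List.map_congr_left
  intro i hi
  rw [List.mem_range] at hi
  have e1 : (2 * n * h + i) / (2 * n) = h := by
    rw [Nat.mul_add_div (by omega), Nat.div_eq_of_lt hi, add_zero]
  have e2 : (2 * n * h + i) % (2 * n) = i := by
    rw [Nat.mul_add_mod, Nat.mod_eq_of_lt hi]
  have e3 : tile n (2 * n * h + i) = (jj n h i, h) := by
    unfold tile tt
    rw [e1, e2]
  unfold bt
  rw [e3]
  rfl

private theorem KD_jj0 {n h i : ℕ} (hh : h % 2 = 0) : jj n h i = i + 1 := by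
  unfold jj
  rw [if_pos hh]

private theorem KD_jj1 {n h i : ℕ} (hh : h % 2 = 1) : jj n h i = 2 * n - i := by
  unfold jj
  rw [if_neg (by omega)]

private theorem KD_P_half {R c0 : Finset (ℕ × ℕ)} {t : ℕ × ℕ} (h : t ∈ R) : KD_P R c0 t = 1 / 2 :=
  if_pos h

private theorem KD_P_one {R c0 : Finset (ℕ × ℕ)} {t : ℕ × ℕ} (h : t ∉ R) (h2 : ltr c0 t) :
    KD_P R c0 t = 1 := by
  unfold KD_P
  rw [if_neg h, if_pos h2]

private theorem KD_P_zero {R c0 : Finset (ℕ × ℕ)} {t : ℕ × ℕ} (h : t ∉ R) (h2 : ¬ ltr c0 t) :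
    KD_P R c0 t = 0 := by
  unfold KD_P
  rw [if_neg h, if_neg h2]

private theorem KD_ltr {c0 : Finset (ℕ × ℕ)} {j h : ℕ} {X : Prop} (hX : (j, h) ∈ c0 ↔ X) :
    ltr c0 (j, h) ↔ (j % 2 = 0 ∧ X) ∨ (j % 2 = 1 ∧ ¬ X) := by
  rw [← hX]
  rfl

private theorem KD_filter_half (p : ℕ × ℝ → Bool) (hp : ∀ j, p (j, 1 / 2) = true) (k : ℕ) (f : ℕ → ℕ) :
    ((List.range k).map fun i => (f i, (1 / 2 : ℝ))).filter p =
      (List.range k).map fun i => (f i, (1 / 2 : ℝ)) := by
  rw [List.filter_eq_self]
  intro t ht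
  rw [List.mem_map] at ht
  obtain ⟨i, _, rfl⟩ := ht
  exact hp _

private theorem KD_row0 (p : ℕ × ℝ → Bool) (h0 : ∀ j, p (j, 0) = false) (h1 : ∀ j, p (j, 1) = true) (n : ℕ) :
    ((List.range (2 * n)).map (fun i => (i + 1, if i % 2 = 1 then (1 : ℝ) else 0))).filter p =
      (List.range n).map (fun k => (2 * k + 2, (1 : ℝ))) := by
  induction n with
  | zero => rfl
  | succ n ih =>
    have e : 2 * (n + 1) = 2 * n + 1 + 1 := by ring
    rw [e, List.range_succ, List.range_succ, List.map_append, List.map_append, List.filter_append,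
      List.filter_append, ih, List.range_succ, List.map_append]
    have e1 : (2 * n) % 2 = 0 := by omega
    have e2 : (2 * n + 1) % 2 = 1 := by omega
    simp only [List.map_cons, List.map_nil, e1, e2, List.filter_cons, h1, List.filter_nil, if_true]
    simp [h0]

theorem list_FW {n : ℕ} (hn : 1 ≤ n) (m : ℕ) : tlL n (tls n (2 * m)) ∅ (2 * n * (2 * m)) = rep (Q1 n) m := by
  rw [KD_tlL hn]
  apply KD_rep
  intro k hk
  have hmem : ∀ j h, 1 ≤ j → j ≤ 2 * n → h < 2 * m → (j, h) ∈ tls n (2 * m) := by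
    intro j h h1 h2 h3
    unfold tls
    rw [Finset.mem_product, Finset.mem_Icc, Finset.mem_range]
    exact ⟨⟨h1, h2⟩, h3⟩
  unfold Q1 KD_row
  congr 1
  · apply List.map_congr_left
    intro i hi
    rw [List.mem_range] at hi
    rw [KD_jj0 (by omega), KD_P_half (hmem _ _ (by omega) (by omega) (by omega))]
  · apply List.map_congr_left
    intro i hi
    rw [List.mem_range] at hi
    rw [KD_jj1 (by omega), KD_P_half (hmem _ _ (by omega) (by omega) (by omega))]

theorem list_FF {n : ℕ} (hn : 1 ≤ n) (m : ℕ) :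
    (tlL (n + 1) (tls n (2 * m)) (cFF n (2 * m)) (2 * (n + 1) * (2 * m))).filter (fun t => t.2 ≠ 0) = rep (Q2 n) m := by
  rw [KD_tlL (by omega), List.filter_flatMap]
  apply KD_rep
  intro k hk
  have hmem : ∀ j h, 1 ≤ j → j ≤ 2 * n → h < 2 * m → (j, h) ∈ tls n (2 * m) := by
    intro j h h1 h2 h3
    unfold tls
    rw [Finset.mem_product, Finset.mem_Icc, Finset.mem_range]
    exact ⟨⟨h1, h2⟩, h3⟩
  have hmem2 : ∀ j h, 2 * n < j → (j, h) ∉ tls n (2 * m) := by
    intro j h h1 h2
    unfold tls at h2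
    rw [Finset.mem_product, Finset.mem_Icc] at h2
    have := h2.1.2
    simp only at this
    omega
  have hc : ∀ j h, j ≤ 2 * n + 2 → 1 ≤ j → h < 2 * m →
      ((j, h) ∈ cFF n (2 * m) ↔ j = 2 * n + 1 ∧ h % 2 = 0) := by
    intro j h h1 h2 h3
    unfold cFF tls
    rw [Finset.mem_filter, Finset.mem_product, Finset.mem_Icc, Finset.mem_range]
    constructor
    · exact fun h4 => h4.2
    · exact fun h4 => ⟨⟨⟨h2, by show j ≤ 2 * (n + 1); omega⟩, h3⟩, h4⟩
  have p0 : ∀ j : ℕ, (decide ((j, (0 : ℝ)).2 ≠ 0)) = false := fun j => by simp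
  have p1 : ∀ j : ℕ, (decide ((j, (1 : ℝ)).2 ≠ 0)) = true := fun j => by simp
  have p2 : ∀ j : ℕ, (decide ((j, (1 / 2 : ℝ)).2 ≠ 0)) = true := fun j => by simp
  unfold Q2
  have r0 : (KD_row (n + 1) (tls n (2 * m)) (cFF n (2 * m)) (2 * k)).filter (fun t => t.2 ≠ 0) =
      (List.range (2 * n)).map (fun k => (k + 1, (1 / 2 : ℝ))) := by
    unfold KD_row
    have e : 2 * (n + 1) = 2 * n + 1 + 1 := by ring
    rw [e, List.range_succ, List.range_succ, List.map_append, List.map_append, List.filter_append,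
      List.filter_append]
    have l1 : (List.range (2 * n)).map (fun i => (jj (n + 1) (2 * k) i,
        KD_P (tls n (2 * m)) (cFF n (2 * m)) (jj (n + 1) (2 * k) i, 2 * k))) =
        (List.range (2 * n)).map (fun k => (k + 1, (1 / 2 : ℝ))) := by
      apply List.map_congr_left
      intro i hi
      rw [List.mem_range] at hi
      rw [KD_jj0 (by omega), KD_P_half (hmem _ _ (by omega) (by omega) (by omega))]
    have l2 : KD_P (tls n (2 * m)) (cFF n (2 * m)) (jj (n + 1) (2 * k) (2 * n), 2 * k) = 0 := by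
      rw [KD_jj0 (by omega)]
      refine KD_P_zero (hmem2 _ _ (by omega)) ?_
      rw [KD_ltr (hc _ _ (by omega) (by omega) (by omega))]
      omega
    have l3 : KD_P (tls n (2 * m)) (cFF n (2 * m)) (jj (n + 1) (2 * k) (2 * n + 1), 2 * k) = 0 := by
      rw [KD_jj0 (by omega)]
      refine KD_P_zero (hmem2 _ _ (by omega)) ?_
      rw [KD_ltr (hc _ _ (by omega) (by omega) (by omega))]
      omega
    rw [l1, KD_filter_half _ p2]
    simp [l2, l3]
  have r1 : (KD_row (n + 1) (tls n (2 * m)) (cFF n (2 * m)) (2 * k + 1)).filter (fun t => t.2 ≠ 0) =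
      (2 * n + 1, (1 : ℝ)) :: (List.range (2 * n)).map (fun k => (2 * n - k, (1 / 2 : ℝ))) := by
    unfold KD_row
    have e : 2 * (n + 1) = 2 * n + 1 + 1 := by ring
    rw [e, List.range_succ_eq_map, List.range_succ_eq_map, List.map_cons, List.map_cons, List.map_cons,
      List.map_map, List.map_map]
    have l1 : List.map (((fun i => (jj (n + 1) (2 * k + 1) i,
        KD_P (tls n (2 * m)) (cFF n (2 * m)) (jj (n + 1) (2 * k + 1) i, 2 * k + 1))) ∘ Nat.succ) ∘ Nat.succ)
        (List.range (2 * n)) = (List.range (2 * n)).map (fun k => (2 * n - k, (1 / 2 : ℝ))) := by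
      apply List.map_congr_left
      intro i hi
      rw [List.mem_range] at hi
      simp only [Function.comp]
      have e2 : jj (n + 1) (2 * k + 1) (i.succ.succ) = 2 * n - i := by
        rw [KD_jj1 (by omega)]
        omega
      rw [e2, KD_P_half (hmem _ _ (by omega) (by omega) (by omega))]
    have l2 : jj (n + 1) (2 * k + 1) 0 = 2 * n + 2 := by
      rw [KD_jj1 (by omega)]
      omega
    have l2' : KD_P (tls n (2 * m)) (cFF n (2 * m)) (2 * n + 2, 2 * k + 1) = 0 := by
      refine KD_P_zero (hmem2 _ _ (by omega)) ?_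
      rw [KD_ltr (hc _ _ (by omega) (by omega) (by omega))]
      omega
    have l3 : jj (n + 1) (2 * k + 1) (Nat.succ 0) = 2 * n + 1 := by
      rw [KD_jj1 (by omega)]
      omega
    have l3' : KD_P (tls n (2 * m)) (cFF n (2 * m)) (2 * n + 1, 2 * k + 1) = 1 := by
      refine KD_P_one (hmem2 _ _ (by omega)) ?_
      rw [KD_ltr (hc _ _ (by omega) (by omega) (by omega))]
      omega
    rw [l2, l2', l3, l3', l1, List.filter_cons, List.filter_cons, KD_filter_half _ p2]
    simp
  rw [r0, r1]

theorem list_WW {n : ℕ} (hn : 1 ≤ n) (m : ℕ) :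
    (tlL (n + 1) (RWW n m) (cWW n m) (2 * (n + 1) * (2 * m + 2))).filter (fun t => t.2 ≠ 0) =
      (List.range (n + 1)).map (fun k => (2 * k + 2, (1 : ℝ))) ++ ((2 * n + 2, (1 : ℝ)) ::
        (rep (Q2 n) m).map (fun t => (t.1 + 1, t.2))) := by
  have hR : ∀ j h, (j, h) ∈ RWW n m ↔ (2 ≤ j ∧ j ≤ 2 * n + 1) ∧ (2 ≤ h ∧ h < 2 * m + 2) := by
    intro j h
    unfold RWW
    rw [Finset.mem_product, Finset.mem_Icc, Finset.mem_Ico]
  have hc : ∀ j h, 1 ≤ j → j ≤ 2 * n + 2 → h < 2 * m + 2 → ((j, h) ∈ cWW n m ↔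
      h = 0 ∨ (h = 1 ∧ (j % 2 = 1 ∨ j = 2 * n + 2)) ∨ (2 ≤ h ∧ (j = 1 ∨ (j = 2 * n + 2 ∧ h % 2 = 1)))) := by
    intro j h h1 h2 h3
    unfold cWW tls
    rw [Finset.mem_filter, Finset.mem_product, Finset.mem_Icc, Finset.mem_range]
    constructor
    · exact fun h4 => h4.2
    · exact fun h4 => ⟨⟨⟨h1, by show j ≤ 2 * (n + 1); omega⟩, h3⟩, h4⟩
  have p0 : ∀ j : ℕ, (decide ((j, (0 : ℝ)).2 ≠ 0)) = false := fun j => by simp
  have p1 : ∀ j : ℕ, (decide ((j, (1 : ℝ)).2 ≠ 0)) = true := fun j => by simp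
  have p2 : ∀ j : ℕ, (decide ((j, (1 / 2 : ℝ)).2 ≠ 0)) = true := fun j => by simp
  have r0 : (KD_row (n + 1) (RWW n m) (cWW n m) 0).filter (fun t => t.2 ≠ 0) =
      (List.range (n + 1)).map (fun k => (2 * k + 2, (1 : ℝ))) := by
    rw [← KD_row0 (fun t => decide (t.2 ≠ 0)) p0 p1]
    congr 1
    unfold KD_row
    apply List.map_congr_left
    intro i hi
    rw [List.mem_range] at hi
    rw [KD_jj0 (by omega)]
    congr 1
    by_cases h : i % 2 = 1
    · rw [if_pos h]
      refine KD_P_one (fun h2 => by rw [hR] at h2; omega) ?_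
      rw [KD_ltr (hc _ _ (by omega) (by omega) (by omega))]
      omega
    · rw [if_neg h]
      refine KD_P_zero (fun h2 => by rw [hR] at h2; omega) ?_
      rw [KD_ltr (hc _ _ (by omega) (by omega) (by omega))]
      omega
  have r1 : (KD_row (n + 1) (RWW n m) (cWW n m) 1).filter (fun t => t.2 ≠ 0) = [(2 * n + 2, (1 : ℝ))] := by
    unfold KD_row
    have e : 2 * (n + 1) = 2 * n + 1 + 1 := by ring
    rw [e, List.range_succ_eq_map, List.map_cons, List.map_map, List.filter_cons]
    have l1 : jj (n + 1) 1 0 = 2 * n + 2 := by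
      rw [KD_jj1 (by omega)]
      omega
    have l1' : KD_P (RWW n m) (cWW n m) (2 * n + 2, 1) = 1 := by
      refine KD_P_one (fun h2 => by rw [hR] at h2; omega) ?_
      rw [KD_ltr (hc _ _ (by omega) (by omega) (by omega))]
      omega
    have l2 : (List.map ((fun i => (jj (n + 1) 1 i, KD_P (RWW n m) (cWW n m) (jj (n + 1) 1 i, 1))) ∘ Nat.succ)
        (List.range (2 * n + 1))).filter (fun t => t.2 ≠ 0) = [] := by
      rw [List.filter_eq_nil_iff]
      intro t ht
      rw [List.mem_map] at ht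
      obtain ⟨i, hi, rfl⟩ := ht
      rw [List.mem_range] at hi
      have e2 : jj (n + 1) 1 (i + 1) = 2 * n + 1 - i := by
        rw [KD_jj1 (by omega)]
        omega
      have e3 : KD_P (RWW n m) (cWW n m) (2 * n + 1 - i, 1) = 0 := by
        refine KD_P_zero (fun h2 => by rw [hR] at h2; omega) ?_
        rw [KD_ltr (hc _ _ (by omega) (by omega) (by omega))]
        omega
      simp only [Function.comp, Nat.succ_eq_add_one, e2, e3]
      simp
    rw [l1, l1', l2]
    simp
  have hQ : ∀ k, k < m →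
      (KD_row (n + 1) (RWW n m) (cWW n m) (2 * k + 2)).filter (fun t => t.2 ≠ 0) ++
      (KD_row (n + 1) (RWW n m) (cWW n m) (2 * k + 1 + 2)).filter (fun t => t.2 ≠ 0) =
      (Q2 n).map (fun t => (t.1 + 1, t.2)) := by
    intro k hk
    unfold Q2
    rw [List.map_append, List.map_cons, List.map_map, List.map_map]
    congr 1
    · unfold KD_row
      have e : 2 * (n + 1) = 2 * n + 1 + 1 := by ring
      rw [e, List.range_succ, List.map_append, List.range_succ_eq_map, List.map_cons, List.map_map,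
        List.filter_append, List.filter_cons]
      have l0 : KD_P (RWW n m) (cWW n m) (jj (n + 1) (2 * k + 2) 0, 2 * k + 2) = 0 := by
        rw [KD_jj0 (by omega)]
        refine KD_P_zero (fun h2 => by rw [hR] at h2; omega) ?_
        rw [KD_ltr (hc _ _ (by omega) (by omega) (by omega))]
        omega
      have l3 : KD_P (RWW n m) (cWW n m) (jj (n + 1) (2 * k + 2) (2 * n + 1), 2 * k + 2) = 0 := by
        rw [KD_jj0 (by omega)]
        refine KD_P_zero (fun h2 => by rw [hR] at h2; omega) ?_
        rw [KD_ltr (hc _ _ (by omega) (by omega) (by omega))]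
        omega
      have l1 : List.map ((fun i => (jj (n + 1) (2 * k + 2) i, KD_P (RWW n m) (cWW n m)
          (jj (n + 1) (2 * k + 2) i, 2 * k + 2))) ∘ Nat.succ) (List.range (2 * n)) =
          (List.range (2 * n)).map (fun k => (k + 2, (1 / 2 : ℝ))) := by
        apply List.map_congr_left
        intro i hi
        rw [List.mem_range] at hi
        simp only [Function.comp]
        rw [KD_jj0 (by omega), KD_P_half ((hR _ _).2 ⟨⟨by omega, by omega⟩, ⟨by omega, by omega⟩⟩)]
      rw [List.map_cons, List.map_nil, l1, KD_filter_half _ p2, l0, l3]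
      simp [Function.comp]
    · unfold KD_row
      have e : 2 * (n + 1) = 2 * n + 1 + 1 := by ring
      rw [e, List.range_succ, List.map_append, List.range_succ_eq_map, List.map_cons, List.map_map,
        List.filter_append, List.filter_cons]
      have l0' : jj (n + 1) (2 * k + 1 + 2) 0 = 2 * n + 2 := by
        rw [KD_jj1 (by omega)]
        omega
      have l0 : KD_P (RWW n m) (cWW n m) (2 * n + 2, 2 * k + 1 + 2) = 1 := by
        refine KD_P_one (fun h2 => by rw [hR] at h2; omega) ?_
        rw [KD_ltr (hc _ _ (by omega) (by omega) (by omega))]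
        omega
      have l3' : jj (n + 1) (2 * k + 1 + 2) (2 * n + 1) = 1 := by
        rw [KD_jj1 (by omega)]
        omega
      have l3 : KD_P (RWW n m) (cWW n m) (1, 2 * k + 1 + 2) = 0 := by
        refine KD_P_zero (fun h2 => by rw [hR] at h2; omega) ?_
        rw [KD_ltr (hc _ _ (by omega) (by omega) (by omega))]
        omega
      have l1 : List.map ((fun i => (jj (n + 1) (2 * k + 1 + 2) i, KD_P (RWW n m) (cWW n m)
          (jj (n + 1) (2 * k + 1 + 2) i, 2 * k + 1 + 2))) ∘ Nat.succ) (List.range (2 * n)) =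
          (List.range (2 * n)).map (fun k => (2 * n - k + 1, (1 / 2 : ℝ))) := by
        apply List.map_congr_left
        intro i hi
        rw [List.mem_range] at hi
        simp only [Function.comp]
        have e2 : jj (n + 1) (2 * k + 1 + 2) (i.succ) = 2 * n - i + 1 := by
          rw [KD_jj1 (by omega)]
          omega
        rw [e2, KD_P_half ((hR _ _).2 ⟨⟨by omega, by omega⟩, ⟨by omega, by omega⟩⟩)]
      rw [List.map_cons, List.map_nil, l1, KD_filter_half _ p2, l0', l0, l3', l3]
      simp [Function.comp]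
  rw [KD_tlL (by omega), List.filter_flatMap]
  have e : List.range (2 * m + 2) = [0, 1] ++ (List.range (2 * m)).map (fun h => h + 2) := by
    rw [List.range_succ_eq_map, List.range_succ_eq_map, List.map_cons, List.map_map]
    rfl
  rw [e, List.flatMap_append, List.flatMap_map]
  have e2 := KD_rep (fun h => (KD_row (n + 1) (RWW n m) (cWW n m) (h + 2)).filter (fun t => t.2 ≠ 0))
    ((Q2 n).map (fun t => (t.1 + 1, t.2))) m hQ
  have e3 : ∀ l : List (ℕ × ℝ), ∀ m : ℕ, rep (l.map (fun t => (t.1 + 1, t.2))) m =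
      (rep l m).map (fun t => (t.1 + 1, t.2)) := by
    intro l m
    induction m with
    | zero => rfl
    | succ m ih => rw [KD_rep_succ, KD_rep_succ, ih, List.map_append]
  rw [e2, e3]
  have e4 : [0, 1].flatMap (fun a => (KD_row (n + 1) (RWW n m) (cWW n m) a).filter (fun t => t.2 ≠ 0)) =
      (List.range (n + 1)).map (fun k => (2 * k + 2, (1 : ℝ))) ++ [(2 * n + 2, (1 : ℝ))] := by
    rw [List.flatMap_cons, List.flatMap_cons, List.flatMap_nil, List.append_nil, r0, r1]
  rw [e4, List.append_assoc]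
  rfl

end NX
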