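import Pool.Agent.Lib.MP_216314_pr.N.SI

/-!
# Odd and even loops

`od P σ`: number of odd left ends. `od_act`: if `σ i ≠ i + 1`, let `a = σ i`, `b = σ (i+1)`; `a ≢ i`, `b ≢ i + 1` mod 2 (`Rl_parity0`-type: an arc of a noncrossing involution joins points of different parity; prove or derive from `QS.Rl_parity0`:
the arc `(x, σ x)` encloses a preserved set). The three cases `b < a < i`; `a < i`, `i+1 < b`; `i+1 < b < a` each give `od (act i σ) = od σ ± 1` (`+` for odd `i`).
`EL_oe`: induction on `l`: `EL cO l σ - EL cE l σ - ∑ ± β` is the mean of `od σ - od σ'` (`σ'` the final state), and `0 ≤ od ≤ P`.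
-/

set_option autoImplicit false

noncomputable section

namespace NX

open Finset QS

/-- number of odd left ends -/
def od (P : ℕ) (σ : ℕ → ℕ) : ℕ := ((Icc 1 P).filter (fun x => x % 2 = 1 ∧ x < σ x)).card

private theorem SIo_key (i a b : ℕ) (pa : i % 2 ≠ a % 2) (pb : (i + 1) % 2 ≠ b % 2)
    (hcase : (b < a ∧ a < i) ∨ (a < i ∧ i + 1 < b) ∨ (i + 1 < b ∧ b < a)) :
    ((if i % 2 = 1 ∧ i < i + 1 then (1 : ℤ) else 0) - (if i % 2 = 1 ∧ i < a then 1 else 0)) +
      (((if (i + 1) % 2 = 1 ∧ i + 1 < i then (1 : ℤ) else 0) -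
        (if (i + 1) % 2 = 1 ∧ i + 1 < b then 1 else 0)) +
      (((if a % 2 = 1 ∧ a < b then (1 : ℤ) else 0) -
        (if a % 2 = 1 ∧ a < i then 1 else 0)) +
      ((if b % 2 = 1 ∧ b < a then (1 : ℤ) else 0) -
        (if b % 2 = 1 ∧ b < i + 1 then 1 else 0)))) =
      if i % 2 = 1 then 1 else -1 := by
  rcases Nat.mod_two_eq_zero_or_one i with hm | hm
  · have ma : a % 2 = 1 := by omega
    have mb : b % 2 = 0 := by omega
    have m1 : (i + 1) % 2 = 1 := by omega
    simp only [hm, ma, mb, m1]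
    rcases hcase with ⟨c1, c2⟩ | ⟨c1, c2⟩ | ⟨c1, c2⟩
    · simp [c2, show ¬ (i + 1 < i) by omega, show ¬ (i + 1 < b) by omega, show ¬ (a < b) by omega]
    · simp [c1, c2, show ¬ (i + 1 < i) by omega, show a < b by omega]
    · simp [c1, show ¬ (i + 1 < i) by omega, show ¬ (a < b) by omega, show ¬ (a < i) by omega]
  · have ma : a % 2 = 0 := by omega
    have mb : b % 2 = 1 := by omega
    have m1 : (i + 1) % 2 = 0 := by omega
    simp only [hm, ma, mb, m1]
    rcases hcase with ⟨c1, c2⟩ | ⟨c1, c2⟩ | ⟨c1, c2⟩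
    · simp [c1, show i < i + 1 by omega, show ¬ (i < a) by omega, show b < i + 1 by omega]
    · simp [show i < i + 1 by omega, show ¬ (i < a) by omega, show ¬ (b < i + 1) by omega,
        show ¬ (b < a) by omega]
    · simp [c2, show i < i + 1 by omega, show i < a by omega, show ¬ (b < i + 1) by omega]

private def SIo_g (σ : ℕ → ℕ) (x : ℕ) : ℤ := if x % 2 = 1 ∧ x < σ x then 1 else 0

private theorem SIo_od (P : ℕ) (σ : ℕ → ℕ) : (od P σ : ℤ) = ∑ x ∈ Icc 1 P, SIo_g σ x := by
  unfold od SIo_g
  rw [Finset.card_filter]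
  push_cast
  rfl

private theorem SIo_par1 {P x : ℕ} {σ : ℕ → ℕ} (h : IsNC P σ) (h1 : 1 ≤ x) (h2 : x ≤ P)
    (hx : x < σ x) : x % 2 ≠ σ x % 2 := by
  have h3 := h.1 x h1 h2
  have h4 : Rl0 σ (x - 1) (σ x) := by
    refine ⟨by omega, fun y hy1 hy2 => ?_⟩
    rcases Nat.lt_trichotomy y x with c | c | c
    · omega
    · subst c
      omega
    · rcases Nat.lt_or_ge y (σ x) with c2 | c2
      · have := h.2 x y h1 c c2 h3.2.1
        omega
      · have : y = σ x := by omega
        subst this
        rw [h3.2.2.2]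
        omega
  have h5 := Rl_parity0 h h3.2.1 h4
  omega

private theorem SIo_par {P x : ℕ} {σ : ℕ → ℕ} (h : IsNC P σ) (h1 : 1 ≤ x) (h2 : x ≤ P) :
    x % 2 ≠ σ x % 2 := by
  have h3 := h.1 x h1 h2
  rcases Nat.lt_or_ge x (σ x) with c | c
  · exact SIo_par1 h h1 h2 c
  · have h4 := SIo_par1 h h3.1 h3.2.1 (by rw [h3.2.2.2]; omega)
    rw [h3.2.2.2] at h4
    exact h4.symm

theorem od_act {P i : ℕ} {σ : ℕ → ℕ} (h : IsNC P σ) (h1 : 1 ≤ i) (h2 : i < P) :
    (od P (act i σ) : ℤ) = od P σ + (if σ i = i + 1 then 0 else if i % 2 = 1 then 1 else -1) := by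
  by_cases hc : σ i = i + 1
  · have e : act i σ = σ := by
      funext x
      unfold act
      rw [if_pos hc]
    rw [e, if_pos hc, add_zero]
  rw [if_neg hc]
  have hi := h.1 i h1 h2.le
  have hq := h.1 (i + 1) (by omega) (by omega)
  have pa := SIo_par h h1 h2.le
  have pb := SIo_par h (x := i + 1) (by omega) (by omega)
  have ha := h.1 (σ i) hi.1 hi.2.1
  have hb := h.1 (σ (i + 1)) hq.1 hq.2.1
  have hqi : σ (i + 1) ≠ i := by
    intro g
    rw [g] at hq
    omega
  have hpq : σ i ≠ σ (i + 1) := by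
    intro g
    rw [← g] at hq
    omega
  have hcase : (σ (i + 1) < σ i ∧ σ i < i) ∨ (σ i < i ∧ i + 1 < σ (i + 1)) ∨
      (i + 1 < σ (i + 1) ∧ σ (i + 1) < σ i) := by
    rcases Nat.lt_or_ge (σ i) i with c1 | c1
    · rcases Nat.lt_or_ge (σ (i + 1)) i with c2 | c2
      · left
        refine ⟨?_, c1⟩
        by_contra c3
        have h3 := h.2 (σ i) (σ (i + 1)) hi.1 (by omega) (by omega) (by omega)
        omega
      · right; left
        exact ⟨c1, by omega⟩
    · have c3 : i + 1 < σ i := by omega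
      have h3 := h.2 i (i + 1) h1 (by omega) c3 hi.2.1
      right; right
      exact ⟨by omega, h3.2⟩
  rw [SIo_od, SIo_od]
  have hsub : ({i, i + 1, σ i, σ (i + 1)} : Finset ℕ) ⊆ Icc 1 P := by
    intro x hx
    simp only [Finset.mem_insert, Finset.mem_singleton] at hx
    rw [Finset.mem_Icc]
    rcases hx with rfl | rfl | rfl | rfl
    · exact ⟨h1, h2.le⟩
    · exact ⟨by omega, by omega⟩
    · exact ⟨hi.1, hi.2.1⟩
    · exact ⟨hq.1, hq.2.1⟩
  have hdiff : ∑ x ∈ Icc 1 P, (SIo_g (act i σ) x - SIo_g σ x) =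
      ∑ x ∈ ({i, i + 1, σ i, σ (i + 1)} : Finset ℕ), (SIo_g (act i σ) x - SIo_g σ x) := by
    symm
    refine Finset.sum_subset hsub fun x hx hx2 => ?_
    simp only [Finset.mem_insert, Finset.mem_singleton, not_or] at hx2
    have e : act i σ x = σ x := by
      unfold act
      rw [if_neg hc, if_neg hx2.1, if_neg hx2.2.1, if_neg hx2.2.2.1, if_neg hx2.2.2.2]
    unfold SIo_g
    rw [e, sub_self]
  rw [Finset.sum_sub_distrib] at hdiff
  have e0 : act i σ i = i + 1 := by
    unfold act
    rw [if_neg hc, if_pos rfl]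
  have e1 : act i σ (i + 1) = i := by
    unfold act
    rw [if_neg hc, if_neg (by omega), if_pos rfl]
  have e2 : act i σ (σ i) = σ (i + 1) := by
    unfold act
    rw [if_neg hc, if_neg (by omega), if_neg (by omega), if_pos rfl]
  have e3 : act i σ (σ (i + 1)) = σ i := by
    unfold act
    rw [if_neg hc, if_neg (by omega), if_neg (by omega), if_neg (by omega), if_pos rfl]
  rw [Finset.sum_insert (by simp only [Finset.mem_insert, Finset.mem_singleton]; omega),
    Finset.sum_insert (by simp only [Finset.mem_insert, Finset.mem_singleton]; omega),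
    Finset.sum_insert (by simp only [Finset.mem_singleton]; omega),
    Finset.sum_singleton] at hdiff
  unfold SIo_g at hdiff ⊢
  rw [e0, e1, e2, e3, hi.2.2.2, hq.2.2.2] at hdiff
  rw [SIo_key i (σ i) (σ (i + 1)) pa pb hcase] at hdiff
  linarith

theorem EL_oe {P : ℕ} (l : List (ℕ × ℝ)) (hl : Adp P l) (σ : ℕ → ℕ) (h : IsNC P σ) :
    |EL cO l σ - EL cE l σ - (l.map (fun t => if t.1 % 2 = 1 then t.2 else -t.2)).sum| ≤ P := by
  have hod : ∀ σ : ℕ → ℕ, (od P σ : ℝ) ≤ P := by
    intro σ
    have h1 : od P σ ≤ P := by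
      unfold od
      refine (Finset.card_filter_le _ _).trans ?_
      rw [Nat.card_Icc]
      omega
    exact_mod_cast h1
  have key : ∀ (l : List (ℕ × ℝ)), Adp P l → ∀ σ, IsNC P σ →
      -(P : ℝ) ≤ EL cO l σ - EL cE l σ - (l.map (fun t => if t.1 % 2 = 1 then t.2 else -t.2)).sum
        - od P σ ∧
      EL cO l σ - EL cE l σ - (l.map (fun t => if t.1 % 2 = 1 then t.2 else -t.2)).sum
        - od P σ ≤ 0 := by
    intro l
    induction l with
    | nil =>
      intro _ σ _
      simp only [EL, List.map_nil, List.sum_nil, sub_self, zero_sub]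
      have h1 := hod σ
      have h2 : (0 : ℝ) ≤ od P σ := Nat.cast_nonneg _
      constructor
      · linarith
      · linarith
    | cons t l ih =>
      intro hl σ hσ
      have hl' : Adp P l := fun u hu => hl u (List.mem_cons_of_mem _ hu)
      obtain ⟨ht1, ht2, ht3, ht4⟩ := hl t List.mem_cons_self
      have i1 := ih hl' σ hσ
      have i2 := ih hl' (act t.1 σ) (act_nc hσ ht1 ht2)
      have ho := congrArg (Int.cast : ℤ → ℝ) (od_act hσ ht1 ht2)
      push_cast at ho
      simp only [EL, List.map_cons, List.sum_cons]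
      generalize (l.map (fun t => if t.1 % 2 = 1 then t.2 else -t.2)).sum = S at *
      generalize EL cO l σ = x1 at *
      generalize EL cE l σ = x2 at *
      generalize EL cO l (act t.1 σ) = y1 at *
      generalize EL cE l (act t.1 σ) = y2 at *
      have e1 : (1 - t.2) * x1 + t.2 * ((if σ t.1 = t.1 + 1 then cO t.1 else 0) + y1) -
          ((1 - t.2) * x2 + t.2 * ((if σ t.1 = t.1 + 1 then cE t.1 else 0) + y2)) -
          ((if t.1 % 2 = 1 then t.2 else -t.2) + S) - od P σ =
          (1 - t.2) * (x1 - x2 - S - od P σ) + t.2 * (y1 - y2 - S - od P (act t.1 σ)) := by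
        rw [ho]
        by_cases c1 : σ t.1 = t.1 + 1
        · simp only [if_pos c1]
          unfold cO cE
          rcases Nat.mod_two_eq_zero_or_one t.1 with hm | hm
          · simp only [hm]
            norm_num
            ring
          · simp only [hm]
            norm_num
            ring
        · simp only [if_neg c1]
          rcases Nat.mod_two_eq_zero_or_one t.1 with hm | hm
          · simp only [hm]
            norm_num
            ring
          · simp only [hm]
            norm_num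
            ring
      rw [e1]
      constructor
      · nlinarith [mul_le_mul_of_nonneg_left i1.1 (show (0:ℝ) ≤ 1 - t.2 by linarith),
          mul_le_mul_of_nonneg_left i2.1 ht3]
      · nlinarith [mul_le_mul_of_nonneg_left i1.2 (show (0:ℝ) ≤ 1 - t.2 by linarith),
          mul_le_mul_of_nonneg_left i2.2 ht3]
  have h1 := key l hl σ h
  have h2 := hod σ
  have h3 : (0 : ℝ) ≤ od P σ := Nat.cast_nonneg _
  rw [abs_le]
  constructor
  · linarith [h1.1]
  · linarith [h1.2]

end NX
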