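import Pool.Agent.Lib.MP_216314_pr.N.KD
import Pool.Agent.Lib.MP_216314_pr.N.SIo

/-!
# The means of the loops closed at even letters in the three processes

`EL_WW`: in the wired strip the first row brings `sg0` to the shifted involution `upS (2n+2) sg0` (on `{1..2n+4}`: arcs `(1,2n+4), (2,3), ..., (2n+2,2n+3)`; after the letters `2, ..., 2k`: arcs `(2,3),...,(2k,2k+1),(1,2k+2)`, the others as in `sg0`), none of these letters closes a loop (weight zero or one, in any case the sum is between `0` and `n+1`);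
the letter `2n+2` of row 1 closes a loop and changes nothing; then `EL_shift` and `EL_congr`. `cE (i+1) = cO i`.
`EL_Q1_oe`: `EL_oe` for `m` periods of `Q1 n`: the odd and the even letters have the same total probability. Everything is an inequality with a constant which does not depend on `m`.
-/

set_option autoImplicit false

noncomputable section

namespace NX

open Finset QS FKH Classical

theorem KE_rep_mem {l : List (ℕ × ℝ)} {m : ℕ} {t : ℕ × ℝ} (h : t ∈ rep l m) : t ∈ l := by
  unfold rep at h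
  rw [List.mem_flatten] at h
  obtain ⟨l', h1, h2⟩ := h
  rw [List.mem_replicate] at h1
  rw [← h1.2]
  exact h2

theorem KE_adp_Q1 (n m : ℕ) : Adp (2 * n + 2) (rep (Q1 n) m) := by
  intro t ht
  have h := KE_rep_mem ht
  unfold Q1 at h
  rw [List.mem_append, List.mem_map, List.mem_map] at h
  rcases h with ⟨k, hk, rfl⟩ | ⟨k, hk, rfl⟩
  · rw [List.mem_range] at hk
    refine ⟨by dsimp only; omega, by dsimp only; omega, by norm_num, by norm_num⟩
  · rw [List.mem_range] at hk
    refine ⟨by dsimp only; omega, by dsimp only; omega, by norm_num, by norm_num⟩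

theorem KE_adp_Q2 (n m : ℕ) : Adp (2 * n + 2) (rep (Q2 n) m) := by
  intro t ht
  have h := KE_rep_mem ht
  unfold Q2 at h
  rw [List.mem_append, List.mem_cons, List.mem_map, List.mem_map] at h
  rcases h with ⟨k, hk, rfl⟩ | rfl | ⟨k, hk, rfl⟩
  · rw [List.mem_range] at hk
    refine ⟨by dsimp only; omega, by dsimp only; omega, by norm_num, by norm_num⟩
  · refine ⟨by dsimp only; omega, by dsimp only; omega, by norm_num, by norm_num⟩
  · rw [List.mem_range] at hk
    refine ⟨by dsimp only; omega, by dsimp only; omega, by norm_num, by norm_num⟩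

theorem KE_sum (l : List (ℕ × ℝ)) : ∀ σ : ℕ → ℕ, EL (fun _ => 1) l σ = EL cE l σ + EL cO l σ := by
  induction l with
  | nil => intro σ; simp only [EL]; norm_num
  | cons t l ih =>
    intro σ
    simp only [EL]
    rw [ih σ, ih (act t.1 σ)]
    have h := cEO t.1
    by_cases h1 : σ t.1 = t.1 + 1
    · rw [if_pos h1, if_pos h1, if_pos h1]
      linear_combination (-t.2) * h
    · rw [if_neg h1, if_neg h1, if_neg h1]
      ring

/-- the state after the letters `2, 4, ..., 2k` -/
def KE_St (k : ℕ) : ℕ → ℕ := fun x =>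
  if x = 1 then 2 * k + 2 else if x = 2 * k + 2 then 1
  else if 2 ≤ x ∧ x ≤ 2 * k + 1 then (if x % 2 = 0 then x + 1 else x - 1) else sg0 x

theorem KE_St_zero : KE_St 0 = sg0 := by
  funext x
  unfold KE_St sg0
  split_ifs <;> omega

theorem KE_St_succ (k : ℕ) : act (2 * k + 2) (KE_St k) = KE_St (k + 1) := by
  have h1 : KE_St k (2 * k + 2) = 1 := by
    unfold KE_St
    rw [if_neg (by omega), if_pos rfl]
  have h2 : KE_St k (2 * k + 2 + 1) = 2 * k + 4 := by
    unfold KE_St sg0
    rw [if_neg (by omega), if_neg (by omega), if_neg (by omega), if_pos (by omega)]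
  funext x
  unfold act
  rw [h1, h2, if_neg (by omega)]
  unfold KE_St sg0
  split_ifs <;> omega

theorem KE_St_nc (n : ℕ) : ∀ k, k ≤ n + 1 → IsNC (2 * n + 2 + 2) (KE_St k) := by
  intro k
  induction k with
  | zero =>
    intro _
    rw [KE_St_zero]
    exact sg0_nc (n + 1)
  | succ k ih =>
    intro hk
    rw [← KE_St_succ]
    exact act_nc (ih (by omega)) (by omega) (by omega)

theorem KE_cons (i : ℕ) (l : List (ℕ × ℝ)) (σ : ℕ → ℕ) :
    ∃ a : ℝ, 0 ≤ a ∧ a ≤ 1 ∧ EL cE ((i, (1 : ℝ)) :: l) σ = a + EL cE l (act i σ) := by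
  refine ⟨if σ i = i + 1 then cE i else 0, ?_, ?_, ?_⟩
  · unfold cE
    split_ifs <;> norm_num
  · unfold cE
    split_ifs <;> norm_num
  · simp only [EL]
    ring

theorem KE_first (k : ℕ) : ∀ l : List (ℕ × ℝ), ∃ a : ℝ, 0 ≤ a ∧ a ≤ k ∧
    EL cE ((List.range k).map (fun k => (2 * k + 2, (1 : ℝ))) ++ l) sg0 = a + EL cE l (KE_St k) := by
  induction k with
  | zero =>
    intro l
    refine ⟨0, le_rfl, by norm_num, ?_⟩
    rw [KE_St_zero, List.range_zero, List.map_nil, List.nil_append, zero_add]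
  | succ k ih =>
    intro l
    obtain ⟨a, ha0, ha1, ha⟩ := ih ((2 * k + 2, (1 : ℝ)) :: l)
    obtain ⟨b, hb0, hb1, hb⟩ := KE_cons (2 * k + 2) l (KE_St k)
    refine ⟨a + b, by linarith, by push_cast; linarith, ?_⟩
    rw [List.range_succ, List.map_append, List.append_assoc, List.map_cons, List.map_nil,
      List.singleton_append, ha, hb, KE_St_succ, add_assoc]

theorem KE_sgn1 (n : ℕ) : ((List.range (2 * n)).map (fun k => if (k + 1) % 2 = 1 then (1 / 2 : ℝ) else -(1 / 2))).sum = 0 := by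
  induction n with
  | zero => simp
  | succ n ih =>
    have e : 2 * (n + 1) = 2 * n + 1 + 1 := by ring
    rw [e, List.range_succ, List.range_succ, List.map_append, List.map_append, List.sum_append, List.sum_append,
      ih, List.map_cons, List.map_nil, List.map_cons, List.map_nil, List.sum_cons, List.sum_nil, List.sum_cons,
      List.sum_nil, if_pos (by omega), if_neg (by omega)]
    ring

theorem KE_sgn2 (n : ℕ) : ((List.range (2 * n)).map (fun k => if k % 2 = 1 then (1 / 2 : ℝ) else -(1 / 2))).sum = 0 := by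
  induction n with
  | zero => simp
  | succ n ih =>
    have e : 2 * (n + 1) = 2 * n + 1 + 1 := by ring
    rw [e, List.range_succ, List.range_succ, List.map_append, List.map_append, List.sum_append, List.sum_append,
      ih, List.map_cons, List.map_nil, List.map_cons, List.map_nil, List.sum_cons, List.sum_nil, List.sum_cons,
      List.sum_nil, if_neg (by omega), if_pos (by omega)]
    ring

theorem KE_sgnQ (n : ℕ) : ((Q1 n).map (fun t => if t.1 % 2 = 1 then t.2 else -t.2)).sum = 0 := by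
  unfold Q1
  rw [List.map_append, List.sum_append, List.map_map, List.map_map]
  have h1 : (List.range (2 * n)).map ((fun t : ℕ × ℝ => if t.1 % 2 = 1 then t.2 else -t.2) ∘ fun k => (k + 1, (1 / 2 : ℝ))) =
      (List.range (2 * n)).map (fun k => if (k + 1) % 2 = 1 then (1 / 2 : ℝ) else -(1 / 2)) := rfl
  have h2 : (List.range (2 * n)).map ((fun t : ℕ × ℝ => if t.1 % 2 = 1 then t.2 else -t.2) ∘ fun k => (2 * n - k, (1 / 2 : ℝ))) =
      (List.range (2 * n)).map (fun k => if k % 2 = 1 then (1 / 2 : ℝ) else -(1 / 2)) := by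
    refine List.map_congr_left fun k hk => ?_
    rw [List.mem_range] at hk
    change (if (2 * n - k) % 2 = 1 then (1 / 2 : ℝ) else -(1 / 2)) = _
    by_cases h : k % 2 = 1
    · rw [if_pos h, if_pos (by omega)]
    · rw [if_neg h, if_neg (by omega)]
  rw [h1, h2, KE_sgn1, KE_sgn2, add_zero]

theorem KE_sgn (n m : ℕ) : ((rep (Q1 n) m).map (fun t => if t.1 % 2 = 1 then t.2 else -t.2)).sum = 0 := by
  induction m with
  | zero => rw [rep_zero, List.map_nil, List.sum_nil]
  | succ m ih => rw [rep_succ, List.map_append, List.sum_append, KE_sgnQ, ih, add_zero]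

theorem EL_FW {n : ℕ} (hn : 1 ≤ n) (m : ℕ) : EL cE (tlL n (tls n (2 * m)) ∅ (2 * n * (2 * m))) sg0 = EL cE (rep (Q1 n) m) sg0 := by
  rw [list_FW hn m]

theorem EL_FF {n : ℕ} (hn : 1 ≤ n) (m : ℕ) :
    EL cE (tlL (n + 1) (tls n (2 * m)) (cFF n (2 * m)) (2 * (n + 1) * (2 * m))) sg0 = EL cE (rep (Q2 n) m) sg0 := by
  rw [← EL_pos, list_FF hn m]

theorem EL_WW {n : ℕ} (hn : 1 ≤ n) (m : ℕ) :
    |EL cE (tlL (n + 1) (RWW n m) (cWW n m) (2 * (n + 1) * (2 * m + 2))) sg0 - EL cO (rep (Q2 n) m) sg0| ≤ n + 2 := by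
  rw [← EL_pos, list_WW hn m]
  obtain ⟨a, ha0, ha1, ha⟩ := KE_first (n + 1) ((2 * n + 2, (1 : ℝ)) :: (rep (Q2 n) m).map (fun t => (t.1 + 1, t.2)))
  obtain ⟨b, hb0, hb1, hb⟩ := KE_cons (2 * n + 2) ((rep (Q2 n) m).map (fun t => (t.1 + 1, t.2))) (KE_St (n + 1))
  have h1 : act (2 * n + 2) (KE_St (n + 1)) = KE_St (n + 1) := by
    have h2 : KE_St (n + 1) (2 * n + 2) = 2 * n + 2 + 1 := by
      unfold KE_St
      rw [if_neg (by omega), if_neg (by omega), if_pos (by omega), if_pos (by omega)]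
    funext x
    unfold act
    rw [if_pos h2]
  have h3 : EL cE ((rep (Q2 n) m).map (fun t => (t.1 + 1, t.2))) (KE_St (n + 1)) =
      EL cE ((rep (Q2 n) m).map (fun t => (t.1 + 1, t.2))) (upS (2 * n + 2) sg0) := by
    refine EL_congr (P := 2 * n + 2 + 2) cE _ ?_ _ _ (KE_St_nc n (n + 1) le_rfl) (upS_nc (sg0_nc n)) ?_
    · intro t ht
      rw [List.mem_map] at ht
      obtain ⟨t', ht', rfl⟩ := ht
      obtain ⟨g1, g2, g3, g4⟩ := KE_adp_Q2 n m t' ht'
      exact ⟨by dsimp only; omega, by dsimp only; omega, g3, g4⟩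
    · intro x hx1 hx2
      unfold KE_St upS sg0
      split_ifs <;> omega
  have h4 := EL_shift cE (rep (Q2 n) m) (KE_adp_Q2 n m) sg0 (sg0_nc n)
  have h5 : (fun i => cE (i + 1)) = cO := by
    funext i
    unfold cE cO
    by_cases h : i % 2 = 1
    · rw [if_pos h, if_pos (by omega)]
    · rw [if_neg h, if_neg (by omega)]
  rw [ha, hb, h1, h3, h4, h5]
  push_cast at ha1
  rw [abs_le]
  constructor
  · have : (0 : ℝ) ≤ n := Nat.cast_nonneg n
    linarith
  · linarith

theorem EL_Q1_oe (n m : ℕ) : |EL (fun _ => 1) (rep (Q1 n) m) sg0 - 2 * EL cE (rep (Q1 n) m) sg0| ≤ 2 * n + 2 := by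
  have h1 := EL_oe (P := 2 * n + 2) (rep (Q1 n) m) (KE_adp_Q1 n m) sg0 (sg0_nc n)
  rw [KE_sgn, sub_zero] at h1
  push_cast at h1
  rw [KE_sum]
  have e : EL cE (rep (Q1 n) m) sg0 + EL cO (rep (Q1 n) m) sg0 - 2 * EL cE (rep (Q1 n) m) sg0 =
      EL cO (rep (Q1 n) m) sg0 - EL cE (rep (Q1 n) m) sg0 := by ring
  rw [e]
  exact h1

theorem EL_Q2_sum (n m : ℕ) : EL (fun _ => 1) (rep (Q2 n) m) sg0 = EL cE (rep (Q2 n) m) sg0 + EL cO (rep (Q2 n) m) sg0 :=
  KE_sum _ _

end NX
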