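import Pool.Agent.Lib.MP_216314_pr.N.KB

/-!
# Clusters with wired sides

`Cw W c`: connected by the open tiles `c`, all the sites of `W` being identified. `WA`: the left column `X = 1`, `WB n`: the right column `X = 2n+1` (all heights). `Cw (WB n) c = Cn n c` (same definition).
`Cw_wire`: `Cw W c u v` iff `Cw ∅ c u v` or both `u` and `v` are connected to `W`. `Cw_insert`: like `FKH.Cn_insert`. `Cw_stay`: for `c ⊆ tls n H` the sites connected to a site of `sts n H` are in `sts n H`.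
`cr_strip`: `cr_identity` with `A`, `B` the sites of `sts n H` in the first and last column; use `nk_congr`/`cr_congr` to replace `Cw WA c` etc. by relations which have the form required in `cr_identity` (they agree on `sts n H` by `Cw_wire` and `Cw_stay`).
`nk_lip`: adding the tiles of `c' \ c` one by one (`Finset.induction_on`), `nk_edge`, `Cw_insert`, `ends_mem`.
-/

set_option autoImplicit false

noncomputable section

namespace NX

open Finset QS FKH Classical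

/-- connected, the sites of `W` being identified -/
def Cw (W : Set (ℕ × ℕ)) (c : Finset (ℕ × ℕ)) (u v : ℕ × ℕ) : Prop :=
  Relation.EqvGen (fun a b => (∃ t ∈ c, lo t = a ∧ hi t = b) ∨ (a ∈ W ∧ b ∈ W)) u v

def WA : Set (ℕ × ℕ) := {u | u.1 = 1 ∧ u.2 % 2 = 0}

def WB (n : ℕ) : Set (ℕ × ℕ) := {u | u.1 = 2 * n + 1 ∧ u.2 % 2 = 0}

/-- the sites of the first column -/
def sA (n H : ℕ) : Finset (ℕ × ℕ) := (sts n H).filter (fun u => u.1 = 1)

/-- the sites of the last column -/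
def sB (n H : ℕ) : Finset (ℕ × ℕ) := (sts n H).filter (fun u => u.1 = 2 * n + 1)

theorem Cw_B (n : ℕ) (c : Finset (ℕ × ℕ)) : Cw (WB n) c = Cn n c := rfl

theorem Cw_equiv (W : Set (ℕ × ℕ)) (c : Finset (ℕ × ℕ)) : Equivalence (Cw W c) :=
  ⟨fun _ => Relation.EqvGen.refl _, fun h => Relation.EqvGen.symm _ _ h,
    fun h h' => Relation.EqvGen.trans _ _ _ h h'⟩

theorem Cw_mono {W W' : Set (ℕ × ℕ)} {c c' : Finset (ℕ × ℕ)} (hW : W ⊆ W') (hc : c ⊆ c') {u v : ℕ × ℕ} (h : Cw W c u v) :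
    Cw W' c' u v := by
  induction h with
  | rel x y h =>
    refine Relation.EqvGen.rel _ _ ?_
    rcases h with ⟨t, ht, h1⟩ | ⟨h1, h2⟩
    · exact Or.inl ⟨t, hc ht, h1⟩
    · exact Or.inr ⟨hW h1, hW h2⟩
  | refl x => exact Relation.EqvGen.refl _
  | symm x y _ ih => exact Relation.EqvGen.symm _ _ ih
  | trans x y z _ _ ih1 ih2 => exact Relation.EqvGen.trans _ _ _ ih1 ih2

private theorem KF_refl (W : Set (ℕ × ℕ)) (c : Finset (ℕ × ℕ)) (u : ℕ × ℕ) : Cw W c u u :=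
  Relation.EqvGen.refl _

private theorem KF_symm {W : Set (ℕ × ℕ)} {c : Finset (ℕ × ℕ)} {u v : ℕ × ℕ} (h : Cw W c u v) : Cw W c v u :=
  Relation.EqvGen.symm _ _ h

private theorem KF_trans {W : Set (ℕ × ℕ)} {c : Finset (ℕ × ℕ)} {u v w : ℕ × ℕ} (h : Cw W c u v) (h' : Cw W c v w) :
    Cw W c u w := Relation.EqvGen.trans _ _ _ h h'

theorem Cw_wire (W : Set (ℕ × ℕ)) (c : Finset (ℕ × ℕ)) (u v : ℕ × ℕ) : Cw W c u v ↔ Cw ∅ c u v ∨
    ((∃ s ∈ W, Cw ∅ c u s) ∧ ∃ t ∈ W, Cw ∅ c v t) := by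
  constructor
  · intro h
    induction h with
    | rel x y h =>
      rcases h with ⟨t, ht, h1⟩ | ⟨h1, h2⟩
      · exact Or.inl (Relation.EqvGen.rel _ _ (Or.inl ⟨t, ht, h1⟩))
      · exact Or.inr ⟨⟨x, h1, KF_refl _ _ _⟩, ⟨y, h2, KF_refl _ _ _⟩⟩
    | refl x => exact Or.inl (KF_refl _ _ _)
    | symm x y _ ih =>
      rcases ih with h | ⟨h1, h2⟩
      · exact Or.inl (KF_symm h)
      · exact Or.inr ⟨h2, h1⟩
    | trans x y z _ _ ih1 ih2 =>
      rcases ih1 with h | ⟨h1, ⟨t, ht, h2⟩⟩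
      · rcases ih2 with h' | ⟨⟨s, hs, h1'⟩, h2'⟩
        · exact Or.inl (KF_trans h h')
        · exact Or.inr ⟨⟨s, hs, KF_trans h h1'⟩, h2'⟩
      · rcases ih2 with h' | ⟨_, h2'⟩
        · exact Or.inr ⟨h1, ⟨t, ht, KF_trans (KF_symm h') h2⟩⟩
        · exact Or.inr ⟨h1, h2'⟩
  · have h0 : ∀ {a b : ℕ × ℕ}, Cw ∅ c a b → Cw W c a b := fun h =>
      Cw_mono (Set.empty_subset _) (Finset.Subset.refl _) h
    rintro (h | ⟨⟨s, hs, h1⟩, ⟨t, ht, h2⟩⟩)
    · exact h0 h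
    · exact KF_trans (h0 h1) (KF_trans (Relation.EqvGen.rel _ _ (Or.inr ⟨hs, ht⟩)) (KF_symm (h0 h2)))

theorem Cw_insert (W : Set (ℕ × ℕ)) (c : Finset (ℕ × ℕ)) (t u v : ℕ × ℕ) : Cw W (insert t c) u v ↔ Cw W c u v ∨
    (Cw W c u (lo t) ∧ Cw W c (hi t) v) ∨ (Cw W c u (hi t) ∧ Cw W c (lo t) v) := by
  constructor
  · intro h
    induction h with
    | rel x y h =>
      rcases h with ⟨t', ht', h1, h2⟩ | h
      · rw [mem_insert] at ht'
        rcases ht' with ht' | ht'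
        · subst ht'
          rw [← h1, ← h2]
          exact Or.inr (Or.inl ⟨KF_refl _ _ _, KF_refl _ _ _⟩)
        · exact Or.inl (Relation.EqvGen.rel _ _ (Or.inl ⟨t', ht', h1, h2⟩))
      · exact Or.inl (Relation.EqvGen.rel _ _ (Or.inr h))
    | refl x => exact Or.inl (KF_refl _ _ _)
    | symm x y _ ih =>
      rcases ih with h | ⟨h1, h2⟩ | ⟨h1, h2⟩
      · exact Or.inl (KF_symm h)
      · exact Or.inr (Or.inr ⟨KF_symm h2, KF_symm h1⟩)
      · exact Or.inr (Or.inl ⟨KF_symm h2, KF_symm h1⟩)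
    | trans x y z _ _ ih1 ih2 =>
      rcases ih1 with h | ⟨h1, h2⟩ | ⟨h1, h2⟩
      · rcases ih2 with h' | ⟨h1', h2'⟩ | ⟨h1', h2'⟩
        · exact Or.inl (KF_trans h h')
        · exact Or.inr (Or.inl ⟨KF_trans h h1', h2'⟩)
        · exact Or.inr (Or.inr ⟨KF_trans h h1', h2'⟩)
      · rcases ih2 with h' | ⟨h1', h2'⟩ | ⟨h1', h2'⟩
        · exact Or.inr (Or.inl ⟨h1, KF_trans h2 h'⟩)
        · exact Or.inr (Or.inl ⟨h1, h2'⟩)
        · exact Or.inl (KF_trans h1 h2')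
      · rcases ih2 with h' | ⟨h1', h2'⟩ | ⟨h1', h2'⟩
        · exact Or.inr (Or.inr ⟨h1, KF_trans h2 h'⟩)
        · exact Or.inl (KF_trans h1 h2')
        · exact Or.inr (Or.inr ⟨h1, h2'⟩)
  · have hs : ∀ {a b : ℕ × ℕ}, Cw W c a b → Cw W (insert t c) a b := fun h =>
      Cw_mono (fun _ h => h) (subset_insert _ _) h
    have he : Cw W (insert t c) (lo t) (hi t) :=
      Relation.EqvGen.rel _ _ (Or.inl ⟨t, mem_insert_self _ _, rfl, rfl⟩)
    rintro (h | ⟨h1, h2⟩ | ⟨h1, h2⟩)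
    · exact hs h
    · exact KF_trans (KF_trans (hs h1) he) (hs h2)
    · exact KF_trans (KF_trans (hs h1) (KF_symm he)) (hs h2)

private theorem KF_stay {n H : ℕ} {c : Finset (ℕ × ℕ)} (hc : c ⊆ tls n H) {u v : ℕ × ℕ} (h : Cw ∅ c u v) :
    u ∈ sts n H ↔ v ∈ sts n H := by
  induction h with
  | rel x y h =>
    rcases h with ⟨t, ht, h1, h2⟩ | ⟨h1, _⟩
    · have h3 := ends_mem (hc ht)
      rw [h1, h2] at h3
      exact ⟨fun _ => h3.2, fun _ => h3.1⟩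
    · exact absurd h1 (Set.notMem_empty _)
  | refl x => exact Iff.rfl
  | symm x y _ ih => exact ih.symm
  | trans x y z _ _ ih1 ih2 => exact ih1.trans ih2

theorem Cw_stay {n H : ℕ} {c : Finset (ℕ × ℕ)} (hc : c ⊆ tls n H) {u v : ℕ × ℕ} (hu : u ∈ sts n H) (h : Cw ∅ c u v) : v ∈ sts n H :=
  (KF_stay hc h).1 hu

private theorem KF_odd {n H : ℕ} {u : ℕ × ℕ} (hu : u ∈ sts n H) : (u.1 + u.2) % 2 = 1 := by
  unfold sts at hu
  exact (mem_filter.1 hu).2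

/-- restriction to the sites of the strip -/
private theorem KF_rel {n H : ℕ} {c : Finset (ℕ × ℕ)} (hc : c ⊆ tls n H) (W : Set (ℕ × ℕ)) (A : Finset (ℕ × ℕ))
    (hA : ∀ s ∈ sts n H, s ∈ W ↔ s ∈ A) (hA' : A ⊆ sts n H) {u v : ℕ × ℕ} (hu : u ∈ sts n H) (hv : v ∈ sts n H) :
    Cw W c u v ↔ Cw ∅ c u v ∨ ((∃ s ∈ A, Cw ∅ c u s) ∧ ∃ t ∈ A, Cw ∅ c v t) := by
  have h1 : ∀ w ∈ sts n H, (∃ s ∈ W, Cw ∅ c w s) ↔ ∃ s ∈ A, Cw ∅ c w s := by
    intro w hw
    constructor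
    · rintro ⟨s, hs, h⟩
      exact ⟨s, (hA s (Cw_stay hc hw h)).1 hs, h⟩
    · rintro ⟨s, hs, h⟩
      exact ⟨s, (hA s (hA' hs)).2 hs, h⟩
  rw [Cw_wire, h1 u hu, h1 v hv]

theorem cr_strip {n : ℕ} (hn : 1 ≤ n) (H : ℕ) {c : Finset (ℕ × ℕ)} (hc : c ⊆ tls n H) :
    cr (Cw ∅ c) (sts n H) (sA n H) (sB n H) + nk (Cw WA c) (sts n H) + nk (Cn n c) (sts n H) =
      1 + nk (Cw ∅ c) (sts n H) + nk (Cw (WA ∪ WB n) c) (sts n H) := by
  have hAs : sA n H ⊆ sts n H := filter_subset _ _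
  have hBs : sB n H ⊆ sts n H := filter_subset _ _
  have hA : ∀ s ∈ sts n H, s ∈ WA ↔ s ∈ sA n H := by
    intro s hs
    have h1 := KF_odd hs
    unfold sA
    rw [mem_filter]
    constructor
    · intro h
      exact ⟨hs, h.1⟩
    · intro h
      exact ⟨h.2, by have := h.2; omega⟩
  have hB : ∀ s ∈ sts n H, s ∈ WB n ↔ s ∈ sB n H := by
    intro s hs
    have h1 := KF_odd hs
    unfold sB
    rw [mem_filter]
    constructor
    · intro h
      exact ⟨hs, h.1⟩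
    · intro h
      exact ⟨h.2, by have := h.2; omega⟩
  have hAB : ∀ s ∈ sts n H, s ∈ WA ∪ WB n ↔ s ∈ sA n H ∪ sB n H := by
    intro s hs
    rw [mem_union, ← hA s hs, ← hB s hs]
    exact Iff.rfl
  have hAne : (sA n H).Nonempty := by
    refine ⟨(1, 0), ?_⟩
    unfold sA sts
    refine mem_filter.2 ⟨mem_filter.2 ⟨mem_product.2 ⟨mem_Icc.2 ⟨le_rfl, ?_⟩, mem_range.2 ?_⟩, ?_⟩, rfl⟩
    · change 1 ≤ 2 * n + 1
      omega
    · change 0 < H + 1
      omega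
    · rfl
  have hBne : (sB n H).Nonempty := by
    refine ⟨(2 * n + 1, 0), ?_⟩
    unfold sB sts
    refine mem_filter.2 ⟨mem_filter.2 ⟨mem_product.2 ⟨mem_Icc.2 ⟨?_, le_rfl⟩, mem_range.2 ?_⟩, ?_⟩, rfl⟩
    · change 1 ≤ 2 * n + 1
      omega
    · change 0 < H + 1
      omega
    · change (2 * n + 1 + 0) % 2 = 1
      omega
  have h := cr_identity (r := Cw ∅ c)
    (rA := fun u v => Cw ∅ c u v ∨ ((∃ s ∈ sA n H, Cw ∅ c u s) ∧ ∃ t ∈ sA n H, Cw ∅ c v t))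
    (rB := fun u v => Cw ∅ c u v ∨ ((∃ s ∈ sB n H, Cw ∅ c u s) ∧ ∃ t ∈ sB n H, Cw ∅ c v t))
    (rAB := fun u v => Cw ∅ c u v ∨
      ((∃ s ∈ sA n H ∪ sB n H, Cw ∅ c u s) ∧ ∃ t ∈ sA n H ∪ sB n H, Cw ∅ c v t))
    (Cw_equiv ∅ c) hAs hBs hAne hBne (fun _ _ => Iff.rfl) (fun _ _ => Iff.rfl)
    (fun _ _ => by simp only [mem_union])
  rw [← Cw_B, nk_congr (fun u hu v hv => KF_rel hc WA (sA n H) hA hAs hu hv),
    nk_congr (fun u hu v hv => KF_rel hc (WB n) (sB n H) hB hBs hu hv),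
    nk_congr (r := Cw (WA ∪ WB n) c)
      (fun u hu v hv => KF_rel hc (WA ∪ WB n) (sA n H ∪ sB n H) hAB (union_subset hAs hBs) hu hv)]
  exact h

theorem nk_lip (W : Set (ℕ × ℕ)) {n H : ℕ} {c c' : Finset (ℕ × ℕ)} (hcc : c ⊆ c') (hc : c' ⊆ tls n H) :
    nk (Cw W c') (sts n H) ≤ nk (Cw W c) (sts n H) ∧ nk (Cw W c) (sts n H) ≤ nk (Cw W c') (sts n H) + (c' \ c).card := by
  have key : ∀ d : Finset (ℕ × ℕ), d ⊆ tls n H → nk (Cw W (c ∪ d)) (sts n H) ≤ nk (Cw W c) (sts n H) ∧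
      nk (Cw W c) (sts n H) ≤ nk (Cw W (c ∪ d)) (sts n H) + d.card := by
    intro d
    induction d using Finset.induction_on with
    | empty =>
      intro _
      rw [union_empty]
      exact ⟨le_rfl, Nat.le_add_right _ _⟩
    | insert t d ht ih =>
      intro hd
      have h1 := ih ((subset_insert _ _).trans hd)
      have h2 := ends_mem (hd (mem_insert_self t d))
      have h3 := nk_edge (Cw_equiv W (c ∪ d)) h2.1 h2.2 (fun u v => Cw_insert W (c ∪ d) t u v)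
      rw [union_insert, card_insert_of_notMem ht]
      split_ifs at h3 <;> omega
  have h := key (c' \ c) (sdiff_subset.trans hc)
  rw [union_sdiff_of_subset hcc] at h
  exact h

end NX
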