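import Pool.Agent.Lib.MP_216314_pr.N.KF

/-!
# Reflection of the strip

The map `(X, h) ↦ (2n+2-X, h)` of the sites and `(j, h) ↦ (2n+1-j, h)` of the tiles preserves the edges (`lo` goes to `lo`, `hi` to `hi`: the parity of `j + h` changes), exchanges `WA` and `WB n` on the strip, and maps `sts n H`, `tls n H` to themselves.
So the sums over all `c ⊆ tls n H` agree (`Finset.sum_bij'` or `sum_nbij'` with the image of `c`; `nk_map` twice or a bijection argument for the number of classes). Sites outside `1 ≤ X ≤ 2n+1` do not matter (`Cw_stay`, `Cw_wire`): it may be convenient to define the reflection of `ℕ × ℕ` as the identity outside the strip.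
-/

set_option autoImplicit false

noncomputable section

namespace NX

open Finset QS FKH Classical

theorem KFm_mem_sts {n H : ℕ} {u : ℕ × ℕ} :
    u ∈ sts n H ↔ (1 ≤ u.1 ∧ u.1 ≤ 2 * n + 1 ∧ u.2 ≤ H) ∧ (u.1 + u.2) % 2 = 1 := by
  unfold sts
  rw [Finset.mem_filter, Finset.mem_product, Finset.mem_Icc, Finset.mem_range]
  omega

theorem KFm_mem_tls {n H : ℕ} {u : ℕ × ℕ} :
    u ∈ tls n H ↔ 1 ≤ u.1 ∧ u.1 ≤ 2 * n ∧ u.2 < H := by
  unfold tls
  rw [Finset.mem_product, Finset.mem_Icc, Finset.mem_range]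
  omega

/-- reflection of the sites -/
def KFm_s (n : ℕ) (u : ℕ × ℕ) : ℕ × ℕ := (2 * n + 2 - u.1, u.2)

/-- reflection of the tiles -/
def KFm_t (n : ℕ) (u : ℕ × ℕ) : ℕ × ℕ := (2 * n + 1 - u.1, u.2)

theorem KFm_lo {n : ℕ} {t : ℕ × ℕ} (h2 : t.1 ≤ 2 * n) :
    lo (KFm_t n t) = KFm_s n (lo t) := by
  unfold lo KFm_t KFm_s
  simp only
  by_cases h : (t.1 + t.2) % 2 = 1
  · rw [if_pos h, if_neg (by omega)]
    simp only [Prod.mk.injEq, and_true]
    omega
  · rw [if_neg h, if_pos (by omega)]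
    simp only [Prod.mk.injEq, and_true]
    omega

theorem KFm_hi {n : ℕ} {t : ℕ × ℕ} (h2 : t.1 ≤ 2 * n) :
    FKH.hi (KFm_t n t) = KFm_s n (FKH.hi t) := by
  unfold FKH.hi KFm_t KFm_s
  simp only
  by_cases h : (t.1 + t.2) % 2 = 1
  · rw [if_pos h, if_neg (by omega)]
    simp only [Prod.mk.injEq, and_true]
    omega
  · rw [if_neg h, if_pos (by omega)]
    simp only [Prod.mk.injEq, and_true]
    omega

theorem KFm_map {n H : ℕ} {W W' : Set (ℕ × ℕ)} (hW : ∀ u ∈ W, KFm_s n u ∈ W') {c : Finset (ℕ × ℕ)}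
    (hc : c ⊆ tls n H) {u v : ℕ × ℕ} (h : Cw W c u v) :
    Cw W' (c.image (KFm_t n)) (KFm_s n u) (KFm_s n v) := by
  induction h with
  | rel a b h =>
    rcases h with ⟨t, ht, h1, h2⟩ | ⟨h1, h2⟩
    · have h3 := KFm_mem_tls.1 (hc ht)
      refine Relation.EqvGen.rel _ _ (Or.inl ⟨KFm_t n t, Finset.mem_image_of_mem _ ht, ?_, ?_⟩)
      · rw [KFm_lo h3.2.1, h1]
      · rw [KFm_hi h3.2.1, h2]
    · exact Relation.EqvGen.rel _ _ (Or.inr ⟨hW _ h1, hW _ h2⟩)
  | refl x => exact Relation.EqvGen.refl _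
  | symm x y _ ih => exact Relation.EqvGen.symm _ _ ih
  | trans x y z _ _ ih1 ih2 => exact Relation.EqvGen.trans _ _ _ ih1 ih2

theorem KFm_le {n H : ℕ} {W W' : Set (ℕ × ℕ)} (hW : ∀ u ∈ W, KFm_s n u ∈ W') {c : Finset (ℕ × ℕ)}
    (hc : c ⊆ tls n H) : nk (Cw W' (c.image (KFm_t n))) (sts n H) ≤ nk (Cw W c) (sts n H) := by
  refine nk_map (Cw_equiv _ _) (Cw_equiv _ _) (KFm_s n) (fun u _ v _ h => KFm_map hW hc h) ?_
  intro v hv
  have h1 := KFm_mem_sts.1 hv
  refine ⟨KFm_s n v, KFm_mem_sts.2 ?_, ?_⟩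
  · unfold KFm_s
    simp only
    omega
  · have h2 : KFm_s n (KFm_s n v) = v := by
      unfold KFm_s
      refine Prod.ext ?_ rfl
      simp only
      omega
    rw [h2]
    exact Relation.EqvGen.refl _

theorem KFm_sub {n H : ℕ} {c : Finset (ℕ × ℕ)} (hc : c ⊆ tls n H) : c.image (KFm_t n) ⊆ tls n H := by
  intro t ht
  obtain ⟨s, hs, rfl⟩ := Finset.mem_image.1 ht
  have h3 := KFm_mem_tls.1 (hc hs)
  rw [KFm_mem_tls]
  unfold KFm_t
  simp only
  omega

theorem KFm_inv {n H : ℕ} {c : Finset (ℕ × ℕ)} (hc : c ⊆ tls n H) :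
    (c.image (KFm_t n)).image (KFm_t n) = c := by
  rw [Finset.image_image]
  refine (Finset.image_congr ?_).trans Finset.image_id
  intro t ht
  have h3 := KFm_mem_tls.1 (hc ht)
  unfold KFm_t
  simp only [Function.comp, id]
  refine Prod.ext ?_ rfl
  simp only
  omega

theorem KFm_eq {n H : ℕ} {c : Finset (ℕ × ℕ)} (hc : c ⊆ tls n H) :
    nk (Cw WA c) (sts n H) = nk (Cn n (c.image (KFm_t n))) (sts n H) := by
  have hA : ∀ u ∈ WA, KFm_s n u ∈ WB n := by
    rintro u ⟨h1, h2⟩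
    refine ⟨?_, h2⟩
    unfold KFm_s
    simp only
    omega
  have hB : ∀ u ∈ WB n, KFm_s n u ∈ WA := by
    rintro u ⟨h1, h2⟩
    refine ⟨?_, h2⟩
    unfold KFm_s
    simp only
    omega
  rw [← Cw_B]
  refine le_antisymm ?_ (KFm_le hA hc)
  have h1 := KFm_le hB (KFm_sub hc)
  rw [KFm_inv hc] at h1
  exact h1

theorem sum_mirror {n : ℕ} (hn : 1 ≤ n) (H : ℕ) :
    ∑ c ∈ (tls n H).powerset, (nk (Cw WA c) (sts n H) : ℝ) = ∑ c ∈ (tls n H).powerset, (nk (Cn n c) (sts n H) : ℝ) := by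
  refine Finset.sum_nbij' (fun c => c.image (KFm_t n)) (fun c => c.image (KFm_t n)) ?_ ?_ ?_ ?_ ?_
  · intro c hc
    exact Finset.mem_powerset.2 (KFm_sub (Finset.mem_powerset.1 hc))
  · intro c hc
    exact Finset.mem_powerset.2 (KFm_sub (Finset.mem_powerset.1 hc))
  · intro c hc
    exact KFm_inv (Finset.mem_powerset.1 hc)
  · intro c hc
    exact KFm_inv (Finset.mem_powerset.1 hc)
  · intro c hc
    rw [KFm_eq (Finset.mem_powerset.1 hc)]

end NX
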