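import Pool.Agent.Lib.MP_216314_pr.N.KF
import Pool.Agent.Lib.MP_216314_pr.N.KD

/-!
# The free strip inside the process with `n + 1`

`c ⊆ tls n H`, `c' = c ∪ cFF n H`, `V = sts n H`, `V' = sts (n+1) H`, `H` even. The fixed open tiles `(2n+1, h)`, `h` even, join `(2n+1, h)` to `(2n+2, h+1)` (`lo`, `hi`); no tile of column `2n+2` is open.
Lower bound: `nk_map` with the map `π : V' → V`, `π(X,h) = (X,h)` for `X ≤ 2n+1`, `π(2n+2, h) = (2n+1, h-1)` (`h` odd), `π(2n+3, h) = (1, 0)`: `Cn (n+1) c' u v → Cw ∅ c (π u) (π v)` for all `u`, `v` (check the generators: induction on `Relation.EqvGen`), and `π` is the identity on `V ⊆ V'`.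
Upper bound: `nk_map` with the inclusion of `V ∪ {(2n+3, 0)}` in `V'` (relation on the source: `Cw ∅ c`); every site of `V'` is connected by `c'` to a site of `V` or to `(2n+3, 0)`; and `nk` of `V ∪ {pt}` is at most `nk V + 1` (`nk_mono`).
-/

set_option autoImplicit false

noncomputable section

namespace NX

open Finset QS FKH Classical

theorem KG_mem_sts {n H : ℕ} {u : ℕ × ℕ} :
    u ∈ sts n H ↔ (1 ≤ u.1 ∧ u.1 ≤ 2 * n + 1 ∧ u.2 ≤ H) ∧ (u.1 + u.2) % 2 = 1 := by
  unfold sts
  rw [Finset.mem_filter, Finset.mem_product, Finset.mem_Icc, Finset.mem_range]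
  omega

theorem KG_mem_tls {n H : ℕ} {u : ℕ × ℕ} :
    u ∈ tls n H ↔ 1 ≤ u.1 ∧ u.1 ≤ 2 * n ∧ u.2 < H := by
  unfold tls
  rw [Finset.mem_product, Finset.mem_Icc, Finset.mem_range]
  omega

theorem KG_mem_cFF {n H : ℕ} {u : ℕ × ℕ} :
    u ∈ cFF n H ↔ u.1 = 2 * n + 1 ∧ u.2 % 2 = 0 ∧ u.2 < H := by
  unfold cFF
  rw [Finset.mem_filter, KG_mem_tls]
  omega

theorem KG_Cn_equiv (n : ℕ) (c : Finset (ℕ × ℕ)) : Equivalence (Cn n c) :=
  ⟨fun u => Cn.refl u, fun h => h.symm, fun h h' => h.trans h'⟩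

/-- the contraction of the outer columns -/
def KG_pi (n : ℕ) (u : ℕ × ℕ) : ℕ × ℕ :=
  if u.1 ≤ 2 * n + 1 then u else if u.1 = 2 * n + 2 then (2 * n + 1, u.2 - 1) else (1, 0)

theorem KG_pi_in {n : ℕ} {u : ℕ × ℕ} (h : u.1 ≤ 2 * n + 1) : KG_pi n u = u := by
  unfold KG_pi
  rw [if_pos h]

theorem KG_pi_mid {n : ℕ} {u : ℕ × ℕ} (h : u.1 = 2 * n + 2) : KG_pi n u = (2 * n + 1, u.2 - 1) := by
  unfold KG_pi
  rw [if_neg (by omega), if_pos h]

theorem KG_pi_out {n : ℕ} {u : ℕ × ℕ} (h : u.1 = 2 * n + 3) : KG_pi n u = (1, 0) := by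
  unfold KG_pi
  rw [if_neg (by omega), if_neg (by omega)]

theorem KG_low {n m : ℕ} {c : Finset (ℕ × ℕ)} (hc : c ⊆ tls n (2 * m)) {u v : ℕ × ℕ}
    (h : Cn (n + 1) (c ∪ cFF n (2 * m)) u v) : Cw ∅ c (KG_pi n u) (KG_pi n v) := by
  induction h with
  | rel a b h =>
    rcases h with ⟨t, ht, h1, h2⟩ | ⟨h1, h2⟩
    · rcases Finset.mem_union.1 ht with ht | ht
      · have h3 := KG_mem_tls.1 (hc ht)
        have h4 := lo_fst t
        have h5 := hi_fst t
        rw [h1] at h4
        rw [h2] at h5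
        rw [KG_pi_in (by omega), KG_pi_in (by omega)]
        exact Relation.EqvGen.rel _ _ (Or.inl ⟨t, ht, h1, h2⟩)
      · have h3 := KG_mem_cFF.1 ht
        have h4 : lo t = (t.1, t.2) := by
          unfold lo
          rw [if_pos (by omega)]
        have h5 : FKH.hi t = (t.1 + 1, t.2 + 1) := by
          unfold FKH.hi
          rw [if_pos (by omega)]
        rw [h4] at h1
        rw [h5] at h2
        have e1 : KG_pi n a = (2 * n + 1, t.2) := by
          rw [← h1, KG_pi_in (show (t.1, t.2).1 ≤ 2 * n + 1 by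
            show t.1 ≤ 2 * n + 1
            omega), h3.1]
        have e2 : KG_pi n b = (2 * n + 1, t.2) := by
          rw [← h2, KG_pi_mid (show (t.1 + 1, t.2 + 1).1 = 2 * n + 2 by
            show t.1 + 1 = 2 * n + 2
            omega)]
          show (2 * n + 1, t.2 + 1 - 1) = (2 * n + 1, t.2)
          rw [Nat.add_sub_cancel]
        rw [e1, e2]
        exact Relation.EqvGen.refl _
    · rw [KG_pi_out (by omega), KG_pi_out (by omega)]
      exact Relation.EqvGen.refl _
  | refl x => exact Relation.EqvGen.refl _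
  | symm x y _ ih => exact Relation.EqvGen.symm _ _ ih
  | trans x y z _ _ ih1 ih2 => exact Relation.EqvGen.trans _ _ _ ih1 ih2

theorem KG_up {n : ℕ} {c c' : Finset (ℕ × ℕ)} (hc : c ⊆ c') {u v : ℕ × ℕ}
    (h : Cw ∅ c u v) : Cn n c' u v := by
  induction h with
  | rel a b h =>
    rcases h with ⟨t, ht, h1, h2⟩ | ⟨h1, h2⟩
    · exact Relation.EqvGen.rel _ _ (Or.inl ⟨t, hc ht, h1, h2⟩)
    · exact absurd h1 (Set.notMem_empty _)
  | refl x => exact Relation.EqvGen.refl _
  | symm x y _ ih => exact Relation.EqvGen.symm _ _ ih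
  | trans x y z _ _ ih1 ih2 => exact Relation.EqvGen.trans _ _ _ ih1 ih2

theorem ff_compare {n : ℕ} (hn : 1 ≤ n) (m : ℕ) {c : Finset (ℕ × ℕ)} (hc : c ⊆ tls n (2 * m)) :
    nk (Cw ∅ c) (sts n (2 * m)) ≤ nk (Cn (n + 1) (c ∪ cFF n (2 * m))) (sts (n + 1) (2 * m)) ∧
      nk (Cn (n + 1) (c ∪ cFF n (2 * m))) (sts (n + 1) (2 * m)) ≤ nk (Cw ∅ c) (sts n (2 * m)) + 1 := by
  constructor
  · refine nk_map (KG_Cn_equiv _ _) (Cw_equiv _ _) (KG_pi n) (fun u _ v _ h => KG_low hc h) ?_
    intro v hv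
    have h1 := KG_mem_sts.1 hv
    refine ⟨v, KG_mem_sts.2 (by omega), ?_⟩
    rw [KG_pi_in h1.1.2.1]
    exact Relation.EqvGen.refl _
  · have h1 : nk (Cn (n + 1) (c ∪ cFF n (2 * m))) (sts (n + 1) (2 * m)) ≤
        nk (Cw ∅ c) (insert (2 * n + 3, 0) (sts n (2 * m))) := by
      refine nk_map (Cw_equiv _ _) (KG_Cn_equiv _ _) id
        (fun u _ v _ h => KG_up Finset.subset_union_left h) ?_
      rintro ⟨X, h⟩ hv
      have h1 := KG_mem_sts.1 hv
      simp only at h1
      by_cases g1 : X ≤ 2 * n + 1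
      · refine ⟨(X, h), Finset.mem_insert_of_mem (KG_mem_sts.2 ?_), Cn.refl _⟩
        simp only
        omega
      by_cases g2 : X = 2 * n + 2
      · refine ⟨(2 * n + 1, h - 1), Finset.mem_insert_of_mem (KG_mem_sts.2 ?_), ?_⟩
        · simp only
          omega
        · have hh : 1 ≤ h ∧ (h - 1) % 2 = 0 ∧ h - 1 < 2 * m := by
            obtain ⟨⟨_, _, h3⟩, h4⟩ := h1
            omega
          have ht : (2 * n + 1, h - 1) ∈ c ∪ cFF n (2 * m) := by
            exact Finset.mem_union_right _ (KG_mem_cFF.2 ⟨rfl, hh.2.1, hh.2.2⟩)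
          have h4 : lo (2 * n + 1, h - 1) = (2 * n + 1, h - 1) := by
            unfold lo
            rw [if_pos (by simp only; omega)]
          have h5 : FKH.hi (2 * n + 1, h - 1) = (X, h) := by
            unfold FKH.hi
            rw [if_pos (by simp only; omega)]
            refine Prod.ext ?_ ?_
            · simp only
              omega
            · simp only
              omega
          have h6 := Cn.edge (n := n + 1) ht
          rw [h4, h5] at h6
          exact h6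
      · refine ⟨(2 * n + 3, 0), Finset.mem_insert_self _ _, ?_⟩
        refine Relation.EqvGen.rel _ _ (Or.inr ⟨⟨?_, ?_⟩, ?_, ?_⟩)
        · simp only [id]
          omega
        · rfl
        · simp only
          omega
        · simp only
          omega
    refine h1.trans (((nk_mono (Cw ∅ c) (Cw_equiv _ _) (Finset.subset_insert _ _)).2).trans ?_)
    refine Nat.add_le_add_left ?_ _
    refine (Finset.card_le_card (t := {((2 * n + 3, 0) : ℕ × ℕ)}) ?_).trans
      (le_of_eq (Finset.card_singleton _))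
    intro x hx
    have hx1 := (@Finset.mem_sdiff (ℕ × ℕ) (fun a b => propDecidable (a = b)) _ _ _).1 hx
    exact Finset.mem_singleton.2 ((Finset.mem_insert.1 hx1.1).resolve_right hx1.2)

theorem cFF_card (n m : ℕ) : (cFF n (2 * m)).card = m := by
  have h1 : cFF n (2 * m) = (range m).image (fun k => (2 * n + 1, 2 * k)) := by
    ext ⟨a, b⟩
    rw [KG_mem_cFF, Finset.mem_image]
    simp only [Finset.mem_range, Prod.mk.injEq]
    constructor
    · rintro ⟨h1, h2, h3⟩
      exact ⟨b / 2, by omega, by omega, by omega⟩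
    · rintro ⟨k, h1, h2, h3⟩
      omega
  rw [h1, Finset.card_image_of_injective, Finset.card_range]
  intro a b h
  have h2 : (2 * a : ℕ) = 2 * b := congrArg Prod.snd h
  omega

theorem cFF_sub (n H : ℕ) : cFF n H ⊆ tls (n + 1) H ∧ Disjoint (tls n H) (cFF n H) ∧ tls n H ⊆ tls (n + 1) H := by
  refine ⟨Finset.filter_subset _ _, ?_, ?_⟩
  · rw [Finset.disjoint_left]
    intro t h1 h2
    have h3 := KG_mem_tls.1 h1
    have h4 := KG_mem_cFF.1 h2
    omega
  · intro t h1
    have h3 := KG_mem_tls.1 h1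
    rw [KG_mem_tls]
    omega

end NX
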