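import Pool.Agent.Lib.MP_216314_pr.N.KF
import Pool.Agent.Lib.MP_216314_pr.N.KD

/-!
# The wired strip inside the process with `n + 1`

`io`: `(X, h) ↦ (X+1, h+1)` on sites and tiles (compatible with `lo`, `hi`: `io (lo t) = lo (io t)`). `c ⊆ tls n (2m+1)` with all tiles in rows `h ≥ 1`; `W = WA ∪ WB n`; `V = sts n (2m+1)`; `c' = io(c) ∪ cWW n m`, `V' = sts (n+1) (2m+2)`.
Upper bound `nk (Cn (n+1) c') V' ≤ nk (Cw W c) V`: `nk_map` with `f = io`: an open tile of `c` goes to an open tile; two sites of `W` in `V` are connected by `c'` after `io`: the sites `(2, h)`, `h` odd, and `(1, h)`, `h` even, `0 ≤ h ≤ 2m+2`, are all connected by the tiles of column `1` (all open, rows `0..2m+1`);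
the sites `(2n+2, h)`, `h` odd, `h ≤ 2m+1`, are connected to the wired column by the tile `(2n+2, h)` (open); the two sides are connected by row `0`. (For `u, v ∈ V`: `Cw W c u v`; use `Cw_wire` and `Cw_stay` to stay inside `V`.)
Every site of `V'` is connected by `c'` to the image of a site of `V`: sites with `X = 1`, `X = 2n+3` or `h = 0` are connected to the left side.
Lower bound: let `c1 = c ∪ (all the tiles of row 0)`; `nk (Cw W c1) V ≤ nk (Cn (n+1) c') V'`: `nk_map` with `π : V' → V`, `π(X,h) = (X-1,h-1)` if `2 ≤ X ≤ 2n+2`, `1 ≤ h`, and `π(X,h) = (1,0)` otherwise. Generators of `Cn (n+1) c'`: tiles of `io(c)`: clear; column `1`: `(1, 0) ~ (1, h)` (both in `W`); column `2n+2`, row `h` odd: `(2n+1, h-1) ∈ W`;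
row `0`: the site `(X, 1)`, `X` even, goes to `(X-1, 0)`, which is connected to `(1, 0)` by the tiles of row `0` in `c1`; row `1`, odd column `j ≥ 3`: the tile `(j-1, 0) ∈ c1`; wired column: `(1,0)`. Then `nk_lip`: `nk (Cw W c) V ≤ nk (Cw W c1) V + 2n`.
-/

set_option autoImplicit false

noncomputable section

namespace NX

open Finset QS FKH Classical

def io (t : ℕ × ℕ) : ℕ × ℕ := (t.1 + 1, t.2 + 1)

theorem KH_mem_sts {n H : ℕ} {u : ℕ × ℕ} :
    u ∈ sts n H ↔ (1 ≤ u.1 ∧ u.1 ≤ 2 * n + 1 ∧ u.2 ≤ H) ∧ (u.1 + u.2) % 2 = 1 := by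
  unfold sts
  rw [Finset.mem_filter, Finset.mem_product, Finset.mem_Icc, Finset.mem_range]
  omega

theorem KH_mem_tls {n H : ℕ} {u : ℕ × ℕ} :
    u ∈ tls n H ↔ 1 ≤ u.1 ∧ u.1 ≤ 2 * n ∧ u.2 < H := by
  unfold tls
  rw [Finset.mem_product, Finset.mem_Icc, Finset.mem_range]
  omega

theorem KH_mem_cWW {n m : ℕ} {t : ℕ × ℕ} :
    t ∈ cWW n m ↔ (1 ≤ t.1 ∧ t.1 ≤ 2 * n + 2 ∧ t.2 < 2 * m + 2) ∧
      (t.2 = 0 ∨ (t.2 = 1 ∧ (t.1 % 2 = 1 ∨ t.1 = 2 * n + 2)) ∨
        (2 ≤ t.2 ∧ (t.1 = 1 ∨ (t.1 = 2 * n + 2 ∧ t.2 % 2 = 1)))) := by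
  unfold cWW
  rw [Finset.mem_filter, KH_mem_tls]
  have h : 2 * (n + 1) = 2 * n + 2 := by ring
  rw [h]

theorem KH_cWW {n m a b : ℕ} (h : (1 ≤ a ∧ a ≤ 2 * n + 2 ∧ b < 2 * m + 2) ∧
      (b = 0 ∨ (b = 1 ∧ (a % 2 = 1 ∨ a = 2 * n + 2)) ∨
        (2 ≤ b ∧ (a = 1 ∨ (a = 2 * n + 2 ∧ b % 2 = 1))))) : (a, b) ∈ cWW n m := KH_mem_cWW.2 h

theorem KH_sts {n H a b : ℕ} (h : (1 ≤ a ∧ a ≤ 2 * n + 1 ∧ b ≤ H) ∧ (a + b) % 2 = 1) :
    (a, b) ∈ sts n H := KH_mem_sts.2 h

theorem KH_lo1 {a b : ℕ} (h : (a + b) % 2 = 1) : lo (a, b) = (a, b) := by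
  unfold lo
  rw [if_pos h]

theorem KH_lo0 {a b : ℕ} (h : (a + b) % 2 = 0) : lo (a, b) = (a + 1, b) := by
  unfold lo
  rw [if_neg (by simp only; omega)]

theorem KH_hi1 {a b : ℕ} (h : (a + b) % 2 = 1) : FKH.hi (a, b) = (a + 1, b + 1) := by
  unfold FKH.hi
  rw [if_pos h]

theorem KH_hi0 {a b : ℕ} (h : (a + b) % 2 = 0) : FKH.hi (a, b) = (a, b + 1) := by
  unfold FKH.hi
  rw [if_neg (by simp only; omega)]

theorem KH_io_lo (t : ℕ × ℕ) : lo (io t) = io (lo t) := by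
  rcases t with ⟨a, b⟩
  show lo (a + 1, b + 1) = io (lo (a, b))
  rcases Nat.mod_two_eq_zero_or_one (a + b) with h | h
  · rw [KH_lo0 h, KH_lo0 (by omega)]
    rfl
  · rw [KH_lo1 h, KH_lo1 (by omega)]
    rfl

theorem KH_io_hi (t : ℕ × ℕ) : FKH.hi (io t) = io (FKH.hi t) := by
  rcases t with ⟨a, b⟩
  show FKH.hi (a + 1, b + 1) = io (FKH.hi (a, b))
  rcases Nat.mod_two_eq_zero_or_one (a + b) with h | h
  · rw [KH_hi0 h, KH_hi0 (by omega)]
    rfl
  · rw [KH_hi1 h, KH_hi1 (by omega)]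
    rfl

theorem KH_Cn_equiv (n : ℕ) (c : Finset (ℕ × ℕ)) : Equivalence (Cn n c) :=
  ⟨fun u => Cn.refl u, fun h => h.symm, fun h h' => h.trans h'⟩

/-- one tile in the big strip, odd sum -/
theorem KH_e1 {n : ℕ} {c : Finset (ℕ × ℕ)} {a b : ℕ} (h : (a + b) % 2 = 1) (ht : (a, b) ∈ c) :
    Cn n c (a, b) (a + 1, b + 1) := by
  have h1 := Cn.edge (n := n) ht
  rw [KH_lo1 h, KH_hi1 h] at h1
  exact h1

theorem KH_e0 {n : ℕ} {c : Finset (ℕ × ℕ)} {a b : ℕ} (h : (a + b) % 2 = 0) (ht : (a, b) ∈ c) :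
    Cn n c (a + 1, b) (a, b + 1) := by
  have h1 := Cn.edge (n := n) ht
  rw [KH_lo0 h, KH_hi0 h] at h1
  exact h1

theorem KH_w1 {W : Set (ℕ × ℕ)} {c : Finset (ℕ × ℕ)} {a b : ℕ} (h : (a + b) % 2 = 1) (ht : (a, b) ∈ c) :
    Cw W c (a, b) (a + 1, b + 1) := by
  have h1 : Cw W c (lo (a, b)) (FKH.hi (a, b)) := Relation.EqvGen.rel _ _ (Or.inl ⟨_, ht, rfl, rfl⟩)
  rw [KH_lo1 h, KH_hi1 h] at h1
  exact h1

theorem KH_w0 {W : Set (ℕ × ℕ)} {c : Finset (ℕ × ℕ)} {a b : ℕ} (h : (a + b) % 2 = 0) (ht : (a, b) ∈ c) :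
    Cw W c (a + 1, b) (a, b + 1) := by
  have h1 : Cw W c (lo (a, b)) (FKH.hi (a, b)) := Relation.EqvGen.rel _ _ (Or.inl ⟨_, ht, rfl, rfl⟩)
  rw [KH_lo0 h, KH_hi0 h] at h1
  exact h1

/-- the left column -/
theorem KH_left {n m : ℕ} {c' : Finset (ℕ × ℕ)} (hc : cWW n m ⊆ c') : ∀ h : ℕ, h ≤ 2 * m + 2 →
    Cn (n + 1) c' (1, 0) (if h % 2 = 0 then 1 else 2, h) := by
  intro h
  induction h with
  | zero =>
    intro _
    exact Cn.refl _
  | succ h ih =>
    intro hh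
    refine (ih (by omega)).trans ?_
    have ht : (1, h) ∈ c' := by
      exact hc (KH_cWW (by omega))
    rcases Nat.mod_two_eq_zero_or_one h with g | g
    · rw [if_pos g, if_neg (by omega)]
      exact KH_e1 (by omega) ht
    · rw [if_neg (by omega), if_pos (by omega)]
      exact KH_e0 (by omega) ht

/-- the bottom row -/
theorem KH_bot {n m : ℕ} {c' : Finset (ℕ × ℕ)} (hc : cWW n m ⊆ c') : ∀ k : ℕ, k ≤ 2 * n + 2 →
    Cn (n + 1) c' (1, 0) (k + 1, k % 2) := by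
  intro k
  induction k with
  | zero =>
    intro _
    exact Cn.refl _
  | succ k ih =>
    intro hk
    refine (ih (by omega)).trans ?_
    have ht : (k + 1, 0) ∈ c' := by
      exact hc (KH_cWW (by omega))
    rcases Nat.mod_two_eq_zero_or_one k with g | g
    · rw [g, show (k + 1) % 2 = 1 by omega]
      exact KH_e1 (by omega) ht
    · rw [g, show (k + 1) % 2 = 0 by omega]
      exact (KH_e0 (by omega) ht).symm

/-- the wired column -/
theorem KH_wired {n m : ℕ} {c' : Finset (ℕ × ℕ)} (hc : cWW n m ⊆ c') {h : ℕ} (hh : h % 2 = 0) :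
    Cn (n + 1) c' (1, 0) (2 * n + 3, h) := by
  have h1 := KH_bot hc (2 * n + 2) le_rfl
  rw [show (2 * n + 2) % 2 = 0 by omega] at h1
  refine h1.trans ?_
  exact Relation.EqvGen.rel _ _ (Or.inr ⟨⟨by simp only; omega, rfl⟩, ⟨by simp only; omega, hh⟩⟩)

/-- the right column -/
theorem KH_right {n m : ℕ} {c' : Finset (ℕ × ℕ)} (hc : cWW n m ⊆ c') {h : ℕ} (hh : h % 2 = 1) (hm : h ≤ 2 * m + 1) :
    Cn (n + 1) c' (1, 0) (2 * n + 2, h) := by
  have ht : (2 * n + 2, h) ∈ c' := by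
    exact hc (KH_cWW (by omega))
  have h1 : Cn (n + 1) c' (2 * n + 2, h) (2 * n + 3, h + 1) := KH_e1 (by omega) ht
  exact (KH_wired hc (by omega)).trans h1.symm

theorem KH_io_map {n m : ℕ} {c : Finset (ℕ × ℕ)} {u v : ℕ × ℕ} (h : Cw ∅ c u v) :
    Cn (n + 1) (c.image io ∪ cWW n m) (io u) (io v) := by
  induction h with
  | rel a b h =>
    rcases h with ⟨t, ht, h1, h2⟩ | ⟨h1, h2⟩
    · refine Relation.EqvGen.rel _ _ (Or.inl ⟨io t, Finset.mem_union_left _ (Finset.mem_image_of_mem _ ht), ?_, ?_⟩)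
      · rw [KH_io_lo, h1]
      · rw [KH_io_hi, h2]
    · exact absurd h1 (Set.notMem_empty _)
  | refl x => exact Relation.EqvGen.refl _
  | symm x y _ ih => exact Relation.EqvGen.symm _ _ ih
  | trans x y z _ _ ih1 ih2 => exact Relation.EqvGen.trans _ _ _ ih1 ih2

theorem KH_side {n m : ℕ} {c' : Finset (ℕ × ℕ)} (hc : cWW n m ⊆ c') {s : ℕ × ℕ} (hs : s ∈ WA ∪ WB n)
    (hs1 : s ∈ sts n (2 * m + 1)) : Cn (n + 1) c' (1, 0) (io s) := by
  rcases s with ⟨X, h⟩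
  have h1 := KH_mem_sts.1 hs1
  simp only at h1
  rcases hs with ⟨h2, h3⟩ | ⟨h2, h3⟩
  · simp only at h2 h3
    subst h2
    have h4 := KH_left hc (h + 1) (by omega)
    rw [if_neg (by omega)] at h4
    exact h4
  · simp only at h2 h3
    subst h2
    exact KH_right hc (by omega) (by omega)

theorem KH_up {n : ℕ} (m : ℕ) {c : Finset (ℕ × ℕ)} (hc : c ⊆ tls n (2 * m + 1)) :
    nk (Cn (n + 1) (c.image io ∪ cWW n m)) (sts (n + 1) (2 * m + 2)) ≤ nk (Cw (WA ∪ WB n) c) (sts n (2 * m + 1)) := by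
  have hc' : cWW n m ⊆ c.image io ∪ cWW n m := Finset.subset_union_right
  refine nk_map (Cw_equiv _ _) (KH_Cn_equiv _ _) io ?_ ?_
  · intro u hu v hv h
    rw [Cw_wire] at h
    rcases h with h | ⟨⟨s, hs, h1⟩, t, ht, h2⟩
    · exact KH_io_map h
    · have h3 := Cw_stay hc hu h1
      have h4 := Cw_stay hc hv h2
      refine (KH_io_map h1).trans (((KH_side hc' hs h3).symm.trans (KH_side hc' ht h4)).trans ?_)
      exact (KH_io_map h2).symm
  · rintro ⟨X, h⟩ hv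
    have h1 := KH_mem_sts.1 hv
    simp only at h1
    by_cases g : (2 ≤ X ∧ X ≤ 2 * n + 2) ∧ 1 ≤ h
    · refine ⟨(X - 1, h - 1), KH_mem_sts.2 ?_, ?_⟩
      · simp only
        omega
      · have h2 : io (X - 1, h - 1) = (X, h) := by
          unfold io
          refine Prod.ext ?_ ?_
          · simp only
            omega
          · simp only
            omega
        rw [h2]
        exact Cn.refl _
    · have h0 : ((1, 0) : ℕ × ℕ) ∈ sts n (2 * m + 1) := by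
        exact KH_sts (by omega)
      refine ⟨(1, 0), h0, ?_⟩
      refine (KH_side hc' (Or.inl ⟨rfl, rfl⟩) h0).symm.trans ?_
      by_cases g1 : X = 1
      · subst g1
        have h4 := KH_left hc' h (by omega)
        rw [if_pos (by omega)] at h4
        exact h4
      by_cases g2 : X = 2 * n + 3
      · subst g2
        exact KH_wired hc' (by omega)
      · have g3 : h = 0 := by omega
        subst g3
        have h4 := KH_bot hc' (X - 1) (by omega)
        rw [show X - 1 + 1 = X by omega, show (X - 1) % 2 = 0 by omega] at h4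
        exact h4

/-- the contraction of the frame -/
def KH_pi (n : ℕ) (u : ℕ × ℕ) : ℕ × ℕ :=
  if (2 ≤ u.1 ∧ u.1 ≤ 2 * n + 2) ∧ 1 ≤ u.2 then (u.1 - 1, u.2 - 1) else (1, 0)

theorem KH_pi_in {n : ℕ} {a b : ℕ} (h1 : 1 ≤ a) (h2 : a ≤ 2 * n + 1) : KH_pi n (a + 1, b + 1) = (a, b) := by
  unfold KH_pi
  rw [if_pos (by simp only; omega)]
  rfl

theorem KH_pi_io {n : ℕ} {u : ℕ × ℕ} (h1 : 1 ≤ u.1) (h2 : u.1 ≤ 2 * n + 1) : KH_pi n (io u) = u :=
  KH_pi_in h1 h2

theorem KH_pi_out {n : ℕ} {a b : ℕ} (h : a ≤ 1 ∨ 2 * n + 3 ≤ a ∨ b = 0) : KH_pi n (a, b) = (1, 0) := by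
  unfold KH_pi
  rw [if_neg (by simp only; omega)]

/-- bottom row of the small strip -/
def KH_R (n : ℕ) : Finset (ℕ × ℕ) := (range (2 * n)).image (fun k => (k + 1, 0))

theorem KH_mem_R {n a : ℕ} (h1 : 1 ≤ a) (h2 : a ≤ 2 * n) : (a, 0) ∈ KH_R n := by
  unfold KH_R
  refine Finset.mem_image.2 ⟨a - 1, Finset.mem_range.2 (by omega), ?_⟩
  refine Prod.ext ?_ rfl
  simp only
  omega

theorem KH_R_card (n : ℕ) : (KH_R n).card ≤ 2 * n := by
  unfold KH_R
  exact Finset.card_image_le.trans (le_of_eq (Finset.card_range _))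

theorem KH_R_sub {n H : ℕ} (hH : 0 < H) : KH_R n ⊆ tls n H := by
  intro t ht
  unfold KH_R at ht
  obtain ⟨k, hk, rfl⟩ := Finset.mem_image.1 ht
  rw [Finset.mem_range] at hk
  rw [KH_mem_tls]
  simp only
  omega

theorem KH_row {n : ℕ} {W : Set (ℕ × ℕ)} {c1 : Finset (ℕ × ℕ)} (hR : KH_R n ⊆ c1) : ∀ k : ℕ, k ≤ 2 * n →
    Cw W c1 (1, 0) (k + 1, k % 2) := by
  intro k
  induction k with
  | zero =>
    intro _
    exact Relation.EqvGen.refl _
  | succ k ih =>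
    intro hk
    refine (Cw_equiv W c1).trans (ih (by omega)) ?_
    have ht : (k + 1, 0) ∈ c1 := hR (KH_mem_R (by omega) (by omega))
    rcases Nat.mod_two_eq_zero_or_one k with g | g
    · rw [g, show (k + 1) % 2 = 1 by omega]
      exact KH_w1 (by omega) ht
    · rw [g, show (k + 1) % 2 = 0 by omega]
      exact (Cw_equiv W c1).symm (KH_w0 (by omega) ht)

theorem KH_row0 {n : ℕ} {W : Set (ℕ × ℕ)} {c1 : Finset (ℕ × ℕ)} (hR : KH_R n ⊆ c1) {j : ℕ} (h1 : j % 2 = 1)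
    (h2 : j ≤ 2 * n + 1) : Cw W c1 (1, 0) (j, 0) := by
  have h := KH_row (W := W) hR (j - 1) (by omega)
  rw [show j - 1 + 1 = j by omega, show (j - 1) % 2 = 0 by omega] at h
  exact h

theorem KH_wl {n : ℕ} {c1 : Finset (ℕ × ℕ)} {h : ℕ} (hh : h % 2 = 0) : Cw (WA ∪ WB n) c1 (1, 0) (1, h) :=
  Relation.EqvGen.rel _ _ (Or.inr ⟨Or.inl ⟨rfl, rfl⟩, Or.inl ⟨rfl, hh⟩⟩)

theorem KH_wr {n : ℕ} {c1 : Finset (ℕ × ℕ)} {h : ℕ} (hh : h % 2 = 0) :
    Cw (WA ∪ WB n) c1 (1, 0) (2 * n + 1, h) :=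
  Relation.EqvGen.rel _ _ (Or.inr ⟨Or.inl ⟨rfl, rfl⟩, Or.inr ⟨rfl, hh⟩⟩)

theorem KH_tile {n m : ℕ} {c1 : Finset (ℕ × ℕ)} (hR : KH_R n ⊆ c1) {j h : ℕ} (ht : (j, h) ∈ cWW n m) :
    Cw (WA ∪ WB n) c1 (KH_pi n (lo (j, h))) (KH_pi n (FKH.hi (j, h))) := by
  have h1 := KH_mem_cWW.1 ht
  simp only at h1
  obtain ⟨⟨a1, a2, a3⟩, h2⟩ := h1
  have hE := Cw_equiv (WA ∪ WB n) c1
  rcases h2 with h2 | ⟨h2, h3⟩ | ⟨h2, h3⟩
  · subst h2
    rcases Nat.mod_two_eq_zero_or_one j with g | g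
    · rw [KH_lo0 (by omega), KH_hi0 (by omega), KH_pi_out (Or.inr (Or.inr rfl))]
      have e : KH_pi n (j, 0 + 1) = (j - 1, 0) := by
        have h4 := KH_pi_in (n := n) (a := j - 1) (b := 0) (by omega) (by omega)
        rw [show j - 1 + 1 = j by omega] at h4
        exact h4
      rw [e]
      exact KH_row0 hR (by omega) (by omega)
    · rw [KH_lo1 (by omega), KH_hi1 (by omega), KH_pi_out (Or.inr (Or.inr rfl)), KH_pi_in a1 (by omega)]
      exact KH_row0 hR (by omega) (by omega)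
  · subst h2
    by_cases g : j = 2 * n + 2
    · subst g
      rw [KH_lo1 (by omega), KH_hi1 (by omega), KH_pi_out (a := 2 * n + 2 + 1) (Or.inr (Or.inl (by omega)))]
      have e : KH_pi n (2 * n + 2, 1) = (2 * n + 1, 0) := KH_pi_in (by omega) (by omega)
      rw [e]
      exact hE.symm (KH_wr rfl)
    · have g1 : j % 2 = 1 := by omega
      rw [KH_lo0 (by omega), KH_hi0 (by omega)]
      have e : KH_pi n (j + 1, 1) = (j, 0) := KH_pi_in a1 (by omega)
      rw [e]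
      by_cases g2 : j = 1
      · subst g2
        rw [KH_pi_out (Or.inl le_rfl)]
        exact hE.refl _
      · have e2 : KH_pi n (j, 1 + 1) = (j - 1, 1) := by
          have h4 := KH_pi_in (n := n) (a := j - 1) (b := 1) (by omega) (by omega)
          rw [show j - 1 + 1 = j by omega] at h4
          exact h4
        rw [e2]
        have h5 : (j - 1, 0) ∈ c1 := hR (KH_mem_R (by omega) (by omega))
        have h6 := KH_w0 (W := WA ∪ WB n) (show (j - 1 + 0) % 2 = 0 by omega) h5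
        rw [show j - 1 + 1 = j by omega] at h6
        exact h6
  · rcases h3 with h3 | ⟨h3, h4⟩
    · subst h3
      rcases Nat.mod_two_eq_zero_or_one h with g | g
      · rw [KH_lo1 (by omega), KH_hi1 (by omega), KH_pi_out (Or.inl le_rfl), KH_pi_in le_rfl (by omega)]
        exact KH_wl g
      · rw [KH_lo0 (by omega), KH_hi0 (by omega), KH_pi_out (a := 1) (Or.inl le_rfl)]
        have e : KH_pi n (1 + 1, h) = (1, h - 1) := by
          have h4 := KH_pi_in (n := n) (a := 1) (b := h - 1) (by omega) (by omega)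
          rw [show h - 1 + 1 = h by omega] at h4
          exact h4
        rw [e]
        exact hE.symm (KH_wl (by omega))
    · subst h3
      rw [KH_lo1 (by omega), KH_hi1 (by omega), KH_pi_out (a := 2 * n + 2 + 1) (Or.inr (Or.inl (by omega)))]
      have e : KH_pi n (2 * n + 2, h) = (2 * n + 1, h - 1) := by
        have h4 := KH_pi_in (n := n) (a := 2 * n + 1) (b := h - 1) (by omega) (by omega)
        rw [show h - 1 + 1 = h by omega] at h4
        exact h4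
      rw [e]
      exact hE.symm (KH_wr (by omega))

theorem KH_down {n m : ℕ} {c c1 : Finset (ℕ × ℕ)} (hc : c ⊆ tls n (2 * m + 1)) (hcc : c ⊆ c1) (hR : KH_R n ⊆ c1)
    {u v : ℕ × ℕ} (h : Cn (n + 1) (c.image io ∪ cWW n m) u v) :
    Cw (WA ∪ WB n) c1 (KH_pi n u) (KH_pi n v) := by
  induction h with
  | rel a b h =>
    rcases h with ⟨t, ht, h1, h2⟩ | ⟨h1, h2⟩
    · rcases Finset.mem_union.1 ht with ht | ht
      · obtain ⟨s, hs, rfl⟩ := Finset.mem_image.1 ht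
        have h3 := ends_mem (hc hs)
        have h4 := KH_mem_sts.1 h3.1
        have h5 := KH_mem_sts.1 h3.2
        rw [KH_io_lo] at h1
        rw [KH_io_hi] at h2
        rw [← h1, ← h2, KH_pi_io h4.1.1 h4.1.2.1, KH_pi_io h5.1.1 h5.1.2.1]
        exact Relation.EqvGen.rel _ _ (Or.inl ⟨s, hcc hs, rfl, rfl⟩)
      · rw [← h1, ← h2]
        exact KH_tile hR ht
    · rcases a with ⟨a1, a2⟩
      rcases b with ⟨b1, b2⟩
      rw [KH_pi_out (Or.inr (Or.inl (by simp only at h1; omega))),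
        KH_pi_out (Or.inr (Or.inl (by simp only at h2; omega)))]
      exact Relation.EqvGen.refl _
  | refl x => exact Relation.EqvGen.refl _
  | symm x y _ ih => exact Relation.EqvGen.symm _ _ ih
  | trans x y z _ _ ih1 ih2 => exact Relation.EqvGen.trans _ _ _ ih1 ih2

theorem KH_lower {n m : ℕ} {c c1 : Finset (ℕ × ℕ)} (hc : c ⊆ tls n (2 * m + 1)) (hcc : c ⊆ c1) (hR : KH_R n ⊆ c1) :
    nk (Cw (WA ∪ WB n) c1) (sts n (2 * m + 1)) ≤ nk (Cn (n + 1) (c.image io ∪ cWW n m)) (sts (n + 1) (2 * m + 2)) := by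
  refine nk_map (KH_Cn_equiv _ _) (Cw_equiv _ _) (KH_pi n) (fun u _ v _ h => KH_down hc hcc hR h) ?_
  intro v hv
  have h1 := KH_mem_sts.1 hv
  refine ⟨io v, KH_mem_sts.2 ?_, ?_⟩
  · unfold io
    simp only
    omega
  · rw [KH_pi_io h1.1.1 h1.1.2.1]
    exact Relation.EqvGen.refl _

theorem KH_diff (c R : Finset (ℕ × ℕ)) (i : DecidableEq (ℕ × ℕ)) :
    (@sdiff _ (@Finset.instSDiff _ i) (c ∪ R) c).card ≤ R.card := by
  refine Finset.card_le_card ?_
  intro x hx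
  have h1 := (@Finset.mem_sdiff _ i _ _ _).1 hx
  exact (Finset.mem_union.1 h1.1).resolve_left h1.2

theorem ww_compare {n : ℕ} (hn : 1 ≤ n) (m : ℕ) {c : Finset (ℕ × ℕ)} (hc : c ⊆ tls n (2 * m + 1)) (hc1 : ∀ t ∈ c, 1 ≤ t.2) :
    nk (Cn (n + 1) (c.image io ∪ cWW n m)) (sts (n + 1) (2 * m + 2)) ≤ nk (Cw (WA ∪ WB n) c) (sts n (2 * m + 1)) ∧
      nk (Cw (WA ∪ WB n) c) (sts n (2 * m + 1)) ≤ nk (Cn (n + 1) (c.image io ∪ cWW n m)) (sts (n + 1) (2 * m + 2)) + 2 * n := by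
  refine ⟨KH_up m hc, ?_⟩
  have h1 : c ∪ KH_R n ⊆ tls n (2 * m + 1) := Finset.union_subset hc (KH_R_sub (Nat.succ_pos _))
  have h2 := (nk_lip (WA ∪ WB n) (n := n) (H := 2 * m + 1) (c := c) (c' := c ∪ KH_R n) Finset.subset_union_left h1).2
  refine h2.trans (Nat.add_le_add (KH_lower hc Finset.subset_union_left Finset.subset_union_right) ?_)
  exact (KH_diff c (KH_R n) _).trans (KH_R_card n)

theorem cWW_card (n m : ℕ) : (cWW n m).card = 3 * m + 3 * n + 4 := by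
  have h1 : cWW n m = (range (2 * n + 2)).image (fun k => (k + 1, 0)) ∪
      ((range (n + 1)).image (fun k => (2 * k + 1, 1)) ∪
        ({(2 * n + 2, 1)} ∪ ((range (2 * m)).image (fun k => (1, k + 2)) ∪
          (range m).image (fun k => (2 * n + 2, 2 * k + 3))))) := by
    ext ⟨a, b⟩
    rw [KH_mem_cWW]
    simp only [Finset.mem_union, Finset.mem_image, Finset.mem_range, Finset.mem_singleton, Prod.mk.injEq]
    constructor
    · rintro ⟨⟨h1, h2, h3⟩, h4 | ⟨h4, h5 | h5⟩ | ⟨h4, h5 | ⟨h5, h6⟩⟩⟩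
      · exact Or.inl ⟨a - 1, by omega, by omega, by omega⟩
      · exact Or.inr (Or.inl ⟨a / 2, by omega, by omega, by omega⟩)
      · exact Or.inr (Or.inr (Or.inl ⟨h5, h4⟩))
      · exact Or.inr (Or.inr (Or.inr (Or.inl ⟨b - 2, by omega, by omega, by omega⟩)))
      · exact Or.inr (Or.inr (Or.inr (Or.inr ⟨(b - 3) / 2, by omega, by omega, by omega⟩)))
    · rintro (⟨k, h1, h2, h3⟩ | ⟨k, h1, h2, h3⟩ | ⟨h1, h2⟩ | ⟨k, h1, h2, h3⟩ | ⟨k, h1, h2, h3⟩)
      · omega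
      · omega
      · omega
      · omega
      · omega
  rw [h1, Finset.card_union_of_disjoint, Finset.card_union_of_disjoint, Finset.card_union_of_disjoint,
    Finset.card_union_of_disjoint, Finset.card_image_of_injective, Finset.card_image_of_injective,
    Finset.card_image_of_injective, Finset.card_image_of_injective, Finset.card_singleton]
  · simp only [Finset.card_range]
    omega
  · intro a b h
    have h2 := congrArg Prod.snd h
    simp only at h2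
    omega
  · intro a b h
    have h2 := congrArg Prod.snd h
    simp only at h2
    omega
  · intro a b h
    have h2 := congrArg Prod.fst h
    simp only at h2
    omega
  · intro a b h
    have h2 := congrArg Prod.fst h
    simp only at h2
    omega
  all_goals
    rw [Finset.disjoint_left]
    rintro ⟨a, b⟩
    simp only [Finset.mem_union, Finset.mem_image, Finset.mem_range, Finset.mem_singleton, Prod.mk.injEq]
  · rintro ⟨k, h1, h2, h3⟩ ⟨k', h4, h5, h6⟩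
    omega
  · rintro ⟨h1, h2⟩ (⟨k', h4, h5, h6⟩ | ⟨k', h4, h5, h6⟩)
    · omega
    · omega
  · rintro ⟨k, h1, h2, h3⟩ (⟨h4, h5⟩ | ⟨k', h4, h5, h6⟩ | ⟨k', h4, h5, h6⟩)
    · omega
    · omega
    · omega
  · rintro ⟨k, h1, h2, h3⟩ (⟨k', h4, h5, h6⟩ | ⟨h4, h5⟩ | ⟨k', h4, h5, h6⟩ | ⟨k', h4, h5, h6⟩)
    · omega
    · omega
    · omega
    · omega

theorem cWW_sub (n m : ℕ) : cWW n m ⊆ tls (n + 1) (2 * m + 2) ∧ Disjoint (RWW n m) (cWW n m) ∧ RWW n m ⊆ tls (n + 1) (2 * m + 2) := by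
  refine ⟨Finset.filter_subset _ _, ?_, ?_⟩
  · rw [Finset.disjoint_left]
    intro t h1 h2
    unfold RWW at h1
    rw [Finset.mem_product, Finset.mem_Icc, Finset.mem_Ico] at h1
    have h4 := KH_mem_cWW.1 h2
    omega
  · intro t h1
    unfold RWW at h1
    rw [Finset.mem_product, Finset.mem_Icc, Finset.mem_Ico] at h1
    rw [KH_mem_tls]
    omega

end NX
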