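import Pool.Agent.Lib.MP_216314_pr.N.KFm
import Pool.Agent.Lib.MP_216314_pr.N.KG
import Pool.Agent.Lib.MP_216314_pr.N.KH
import Pool.Agent.Lib.MP_216314_pr.N.KE

/-!
# The mean number of crossing clusters and the mean numbers of loops

`mn R F`: mean of `F` over the subsets of `R`. `mean_card`: mean of the cardinality is `card R / 2`. `mean_restrict`: if `F c` depends on `c ∩ R` only, the mean over the subsets of `T ⊇ R` is the mean over the subsets of `R`.
`mean_FW`: `nk_process`, `nk_empty`, `card_sts`, `mean_lp` (`R = tls n (2m)`, `c0 = ∅`), `EL_FW`: `E nk = n(2m+1) + 1 - 2nm + EL cE (rep (Q1 n) m) sg0 = n + 1 + EL ...`.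
`mean_FF`: the same with `n + 1`, `c ∪ cFF`, `cFF_card`, `ff_compare`: `E nk' = (n+1)(2m+1) + 1 - m - 2nm + EL = n + m + 2 + EL cE (rep (Q2 n) m) sg0`, `|E nk - E nk'| ≤ 1`.
`mean_WW`: `R2`: rows `1..2m` of `tls n (2m+1)`, `io` maps it to `RWW n m`; `nk_process` for `n + 1`, height `2m+2`: `E nk'' = (n+1)(2m+3) + 1 - (3m+3n+4) - 2nm + EL = -m + EL cE (...)`, `EL_WW`, `ww_compare`; and the mean of `nk (Cw W c) (sts n (2m+1))` over the subsets of rows `1..2m` and of rows `0..2m-1` differ by at most `4n`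
(both differ by at most `2n` from the mean over the subsets of `tls n (2m+1)`, by `nk_lip` and `mean_restrict`), and `sts n (2m+1)` has at most `n + 1` sites more than `sts n (2m)` (`nk_mono`).
`main_K`: `cr_strip`, `sum_mirror`, the three means, `EL_Q1_oe`, `EL_Q2_sum`.
-/

set_option autoImplicit false

noncomputable section

namespace NX

open Finset QS FKH Classical

/-- mean over the subsets of `R` -/
def mn (R : Finset (ℕ × ℕ)) (F : Finset (ℕ × ℕ) → ℝ) : ℝ := (∑ c ∈ R.powerset, F c) / 2 ^ R.card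

theorem KI_congr {R : Finset (ℕ × ℕ)} {F G : Finset (ℕ × ℕ) → ℝ} (h : ∀ c, c ⊆ R → F c = G c) :
    mn R F = mn R G := by
  unfold mn
  rw [Finset.sum_congr rfl fun c hc => h c (Finset.mem_powerset.1 hc)]

theorem KI_mono {R : Finset (ℕ × ℕ)} {F G : Finset (ℕ × ℕ) → ℝ} (h : ∀ c, c ⊆ R → F c ≤ G c) :
    mn R F ≤ mn R G := by
  unfold mn
  exact div_le_div_of_nonneg_right
    (Finset.sum_le_sum fun c hc => h c (Finset.mem_powerset.1 hc)) (by positivity)

theorem KI_const (R : Finset (ℕ × ℕ)) (a : ℝ) : mn R (fun _ => a) = a := by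
  unfold mn
  rw [Finset.sum_const, Finset.card_powerset, nsmul_eq_mul, Nat.cast_pow, Nat.cast_ofNat]
  field_simp

theorem KI_add (R : Finset (ℕ × ℕ)) (F G : Finset (ℕ × ℕ) → ℝ) :
    mn R (fun c => F c + G c) = mn R F + mn R G := by
  unfold mn
  rw [Finset.sum_add_distrib, add_div]

theorem KI_sub (R : Finset (ℕ × ℕ)) (F G : Finset (ℕ × ℕ) → ℝ) :
    mn R (fun c => F c - G c) = mn R F - mn R G := by
  unfold mn
  rw [Finset.sum_sub_distrib, sub_div]

theorem KI_image {f : ℕ × ℕ → ℕ × ℕ} (hf : Function.Injective f) (R : Finset (ℕ × ℕ))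
    (G : Finset (ℕ × ℕ) → ℝ) : mn (R.image f) G = mn R (fun c => G (c.image f)) := by
  unfold mn
  rw [Finset.card_image_of_injective R hf, Finset.powerset_image,
    Finset.sum_image (fun a _ b _ h => Finset.image_injective hf h)]

theorem mean_card (R : Finset (ℕ × ℕ)) : mn R (fun c => (c.card : ℝ)) = R.card / 2 := by
  have h1 : ∑ c ∈ R.powerset, (c.card : ℝ) = ∑ c ∈ R.powerset, ((R \ c).card : ℝ) := by
    refine Finset.sum_nbij' (fun c => R \ c) (fun c => R \ c) ?_ ?_ ?_ ?_ ?_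
    · intro c _
      exact Finset.mem_powerset.2 Finset.sdiff_subset
    · intro c _
      exact Finset.mem_powerset.2 Finset.sdiff_subset
    · intro c hc
      exact Finset.sdiff_sdiff_eq_self (Finset.mem_powerset.1 hc)
    · intro c hc
      exact Finset.sdiff_sdiff_eq_self (Finset.mem_powerset.1 hc)
    · intro c hc
      rw [Finset.sdiff_sdiff_eq_self (Finset.mem_powerset.1 hc)]
  have h2 : ∑ c ∈ R.powerset, ((R \ c).card : ℝ) = ∑ c ∈ R.powerset, ((R.card : ℝ) - c.card) := by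
    refine Finset.sum_congr rfl fun c hc => ?_
    rw [Finset.card_sdiff_of_subset (Finset.mem_powerset.1 hc),
      Nat.cast_sub (Finset.card_le_card (Finset.mem_powerset.1 hc))]
  rw [h2, Finset.sum_sub_distrib, Finset.sum_const, Finset.card_powerset, nsmul_eq_mul,
    Nat.cast_pow, Nat.cast_ofNat] at h1
  unfold mn
  rw [div_eq_div_iff (by positivity) (by norm_num)]
  linarith

theorem KI_restr (R : Finset (ℕ × ℕ)) (F : Finset (ℕ × ℕ) → ℝ) (U : Finset (ℕ × ℕ)) (h : Disjoint R U) :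
    ∑ c ∈ (R ∪ U).powerset, F (c ∩ R) = 2 ^ U.card * ∑ c ∈ R.powerset, F c := by
  induction U using Finset.induction_on with
  | empty =>
    rw [Finset.union_empty, Finset.card_empty, pow_zero, one_mul]
    refine Finset.sum_congr rfl fun c hc => ?_
    rw [Finset.inter_eq_left.2 (Finset.mem_powerset.1 hc)]
  | insert a U ha ih =>
    rw [Finset.disjoint_insert_right] at h
    have h1 : a ∉ R ∪ U := by
      rw [Finset.mem_union, not_or]
      exact ⟨h.1, ha⟩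
    rw [Finset.union_insert, Finset.sum_powerset_insert h1, Finset.card_insert_of_notMem ha, pow_succ,
      ih h.2]
    have h2 : ∑ c ∈ (R ∪ U).powerset, F (insert a c ∩ R) = ∑ c ∈ (R ∪ U).powerset, F (c ∩ R) := by
      refine Finset.sum_congr rfl fun c _ => ?_
      rw [Finset.insert_inter_of_notMem h.1]
    rw [h2, ih h.2]
    ring

theorem mean_restrict {R T : Finset (ℕ × ℕ)} (h : R ⊆ T) (F : Finset (ℕ × ℕ) → ℝ) : mn T (fun c => F (c ∩ R)) = mn R F := by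
  have h1 := KI_restr R F (T \ R) Finset.disjoint_sdiff
  rw [Finset.union_sdiff_of_subset h] at h1
  have h2 : T.card = R.card + (T \ R).card := by
    rw [add_comm, Finset.card_sdiff_add_card_eq_card h]
  unfold mn
  rw [h1, h2, pow_add]
  field_simp

theorem KI_tls (n H : ℕ) : (tls n H).card = 2 * n * H := by
  unfold tls
  rw [Finset.card_product, Nat.card_Icc, Finset.card_range, Nat.add_sub_cancel]

theorem KI_proc {n : ℕ} (hn : 1 ≤ n) (H : ℕ) {R c0 : Finset (ℕ × ℕ)} (hd : Disjoint R c0)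
    (hR : R ⊆ tls n H) (h0 : c0 ⊆ tls n H) :
    mn R (fun c => (nk (Cn n (c ∪ c0)) (sts n H) : ℝ)) =
      n * (H + 1) + 1 - R.card / 2 - c0.card + EL cE (tlL n R c0 (2 * n * H)) sg0 := by
  have h1 : mn R (fun c => (nk (Cn n (c ∪ c0)) (sts n H) : ℝ)) =
      mn R (fun c => ((n : ℝ) * (H + 1) + 1 - (c.card : ℝ)) - c0.card + (lpE n (c ∪ c0) (2 * n * H) : ℝ)) := by
    refine KI_congr fun c hc => ?_
    have h2 := nk_process hn H (Finset.union_subset (hc.trans hR) h0)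
    rw [nk_empty hn H, card_sts, Finset.card_union_of_disjoint (Finset.disjoint_of_subset_left hc hd)] at h2
    have h3 : ((nk (Cn n (c ∪ c0)) (sts n H) + (c.card + c0.card) : ℕ) : ℝ) =
        ((n * (H + 1) + 1 + lpE n (c ∪ c0) (2 * n * H) : ℕ) : ℝ) := by rw [h2]
    push_cast at h3
    linarith
  have h4 : mn R (fun c => (lpE n (c ∪ c0) (2 * n * H) : ℝ)) = EL cE (tlL n R c0 (2 * n * H)) sg0 := by
    unfold mn
    exact mean_lp hn R c0 hd (2 * n * H) (by rw [← tls_PT hn H]; exact hR)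
  rw [h1, KI_add, KI_sub, KI_sub, KI_const, KI_const, mean_card, h4]

theorem mean_FW {n : ℕ} (hn : 1 ≤ n) (m : ℕ) :
    mn (tls n (2 * m)) (fun c => (nk (Cn n c) (sts n (2 * m)) : ℝ)) = n + 1 + EL cE (rep (Q1 n) m) sg0 := by
  have h1 := KI_proc hn (2 * m) (R := tls n (2 * m)) (c0 := ∅) (Finset.disjoint_empty_right _)
    (Finset.Subset.refl _) (Finset.empty_subset _)
  simp only [Finset.union_empty] at h1
  rw [h1, EL_FW hn, KI_tls, Finset.card_empty]
  push_cast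
  ring

theorem mean_FF {n : ℕ} (hn : 1 ≤ n) (m : ℕ) :
    |mn (tls n (2 * m)) (fun c => (nk (Cw ∅ c) (sts n (2 * m)) : ℝ)) - (m + EL cE (rep (Q2 n) m) sg0)| ≤ n + 3 := by
  obtain ⟨s1, s2, s3⟩ := cFF_sub n (2 * m)
  have h1 := KI_proc (n := n + 1) (by omega) (2 * m) (R := tls n (2 * m)) (c0 := cFF n (2 * m)) s2 s3 s1
  rw [EL_FF hn, KI_tls, cFF_card] at h1
  have h2 : mn (tls n (2 * m)) (fun c => (nk (Cw ∅ c) (sts n (2 * m)) : ℝ)) ≤
      mn (tls n (2 * m)) (fun c => (nk (Cn (n + 1) (c ∪ cFF n (2 * m))) (sts (n + 1) (2 * m)) : ℝ)) :=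
    KI_mono fun c hc => by exact_mod_cast (ff_compare hn m hc).1
  have h3 : mn (tls n (2 * m)) (fun c => (nk (Cn (n + 1) (c ∪ cFF n (2 * m))) (sts (n + 1) (2 * m)) : ℝ)) ≤
      mn (tls n (2 * m)) (fun c => (nk (Cw ∅ c) (sts n (2 * m)) : ℝ) + 1) :=
    KI_mono fun c hc => by exact_mod_cast (ff_compare hn m hc).2
  rw [KI_add, KI_const] at h3
  push_cast at h1
  have hn0 : (0 : ℝ) ≤ n := Nat.cast_nonneg n
  rw [abs_le]
  constructor <;> nlinarith

/-- rows `1, ..., 2 m` -/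
def KI_R2 (n m : ℕ) : Finset (ℕ × ℕ) := Icc 1 (2 * n) ×ˢ Ico 1 (2 * m + 1)

theorem KI_io : Function.Injective io := by
  rintro ⟨a, b⟩ ⟨c, d⟩ h
  unfold io at h
  simp only [Prod.mk.injEq] at h
  rw [Prod.mk.injEq]
  omega

theorem KI_R2_image (n m : ℕ) : (KI_R2 n m).image io = RWW n m := by
  ext ⟨a, b⟩
  simp only [KI_R2, RWW, Finset.mem_image, Finset.mem_product, Finset.mem_Icc, Finset.mem_Ico, io,
    Prod.mk.injEq, Prod.exists]
  constructor
  · rintro ⟨x, y, h1, h2, h3⟩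
    omega
  · intro h
    exact ⟨a - 1, b - 1, by omega, by omega, by omega⟩

theorem KI_R2_card (n m : ℕ) : (KI_R2 n m).card = 2 * n * (2 * m) := by
  unfold KI_R2
  rw [Finset.card_product, Nat.card_Icc, Nat.card_Ico, Nat.add_sub_cancel, Nat.add_sub_cancel]

theorem KI_R2_sub (n m : ℕ) : KI_R2 n m ⊆ tls n (2 * m + 1) := by
  rintro ⟨a, b⟩ h
  simp only [KI_R2, tls, Finset.mem_product, Finset.mem_Icc, Finset.mem_Ico, Finset.mem_range] at h ⊢
  omega

theorem KI_tls_sub (n m : ℕ) : tls n (2 * m) ⊆ tls n (2 * m + 1) := by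
  rintro ⟨a, b⟩ h
  simp only [tls, Finset.mem_product, Finset.mem_Icc, Finset.mem_range] at h ⊢
  omega

/-- the mean over the rows `1, ..., 2m` -/
theorem KI_mean_R2 {n : ℕ} (hn : 1 ≤ n) (m : ℕ) :
    |mn (KI_R2 n m) (fun c => (nk (Cw (WA ∪ WB n) c) (sts n (2 * m + 1)) : ℝ)) -
      (-(m : ℝ) + EL cO (rep (Q2 n) m) sg0)| ≤ 3 * n + 2 := by
  obtain ⟨s1, s2, s3⟩ := cWW_sub n m
  have h1 := KI_proc (n := n + 1) (by omega) (2 * m + 2) s2 s3 s1
  have h4 := EL_WW hn m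
  have h0 : (RWW n m).card = 2 * n * (2 * m) := by
    rw [← KI_R2_image, Finset.card_image_of_injective _ KI_io, KI_R2_card]
  rw [h0, cWW_card] at h1
  have h5 := KI_image KI_io (KI_R2 n m) (fun c => (nk (Cn (n + 1) (c ∪ cWW n m)) (sts (n + 1) (2 * m + 2)) : ℝ))
  rw [KI_R2_image, h1] at h5
  have hr : ∀ c : Finset (ℕ × ℕ), c ⊆ KI_R2 n m → ∀ t ∈ c, 1 ≤ t.2 := by
    intro c hc t ht
    have h6 := hc ht
    simp only [KI_R2, Finset.mem_product, Finset.mem_Icc, Finset.mem_Ico] at h6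
    exact h6.2.1
  have h2 : mn (KI_R2 n m) (fun c => (nk (Cn (n + 1) (c.image io ∪ cWW n m)) (sts (n + 1) (2 * m + 2)) : ℝ)) ≤
      mn (KI_R2 n m) (fun c => (nk (Cw (WA ∪ WB n) c) (sts n (2 * m + 1)) : ℝ)) :=
    KI_mono fun c hc => by
      exact_mod_cast (ww_compare hn m (hc.trans (KI_R2_sub n m)) (hr c hc)).1
  have h3 : mn (KI_R2 n m) (fun c => (nk (Cw (WA ∪ WB n) c) (sts n (2 * m + 1)) : ℝ)) ≤
      mn (KI_R2 n m) (fun c => (nk (Cn (n + 1) (c.image io ∪ cWW n m)) (sts (n + 1) (2 * m + 2)) : ℝ) +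
        2 * (n : ℝ)) :=
    KI_mono fun c hc => by
      exact_mod_cast (ww_compare hn m (hc.trans (KI_R2_sub n m)) (hr c hc)).2
  rw [KI_add, KI_const] at h3
  push_cast at h5
  rw [abs_le] at h4 ⊢
  constructor <;> nlinarith [h4.1, h4.2]

/-- tiles in one row -/
theorem KI_row {n : ℕ} {s : Finset (ℕ × ℕ)} (h0 : ℕ) (h : ∀ t ∈ s, 1 ≤ t.1 ∧ t.1 ≤ 2 * n ∧ t.2 = h0) :
    s.card ≤ 2 * n := by
  have h1 : s ⊆ Icc 1 (2 * n) ×ˢ {h0} := by
    intro t ht
    obtain ⟨h2, h3, h4⟩ := h t ht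
    rw [Finset.mem_product, Finset.mem_Icc, Finset.mem_singleton]
    exact ⟨⟨h2, h3⟩, h4⟩
  have h2 := Finset.card_le_card h1
  rw [Finset.card_product, Nat.card_Icc, Finset.card_singleton] at h2
  omega

theorem KI_sts (n m : ℕ) : sts n (2 * m) ⊆ sts n (2 * m + 1) ∧
    (sts n (2 * m + 1) \ sts n (2 * m)).card ≤ 2 * n := by
  constructor
  · rintro ⟨a, b⟩ h
    simp only [sts, Finset.mem_filter, Finset.mem_product, Finset.mem_Icc, Finset.mem_range] at h ⊢
    omega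
  · refine KI_row (2 * m + 1) ?_
    rintro ⟨a, b⟩ h
    simp only [sts, Finset.mem_sdiff, Finset.mem_filter, Finset.mem_product, Finset.mem_Icc,
      Finset.mem_range] at h ⊢
    omega

theorem mean_WW {n : ℕ} (hn : 1 ≤ n) (m : ℕ) :
    |mn (tls n (2 * m)) (fun c => (nk (Cw (WA ∪ WB n) c) (sts n (2 * m)) : ℝ)) - (-(m : ℝ) + EL cO (rep (Q2 n) m) sg0)| ≤ 8 * n + 4 := by
  obtain ⟨W, hW⟩ : ∃ W, W = WA ∪ WB n := ⟨_, rfl⟩
  have h1 := KI_mean_R2 hn m
  rw [← hW] at h1 ⊢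
  obtain ⟨F, hF⟩ : ∃ F : Finset (ℕ × ℕ) → ℝ, F = fun c => (nk (Cw W c) (sts n (2 * m + 1)) : ℝ) := ⟨_, rfl⟩
  rw [← hF] at h1
  have hFc : ∀ c, F c = (nk (Cw W c) (sts n (2 * m + 1)) : ℝ) := fun c => by rw [hF]
  have e1 := mean_restrict (KI_R2_sub n m) F
  have e2 := mean_restrict (KI_tls_sub n m) F
  have l1 : ∀ c, c ⊆ tls n (2 * m + 1) → F c ≤ F (c ∩ KI_R2 n m) ∧ F (c ∩ KI_R2 n m) ≤ F c + 2 * n := by
    intro c hc
    have h2 := nk_lip W (Finset.inter_subset_left (s₁ := c) (s₂ := KI_R2 n m)) hc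
    have h3 : (c \ (c ∩ KI_R2 n m)).card ≤ 2 * n := by
      refine KI_row 0 ?_
      rintro ⟨a, b⟩ h
      rw [Finset.mem_sdiff] at h
      have h4 := hc h.1
      have h5 : (a, b) ∉ KI_R2 n m := fun h6 => h.2 (Finset.mem_inter.2 ⟨h.1, h6⟩)
      simp only [KI_R2, tls, Finset.mem_product, Finset.mem_Icc, Finset.mem_Ico, Finset.mem_range] at h4 h5 ⊢
      omega
    have h4 : nk (Cw W (c ∩ KI_R2 n m)) (sts n (2 * m + 1)) ≤ nk (Cw W c) (sts n (2 * m + 1)) + 2 * n := by omega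
    rw [hFc, hFc]
    constructor
    · exact_mod_cast h2.1
    · exact_mod_cast h4
  have l2 : ∀ c, c ⊆ tls n (2 * m + 1) → F c ≤ F (c ∩ tls n (2 * m)) ∧ F (c ∩ tls n (2 * m)) ≤ F c + 2 * n := by
    intro c hc
    have h2 := nk_lip W (Finset.inter_subset_left (s₁ := c) (s₂ := tls n (2 * m))) hc
    have h3 : (c \ (c ∩ tls n (2 * m))).card ≤ 2 * n := by
      refine KI_row (2 * m) ?_
      rintro ⟨a, b⟩ h
      rw [Finset.mem_sdiff] at h
      have h4 := hc h.1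
      have h5 : (a, b) ∉ tls n (2 * m) := fun h6 => h.2 (Finset.mem_inter.2 ⟨h.1, h6⟩)
      simp only [tls, Finset.mem_product, Finset.mem_Icc, Finset.mem_range] at h4 h5 ⊢
      omega
    have h4 : nk (Cw W (c ∩ tls n (2 * m))) (sts n (2 * m + 1)) ≤ nk (Cw W c) (sts n (2 * m + 1)) + 2 * n := by omega
    rw [hFc, hFc]
    constructor
    · exact_mod_cast h2.1
    · exact_mod_cast h4
  have d1 : mn (tls n (2 * m)) F ≤ mn (KI_R2 n m) F + 2 * n := by
    rw [← e1, ← e2]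
    have h2 : mn (tls n (2 * m + 1)) (fun c => F (c ∩ tls n (2 * m))) ≤
        mn (tls n (2 * m + 1)) (fun c => F (c ∩ KI_R2 n m) + 2 * (n : ℝ)) :=
      KI_mono fun c hc => by linarith [(l1 c hc).1, (l2 c hc).2]
    rw [KI_add, KI_const] at h2
    exact h2
  have d2 : mn (KI_R2 n m) F ≤ mn (tls n (2 * m)) F + 2 * n := by
    rw [← e1, ← e2]
    have h2 : mn (tls n (2 * m + 1)) (fun c => F (c ∩ KI_R2 n m)) ≤
        mn (tls n (2 * m + 1)) (fun c => F (c ∩ tls n (2 * m)) + 2 * (n : ℝ)) :=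
      KI_mono fun c hc => by linarith [(l1 c hc).2, (l2 c hc).1]
    rw [KI_add, KI_const] at h2
    exact h2
  obtain ⟨v1, v2⟩ := KI_sts n m
  have d3 : mn (tls n (2 * m)) (fun c => (nk (Cw W c) (sts n (2 * m)) : ℝ)) ≤ mn (tls n (2 * m)) F := by
    rw [hF]
    exact KI_mono fun c _ => by exact_mod_cast (nk_mono _ (Cw_equiv W c) v1).1
  have d4 : mn (tls n (2 * m)) F ≤
      mn (tls n (2 * m)) (fun c => (nk (Cw W c) (sts n (2 * m)) : ℝ)) + 2 * n := by
    have h2 : mn (tls n (2 * m)) F ≤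
        mn (tls n (2 * m)) (fun c => (nk (Cw W c) (sts n (2 * m)) : ℝ) + 2 * (n : ℝ)) := by
      rw [hF]
      refine KI_mono fun c _ => ?_
      have h4 : nk (Cw W c) (sts n (2 * m + 1)) ≤ nk (Cw W c) (sts n (2 * m)) + 2 * n := by
        refine le_trans (nk_mono _ (Cw_equiv W c) v1).2 (Nat.add_le_add_left ?_ _)
        refine le_trans (Finset.card_le_card (t := sts n (2 * m + 1) \ sts n (2 * m)) ?_) v2
        intro t ht
        have ht2 := (@Finset.mem_sdiff _ (fun a b => propDecidable (a = b)) _ _ _).1 ht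
        exact Finset.mem_sdiff.2 ht2
      exact_mod_cast h4
    rw [KI_add, KI_const] at h2
    exact h2
  have hn1 : (1 : ℝ) ≤ n := by exact_mod_cast hn
  rw [abs_le] at h1 ⊢
  constructor <;> linarith [h1.1, h1.2]

theorem main_K {n : ℕ} (hn : 1 ≤ n) (m : ℕ) :
    |mn (tls n (2 * m)) (fun c => (cr (Cw ∅ c) (sts n (2 * m)) (sA n (2 * m)) (sB n (2 * m)) : ℝ)) -
      (EL (fun _ => 1) (rep (Q2 n) m) sg0 - EL (fun _ => 1) (rep (Q1 n) m) sg0)| ≤ 20 * n + 20 := by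
  have h1 : mn (tls n (2 * m)) (fun c => (cr (Cw ∅ c) (sts n (2 * m)) (sA n (2 * m)) (sB n (2 * m)) : ℝ)) =
      mn (tls n (2 * m)) (fun c => 1 + (nk (Cw ∅ c) (sts n (2 * m)) : ℝ) +
        (nk (Cw (WA ∪ WB n) c) (sts n (2 * m)) : ℝ) - (nk (Cw WA c) (sts n (2 * m)) : ℝ) -
        (nk (Cn n c) (sts n (2 * m)) : ℝ)) := by
    refine KI_congr fun c hc => ?_
    have h2 := cr_strip hn (2 * m) hc
    have h3 : ((cr (Cw ∅ c) (sts n (2 * m)) (sA n (2 * m)) (sB n (2 * m)) + nk (Cw WA c) (sts n (2 * m)) +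
        nk (Cn n c) (sts n (2 * m)) : ℕ) : ℝ) = ((1 + nk (Cw ∅ c) (sts n (2 * m)) +
        nk (Cw (WA ∪ WB n) c) (sts n (2 * m)) : ℕ) : ℝ) := by rw [h2]
    push_cast at h3
    linarith
  have h2 : mn (tls n (2 * m)) (fun c => (nk (Cw WA c) (sts n (2 * m)) : ℝ)) =
      mn (tls n (2 * m)) (fun c => (nk (Cn n c) (sts n (2 * m)) : ℝ)) := by
    unfold mn
    rw [sum_mirror hn]
  rw [h1, KI_sub, KI_sub, KI_add, KI_add, KI_const, h2, mean_FW hn, EL_Q2_sum]
  have h3 := mean_FF hn m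
  have h4 := mean_WW hn m
  have h5 := EL_Q1_oe n m
  have hn1 : (1 : ℝ) ≤ n := by exact_mod_cast hn
  rw [abs_le] at h3 h4 h5 ⊢
  constructor <;> linarith [h3.1, h3.2, h4.1, h4.2, h5.1, h5.2]

end NX
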