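import Pool.Agent.Lib.MP_216314_pr.N.FEnd

/-!
# MP_216314_pr: the one arm probability of bond percolation on the square lattice in the whole near critical regime

`FKN.p1 p n`: probability that `(0,0)` is connected inside `[-n,n]²` to the boundary of this square, for bond percolation on the square lattice
with parameter `p`.
-/

set_option autoImplicit false

theorem Pool.Agent.Results.MP_216314_pr.NearCritical.result :
    ∃ c C : ℝ, 0 < c ∧ 0 < C ∧ ∀ n : ℕ, 1 ≤ n →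
      (∀ p : ℝ, 1 / 2 ≤ p → p ≤ 1 →
        c * max ((n : ℝ) ^ (-(5 / 48) : ℝ)) ((p - 1 / 2) ^ (5 / 36 : ℝ)) ≤ FKN.p1 p n ∧
        FKN.p1 p n ≤ C * max ((n : ℝ) ^ (-(5 / 48) : ℝ)) ((p - 1 / 2) ^ (5 / 36 : ℝ))) ∧
      (∀ p : ℝ, 1 / 4 ≤ p → p ≤ 1 / 2 →
        c * (n : ℝ) ^ (-(5 / 48) : ℝ) * Real.exp (-(C * n * (1 / 2 - p) ^ (4 / 3 : ℝ))) ≤ FKN.p1 p n ∧
        FKN.p1 p n ≤ C * (n : ℝ) ^ (-(5 / 48) : ℝ) * Real.exp (-(c * n * (1 / 2 - p) ^ (4 / 3 : ℝ)))) :=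
  FKF.arm_main FKF.win_in FKF.one12_in
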