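import Pool.Agent.Lib.MP_216314_pr.X.PairA

/-!
# Generic loop weight: the Temperley-Lieb generators `Eq q i` on spin vectors

`Vec = Finset ℕ → ℂ` (set of the up spins), `sg i s`: exchange of the memberships of `i`, `i+1` (`PX.mem_sg`, `PX.sg_sg`).
`Eq q i v s = 0` if `i, i+1` are both in `s` or both outside; otherwise `(-q or -q⁻¹) v s + v (sg i s)`. `dE i` is the derivative of `Eq q i` at `q = om`.
`Eq_om`: compare with `PX.PairA_ee` (`om⁻¹ = om ^ 2`, `PX.om_inv`). `BF_Eq`: imitate `PX.BF_ee` (`PX.PairA_ee`, `PX.PairA_sg`, `PX.sg_mem_cfn`). `wt_Eq`: `PX.wt_ee`.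
`Eq_hasDeriv`: derivative of `q ↦ Eq q i (v q) s`.
-/

set_option autoImplicit false

noncomputable section

namespace NX

open Finset PX

/-- Temperley-Lieb generator, loop weight `-(q + q⁻¹)` -/
def Eq (q : ℂ) (i : ℕ) : Vec →ₗ[ℂ] Vec where
  toFun v := fun s => (if (i ∈ s ↔ i + 1 ∈ s) then 0 else if i ∈ s then -q else -q⁻¹) * v s +
    (if (i ∈ s ↔ i + 1 ∈ s) then 0 else 1) * v (sg i s)
  map_add' v w := by
    funext s
    simp only [Pi.add_apply]
    ring
  map_smul' c v := by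
    funext s
    simp only [Pi.smul_apply, smul_eq_mul, RingHom.id_apply]
    ring

/-- derivative of `Eq q i` at `q = om` -/
def dE (i : ℕ) : Vec →ₗ[ℂ] Vec where
  toFun v := fun s => (if (i ∈ s ↔ i + 1 ∈ s) then 0 else if i ∈ s then -1 else om) * v s
  map_add' v w := by
    funext s
    simp only [Pi.add_apply]
    ring
  map_smul' c v := by
    funext s
    simp only [Pi.smul_apply, smul_eq_mul, RingHom.id_apply]
    ring

theorem Eq_apply (q : ℂ) (i : ℕ) (v : Vec) (s : Finset ℕ) : Eq q i v s =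
    (if (i ∈ s ↔ i + 1 ∈ s) then 0 else if i ∈ s then -q else -q⁻¹) * v s +
    (if (i ∈ s ↔ i + 1 ∈ s) then 0 else 1) * v (sg i s) := rfl

theorem dE_apply (i : ℕ) (v : Vec) (s : Finset ℕ) : dE i v s =
    (if (i ∈ s ↔ i + 1 ∈ s) then 0 else if i ∈ s then -1 else om) * v s := rfl

theorem Eq_om (i : ℕ) : Eq om i = ee i := by
  refine LinearMap.ext fun v => ?_
  funext s
  rw [Eq_apply, PairA_ee, om_inv]

private theorem QA_both {i : ℕ} {s : Finset ℕ} (h : i ∈ s ↔ i + 1 ∈ s) (q : ℂ) (v : Vec) :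
    Eq q i v s = 0 := by
  rw [Eq_apply, if_pos h, if_pos h]
  ring

private theorem QA_left {i : ℕ} {s : Finset ℕ} (h1 : i ∈ s) (h2 : i + 1 ∉ s) (q : ℂ) (v : Vec) :
    Eq q i v s = -q * v s + v (sg i s) := by
  rw [Eq_apply, if_neg (fun h => h2 (h.1 h1)), if_pos h1, if_neg (fun h => h2 (h.1 h1))]
  ring

private theorem QA_right {i : ℕ} {s : Finset ℕ} (h1 : i ∉ s) (h2 : i + 1 ∈ s) (q : ℂ) (v : Vec) :
    Eq q i v s = -q⁻¹ * v s + v (sg i s) := by
  rw [Eq_apply, if_neg (fun h => h1 (h.2 h2)), if_neg h1, if_neg (fun h => h1 (h.2 h2))]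
  ring

private theorem QA_mem_left (i : ℕ) (s : Finset ℕ) : i ∈ sg i s ↔ i + 1 ∈ s := by
  rw [mem_sg, Equiv.swap_apply_left]

private theorem QA_mem_right (i : ℕ) (s : Finset ℕ) : i + 1 ∈ sg i s ↔ i ∈ s := by
  rw [mem_sg, Equiv.swap_apply_right]

theorem Eq_sq {q : ℂ} (hq : q ≠ 0) (i : ℕ) (v : Vec) : Eq q i (Eq q i v) = (-(q + q⁻¹)) • Eq q i v := by
  have hqi : q * q⁻¹ = 1 := mul_inv_cancel₀ hq
  funext s
  rw [Pi.smul_apply, smul_eq_mul]
  by_cases h1 : i ∈ s
  · by_cases h2 : i + 1 ∈ s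
    · rw [QA_both (iff_of_true h1 h2), QA_both (iff_of_true h1 h2), mul_zero]
    · have h3 : i ∉ sg i s := fun h => h2 ((QA_mem_left i s).1 h)
      have h4 : i + 1 ∈ sg i s := (QA_mem_right i s).2 h1
      rw [QA_left h1 h2, QA_left h1 h2, QA_right h3 h4, sg_sg]
      linear_combination (-v s) * hqi
  · by_cases h2 : i + 1 ∈ s
    · have h3 : i ∈ sg i s := (QA_mem_left i s).2 h2
      have h4 : i + 1 ∉ sg i s := fun h => h1 ((QA_mem_right i s).1 h)
      rw [QA_right h1 h2, QA_right h1 h2, QA_left h3 h4, sg_sg]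
      linear_combination (-v s) * hqi
    · rw [QA_both (iff_of_false h1 h2), QA_both (iff_of_false h1 h2), mul_zero]

/-- the generators are symmetric -/
theorem BF_Eq {L n i : ℕ} (hi : i + 1 < L) (q : ℂ) (v w : Vec) :
    BF L n (fun _ => 1) (Eq q i v) w = BF L n (fun _ => 1) v (Eq q i w) := by
  have h1 : ∑ a ∈ cfn L n, ((if (i ∈ a ↔ i + 1 ∈ a) then 0 else 1) * v (sg i a)) * w a =
      ∑ a ∈ cfn L n, v a * ((if (i ∈ a ↔ i + 1 ∈ a) then 0 else 1) * w (sg i a)) := by
    refine Finset.sum_nbij' (sg i) (sg i) (fun a ha => (sg_mem_cfn hi).2 ha)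
      (fun a ha => (sg_mem_cfn hi).2 ha) (fun a _ => sg_sg i a) (fun a _ => sg_sg i a)
      (fun a _ => ?_)
    rw [sg_sg]
    by_cases h : i ∈ a ↔ i + 1 ∈ a
    · rw [if_pos h, if_pos ((PairA_sg i a).2 h)]
      ring
    · rw [if_neg h, if_neg (fun h' => h ((PairA_sg i a).1 h'))]
      ring
  have h2 : BF L n (fun _ => 1) (Eq q i v) w =
      ∑ a ∈ cfn L n, ((if (i ∈ a ↔ i + 1 ∈ a) then 0 else if i ∈ a then -q else -q⁻¹) *
        v a) * w a +
      ∑ a ∈ cfn L n, ((if (i ∈ a ↔ i + 1 ∈ a) then 0 else 1) * v (sg i a)) * w a := by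
    rw [← Finset.sum_add_distrib]
    refine Finset.sum_congr rfl fun a _ => ?_
    rw [Eq_apply q i v a]
    ring
  have h3 : BF L n (fun _ => 1) v (Eq q i w) =
      ∑ a ∈ cfn L n, ((if (i ∈ a ↔ i + 1 ∈ a) then 0 else if i ∈ a then -q else -q⁻¹) *
        v a) * w a +
      ∑ a ∈ cfn L n, v a * ((if (i ∈ a ↔ i + 1 ∈ a) then 0 else 1) * w (sg i a)) := by
    rw [← Finset.sum_add_distrib]
    refine Finset.sum_congr rfl fun a _ => ?_
    rw [Eq_apply q i w a]
    ring
  rw [h2, h3, h1]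

theorem wt_Eq {L n i : ℕ} (hi : i + 1 < L) (q : ℂ) {v : Vec} (h : Wt L n v) : Wt L n (Eq q i v) := by
  intro s hs
  have hs' : sg i s ∉ cfn L n := fun h1 => hs ((sg_mem_cfn hi).mp h1)
  rw [Eq_apply, h _ hs, h _ hs']
  ring

theorem wt_dE {L n : ℕ} (i : ℕ) {v : Vec} (h : Wt L n v) : Wt L n (dE i v) := by
  intro s hs
  rw [dE_apply, h _ hs, mul_zero]

/-- product rule at `q = om` -/
theorem Eq_hasDeriv (i : ℕ) {v : ℂ → Vec} {v' : Vec} (h : ∀ s, HasDerivAt (fun q => v q s) (v' s) om) (s : Finset ℕ) :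
    HasDerivAt (fun q => Eq q i (v q) s) (dE i (v om) s + ee i v' s) om := by
  have hinv : HasDerivAt (fun q : ℂ => -q⁻¹) om om := by
    have h1 := (hasDerivAt_inv om_ne_zero).neg
    have h2 : -(-(om ^ 2)⁻¹) = om := by
      rw [neg_neg]
      apply inv_eq_of_mul_eq_one_right
      linear_combination om_cube
    rw [h2] at h1
    exact h1
  have hid : HasDerivAt (fun q : ℂ => -q) (-1) om := (hasDerivAt_id om).neg
  by_cases h1 : i ∈ s
  · by_cases h2 : i + 1 ∈ s
    · have e1 : (fun q => Eq q i (v q) s) = fun _ => 0 := by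
        funext q
        exact QA_both (iff_of_true h1 h2) q (v q)
      have e2 : dE i (v om) s + ee i v' s = 0 := by
        rw [dE_apply, if_pos (iff_of_true h1 h2), ← Eq_om, QA_both (iff_of_true h1 h2)]
        ring
      rw [e1, e2]
      exact hasDerivAt_const om 0
    · have e1 : (fun q => Eq q i (v q) s) = fun q => -q * v q s + v q (sg i s) := by
        funext q
        exact QA_left h1 h2 q (v q)
      have e2 : dE i (v om) s + ee i v' s = (-1 * v om s + -om * v' s) + v' (sg i s) := by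
        rw [dE_apply, if_neg (fun h3 => h2 (h3.1 h1)), if_pos h1, ← Eq_om, QA_left h1 h2]
        ring
      rw [e1, e2]
      exact (hid.mul (h s)).add (h (sg i s))
  · by_cases h2 : i + 1 ∈ s
    · have e1 : (fun q => Eq q i (v q) s) = fun q => -q⁻¹ * v q s + v q (sg i s) := by
        funext q
        exact QA_right h1 h2 q (v q)
      have e2 : dE i (v om) s + ee i v' s = (om * v om s + -om⁻¹ * v' s) + v' (sg i s) := by
        rw [dE_apply, if_neg (fun h3 => h1 (h3.2 h2)), if_neg h1, ← Eq_om, QA_right h1 h2]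
        ring
      rw [e1, e2]
      exact (hinv.mul (h s)).add (h (sg i s))
    · have e1 : (fun q => Eq q i (v q) s) = fun _ => 0 := by
        funext q
        exact QA_both (iff_of_false h1 h2) q (v q)
      have e2 : dE i (v om) s + ee i v' s = 0 := by
        rw [dE_apply, if_pos (iff_of_false h1 h2), ← Eq_om, QA_both (iff_of_false h1 h2)]
        ring
      rw [e1, e2]
      exact hasDerivAt_const om 0

end NX
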