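import Pool.Agent.Lib.MP_216314_pr.X.PolB

/-!
# Generic `q`: Demazure-Lusztig operators on polynomials

Adapt the proofs of `PX.Tp_spec`, `PX.Tp_sq`, `PX.Tp_comm`, `PX.Tp_braid`, `PX.Tp_eigen`, `PX.Tp_eval` (files `X/PolA.lean`, `X/PolB.lean`):
`sp i` exchanges the variables `X i`, `X (i+1)`, `dd i` is the divided difference (`PX.dd_spec`); the calculus of `sp` is in `PX.PolB_mul`, `PolB_add`, ..., `PolB_braid`.
Useful trick: introduce `Q = C q`, `R = C q⁻¹` with `Q * R = 1` and prove the identities after multiplication with the (nonzero) differences of the variables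
(`PX.X_sub_ne`, `mul_left_cancel₀`) by `linear_combination`, or evaluate at points with distinct coordinates (`PX.ext_of_ne`) and use `Tq_eval` and `field_simp; ring`.
For the braid relation the second method is recommended: both sides are combinations of the six values `eval` at the permuted points of `y`.
-/

set_option autoImplicit false

noncomputable section

namespace NX

open Finset MvPolynomial PX

/-- Hecke operator -/
def Tq (q : ℂ) (i : ℕ) (f : MP) : MP := -C q⁻¹ * sp i f + C (q⁻¹ - q) * X (i + 1) * dd i f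

theorem Tq_om (i : ℕ) (f : MP) : Tq om i f = Tp i f := by
  unfold Tq Tp
  rw [om_inv]

theorem Tq_spec (q : ℂ) (i : ℕ) (f : MP) : (X i - X (i + 1)) * Tq q i f =
    C (q⁻¹ - q) * X (i + 1) * f - (C q⁻¹ * X i - C q * X (i + 1)) * sp i f := by
  have h := dd_spec i f
  have h2 : (C (q⁻¹ - q) : MP) = C q⁻¹ - C q := by rw [map_sub]
  unfold Tq
  rw [h2]
  linear_combination ((C q⁻¹ - C q) * X (i + 1)) * h

theorem Tq_eval (q : ℂ) (i : ℕ) (f : MP) (y : ℕ → ℂ) (h : y i ≠ y (i + 1)) : eval y (Tq q i f) =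
    ((q⁻¹ - q) * y (i + 1) * eval y f - (q⁻¹ * y i - q * y (i + 1)) * eval (sw i y) f) /
      (y i - y (i + 1)) := by
  have h1 := congrArg (eval y) (Tq_spec q i f)
  simp only [map_mul, map_sub, eval_X, eval_C, eval_sp] at h1
  rw [eq_div_iff (sub_ne_zero.2 h), mul_comm, h1]

theorem Tq_add (q : ℂ) (i : ℕ) (f g : MP) : Tq q i (f + g) = Tq q i f + Tq q i g := by
  apply mul_left_cancel₀ (X_sub_ne i (i + 1) (by omega))
  rw [mul_add, Tq_spec, Tq_spec, Tq_spec, PolB_add]
  ring

theorem Tq_C_mul (q : ℂ) (i : ℕ) (c : ℂ) (f : MP) : Tq q i (C c * f) = C c * Tq q i f := by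
  apply mul_left_cancel₀ (X_sub_ne i (i + 1) (by omega))
  rw [Tq_spec, PolB_mul, PolB_C]
  linear_combination (-C c) * Tq_spec q i f

private theorem QB_spec (q : ℂ) (i : ℕ) (f : MP) : (X i - X (i + 1)) * Tq q i f =
    (C q⁻¹ - C q) * X (i + 1) * f - (C q⁻¹ * X i - C q * X (i + 1)) * sp i f := by
  rw [Tq_spec, map_sub]

/-- quadratic relation -/
theorem Tq_sq {q : ℂ} (hq : q ≠ 0) (i : ℕ) (f : MP) : Tq q i (Tq q i f) = C (q - q⁻¹) * Tq q i f + f := by
  have h2 : (C (q - q⁻¹) : MP) = C q - C q⁻¹ := by rw [map_sub]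
  have hne : (X i - X (i + 1) : MP) ^ 2 ≠ 0 := pow_ne_zero _ (X_sub_ne i (i + 1) (by omega))
  have hQR : (C q : MP) * C q⁻¹ = 1 := by rw [← map_mul, mul_inv_cancel₀ hq, map_one]
  apply mul_left_cancel₀ hne
  have e1 := QB_spec q i f
  have e2 := congrArg (sp i) e1
  simp only [PolB_mul, PolB_sub, PolB_C, PolB_X1, PolB_X2, PolB_invol] at e2
  have e3 := QB_spec q i (Tq q i f)
  rw [h2]
  set a : MP := X i
  set b : MP := X (i + 1)
  set Q : MP := C q
  set R : MP := C q⁻¹
  linear_combination (a - b) * e3 + (R - Q) * b * e1 + (R * a - Q * b) * e2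
    - (a - b) * (Q - R) * e1 + (a - b) ^ 2 * f * hQR

theorem Tq_comm {q : ℂ} (hq : q ≠ 0) {i j : ℕ} (h : i + 2 ≤ j) (f : MP) : Tq q i (Tq q j f) = Tq q j (Tq q i f) := by
  have hne : (X i - X (i + 1) : MP) * (X j - X (j + 1)) ≠ 0 :=
    mul_ne_zero (X_sub_ne i (i + 1) (by omega)) (X_sub_ne j (j + 1) (by omega))
  apply mul_left_cancel₀ hne
  have s1 : sp i (X j) = X j := PolB_X3 i j (by omega) (by omega)
  have s2 : sp i (X (j + 1)) = X (j + 1) := PolB_X3 i (j + 1) (by omega) (by omega)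
  have s3 : sp j (X i) = X i := PolB_X3 j i (by omega) (by omega)
  have s4 : sp j (X (i + 1)) = X (i + 1) := PolB_X3 j (i + 1) (by omega) (by omega)
  have hL := QB_spec q i (Tq q j f)
  have hK := QB_spec q j f
  have hsK := congrArg (sp i) hK
  simp only [PolB_mul, PolB_sub, PolB_C, s1, s2] at hsK
  have hR := QB_spec q j (Tq q i f)
  have hM := QB_spec q i f
  have htM := congrArg (sp j) hM
  simp only [PolB_mul, PolB_sub, PolB_C, s3, s4] at htM
  rw [PolB_comm h f] at hsK
  set a : MP := X i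
  set b : MP := X (i + 1)
  set c : MP := X j
  set d : MP := X (j + 1)
  set Q : MP := C q
  set R : MP := C q⁻¹
  linear_combination (c - d) * hL + (R - Q) * b * hK - (R * a - Q * b) * hsK
    - (a - b) * hR - (R - Q) * d * hM + (R * c - Q * d) * htM

theorem Tq_eigen {q : ℂ} (hq : q ≠ 0) (i : ℕ) (h : MP) (hh : sp i h = h) :
    Tq q i ((C q⁻¹ * X i - C q * X (i + 1)) * h) = C q * ((C q⁻¹ * X i - C q * X (i + 1)) * h) := by
  apply mul_left_cancel₀ (X_sub_ne i (i + 1) (by omega))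
  rw [QB_spec]
  simp only [PolB_mul, PolB_sub, PolB_C, PolB_X1, PolB_X2, hh]
  ring

end NX
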