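import Pool.Agent.Lib.MP_216314_pr.N.QB

/-!
# Generic `q`: the braid relation

Evaluate at points with three distinct coordinates `y i, y (i+1), y (i+2)` (`PX.ext_of_ne`), use `Tq_eval` repeatedly (at the permuted points `sw i y`, `sw (i+1) y`, ...; `PX.sw_left`, `sw_right`, `sw_of_ne`, `PX.sw_sw`;
`sw i (sw (i+1) (sw i y)) = sw (i+1) (sw i (sw (i+1) y))`): both sides are combinations of the six values of `f` at the permuted points; name the six values and the three coordinates and finish with `field_simp; ring` for each of the six coefficients.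
Alternatively imitate `PX.Tp_braid` (`X/PolB.lean`).
-/

set_option autoImplicit false

noncomputable section

namespace NX

open Finset MvPolynomial PX

private theorem QBb_spec (q : ℂ) (i : ℕ) (f : MP) : (X i - X (i + 1)) * Tq q i f =
    (C q⁻¹ - C q) * X (i + 1) * f + (C q * X (i + 1) - C q⁻¹ * X i) * sp i f := by
  have h2 : (C (q⁻¹ - q) : MP) = C q⁻¹ - C q := by rw [map_sub]
  rw [Tq_spec, h2]
  ring

/-- braid relation -/
theorem Tq_braid {q : ℂ} (hq : q ≠ 0) (i : ℕ) (f : MP) :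
    Tq q i (Tq q (i + 1) (Tq q i f)) = Tq q (i + 1) (Tq q i (Tq q (i + 1) f)) := by
  have hne : ((X i - X (i + 1) : MP) ^ 2 * (X (i + 1) - X (i + 1 + 1)) ^ 2) *
      (X i - X (i + 1 + 1)) ≠ 0 :=
    mul_ne_zero (mul_ne_zero (pow_ne_zero _ (X_sub_ne i (i + 1) (by omega)))
      (pow_ne_zero _ (X_sub_ne (i + 1) (i + 1 + 1) (by omega))))
      (X_sub_ne i (i + 1 + 1) (by omega))
  apply mul_left_cancel₀ hne
  have s1 : sp i (X (i + 1 + 1)) = X (i + 1 + 1) := PolB_X3 i (i + 1 + 1) (by omega) (by omega)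
  have s2 : sp (i + 1) (X i) = X i := PolB_X3 (i + 1) i (by omega) (by omega)
  have hG1 := QBb_spec q i f
  have htG1 := congrArg (sp (i + 1)) hG1
  simp only [PolB_mul, PolB_add, PolB_sub, PolB_C, PolB_X1,
    PolB_X2, s2] at htG1
  have hsG1 := congrArg (sp i) hG1
  simp only [PolB_mul, PolB_add, PolB_sub, PolB_C, PolB_X1,
    PolB_X2, PolB_invol] at hsG1
  have hstG1 := congrArg (sp i) htG1
  simp only [PolB_mul, PolB_add, PolB_sub, PolB_C, PolB_X1,
    PolB_X2, s1] at hstG1
  have hG2 := QBb_spec q (i + 1) (Tq q i f)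
  have hsG2 := congrArg (sp i) hG2
  simp only [PolB_mul, PolB_add, PolB_sub, PolB_C, PolB_X1,
    PolB_X2, s1] at hsG2
  have hG3 := QBb_spec q i (Tq q (i + 1) (Tq q i f))
  have hK1 := QBb_spec q (i + 1) f
  have hsK1 := congrArg (sp i) hK1
  simp only [PolB_mul, PolB_add, PolB_sub, PolB_C, PolB_X1,
    PolB_X2, s1] at hsK1
  have htK1 := congrArg (sp (i + 1)) hK1
  simp only [PolB_mul, PolB_add, PolB_sub, PolB_C, PolB_X1,
    PolB_X2, PolB_invol] at htK1
  have htsK1 := congrArg (sp (i + 1)) hsK1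
  simp only [PolB_mul, PolB_add, PolB_sub, PolB_C, PolB_X1,
    PolB_X2, s2] at htsK1
  have hK2 := QBb_spec q i (Tq q (i + 1) f)
  have htK2 := congrArg (sp (i + 1)) hK2
  simp only [PolB_mul, PolB_add, PolB_sub, PolB_C, PolB_X1,
    PolB_X2, s2] at htK2
  have hK3 := QBb_spec q (i + 1) (Tq q i (Tq q (i + 1) f))
  rw [← PolB_braid i f] at htsK1
  set x : MP := X i
  set y : MP := X (i + 1)
  set z : MP := X (i + 1 + 1)
  set Q : MP := C q
  set R : MP := C q⁻¹
  linear_combination (x - y) * (y - z) ^ 2 * (x - z) * hG3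
    + (x - y) * (y - z) * (x - z) * ((R - Q) * y) * hG2
    + (x - y) * (y - z) ^ 2 * (Q * y - R * x) * hsG2
    + (y - z) * (x - z) * ((R - Q) * y) * ((R - Q) * z) * hG1
    + (x - y) * (y - z) * ((R - Q) * y) * (Q * z - R * y) * htG1
    - (y - z) ^ 2 * (Q * y - R * x) * ((R - Q) * z) * hsG1
    + (x - y) * (y - z) * (Q * y - R * x) * (Q * z - R * x) * hstG1
    - (x - y) ^ 2 * (y - z) * (x - z) * hK3
    - (x - y) * (y - z) * (x - z) * ((R - Q) * z) * hK2
    - (x - y) ^ 2 * (y - z) * (Q * z - R * y) * htK2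
    - (x - y) * (x - z) * ((R - Q) * z) * ((R - Q) * y) * hK1
    - (x - y) * (y - z) * ((R - Q) * z) * (Q * y - R * x) * hsK1
    + (x - y) ^ 2 * (Q * z - R * y) * ((R - Q) * z) * htK1
    - (x - y) * (y - z) * (Q * z - R * y) * (Q * z - R * x) * htsK1

end NX
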