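import Pool.Agent.Lib.MP_216314_pr.N.QBb
import Pool.Agent.Lib.MP_216314_pr.X.GPolB

/-!
# Generic `q`: the polynomial solution `GPq q L a` (`a` = set of up spins)

Adapt `X/GPolA.lean` (`GP`, `GP_asc`, `GP_desc`, `GP_asc'`) with the Hecke relations of `N/QB.lean`.
-/

set_option autoImplicit false

noncomputable section

namespace NX

open Finset MvPolynomial PX

/-- factor of two up spins -/
def PAq (q : ℂ) (i j : ℕ) : MP := C (q ^ 2) * (C (q ^ 2)⁻¹ * X i - X j) * (C (q ^ 4) - X i * X j)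

/-- factor of two down spins -/
def PBq (q : ℂ) (i j : ℕ) : MP := (C (q ^ 2)⁻¹ * X i - X j) * (X i * X j - C (q ^ 2))

/-- the component of the configuration `{0, ..., n-1}`, `n = L / 2` -/
def G0q (q : ℂ) (L : ℕ) : MP :=
  (∏ i ∈ range (L / 2), X i) ^ (L % 2) * (∏ j ∈ range (L / 2), ∏ i ∈ range j, PAq q i j) *
    ∏ j ∈ Ico (L / 2) L, ∏ i ∈ Ico (L / 2) j, PBq q i j

open Classical in
/-- the polynomial of the configuration `a`; the up spins are moved to the left -/
def GPq (q : ℂ) (L : ℕ) (a : Finset ℕ) : MP :=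
  if h : ∃ i, i ∉ a ∧ i + 1 ∈ a then Tq q (Nat.find h) (GPq q L (sg (Nat.find h) a)) else G0q q L
termination_by a.sum id
decreasing_by
  have h1 := Nat.find_spec h
  have h2 := sum_sg h1.1 h1.2
  omega

private theorem QC_inv : ((om : ℂ) ^ 2)⁻¹ = om := by
  have h := om_cube
  have h0 : (om : ℂ) ≠ 0 := by
    intro h0
    rw [h0] at h
    norm_num at h
  exact inv_eq_of_mul_eq_one_right (by linear_combination h)

private theorem QC_four : (om : ℂ) ^ 4 = om := by
  linear_combination om * om_cube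

theorem G0q_om (L : ℕ) : G0q om L = G0 L := by
  have h1 : ∀ i j, PAq om i j = PA i j := by
    intro i j
    unfold PAq PA
    rw [QC_inv, QC_four]
  have h2 : ∀ i j, PBq om i j = PB i j := by
    intro i j
    unfold PBq PB
    rw [QC_inv]
  unfold G0q G0
  simp only [h1, h2]

theorem GPq_om (L : ℕ) (a : Finset ℕ) : GPq om L a = GP L a := by
  induction hn : a.sum id using Nat.strong_induction_on generalizing a with
  | _ n ih =>
    rw [GPq, GP]
    by_cases h : ∃ i, i ∉ a ∧ i + 1 ∈ a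
    · rw [dif_pos h, dif_pos h, Tq_om]
      have h1 := Nat.find_spec h
      have h2 := sum_sg h1.1 h1.2
      rw [ih _ (by omega) (sg (Nat.find h) a) rfl]
    · rw [dif_neg h, dif_neg h, G0q_om]

private theorem QC_find_not (q : ℂ) (a : Finset ℕ) (h : ∀ i, ¬ (i ∉ a ∧ i + 1 ∈ a)) (L : ℕ) :
    GPq q L a = G0q q L := by
  rw [GPq]
  rw [dif_neg]
  rintro ⟨i, hi⟩
  exact h i hi

theorem GPq_range (q : ℂ) (L n : ℕ) : GPq q L (range n) = G0q q L := by
  apply QC_find_not
  rintro i ⟨h1, h2⟩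
  rw [mem_range] at h1 h2
  omega

private theorem QC_find (q : ℂ) (L : ℕ) (a : Finset ℕ) (h : ∃ i, i ∉ a ∧ i + 1 ∈ a) :
    ∃ i0, (i0 ∉ a ∧ i0 + 1 ∈ a) ∧ (∀ j, j ∉ a ∧ j + 1 ∈ a → i0 ≤ j) ∧
      GPq q L a = Tq q i0 (GPq q L (sg i0 a)) := by
  classical
  refine ⟨Nat.find h, Nat.find_spec h, fun j hj => Nat.find_min' h hj, ?_⟩
  conv_lhs => rw [GPq]
  rw [dif_pos h]

/-- every ascent may be used -/
theorem GPq_asc {q : ℂ} (hq : q ≠ 0) (L i : ℕ) (a : Finset ℕ) (h : i ∉ a) (h' : i + 1 ∈ a) :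
    GPq q L a = Tq q i (GPq q L (sg i a)) := by
  induction hn : a.sum id using Nat.strong_induction_on generalizing a i with
  | _ n ih =>
    obtain ⟨i0, ⟨h1, h2⟩, hmin, hGP⟩ := QC_find q L a ⟨i, h, h'⟩
    have hle := hmin i ⟨h, h'⟩
    rcases Nat.eq_or_lt_of_le hle with heq | hlt
    · rw [← heq]
      exact hGP
    · have hne : i0 + 1 ≠ i := by
        rintro rfl
        exact h h2
      have h3 : i0 + 2 ≤ i := by omega
      have hs1 := sum_sg h1 h2
      have hs2 := sum_sg h h'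
      have hi1 : i ∉ sg i0 a := by
        rw [mem_sg, Equiv.swap_apply_of_ne_of_ne (by omega) (by omega)]
        exact h
      have hi2 : i + 1 ∈ sg i0 a := by
        rw [mem_sg, Equiv.swap_apply_of_ne_of_ne (by omega) (by omega)]
        exact h'
      have hj1 : i0 ∉ sg i a := by
        rw [mem_sg, Equiv.swap_apply_of_ne_of_ne (by omega) (by omega)]
        exact h1
      have hj2 : i0 + 1 ∈ sg i a := by
        rw [mem_sg, Equiv.swap_apply_of_ne_of_ne (by omega) (by omega)]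
        exact h2
      have e1 := ih _ (by omega) i (sg i0 a) hi1 hi2 rfl
      have e2 := ih _ (by omega) i0 (sg i a) hj1 hj2 rfl
      rw [hGP, e1, e2, Tq_comm hq h3, gpolA_sg_comm h3]

/-- descent -/
theorem GPq_desc {q : ℂ} (hq : q ≠ 0) (L i : ℕ) (a : Finset ℕ) (h : i ∈ a) (h' : i + 1 ∉ a) :
    Tq q i (GPq q L a) = GPq q L (sg i a) := by
  have h1 : i ∉ sg i a := by rw [mem_sg, Equiv.swap_apply_left]; exact h'
  have h2 : i + 1 ∈ sg i a := by rw [mem_sg, Equiv.swap_apply_right]; exact h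
  rw [GPq_asc hq L i (sg i a) h1 h2, sg_sg]

/-- ascent -/
theorem GPq_asc' {q : ℂ} (hq : q ≠ 0) (L i : ℕ) (a : Finset ℕ) (h : i ∉ a) (h' : i + 1 ∈ a) :
    Tq q i (GPq q L a) = C (q - q⁻¹) * GPq q L a + GPq q L (sg i a) := by
  rw [GPq_asc hq L i a h h', Tq_sq hq]

end NX
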