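import Pool.Agent.Lib.MP_216314_pr.N.QC

/-!
# Generic `q`: neighbouring equal spins

Adapt `X/GPolB.lean` (`G0_factor`, `GP_eq`) with the Hecke relations of `N/QB.lean` and `GPq_asc`, `GPq_desc`, `GPq_asc'`, `GPq_range` of `N/QC.lean`.
`PAq q i j`, `PBq q i j` contain the factor `(q ^ 2)⁻¹ X i - X j = q⁻¹ (q⁻¹ X i - q X j)` and a symmetric factor.
-/

set_option autoImplicit false

noncomputable section

namespace NX

open Finset MvPolynomial PX

private theorem QCe_swap (i k : ℕ) :
    Equiv.swap i (i + 1) k = if k = i then i + 1 else if k = i + 1 then i else k := by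
  rw [Equiv.swap_apply_def]

private theorem QCe_sp_mul (i : ℕ) (f g : MP) : sp i (f * g) = sp i f * sp i g := by
  unfold sp
  rw [map_mul]

private theorem QCe_sp_prod {ι : Type} (i : ℕ) (s : Finset ι) (f : ι → MP) :
    sp i (∏ k ∈ s, f k) = ∏ k ∈ s, sp i (f k) := by
  unfold sp
  rw [map_prod]

private theorem QCe_sp_pow (i : ℕ) (f : MP) (n : ℕ) : sp i (f ^ n) = sp i f ^ n := by
  unfold sp
  rw [map_pow]

private theorem QCe_sp_X (i k : ℕ) : sp i (X k) = X (Equiv.swap i (i + 1) k) := by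
  unfold sp
  rw [rename_X]

private theorem QCe_sp_PA (q : ℂ) (i a b : ℕ) :
    sp i (PAq q a b) = PAq q (Equiv.swap i (i + 1) a) (Equiv.swap i (i + 1) b) := by
  unfold sp PAq
  simp only [map_mul, map_sub, rename_C, rename_X]

private theorem QCe_sp_PB (q : ℂ) (i a b : ℕ) :
    sp i (PBq q a b) = PBq q (Equiv.swap i (i + 1) a) (Equiv.swap i (i + 1) b) := by
  unfold sp PBq
  simp only [map_mul, map_sub, rename_C, rename_X]

/-- the pair `i`, `i+1` lies in the interval -/
private theorem QCe_in (i l m : ℕ) (F : ℕ → ℕ → MP)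
    (hF : ∀ a b, sp i (F a b) = F (Equiv.swap i (i + 1) a) (Equiv.swap i (i + 1) b))
    (hl : l ≤ i) (hm : i + 1 < m) :
    ∃ g : MP, sp i g = g ∧ ∏ b ∈ Ico l m, ∏ a ∈ Ico l b, F a b = F i (i + 1) * g := by
  rw [Finset.prod_sigma']
  have hmem : (⟨i + 1, i⟩ : Σ _ : ℕ, ℕ) ∈ (Ico l m).sigma fun b => Ico l b := by
    rw [Finset.mem_sigma, Finset.mem_Ico, Finset.mem_Ico]
    simp only
    omega
  refine ⟨∏ x ∈ ((Ico l m).sigma fun b => Ico l b).erase ⟨i + 1, i⟩, F x.2 x.1, ?_, ?_⟩
  · rw [QCe_sp_prod]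
    refine Finset.prod_bij
      (fun x _ => (⟨Equiv.swap i (i + 1) x.1, Equiv.swap i (i + 1) x.2⟩ : Σ _ : ℕ, ℕ)) ?_ ?_ ?_ ?_
    · rintro ⟨b, a⟩ hx
      simp only [Finset.mem_erase, Finset.mem_sigma, Finset.mem_Ico, ne_eq, Sigma.mk.injEq,
        heq_eq_eq, not_and, QCe_swap] at hx ⊢
      split_ifs <;> omega
    · rintro ⟨b, a⟩ _ ⟨b', a'⟩ _ hab
      simp only [Sigma.mk.injEq, heq_eq_eq] at hab ⊢
      exact ⟨(Equiv.swap i (i + 1)).injective hab.1, (Equiv.swap i (i + 1)).injective hab.2⟩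
    · rintro ⟨b, a⟩ hx
      refine ⟨⟨Equiv.swap i (i + 1) b, Equiv.swap i (i + 1) a⟩, ?_, ?_⟩
      · simp only [Finset.mem_erase, Finset.mem_sigma, Finset.mem_Ico, ne_eq, Sigma.mk.injEq,
          heq_eq_eq, not_and, QCe_swap] at hx ⊢
        split_ifs <;> omega
      · simp only [Equiv.swap_apply_self]
    · rintro ⟨b, a⟩ _
      exact hF a b
  · rw [← Finset.mul_prod_erase _ _ hmem]

/-- the pair `i`, `i+1` lies outside the interval -/
private theorem QCe_out (i l m : ℕ) (F : ℕ → ℕ → MP)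
    (hF : ∀ a b, sp i (F a b) = F (Equiv.swap i (i + 1) a) (Equiv.swap i (i + 1) b))
    (h : i + 1 < l ∨ m ≤ i) :
    sp i (∏ b ∈ Ico l m, ∏ a ∈ Ico l b, F a b) = ∏ b ∈ Ico l m, ∏ a ∈ Ico l b, F a b := by
  rw [QCe_sp_prod]
  refine Finset.prod_congr rfl fun b hb => ?_
  rw [QCe_sp_prod]
  refine Finset.prod_congr rfl fun a ha => ?_
  rw [Finset.mem_Ico] at hb ha
  rw [hF, Equiv.swap_apply_of_ne_of_ne (by omega) (by omega),
    Equiv.swap_apply_of_ne_of_ne (by omega) (by omega)]

private theorem QCe_X (i n : ℕ) (h : i + 1 ≠ n) :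
    sp i (∏ k ∈ range n, X k) = ∏ k ∈ range n, X k := by
  rw [QCe_sp_prod]
  refine Finset.prod_bij (fun k _ => Equiv.swap i (i + 1) k) ?_ ?_ ?_ ?_
  · intro k hk
    rw [Finset.mem_range, QCe_swap] at *
    split_ifs <;> omega
  · intro a _ b _ hab
    exact (Equiv.swap i (i + 1)).injective hab
  · intro k hk
    refine ⟨Equiv.swap i (i + 1) k, ?_, Equiv.swap_apply_self _ _ _⟩
    rw [Finset.mem_range, QCe_swap] at *
    split_ifs <;> omega
  · intro k _
    exact QCe_sp_X i k

/-- the component of the sorted configuration is `(q⁻¹ X_i - q X_{i+1})` times a symmetric polynomial -/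
theorem QCe_factor {q : ℂ} (hq : q ≠ 0) (L i : ℕ) (hi : i + 1 < L) (h : i + 1 ≠ L / 2) :
    ∃ f : MP, sp i f = f ∧ G0q q L = (C q⁻¹ * X i - C q * X (i + 1)) * f := by
  have hQR : (C q⁻¹ : MP) * C q = 1 := by
    rw [← C_mul, inv_mul_cancel₀ hq, C_1]
  have hQ2 : (C (q ^ 2)⁻¹ : MP) = C q⁻¹ * C q⁻¹ := by
    rw [← C_mul]
    refine congrArg C ?_
    rw [pow_two, mul_inv]
  have hlin : (C (q ^ 2)⁻¹ * X i - X (i + 1) : MP) = C q⁻¹ * (C q⁻¹ * X i - C q * X (i + 1)) := by
    rw [hQ2]
    linear_combination (X (i + 1) : MP) * hQR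
  unfold G0q
  rw [Finset.range_eq_Ico]
  simp only [Finset.range_eq_Ico]
  have hX : sp i ((∏ k ∈ Ico 0 (L / 2), X k) ^ (L % 2)) = (∏ k ∈ Ico 0 (L / 2), X k) ^ (L % 2) := by
    rw [QCe_sp_pow, ← Finset.range_eq_Ico, QCe_X i _ h]
  rcases Nat.lt_or_ge (i + 1) (L / 2) with h1 | h1
  · obtain ⟨g, hg, e⟩ := QCe_in i 0 (L / 2) (PAq q) (QCe_sp_PA q i) (Nat.zero_le _) h1
    have h2 := QCe_out i (L / 2) L (PBq q) (QCe_sp_PB q i) (Or.inl h1)
    refine ⟨(∏ k ∈ Ico 0 (L / 2), X k) ^ (L % 2) *
      (C (q ^ 2) * C q⁻¹ * (C (q ^ 4) - X i * X (i + 1))) * g *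
      ∏ j ∈ Ico (L / 2) L, ∏ i ∈ Ico (L / 2) j, PBq q i j, ?_, ?_⟩
    · rw [QCe_sp_mul, QCe_sp_mul, QCe_sp_mul, h2, hg, hX]
      have h3 : sp i (C (q ^ 2) * C q⁻¹ * (C (q ^ 4) - X i * X (i + 1)) : MP) =
          C (q ^ 2) * C q⁻¹ * (C (q ^ 4) - X i * X (i + 1)) := by
        unfold sp
        simp only [map_mul, map_sub, rename_C, rename_X, Equiv.swap_apply_left,
          Equiv.swap_apply_right]
        ring
      rw [h3]
    · rw [e]
      unfold PAq
      rw [hlin]
      ring
  · have h1' : L / 2 ≤ i := by omega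
    obtain ⟨g, hg, e⟩ := QCe_in i (L / 2) L (PBq q) (QCe_sp_PB q i) h1' hi
    have h2 := QCe_out i 0 (L / 2) (PAq q) (QCe_sp_PA q i) (Or.inr h1')
    refine ⟨(∏ k ∈ Ico 0 (L / 2), X k) ^ (L % 2) * (C q⁻¹ * (X i * X (i + 1) - C (q ^ 2))) * g *
      ∏ j ∈ Ico 0 (L / 2), ∏ i ∈ Ico 0 j, PAq q i j, ?_, ?_⟩
    · rw [QCe_sp_mul, QCe_sp_mul, QCe_sp_mul, h2, hg, hX]
      have h3 : sp i (C q⁻¹ * (X i * X (i + 1) - C (q ^ 2)) : MP) =
          C q⁻¹ * (X i * X (i + 1) - C (q ^ 2)) := by
        unfold sp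
        simp only [map_mul, map_sub, rename_C, rename_X, Equiv.swap_apply_left,
          Equiv.swap_apply_right]
        ring
      rw [h3]
    · rw [e]
      unfold PBq
      rw [hlin]
      ring

/-- neighbouring equal spins -/
theorem GPq_eq {q : ℂ} (hq : q ≠ 0) (L i : ℕ) (a : Finset ℕ) (ha : a ∈ cfn L (L / 2)) (hi : i + 1 < L)
    (h : i ∈ a ↔ i + 1 ∈ a) : Tq q i (GPq q L a) = C q * GPq q L a := by
  have main : ∀ N : ℕ, ∀ (i : ℕ) (a : Finset ℕ), a.sum id = N → a ∈ cfn L (L / 2) → i + 1 < L →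
      (i ∈ a ↔ i + 1 ∈ a) → Tq q i (GPq q L a) = C q * GPq q L a := by
    intro N
    induction N using Nat.strong_induction_on with
    | _ N ih =>
      intro i a haN ha hi h
      by_cases hasc : ∃ j, j ∉ a ∧ j + 1 ∈ a
      · obtain ⟨j, hj, hj'⟩ := hasc
        have hjL : j + 1 < L := Finset.mem_range.mp ((mem_cfn.mp ha).1 hj')
        have hji : j ≠ i := by
          rintro rfl
          exact hj (h.mpr hj')
        have hGa : GPq q L a = Tq q j (GPq q L (sg j a)) := GPq_asc hq L j a hj hj'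
        have hbs : (sg j a).sum id + 1 = a.sum id := sum_sg hj hj'
        have hbc : sg j a ∈ cfn L (L / 2) := (sg_mem_cfn hjL).mpr ha
        have hmb : ∀ k, k ∈ sg j a ↔
            (if k = j then j + 1 else if k = j + 1 then j else k) ∈ a := by
          intro k
          rw [mem_sg, QCe_swap]
        rcases Nat.lt_trichotomy (i + 1) j with h1 | h1 | h1
        · -- far, j to the right
          have hb : i ∈ sg j a ↔ i + 1 ∈ sg j a := by
            rw [hmb, hmb, if_neg (by omega), if_neg (by omega), if_neg (by omega),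
              if_neg (by omega)]
            exact h
          have h2 := ih _ (by omega) i (sg j a) rfl hbc hi hb
          rw [hGa, Tq_comm hq (by omega : i + 2 ≤ j), h2, Tq_C_mul]
        · -- j = i + 1
          subst h1
          have hia : i ∉ a := fun h3 => hj (h.mp h3)
          have b1 : i ∉ sg (i + 1) a := by
            rw [hmb, if_neg (by omega), if_neg (by omega)]
            exact hia
          have b2 : i + 1 ∈ sg (i + 1) a := by
            rw [hmb, if_pos rfl]
            exact hj'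
          have b3 : i + 2 ∉ sg (i + 1) a := by
            rw [hmb, if_neg (by omega), if_pos rfl]
            exact hj
          have hGb : GPq q L (sg (i + 1) a) = Tq q i (GPq q L (sg i (sg (i + 1) a))) :=
            GPq_asc hq L i _ b1 b2
          have hcs := sum_sg b1 b2
          have hcc : sg i (sg (i + 1) a) ∈ cfn L (L / 2) := (sg_mem_cfn hi).mpr hbc
          have hmc : ∀ k, k ∈ sg i (sg (i + 1) a) ↔
              (if k = i then i + 1 else if k = i + 1 then i else k) ∈ sg (i + 1) a := by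
            intro k
            rw [mem_sg, QCe_swap]
          have hc : i + 1 ∈ sg i (sg (i + 1) a) ↔ i + 1 + 1 ∈ sg i (sg (i + 1) a) := by
            rw [hmc, hmc, if_neg (by omega), if_pos rfl, if_neg (by omega), if_neg (by omega)]
            exact ⟨fun h3 => absurd h3 b1, fun h3 => absurd h3 b3⟩
          have h2 := ih _ (by omega) (i + 1) (sg i (sg (i + 1) a)) rfl hcc (by omega) hc
          rw [hGa, hGb, Tq_braid hq, h2, Tq_C_mul, Tq_C_mul]
        · rcases Nat.lt_or_ge (j + 1) i with h5 | h5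
          · -- far, j to the left
            have hb : i ∈ sg j a ↔ i + 1 ∈ sg j a := by
              rw [hmb, hmb, if_neg (by omega), if_neg (by omega), if_neg (by omega),
                if_neg (by omega)]
              exact h
            have h2 := ih _ (by omega) i (sg j a) rfl hbc hi hb
            rw [hGa, ← Tq_comm hq (by omega : j + 2 ≤ i), h2, Tq_C_mul]
          · -- j + 1 = i
            have h6 : i = j + 1 := by omega
            subst h6
            have hia : j + 1 + 1 ∈ a := h.mp hj'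
            have b1 : j ∈ sg j a := by
              rw [hmb, if_pos rfl]
              exact hj'
            have b2 : j + 1 ∉ sg j a := by
              rw [hmb, if_neg (by omega), if_pos rfl]
              exact hj
            have b3 : j + 1 + 1 ∈ sg j a := by
              rw [hmb, if_neg (by omega), if_neg (by omega)]
              exact hia
            have hGb : GPq q L (sg j a) = Tq q (j + 1) (GPq q L (sg (j + 1) (sg j a))) :=
              GPq_asc hq L (j + 1) _ b2 b3
            have hcs := sum_sg b2 b3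
            have hcc : sg (j + 1) (sg j a) ∈ cfn L (L / 2) := (sg_mem_cfn hi).mpr hbc
            have hmc : ∀ k, k ∈ sg (j + 1) (sg j a) ↔
                (if k = j + 1 then j + 1 + 1 else if k = j + 1 + 1 then j + 1 else k) ∈
                  sg j a := by
              intro k
              rw [mem_sg, QCe_swap]
            have hc : j ∈ sg (j + 1) (sg j a) ↔ j + 1 ∈ sg (j + 1) (sg j a) := by
              rw [hmc, hmc, if_neg (by omega), if_neg (by omega), if_pos rfl]
              exact ⟨fun _ => b3, fun _ => b1⟩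
            have h2 := ih _ (by omega) j (sg (j + 1) (sg j a)) rfl hcc hjL hc
            rw [hGa, hGb, ← Tq_braid hq, h2, Tq_C_mul, Tq_C_mul]
      · push Not at hasc
        have hs : ∀ j, j + 1 ∈ a → j ∈ a := by
          intro j hj
          by_contra h1
          exact hasc j h1 hj
        have hr := eq_range_of_sorted hs
        rw [(mem_cfn.mp ha).2] at hr
        have hne : i + 1 ≠ L / 2 := by
          intro h1
          rw [hr, Finset.mem_range, Finset.mem_range] at h
          omega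
        obtain ⟨f, hf, e⟩ := QCe_factor hq L i hi hne
        rw [hr, GPq_range, e]
        exact Tq_eigen hq i f hf
  exact main _ i a rfl ha hi h

end NX
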