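import Pool.Agent.Lib.MP_216314_pr.N.QCe
import Pool.Agent.Lib.MP_216314_pr.N.QA
import Pool.Agent.Lib.MP_216314_pr.X.GVec
import Pool.Agent.Lib.MP_216314_pr.X.ExchB

/-!
# Generic `q`: the normalised solution and the exchange relations

Adapt `X/GVec.lean` and the proof of `PX.gv_exch` (`X/ExchB.lean`): for `s ∈ cfn L (L/2)` multiply with the power of `∏ y` (invariant under `sw i`, `PX.prod_sw`)
and use `GPq_desc` (`i ∈ s`, `i+1 ∉ s`), `GPq_asc'` (`i ∉ s`, `i+1 ∈ s`), `GPq_eq` (equal spins) together with `Tq_spec` evaluated at `y`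
(i.e. `(y i - y (i+1)) * eval y (Tq q i f) = (q⁻¹ - q) y (i+1) eval y f - (q⁻¹ y i - q y (i+1)) eval (sw i y) f`). Configurations outside `cfn L (L/2)`: both sides vanish (`PX.sg_mem_cfn`).
`gvq_lau`: `PX.gv_lau`.
-/

set_option autoImplicit false

noncomputable section

namespace NX

open Finset MvPolynomial PX

/-- the normalised vector -/
def gvq (q : ℂ) (L : ℕ) (y : ℕ → ℂ) : Vec := fun s =>
  if s ∈ cfn L (L / 2) then eval y (GPq q L s) / (∏ k ∈ range L, y k) ^ ((L - 1) / 2) else 0

theorem gvq_om (L : ℕ) (y : ℕ → ℂ) : gvq om L y = gv L y := by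
  funext s
  unfold gvq gv
  rw [GPq_om]

theorem gvq_wt (q : ℂ) (L : ℕ) (y : ℕ → ℂ) : Wt L (L / 2) (gvq q L y) := by
  intro s hs
  exact if_neg hs

theorem gvq_lau (q : ℂ) (L : ℕ) (s : Finset ℕ) : Lau L (fun y => gvq q L y s) := by
  unfold gvq
  by_cases hs : s ∈ cfn L (L / 2)
  · refine ⟨GPq q L s, (L - 1) / 2, fun y hy => ?_⟩
    beta_reduce
    rw [if_pos hs]
    have h1 : ∏ k ∈ range L, y k ≠ 0 := prod_ne_zero_iff.2 fun k hk => hy k (mem_range.1 hk)
    exact mul_div_cancel₀ _ (pow_ne_zero _ h1)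
  · refine ⟨0, 0, fun y _ => ?_⟩
    beta_reduce
    rw [if_neg hs, mul_zero, map_zero]

/-- the exchange relation at one point -/
def ExR (q : ℂ) (h : (ℕ → ℂ) → Vec) (i : ℕ) (y : ℕ → ℂ) : Prop :=
  ∀ s, (q * y (i + 1) - q⁻¹ * y i) * h (sw i y) s =
    (q * y i - q⁻¹ * y (i + 1)) * h y s + (y i - y (i + 1)) * Eq q i (h y) s

theorem gvq_exch {q : ℂ} (hq : q ≠ 0) {L i : ℕ} (hi : i + 1 < L) (y : ℕ → ℂ) : ExR q (gvq q L) i y := by
  intro s
  by_cases hs : s ∈ cfn L (L / 2)
  · have hsg : sg i s ∈ cfn L (L / 2) := (sg_mem_cfn hi).2 hs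
    have hsw : gvq q L (sw i y) s = eval (sw i y) (GPq q L s) / (∏ k ∈ range L, y k) ^ ((L - 1) / 2) := by
      unfold gvq
      rw [if_pos hs, prod_sw hi]
    have hy : ∀ t, t ∈ cfn L (L / 2) →
        gvq q L y t = eval y (GPq q L t) / (∏ k ∈ range L, y k) ^ ((L - 1) / 2) := by
      intro t ht
      unfold gvq
      rw [if_pos ht]
    have hT : (y i - y (i + 1)) * eval y (Tq q i (GPq q L s)) =
        (q⁻¹ - q) * y (i + 1) * eval y (GPq q L s) -
          (q⁻¹ * y i - q * y (i + 1)) * eval (sw i y) (GPq q L s) := by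
      have h := congrArg (eval y) (Tq_spec q i (GPq q L s))
      simp only [map_mul, map_sub, eval_X, eval_C, eval_sp] at h
      exact h
    rw [Eq_apply, hsw, hy s hs, hy _ hsg]
    by_cases h1 : i ∈ s
    · by_cases h2 : i + 1 ∈ s
      · have hE := GPq_eq hq L i s hs hi (by tauto)
        rw [hE, map_mul, eval_C] at hT
        rw [if_pos (by tauto), if_pos (by tauto)]
        have h3 : (q * y (i + 1) - q⁻¹ * y i) * eval (sw i y) (GPq q L s) =
            (q * y i - q⁻¹ * y (i + 1)) * eval y (GPq q L s) := by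
          linear_combination -hT
        rw [← mul_div_assoc, h3]
        ring
      · have hD := GPq_desc hq L i s h1 h2
        rw [hD] at hT
        rw [if_neg (by tauto), if_pos h1, if_neg (by tauto)]
        have h3 : (q * y (i + 1) - q⁻¹ * y i) * eval (sw i y) (GPq q L s) =
            (q * y i - q⁻¹ * y (i + 1)) * eval y (GPq q L s) + (y i - y (i + 1)) *
              (-q * eval y (GPq q L s) + eval y (GPq q L (sg i s))) := by
          linear_combination -hT
        rw [← mul_div_assoc, h3]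
        ring
    · by_cases h2 : i + 1 ∈ s
      · have hD := GPq_asc' hq L i s h1 h2
        rw [hD, map_add, map_mul, eval_C] at hT
        rw [if_neg (by tauto), if_neg h1, if_neg (by tauto)]
        have h3 : (q * y (i + 1) - q⁻¹ * y i) * eval (sw i y) (GPq q L s) =
            (q * y i - q⁻¹ * y (i + 1)) * eval y (GPq q L s) + (y i - y (i + 1)) *
              (-q⁻¹ * eval y (GPq q L s) + eval y (GPq q L (sg i s))) := by
          linear_combination -hT
        rw [← mul_div_assoc, h3]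
        ring
      · have hE := GPq_eq hq L i s hs hi (by tauto)
        rw [hE, map_mul, eval_C] at hT
        rw [if_pos (by tauto), if_pos (by tauto)]
        have h3 : (q * y (i + 1) - q⁻¹ * y i) * eval (sw i y) (GPq q L s) =
            (q * y i - q⁻¹ * y (i + 1)) * eval y (GPq q L s) := by
          linear_combination -hT
        rw [← mul_div_assoc, h3]
        ring
  · have hsg : sg i s ∉ cfn L (L / 2) := fun h => hs ((sg_mem_cfn hi).1 h)
    have hz : ∀ (y : ℕ → ℂ) t, t ∉ cfn L (L / 2) → gvq q L y t = 0 := by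
      intro y t ht
      unfold gvq
      rw [if_neg ht]
    rw [Eq_apply, hz _ _ hs, hz _ _ hs, hz _ _ hsg]
    ring

end NX
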