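import Pool.Agent.Lib.MP_216314_pr.N.QD
import Pool.Agent.Lib.MP_216314_pr.X.BL

/-!
# Generic `q`: the solution is differentiable in `(q, y_0)` jointly

`PX.cns u w` is the sequence `u, w_0, w_1, ...`.

Proof. Call a family `f : ℂ → MP` (polynomials in the variables `X k` depending on `q`) good if there are `P : MvPolynomial (Option ℕ) ℂ` (or any other ring with one more variable, e.g. `MvPolynomial ℕ ℂ` with the variable `0` for `q` and `k + 1`
for `X k`) and `N : ℕ` such that for all `q ≠ 0` and all `y`: `q ^ N * eval y (f q) = eval (q, y) P`. Good families are closed under sums, products, multiplication with `q`, `q⁻¹`, `X k`, under `sp i` (rename the variables of `P`), and under the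
divided difference `dd i` (apply `dd_exists`/induction as in `PX.dd_exists` to `P`: if `(X_i - X_{i+1}) G = P - P^swap` in the bigger ring then `q^N eval y (dd i (f q))` and `eval (q,y) G` agree where `y i ≠ y (i+1)`, hence everywhere, both being polynomial).
So `q ↦ G0q q L` is good, and `q ↦ GPq q L a` is good by induction along its definition (`GPq` recursion, the recursion does not depend on `q`). Then `gvq q L (cns u w) s` is, for `q ≠ 0`, `u ≠ 0`, the quotient of a polynomial in `(q, u)` by `q ^ N (u * const) ^ ((L-1)/2)`, so differentiable.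
(The functions of `(q, y)` which are `C^1`, or the ring of the functions `ℂ × (ℕ → ℂ) → ℂ` which are restrictions of polynomials, may be used instead of a formal polynomial ring, as you like: what is needed for the divided difference is division by
`X_i - X_{i+1}` in a polynomial ring.)
-/

set_option autoImplicit false

noncomputable section

namespace NX

open Finset MvPolynomial PX

private theorem QE_dd {σ : Type*} [DecidableEq σ] (a b : σ) (f : MvPolynomial σ ℂ) :
    ∃ g : MvPolynomial σ ℂ, (X a - X b) * g = f - rename (Equiv.swap a b) f := by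
  induction f using MvPolynomial.induction_on with
  | C c =>
    refine ⟨0, ?_⟩
    simp
  | add p q hp hq =>
    obtain ⟨g, hg⟩ := hp
    obtain ⟨h, hh⟩ := hq
    refine ⟨g + h, ?_⟩
    rw [mul_add, hg, hh, map_add]
    ring
  | mul_X p k hp =>
    obtain ⟨g, hg⟩ := hp
    have hX : ∃ h : MvPolynomial σ ℂ, (X a - X b) * h = X k - rename (Equiv.swap a b) (X k) := by
      by_cases h1 : k = a
      · subst h1
        refine ⟨1, ?_⟩
        simp
      · by_cases h2 : k = b
        · subst h2
          refine ⟨-1, ?_⟩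
          simp
        · refine ⟨0, ?_⟩
          simp [Equiv.swap_apply_of_ne_of_ne h1 h2]
    obtain ⟨h, hh⟩ := hX
    refine ⟨g * X k + rename (Equiv.swap a b) p * h, ?_⟩
    rw [map_mul]
    calc (X a - X b) * (g * X k + rename (Equiv.swap a b) p * h)
        = ((X a - X b) * g) * X k + rename (Equiv.swap a b) p * ((X a - X b) * h) := by ring
      _ = p * X k - rename (Equiv.swap a b) p * rename (Equiv.swap a b) (X k) := by
          rw [hg, hh]
          ring

/-- specialisation of the variable `none` to the number `q` -/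
private def QE_Phi (q : ℂ) : MvPolynomial (Option ℕ) ℂ →ₐ[ℂ] MP :=
  aeval fun o => o.elim (C q) X

private theorem QE_Phi_none (q : ℂ) : QE_Phi q (X none) = C q := by
  unfold QE_Phi
  rw [aeval_X]
  rfl

private theorem QE_Phi_some (q : ℂ) (k : ℕ) : QE_Phi q (X (some k)) = X k := by
  unfold QE_Phi
  rw [aeval_X]
  rfl

private theorem QE_Phi_C (q c : ℂ) : QE_Phi q (C c) = C c := by
  unfold QE_Phi
  rw [aeval_C]
  rfl

private theorem QE_Phi_sp (q : ℂ) (i : ℕ) (P : MvPolynomial (Option ℕ) ℂ) :
    QE_Phi q (rename (Equiv.swap (some i) (some (i + 1))) P) = sp i (QE_Phi q P) := by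
  induction P using MvPolynomial.induction_on with
  | C c =>
    rw [rename_C, QE_Phi_C]
    unfold sp
    rw [rename_C]
  | add p r hp hr =>
    rw [map_add, map_add, hp, hr, map_add]
    unfold sp
    rw [map_add]
  | mul_X p k hp =>
    rw [map_mul, map_mul, hp, map_mul]
    unfold sp
    rw [map_mul]
    congr 1
    rw [rename_X]
    rcases k with _ | k
    · rw [Equiv.swap_apply_of_ne_of_ne (by simp) (by simp), QE_Phi_none, rename_C]
    · rw [QE_Phi_some, rename_X]
      by_cases h1 : k = i
      · subst h1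
        rw [Equiv.swap_apply_left, Equiv.swap_apply_left, QE_Phi_some]
      · by_cases h2 : k = i + 1
        · subst h2
          rw [Equiv.swap_apply_right, Equiv.swap_apply_right, QE_Phi_some]
        · rw [Equiv.swap_apply_of_ne_of_ne h1 h2, Equiv.swap_apply_of_ne_of_ne
            (fun h => h1 (Option.some.inj h)) (fun h => h2 (Option.some.inj h)), QE_Phi_some]

/-- good families -/
private def QE_Good (f : ℂ → MP) : Prop :=
  ∃ (N : ℕ) (P : MvPolynomial (Option ℕ) ℂ), ∀ q : ℂ, q ≠ 0 → C q ^ N * f q = QE_Phi q P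

private theorem QE_add {f g : ℂ → MP} (hf : QE_Good f) (hg : QE_Good g) :
    QE_Good fun q => f q + g q := by
  obtain ⟨N, P, hP⟩ := hf
  obtain ⟨M, R, hR⟩ := hg
  refine ⟨N + M, X none ^ M * P + X none ^ N * R, fun q hq => ?_⟩
  rw [map_add, map_mul, map_mul, map_pow, map_pow, QE_Phi_none, ← hP q hq, ← hR q hq]
  ring

private theorem QE_mul {f g : ℂ → MP} (hf : QE_Good f) (hg : QE_Good g) :
    QE_Good fun q => f q * g q := by
  obtain ⟨N, P, hP⟩ := hf
  obtain ⟨M, R, hR⟩ := hg
  refine ⟨N + M, P * R, fun q hq => ?_⟩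
  rw [map_mul, ← hP q hq, ← hR q hq]
  ring

private theorem QE_const (g : MP) : QE_Good fun _ => g := by
  refine ⟨0, rename some g, fun q _ => ?_⟩
  rw [pow_zero, one_mul]
  unfold QE_Phi
  rw [aeval_rename]
  have h1 : ((fun o : Option ℕ => o.elim (C q) X) ∘ some) = (X : ℕ → MP) := rfl
  rw [h1, aeval_X_left_apply]

private theorem QE_q : QE_Good fun q => C q := by
  refine ⟨0, X none, fun q _ => ?_⟩
  rw [pow_zero, one_mul, QE_Phi_none]

private theorem QE_qinv : QE_Good fun q => C q⁻¹ := by
  refine ⟨1, 1, fun q hq => ?_⟩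
  rw [map_one, pow_one, ← C_mul, mul_inv_cancel₀ hq, C_1]

private theorem QE_neg {f : ℂ → MP} (hf : QE_Good f) : QE_Good fun q => -f q := by
  obtain ⟨N, P, hP⟩ := hf
  refine ⟨N, -P, fun q hq => ?_⟩
  rw [map_neg, ← hP q hq]
  ring

private theorem QE_sub {f g : ℂ → MP} (hf : QE_Good f) (hg : QE_Good g) :
    QE_Good fun q => f q - g q := by
  obtain ⟨N, P, h⟩ := QE_add hf (QE_neg hg)
  refine ⟨N, P, fun q hq => ?_⟩
  rw [← h q hq]
  ring

private theorem QE_pow {f : ℂ → MP} (hf : QE_Good f) (m : ℕ) : QE_Good fun q => f q ^ m := by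
  induction m with
  | zero =>
    simp only [pow_zero]
    exact QE_const 1
  | succ m ih =>
    simp only [pow_succ]
    exact QE_mul ih hf

private theorem QE_prod {ι : Type*} (s : Finset ι) {f : ι → ℂ → MP}
    (hf : ∀ i, QE_Good (f i)) : QE_Good fun q => ∏ i ∈ s, f i q := by
  classical
  induction s using Finset.induction_on with
  | empty =>
    simp only [Finset.prod_empty]
    exact QE_const 1
  | insert a s ha ih =>
    simp only [Finset.prod_insert ha]
    exact QE_mul (hf a) ih

private theorem QE_sp {f : ℂ → MP} (hf : QE_Good f) (i : ℕ) : QE_Good fun q => sp i (f q) := by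
  obtain ⟨N, P, hP⟩ := hf
  refine ⟨N, rename (Equiv.swap (some i) (some (i + 1))) P, fun q hq => ?_⟩
  rw [QE_Phi_sp, ← hP q hq]
  unfold sp
  rw [map_mul, map_pow, rename_C]

private theorem QE_dif {f : ℂ → MP} (hf : QE_Good f) (i : ℕ) : QE_Good fun q => dd i (f q) := by
  obtain ⟨N, P, hP⟩ := hf
  obtain ⟨G, hG⟩ := QE_dd (some i) (some (i + 1)) P
  refine ⟨N, G, fun q hq => ?_⟩
  apply mul_left_cancel₀ (X_sub_ne i (i + 1) (by omega))
  have h1 := congrArg (QE_Phi q) hG
  rw [map_mul, map_sub, map_sub, QE_Phi_some, QE_Phi_some, QE_Phi_sp, ← hP q hq] at h1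
  have h2 : sp i (C q ^ N * f q) = C q ^ N * sp i (f q) := by
    unfold sp
    rw [map_mul, map_pow, rename_C]
  rw [h1, h2]
  linear_combination (C q ^ N) * dd_spec i (f q)

private theorem QE_Tq {f : ℂ → MP} (hf : QE_Good f) (i : ℕ) : QE_Good fun q => Tq q i (f q) := by
  unfold Tq
  have h1 : QE_Good fun q => C (q⁻¹ - q) := by
    simp only [C_sub]
    exact QE_sub QE_qinv QE_q
  exact QE_add (QE_mul (QE_neg QE_qinv) (QE_sp hf i))
    (QE_mul (QE_mul h1 (QE_const _)) (QE_dif hf i))

private theorem QE_G0q (L : ℕ) : QE_Good fun q => G0q q L := by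
  unfold G0q
  have h2 : QE_Good fun q => C (q ^ 2) := by
    simp only [C_pow]
    exact QE_pow QE_q 2
  have h4 : QE_Good fun q => C (q ^ 4) := by
    simp only [C_pow]
    exact QE_pow QE_q 4
  have hi : QE_Good fun q => C (q ^ 2)⁻¹ := by
    simp only [← inv_pow, C_pow]
    exact QE_pow QE_qinv 2
  have hA : ∀ i j, QE_Good fun q => PAq q i j := by
    intro i j
    unfold PAq
    exact QE_mul (QE_mul h2 (QE_sub (QE_mul hi (QE_const _)) (QE_const _)))
      (QE_sub h4 (QE_const _))
  have hB : ∀ i j, QE_Good fun q => PBq q i j := by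
    intro i j
    unfold PBq
    exact QE_mul (QE_sub (QE_mul hi (QE_const _)) (QE_const _)) (QE_sub (QE_const _) h2)
  exact QE_mul (QE_mul (QE_const _) (QE_prod _ fun j => QE_prod _ fun i => hA i j))
    (QE_prod _ fun j => QE_prod _ fun i => hB i j)

private theorem QE_GPq (L : ℕ) : ∀ (m : ℕ) (a : Finset ℕ), a.sum id = m →
    QE_Good fun q => GPq q L a := by
  intro m
  induction m using Nat.strong_induction_on with
  | _ m ih =>
    intro a ha
    classical
    by_cases h : ∃ i, i ∉ a ∧ i + 1 ∈ a
    · have h0 := Nat.find_spec h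
      have h2 := sum_sg h0.1 h0.2
      have h3 : ((sg (Nat.find h) a).sum id) < m := by omega
      have h4 := QE_Tq (ih _ h3 (sg (Nat.find h) a) rfl) (Nat.find h)
      have h5 : (fun q => GPq q L a) =
          fun q => Tq q (Nat.find h) (GPq q L (sg (Nat.find h) a)) := by
        funext q
        rw [GPq, dif_pos h]
      rw [h5]
      exact h4
    · have h5 : (fun q => GPq q L a) = fun q => G0q q L := by
        funext q
        rw [GPq, dif_neg h]
      rw [h5]
      exact QE_G0q L

private theorem QE_eval (q : ℂ) (y : ℕ → ℂ) (P : MvPolynomial (Option ℕ) ℂ) :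
    eval y (QE_Phi q P) = eval (fun o : Option ℕ => o.elim q y) P := by
  induction P using MvPolynomial.induction_on with
  | C c => rw [QE_Phi_C, eval_C, eval_C]
  | add p r hp hr => rw [map_add, map_add, map_add, hp, hr]
  | mul_X p k hp =>
    rw [map_mul, map_mul, map_mul, hp]
    congr 1
    rcases k with _ | k
    · rw [QE_Phi_none, eval_C, eval_X]
      rfl
    · rw [QE_Phi_some, eval_X, eval_X]
      rfl

private theorem QE_diffP (w : ℕ → ℂ) (P : MvPolynomial (Option ℕ) ℂ) :
    Differentiable ℂ fun p : ℂ × ℂ => eval (fun o : Option ℕ => o.elim p.1 (cns p.2 w)) P := by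
  induction P using MvPolynomial.induction_on with
  | C c =>
    simp only [eval_C]
    exact differentiable_const c
  | add p r hp hr =>
    simp only [map_add]
    exact hp.add hr
  | mul_X p k hp =>
    simp only [map_mul, eval_X]
    refine hp.mul ?_
    rcases k with _ | k
    · exact differentiable_fst
    · rcases k with _ | k
      · exact differentiable_snd
      · exact differentiable_const (w k)

private theorem QE_diffc (w : ℕ → ℂ) (k : ℕ) :
    Differentiable ℂ fun p : ℂ × ℂ => cns p.2 w k := by
  rcases k with _ | k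
  · exact differentiable_snd
  · exact differentiable_const (w k)

private theorem QE_diffprod (w : ℕ → ℂ) (L : ℕ) :
    Differentiable ℂ fun p : ℂ × ℂ => ∏ k ∈ range L, cns p.2 w k := by
  induction L with
  | zero =>
    simp only [Finset.range_zero, Finset.prod_empty]
    exact differentiable_const 1
  | succ L ih =>
    simp only [Finset.prod_range_succ]
    exact ih.mul (QE_diffc w L)

theorem gvq_diff (L : ℕ) (w : ℕ → ℂ) (hw : ∀ k, w k ≠ 0) {q0 u0 : ℂ} (hq : q0 ≠ 0) (hu : u0 ≠ 0) (s : Finset ℕ) :
    DifferentiableAt ℂ (fun p : ℂ × ℂ => gvq p.1 L (cns p.2 w) s) (q0, u0) := by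
  unfold gvq
  by_cases hs : s ∈ cfn L (L / 2)
  · simp only [if_pos hs]
    obtain ⟨N, P, hP⟩ := QE_GPq L _ s rfl
    have h1 : ∀ᶠ p : ℂ × ℂ in nhds (q0, u0), p.1 ≠ 0 :=
      (continuous_fst.continuousAt (x := (q0, u0))).eventually_ne hq
    have h2 : (fun p : ℂ × ℂ => eval (cns p.2 w) (GPq p.1 L s) /
        (∏ k ∈ range L, cns p.2 w k) ^ ((L - 1) / 2)) =ᶠ[nhds (q0, u0)]
        fun p : ℂ × ℂ => eval (fun o : Option ℕ => o.elim p.1 (cns p.2 w)) P / p.1 ^ N /
          (∏ k ∈ range L, cns p.2 w k) ^ ((L - 1) / 2) := by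
      filter_upwards [h1] with p hp
      have h3 := congrArg (eval (cns p.2 w)) (hP p.1 hp)
      rw [QE_eval, map_mul, map_pow, eval_C] at h3
      congr 1
      rw [← h3, mul_div_cancel_left₀ _ (pow_ne_zero N hp)]
    refine DifferentiableAt.congr_of_eventuallyEq ?_ h2
    have hd : DifferentiableAt ℂ (fun p : ℂ × ℂ =>
        (∏ k ∈ range L, cns p.2 w k) ^ ((L - 1) / 2)) (q0, u0) := by
      exact ((QE_diffprod w L) _).pow _
    have hne : (∏ k ∈ range L, cns (q0, u0).2 w k) ^ ((L - 1) / 2) ≠ 0 := by
      refine pow_ne_zero _ (Finset.prod_ne_zero_iff.2 fun k _ => ?_)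
      rcases k with _ | k
      · exact hu
      · exact hw k
    have hd2 : DifferentiableAt ℂ (fun p : ℂ × ℂ => p.1 ^ N) (q0, u0) := by
      fun_prop
    simp only [div_eq_mul_inv]
    exact (((QE_diffP w P) _).mul (hd2.fun_inv (pow_ne_zero N hq))).mul (hd.fun_inv hne)
  · simp only [if_neg hs]
    exact differentiableAt_const 0

end NX
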