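import Pool.Agent.Lib.MP_216314_pr.N.QC
import Pool.Agent.Lib.MP_216314_pr.X.GenC

/-!
# Generic `q`: chains of Hecke operators on functions

`tau q i f y = A(y_i, y_{i+1}) f(sw i y) + B(y_i, y_{i+1}) f y` is the Hecke operator on functions (`Tq_tau`, from `Tq_eval`).
`tC q a n f = tau_a tau_{a+1} ... tau_{a+n-1} f`, `tR q a n f = tau_{a+n-1} ... tau_a f`; `TC`, `TR` the same on polynomials.
`TC_eval`, `TR_eval`: at points with distinct coordinates `y_a, ..., y_{a+n}` (induction on `n`; exchanging two of these coordinates keeps them distinct; `sw i y k = y (swap k)`, see `PX.sw_left`, `sw_right`, `sw_of_ne`).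
`GPq_hole`: `{0..n} without k` is reached from `range n` by the chain `T_k ... T_{n-1}` (downward induction on `k`, `GPq_asc`, `sg k (range (n+1) \ {k}) = range (n+1) \ {k+1}`, `GPq_range`).
`GPq_last`: `{0..n-2, n-1+k}` is reached by `T_{n-2+k} ... T_{n-1}` (induction on `k`).
-/

set_option autoImplicit false

noncomputable section

namespace NX

open Finset MvPolynomial PX

def tA (q x y : ℂ) : ℂ := (q * y - q⁻¹ * x) / (x - y)

def tB (q x y : ℂ) : ℂ := (q⁻¹ - q) * y / (x - y)

/-- Hecke operator on functions -/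
def tau (q : ℂ) (i : ℕ) (f : (ℕ → ℂ) → ℂ) : (ℕ → ℂ) → ℂ := fun y =>
  tA q (y i) (y (i + 1)) * f (sw i y) + tB q (y i) (y (i + 1)) * f y

/-- `tau_a tau_{a+1} ... tau_{a+n-1} f` -/
def tC (q : ℂ) : ℕ → ℕ → ((ℕ → ℂ) → ℂ) → ((ℕ → ℂ) → ℂ)
  | _, 0, f => f
  | a, n + 1, f => tau q a (tC q (a + 1) n f)

/-- `tau_{a+n-1} ... tau_a f` -/
def tR (q : ℂ) (a : ℕ) : ℕ → ((ℕ → ℂ) → ℂ) → ((ℕ → ℂ) → ℂ)
  | 0, f => f
  | n + 1, f => tau q (a + n) (tR q a n f)

def TC (q : ℂ) : ℕ → ℕ → MP → MP
  | _, 0, f => f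
  | a, n + 1, f => Tq q a (TC q (a + 1) n f)

def TR (q : ℂ) (a : ℕ) : ℕ → MP → MP
  | 0, f => f
  | n + 1, f => Tq q (a + n) (TR q a n f)

theorem Tq_tau (q : ℂ) (i : ℕ) (f : MP) (y : ℕ → ℂ) (h : y i ≠ y (i + 1)) :
    eval y (Tq q i f) = tau q i (fun z => eval z f) y := by
  rw [Tq_eval q i f y h]
  unfold tau tA tB
  ring

/-- the coordinates `y_a, ..., y_b` are distinct -/
def DsI (a b : ℕ) (y : ℕ → ℂ) : Prop := ∀ i j, a ≤ i → i ≤ b → a ≤ j → j ≤ b → i ≠ j → y i ≠ y j

theorem QF_swap (i k : ℕ) :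
    Equiv.swap i (i + 1) k = if k = i then i + 1 else if k = i + 1 then i else k := by
  rw [Equiv.swap_apply_def]

theorem QF_DsI_sw {a b i : ℕ} {y : ℕ → ℂ} (h : DsI a b y) (h1 : a ≤ i) (h2 : i < b) :
    DsI a b (sw i y) := by
  intro j k hj hj' hk hk' hjk
  show y (Equiv.swap i (i + 1) j) ≠ y (Equiv.swap i (i + 1) k)
  refine h _ _ ?_ ?_ ?_ ?_ fun e => hjk ((Equiv.swap i (i + 1)).injective e)
  all_goals
    rw [QF_swap]
    split_ifs <;> omega

theorem QF_DsI_mono {a b a' b' : ℕ} {y : ℕ → ℂ} (h : DsI a b y) (h1 : a ≤ a') (h2 : b' ≤ b) :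
    DsI a' b' y := fun j k hj hj' hk hk' hjk =>
  h j k (h1.trans hj) (hj'.trans h2) (h1.trans hk) (hk'.trans h2) hjk

theorem TC_eval (q : ℂ) (a n : ℕ) (f : MP) (y : ℕ → ℂ) (h : DsI a (a + n) y) :
    eval y (TC q a n f) = tC q a n (fun z => eval z f) y := by
  induction n generalizing a y with
  | zero => rfl
  | succ n ih =>
    show eval y (Tq q a (TC q (a + 1) n f)) = tau q a (tC q (a + 1) n fun z => eval z f) y
    rw [Tq_tau q a _ y (h a (a + 1) (by omega) (by omega) (by omega) (by omega) (by omega))]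
    unfold tau
    beta_reduce
    rw [ih (a + 1) (sw a y) (QF_DsI_mono (QF_DsI_sw h le_rfl (by omega)) (by omega) (by omega)),
      ih (a + 1) y (QF_DsI_mono h (by omega) (by omega))]

theorem TR_eval (q : ℂ) (a n : ℕ) (f : MP) (y : ℕ → ℂ) (h : DsI a (a + n) y) :
    eval y (TR q a n f) = tR q a n (fun z => eval z f) y := by
  induction n generalizing y with
  | zero => rfl
  | succ n ih =>
    show eval y (Tq q (a + n) (TR q a n f)) = tau q (a + n) (tR q a n fun z => eval z f) y
    rw [Tq_tau q (a + n) _ y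
      (h (a + n) (a + n + 1) (by omega) (by omega) (by omega) (by omega) (by omega))]
    unfold tau
    beta_reduce
    rw [ih (sw (a + n) y) (QF_DsI_mono (QF_DsI_sw h (by omega) (by omega)) (by omega) (by omega)),
      ih y (QF_DsI_mono h (by omega) (by omega))]

theorem GPq_hole {q : ℂ} (hq : q ≠ 0) (L n k : ℕ) (hk : k ≤ n) :
    GPq q L ((range (n + 1)).erase k) = TC q k (n - k) (G0q q L) := by
  obtain ⟨m, hm⟩ : ∃ m, n - k = m := ⟨_, rfl⟩
  induction m generalizing k with
  | zero =>
    have h1 : k = n := by omega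
    subst h1
    have h2 : (range (k + 1)).erase k = range k := by
      ext j
      rw [Finset.mem_erase, Finset.mem_range, Finset.mem_range]
      omega
    rw [h2, GPq_range, hm]
    rfl
  | succ m ih =>
    have h1 : k ∉ (range (n + 1)).erase k := Finset.notMem_erase _ _
    have h2 : k + 1 ∈ (range (n + 1)).erase k := by
      rw [Finset.mem_erase, Finset.mem_range]
      omega
    have h3 : sg k ((range (n + 1)).erase k) = (range (n + 1)).erase (k + 1) := by
      ext j
      rw [mem_sg, Finset.mem_erase, Finset.mem_range, Finset.mem_erase, Finset.mem_range, QF_swap]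
      split_ifs <;> omega
    rw [GPq_asc hq L k _ h1 h2, h3, ih (k + 1) (by omega) (by omega), hm]
    have h4 : n - (k + 1) = m := by omega
    rw [h4]
    rfl

theorem GPq_last {q : ℂ} (hq : q ≠ 0) (L n k : ℕ) (hn : 1 ≤ n) :
    GPq q L (insert (n - 1 + k) (range (n - 1))) = TR q (n - 1) k (G0q q L) := by
  obtain ⟨m, rfl⟩ : ∃ m, n = m + 1 := ⟨n - 1, by omega⟩
  rw [Nat.add_sub_cancel]
  induction k with
  | zero =>
    have h1 : insert (m + 0) (range m) = range (m + 1) := by
      rw [Nat.add_zero, Finset.range_add_one]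
    rw [h1, GPq_range]
    rfl
  | succ k ih =>
    have h1 : m + k ∉ insert (m + (k + 1)) (range m) := by
      rw [Finset.mem_insert, Finset.mem_range]
      omega
    have h2 : m + k + 1 ∈ insert (m + (k + 1)) (range m) := by
      rw [Finset.mem_insert]
      exact Or.inl rfl
    have h3 : sg (m + k) (insert (m + (k + 1)) (range m)) = insert (m + k) (range m) := by
      ext j
      rw [mem_sg, Finset.mem_insert, Finset.mem_range, Finset.mem_insert, Finset.mem_range,
        QF_swap]
      split_ifs <;> omega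
    rw [GPq_asc hq L (m + k) _ h1 h2, h3, ih]
    rfl

/-- multiplication with a function invariant under all the exchanges of the chain -/
theorem tC_mul (q : ℂ) (a n : ℕ) (f g : (ℕ → ℂ) → ℂ) (hg : ∀ i y, a ≤ i → i < a + n → g (sw i y) = g y) (y : ℕ → ℂ) :
    tC q a n (fun z => g z * f z) y = g y * tC q a n f y := by
  induction n generalizing a y with
  | zero => rfl
  | succ n ih =>
    show tau q a (tC q (a + 1) n fun z => g z * f z) y = g y * tau q a (tC q (a + 1) n f) y
    unfold tau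
    rw [ih (a + 1) (fun i y h1 h2 => hg i y (by omega) (by omega)) (sw a y),
      ih (a + 1) (fun i y h1 h2 => hg i y (by omega) (by omega)) y,
      hg a y le_rfl (by omega)]
    ring

theorem tR_mul (q : ℂ) (a n : ℕ) (f g : (ℕ → ℂ) → ℂ) (hg : ∀ i y, a ≤ i → i < a + n → g (sw i y) = g y) (y : ℕ → ℂ) :
    tR q a n (fun z => g z * f z) y = g y * tR q a n f y := by
  induction n generalizing y with
  | zero => rfl
  | succ n ih =>
    show tau q (a + n) (tR q a n fun z => g z * f z) y = g y * tau q (a + n) (tR q a n f) y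
    unfold tau
    rw [ih (fun i y h1 h2 => hg i y (by omega) (by omega)) (sw (a + n) y),
      ih (fun i y h1 h2 => hg i y (by omega) (by omega)) y,
      hg (a + n) y (by omega) (by omega)]
    ring

end NX
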