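import Pool.Agent.Lib.MP_216314_pr.N.QF

/-!
# Generic `q`: the functions of the closed forms

`xiq`, `Yq`, `Vq`, `FFq = q² V(y) - ξ(x)`, `GGq = q⁻² Y(x) - (y + 1/y)`, `WLq = -q B / F`, `WRq = B / (-q G)`. All identities are elementary (`field_simp; ring`, with `x y ≠ 0` etc.):
`Yq y - Yq x = (y - x) (1 - q⁴/(x y))`, `Vq x - Vq y = (x - y)(1 - q²/(x y))`,
`A(x,y) = -(1/q) F(x,y) / (Y y - Y x)`, `A(x,y) = -q G(x,y) / (V x - V y)`, `A + B = -1/q`.
All were verified numerically for random `q, x, y, z`.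
-/

set_option autoImplicit false

noncomputable section

namespace NX

open Finset PX

def xiq (q x : ℂ) : ℂ := x + q ^ 6 / x

def Yq (q x : ℂ) : ℂ := x + q ^ 4 / x

def Vq (q x : ℂ) : ℂ := x + q ^ 2 / x

def FFq (q x y : ℂ) : ℂ := q ^ 2 * Vq q y - xiq q x

def GGq (q x y : ℂ) : ℂ := (q ^ 2)⁻¹ * Yq q x - XX y

def WLq (q x y : ℂ) : ℂ := -q * tB q x y / FFq q x y

def WRq (q x y : ℂ) : ℂ := tB q x y / (-q * GGq q x y)

theorem QG_Yne {q x y : ℂ} (h : Yq q x ≠ Yq q y) : x ≠ y := fun e => h (by rw [e])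

theorem QG_Vne {q x y : ℂ} (h : Vq q x ≠ Vq q y) : x ≠ y := fun e => h (by rw [e])

theorem QG_Ysub {q x y : ℂ} (hx : x ≠ 0) (hy : y ≠ 0) :
    Yq q y - Yq q x = (y - x) * ((x * y - q ^ 4) / (x * y)) := by
  unfold Yq
  field_simp
  ring

theorem QG_Vsub {q x y : ℂ} (hx : x ≠ 0) (hy : y ≠ 0) :
    Vq q x - Vq q y = (x - y) * ((x * y - q ^ 2) / (x * y)) := by
  unfold Vq
  field_simp
  ring

theorem QG_F {q x y : ℂ} (hx : x ≠ 0) (hy : y ≠ 0) :
    FFq q x y = (q ^ 2 * y - x) * ((x * y - q ^ 4) / (x * y)) := by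
  unfold FFq Vq xiq
  field_simp
  ring

theorem QG_G {q x y : ℂ} (hq : q ≠ 0) (hx : x ≠ 0) (hy : y ≠ 0) :
    GGq q x y = ((q ^ 2)⁻¹ * x - y) * ((x * y - q ^ 2) / (x * y)) := by
  unfold GGq Yq XX
  field_simp
  ring

theorem tA_FF {q x y : ℂ} (hq : q ≠ 0) (hx : x ≠ 0) (hy : y ≠ 0) (h : Yq q x ≠ Yq q y) :
    tA q x y = -q⁻¹ * FFq q x y / (Yq q y - Yq q x) := by
  have hxy := QG_Yne h
  have h1 : y - x ≠ 0 := sub_ne_zero.mpr (Ne.symm hxy)
  have h2 : x - y ≠ 0 := sub_ne_zero.mpr hxy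
  have h3 : (x * y - q ^ 4) / (x * y) ≠ 0 := by
    intro e
    apply h
    have := QG_Ysub (q := q) hx hy
    rw [e, mul_zero] at this
    exact (sub_eq_zero.mp this).symm
  rw [QG_Ysub hx hy, QG_F hx hy, ← mul_assoc, mul_div_mul_right _ _ h3]
  unfold tA
  rw [div_eq_div_iff h2 h1]
  field_simp
  ring

theorem tA_GG {q x y : ℂ} (hq : q ≠ 0) (hx : x ≠ 0) (hy : y ≠ 0) (h : Vq q x ≠ Vq q y) :
    tA q x y = -q * GGq q x y / (Vq q x - Vq q y) := by
  have hxy := QG_Vne h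
  have h2 : x - y ≠ 0 := sub_ne_zero.mpr hxy
  have h3 : (x * y - q ^ 2) / (x * y) ≠ 0 := by
    intro e
    apply h
    have := QG_Vsub (q := q) hx hy
    rw [e, mul_zero] at this
    exact sub_eq_zero.mp this
  rw [QG_Vsub hx hy, QG_G hq hx hy, ← mul_assoc, mul_div_mul_right _ _ h3]
  unfold tA
  rw [div_eq_div_iff h2 h2]
  field_simp
  ring

theorem tA_tB {q x y : ℂ} (hq : q ≠ 0) (h : x ≠ y) : tA q x y + tB q x y = -q⁻¹ := by
  have h2 : x - y ≠ 0 := sub_ne_zero.mpr h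
  unfold tA tB
  rw [← add_div, div_eq_iff h2]
  ring

/-- sum of the two parts, left end -/
theorem WL_sum {q x y : ℂ} (hq : q ≠ 0) (hx : x ≠ 0) (hy : y ≠ 0) (h : Yq q x ≠ Yq q y) (hF : FFq q x y ≠ 0) :
    1 / (Yq q y - Yq q x) + WLq q x y = 1 / FFq q x y := by
  have h1 := tA_FF hq hx hy h
  have h2 := tA_tB hq (QG_Yne h)
  have h3 : Yq q y - Yq q x ≠ 0 := sub_ne_zero.mpr (Ne.symm h)
  have h4 : 1 / (Yq q y - Yq q x) = -q * tA q x y / FFq q x y := by
    rw [h1]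
    field_simp
  unfold WLq
  rw [h4, ← add_div, ← mul_add, h2]
  congr 1
  field_simp

/-- sum of the two parts, right end -/
theorem WR_sum {q x y : ℂ} (hq : q ≠ 0) (hx : x ≠ 0) (hy : y ≠ 0) (h : Vq q x ≠ Vq q y) (hG : GGq q x y ≠ 0) :
    1 / (Vq q x - Vq q y) + WRq q x y = (q ^ 2)⁻¹ / GGq q x y := by
  have h1 := tA_GG hq hx hy h
  have h2 := tA_tB hq (QG_Vne h)
  have h3 : Vq q x - Vq q y ≠ 0 := sub_ne_zero.mpr h
  have h4 : 1 / (Vq q x - Vq q y) = tA q x y / (-q * GGq q x y) := by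
    rw [h1]
    field_simp
  unfold WRq
  rw [h4, ← add_div, h2]
  field_simp

theorem QG_BB {q x y z : ℂ} (hxy : x ≠ y) (hxz : x ≠ z) (hyz : y ≠ z) :
    tB q x y * tB q y z = tB q x z * (tA q y x - tA q y z) := by
  have h1 : x - y ≠ 0 := sub_ne_zero.mpr hxy
  have h2 : x - z ≠ 0 := sub_ne_zero.mpr hxz
  have h3 : y - z ≠ 0 := sub_ne_zero.mpr hyz
  have h4 : y - x ≠ 0 := sub_ne_zero.mpr (Ne.symm hxy)
  unfold tA tB
  generalize q⁻¹ = r
  rw [div_mul_div_comm, div_sub_div _ _ h4 h3, div_mul_div_comm, div_eq_div_iff (mul_ne_zero h1 h3)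
    (mul_ne_zero h2 (mul_ne_zero h4 h3))]
  ring

theorem QG_BB2 {q x y z : ℂ} (hxy : x ≠ y) (hxz : x ≠ z) (hyz : y ≠ z) :
    tB q x y * tB q z x = tB q z y * (tA q y x - tA q z x) := by
  have h1 : x - y ≠ 0 := sub_ne_zero.mpr hxy
  have h2 : z - x ≠ 0 := sub_ne_zero.mpr (Ne.symm hxz)
  have h3 : z - y ≠ 0 := sub_ne_zero.mpr (Ne.symm hyz)
  have h4 : y - x ≠ 0 := sub_ne_zero.mpr (Ne.symm hxy)
  unfold tA tB
  generalize q⁻¹ = r
  rw [div_mul_div_comm, div_sub_div _ _ h4 h2, div_mul_div_comm, div_eq_div_iff (mul_ne_zero h1 h2)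
    (mul_ne_zero h3 (mul_ne_zero h4 h2))]
  ring

/-- identity of the induction step, left end -/
theorem WL_step {q x y z : ℂ} (hq : q ≠ 0) (hx : x ≠ 0) (hy : y ≠ 0) (hz : z ≠ 0) (hxy : Yq q x ≠ Yq q y)
    (hxz : Yq q x ≠ Yq q z) (hyz : Yq q y ≠ Yq q z)
    (h1 : FFq q x z ≠ 0) (h2 : FFq q y z ≠ 0) :
    tB q x y * FFq q x y * WLq q y z / FFq q x z + tA q x y * FFq q y x * WLq q x z / FFq q y z =
      -q⁻¹ * FFq q x y * WLq q x z / (Yq q y - Yq q z) := by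
  have e1 := tA_FF hq hx hy hxy
  have e2 := tA_FF hq hy hx (Ne.symm hxy)
  have e3 := tA_FF hq hy hz hyz
  have hB := QG_BB (q := q) (QG_Yne hxy) (QG_Yne hxz) (QG_Yne hyz)
  have d1 : Yq q y - Yq q x ≠ 0 := sub_ne_zero.mpr (Ne.symm hxy)
  have d2 : Yq q x - Yq q y ≠ 0 := sub_ne_zero.mpr hxy
  have d3 : Yq q z - Yq q y ≠ 0 := sub_ne_zero.mpr (Ne.symm hyz)
  have d4 : Yq q y - Yq q z ≠ 0 := sub_ne_zero.mpr hyz
  have f1 : tA q x y * FFq q y x = - (FFq q x y * tA q y x) := by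
    rw [e1, e2, div_mul_eq_mul_div, ← mul_div_assoc, ← div_neg, neg_sub]
    congr 1
    ring
  have f2 : -q⁻¹ * FFq q x y * WLq q x z / (Yq q y - Yq q z) =
      - (FFq q x y * WLq q x z / FFq q y z * tA q y z) := by
    rw [e3]
    have : Yq q z - Yq q y = -(Yq q y - Yq q z) := by ring
    rw [this]
    field_simp
  rw [f1, f2]
  unfold WLq
  have f3 : tB q x y * FFq q x y * (-q * tB q y z / FFq q y z) / FFq q x z =
      (tB q x y * tB q y z) * (-q * FFq q x y / FFq q y z / FFq q x z) := by ring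
  rw [f3, hB]
  ring

/-- identity of the induction step, right end -/
theorem WR_step {q x y z : ℂ} (hq : q ≠ 0) (hx : x ≠ 0) (hy : y ≠ 0) (hz : z ≠ 0) (hxy : Vq q x ≠ Vq q y)
    (hxz : Vq q x ≠ Vq q z) (hyz : Vq q y ≠ Vq q z)
    (h1 : GGq q z x ≠ 0) (h2 : GGq q z y ≠ 0) :
    tB q x y * GGq q x y * WRq q z x / GGq q z y + tA q x y * GGq q y x * WRq q z y / GGq q z x =
      -q * GGq q x y * WRq q z y / (Vq q x - Vq q z) := by
  have e1 := tA_GG hq hx hy hxy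
  have e2 := tA_GG hq hy hx (Ne.symm hxy)
  have e3 := tA_GG hq hz hx (Ne.symm hxz)
  have hB := QG_BB2 (q := q) (QG_Vne hxy) (QG_Vne hxz) (QG_Vne hyz)
  have d1 : Vq q x - Vq q y ≠ 0 := sub_ne_zero.mpr hxy
  have d2 : Vq q y - Vq q x ≠ 0 := sub_ne_zero.mpr (Ne.symm hxy)
  have d3 : Vq q x - Vq q z ≠ 0 := sub_ne_zero.mpr hxz
  have f1 : tA q x y * GGq q y x = - (GGq q x y * tA q y x) := by
    rw [e1, e2, div_mul_eq_mul_div, ← mul_div_assoc, ← div_neg, neg_sub]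
    congr 1
    ring
  have f2 : -q * GGq q x y * WRq q z y / (Vq q x - Vq q z) =
      - (GGq q x y * WRq q z y / GGq q z x * tA q z x) := by
    rw [e3]
    have : Vq q z - Vq q x = -(Vq q x - Vq q z) := by ring
    rw [this]
    field_simp
  rw [f1, f2]
  unfold WRq
  have f3 : tB q x y * GGq q x y * (tB q z x / (-q * GGq q z x)) / GGq q z y =
      (tB q x y * tB q z x) * (GGq q x y / (-q * GGq q z x) / GGq q z y) := by ring
  rw [f3, hB]
  field_simp
  ring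

theorem QG_pf {ι : Type*} [DecidableEq ι] (s : Finset ι) (V : ι → ℂ) (hV : ∀ i ∈ s, ∀ j ∈ s, i ≠ j → V i ≠ V j) (v : ℂ)
    (hv : ∀ i ∈ s, V i ≠ v) (r : Polynomial ℂ) (hr : r.degree < s.card) :
    r.eval v / ∏ i ∈ s, (V i - v) = ∑ k ∈ s, r.eval (V k) / ((V k - v) * ∏ j ∈ s.erase k, (V j - V k)) := by
  have hinj : Set.InjOn V (s : Set ι) := by
    intro i hi j hj hij
    by_contra hne
    exact hV i hi j hj hne hij
  have h1 : r.eval v = ∑ k ∈ s, r.eval (V k) * ∏ j ∈ s.erase k, ((V k - V j)⁻¹ * (v - V j)) := by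
    have h2 := Lagrange.eq_interpolate hinj hr
    have h3 : r.eval v = Polynomial.eval v (Lagrange.interpolate s V fun i => r.eval (V i)) := by
      rw [← h2]
    rw [h3, Lagrange.interpolate_apply, Polynomial.eval_finsetSum]
    refine Finset.sum_congr rfl fun k hk => ?_
    rw [Polynomial.eval_mul, Polynomial.eval_C, Lagrange.basis, Polynomial.eval_prod]
    congr 1
    refine Finset.prod_congr rfl fun j hj => ?_
    rw [Lagrange.basisDivisor, Polynomial.eval_mul, Polynomial.eval_C, Polynomial.eval_sub,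
      Polynomial.eval_X, Polynomial.eval_C]
  rw [h1, Finset.sum_div]
  refine Finset.sum_congr rfl fun k hk => ?_
  have h4 : ∏ i ∈ s, (V i - v) = (V k - v) * ∏ j ∈ s.erase k, (V j - v) :=
    (Finset.mul_prod_erase s (fun i => V i - v) hk).symm
  have h5 : ∏ j ∈ s.erase k, (V j - v) ≠ 0 := by
    refine Finset.prod_ne_zero_iff.mpr fun j hj => ?_
    exact sub_ne_zero.mpr (hv j (Finset.mem_of_mem_erase hj))
  have h6 : ∏ j ∈ s.erase k, (V j - V k) ≠ 0 := by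
    refine Finset.prod_ne_zero_iff.mpr fun j hj => ?_
    exact sub_ne_zero.mpr (hV j (Finset.mem_of_mem_erase hj) k hk (Finset.ne_of_mem_erase hj))
  have h7 : V k - v ≠ 0 := sub_ne_zero.mpr (hv k hk)
  have h8 : ∏ j ∈ s.erase k, ((V k - V j)⁻¹ * (v - V j)) =
      (∏ j ∈ s.erase k, (V j - v)) / ∏ j ∈ s.erase k, (V j - V k) := by
    rw [← Finset.prod_div_distrib]
    refine Finset.prod_congr rfl fun j hj => ?_
    have h9 : V j - V k ≠ 0 :=
      sub_ne_zero.mpr (hV j (Finset.mem_of_mem_erase hj) k hk (Finset.ne_of_mem_erase hj))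
    rw [inv_mul_eq_div, ← neg_sub (V j) v, ← neg_sub (V j) (V k), neg_div_neg_eq]
  rw [h8, h4]
  field_simp

/-- decomposition in simple fractions, degree smaller than the number of points -/
theorem pf_lt {ι : Type*} [DecidableEq ι] (s : Finset ι) (V : ι → ℂ) (hV : ∀ i ∈ s, ∀ j ∈ s, i ≠ j → V i ≠ V j) (v : ℂ)
    (hv : ∀ i ∈ s, V i ≠ v) (r : Polynomial ℂ) (hr : r.natDegree < s.card) :
    r.eval v / ∏ i ∈ s, (V i - v) = ∑ k ∈ s, r.eval (V k) / ((V k - v) * ∏ j ∈ s.erase k, (V j - V k)) := by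
  refine QG_pf s V hV v hv r ?_
  exact Polynomial.degree_le_natDegree.trans_lt (Nat.cast_lt.mpr hr)

/-- decomposition in simple fractions, degree at most the number of points -/
theorem pf_le {ι : Type*} [DecidableEq ι] (s : Finset ι) (V : ι → ℂ) (hV : ∀ i ∈ s, ∀ j ∈ s, i ≠ j → V i ≠ V j) (v : ℂ)
    (hv : ∀ i ∈ s, V i ≠ v) (r : Polynomial ℂ) (hr : r.natDegree ≤ s.card) :
    r.eval v / ∏ i ∈ s, (V i - v) = (-1) ^ s.card * r.coeff s.card +
      ∑ k ∈ s, r.eval (V k) / ((V k - v) * ∏ j ∈ s.erase k, (V j - V k)) := by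
  classical
  set c := r.coeff s.card with hc
  set Q : Polynomial ℂ := ∏ i ∈ s, (Polynomial.X - Polynomial.C (V i)) with hQ
  have hQm : Q.Monic := Polynomial.monic_prod_of_monic _ _ fun i _ => Polynomial.monic_X_sub_C _
  have hQd : Q.natDegree = s.card := by
    rw [hQ, Polynomial.natDegree_prod_of_monic _ _ fun i _ => Polynomial.monic_X_sub_C _]
    simp
  set r' : Polynomial ℂ := r - Polynomial.C c * Q with hr'
  have hdeg : r'.degree < s.card := by
    rw [Polynomial.degree_lt_iff_coeff_zero]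
    intro m hm
    rw [hr', Polynomial.coeff_sub, Polynomial.coeff_C_mul]
    rcases Nat.lt_or_eq_of_le hm with h | h
    · rw [Polynomial.coeff_eq_zero_of_natDegree_lt (lt_of_le_of_lt hr h),
        Polynomial.coeff_eq_zero_of_natDegree_lt (by rw [hQd]; exact h), mul_zero, sub_zero]
    · have h2 : Q.coeff m = 1 := by
        rw [← h, ← hQd]
        exact hQm
      rw [h2, ← h, mul_one, hc, sub_self]
  have h1 := QG_pf s V hV v hv r' hdeg
  have hQe : ∀ w, Q.eval w = ∏ i ∈ s, (w - V i) := by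
    intro w
    rw [hQ, Polynomial.eval_prod]
    refine Finset.prod_congr rfl fun i _ => ?_
    rw [Polynomial.eval_sub, Polynomial.eval_X, Polynomial.eval_C]
  have h2 : ∀ w, r.eval w = r'.eval w + c * ∏ i ∈ s, (w - V i) := by
    intro w
    rw [hr', Polynomial.eval_sub, Polynomial.eval_mul, Polynomial.eval_C, hQe]
    ring
  have h3 : ∀ k ∈ s, r.eval (V k) = r'.eval (V k) := by
    intro k hk
    rw [h2, Finset.prod_eq_zero hk (sub_self _), mul_zero, add_zero]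
  have h4 : ∏ i ∈ s, (V i - v) ≠ 0 := by
    refine Finset.prod_ne_zero_iff.mpr fun j hj => ?_
    exact sub_ne_zero.mpr (hv j hj)
  have h5 : ∏ i ∈ s, (v - V i) = (-1) ^ s.card * ∏ i ∈ s, (V i - v) := by
    rw [← Finset.prod_const, ← Finset.prod_mul_distrib]
    refine Finset.prod_congr rfl fun i _ => ?_
    ring
  have h6 : ∑ k ∈ s, r.eval (V k) / ((V k - v) * ∏ j ∈ s.erase k, (V j - V k)) =
      ∑ k ∈ s, r'.eval (V k) / ((V k - v) * ∏ j ∈ s.erase k, (V j - V k)) := by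
    refine Finset.sum_congr rfl fun k hk => ?_
    rw [h3 k hk]
  rw [h6, ← h1, h2 v, h5, add_div]
  field_simp
  ring

end NX
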