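import Pool.Agent.Lib.MP_216314_pr.N.QG

/-!
# Generic `q`: generic points of the closed forms

`GenI.sw`: exchanging two of the coordinates `y_a, ..., y_b` keeps the point generic (`sw i y k = y (Equiv.swap i (i+1) k)`, `PX.sw_left`, `sw_right`, `sw_of_ne`).
`tC_congr`: if `f = f'` on a set of points closed under the exchanges of the chain then the chains agree there.
-/

set_option autoImplicit false

noncomputable section

namespace NX

open Finset PX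

/-- generic points: the coordinates `y_a, ..., y_b` -/
def GenI (q : ℂ) (a b : ℕ) (y : ℕ → ℂ) : Prop :=
  (∀ i, a ≤ i → i ≤ b → y i ≠ 0) ∧ ∀ i j, a ≤ i → i ≤ b → a ≤ j → j ≤ b → i ≠ j →
    y i ≠ y j ∧ Yq q (y i) ≠ Yq q (y j) ∧ Vq q (y i) ≠ Vq q (y j) ∧ FFq q (y i) (y j) ≠ 0 ∧ GGq q (y i) (y j) ≠ 0

theorem GenI.sw {q : ℂ} {a b : ℕ} {y : ℕ → ℂ} (h : GenI q a b y) {i : ℕ} (h1 : a ≤ i) (h2 : i < b) :
    GenI q a b (sw i y) := by
  have hσ : ∀ k, a ≤ k → k ≤ b → a ≤ Equiv.swap i (i + 1) k ∧ Equiv.swap i (i + 1) k ≤ b := by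
    intro k hk1 hk2
    rw [Equiv.swap_apply_def]
    split_ifs <;> omega
  refine ⟨fun k hk1 hk2 => ?_, fun k l hk1 hk2 hl1 hl2 hkl => ?_⟩
  · exact h.1 _ (hσ k hk1 hk2).1 (hσ k hk1 hk2).2
  · exact h.2 _ _ (hσ k hk1 hk2).1 (hσ k hk1 hk2).2 (hσ l hl1 hl2).1 (hσ l hl1 hl2).2
      (fun hh => hkl ((Equiv.swap i (i + 1)).injective hh))

theorem tC_congr (q : ℂ) (S : Set (ℕ → ℂ)) (n : ℕ) : ∀ (a : ℕ) (f g : (ℕ → ℂ) → ℂ), (∀ i y, a ≤ i → i < a + n → y ∈ S → sw i y ∈ S) →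
    (∀ y ∈ S, f y = g y) → ∀ y ∈ S, tC q a n f y = tC q a n g y := by
  induction n with
  | zero =>
    intro a f g _ h2 y hy
    exact h2 y hy
  | succ n ih =>
    intro a f g h1 h2 y hy
    have h3 := ih (a + 1) f g (fun i y hi1 hi2 hy => h1 i y (by omega) (by omega) hy) h2
    show tA q (y a) (y (a + 1)) * tC q (a + 1) n f (sw a y) + tB q (y a) (y (a + 1)) * tC q (a + 1) n f y =
      tA q (y a) (y (a + 1)) * tC q (a + 1) n g (sw a y) + tB q (y a) (y (a + 1)) * tC q (a + 1) n g y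
    rw [h3 y hy, h3 (sw a y) (h1 a y le_rfl (by omega) hy)]

theorem tR_congr (q : ℂ) (S : Set (ℕ → ℂ)) (a n : ℕ) (f g : (ℕ → ℂ) → ℂ) (h1 : ∀ i y, a ≤ i → i < a + n → y ∈ S → sw i y ∈ S)
    (h2 : ∀ y ∈ S, f y = g y) : ∀ y ∈ S, tR q a n f y = tR q a n g y := by
  induction n with
  | zero => exact h2
  | succ n ih =>
    have h3 := ih (fun i y hi1 hi2 hy => h1 i y hi1 (by omega) hy)
    intro y hy
    show tA q (y (a + n)) (y (a + n + 1)) * tR q a n f (sw (a + n) y) + tB q (y (a + n)) (y (a + n + 1)) * tR q a n f y =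
      tA q (y (a + n)) (y (a + n + 1)) * tR q a n g (sw (a + n) y) + tB q (y (a + n)) (y (a + n + 1)) * tR q a n g y
    rw [h3 y hy, h3 (sw (a + n) y) (h1 (a + n) y (by omega) (by omega) hy)]

end NX
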