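import Pool.Agent.Lib.MP_216314_pr.N.QH

/-!
# Generic `q`: closed forms of the two chains

Generic points `GenI q a b y`. `Pf : ℂ → ℂ` is arbitrary.

`clL`: `tau_a ... tau_{a+n-1}` applied to `y ↦ ∏_{a ≤ i < j < a+n} F(y_i, y_j) * P(y_{a+n})` equals, with `R = {a+1, ..., a+n}`,
`(-1/q)^n ∏_{i<j in R} F(y_i,y_j) ∏_{j ∈ R} F(y_a,y_j) { P(y_a)/∏_{j ∈ R} (Y(y_j) - Y(y_a)) + ∑_{k ∈ R} P(y_k) WL(y_a,y_k) / ∏_{j ∈ R, j ≠ k} (Y(y_j) - Y(y_k)) }`.

Proof by induction on `n` (`a`, `P`, `y` general). `n = 0` is trivial. Step `n → n+1`: `tC a (n+1) f = tau a (tC (a+1) n f)`, `f(y) = ∏_{a ≤ i < j < a+n+1} F(y_i,y_j) P(y_{a+n+1})`. For the inner chain (variables `a+1, ..., a+n+1`, `y_a` is a spectator) write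
`f(y) = g(y) * ∏_{a+1 ≤ i < j < a+n+1} F(y_i,y_j) * (P(y_{a+n+1})/F(y_a, y_{a+n+1}))` with `g(y) = ∏_{j=a+1}^{a+n+1} F(y_a, y_j)` symmetric in the variables `a+1, ..., a+n+1`
(`tC_mul`; at a given point `y` with `x = y_a` fixed use the induction hypothesis for the function `t ↦ P t / F(x, t)`; all the points at which the functions are evaluated have the same entry `y_a = x` and the same set of entries,
so it is enough that the function `z ↦ ∏ F(z_i,z_j) * (P z_{a+n+1} / F(x, z_{a+n+1})) * ∏_j F(x, z_j)` agrees with `f` at points `z` with `z_a = x` and `F(x, z_j) ≠ 0`; an auxiliary lemma `tC_congr`: if `f = f'` on a set of points closed under `sw i`, `a ≤ i < a+n`, then the chains agree there, is useful).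
The induction hypothesis at `y` and at `sw a y` gives, with `Fall = ∏_{i<j in {a..a+n+1}} F(y_i,y_j)` and `R' = {a+2, ..., a+n+1}`,
`tC (a+1) n f (y) = (-1/q)^n Fall { P(y_{a+1}) / (F(y_a,y_{a+1}) ∏_{j ∈ R'} (Y_j - Y_{a+1})) + ∑_{k ∈ R'} P(y_k) WL(y_{a+1},y_k) / (F(y_a,y_k) ∏_{j ∈ R', j≠k} (Y_j - Y_k)) }`.
`Fall = F(y_a,y_{a+1}) S`, `S` symmetric in `y_a, y_{a+1}`. Then `tau a`: the coefficient of `P(y_{a+1})`: `B(y_a,y_{a+1}) S / ∏_{R'}` = `(-1/q) F WL S / ∏_{R'}`; the coefficient of `P(y_a)`: `A(y_a,y_{a+1}) S/∏_{R'} (Y_j - Y_a)`, use `tA_FF`;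
the coefficient of `P(y_k)`: `WL_step` with `x = y_a, y = y_{a+1}, z = y_k`.

`clR` (mirror image): `tau_{a+n-1} ... tau_a` applied to `y ↦ ∏_{a+1 ≤ i < j ≤ a+n} G(y_i,y_j) * R(y_a)`. Induction on `n`; step: the outer operator is `tau (a+n)`, the inner chain has the spectator `y_{a+n+1}`:
`∏_{a+1 ≤ i<j ≤ a+n+1} G = ∏_{a+1 ≤ i<j ≤ a+n} G * ∏_{i=a+1}^{a+n} G(y_i, y_{a+n+1})`, complete the last product to the symmetric `∏_{i=a}^{a+n}` and use the induction hypothesis for `t ↦ R t / G(t, y_{a+n+1})`; then `tA_GG`, `WR_step` with `x = y_{a+n}`, `y = y_{a+n+1}`, `z = y_k`.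
Both closed forms were verified numerically (random `q`, random points, `n ≤ 4`).
-/

set_option autoImplicit false

noncomputable section

namespace NX

open Finset PX

theorem QHL_swap (i k : ℕ) :
    Equiv.swap i (i + 1) k = if k = i then i + 1 else if k = i + 1 then i else k := by
  rw [Equiv.swap_apply_def]

/-- the product over the pairs: split off the smallest index -/
theorem QHL_pairs (a b : ℕ) (G : ℕ → ℕ → ℂ) (h : a < b) :
    ∏ j ∈ Ico a b, ∏ i ∈ Ico a j, G i j =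
      (∏ j ∈ Ico (a + 1) b, G a j) * ∏ j ∈ Ico (a + 1) b, ∏ i ∈ Ico (a + 1) j, G i j := by
  rw [Finset.prod_eq_prod_Ico_succ_bot h, Finset.Ico_self, Finset.prod_empty, one_mul,
    ← Finset.prod_mul_distrib]
  refine Finset.prod_congr rfl fun j hj => ?_
  rw [Finset.prod_eq_prod_Ico_succ_bot (by rw [Finset.mem_Ico] at hj; omega)]

theorem QHL_sym {i m M : ℕ} (h1 : m ≤ i) (h2 : i + 1 < M) (y : ℕ → ℂ) (f : ℂ → ℂ) :
    ∏ j ∈ Ico m M, f (sw i y j) = ∏ j ∈ Ico m M, f (y j) := by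
  refine Finset.prod_equiv (Equiv.swap i (i + 1)) ?_ ?_
  · intro j
    rw [Finset.mem_Ico, Finset.mem_Ico, QHL_swap]
    split_ifs <;> omega
  · intro j _
    rfl

/-- the inner chain -/
theorem QHL_inner {q : ℂ} (n a : ℕ) (Pf : ℂ → ℂ) (R : (ℂ → ℂ) → (ℕ → ℂ) → ℂ)
    (ih : ∀ (Pf : ℂ → ℂ) (y : ℕ → ℂ), GenI q (a + 1) (a + 1 + n) y →
      tC q (a + 1) n (fun z => (∏ j ∈ Ico (a + 1) (a + 1 + n), ∏ i ∈ Ico (a + 1) j,
        FFq q (z i) (z j)) * Pf (z (a + 1 + n))) y = R Pf y)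
    (w : ℕ → ℂ) (hw : GenI q a (a + 1 + n) w) :
    tC q (a + 1) n (fun z => (∏ j ∈ Ico a (a + 1 + n), ∏ i ∈ Ico a j, FFq q (z i) (z j)) *
      Pf (z (a + 1 + n))) w =
    (∏ j ∈ Ico (a + 1) (a + 1 + n + 1), FFq q (w a) (w j)) *
      R (fun t => Pf t / FFq q (w a) t) w := by
  have h1 := tC_congr q {z | z a = w a ∧ GenI q a (a + 1 + n) z} n (a + 1)
    (fun z => (∏ j ∈ Ico a (a + 1 + n), ∏ i ∈ Ico a j, FFq q (z i) (z j)) * Pf (z (a + 1 + n)))
    (fun z => (∏ j ∈ Ico (a + 1) (a + 1 + n + 1), FFq q (z a) (z j)) *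
      ((∏ j ∈ Ico (a + 1) (a + 1 + n), ∏ i ∈ Ico (a + 1) j, FFq q (z i) (z j)) *
        (Pf (z (a + 1 + n)) / FFq q (w a) (z (a + 1 + n))))) ?_ ?_ w ⟨rfl, hw⟩
  · rw [h1, tC_mul q (a + 1) n (fun z => (∏ j ∈ Ico (a + 1) (a + 1 + n), ∏ i ∈ Ico (a + 1) j,
        FFq q (z i) (z j)) * (Pf (z (a + 1 + n)) / FFq q (w a) (z (a + 1 + n))))
      (fun z => ∏ j ∈ Ico (a + 1) (a + 1 + n + 1), FFq q (z a) (z j)) ?_ w]
    · rw [ih (fun t => Pf t / FFq q (w a) t) w ?_]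
      exact ⟨fun i hi hi' => hw.1 i (by omega) hi', fun i j hi hi' hj hj' hij =>
        hw.2 i j (by omega) hi' (by omega) hj' hij⟩
    · intro i y hi hi'
      rw [sw_of_ne i y (by omega : a ≠ i) (by omega : a ≠ i + 1)]
      exact QHL_sym hi (by omega) y (FFq q (y a))
  · rintro i y hi hi' ⟨hy1, hy2⟩
    refine ⟨?_, hy2.sw (by omega) hi'⟩
    rw [sw_of_ne i y (by omega : a ≠ i) (by omega : a ≠ i + 1)]
    exact hy1
  · rintro z ⟨hz1, hz2⟩
    have hne : FFq q (z a) (z (a + 1 + n)) ≠ 0 :=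
      (hz2.2 a (a + 1 + n) le_rfl (by omega) (by omega) le_rfl (by omega)).2.2.2.1
    rw [QHL_pairs a (a + 1 + n) _ (by omega), Finset.prod_Ico_succ_top (by omega : a + 1 ≤ a + 1 + n),
      ← hz1]
    field_simp

theorem clL {q : ℂ} (hq : q ≠ 0) (n : ℕ) : ∀ (a : ℕ) (Pf : ℂ → ℂ) (y : ℕ → ℂ), GenI q a (a + n) y →
    tC q a n (fun z => (∏ j ∈ Ico a (a + n), ∏ i ∈ Ico a j, FFq q (z i) (z j)) * Pf (z (a + n))) y =
    (-q⁻¹) ^ n * (∏ j ∈ Ico (a + 1) (a + n + 1), ∏ i ∈ Ico (a + 1) j, FFq q (y i) (y j)) *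
      (∏ j ∈ Ico (a + 1) (a + n + 1), FFq q (y a) (y j)) *
      (Pf (y a) / (∏ j ∈ Ico (a + 1) (a + n + 1), (Yq q (y j) - Yq q (y a))) +
        ∑ k ∈ Ico (a + 1) (a + n + 1), Pf (y k) * WLq q (y a) (y k) /
          ∏ j ∈ (Ico (a + 1) (a + n + 1)).erase k, (Yq q (y j) - Yq q (y k))) := by
  induction n with
  | zero =>
    intro a Pf y _
    simp only [Finset.Ico_self, Finset.prod_empty, Finset.sum_empty, pow_zero,
      div_one, one_mul, mul_one, add_zero]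
    rfl
  | succ n ih =>
    intro a Pf y hy
    have e2 : a + (n + 1) = a + 1 + n := by omega
    rw [e2] at hy ⊢
    show tau q a (tC q (a + 1) n (fun z => (∏ j ∈ Ico a (a + 1 + n), ∏ i ∈ Ico a j,
      FFq q (z i) (z j)) * Pf (z (a + 1 + n)))) y = _
    unfold tau
    have hy' : GenI q a (a + 1 + n) (sw a y) := hy.sw le_rfl (by omega)
    rw [QHL_inner n a Pf _ (ih (a + 1)) (sw a y) hy', QHL_inner n a Pf _ (ih (a + 1)) y hy]
    -- shorthand
    have hlt : a + 1 < a + 1 + n + 1 := by omega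
    have hsw : ∀ j ∈ Ico (a + 1 + 1) (a + 1 + n + 1), sw a y j = y j := by
      intro j hj
      rw [Finset.mem_Ico] at hj
      exact sw_of_ne a y (by omega) (by omega)
    have hgen := hy.2 a (a + 1) le_rfl (by omega) (by omega) (by omega) (by omega)
    have hgen' := hy.2 (a + 1) a (by omega) (by omega) le_rfl (by omega) (by omega)
    have hxu : FFq q (y a) (y (a + 1)) ≠ 0 := hgen.2.2.2.1
    have hux : FFq q (y (a + 1)) (y a) ≠ 0 := hgen'.2.2.2.1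
    have hx0 : y a ≠ 0 := hy.1 a le_rfl (by omega)
    have hu0 : y (a + 1) ≠ 0 := hy.1 (a + 1) (by omega) (by omega)
    have hYxu : Yq q (y a) ≠ Yq q (y (a + 1)) := hgen.2.1
    -- the products
    have p1 : ∏ j ∈ Ico (a + 1) (a + 1 + n + 1), FFq q (sw a y a) (sw a y j) =
        FFq q (y (a + 1)) (y a) *
          ∏ j ∈ Ico (a + 1 + 1) (a + 1 + n + 1), FFq q (y (a + 1)) (y j) := by
      rw [Finset.prod_eq_prod_Ico_succ_bot hlt, sw_left, sw_right]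
      refine congrArg _ (Finset.prod_congr rfl fun j hj => ?_)
      rw [hsw j hj]
    have p2 : ∏ j ∈ Ico (a + 1) (a + 1 + n + 1), FFq q (y a) (y j) =
        FFq q (y a) (y (a + 1)) *
          ∏ j ∈ Ico (a + 1 + 1) (a + 1 + n + 1), FFq q (y a) (y j) :=
      Finset.prod_eq_prod_Ico_succ_bot hlt _
    have p3 : ∏ j ∈ Ico (a + 1 + 1) (a + 1 + n + 1), ∏ i ∈ Ico (a + 1 + 1) j,
        FFq q (sw a y i) (sw a y j) =
        ∏ j ∈ Ico (a + 1 + 1) (a + 1 + n + 1), ∏ i ∈ Ico (a + 1 + 1) j, FFq q (y i) (y j) := by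
      refine Finset.prod_congr rfl fun j hj => Finset.prod_congr rfl fun i hi => ?_
      rw [hsw j hj, hsw i (by rw [Finset.mem_Ico] at hi hj ⊢; omega)]
    have p4 : ∏ j ∈ Ico (a + 1 + 1) (a + 1 + n + 1), FFq q (sw a y (a + 1)) (sw a y j) =
        ∏ j ∈ Ico (a + 1 + 1) (a + 1 + n + 1), FFq q (y a) (y j) := by
      refine Finset.prod_congr rfl fun j hj => ?_
      rw [hsw j hj, sw_right]
    have p5 : ∏ j ∈ Ico (a + 1 + 1) (a + 1 + n + 1), (Yq q (sw a y j) - Yq q (sw a y (a + 1))) =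
        ∏ j ∈ Ico (a + 1 + 1) (a + 1 + n + 1), (Yq q (y j) - Yq q (y a)) := by
      refine Finset.prod_congr rfl fun j hj => ?_
      rw [hsw j hj, sw_right]
    have p6 : ∑ k ∈ Ico (a + 1 + 1) (a + 1 + n + 1),
        Pf (sw a y k) / FFq q (sw a y a) (sw a y k) * WLq q (sw a y (a + 1)) (sw a y k) /
          ∏ j ∈ (Ico (a + 1 + 1) (a + 1 + n + 1)).erase k, (Yq q (sw a y j) - Yq q (sw a y k)) =
        ∑ k ∈ Ico (a + 1 + 1) (a + 1 + n + 1),
        Pf (y k) / FFq q (y (a + 1)) (y k) * WLq q (y a) (y k) /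
          ∏ j ∈ (Ico (a + 1 + 1) (a + 1 + n + 1)).erase k, (Yq q (y j) - Yq q (y k)) := by
      refine Finset.sum_congr rfl fun k hk => ?_
      have h7 : ∏ j ∈ (Ico (a + 1 + 1) (a + 1 + n + 1)).erase k,
          (Yq q (sw a y j) - Yq q (sw a y k)) =
          ∏ j ∈ (Ico (a + 1 + 1) (a + 1 + n + 1)).erase k, (Yq q (y j) - Yq q (y k)) := by
        refine Finset.prod_congr rfl fun j hj => ?_
        rw [hsw j (Finset.mem_of_mem_erase hj), hsw k hk]
      rw [h7, hsw k hk, sw_left, sw_right]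
    have p7 : ∏ j ∈ Ico (a + 1) (a + 1 + n + 1), ∏ i ∈ Ico (a + 1) j, FFq q (y i) (y j) =
        (∏ j ∈ Ico (a + 1 + 1) (a + 1 + n + 1), FFq q (y (a + 1)) (y j)) *
        ∏ j ∈ Ico (a + 1 + 1) (a + 1 + n + 1), ∏ i ∈ Ico (a + 1 + 1) j, FFq q (y i) (y j) :=
      QHL_pairs (a + 1) (a + 1 + n + 1) (fun i j => FFq q (y i) (y j)) hlt
    have p8 : ∏ j ∈ Ico (a + 1) (a + 1 + n + 1), (Yq q (y j) - Yq q (y a)) =
        (Yq q (y (a + 1)) - Yq q (y a)) *
          ∏ j ∈ Ico (a + 1 + 1) (a + 1 + n + 1), (Yq q (y j) - Yq q (y a)) :=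
      Finset.prod_eq_prod_Ico_succ_bot hlt _
    have p9 : ∑ k ∈ Ico (a + 1) (a + 1 + n + 1), Pf (y k) * WLq q (y a) (y k) /
          ∏ j ∈ (Ico (a + 1) (a + 1 + n + 1)).erase k, (Yq q (y j) - Yq q (y k)) =
        Pf (y (a + 1)) * WLq q (y a) (y (a + 1)) /
          (∏ j ∈ Ico (a + 1 + 1) (a + 1 + n + 1), (Yq q (y j) - Yq q (y (a + 1)))) +
        ∑ k ∈ Ico (a + 1 + 1) (a + 1 + n + 1), Pf (y k) * WLq q (y a) (y k) /
          ((Yq q (y (a + 1)) - Yq q (y k)) *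
            ∏ j ∈ (Ico (a + 1 + 1) (a + 1 + n + 1)).erase k, (Yq q (y j) - Yq q (y k))) := by
      rw [Finset.sum_eq_sum_Ico_succ_bot hlt]
      have h8 : (Ico (a + 1) (a + 1 + n + 1)).erase (a + 1) =
          Ico (a + 1 + 1) (a + 1 + n + 1) := by
        ext j
        rw [Finset.mem_erase, Finset.mem_Ico, Finset.mem_Ico]
        omega
      rw [h8]
      refine congrArg _ (Finset.sum_congr rfl fun k hk => ?_)
      have h9 : (Ico (a + 1) (a + 1 + n + 1)).erase k =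
          insert (a + 1) ((Ico (a + 1 + 1) (a + 1 + n + 1)).erase k) := by
        ext j
        rw [Finset.mem_Ico] at hk
        rw [Finset.mem_erase, Finset.mem_Ico, Finset.mem_insert, Finset.mem_erase, Finset.mem_Ico]
        omega
      rw [h9, Finset.prod_insert]
      rw [Finset.mem_erase, Finset.mem_Ico]
      omega
    beta_reduce
    rw [p1, p2, p3, p4, p5, p6, p7, p8, p9]
    -- the sums
    have hS : tA q (y a) (y (a + 1)) * FFq q (y (a + 1)) (y a) *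
        (∑ k ∈ Ico (a + 1 + 1) (a + 1 + n + 1),
        Pf (y k) / FFq q (y (a + 1)) (y k) * WLq q (y a) (y k) /
          ∏ j ∈ (Ico (a + 1 + 1) (a + 1 + n + 1)).erase k, (Yq q (y j) - Yq q (y k))) +
        tB q (y a) (y (a + 1)) * FFq q (y a) (y (a + 1)) *
        (∑ k ∈ Ico (a + 1 + 1) (a + 1 + n + 1),
        Pf (y k) / FFq q (y a) (y k) * WLq q (y (a + 1)) (y k) /
          ∏ j ∈ (Ico (a + 1 + 1) (a + 1 + n + 1)).erase k, (Yq q (y j) - Yq q (y k))) =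
        -q⁻¹ * FFq q (y a) (y (a + 1)) *
        ∑ k ∈ Ico (a + 1 + 1) (a + 1 + n + 1), Pf (y k) * WLq q (y a) (y k) /
          ((Yq q (y (a + 1)) - Yq q (y k)) *
            ∏ j ∈ (Ico (a + 1 + 1) (a + 1 + n + 1)).erase k, (Yq q (y j) - Yq q (y k))) := by
      rw [Finset.mul_sum, Finset.mul_sum, Finset.mul_sum, ← Finset.sum_add_distrib]
      refine Finset.sum_congr rfl fun k hk => ?_
      rw [Finset.mem_Ico] at hk
      have g1 := hy.2 a k le_rfl (by omega) (by omega) (by omega) (by omega)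
      have g2 := hy.2 (a + 1) k (by omega) (by omega) (by omega) (by omega) (by omega)
      have hst := WL_step hq hx0 hu0 (hy.1 k (by omega) (by omega)) hYxu g1.2.1 g2.2.1
        g1.2.2.2.1 g2.2.2.2.1
      rw [← div_div (Pf (y k) * WLq q (y a) (y k)) (Yq q (y (a + 1)) - Yq q (y k))]
      linear_combination (Pf (y k) /
        ∏ j ∈ (Ico (a + 1 + 1) (a + 1 + n + 1)).erase k, (Yq q (y j) - Yq q (y k))) * hst
    have hA := tA_FF hq hx0 hu0 hYxu
    have hB : tB q (y a) (y (a + 1)) =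
        -q⁻¹ * FFq q (y a) (y (a + 1)) * WLq q (y a) (y (a + 1)) := by
      unfold WLq
      field_simp
    generalize (∑ k ∈ Ico (a + 1 + 1) (a + 1 + n + 1),
        Pf (y k) / FFq q (y (a + 1)) (y k) * WLq q (y a) (y k) /
          ∏ j ∈ (Ico (a + 1 + 1) (a + 1 + n + 1)).erase k, (Yq q (y j) - Yq q (y k))) = S1 at hS ⊢
    generalize (∑ k ∈ Ico (a + 1 + 1) (a + 1 + n + 1),
        Pf (y k) / FFq q (y a) (y k) * WLq q (y (a + 1)) (y k) /
          ∏ j ∈ (Ico (a + 1 + 1) (a + 1 + n + 1)).erase k, (Yq q (y j) - Yq q (y k))) = S2 at hS ⊢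
    generalize (∑ k ∈ Ico (a + 1 + 1) (a + 1 + n + 1), Pf (y k) * WLq q (y a) (y k) /
          ((Yq q (y (a + 1)) - Yq q (y k)) *
            ∏ j ∈ (Ico (a + 1 + 1) (a + 1 + n + 1)).erase k, (Yq q (y j) - Yq q (y k)))) = S3
      at hS ⊢
    generalize (∏ j ∈ Ico (a + 1 + 1) (a + 1 + n + 1), ∏ i ∈ Ico (a + 1 + 1) j,
      FFq q (y i) (y j)) = E
    generalize (∏ j ∈ Ico (a + 1 + 1) (a + 1 + n + 1), FFq q (y (a + 1)) (y j)) = Pu
    generalize (∏ j ∈ Ico (a + 1 + 1) (a + 1 + n + 1), FFq q (y a) (y j)) = Px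
    generalize (∏ j ∈ Ico (a + 1 + 1) (a + 1 + n + 1), (Yq q (y j) - Yq q (y a))) = Dx
    generalize (∏ j ∈ Ico (a + 1 + 1) (a + 1 + n + 1), (Yq q (y j) - Yq q (y (a + 1)))) = Du
    have t1 : FFq q (y (a + 1)) (y a) * (Pf (y a) / FFq q (y (a + 1)) (y a) / Dx) =
        Pf (y a) / Dx := by
      rw [← mul_div_assoc, mul_div_cancel₀ _ hux]
    have t2 : FFq q (y a) (y (a + 1)) * (Pf (y (a + 1)) / FFq q (y a) (y (a + 1)) / Du) =
        Pf (y (a + 1)) / Du := by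
      rw [← mul_div_assoc, mul_div_cancel₀ _ hxu]
    rw [pow_succ]
    generalize (-q⁻¹) ^ n = cn
    rw [sw_left, sw_right, ← div_div (Pf (y a)) (Yq q (y (a + 1)) - Yq q (y a))]
    linear_combination (cn * E * Px * Pu) * (tA q (y a) (y (a + 1)) * t1 +
      tB q (y a) (y (a + 1)) * t2 + hS + (Pf (y a) / Dx) * hA + (Pf (y (a + 1)) / Du) * hB)

end NX
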