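import Pool.Agent.Lib.MP_216314_pr.N.QH

/-!
# Generic `q`: closed forms of the two chains

Generic points `GenI q a b y`. `Pf : ℂ → ℂ` is arbitrary.

`clL`: `tau_a ... tau_{a+n-1}` applied to `y ↦ ∏_{a ≤ i < j < a+n} F(y_i, y_j) * P(y_{a+n})` equals, with `R = {a+1, ..., a+n}`,
`(-1/q)^n ∏_{i<j in R} F(y_i,y_j) ∏_{j ∈ R} F(y_a,y_j) { P(y_a)/∏_{j ∈ R} (Y(y_j) - Y(y_a)) + ∑_{k ∈ R} P(y_k) WL(y_a,y_k) / ∏_{j ∈ R, j ≠ k} (Y(y_j) - Y(y_k)) }`.

Proof by induction on `n` (`a`, `P`, `y` general). `n = 0` is trivial. Step `n → n+1`: `tC a (n+1) f = tau a (tC (a+1) n f)`, `f(y) = ∏_{a ≤ i < j < a+n+1} F(y_i,y_j) P(y_{a+n+1})`. For the inner chain (variables `a+1, ..., a+n+1`, `y_a` is a spectator) write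
`f(y) = g(y) * ∏_{a+1 ≤ i < j < a+n+1} F(y_i,y_j) * (P(y_{a+n+1})/F(y_a, y_{a+n+1}))` with `g(y) = ∏_{j=a+1}^{a+n+1} F(y_a, y_j)` symmetric in the variables `a+1, ..., a+n+1`
(`tC_mul`; at a given point `y` with `x = y_a` fixed use the induction hypothesis for the function `t ↦ P t / F(x, t)`; all the points at which the functions are evaluated have the same entry `y_a = x` and the same set of entries,
so it is enough that the function `z ↦ ∏ F(z_i,z_j) * (P z_{a+n+1} / F(x, z_{a+n+1})) * ∏_j F(x, z_j)` agrees with `f` at points `z` with `z_a = x` and `F(x, z_j) ≠ 0`; an auxiliary lemma `tC_congr`: if `f = f'` on a set of points closed under `sw i`, `a ≤ i < a+n`, then the chains agree there, is useful).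
The induction hypothesis at `y` and at `sw a y` gives, with `Fall = ∏_{i<j in {a..a+n+1}} F(y_i,y_j)` and `R' = {a+2, ..., a+n+1}`,
`tC (a+1) n f (y) = (-1/q)^n Fall { P(y_{a+1}) / (F(y_a,y_{a+1}) ∏_{j ∈ R'} (Y_j - Y_{a+1})) + ∑_{k ∈ R'} P(y_k) WL(y_{a+1},y_k) / (F(y_a,y_k) ∏_{j ∈ R', j≠k} (Y_j - Y_k)) }`.
`Fall = F(y_a,y_{a+1}) S`, `S` symmetric in `y_a, y_{a+1}`. Then `tau a`: the coefficient of `P(y_{a+1})`: `B(y_a,y_{a+1}) S / ∏_{R'}` = `(-1/q) F WL S / ∏_{R'}`; the coefficient of `P(y_a)`: `A(y_a,y_{a+1}) S/∏_{R'} (Y_j - Y_a)`, use `tA_FF`;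
the coefficient of `P(y_k)`: `WL_step` with `x = y_a, y = y_{a+1}, z = y_k`.

`clR` (mirror image): `tau_{a+n-1} ... tau_a` applied to `y ↦ ∏_{a+1 ≤ i < j ≤ a+n} G(y_i,y_j) * R(y_a)`. Induction on `n`; step: the outer operator is `tau (a+n)`, the inner chain has the spectator `y_{a+n+1}`:
`∏_{a+1 ≤ i<j ≤ a+n+1} G = ∏_{a+1 ≤ i<j ≤ a+n} G * ∏_{i=a+1}^{a+n} G(y_i, y_{a+n+1})`, complete the last product to the symmetric `∏_{i=a}^{a+n}` and use the induction hypothesis for `t ↦ R t / G(t, y_{a+n+1})`; then `tA_GG`, `WR_step` with `x = y_{a+n}`, `y = y_{a+n+1}`, `z = y_k`.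
Both closed forms were verified numerically (random `q`, random points, `n ≤ 4`).
-/

set_option autoImplicit false

noncomputable section

namespace NX

open Finset PX

theorem QHR_res {q : ℂ} {a b : ℕ} {y : ℕ → ℂ} (h : GenI q a (b + 1) y) : GenI q a b y :=
  ⟨fun i h1 h2 => h.1 i h1 (by omega), fun i j h1 h2 h3 h4 h5 => h.2 i j h1 (by omega) h3 (by omega) h5⟩

/-- a product over an interval of a function of the coordinates is symmetric -/
theorem QHR_sym {a b i : ℕ} (h1 : a ≤ i) (h2 : i + 1 < b) (F : ℂ → ℂ) (y : ℕ → ℂ) :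
    ∏ k ∈ Ico a b, F (sw i y k) = ∏ k ∈ Ico a b, F (y k) := by
  refine Finset.prod_nbij' (fun k => Equiv.swap i (i + 1) k) (fun k => Equiv.swap i (i + 1) k) ?_ ?_ ?_ ?_ ?_
  · intro k hk
    rw [Finset.mem_Ico] at hk ⊢
    by_cases e1 : k = i
    · rw [e1, Equiv.swap_apply_left]
      omega
    · by_cases e2 : k = i + 1
      · rw [e2, Equiv.swap_apply_right]
        omega
      · rw [Equiv.swap_apply_of_ne_of_ne e1 e2]
        exact hk
  · intro k hk
    rw [Finset.mem_Ico] at hk ⊢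
    by_cases e1 : k = i
    · rw [e1, Equiv.swap_apply_left]
      omega
    · by_cases e2 : k = i + 1
      · rw [e2, Equiv.swap_apply_right]
        omega
      · rw [Equiv.swap_apply_of_ne_of_ne e1 e2]
        exact hk
  · intro k _
    exact Equiv.swap_apply_self _ _ _
  · intro k _
    exact Equiv.swap_apply_self _ _ _
  · intro k _
    rfl

/-- the value of the inner chain, from the induction hypothesis -/
theorem QHR_inner {q : ℂ} (n : ℕ)
    (IH : ∀ (a : ℕ) (Rf : ℂ → ℂ) (y : ℕ → ℂ), GenI q a (a + n) y →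
    tR q a n (fun z => (∏ j ∈ Ico (a + 1) (a + n + 1), ∏ i ∈ Ico (a + 1) j, GGq q (z i) (z j)) * Rf (z a)) y =
    (-q) ^ n * (∏ j ∈ Ico a (a + n), ∏ i ∈ Ico a j, GGq q (y i) (y j)) *
      (∏ i ∈ Ico a (a + n), GGq q (y i) (y (a + n))) *
      (Rf (y (a + n)) / (∏ i ∈ Ico a (a + n), (Vq q (y i) - Vq q (y (a + n)))) +
        ∑ k ∈ Ico a (a + n), Rf (y k) * WRq q (y k) (y (a + n)) /
          ∏ i ∈ (Ico a (a + n)).erase k, (Vq q (y i) - Vq q (y k))))
    (a : ℕ) (Rf : ℂ → ℂ) (y : ℕ → ℂ) (hy : GenI q a (a + n + 1) y) :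
    tR q a n (fun z => (∏ j ∈ Ico (a + 1) (a + n + 1 + 1), ∏ i ∈ Ico (a + 1) j, GGq q (z i) (z j)) * Rf (z a)) y =
    (∏ i ∈ Ico a (a + n), GGq q (y i) (y (a + n + 1))) * GGq q (y (a + n)) (y (a + n + 1)) *
    ((-q) ^ n * (∏ j ∈ Ico a (a + n), ∏ i ∈ Ico a j, GGq q (y i) (y j)) *
      (∏ i ∈ Ico a (a + n), GGq q (y i) (y (a + n))) *
      (Rf (y (a + n)) / GGq q (y (a + n)) (y (a + n + 1)) /
          (∏ i ∈ Ico a (a + n), (Vq q (y i) - Vq q (y (a + n)))) +
        ∑ k ∈ Ico a (a + n), Rf (y k) / GGq q (y k) (y (a + n + 1)) * WRq q (y k) (y (a + n)) /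
          ∏ i ∈ (Ico a (a + n)).erase k, (Vq q (y i) - Vq q (y k)))) := by
  obtain ⟨w, hw⟩ : ∃ w : ℂ, w = y (a + n + 1) := ⟨_, rfl⟩
  have h1 := tR_congr q {z | GenI q a (a + n + 1) z ∧ z (a + n + 1) = w} a n
    (fun z => (∏ j ∈ Ico (a + 1) (a + n + 1 + 1), ∏ i ∈ Ico (a + 1) j, GGq q (z i) (z j)) * Rf (z a))
    (fun z => (∏ i ∈ Ico a (a + n + 1), GGq q (z i) w) *
      ((∏ j ∈ Ico (a + 1) (a + n + 1), ∏ i ∈ Ico (a + 1) j, GGq q (z i) (z j)) *
        (fun t => Rf t / GGq q t w) (z a))) ?_ ?_ y ⟨hy, hw.symm⟩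
  · rw [h1, tR_mul, IH a (fun t => Rf t / GGq q t w) y (QHR_res hy), Finset.prod_Ico_succ_top (by omega), hw]
    intro i z hi1 hi2
    exact QHR_sym hi1 (by omega) (fun t => GGq q t w) z
  · rintro i z hi1 hi2 ⟨hz1, hz2⟩
    refine ⟨hz1.sw hi1 (by omega), ?_⟩
    rw [sw_of_ne i z (by omega) (by omega)]
    exact hz2
  · rintro z ⟨hz1, hz2⟩
    have hG : GGq q (z a) w ≠ 0 := by
      rw [← hz2]
      exact (hz1.2 a (a + n + 1) le_rfl (by omega) (by omega) le_rfl (by omega)).2.2.2.2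
    show (∏ j ∈ Ico (a + 1) (a + n + 1 + 1), ∏ i ∈ Ico (a + 1) j, GGq q (z i) (z j)) * Rf (z a) =
      (∏ i ∈ Ico a (a + n + 1), GGq q (z i) w) *
      ((∏ j ∈ Ico (a + 1) (a + n + 1), ∏ i ∈ Ico (a + 1) j, GGq q (z i) (z j)) *
        (Rf (z a) / GGq q (z a) w))
    rw [Finset.prod_Ico_succ_top (by omega : a + 1 ≤ a + n + 1), hz2,
      Finset.prod_eq_prod_Ico_succ_bot (by omega : a < a + n + 1) (fun i => GGq q (z i) w)]
    field_simp

theorem clR {q : ℂ} (hq : q ≠ 0) (n : ℕ) : ∀ (a : ℕ) (Rf : ℂ → ℂ) (y : ℕ → ℂ), GenI q a (a + n) y →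
    tR q a n (fun z => (∏ j ∈ Ico (a + 1) (a + n + 1), ∏ i ∈ Ico (a + 1) j, GGq q (z i) (z j)) * Rf (z a)) y =
    (-q) ^ n * (∏ j ∈ Ico a (a + n), ∏ i ∈ Ico a j, GGq q (y i) (y j)) *
      (∏ i ∈ Ico a (a + n), GGq q (y i) (y (a + n))) *
      (Rf (y (a + n)) / (∏ i ∈ Ico a (a + n), (Vq q (y i) - Vq q (y (a + n)))) +
        ∑ k ∈ Ico a (a + n), Rf (y k) * WRq q (y k) (y (a + n)) /
          ∏ i ∈ (Ico a (a + n)).erase k, (Vq q (y i) - Vq q (y k))) := by
  induction n with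
  | zero =>
    intro a Rf y _
    simp [tR]
  | succ n IH =>
    intro a Rf y hy
    have hy' : GenI q a (a + n + 1) y := hy
    have hsw : GenI q a (a + n + 1) (sw (a + n) y) := hy'.sw (by omega) (by omega)
    have e1 := QHR_inner n IH a Rf y hy'
    have e2 := QHR_inner n IH a Rf (sw (a + n) y) hsw
    have hlow : ∀ i ∈ Ico a (a + n), sw (a + n) y i = y i := by
      intro i hi
      rw [Finset.mem_Ico] at hi
      exact sw_of_ne (a + n) y (by omega) (by omega)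
    have hQ : ∏ j ∈ Ico a (a + n), ∏ i ∈ Ico a j, GGq q (sw (a + n) y i) (sw (a + n) y j) =
        ∏ j ∈ Ico a (a + n), ∏ i ∈ Ico a j, GGq q (y i) (y j) := by
      refine Finset.prod_congr rfl fun j hj => Finset.prod_congr rfl fun i hi => ?_
      rw [hlow j hj, hlow i (by rw [Finset.mem_Ico] at hi hj ⊢; omega)]
    have hP : ∀ F : ℂ → ℂ, ∏ i ∈ Ico a (a + n), F (sw (a + n) y i) = ∏ i ∈ Ico a (a + n), F (y i) :=
      fun F => Finset.prod_congr rfl fun i hi => by rw [hlow i hi]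
    have hs : ∑ k ∈ Ico a (a + n), Rf (sw (a + n) y k) / GGq q (sw (a + n) y k) (y (a + n)) *
        WRq q (sw (a + n) y k) (y (a + n + 1)) /
          ∏ i ∈ (Ico a (a + n)).erase k, (Vq q (sw (a + n) y i) - Vq q (sw (a + n) y k)) =
        ∑ k ∈ Ico a (a + n), Rf (y k) / GGq q (y k) (y (a + n)) * WRq q (y k) (y (a + n + 1)) /
          ∏ i ∈ (Ico a (a + n)).erase k, (Vq q (y i) - Vq q (y k)) := by
      refine Finset.sum_congr rfl fun k hk => ?_
      rw [hlow k hk]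
      congr 1
      refine Finset.prod_congr rfl fun i hi => ?_
      rw [hlow i (Finset.mem_of_mem_erase hi)]
    rw [sw_left, sw_right, hQ, hs, hP (fun t => GGq q t (y (a + n))),
      hP (fun t => GGq q t (y (a + n + 1))), hP (fun t => Vq q t - Vq q (y (a + n + 1)))] at e2
    show tau q (a + n) (tR q a n (fun z => (∏ j ∈ Ico (a + 1) (a + n + 1 + 1),
      ∏ i ∈ Ico (a + 1) j, GGq q (z i) (z j)) * Rf (z a))) y = _
    unfold tau
    rw [e1, e2]
    have hx0 : y (a + n) ≠ 0 := hy'.1 _ (by omega) (by omega)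
    have ht0 : y (a + n + 1) ≠ 0 := hy'.1 _ (by omega) (by omega)
    obtain ⟨-, -, hV, -, hG⟩ := hy'.2 (a + n) (a + n + 1) (by omega) (by omega) (by omega) (by omega) (by omega)
    obtain ⟨-, -, -, -, hG'⟩ := hy'.2 (a + n + 1) (a + n) (by omega) (by omega) (by omega) (by omega) (by omega)
    have hIco : Ico a (a + (n + 1)) = insert (a + n) (Ico a (a + n)) := by
      ext k
      simp only [Finset.mem_Ico, Finset.mem_insert]
      omega
    have hnm : a + n ∉ Ico a (a + n) := by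
      rw [Finset.mem_Ico]
      omega
    have hsum : ∑ k ∈ Ico a (a + (n + 1)), Rf (y k) * WRq q (y k) (y (a + (n + 1))) /
          ∏ i ∈ (Ico a (a + (n + 1))).erase k, (Vq q (y i) - Vq q (y k)) =
        Rf (y (a + n)) * WRq q (y (a + n)) (y (a + n + 1)) /
          (∏ i ∈ Ico a (a + n), (Vq q (y i) - Vq q (y (a + n)))) +
        ∑ k ∈ Ico a (a + n), Rf (y k) * WRq q (y k) (y (a + n + 1)) /
          ((Vq q (y (a + n)) - Vq q (y k)) *
            ∏ i ∈ (Ico a (a + n)).erase k, (Vq q (y i) - Vq q (y k))) := by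
      rw [hIco, Finset.sum_insert hnm, Finset.erase_insert hnm]
      congr 1
      refine Finset.sum_congr rfl fun k hk => ?_
      have hk1 : a + n ≠ k := by
        intro e
        exact hnm (e ▸ hk)
      rw [Finset.erase_insert_of_ne hk1, Finset.prod_insert]
      · rfl
      · intro h
        exact hnm (Finset.mem_of_mem_erase h)
    rw [hsum, hIco, Finset.prod_insert hnm, Finset.prod_insert hnm, Finset.prod_insert hnm]
    show _ = (-q) ^ (n + 1) * ((∏ i ∈ Ico a (a + n), GGq q (y i) (y (a + n))) *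
        ∏ j ∈ Ico a (a + n), ∏ i ∈ Ico a j, GGq q (y i) (y j)) *
      (GGq q (y (a + n)) (y (a + n + 1)) * ∏ i ∈ Ico a (a + n), GGq q (y i) (y (a + n + 1))) *
      (Rf (y (a + n + 1)) / ((Vq q (y (a + n)) - Vq q (y (a + n + 1))) *
        ∏ i ∈ Ico a (a + n), (Vq q (y i) - Vq q (y (a + n + 1)))) +
        (Rf (y (a + n)) * WRq q (y (a + n)) (y (a + n + 1)) /
          (∏ i ∈ Ico a (a + n), (Vq q (y i) - Vq q (y (a + n)))) +
        ∑ k ∈ Ico a (a + n), Rf (y k) * WRq q (y k) (y (a + n + 1)) /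
          ((Vq q (y (a + n)) - Vq q (y k)) *
            ∏ i ∈ (Ico a (a + n)).erase k, (Vq q (y i) - Vq q (y k)))))
    -- the three coefficients
    have c1 : tA q (y (a + n)) (y (a + n + 1)) = -q * GGq q (y (a + n)) (y (a + n + 1)) /
        (Vq q (y (a + n)) - Vq q (y (a + n + 1))) := tA_GG hq hx0 ht0 hV
    have c2 : tB q (y (a + n)) (y (a + n + 1)) =
        -q * GGq q (y (a + n)) (y (a + n + 1)) * WRq q (y (a + n)) (y (a + n + 1)) := by
      unfold WRq
      rw [mul_div_cancel₀]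
      exact mul_ne_zero (neg_ne_zero.mpr hq) hG
    have c3 : ∑ k ∈ Ico a (a + n), (-q * GGq q (y (a + n)) (y (a + n + 1))) *
          (Rf (y k) * WRq q (y k) (y (a + n + 1)) /
          ((Vq q (y (a + n)) - Vq q (y k)) *
            ∏ i ∈ (Ico a (a + n)).erase k, (Vq q (y i) - Vq q (y k)))) =
        tA q (y (a + n)) (y (a + n + 1)) * GGq q (y (a + n + 1)) (y (a + n)) *
          (∑ k ∈ Ico a (a + n), Rf (y k) / GGq q (y k) (y (a + n)) * WRq q (y k) (y (a + n + 1)) /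
          ∏ i ∈ (Ico a (a + n)).erase k, (Vq q (y i) - Vq q (y k))) +
        tB q (y (a + n)) (y (a + n + 1)) * GGq q (y (a + n)) (y (a + n + 1)) *
          (∑ k ∈ Ico a (a + n), Rf (y k) / GGq q (y k) (y (a + n + 1)) * WRq q (y k) (y (a + n)) /
          ∏ i ∈ (Ico a (a + n)).erase k, (Vq q (y i) - Vq q (y k))) := by
      rw [Finset.mul_sum, Finset.mul_sum, ← Finset.sum_add_distrib]
      refine Finset.sum_congr rfl fun k hk => ?_
      have hk1 := Finset.mem_Ico.1 hk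
      have hz0 : y k ≠ 0 := hy'.1 _ (by omega) (by omega)
      obtain ⟨-, -, hVx, -, -⟩ := hy'.2 (a + n) k (by omega) (by omega) (by omega) (by omega) (by omega)
      obtain ⟨-, -, hVt, -, -⟩ := hy'.2 (a + n + 1) k (by omega) (by omega) (by omega) (by omega) (by omega)
      obtain ⟨-, -, -, -, hGx⟩ := hy'.2 k (a + n) (by omega) (by omega) (by omega) (by omega) (by omega)
      obtain ⟨-, -, -, -, hGt⟩ := hy'.2 k (a + n + 1) (by omega) (by omega) (by omega) (by omega) (by omega)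
      have hst := WR_step hq hx0 ht0 hz0 hV hVx hVt hGx hGt
      generalize ∏ i ∈ (Ico a (a + n)).erase k, (Vq q (y i) - Vq q (y k)) = D
      calc (-q * GGq q (y (a + n)) (y (a + n + 1))) * (Rf (y k) * WRq q (y k) (y (a + n + 1)) /
            ((Vq q (y (a + n)) - Vq q (y k)) * D))
          = (-q * GGq q (y (a + n)) (y (a + n + 1)) * WRq q (y k) (y (a + n + 1)) /
            (Vq q (y (a + n)) - Vq q (y k))) * (Rf (y k) / D) := by
            rw [div_mul_div_comm, ← mul_div_assoc]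
            congr 1
            ring
        _ = _ := by
            rw [← hst]
            ring
    rw [← Finset.mul_sum] at c3
    have g1 : tA q (y (a + n)) (y (a + n + 1)) *
        (GGq q (y (a + n + 1)) (y (a + n)) * (Rf (y (a + n + 1)) / GGq q (y (a + n + 1)) (y (a + n)))) =
        -q * GGq q (y (a + n)) (y (a + n + 1)) * (Rf (y (a + n + 1)) /
          (Vq q (y (a + n)) - Vq q (y (a + n + 1)))) := by
      rw [mul_div_cancel₀ _ hG', c1]
      ring
    have g2 : tB q (y (a + n)) (y (a + n + 1)) *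
        (GGq q (y (a + n)) (y (a + n + 1)) * (Rf (y (a + n)) / GGq q (y (a + n)) (y (a + n + 1)))) =
        -q * GGq q (y (a + n)) (y (a + n + 1)) *
          (Rf (y (a + n)) * WRq q (y (a + n)) (y (a + n + 1))) := by
      rw [mul_div_cancel₀ _ hG, c2]
      ring
    generalize (∑ k ∈ Ico a (a + n), Rf (y k) * WRq q (y k) (y (a + n + 1)) /
          ((Vq q (y (a + n)) - Vq q (y k)) *
            ∏ i ∈ (Ico a (a + n)).erase k, (Vq q (y i) - Vq q (y k)))) = S3 at c3 ⊢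
    generalize (∑ k ∈ Ico a (a + n), Rf (y k) / GGq q (y k) (y (a + n)) * WRq q (y k) (y (a + n + 1)) /
          ∏ i ∈ (Ico a (a + n)).erase k, (Vq q (y i) - Vq q (y k))) = S2 at c3 ⊢
    generalize (∑ k ∈ Ico a (a + n), Rf (y k) / GGq q (y k) (y (a + n + 1)) * WRq q (y k) (y (a + n)) /
          ∏ i ∈ (Ico a (a + n)).erase k, (Vq q (y i) - Vq q (y k))) = S1 at c3 ⊢
    generalize (∏ i ∈ Ico a (a + n), (Vq q (y i) - Vq q (y (a + n)))) = Dx
    generalize (∏ i ∈ Ico a (a + n), (Vq q (y i) - Vq q (y (a + n + 1)))) = Dt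
    generalize (∏ i ∈ Ico a (a + n), GGq q (y i) (y (a + n))) = Gx
    generalize (∏ i ∈ Ico a (a + n), GGq q (y i) (y (a + n + 1))) = Gt
    generalize (∏ j ∈ Ico a (a + n), ∏ i ∈ Ico a j, GGq q (y i) (y j)) = Q0
    have hd1 : Rf (y (a + n + 1)) / ((Vq q (y (a + n)) - Vq q (y (a + n + 1))) * Dt) =
      (Rf (y (a + n + 1)) / (Vq q (y (a + n)) - Vq q (y (a + n + 1)))) / Dt := by
      rw [div_div]
    rw [hd1, pow_succ]
    linear_combination ((-q) ^ n * Q0 * Gx * Gt / Dt) * g1 + ((-q) ^ n * Q0 * Gx * Gt / Dx) * g2 -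
      ((-q) ^ n * Q0 * Gx * Gt) * c3

end NX
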