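import Pool.Agent.Lib.MP_216314_pr.N.QH
import Pool.Agent.Lib.MP_216314_pr.N.QD

/-!
# Generic `q`: sorted and hole configurations of the normalised solution as functions

`PAq q i j` at `y` is `y_i y_j F(y_i, y_j)` and `PBq q i j` at `y` is `y_i y_j G(y_i, y_j)` (`F = FFq q`, `G = GGq q`; `field_simp; ring`). In `G0q q L` (with `n = L / 2`) every `y_k`, `k < n`, occurs `n - 1 + (L % 2) = (L-1)/2` times,
and every `y_k`, `n ≤ k < L`, occurs `L - n - 1 = (L-1)/2` times; so dividing by `(∏ y)^((L-1)/2)` gives `S0`. (`∏_{j<n} ∏_{i<j} y_i y_j = (∏_{k<n} y_k)^(n-1)`: induction on `n`.)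
`gvq_hole`: `GPq_hole` with `k = 0`, `n = L/2`, `TC_eval`; the factor `(∏_{k<L} y_k)^(-(L-1)/2)` is invariant under the exchanges (`PX.prod_sw`, but `sw i` with `i + 1 < L` only: use `tC_mul`-like reasoning; it may be easier to use `tC_congr` with the set
of the points `z` with `NZ L z` and `∏_{k<L} z_k = ∏_{k<L} y_k`, on which the factor is constant, and linearity of the chain: `tC q a n (fun z => c * f z) y = c * tC q a n f y` is `tC_mul` for a constant `g`).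
`gvq_last`: `GPq_last` with `k = L - L/2`, `n = L/2`.
-/

set_option autoImplicit false

noncomputable section

namespace NX

open Finset MvPolynomial PX

/-- the sorted component -/
def S0 (q : ℂ) (L : ℕ) (z : ℕ → ℂ) : ℂ :=
  (∏ j ∈ range (L / 2), ∏ i ∈ range j, FFq q (z i) (z j)) * ∏ j ∈ Ico (L / 2) L, ∏ i ∈ Ico (L / 2) j, GGq q (z i) (z j)

private theorem QI0_prod (w : ℕ → ℂ) (a : ℕ) : ∀ m : ℕ,
    (∏ j ∈ Ico a (a + m), ∏ i ∈ Ico a j, (w i * w j)) = (∏ k ∈ Ico a (a + m), w k) ^ (m - 1) := by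
  intro m
  induction m with
  | zero => simp
  | succ m ih =>
    rw [← add_assoc, Finset.prod_Ico_succ_top (Nat.le_add_right a m), ih,
      Finset.prod_Ico_succ_top (Nat.le_add_right a m), Finset.prod_mul_distrib, Finset.prod_const,
      Nat.card_Ico, Nat.add_sub_cancel_left, Nat.add_sub_cancel, mul_pow]
    rcases Nat.eq_zero_or_pos m with hm | hm
    · subst hm
      simp
    · obtain ⟨k, rfl⟩ : ∃ k, m = k + 1 := ⟨m - 1, by omega⟩
      rw [Nat.add_sub_cancel, pow_succ (∏ k ∈ Ico a (a + (k + 1)), w k) k]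
      ring

private theorem QI0_prodR (w : ℕ → ℂ) (m : ℕ) :
    (∏ j ∈ range m, ∏ i ∈ range j, (w i * w j)) = (∏ k ∈ range m, w k) ^ (m - 1) := by
  have h := QI0_prod w 0 m
  rw [Nat.zero_add] at h
  simp only [Finset.range_eq_Ico]
  exact h

private theorem QI0_PA {q : ℂ} (hq : q ≠ 0) {z : ℕ → ℂ} {i j : ℕ} (hi : z i ≠ 0) (hj : z j ≠ 0) :
    eval z (PAq q i j) = z i * z j * FFq q (z i) (z j) := by
  simp only [PAq, FFq, Vq, xiq, map_mul, map_sub, eval_C, eval_X]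
  field_simp
  ring

private theorem QI0_PB {q : ℂ} (hq : q ≠ 0) {z : ℕ → ℂ} {i j : ℕ} (hi : z i ≠ 0) (hj : z j ≠ 0) :
    eval z (PBq q i j) = z i * z j * GGq q (z i) (z j) := by
  simp only [PBq, GGq, Yq, XX, map_mul, map_sub, eval_C, eval_X]
  field_simp
  ring

private theorem QI0_eval {q : ℂ} (hq : q ≠ 0) (L : ℕ) {z : ℕ → ℂ} (hz : NZ L z) :
    eval z (G0q q L) = (∏ k ∈ range L, z k) ^ ((L - 1) / 2) * S0 q L z := by
  have hA : (∏ j ∈ range (L / 2), ∏ i ∈ range j, eval z (PAq q i j)) =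
      (∏ k ∈ range (L / 2), z k) ^ (L / 2 - 1) * ∏ j ∈ range (L / 2), ∏ i ∈ range j, FFq q (z i) (z j) := by
    rw [← QI0_prodR z (L / 2), ← Finset.prod_mul_distrib]
    refine Finset.prod_congr rfl fun j hj => ?_
    rw [← Finset.prod_mul_distrib]
    refine Finset.prod_congr rfl fun i hi => ?_
    have h1 := Finset.mem_range.mp hj
    have h2 := Finset.mem_range.mp hi
    exact QI0_PA hq (hz i (by omega)) (hz j (by omega))
  have hB : (∏ j ∈ Ico (L / 2) L, ∏ i ∈ Ico (L / 2) j, eval z (PBq q i j)) =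
      (∏ k ∈ Ico (L / 2) L, z k) ^ (L - L / 2 - 1) * ∏ j ∈ Ico (L / 2) L, ∏ i ∈ Ico (L / 2) j, GGq q (z i) (z j) := by
    have h0 := QI0_prod z (L / 2) (L - L / 2)
    rw [show L / 2 + (L - L / 2) = L by omega] at h0
    rw [← h0, ← Finset.prod_mul_distrib]
    refine Finset.prod_congr rfl fun j hj => ?_
    rw [← Finset.prod_mul_distrib]
    refine Finset.prod_congr rfl fun i hi => ?_
    have h1 := Finset.mem_Ico.mp hj
    have h2 := Finset.mem_Ico.mp hi
    exact QI0_PB hq (hz i (by omega)) (hz j (by omega))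
  have hP : (∏ k ∈ range L, z k) = (∏ k ∈ range (L / 2), z k) * ∏ k ∈ Ico (L / 2) L, z k :=
    (Finset.prod_range_mul_prod_Ico z (by omega : L / 2 ≤ L)).symm
  simp only [G0q, map_mul, map_pow, map_prod, eval_X]
  rw [hA, hB, hP, S0, mul_pow]
  have e1 : (∏ k ∈ range (L / 2), z k) ^ (L % 2) * (∏ k ∈ range (L / 2), z k) ^ (L / 2 - 1) =
      (∏ k ∈ range (L / 2), z k) ^ ((L - 1) / 2) := by
    rcases Nat.eq_zero_or_pos (L / 2) with h0 | h0
    · rw [h0]
      simp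
    · rw [← pow_add]
      congr 1
      omega
  have e2 : L - L / 2 - 1 = (L - 1) / 2 := by omega
  rw [e2, ← e1]
  ring

theorem G0q_S0 {q : ℂ} (hq : q ≠ 0) (L : ℕ) {z : ℕ → ℂ} (hz : NZ L z) :
    eval z (G0q q L) / (∏ k ∈ range L, z k) ^ ((L - 1) / 2) = S0 q L z := by
  have h : (∏ k ∈ range L, z k) ^ ((L - 1) / 2) ≠ 0 :=
    pow_ne_zero _ (Finset.prod_ne_zero_iff.mpr fun k hk => hz k (Finset.mem_range.mp hk))
  rw [QI0_eval hq L hz, mul_div_cancel_left₀ _ h]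

theorem gvq_sorted {q : ℂ} (hq : q ≠ 0) (L : ℕ) {y : ℕ → ℂ} (hy : NZ L y) :
    gvq q L y (range (L / 2)) = S0 q L y := by
  have hm : range (L / 2) ∈ cfn L (L / 2) :=
    mem_cfn.mpr ⟨Finset.range_subset_range.mpr (by omega), Finset.card_range _⟩
  unfold gvq
  rw [if_pos hm, GPq_range, G0q_S0 hq L hy]

private theorem QI0_tC {q : ℂ} (hq : q ≠ 0) {L : ℕ} {y : ℕ → ℂ} (hy : NZ L y) (a n : ℕ) (h : a + n < L) :
    tC q a n (fun z => eval z (G0q q L)) y = (∏ k ∈ range L, y k) ^ ((L - 1) / 2) * tC q a n (S0 q L) y := by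
  have h1 := tC_congr q {z | NZ L z ∧ ∏ k ∈ range L, z k = ∏ k ∈ range L, y k} n a
    (fun z => eval z (G0q q L)) (fun z => (∏ k ∈ range L, y k) ^ ((L - 1) / 2) * S0 q L z)
    (fun i z _ hi2 hz => ⟨nz_sw hz.1 (by omega), by
      rw [prod_sw (by omega) z]
      exact hz.2⟩)
    (fun z hz => by
      have h2 := QI0_eval hq L hz.1
      rw [hz.2] at h2
      exact h2) y ⟨hy, rfl⟩
  rw [h1]
  exact tC_mul q a n (S0 q L) (fun _ => (∏ k ∈ range L, y k) ^ ((L - 1) / 2)) (fun _ _ _ _ => rfl) y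

private theorem QI0_tR {q : ℂ} (hq : q ≠ 0) {L : ℕ} {y : ℕ → ℂ} (hy : NZ L y) (a n : ℕ) (h : a + n < L) :
    tR q a n (fun z => eval z (G0q q L)) y = (∏ k ∈ range L, y k) ^ ((L - 1) / 2) * tR q a n (S0 q L) y := by
  have h1 := tR_congr q {z | NZ L z ∧ ∏ k ∈ range L, z k = ∏ k ∈ range L, y k} a n
    (fun z => eval z (G0q q L)) (fun z => (∏ k ∈ range L, y k) ^ ((L - 1) / 2) * S0 q L z)
    (fun i z _ hi2 hz => ⟨nz_sw hz.1 (by omega), by
      rw [prod_sw (by omega) z]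
      exact hz.2⟩)
    (fun z hz => by
      have h2 := QI0_eval hq L hz.1
      rw [hz.2] at h2
      exact h2) y ⟨hy, rfl⟩
  rw [h1]
  exact tR_mul q a n (S0 q L) (fun _ => (∏ k ∈ range L, y k) ^ ((L - 1) / 2)) (fun _ _ _ _ => rfl) y

theorem gvq_hole {q : ℂ} (hq : q ≠ 0) {L : ℕ} (hL : 2 ≤ L) {y : ℕ → ℂ} (hy : NZ L y) (h : DsI 0 (L / 2) y) :
    gvq q L y ((range (L / 2 + 1)).erase 0) = tC q 0 (L / 2) (S0 q L) y := by
  have hc : (∏ k ∈ range L, y k) ^ ((L - 1) / 2) ≠ 0 :=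
    pow_ne_zero _ (Finset.prod_ne_zero_iff.mpr fun k hk => hy k (Finset.mem_range.mp hk))
  have hm : (range (L / 2 + 1)).erase 0 ∈ cfn L (L / 2) := by
    refine mem_cfn.mpr ⟨fun x hx => ?_, ?_⟩
    · have h1 := Finset.mem_range.mp (Finset.mem_of_mem_erase hx)
      exact Finset.mem_range.mpr (by omega)
    · rw [Finset.card_erase_of_mem (Finset.mem_range.mpr (by omega)), Finset.card_range, Nat.add_sub_cancel]
  unfold gvq
  rw [if_pos hm, GPq_hole hq L (L / 2) 0 (Nat.zero_le _), Nat.sub_zero,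
    TC_eval q 0 (L / 2) (G0q q L) y (by rw [Nat.zero_add]; exact h), QI0_tC hq hy 0 (L / 2) (by omega),
    mul_div_cancel_left₀ _ hc]

theorem gvq_last {q : ℂ} (hq : q ≠ 0) {L : ℕ} (hL : 2 ≤ L) {y : ℕ → ℂ} (hy : NZ L y) (h : DsI (L / 2 - 1) (L - 1) y) :
    gvq q L y (insert (L - 1) (range (L / 2 - 1))) = tR q (L / 2 - 1) (L - L / 2) (S0 q L) y := by
  have hc : (∏ k ∈ range L, y k) ^ ((L - 1) / 2) ≠ 0 :=
    pow_ne_zero _ (Finset.prod_ne_zero_iff.mpr fun k hk => hy k (Finset.mem_range.mp hk))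
  have hm : insert (L - 1) (range (L / 2 - 1)) ∈ cfn L (L / 2) := by
    refine mem_cfn.mpr ⟨fun x hx => ?_, ?_⟩
    · rw [Finset.mem_insert, Finset.mem_range] at hx
      exact Finset.mem_range.mpr (by omega)
    · rw [Finset.card_insert_of_notMem (by rw [Finset.mem_range]; omega), Finset.card_range]
      omega
  have e1 : L / 2 - 1 + (L - L / 2) = L - 1 := by omega
  have h2 := GPq_last hq L (L / 2) (L - L / 2) (by omega)
  rw [e1] at h2
  unfold gvq
  rw [if_pos hm, h2,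
    TR_eval q (L / 2 - 1) (L - L / 2) (G0q q L) y (by rw [e1]; exact h), QI0_tR hq hy (L / 2 - 1) (L - L / 2) (by omega),
    mul_div_cancel_left₀ _ hc]

end NX
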