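import Pool.Agent.Lib.MP_216314_pr.N.QH
import Pool.Agent.Lib.MP_216314_pr.N.QD

/-!
# Generic `q`: generic points are dense; determination of a vector by its sorted components

`exists_genq`: all the conditions of `GenI q 0 (L-1)` at `y`, at `y` with `y_{L-1}` inverted, and at `y` with `y_0` replaced by `q⁶/y_0` follow from the nonvanishing of a product of nonzero polynomials:
`X i`; `X i - C c * X j` and `X i * X j - C c` for `i ≠ j` and finitely many constants `c ≠ 0` (powers of `q`: `Yq y_i ≠ Yq y_j` follows from `y_i ≠ y_j`, `y_i y_j ≠ q⁴`; `Vq`: `y_i y_j ≠ q²`;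
`F(y_i,y_j) ≠ 0` from `y_i ≠ q² y_j`, `y_i y_j ≠ q⁴`; `G(y_i,y_j) ≠ 0` from `y_i ≠ q² y_j`, `y_i y_j ≠ q²`: `x y F(x,y) = (x - q² y)(q⁴ - x y)`, `x y G(x,y) = (q⁻² x - y)(x y - q²)`), imitate `PX.exists_genPoly` (`X/GenC.lean`).
Take the product over `i, j < L`, `i ≠ j` and `c ∈ {q^k : -12 ≤ k ≤ 12}` (zpow), which is more than enough.
`detq`: imitate `PX.det_zero` (`X/ExchA.lean`): by strong induction on the sum of the elements of `s`; if `lo ≤ i`, `i + 1 < hi`, `i ∉ s`, `i + 1 ∈ s`, then the exchange relation at the configuration `sg i s` (`i ∈`, `i + 1 ∉`) expresses `h y s` by `h` at `sg i s`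
(at `y` and `sw i y`), which vanish by induction: `(y_i - y_{i+1}) h y s = (q y_{i+1} - q⁻¹ y_i) h (sw i y) (sg i s) - (...) h y (sg i s)`.
-/

set_option autoImplicit false

noncomputable section

namespace NX

open Finset MvPolynomial PX

/-- strong genericity -/
private def QIG_SG (q : ℂ) (N : ℤ) (L : ℕ) (y : ℕ → ℂ) : Prop :=
  (∀ i, i ≤ L → y i ≠ 0) ∧ ∀ i j, i ≤ L → j ≤ L → i ≠ j → ∀ k : ℤ, |k| ≤ N →
    y i ≠ q ^ k * y j ∧ y i * y j ≠ q ^ k

private theorem QIG_F {q x y : ℂ} (hx : x ≠ 0) (hy : y ≠ 0) :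
    x * y * FFq q x y = (x - q ^ 2 * y) * (q ^ 4 - x * y) := by
  unfold FFq Vq xiq
  field_simp
  ring

private theorem QIG_G {q x y : ℂ} (hq : q ≠ 0) (hx : x ≠ 0) (hy : y ≠ 0) :
    q ^ 2 * (x * y * GGq q x y) = (x - q ^ 2 * y) * (x * y - q ^ 2) := by
  unfold GGq Yq XX
  field_simp
  ring

private theorem QIG_Y {q x y : ℂ} (hx : x ≠ 0) (hy : y ≠ 0) :
    x * y * (Yq q x - Yq q y) = (x - y) * (x * y - q ^ 4) := by
  unfold Yq
  field_simp
  ring

private theorem QIG_V {q x y : ℂ} (hx : x ≠ 0) (hy : y ≠ 0) :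
    x * y * (Vq q x - Vq q y) = (x - y) * (x * y - q ^ 2) := by
  unfold Vq
  field_simp
  ring

private theorem QIG_gen {q : ℂ} (hq : q ≠ 0) {L : ℕ} {y : ℕ → ℂ} (h : QIG_SG q 4 L y) :
    GenI q 0 (L - 1) y := by
  refine ⟨fun i _ hi => h.1 i (by omega), fun i j _ hi _ hj hij => ?_⟩
  have hi' : i ≤ L := by omega
  have hj' : j ≤ L := by omega
  have hx := h.1 i hi'
  have hy := h.1 j hj'
  have hxy : y i * y j ≠ 0 := mul_ne_zero hx hy
  have c0 : y i - y j ≠ 0 := by
    have := (h.2 i j hi' hj' hij 0 (by norm_num)).1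
    rw [zpow_zero, one_mul] at this
    exact sub_ne_zero.2 this
  have c2 : y i - q ^ 2 * y j ≠ 0 := by
    have := (h.2 i j hi' hj' hij 2 (by norm_num)).1
    exact sub_ne_zero.2 (by exact_mod_cast this)
  have p2 : y i * y j - q ^ 2 ≠ 0 := by
    have := (h.2 i j hi' hj' hij 2 (by norm_num)).2
    exact sub_ne_zero.2 (by exact_mod_cast this)
  have p4 : y i * y j - q ^ 4 ≠ 0 := by
    have := (h.2 i j hi' hj' hij 4 (by norm_num)).2
    exact sub_ne_zero.2 (by exact_mod_cast this)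
  have p4' : q ^ 4 - y i * y j ≠ 0 := by
    intro h0
    apply p4
    linear_combination -h0
  refine ⟨sub_ne_zero.1 c0, fun h0 => ?_, fun h0 => ?_, fun h0 => ?_, fun h0 => ?_⟩
  · have e := QIG_Y (q := q) hx hy
    rw [h0, sub_self, mul_zero] at e
    exact mul_ne_zero c0 p4 e.symm
  · have e := QIG_V (q := q) hx hy
    rw [h0, sub_self, mul_zero] at e
    exact mul_ne_zero c0 p2 e.symm
  · have e := QIG_F (q := q) hx hy
    rw [h0, mul_zero] at e
    exact mul_ne_zero c2 p4' e.symm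
  · have e := QIG_G hq hx hy
    rw [h0, mul_zero, mul_zero] at e
    exact mul_ne_zero c2 p2 e.symm

private theorem QIG_mono {q : ℂ} {N N' : ℤ} {L : ℕ} {y : ℕ → ℂ} (h : QIG_SG q N L y) (hN : N' ≤ N) :
    QIG_SG q N' L y :=
  ⟨h.1, fun i j hi hj hij k hk => h.2 i j hi hj hij k (hk.trans hN)⟩

private theorem QIG_upd {q : ℂ} (hq : q ≠ 0) {N M : ℤ} {L : ℕ} {y : ℕ → ℂ} (h : QIG_SG q (N + M) L y)
    (hM : 0 ≤ M) (e : ℤ) (he : |e| ≤ M) {m : ℕ} (hm : m ≤ L) :
    QIG_SG q N L (Function.update y m (q ^ e / y m)) := by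
  have hym := h.1 m hm
  have hqe : q ^ e ≠ 0 := zpow_ne_zero e hq
  refine ⟨fun i hi => ?_, fun i j hi hj hij k hk => ?_⟩
  · by_cases him : i = m
    · subst him
      rw [Function.update_self]
      exact div_ne_zero hqe hym
    · rw [Function.update_of_ne him]
      exact h.1 i hi
  · have hqk : q ^ k ≠ 0 := zpow_ne_zero k hq
    have b1 : |e - k| ≤ N + M := (abs_sub _ _).trans (by linarith)
    have b2 : |k + e| ≤ N + M := (abs_add_le _ _).trans (by linarith)
    have b3 : |k - e| ≤ N + M := (abs_sub _ _).trans (by linarith)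
    by_cases him : i = m
    · subst him
      have hji : j ≠ i := fun h => hij h.symm
      rw [Function.update_self, Function.update_of_ne hji]
      constructor
      · intro h0
        rw [div_eq_iff hym] at h0
        apply (h.2 j i hj hi hji (e - k) b1).2
        rw [zpow_sub₀ hq, eq_div_iff hqk, h0]
        ring
      · intro h0
        rw [div_mul_eq_mul_div, div_eq_iff hym] at h0
        apply (h.2 i j hi hj hij (e - k) b1).1
        rw [zpow_sub₀ hq, div_mul_eq_mul_div, eq_div_iff hqk, h0]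
        ring
    · by_cases hjm : j = m
      · subst hjm
        rw [Function.update_self, Function.update_of_ne him]
        constructor
        · intro h0
          rw [mul_div_assoc', eq_div_iff hym] at h0
          apply (h.2 i j hi hj hij (k + e) b2).2
          rw [zpow_add₀ hq, h0]
        · intro h0
          rw [mul_div_assoc', div_eq_iff hym] at h0
          apply (h.2 i j hi hj hij (k - e) b3).1
          rw [zpow_sub₀ hq, div_mul_eq_mul_div, eq_div_iff hqe, h0]
      · rw [Function.update_of_ne him, Function.update_of_ne hjm]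
        exact h.2 i j hi hj hij k (by linarith)

private theorem QIG_poly {q : ℂ} (hq : q ≠ 0) (L : ℕ) : ∃ Q : MvPolynomial ℕ ℂ, Q ≠ 0 ∧
    ∀ y : ℕ → ℂ, eval y Q ≠ 0 → QIG_SG q 12 L y := by
  refine ⟨∏ i ∈ range (L + 1), (X i * ∏ j ∈ (range (L + 1)).erase i, ∏ k ∈ Finset.Icc (-12 : ℤ) 12,
    ((X i - C (q ^ k) * X j) * (X i * X j - C (q ^ k)))), ?_, ?_⟩
  · refine Finset.prod_ne_zero_iff.mpr fun i _ => ?_
    refine mul_ne_zero (X_ne_zero i) (Finset.prod_ne_zero_iff.mpr fun j hj =>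
      Finset.prod_ne_zero_iff.mpr fun k _ => mul_ne_zero ?_ ?_)
    · intro h
      have hne := (Finset.mem_erase.mp hj).1
      have := congrArg (eval (fun k => if k = i then (1 : ℂ) else 0)) h
      simp [hne] at this
    · intro h
      have := congrArg (eval (fun _ => (0 : ℂ))) h
      simp at this
      exact zpow_ne_zero k hq this
  · intro y hy
    rw [map_prod, Finset.prod_ne_zero_iff] at hy
    simp only [map_mul, map_prod, map_sub, eval_X, eval_C, mul_ne_zero_iff, Finset.prod_ne_zero_iff,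
      Finset.mem_range, Finset.mem_erase, Finset.mem_Icc] at hy
    refine ⟨fun i hi => (hy i (by omega)).1, fun i j hi hj hij k hk => ?_⟩
    have h1 := (hy i (by omega)).2 j ⟨fun h => hij h.symm, by omega⟩ k (abs_le.1 hk)
    exact ⟨sub_ne_zero.1 h1.1, sub_ne_zero.1 h1.2⟩

private theorem QIG_sw_upd {i m : ℕ} (h1 : m ≠ i) (h2 : m ≠ i + 1) (y : ℕ → ℂ) (c : ℂ) :
    Function.update (sw i y) m c = sw i (Function.update y m c) := by
  funext k
  show Function.update (sw i y) m c k = Function.update y m c (Equiv.swap i (i + 1) k)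
  by_cases hk : k = m
  · subst hk
    rw [Function.update_self, Equiv.swap_apply_of_ne_of_ne h1 h2, Function.update_self]
  · rw [Function.update_of_ne hk, Function.update_of_ne]
    · rfl
    · intro h
      apply hk
      have h3 := congrArg (Equiv.swap i (i + 1)) h
      rw [Equiv.swap_apply_self, Equiv.swap_apply_of_ne_of_ne h1 h2] at h3
      exact h3

theorem exists_genq {q : ℂ} (hq : q ≠ 0) (L : ℕ) : ∃ Q : MvPolynomial ℕ ℂ, Q ≠ 0 ∧ ∀ y : ℕ → ℂ, eval y Q ≠ 0 →
    NZ L y ∧ GenI q 0 (L - 1) y ∧ GenI q 0 (L - 1) (Function.update y (L - 1) (y (L - 1))⁻¹) ∧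
      GenI q 0 (L - 1) (Function.update y 0 (q ^ 6 / y 0)) := by
  obtain ⟨Q, hQ, h⟩ := QIG_poly hq L
  refine ⟨Q, hQ, fun y hy => ?_⟩
  have h1 := h y hy
  refine ⟨fun k hk => h1.1 k hk.le, QIG_gen hq (QIG_mono h1 (by norm_num)), ?_, ?_⟩
  · have h2 := QIG_upd hq (N := 12) (M := 0) (by simpa using h1) le_rfl 0 (by simp) (m := L - 1) (by omega)
    rw [zpow_zero, one_div] at h2
    exact QIG_gen hq (QIG_mono h2 (by norm_num))
  · have h2 := QIG_upd hq (N := 6) (M := 6) (QIG_mono h1 (by norm_num)) (by norm_num) 6 (by norm_num) (m := 0)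
      (Nat.zero_le L)
    have e : q ^ (6 : ℤ) = q ^ 6 := by exact_mod_cast rfl
    rw [e] at h2
    exact QIG_gen hq (QIG_mono h2 (by norm_num))

/-- the set of generic points is closed under exchanges -/
def Sg (q : ℂ) (L : ℕ) : Set (ℕ → ℂ) := {y | NZ L y ∧ GenI q 0 (L - 1) y ∧ GenI q 0 (L - 1) (Function.update y (L - 1) (y (L - 1))⁻¹) ∧
      GenI q 0 (L - 1) (Function.update y 0 (q ^ 6 / y 0))}

theorem Sg_sw {q : ℂ} (hq : q ≠ 0) {L i : ℕ} {y : ℕ → ℂ} (h : y ∈ Sg q L) (h1 : 1 ≤ i) (h2 : i + 1 < L - 1) : sw i y ∈ Sg q L := by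
  obtain ⟨a1, a2, a3, a4⟩ := h
  refine ⟨nz_sw a1 (by omega), a2.sw (Nat.zero_le i) (by omega), ?_, ?_⟩
  · rw [sw_of_ne i y (k := L - 1) (by omega) (by omega), QIG_sw_upd (by omega) (by omega)]
    exact a3.sw (Nat.zero_le i) (by omega)
  · rw [sw_of_ne i y (k := 0) (by omega) (by omega), QIG_sw_upd (by omega) (by omega)]
    exact a4.sw (Nat.zero_le i) (by omega)

/-- determination of all components by the sorted ones -/
theorem detq {q : ℂ} (S : Set (ℕ → ℂ)) (L n lo hi : ℕ) (hL : hi ≤ L) (h : (ℕ → ℂ) → Vec)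
    (hE : ∀ i, lo ≤ i → i + 1 < hi → ∀ y, y ∈ S → ExR q h i y)
    (hS1 : ∀ i, lo ≤ i → i + 1 < hi → ∀ y, y ∈ S → y i ≠ y (i + 1))
    (hS2 : ∀ i, lo ≤ i → i + 1 < hi → ∀ y, y ∈ S → sw i y ∈ S)
    (h0 : ∀ y, y ∈ S → ∀ s, s ∈ cfn L n → (∀ i, lo ≤ i → i + 1 < hi → i + 1 ∈ s → i ∈ s) → h y s = 0) :
    ∀ y, y ∈ S → ∀ s, s ∈ cfn L n → h y s = 0 := by
  intro y hy s hs
  induction hn : s.sum id using Nat.strong_induction_on generalizing s y with
  | _ m ih =>
    by_cases hasc : ∀ i, lo ≤ i → i + 1 < hi → i + 1 ∈ s → i ∈ s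
    · exact h0 y hy s hs hasc
    · push Not at hasc
      obtain ⟨i, h1, h2, h3, h4⟩ := hasc
      have hsum := sum_sg h4 h3
      have hb : sg i s ∈ cfn L n := (sg_mem_cfn (by omega)).2 hs
      have b1 : i ∈ sg i s := by
        rw [mem_sg, Equiv.swap_apply_left]; exact h3
      have b2 : i + 1 ∉ sg i s := by
        rw [mem_sg, Equiv.swap_apply_right]; exact h4
      have z1 := ih _ (by omega) y hy (sg i s) hb rfl
      have z2 := ih _ (by omega) (sw i y) (hS2 i h1 h2 y hy) (sg i s) hb rfl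
      have e := hE i h1 h2 y hy (sg i s)
      have b3 : ¬ (i ∈ sg i s ↔ i + 1 ∈ sg i s) := fun hh => b2 (hh.1 b1)
      rw [Eq_apply, if_neg b3, if_neg b3, z1, z2, sg_sg] at e
      have e' : (y i - y (i + 1)) * h y s = 0 := by linear_combination -e
      rcases mul_eq_zero.1 e' with e'' | e''
      · exact absurd (sub_eq_zero.1 e'') (hS1 i h1 h2 y hy)
      · exact e''

end NX
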