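import Pool.Agent.Lib.MP_216314_pr.N.QI0
import Pool.Agent.Lib.MP_216314_pr.N.QHL

/-!
# Generic `q`: the hole configuration `{1, ..., n}` depends on `y_0` through `xi(y_0) = y_0 + q⁶/y_0` only

Let `n = L/2 ≥ 1`. By `gvq_hole` the component is `tC q 0 n (S0 q L) y`. `S0 q L z = ∏_{i<j<n} F(z_i,z_j) * Pf(z_n) * ∏_{n+1 ≤ i < j < L} G(z_i,z_j)` with `Pf t = ∏_{j=n+1}^{L-1} G(t, z_j)`;
the last product and the function `Pf` involve only `z_{n+1}, ...` which the chain does not touch (`tC_congr` on the set of the `z` with `z_k = y_k` for `k > n`, then `tC_mul`).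
`clL` with `a = 0`: the value is `(-1/q)^n ∏_{1≤i<j≤n} F(y_i,y_j) ∏_{j=1}^n F(y_0,y_j) { Pf(y_0)/∏_j (Y_j - Y_0) + ∑_k Pf(y_k) WL(y_0,y_k)/∏_{j≠k} (Y_j - Y_k) }` (times the spectator product).
`G(t, y_j) = q⁻² Y(t) - XX(y_j)`, so `Pf t = r(Y t)` with `r = ∏_{j=n+1}^{L-1} (C q⁻² X - C (XX y_j))`, `natDegree r ≤ L - 1 - n ≤ n = card {1..n}`. `pf_le` (points `Y_k`, `v = Y_0`) and `WL_sum` give
`{...} = (-1)^n r.coeff n + ∑_k r(Y_k) / (F(y_0,y_k) ∏_{j≠k} (Y_j - Y_k))`. Now `F(y_0, y_k) = q² V(y_k) - xi(y_0)`, and nothing else depends on `y_0`. (Verified numerically.)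
-/

set_option autoImplicit false

noncomputable section

namespace NX

open Finset MvPolynomial PX

private def QIL_r (q : ℂ) (L : ℕ) (y : ℕ → ℂ) : Polynomial ℂ :=
  ∏ j ∈ Ico (L / 2 + 1) L, (Polynomial.C (q ^ 2)⁻¹ * Polynomial.X - Polynomial.C (XX (y j)))

private def QIL_c (q : ℂ) (L : ℕ) (y : ℕ → ℂ) : ℂ :=
  ∏ j ∈ Ico (L / 2 + 1) L, ∏ i ∈ Ico (L / 2 + 1) j, GGq q (y i) (y j)

private def QIL_A (q : ℂ) (L : ℕ) (y : ℕ → ℂ) : ℂ :=
  ∏ j ∈ Ico 1 (L / 2 + 1), ∏ i ∈ Ico 1 j, FFq q (y i) (y j)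

private def QIL_B (q : ℂ) (L : ℕ) (x : ℂ) (y : ℕ → ℂ) : ℂ :=
  ∏ j ∈ Ico 1 (L / 2 + 1), (q ^ 2 * Vq q (y j) - x)

private def QIL_S (q : ℂ) (L : ℕ) (x : ℂ) (y : ℕ → ℂ) : ℂ :=
  ∑ k ∈ Ico 1 (L / 2 + 1), (QIL_r q L y).eval (Yq q (y k)) /
    (∏ j ∈ (Ico 1 (L / 2 + 1)).erase k, (Yq q (y j) - Yq q (y k))) * (1 / (q ^ 2 * Vq q (y k) - x))

private def QIL_H (q : ℂ) (L : ℕ) (x : ℂ) (y : ℕ → ℂ) : ℂ :=
  QIL_c q L y * ((-q⁻¹) ^ (L / 2) * QIL_A q L y * QIL_B q L x y *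
    ((-1) ^ (L / 2) * (QIL_r q L y).coeff (L / 2) + QIL_S q L x y))

private theorem QIL_H_congr {q : ℂ} {L : ℕ} (_hL : 2 ≤ L) (x : ℂ) {y y' : ℕ → ℂ}
    (h1 : ∀ k, 1 ≤ k → k < L → y' k = y k) : QIL_H q L x y' = QIL_H q L x y := by
  have hr : QIL_r q L y' = QIL_r q L y := by
    refine Finset.prod_congr rfl fun j hj => ?_
    have h2 := Finset.mem_Ico.mp hj
    rw [h1 j (by omega) (by omega)]
  have hc : QIL_c q L y' = QIL_c q L y := by
    refine Finset.prod_congr rfl fun j hj => Finset.prod_congr rfl fun i hi => ?_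
    have h2 := Finset.mem_Ico.mp hj
    have h3 := Finset.mem_Ico.mp hi
    rw [h1 j (by omega) (by omega), h1 i (by omega) (by omega)]
  have hA : QIL_A q L y' = QIL_A q L y := by
    refine Finset.prod_congr rfl fun j hj => Finset.prod_congr rfl fun i hi => ?_
    have h2 := Finset.mem_Ico.mp hj
    have h3 := Finset.mem_Ico.mp hi
    rw [h1 j (by omega) (by omega), h1 i (by omega) (by omega)]
  have hB : QIL_B q L x y' = QIL_B q L x y := by
    refine Finset.prod_congr rfl fun j hj => ?_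
    have h2 := Finset.mem_Ico.mp hj
    rw [h1 j (by omega) (by omega)]
  have hS : QIL_S q L x y' = QIL_S q L x y := by
    refine Finset.sum_congr rfl fun k hk => ?_
    have h2 := Finset.mem_Ico.mp hk
    have h3 : (∏ j ∈ (Ico 1 (L / 2 + 1)).erase k, (Yq q (y' j) - Yq q (y' k))) =
        ∏ j ∈ (Ico 1 (L / 2 + 1)).erase k, (Yq q (y j) - Yq q (y k)) := by
      refine Finset.prod_congr rfl fun j hj => ?_
      have h4 := Finset.mem_Ico.mp (Finset.mem_of_mem_erase hj)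
      rw [h1 j (by omega) (by omega), h1 k (by omega) (by omega)]
    rw [h3, hr, h1 k (by omega) (by omega)]
  unfold QIL_H
  rw [hr, hc, hA, hB, hS]

private theorem QIL_eval (q : ℂ) (L : ℕ) (y : ℕ → ℂ) (t : ℂ) :
    (QIL_r q L y).eval (Yq q t) = ∏ j ∈ Ico (L / 2 + 1) L, GGq q t (y j) := by
  unfold QIL_r
  rw [Polynomial.eval_prod]
  refine Finset.prod_congr rfl fun j _ => ?_
  simp only [GGq, Polynomial.eval_sub, Polynomial.eval_mul, Polynomial.eval_C, Polynomial.eval_X]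

private theorem QIL_deg (q : ℂ) (L : ℕ) (y : ℕ → ℂ) : (QIL_r q L y).natDegree ≤ L / 2 := by
  unfold QIL_r
  refine (Polynomial.natDegree_prod_le _ _).trans ?_
  have h : ∀ j ∈ Ico (L / 2 + 1) L,
      (Polynomial.C (q ^ 2)⁻¹ * Polynomial.X - Polynomial.C (XX (y j))).natDegree ≤ 1 := fun j _ =>
    by
      rw [Polynomial.natDegree_sub_C]
      exact (Polynomial.natDegree_C_mul_le _ _).trans Polynomial.natDegree_X_le
  refine (Finset.sum_le_card_nsmul _ _ 1 h).trans ?_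
  rw [Nat.card_Ico, smul_eq_mul, mul_one]
  omega

private theorem QIL_split (q : ℂ) {L : ℕ} (hL : 2 ≤ L) {y z : ℕ → ℂ} (hz : ∀ k, L / 2 < k → z k = y k) :
    S0 q L z = QIL_c q L y * ((∏ j ∈ Ico 0 (0 + L / 2), ∏ i ∈ Ico 0 j, FFq q (z i) (z j)) *
      (fun t => (QIL_r q L y).eval (Yq q t)) (z (0 + L / 2))) := by
  have h1 : (∏ j ∈ Ico (L / 2) L, ∏ i ∈ Ico (L / 2) j, GGq q (z i) (z j)) =
      (∏ j ∈ Ico (L / 2 + 1) L, GGq q (z (L / 2)) (y j)) * QIL_c q L y := by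
    rw [Finset.prod_eq_prod_Ico_succ_bot (by omega : L / 2 < L), Finset.Ico_self, Finset.prod_empty, one_mul,
      QIL_c, ← Finset.prod_mul_distrib]
    refine Finset.prod_congr rfl fun j hj => ?_
    have h2 := Finset.mem_Ico.mp hj
    rw [Finset.prod_eq_prod_Ico_succ_bot (by omega : L / 2 < j), hz j (by omega)]
    refine congrArg₂ (· * ·) rfl (Finset.prod_congr rfl fun i hi => ?_)
    have h3 := Finset.mem_Ico.mp hi
    rw [hz i (by omega)]
  simp only [Nat.zero_add]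
  rw [QIL_eval, S0, h1, Finset.range_eq_Ico]
  simp only [Finset.range_eq_Ico]
  ring

private theorem QIL_val {q : ℂ} (hq : q ≠ 0) {L : ℕ} (hL : 2 ≤ L) {y : ℕ → ℂ} (hy : NZ L y)
    (hg : GenI q 0 (L / 2) y) :
    gvq q L y ((range (L / 2 + 1)).erase 0) = QIL_H q L (xiq q (y 0)) y := by
  have hD : DsI 0 (L / 2) y := fun i j h1 h2 h3 h4 h5 => (hg.2 i j h1 h2 h3 h4 h5).1
  rw [gvq_hole hq hL hy hD]
  have h1 := tC_congr q {z | ∀ k, L / 2 < k → z k = y k} (L / 2) 0 (S0 q L)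
    (fun z => (fun _ => QIL_c q L y) z * (fun z => (∏ j ∈ Ico 0 (0 + L / 2), ∏ i ∈ Ico 0 j, FFq q (z i) (z j)) *
      (fun t => (QIL_r q L y).eval (Yq q t)) (z (0 + L / 2))) z)
    (fun i z _ hi2 hz k hk => by
      rw [sw_of_ne i z (by omega) (by omega)]
      exact hz k hk)
    (fun z hz => QIL_split q hL hz) y (fun k _ => rfl)
  rw [h1, tC_mul q 0 (L / 2) _ (fun _ => QIL_c q L y) (fun _ _ _ _ => rfl) y,
    clL hq (L / 2) 0 (fun t => (QIL_r q L y).eval (Yq q t)) y (by rw [Nat.zero_add]; exact hg)]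
  simp only [Nat.zero_add]
  have hYne : ∀ i ∈ Ico 1 (L / 2 + 1), ∀ j ∈ Ico 1 (L / 2 + 1), i ≠ j → Yq q (y i) ≠ Yq q (y j) := by
    intro i hi j hj hij
    have h2 := Finset.mem_Ico.mp hi
    have h3 := Finset.mem_Ico.mp hj
    exact (hg.2 i j (by omega) (by omega) (by omega) (by omega) hij).2.1
  have hY0 : ∀ i ∈ Ico 1 (L / 2 + 1), Yq q (y i) ≠ Yq q (y 0) := by
    intro i hi
    have h2 := Finset.mem_Ico.mp hi
    exact (hg.2 i 0 (by omega) (by omega) (by omega) (by omega) (by omega)).2.1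
  have hcard : (Ico 1 (L / 2 + 1)).card = L / 2 := by
    rw [Nat.card_Ico]
    omega
  have hpf := pf_le (Ico 1 (L / 2 + 1)) (fun k => Yq q (y k)) hYne (Yq q (y 0)) hY0 (QIL_r q L y)
    (by rw [hcard]; exact QIL_deg q L y)
  rw [hcard] at hpf
  have hS : (∑ k ∈ Ico 1 (L / 2 + 1), (QIL_r q L y).eval (Yq q (y k)) /
        ((Yq q (y k) - Yq q (y 0)) * ∏ j ∈ (Ico 1 (L / 2 + 1)).erase k, (Yq q (y j) - Yq q (y k)))) +
      (∑ k ∈ Ico 1 (L / 2 + 1), (QIL_r q L y).eval (Yq q (y k)) * WLq q (y 0) (y k) /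
        ∏ j ∈ (Ico 1 (L / 2 + 1)).erase k, (Yq q (y j) - Yq q (y k))) = QIL_S q L (xiq q (y 0)) y := by
    rw [← Finset.sum_add_distrib]
    refine Finset.sum_congr rfl fun k hk => ?_
    have h2 := Finset.mem_Ico.mp hk
    have h3 := WL_sum hq (hg.1 0 (by omega) (by omega)) (hg.1 k (by omega) (by omega))
      (fun h => hY0 k hk h.symm) (hg.2 0 k (by omega) (by omega) (by omega) (by omega) (by omega)).2.2.2.1
    have h4 : q ^ 2 * Vq q (y k) - xiq q (y 0) = FFq q (y 0) (y k) := rfl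
    rw [h4, ← h3, mul_add]
    have h5 : (QIL_r q L y).eval (Yq q (y k)) /
        ((Yq q (y k) - Yq q (y 0)) * ∏ j ∈ (Ico 1 (L / 2 + 1)).erase k, (Yq q (y j) - Yq q (y k))) =
        (QIL_r q L y).eval (Yq q (y k)) / (∏ j ∈ (Ico 1 (L / 2 + 1)).erase k, (Yq q (y j) - Yq q (y k))) *
          (1 / (Yq q (y k) - Yq q (y 0))) := by
      rw [div_mul_div_comm, mul_one, mul_comm (Yq q (y k) - Yq q (y 0))]
    rw [h5, mul_div_right_comm]
  have hB : (∏ j ∈ Ico 1 (L / 2 + 1), FFq q (y 0) (y j)) = QIL_B q L (xiq q (y 0)) y := rfl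
  rw [hpf, add_assoc, hS, hB]
  rfl

theorem hole_left {q : ℂ} (hq : q ≠ 0) {L : ℕ} (hL : 2 ≤ L) {y y' : ℕ → ℂ} (hy : NZ L y) (hy' : NZ L y')
    (hg : GenI q 0 (L / 2) y) (hg' : GenI q 0 (L / 2) y') (h1 : ∀ k, 1 ≤ k → k < L → y' k = y k)
    (h0 : xiq q (y' 0) = xiq q (y 0)) :
    gvq q L y' ((range (L / 2 + 1)).erase 0) = gvq q L y ((range (L / 2 + 1)).erase 0) := by
  rw [QIL_val hq hL hy hg, QIL_val hq hL hy' hg', h0]
  exact QIL_H_congr hL _ h1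

/-- the sorted configuration -/
theorem sorted_left {q : ℂ} (hq : q ≠ 0) {L : ℕ} (hL : 2 ≤ L) {y y' : ℕ → ℂ} (hy : NZ L y) (hy' : NZ L y')
    (h1 : ∀ k, 1 ≤ k → k < L → y' k = y k) (h0 : xiq q (y' 0) = xiq q (y 0)) :
    gvq q L y' (range (L / 2)) = gvq q L y (range (L / 2)) := by
  rw [gvq_sorted hq L hy, gvq_sorted hq L hy']
  have hA : (∏ j ∈ range (L / 2), ∏ i ∈ range j, FFq q (y' i) (y' j)) =
      ∏ j ∈ range (L / 2), ∏ i ∈ range j, FFq q (y i) (y j) := by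
    refine Finset.prod_congr rfl fun j hj => Finset.prod_congr rfl fun i hi => ?_
    have h2 := Finset.mem_range.mp hj
    have h3 := Finset.mem_range.mp hi
    rw [h1 j (by omega) (by omega)]
    rcases Nat.eq_zero_or_pos i with hi0 | hi0
    · subst hi0
      unfold FFq
      rw [h0]
    · rw [h1 i hi0 (by omega)]
  have hB : (∏ j ∈ Ico (L / 2) L, ∏ i ∈ Ico (L / 2) j, GGq q (y' i) (y' j)) =
      ∏ j ∈ Ico (L / 2) L, ∏ i ∈ Ico (L / 2) j, GGq q (y i) (y j) := by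
    refine Finset.prod_congr rfl fun j hj => Finset.prod_congr rfl fun i hi => ?_
    have h2 := Finset.mem_Ico.mp hj
    have h3 := Finset.mem_Ico.mp hi
    rw [h1 j (by omega) (by omega), h1 i (by omega) (by omega)]
  unfold S0
  rw [hA, hB]

end NX
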