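import Pool.Agent.Lib.MP_216314_pr.N.QI0
import Pool.Agent.Lib.MP_216314_pr.N.QHR

/-!
# Generic `q`: the configuration `{0, ..., n-2, L-1}` depends on `y_{L-1}` through `XX (y_{L-1})` only

Let `n = L/2 ≥ 1`, `a = n - 1`, `m = L - n`, `e = L - 1 = a + m`. By `gvq_last` the component is `tR q a m (S0 q L) y`. `S0 q L z = ∏_{i<j<n-1} F(z_i,z_j) * Rf(z_{n-1}) * ∏_{n ≤ i < j < L} G(z_i,z_j)` with `Rf t = ∏_{i<n-1} F(z_i, t)`;
the first product and the function `Rf` involve only `z_0, ..., z_{n-2}` which the chain does not touch (`tR_congr`, `tR_mul`). `clR` with `a`, `m`: the value is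
`(-q)^m ∏_{a≤i<j<e} G(y_i,y_j) ∏_{a≤i<e} G(y_i,y_e) { Rf(y_e)/∏_i (V_i - V_e) + ∑_k Rf(y_k) WR(y_k,y_e)/∏_{i≠k} (V_i - V_k) }`.
`F(y_i, t) = q² V(t) - xi(y_i)`, so `Rf t = r(V t)`, `r = ∏_{i<n-1} (C q² X - C (xi y_i))`, `natDegree r ≤ n - 1 < m = card {a..e-1}`. `pf_lt` (points `V_k`, `v = V_e`) and `WR_sum` give `{...} = ∑_k r(V_k) q⁻² / (G(y_k,y_e) ∏_{i≠k} (V_i - V_k))`.
`G(y_k, y_e) = q⁻² Y(y_k) - XX(y_e)`, and nothing else depends on `y_e`. (Verified numerically.)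
-/

set_option autoImplicit false

noncomputable section

namespace NX

open Finset MvPolynomial PX

/-- the polynomial of the function `Rf` -/
def QIR_r (q : ℂ) (a : ℕ) (y : ℕ → ℂ) : Polynomial ℂ :=
  ∏ i ∈ range a, (Polynomial.C (q ^ 2) * Polynomial.X - Polynomial.C (xiq q (y i)))

theorem QIR_eval (q : ℂ) (a : ℕ) (y : ℕ → ℂ) (t : ℂ) :
    (QIR_r q a y).eval (Vq q t) = ∏ i ∈ range a, FFq q (y i) t := by
  unfold QIR_r
  rw [Polynomial.eval_prod]
  refine Finset.prod_congr rfl fun i _ => ?_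
  simp [FFq]

theorem QIR_deg (q : ℂ) (a : ℕ) (y : ℕ → ℂ) : (QIR_r q a y).natDegree ≤ a := by
  unfold QIR_r
  refine (Polynomial.natDegree_prod_le _ _).trans ?_
  refine (Finset.sum_le_card_nsmul (range a) _ 1 fun i _ => ?_).trans (by simp)
  refine (Polynomial.natDegree_sub_C).le.trans ?_
  exact (Polynomial.natDegree_C_mul_le _ _).trans Polynomial.natDegree_X_le

theorem QIR_clo {q : ℂ} (hq : q ≠ 0) (a m : ℕ) {y : ℕ → ℂ} (hg : GenI q a (a + m) y) (r : Polynomial ℂ)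
    (hr : r.natDegree < m) :
    r.eval (Vq q (y (a + m))) / (∏ i ∈ Ico a (a + m), (Vq q (y i) - Vq q (y (a + m)))) +
        ∑ k ∈ Ico a (a + m), r.eval (Vq q (y k)) * WRq q (y k) (y (a + m)) /
          ∏ i ∈ (Ico a (a + m)).erase k, (Vq q (y i) - Vq q (y k)) =
      ∑ k ∈ Ico a (a + m), r.eval (Vq q (y k)) * ((q ^ 2)⁻¹ / GGq q (y k) (y (a + m))) /
          ∏ i ∈ (Ico a (a + m)).erase k, (Vq q (y i) - Vq q (y k)) := by
  have h1 := pf_lt (Ico a (a + m)) (fun i => Vq q (y i)) (by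
    intro i hi j hj hij
    rw [Finset.mem_Ico] at hi hj
    exact (hg.2 i j hi.1 hi.2.le hj.1 hj.2.le hij).2.2.1) (Vq q (y (a + m))) (by
    intro i hi
    rw [Finset.mem_Ico] at hi
    exact (hg.2 i (a + m) hi.1 hi.2.le (by omega) le_rfl (by omega)).2.2.1) r (by simpa using hr)
  rw [h1, ← Finset.sum_add_distrib]
  refine Finset.sum_congr rfl fun k hk => ?_
  rw [Finset.mem_Ico] at hk
  obtain ⟨g1, -, g3, -, g5⟩ := hg.2 k (a + m) hk.1 hk.2.le (by omega) le_rfl (by omega)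
  rw [← WR_sum hq (hg.1 k hk.1 hk.2.le) (hg.1 (a + m) (by omega) le_rfl) g3 g5]
  have h2 : Vq q (y k) - Vq q (y (a + m)) ≠ 0 := sub_ne_zero.2 g3
  have h3 : ∏ i ∈ (Ico a (a + m)).erase k, (Vq q (y i) - Vq q (y k)) ≠ 0 := by
    refine Finset.prod_ne_zero_iff.2 fun i hi => sub_ne_zero.2 ?_
    rw [Finset.mem_erase, Finset.mem_Ico] at hi
    exact (hg.2 i k hi.2.1 hi.2.2.le hk.1 hk.2.le hi.1).2.2.1
  field_simp

theorem QIR_GG {q : ℂ} {x y y' : ℂ} (h : XX y' = XX y) : GGq q x y' = GGq q x y := by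
  unfold GGq
  rw [h]

/-- the value of the hole configuration -/
theorem QIR_val {q : ℂ} (hq : q ≠ 0) {L n a m : ℕ} (hn : L / 2 = n) (hna : n = a + 1) (hm : L = a + m + 1)
    {y : ℕ → ℂ} (hy : NZ L y) (hg : GenI q a (a + m) y) :
    gvq q L y (insert (L - 1) (range (L / 2 - 1))) =
      (∏ j ∈ range a, ∏ i ∈ range j, FFq q (y i) (y j)) * ((-q) ^ m * (∏ j ∈ Ico a (a + m), ∏ i ∈ Ico a j, GGq q (y i) (y j)) *
      (∏ i ∈ Ico a (a + m), GGq q (y i) (y (a + m))) *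
      ∑ k ∈ Ico a (a + m), (QIR_r q a y).eval (Vq q (y k)) * ((q ^ 2)⁻¹ / GGq q (y k) (y (a + m))) /
          ∏ i ∈ (Ico a (a + m)).erase k, (Vq q (y i) - Vq q (y k))) := by
  have hL : 2 ≤ L := by omega
  have e1 : L / 2 - 1 = a := by omega
  have e2 : L - L / 2 = m := by omega
  have e3 : L - 1 = a + m := by omega
  have hD : DsI (L / 2 - 1) (L - 1) y := by
    rw [e1, e3]
    intro i j h1 h2 h3 h4 h5
    exact (hg.2 i j h1 h2 h3 h4 h5).1
  rw [gvq_last hq hL hy hD, e1, e2]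
  have hc := tR_congr q {z : ℕ → ℂ | ∀ k, k < a → z k = y k} a m (S0 q L)
    (fun z => (∏ j ∈ range a, ∏ i ∈ range j, FFq q (y i) (y j)) *
      ((∏ j ∈ Ico (a + 1) (a + m + 1), ∏ i ∈ Ico (a + 1) j, GGq q (z i) (z j)) * ∏ i ∈ range a, FFq q (y i) (z a)))
    (by
      intro i z h1 h2 hz k hk
      rw [← hz k hk]
      exact sw_of_ne i z (by omega) (by omega))
    (by
      intro z hz
      simp only [S0, hn]
      rw [hna, Finset.prod_range_succ, ← hm]
      have i1 : (∏ j ∈ range a, ∏ i ∈ range j, FFq q (z i) (z j)) = ∏ j ∈ range a, ∏ i ∈ range j, FFq q (y i) (y j) := by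
        refine Finset.prod_congr rfl fun j hj => Finset.prod_congr rfl fun i hi => ?_
        rw [Finset.mem_range] at hi hj
        rw [hz i (by omega), hz j hj]
      have i2 : (∏ i ∈ range a, FFq q (z i) (z a)) = ∏ i ∈ range a, FFq q (y i) (z a) := by
        refine Finset.prod_congr rfl fun i hi => ?_
        rw [Finset.mem_range] at hi
        rw [hz i hi]
      rw [i1, i2]
      ring) y (by intro k _; rfl)
  rw [hc, tR_mul q a m _ (fun _ => ∏ j ∈ range a, ∏ i ∈ range j, FFq q (y i) (y j)) (by intro i z _ _; rfl) y]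
  congr 1
  have hcl := clR hq m a (fun t => ∏ i ∈ range a, FFq q (y i) t) y hg
  rw [hcl]
  congr 1
  have h2 := QIR_clo hq a m hg (QIR_r q a y) ((QIR_deg q a y).trans_lt (by omega))
  simp only [QIR_eval] at h2 ⊢
  exact h2

theorem hole_right {q : ℂ} (hq : q ≠ 0) {L : ℕ} (hL : 2 ≤ L) {y y' : ℕ → ℂ} (hy : NZ L y) (hy' : NZ L y')
    (hg : GenI q (L / 2 - 1) (L - 1) y) (hg' : GenI q (L / 2 - 1) (L - 1) y') (h1 : ∀ k, k < L - 1 → y' k = y k)
    (h0 : XX (y' (L - 1)) = XX (y (L - 1))) :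
    gvq q L y' (insert (L - 1) (range (L / 2 - 1))) = gvq q L y (insert (L - 1) (range (L / 2 - 1))) := by
  obtain ⟨a, ha⟩ : ∃ a, L / 2 = a + 1 := ⟨L / 2 - 1, by omega⟩
  obtain ⟨m, hm⟩ : ∃ m, L = a + m + 1 := ⟨L - L / 2, by omega⟩
  have e1 : L / 2 - 1 = a := by omega
  have e3 : L - 1 = a + m := by omega
  rw [e1, e3] at hg hg'
  rw [e3] at h0 h1
  rw [QIR_val hq ha rfl hm hy hg, QIR_val hq ha rfl hm hy' hg']
  have j1 : (∏ j ∈ range a, ∏ i ∈ range j, FFq q (y' i) (y' j)) = ∏ j ∈ range a, ∏ i ∈ range j, FFq q (y i) (y j) := by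
    refine Finset.prod_congr rfl fun j hj => Finset.prod_congr rfl fun i hi => ?_
    rw [Finset.mem_range] at hi hj
    rw [h1 i (by omega), h1 j (by omega)]
  have j2 : (∏ j ∈ Ico a (a + m), ∏ i ∈ Ico a j, GGq q (y' i) (y' j)) = ∏ j ∈ Ico a (a + m), ∏ i ∈ Ico a j, GGq q (y i) (y j) := by
    refine Finset.prod_congr rfl fun j hj => Finset.prod_congr rfl fun i hi => ?_
    rw [Finset.mem_Ico] at hi hj
    rw [h1 i (by omega), h1 j (by omega)]
  have j3 : (∏ i ∈ Ico a (a + m), GGq q (y' i) (y' (a + m))) = ∏ i ∈ Ico a (a + m), GGq q (y i) (y (a + m)) := by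
    refine Finset.prod_congr rfl fun i hi => ?_
    rw [Finset.mem_Ico] at hi
    rw [h1 i (by omega), QIR_GG h0]
  have j4 : QIR_r q a y' = QIR_r q a y := by
    unfold QIR_r
    refine Finset.prod_congr rfl fun i hi => ?_
    rw [Finset.mem_range] at hi
    rw [h1 i (by omega)]
  rw [j1, j2, j3, j4]
  congr 2
  refine Finset.sum_congr rfl fun k hk => ?_
  rw [Finset.mem_Ico] at hk
  rw [h1 k hk.2, QIR_GG h0]
  congr 1
  refine Finset.prod_congr rfl fun i hi => ?_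
  rw [Finset.mem_erase, Finset.mem_Ico] at hi
  rw [h1 i hi.2.2]

/-- the sorted configuration -/
theorem sorted_right {q : ℂ} (hq : q ≠ 0) {L : ℕ} (hL : 1 ≤ L) {y y' : ℕ → ℂ} (hy : NZ L y) (hy' : NZ L y')
    (h1 : ∀ k, k < L - 1 → y' k = y k) (h0 : XX (y' (L - 1)) = XX (y (L - 1))) :
    gvq q L y' (range (L / 2)) = gvq q L y (range (L / 2)) := by
  rw [gvq_sorted hq L hy, gvq_sorted hq L hy']
  unfold S0
  congr 1
  · refine Finset.prod_congr rfl fun j hj => Finset.prod_congr rfl fun i hi => ?_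
    rw [Finset.mem_range] at hi hj
    rw [h1 i (by omega), h1 j (by omega)]
  · refine Finset.prod_congr rfl fun j hj => Finset.prod_congr rfl fun i hi => ?_
    rw [Finset.mem_Ico] at hi hj
    rw [h1 i (by omega)]
    by_cases hjL : j < L - 1
    · rw [h1 j hjL]
    · have : j = L - 1 := by omega
      subst this
      exact QIR_GG h0

end NX
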