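import Pool.Agent.Lib.MP_216314_pr.N.QIL
import Pool.Agent.Lib.MP_216314_pr.N.QIR
import Pool.Agent.Lib.MP_216314_pr.N.QIG

/-!
# Generic `q`: the reflection relations

`refl_right_q`: put `h y = gvq q L (update y (L-1) (y (L-1))⁻¹) - gvq q L y`. For `i + 1 < L - 1` it satisfies the exchange relation (`gvq_exch` at both points; the update commutes with `sw i` and does not change the entries `i, i+1`).
Use `detq` with `lo = 0`, `hi = L - 1`, and the set `S` of the points `y` with `NZ L y`, `GenI q 0 (L-1) y`, `GenI q 0 (L-1)` of the updated point (closed under `sw i`, `i + 1 < L - 1`: `GenI.sw`). The sorted configurations `s` (`s ⊆ range L`, `card s = L/2`, sorted in `[0, L-1)`):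
`L - 1 ∉ s`: `s = range (L/2)` (`PX.eq_range_of_sorted` type argument): `sorted_right`; `L - 1 ∈ s`: `s = insert (L-1) (range (L/2 - 1))`: `hole_right` (`L ≥ 2`; for `L = 1` there is only the empty configuration). So `h = 0` on `S` for `s ∈ cfn L (L/2)`; other `s`: both vanish.
Then all `y`: `PX.Lau.ext` with the polynomial of `exists_genq` (`gvq_lau`, composition with the inversion of one argument: `PX.lau_iv`, `PX.iv`).
`refl_left_q`: the same with `lo = 1`, `hi = L`, and `y_0 → q⁶/y_0`; sorted in `[1, L)`: `0 ∈ s`: `s = range (L/2)`, `sorted_left`; `0 ∉ s`: `s = {1, ..., L/2} = (range (L/2+1)).erase 0`, `hole_left`. (`xiq q (q⁶/t) = xiq q t`.) `L = 1`: trivial.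
-/

set_option autoImplicit false

noncomputable section

namespace NX

open Finset MvPolynomial PX

theorem QIZ_sw {i j : ℕ} (h1 : j ≠ i) (h2 : j ≠ i + 1) (g : ℂ → ℂ) (y : ℕ → ℂ) :
    sw i (Function.update y j (g (y j))) = Function.update (sw i y) j (g (sw i y j)) := by
  funext k
  have e : Equiv.swap i (i + 1) j = j := Equiv.swap_apply_of_ne_of_ne h1 h2
  rcases eq_or_ne k j with h | h
  · rw [h, Function.update_self]
    unfold sw
    rw [e, Function.update_self]
  · have h3 : Equiv.swap i (i + 1) k ≠ j := by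
      intro h4
      apply h
      rw [← e] at h4
      exact (Equiv.swap i (i + 1)).injective h4
    rw [Function.update_of_ne h]
    unfold sw
    rw [Function.update_of_ne h3]

theorem QIZ_nz {L j : ℕ} {y : ℕ → ℂ} {t : ℂ} (h : NZ L y) (ht : t ≠ 0) : NZ L (Function.update y j t) := by
  intro k hk
  rcases eq_or_ne k j with h1 | h1
  · rw [h1, Function.update_self]
    exact ht
  · rw [Function.update_of_ne h1]
    exact h k hk

theorem QIZ_nz_sw {L i : ℕ} {y : ℕ → ℂ} (h : NZ L y) (hi : i + 1 < L) : NZ L (sw i y) := by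
  intro k hk
  unfold sw
  refine h _ ?_
  rcases eq_or_ne k i with h1 | h1
  · rw [h1, Equiv.swap_apply_left]
    exact hi
  · rcases eq_or_ne k (i + 1) with h2 | h2
    · rw [h2, Equiv.swap_apply_right]
      omega
    · rw [Equiv.swap_apply_of_ne_of_ne h1 h2]
      exact hk

theorem QIZ_mono {q : ℂ} {a b a' b' : ℕ} {y : ℕ → ℂ} (h : GenI q a b y) (ha : a ≤ a') (hb : b' ≤ b) :
    GenI q a' b' y :=
  ⟨fun i h1 h2 => h.1 i (ha.trans h1) (h2.trans hb),
    fun i j h1 h2 h3 h4 h5 => h.2 i j (ha.trans h1) (h2.trans hb) (ha.trans h3) (h4.trans hb) h5⟩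

/-- difference of the vector at the reflected point and at the point -/
def QIZ_h (q : ℂ) (L j : ℕ) (g : ℂ → ℂ) (y : ℕ → ℂ) : Vec :=
  gvq q L (Function.update y j (g (y j))) - gvq q L y

theorem QIZ_ex {q : ℂ} (hq : q ≠ 0) {L i j : ℕ} (hi : i + 1 < L) (h1 : j ≠ i) (h2 : j ≠ i + 1) (g : ℂ → ℂ)
    (y : ℕ → ℂ) : ExR q (QIZ_h q L j g) i y := by
  intro s
  have e1 := gvq_exch hq hi (Function.update y j (g (y j))) s
  have e2 := gvq_exch hq hi y s
  rw [QIZ_sw h1 h2, Function.update_of_ne h1.symm, Function.update_of_ne h2.symm] at e1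
  unfold QIZ_h
  simp only [map_sub, Pi.sub_apply]
  linear_combination e1 - e2

/-- the general argument -/
theorem QIZ_main {q : ℂ} (hq : q ≠ 0) {L j lo hi : ℕ} (hhi : hi ≤ L) (hj : j < lo ∨ hi ≤ j) (g : ℂ → ℂ)
    (hg0 : ∀ t, t ≠ 0 → g t ≠ 0) (hjL : j < L)
    (hG1 : Lau L (fun y => g (y j))) (hG2 : Lau L (fun y => (g (y j))⁻¹))
    (Q : MvPolynomial ℕ ℂ) (hQ : Q ≠ 0)
    (hQ1 : ∀ y, NZ L y → eval y Q ≠ 0 → GenI q 0 (L - 1) y ∧ GenI q 0 (L - 1) (Function.update y j (g (y j))))
    (h0 : ∀ y, NZ L y → GenI q 0 (L - 1) y → GenI q 0 (L - 1) (Function.update y j (g (y j))) →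
      ∀ s, s ∈ cfn L (L / 2) → (∀ i, lo ≤ i → i + 1 < hi → i + 1 ∈ s → i ∈ s) →
      gvq q L (Function.update y j (g (y j))) s = gvq q L y s) {y : ℕ → ℂ} (hy : NZ L y) :
    gvq q L (Function.update y j (g (y j))) = gvq q L y := by
  have key := detq {y | NZ L y ∧ GenI q 0 (L - 1) y ∧ GenI q 0 (L - 1) (Function.update y j (g (y j)))}
    L (L / 2) lo hi hhi (QIZ_h q L j g)
    (by
      intro i h1 h2 y _
      exact QIZ_ex hq (by omega) (by omega) (by omega) g y)
    (by
      intro i h1 h2 y hy
      exact (hy.2.1.2 i (i + 1) (by omega) (by omega) (by omega) (by omega) (by omega)).1)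
    (by
      intro i h1 h2 y hy
      refine ⟨QIZ_nz_sw hy.1 (by omega), GenI.sw hy.2.1 (by omega) (by omega), ?_⟩
      rw [← QIZ_sw (by omega) (by omega) g y]
      exact GenI.sw hy.2.2 (by omega) (by omega))
    (by
      intro y hy s hs h1
      unfold QIZ_h
      rw [Pi.sub_apply, h0 y hy.1 hy.2.1 hy.2.2 s hs h1, sub_self])
  funext s
  by_cases hs : s ∈ cfn L (L / 2)
  · have hL : Lau L (fun y => gvq q L (Function.update y j (g (y j))) s - gvq q L y s) := by
      refine Lau.sub ?_ (gvq_lau q L s)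
      refine Lau.comp (gvq_lau q L s) (fun k y => Function.update y j (g (y j)) k) ?_ ?_ ?_
      · intro k
        rcases eq_or_ne k j with h | h
        · simp only [h, Function.update_self]
          exact hG1
        · simp only [Function.update_of_ne h]
          exact Lau.coord L k
      · intro k hk
        rcases eq_or_ne k j with h | h
        · simp only [h, Function.update_self]
          exact hG2
        · simp only [Function.update_of_ne h]
          exact Lau.coord_inv hk
      · intro k hk z hz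
        exact QIZ_nz hz (hg0 _ (hz j hjL)) k hk
    have h3 := Lau.ext hL Q hQ (by
      intro z hz hzQ
      obtain ⟨g1, g2⟩ := hQ1 z hz hzQ
      have h4 := key z ⟨hz, g1, g2⟩ s hs
      unfold QIZ_h at h4
      exact h4) y hy
    exact sub_eq_zero.1 h3
  · rw [gvq_wt q L _ s hs, gvq_wt q L _ s hs]

theorem refl_right_q {q : ℂ} (hq : q ≠ 0) {L : ℕ} (hL : 1 ≤ L) {y : ℕ → ℂ} (hy : NZ L y) :
    gvq q L (Function.update y (L - 1) (y (L - 1))⁻¹) = gvq q L y := by
  obtain ⟨Q, hQ, hQ1⟩ := exists_genq hq L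
  refine QIZ_main hq (lo := 0) (hi := L - 1) (by omega) (Or.inr le_rfl) (fun t => t⁻¹)
    (fun t ht => inv_ne_zero ht) (by omega) (Lau.coord_inv (by omega)) ?_ Q hQ
    (fun y _ h => ⟨(hQ1 y h).2.1, (hQ1 y h).2.2.1⟩) ?_ hy
  · simp only [inv_inv]
    exact Lau.coord L (L - 1)
  · intro y hy g1 g2 s hs hsort
    rw [mem_cfn] at hs
    obtain ⟨hs1, hs2⟩ := hs
    have hy' : NZ L (Function.update y (L - 1) (y (L - 1))⁻¹) := QIZ_nz hy (inv_ne_zero (hy _ (by omega)))
    have k1 : ∀ k, k < L - 1 → Function.update y (L - 1) (y (L - 1))⁻¹ k = y k := fun k hk =>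
      Function.update_of_ne (by omega) _ _
    have k2 : XX (Function.update y (L - 1) (y (L - 1))⁻¹ (L - 1)) = XX (y (L - 1)) := by
      rw [Function.update_self]
      unfold XX
      rw [inv_inv]
      ring
    by_cases hm : L - 1 ∈ s
    · have hL2 : 2 ≤ L := by
        have : 1 ≤ s.card := Finset.card_pos.2 ⟨_, hm⟩
        omega
      have e : s.erase (L - 1) = range (s.erase (L - 1)).card := eq_range_of_sorted (by
        intro i hi
        rw [Finset.mem_erase] at hi ⊢
        have := Finset.mem_range.1 (hs1 hi.2)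
        exact ⟨by omega, hsort i (Nat.zero_le _) (by omega) hi.2⟩)
      rw [Finset.card_erase_of_mem hm, hs2] at e
      have e2 : s = insert (L - 1) (range (L / 2 - 1)) := by
        rw [← e, Finset.insert_erase hm]
      rw [e2]
      exact hole_right hq hL2 hy hy' (QIZ_mono g1 (Nat.zero_le _) le_rfl) (QIZ_mono g2 (Nat.zero_le _) le_rfl) k1 k2
    · have e : s = range s.card := eq_range_of_sorted (by
        intro i hi
        have := Finset.mem_range.1 (hs1 hi)
        have h3 : i + 1 ≠ L - 1 := fun h => hm (h ▸ hi)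
        exact hsort i (Nat.zero_le _) (by omega) hi)
      rw [hs2] at e
      rw [e]
      exact sorted_right hq hL hy hy' k1 k2

theorem QIZ_xiq {q t : ℂ} (hq : q ≠ 0) (ht : t ≠ 0) : xiq q (q ^ 6 / t) = xiq q t := by
  unfold xiq
  have : q ^ 6 ≠ 0 := pow_ne_zero 6 hq
  field_simp
  ring

theorem refl_left_q {q : ℂ} (hq : q ≠ 0) {L : ℕ} (hL : 1 ≤ L) {y : ℕ → ℂ} (hy : NZ L y) :
    gvq q L (Function.update y 0 (q ^ 6 / y 0)) = gvq q L y := by
  obtain ⟨Q, hQ, hQ1⟩ := exists_genq hq L
  have hq6 : q ^ 6 ≠ 0 := pow_ne_zero 6 hq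
  refine QIZ_main hq (lo := 1) (hi := L) le_rfl (Or.inl Nat.zero_lt_one) (fun t => q ^ 6 / t)
    (fun t ht => div_ne_zero hq6 ht) (by omega) ?_ ?_ Q hQ
    (fun y _ h => ⟨(hQ1 y h).2.1, (hQ1 y h).2.2.2⟩) ?_ hy
  · simp only [div_eq_mul_inv]
    exact Lau.mul (Lau.const L _) (Lau.coord_inv (by omega))
  · have e : (fun y : ℕ → ℂ => (q ^ 6 / y 0)⁻¹) = fun y => y 0 * (q ^ 6)⁻¹ := by
      funext z
      rw [inv_div, div_eq_mul_inv]
    show Lau L (fun y : ℕ → ℂ => (q ^ 6 / y 0)⁻¹)
    rw [e]
    exact Lau.mul (Lau.coord L 0) (Lau.const L _)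
  · intro y hy g1 g2 s hs hsort
    rw [mem_cfn] at hs
    obtain ⟨hs1, hs2⟩ := hs
    have hy0 : y 0 ≠ 0 := hy 0 (by omega)
    have hy' : NZ L (Function.update y 0 (q ^ 6 / y 0)) := QIZ_nz hy (div_ne_zero hq6 hy0)
    have k1 : ∀ k, 1 ≤ k → k < L → Function.update y 0 (q ^ 6 / y 0) k = y k := fun k hk _ =>
      Function.update_of_ne (by omega) _ _
    have k2 : xiq q (Function.update y 0 (q ^ 6 / y 0) 0) = xiq q (y 0) := by
      rw [Function.update_self]
      exact QIZ_xiq hq hy0
    rcases Nat.lt_or_ge L 2 with hL1 | hL2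
    · have hL' : L = 1 := by omega
      subst hL'
      have hs3 : s = range (1 / 2) := by
        have : s.card = 0 := by omega
        rw [Finset.card_eq_zero] at this
        rw [this]
        simp
      rw [hs3]
      show gvq q 1 (Function.update y 0 (q ^ 6 / y 0)) (range (1 / 2)) = gvq q 1 y (range (1 / 2))
      rw [gvq_sorted hq 1 hy, gvq_sorted hq 1 hy']
      simp [S0]
    · by_cases hm : 0 ∈ s
      · have e : s = range s.card := eq_range_of_sorted (by
          intro i hi
          have := Finset.mem_range.1 (hs1 hi)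
          rcases Nat.eq_zero_or_pos i with h3 | h3
          · rw [h3]
            exact hm
          · exact hsort i h3 this hi)
        rw [hs2] at e
        rw [e]
        exact sorted_left hq hL2 hy hy' k1 k2
      · have e : insert 0 s = range (insert 0 s).card := eq_range_of_sorted (by
          intro i hi
          rw [Finset.mem_insert] at hi ⊢
          rcases Nat.eq_zero_or_pos i with h3 | h3
          · exact Or.inl h3
          · rcases hi with hi | hi
            · omega
            · have := Finset.mem_range.1 (hs1 hi)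
              exact Or.inr (hsort i h3 this hi))
        rw [Finset.card_insert_of_notMem hm, hs2] at e
        have e2 : s = (range (L / 2 + 1)).erase 0 := by
          rw [← e, Finset.erase_insert hm]
        rw [e2]
        exact hole_left hq hL2 hy hy' (QIZ_mono g1 le_rfl (by omega)) (QIZ_mono g2 le_rfl (by omega)) k1 k2

end NX
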