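import Pool.Agent.Lib.MP_216314_pr.N.QIZ
import Pool.Agent.Lib.MP_216314_pr.X.BL

/-!
# Generic `q`: sweeps of one argument through the others

`Rq q a b i = al q a b + be q a b * Eq q i`. `gvq_step` is the exchange relation (`gvq_exch`) divided by `q y_{i+1} - q⁻¹ y_i`.
`ins m a w`: the sequence `w_0, ..., w_{m-1}, a, w_m, ...`. `upL`: the argument `a` moves from position `0` to position `m`; `dnL`: the argument `b` moves from position `m` to `0`.
`opQ q l v`: the steps of the list `l` are applied one after the other (first element first). `full_sweep`: up sweep of `a` (`m = L - 1`), `refl_right_q` (`a → a⁻¹`), down sweep, `refl_left_q` (`a⁻¹ → q⁶ a`).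
-/

set_option autoImplicit false

noncomputable section

namespace NX

open Finset PX

def al (q a b : ℂ) : ℂ := (q * a - q⁻¹ * b) / (q * b - q⁻¹ * a)

def be (q a b : ℂ) : ℂ := (a - b) / (q * b - q⁻¹ * a)

/-- one step -/
def Rq (q a b : ℂ) (i : ℕ) : Vec →ₗ[ℂ] Vec := al q a b • LinearMap.id + be q a b • Eq q i

theorem Rq_apply (q a b : ℂ) (i : ℕ) (v : Vec) : Rq q a b i v = al q a b • v + be q a b • Eq q i v := rfl

/-- the steps of a list of triples (site, first argument, second argument) -/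
def opQ (q : ℂ) : List (ℕ × ℂ × ℂ) → Vec → Vec
  | [], v => v
  | t :: l, v => opQ q l (Rq q t.2.1 t.2.2 t.1 v)

/-- the sequence `w_0, ..., w_{m-1}, a, w_m, ...` -/
def ins (m : ℕ) (a : ℂ) (w : ℕ → ℂ) : ℕ → ℂ := fun k => if k < m then w k else if k = m then a else w (k - 1)

def upL (a : ℂ) (w : ℕ → ℂ) (m : ℕ) : List (ℕ × ℂ × ℂ) := (List.range m).map (fun k => (k, a, w k))

def dnL (b : ℂ) (w : ℕ → ℂ) (m : ℕ) : List (ℕ × ℂ × ℂ) := (List.range m).map (fun k => (m - 1 - k, w (m - 1 - k), b))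

theorem ins_zero (a : ℂ) (w : ℕ → ℂ) : ins 0 a w = cns a w := by
  funext k
  unfold ins cns
  rw [if_neg (Nat.not_lt_zero k)]

theorem QJ_self (m : ℕ) (a : ℂ) (w : ℕ → ℂ) : ins m a w m = a := by
  unfold ins
  rw [if_neg (lt_irrefl m), if_pos rfl]

theorem QJ_succ (m : ℕ) (a : ℂ) (w : ℕ → ℂ) : ins m a w (m + 1) = w m := by
  unfold ins
  rw [if_neg (by omega), if_neg (by omega), Nat.add_sub_cancel]

theorem QJ_lt {m k : ℕ} (h : k < m) (a : ℂ) (w : ℕ → ℂ) : ins m a w k = w k := by
  unfold ins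
  rw [if_pos h]

theorem QJ_gt {m k : ℕ} (h : m < k) (a : ℂ) (w : ℕ → ℂ) : ins m a w k = w (k - 1) := by
  unfold ins
  rw [if_neg (by omega), if_neg (by omega)]

theorem sw_ins (m : ℕ) (a : ℂ) (w : ℕ → ℂ) : sw m (ins m a w) = ins (m + 1) a w ∧ sw m (ins (m + 1) a w) = ins m a w := by
  have key : ∀ k, k ≠ m → k ≠ m + 1 → ins m a w k = ins (m + 1) a w k := by
    intro k h1 h2
    rcases lt_or_gt_of_ne h1 with h | h
    · rw [QJ_lt h, QJ_lt (by omega)]
    · rw [QJ_gt h, QJ_gt (by omega)]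
  constructor
  · funext k
    unfold sw
    by_cases h1 : k = m
    · subst h1
      rw [Equiv.swap_apply_left, QJ_succ, QJ_lt (Nat.lt_succ_self k)]
    · by_cases h2 : k = m + 1
      · subst h2
        rw [Equiv.swap_apply_right, QJ_self, QJ_self]
      · rw [Equiv.swap_apply_of_ne_of_ne h1 h2, key k h1 h2]
  · funext k
    unfold sw
    by_cases h1 : k = m
    · subst h1
      rw [Equiv.swap_apply_left, QJ_self, QJ_self]
    · by_cases h2 : k = m + 1
      · subst h2
        rw [Equiv.swap_apply_right, QJ_succ, QJ_lt (Nat.lt_succ_self m)]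
      · rw [Equiv.swap_apply_of_ne_of_ne h1 h2, key k h1 h2]

theorem opQ_append (q : ℂ) (l l' : List (ℕ × ℂ × ℂ)) (v : Vec) : opQ q (l ++ l') v = opQ q l' (opQ q l v) := by
  induction l generalizing v with
  | nil => rfl
  | cons t l ih => exact ih _

theorem gvq_step {q : ℂ} (hq : q ≠ 0) {L i : ℕ} (hi : i + 1 < L) {y : ℕ → ℂ} (h : q * y (i + 1) - q⁻¹ * y i ≠ 0) :
    gvq q L (sw i y) = Rq q (y i) (y (i + 1)) i (gvq q L y) := by
  funext s
  have h1 := gvq_exch hq hi y s
  rw [Rq_apply]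
  change _ = al q (y i) (y (i + 1)) * gvq q L y s + be q (y i) (y (i + 1)) * Eq q i (gvq q L y) s
  unfold al be
  rw [div_mul_eq_mul_div, div_mul_eq_mul_div, ← add_div, eq_div_iff h, mul_comm]
  exact h1

theorem up_sweep {q : ℂ} (hq : q ≠ 0) {L m : ℕ} (hm : m < L) {a : ℂ} {w : ℕ → ℂ} (h : ∀ k, k < m → q * w k - q⁻¹ * a ≠ 0) :
    opQ q (upL a w m) (gvq q L (cns a w)) = gvq q L (ins m a w) := by
  induction m with
  | zero =>
    rw [ins_zero]
    rfl
  | succ m ih =>
    have h1 : upL a w (m + 1) = upL a w m ++ [(m, a, w m)] := by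
      unfold upL
      rw [List.range_succ, List.map_append]
      rfl
    rw [h1, opQ_append, ih (by omega) fun k hk => h k (by omega)]
    change Rq q a (w m) m (gvq q L (ins m a w)) = _
    have h2 := gvq_step hq (L := L) (i := m) hm (y := ins m a w) (by
      rw [QJ_self, QJ_succ]
      exact h m (Nat.lt_succ_self m))
    rw [QJ_self, QJ_succ, (sw_ins m a w).1] at h2
    exact h2.symm

theorem dn_sweep {q : ℂ} (hq : q ≠ 0) {L m : ℕ} (hm : m < L) {b : ℂ} {w : ℕ → ℂ} (h : ∀ k, k < m → q * b - q⁻¹ * w k ≠ 0) :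
    opQ q (dnL b w m) (gvq q L (ins m b w)) = gvq q L (cns b w) := by
  induction m with
  | zero =>
    rw [ins_zero]
    rfl
  | succ m ih =>
    have h1 : dnL b w (m + 1) = (m, w m, b) :: dnL b w m := by
      unfold dnL
      rw [List.range_succ_eq_map, List.map_cons, List.map_map]
      congr 1
      refine List.map_congr_left fun k _ => ?_
      have h3 : m + 1 - 1 - (k + 1) = m - 1 - k := by omega
      change (m + 1 - 1 - (k + 1), w (m + 1 - 1 - (k + 1)), b) = _
      rw [h3]
    rw [h1]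
    change opQ q (dnL b w m) (Rq q (w m) b m (gvq q L (ins (m + 1) b w))) = _
    have h2 := gvq_step hq (L := L) (i := m) hm (y := ins (m + 1) b w) (by
      rw [QJ_self, QJ_lt (Nat.lt_succ_self m)]
      exact h m (Nat.lt_succ_self m))
    rw [QJ_self, QJ_lt (Nat.lt_succ_self m), (sw_ins m b w).2] at h2
    rw [← h2]
    exact ih (by omega) fun k hk => h k (by omega)

theorem full_sweep {q : ℂ} (hq : q ≠ 0) {L : ℕ} (hL : 1 ≤ L) {a : ℂ} (ha : a ≠ 0) {w : ℕ → ℂ} (hw : ∀ k, w k ≠ 0)
    (h : ∀ k, k < L - 1 → q * w k - q⁻¹ * a ≠ 0) (h' : ∀ k, k < L - 1 → q * a⁻¹ - q⁻¹ * w k ≠ 0) :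
    opQ q (upL a w (L - 1) ++ dnL a⁻¹ w (L - 1)) (gvq q L (cns a w)) = gvq q L (cns (q ^ 6 * a) w) := by
  have hm : L - 1 < L := by omega
  rw [opQ_append, up_sweep hq hm h]
  have hn1 : NZ L (ins (L - 1) a w) := by
    intro k _
    unfold ins
    split_ifs
    · exact hw k
    · exact ha
    · exact hw _
  have hn2 : NZ L (cns a⁻¹ w) := by
    intro k _
    unfold cns
    split_ifs
    · exact inv_ne_zero ha
    · exact hw _
  have h1 := refl_right_q hq hL hn1
  have h2 : Function.update (ins (L - 1) a w) (L - 1) (ins (L - 1) a w (L - 1))⁻¹ = ins (L - 1) a⁻¹ w := by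
    funext k
    by_cases hk : k = L - 1
    · subst hk
      rw [Function.update_self, QJ_self, QJ_self]
    · rw [Function.update_of_ne hk]
      unfold ins
      rw [if_neg hk, if_neg hk]
  rw [h2] at h1
  rw [← h1, dn_sweep hq hm h']
  have h3 := refl_left_q hq hL hn2
  have h4 : Function.update (cns a⁻¹ w) 0 (q ^ 6 / cns a⁻¹ w 0) = cns (q ^ 6 * a) w := by
    funext k
    by_cases hk : k = 0
    · subst hk
      rw [Function.update_self]
      unfold cns
      rw [if_pos rfl, if_pos rfl, div_inv_eq_mul]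
    · rw [Function.update_of_ne hk]
      unfold cns
      rw [if_neg hk, if_neg hk]
  rw [h4] at h3
  exact h3.symm

end NX
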