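import Pool.Agent.Lib.MP_216314_pr.N.QJ
import Pool.Agent.Lib.MP_216314_pr.N.QE

/-!
# Derivative with respect to `q` at `q = om`

`dal a b`, `dbe a b`: the derivatives of `al q a b`, `be q a b` at `q = om` (explicit by `HasDerivAt.div`; `(om * b - om⁻¹ * a) ≠ 0`), `dab`: `dal + dbe = (1 - om) be`.
(With `N = q a - q⁻¹ b + a - b` and `M = q b - q⁻¹ a`: `al + be = N / M`, `N = M` at `q = om` (`om² + om + 1 = 0`), `N' - M' = (a - b)(1 - om⁻²)`, `om⁻² = om`.)
`opQ_hasDeriv`: product rule along the list (induction on `l`, general `v`, `Eq_hasDeriv`).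
`key`: differentiate the relation `full_sweep` for `q` near `om` (the non degeneracy conditions are open), with `gvq_diff` (joint differentiability, chain rule for `q ↦ (q, q⁶ x0)`, `om ^ 6 = 1`).
-/

set_option autoImplicit false

noncomputable section

namespace NX

open Finset PX

def dal (a b : ℂ) : ℂ := deriv (fun q => al q a b) om

def dbe (a b : ℂ) : ℂ := deriv (fun q => be q a b) om

theorem QK_N (a b : ℂ) : HasDerivAt (fun q : ℂ => q * a - q⁻¹ * b) (a + om * b) om := by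
  have h1 := ((hasDerivAt_id om).mul_const a).sub ((hasDerivAt_inv om_ne_zero).mul_const b)
  have h2 : (1 : ℂ) * a - -(om ^ 2)⁻¹ * b = a + om * b := by
    have h3 : (om ^ 2)⁻¹ = om := by
      rw [← om_inv, inv_inv]
    rw [h3]
    ring
  rw [h2] at h1
  exact h1

theorem QK_al {a b : ℂ} (h : om * b - om⁻¹ * a ≠ 0) : HasDerivAt (fun q => al q a b)
    (((a + om * b) * (om * b - om⁻¹ * a) - (om * a - om⁻¹ * b) * (b + om * a)) / (om * b - om⁻¹ * a) ^ 2) om :=
  (QK_N a b).div (QK_N b a) h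

theorem QK_be {a b : ℂ} (h : om * b - om⁻¹ * a ≠ 0) : HasDerivAt (fun q => be q a b)
    ((0 * (om * b - om⁻¹ * a) - (a - b) * (b + om * a)) / (om * b - om⁻¹ * a) ^ 2) om :=
  (hasDerivAt_const om (a - b)).div (QK_N b a) h

theorem QK_M (a b : ℂ) : (om * a - om⁻¹ * b) + (a - b) = om * b - om⁻¹ * a := by
  rw [om_inv]
  linear_combination (a - b) * om_eq

theorem al_hasDeriv {a b : ℂ} (h : om * b - om⁻¹ * a ≠ 0) : HasDerivAt (fun q => al q a b) (dal a b) om := by
  unfold dal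
  rw [(QK_al h).deriv]
  exact QK_al h

theorem be_hasDeriv {a b : ℂ} (h : om * b - om⁻¹ * a ≠ 0) : HasDerivAt (fun q => be q a b) (dbe a b) om := by
  unfold dbe
  rw [(QK_be h).deriv]
  exact QK_be h

theorem al_be {a b : ℂ} (h : om * b - om⁻¹ * a ≠ 0) : al om a b + be om a b = 1 := by
  unfold al be
  rw [← add_div, QK_M, div_self h]

theorem dal_dbe {a b : ℂ} (h : om * b - om⁻¹ * a ≠ 0) : dal a b + dbe a b = (1 - om) * be om a b := by
  unfold dal dbe
  rw [(QK_al h).deriv, (QK_be h).deriv, ← add_div]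
  have h1 : (a + om * b) * (om * b - om⁻¹ * a) - (om * a - om⁻¹ * b) * (b + om * a) +
      (0 * (om * b - om⁻¹ * a) - (a - b) * (b + om * a)) =
      (1 - om) * (a - b) * (om * b - om⁻¹ * a) := by
    have h2 := QK_M a b
    have h3 : (om * a - om⁻¹ * b) = om * b - om⁻¹ * a - (a - b) := by
      rw [← h2]
      ring
    rw [h3]
    ring
  rw [h1]
  unfold be
  field_simp

/-- derivative of one step -/
def dR (a b : ℂ) (i : ℕ) (v : Vec) : Vec := dal a b • v + dbe a b • ee i v + be om a b • dE i v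

/-- derivative of the operator of a list -/
def dQ : List (ℕ × ℂ × ℂ) → Vec → Vec
  | [], _ => 0
  | t :: l, v => dQ l (Rq om t.2.1 t.2.2 t.1 v) + opQ om l (dR t.2.1 t.2.2 t.1 v)

theorem QK_add (q : ℂ) (l : List (ℕ × ℂ × ℂ)) (v w : Vec) : opQ q l (v + w) = opQ q l v + opQ q l w := by
  induction l generalizing v w with
  | nil => rfl
  | cons t l ih =>
    show opQ q l (Rq q t.2.1 t.2.2 t.1 (v + w)) = opQ q l (Rq q t.2.1 t.2.2 t.1 v) + opQ q l (Rq q t.2.1 t.2.2 t.1 w)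
    rw [map_add, ih]

theorem opQ_hasDeriv (l : List (ℕ × ℂ × ℂ)) (hl : ∀ t ∈ l, om * t.2.2 - om⁻¹ * t.2.1 ≠ 0) (v : ℂ → Vec) (v' : Vec)
    (h : ∀ s, HasDerivAt (fun q => v q s) (v' s) om) (s : Finset ℕ) :
    HasDerivAt (fun q => opQ q l (v q) s) (dQ l (v om) s + opQ om l v' s) om := by
  induction l generalizing v v' s with
  | nil =>
    have h1 : dQ [] (v om) s + opQ om [] v' s = v' s := zero_add _
    rw [h1]
    exact h s
  | cons t l ih =>
    have ht := hl t List.mem_cons_self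
    have hl' : ∀ t ∈ l, om * t.2.2 - om⁻¹ * t.2.1 ≠ 0 := fun u hu => hl u (List.mem_cons_of_mem _ hu)
    have h2 : ∀ s, HasDerivAt (fun q => Rq q t.2.1 t.2.2 t.1 (v q) s)
        ((dR t.2.1 t.2.2 t.1 (v om) + Rq om t.2.1 t.2.2 t.1 v') s) om := by
      intro s
      have h3 := ((al_hasDeriv ht).mul (h s)).add ((be_hasDeriv ht).mul (Eq_hasDeriv t.1 h s))
      have h4 : dal t.2.1 t.2.2 * v om s + al om t.2.1 t.2.2 * v' s +
          (dbe t.2.1 t.2.2 * Eq om t.1 (v om) s + be om t.2.1 t.2.2 * (dE t.1 (v om) s + ee t.1 v' s)) =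
          (dR t.2.1 t.2.2 t.1 (v om) + Rq om t.2.1 t.2.2 t.1 v') s := by
        rw [Rq_apply, Eq_om]
        unfold dR
        simp only [Pi.add_apply, Pi.smul_apply, smul_eq_mul]
        ring
      rw [h4] at h3
      exact h3
    have h5 := ih hl' (fun q => Rq q t.2.1 t.2.2 t.1 (v q)) _ h2 s
    have h6 : dQ l (Rq om t.2.1 t.2.2 t.1 (v om)) s +
        opQ om l (dR t.2.1 t.2.2 t.1 (v om) + Rq om t.2.1 t.2.2 t.1 v') s =
        dQ (t :: l) (v om) s + opQ om (t :: l) v' s := by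
      rw [QK_add]
      exact (add_assoc _ _ _).symm
    rw [h6] at h5
    exact h5

/-- the differentiated sweep relation -/
theorem key {L : ℕ} (hL : 1 ≤ L) {a : ℂ} (ha : a ≠ 0) {w : ℕ → ℂ} (hw : ∀ k, w k ≠ 0)
    (h : ∀ k, k < L - 1 → om * w k - om⁻¹ * a ≠ 0) (h' : ∀ k, k < L - 1 → om * a⁻¹ - om⁻¹ * w k ≠ 0) :
    ∃ A B : Vec, Wt L (L / 2) A ∧ (∀ s, HasDerivAt (fun u => gv L (cns u w) s) (B s) a) ∧
      ∀ s, dQ (upL a w (L - 1) ++ dnL a⁻¹ w (L - 1)) (gv L (cns a w)) s +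
        opQ om (upL a w (L - 1) ++ dnL a⁻¹ w (L - 1)) A s = A s + 6 * om ^ 2 * a * B s := by
  have hG : ∀ s, HasFDerivAt (fun p : ℂ × ℂ => gvq p.1 L (cns p.2 w) s)
      (fderiv ℂ (fun p : ℂ × ℂ => gvq p.1 L (cns p.2 w) s) (om, a)) (om, a) := fun s =>
    (gvq_diff L w hw om_ne_zero ha s).hasFDerivAt
  obtain ⟨G', hG'⟩ : ∃ G' : Finset ℕ → (ℂ × ℂ →L[ℂ] ℂ),
      ∀ s, HasFDerivAt (fun p : ℂ × ℂ => gvq p.1 L (cns p.2 w) s) (G' s) (om, a) := ⟨_, hG⟩
  have h6 : om ^ 6 * a = a := by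
    have : om ^ 6 = (om ^ 3) ^ 2 := by ring
    rw [this, om_cube, one_pow, one_mul]
  have h5 : om ^ 5 = om ^ 2 := by
    have : om ^ 5 = om ^ 3 * om ^ 2 := by ring
    rw [this, om_cube, one_mul]
  have hA : ∀ s, HasDerivAt (fun q => gvq q L (cns a w) s) (G' s (1, 0)) om := by
    intro s
    have h1 : HasDerivAt (fun q : ℂ => (q, a)) ((1 : ℂ), (0 : ℂ)) om :=
      (hasDerivAt_id om).prodMk (hasDerivAt_const om a)
    exact HasFDerivAt.comp_hasDerivAt om (hG' s) h1
  have hB : ∀ s, HasDerivAt (fun u => gvq om L (cns u w) s) (G' s (0, 1)) a := by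
    intro s
    have h1 : HasDerivAt (fun u : ℂ => (om, u)) ((0 : ℂ), (1 : ℂ)) a :=
      (hasDerivAt_const a om).prodMk (hasDerivAt_id a)
    exact HasFDerivAt.comp_hasDerivAt a (hG' s) h1
  have hC : ∀ s, HasDerivAt (fun q => gvq q L (cns (q ^ 6 * a) w) s)
      (G' s (1, 0) + 6 * om ^ 2 * a * G' s (0, 1)) om := by
    intro s
    have h2 : HasDerivAt (fun q : ℂ => q ^ 6 * a) (6 * om ^ 2 * a) om := by
      have h3 := (hasDerivAt_pow 6 om).mul_const a
      have h4 : ((6 : ℕ) : ℂ) * om ^ (6 - 1) * a = 6 * om ^ 2 * a := by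
        show ((6 : ℕ) : ℂ) * om ^ 5 * a = 6 * om ^ 2 * a
        rw [h5, Nat.cast_ofNat]
      rw [h4] at h3
      exact h3
    have h1 : HasDerivAt (fun q : ℂ => (q, q ^ 6 * a)) ((1 : ℂ), 6 * om ^ 2 * a) om :=
      (hasDerivAt_id om).prodMk h2
    have h7 : HasFDerivAt (fun p : ℂ × ℂ => gvq p.1 L (cns p.2 w) s) (G' s) (om, om ^ 6 * a) := by
      rw [h6]
      exact hG' s
    have h8 := HasFDerivAt.comp_hasDerivAt om h7 h1
    have h9 : G' s ((1 : ℂ), 6 * om ^ 2 * a) = G' s (1, 0) + 6 * om ^ 2 * a * G' s (0, 1) := by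
      have h10 : ((1 : ℂ), 6 * om ^ 2 * a) = (1, 0) + (6 * om ^ 2 * a) • ((0 : ℂ), (1 : ℂ)) := by
        rw [Prod.smul_mk, Prod.mk_add_mk, smul_zero, add_zero, zero_add, smul_eq_mul, mul_one]
      rw [h10, map_add, map_smul, smul_eq_mul]
    rw [h9] at h8
    exact h8
  refine ⟨fun s => G' s (1, 0), fun s => G' s (0, 1), ?_, ?_, ?_⟩
  · intro s hs
    have h1 : (fun q => gvq q L (cns a w) s) = fun _ => 0 := by
      funext q
      exact if_neg hs
    have h2 := hA s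
    rw [h1] at h2
    exact h2.unique (hasDerivAt_const om 0)
  · intro s
    have h1 : (fun u => gvq om L (cns u w) s) = fun u => gv L (cns u w) s := by
      funext u
      rw [gvq_om]
    rw [← h1]
    exact hB s
  · intro s
    have hl : ∀ t ∈ upL a w (L - 1) ++ dnL a⁻¹ w (L - 1), om * t.2.2 - om⁻¹ * t.2.1 ≠ 0 := by
      intro t ht
      rcases List.mem_append.mp ht with ht | ht
      · unfold upL at ht
        rw [List.mem_map] at ht
        obtain ⟨k, hk, rfl⟩ := ht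
        exact h k (List.mem_range.mp hk)
      · unfold dnL at ht
        rw [List.mem_map] at ht
        obtain ⟨k, hk, rfl⟩ := ht
        have hk' := List.mem_range.mp hk
        exact h' (L - 1 - 1 - k) (by omega)
    have h1 := opQ_hasDeriv _ hl (fun q => gvq q L (cns a w)) (fun s => G' s (1, 0)) hA s
    have e0 : ∀ᶠ q : ℂ in nhds om, q ≠ 0 := continuousAt_id.eventually_ne om_ne_zero
    have hc : ∀ x y : ℂ, ContinuousAt (fun q : ℂ => q * x - q⁻¹ * y) om := fun x y =>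
      (QK_N x y).continuousAt
    have e1 : ∀ᶠ q : ℂ in nhds om, ∀ k ∈ Finset.range (L - 1), q * w k - q⁻¹ * a ≠ 0 := by
      rw [Filter.eventually_all_finset]
      intro k hk
      exact (hc (w k) a).eventually_ne (h k (Finset.mem_range.mp hk))
    have e2 : ∀ᶠ q : ℂ in nhds om, ∀ k ∈ Finset.range (L - 1), q * a⁻¹ - q⁻¹ * w k ≠ 0 := by
      rw [Filter.eventually_all_finset]
      intro k hk
      exact (hc a⁻¹ (w k)).eventually_ne (h' k (Finset.mem_range.mp hk))
    have h2 : (fun q => opQ q (upL a w (L - 1) ++ dnL a⁻¹ w (L - 1)) (gvq q L (cns a w)) s) =ᶠ[nhds om]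
        fun q => gvq q L (cns (q ^ 6 * a) w) s := by
      filter_upwards [e0, e1, e2] with q hq0 hq1 hq2
      rw [full_sweep hq0 hL ha hw (fun k hk => hq1 k (Finset.mem_range.mpr hk))
        (fun k hk => hq2 k (Finset.mem_range.mpr hk))]
    have h3 := (hC s).congr_of_eventuallyEq h2
    have h4 := h1.unique h3
    have h7 : gvq om L (cns a w) = gv L (cns a w) := gvq_om L _
    rw [← h7]
    exact h4

end NX
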