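import Pool.Agent.Lib.MP_216314_pr.N.QK

/-!
# The energy identity

`opP l v`: percolation steps `(i, β)`: `v ↦ (1-β) v + β ee i v`; `dP l v`: sum over the steps of the same product with `β dE i` in place of the step.
At `q = om` the list `l` of triples acts as the list `pl l` of pairs (`Rq_apply`, `Eq_om`, `al_be`).
`dQ_pair`: let `Ψ` be a vector such that `BF Ψ (word Ψ) = BF Ψ Ψ` for all words (products of the `ee i`, `i + 1 < L`). Call a vector `v` good if `BF Ψ (word v) = BF Ψ v` for all words and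
every suffix: the good vectors form a subspace which contains `Ψ` and is mapped by every `ee i` to itself with `BF Ψ (ee i v) = BF Ψ v`. So a step with `al + be = 1` preserves `BF Ψ v`, and `dal v + dbe ee v` has pairing `(dal + dbe) BF Ψ v` (also after further steps).
Induction on `l`: for good `v`: `BF Ψ (dQ l v) = BF Ψ (dP (pl l) v) + (1 - om) (∑ β) BF Ψ v`.
`energy`: pair the relation `key` with `Ψ = gv L (cns a w)`; `hsym` says that the operator is symmetric and fixes `Ψ` (at `q = om`), so `BF Ψ (op A) = BF Ψ A`. The derivative of `u ↦ BF (gv (cns u w)) (gv (cns u w))` at `a` is `2 BF Ψ B` (`BF` is a finite sum of products; symmetric).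
-/

set_option autoImplicit false

noncomputable section

namespace NX

open Finset PX

/-- the bilinear form -/
def bf (L : ℕ) (v w : Vec) : ℂ := BF L (L / 2) (fun _ => 1) v w

def opP : List (ℕ × ℂ) → Vec → Vec
  | [], v => v
  | t :: l, v => opP l ((1 - t.2) • v + t.2 • ee t.1 v)

def dP : List (ℕ × ℂ) → Vec → Vec
  | [], _ => 0
  | t :: l, v => dP l ((1 - t.2) • v + t.2 • ee t.1 v) + opP l (t.2 • dE t.1 v)

/-- word -/
def opWd : List ℕ → Vec → Vec
  | [], v => v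
  | i :: l, v => opWd l (ee i v)

def pl (l : List (ℕ × ℂ × ℂ)) : List (ℕ × ℂ) := l.map (fun t => (t.1, be om t.2.1 t.2.2))

theorem opQ_om (l : List (ℕ × ℂ × ℂ)) (hl : ∀ t ∈ l, om * t.2.2 - om⁻¹ * t.2.1 ≠ 0) (v : Vec) :
    opQ om l v = opP (pl l) v := by
  induction l generalizing v with
  | nil => rfl
  | cons t l ih =>
    have h1 := al_be (hl t (by simp))
    have h2 : opQ om (t :: l) v = opQ om l (Rq om t.2.1 t.2.2 t.1 v) := rfl
    have h3 : opP (pl (t :: l)) v = opP (pl l) ((1 - be om t.2.1 t.2.2) • v + be om t.2.1 t.2.2 • ee t.1 v) := rfl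
    rw [h2, h3, ih (fun t' ht' => hl t' (by simp [ht'])), Rq_apply, Eq_om]
    congr 3
    rw [← h1]
    ring


private theorem QL_wd_add (W : List ℕ) (v w : Vec) : opWd W (v + w) = opWd W v + opWd W w := by
  induction W generalizing v w with
  | nil => rfl
  | cons i W ih =>
    show opWd W (ee i (v + w)) = opWd W (ee i v) + opWd W (ee i w)
    rw [map_add, ih]

private theorem QL_wd_smul (W : List ℕ) (c : ℂ) (v : Vec) : opWd W (c • v) = c • opWd W v := by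
  induction W generalizing v with
  | nil => rfl
  | cons i W ih =>
    show opWd W (ee i (c • v)) = c • opWd W (ee i v)
    rw [map_smul, ih]

private theorem QL_P_add (l : List (ℕ × ℂ)) (v w : Vec) : opP l (v + w) = opP l v + opP l w := by
  induction l generalizing v w with
  | nil => rfl
  | cons t l ih =>
    show opP l ((1 - t.2) • (v + w) + t.2 • ee t.1 (v + w)) =
      opP l ((1 - t.2) • v + t.2 • ee t.1 v) + opP l ((1 - t.2) • w + t.2 • ee t.1 w)
    rw [← ih, map_add]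
    congr 1
    simp only [smul_add]
    abel

private theorem QL_bf_add (L : ℕ) (v w w' : Vec) : bf L v (w + w') = bf L v w + bf L v w' := BF_add_right _ _ _ _ _ _

private theorem QL_bf_smul (L : ℕ) (c : ℂ) (v w : Vec) : bf L v (c • w) = c * bf L v w := BF_smul_right _ _ _ _ _ _

/-- good vectors -/
private def QL_good (L : ℕ) (Ψ v : Vec) : Prop :=
  ∀ W : List ℕ, (∀ i ∈ W, i + 1 < L) → bf L Ψ (opWd W v) = bf L Ψ v

private theorem QL_good_add {L : ℕ} {Ψ v w : Vec} (hv : QL_good L Ψ v) (hw : QL_good L Ψ w) : QL_good L Ψ (v + w) := by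
  intro W hW
  rw [QL_wd_add, QL_bf_add, QL_bf_add, hv W hW, hw W hW]

private theorem QL_good_smul {L : ℕ} {Ψ v : Vec} (c : ℂ) (hv : QL_good L Ψ v) : QL_good L Ψ (c • v) := by
  intro W hW
  rw [QL_wd_smul, QL_bf_smul, QL_bf_smul, hv W hW]

private theorem QL_good_pair {L i : ℕ} (hi : i + 1 < L) {Ψ v : Vec} (hv : QL_good L Ψ v) : bf L Ψ (ee i v) = bf L Ψ v := by
  exact hv [i] (by simpa using hi)

private theorem QL_good_ee {L i : ℕ} (hi : i + 1 < L) {Ψ v : Vec} (hv : QL_good L Ψ v) : QL_good L Ψ (ee i v) := by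
  intro W hW
  rw [QL_good_pair hi hv]
  exact hv (i :: W) (by
    intro j hj
    rcases List.mem_cons.mp hj with h | h
    · rw [h]
      exact hi
    · exact hW j h)

private theorem QL_good_comb {L i : ℕ} (hi : i + 1 < L) {Ψ v : Vec} (c d : ℂ) (hv : QL_good L Ψ v) :
    QL_good L Ψ (c • v + d • ee i v) ∧ bf L Ψ (c • v + d • ee i v) = (c + d) * bf L Ψ v := by
  refine ⟨QL_good_add (QL_good_smul c hv) (QL_good_smul d (QL_good_ee hi hv)), ?_⟩
  rw [QL_bf_add, QL_bf_smul, QL_bf_smul, QL_good_pair hi hv]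
  ring

private theorem QL_good_P {L : ℕ} {Ψ : Vec} (l : List (ℕ × ℂ)) (hl : ∀ t ∈ l, t.1 + 1 < L) {v : Vec} (hv : QL_good L Ψ v) :
    bf L Ψ (opP l v) = bf L Ψ v := by
  induction l generalizing v with
  | nil => rfl
  | cons t l ih =>
    obtain ⟨h1, h2⟩ := QL_good_comb (hl t (by simp)) (1 - t.2) t.2 hv
    have h3 := ih (fun t' ht' => hl t' (by simp [ht'])) h1
    show bf L Ψ (opP l ((1 - t.2) • v + t.2 • ee t.1 v)) = bf L Ψ v
    rw [h3, h2]
    ring

private theorem QL_pl_lt {L : ℕ} {l : List (ℕ × ℂ × ℂ)} (hl : ∀ t ∈ l, om * t.2.2 - om⁻¹ * t.2.1 ≠ 0 ∧ t.1 + 1 < L) :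
    ∀ t ∈ pl l, t.1 + 1 < L := by
  intro t ht
  obtain ⟨u, hu, rfl⟩ := List.mem_map.mp ht
  exact (hl u hu).2

private theorem QL_dQ_good (L : ℕ) (Ψ : Vec) (l : List (ℕ × ℂ × ℂ)) (hl : ∀ t ∈ l, om * t.2.2 - om⁻¹ * t.2.1 ≠ 0 ∧ t.1 + 1 < L)
    (v : Vec) (hv : QL_good L Ψ v) :
    bf L Ψ (dQ l v) = bf L Ψ (dP (pl l) v) + (1 - om) * ((pl l).map (fun t => t.2)).sum * bf L Ψ v := by
  induction l generalizing v with
  | nil =>
    show bf L Ψ (0 : Vec) = bf L Ψ (0 : Vec) + (1 - om) * (0 : ℂ) * bf L Ψ v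
    ring
  | cons t l ih =>
    have hl' : ∀ t' ∈ l, om * t'.2.2 - om⁻¹ * t'.2.1 ≠ 0 ∧ t'.1 + 1 < L := fun t' ht' => hl t' (by simp [ht'])
    have h1 := al_be (hl t (by simp)).1
    have hd := dal_dbe (hl t (by simp)).1
    have hi := (hl t (by simp)).2
    have hR : Rq om t.2.1 t.2.2 t.1 v = (1 - be om t.2.1 t.2.2) • v + be om t.2.1 t.2.2 • ee t.1 v := by
      rw [Rq_apply, Eq_om]
      congr 2
      rw [← h1]
      ring
    obtain ⟨g1, g2⟩ := QL_good_comb hi (1 - be om t.2.1 t.2.2) (be om t.2.1 t.2.2) hv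
    obtain ⟨g3, g4⟩ := QL_good_comb hi (dal t.2.1 t.2.2) (dbe t.2.1 t.2.2) hv
    have e1 : dQ (t :: l) v = dQ l (Rq om t.2.1 t.2.2 t.1 v) + opQ om l (dR t.2.1 t.2.2 t.1 v) := rfl
    have e2 : dP (pl (t :: l)) v = dP (pl l) ((1 - be om t.2.1 t.2.2) • v + be om t.2.1 t.2.2 • ee t.1 v) +
        opP (pl l) (be om t.2.1 t.2.2 • dE t.1 v) := rfl
    have e3 : ((pl (t :: l)).map (fun t => t.2)).sum = be om t.2.1 t.2.2 + ((pl l).map (fun t => t.2)).sum := by
      show (be om t.2.1 t.2.2 :: ((pl l).map (fun t => t.2))).sum = _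
      rw [List.sum_cons]
    have e4 : dR t.2.1 t.2.2 t.1 v = (dal t.2.1 t.2.2 • v + dbe t.2.1 t.2.2 • ee t.1 v) + be om t.2.1 t.2.2 • dE t.1 v := rfl
    rw [e1, e2, e3, QL_bf_add, QL_bf_add, opQ_om l (fun t' ht' => (hl' t' ht').1), e4, QL_P_add, QL_bf_add,
      QL_good_P (pl l) (QL_pl_lt hl') g3, g4, hR, ih hl' _ g1, g2, hd]
    ring


theorem dQ_pair (L : ℕ) (l : List (ℕ × ℂ × ℂ)) (hl : ∀ t ∈ l, om * t.2.2 - om⁻¹ * t.2.1 ≠ 0 ∧ t.1 + 1 < L) (Ψ : Vec)
    (hinv : ∀ w : List ℕ, (∀ i ∈ w, i + 1 < L) → bf L Ψ (opWd w Ψ) = bf L Ψ Ψ) :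
    bf L Ψ (dQ l Ψ) = bf L Ψ (dP (pl l) Ψ) + (1 - om) * ((pl l).map (fun t => t.2)).sum * bf L Ψ Ψ := by
  exact QL_dQ_good L Ψ l hl Ψ hinv


private theorem QL_deriv {L : ℕ} {a : ℂ} {w : ℕ → ℂ} {B : Vec} (hB : ∀ s, HasDerivAt (fun u => gv L (cns u w) s) (B s) a) :
    deriv (fun u => bf L (gv L (cns u w)) (gv L (cns u w))) a = 2 * bf L (gv L (cns a w)) B := by
  have h1 : HasDerivAt (fun u => ∑ s ∈ cfn L (L / 2), (1 : ℂ) * gv L (cns u w) s * gv L (cns u w) s)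
      (∑ s ∈ cfn L (L / 2), ((1 : ℂ) * B s * gv L (cns a w) s + (1 : ℂ) * gv L (cns a w) s * B s)) a :=
    HasDerivAt.fun_sum (fun s _ => ((hB s).const_mul 1).mul (hB s))
  have h2 : (fun u => bf L (gv L (cns u w)) (gv L (cns u w))) =
      (fun u => ∑ s ∈ cfn L (L / 2), (1 : ℂ) * gv L (cns u w) s * gv L (cns u w) s) := rfl
  rw [h2, h1.deriv]
  show _ = 2 * ∑ s ∈ cfn L (L / 2), (1 : ℂ) * gv L (cns a w) s * B s
  rw [Finset.mul_sum]
  refine Finset.sum_congr rfl (fun s _ => ?_)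
  ring


/-- the energy identity -/
theorem energy {L : ℕ} (hL : 1 ≤ L) {a : ℂ} (ha : a ≠ 0) {w : ℕ → ℂ} (hw : ∀ k, w k ≠ 0)
    (h : ∀ k, k < L - 1 → om * w k - om⁻¹ * a ≠ 0) (h' : ∀ k, k < L - 1 → om * a⁻¹ - om⁻¹ * w k ≠ 0)
    (hinv : ∀ W : List ℕ, (∀ i ∈ W, i + 1 < L) → bf L (gv L (cns a w)) (opWd W (gv L (cns a w))) = bf L (gv L (cns a w)) (gv L (cns a w)))
    (hsym : ∀ v, Wt L (L / 2) v → bf L (gv L (cns a w)) (opQ om (upL a w (L - 1) ++ dnL a⁻¹ w (L - 1)) v) = bf L (gv L (cns a w)) v) :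
    bf L (gv L (cns a w)) (dP (pl (upL a w (L - 1) ++ dnL a⁻¹ w (L - 1))) (gv L (cns a w))) +
      (1 - om) * ((pl (upL a w (L - 1) ++ dnL a⁻¹ w (L - 1))).map (fun t => t.2)).sum * bf L (gv L (cns a w)) (gv L (cns a w)) =
      3 * om ^ 2 * a * deriv (fun u => bf L (gv L (cns u w)) (gv L (cns u w))) a := by
  obtain ⟨A, B, hA, hB, hK⟩ := key hL ha hw h h'
  have hl : ∀ t ∈ upL a w (L - 1) ++ dnL a⁻¹ w (L - 1), om * t.2.2 - om⁻¹ * t.2.1 ≠ 0 ∧ t.1 + 1 < L := by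
    intro t ht
    rcases List.mem_append.mp ht with h1 | h1
    · obtain ⟨k, hk, rfl⟩ := List.mem_map.mp h1
      rw [List.mem_range] at hk
      exact ⟨h k hk, by show k + 1 < L; omega⟩
    · obtain ⟨k, hk, rfl⟩ := List.mem_map.mp h1
      rw [List.mem_range] at hk
      exact ⟨h' (L - 1 - 1 - k) (by omega), by show L - 1 - 1 - k + 1 < L; omega⟩
  have h1 := dQ_pair L _ hl (gv L (cns a w)) hinv
  have h2 : dQ (upL a w (L - 1) ++ dnL a⁻¹ w (L - 1)) (gv L (cns a w)) +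
      opQ om (upL a w (L - 1) ++ dnL a⁻¹ w (L - 1)) A = A + (6 * om ^ 2 * a) • B := by
    funext s
    exact hK s
  have h3 := congrArg (fun v => bf L (gv L (cns a w)) v) h2
  simp only [QL_bf_add, QL_bf_smul] at h3
  rw [hsym A hA] at h3
  rw [QL_deriv hB, ← h1]
  linear_combination h3


end NX
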