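import Pool.Agent.Lib.MP_216314_pr.S.SPer

/-!
# Random words with general letter probabilities (conventions of the files `S/*`)

`hB i b v = (1-b) v + b ee i v`: the letter `i` is present with probability `b`. `opB l`, `l` a list of pairs `(letter, probability)`, first element first. `dEs i`: derivative of the generator with respect to the parameter `q = - s^(-2)`
(`s^4` is the primitive third root of unity `om`). `dB l v`: sum over the steps of the same product with `b dEs i` in place of the step.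
`ws l`: the list of the words of `l` with their probabilities. `rep l m`: `m` copies of `l`.
All statements are inductions on the lists. (`opW`, `ee`, `ee_add`, `ee_smul`, `opW_add`, `opW_smul`, `opW_append`, `opW_sec`: files `S/SDefs`, `SBas`, `SBound`.)
`oddL n = [1, 3, ..., 2n-1]`. `ip_dEs`: `dEs i` is diagonal.
-/

set_option autoImplicit false

noncomputable section

namespace NX

open Finset QS

/-- one random letter -/
def hB (i : ℕ) (b : ℝ) (v : Vc) : Vc := fun D => (1 - (b : ℂ)) * v D + (b : ℂ) * QS.ee i v D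

def opB : List (ℕ × ℝ) → Vc → Vc
  | [], v => v
  | t :: l, v => opB l (hB t.1 t.2 v)

/-- derivative of the generator -/
def dEs (i : ℕ) (v : Vc) : Vc := fun D => (if (i ∈ D ↔ i + 1 ∈ D) then 0 else if i ∈ D then -1 else s ^ 4) * v D

def dB : List (ℕ × ℝ) → Vc → Vc
  | [], _ => fun _ => 0
  | t :: l, v => fun D => dB l (hB t.1 t.2 v) D + (t.2 : ℂ) * opB l (dEs t.1 v) D

/-- the words of a list, with probabilities -/
def ws : List (ℕ × ℝ) → List (ℝ × List ℕ)
  | [] => [(1, [])]
  | t :: l => (ws l).map (fun p => ((1 - t.2) * p.1, p.2)) ++ (ws l).map (fun p => (t.2 * p.1, t.1 :: p.2))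

/-- `m` copies of a list -/
def rep (l : List (ℕ × ℝ)) (m : ℕ) : List (ℕ × ℝ) := (List.replicate m l).flatten

/-- admissible list for the sector `N` -/
def Adl (N : ℕ) (l : List (ℕ × ℝ)) : Prop := ∀ t ∈ l, 1 ≤ t.1 ∧ t.1 ≤ 2 * N ∧ 0 ≤ t.2 ∧ t.2 ≤ 1

theorem SA_hB_add (i : ℕ) (b : ℝ) (v w : Vc) :
    hB i b (fun D => v D + w D) = fun D => hB i b v D + hB i b w D := by
  funext D
  unfold hB
  rw [QS.ee_add]
  ring

theorem SA_hB_smul (i : ℕ) (b : ℝ) (c : ℂ) (v : Vc) :
    hB i b (fun D => c * v D) = fun D => c * hB i b v D := by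
  funext D
  unfold hB
  rw [QS.ee_smul]
  ring

theorem SA_dEs_add (i : ℕ) (v w : Vc) :
    dEs i (fun D => v D + w D) = fun D => dEs i v D + dEs i w D := by
  funext D
  unfold dEs
  ring

theorem SA_dEs_smul (i : ℕ) (c : ℂ) (v : Vc) :
    dEs i (fun D => c * v D) = fun D => c * dEs i v D := by
  funext D
  unfold dEs
  ring

theorem SA_ee_sec {N i : ℕ} (h1 : 1 ≤ i) (h2 : i ≤ 2 * N) {v v' : Vc}
    (h : ∀ D ∈ sec N, v D = v' D) : ∀ D ∈ sec N, QS.ee i v D = QS.ee i v' D := by
  intro D hD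
  unfold QS.ee
  rw [h D hD, h (swD i D) (swD_sec h1 h2 hD)]

theorem SA_hB_sec {N i : ℕ} {b : ℝ} (h1 : 1 ≤ i) (h2 : i ≤ 2 * N) {v v' : Vc}
    (h : ∀ D ∈ sec N, v D = v' D) : ∀ D ∈ sec N, hB i b v D = hB i b v' D := by
  intro D hD
  unfold hB
  rw [h D hD, SA_ee_sec h1 h2 h D hD]

theorem SA_dEs_sec {N i : ℕ} {v v' : Vc}
    (h : ∀ D ∈ sec N, v D = v' D) : ∀ D ∈ sec N, dEs i v D = dEs i v' D := by
  intro D hD
  unfold dEs
  rw [h D hD]

theorem SA_adl_tail {N : ℕ} {t : ℕ × ℝ} {l : List (ℕ × ℝ)} (h : Adl N (t :: l)) : Adl N l :=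
  fun u hu => h u (List.mem_cons_of_mem t hu)

theorem rep_zero (l : List (ℕ × ℝ)) : rep l 0 = [] := rfl

theorem rep_succ (l : List (ℕ × ℝ)) (m : ℕ) : rep l (m + 1) = l ++ rep l m := by
  unfold rep
  rw [List.replicate_succ, List.flatten_cons]

theorem adl_rep {N : ℕ} {l : List (ℕ × ℝ)} (h : Adl N l) (m : ℕ) : Adl N (rep l m) := by
  intro t ht
  unfold rep at ht
  rw [List.mem_flatten] at ht
  obtain ⟨l', hl', ht'⟩ := ht
  rw [(List.mem_replicate.1 hl').2] at ht'
  exact h t ht'

theorem opB_append (l l' : List (ℕ × ℝ)) (v : Vc) : opB (l ++ l') v = opB l' (opB l v) := by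
  induction l generalizing v with
  | nil => rfl
  | cons t l ih => exact ih (hB t.1 t.2 v)

theorem opB_add (l : List (ℕ × ℝ)) (v w : Vc) : opB l (fun D => v D + w D) = fun D => opB l v D + opB l w D := by
  induction l generalizing v w with
  | nil => rfl
  | cons t l ih =>
    show opB l (hB t.1 t.2 fun D => v D + w D) = _
    rw [SA_hB_add, ih]
    rfl

theorem opB_smul (l : List (ℕ × ℝ)) (c : ℂ) (v : Vc) : opB l (fun D => c * v D) = fun D => c * opB l v D := by
  induction l generalizing v with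
  | nil => rfl
  | cons t l ih =>
    show opB l (hB t.1 t.2 fun D => c * v D) = _
    rw [SA_hB_smul, ih]
    rfl

theorem SA_opB_zero (l : List (ℕ × ℝ)) : opB l (fun _ => 0) = fun _ => 0 := by
  have h := opB_smul l 0 (fun _ => 0)
  simp only [zero_mul] at h
  exact h

theorem dB_append (l l' : List (ℕ × ℝ)) (v : Vc) : dB (l ++ l') v = fun D => dB l' (opB l v) D + opB l' (dB l v) D := by
  induction l generalizing v with
  | nil =>
    funext D
    show dB l' v D = dB l' v D + opB l' (fun _ => 0) D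
    rw [SA_opB_zero, add_zero]
  | cons t l ih =>
    funext D
    have h1 : opB l' (dB (t :: l) v) =
        fun D => opB l' (dB l (hB t.1 t.2 v)) D + (t.2 : ℂ) * opB l' (opB l (dEs t.1 v)) D := by
      have h2 := opB_add l' (dB l (hB t.1 t.2 v)) (fun D => (t.2 : ℂ) * opB l (dEs t.1 v) D)
      rw [opB_smul] at h2
      exact h2
    rw [h1]
    show dB (l ++ l') (hB t.1 t.2 v) D + (t.2 : ℂ) * opB (l ++ l') (dEs t.1 v) D =
      dB l' (opB l (hB t.1 t.2 v)) D +
        (opB l' (dB l (hB t.1 t.2 v)) D + (t.2 : ℂ) * opB l' (opB l (dEs t.1 v)) D)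
    rw [ih, opB_append]
    ring

theorem dB_add (l : List (ℕ × ℝ)) (v w : Vc) : dB l (fun D => v D + w D) = fun D => dB l v D + dB l w D := by
  induction l generalizing v w with
  | nil =>
    funext D
    show (0 : ℂ) = 0 + 0
    rw [add_zero]
  | cons t l ih =>
    funext D
    show dB l (hB t.1 t.2 fun D => v D + w D) D + (t.2 : ℂ) * opB l (dEs t.1 fun D => v D + w D) D =
      (dB l (hB t.1 t.2 v) D + (t.2 : ℂ) * opB l (dEs t.1 v) D) +
        (dB l (hB t.1 t.2 w) D + (t.2 : ℂ) * opB l (dEs t.1 w) D)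
    rw [SA_hB_add, SA_dEs_add, ih, opB_add]
    ring

theorem dB_smul (l : List (ℕ × ℝ)) (c : ℂ) (v : Vc) : dB l (fun D => c * v D) = fun D => c * dB l v D := by
  induction l generalizing v with
  | nil =>
    funext D
    show (0 : ℂ) = c * 0
    rw [mul_zero]
  | cons t l ih =>
    funext D
    show dB l (hB t.1 t.2 fun D => c * v D) D + (t.2 : ℂ) * opB l (dEs t.1 fun D => c * v D) D =
      c * (dB l (hB t.1 t.2 v) D + (t.2 : ℂ) * opB l (dEs t.1 v) D)
    rw [SA_hB_smul, SA_dEs_smul, ih, opB_smul]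
    ring

theorem opB_sec {N : ℕ} {l : List (ℕ × ℝ)} (hl : Adl N l) {v v' : Vc} (h : ∀ D ∈ sec N, v D = v' D) :
    ∀ D ∈ sec N, opB l v D = opB l v' D := by
  induction l generalizing v v' with
  | nil => exact h
  | cons t l ih =>
    have ht := hl t List.mem_cons_self
    exact ih (SA_adl_tail hl) (SA_hB_sec ht.1 ht.2.1 h)

theorem dB_sec {N : ℕ} {l : List (ℕ × ℝ)} (hl : Adl N l) {v v' : Vc} (h : ∀ D ∈ sec N, v D = v' D) :
    ∀ D ∈ sec N, dB l v D = dB l v' D := by
  induction l generalizing v v' with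
  | nil => exact fun _ _ => rfl
  | cons t l ih =>
    have ht := hl t List.mem_cons_self
    intro D hD
    show dB l (hB t.1 t.2 v) D + (t.2 : ℂ) * opB l (dEs t.1 v) D =
      dB l (hB t.1 t.2 v') D + (t.2 : ℂ) * opB l (dEs t.1 v') D
    rw [ih (SA_adl_tail hl) (SA_hB_sec ht.1 ht.2.1 h) D hD,
      opB_sec (SA_adl_tail hl) (SA_dEs_sec h) D hD]

theorem opB_expand (l : List (ℕ × ℝ)) (v : Vc) (D : Finset ℕ) :
    opB l v D = ((ws l).map (fun p => (p.1 : ℂ) * opW p.2 v D)).sum := by
  induction l generalizing v with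
  | nil =>
    show v D = ([((1 : ℝ), ([] : List ℕ))].map (fun p => (p.1 : ℂ) * opW p.2 v D)).sum
    simp [opW]
  | cons t l ih =>
    have h1 : opB (t :: l) v D = (1 - (t.2 : ℂ)) * opB l v D + (t.2 : ℂ) * opB l (QS.ee t.1 v) D := by
      show opB l (fun D => (1 - (t.2 : ℂ)) * v D + (t.2 : ℂ) * QS.ee t.1 v D) D = _
      rw [opB_add l (fun D => (1 - (t.2 : ℂ)) * v D) (fun D => (t.2 : ℂ) * QS.ee t.1 v D),
        opB_smul, opB_smul]
    rw [h1, ih v, ih (QS.ee t.1 v)]
    show _ = (((ws l).map (fun p => ((1 - t.2) * p.1, p.2)) ++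
      (ws l).map (fun p => (t.2 * p.1, t.1 :: p.2))).map (fun p => (p.1 : ℂ) * opW p.2 v D)).sum
    rw [List.map_append, List.sum_append, List.map_map, List.map_map, ← List.sum_map_mul_left,
      ← List.sum_map_mul_left]
    refine congrArg₂ (· + ·) (congrArg List.sum (List.map_congr_left fun p _ => ?_))
      (congrArg List.sum (List.map_congr_left fun p _ => ?_))
    · simp only [Function.comp_apply]
      push_cast
      ring
    · simp only [Function.comp_apply]
      show (t.2 : ℂ) * ((p.1 : ℂ) * opW p.2 (QS.ee t.1 v) D) =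
        ((t.2 * p.1 : ℝ) : ℂ) * opW p.2 (QS.ee t.1 v) D
      push_cast
      ring

theorem ws_sum (l : List (ℕ × ℝ)) : ((ws l).map (fun p => p.1)).sum = 1 := by
  induction l with
  | nil =>
    show ([((1 : ℝ), ([] : List ℕ))].map (fun p => p.1)).sum = 1
    simp
  | cons t l ih =>
    show (((ws l).map (fun p => ((1 - t.2) * p.1, p.2)) ++
      (ws l).map (fun p => (t.2 * p.1, t.1 :: p.2))).map (fun p => p.1)).sum = 1
    rw [List.map_append, List.sum_append, List.map_map, List.map_map]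
    have h1 : ((ws l).map ((fun p : ℝ × List ℕ => p.1) ∘ fun p => ((1 - t.2) * p.1, p.2))).sum =
        (1 - t.2) * ((ws l).map (fun p => p.1)).sum := by
      rw [← List.sum_map_mul_left]
      rfl
    have h2 : ((ws l).map ((fun p : ℝ × List ℕ => p.1) ∘ fun p => (t.2 * p.1, t.1 :: p.2))).sum =
        t.2 * ((ws l).map (fun p => p.1)).sum := by
      rw [← List.sum_map_mul_left]
      rfl
    rw [h1, h2, ih]
    ring

theorem ws_mem {N : ℕ} {l : List (ℕ × ℝ)} (hl : Adl N l) {p : ℝ × List ℕ} (hp : p ∈ ws l) :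
    0 ≤ p.1 ∧ ∀ i ∈ p.2, 1 ≤ i ∧ i ≤ 2 * N := by
  induction l generalizing p with
  | nil =>
    have h1 : p = (1, []) := List.mem_singleton.1 hp
    rw [h1]
    exact ⟨zero_le_one, fun i hi => absurd hi List.not_mem_nil⟩
  | cons t l ih =>
    have ht := hl t List.mem_cons_self
    have hp' : p ∈ (ws l).map (fun p => ((1 - t.2) * p.1, p.2)) ++
      (ws l).map (fun p => (t.2 * p.1, t.1 :: p.2)) := hp
    rw [List.mem_append, List.mem_map, List.mem_map] at hp'
    rcases hp' with ⟨r, hr, rfl⟩ | ⟨r, hr, rfl⟩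
    · have h1 := ih (SA_adl_tail hl) hr
      exact ⟨mul_nonneg (by linarith [ht.2.2.2]) h1.1, h1.2⟩
    · have h1 := ih (SA_adl_tail hl) hr
      refine ⟨mul_nonneg ht.2.2.1 h1.1, fun i hi => ?_⟩
      rcases List.mem_cons.1 hi with rfl | hi
      · exact ⟨ht.1, ht.2.1⟩
      · exact h1.2 i hi

theorem ip_dEs (N i : ℕ) (v w : Vc) : ip N v (dEs i w) = ip N (dEs i v) w := by
  unfold ip dEs
  refine Finset.sum_congr rfl fun D _ => ?_
  ring

end NX
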