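import Pool.Agent.Lib.MP_216314_pr.N.SA

/-!
# Uniform bounds and the rank one part

`Bd N v C` (from `S/SPer`): all words in the letters `1..2N` applied to `v` are bounded by `C` on the sector `sec N`.
`Goodl N l δ`: admissible, the word `oddL N` occurs with probability `δ > 0`, and the operator is symmetric on the sector.
`opB_bd`: `opB_expand`, `ws_sum`, `ws_mem` (convex combination; `opW` of a convex combination is the convex combination of `opW_append`ed words). `opB_rest`: split one occurrence of `(δ, oddL N)` off the list `ws l` (`List.append_of_mem`), `proj0`; the rest is a combination of words with total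
weight `1 - δ` (imitate `AA_rest` in `S/SPer.lean`). `opB_vec`: a convex combination of vectors `vec N σ`: if `P` is a predicate... stated as: pairing with `v0 N` is one (`opW_vec`, `ip_vec` of `S/SVec`, `S/SEnd`).
-/

set_option autoImplicit false

noncomputable section

namespace NX

open Finset QS

structure Goodl (N : ℕ) (l : List (ℕ × ℝ)) (δ : ℝ) : Prop where
  adl : Adl N l
  pos : 0 < δ
  mem : (δ, oddL N) ∈ ws l
  sym : ∀ v w : Vc, ip N v (opB l w) = ip N (opB l v) w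

private theorem SB_opW_sum {α : Type} (w : List ℕ) (l : List α) (f : α → Vc) :
    opW w (fun D => (l.map (fun a => f a D)).sum) =
      fun D => (l.map (fun a => opW w (f a) D)).sum := by
  induction l with
  | nil =>
    have h := opW_smul w 0 (fun _ => 0)
    simp only [zero_mul] at h
    exact h
  | cons a l ih =>
    have e : (fun D => ((a :: l).map (fun a => f a D)).sum) =
        fun D => f a D + (fun D => (l.map (fun a => f a D)).sum) D := by
      funext D
      rw [List.map_cons, List.sum_cons]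
    rw [e, opW_add, ih]
    funext D
    rw [List.map_cons, List.sum_cons]

private theorem SB_norm_sum (l : List (ℝ × List ℕ)) (f : ℝ × List ℕ → ℂ) (C : ℝ)
    (h : ∀ p ∈ l, 0 ≤ p.1 ∧ ‖f p‖ ≤ C) :
    ‖(l.map (fun p => (p.1 : ℂ) * f p)).sum‖ ≤ (l.map (fun p => p.1)).sum * C := by
  induction l with
  | nil => simp
  | cons a l ih =>
    rw [List.map_cons, List.sum_cons, List.map_cons, List.sum_cons, add_mul]
    have h1 := h a (List.mem_cons_self)
    have h2 := ih (fun b hb => h b (List.mem_cons_of_mem _ hb))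
    have h3 : ‖(a.1 : ℂ) * f a‖ ≤ a.1 * C := by
      rw [norm_mul, Complex.norm_real, Real.norm_of_nonneg h1.1]
      exact mul_le_mul_of_nonneg_left h1.2 h1.1
    exact (norm_add_le _ _).trans (add_le_add h3 h2)

private theorem SB_Bd {N : ℕ} {v : Vc} {C : ℝ} (h : Bd N v C) (L : List (ℝ × List ℕ))
    (hL : ∀ p ∈ L, 0 ≤ p.1 ∧ ∀ i ∈ p.2, 1 ≤ i ∧ i ≤ 2 * N) :
    Bd N (fun D => (L.map (fun p => (p.1 : ℂ) * opW p.2 v D)).sum)
      ((L.map (fun p => p.1)).sum * C) := by
  intro w hw D hD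
  have e : opW w (fun D => (L.map (fun p => (p.1 : ℂ) * opW p.2 v D)).sum) D =
      (L.map (fun p => (p.1 : ℂ) * opW w (opW p.2 v) D)).sum := by
    rw [SB_opW_sum w L (fun p D => (p.1 : ℂ) * opW p.2 v D)]
    beta_reduce
    congr 1
    refine List.map_congr_left fun p _ => ?_
    rw [opW_smul]
  rw [e]
  refine SB_norm_sum L _ C fun p hp => ⟨(hL p hp).1, ?_⟩
  rw [← opW_append]
  refine h (p.2 ++ w) ?_ D hD
  intro i hi
  rw [List.mem_append] at hi
  rcases hi with hi | hi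
  · exact (hL p hp).2 i hi
  · exact hw i hi

theorem Goodl.le_one {N : ℕ} {l : List (ℕ × ℝ)} {δ : ℝ} (h : Goodl N l δ) : δ ≤ 1 := by
  have h1 : ∀ x ∈ (ws l).map (fun p => p.1), 0 ≤ x := by
    intro x hx
    rw [List.mem_map] at hx
    obtain ⟨p, hp, rfl⟩ := hx
    exact (ws_mem h.adl hp).1
  have h2 : δ ∈ (ws l).map (fun p => p.1) := List.mem_map.mpr ⟨_, h.mem, rfl⟩
  have h3 := List.single_le_sum h1 δ h2
  rw [ws_sum] at h3
  exact h3

theorem opB_bd {N : ℕ} {l : List (ℕ × ℝ)} (hl : Adl N l) {v : Vc} {C : ℝ} (h : Bd N v C) : Bd N (opB l v) C := by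
  have h1 : opB l v = fun D => ((ws l).map (fun p => (p.1 : ℂ) * opW p.2 v D)).sum := by
    funext D
    exact opB_expand l v D
  rw [h1]
  have h2 := SB_Bd h (ws l) (fun p hp => ws_mem hl hp)
  rw [ws_sum, one_mul] at h2
  exact h2

theorem opB_rest {N : ℕ} {l : List (ℕ × ℝ)} {δ : ℝ} (hl : Goodl N l δ) {v : Vc} {C : ℝ} (h : Bd N v C) :
    ∃ r : Vc, (∀ D ∈ sec N, opB l v D = (δ : ℂ) * (ip N (v0 N) v * v0 N D) + r D) ∧ Bd N r ((1 - δ) * C) := by
  obtain ⟨l1, l2, h1⟩ := List.append_of_mem hl.mem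
  have hmem : ∀ p ∈ l1 ++ l2, 0 ≤ p.1 ∧ ∀ i ∈ p.2, 1 ≤ i ∧ i ≤ 2 * N := by
    intro p hp
    refine ws_mem hl.adl ?_
    rw [h1, List.mem_append, List.mem_cons]
    rw [List.mem_append] at hp
    rcases hp with hp | hp
    · exact Or.inl hp
    · exact Or.inr (Or.inr hp)
  have hsum : ((l1 ++ l2).map (fun p => p.1)).sum = 1 - δ := by
    have h2 := ws_sum l
    rw [h1, List.map_append, List.sum_append, List.map_cons, List.sum_cons] at h2
    rw [List.map_append, List.sum_append]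
    linarith
  refine ⟨fun D => ((l1 ++ l2).map (fun p => (p.1 : ℂ) * opW p.2 v D)).sum, ?_, ?_⟩
  · intro D hD
    beta_reduce
    rw [opB_expand, h1, List.map_append, List.sum_append, List.map_cons, List.sum_cons,
      List.map_append, List.sum_append, proj0 N v hD]
    ring
  · have h3 := SB_Bd h (l1 ++ l2) hmem
    rw [hsum] at h3
    exact h3

private theorem SB_ip_add (N : ℕ) (v w w' : Vc) :
    ip N v (fun D => w D + w' D) = ip N v w + ip N v w' := by
  unfold ip
  rw [← Finset.sum_add_distrib]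
  exact Finset.sum_congr rfl fun D _ => by ring

private theorem SB_ip_smul (N : ℕ) (c : ℂ) (v w : Vc) :
    ip N v (fun D => c * w D) = c * ip N v w := by
  unfold ip
  rw [Finset.mul_sum]
  exact Finset.sum_congr rfl fun D _ => by ring

theorem ip_opB_vec {N : ℕ} {l : List (ℕ × ℝ)} (hl : Adl N l) {σ : ℕ → ℕ} (h : IsNC (2 * N + 2) σ) :
    ip N (v0 N) (opB l (vec N σ)) = 1 := by
  induction l generalizing σ with
  | nil => exact ip_vec h
  | cons t l ih =>
    have ht := hl t (List.mem_cons_self)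
    have hl' : Adl N l := fun u hu => hl u (List.mem_cons_of_mem _ hu)
    have e : hB t.1 t.2 (vec N σ) = fun D => (fun D => (1 - (t.2 : ℂ)) * vec N σ D) D +
        (fun D => (t.2 : ℂ) * vec N (act t.1 σ) D) D := by
      funext D
      unfold hB
      rw [vec_act h ht.1 ht.2.1]
    show ip N (v0 N) (opB l (hB t.1 t.2 (vec N σ))) = 1
    rw [e, opB_add, SB_ip_add, opB_smul, opB_smul, SB_ip_smul, SB_ip_smul, ih hl' h,
      ih hl' (act_nc h ht.1 (by have := ht.2.1; omega))]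
    ring

private theorem SB_hB {N : ℕ} {i : ℕ} {b : ℝ} (h1 : 1 ≤ i) (h2 : i ≤ 2 * N) (h3 : 0 ≤ b)
    (h4 : b ≤ 1) {v : Vc} {C : ℝ} (h : ∀ D ∈ sec N, ‖v D‖ ≤ C) :
    ∀ D ∈ sec N, ‖hB i b v D‖ ≤ 2 * C := by
  intro D hD
  have a1 := h D hD
  have a2 := h _ (swD_sec h1 h2 hD)
  have a0 : 0 ≤ C := (norm_nonneg _).trans a1
  have a3 : ‖QS.ee i v D‖ ≤ 2 * C := by
    unfold QS.ee
    by_cases c : (i ∈ D ↔ i + 1 ∈ D)
    · rw [if_pos c, norm_zero]
      linarith
    · rw [if_neg c]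
      refine (norm_add_le _ _).trans ?_
      rw [norm_mul]
      have a4 : ‖(if i ∈ D then (s ^ 2)⁻¹ else s ^ 2 : ℂ)‖ = 1 := by
        split_ifs
        · rw [norm_inv, norm_pow, s_norm, one_pow, inv_one]
        · rw [norm_pow, s_norm, one_pow]
      rw [a4, one_mul]
      linarith
  unfold hB
  refine (norm_add_le _ _).trans ?_
  have e1 : ‖(1 - (b : ℂ)) * v D‖ = (1 - b) * ‖v D‖ := by
    have e2 : (1 - (b : ℂ)) = ((1 - b : ℝ) : ℂ) := by push_cast; rfl
    rw [norm_mul, e2, Complex.norm_real, Real.norm_of_nonneg (by linarith)]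
  have e3 : ‖(b : ℂ) * QS.ee i v D‖ = b * ‖QS.ee i v D‖ := by
    rw [norm_mul, Complex.norm_real, Real.norm_of_nonneg h3]
  rw [e1, e3]
  have a5 : (1 - b) * ‖v D‖ ≤ (1 - b) * (2 * C) :=
    mul_le_mul_of_nonneg_left (by linarith) (by linarith)
  have a6 : b * ‖QS.ee i v D‖ ≤ b * (2 * C) := mul_le_mul_of_nonneg_left a3 h3
  linarith

private theorem SB_opB {N : ℕ} {l : List (ℕ × ℝ)} (hl : Adl N l) : ∀ (v : Vc) (C : ℝ),
    (∀ D ∈ sec N, ‖v D‖ ≤ C) → ∀ D ∈ sec N, ‖opB l v D‖ ≤ 2 ^ l.length * C := by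
  induction l with
  | nil =>
    intro v C h D hD
    have h1 := h D hD
    show ‖v D‖ ≤ 2 ^ 0 * C
    rw [pow_zero, one_mul]
    exact h1
  | cons t l ih =>
    intro v C h D hD
    have ht := hl t (List.mem_cons_self)
    have hl' : Adl N l := fun u hu => hl u (List.mem_cons_of_mem _ hu)
    have h1 := ih hl' (hB t.1 t.2 v) (2 * C) (SB_hB ht.1 ht.2.1 ht.2.2.1 ht.2.2.2 h) D hD
    rw [List.length_cons, pow_succ]
    show ‖opB l (hB t.1 t.2 v) D‖ ≤ 2 ^ l.length * 2 * C
    rw [mul_assoc]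
    exact h1

private theorem SB_dEs (N i : ℕ) {v : Vc} {C : ℝ} (h : ∀ D ∈ sec N, ‖v D‖ ≤ C) :
    ∀ D ∈ sec N, ‖dEs i v D‖ ≤ C := by
  intro D hD
  have a1 := h D hD
  have a0 : 0 ≤ C := (norm_nonneg _).trans a1
  unfold dEs
  rw [norm_mul]
  split_ifs
  · rw [norm_zero, zero_mul]
    exact a0
  · rw [norm_neg, norm_one, one_mul]
    exact a1
  · rw [norm_pow, s_norm, one_pow, one_mul]
    exact a1

/-- bound of the derivative operator: some constant `K` depending on `N` and `l` -/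
theorem dB_bd (N : ℕ) {l : List (ℕ × ℝ)} (hl : Adl N l) : ∃ K : ℝ, 0 ≤ K ∧ ∀ (v : Vc) (C : ℝ), (∀ D ∈ sec N, ‖v D‖ ≤ C) →
    ∀ D ∈ sec N, ‖dB l v D‖ ≤ K * C := by
  induction l with
  | nil =>
    refine ⟨0, le_refl _, fun v C _ D _ => ?_⟩
    show ‖(0 : ℂ)‖ ≤ 0 * C
    rw [norm_zero, zero_mul]
  | cons t l ih =>
    have ht := hl t (List.mem_cons_self)
    have hl' : Adl N l := fun u hu => hl u (List.mem_cons_of_mem _ hu)
    obtain ⟨K, hK, h1⟩ := ih hl'
    refine ⟨K * 2 + 2 ^ l.length, by positivity, fun v C h D hD => ?_⟩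
    have a1 := h1 (hB t.1 t.2 v) (2 * C) (SB_hB ht.1 ht.2.1 ht.2.2.1 ht.2.2.2 h) D hD
    have a2 := SB_opB hl' (dEs t.1 v) C (SB_dEs N t.1 h) D hD
    show ‖dB l (hB t.1 t.2 v) D + (t.2 : ℂ) * opB l (dEs t.1 v) D‖ ≤ _
    refine (norm_add_le _ _).trans ?_
    rw [norm_mul, Complex.norm_real, Real.norm_of_nonneg ht.2.2.1]
    have a3 : t.2 * ‖opB l (dEs t.1 v) D‖ ≤ 1 * ‖opB l (dEs t.1 v) D‖ :=
      mul_le_mul_of_nonneg_right ht.2.2.2 (norm_nonneg _)
    rw [one_mul] at a3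
    calc ‖dB l (hB t.1 t.2 v) D‖ + t.2 * ‖opB l (dEs t.1 v) D‖
        ≤ K * (2 * C) + 2 ^ l.length * C := add_le_add a1 (a3.trans a2)
      _ = (K * 2 + 2 ^ l.length) * C := by ring

end NX
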