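import Pool.Agent.Lib.MP_216314_pr.N.SB

/-!
# From the eigenvector to the limit

Let `Goodl N l δ`, `A = opB l`, `A Ψ = Ψ` on the sector, `ip Ψ Ψ ≠ 0`, `κ = ip v0 Ψ`, `θ = 1 - δ ∈ [0, 1)`. Imitate `QS.spec` (`S/SSpec.lean`).
`decay`: `x m = Ψ - κ A^m v0`: `ip v0 (x m) = 0` (symmetry, `A Ψ = Ψ`; `ip v0 (A^m v0) = 1`, `ip_opB_vec` with `v0 = vec N sg0`) and `x (m+1) = A (x m)` on the sector, so by `opB_rest` `Bd (x (m+1)) (θ * bound)`.
`kappa`: `ip Ψ Ψ = κ^2` (`ip (A^m v0) (A^m v0) = ip v0 (A^(2m) v0) = 1`, let `m → ∞`).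
`word_inv`: `ip Ψ (opW w Ψ) = lim κ² ip (A^m v0) (opW w (A^m v0))` and `ip (A^m v0) (opW w (A^m v0)) = ip v0 (A^m (opW w (A^m v0))) = 1`, since `opW w (A^m v0)` is `opB` of the list `rep l m ++ (letters of w with probability one)` applied to `v0`.
-/

set_option autoImplicit false

noncomputable section

namespace NX

open Finset QS

theorem SC_bound {n : ℕ} {v w : Vc} {A B : ℝ} (hA : ∀ D ∈ sec n, ‖v D‖ ≤ A) (hB : ∀ D ∈ sec n, ‖w D‖ ≤ B) :
    ‖ip n v w‖ ≤ (sec n).card * (A * B) := by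
  unfold ip
  refine (norm_sum_le _ _).trans ?_
  have h1 : ∀ D ∈ sec n, ‖v D * w D‖ ≤ A * B := by
    intro D hD
    rw [norm_mul]
    exact mul_le_mul (hA D hD) (hB D hD) (norm_nonneg _) ((norm_nonneg _).trans (hA D hD))
  refine (sum_le_sum h1).trans (le_of_eq ?_)
  rw [sum_const, nsmul_eq_mul]

theorem SC_lin (n : ℕ) (c : ℂ) (v v' w w' : Vc) :
    ip n (fun D => c * v D + v' D) (fun D => c * w D + w' D) =
      c ^ 2 * ip n v w + (c * ip n v w' + c * ip n v' w + ip n v' w') := by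
  unfold ip
  simp only [mul_sum, ← sum_add_distrib]
  exact sum_congr rfl (fun D _ => by ring)

theorem SC_right (n : ℕ) (c : ℂ) (v w w' : Vc) :
    ip n v (fun D => w D + c * w' D) = ip n v w + c * ip n v w' := by
  unfold ip
  simp only [mul_sum, ← sum_add_distrib]
  exact sum_congr rfl (fun D _ => by ring)

theorem SC_lim {f : ℕ → ℂ} {K θ : ℝ} (h0 : 0 ≤ θ) (h1 : θ < 1) (h : ∀ m, ‖f m‖ ≤ θ ^ m * K) :
    Filter.Tendsto f Filter.atTop (nhds 0) := by
  refine squeeze_zero_norm h ?_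
  have h2 := (tendsto_pow_atTop_nhds_zero_of_lt_one h0 h1).mul_const K
  rwa [zero_mul] at h2

theorem SC_rep (l : List (ℕ × ℝ)) (m : ℕ) (v : Vc) : opB (rep l m) v = (opB l)^[m] v := by
  induction m generalizing v with
  | zero =>
    rw [rep_zero]
    rfl
  | succ m ih =>
    rw [rep_succ, opB_append, ih, Function.iterate_succ_apply]

theorem SC_succ (l : List (ℕ × ℝ)) (m : ℕ) (v : Vc) : opB (rep l (m + 1)) v = opB l (opB (rep l m) v) := by
  rw [SC_rep, SC_rep, Function.iterate_succ_apply']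

theorem SC_symm {N : ℕ} {l : List (ℕ × ℝ)} {δ : ℝ} (hl : Goodl N l δ) (m : ℕ) (v w : Vc) :
    ip N v (opB (rep l m) w) = ip N (opB (rep l m) v) w := by
  rw [SC_rep, SC_rep]
  induction m generalizing v w with
  | zero => rfl
  | succ m ih => rw [Function.iterate_succ_apply', hl.sym, ih, Function.iterate_succ_apply]

theorem SC_one {N : ℕ} {l : List (ℕ × ℝ)} (hl : Adl N l) : ip N (v0 N) (opB l (v0 N)) = 1 :=
  ip_opB_vec hl (sg0_nc N)

theorem decay {N : ℕ} {l : List (ℕ × ℝ)} {δ : ℝ} (hl : Goodl N l δ) (Ψ : Vc) (h : ∀ D ∈ sec N, opB l Ψ D = Ψ D) :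
    ∃ C : ℝ, 0 ≤ C ∧ ∀ m : ℕ, Bd N (fun D => Ψ D - ip N (v0 N) Ψ * opB (rep l m) (v0 N) D) (C * (1 - δ) ^ m) := by
  set κ : ℂ := ip N (v0 N) Ψ with hκ
  set g : ℕ → Vc := fun m => opB (rep l m) (v0 N) with hg
  set x : ℕ → Vc := fun m D => Ψ D + (-κ) * g m D with hx
  refine ⟨∑ D ∈ sec N, ‖x 0 D‖, sum_nonneg (fun D _ => norm_nonneg _), ?_⟩
  have hxe : ∀ m, (fun D => Ψ D - κ * opB (rep l m) (v0 N) D) = x m := by
    intro m
    funext D
    show Ψ D - κ * opB (rep l m) (v0 N) D = Ψ D + (-κ) * opB (rep l m) (v0 N) D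
    ring
  have hA : ∀ m, ip N (v0 N) (x m) = 0 := by
    intro m
    have e : ip N (v0 N) (x m) = ip N (v0 N) Ψ + (-κ) * ip N (v0 N) (g m) := SC_right N (-κ) (v0 N) Ψ (g m)
    have e1 : ip N (v0 N) (g m) = 1 := SC_one (adl_rep hl.adl m)
    rw [e, e1, ← hκ]
    ring
  have hB : ∀ m, ∀ D ∈ sec N, x (m + 1) D = opB l (x m) D := by
    intro m D hD
    have e1 : opB l (x m) = fun D => opB l Ψ D + (-κ) * opB l (g m) D := by
      show opB l (fun D => Ψ D + (-κ) * g m D) = _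
      rw [opB_add l Ψ (fun D => (-κ) * g m D), opB_smul]
    rw [e1]
    show Ψ D + (-κ) * g (m + 1) D = opB l Ψ D + (-κ) * opB l (g m) D
    have e2 : g (m + 1) = opB l (g m) := SC_succ l m (v0 N)
    rw [h D hD, e2]
  intro m
  rw [hxe m]
  induction m with
  | zero =>
    rw [pow_zero, mul_one]
    exact Bd_sum N (x 0)
  | succ m ih =>
    obtain ⟨r, hr1, hr2⟩ := opB_rest hl ih
    have e : ∀ D ∈ sec N, x (m + 1) D = r D := by
      intro D hD
      rw [hB m D hD, hr1 D hD, hA m]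
      ring
    intro w hw D hD
    rw [opW_sec w hw e D hD]
    refine (hr2 w hw D hD).trans (le_of_eq ?_)
    rw [pow_succ]
    ring

theorem SC_key {N : ℕ} {l : List (ℕ × ℝ)} {δ : ℝ} (hl : Goodl N l δ) (Ψ : Vc) (h : ∀ D ∈ sec N, opB l Ψ D = Ψ D)
    (L : Vc → Vc) (hL : ∀ (c : ℂ) (v w : Vc), L (fun D => c * v D + w D) = fun D => c * L v D + L w D)
    (hb : ∀ (v : Vc) (C : ℝ), Bd N v C → ∀ D ∈ sec N, ‖L v D‖ ≤ C)
    (hone : ∀ m, ip N (opB (rep l m) (v0 N)) (L (opB (rep l m) (v0 N))) = 1) :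
    ip N Ψ (L Ψ) = (ip N (v0 N) Ψ) ^ 2 := by
  obtain ⟨C, hC, hdec⟩ := decay hl Ψ h
  have hδ0 := hl.pos
  have hδ1 := hl.le_one
  set κ : ℂ := ip N (v0 N) Ψ with hκ
  set g : ℕ → Vc := fun m => opB (rep l m) (v0 N) with hg
  set x : ℕ → Vc := fun m D => Ψ D - κ * g m D with hx
  set θ : ℝ := 1 - δ with hθ
  have hθ0 : 0 ≤ θ := by rw [hθ]; linarith
  have hθ1 : θ < 1 := by rw [hθ]; linarith
  have hxB : ∀ m, Bd N (x m) (C * θ ^ m) := hdec
  set C0 : ℝ := ∑ D ∈ sec N, ‖v0 N D‖ with hC0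
  have hgB : ∀ m, Bd N (g m) C0 := fun m => opB_bd (adl_rep hl.adl m) (Bd_sum N (v0 N))
  have hΨ : ∀ m, Ψ = fun D => κ * g m D + x m D := by
    intro m
    funext D
    show Ψ D = κ * g m D + (Ψ D - κ * g m D)
    ring
  have hpw : ∀ m, θ ^ m ≤ 1 := fun m => pow_le_one₀ hθ0 hθ1.le
  have hpw0 : ∀ m, 0 ≤ θ ^ m := fun m => pow_nonneg hθ0 m
  have t1 : Filter.Tendsto (fun m => ip N (g m) (L (x m))) Filter.atTop (nhds 0) := by
    refine SC_lim (K := (sec N).card * (C0 * C)) hθ0 hθ1 (fun m => ?_)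
    refine (SC_bound (fun D hD => Bd_le (hgB m) hD) (hb _ _ (hxB m))).trans (le_of_eq (by ring))
  have t2 : Filter.Tendsto (fun m => ip N (x m) (L (g m))) Filter.atTop (nhds 0) := by
    refine SC_lim (K := (sec N).card * (C * C0)) hθ0 hθ1 (fun m => ?_)
    refine (SC_bound (fun D hD => Bd_le (hxB m) hD) (hb _ _ (hgB m))).trans (le_of_eq (by ring))
  have t3 : Filter.Tendsto (fun m => ip N (x m) (L (x m))) Filter.atTop (nhds 0) := by
    refine SC_lim (K := (sec N).card * (C * C)) hθ0 hθ1 (fun m => ?_)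
    refine (SC_bound (fun D hD => Bd_le (hxB m) hD) (hb _ _ (hxB m))).trans ?_
    have q : C * θ ^ m * (C * θ ^ m) ≤ θ ^ m * (C * C) := by
      calc C * θ ^ m * (C * θ ^ m) = θ ^ m * (θ ^ m * (C * C)) := by ring
        _ ≤ 1 * (θ ^ m * (C * C)) :=
          mul_le_mul_of_nonneg_right (hpw m) (mul_nonneg (hpw0 m) (mul_nonneg hC hC))
        _ = θ ^ m * (C * C) := one_mul _
    calc ((sec N).card : ℝ) * (C * θ ^ m * (C * θ ^ m)) ≤ (sec N).card * (θ ^ m * (C * C)) :=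
          mul_le_mul_of_nonneg_left q (Nat.cast_nonneg _)
      _ = θ ^ m * ((sec N).card * (C * C)) := by ring
  have t4 := ((t1.const_mul κ).add (t2.const_mul κ)).add t3
  have e1 : ∀ m, ip N Ψ (L Ψ) = κ ^ 2 + (κ * ip N (g m) (L (x m)) + κ * ip N (x m) (L (g m)) + ip N (x m) (L (x m))) := by
    intro m
    have q := SC_lin N κ (g m) (x m) (L (g m)) (L (x m))
    have o : (fun D => κ * L (g m) D + L (x m) D) = L Ψ := by
      have o1 := hL κ (g m) (x m)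
      rw [← hΨ m] at o1
      exact o1.symm
    rw [o, ← hΨ m] at q
    have e : ip N (g m) (L (g m)) = 1 := hone m
    rw [e, mul_one] at q
    exact q
  have t5 := t4.const_add (κ ^ 2)
  have t6 : Filter.Tendsto (fun _ : ℕ => ip N Ψ (L Ψ)) Filter.atTop (nhds (κ ^ 2 + (κ * 0 + κ * 0 + 0))) := by
    refine t5.congr (fun m => ?_)
    exact (e1 m).symm
  have t7 := tendsto_nhds_unique tendsto_const_nhds t6
  rw [t7]
  ring

theorem kappa {N : ℕ} {l : List (ℕ × ℝ)} {δ : ℝ} (hl : Goodl N l δ) (Ψ : Vc) (h : ∀ D ∈ sec N, opB l Ψ D = Ψ D) :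
    ip N Ψ Ψ = (ip N (v0 N) Ψ) ^ 2 := by
  refine SC_key hl Ψ h (fun v => v) (fun c v w => rfl) (fun v C hv D hD => Bd_le hv hD) (fun m => ?_)
  show ip N (opB (rep l m) (v0 N)) (opB (rep l m) (v0 N)) = 1
  rw [← SC_symm hl m, ← opB_append]
  refine SC_one ?_
  intro t ht
  rcases List.mem_append.mp ht with h1 | h1
  · exact adl_rep hl.adl m t h1
  · exact adl_rep hl.adl m t h1

theorem SC_word (w : List ℕ) (v : Vc) : opB (w.map (fun i => (i, (1 : ℝ)))) v = opW w v := by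
  induction w generalizing v with
  | nil => rfl
  | cons i w ih =>
    show opB (w.map (fun i => (i, (1 : ℝ)))) (hB i 1 v) = opW w (QS.ee i v)
    have e : hB i 1 v = QS.ee i v := by
      funext D
      unfold hB
      simp
    rw [e, ih]

theorem word_inv {N : ℕ} {l : List (ℕ × ℝ)} {δ : ℝ} (hl : Goodl N l δ) (Ψ : Vc) (h : ∀ D ∈ sec N, opB l Ψ D = Ψ D)
    (w : List ℕ) (hw : ∀ i ∈ w, 1 ≤ i ∧ i ≤ 2 * N) : ip N Ψ (opW w Ψ) = ip N Ψ Ψ := by
  rw [kappa hl Ψ h]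
  refine SC_key hl Ψ h (opW w) (fun c v v' => ?_) (fun v C hv D hD => hv w hw D hD) (fun m => ?_)
  · rw [opW_add w (fun D => c * v D) v', opW_smul]
  · rw [← SC_symm hl m, ← SC_word, ← opB_append, ← opB_append]
    refine SC_one ?_
    intro t ht
    rcases List.mem_append.mp ht with h1 | h1
    · exact adl_rep hl.adl m t h1
    · rcases List.mem_append.mp h1 with h2 | h2
      · obtain ⟨i, hi, rfl⟩ := List.mem_map.mp h2
        exact ⟨(hw i hi).1, (hw i hi).2, zero_le_one, le_refl _⟩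
      · exact adl_rep hl.adl m t h2

end NX
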