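import Pool.Agent.Lib.MP_216314_pr.N.SC

/-!
# Linear growth of the derivative

Notation of `SC.lean`. By `dB_append`, `dB (rep l m) v0 = ∑_{j<m} A^(m-1-j) (dB l (A^j v0))` (induction on `m`). Pair with `v0`, use the symmetry: the `j`-th term is `ip (A^(m-1-j) v0) (dB l (A^j v0))`. By `decay`, `A^k v0 = κ⁻¹ Ψ + O(θ^k)` on the sector (`κ ≠ 0` by `kappa`), all vectors bounded,
`dB l` is linear and bounded (`dB_bd`, `dB_sec`), so the `j`-th term is `κ^(-2) ip Ψ (dB l Ψ) + O(θ^j + θ^(m-1-j))`, and `∑_j (θ^j + θ^(m-1-j)) ≤ 2/(1-θ)`.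
-/

set_option autoImplicit false

noncomputable section

namespace NX

open Finset QS

theorem SD_bound {n : ℕ} {v w : Vc} {A B : ℝ} (hA : ∀ D ∈ sec n, ‖v D‖ ≤ A) (hB : ∀ D ∈ sec n, ‖w D‖ ≤ B) :
    ‖ip n v w‖ ≤ (sec n).card * (A * B) := by
  unfold ip
  refine (norm_sum_le _ _).trans ?_
  have h1 : ∀ D ∈ sec n, ‖v D * w D‖ ≤ A * B := by
    intro D hD
    rw [norm_mul]
    exact mul_le_mul (hA D hD) (hB D hD) (norm_nonneg _) ((norm_nonneg _).trans (hA D hD))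
  refine (sum_le_sum h1).trans (le_of_eq ?_)
  rw [sum_const, nsmul_eq_mul]

theorem SD_ipadd (n : ℕ) (v w w' : Vc) :
    ip n v (fun D => w D + w' D) = ip n v w + ip n v w' := by
  unfold ip
  simp only [← sum_add_distrib]
  exact sum_congr rfl (fun D _ => by ring)

theorem SD_rep (l : List (ℕ × ℝ)) (m : ℕ) (v : Vc) : opB (rep l m) v = (opB l)^[m] v := by
  induction m generalizing v with
  | zero =>
    rw [rep_zero]
    rfl
  | succ m ih =>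
    rw [rep_succ, opB_append, ih, Function.iterate_succ_apply]

theorem SD_symm {N : ℕ} {l : List (ℕ × ℝ)} {δ : ℝ} (hl : Goodl N l δ) (m : ℕ) (v w : Vc) :
    ip N v (opB (rep l m) w) = ip N (opB (rep l m) v) w := by
  rw [SD_rep, SD_rep]
  induction m generalizing v w with
  | zero => rfl
  | succ m ih => rw [Function.iterate_succ_apply', hl.sym, ih, Function.iterate_succ_apply]

theorem SD_expand {N : ℕ} {l : List (ℕ × ℝ)} {δ : ℝ} (hl : Goodl N l δ) (u : Vc) (m : ℕ) (v : Vc) :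
    ip N u (dB (rep l m) v) =
      ∑ j ∈ range m, ip N (opB (rep l (m - 1 - j)) u) (dB l (opB (rep l j) v)) := by
  induction m generalizing v with
  | zero =>
    rw [rep_zero, sum_range_zero]
    unfold ip
    refine sum_eq_zero fun D _ => ?_
    show u D * 0 = 0
    rw [mul_zero]
  | succ m ih =>
    rw [rep_succ, dB_append, SD_ipadd, ih, SD_symm hl, sum_range_succ']
    have e0 : opB (rep l 0) v = v := by
      rw [rep_zero]
      rfl
    have e1 : ∀ j ∈ range m, ip N (opB (rep l (m - 1 - j)) u) (dB l (opB (rep l j) (opB l v))) =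
        ip N (opB (rep l (m + 1 - 1 - (j + 1))) u) (dB l (opB (rep l (j + 1)) v)) := by
      intro j _
      have e2 : m - 1 - j = m + 1 - 1 - (j + 1) := by omega
      rw [rep_succ, opB_append, e2]
    rw [sum_congr rfl e1, e0]
    rfl

theorem SD_term (n : ℕ) (c : ℂ) (Ψ x dΨ dx : Vc) :
    ip n (fun D => c * (Ψ D - x D)) (fun D => c * (dΨ D - dx D)) - c ^ 2 * ip n Ψ dΨ =
      c ^ 2 * (ip n x dx - ip n Ψ dx - ip n x dΨ) := by
  unfold ip
  simp only [mul_sum, ← sum_sub_distrib]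
  exact sum_congr rfl (fun D _ => by ring)

theorem SD_geom {θ δ : ℝ} (h0 : 0 ≤ θ) (hδ : 0 < δ) (h : θ = 1 - δ) (m : ℕ) :
    ∑ j ∈ range m, (θ ^ j + θ ^ (m - 1 - j)) ≤ 2 / δ := by
  rw [sum_add_distrib, sum_range_reflect (fun j => θ ^ j) m]
  have h1 : (∑ j ∈ range m, θ ^ j) * δ ≤ 1 := by
    have h2 := geom_sum_mul_neg θ m
    have h3 : 1 - θ = δ := by rw [h]; ring
    rw [h3] at h2
    rw [h2]
    have := pow_nonneg h0 m
    linarith
  rw [le_div_iff₀ hδ]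
  linarith

theorem lin_growth {N : ℕ} {l : List (ℕ × ℝ)} {δ : ℝ} (hl : Goodl N l δ) (Ψ : Vc) (h : ∀ D ∈ sec N, opB l Ψ D = Ψ D)
    (h0 : ip N Ψ Ψ ≠ 0) : ∃ C : ℝ, ∀ m : ℕ,
      ‖ip N (v0 N) (dB (rep l m) (v0 N)) - (m : ℂ) * (ip N Ψ (dB l Ψ) / ip N Ψ Ψ)‖ ≤ C := by
  obtain ⟨C, hC, hdec⟩ := decay hl Ψ h
  obtain ⟨K, hK, hdB⟩ := dB_bd N hl.adl
  have hδ0 := hl.pos
  have hδ1 := hl.le_one
  have hkap := kappa hl Ψ h
  set κ : ℂ := ip N (v0 N) Ψ with hκ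
  have hκ0 : κ ≠ 0 := by
    intro hz
    apply h0
    rw [hkap, hz]
    ring
  set g : ℕ → Vc := fun m => opB (rep l m) (v0 N) with hg
  set x : ℕ → Vc := fun m D => Ψ D - κ * g m D with hx
  set θ : ℝ := 1 - δ with hθ
  have hθ0 : 0 ≤ θ := by rw [hθ]; linarith
  have hθ1 : θ < 1 := by rw [hθ]; linarith
  have hxB : ∀ m, ∀ D ∈ sec N, ‖x m D‖ ≤ C * θ ^ m := fun m D hD => Bd_le (hdec m) hD
  set B : ℝ := ∑ D ∈ sec N, ‖Ψ D‖ with hB
  have hB0 : 0 ≤ B := sum_nonneg (fun D _ => norm_nonneg _)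
  have hΨB : ∀ D ∈ sec N, ‖Ψ D‖ ≤ B := fun D hD =>
    single_le_sum (f := fun D => ‖Ψ D‖) (fun D _ => norm_nonneg _) hD
  have hdΨ : ∀ D ∈ sec N, ‖dB l Ψ D‖ ≤ K * B := hdB Ψ B hΨB
  have hdx : ∀ m, ∀ D ∈ sec N, ‖dB l (x m) D‖ ≤ K * (C * θ ^ m) := fun m => hdB (x m) _ (hxB m)
  have hpw : ∀ m, θ ^ m ≤ 1 := fun m => pow_le_one₀ hθ0 hθ1.le
  have hpw0 : ∀ m, 0 ≤ θ ^ m := fun m => pow_nonneg hθ0 m
  have hgx : ∀ m, g m = fun D => κ⁻¹ * (Ψ D - x m D) := by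
    intro m
    funext D
    show g m D = κ⁻¹ * (Ψ D - (Ψ D - κ * g m D))
    rw [sub_sub_cancel, ← mul_assoc, inv_mul_cancel₀ hκ0, one_mul]
  have hdg : ∀ m, dB l (g m) = fun D => κ⁻¹ * (dB l Ψ D - dB l (x m) D) := by
    intro m
    rw [hgx m]
    have e1 : (fun D => κ⁻¹ * (Ψ D - x m D)) = fun D => κ⁻¹ * (Ψ D + (-1) * x m D) := by
      funext D
      ring
    rw [e1, dB_smul l κ⁻¹ (fun D => Ψ D + (-1) * x m D), dB_add l Ψ (fun D => (-1) * x m D), dB_smul]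
    funext D
    ring
  obtain ⟨E, hE⟩ : ∃ E : ℝ, E = ‖κ⁻¹ ^ 2‖ * ((sec N).card * (K * C * B + K * C * C)) := ⟨_, rfl⟩
  have hcard : (0 : ℝ) ≤ (sec N).card := Nat.cast_nonneg _
  have hKC : 0 ≤ K * C := mul_nonneg hK hC
  have hE0 : 0 ≤ E := by
    rw [hE]
    exact mul_nonneg (norm_nonneg _) (mul_nonneg hcard (add_nonneg (mul_nonneg hKC hB0) (mul_nonneg hKC hC)))
  have hterm : ∀ a j, ‖ip N (g a) (dB l (g j)) - κ⁻¹ ^ 2 * ip N Ψ (dB l Ψ)‖ ≤ E * (θ ^ j + θ ^ a) := by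
    intro a j
    have e1 : ip N (g a) (dB l (g j)) =
        ip N (fun D => κ⁻¹ * (Ψ D - x a D)) (fun D => κ⁻¹ * (dB l Ψ D - dB l (x j) D)) := by
      rw [← hgx a, ← hdg j]
    rw [e1, SD_term, norm_mul, hE, mul_assoc]
    apply mul_le_mul_of_nonneg_left _ (norm_nonneg _)
    have b1 := SD_bound (hxB a) (hdx j)
    have b2 := SD_bound hΨB (hdx j)
    have b3 := SD_bound (hxB a) hdΨ
    have b4 : ‖ip N (x a) (dB l (x j)) - ip N Ψ (dB l (x j)) - ip N (x a) (dB l Ψ)‖ ≤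
        ‖ip N (x a) (dB l (x j))‖ + ‖ip N Ψ (dB l (x j))‖ + ‖ip N (x a) (dB l Ψ)‖ := by
      refine (norm_sub_le _ _).trans ?_
      have := norm_sub_le (ip N (x a) (dB l (x j))) (ip N Ψ (dB l (x j)))
      linarith
    refine b4.trans ((add_le_add (add_le_add b1 b2) b3).trans ?_)
    have e2 : ((sec N).card : ℝ) * (C * θ ^ a * (K * (C * θ ^ j))) + (sec N).card * (B * (K * (C * θ ^ j))) +
        (sec N).card * (C * θ ^ a * (K * B)) =
        (sec N).card * (K * C * C * (θ ^ a * θ ^ j) + K * C * B * (θ ^ j + θ ^ a)) := by ring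
    rw [e2, mul_assoc ((sec N).card : ℝ)]
    apply mul_le_mul_of_nonneg_left _ hcard
    have h1 : θ ^ a * θ ^ j ≤ θ ^ j + θ ^ a := by
      have h2 : θ ^ a * θ ^ j ≤ 1 * θ ^ j := mul_le_mul_of_nonneg_right (hpw a) (hpw0 j)
      have := hpw0 a
      linarith
    have h3 : 0 ≤ K * C * C := mul_nonneg hKC hC
    have h4 := mul_le_mul_of_nonneg_left h1 h3
    linarith
  refine ⟨E * (2 / δ), fun m => ?_⟩
  have e3 : (m : ℂ) * (ip N Ψ (dB l Ψ) / ip N Ψ Ψ) = ∑ _j ∈ range m, κ⁻¹ ^ 2 * ip N Ψ (dB l Ψ) := by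
    rw [sum_const, card_range, nsmul_eq_mul, hkap, inv_pow, div_eq_inv_mul]
  rw [SD_expand hl (v0 N) m (v0 N), e3, ← sum_sub_distrib]
  refine (norm_sum_le _ _).trans ?_
  refine (sum_le_sum (fun j _ => hterm (m - 1 - j) j)).trans ?_
  rw [← mul_sum]
  exact mul_le_mul_of_nonneg_left (SD_geom hθ0 hδ0 hθ m) hE0

end NX
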