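import Pool.Agent.Lib.MP_216314_pr.N.SA
import Pool.Agent.Lib.MP_216314_pr.S.SThA

/-!
# Generic loop weight: spin vectors of noncrossing involutions

`eeG t`, `ThG t`: the generator and the spin vector with the parameter `t` in place of `s` (loop weight `t² + t⁻²`). `ThG_act`: adapt the proof of `QS.Th_act` (`S/SThA.lean`): if `σ i = i + 1` the vector is multiplied by the loop weight,
otherwise nothing changes in the argument (the weights are formal).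
-/

set_option autoImplicit false

noncomputable section

namespace NX

open Finset QS

/-- generator with parameter `t` -/
def eeG (t : ℂ) (i : ℕ) (v : Vc) : Vc := fun D =>
  if (i ∈ D ↔ i + 1 ∈ D) then 0 else (if i ∈ D then (t ^ 2)⁻¹ else t ^ 2) * v D + v (swD i D)

open Classical in
/-- spin vector with parameter `t` -/
def ThG (t : ℂ) (P : ℕ) (σ : ℕ → ℕ) : Vc := fun D =>
  if (∀ x ∈ Icc 1 P, (σ x ∈ D ↔ x ∉ D)) then
    ∏ x ∈ (Icc 1 P).filter (fun x => x < σ x), (if x ∈ D then t⁻¹ else t)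
  else 0

theorem eeG_s (i : ℕ) (v : Vc) : eeG s i v = QS.ee i v := rfl

theorem ThG_s (P : ℕ) (σ : ℕ → ℕ) : ThG s P σ = Th P σ := rfl

open Classical in
/-- factor of a point -/
private def SE_g (t : ℂ) (σ : ℕ → ℕ) (D : Finset ℕ) (x : ℕ) : ℂ := if x < σ x then (if x ∈ D then t⁻¹ else t) else 1

private theorem SE_pos {t : ℂ} {P : ℕ} {σ : ℕ → ℕ} {D : Finset ℕ} (h : ∀ x ∈ Icc 1 P, (σ x ∈ D ↔ x ∉ D)) :
    ThG t P σ D = ∏ x ∈ Icc 1 P, SE_g t σ D x := by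
  unfold ThG
  rw [if_pos h, prod_filter]
  refine prod_congr rfl fun x _ => ?_
  unfold SE_g
  split_ifs <;> rfl

private theorem SE_neg {t : ℂ} {P : ℕ} {σ : ℕ → ℕ} {D : Finset ℕ} (h : ¬ ∀ x ∈ Icc 1 P, (σ x ∈ D ↔ x ∉ D)) :
    ThG t P σ D = 0 := by
  unfold ThG
  rw [if_neg h]

/-- the remaining points -/
private def SE_E (P i j a b : ℕ) : Finset ℕ := ((((Icc 1 P).erase i).erase j).erase a).erase b

private theorem SE_mem {P i j a b x : ℕ} :
    x ∈ SE_E P i j a b ↔ x ≠ b ∧ x ≠ a ∧ x ≠ j ∧ x ≠ i ∧ x ∈ Icc 1 P := by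
  unfold SE_E
  simp only [mem_erase, ne_eq]

private theorem SE_prod {P i j a b : ℕ} (f : ℕ → ℂ) (hi : i ∈ Icc 1 P) (hj : j ∈ Icc 1 P) (ha : a ∈ Icc 1 P)
    (hb : b ∈ Icc 1 P) (h1 : j ≠ i) (h2 : a ≠ i) (h3 : a ≠ j) (h4 : b ≠ i) (h5 : b ≠ j) (h6 : b ≠ a) :
    ∏ x ∈ Icc 1 P, f x = f i * (f j * (f a * (f b * ∏ x ∈ SE_E P i j a b, f x))) := by
  unfold SE_E
  rw [mul_prod_erase _ _ (by simp only [mem_erase]; exact ⟨h6, h5, h4, hb⟩),
    mul_prod_erase _ _ (by simp only [mem_erase]; exact ⟨h3, h2, ha⟩),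
    mul_prod_erase _ _ (by simp only [mem_erase]; exact ⟨h1, hj⟩),
    mul_prod_erase _ _ hi]

open Classical in
private theorem SE_four {t : ℂ} {P i j a b : ℕ} (σ : ℕ → ℕ) (D : Finset ℕ) (hi : i ∈ Icc 1 P) (hj : j ∈ Icc 1 P)
    (ha : a ∈ Icc 1 P) (hb : b ∈ Icc 1 P) (h1 : j ≠ i) (h2 : a ≠ i) (h3 : a ≠ j) (h4 : b ≠ i) (h5 : b ≠ j)
    (h6 : b ≠ a) :
    ThG t P σ D = if ((σ i ∈ D ↔ i ∉ D) ∧ (σ j ∈ D ↔ j ∉ D) ∧ (σ a ∈ D ↔ a ∉ D) ∧ (σ b ∈ D ↔ b ∉ D) ∧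
      ∀ x ∈ SE_E P i j a b, (σ x ∈ D ↔ x ∉ D)) then
      SE_g t σ D i * (SE_g t σ D j * (SE_g t σ D a * (SE_g t σ D b * ∏ x ∈ SE_E P i j a b, SE_g t σ D x)))
      else 0 := by
  have key : (∀ x ∈ Icc 1 P, (σ x ∈ D ↔ x ∉ D)) ↔ ((σ i ∈ D ↔ i ∉ D) ∧ (σ j ∈ D ↔ j ∉ D) ∧
      (σ a ∈ D ↔ a ∉ D) ∧ (σ b ∈ D ↔ b ∉ D) ∧ ∀ x ∈ SE_E P i j a b, (σ x ∈ D ↔ x ∉ D)) := by
    constructor
    · intro H
      exact ⟨H i hi, H j hj, H a ha, H b hb, fun x hx => H x (SE_mem.1 hx).2.2.2.2⟩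
    · rintro ⟨H1, H2, H3, H4, H5⟩ x hx
      by_cases e1 : x = i
      · rw [e1]; exact H1
      by_cases e2 : x = j
      · rw [e2]; exact H2
      by_cases e3 : x = a
      · rw [e3]; exact H3
      by_cases e4 : x = b
      · rw [e4]; exact H4
      exact H5 x (SE_mem.2 ⟨e4, e3, e2, e1, hx⟩)
  by_cases hC : ∀ x ∈ Icc 1 P, (σ x ∈ D ↔ x ∉ D)
  · rw [SE_pos hC, if_pos (key.1 hC)]
    exact SE_prod _ hi hj ha hb h1 h2 h3 h4 h5 h6
  · rw [SE_neg hC, if_neg (fun g => hC (key.2 g))]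

private theorem SE_eq {t : ℂ} (ht : t ≠ 0) {P i : ℕ} {σ : ℕ → ℕ} (h : IsNC P σ) (h1 : 1 ≤ i) (h2 : i < P) (h0 : σ i = i + 1) :
    eeG t i (ThG t P σ) = fun D => (t ^ 2 + (t ^ 2)⁻¹) * ThG t P σ D := by
  classical
  funext D
  have a4 := (h.1 i h1 (by omega)).2.2.2
  have hj : σ (i + 1) = i := by rwa [h0] at a4
  have hi' : i ∈ Icc 1 P := mem_Icc.2 ⟨h1, by omega⟩
  have hj' : i + 1 ∈ Icc 1 P := mem_Icc.2 ⟨by omega, by omega⟩
  -- product over the other points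
  have hprod : ∀ f : ℕ → ℂ, ∏ x ∈ Icc 1 P, f x = f i * (f (i + 1) * ∏ x ∈ ((Icc 1 P).erase i).erase (i + 1), f x) := by
    intro f
    rw [mul_prod_erase _ _ (by simp only [mem_erase]; exact ⟨by omega, hj'⟩), mul_prod_erase _ _ hi']
  have hR : ∏ x ∈ ((Icc 1 P).erase i).erase (i + 1), SE_g t σ (swD i D) x =
      ∏ x ∈ ((Icc 1 P).erase i).erase (i + 1), SE_g t σ D x := by
    refine prod_congr rfl fun x hx => ?_
    simp only [mem_erase] at hx
    unfold SE_g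
    have e : (x ∈ swD i D) = (x ∈ D) := propext (mem_swD_ne hx.2.1 hx.1)
    simp only [e]
  have hcomp : (∀ x ∈ Icc 1 P, (σ x ∈ swD i D ↔ x ∉ swD i D)) ↔ (∀ x ∈ Icc 1 P, (σ x ∈ D ↔ x ∉ D)) := by
    refine forall₂_congr fun x hx => ?_
    by_cases e1 : x = i
    · rw [e1, h0, mem_swD_left, mem_swD_right]
      tauto
    by_cases e2 : x = i + 1
    · rw [e2, hj, mem_swD_left, mem_swD_right]
      tauto
    have hx' := mem_Icc.1 hx
    have e3 := (h.1 x hx'.1 hx'.2).2.2.2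
    have e4 : σ x ≠ i := by
      intro g
      rw [g, h0] at e3
      exact e2 e3.symm
    have e5 : σ x ≠ i + 1 := by
      intro g
      rw [g, hj] at e3
      exact e1 e3.symm
    rw [mem_swD_ne e1 e2, mem_swD_ne e4 e5]
  show (if (i ∈ D ↔ i + 1 ∈ D) then 0 else (if i ∈ D then (t ^ 2)⁻¹ else t ^ 2) * ThG t P σ D + ThG t P σ (swD i D)) =
    (t ^ 2 + (t ^ 2)⁻¹) * ThG t P σ D
  by_cases hC : ∀ x ∈ Icc 1 P, (σ x ∈ D ↔ x ∉ D)
  · have hu := hC i hi'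
    rw [h0] at hu
    rw [SE_pos hC, SE_pos (hcomp.2 hC), hprod, hprod, hR]
    have g1 : SE_g t σ D (i + 1) = 1 := by
      unfold SE_g
      rw [if_neg (by rw [hj]; omega)]
    have g2 : SE_g t σ (swD i D) (i + 1) = 1 := by
      unfold SE_g
      rw [if_neg (by rw [hj]; omega)]
    have g3 : SE_g t σ D i = if i ∈ D then t⁻¹ else t := by
      unfold SE_g
      rw [if_pos (by rw [h0]; omega)]
    have g4 : SE_g t σ (swD i D) i = if i + 1 ∈ D then t⁻¹ else t := by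
      unfold SE_g
      rw [if_pos (by rw [h0]; omega)]
      simp only [mem_swD_left]
    rw [g1, g2, g3, g4]
    generalize ∏ x ∈ ((Icc 1 P).erase i).erase (i + 1), SE_g t σ D x = R

    have hs := ht
    by_cases hi : i ∈ D
    · have hj : i + 1 ∉ D := fun g => (hu.1 g) hi
      simp only [hi, hj, if_true, if_false, iff_false, not_true_eq_false, true_iff]
      field_simp
      ring
    · have hj : i + 1 ∈ D := hu.2 hi
      simp only [hi, hj, if_true, if_false, false_iff, not_true_eq_false]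
      field_simp
  · rw [SE_neg hC, SE_neg (fun g => hC (hcomp.1 g))]
    split_ifs
    · rw [mul_zero]
    · rw [mul_zero, add_zero, mul_zero]
    · rw [mul_zero, add_zero, mul_zero]

private theorem SE_alg {t : ℂ} (ht : t ≠ 0) (U V A B C : Prop) [Decidable U] [Decidable V] [Decidable A] [Decidable B] [Decidable C]
    (R : ℂ) :
    ((if (U ↔ V) then 0 else (if U then (t ^ 2)⁻¹ else t ^ 2) *
      (if ((A ↔ ¬U) ∧ (B ↔ ¬V) ∧ (U ↔ ¬A) ∧ (V ↔ ¬B) ∧ C) then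
        (1 : ℂ) * (1 * ((if A then t⁻¹ else t) * ((if B then t⁻¹ else t) * R))) else 0) +
      (if ((A ↔ ¬V) ∧ (B ↔ ¬U) ∧ (V ↔ ¬A) ∧ (U ↔ ¬B) ∧ C) then
        (1 : ℂ) * (1 * ((if A then t⁻¹ else t) * ((if B then t⁻¹ else t) * R))) else 0)) =
      if ((V ↔ ¬U) ∧ (U ↔ ¬V) ∧ (B ↔ ¬A) ∧ (A ↔ ¬B) ∧ C) then
        (if U then t⁻¹ else t) * (1 * (1 * ((if B then t⁻¹ else t) * R))) else 0) ∧
    ((if (U ↔ V) then 0 else (if U then (t ^ 2)⁻¹ else t ^ 2) *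
      (if ((A ↔ ¬U) ∧ (B ↔ ¬V) ∧ (U ↔ ¬A) ∧ (V ↔ ¬B) ∧ C) then
        (1 : ℂ) * ((if V then t⁻¹ else t) * ((if A then t⁻¹ else t) * (1 * R))) else 0) +
      (if ((A ↔ ¬V) ∧ (B ↔ ¬U) ∧ (V ↔ ¬A) ∧ (U ↔ ¬B) ∧ C) then
        (1 : ℂ) * ((if U then t⁻¹ else t) * ((if A then t⁻¹ else t) * (1 * R))) else 0)) =
      if ((V ↔ ¬U) ∧ (U ↔ ¬V) ∧ (B ↔ ¬A) ∧ (A ↔ ¬B) ∧ C) then
        (if U then t⁻¹ else t) * (1 * ((if A then t⁻¹ else t) * (1 * R))) else 0) ∧
    ((if (U ↔ V) then 0 else (if U then (t ^ 2)⁻¹ else t ^ 2) *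
      (if ((A ↔ ¬U) ∧ (B ↔ ¬V) ∧ (U ↔ ¬A) ∧ (V ↔ ¬B) ∧ C) then
        (if U then t⁻¹ else t) * ((if V then t⁻¹ else t) * (1 * (1 * R))) else 0) +
      (if ((A ↔ ¬V) ∧ (B ↔ ¬U) ∧ (V ↔ ¬A) ∧ (U ↔ ¬B) ∧ C) then
        (if V then t⁻¹ else t) * ((if U then t⁻¹ else t) * (1 * (1 * R))) else 0)) =
      if ((V ↔ ¬U) ∧ (U ↔ ¬V) ∧ (B ↔ ¬A) ∧ (A ↔ ¬B) ∧ C) then
        (if U then t⁻¹ else t) * (1 * (1 * ((if B then t⁻¹ else t) * R))) else 0) := by
  have hs := ht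
  by_cases hU : U <;> by_cases hV : V <;> by_cases hA : A <;> by_cases hB : B <;> by_cases hC : C <;>
    simp [hU, hV, hA, hB, hC] <;> field_simp <;> simp

private theorem SE_ne {t : ℂ} (ht : t ≠ 0) {P i : ℕ} {σ : ℕ → ℕ} (h : IsNC P σ) (h1 : 1 ≤ i) (h2 : i < P) (h0 : σ i ≠ i + 1) :
    eeG t i (ThG t P σ) = ThG t P (act i σ) := by
  classical
  funext D
  obtain ⟨a1, a2, a3, a4⟩ := h.1 i h1 (by omega)
  obtain ⟨b1, b2, b3, b4⟩ := h.1 (i + 1) (by omega) (by omega)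
  have hb : σ (i + 1) ≠ i := by
    intro g
    rw [g] at b4
    exact h0 b4
  have hab : σ (i + 1) ≠ σ i := by
    intro g
    rw [← g, b4] at a4
    omega
  obtain ⟨a, ha⟩ : ∃ a, a = σ i := ⟨_, rfl⟩
  obtain ⟨b, hb'⟩ : ∃ b, b = σ (i + 1) := ⟨_, rfl⟩
  rw [← ha] at a1 a2 a3 a4 h0
  rw [← hb'] at b1 b2 b3 b4 hb
  rw [← ha, ← hb'] at hab
  have mi : i ∈ Icc 1 P := mem_Icc.2 ⟨h1, by omega⟩
  have mj : i + 1 ∈ Icc 1 P := mem_Icc.2 ⟨by omega, by omega⟩
  have ma : a ∈ Icc 1 P := mem_Icc.2 ⟨a1, a2⟩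
  have mb : b ∈ Icc 1 P := mem_Icc.2 ⟨b1, b2⟩
  have ti : act i σ i = i + 1 := by
    unfold act
    rw [← ha, if_neg h0, if_pos rfl]
  have tj : act i σ (i + 1) = i := by
    unfold act
    rw [← ha, if_neg h0, if_neg (by omega), if_pos rfl]
  have ta : act i σ a = b := by
    unfold act
    rw [← ha, ← hb', if_neg h0, if_neg a3, if_neg h0, if_pos rfl]
  have tb : act i σ b = a := by
    unfold act
    rw [← ha, ← hb', if_neg h0, if_neg hb, if_neg b3, if_neg hab, if_pos rfl]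
  have tx : ∀ x ∈ SE_E P i (i + 1) a b, act i σ x = σ x := by
    intro x hx
    obtain ⟨e1, e2, e3, e4, _⟩ := SE_mem.1 hx
    unfold act
    rw [← ha, ← hb', if_neg h0, if_neg e4, if_neg e3, if_neg e2, if_neg e1]
  have hsw : ∀ x ∈ SE_E P i (i + 1) a b, (x ∈ swD i D ↔ x ∈ D) ∧ (σ x ∈ swD i D ↔ σ x ∈ D) := by
    intro x hx
    obtain ⟨e1, e2, e3, e4, e5⟩ := SE_mem.1 hx
    have hx' := mem_Icc.1 e5
    have e6 := (h.1 x hx'.1 hx'.2).2.2.2
    refine ⟨mem_swD_ne e4 e3, mem_swD_ne ?_ ?_⟩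
    · intro g
      rw [g, ← ha] at e6
      exact e2 e6.symm
    · intro g
      rw [g, ← hb'] at e6
      exact e1 e6.symm
  have c1 : (∀ x ∈ SE_E P i (i + 1) a b, (σ x ∈ swD i D ↔ x ∉ swD i D)) ↔
      (∀ x ∈ SE_E P i (i + 1) a b, (σ x ∈ D ↔ x ∉ D)) := by
    refine forall₂_congr fun x hx => ?_
    rw [(hsw x hx).1, (hsw x hx).2]
  have c2 : (∀ x ∈ SE_E P i (i + 1) a b, (act i σ x ∈ D ↔ x ∉ D)) ↔
      (∀ x ∈ SE_E P i (i + 1) a b, (σ x ∈ D ↔ x ∉ D)) := by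
    refine forall₂_congr fun x hx => ?_
    rw [tx x hx]
  have p1 : ∏ x ∈ SE_E P i (i + 1) a b, SE_g t σ (swD i D) x = ∏ x ∈ SE_E P i (i + 1) a b, SE_g t σ D x := by
    refine prod_congr rfl fun x hx => ?_
    unfold SE_g
    have e : (x ∈ swD i D) = (x ∈ D) := propext (hsw x hx).1
    simp only [e]
  have p2 : ∏ x ∈ SE_E P i (i + 1) a b, SE_g t (act i σ) D x = ∏ x ∈ SE_E P i (i + 1) a b, SE_g t σ D x := by
    refine prod_congr rfl fun x hx => ?_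
    unfold SE_g
    rw [tx x hx]
  have ea : a ∈ swD i D ↔ a ∈ D := mem_swD_ne a3 h0
  have eb : b ∈ swD i D ↔ b ∈ D := mem_swD_ne hb b3
  show (if (i ∈ D ↔ i + 1 ∈ D) then 0 else (if i ∈ D then (t ^ 2)⁻¹ else t ^ 2) * ThG t P σ D + ThG t P σ (swD i D)) =
    ThG t P (act i σ) D
  rw [SE_four σ D mi mj ma mb (by omega) a3 h0 hb b3 hab,
    SE_four σ (swD i D) mi mj ma mb (by omega) a3 h0 hb b3 hab,
    SE_four (act i σ) D mi mj ma mb (by omega) a3 h0 hb b3 hab, ti, tj, ta, tb, ← ha, ← hb', a4, b4, p1, p2]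
  simp only [c1, c2, ea, eb, mem_swD_left, mem_swD_right]
  obtain ⟨q1, q2, q3⟩ := SE_alg ht (i ∈ D) (i + 1 ∈ D) (a ∈ D) (b ∈ D)
    (∀ x ∈ SE_E P i (i + 1) a b, (σ x ∈ D ↔ x ∉ D)) (∏ x ∈ SE_E P i (i + 1) a b, SE_g t σ D x)
  by_cases l1 : a < i
  · by_cases l2 : b < i
    · have l3 : b < a := by
        by_contra g
        have := h.2 a b a1 (by omega) (by rw [a4]; exact l2) (by rw [a4]; omega)
        rw [a4, b4] at this
        omega
      have v1 : SE_g t σ D i = 1 := by unfold SE_g; rw [← ha, if_neg (by omega)]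
      have v2 : SE_g t σ D (i + 1) = 1 := by unfold SE_g; rw [← hb', if_neg (by omega)]
      have v3 : SE_g t σ D a = if a ∈ D then t⁻¹ else t := by unfold SE_g; rw [a4, if_pos (by omega)]
      have v4 : SE_g t σ D b = if b ∈ D then t⁻¹ else t := by unfold SE_g; rw [b4, if_pos (by omega)]
      have w1 : SE_g t σ (swD i D) i = 1 := by unfold SE_g; rw [← ha, if_neg (by omega)]
      have w2 : SE_g t σ (swD i D) (i + 1) = 1 := by unfold SE_g; rw [← hb', if_neg (by omega)]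
      have w3 : SE_g t σ (swD i D) a = if a ∈ D then t⁻¹ else t := by
        unfold SE_g; rw [a4, if_pos (by omega)]; simp only [ea]
      have w4 : SE_g t σ (swD i D) b = if b ∈ D then t⁻¹ else t := by
        unfold SE_g; rw [b4, if_pos (by omega)]; simp only [eb]
      have z1 : SE_g t (act i σ) D i = if i ∈ D then t⁻¹ else t := by unfold SE_g; rw [ti, if_pos (by omega)]
      have z2 : SE_g t (act i σ) D (i + 1) = 1 := by unfold SE_g; rw [tj, if_neg (by omega)]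
      have z3 : SE_g t (act i σ) D a = 1 := by unfold SE_g; rw [ta, if_neg (by omega)]
      have z4 : SE_g t (act i σ) D b = if b ∈ D then t⁻¹ else t := by unfold SE_g; rw [tb, if_pos (by omega)]
      rw [v1, v2, v3, v4, w1, w2, w3, w4, z1, z2, z3, z4]
      exact q1
    · have v1 : SE_g t σ D i = 1 := by unfold SE_g; rw [← ha, if_neg (by omega)]
      have v2 : SE_g t σ D (i + 1) = if i + 1 ∈ D then t⁻¹ else t := by unfold SE_g; rw [← hb', if_pos (by omega)]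
      have v3 : SE_g t σ D a = if a ∈ D then t⁻¹ else t := by unfold SE_g; rw [a4, if_pos (by omega)]
      have v4 : SE_g t σ D b = 1 := by unfold SE_g; rw [b4, if_neg (by omega)]
      have w1 : SE_g t σ (swD i D) i = 1 := by unfold SE_g; rw [← ha, if_neg (by omega)]
      have w2 : SE_g t σ (swD i D) (i + 1) = if i ∈ D then t⁻¹ else t := by
        unfold SE_g; rw [← hb', if_pos (by omega)]; simp only [mem_swD_right]
      have w3 : SE_g t σ (swD i D) a = if a ∈ D then t⁻¹ else t := by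
        unfold SE_g; rw [a4, if_pos (by omega)]; simp only [ea]
      have w4 : SE_g t σ (swD i D) b = 1 := by unfold SE_g; rw [b4, if_neg (by omega)]
      have z1 : SE_g t (act i σ) D i = if i ∈ D then t⁻¹ else t := by unfold SE_g; rw [ti, if_pos (by omega)]
      have z2 : SE_g t (act i σ) D (i + 1) = 1 := by unfold SE_g; rw [tj, if_neg (by omega)]
      have z3 : SE_g t (act i σ) D a = if a ∈ D then t⁻¹ else t := by unfold SE_g; rw [ta, if_pos (by omega)]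
      have z4 : SE_g t (act i σ) D b = 1 := by unfold SE_g; rw [tb, if_neg (by omega)]
      rw [v1, v2, v3, v4, w1, w2, w3, w4, z1, z2, z3, z4]
      exact q2
  · have l4 : b < a ∧ i + 1 < b := by
      have := h.2 i (i + 1) h1 (by omega) (by rw [← ha]; omega) (by rw [← ha]; omega)
      rw [← ha, ← hb'] at this
      omega
    have v1 : SE_g t σ D i = if i ∈ D then t⁻¹ else t := by unfold SE_g; rw [← ha, if_pos (by omega)]
    have v2 : SE_g t σ D (i + 1) = if i + 1 ∈ D then t⁻¹ else t := by unfold SE_g; rw [← hb', if_pos (by omega)]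
    have v3 : SE_g t σ D a = 1 := by unfold SE_g; rw [a4, if_neg (by omega)]
    have v4 : SE_g t σ D b = 1 := by unfold SE_g; rw [b4, if_neg (by omega)]
    have w1 : SE_g t σ (swD i D) i = if i + 1 ∈ D then t⁻¹ else t := by
      unfold SE_g; rw [← ha, if_pos (by omega)]; simp only [mem_swD_left]
    have w2 : SE_g t σ (swD i D) (i + 1) = if i ∈ D then t⁻¹ else t := by
      unfold SE_g; rw [← hb', if_pos (by omega)]; simp only [mem_swD_right]
    have w3 : SE_g t σ (swD i D) a = 1 := by unfold SE_g; rw [a4, if_neg (by omega)]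
    have w4 : SE_g t σ (swD i D) b = 1 := by unfold SE_g; rw [b4, if_neg (by omega)]
    have z1 : SE_g t (act i σ) D i = if i ∈ D then t⁻¹ else t := by unfold SE_g; rw [ti, if_pos (by omega)]
    have z2 : SE_g t (act i σ) D (i + 1) = 1 := by unfold SE_g; rw [tj, if_neg (by omega)]
    have z3 : SE_g t (act i σ) D a = 1 := by unfold SE_g; rw [ta, if_neg (by omega)]
    have z4 : SE_g t (act i σ) D b = if b ∈ D then t⁻¹ else t := by unfold SE_g; rw [tb, if_pos (by omega)]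
    rw [v1, v2, v3, v4, w1, w2, w3, w4, z1, z2, z3, z4]
    exact q3

theorem ThG_act {t : ℂ} (ht : t ≠ 0) {P i : ℕ} {σ : ℕ → ℕ} (h : IsNC P σ) (h1 : 1 ≤ i) (h2 : i < P) (D : Finset ℕ) :
    eeG t i (ThG t P σ) D = (if σ i = i + 1 then t ^ 2 + (t ^ 2)⁻¹ else 1) * ThG t P (act i σ) D := by
  by_cases h0 : σ i = i + 1
  · have e : act i σ = σ := by
      funext x
      unfold act
      rw [if_pos h0]
    rw [e, if_pos h0]
    exact congrFun (SE_eq ht h h1 h2 h0) D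
  · rw [if_neg h0, one_mul]
    exact congrFun (SE_ne ht h h1 h2 h0) D

end NX
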