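import Pool.Agent.Lib.MP_216314_pr.N.SE
import Pool.Agent.Lib.MP_216314_pr.S.SEnd

/-!
# The derivative of the spin vectors and the mean number of loops

`Jv n σ = (s²/2) (#{left ends ∉ D'} - #{left ends ∈ D'}) vec n σ`, `D' = insert (2n+2) D`: derivative of the spin vector with respect to `q = -t^(-2)` at `t = s`.
`Jv_act`: differentiate `ThG_act` at `t = s` (for fixed `D' = insert (2n+2) D`; `i ≤ 2n`, so `i, i+1` are different from `2n+2`): `d/dt ThG = Th * (#∉ - #∈) / s`, `d/dt (t^2) = 2 s`, `d/dt (t^-2) = -2 s^-3`; multiply by `s³/2` (`dt/dq`): the generator becomes `dEs` (`-2 s⁻³ s³/2 = -1`, `2 s s³/2 = s⁴`)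
and the loop weight `t² + t⁻²` becomes `(2 s - 2 s⁻³) s³ / 2 = s⁴ - 1`. (The spin vector `vec n σ D = s⁻¹ Th (2n+2) σ (insert (2n+2) D)` has a fixed factor `s⁻¹`, which is not differentiated.)
`EL c l σ`: mean of the sum of the weights `c i` of the letters `i` which close a loop.
`EL_vec`: induction on `l` (general `σ`): with `IH` at `σ` and `act i σ`, `Jv_act`, `vec_act`, `ip_opB_vec`-type fact `ip v0 (opB l (vec σ)) = 1`; the error is the mean of `ip v0 (Jv σ')` over the final states, bounded by `card (sec N) * (N+1)` (or any constant).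
-/

set_option autoImplicit false

noncomputable section

namespace NX

open Finset QS

open Classical in
/-- derivative of the spin vector -/
def Jv (n : ℕ) (σ : ℕ → ℕ) : Vc := fun D => s ^ 2 / 2 *
  ((((Icc 1 (2 * n + 2)).filter (fun x => x < σ x ∧ x ∉ insert (2 * n + 2) D)).card : ℂ) -
    (((Icc 1 (2 * n + 2)).filter (fun x => x < σ x ∧ x ∈ insert (2 * n + 2) D)).card : ℂ)) * vec n σ D

/-- mean weight of the closed loops -/
def EL (c : ℕ → ℝ) : List (ℕ × ℝ) → (ℕ → ℕ) → ℝ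
  | [], _ => 0
  | t :: l, σ => (1 - t.2) * EL c l σ + t.2 * ((if σ t.1 = t.1 + 1 then c t.1 else 0) + EL c l (act t.1 σ))

open Classical in
/-- the exponent: left ends outside `E` minus left ends inside `E` -/
def SF_ex (P : ℕ) (σ : ℕ → ℕ) (E : Finset ℕ) : ℤ :=
  (((Icc 1 P).filter (fun x => x < σ x ∧ x ∉ E)).card : ℤ) -
    (((Icc 1 P).filter (fun x => x < σ x ∧ x ∈ E)).card : ℤ)

open Classical in
/-- the compatibility factor -/
def SF_cd (P : ℕ) (σ : ℕ → ℕ) (E : Finset ℕ) : ℂ :=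
  if (∀ x ∈ Icc 1 P, (σ x ∈ E ↔ x ∉ E)) then 1 else 0

theorem SF_ThG {t : ℂ} (ht : t ≠ 0) (P : ℕ) (σ : ℕ → ℕ) (E : Finset ℕ) :
    ThG t P σ E = SF_cd P σ E * t ^ SF_ex P σ E := by
  classical
  unfold ThG SF_ex SF_cd
  by_cases h : ∀ x ∈ Icc 1 P, (σ x ∈ E ↔ x ∉ E)
  · rw [if_pos h, if_pos h, one_mul, Finset.prod_ite, Finset.prod_const, Finset.prod_const,
      Finset.filter_filter, Finset.filter_filter, zpow_sub₀ ht, zpow_natCast, zpow_natCast,
      inv_pow]
    rw [div_eq_mul_inv, mul_comm]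
  · rw [if_neg h, if_neg h, zero_mul]

theorem SF_deriv (P : ℕ) (σ : ℕ → ℕ) (E : Finset ℕ) :
    HasDerivAt (fun t => ThG t P σ E) ((SF_ex P σ E : ℂ) / s * Th P σ E) s := by
  have h1 : HasDerivAt (fun t : ℂ => SF_cd P σ E * t ^ SF_ex P σ E)
      (SF_cd P σ E * ((SF_ex P σ E : ℂ) * s ^ (SF_ex P σ E - 1))) s :=
    (hasDerivAt_zpow (SF_ex P σ E) s (Or.inl s_ne)).const_mul _
  have h2 : (SF_ex P σ E : ℂ) / s * Th P σ E =
      SF_cd P σ E * ((SF_ex P σ E : ℂ) * s ^ (SF_ex P σ E - 1)) := by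
    rw [← ThG_s, SF_ThG s_ne, zpow_sub_one₀ s_ne]
    ring
  rw [h2]
  refine h1.congr_of_eventuallyEq ?_
  filter_upwards [isOpen_ne.mem_nhds s_ne] with t ht
  exact SF_ThG ht P σ E

theorem SF_Th_act {P i : ℕ} {σ : ℕ → ℕ} (h : IsNC P σ) (h1 : 1 ≤ i) (h2 : i < P) (E : Finset ℕ) :
    (if (i ∈ E ↔ i + 1 ∈ E) then 0 else
      (if i ∈ E then -1 else s ^ 4) * Th P σ E +
      s ^ 2 / 2 * ((if i ∈ E then (s ^ 2)⁻¹ else s ^ 2) * ((SF_ex P σ E : ℂ) * Th P σ E) +
        (SF_ex P σ (swD i E) : ℂ) * Th P σ (swD i E))) =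
    (if σ i = i + 1 then s ^ 4 - 1 else 0) * Th P (act i σ) E +
      s ^ 2 / 2 * ((SF_ex P (act i σ) E : ℂ) * Th P (act i σ) E) := by
  have hs := s_ne
  -- derivative of the left side
  have dL : HasDerivAt (fun t => eeG t i (ThG t P σ) E)
      (if (i ∈ E ↔ i + 1 ∈ E) then 0 else
        (if i ∈ E then -(2 * s) / (s ^ 2) ^ 2 else 2 * s) * Th P σ E +
        (if i ∈ E then (s ^ 2)⁻¹ else s ^ 2) * ((SF_ex P σ E : ℂ) / s * Th P σ E) +
        (SF_ex P σ (swD i E) : ℂ) / s * Th P σ (swD i E)) s := by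
    unfold eeG
    by_cases g : i ∈ E ↔ i + 1 ∈ E
    · simp only [if_pos g]
      exact hasDerivAt_const s 0
    · simp only [if_neg g]
      have hsq : HasDerivAt (fun t : ℂ => t ^ 2) (2 * s) s := by
        have := hasDerivAt_pow 2 s
        simpa using this
      by_cases g' : i ∈ E
      · simp only [if_pos g']
        have h3 : HasDerivAt (fun t : ℂ => (t ^ 2)⁻¹) (-(2 * s) / (s ^ 2) ^ 2) s :=
          hsq.fun_inv (pow_ne_zero 2 hs)
        have h4 := (h3.fun_mul (SF_deriv P σ E)).fun_add (SF_deriv P σ (swD i E))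
        rw [ThG_s] at h4
        exact h4
      · simp only [if_neg g']
        have h4 := (hsq.fun_mul (SF_deriv P σ E)).fun_add (SF_deriv P σ (swD i E))
        rw [ThG_s] at h4
        exact h4
  -- derivative of the right side
  have dR : HasDerivAt (fun t => (if σ i = i + 1 then t ^ 2 + (t ^ 2)⁻¹ else 1) *
      ThG t P (act i σ) E)
      ((if σ i = i + 1 then 2 * s + -(2 * s) / (s ^ 2) ^ 2 else 0) * Th P (act i σ) E +
        (SF_ex P (act i σ) E : ℂ) / s * Th P (act i σ) E) s := by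
    by_cases g : σ i = i + 1
    · simp only [if_pos g]
      have hsq : HasDerivAt (fun t : ℂ => t ^ 2) (2 * s) s := by
        have := hasDerivAt_pow 2 s
        simpa using this
      have h3 : HasDerivAt (fun t : ℂ => (t ^ 2)⁻¹) (-(2 * s) / (s ^ 2) ^ 2) s :=
        hsq.fun_inv (pow_ne_zero 2 hs)
      have h4 := (hsq.fun_add h3).fun_mul (SF_deriv P (act i σ) E)
      rw [ThG_s, s_sum, one_mul] at h4
      exact h4
    · simp only [if_neg g, one_mul, zero_mul, zero_add]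
      exact SF_deriv P (act i σ) E
  have dR' := dR.congr_of_eventuallyEq (f₁ := fun t => eeG t i (ThG t P σ) E) (by
    filter_upwards [isOpen_ne.mem_nhds hs] with t ht
    exact ThG_act ht h h1 h2 E)
  have key := dL.unique dR'
  have h6 : s ^ 3 / 2 * (-(2 * s) / (s ^ 2) ^ 2) = -1 := by
    field_simp
  have h7 : s ^ 3 / 2 * (2 * s) = s ^ 4 := by ring
  have h8 : ∀ z : ℂ, s ^ 3 / 2 * (z / s) = s ^ 2 / 2 * z := by
    intro z
    field_simp
  have key2 := congrArg (fun z => s ^ 3 / 2 * z) key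
  beta_reduce at key2
  have hRR : s ^ 3 / 2 * ((if σ i = i + 1 then 2 * s + -(2 * s) / (s ^ 2) ^ 2 else 0) *
      Th P (act i σ) E + (SF_ex P (act i σ) E : ℂ) / s * Th P (act i σ) E) =
      (if σ i = i + 1 then s ^ 4 - 1 else 0) * Th P (act i σ) E +
      s ^ 2 / 2 * ((SF_ex P (act i σ) E : ℂ) * Th P (act i σ) E) := by
    by_cases g : σ i = i + 1
    · rw [if_pos g, if_pos g]
      linear_combination (Th P (act i σ) E) * (h6 + h7) +
        (Th P (act i σ) E) * (h8 (SF_ex P (act i σ) E : ℂ))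
    · rw [if_neg g, if_neg g]
      linear_combination (Th P (act i σ) E) * (h8 (SF_ex P (act i σ) E : ℂ))
  rw [hRR] at key2
  rw [← key2]
  by_cases g : i ∈ E ↔ i + 1 ∈ E
  · rw [if_pos g, if_pos g, mul_zero]
  rw [if_neg g, if_neg g]
  by_cases g' : i ∈ E
  · rw [if_pos g', if_pos g', if_pos g']
    linear_combination -(Th P σ E) * h6 - ((s ^ 2)⁻¹ * Th P σ E) * (h8 (SF_ex P σ E : ℂ)) -
      (Th P σ (swD i E)) * (h8 (SF_ex P σ (swD i E) : ℂ))
  · rw [if_neg g', if_neg g', if_neg g']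
    linear_combination -(Th P σ E) * h7 - (s ^ 2 * Th P σ E) * (h8 (SF_ex P σ E : ℂ)) -
      (Th P σ (swD i E)) * (h8 (SF_ex P σ (swD i E) : ℂ))

theorem SF_Jv (n : ℕ) (σ : ℕ → ℕ) (D : Finset ℕ) :
    Jv n σ D = s ^ 2 / 2 * (SF_ex (2 * n + 2) σ (insert (2 * n + 2) D) : ℂ) * vec n σ D := by
  unfold Jv SF_ex
  push_cast
  rfl

theorem Jv_act {n i : ℕ} {σ : ℕ → ℕ} (h : IsNC (2 * n + 2) σ) (h1 : 1 ≤ i) (h2 : i ≤ 2 * n) (D : Finset ℕ) :
    QS.ee i (Jv n σ) D + dEs i (vec n σ) D =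
      (if σ i = i + 1 then s ^ 4 - 1 else 0) * vec n (act i σ) D + Jv n (act i σ) D := by
  have key := SF_Th_act h h1 (by omega) (insert (2 * n + 2) D)
  have m1 : i ∈ insert (2 * n + 2) D ↔ i ∈ D := by
    rw [Finset.mem_insert]
    exact ⟨fun g => g.resolve_left (by omega), Or.inr⟩
  have m2 : i + 1 ∈ insert (2 * n + 2) D ↔ i + 1 ∈ D := by
    rw [Finset.mem_insert]
    exact ⟨fun g => g.resolve_left (by omega), Or.inr⟩
  have m3 : swD i (insert (2 * n + 2) D) = insert (2 * n + 2) (swD i D) :=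
    swD_insert (by omega) (by omega)
  rw [m3] at key
  simp only [m1, m2] at key
  unfold QS.ee dEs
  rw [SF_Jv, SF_Jv, SF_Jv]
  unfold vec
  by_cases g : i ∈ D ↔ i + 1 ∈ D
  · rw [if_pos g] at key
    rw [if_pos g, if_pos g]
    linear_combination s⁻¹ * key
  · rw [if_neg g] at key
    rw [if_neg g, if_neg g]
    linear_combination s⁻¹ * key

theorem Jv_bound (n : ℕ) (σ : ℕ → ℕ) (D : Finset ℕ) : ‖Jv n σ D‖ ≤ n + 1 := by
  classical
  have h1 : ‖(SF_ex (2 * n + 2) σ (insert (2 * n + 2) D) : ℂ)‖ ≤ 2 * n + 2 := by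
    have hA : ((Icc 1 (2 * n + 2)).filter (fun x => x < σ x ∧ x ∉ insert (2 * n + 2) D)).card ≤
        2 * n + 2 := by
      refine (Finset.card_filter_le _ _).trans ?_
      rw [Nat.card_Icc]
      omega
    have hB : ((Icc 1 (2 * n + 2)).filter (fun x => x < σ x ∧ x ∈ insert (2 * n + 2) D)).card ≤
        2 * n + 2 := by
      refine (Finset.card_filter_le _ _).trans ?_
      rw [Nat.card_Icc]
      omega
    have h2 : |SF_ex (2 * n + 2) σ (insert (2 * n + 2) D)| ≤ (2 * n + 2 : ℤ) := by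
      unfold SF_ex
      rw [abs_le]
      constructor <;> omega
    rw [Complex.norm_intCast]
    have h3 : ((|SF_ex (2 * n + 2) σ (insert (2 * n + 2) D)| : ℤ) : ℝ) ≤ ((2 * n + 2 : ℤ) : ℝ) :=
      Int.cast_le.2 h2
    rw [Int.cast_abs] at h3
    push_cast at h3
    exact h3
  rw [SF_Jv, norm_mul, norm_mul, norm_div, norm_pow, s_norm, one_pow]
  have h4 : ‖(2 : ℂ)‖ = 2 := by simp
  rw [h4]
  have h5 := vec_norm n σ D
  have h6 : 0 ≤ ‖(SF_ex (2 * n + 2) σ (insert (2 * n + 2) D) : ℂ)‖ := norm_nonneg _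
  have h7 : 0 ≤ ‖vec n σ D‖ := norm_nonneg _
  calc 1 / 2 * ‖(SF_ex (2 * n + 2) σ (insert (2 * n + 2) D) : ℂ)‖ * ‖vec n σ D‖
      ≤ 1 / 2 * (2 * n + 2) * 1 := by
        refine mul_le_mul (mul_le_mul_of_nonneg_left h1 (by norm_num)) h5 h7 (by positivity)
    _ = n + 1 := by ring

theorem SF_tail {N : ℕ} {t : ℕ × ℝ} {l : List (ℕ × ℝ)} (h : Adl N (t :: l)) : Adl N l :=
  fun u hu => h u (List.mem_cons_of_mem t hu)

theorem SF_hB_vec {N : ℕ} {σ : ℕ → ℕ} {i : ℕ} (b : ℝ) (h : IsNC (2 * N + 2) σ) (h1 : 1 ≤ i)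
    (h2 : i ≤ 2 * N) : hB i b (vec N σ) =
      fun D => (1 - (b : ℂ)) * vec N σ D + (b : ℂ) * vec N (act i σ) D := by
  unfold hB
  rw [vec_act h h1 h2]

theorem SF_ip2 (N : ℕ) (v X Y : Vc) (a b : ℂ) :
    ip N v (fun D => a * X D + b * Y D) = a * ip N v X + b * ip N v Y := by
  unfold ip
  rw [Finset.mul_sum, Finset.mul_sum, ← Finset.sum_add_distrib]
  refine Finset.sum_congr rfl fun D _ => ?_
  ring

theorem SF_opB2 (l : List (ℕ × ℝ)) (a b : ℂ) (X Y : Vc) :
    opB l (fun D => a * X D + b * Y D) = fun D => a * opB l X D + b * opB l Y D := by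
  have h := opB_add l (fun D => a * X D) (fun D => b * Y D)
  rw [opB_smul, opB_smul] at h
  exact h

theorem SF_dB2 (l : List (ℕ × ℝ)) (a b : ℂ) (X Y : Vc) :
    dB l (fun D => a * X D + b * Y D) = fun D => a * dB l X D + b * dB l Y D := by
  have h := dB_add l (fun D => a * X D) (fun D => b * Y D)
  rw [dB_smul, dB_smul] at h
  exact h

theorem SF_ip_one {N : ℕ} (l : List (ℕ × ℝ)) : ∀ σ : ℕ → ℕ, Adl N l → IsNC (2 * N + 2) σ →
    ip N (v0 N) (opB l (vec N σ)) = 1 := by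
  induction l with
  | nil => exact fun σ _ h => ip_vec h
  | cons t l ih =>
    intro σ hl h
    have ht := hl t List.mem_cons_self
    show ip N (v0 N) (opB l (hB t.1 t.2 (vec N σ))) = 1
    rw [SF_hB_vec t.2 h ht.1 ht.2.1, SF_opB2, SF_ip2, ih σ (SF_tail hl) h,
      ih _ (SF_tail hl) (act_nc h ht.1 (by omega))]
    ring

theorem EL_vec (N : ℕ) : ∃ C : ℝ, ∀ (l : List (ℕ × ℝ)) (σ : ℕ → ℕ), Adl N l → IsNC (2 * N + 2) σ →
    ‖ip N (v0 N) (fun D => opB l (Jv N σ) D + dB l (vec N σ) D) - (s ^ 4 - 1) * (EL (fun _ => 1) l σ : ℂ)‖ ≤ C := by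
  refine ⟨((sec N).card : ℝ) * (N + 1), fun l => ?_⟩
  induction l with
  | nil =>
    intro σ _ _
    show ‖ip N (v0 N) (fun D => Jv N σ D + 0) - (s ^ 4 - 1) * ((0 : ℝ) : ℂ)‖ ≤ _
    rw [Complex.ofReal_zero, mul_zero, sub_zero]
    unfold ip
    refine (norm_sum_le _ _).trans ?_
    have h1 : ∀ D ∈ sec N, ‖v0 N D * (Jv N σ D + 0)‖ ≤ (N : ℝ) + 1 := by
      intro D _
      rw [add_zero, norm_mul]
      have h2 : ‖v0 N D‖ ≤ 1 := vec_norm N sg0 D
      have h3 := Jv_bound N σ D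
      calc ‖v0 N D‖ * ‖Jv N σ D‖ ≤ 1 * ((N : ℝ) + 1) :=
            mul_le_mul h2 h3 (norm_nonneg _) zero_le_one
        _ = (N : ℝ) + 1 := one_mul _
    refine (Finset.sum_le_sum h1).trans (le_of_eq ?_)
    rw [Finset.sum_const, nsmul_eq_mul]
  | cons t l ih =>
    intro σ hl h
    have ht := hl t List.mem_cons_self
    have hact := act_nc h ht.1 (show t.1 < 2 * N + 2 by omega)
    have i1 := ih σ (SF_tail hl) h
    have i2 := ih (act t.1 σ) (SF_tail hl) hact
    have i3 := SF_ip_one l (act t.1 σ) (SF_tail hl) hact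
    -- the vector
    have e1 : ∀ D, opB (t :: l) (Jv N σ) D + dB (t :: l) (vec N σ) D =
        (1 - (t.2 : ℂ)) * (opB l (Jv N σ) D + dB l (vec N σ) D) +
        (t.2 : ℂ) * ((opB l (Jv N (act t.1 σ)) D + dB l (vec N (act t.1 σ)) D) +
          (if σ t.1 = t.1 + 1 then s ^ 4 - 1 else 0) * opB l (vec N (act t.1 σ)) D) := by
      intro D
      have a1 : opB (t :: l) (Jv N σ) D = (1 - (t.2 : ℂ)) * opB l (Jv N σ) D +
          (t.2 : ℂ) * opB l (QS.ee t.1 (Jv N σ)) D := by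
        show opB l (fun D => (1 - (t.2 : ℂ)) * Jv N σ D + (t.2 : ℂ) * QS.ee t.1 (Jv N σ) D) D = _
        rw [SF_opB2 l _ _ (Jv N σ) (QS.ee t.1 (Jv N σ))]
      have a2 : dB (t :: l) (vec N σ) D = (1 - (t.2 : ℂ)) * dB l (vec N σ) D +
          (t.2 : ℂ) * dB l (vec N (act t.1 σ)) D + (t.2 : ℂ) * opB l (dEs t.1 (vec N σ)) D := by
        show dB l (hB t.1 t.2 (vec N σ)) D + (t.2 : ℂ) * opB l (dEs t.1 (vec N σ)) D = _
        rw [SF_hB_vec t.2 h ht.1 ht.2.1, SF_dB2]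
      have a3 : opB l (QS.ee t.1 (Jv N σ)) D + opB l (dEs t.1 (vec N σ)) D =
          (if σ t.1 = t.1 + 1 then s ^ 4 - 1 else 0) * opB l (vec N (act t.1 σ)) D +
            opB l (Jv N (act t.1 σ)) D := by
        have b1 := opB_add l (QS.ee t.1 (Jv N σ)) (dEs t.1 (vec N σ))
        have b2 := congrFun b1 D
        beta_reduce at b2
        rw [← b2]
        have b3 : (fun D => QS.ee t.1 (Jv N σ) D + dEs t.1 (vec N σ) D) = fun D =>
            (if σ t.1 = t.1 + 1 then s ^ 4 - 1 else 0) * vec N (act t.1 σ) D +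
              1 * Jv N (act t.1 σ) D := by
          funext D
          rw [Jv_act h ht.1 ht.2.1 D, one_mul]
        rw [b3, SF_opB2]
        ring
      rw [a1, a2]
      linear_combination (t.2 : ℂ) * a3
    have e2 : ip N (v0 N) (fun D => opB (t :: l) (Jv N σ) D + dB (t :: l) (vec N σ) D) =
        (1 - (t.2 : ℂ)) * ip N (v0 N) (fun D => opB l (Jv N σ) D + dB l (vec N σ) D) +
        (t.2 : ℂ) * (ip N (v0 N)
            (fun D => opB l (Jv N (act t.1 σ)) D + dB l (vec N (act t.1 σ)) D) +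
          (if σ t.1 = t.1 + 1 then s ^ 4 - 1 else 0)) := by
      have c1 : (fun D => opB (t :: l) (Jv N σ) D + dB (t :: l) (vec N σ) D) = fun D =>
          (1 - (t.2 : ℂ)) * (fun D => opB l (Jv N σ) D + dB l (vec N σ) D) D +
          (t.2 : ℂ) * (fun D => 1 * (fun D => opB l (Jv N (act t.1 σ)) D +
            dB l (vec N (act t.1 σ)) D) D +
          (if σ t.1 = t.1 + 1 then s ^ 4 - 1 else 0) * opB l (vec N (act t.1 σ)) D) D := by
        funext D
        rw [e1 D]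
        ring
      rw [c1, SF_ip2, SF_ip2, i3, one_mul, mul_one]
    have e3 : (EL (fun _ => 1) (t :: l) σ : ℝ) = (1 - t.2) * EL (fun _ => 1) l σ +
        t.2 * ((if σ t.1 = t.1 + 1 then 1 else 0) + EL (fun _ => 1) l (act t.1 σ)) := rfl
    have e4 : ip N (v0 N) (fun D => opB (t :: l) (Jv N σ) D + dB (t :: l) (vec N σ) D) -
        (s ^ 4 - 1) * (EL (fun _ => 1) (t :: l) σ : ℂ) =
        (1 - (t.2 : ℂ)) * (ip N (v0 N) (fun D => opB l (Jv N σ) D + dB l (vec N σ) D) -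
          (s ^ 4 - 1) * (EL (fun _ => 1) l σ : ℂ)) +
        (t.2 : ℂ) * (ip N (v0 N)
            (fun D => opB l (Jv N (act t.1 σ)) D + dB l (vec N (act t.1 σ)) D) -
          (s ^ 4 - 1) * (EL (fun _ => 1) l (act t.1 σ) : ℂ)) := by
      rw [e2, e3]
      by_cases g : σ t.1 = t.1 + 1
      · rw [if_pos g, if_pos g]
        push_cast
        ring
      · rw [if_neg g, if_neg g]
        push_cast
        ring
    rw [e4]
    refine (norm_add_le _ _).trans ?_
    rw [norm_mul, norm_mul]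
    have n1 : ‖(1 - (t.2 : ℂ))‖ = 1 - t.2 := by
      rw [← Complex.ofReal_one, ← Complex.ofReal_sub, Complex.norm_real, Real.norm_eq_abs,
        abs_of_nonneg (by linarith [ht.2.2.2])]
    have n2 : ‖(t.2 : ℂ)‖ = t.2 := by
      rw [Complex.norm_real, Real.norm_eq_abs, abs_of_nonneg ht.2.2.1]
    rw [n1, n2]
    have k1 := mul_le_mul_of_nonneg_left i1 (show 0 ≤ 1 - t.2 by linarith [ht.2.2.2])
    have k2 := mul_le_mul_of_nonneg_left i2 ht.2.2.1
    linarith

end NX
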