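import Pool.Agent.Lib.MP_216314_pr.N.SD
import Pool.Agent.Lib.MP_216314_pr.N.SF

/-!
# The mean number of loops of a periodic random word

`EL_asym`: `EL_vec` for the list `rep l m` and `σ = sg0` (`vec N sg0 = v0 N`), `opB (rep l m) (Jv N sg0)` is bounded (`word_bound`/`Bd_sum`/`opB_bd`), `lin_growth`, and divide by `s⁴ - 1 ≠ 0`.
`EL_le`, linear combinations: `EL (c + c') = EL c + EL c'` (induction).
-/

set_option autoImplicit false

noncomputable section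

namespace NX

open Finset QS

theorem s4_ne : s ^ 4 - 1 ≠ 0 := by
  intro h
  have h1 := s_four
  have h2 : s ^ 2 = 2 := by linear_combination h - h1
  have h3 : s ^ 4 = 4 := by
    calc s ^ 4 = (s ^ 2) ^ 2 := by ring
      _ = 4 := by rw [h2]; norm_num
  rw [h3] at h
  norm_num at h

private theorem SG_bound {n : ℕ} {v w : Vc} {A B : ℝ} (hA : ∀ D ∈ sec n, ‖v D‖ ≤ A) (hB : ∀ D ∈ sec n, ‖w D‖ ≤ B) :
    ‖ip n v w‖ ≤ (sec n).card * (A * B) := by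
  unfold ip
  refine (norm_sum_le _ _).trans ?_
  have h1 : ∀ D ∈ sec n, ‖v D * w D‖ ≤ A * B := by
    intro D hD
    rw [norm_mul]
    exact mul_le_mul (hA D hD) (hB D hD) (norm_nonneg _) ((norm_nonneg _).trans (hA D hD))
  refine (sum_le_sum h1).trans (le_of_eq ?_)
  rw [sum_const, nsmul_eq_mul]

theorem EL_asym {N : ℕ} {l : List (ℕ × ℝ)} {δ : ℝ} (hl : Goodl N l δ) (Ψ : Vc) (h : ∀ D ∈ sec N, opB l Ψ D = Ψ D)
    (h0 : ip N Ψ Ψ ≠ 0) (x : ℝ) (hx : ip N Ψ (dB l Ψ) = (s ^ 4 - 1) * (x : ℂ) * ip N Ψ Ψ) :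
    ∃ C : ℝ, ∀ m : ℕ, |EL (fun _ => 1) (rep l m) sg0 - m * x| ≤ C := by
  obtain ⟨C1, h1⟩ := EL_vec N
  obtain ⟨C2, h2⟩ := lin_growth hl Ψ h h0
  set CJ : ℝ := ∑ D' ∈ sec N, ‖Jv N sg0 D'‖ with hCJ
  set C3 : ℝ := (sec N).card * (1 * CJ) with hC3
  refine ⟨(C1 + C3 + C2) / ‖s ^ 4 - 1‖, fun m => ?_⟩
  have hn : 0 < ‖s ^ 4 - 1‖ := norm_pos_iff.2 s4_ne
  have hadl := adl_rep hl.adl m
  have e1 := h1 (rep l m) sg0 hadl (sg0_nc N)
  have e2 := h2 m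
  have e3 : ip N Ψ (dB l Ψ) / ip N Ψ Ψ = (s ^ 4 - 1) * (x : ℂ) := by
    rw [hx, mul_div_assoc, div_self h0, mul_one]
  rw [e3] at e2
  have e4 : ‖ip N (v0 N) (opB (rep l m) (Jv N sg0))‖ ≤ C3 := by
    apply SG_bound (fun D _ => vec_norm N sg0 D)
    intro D hD
    exact Bd_le (opB_bd hadl (Bd_sum N (Jv N sg0))) hD
  have e5 : ip N (v0 N) (fun D => opB (rep l m) (Jv N sg0) D + dB (rep l m) (vec N sg0) D) =
      ip N (v0 N) (opB (rep l m) (Jv N sg0)) + ip N (v0 N) (dB (rep l m) (v0 N)) := by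
    unfold ip v0
    rw [← Finset.sum_add_distrib]
    exact Finset.sum_congr rfl fun D _ => by ring
  rw [e5] at e1
  rw [le_div_iff₀ hn]
  have e6 : |EL (fun _ => 1) (rep l m) sg0 - m * x| * ‖s ^ 4 - 1‖ =
      ‖(s ^ 4 - 1) * ((EL (fun _ => 1) (rep l m) sg0 : ℂ) - (m : ℂ) * (x : ℂ))‖ := by
    rw [norm_mul, mul_comm]
    congr 1
    rw [← Real.norm_eq_abs, ← Complex.norm_real]
    push_cast
    rfl
  rw [e6]
  have e7 : (s ^ 4 - 1) * ((EL (fun _ => 1) (rep l m) sg0 : ℂ) - (m : ℂ) * (x : ℂ)) =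
      -(ip N (v0 N) (opB (rep l m) (Jv N sg0)) + ip N (v0 N) (dB (rep l m) (v0 N)) -
        (s ^ 4 - 1) * (EL (fun _ => 1) (rep l m) sg0 : ℂ)) +
      ip N (v0 N) (opB (rep l m) (Jv N sg0)) +
      (ip N (v0 N) (dB (rep l m) (v0 N)) - (m : ℂ) * ((s ^ 4 - 1) * (x : ℂ))) := by ring
  rw [e7]
  refine (norm_add_le _ _).trans (add_le_add ((norm_add_le _ _).trans (add_le_add ?_ e4)) e2)
  rw [norm_neg]
  exact e1

theorem EL_add (c c' : ℕ → ℝ) (l : List (ℕ × ℝ)) (σ : ℕ → ℕ) : EL (fun i => c i + c' i) l σ = EL c l σ + EL c' l σ := by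
  induction l generalizing σ with
  | nil => simp [EL]
  | cons t l ih =>
    simp only [EL]
    rw [ih, ih]
    by_cases hc : σ t.1 = t.1 + 1
    · rw [if_pos hc, if_pos hc, if_pos hc]
      ring
    · rw [if_neg hc, if_neg hc, if_neg hc]
      ring

end NX
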