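import Pool.Agent.Lib.MP_216314_pr.N.QL
import Pool.Agent.Lib.MP_216314_pr.N.SH
import Pool.Agent.Lib.MP_216314_pr.X.XBr

/-!
# Translation between the two conventions

Spin vectors of `X/*` (0-based, `Finset ℕ → ℂ`, `PX.ee i`) and of `S/*` (1-based, `QS.ee i`). `PX.tr v D = v (shl D)`, `PX.tr_ee`, `PX.sum_sec`, `PX.shl_swD`, `QS.s ^ 2 = -om ^ 2` (`PX.s_sq`), so `s ^ 4 = om`.
`cst p`: a list with real probabilities as a list with complex ones; `sh p`: letters shifted by one.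
`tr2 n v D = v (shl D)` if `2n+3 ∉ D` and `0` otherwise: embedding of the chain of length `2n+2` with `n+1` up spins in the sector `sec (n+1)` of the sites `1..2n+3`; the letters `i + 1 ≤ 2n+1` do not touch the site `2n+3`.
All statements: induction on the list from the statement for one letter; `BF`, `ip` are sums over `cfn` and `sec`.
-/

set_option autoImplicit false

noncomputable section

namespace NX

open Finset

def cst (p : List (ℕ × ℝ)) : List (ℕ × ℂ) := p.map (fun t => (t.1, (t.2 : ℂ)))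

def sh (p : List (ℕ × ℝ)) : List (ℕ × ℝ) := p.map (fun t => (t.1 + 1, t.2))

theorem s_four_om : QS.s ^ 4 = PX.om := by
  have h : QS.s ^ 4 = (QS.s ^ 2) ^ 2 := by ring
  rw [h, PX.s_sq]
  linear_combination PX.om * PX.om_cube

private theorem TA_m (D : Finset ℕ) (i : ℕ) : (i + 1 ∈ D) = (i ∈ PX.shl D) := propext PX.mem_shl.symm

theorem tr_dE (i : ℕ) (v : PX.Vec) : PX.tr (dE i v) = dEs (i + 1) (PX.tr v) := by
  funext D
  unfold dEs PX.tr
  rw [dE_apply, s_four_om]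
  have h1 := TA_m D i
  have h2 := TA_m D (i + 1)
  simp only [h1, h2]

private theorem TA_hB (i : ℕ) (b : ℝ) (v : PX.Vec) :
    PX.tr ((1 - (b : ℂ)) • v + (b : ℂ) • PX.ee i v) = hB (i + 1) b (PX.tr v) := by
  funext D
  unfold hB
  rw [← PX.tr_ee]
  rfl

theorem tr_opP (p : List (ℕ × ℝ)) (v : PX.Vec) : PX.tr (opP (cst p) v) = opB (sh p) (PX.tr v) := by
  induction p generalizing v with
  | nil => rfl
  | cons t p ih =>
    have h1 : opP (cst (t :: p)) v = opP (cst p) ((1 - (t.2 : ℂ)) • v + (t.2 : ℂ) • PX.ee t.1 v) := rfl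
    have h2 : opB (sh (t :: p)) (PX.tr v) = opB (sh p) (hB (t.1 + 1) t.2 (PX.tr v)) := rfl
    rw [h1, h2, ih, TA_hB]

theorem tr_dP (p : List (ℕ × ℝ)) (v : PX.Vec) : PX.tr (dP (cst p) v) = dB (sh p) (PX.tr v) := by
  induction p generalizing v with
  | nil => rfl
  | cons t p ih =>
    have h1 : dP (cst (t :: p)) v = dP (cst p) ((1 - (t.2 : ℂ)) • v + (t.2 : ℂ) • PX.ee t.1 v) +
        opP (cst p) ((t.2 : ℂ) • dE t.1 v) := rfl
    have h2 : dB (sh (t :: p)) (PX.tr v) = fun D => dB (sh p) (hB (t.1 + 1) t.2 (PX.tr v)) D +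
        (t.2 : ℂ) * opB (sh p) (dEs (t.1 + 1) (PX.tr v)) D := rfl
    have h3 : PX.tr (opP (cst p) ((t.2 : ℂ) • dE t.1 v)) = fun D =>
        (t.2 : ℂ) * opB (sh p) (dEs (t.1 + 1) (PX.tr v)) D := by
      rw [tr_opP, ← opB_smul, ← tr_dE]
      rfl
    have h4 := ih ((1 - (t.2 : ℂ)) • v + (t.2 : ℂ) • PX.ee t.1 v)
    rw [TA_hB] at h4
    rw [h1, h2, ← h4]
    funext D
    have h5 := congrFun h3 D
    show PX.tr (dP (cst p) ((1 - (t.2 : ℂ)) • v + (t.2 : ℂ) • PX.ee t.1 v)) D +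
      PX.tr (opP (cst p) ((t.2 : ℂ) • dE t.1 v)) D = _
    rw [h5]

theorem tr_opWd (w : List ℕ) (v : PX.Vec) : PX.tr (opWd w v) = QS.opW (w.map (fun i => i + 1)) (PX.tr v) := by
  induction w generalizing v with
  | nil => rfl
  | cons i w ih =>
    have h1 : opWd (i :: w) v = opWd w (PX.ee i v) := rfl
    have h2 : QS.opW ((i :: w).map (fun i => i + 1)) (PX.tr v) =
      QS.opW (w.map (fun i => i + 1)) (QS.ee (i + 1) (PX.tr v)) := rfl
    rw [h1, h2, ih, PX.tr_ee]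

theorem ip_tr (n : ℕ) (v w : PX.Vec) : QS.ip n (PX.tr v) (PX.tr w) = bf (2 * n + 1) v w := by
  unfold QS.ip bf PX.BF PX.tr
  rw [PX.sum_sec n (fun a => v a * w a)]
  have h : (2 * n + 1) / 2 = n := by omega
  rw [h]
  exact Finset.sum_congr rfl (fun a _ => by ring)

/-- embedding of the even chain -/
def tr2 (n : ℕ) (v : PX.Vec) : QS.Vc := fun D => if 2 * n + 3 ∈ D then 0 else v (PX.shl D)

private theorem TA_sw {n i : ℕ} (h : i + 1 < 2 * n + 2) (D : Finset ℕ) :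
    2 * n + 3 ∈ QS.swD (i + 1) D ↔ 2 * n + 3 ∈ D := by
  unfold QS.swD
  rw [Finset.mem_map_equiv, Equiv.symm_swap, Equiv.swap_apply_of_ne_of_ne (by omega) (by omega)]

private theorem TA_tr2_of {n : ℕ} {D : Finset ℕ} (h : 2 * n + 3 ∉ D) (v : PX.Vec) : tr2 n v D = PX.tr v D :=
  if_neg h

private theorem TA_tr2_zero {n : ℕ} {D : Finset ℕ} (h : 2 * n + 3 ∈ D) (v : PX.Vec) : tr2 n v D = 0 :=
  if_pos h

theorem tr2_ee {n i : ℕ} (h : i + 1 < 2 * n + 2) (v : PX.Vec) : tr2 n (PX.ee i v) = QS.ee (i + 1) (tr2 n v) := by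
  funext D
  by_cases hD : 2 * n + 3 ∈ D
  · rw [TA_tr2_zero hD]
    unfold QS.ee
    rw [TA_tr2_zero hD, TA_tr2_zero ((TA_sw h D).2 hD)]
    simp
  · rw [TA_tr2_of hD, PX.tr_ee]
    unfold QS.ee
    rw [TA_tr2_of hD, TA_tr2_of (fun h2 => hD ((TA_sw h D).1 h2))]

theorem tr2_dE {n i : ℕ} (h : i + 1 < 2 * n + 2) (v : PX.Vec) : tr2 n (dE i v) = dEs (i + 1) (tr2 n v) := by
  funext D
  by_cases hD : 2 * n + 3 ∈ D
  · rw [TA_tr2_zero hD]
    unfold dEs
    rw [TA_tr2_zero hD, mul_zero]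
  · rw [TA_tr2_of hD, tr_dE]
    unfold dEs
    rw [TA_tr2_of hD]

private theorem TA_hB2 {n i : ℕ} (h : i + 1 < 2 * n + 2) (b : ℝ) (v : PX.Vec) :
    tr2 n ((1 - (b : ℂ)) • v + (b : ℂ) • PX.ee i v) = hB (i + 1) b (tr2 n v) := by
  funext D
  unfold hB
  rw [← tr2_ee h]
  by_cases hD : 2 * n + 3 ∈ D
  · rw [TA_tr2_zero hD, TA_tr2_zero hD, TA_tr2_zero hD, mul_zero, mul_zero, add_zero]
  · rw [TA_tr2_of hD, TA_tr2_of hD, TA_tr2_of hD]
    rfl

theorem tr2_opP {n : ℕ} (p : List (ℕ × ℝ)) (hp : ∀ t ∈ p, t.1 + 1 < 2 * n + 2) (v : PX.Vec) :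
    tr2 n (opP (cst p) v) = opB (sh p) (tr2 n v) := by
  induction p generalizing v with
  | nil => rfl
  | cons t p ih =>
    have h1 : opP (cst (t :: p)) v = opP (cst p) ((1 - (t.2 : ℂ)) • v + (t.2 : ℂ) • PX.ee t.1 v) := rfl
    have h2 : opB (sh (t :: p)) (tr2 n v) = opB (sh p) (hB (t.1 + 1) t.2 (tr2 n v)) := rfl
    rw [h1, h2, ih (fun t ht => hp t (List.mem_cons_of_mem _ ht)), TA_hB2 (hp t List.mem_cons_self)]

theorem tr2_dP {n : ℕ} (p : List (ℕ × ℝ)) (hp : ∀ t ∈ p, t.1 + 1 < 2 * n + 2) (v : PX.Vec) :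
    tr2 n (dP (cst p) v) = dB (sh p) (tr2 n v) := by
  induction p generalizing v with
  | nil =>
    funext D
    unfold tr2
    split_ifs <;> rfl
  | cons t p ih =>
    have hp' : ∀ t ∈ p, t.1 + 1 < 2 * n + 2 := fun t ht => hp t (List.mem_cons_of_mem _ ht)
    have ht := hp t List.mem_cons_self
    have h1 : dP (cst (t :: p)) v = dP (cst p) ((1 - (t.2 : ℂ)) • v + (t.2 : ℂ) • PX.ee t.1 v) +
        opP (cst p) ((t.2 : ℂ) • dE t.1 v) := rfl
    have h2 : dB (sh (t :: p)) (tr2 n v) = fun D => dB (sh p) (hB (t.1 + 1) t.2 (tr2 n v)) D +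
        (t.2 : ℂ) * opB (sh p) (dEs (t.1 + 1) (tr2 n v)) D := rfl
    have h3 : tr2 n (opP (cst p) ((t.2 : ℂ) • dE t.1 v)) = fun D =>
        (t.2 : ℂ) * opB (sh p) (dEs (t.1 + 1) (tr2 n v)) D := by
      rw [tr2_opP p hp', ← opB_smul, ← tr2_dE ht]
      congr 1
      funext D
      unfold tr2
      split_ifs
      · rw [mul_zero]
      · rfl
    have h4 := ih hp' ((1 - (t.2 : ℂ)) • v + (t.2 : ℂ) • PX.ee t.1 v)
    rw [TA_hB2 ht] at h4
    rw [h1, h2, ← h4]
    funext D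
    have h5 := congrFun h3 D
    have h6 : tr2 n (dP (cst p) ((1 - (t.2 : ℂ)) • v + (t.2 : ℂ) • PX.ee t.1 v) +
        opP (cst p) ((t.2 : ℂ) • dE t.1 v)) D =
        tr2 n (dP (cst p) ((1 - (t.2 : ℂ)) • v + (t.2 : ℂ) • PX.ee t.1 v)) D +
        tr2 n (opP (cst p) ((t.2 : ℂ) • dE t.1 v)) D := by
      unfold tr2
      split_ifs
      · rw [add_zero]
      · rfl
    rw [h6, h5]

theorem tr2_opWd {n : ℕ} (w : List ℕ) (hw : ∀ i ∈ w, i + 1 < 2 * n + 2) (v : PX.Vec) :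
    tr2 n (opWd w v) = QS.opW (w.map (fun i => i + 1)) (tr2 n v) := by
  induction w generalizing v with
  | nil => rfl
  | cons i w ih =>
    have h1 : opWd (i :: w) v = opWd w (PX.ee i v) := rfl
    have h2 : QS.opW ((i :: w).map (fun i => i + 1)) (tr2 n v) =
      QS.opW (w.map (fun i => i + 1)) (QS.ee (i + 1) (tr2 n v)) := rfl
    rw [h1, h2, ih (fun t ht => hw t (List.mem_cons_of_mem _ ht)), tr2_ee (hw i List.mem_cons_self)]

private theorem TA_sum (n : ℕ) (f : Finset ℕ → ℂ) :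
    ∑ D ∈ (QS.sec (n + 1)).filter (fun D => 2 * n + 3 ∉ D), f (PX.shl D) =
      ∑ a ∈ PX.cfn (2 * n + 2) (n + 1), f a := by
  have key : ∀ D : Finset ℕ, D ∈ (QS.sec (n + 1)).filter (fun D => 2 * n + 3 ∉ D) →
      (∀ k ∈ D, 1 ≤ k ∧ k ≤ 2 * n + 2) ∧ D.card = n + 1 := by
    intro D hD
    rw [Finset.mem_filter] at hD
    have h := hD.1
    unfold QS.sec at h
    rw [Finset.mem_powersetCard] at h
    refine ⟨fun k hk => ?_, h.2⟩
    have h2 := Finset.mem_Icc.1 (h.1 hk)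
    have h3 : k ≠ 2 * n + 3 := fun h4 => hD.2 (h4 ▸ hk)
    omega
  have keq : ∀ D : Finset ℕ, D ∈ (QS.sec (n + 1)).filter (fun D => 2 * n + 3 ∉ D) →
      (PX.shl D).map ⟨fun k => k + 1, Nat.succ_injective⟩ = D := by
    intro D hD
    ext k
    rw [Finset.mem_map]
    constructor
    · rintro ⟨a, ha, h⟩
      have h2 := PX.mem_shl.1 ha
      have h3 : a + 1 = k := h
      rwa [← h3]
    · intro hk
      have h2 := (key D hD).1 k hk
      exact ⟨k - 1, PX.mem_shl.2 (by rwa [Nat.sub_add_cancel h2.1]), Nat.sub_add_cancel h2.1⟩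
  refine Finset.sum_bij' (fun D _ => PX.shl D) (fun a _ => a.map ⟨fun k => k + 1, Nat.succ_injective⟩)
    ?_ ?_ ?_ ?_ ?_
  · intro D hD
    rw [PX.mem_cfn]
    constructor
    · intro k hk
      have h2 := (key D hD).1 _ (PX.mem_shl.1 hk)
      exact Finset.mem_range.2 (by omega)
    · have h3 := congrArg Finset.card (keq D hD)
      rw [Finset.card_map] at h3
      rw [h3]
      exact (key D hD).2
  · intro a ha
    rw [PX.mem_cfn] at ha
    rw [Finset.mem_filter]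
    constructor
    · unfold QS.sec
      rw [Finset.mem_powersetCard]
      constructor
      · intro k hk
        rw [Finset.mem_map] at hk
        obtain ⟨x, hx, hx'⟩ := hk
        have h2 := Finset.mem_range.1 (ha.1 hx)
        have h3 : x + 1 = k := hx'
        exact Finset.mem_Icc.2 ⟨by omega, by omega⟩
      · rw [Finset.card_map, ha.2]
    · intro hk
      rw [Finset.mem_map] at hk
      obtain ⟨x, hx, hx'⟩ := hk
      have h2 := Finset.mem_range.1 (ha.1 hx)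
      have h3 : x + 1 = 2 * n + 3 := hx'
      omega
  · exact keq
  · intro a _
    exact PX.shl_map a
  · intro D _
    rfl

theorem ip_tr2 (n : ℕ) (v w : PX.Vec) : QS.ip (n + 1) (tr2 n v) (tr2 n w) = bf (2 * n + 2) v w := by
  unfold QS.ip bf PX.BF
  have h : (2 * n + 2) / 2 = n + 1 := by omega
  rw [h]
  have h2 := TA_sum n (fun a => 1 * v a * w a)
  rw [← h2, Finset.sum_filter]
  refine Finset.sum_congr rfl (fun D _ => ?_)
  unfold tr2
  by_cases hD : 2 * n + 3 ∈ D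
  · rw [if_pos hD, zero_mul, if_neg (fun h3 => h3 hD)]
  · rw [if_neg hD, if_neg hD, if_pos hD]
    ring

end NX
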