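import Pool.Agent.Lib.MP_216314_pr.N.VA
import Pool.Agent.Lib.MP_216314_pr.X.BM
import Pool.Agent.Lib.MP_216314_pr.X.BE
import Pool.Agent.Lib.MP_216314_pr.X.BF

/-!
# The character as a function of the first argument

`L ≥ 1`, the entries `w_0, ..., w_{L-2}` have distinct `XX w_j` (and are nonzero). `chr_poly` (`X/BE.lean`, for `y = cns 1 w`, `Function.update (cns 1 w) 0 t = cns t w`) gives `g` with `natDegree g ≤ (L-1)/2` and `chr L (cns t w) = g(XX t)` for all `t` with `XX t ≠ XX (w_j)`.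
`Del L (cns t w) = chr * Vdm`; the expansion of the determinant along the first row (`Matrix.det_succ_row_zero`; or `Del_cns` in `X/BM.lean`, `L = N + 1`) shows that `Del L (cns t w) = P(XX t)` with `P = ∑_k c_k USp (mm k - 1) ∈ Vs L` (`USp_eval`);
`Vdm L (cns t w) = ∏_{j<L-1} (XX (w j) - XX t) * Vdm (L-1) w` (`Vdm_cns`), `Vdm (L-1) w ≠ 0` (`Vdm_ne_zero`). So `P = g * ∏ (C (XX w_j) - X) * C (Vdm (L-1) w)` at infinitely many points, hence as polynomials, and `g * ∏ (X - C (XX w_j)) ∈ Vs L`.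
-/

set_option autoImplicit false

noncomputable section

namespace NX

open Finset PX Polynomial

theorem VE2_upd (w : ℕ → ℂ) (t : ℂ) : Function.update (cns 1 w) 0 t = cns t w := by
  funext k
  by_cases hk : k = 0
  · subst hk
    rw [Function.update_self]
    simp [cns]
  · rw [Function.update_of_ne hk]
    simp [cns, hk]

theorem VE2_XX (x : ℂ) : ∃ t : ℂ, t ≠ 0 ∧ XX t = x := by
  obtain ⟨s, hs⟩ := IsAlgClosed.exists_pow_nat_eq (x ^ 2 - 4) (n := 2) two_pos
  have h1 : ((x + s) / 2) * ((x - s) / 2) = 1 := by linear_combination -hs / 4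
  have h2 : (x + s) / 2 ≠ 0 := by
    intro h
    rw [h, zero_mul] at h1
    exact zero_ne_one h1
  refine ⟨(x + s) / 2, h2, ?_⟩
  unfold XX
  rw [inv_eq_of_mul_eq_one_right h1]
  ring

/-- the determinant as a polynomial -/
def VE2_P (N : ℕ) (w : ℕ → ℂ) : Polynomial ℂ :=
  ∑ k : Fin (N + 1), C ((-1) ^ (k : ℕ) *
    (Matrix.of fun j l : Fin N => US (mm (k.succAbove l) - 1) (XX (w j))).det) * USp (mm (k : ℕ) - 1)

theorem VE2_mem (N : ℕ) (w : ℕ → ℂ) : VE2_P N w ∈ Vs (N + 1) := by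
  unfold VE2_P Vs
  refine Submodule.sum_mem _ fun k _ => ?_
  rw [← Polynomial.smul_eq_C_mul]
  exact Submodule.smul_mem _ _ (Submodule.subset_span ⟨k, rfl⟩)

theorem VE2_eval (N : ℕ) (w : ℕ → ℂ) (t : ℂ) : Del (N + 1) (cns t w) = (VE2_P N w).eval (XX t) := by
  rw [Del_cns]
  unfold VE2_P
  rw [Polynomial.eval_finsetSum]
  refine Finset.sum_congr rfl fun k _ => ?_
  rw [Polynomial.eval_mul, Polynomial.eval_C, USp_eval]
  ring

theorem chr_Vs {L : ℕ} (hL : 1 ≤ L) {w : ℕ → ℂ} (h0 : ∀ j, j < L - 1 → w j ≠ 0)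
    (hd : ∀ i j, i < L - 1 → j < L - 1 → i ≠ j → XX (w i) ≠ XX (w j)) :
    ∃ g : Polynomial ℂ, g.natDegree ≤ (L - 1) / 2 ∧ g * ∏ j ∈ range (L - 1), (X - C (XX (w j))) ∈ Vs L ∧
      ∀ t : ℂ, t ≠ 0 → (∀ j, j < L - 1 → XX t ≠ XX (w j)) → chr L (cns t w) = g.eval (XX t) := by
  obtain ⟨N, rfl⟩ : ∃ N, L = N + 1 := ⟨L - 1, by omega⟩
  rw [Nat.add_sub_cancel] at h0 hd ⊢
  have hc : ∀ j, 1 ≤ j → cns 1 w j = w (j - 1) := by
    intro j hj
    have hj0 : j ≠ 0 := by omega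
    simp [cns, hj0]
  obtain ⟨g, hgd, hg⟩ := chr_poly (L := N + 1) hL (y := cns 1 w) (by
    intro i j hi hi' hj hj' hij
    rw [hc i hi, hc j hj]
    exact hd _ _ (by omega) (by omega) (by omega))
  rw [Nat.add_sub_cancel] at hgd
  have hg' : ∀ t : ℂ, (∀ j, j < N → XX t ≠ XX (w j)) → chr (N + 1) (cns t w) = g.eval (XX t) := by
    intro t ht
    rw [← VE2_upd w t]
    refine hg t fun j hj hj' => ?_
    rw [hc j hj]
    exact ht _ (by omega)
  have hV : Vdm N w ≠ 0 := Vdm_ne_zero fun i j hi hj hij => hd i j hi hj hij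
  have hPQ : VE2_P N w = C ((-1) ^ N * Vdm N w) * (g * ∏ j ∈ range N, (X - C (XX (w j)))) := by
    refine Polynomial.eq_of_infinite_eval_eq _ _ ?_
    have hfin : (⋃ j : Fin N, {XX (w j)} : Set ℂ).Finite := Set.finite_iUnion fun j => Set.finite_singleton _
    refine (hfin.infinite_compl).mono ?_
    intro x hx
    obtain ⟨t, -, ht⟩ := VE2_XX x
    have hx' : ∀ j, j < N → XX t ≠ XX (w j) := by
      intro j hj h
      apply hx
      rw [Set.mem_iUnion]
      exact ⟨⟨j, hj⟩, by rw [← ht, h]; rfl⟩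
    have h1 := hg' t hx'
    unfold chr at h1
    have h3 : (∏ j ∈ range N, (XX (w j) - XX t)) ≠ 0 :=
      Finset.prod_ne_zero_iff.2 fun j hj => sub_ne_zero.2 (hx' j (Finset.mem_range.1 hj)).symm
    rw [Vdm_cns, div_eq_iff (mul_ne_zero h3 hV), VE2_eval] at h1
    have h4 : (∏ j ∈ range N, (XX (w j) - XX t)) = (-1) ^ N * ∏ j ∈ range N, (XX t - XX (w j)) := by
      have h5 : ((-1 : ℂ)) ^ N = ∏ _j ∈ range N, (-1 : ℂ) := by
        rw [Finset.prod_const, Finset.card_range]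
      rw [h5, ← Finset.prod_mul_distrib]
      refine Finset.prod_congr rfl fun j _ => ?_
      ring
    have h6 : (∏ j ∈ range N, (X - C (XX (w j)))).eval (XX t) = ∏ j ∈ range N, (XX t - XX (w j)) := by
      rw [Polynomial.eval_prod]
      refine Finset.prod_congr rfl fun j _ => ?_
      rw [Polynomial.eval_sub, Polynomial.eval_X, Polynomial.eval_C]
    show (VE2_P N w).eval x = (C ((-1) ^ N * Vdm N w) * (g * ∏ j ∈ range N, (X - C (XX (w j))))).eval x
    rw [← ht, h1, h4, Polynomial.eval_mul, Polynomial.eval_C, Polynomial.eval_mul, h6]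
    ring
  refine ⟨g, hgd, ?_, fun t _ ht => hg' t ht⟩
  have hne : ((-1 : ℂ)) ^ N * Vdm N w ≠ 0 := mul_ne_zero (pow_ne_zero _ (by norm_num)) hV
  have h7 : g * ∏ j ∈ range N, (X - C (XX (w j))) = ((-1) ^ N * Vdm N w)⁻¹ • VE2_P N w := by
    rw [hPQ, Polynomial.smul_eq_C_mul, ← mul_assoc, ← Polynomial.C_mul, inv_mul_cancel₀ hne,
      Polynomial.C_1, one_mul]
  rw [h7]
  exact Submodule.smul_mem _ _ (VE2_mem N w)

end NX
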