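import Pool.Agent.Lib.MP_216314_pr.N.VA

/-!
# Limits of polynomials of bounded degree

`lim_poly`: the values of the `g n` are bounded at `d + 1` points of `S`, so the coefficients are bounded (Lagrange interpolation: `Lagrange.interpolate`, or the linear equivalence between polynomials of degree `≤ d` and their values, a linear map between finite dimensional spaces is continuous), hence a subsequence of the coefficient vectors converges
(`tendsto_subseq_of_bounded` in `Fin (d+1) → ℂ`).
`Vs_closed`: `Vs L` is a finite dimensional, hence closed, subspace: transport to the coefficient vectors `Fin N → ℂ` (all elements of `Vs L` have degree `< N := mm (L-1)`; `f n` and `f0` have bounded degree), `Submodule.closed_of_finiteDimensional`.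
-/

set_option autoImplicit false

noncomputable section

namespace NX

open Finset PX Polynomial Filter Topology

/-- polynomial of degree `≤ d` from its coefficient vector -/
def VE3_poly (d : ℕ) : (Fin (d + 1) → ℂ) →ₗ[ℂ] Polynomial ℂ where
  toFun c := ∑ k : Fin (d + 1), C (c k) * X ^ (k : ℕ)
  map_add' c c' := by
    rw [← Finset.sum_add_distrib]
    refine Finset.sum_congr rfl fun k _ => ?_
    rw [Pi.add_apply, C_add, add_mul]
  map_smul' a c := by
    rw [Finset.smul_sum]
    refine Finset.sum_congr rfl fun k _ => ?_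
    rw [Pi.smul_apply, smul_eq_mul, C_mul, RingHom.id_apply, smul_eq_C_mul, mul_assoc]

theorem VE3_poly_coeff (d : ℕ) (c : Fin (d + 1) → ℂ) (k : ℕ) :
    (VE3_poly d c).coeff k = if h : k < d + 1 then c ⟨k, h⟩ else 0 := by
  have e : VE3_poly d c = ∑ k : Fin (d + 1), C (c k) * X ^ (k : ℕ) := rfl
  rw [e, Polynomial.finsetSum_coeff]
  by_cases h : k < d + 1
  · rw [dif_pos h, Finset.sum_eq_single ⟨k, h⟩]
    · rw [coeff_C_mul, coeff_X_pow, if_pos rfl, mul_one]
    · intro b _ hb
      rw [coeff_C_mul, coeff_X_pow, if_neg, mul_zero]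
      intro h2
      exact hb (Fin.ext h2.symm)
    · intro h2
      exact absurd (Finset.mem_univ _) h2
  · rw [dif_neg h]
    refine Finset.sum_eq_zero fun b _ => ?_
    rw [coeff_C_mul, coeff_X_pow, if_neg, mul_zero]
    intro h2
    have := b.2
    omega

theorem VE3_poly_deg (d : ℕ) (c : Fin (d + 1) → ℂ) : (VE3_poly d c).natDegree ≤ d := by
  rw [Polynomial.natDegree_le_iff_coeff_eq_zero]
  intro k hk
  rw [VE3_poly_coeff, dif_neg (by omega)]

theorem VE3_poly_eq {d : ℕ} {f : Polynomial ℂ} (h : f.natDegree ≤ d) :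
    VE3_poly d (fun k => f.coeff k) = f := by
  refine Polynomial.ext fun k => ?_
  rw [VE3_poly_coeff]
  by_cases h2 : k < d + 1
  · rw [dif_pos h2]
  · rw [dif_neg h2, Polynomial.coeff_eq_zero_of_natDegree_lt (by omega)]

/-- evaluation at `d + 1` points -/
def VE3_ev (d : ℕ) (x : Fin (d + 1) → ℂ) : (Fin (d + 1) → ℂ) →ₗ[ℂ] (Fin (d + 1) → ℂ) where
  toFun c i := (VE3_poly d c).eval (x i)
  map_add' c c' := by
    funext i
    rw [map_add, eval_add]
    rfl
  map_smul' a c := by
    funext i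
    rw [map_smul, eval_smul]
    rfl

theorem VE3_ev_inj (d : ℕ) (x : Fin (d + 1) → ℂ) (hx : Function.Injective x) :
    Function.Injective (VE3_ev d x) := by
  rw [injective_iff_map_eq_zero]
  intro c hc
  have h1 : VE3_poly d c = 0 := by
    by_contra hne
    have h2 : (Finset.univ.image x) ⊆ (VE3_poly d c).roots.toFinset := by
      intro y hy
      rw [Finset.mem_image] at hy
      obtain ⟨i, _, rfl⟩ := hy
      rw [Multiset.mem_toFinset, mem_roots hne]
      exact congrFun hc i
    have h3 := Finset.card_le_card h2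
    rw [Finset.card_image_of_injective _ hx, Finset.card_univ, Fintype.card_fin] at h3
    have h4 := (Multiset.toFinset_card_le (VE3_poly d c).roots).trans (card_roots' (VE3_poly d c))
    have h5 := VE3_poly_deg d c
    omega
  funext k
  have h2 := VE3_poly_coeff d c k
  rw [dif_pos k.2, h1, coeff_zero] at h2
  exact h2.symm

theorem lim_poly (d : ℕ) (g : ℕ → Polynomial ℂ) (hd : ∀ n, (g n).natDegree ≤ d) (S : Set ℂ) (hS : S.Infinite) (φ : ℂ → ℂ)
    (h : ∀ u ∈ S, Tendsto (fun n => ((g n).eval u) ^ 2) atTop (𝓝 (φ u))) :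
    ∃ (g0 : Polynomial ℂ) (ψ : ℕ → ℕ), StrictMono ψ ∧ g0.natDegree ≤ d ∧ ∀ k, Tendsto (fun n => (g (ψ n)).coeff k) atTop (𝓝 (g0.coeff k)) := by
  obtain ⟨x, hx⟩ := hS.natEmbedding
  let y : Fin (d + 1) → ℂ := fun i => (x i : ℂ)
  have hy : Function.Injective y := by
    intro i j hij
    exact Fin.ext (hx (Subtype.ext hij))
  let T := VE3_ev d y
  have hT : Function.Injective T := VE3_ev_inj d y hy
  let e := LinearEquiv.ofInjectiveEndo T hT
  have hcont : Continuous e.symm := LinearMap.continuous_of_finiteDimensional e.symm.toLinearMap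
  -- the values are bounded
  have hb : ∀ i : Fin (d + 1), ∃ B : ℝ, ∀ n, ‖(g n).eval (y i)‖ ≤ B := by
    intro i
    have h1 := h (y i) (x i).2
    obtain ⟨B, hB⟩ := h1.norm.bddAbove_range
    refine ⟨max B 1, fun n => ?_⟩
    have h2 : ‖(g n).eval (y i) ^ 2‖ ≤ B := hB ⟨n, rfl⟩
    rw [norm_pow] at h2
    by_contra hcon
    push Not at hcon
    have h3 := (le_max_left B 1)
    have h4 := (le_max_right B 1)
    nlinarith
  choose B hB using hb
  have hbdd : ∀ n, (fun i => (g n).eval (y i)) ∈ Metric.closedBall (0 : Fin (d + 1) → ℂ) (∑ i, |B i|) := by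
    intro n
    rw [mem_closedBall_zero_iff, pi_norm_le_iff_of_nonneg (Finset.sum_nonneg fun i _ => abs_nonneg _)]
    intro i
    exact (hB i n).trans ((le_abs_self _).trans (Finset.single_le_sum (f := fun i => |B i|)
      (fun i _ => abs_nonneg _) (Finset.mem_univ i)))
  obtain ⟨v, _, ψ, hψ, hlim⟩ := (isCompact_closedBall (0 : Fin (d + 1) → ℂ) (∑ i, |B i|)).tendsto_subseq hbdd
  have hlim2 := (hcont.tendsto v).comp hlim
  have hc : ∀ n, e.symm (fun i => (g n).eval (y i)) = fun k : Fin (d + 1) => (g n).coeff k := by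
    intro n
    rw [LinearEquiv.symm_apply_eq]
    funext i
    show (g n).eval (y i) = (VE3_poly d (fun k : Fin (d + 1) => (g n).coeff k)).eval (y i)
    rw [VE3_poly_eq (hd n)]
  refine ⟨VE3_poly d (e.symm v), ψ, hψ, VE3_poly_deg _ _, fun k => ?_⟩
  rw [VE3_poly_coeff]
  by_cases hk : k < d + 1
  · rw [dif_pos hk]
    have h1 := (tendsto_pi_nhds.1 hlim2) ⟨k, hk⟩
    refine h1.congr fun n => ?_
    show e.symm (fun i => (g (ψ n)).eval (y i)) ⟨k, hk⟩ = (g (ψ n)).coeff k
    rw [hc]
  · rw [dif_neg hk]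
    refine tendsto_const_nhds.congr fun n => ?_
    rw [Polynomial.coeff_eq_zero_of_natDegree_lt]
    have := hd (ψ n)
    omega

theorem lim_eval (d : ℕ) (g : ℕ → Polynomial ℂ) (hd : ∀ n, (g n).natDegree ≤ d) (g0 : Polynomial ℂ) (h0 : g0.natDegree ≤ d)
    (h : ∀ k, Tendsto (fun n => (g n).coeff k) atTop (𝓝 (g0.coeff k))) (u : ℂ) : Tendsto (fun n => (g n).eval u) atTop (𝓝 (g0.eval u)) := by
  have h1 : ∀ f : Polynomial ℂ, f.natDegree ≤ d → f.eval u = ∑ k ∈ range (d + 1), f.coeff k * u ^ k := by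
    intro f hf
    exact eval_eq_sum_range' (by omega) u
  rw [h1 g0 h0]
  refine (tendsto_finsetSum (range (d + 1)) fun k _ => (h k).mul_const (u ^ k)).congr fun n => ?_
  rw [h1 (g n) (hd n)]

theorem lim_mul (g h : ℕ → Polynomial ℂ) (g0 h0 : Polynomial ℂ) (h1 : ∀ k, Tendsto (fun n => (g n).coeff k) atTop (𝓝 (g0.coeff k)))
    (h2 : ∀ k, Tendsto (fun n => (h n).coeff k) atTop (𝓝 (h0.coeff k))) (k : ℕ) :
    Tendsto (fun n => (g n * h n).coeff k) atTop (𝓝 ((g0 * h0).coeff k)) := by
  simp only [coeff_mul]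
  exact tendsto_finsetSum _ fun x _ => (h1 x.1).mul (h2 x.2)

theorem Vs_closed (L : ℕ) (f : ℕ → Polynomial ℂ) (hf : ∀ n, f n ∈ Vs L) (f0 : Polynomial ℂ)
    (h : ∀ k, Tendsto (fun n => (f n).coeff k) atTop (𝓝 (f0.coeff k))) : f0 ∈ Vs L := by
  have hdeg : ∀ g ∈ Vs L, g.natDegree ≤ mm L := by
    intro g hg
    obtain ⟨c, rfl⟩ := mem_Vs.1 hg
    refine natDegree_sum_le_of_forall_le _ _ fun k hk => ?_
    refine (natDegree_C_mul_le _ _).trans ?_
    rw [USp_natDegree]
    have h1 : mm k < mm L := mm_strictMono (Finset.mem_range.1 hk)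
    omega
  have h0 : f0.natDegree ≤ mm L := by
    rw [Polynomial.natDegree_le_iff_coeff_eq_zero]
    intro k hk
    have h1 : Tendsto (fun n => (f n).coeff k) atTop (𝓝 0) := by
      refine tendsto_const_nhds.congr fun n => ?_
      rw [Polynomial.coeff_eq_zero_of_natDegree_lt]
      have := hdeg _ (hf n)
      omega
    exact tendsto_nhds_unique (h k) h1
  have hcl : IsClosed (((Vs L).comap (VE3_poly (mm L)) : Submodule ℂ (Fin (mm L + 1) → ℂ)) :
      Set (Fin (mm L + 1) → ℂ)) := Submodule.closed_of_finiteDimensional _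
  have h1 : Tendsto (fun n => (fun k : Fin (mm L + 1) => (f n).coeff k)) atTop
      (𝓝 (fun k : Fin (mm L + 1) => f0.coeff k)) := by
    rw [tendsto_pi_nhds]
    exact fun k => h k
  have h2 := hcl.mem_of_tendsto h1 (Eventually.of_forall fun n => by
    show VE3_poly (mm L) (fun k => (f n).coeff k) ∈ Vs L
    rw [VE3_poly_eq (hdeg _ (hf n))]
    exact hf n)
  have h3 : VE3_poly (mm L) (fun k => f0.coeff k) ∈ Vs L := h2
  rw [VE3_poly_eq h0] at h3
  exact h3

end NX
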