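import Pool.Agent.Lib.MP_216314_pr.N.VE1
import Pool.Agent.Lib.MP_216314_pr.N.VE2
import Pool.Agent.Lib.MP_216314_pr.N.VE3

/-!
# The norm as a function of one argument, the other arguments being sixth roots of unity

`DD L y` (norm, `X/PairB.lean`), `chr L` (character, `X/BB.lean`), `DD_chr : DD L y = (-om²)^(L/2) chr L y ²` for `GenT L y` and `XX (y 0) ≠ XX (y j)`. `cns u w = (u, w_0, w_1, ...)`.
`norm_poly`: for `L ≥ 1` and `w` with `w_j ^ 6 = 1` there is a polynomial `g` with `g * ∏_{j<L-1} (X - XX w_j) ∈ Vs L` and `DD L (cns u w) = (-om²)^(L/2) g(XX u)²` for all `u ≠ 0`.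
Proof. `pw ε w` (`VE1`) is generic for small `ε > 0` and converges to `w`. Choose a sequence `ε_n → 0+` of such `ε`. `chr_Vs` (`VE2`, `GenT.dist`) gives `g_n` with `chr L (cns t (pw ε_n w)) = g_n(XX t)` whenever `XX t` differs from the `XX (pw ε_n w j)`, and
`(-om²)^(L/2) g_n(XX u)² = DD L (cns u (pw ε_n w)) → DD L (cns u w)` for every `u ≠ 0` with `XX u ≠ XX (w j)` for all `j < L - 1` (`DD_chr`, `DD_tendsto`; eventually `XX u` differs from the perturbed values). `lim_poly` (`VE3`), `lim_eval`, `lim_mul`, `Vs_closed` give `g` (pass to the subsequence);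
`∏ (X - C (XX (pw ε_n w j)))` converges coefficientwise (`lim_mul`). Finally all `u ≠ 0` by continuity of both sides in `u` (`DD_tendsto`; the excluded `u` are limits of good ones). For `L = 1` everything is trivial (`DD_one`).
`norm_ones_ne`: at `y = (1, 1, ...)` the norm is not zero (`PX.val_ne`, `DD_chr` at `wv ε`, `DD_tendsto`; `wv_gen`).
-/

set_option autoImplicit false

noncomputable section

namespace NX

open Finset PX Polynomial Filter Topology

private theorem VE_root (x : ℂ) : ∃ u : ℂ, u ≠ 0 ∧ XX u = x := by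
  obtain ⟨s, hs⟩ := IsAlgClosed.exists_pow_nat_eq (x ^ 2 - 4) (n := 2) two_pos
  have h1 : ((x + s) / 2) * ((x - s) / 2) = 1 := by
    linear_combination (-1 / 4 : ℂ) * hs
  have h0 : (x + s) / 2 ≠ 0 := by
    intro h
    rw [h, zero_mul] at h1
    exact zero_ne_one h1
  refine ⟨(x + s) / 2, h0, ?_⟩
  have h2 : ((x + s) / 2)⁻¹ = (x - s) / 2 := inv_eq_of_mul_eq_one_right h1
  unfold XX
  rw [h2]
  ring

private theorem VE_XX_lim {ι : Type*} {l : Filter ι} {f : ι → ℂ} {a : ℂ} (h : Tendsto f l (𝓝 a)) (ha : a ≠ 0) :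
    Tendsto (fun i => XX (f i)) l (𝓝 (XX a)) := h.add (h.inv₀ ha)

private theorem VE_cns_lim {ι : Type*} {l : Filter ι} {u : ι → ℂ} {u0 : ℂ} {w : ι → ℕ → ℂ} {w0 : ℕ → ℂ}
    (hu : Tendsto u l (𝓝 u0)) (hw : ∀ k, Tendsto (fun i => w i k) l (𝓝 (w0 k))) (k : ℕ) :
    Tendsto (fun i => cns (u i) (w i) k) l (𝓝 (cns u0 w0 k)) := by
  unfold cns
  split_ifs
  · exact hu
  · exact hw (k - 1)

private theorem VE_cns_ne {u : ℂ} (hu : u ≠ 0) {w : ℕ → ℂ} (hw : ∀ k, w k ≠ 0) (k : ℕ) : cns u w k ≠ 0 := by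
  unfold cns
  split_ifs
  · exact hu
  · exact hw (k - 1)

private theorem VE_prod_lim (N : ℕ) (a : ℕ → ℕ → ℂ) (a0 : ℕ → ℂ) (h : ∀ j, Tendsto (fun n => a n j) atTop (𝓝 (a0 j))) :
    ∀ k, Tendsto (fun n => (∏ j ∈ range N, ((X : Polynomial ℂ) - C (a n j))).coeff k) atTop
      (𝓝 ((∏ j ∈ range N, ((X : Polynomial ℂ) - C (a0 j))).coeff k)) := by
  induction N with
  | zero =>
    intro k
    simp only [range_zero, prod_empty]
    exact tendsto_const_nhds
  | succ N ih =>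
    intro k
    simp only [prod_range_succ]
    refine lim_mul _ _ _ _ ih (fun m => ?_) k
    simp only [coeff_sub, coeff_X, coeff_C]
    refine Tendsto.sub tendsto_const_nhds ?_
    split_ifs
    · exact h N
    · exact tendsto_const_nhds

private theorem VE_bad (M : ℕ) (w : ℕ → ℂ) (hw : ∀ k, w k ≠ 0) (u : ℂ) (hu : u ≠ 0) :
    ∀ᶠ v : ℂ in 𝓝[≠] u, v ≠ 0 ∧ ∀ j, j < M → XX v ≠ XX (w j) := by
  have h0 : ∀ᶠ v : ℂ in 𝓝[≠] u, v ≠ 0 := (eventually_ne_nhds hu).filter_mono nhdsWithin_le_nhds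
  have h1 : ∀ j ∈ range M, ∀ᶠ v : ℂ in 𝓝[≠] u, v ≠ 0 → XX v ≠ XX (w j) := by
    intro j _
    have h2 : ∀ c : ℂ, ∀ᶠ v : ℂ in 𝓝[≠] u, v ≠ c := by
      intro c
      by_cases hc : u = c
      · subst hc
        exact self_mem_nhdsWithin
      · exact (eventually_ne_nhds hc).filter_mono nhdsWithin_le_nhds
    filter_upwards [h2 (w j), h2 (w j)⁻¹] with v hv1 hv2 hv0 heq
    rcases (XX_eq_iff hv0 (hw j)).1 heq with h3 | h3
    · exact hv1 h3
    · exact hv2 (eq_inv_of_mul_eq_one_left h3)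
  have h3 := (eventually_all_finset (range M)).2 h1
  filter_upwards [h0, h3] with v hv1 hv2
  exact ⟨hv1, fun j hj => hv2 j (mem_range.2 hj) hv1⟩

theorem norm_poly {L : ℕ} (hL : 1 ≤ L) (w : ℕ → ℂ) (hw : ∀ j, w j ^ 6 = 1) : ∃ g : Polynomial ℂ,
    g * ∏ j ∈ range (L - 1), (X - C (XX (w j))) ∈ Vs L ∧ ∀ u : ℂ, u ≠ 0 → DD L (cns u w) = (-om ^ 2) ^ (L / 2) * (g.eval (XX u)) ^ 2 := by
  have hw0 : ∀ j, w j ≠ 0 := by
    intro j h0
    have h4 := hw j
    rw [h0] at h4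
    norm_num at h4
  have hK : ((-om ^ 2) ^ (L / 2) : ℂ) ≠ 0 := pow_ne_zero _ (neg_ne_zero.2 (pow_ne_zero 2 om_ne_zero))
  obtain ⟨s, hs, hgen⟩ := exists_seq_forall_of_frequently (pw_gen L w hw).frequently
  have hlim : ∀ j, Tendsto (fun n => pw (s n) w j) atTop (𝓝 (w j)) := fun j => (pw_lim w j).comp hs
  have hXlim : ∀ j, Tendsto (fun n => XX (pw (s n) w j)) atTop (𝓝 (XX (w j))) := fun j => VE_XX_lim (hlim j) (hw0 j)
  have hcns : ∀ (u : ℂ) (v : ℕ → ℂ) (j : ℕ), cns u v (j + 1) = v j := by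
    intro u v j
    unfold cns
    rw [if_neg (by omega)]
    rfl
  have hch : ∀ n, ∃ g : Polynomial ℂ, g.natDegree ≤ (L - 1) / 2 ∧ g * ∏ j ∈ range (L - 1), (X - C (XX (pw (s n) w j))) ∈ Vs L ∧
      ∀ t : ℂ, t ≠ 0 → (∀ j, j < L - 1 → XX t ≠ XX (pw (s n) w j)) → chr L (cns t (pw (s n) w)) = g.eval (XX t) := by
    intro n
    have hG := hgen n 1 one_ne_zero
    refine chr_Vs hL (fun j hj => ?_) (fun i j hi hj hij => ?_)
    · have h1 := hG.1 (j + 1) (by omega)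
      rw [hcns] at h1
      exact h1
    · have h1 := hG.dist (i + 1) (j + 1) (by omega) (by omega) (by omega) (by omega) (by omega)
      rw [hcns, hcns] at h1
      exact h1
  choose g hg1 hg2 hg3 using hch
  have hDn : ∀ (n : ℕ) (u : ℂ), u ≠ 0 → (∀ j, j < L - 1 → XX u ≠ XX (pw (s n) w j)) →
      DD L (cns u (pw (s n) w)) = (-om ^ 2) ^ (L / 2) * ((g n).eval (XX u)) ^ 2 := by
    intro n u hu hd
    rw [DD_chr L _ (hgen n u hu), hg3 n u hu hd]
    intro j hj1 hj2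
    obtain ⟨i, rfl⟩ : ∃ i, j = i + 1 := ⟨j - 1, by omega⟩
    rw [hcns]
    exact hd i (by omega)
  have hDlim : ∀ u : ℂ, u ≠ 0 → Tendsto (fun n => DD L (cns u (pw (s n) w))) atTop (𝓝 (DD L (cns u w))) := by
    intro u hu
    exact DD_tendsto L (VE_cns_lim tendsto_const_nhds hlim) (VE_cns_ne hu hw0)
  have hev : ∀ u : ℂ, (∀ j, j < L - 1 → XX u ≠ XX (w j)) → ∀ᶠ n in atTop, ∀ j, j < L - 1 → XX u ≠ XX (pw (s n) w j) := by
    intro u hu
    have h1 : ∀ j ∈ range (L - 1), ∀ᶠ n in atTop, XX u ≠ XX (pw (s n) w j) := by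
      intro j hj
      filter_upwards [(hXlim j).eventually_ne (hu j (mem_range.1 hj)).symm] with n hn
      exact hn.symm
    filter_upwards [(eventually_all_finset (range (L - 1))).2 h1] with n hn j hj
    exact hn j (mem_range.2 hj)
  have hglim : ∀ u : ℂ, u ≠ 0 → (∀ j, j < L - 1 → XX u ≠ XX (w j)) →
      Tendsto (fun n => ((g n).eval (XX u)) ^ 2) atTop (𝓝 (DD L (cns u w) / (-om ^ 2) ^ (L / 2))) := by
    intro u hu hd
    refine Tendsto.congr' ?_ ((hDlim u hu).div_const _)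
    filter_upwards [hev u hd] with n hn
    rw [hDn n u hu hn, mul_div_cancel_left₀ _ hK]
  choose r hr0 hr using VE_root
  have hS : {x : ℂ | ∀ j, j < L - 1 → x ≠ XX (w j)}.Infinite := by
    refine (((range (L - 1)).image (fun j => XX (w j)) : Finset ℂ).finite_toSet.infinite_compl).mono ?_
    intro x hx j hj heq
    exact hx (Finset.mem_coe.2 (mem_image.2 ⟨j, mem_range.2 hj, heq.symm⟩))
  obtain ⟨g0, ψ, hψ, hg0, hgc⟩ := lim_poly ((L - 1) / 2) g hg1 _ hS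
    (fun x => DD L (cns (r x) w) / (-om ^ 2) ^ (L / 2)) (fun x hx => by
      have h1 := hglim (r x) (hr0 x) (fun j hj => by rw [hr]; exact hx j hj)
      rw [hr] at h1
      exact h1)
  refine ⟨g0, ?_, ?_⟩
  · refine Vs_closed L (fun n => g (ψ n) * ∏ j ∈ range (L - 1), (X - C (XX (pw (s (ψ n)) w j)))) (fun n => hg2 (ψ n)) _ ?_
    intro k
    exact lim_mul _ _ _ _ hgc (VE_prod_lim (L - 1) (fun n j => XX (pw (s (ψ n)) w j)) _
      (fun j => (hXlim j).comp hψ.tendsto_atTop)) k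
  · have hgood : ∀ u : ℂ, u ≠ 0 → (∀ j, j < L - 1 → XX u ≠ XX (w j)) →
        DD L (cns u w) = (-om ^ 2) ^ (L / 2) * (g0.eval (XX u)) ^ 2 := by
      intro u hu hd
      have h1 := (hglim u hu hd).comp hψ.tendsto_atTop
      have h2 := (lim_eval ((L - 1) / 2) (fun n => g (ψ n)) (fun n => hg1 (ψ n)) g0 hg0 hgc (XX u)).pow 2
      have h3 := tendsto_nhds_unique h1 h2
      rw [← h3, mul_div_cancel₀ _ hK]
    intro u hu
    have h1 : Tendsto (fun v : ℂ => DD L (cns v w)) (𝓝[≠] u) (𝓝 (DD L (cns u w))) :=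
      DD_tendsto L (VE_cns_lim (tendsto_id.mono_left nhdsWithin_le_nhds) (fun k => tendsto_const_nhds)) (VE_cns_ne hu hw0)
    have h2 : Tendsto (fun v : ℂ => (-om ^ 2) ^ (L / 2) * (g0.eval (XX v)) ^ 2) (𝓝[≠] u)
        (𝓝 ((-om ^ 2) ^ (L / 2) * (g0.eval (XX u)) ^ 2)) := by
      refine Tendsto.const_mul _ (Tendsto.pow ?_ 2)
      exact ((g0.continuous.tendsto (XX u)).comp (VE_XX_lim (tendsto_id.mono_left nhdsWithin_le_nhds) hu))
    refine tendsto_nhds_unique (Tendsto.congr' ?_ h1) h2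
    filter_upwards [VE_bad (L - 1) w hw0 u hu] with v hv
    exact hgood v hv.1 hv.2

theorem norm_ones_ne (L : ℕ) : DD L (fun _ => 1) ≠ 0 := by
  obtain ⟨c, hc, hcl⟩ := val_ne L
  have hD : Tendsto (fun ε : ℝ => DD L (wv ε)) (𝓝[>] 0) (𝓝 (DD L (fun _ => 1))) :=
    DD_tendsto L (fun k => (wv_tendsto k).mono_left nhdsWithin_le_nhds) (fun _ => one_ne_zero)
  have hD2 : Tendsto (fun ε : ℝ => DD L (wv ε)) (𝓝[>] 0) (𝓝 ((-om ^ 2) ^ (L / 2) * c ^ 2)) := by
    refine Tendsto.congr' ?_ ((hcl.pow 2).const_mul _)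
    filter_upwards [wv_gen L] with ε hε
    refine (DD_chr L (wv ε) hε.1.genT (fun j hj1 hj2 => ?_)).symm
    exact hε.1.dist 0 j (by omega) hj2 (by omega)
  rw [tendsto_nhds_unique hD hD2]
  exact mul_ne_zero (pow_ne_zero _ (neg_ne_zero.2 (pow_ne_zero 2 om_ne_zero))) (pow_ne_zero 2 hc)

end NX
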