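import Pool.Agent.Lib.MP_216314_pr.N.VD
import Pool.Agent.Lib.MP_216314_pr.N.VE

/-!
# Logarithmic derivatives of the norms of the two chains at `u = -om²` (`XX u = 1`)

`w1 j = 1`; `w2 n j = -om²` for `j = 2n`, `1` otherwise (`(-om²)^6 = 1`, `XX (-om²) = 1`, `XX 1 = 2`).
Chain 1, `L = 2n+1`: `norm_poly`: `g (X-2)^(2n) ∈ Vs (2n+1)`, so `= c dh (2n)` (`dh_unique`); `g(2) ≠ 0` or at least `g ≠ 0` by `norm_ones_ne`, so `c ≠ 0`; `g(1) = c dh_{2n}(1) ≠ 0` (`wN_ne`), `g'(1)/g(1) = dh_{2n}'(1)/dh_{2n}(1) + 2n = (1 - bn n)/3 + 2n`.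
`D(u) = DD (2n+1) (cns u w1) = K g(XX u)²`, `D'(u) = 2 K g(XX u) g'(XX u)(1 - u⁻²)`; at `u = -om²`: `u⁻² = om²`.
So `D' = 2 D (g'/g)(1 - om²)`.
Chain 2, `L = 2n+2`: `g (X-2)^(2n) (X-1) ∈ Vs (2n+2)`, `= c dh (2n) + d dh (2n+1)` (`dh_unique2`), vanishing at `1`: so it is a multiple of `ff n`: `= c' ff n` (`(dh k)(1) ≠ 0`). `c' ≠ 0`: otherwise `g = 0` and `DD (2n+2) (cns u (w2 n)) = 0` for all `u`, in particular for `u = 1`; by the invariance of `DD` under exchanges (`DD_sw`)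
`DD (2n+2) (cns 1 (w2 n)) = DD (2n+2) (cns (-om²) w1)` (move the last argument to the front), which is `K h(1)²` with `h (X-2)^(2n+1) = c'' dh (2n+1)`, `c'' ≠ 0` (`norm_ones_ne`), `dh (2n+1) (1) ≠ 0`: contradiction.
`g(1) = ± c' ff'(1)` and `g'(1)/g(1) = ff''(1)/(2 ff'(1)) + 2n = 1/2 - an n/3 + 2n` (`ff_one`, `ff_two`).
-/

set_option autoImplicit false

noncomputable section

namespace NX

open Finset PX Polynomial

def w1 : ℕ → ℂ := fun _ => 1

def w2 (n : ℕ) : ℕ → ℂ := fun k => if k = 2 * n then -om ^ 2 else 1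

private theorem VF_inv : (-om ^ 2)⁻¹ = -om := by
  have h1 : om ^ 3 = 1 := om_cube
  have h2 : (-om ^ 2) * (-om) = 1 := by linear_combination h1
  exact inv_eq_of_mul_eq_one_right h2

private theorem VF_ne : (-om ^ 2) ≠ 0 := neg_ne_zero.2 (pow_ne_zero _ om_ne_zero)

private theorem VF_XX : XX (-om ^ 2) = 1 := by
  unfold XX
  rw [VF_inv]
  linear_combination -om_eq

private theorem VF_XX1 : XX 1 = 2 := by
  unfold XX
  norm_num

private theorem VF_der {L : ℕ} {w : ℕ → ℂ} {g : Polynomial ℂ} {κ ρ : ℂ} (hκ : κ ≠ 0)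
    (h : ∀ u : ℂ, u ≠ 0 → DD L (cns u w) = κ * (g.eval (XX u)) ^ 2) (h0 : g.eval 1 ≠ 0)
    (h1 : (derivative g).eval 1 = ρ * g.eval 1) :
    DD L (cns (-om ^ 2) w) ≠ 0 ∧ HasDerivAt (fun u => DD L (cns u w))
      (2 * (1 - om ^ 2) * ρ * DD L (cns (-om ^ 2) w)) (-om ^ 2) := by
  have e0 : DD L (cns (-om ^ 2) w) = κ * (g.eval 1) ^ 2 := by
    rw [h _ VF_ne, VF_XX]
  refine ⟨by rw [e0]; exact mul_ne_zero hκ (pow_ne_zero _ h0), ?_⟩
  have d1 : HasDerivAt XX (1 + -((-om ^ 2) ^ 2)⁻¹) (-om ^ 2) := by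
    have h2 := (hasDerivAt_id (-om ^ 2)).add (hasDerivAt_inv VF_ne)
    exact h2
  have d2 : HasDerivAt (fun u => κ * (g.eval (XX u)) ^ 2)
      (κ * (2 * g.eval 1 * ((derivative g).eval 1 * (1 + -((-om ^ 2) ^ 2)⁻¹)))) (-om ^ 2) := by
    have h3 : HasDerivAt (fun x => g.eval x) ((derivative g).eval (XX (-om ^ 2))) (XX (-om ^ 2)) :=
      g.hasDerivAt _
    have h4 : HasDerivAt (fun u => g.eval (XX u))
        ((derivative g).eval (XX (-om ^ 2)) * (1 + -((-om ^ 2) ^ 2)⁻¹)) (-om ^ 2) :=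
      HasDerivAt.comp (-om ^ 2) h3 d1
    have h5 := (h4.pow 2).const_mul κ
    rw [VF_XX] at h5
    refine h5.congr_deriv ?_
    push_cast
    rw [pow_one]
  have d3 : HasDerivAt (fun u => DD L (cns u w))
      (κ * (2 * g.eval 1 * ((derivative g).eval 1 * (1 + -((-om ^ 2) ^ 2)⁻¹)))) (-om ^ 2) := by
    refine d2.congr_of_eventuallyEq ?_
    filter_upwards [isOpen_ne.mem_nhds VF_ne] with u hu
    exact h u hu
  refine d3.congr_deriv ?_
  rw [e0, h1, ← inv_pow, VF_inv]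
  ring

/-- value and derivative at `1` of `(X - 2)^(2n)` -/
private theorem VF_pow (n : ℕ) : ((X - C 2 : Polynomial ℂ) ^ (2 * n)).eval 1 = 1 ∧
    (derivative ((X - C 2 : Polynomial ℂ) ^ (2 * n))).eval 1 = -(2 * n) := by
  have e1 : (X - C 2 : Polynomial ℂ).eval 1 = -1 := by
    rw [eval_sub, eval_X, eval_C]
    norm_num
  have e2 : (derivative (X - C 2 : Polynomial ℂ)).eval 1 = 1 := by
    rw [derivative_sub, derivative_X, derivative_C, sub_zero, eval_one]
  constructor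
  · rw [eval_pow, e1, pow_mul, neg_one_sq, one_pow]
  · induction n with
    | zero => simp
    | succ n ih =>
      rw [show 2 * (n + 1) = 2 * n + 1 + 1 by ring, pow_succ, pow_succ, derivative_mul,
        derivative_mul, eval_add, eval_mul, eval_mul, eval_add, eval_mul, eval_mul, eval_mul,
        ih, e1, e2, eval_pow, e1, pow_mul, neg_one_sq, one_pow]
      push_cast
      ring

private theorem VF_pow_ne (m : ℕ) : ((X - C 2 : Polynomial ℂ) ^ m) ≠ 0 :=
  pow_ne_zero _ (X_sub_C_ne_zero 2)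

private theorem VF_prod1 (m : ℕ) : ∏ j ∈ range m, (X - C (XX (w1 j)) : Polynomial ℂ) = (X - C 2) ^ m := by
  have h1 : ∀ j ∈ range m, (X - C (XX (w1 j)) : Polynomial ℂ) = X - C 2 := by
    intro j _
    unfold w1
    rw [VF_XX1]
  rw [Finset.prod_congr rfl h1, Finset.prod_const, card_range]

private theorem VF_cns1 : cns 1 w1 = fun _ => 1 := by
  funext k
  unfold cns w1
  split_ifs <;> rfl

/-- the norm with the arguments `u, 1, 1, ...` -/
private theorem VF_one (k : ℕ) : ∃ (g : Polynomial ℂ) (c : ℂ), c ≠ 0 ∧ g * (X - C 2) ^ k = C c * dh k ∧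
    ∀ u : ℂ, u ≠ 0 → DD (k + 1) (cns u w1) = (-om ^ 2) ^ ((k + 1) / 2) * (g.eval (XX u)) ^ 2 := by
  obtain ⟨g, hg1, hg2⟩ := norm_poly (L := k + 1) (by omega) w1 (fun j => one_pow 6)
  rw [show k + 1 - 1 = k from rfl, VF_prod1] at hg1
  obtain ⟨c, hc⟩ := dh_unique hg1 (Dvd.intro_left g rfl)
  refine ⟨g, c, ?_, hc, hg2⟩
  rintro rfl
  rw [C_0, zero_mul] at hc
  have h0 : g = 0 := (mul_eq_zero.1 hc).resolve_right (VF_pow_ne k)
  have h1 := hg2 1 one_ne_zero
  rw [VF_cns1, h0, eval_zero] at h1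
  exact norm_ones_ne (k + 1) (by rw [h1]; ring)

private theorem VF_dh_ne (k : ℕ) : (dh k).eval 1 ≠ 0 := by
  rw [dh_one]
  exact mul_ne_zero (pow_ne_zero _ (by norm_num)) (wN_ne k)

theorem logder1 (n : ℕ) : DD (2 * n + 1) (cns (-om ^ 2) w1) ≠ 0 ∧
    HasDerivAt (fun u => DD (2 * n + 1) (cns u w1))
      (2 * (1 - om ^ 2) * ((1 - (bn n : ℂ)) / 3 + 2 * n) * DD (2 * n + 1) (cns (-om ^ 2) w1)) (-om ^ 2) := by
  obtain ⟨g, c, hc, hg, hD⟩ := VF_one (2 * n)
  obtain ⟨p1, p2⟩ := VF_pow n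
  have e1 : g.eval 1 = c * (dh (2 * n)).eval 1 := by
    have h1 := congrArg (fun f : Polynomial ℂ => f.eval 1) hg
    simp only [eval_mul, eval_C] at h1
    rw [p1, mul_one] at h1
    exact h1
  have e2 : (derivative g).eval 1 = ((1 - (bn n : ℂ)) / 3 + 2 * n) * g.eval 1 := by
    have h1 := congrArg (fun f : Polynomial ℂ => (derivative f).eval 1) hg
    simp only [derivative_mul, eval_add, eval_mul, eval_C, derivative_C, zero_mul, zero_add] at h1
    rw [p1, p2, first_even] at h1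
    rw [e1] at h1 ⊢
    linear_combination h1
  exact VF_der (pow_ne_zero _ VF_ne) hD (by rw [e1]; exact mul_ne_zero hc (VF_dh_ne _)) e2

/-- one argument `-om²` at the place `j`, all the others are `1` -/
private def VF_y (j : ℕ) : ℕ → ℂ := fun k => if k = j then -om ^ 2 else 1

private theorem VF_nz (L j : ℕ) : NZ L (VF_y j) := by
  intro k _
  unfold VF_y
  split_ifs
  · exact VF_ne
  · exact one_ne_zero

private theorem VF_move (L : ℕ) (j : ℕ) (hj : j < L) : DD L (VF_y j) = DD L (VF_y 0) := by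
  induction j with
  | zero => rfl
  | succ j ih =>
    rw [← ih (by omega), ← DD_sw L j (VF_y (j + 1)) (VF_nz L _) hj]
    congr 1
    funext k
    unfold sw VF_y
    rcases eq_or_ne k j with h1 | h1
    · subst h1
      rw [Equiv.swap_apply_left, if_pos rfl, if_pos rfl]
    · rcases eq_or_ne k (j + 1) with h2 | h2
      · subst h2
        rw [Equiv.swap_apply_right, if_neg (by omega), if_neg (by omega)]
      · rw [Equiv.swap_apply_of_ne_of_ne h1 h2, if_neg h2, if_neg h1]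

private theorem VF_w2 (n j : ℕ) : w2 n j ^ 6 = 1 := by
  unfold w2
  split_ifs
  · have h1 : om ^ 3 = 1 := om_cube
    calc (-om ^ 2) ^ 6 = (om ^ 3) ^ 4 := by ring
      _ = 1 := by rw [h1, one_pow]
  · exact one_pow 6

private theorem VF_prod2 (n : ℕ) : ∏ j ∈ range (2 * n + 1), (X - C (XX (w2 n j)) : Polynomial ℂ) =
    (X - C 2) ^ (2 * n) * (X - C 1) := by
  rw [Finset.prod_range_succ]
  have h1 : ∀ j ∈ range (2 * n), (X - C (XX (w2 n j)) : Polynomial ℂ) = X - C 2 := by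
    intro j hj
    rw [mem_range] at hj
    unfold w2
    rw [if_neg (by omega), VF_XX1]
  rw [Finset.prod_congr rfl h1, Finset.prod_const, card_range]
  unfold w2
  rw [if_pos rfl, VF_XX]

theorem logder2 (n : ℕ) : DD (2 * n + 2) (cns (-om ^ 2) (w2 n)) ≠ 0 ∧
    HasDerivAt (fun u => DD (2 * n + 2) (cns u (w2 n)))
      (2 * (1 - om ^ 2) * (1 / 2 - (an n : ℂ) / 3 + 2 * n) * DD (2 * n + 2) (cns (-om ^ 2) (w2 n))) (-om ^ 2) := by
  obtain ⟨g, hg1, hg2⟩ := norm_poly (L := 2 * n + 2) (by omega) (w2 n) (VF_w2 n)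
  rw [show 2 * n + 2 - 1 = 2 * n + 1 from rfl, VF_prod2] at hg1
  obtain ⟨p1, p2⟩ := VF_pow n
  obtain ⟨c, d, hcd⟩ := dh_unique2 hg1 (Dvd.intro_left (g * (X - C 1)) (by ring))
  have ha := VF_dh_ne (2 * n)
  -- the polynomial vanishes at `1`
  have h0 : c * (dh (2 * n)).eval 1 + d * (dh (2 * n + 1)).eval 1 = 0 := by
    have h1 := congrArg (fun f : Polynomial ℂ => f.eval 1) hcd
    simp only [eval_mul, eval_add, eval_sub, eval_X, eval_C, sub_self, mul_zero] at h1
    exact h1.symm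
  obtain ⟨c', hc'⟩ : ∃ c' : ℂ, g * ((X - C 2) ^ (2 * n) * (X - C 1)) = C c' * ff n := by
    refine ⟨-d / (dh (2 * n)).eval 1, ?_⟩
    have e1 : c = -d / (dh (2 * n)).eval 1 * (dh (2 * n + 1)).eval 1 := by
      field_simp
      linear_combination h0
    have e2 : d = -(-d / (dh (2 * n)).eval 1 * (dh (2 * n)).eval 1) := by
      field_simp
    rw [hcd]
    unfold ff
    generalize -d / (dh (2 * n)).eval 1 = c' at e1 e2
    rw [e1, e2, C_mul, C_neg, C_mul]
    ring
  -- it is not zero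
  have hc0 : c' ≠ 0 := by
    rintro rfl
    rw [C_0, zero_mul] at hc'
    have hg0 : g = 0 := (mul_eq_zero.1 hc').resolve_right
      (mul_ne_zero (VF_pow_ne _) (X_sub_C_ne_zero 1))
    have h1 := hg2 1 one_ne_zero
    rw [hg0, eval_zero] at h1
    have h2 : cns 1 (w2 n) = VF_y (2 * n + 1) := by
      funext k
      unfold cns w2 VF_y
      by_cases hk : k = 0
      · rw [if_pos hk, if_neg (by omega)]
      · rw [if_neg hk]
        by_cases hk2 : k = 2 * n + 1
        · rw [if_pos (by omega), if_pos hk2]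
        · rw [if_neg (by omega), if_neg hk2]
    have h3 : cns (-om ^ 2) w1 = VF_y 0 := by
      funext k
      unfold cns w1 VF_y
      rfl
    rw [h2, VF_move _ _ (by omega), ← h3] at h1
    obtain ⟨g1, c1, hc1, hg3, hD⟩ := VF_one (2 * n + 1)
    have h4 := hD (-om ^ 2) VF_ne
    rw [show 2 * n + 1 + 1 = 2 * n + 2 from rfl, h1, VF_XX] at h4
    have h5 : g1.eval 1 ≠ 0 := by
      intro h6
      have h7 := congrArg (fun f : Polynomial ℂ => f.eval 1) hg3
      simp only [eval_mul, eval_C] at h7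
      rw [h6, zero_mul] at h7
      exact mul_ne_zero hc1 (VF_dh_ne _) h7.symm
    have h8 : (-om ^ 2 : ℂ) ^ ((2 * n + 2) / 2) * (g1.eval 1) ^ 2 ≠ 0 :=
      mul_ne_zero (pow_ne_zero _ VF_ne) (pow_ne_zero _ h5)
    apply h8
    rw [← h4]
    ring
  have q1 : (X - C 1 : Polynomial ℂ).eval 1 = 0 := by
    rw [eval_sub, eval_X, eval_C, sub_self]
  have q2 : (derivative (X - C 1 : Polynomial ℂ)) = 1 := by
    rw [derivative_sub, derivative_X, derivative_C, sub_zero]
  have e1 : g.eval 1 = -(c' * 16 ^ n) := by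
    have h1 := congrArg (fun f : Polynomial ℂ => (derivative f).eval 1) hc'
    simp only [derivative_mul, eval_add, eval_mul, eval_C, derivative_C, zero_mul, zero_add,
      q1, q2, mul_zero, mul_one, ff_one] at h1
    rw [p1, mul_one] at h1
    rw [h1]
    ring
  have e2 : (derivative g).eval 1 = (1 / 2 - (an n : ℂ) / 3 + 2 * n) * g.eval 1 := by
    have h1 := congrArg (fun f : Polynomial ℂ => (derivative (derivative f)).eval 1) hc'
    simp only [derivative_mul, derivative_add, eval_add, eval_mul, eval_C, derivative_C, zero_mul,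
      zero_add, q1, q2, mul_zero, mul_one, ff_two] at h1
    rw [p1, p2] at h1
    rw [e1] at h1 ⊢
    linear_combination h1 / 2
  refine VF_der (pow_ne_zero _ VF_ne) hg2 ?_ e2
  rw [e1]
  exact neg_ne_zero.2 (mul_ne_zero hc0 (pow_ne_zero _ (by norm_num)))

end NX
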