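import Pool.Agent.Lib.MP_216314_pr.N.TA
import Pool.Agent.Lib.MP_216314_pr.N.VF

/-!
# The lists of the sweeps at `q = om`

`x0 = -om²`. `be om x0 1 = be om 1 x0⁻¹ = 1/2`, `be om x0 x0 = 0`, `be om x0 x0⁻¹ = 1` and all the denominators `om b - om⁻¹ a` occurring are nonzero (`2 om`, `-2 om²`, ... ; `x0⁻¹ = -om`, `om⁻¹ = om²`, `om² + om + 1 = 0`).
`p1 n`, `p2 n`: the lists of pairs (site, probability). `norm1`: `D(u) = <gv(u,1,..,1), gv(u,1,...,1)>`: `ivs (cns u w1) = cns u⁻¹ w1` and `gv (cns u⁻¹ w1) = gv (cns u w1)` (`PX.refl_left`), `DD L y = BF (gv (ivs y)) (gv y)`. `norm2`: the last argument is also inverted: `PX.refl_right`.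
`sh_p1`: `sh (p1 n) = Q1 n`. `opB_p2`: `sh (p2 n)` contains in addition the letter `2n+1` with probability zero, which does not change `opB` and `dB`.
-/

set_option autoImplicit false

noncomputable section

namespace NX

open Finset

/-- the argument of the moving line -/
def x0 : ℂ := -PX.om ^ 2

def p1 (n : ℕ) : List (ℕ × ℝ) :=
  (List.range (2 * n)).map (fun k => (k, (1 / 2 : ℝ))) ++ (List.range (2 * n)).map (fun k => (2 * n - 1 - k, (1 / 2 : ℝ)))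

def p2 (n : ℕ) : List (ℕ × ℝ) :=
  (List.range (2 * n)).map (fun k => (k, (1 / 2 : ℝ))) ++ ((2 * n, (0 : ℝ)) :: (2 * n, (1 : ℝ)) ::
    (List.range (2 * n)).map (fun k => (2 * n - 1 - k, (1 / 2 : ℝ))))

theorem x0_pow : x0 ^ 6 = 1 := by
  have h := PX.om_cube
  have h1 : x0 ^ 6 = (PX.om ^ 3) ^ 4 := by
    unfold x0
    ring
  rw [h1, h, one_pow]

theorem x0_ne : x0 ≠ 0 := neg_ne_zero.2 (pow_ne_zero 2 PX.om_ne_zero)

theorem TB_inv : x0⁻¹ = -PX.om := by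
  apply inv_eq_of_mul_eq_one_right
  unfold x0
  linear_combination PX.om_cube

theorem TB_d1 : PX.om * 1 - PX.om⁻¹ * x0 = 2 * PX.om := by
  rw [PX.om_inv]
  unfold x0
  linear_combination PX.om * PX.om_cube

theorem TB_d2 : PX.om * x0⁻¹ - PX.om⁻¹ * 1 = -2 * PX.om ^ 2 := by
  rw [PX.om_inv, TB_inv]
  ring

theorem TB_d3 : PX.om * x0 - PX.om⁻¹ * x0 = PX.om - 1 := by
  rw [PX.om_inv]
  unfold x0
  linear_combination (PX.om - 1) * PX.om_cube

theorem TB_d4 : PX.om * x0⁻¹ - PX.om⁻¹ * x0 = PX.om - PX.om ^ 2 := by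
  rw [PX.om_inv, TB_inv]
  unfold x0
  linear_combination PX.om * PX.om_cube

theorem TB_n1 : PX.om * 1 - PX.om⁻¹ * x0 ≠ 0 := by
  rw [TB_d1]
  exact mul_ne_zero two_ne_zero PX.om_ne_zero

theorem TB_n2 : PX.om * x0⁻¹ - PX.om⁻¹ * 1 ≠ 0 := by
  rw [TB_d2]
  exact mul_ne_zero (neg_ne_zero.2 two_ne_zero) (pow_ne_zero 2 PX.om_ne_zero)

theorem TB_n3 : PX.om * x0 - PX.om⁻¹ * x0 ≠ 0 := by
  rw [TB_d3]
  exact sub_ne_zero.2 PX.om_ne_one

theorem TB_n4 : PX.om * x0⁻¹ - PX.om⁻¹ * x0 ≠ 0 := by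
  rw [TB_d4]
  have h : PX.om - PX.om ^ 2 = PX.om * (1 - PX.om) := by ring
  rw [h]
  exact mul_ne_zero PX.om_ne_zero (sub_ne_zero.2 PX.om_ne_one.symm)

theorem TB_b1 : be PX.om x0 1 = 1 / 2 := by
  unfold be
  rw [div_eq_div_iff TB_n1 two_ne_zero, TB_d1]
  unfold x0
  linear_combination -2 * PX.om_eq

theorem TB_b2 : be PX.om 1 x0⁻¹ = 1 / 2 := by
  unfold be
  rw [div_eq_div_iff TB_n2 two_ne_zero, TB_d2, TB_inv]
  linear_combination 2 * PX.om_eq

theorem TB_b3 : be PX.om x0 x0 = 0 := by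
  unfold be
  rw [sub_self, zero_div]

theorem TB_b4 : be PX.om x0 x0⁻¹ = 1 := by
  unfold be
  rw [div_eq_one_iff_eq TB_n4, TB_d4, TB_inv]
  unfold x0
  ring

theorem TB_half : (((1 / 2 : ℝ)) : ℂ) = 1 / 2 := by
  push_cast
  rfl

theorem TB_w2 {n k : ℕ} (h : k ≠ 2 * n) : w2 n k = 1 := if_neg h

theorem TB_w2n (n : ℕ) : w2 n (2 * n) = x0 := if_pos rfl

theorem w2_pow (n j : ℕ) : w2 n j ^ 6 = 1 := by
  by_cases h : j = 2 * n
  · rw [h, TB_w2n]
    exact x0_pow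
  · rw [TB_w2 h, one_pow]

theorem den1 (n : ℕ) : (∀ k, k < 2 * n + 1 - 1 → PX.om * w1 k - PX.om⁻¹ * x0 ≠ 0) ∧
    ∀ k, k < 2 * n + 1 - 1 → PX.om * x0⁻¹ - PX.om⁻¹ * w1 k ≠ 0 :=
  ⟨fun _ _ => TB_n1, fun _ _ => TB_n2⟩

theorem den2 (n : ℕ) : (∀ k, k < 2 * n + 2 - 1 → PX.om * w2 n k - PX.om⁻¹ * x0 ≠ 0) ∧
    ∀ k, k < 2 * n + 2 - 1 → PX.om * x0⁻¹ - PX.om⁻¹ * w2 n k ≠ 0 := by
  constructor
  · intro k _
    by_cases h : k = 2 * n
    · rw [h, TB_w2n]
      exact TB_n3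
    · rw [TB_w2 h]
      exact TB_n1
  · intro k _
    by_cases h : k = 2 * n
    · rw [h, TB_w2n]
      exact TB_n4
    · rw [TB_w2 h]
      exact TB_n2

theorem pl1 (n : ℕ) : pl (upL x0 w1 (2 * n + 1 - 1) ++ dnL x0⁻¹ w1 (2 * n + 1 - 1)) = cst (p1 n) := by
  unfold pl cst p1 upL dnL
  rw [Nat.add_sub_cancel, List.map_append, List.map_append, List.map_map, List.map_map, List.map_map,
    List.map_map]
  refine congrArg₂ (· ++ ·) (List.map_congr_left fun k _ => ?_) (List.map_congr_left fun k _ => ?_)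
  · show (k, be PX.om x0 1) = (k, (((1 / 2 : ℝ)) : ℂ))
    rw [TB_b1, TB_half]
  · show (2 * n - 1 - k, be PX.om 1 x0⁻¹) = (2 * n - 1 - k, (((1 / 2 : ℝ)) : ℂ))
    rw [TB_b2, TB_half]

theorem pl2 (n : ℕ) : pl (upL x0 (w2 n) (2 * n + 2 - 1) ++ dnL x0⁻¹ (w2 n) (2 * n + 2 - 1)) = cst (p2 n) := by
  have hm : 2 * n + 2 - 1 = 2 * n + 1 := by omega
  have hU : pl (upL x0 (w2 n) (2 * n + 1)) =
      (List.range (2 * n)).map (fun k => (k, (((1 / 2 : ℝ)) : ℂ))) ++ [(2 * n, (((0 : ℝ)) : ℂ))] := by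
    unfold pl upL
    rw [List.range_succ, List.map_append, List.map_append, List.map_map]
    refine congrArg₂ (· ++ ·) (List.map_congr_left fun k hk => ?_) ?_
    · have hk' : k ≠ 2 * n := (List.mem_range.1 hk).ne
      show (k, be PX.om x0 (w2 n k)) = (k, (((1 / 2 : ℝ)) : ℂ))
      rw [TB_w2 hk', TB_b1, TB_half]
    · show [(2 * n, be PX.om x0 (w2 n (2 * n)))] = [(2 * n, (((0 : ℝ)) : ℂ))]
      rw [TB_w2n, TB_b3, Complex.ofReal_zero]
  have hD : pl (dnL x0⁻¹ (w2 n) (2 * n + 1)) = (2 * n, (((1 : ℝ)) : ℂ)) ::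
      (List.range (2 * n)).map (fun k => (2 * n - 1 - k, (((1 / 2 : ℝ)) : ℂ))) := by
    unfold pl dnL
    rw [List.range_succ_eq_map, List.map_cons, List.map_cons, List.map_map, List.map_map]
    refine congrArg₂ List.cons ?_ (List.map_congr_left fun k hk => ?_)
    · show (2 * n + 1 - 1 - 0, be PX.om (w2 n (2 * n + 1 - 1 - 0)) x0⁻¹) = (2 * n, (((1 : ℝ)) : ℂ))
      rw [Nat.add_sub_cancel, Nat.sub_zero, TB_w2n, TB_b4, Complex.ofReal_one]
    · have hk' := List.mem_range.1 hk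
      have h1 : 2 * n + 1 - 1 - (k + 1) = 2 * n - 1 - k := by omega
      show (2 * n + 1 - 1 - (k + 1), be PX.om (w2 n (2 * n + 1 - 1 - (k + 1))) x0⁻¹) =
        (2 * n - 1 - k, (((1 / 2 : ℝ)) : ℂ))
      rw [h1, TB_w2 (by omega), TB_b2, TB_half]
  have hA : ∀ l l' : List (ℕ × ℂ × ℂ), pl (l ++ l') = pl l ++ pl l' := fun l l' => List.map_append
  rw [hm, hA, hU, hD]
  unfold cst p2
  rw [List.map_append, List.map_map, List.map_cons, List.map_cons, List.map_map, List.append_assoc]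
  rfl

theorem sh_p1 (n : ℕ) : sh (p1 n) = Q1 n := by
  unfold sh p1 Q1
  rw [List.map_append, List.map_map, List.map_map]
  refine congrArg₂ (· ++ ·) (List.map_congr_left fun k _ => rfl) (List.map_congr_left fun k hk => ?_)
  have hk' := List.mem_range.1 hk
  have h1 : 2 * n - 1 - k + 1 = 2 * n - k := by omega
  show (2 * n - 1 - k + 1, (1 / 2 : ℝ)) = (2 * n - k, (1 / 2 : ℝ))
  rw [h1]

theorem TB_hB (i : ℕ) (v : QS.Vc) : hB i 0 v = v := by
  funext D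
  unfold hB
  rw [Complex.ofReal_zero, sub_zero, one_mul, zero_mul, add_zero]

theorem TB_p2 (n : ℕ) : sh (p2 n) = (List.range (2 * n)).map (fun k => (k + 1, (1 / 2 : ℝ))) ++
    ((2 * n + 1, (0 : ℝ)) :: (2 * n + 1, (1 : ℝ)) ::
      (List.range (2 * n)).map (fun k => (2 * n - k, (1 / 2 : ℝ)))) := by
  unfold sh p2
  rw [List.map_append, List.map_cons, List.map_cons, List.map_map, List.map_map]
  refine congrArg₂ (· ++ ·) (List.map_congr_left fun k _ => rfl) ?_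
  refine congrArg₂ List.cons rfl (congrArg₂ List.cons rfl (List.map_congr_left fun k hk => ?_))
  have hk' := List.mem_range.1 hk
  have h1 : 2 * n - 1 - k + 1 = 2 * n - k := by omega
  show (2 * n - 1 - k + 1, (1 / 2 : ℝ)) = (2 * n - k, (1 / 2 : ℝ))
  rw [h1]

theorem opB_p2 (n : ℕ) (v : QS.Vc) : opB (sh (p2 n)) v = opB (Q2 n) v ∧ dB (sh (p2 n)) v = dB (Q2 n) v := by
  have h1 : ∀ (l : List (ℕ × ℝ)) (w : QS.Vc), opB ((2 * n + 1, (0 : ℝ)) :: l) w = opB l w := by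
    intro l w
    show opB l (hB (2 * n + 1) 0 w) = opB l w
    rw [TB_hB]
  have h2 : ∀ (l : List (ℕ × ℝ)) (w : QS.Vc), dB ((2 * n + 1, (0 : ℝ)) :: l) w = dB l w := by
    intro l w
    funext D
    show dB l (hB (2 * n + 1) 0 w) D + ((0 : ℝ) : ℂ) * opB l (dEs (2 * n + 1) w) D = dB l w D
    rw [TB_hB, Complex.ofReal_zero, zero_mul, add_zero]
  rw [TB_p2]
  unfold Q2
  constructor
  · rw [opB_append, opB_append, h1]
  · rw [dB_append, dB_append, h2]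
    funext D
    rw [h1]

theorem TB_nz {L : ℕ} {u : ℂ} (hu : u ≠ 0) {w : ℕ → ℂ} (hw : ∀ k, w k ≠ 0) : PX.NZ L (PX.cns u w) := by
  intro k _
  unfold PX.cns
  split_ifs
  · exact hu
  · exact hw _

theorem norm1 (n : ℕ) {u : ℂ} (hu : u ≠ 0) :
    bf (2 * n + 1) (PX.gv (2 * n + 1) (PX.cns u w1)) (PX.gv (2 * n + 1) (PX.cns u w1)) = PX.DD (2 * n + 1) (PX.cns u w1) := by
  have hnz : PX.NZ (2 * n + 1) (PX.cns u w1) := TB_nz hu fun _ => one_ne_zero
  have h1 : PX.ivs (PX.cns u w1) = PX.iv 0 (PX.cns u w1) := by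
    funext k
    unfold PX.ivs PX.iv
    by_cases hk : k = 0
    · subst hk
      rw [Function.update_self]
    · rw [Function.update_of_ne hk]
      show ((if k = 0 then u else w1 (k - 1)))⁻¹ = if k = 0 then u else w1 (k - 1)
      rw [if_neg hk]
      exact inv_one
  unfold PX.DD bf
  rw [h1, PX.refl_left (by omega) hnz]

theorem norm2 (n : ℕ) {u : ℂ} (hu : u ≠ 0) :
    bf (2 * n + 2) (PX.gv (2 * n + 2) (PX.cns u (w2 n))) (PX.gv (2 * n + 2) (PX.cns u (w2 n))) = PX.DD (2 * n + 2) (PX.cns u (w2 n)) := by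
  have hw : ∀ k, w2 n k ≠ 0 := by
    intro k
    by_cases h : k = 2 * n
    · rw [h, TB_w2n]
      exact x0_ne
    · rw [TB_w2 h]
      exact one_ne_zero
  have hnz : PX.NZ (2 * n + 2) (PX.cns u (w2 n)) := TB_nz hu hw
  have h1 : PX.ivs (PX.cns u (w2 n)) = PX.iv 0 (PX.iv (2 * n + 2 - 1) (PX.cns u (w2 n))) := by
    funext k
    unfold PX.ivs PX.iv
    by_cases hk : k = 0
    · subst hk
      rw [Function.update_self, Function.update_of_ne (by omega)]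
    · rw [Function.update_of_ne hk]
      by_cases hk2 : k = 2 * n + 2 - 1
      · rw [hk2, Function.update_self]
      · rw [Function.update_of_ne hk2]
        show ((if k = 0 then u else w2 n (k - 1)))⁻¹ = if k = 0 then u else w2 n (k - 1)
        rw [if_neg hk, TB_w2 (by omega)]
        exact inv_one
  unfold PX.DD bf
  rw [h1, PX.refl_left (by omega) (PX.nz_iv hnz (by omega)), PX.refl_right (by omega) hnz]

end NX
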