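import Pool.Agent.Lib.MP_216314_pr.N.TB
import Pool.Agent.Lib.MP_216314_pr.N.SG

/-!
# The eigenvector and the energy of chain 2

`Ψ = tr2 n (gv (2n+2) (cns x0 (w2 n)))`. `opB (Q2 n) Ψ = Ψ`: `full_sweep` at `q = om` (`gvq_om`, `om ^ 6 = 1`), `opQ_om`, `pl2`, `tr2_opP`, `opB_p2`. `ip (n+1) Ψ Ψ = bf ... = DD (2n+2) (cns x0 (w2 n)) ≠ 0` (`ip_tr2`, `norm2`, `logder2`).
The energy: `energy` with `L = 2n+2`, `a = x0`, `w = w2 n`. `hinv`: `word_inv` (`good_Q2`, `tr2_opWd`, `ip_tr2`); `hsym`: `ip Ψ (opB (Q2 n) v) = ip (opB (Q2 n) Ψ) v = ip Ψ v` (`Goodl.sym`). The sum of the probabilities is `2n+1` (`sum_Q2`, or directly for `cst (p2 n)`).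
Derivative: `norm2` (for `u` near `x0`) and `logder2`: `6 (1/2 - an/3 + 2n) - (2n+1) = 2 + 10 n - 2 an`, i.e. `bf (dP Ψ) = (1 - om)(2 + 10 n - 2 an) D = (om - 1)(2 an - 10 n - 2) D`; `om² x0 (1 - om²) = 1 - om`; `s⁴ = om`.
-/

set_option autoImplicit false

noncomputable section

namespace NX

open Finset QS

private theorem TC2_sum (p : List (ℕ × ℝ)) :
    ((cst p).map (fun t => t.2)).sum = (((p.map (fun t => t.2)).sum : ℝ) : ℂ) := by
  unfold cst
  induction p with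
  | nil => simp
  | cons t l ih =>
    simp only [List.map_cons, List.sum_cons, Complex.ofReal_add]
    rw [← ih]

private theorem TC2_half (m : ℕ) (f : ℕ → ℕ) :
    (((List.range m).map (fun k => (f k, (1 / 2 : ℝ)))).map (fun t => t.2)).sum = m / 2 := by
  rw [List.map_map]
  induction m with
  | zero => simp
  | succ m ih =>
    rw [List.range_succ, List.map_append, List.sum_append, ih]
    simp only [List.map_cons, List.map_nil, List.sum_cons, List.sum_nil, Function.comp]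
    push_cast
    ring

private theorem TC2_p2 (n : ℕ) : ((p2 n).map (fun t => t.2)).sum = 2 * n + 1 := by
  unfold p2
  rw [List.map_append, List.sum_append, List.map_cons, List.map_cons, List.sum_cons, List.sum_cons,
    TC2_half (2 * n) (fun k => k), TC2_half (2 * n) (fun k => 2 * n - 1 - k)]
  push_cast
  ring

private theorem TC2_letters (n : ℕ) : ∀ t ∈ p2 n, t.1 + 1 < 2 * n + 2 := by
  intro t ht
  unfold p2 at ht
  rcases List.mem_append.mp ht with ht | ht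
  · obtain ⟨k, hk, rfl⟩ := List.mem_map.mp ht
    have := List.mem_range.mp hk
    show k + 1 < 2 * n + 2
    omega
  · rcases List.mem_cons.mp ht with rfl | ht
    · show 2 * n + 1 < 2 * n + 2
      omega
    · rcases List.mem_cons.mp ht with rfl | ht
      · show 2 * n + 1 < 2 * n + 2
        omega
      · obtain ⟨k, hk, rfl⟩ := List.mem_map.mp ht
        have := List.mem_range.mp hk
        show 2 * n - 1 - k + 1 < 2 * n + 2
        omega

private theorem TC2_x0 : PX.om ^ 2 * x0 * (1 - PX.om ^ 2) = 1 - PX.om := by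
  unfold x0
  linear_combination (PX.om ^ 3 - PX.om + 1) * PX.om_cube

private theorem TC2_den (L : ℕ) (a : ℂ) (w : ℕ → ℂ)
    (h : ∀ k, k < L → PX.om * w k - PX.om⁻¹ * a ≠ 0) (h' : ∀ k, k < L → PX.om * a⁻¹ - PX.om⁻¹ * w k ≠ 0) :
    ∀ t ∈ upL a w L ++ dnL a⁻¹ w L, PX.om * t.2.2 - PX.om⁻¹ * t.2.1 ≠ 0 := by
  intro t ht
  rcases List.mem_append.mp ht with ht | ht
  · obtain ⟨k, hk, rfl⟩ := List.mem_map.mp ht
    exact h k (List.mem_range.mp hk)
  · obtain ⟨k, hk, rfl⟩ := List.mem_map.mp ht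
    have hk' := List.mem_range.mp hk
    exact h' (L - 1 - k) (by omega)

theorem chain2 (n : ℕ) : ∃ Ψ : Vc, (∀ D ∈ sec (n + 1), opB (Q2 n) Ψ D = Ψ D) ∧ ip (n + 1) Ψ Ψ ≠ 0 ∧
    ip (n + 1) Ψ (dB (Q2 n) Ψ) = (s ^ 4 - 1) * ((2 * an n - 10 * n - 2 : ℝ) : ℂ) * ip (n + 1) Ψ Ψ := by
  have hw : ∀ k, w2 n k ≠ 0 := fun k h => by
    have h1 := w2_pow n k
    rw [h] at h1
    norm_num at h1
  have hden := TC2_den (2 * n + 2 - 1) x0 (w2 n) (den2 n).1 (den2 n).2
  obtain ⟨g, hg⟩ : ∃ g : PX.Vec, g = PX.gv (2 * n + 2) (PX.cns x0 (w2 n)) := ⟨_, rfl⟩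
  -- the fixed point equation
  have hfix : opP (cst (p2 n)) g = g := by
    have h1 := full_sweep PX.om_ne_zero (L := 2 * n + 2) (by omega) x0_ne hw (den2 n).1 (den2 n).2
    rw [opQ_om _ hden, pl2] at h1
    have h2 : ∀ y, gvq PX.om (2 * n + 2) y = PX.gv (2 * n + 2) y := fun y => gvq_om _ y
    have h3 : PX.om ^ 6 * x0 = x0 := by
      have h4 : PX.om ^ 6 = 1 := by
        linear_combination (PX.om ^ 3 + 1) * PX.om_cube
      rw [h4, one_mul]
    rw [h3, h2, ← hg] at h1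
    exact h1
  have hB : ∀ v : PX.Vec, opB (Q2 n) (tr2 n v) = tr2 n (opP (cst (p2 n)) v) := fun v => by
    rw [tr2_opP _ (TC2_letters n), (opB_p2 n _).1]
  have hΨ : opB (Q2 n) (tr2 n g) = tr2 n g := by rw [hB, hfix]
  have hip : ∀ v w : PX.Vec, QS.ip (n + 1) (tr2 n v) (tr2 n w) = bf (2 * n + 2) v w := fun v w => ip_tr2 n v w
  have hN : bf (2 * n + 2) g g = PX.DD (2 * n + 2) (PX.cns x0 (w2 n)) := by
    rw [hg]
    exact norm2 n x0_ne
  obtain ⟨hD0, hD1⟩ := logder2 n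
  obtain ⟨δ, hgood⟩ := good_Q2 n
  have hen := energy (L := 2 * n + 2) (by omega) x0_ne hw (den2 n).1 (den2 n).2 (by
    intro W hW
    rw [← hg, ← hip, ← hip, tr2_opWd _ hW]
    refine word_inv hgood (tr2 n g) (fun D _ => by rw [hΨ]) _ ?_
    intro i hi
    obtain ⟨j, hj, rfl⟩ := List.mem_map.mp hi
    have := hW j hj
    omega) (by
    intro v _
    rw [← hg, opQ_om _ hden, pl2, ← hip, ← hip, ← hB, hgood.sym, hΨ])
  have hder : deriv (fun u => bf (2 * n + 2) (PX.gv (2 * n + 2) (PX.cns u (w2 n))) (PX.gv (2 * n + 2) (PX.cns u (w2 n)))) x0 =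
      2 * (1 - PX.om ^ 2) * (1 / 2 - (an n : ℂ) / 3 + 2 * n) * PX.DD (2 * n + 2) (PX.cns (-PX.om ^ 2) (w2 n)) := by
    refine HasDerivAt.deriv (HasDerivAt.congr_of_eventuallyEq hD1 ?_)
    filter_upwards [isOpen_ne.mem_nhds x0_ne] with u hu
    exact norm2 n hu
  have hsum : ((cst (p2 n)).map (fun t => t.2)).sum = ((2 * n + 1 : ℝ) : ℂ) := by
    rw [TC2_sum, TC2_p2]
  refine ⟨tr2 n g, fun D _ => by rw [hΨ], ?_, ?_⟩
  · rw [hip, hN]
    exact hD0
  · have hdP : QS.ip (n + 1) (tr2 n g) (dB (Q2 n) (tr2 n g)) = bf (2 * n + 2) g (dP (cst (p2 n)) g) := by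
      rw [← hip, tr2_dP _ (TC2_letters n), (opB_p2 n _).2]
    rw [hdP, hip]
    rw [hder, pl2, hsum, ← hg, hN] at hen
    rw [hN]
    have hx : PX.DD (2 * n + 2) (PX.cns (-PX.om ^ 2) (w2 n)) = PX.DD (2 * n + 2) (PX.cns x0 (w2 n)) := rfl
    rw [hx] at hen
    have hs : s ^ 4 = PX.om := s_four_om
    rw [hs]
    push_cast at hen ⊢
    linear_combination hen + 6 * (1 / 2 - (an n : ℂ) / 3 + 2 * n) * PX.DD (2 * n + 2) (PX.cns x0 (w2 n)) * TC2_x0

end NX
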