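import Pool.Agent.Lib.MP_216314_pr.N.TC1
import Pool.Agent.Lib.MP_216314_pr.N.TC2

/-!
# The rates of the two chains

`EL_asym` with `good_Q1`, `chain1` and `good_Q2`, `chain2`.
-/

set_option autoImplicit false

noncomputable section

namespace NX

open Finset QS

theorem rate1 (n : ℕ) : ∃ C : ℝ, ∀ m : ℕ, |EL (fun _ => 1) (rep (Q1 n) m) sg0 - m * (2 * bn n - 10 * n - 2)| ≤ C := by
  obtain ⟨δ, hδ⟩ := good_Q1 n
  obtain ⟨Ψ, h, h0, hx⟩ := chain1 n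
  exact EL_asym hδ Ψ h h0 _ hx

theorem rate2 (n : ℕ) : ∃ C : ℝ, ∀ m : ℕ, |EL (fun _ => 1) (rep (Q2 n) m) sg0 - m * (2 * an n - 10 * n - 2)| ≤ C := by
  obtain ⟨δ, hδ⟩ := good_Q2 n
  obtain ⟨Ψ, h, h0, hx⟩ := chain2 n
  exact EL_asym hδ Ψ h h0 _ hx

end NX
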