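import Pool.Agent.Lib.MP_216314_pr.N.TB
import Pool.Agent.Lib.MP_216314_pr.N.SG

/-!
# The eigenvector and the energy of chain 1

`Ψ = tr (gv (2n+1) (cns x0 w1))`. `opB (Q1 n) Ψ = Ψ`: `full_sweep` at `q = om` (`gvq_om`, `om ^ 6 = 1`), `opQ_om`, `pl1`, `tr_opP`, `sh_p1`. `ip Ψ Ψ = bf ... = DD (2n+1) (cns x0 w1) ≠ 0` (`ip_tr`, `norm1`, `logder1`).
The energy: `energy` with `L = 2n+1`, `a = x0`, `w = w1`. `hinv`: `word_inv` (`good_Q1`, `tr_opWd`, `ip_tr`); `hsym`: `ip Ψ (opB (Q1 n) v) = ip (opB (Q1 n) Ψ) v = ip Ψ v` (`Goodl.sym`). The sum of the probabilities is `2n` (`sum_Q1`, or directly for `cst (p1 n)`).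
Derivative: `norm1` (for `u` near `x0`) and `logder1`: `3 om² x0 D' = 3 om² x0 * 2 (1 - om²) ((1 - bn)/3 + 2n) D`, and `om² x0 (1 - om²) = -om (1 - om²) = 1 - om` (`x0 = -om²`). So `bf (dP Ψ) = (1 - om)(6 ((1 - bn)/3 + 2n) - 2n) D = (om - 1)(2 bn - 10 n - 2) D`; `s⁴ = om`.
-/

set_option autoImplicit false

noncomputable section

namespace NX

open Finset QS

private theorem TC1_sum (p : List (ℕ × ℝ)) :
    ((cst p).map (fun t => t.2)).sum = (((p.map (fun t => t.2)).sum : ℝ) : ℂ) := by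
  unfold cst
  induction p with
  | nil => simp
  | cons t l ih =>
    simp only [List.map_cons, List.sum_cons, Complex.ofReal_add]
    rw [← ih]

private theorem TC1_sh (p : List (ℕ × ℝ)) : (sh p).map (fun t => t.2) = p.map (fun t => t.2) := by
  unfold sh
  rw [List.map_map]
  rfl

private theorem TC1_x0 : PX.om ^ 2 * x0 * (1 - PX.om ^ 2) = 1 - PX.om := by
  unfold x0
  linear_combination (PX.om ^ 3 - PX.om + 1) * PX.om_cube

private theorem TC1_den (L : ℕ) (a : ℂ) (w : ℕ → ℂ)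
    (h : ∀ k, k < L → PX.om * w k - PX.om⁻¹ * a ≠ 0) (h' : ∀ k, k < L → PX.om * a⁻¹ - PX.om⁻¹ * w k ≠ 0) :
    ∀ t ∈ upL a w L ++ dnL a⁻¹ w L, PX.om * t.2.2 - PX.om⁻¹ * t.2.1 ≠ 0 := by
  intro t ht
  rcases List.mem_append.mp ht with ht | ht
  · obtain ⟨k, hk, rfl⟩ := List.mem_map.mp ht
    exact h k (List.mem_range.mp hk)
  · obtain ⟨k, hk, rfl⟩ := List.mem_map.mp ht
    have hk' := List.mem_range.mp hk
    exact h' (L - 1 - k) (by omega)

theorem chain1 (n : ℕ) : ∃ Ψ : Vc, (∀ D ∈ sec n, opB (Q1 n) Ψ D = Ψ D) ∧ ip n Ψ Ψ ≠ 0 ∧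
    ip n Ψ (dB (Q1 n) Ψ) = (s ^ 4 - 1) * ((2 * bn n - 10 * n - 2 : ℝ) : ℂ) * ip n Ψ Ψ := by
  have hw : ∀ k, w1 k ≠ 0 := fun k => by
    unfold w1
    exact one_ne_zero
  have hden := TC1_den (2 * n + 1 - 1) x0 w1 (den1 n).1 (den1 n).2
  obtain ⟨g, hg⟩ : ∃ g : PX.Vec, g = PX.gv (2 * n + 1) (PX.cns x0 w1) := ⟨_, rfl⟩
  -- the fixed point equation
  have hfix : opP (cst (p1 n)) g = g := by
    have h1 := full_sweep PX.om_ne_zero (L := 2 * n + 1) (by omega) x0_ne hw (den1 n).1 (den1 n).2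
    rw [opQ_om _ hden, pl1] at h1
    have h2 : ∀ y, gvq PX.om (2 * n + 1) y = PX.gv (2 * n + 1) y := fun y => gvq_om _ y
    have h3 : PX.om ^ 6 * x0 = x0 := by
      have h4 : PX.om ^ 6 = 1 := by
        linear_combination (PX.om ^ 3 + 1) * PX.om_cube
      rw [h4, one_mul]
    rw [h3, h2, ← hg] at h1
    exact h1
  have hB : ∀ v : PX.Vec, opB (Q1 n) (PX.tr v) = PX.tr (opP (cst (p1 n)) v) := fun v => by
    rw [tr_opP, sh_p1]
  have hΨ : opB (Q1 n) (PX.tr g) = PX.tr g := by rw [hB, hfix]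
  have hip : ∀ v w : PX.Vec, QS.ip n (PX.tr v) (PX.tr w) = bf (2 * n + 1) v w := fun v w => ip_tr n v w
  have hN : bf (2 * n + 1) g g = PX.DD (2 * n + 1) (PX.cns x0 w1) := by
    rw [hg]
    exact norm1 n x0_ne
  obtain ⟨hD0, hD1⟩ := logder1 n
  obtain ⟨δ, hgood⟩ := good_Q1 n
  have hen := energy (L := 2 * n + 1) (by omega) x0_ne hw (den1 n).1 (den1 n).2 (by
    intro W hW
    rw [← hg, ← hip, ← hip, tr_opWd]
    refine word_inv hgood (PX.tr g) (fun D _ => by rw [hΨ]) _ ?_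
    intro i hi
    obtain ⟨j, hj, rfl⟩ := List.mem_map.mp hi
    have := hW j hj
    omega) (by
    intro v _
    rw [← hg, opQ_om _ hden, pl1, ← hip, ← hip, ← hB, hgood.sym, hΨ])
  have hder : deriv (fun u => bf (2 * n + 1) (PX.gv (2 * n + 1) (PX.cns u w1)) (PX.gv (2 * n + 1) (PX.cns u w1))) x0 =
      2 * (1 - PX.om ^ 2) * ((1 - (bn n : ℂ)) / 3 + 2 * n) * PX.DD (2 * n + 1) (PX.cns (-PX.om ^ 2) w1) := by
    refine HasDerivAt.deriv (HasDerivAt.congr_of_eventuallyEq hD1 ?_)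
    filter_upwards [isOpen_ne.mem_nhds x0_ne] with u hu
    exact norm1 n hu
  have hsum : ((cst (p1 n)).map (fun t => t.2)).sum = ((2 * n : ℝ) : ℂ) := by
    rw [TC1_sum, ← TC1_sh, sh_p1, sum_Q1]
  refine ⟨PX.tr g, fun D _ => by rw [hΨ], ?_, ?_⟩
  · rw [hip, hN]
    exact hD0
  · have hdP : QS.ip n (PX.tr g) (dB (Q1 n) (PX.tr g)) = bf (2 * n + 1) g (dP (cst (p1 n)) g) := by
      rw [← hip, tr_dP, sh_p1]
    rw [hdP, hip]
    rw [hder, pl1, hsum, ← hg, hN] at hen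
    rw [hN]
    have hx : PX.DD (2 * n + 1) (PX.cns (-PX.om ^ 2) w1) = PX.DD (2 * n + 1) (PX.cns x0 w1) := rfl
    rw [hx] at hen
    have hs : s ^ 4 = PX.om := s_four_om
    rw [hs]
    push_cast at hen ⊢
    linear_combination hen + 6 * ((1 - (bn n : ℂ)) / 3 + 2 * n) * PX.DD (2 * n + 1) (PX.cns x0 w1) * TC1_x0

end NX
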