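import Pool.Agent.Lib.MP_216314_pr.N.TC
import Pool.Agent.Lib.MP_216314_pr.N.KI

/-!
# The mean number of crossing clusters of the strip, in terms of tiles

`main_K`, `rate1`, `rate2`: `E cr = m (2 an - 2 bn) + O(1)`.
-/

set_option autoImplicit false

noncomputable section

namespace NX

open Finset QS FKH

theorem strip_tiles {n : ℕ} (hn : 1 ≤ n) : ∃ C : ℝ, ∀ m : ℕ,
    |mn (tls n (2 * m)) (fun c => (cr (Cw ∅ c) (sts n (2 * m)) (sA n (2 * m)) (sB n (2 * m)) : ℝ)) -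
      m * (2 * (an n - bn n))| ≤ C := by
  obtain ⟨C1, h1⟩ := rate1 n
  obtain ⟨C2, h2⟩ := rate2 n
  refine ⟨C1 + C2 + (20 * n + 20), fun m => ?_⟩
  have h3 := main_K hn m
  have h4 := h1 m
  have h5 := h2 m
  rw [abs_le] at h3 h4 h5 ⊢
  constructor <;> nlinarith [h3.1, h3.2, h4.1, h4.2, h5.1, h5.2]

end NX
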