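import Pool.Agent.Lib.MP_216314_pr.X.BB

/-!
# The spaces `Vs L` and the order of vanishing at `2`

`USp k`: Chebyshev polynomials of the second kind, `USp (k+2) = X USp (k+1) - USp k` (`X/BA.lean`); `mm = 1,2,4,5,7,8,...`. `Vs L`: the span of `USp (mm k - 1)`, `k < L`.
`taylor_USp`: the coefficients at `X = 2 + z` are binomial coefficients (induction along the recursion, two steps; Pascal: `C(m+1+j, 2j+1) - 2 C(m+j, 2j+1) + C(m-1+j, 2j+1) = C(m+j-1, 2j-1)`).
`choose_prod`: `C(m+j, 2j+1) (2j+1)! = m ∏_{i=1}^j (m² - i²)` (induction on `j`).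
`mom`: if `f = ∑_{k<L} c_k USp (mm k - 1)` is divisible by `(X-2)^N` then `∑ c_k mm_k (mm_k²)^j = 0` for `j < N` (the Taylor coefficients `0..N-1` vanish; `∏_{i≤j} (t - i²)` is monic in `t` of degree `j`: strong induction on `j`), hence `∑ c_k mm_k P(mm_k²) = 0` for all polynomials `P` of degree `< N`.
`Vs_zero`: `N = L` forces `c = 0` (take `P = ∏_{l≠k} (t - mm_l²)`, degree `L - 1`; the `mm_k²` are distinct and nonzero). `Vs_lead`: the Taylor coefficient `L - 1` of a monic `f ∈ Vs L` divisible by `(X-2)^(L-1)`, `c_{L-1} = 1`: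
`(2L-1)! coefficient = ∑ c_k mm_k ∏_{i≤L-1} (mm_k² - i²) = ∑ c_k mm_k ∏_{l<L-1} (mm_k² - mm_l²)` (the two monic polynomials of degree `L-1` differ by a polynomial of degree `< L - 1`) `= mm_{L-1} ∏_{l<L-1} (mm_{L-1}² - mm_l²)`.
All formulas were checked by computer.
-/

set_option autoImplicit false

noncomputable section

namespace NX

open Finset PX Polynomial

/-- the span of the Chebyshev polynomials with the exponents `mm 0, ..., mm (L-1)` -/
def Vs (L : ℕ) : Submodule ℂ (Polynomial ℂ) := Submodule.span ℂ (Set.range fun k : Fin L => USp (mm (k : ℕ) - 1))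

theorem mem_Vs {L : ℕ} {f : Polynomial ℂ} : f ∈ Vs L ↔ ∃ c : ℕ → ℂ, f = ∑ k ∈ range L, C (c k) * USp (mm k - 1) := by
  unfold Vs
  rw [Submodule.mem_span_range_iff_exists_fun]
  constructor
  · rintro ⟨c, hc⟩
    refine ⟨fun k => if h : k < L then c ⟨k, h⟩ else 0, ?_⟩
    rw [← hc, Finset.sum_range]
    refine Finset.sum_congr rfl fun k _ => ?_
    beta_reduce
    rw [dif_pos k.2, Polynomial.smul_eq_C_mul]
  · rintro ⟨c, hc⟩
    refine ⟨fun k => c k, ?_⟩
    rw [hc, Finset.sum_range]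
    refine Finset.sum_congr rfl fun k _ => ?_
    rw [Polynomial.smul_eq_C_mul]

theorem Vs_mono {L L' : ℕ} (h : L ≤ L') : Vs L ≤ Vs L' := by
  unfold Vs
  rw [Submodule.span_le]
  rintro _ ⟨k, rfl⟩
  exact Submodule.subset_span ⟨Fin.castLE h k, rfl⟩

private theorem VA_pascal (k j : ℕ) : (Nat.choose (k + j + 4) (2 * j + 3) : ℂ) =
    Nat.choose (k + j + 2) (2 * j + 1) + 2 * Nat.choose (k + j + 3) (2 * j + 3) -
      Nat.choose (k + j + 2) (2 * j + 3) := by
  have h1 := Nat.choose_succ_succ (k + j + 3) (2 * j + 2)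
  have h2 := Nat.choose_succ_succ (k + j + 2) (2 * j + 1)
  have h3 := Nat.choose_succ_succ (k + j + 2) (2 * j + 2)
  have e1 : (Nat.choose (k + j + 4) (2 * j + 3) : ℂ) =
      Nat.choose (k + j + 3) (2 * j + 2) + Nat.choose (k + j + 3) (2 * j + 3) := by
    exact_mod_cast h1
  have e2 : (Nat.choose (k + j + 3) (2 * j + 2) : ℂ) =
      Nat.choose (k + j + 2) (2 * j + 1) + Nat.choose (k + j + 2) (2 * j + 2) := by
    exact_mod_cast h2
  have e3 : (Nat.choose (k + j + 3) (2 * j + 3) : ℂ) =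
      Nat.choose (k + j + 2) (2 * j + 2) + Nat.choose (k + j + 2) (2 * j + 3) := by
    exact_mod_cast h3
  linear_combination e1 + e2 - e3

private theorem VA_taylor : ∀ (k j : ℕ),
    ((USp k).comp (X + C 2)).coeff j = (Nat.choose (k + 1 + j) (2 * j + 1) : ℂ)
  | 0, j => by
    have e : (USp 0).comp (X + C 2) = 1 := by
      show (1 : Polynomial ℂ).comp (X + C 2) = 1
      exact Polynomial.one_comp
    rw [e, Polynomial.coeff_one]
    rcases Nat.eq_zero_or_pos j with h | h
    · subst h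
      simp
    · rw [if_neg (by omega), Nat.choose_eq_zero_of_lt (by omega)]
      simp
  | 1, j => by
    have e : (USp 1).comp (X + C 2) = X + C 2 := by
      show (X : Polynomial ℂ).comp (X + C 2) = X + C 2
      exact Polynomial.X_comp
    rw [e, Polynomial.coeff_add, Polynomial.coeff_X, Polynomial.coeff_C]
    rcases j with _ | _ | j
    · rw [if_neg (by omega), if_pos rfl]
      simp
    · rw [if_pos rfl, if_neg (by omega)]
      simp
    · rw [if_neg (by omega), if_neg (by omega), Nat.choose_eq_zero_of_lt (by omega)]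
      simp
  | (k + 2), j => by
    have e : (USp (k + 2)).comp (X + C 2) =
        X * (USp (k + 1)).comp (X + C 2) + C 2 * (USp (k + 1)).comp (X + C 2) -
          (USp k).comp (X + C 2) := by
      show (X * USp (k + 1) - USp k).comp (X + C 2) = _
      rw [Polynomial.sub_comp, Polynomial.mul_comp, Polynomial.X_comp]
      ring
    rw [e, Polynomial.coeff_sub, Polynomial.coeff_add, Polynomial.coeff_C_mul,
      VA_taylor (k + 1) j, VA_taylor k j]
    rcases j with _ | j
    · rw [Polynomial.coeff_X_mul_zero]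
      simp
      ring
    · rw [Polynomial.coeff_X_mul, VA_taylor (k + 1) j]
      have h := VA_pascal k j
      have a1 : k + 2 + 1 + (j + 1) = k + j + 4 := by ring
      have a2 : 2 * (j + 1) + 1 = 2 * j + 3 := by ring
      have a3 : k + 1 + 1 + j = k + j + 2 := by ring
      have a4 : k + 1 + 1 + (j + 1) = k + j + 3 := by ring
      have a5 : k + 1 + (j + 1) = k + j + 2 := by ring
      rw [a1, a2, a3, a4, a5, h]

theorem taylor_USp (k j : ℕ) : ((USp k).comp (X + C 2)).coeff j = (Nat.choose (k + 1 + j) (2 * j + 1) : ℂ) :=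
  VA_taylor k j

private theorem VA_desc (m : ℕ) : ∀ j : ℕ, ((m + j).descFactorial (2 * j + 1) : ℂ) =
    m * ∏ i ∈ range j, ((m : ℂ) ^ 2 - ((i : ℂ) + 1) ^ 2)
  | 0 => by simp
  | (j + 1) => by
    rw [Finset.prod_range_succ, ← mul_assoc, ← VA_desc m j]
    have a1 : m + (j + 1) = m + j + 1 := by ring
    have a2 : 2 * (j + 1) + 1 = 2 * j + 1 + 1 + 1 := by ring
    rw [a1, a2, Nat.succ_descFactorial_succ, Nat.descFactorial_succ]
    by_cases h : m ≤ j
    · have h0 : (m + j).descFactorial (2 * j + 1) = 0 :=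
        Nat.descFactorial_of_lt (by omega)
      rw [h0]
      simp
    · obtain ⟨t, rfl⟩ : ∃ t, m = j + 1 + t := ⟨m - (j + 1), by omega⟩
      have a3 : j + 1 + t + j - (2 * j + 1) = t := by omega
      rw [a3]
      push_cast
      ring

theorem choose_prod (m j : ℕ) : (Nat.choose (m + j) (2 * j + 1) : ℂ) * ((2 * j + 1).factorial : ℂ) =
    m * ∏ i ∈ range j, ((m : ℂ) ^ 2 - ((i : ℂ) + 1) ^ 2) := by
  rw [← VA_desc, Nat.descFactorial_eq_factorial_mul_choose]
  push_cast
  ring

/-- divisibility by `(X - 2)^N` in terms of the Taylor coefficients -/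
theorem dvd_iff_taylor (f : Polynomial ℂ) (N : ℕ) : (X - C 2) ^ N ∣ f ↔ ∀ j < N, (f.comp (X + C 2)).coeff j = 0 := by
  rw [← Polynomial.X_pow_dvd_iff]
  constructor
  · rintro ⟨g, rfl⟩
    refine ⟨g.comp (X + C 2), ?_⟩
    rw [Polynomial.mul_comp, Polynomial.pow_comp, Polynomial.sub_comp, Polynomial.X_comp,
      Polynomial.C_comp, add_sub_cancel_right]
  · rintro ⟨g, hg⟩
    refine ⟨g.comp (X - C 2), ?_⟩
    have h1 := congrArg (fun p : Polynomial ℂ => p.comp (X - C 2)) hg
    simp only [Polynomial.mul_comp, Polynomial.X_pow_comp, Polynomial.comp_assoc,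
      Polynomial.add_comp, Polynomial.X_comp, Polynomial.C_comp, sub_add_cancel,
      Polynomial.comp_X] at h1
    exact h1

private theorem VA_coeff (L : ℕ) (c : ℕ → ℂ) (j : ℕ) :
    ((∑ k ∈ range L, C (c k) * USp (mm k - 1)).comp (X + C 2)).coeff j *
      ((2 * j + 1).factorial : ℂ) =
    ∑ k ∈ range L, c k * mm k * ∏ i ∈ range j, ((mm k : ℂ) ^ 2 - ((i : ℂ) + 1) ^ 2) := by
  have e0 : (∑ k ∈ range L, C (c k) * USp (mm k - 1)).comp (X + C 2) =
      ∑ k ∈ range L, (C (c k) * USp (mm k - 1)).comp (X + C 2) :=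
    map_sum (Polynomial.compRingHom (X + C 2 : Polynomial ℂ)) _ _
  rw [e0, Polynomial.finsetSum_coeff, Finset.sum_mul]
  refine Finset.sum_congr rfl fun k _ => ?_
  rw [Polynomial.mul_comp, Polynomial.C_comp, Polynomial.coeff_C_mul, taylor_USp]
  have e : mm k - 1 + 1 + j = mm k + j := by
    have := mm_pos k
    omega
  rw [e, mul_assoc, choose_prod, mul_assoc]

/-- the monic polynomials `∏ (X - (i+1)^2)` -/
private def VA_Q (j : ℕ) : Polynomial ℂ := ∏ i ∈ range j, (X - C (((i : ℂ) + 1) ^ 2))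

private theorem VA_Q_eval (j : ℕ) (t : ℂ) :
    (VA_Q j).eval (t ^ 2) = ∏ i ∈ range j, (t ^ 2 - ((i : ℂ) + 1) ^ 2) := by
  unfold VA_Q
  rw [Polynomial.eval_prod]
  exact Finset.prod_congr rfl fun i _ => by
    rw [Polynomial.eval_sub, Polynomial.eval_X, Polynomial.eval_C]

private theorem VA_prod_monic {ι : Type} (s : Finset ι) (a : ι → ℂ) :
    (∏ i ∈ s, (X - C (a i))).Monic ∧ (∏ i ∈ s, (X - C (a i))).natDegree = s.card := by
  refine ⟨Polynomial.monic_prod_of_monic _ _ fun i _ => Polynomial.monic_X_sub_C _, ?_⟩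
  rw [Polynomial.natDegree_prod_of_monic _ _ fun i _ => Polynomial.monic_X_sub_C _]
  simp

private theorem VA_Q_monic (j : ℕ) : (VA_Q j).Monic ∧ (VA_Q j).natDegree = j := by
  have h := VA_prod_monic (range j) (fun i : ℕ => ((i : ℂ) + 1) ^ 2)
  rw [Finset.card_range] at h
  exact h

private theorem VA_sub {p q : Polynomial ℂ} {n : ℕ} (hp : p.Monic) (hp' : p.natDegree = n)
    (hq : q.Monic) (hq' : q.natDegree = n) : (p - q).degree < n := by
  rw [Polynomial.degree_lt_iff_coeff_zero]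
  intro m hm
  rw [Polynomial.coeff_sub]
  rcases Nat.eq_or_lt_of_le hm with h | h
  · subst h
    have h1 : p.coeff n = 1 := by
      have := hp.coeff_natDegree
      rwa [hp'] at this
    have h2 : q.coeff n = 1 := by
      have := hq.coeff_natDegree
      rwa [hq'] at this
    rw [h1, h2, sub_self]
  · rw [Polynomial.coeff_eq_zero_of_natDegree_lt (by omega),
      Polynomial.coeff_eq_zero_of_natDegree_lt (by omega), sub_self]

private theorem VA_mom {L N : ℕ} {c : ℕ → ℂ}
    (h : (X - C 2) ^ N ∣ ∑ k ∈ range L, C (c k) * USp (mm k - 1)) : ∀ n ≤ N, ∀ P : Polynomial ℂ,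
    P.degree < n → ∑ k ∈ range L, c k * mm k * P.eval ((mm k : ℂ) ^ 2) = 0 := by
  intro n
  induction n with
  | zero =>
    intro _ P hP
    have h1 : P = 0 := Polynomial.ext fun m => by
      rw [(Polynomial.degree_lt_iff_coeff_zero P 0).1 hP m (Nat.zero_le _),
        Polynomial.coeff_zero]
    rw [h1]
    simp
  | succ n ih =>
    intro hn P hP
    obtain ⟨hQ1, hQ2⟩ := VA_Q_monic n
    have hR : (P - C (P.coeff n) * VA_Q n).degree < n := by
      rw [Polynomial.degree_lt_iff_coeff_zero]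
      intro m hm
      rw [Polynomial.coeff_sub, Polynomial.coeff_C_mul]
      rcases Nat.eq_or_lt_of_le hm with h1 | h1
      · subst h1
        have h2 : (VA_Q n).coeff n = 1 := by
          have := hQ1.coeff_natDegree
          rwa [hQ2] at this
        rw [h2, mul_one, sub_self]
      · have h2 : (VA_Q n).coeff m = 0 :=
          Polynomial.coeff_eq_zero_of_natDegree_lt (by omega)
        rw [(Polynomial.degree_lt_iff_coeff_zero P (n + 1)).1 hP m h1, h2, mul_zero, sub_self]
    have h3 := ih (by omega) _ hR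
    have h4 := VA_coeff L c n
    rw [(dvd_iff_taylor _ N).1 h n (by omega), zero_mul] at h4
    have h5 : ∑ k ∈ range L, c k * mm k * P.eval ((mm k : ℂ) ^ 2) =
        ∑ k ∈ range L, c k * mm k * (P - C (P.coeff n) * VA_Q n).eval ((mm k : ℂ) ^ 2) +
        P.coeff n * ∑ k ∈ range L, c k * mm k *
          ∏ i ∈ range n, ((mm k : ℂ) ^ 2 - ((i : ℂ) + 1) ^ 2) := by
      rw [Finset.mul_sum, ← Finset.sum_add_distrib]
      refine Finset.sum_congr rfl fun k _ => ?_
      rw [Polynomial.eval_sub, Polynomial.eval_mul, Polynomial.eval_C, VA_Q_eval]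
      ring
    rw [h5, h3, ← h4]
    ring

theorem mom {L N : ℕ} {c : ℕ → ℂ} (h : (X - C 2) ^ N ∣ ∑ k ∈ range L, C (c k) * USp (mm k - 1)) (P : Polynomial ℂ)
    (hP : P.degree < N) : ∑ k ∈ range L, c k * mm k * P.eval ((mm k : ℂ) ^ 2) = 0 :=
  VA_mom h N le_rfl P hP

private theorem VA_sq_ne {k l : ℕ} (h : k ≠ l) : ((mm k : ℂ) ^ 2 - (mm l : ℂ) ^ 2) ≠ 0 := by
  intro h0
  have h1 : ((mm k : ℂ) ^ 2) = (mm l : ℂ) ^ 2 := sub_eq_zero.1 h0
  have h2 : (mm k) ^ 2 = (mm l) ^ 2 := by exact_mod_cast h1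
  have h3 : mm k = mm l := by
    rcases Nat.lt_trichotomy (mm k) (mm l) with h4 | h4 | h4
    · exfalso
      nlinarith
    · exact h4
    · exfalso
      nlinarith
  exact h (mm_strictMono.injective h3)

theorem Vs_zero {L : ℕ} {f : Polynomial ℂ} (h : f ∈ Vs L) (hd : (X - C 2) ^ L ∣ f) : f = 0 := by
  obtain ⟨c, rfl⟩ := mem_Vs.1 h
  have hc : ∀ k ∈ range L, c k = 0 := by
    intro k hk
    have hL : 1 ≤ L := by
      have := Finset.mem_range.1 hk
      omega
    obtain ⟨hm, hn⟩ := VA_prod_monic ((range L).erase k) (fun l : ℕ => (mm l : ℂ) ^ 2)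
    rw [Finset.card_erase_of_mem hk, Finset.card_range] at hn
    have h1 := mom hd (∏ l ∈ (range L).erase k, (X - C ((mm l : ℂ) ^ 2))) (by
      rw [Polynomial.degree_lt_iff_coeff_zero]
      intro m hm'
      exact Polynomial.coeff_eq_zero_of_natDegree_lt (by omega))
    rw [Finset.sum_eq_single k] at h1
    · rw [Polynomial.eval_prod] at h1
      have h2 : ∏ l ∈ (range L).erase k,
          (X - C ((mm l : ℂ) ^ 2)).eval ((mm k : ℂ) ^ 2) ≠ 0 := by
        rw [Finset.prod_ne_zero_iff]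
        intro l hl
        rw [Polynomial.eval_sub, Polynomial.eval_X, Polynomial.eval_C]
        exact VA_sq_ne (Finset.ne_of_mem_erase hl).symm
      have h3 : (mm k : ℂ) ≠ 0 := by
        have := mm_pos k
        exact_mod_cast (show mm k ≠ 0 by omega)
      rcases mul_eq_zero.1 h1 with h4 | h4
      · rcases mul_eq_zero.1 h4 with h5 | h5
        · exact h5
        · exact absurd h5 h3
      · exact absurd h4 h2
    · intro l hl hne
      rw [Polynomial.eval_prod, Finset.prod_eq_zero (Finset.mem_erase.2 ⟨hne, hl⟩)]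
      · rw [mul_zero]
      · rw [Polynomial.eval_sub, Polynomial.eval_X, Polynomial.eval_C, sub_self]
    · intro h2
      exact absurd hk h2
  refine Finset.sum_eq_zero fun k hk => ?_
  rw [hc k hk, Polynomial.C_0, zero_mul]

/-- the leading Taylor coefficient -/
def ell (M : ℕ) : ℂ := mm (M - 1) * (∏ l ∈ range (M - 1), ((mm (M - 1) : ℂ) ^ 2 - (mm l : ℂ) ^ 2)) / ((2 * M - 1).factorial : ℂ)

theorem Vs_lead {L : ℕ} (hL : 1 ≤ L) {f : Polynomial ℂ} (h : f ∈ Vs L) (hm : f.coeff (mm (L - 1) - 1) = 1)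
    (hd : (X - C 2) ^ (L - 1) ∣ f) : (f.comp (X + C 2)).coeff (L - 1) = ell L := by
  obtain ⟨c, rfl⟩ := mem_Vs.1 h
  obtain ⟨M, rfl⟩ : ∃ M, L = M + 1 := ⟨L - 1, by omega⟩
  rw [Nat.add_sub_cancel] at hm hd ⊢
  have hc : c M = 1 := by
    rw [Polynomial.finsetSum_coeff, Finset.sum_range_succ, Finset.sum_eq_zero, zero_add,
      Polynomial.coeff_C_mul] at hm
    · have h1 : (USp (mm M - 1)).coeff (mm M - 1) = 1 := by
        have h2 := (USp_monic (mm M - 1)).coeff_natDegree
        rwa [USp_natDegree] at h2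
      rw [h1, mul_one] at hm
      exact hm
    · intro k hk
      have h1 : mm k < mm M := mm_strictMono (Finset.mem_range.1 hk)
      have h2 := mm_pos k
      rw [Polynomial.coeff_C_mul, Polynomial.coeff_eq_zero_of_natDegree_lt
        (by rw [USp_natDegree]; omega), mul_zero]
  have h1 := VA_coeff (M + 1) c M
  have h2 : ∑ k ∈ range (M + 1), c k * mm k *
      ∏ i ∈ range M, ((mm k : ℂ) ^ 2 - ((i : ℂ) + 1) ^ 2) =
      ∑ k ∈ range (M + 1), c k * mm k *
        (∏ l ∈ range M, (X - C ((mm l : ℂ) ^ 2))).eval ((mm k : ℂ) ^ 2) := by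
    obtain ⟨a1, a2⟩ := VA_Q_monic M
    obtain ⟨b1, b2⟩ := VA_prod_monic (range M) (fun l : ℕ => (mm l : ℂ) ^ 2)
    rw [Finset.card_range] at b2
    have h3 := mom hd (VA_Q M - ∏ l ∈ range M, (X - C ((mm l : ℂ) ^ 2)))
      (VA_sub a1 a2 b1 b2)
    rw [← sub_eq_zero, ← Finset.sum_sub_distrib, ← h3]
    refine Finset.sum_congr rfl fun k _ => ?_
    rw [Polynomial.eval_sub, VA_Q_eval]
    ring
  have h3 : ∑ k ∈ range (M + 1), c k * mm k *
        (∏ l ∈ range M, (X - C ((mm l : ℂ) ^ 2))).eval ((mm k : ℂ) ^ 2) =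
      mm M * ∏ l ∈ range M, ((mm M : ℂ) ^ 2 - (mm l : ℂ) ^ 2) := by
    rw [Finset.sum_range_succ, Finset.sum_eq_zero, zero_add, hc, one_mul, Polynomial.eval_prod]
    · congr 1
      exact Finset.prod_congr rfl fun l _ => by
        rw [Polynomial.eval_sub, Polynomial.eval_X, Polynomial.eval_C]
    · intro k hk
      rw [Polynomial.eval_prod, Finset.prod_eq_zero hk, mul_zero]
      rw [Polynomial.eval_sub, Polynomial.eval_X, Polynomial.eval_C, sub_self]
  rw [h2, h3] at h1
  unfold ell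
  have e1 : M + 1 - 1 = M := by omega
  have e2 : 2 * (M + 1) - 1 = 2 * M + 1 := by omega
  rw [e1, e2, ← h1]
  have h5 : ((2 * M + 1).factorial : ℂ) ≠ 0 := by
    exact_mod_cast (Nat.factorial_ne_zero _)
  rw [mul_div_assoc, div_self h5, mul_one]

end NX
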