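import Pool.Agent.Lib.MP_216314_pr.N.VA

/-!
# The numbers `w k`, `α k` and the leading coefficients

`wN`: `1, 1, 5, 16/5, 22, ...`: `wN (k+2) = 4 (3k+5)/(3k+4) wN k` for even `k`, `4 (3k+4)/(3k+5) wN k` for odd `k`. `alN k = (wN (k+2) + 4 wN k)/wN (k+1)`. `ell_rec`: `9 ell (k+1) = alN k * ell (k+2)`.
Proof of `ell_rec`: `∏_{l<2i} (mm_{2i}² - mm_l²) = ∏_{j=1}^{2i} 3j (3j-1)`, `∏_{l<2i+1} (mm_{2i+1}² - mm_l²) = ∏_{j=1}^{2i+1} 3j ∏_{j=1}^{2i} (3j+1)` (`mm_{2i} = 3i+1`, `mm_{2i+1} = 3i+2`; split `{mm_l}` into differences and sums, or induction on `i`: passing from `i` to `i+1`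
shifts the values; a direct induction proof: `F_{m}(l) = m² - l²` telescopes; any proof). Then everything is a product formula: put
`wN (2n) = ∏_{j<n} 4 (6j+5)/(6j+4)`, `wN (2n+1) = ∏_{j<n} 4 (6j+7)/(6j+8)`; by induction on `n` it suffices to compare the quotients of consecutive terms (`k → k+2`) of both sides of `9 ell (k+1) wN (k+1) = (wN (k+2) + 4 wN k) ell (k+2)` and the cases `k = 0, 1`.
Checked by computer for `k ≤ 8`.
-/

set_option autoImplicit false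

noncomputable section

namespace NX

open Finset PX Polynomial

def wN : ℕ → ℂ
  | 0 => 1
  | 1 => 1
  | k + 2 => wN k * 4 * (if k % 2 = 0 then (3 * (k : ℂ) + 5) / (3 * k + 4) else (3 * (k : ℂ) + 4) / (3 * k + 5))

theorem wN_zero : wN 0 = 1 := rfl

theorem wN_one : wN 1 = 1 := rfl

theorem VB_nat {a : ℕ} (h : a ≠ 0) {z : ℂ} (hz : z = (a : ℂ)) : z ≠ 0 := by
  rw [hz]
  exact_mod_cast h

theorem wN_even (n : ℕ) : wN (2 * n + 2) = wN (2 * n) * 4 * ((6 * (n : ℂ) + 5) / (6 * n + 4)) := by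
  have h : (2 * n) % 2 = 0 := by omega
  have h1 : wN (2 * n + 2) = wN (2 * n) * 4 * (if (2 * n) % 2 = 0 then
      (3 * ((2 * n : ℕ) : ℂ) + 5) / (3 * ((2 * n : ℕ) : ℂ) + 4) else
      (3 * ((2 * n : ℕ) : ℂ) + 4) / (3 * ((2 * n : ℕ) : ℂ) + 5)) := rfl
  rw [h1, if_pos h]
  push_cast
  have e1 : 3 * (2 * (n : ℂ)) + 5 = 6 * n + 5 := by ring
  have e2 : 3 * (2 * (n : ℂ)) + 4 = 6 * n + 4 := by ring
  rw [e1, e2]

theorem wN_odd (n : ℕ) : wN (2 * n + 3) = wN (2 * n + 1) * 4 * ((6 * (n : ℂ) + 7) / (6 * n + 8)) := by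
  have h : ¬ (2 * n + 1) % 2 = 0 := by omega
  have h1 : wN (2 * n + 3) = wN (2 * n + 1) * 4 * (if (2 * n + 1) % 2 = 0 then
      (3 * ((2 * n + 1 : ℕ) : ℂ) + 5) / (3 * ((2 * n + 1 : ℕ) : ℂ) + 4) else
      (3 * ((2 * n + 1 : ℕ) : ℂ) + 4) / (3 * ((2 * n + 1 : ℕ) : ℂ) + 5)) := rfl
  rw [h1, if_neg h]
  push_cast
  have e1 : 3 * (2 * (n : ℂ) + 1) + 4 = 6 * n + 7 := by ring
  have e2 : 3 * (2 * (n : ℂ) + 1) + 5 = 6 * n + 8 := by ring
  rw [e1, e2]

theorem wN_ne (k : ℕ) : wN k ≠ 0 := by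
  have key : ∀ n : ℕ, wN (2 * n) ≠ 0 ∧ wN (2 * n + 1) ≠ 0 := by
    intro n
    induction n with
    | zero => exact ⟨by rw [Nat.mul_zero, wN_zero]; exact one_ne_zero,
        by rw [Nat.mul_zero, Nat.zero_add, wN_one]; exact one_ne_zero⟩
    | succ n ih =>
      have e1 : 2 * (n + 1) = 2 * n + 2 := by ring
      have e2 : 2 * (n + 1) + 1 = 2 * n + 3 := by ring
      have h5 : (6 * (n : ℂ) + 5) ≠ 0 := VB_nat (a := 6 * n + 5) (by omega) (by push_cast; ring)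
      have h4 : (6 * (n : ℂ) + 4) ≠ 0 := VB_nat (a := 6 * n + 4) (by omega) (by push_cast; ring)
      have h7 : (6 * (n : ℂ) + 7) ≠ 0 := VB_nat (a := 6 * n + 7) (by omega) (by push_cast; ring)
      have h8 : (6 * (n : ℂ) + 8) ≠ 0 := VB_nat (a := 6 * n + 8) (by omega) (by push_cast; ring)
      rw [e2, wN_odd, e1, wN_even]
      exact ⟨mul_ne_zero (mul_ne_zero ih.1 (by norm_num)) (div_ne_zero h5 h4),
        mul_ne_zero (mul_ne_zero ih.2 (by norm_num)) (div_ne_zero h7 h8)⟩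
  rcases Nat.even_or_odd' k with ⟨n, hn | hn⟩
  · rw [hn]
    exact (key n).1
  · rw [hn]
    exact (key n).2

def alN (k : ℕ) : ℂ := (wN (k + 2) + 4 * wN k) / wN (k + 1)

theorem VB_fac (k l : ℕ) (h : l < k) : ((mm k : ℂ) ^ 2 - (mm l : ℂ) ^ 2) ≠ 0 := by
  have h1 : mm l < mm k := mm_strictMono h
  have h2 := mm_pos l
  have h3 : (mm k : ℂ) ^ 2 - (mm l : ℂ) ^ 2 = ((mm k : ℂ) - mm l) * ((mm k : ℂ) + mm l) := by ring
  rw [h3]
  refine mul_ne_zero ?_ (VB_nat (a := mm k + mm l) (by omega) (by push_cast; ring))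
  rw [sub_ne_zero]
  intro h4
  have h5 : mm k = mm l := by exact_mod_cast h4
  omega

theorem ell_ne (M : ℕ) (hM : 1 ≤ M) : ell M ≠ 0 := by
  unfold ell
  refine div_ne_zero (mul_ne_zero ?_ ?_) ?_
  · have h2 := mm_pos (M - 1)
    exact_mod_cast (by omega : mm (M - 1) ≠ 0)
  · rw [Finset.prod_ne_zero_iff]
    intro l hl
    exact VB_fac _ _ (Finset.mem_range.1 hl)
  · exact_mod_cast Nat.factorial_ne_zero _

theorem VB_D (k : ℕ) : ∏ l ∈ range (k + 2), ((mm (k + 2) : ℂ) ^ 2 - (mm l : ℂ) ^ 2) =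
    (∏ l ∈ range k, ((mm k : ℂ) ^ 2 - (mm l : ℂ) ^ 2)) * (2 * mm k * (2 * mm k + 3) *
      ((mm k : ℂ) + mm (k + 1)) * ((mm k : ℂ) + mm (k + 1) + 3)) := by
  have hm2 : ∀ j, (mm (j + 2) : ℂ) = mm j + 3 := by
    intro j
    rw [mm_add_two]
    push_cast
    ring
  have hm0 : (mm 0 : ℂ) = 1 := by
    have h : mm 0 = 1 := rfl
    rw [h, Nat.cast_one]
  have hm1 : (mm 1 : ℂ) = 2 := by
    have h : mm 1 = 2 := rfl
    rw [h]
    norm_num
  have hA : ∏ l ∈ range (k + 2), ((mm (k + 2) : ℂ) - mm l) =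
      (∏ l ∈ range k, ((mm k : ℂ) - mm l)) * ((mm k + 1) * (mm k + 2)) := by
    rw [Finset.prod_range_succ', Finset.prod_range_succ']
    have h1 : ∏ l ∈ range k, ((mm (k + 2) : ℂ) - mm (l + 1 + 1)) =
        ∏ l ∈ range k, ((mm k : ℂ) - mm l) := by
      refine Finset.prod_congr rfl fun l _ => ?_
      rw [hm2, hm2]
      ring
    rw [h1, Nat.zero_add, hm0, hm1, hm2]
    ring
  have hB : (∏ l ∈ range (k + 2), ((mm (k + 2) : ℂ) + mm l)) * ((mm k + 1) * (mm k + 2)) =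
      (∏ l ∈ range k, ((mm k : ℂ) + mm l)) * (2 * mm k * (2 * mm k + 3) *
      ((mm k : ℂ) + mm (k + 1)) * ((mm k : ℂ) + mm (k + 1) + 3)) := by
    have h1 : ∏ l ∈ range (k + 2), ((mm (k + 2) : ℂ) + mm l) =
        ∏ l ∈ range (k + 2), ((mm k : ℂ) + mm (l + 1 + 1)) := by
      refine Finset.prod_congr rfl fun l _ => ?_
      rw [hm2, hm2]
      ring
    have h2 : ∏ l ∈ range (k + 4), ((mm k : ℂ) + mm l) =
        (∏ l ∈ range (k + 2), ((mm k : ℂ) + mm (l + 1 + 1))) * ((mm k + mm 1) * (mm k + mm 0)) := by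
      rw [Finset.prod_range_succ', Finset.prod_range_succ', Nat.zero_add]
      ring
    have h3 : ∏ l ∈ range (k + 4), ((mm k : ℂ) + mm l) =
        (∏ l ∈ range k, ((mm k : ℂ) + mm l)) * (mm k + mm k) * (mm k + mm (k + 1)) *
          (mm k + mm (k + 2)) * (mm k + mm (k + 3)) := by
      rw [Finset.prod_range_succ, Finset.prod_range_succ, Finset.prod_range_succ,
        Finset.prod_range_succ]
    rw [h3, hm0, hm1, hm2, hm2 (k + 1)] at h2
    rw [h1]
    linear_combination -h2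
  have hs : ∀ (k' n : ℕ), ∏ l ∈ range n, ((mm k' : ℂ) ^ 2 - (mm l : ℂ) ^ 2) =
      (∏ l ∈ range n, ((mm k' : ℂ) - mm l)) * ∏ l ∈ range n, ((mm k' : ℂ) + mm l) := by
    intro k' n
    rw [← Finset.prod_mul_distrib]
    exact Finset.prod_congr rfl fun l _ => by ring
  rw [hs, hs, hA]
  linear_combination (∏ l ∈ range k, ((mm k : ℂ) - mm l)) * hB

theorem VB_ell (k : ℕ) : ell (k + 3) * ((2 * k + 5) * (2 * k + 4) * (2 * k + 3) * (2 * k + 2)) =
    ell (k + 1) * (2 * (mm k + 3) * (2 * mm k + 3) *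
      ((mm k : ℂ) + mm (k + 1)) * ((mm k : ℂ) + mm (k + 1) + 3)) := by
  have e1 : k + 3 - 1 = k + 2 := by omega
  have e2 : k + 1 - 1 = k := by omega
  have e3 : 2 * (k + 3) - 1 = 2 * k + 5 := by omega
  have e4 : 2 * (k + 1) - 1 = 2 * k + 1 := by omega
  have hf : ((2 * k + 5).factorial : ℂ) = (2 * k + 5) * (2 * k + 4) * (2 * k + 3) * (2 * k + 2) *
      ((2 * k + 1).factorial : ℂ) := by
    have h1 : (2 * k + 5).factorial = (2 * k + 5) * ((2 * k + 4) * ((2 * k + 3) * ((2 * k + 2) *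
        (2 * k + 1).factorial))) := by
      rw [Nat.factorial_succ, Nat.factorial_succ, Nat.factorial_succ, Nat.factorial_succ]
    rw [h1]
    push_cast
    ring
  have hf0 : ((2 * k + 1).factorial : ℂ) ≠ 0 := by exact_mod_cast Nat.factorial_ne_zero _
  have h5 : (2 * (k : ℂ) + 5) ≠ 0 := VB_nat (a := 2 * k + 5) (by omega) (by push_cast; ring)
  have h4 : (2 * (k : ℂ) + 4) ≠ 0 := VB_nat (a := 2 * k + 4) (by omega) (by push_cast; ring)
  have h3 : (2 * (k : ℂ) + 3) ≠ 0 := VB_nat (a := 2 * k + 3) (by omega) (by push_cast; ring)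
  have h2 : (2 * (k : ℂ) + 2) ≠ 0 := VB_nat (a := 2 * k + 2) (by omega) (by push_cast; ring)
  have hm2 : (mm (k + 2) : ℂ) = mm k + 3 := by
    rw [mm_add_two]
    push_cast
    ring
  unfold ell
  rw [e1, e2, e3, e4, hf, VB_D, hm2]
  field_simp

theorem VB_ell_even (n : ℕ) : ell (2 * n + 3) * (2 * (4 * n + 5) * (4 * n + 3)) =
    ell (2 * n + 1) * (9 * (3 * n + 4) * (6 * n + 5)) := by
  have h := VB_ell (2 * n)
  have hm : mm (2 * n) = 3 * n + 1 := by
    unfold mm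
    omega
  have hm1 : mm (2 * n + 1) = 3 * n + 2 := by
    unfold mm
    omega
  rw [hm, hm1] at h
  push_cast at h
  have h1 : (4 * ((n : ℂ) + 1) * (2 * n + 1)) ≠ 0 := by
    refine mul_ne_zero (mul_ne_zero (by norm_num) ?_) ?_
    · exact VB_nat (a := n + 1) (by omega) (by push_cast; ring)
    · exact VB_nat (a := 2 * n + 1) (by omega) (by push_cast; ring)
  apply mul_right_cancel₀ h1
  linear_combination h

theorem VB_ell_odd (n : ℕ) : ell (2 * n + 4) * (2 * (4 * n + 7) * (4 * n + 5)) =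
    ell (2 * n + 2) * (9 * (3 * n + 5) * (6 * n + 7)) := by
  have h := VB_ell (2 * n + 1)
  have hm : mm (2 * n + 1) = 3 * n + 2 := by
    unfold mm
    omega
  have hm1 : mm (2 * n + 1 + 1) = 3 * n + 4 := by
    unfold mm
    omega
  rw [hm, hm1] at h
  push_cast at h
  have h1 : (4 * ((n : ℂ) + 1) * (2 * n + 3)) ≠ 0 := by
    refine mul_ne_zero (mul_ne_zero (by norm_num) ?_) ?_
    · exact VB_nat (a := n + 1) (by omega) (by push_cast; ring)
    · exact VB_nat (a := 2 * n + 3) (by omega) (by push_cast; ring)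
  apply mul_right_cancel₀ h1
  have e1 : 2 * n + 1 + 3 = 2 * n + 4 := by ring
  have e2 : 2 * n + 1 + 1 = 2 * n + 2 := by ring
  rw [e1, e2] at h
  linear_combination h

theorem VB_r1 (x W E p q r s t : ℂ) (hp : p ≠ 0) (hq : q ≠ 0) (hr : r ≠ 0) (hs : s ≠ 0) (ht : t ≠ 0)
    (ep : p = 3 * x + 2) (eq : q = 3 * x + 4) (er : r = 4 * x + 3) (es : s = 4 * x + 5)
    (et : t = 4 * x + 7) :
    6 * W * (4 * x + 3) * E / (9 * (3 * x + 2)) * (9 * (9 * (3 * x + 4) * (6 * x + 5)) /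
        (2 * (4 * x + 5) * (4 * x + 3)) * 4 * ((6 * x + 7) / (2 * (3 * x + 4))) *
        (3 * (x + 1) + 2)) =
    6 * (W * 4 * ((6 * x + 5) / (2 * (3 * x + 2)))) * (4 * (x + 1) + 3) *
      (E * (9 * (3 * x + 5) * (6 * x + 7)) / (2 * (4 * x + 7) * (4 * x + 5))) := by
  rw [← ep, ← eq, ← er, ← es, ← et]
  field_simp
  rw [et]
  ring

theorem VB_r2 (x W E p : ℂ) (hp : p ≠ 0) (ep : p = 3 * x + 2) :
    6 * W * (4 * x + 3) * E / (3 * x + 2) =
    (W * 4 * ((6 * x + 5) / (2 * (3 * x + 2))) + 4 * W) * E := by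
  rw [← ep]
  field_simp
  rw [ep]
  ring

theorem VB_r3 (x W E p q r s : ℂ) (hp : p ≠ 0) (hq : q ≠ 0) (hr : r ≠ 0) (hs : s ≠ 0)
    (ep : p = 3 * x + 2) (eq : q = 3 * x + 4) (er : r = 4 * x + 3) (es : s = 4 * x + 5) :
    9 * E * W * (3 * x + 2) / (6 * (4 * x + 3)) * (9 * 4 * ((6 * x + 5) / (2 * (3 * x + 2)))) =
    (W * 4 * ((6 * x + 7) / (2 * (3 * x + 4))) + 4 * W) *
      (E * (9 * (3 * x + 4) * (6 * x + 5)) / (2 * (4 * x + 5) * (4 * x + 3))) := by
  rw [← ep, ← eq, ← er, ← es]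
  field_simp
  rw [eq, es]
  ring

theorem VB_even (n : ℕ) : 9 * ell (2 * n + 1) * wN (2 * n + 1) * (3 * n + 2) =
    6 * wN (2 * n) * (4 * n + 3) * ell (2 * n + 2) := by
  induction n with
  | zero =>
    have h1 : ell 1 = 1 := by
      unfold ell
      have h : mm (1 - 1) = 1 := rfl
      rw [h]
      simp
    have h2 : ell 2 = 1 := by
      unfold ell
      have h : mm (2 - 1) = 2 := rfl
      have h' : mm 0 = 1 := rfl
      rw [h]
      simp only [show 2 - 1 = 1 from rfl, Finset.prod_range_one, h', Nat.cast_one]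
      norm_num [Nat.factorial]
    rw [Nat.mul_zero, Nat.zero_add, Nat.zero_add, h1, h2, wN_zero, wN_one]
    norm_num
  | succ n ih =>
    have e1 : 2 * (n + 1) + 1 = 2 * n + 3 := by ring
    have e2 : 2 * (n + 1) = 2 * n + 2 := by ring
    have e3 : 2 * (n + 1) + 2 = 2 * n + 4 := by ring
    rw [e1, e3, e2, wN_even, wN_odd]
    have he := VB_ell_even n
    have ho := VB_ell_odd n
    have h4 : (6 * (n : ℂ) + 4) ≠ 0 := VB_nat (a := 6 * n + 4) (by omega) (by push_cast; ring)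
    have h8 : (6 * (n : ℂ) + 8) ≠ 0 := VB_nat (a := 6 * n + 8) (by omega) (by push_cast; ring)
    have h43 : (4 * (n : ℂ) + 3) ≠ 0 := VB_nat (a := 4 * n + 3) (by omega) (by push_cast; ring)
    have h45 : (4 * (n : ℂ) + 5) ≠ 0 := VB_nat (a := 4 * n + 5) (by omega) (by push_cast; ring)
    have h47 : (4 * (n : ℂ) + 7) ≠ 0 := VB_nat (a := 4 * n + 7) (by omega) (by push_cast; ring)
    have h32 : (3 * (n : ℂ) + 2) ≠ 0 := VB_nat (a := 3 * n + 2) (by omega) (by push_cast; ring)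
    have hee : ell (2 * n + 3) = ell (2 * n + 1) * (9 * (3 * n + 4) * (6 * n + 5)) /
        (2 * (4 * n + 5) * (4 * n + 3)) := by
      rw [eq_div_iff (mul_ne_zero (mul_ne_zero two_ne_zero h45) h43)]
      exact he
    have hoo : ell (2 * n + 4) = ell (2 * n + 2) * (9 * (3 * n + 5) * (6 * n + 7)) /
        (2 * (4 * n + 7) * (4 * n + 5)) := by
      rw [eq_div_iff (mul_ne_zero (mul_ne_zero two_ne_zero h47) h45)]
      exact ho
    have ih' : ell (2 * n + 1) * wN (2 * n + 1) =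
        6 * wN (2 * n) * (4 * n + 3) * ell (2 * n + 2) / (9 * (3 * n + 2)) := by
      rw [eq_div_iff (mul_ne_zero (by norm_num) h32)]
      linear_combination ih
    rw [hee, hoo]
    push_cast
    have h84 : (6 * (n : ℂ) + 8) = 2 * (3 * n + 4) := by ring
    have h34 : (3 * (n : ℂ) + 4) ≠ 0 := VB_nat (a := 3 * n + 4) (by omega) (by push_cast; ring)
    have h64 : (6 * (n : ℂ) + 4) = 2 * (3 * n + 2) := by ring
    have hL : 9 * (ell (2 * n + 1) * (9 * (3 * n + 4) * (6 * n + 5)) / (2 * (4 * n + 5) * (4 * n + 3))) *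
        (wN (2 * n + 1) * 4 * ((6 * n + 7) / (6 * n + 8))) * (3 * ((n : ℂ) + 1) + 2) =
        (ell (2 * n + 1) * wN (2 * n + 1)) * (9 * (9 * (3 * n + 4) * (6 * n + 5)) /
        (2 * (4 * n + 5) * (4 * n + 3)) * 4 * ((6 * n + 7) / (6 * n + 8)) * (3 * ((n : ℂ) + 1) + 2)) := by
      ring
    rw [hL, ih', h84, h64]
    exact VB_r1 (n : ℂ) (wN (2 * n)) (ell (2 * n + 2)) _ _ _ _ _ h32 h34 h43 h45 h47 rfl rfl rfl rfl rfl

theorem ell_rec (k : ℕ) : 9 * ell (k + 1) = alN k * ell (k + 2) := by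
  unfold alN
  rw [div_mul_eq_mul_div, eq_div_iff (wN_ne _)]
  rcases Nat.even_or_odd' k with ⟨n, hn | hn⟩
  · subst hn
    have h := VB_even n
    have h4 : (6 * (n : ℂ) + 4) ≠ 0 := VB_nat (a := 6 * n + 4) (by omega) (by push_cast; ring)
    have h32 : (3 * (n : ℂ) + 2) ≠ 0 := VB_nat (a := 3 * n + 2) (by omega) (by push_cast; ring)
    have h64 : (6 * (n : ℂ) + 4) = 2 * (3 * n + 2) := by ring
    rw [wN_even, h64]
    have h1 : 9 * ell (2 * n + 1) * wN (2 * n + 1) =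
        6 * wN (2 * n) * (4 * n + 3) * ell (2 * n + 2) / (3 * n + 2) := by
      rw [eq_div_iff h32]
      exact h
    rw [h1]
    exact VB_r2 (n : ℂ) (wN (2 * n)) (ell (2 * n + 2)) _ h32 rfl
  · subst hn
    have h := VB_even n
    have he := VB_ell_even n
    have h8 : (6 * (n : ℂ) + 8) ≠ 0 := VB_nat (a := 6 * n + 8) (by omega) (by push_cast; ring)
    have h32 : (3 * (n : ℂ) + 2) ≠ 0 := VB_nat (a := 3 * n + 2) (by omega) (by push_cast; ring)
    have h34 : (3 * (n : ℂ) + 4) ≠ 0 := VB_nat (a := 3 * n + 4) (by omega) (by push_cast; ring)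
    have h43 : (4 * (n : ℂ) + 3) ≠ 0 := VB_nat (a := 4 * n + 3) (by omega) (by push_cast; ring)
    have h45 : (4 * (n : ℂ) + 5) ≠ 0 := VB_nat (a := 4 * n + 5) (by omega) (by push_cast; ring)
    have h64 : (6 * (n : ℂ) + 4) = 2 * (3 * n + 2) := by ring
    have h84 : (6 * (n : ℂ) + 8) = 2 * (3 * n + 4) := by ring
    have e1 : 2 * n + 1 + 1 = 2 * n + 2 := by ring
    have e2 : 2 * n + 1 + 2 = 2 * n + 3 := by ring
    rw [e1, e2, wN_odd, wN_even, h64, h84]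
    have hee : ell (2 * n + 3) = ell (2 * n + 1) * (9 * (3 * n + 4) * (6 * n + 5)) /
        (2 * (4 * n + 5) * (4 * n + 3)) := by
      rw [eq_div_iff (mul_ne_zero (mul_ne_zero two_ne_zero h45) h43)]
      exact he
    have h1 : wN (2 * n) * ell (2 * n + 2) =
        9 * ell (2 * n + 1) * wN (2 * n + 1) * (3 * n + 2) / (6 * (4 * n + 3)) := by
      rw [eq_div_iff (mul_ne_zero (by norm_num) h43)]
      linear_combination -h
    have h2 : 9 * ell (2 * n + 2) * (wN (2 * n) * 4 * ((6 * n + 5) / (2 * (3 * n + 2)))) =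
        (wN (2 * n) * ell (2 * n + 2)) * (9 * 4 * ((6 * (n : ℂ) + 5) / (2 * (3 * n + 2)))) := by ring
    rw [h2, h1, hee]
    exact VB_r3 (n : ℂ) (wN (2 * n + 1)) (ell (2 * n + 1)) _ _ _ _ h32 h34 h43 h45 rfl rfl rfl rfl

end NX
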