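import Pool.Agent.Lib.MP_216314_pr.N.VB

/-!
# The polynomials `dh k`

`dh 0 = 1`, `dh 1 = X - 2`, `dh (k+2) = (X-2)(X+1)² dh k - alN k dh (k+1)`. By induction (two steps): `dh k ∈ Vs (k+1)`, coefficient one at `mm k - 1` (and it is the degree), `(X-2)^k ∣ dh k`, and `dh k (1) = (-1)^k wN k`.
`mul_Vs`: `(X-2)(X+1)² = X³ - 3X - 2` maps `Vs L` into `Vs (L+2)` (`(X³ - 3X) USp k = USp (k+3) + USp (k-3)`, see `US_three`, `US_three0`, `US_three1` in `X/BA.lean`; for `mm 0 = 1`: `(X³-3X) USp 0 = USp 3 - USp 1`; `mm 1 = 2`: `(X³-3X) USp 1 = USp 4 - USp 0`; `mm (k+2) = mm k + 3`).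
Order: `(X-2)^(k+1)` divides both terms of `dh (k+2)`; the Taylor coefficient of order `k+1` of `(X-2)(X+1)² dh k` is `9 ell (k+1)` (`(z + 3)² z` at `X = 2 + z`, `Vs_lead`), that of `dh (k+1)` is `ell (k+2)`; the difference vanishes by `ell_rec`.
Value at `1`: `(1-2)(1+1)² = -4`.
`dh_unique`: an element of `Vs (k+1)` divisible by `(X-2)^k` is a multiple of `dh k`: subtract the multiple with the same coefficient at `USp (mm k - 1)`; the difference lies in `Vs k` and is divisible by `(X-2)^k`: `Vs_zero`.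
`dh_unique2`: an element `f ∈ Vs (k+2)` divisible by `(X-2)^k` is a combination of `dh k` and `dh (k+1)`: subtract a multiple of `dh (k+1)` to get into `Vs (k+1)`.
-/

set_option autoImplicit false

noncomputable section

namespace NX

open Finset PX Polynomial

/-- `(X-2)(X+1)²` -/
def gg : Polynomial ℂ := (X - C 2) * (X + C 1) ^ 2

def dh : ℕ → Polynomial ℂ
  | 0 => 1
  | 1 => X - C 2
  | k + 2 => gg * dh k - C (alN k) * dh (k + 1)

theorem VC_USp (n : ℕ) : (USp n).natDegree ≤ n ∧ (USp n).coeff n = 1 := by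
  induction n using Nat.twoStepInduction with
  | zero => simp [USp]
  | one => simp [USp]
  | more n h0 h1 =>
    have hd : (USp (n + 2)) = X * USp (n + 1) - USp n := rfl
    constructor
    · rw [hd]
      refine (natDegree_sub_le _ _).trans (max_le ?_ (h0.1.trans (by omega)))
      refine natDegree_mul_le.trans ?_
      rw [natDegree_X]
      have := h1.1
      omega
    · rw [hd, coeff_sub, coeff_X_mul, h1.2, coeff_eq_zero_of_natDegree_lt (h0.1.trans_lt (by omega)), sub_zero]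

theorem VC_mem {L k : ℕ} (h : k < L) : USp (mm k - 1) ∈ Vs L :=
  Submodule.subset_span ⟨⟨k, h⟩, rfl⟩

theorem VC_C {L : ℕ} (c : ℂ) {f : Polynomial ℂ} (h : f ∈ Vs L) : C c * f ∈ Vs L := by
  rw [← smul_eq_C_mul]
  exact (Vs L).smul_mem c h

theorem VC_gg : gg = X ^ 3 - 3 * X - C 2 := by
  unfold gg
  have h1 : (C 2 : Polynomial ℂ) = 2 := rfl
  rw [h1, C_1]
  ring

theorem VC_three (k : ℕ) : (X ^ 3 - 3 * X) * USp (k + 3) = USp (k + 6) + USp k := by
  refine Polynomial.funext fun x => ?_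
  have h := US_three k x
  simp only [eval_mul, eval_sub, eval_pow, eval_X, eval_ofNat, eval_add, USp_eval]
  exact h.symm

theorem VC_three0 : (X ^ 3 - 3 * X) * USp 0 = USp 3 - USp 1 := by
  refine Polynomial.funext fun x => ?_
  have h := US_three0 x
  simp only [eval_mul, eval_sub, eval_pow, eval_X, eval_ofNat, USp_eval]
  exact h.symm

theorem VC_three1 : (X ^ 3 - 3 * X) * USp 1 = USp 4 - USp 0 := by
  refine Polynomial.funext fun x => ?_
  have h := US_three1 x
  simp only [eval_mul, eval_sub, eval_pow, eval_X, eval_ofNat, USp_eval]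
  exact h.symm

theorem VC_one {L k : ℕ} (h : k < L) : gg * USp (mm k - 1) ∈ Vs (L + 2) := by
  have hm : C 2 * USp (mm k - 1) ∈ Vs (L + 2) := VC_C 2 (VC_mem (by omega))
  rw [VC_gg, sub_mul]
  refine (Vs (L + 2)).sub_mem ?_ hm
  match k, h with
  | 0, h =>
    have h0 : mm 0 - 1 = 0 := rfl
    rw [h0, VC_three0]
    exact (Vs (L + 2)).sub_mem (VC_mem (k := 2) (by omega)) (VC_mem (k := 1) (by omega))
  | 1, h =>
    have h0 : mm 1 - 1 = 1 := rfl
    rw [h0, VC_three1]
    exact (Vs (L + 2)).sub_mem (VC_mem (k := 3) (by omega)) (VC_mem (k := 0) (by omega))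
  | k + 2, h =>
    have h1 := mm_add_two k
    have h2 := mm_add_two (k + 2)
    have h3 := mm_pos k
    have h4 : mm (k + 2) - 1 = (mm k - 1) + 3 := by omega
    have h5 : mm (k + 4) - 1 = (mm k - 1) + 6 := by
      have h6 : mm (k + 4) = mm (k + 2) + 3 := h2
      omega
    rw [h4, VC_three, ← h5]
    exact (Vs (L + 2)).add_mem (VC_mem (by omega)) (VC_mem (by omega))

theorem mul_Vs {L : ℕ} {f : Polynomial ℂ} (h : f ∈ Vs L) : gg * f ∈ Vs (L + 2) := by
  obtain ⟨c, rfl⟩ := mem_Vs.1 h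
  rw [Finset.mul_sum]
  refine (Vs (L + 2)).sum_mem fun k hk => ?_
  rw [mul_left_comm]
  exact VC_C _ (VC_one (Finset.mem_range.1 hk))

theorem VC_ggm : gg.Monic ∧ gg.natDegree = 3 := by
  have h1 : (X - C 2 : Polynomial ℂ).Monic := monic_X_sub_C 2
  have h2 : ((X + C 1 : Polynomial ℂ) ^ 2).Monic := (monic_X_add_C 1).pow 2
  refine ⟨h1.mul h2, ?_⟩
  unfold gg
  rw [h1.natDegree_mul h2, natDegree_X_sub_C, (monic_X_add_C (1 : ℂ)).natDegree_pow, natDegree_X_add_C]

theorem VC_comp : (X - C 2 : Polynomial ℂ).comp (X + C 2) = X := by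
  rw [sub_comp, X_comp, C_comp, add_sub_cancel_right]

/-- the Taylor coefficient of `gg * f` -/
theorem VC_lead {k : ℕ} {f : Polynomial ℂ} (h : (X - C 2) ^ k ∣ f) :
    ((gg * f).comp (X + C 2)).coeff (k + 1) = 9 * (f.comp (X + C 2)).coeff k := by
  obtain ⟨g, rfl⟩ := h
  obtain ⟨g', hg'⟩ : ∃ g', g' = g.comp (X + C 2) := ⟨_, rfl⟩
  have h1 : ((X - C 2) ^ k * g).comp (X + C 2) = X ^ k * g' := by
    rw [mul_comp, pow_comp, VC_comp, hg']
  have h2 : gg.comp (X + C 2) = X * (X + C 3) ^ 2 := by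
    unfold gg
    rw [mul_comp, pow_comp, VC_comp, add_comp, X_comp, C_comp, add_assoc, ← C_add]
    norm_num
  rw [mul_comp, h1, h2, show X * (X + C 3) ^ 2 * (X ^ k * g') = X ^ (k + 1) * ((X + C 3) ^ 2 * g') by ring]
  have h3 : ∀ (m : ℕ) (p : Polynomial ℂ), (X ^ m * p).coeff m = p.coeff 0 := fun m p => by
    rw [coeff_X_pow_mul', if_pos le_rfl, Nat.sub_self]
  rw [h3, h3, mul_coeff_zero]
  have h4 : ((X + C 3 : Polynomial ℂ) ^ 2).coeff 0 = 9 := by
    rw [coeff_zero_eq_eval_zero, eval_pow, eval_add, eval_X, eval_C]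
    norm_num
  rw [h4]

theorem dh_main (k : ℕ) : dh k ∈ Vs (k + 1) ∧ (dh k).coeff (mm k - 1) = 1 ∧ (dh k).natDegree = mm k - 1 ∧ (X - C 2) ^ k ∣ dh k := by
  induction k using Nat.twoStepInduction with
  | zero =>
    have h0 : mm 0 - 1 = 0 := rfl
    have h1 : dh 0 = USp (mm 0 - 1) := rfl
    refine ⟨?_, ?_, ?_, ?_⟩
    · rw [h1]
      exact VC_mem (by omega)
    · rw [h0]
      simp [dh]
    · rw [h0]
      simp [dh]
    · rw [pow_zero]
      exact one_dvd _
  | one =>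
    have h0 : mm 1 - 1 = 1 := rfl
    have h1 : dh 1 = USp (mm 1 - 1) - C 2 * USp (mm 0 - 1) := by
      have h2 : mm 0 - 1 = 0 := rfl
      rw [h0, h2]
      simp [dh, USp]
    refine ⟨?_, ?_, ?_, ?_⟩
    · rw [h1]
      exact (Vs 2).sub_mem (VC_mem (by omega)) (VC_C 2 (VC_mem (by omega)))
    · rw [h0]
      simp [dh]
    · rw [h0]
      exact natDegree_X_sub_C 2
    · rw [pow_one]
      exact dvd_rfl
  | more k ih0 ih1 =>
    obtain ⟨a1, a2, a3, a4⟩ := ih0
    obtain ⟨b1, b2, b3, b4⟩ := ih1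
    have hd : dh (k + 2) = gg * dh k - C (alN k) * dh (k + 1) := rfl
    have hm0 : (dh k).Monic := by
      unfold Monic leadingCoeff
      rw [a3, a2]
    have hm2 := mm_add_two k
    have hpos := mm_pos k
    have hpos1 := mm_pos (k + 1)
    have hlt : mm (k + 1) < mm (k + 2) := mm_strictMono (by omega)
    have hgm : (gg * dh k).Monic := VC_ggm.1.mul hm0
    have hgd : (gg * dh k).natDegree = mm (k + 2) - 1 := by
      rw [VC_ggm.1.natDegree_mul hm0, VC_ggm.2, a3]
      omega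
    have hcd : (C (alN k) * dh (k + 1)).natDegree < (gg * dh k).natDegree := by
      refine (natDegree_C_mul_le _ _).trans_lt ?_
      rw [b3, hgd]
      omega
    have hnd : (dh (k + 2)).natDegree = mm (k + 2) - 1 := by
      rw [hd, natDegree_sub_eq_left_of_natDegree_lt hcd, hgd]
    refine ⟨?_, ?_, hnd, ?_⟩
    · rw [hd]
      exact (Vs (k + 3)).sub_mem (mul_Vs a1) (VC_C _ (Vs_mono (by omega) b1))
    · rw [hd, coeff_sub]
      have h1 : (gg * dh k).coeff (mm (k + 2) - 1) = 1 := by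
        rw [← hgd]
        exact hgm
      rw [h1, coeff_eq_zero_of_natDegree_lt (by rw [← hgd]; exact hcd), sub_zero]
    · rw [dvd_iff_taylor]
      intro j hj
      rw [hd, sub_comp, coeff_sub]
      rcases Nat.lt_or_ge j (k + 1) with h | h
      · have h1 : (X - C 2) ^ (k + 1) ∣ gg * dh k := by
          rw [pow_succ, mul_comm gg]
          exact mul_dvd_mul a4 ⟨(X + C 1) ^ 2, rfl⟩
        have h2 : (X - C 2) ^ (k + 1) ∣ C (alN k) * dh (k + 1) := b4.mul_left _
        rw [(dvd_iff_taylor _ _).1 h1 j h, (dvd_iff_taylor _ _).1 h2 j h, sub_zero]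
      · have h1 : j = k + 1 := by omega
        subst h1
        have h2 := Vs_lead (L := k + 1) (by omega) a1 a2 a4
        have h3 := Vs_lead (L := k + 2) (by omega) b1 b2 b4
        rw [Nat.add_sub_cancel] at h2
        rw [show k + 2 - 1 = k + 1 from rfl] at h3
        rw [VC_lead a4, h2, mul_comp, C_comp, coeff_C_mul, h3, ell_rec, sub_self]

theorem dh_one (k : ℕ) : (dh k).eval 1 = (-1) ^ k * wN k := by
  induction k using Nat.twoStepInduction with
  | zero => simp [dh, wN]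
  | one =>
    simp only [dh, wN, eval_sub, eval_X, eval_C]
    norm_num
  | more k ih0 ih1 =>
    have hd : dh (k + 2) = gg * dh k - C (alN k) * dh (k + 1) := rfl
    have hg : gg.eval 1 = -4 := by
      unfold gg
      rw [eval_mul, eval_pow, eval_sub, eval_add, eval_X, eval_C, eval_C]
      norm_num
    have ha : alN k * wN (k + 1) = wN (k + 2) + 4 * wN k := by
      unfold alN
      exact div_mul_cancel₀ _ (wN_ne _)
    rw [hd, eval_sub, eval_mul, eval_mul, eval_C, hg, ih0, ih1]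
    linear_combination ((-1) ^ k) * ha

theorem VC_down {k : ℕ} {f : Polynomial ℂ} (h : f ∈ Vs (k + 1)) (hc : f.coeff (mm k - 1) = 0) : f ∈ Vs k := by
  obtain ⟨c, rfl⟩ := mem_Vs.1 h
  rw [Finset.sum_range_succ] at hc ⊢
  have h1 : (∑ j ∈ range k, C (c j) * USp (mm j - 1)).coeff (mm k - 1) = 0 := by
    rw [finsetSum_coeff]
    refine Finset.sum_eq_zero fun j hj => ?_
    have h2 : mm j < mm k := mm_strictMono (Finset.mem_range.1 hj)
    have h3 := mm_pos j
    rw [coeff_C_mul, coeff_eq_zero_of_natDegree_lt ((VC_USp _).1.trans_lt (by omega)), mul_zero]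
  rw [coeff_add, h1, zero_add, coeff_C_mul, (VC_USp _).2, mul_one] at hc
  rw [hc, C_0, zero_mul, add_zero]
  exact mem_Vs.2 ⟨c, rfl⟩

theorem dh_unique {k : ℕ} {f : Polynomial ℂ} (h : f ∈ Vs (k + 1)) (hd : (X - C 2) ^ k ∣ f) : ∃ c : ℂ, f = C c * dh k := by
  obtain ⟨a1, a2, -, a4⟩ := dh_main k
  refine ⟨f.coeff (mm k - 1), ?_⟩
  have h1 : f - C (f.coeff (mm k - 1)) * dh k ∈ Vs k := by
    refine VC_down ((Vs (k + 1)).sub_mem h (VC_C _ a1)) ?_
    rw [coeff_sub, coeff_C_mul, a2, mul_one, sub_self]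
  have h2 : (X - C 2) ^ k ∣ f - C (f.coeff (mm k - 1)) * dh k := dvd_sub hd (a4.mul_left _)
  exact sub_eq_zero.1 (Vs_zero h1 h2)

theorem dh_unique2 {k : ℕ} {f : Polynomial ℂ} (h : f ∈ Vs (k + 2)) (hd : (X - C 2) ^ k ∣ f) :
    ∃ c d : ℂ, f = C c * dh k + C d * dh (k + 1) := by
  obtain ⟨a1, a2, -, a4⟩ := dh_main (k + 1)
  have h1 : f - C (f.coeff (mm (k + 1) - 1)) * dh (k + 1) ∈ Vs (k + 1) := by
    refine VC_down ((Vs (k + 2)).sub_mem h (VC_C _ a1)) ?_
    rw [coeff_sub, coeff_C_mul, a2, mul_one, sub_self]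
  have h2 : (X - C 2) ^ k ∣ f - C (f.coeff (mm (k + 1) - 1)) * dh (k + 1) :=
    dvd_sub hd (((pow_dvd_pow _ (Nat.le_succ k)).trans a4).mul_left _)
  obtain ⟨c, hc⟩ := dh_unique h1 h2
  exact ⟨c, f.coeff (mm (k + 1) - 1), by rw [← hc, sub_add_cancel]⟩

end NX
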