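import Pool.Agent.Lib.MP_216314_pr.N.VC

/-!
# Derivatives at `1`

`g = gg = (X-2)(X+1)²`: `g(1) = -4`, `g'(1) = 0`, `g''(1) = 6`. `wron`: `W_k = dh_k' dh_{k-1} - dh_k dh_{k-1}'` at `1`: `W_{k+1} = 4 W_k`, `W_1 = 1`. `second`: `dh_k'' = dh_k' + ((1 - bb k)/3) dh_k` at `1`, `bb (2n) = 1 - 9n²`, `bb (2n+1) = -(3n+2)(3n+1)`;
induction (two steps) from `dh_{k+2}'' = 6 dh_k - 4 dh_k'' - α dh_{k+1}''`, `dh_{k+2}' = -4 dh_k' - α dh_{k+1}'` and the identity `wN (k+2) (bb (k+1) - bb (k+2)) = wN k (18 + 4 (bb k - bb (k+1)))` (`alN k * wN (k+1) = wN (k+2) + 4 wN k`).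
`an n = (3/2) ∏_{j<n} (6j+5)(6j+7)/((6j+2)(6j+4))`, `bn n = ∏_{j<n} (6j+4)(6j+8)/((6j+1)(6j+5))`.
`first_even`: `dh_{2n}'(1) = ((1 - bn n)/3) dh_{2n}(1)`: induction on `n` with `dh_{k}'/dh_k - dh_{k-1}'/dh_{k-1} = 4^(k-1)/(dh_k dh_{k-1}) = -4^(k-1)/(wN k wN (k-1))` for `k = 2n+1, 2n+2`; closed products `wN (2n) = ∏ 4(6j+5)/(6j+4)`, `wN (2n+1) = ∏ 4(6j+7)/(6j+8)`, so
`wN (2n) wN (2n+1) = 16^n ∏ (6j+5)(6j+7)/((6j+4)(6j+8))`; `bn (n+1) - bn n = bn n (36 n + 27)/((6n+1)(6n+5))`; `bn n = (6n+1) ∏ (6j+4)(6j+8)/((6j+5)(6j+7))`.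
`ff n = dh_{2n+1}(1) dh_{2n} - dh_{2n}(1) dh_{2n+1}`: `ff(1) = 0`, `ff'(1) = -16^n` (`wron`), `ff''(1) = -16^n (1 - 2 an n/3)` (`second`, `bb (2n) - bb (2n+1) = 9n + 3`, `an n = (3/2)(3n+1) ∏ (6j+5)(6j+7)/((6j+4)(6j+8))`). All checked by computer.
-/

set_option autoImplicit false

noncomputable section

namespace NX

open Finset PX Polynomial

def bb (k : ℕ) : ℂ := if k % 2 = 0 then 1 - 9 * ((k / 2 : ℕ) : ℂ) ^ 2 else -((3 * ((k / 2 : ℕ) : ℂ) + 2) * (3 * ((k / 2 : ℕ) : ℂ) + 1))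

def an (n : ℕ) : ℝ := 3 / 2 * ∏ j ∈ range n, ((6 * (j : ℝ) + 5) * (6 * j + 7) / ((6 * j + 2) * (6 * j + 4)))

def bn (n : ℕ) : ℝ := ∏ j ∈ range n, ((6 * (j : ℝ) + 4) * (6 * j + 8) / ((6 * j + 1) * (6 * j + 5)))

theorem VD_g0 : gg.eval 1 = -4 := by
  rw [VC_gg]
  simp
  norm_num

theorem VD_g1 : (derivative gg).eval 1 = 0 := by
  rw [VC_gg]
  simp
  norm_num

theorem VD_g2 : (derivative (derivative gg)).eval 1 = 6 := by
  rw [VC_gg]
  simp
  norm_num

theorem VD_dh (k : ℕ) : dh (k + 2) = gg * dh k - C (alN k) * dh (k + 1) := rfl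

theorem VD_e (k : ℕ) : (dh (k + 2)).eval 1 = -4 * (dh k).eval 1 - alN k * (dh (k + 1)).eval 1 := by
  rw [VD_dh, eval_sub, eval_mul, eval_mul, eval_C, VD_g0]

theorem VD_dd (k : ℕ) : derivative (dh (k + 2)) = derivative gg * dh k + gg * derivative (dh k) -
    C (alN k) * derivative (dh (k + 1)) := by
  rw [VD_dh, derivative_sub, derivative_mul, derivative_C_mul]

theorem VD_d (k : ℕ) : (derivative (dh (k + 2))).eval 1 = -4 * (derivative (dh k)).eval 1 -
    alN k * (derivative (dh (k + 1))).eval 1 := by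
  rw [VD_dd, eval_sub, eval_add, eval_mul, eval_mul, eval_mul, eval_C, VD_g0, VD_g1]
  ring

theorem VD_s (k : ℕ) : (derivative (derivative (dh (k + 2)))).eval 1 = 6 * (dh k).eval 1 -
    4 * (derivative (derivative (dh k))).eval 1 - alN k * (derivative (derivative (dh (k + 1)))).eval 1 := by
  rw [VD_dd, derivative_sub, derivative_add, derivative_mul, derivative_mul, derivative_C_mul]
  simp only [eval_sub, eval_add, eval_mul, eval_C]
  rw [VD_g0, VD_g1, VD_g2]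
  ring

theorem VD_base : (dh 0).eval 1 = 1 ∧ (derivative (dh 0)).eval 1 = 0 ∧ (derivative (derivative (dh 0))).eval 1 = 0 ∧
    (dh 1).eval 1 = -1 ∧ (derivative (dh 1)).eval 1 = 1 ∧ (derivative (derivative (dh 1))).eval 1 = 0 := by
  refine ⟨by simp [dh], by simp [dh], by simp [dh], ?_, by simp [dh], by simp [dh]⟩
  simp only [dh, eval_sub, eval_X, eval_C]
  norm_num

theorem VD_al (k : ℕ) : alN k * wN (k + 1) = wN (k + 2) + 4 * wN k := by
  unfold alN
  exact div_mul_cancel₀ _ (wN_ne _)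

theorem wron (k : ℕ) : (derivative (dh (k + 1))).eval 1 * (dh k).eval 1 - (dh (k + 1)).eval 1 * (derivative (dh k)).eval 1 = 4 ^ k := by
  obtain ⟨a0, a1, _, b0, b1, _⟩ := VD_base
  induction k with
  | zero =>
    rw [zero_add, a0, a1, b0, b1]
    ring
  | succ k ih =>
    rw [VD_e, VD_d, pow_succ]
    linear_combination 4 * ih

theorem VD_bb0 (n : ℕ) : bb (2 * n) = 1 - 9 * (n : ℂ) ^ 2 := by
  unfold bb
  rw [if_pos (by omega)]
  have h : 2 * n / 2 = n := by omega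
  rw [h]

theorem VD_bb1 (n : ℕ) : bb (2 * n + 1) = -((3 * (n : ℂ) + 2) * (3 * (n : ℂ) + 1)) := by
  unfold bb
  rw [if_neg (by omega)]
  have h : (2 * n + 1) / 2 = n := by omega
  rw [h]

theorem VD_id (k : ℕ) : wN (k + 2) * (bb (k + 1) - bb (k + 2)) = wN k * (18 + 4 * (bb k - bb (k + 1))) := by
  rcases Nat.even_or_odd' k with ⟨n, hn | hn⟩
  · subst hn
    have h4 : (6 * (n : ℂ) + 4) ≠ 0 := VB_nat (a := 6 * n + 4) (by omega) (by push_cast; ring)
    have e1 : bb (2 * n + 2) = 1 - 9 * ((n : ℂ) + 1) ^ 2 := by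
      have h := VD_bb0 (n + 1)
      push_cast at h
      exact h
    rw [wN_even, e1, VD_bb0, VD_bb1]
    field_simp
    ring
  · subst hn
    have h8 : (6 * (n : ℂ) + 8) ≠ 0 := VB_nat (a := 6 * n + 8) (by omega) (by push_cast; ring)
    have e1 : bb (2 * n + 1 + 1) = 1 - 9 * ((n : ℂ) + 1) ^ 2 := by
      have h := VD_bb0 (n + 1)
      push_cast at h
      exact h
    have e2 : bb (2 * n + 1 + 2) = -((3 * ((n : ℂ) + 1) + 2) * (3 * ((n : ℂ) + 1) + 1)) := by
      have h := VD_bb1 (n + 1)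
      push_cast at h
      exact h
    have e3 : wN (2 * n + 1 + 2) = wN (2 * n + 1) * 4 * ((6 * (n : ℂ) + 7) / (6 * n + 8)) := wN_odd n
    rw [e3, e1, e2, VD_bb1]
    field_simp
    ring


theorem second (k : ℕ) : (derivative (derivative (dh k))).eval 1 = (derivative (dh k)).eval 1 + (1 - bb k) / 3 * (dh k).eval 1 := by
  obtain ⟨a0, a1, a2, b0, b1, b2⟩ := VD_base
  induction k using Nat.twoStepInduction with
  | zero =>
    have h := VD_bb0 0
    rw [Nat.mul_zero] at h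
    rw [a0, a1, a2, h]
    push_cast
    ring
  | one =>
    have h := VD_bb1 0
    rw [Nat.mul_zero, zero_add] at h
    rw [b0, b1, b2, h]
    push_cast
    ring
  | more k ih0 ih1 =>
    have h1 := VD_id k
    have h2 := VD_al k
    rw [VD_s, VD_d, VD_e, ih0, ih1, dh_one, dh_one]
    linear_combination (-((-1 : ℂ) ^ k) / 3) * h1 - ((-1 : ℂ) ^ k) / 3 * (bb (k + 1) - bb (k + 2)) * h2

theorem VD_bw (n : ℕ) : (bn n : ℂ) * (wN (2 * n) * wN (2 * n + 1)) = (6 * n + 1) * 16 ^ n := by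
  induction n with
  | zero =>
    rw [Nat.mul_zero, zero_add, wN_zero, wN_one]
    simp [bn]
  | succ n ih =>
    have h1 : (bn (n + 1) : ℂ) = bn n * ((6 * (n : ℂ) + 4) * (6 * n + 8) / ((6 * n + 1) * (6 * n + 5))) := by
      unfold bn
      rw [Finset.prod_range_succ]
      push_cast
      ring
    have e0 : wN (2 * (n + 1)) = wN (2 * n) * 4 * ((6 * (n : ℂ) + 5) / (6 * n + 4)) := wN_even n
    have e1 : wN (2 * (n + 1) + 1) = wN (2 * n + 1) * 4 * ((6 * (n : ℂ) + 7) / (6 * n + 8)) := wN_odd n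
    have h4 : (6 * (n : ℂ) + 4) ≠ 0 := VB_nat (a := 6 * n + 4) (by omega) (by push_cast; ring)
    have h8 : (6 * (n : ℂ) + 8) ≠ 0 := VB_nat (a := 6 * n + 8) (by omega) (by push_cast; ring)
    have h6 : (6 * (n : ℂ) + 1) ≠ 0 := VB_nat (a := 6 * n + 1) (by omega) (by push_cast; ring)
    have h5 : (6 * (n : ℂ) + 5) ≠ 0 := VB_nat (a := 6 * n + 5) (by omega) (by push_cast; ring)
    have h7 : (bn (n + 1) : ℂ) * (wN (2 * (n + 1)) * wN (2 * (n + 1) + 1)) =
        ((bn n : ℂ) * (wN (2 * n) * wN (2 * n + 1))) * (16 * (6 * n + 7) / (6 * n + 1)) := by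
      rw [h1, e0, e1]
      field_simp
      ring
    rw [h7, ih, pow_succ]
    push_cast
    field_simp
    ring

theorem VD_aw (n : ℕ) : (an n : ℂ) * 16 ^ n = 3 / 2 * (3 * n + 1) * (wN (2 * n) * wN (2 * n + 1)) := by
  induction n with
  | zero =>
    rw [Nat.mul_zero, zero_add, wN_zero, wN_one]
    simp [an]
  | succ n ih =>
    have h1 : (an (n + 1) : ℂ) = an n * ((6 * (n : ℂ) + 5) * (6 * n + 7) / ((6 * n + 2) * (6 * n + 4))) := by
      unfold an
      rw [Finset.prod_range_succ]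
      push_cast
      ring
    have e0 : wN (2 * (n + 1)) = wN (2 * n) * 4 * ((6 * (n : ℂ) + 5) / (6 * n + 4)) := wN_even n
    have e1 : wN (2 * (n + 1) + 1) = wN (2 * n + 1) * 4 * ((6 * (n : ℂ) + 7) / (6 * n + 8)) := wN_odd n
    have h4 : (6 * (n : ℂ) + 4) ≠ 0 := VB_nat (a := 6 * n + 4) (by omega) (by push_cast; ring)
    have h8 : (6 * (n : ℂ) + 8) ≠ 0 := VB_nat (a := 6 * n + 8) (by omega) (by push_cast; ring)
    have h2 : (6 * (n : ℂ) + 2) ≠ 0 := VB_nat (a := 6 * n + 2) (by omega) (by push_cast; ring)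
    have h31 : (3 * (n : ℂ) + 1) ≠ 0 := VB_nat (a := 3 * n + 1) (by omega) (by push_cast; ring)
    have h32 : (3 * (n : ℂ) + 2) ≠ 0 := VB_nat (a := 3 * n + 2) (by omega) (by push_cast; ring)
    have h34 : (3 * (n : ℂ) + 4) ≠ 0 := VB_nat (a := 3 * n + 4) (by omega) (by push_cast; ring)
    have e2 : (6 * (n : ℂ) + 2) = 2 * (3 * n + 1) := by ring
    have e8 : (6 * (n : ℂ) + 8) = 2 * (3 * n + 4) := by ring
    have e4 : (6 * (n : ℂ) + 4) = 2 * (3 * n + 2) := by ring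
    have h7 : (an (n + 1) : ℂ) * 16 ^ (n + 1) =
        ((an n : ℂ) * 16 ^ n) * (16 * ((6 * (n : ℂ) + 5) * (6 * n + 7) / ((6 * n + 2) * (6 * n + 4)))) := by
      rw [h1, pow_succ]
      ring
    rw [h7, ih, e0, e1, e2, e4, e8]
    push_cast
    field_simp
    ring

theorem first_even (n : ℕ) : (derivative (dh (2 * n))).eval 1 = (1 - (bn n : ℂ)) / 3 * (dh (2 * n)).eval 1 := by
  obtain ⟨a0, a1, _, _, _, _⟩ := VD_base
  induction n with
  | zero =>
    rw [Nat.mul_zero, a0, a1]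
    simp [bn]
  | succ n ih =>
    have w1 := wron (2 * n)
    have w2 := wron (2 * n + 1)
    have hbw := VD_bw n
    have h1 : (bn (n + 1) : ℂ) = bn n * ((6 * (n : ℂ) + 4) * (6 * n + 8) / ((6 * n + 1) * (6 * n + 5))) := by
      unfold bn
      rw [Finset.prod_range_succ]
      push_cast
      ring
    have h4 : (6 * (n : ℂ) + 4) ≠ 0 := VB_nat (a := 6 * n + 4) (by omega) (by push_cast; ring)
    have h6 : (6 * (n : ℂ) + 1) ≠ 0 := VB_nat (a := 6 * n + 1) (by omega) (by push_cast; ring)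
    have h5 : (6 * (n : ℂ) + 5) ≠ 0 := VB_nat (a := 6 * n + 5) (by omega) (by push_cast; ring)
    have n0 := wN_ne (2 * n)
    have n1 := wN_ne (2 * n + 1)
    have f0 : (dh (2 * n)).eval 1 = wN (2 * n) := by
      rw [dh_one, pow_mul]
      norm_num
    have f1 : (dh (2 * n + 1)).eval 1 = -wN (2 * n + 1) := by
      rw [dh_one, pow_succ, pow_mul]
      norm_num
    have f2 : (dh (2 * (n + 1))).eval 1 = wN (2 * n) * 4 * ((6 * (n : ℂ) + 5) / (6 * n + 4)) := by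
      rw [dh_one, pow_mul, Nat.mul_add]
      norm_num
      exact wN_even n
    have g1 : 2 * n + 1 + 1 = 2 * (n + 1) := by ring
    have p1 : (4 : ℂ) ^ (2 * n) = 16 ^ n := by
      rw [pow_mul]
      norm_num
    have p2 : (4 : ℂ) ^ (2 * n + 1) = 4 * 16 ^ n := by
      rw [pow_succ, p1]
      ring
    rw [ih, f0, f1, p1] at w1
    rw [g1, f1, f2, p2] at w2
    rw [f2, h1]
    generalize (derivative (dh (2 * (n + 1)))).eval 1 = d2 at w2 ⊢
    generalize (derivative (dh (2 * n + 1))).eval 1 = d1 at w1 w2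
    generalize (16 : ℂ) ^ n = s at w1 w2 hbw
    generalize (bn n : ℂ) = b at w1 hbw ⊢
    generalize wN (2 * n) = u at *
    generalize wN (2 * n + 1) = v at *
    generalize (n : ℂ) = x at *
    have hs : s = b * (u * v) / (6 * x + 1) := by
      rw [eq_div_iff h6, hbw]
      ring
    have hd1 : d1 = (s - v * ((1 - b) / 3 * u)) / u := by
      rw [eq_div_iff n0]
      linear_combination w1
    have hd2 : d2 = -(4 * s + u * 4 * ((6 * x + 5) / (6 * x + 4)) * d1) / v := by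
      rw [eq_div_iff n1]
      linear_combination -w2
    rw [hd2, hd1, hs]
    field_simp
    ring

theorem VD_p (n : ℕ) : (4 : ℂ) ^ (2 * n) = 16 ^ n := by
  rw [pow_mul]
  norm_num

def ff (n : ℕ) : Polynomial ℂ := C ((dh (2 * n + 1)).eval 1) * dh (2 * n) - C ((dh (2 * n)).eval 1) * dh (2 * n + 1)

theorem ff_zero (n : ℕ) : (ff n).eval 1 = 0 := by
  unfold ff
  rw [eval_sub, eval_mul, eval_mul, eval_C, eval_C]
  ring

theorem ff_one (n : ℕ) : (derivative (ff n)).eval 1 = -16 ^ n := by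
  have h := wron (2 * n)
  rw [VD_p] at h
  unfold ff
  rw [derivative_sub, derivative_C_mul, derivative_C_mul, eval_sub, eval_mul, eval_mul, eval_C, eval_C]
  linear_combination -h

theorem ff_two (n : ℕ) : (derivative (derivative (ff n))).eval 1 = -16 ^ n * (1 - 2 * (an n : ℂ) / 3) := by
  have h := wron (2 * n)
  have ha := VD_aw n
  rw [VD_p] at h
  unfold ff
  rw [derivative_sub, derivative_C_mul, derivative_C_mul, derivative_sub, derivative_C_mul, derivative_C_mul,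
    eval_sub, eval_mul, eval_mul, eval_C, eval_C, second, second, VD_bb0, VD_bb1]
  have f0 : (dh (2 * n)).eval 1 = wN (2 * n) := by
    rw [dh_one, pow_mul]
    norm_num
  have f1 : (dh (2 * n + 1)).eval 1 = -wN (2 * n + 1) := by
    rw [dh_one, pow_succ, pow_mul]
    norm_num
  rw [f0, f1] at h ⊢
  linear_combination -h - 2 / 3 * ha

end NX
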