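import Pool.Agent.Lib.MP_216314_pr.X.AB

/-!
# Perturbation of sixth roots of unity

`pw ε w j = w j * exp(i ε (j+1))`. For small `ε > 0` the tail conditions of `GenT` hold for `cns u (pw ε w)`, all `u ≠ 0`: sixth powers `exp(6 i ε (j+1)) ≠ 1`; cubes `w_j³ exp(3 i ε (j+1))`, `w_j³ = ± 1`: squares of cubes are `exp(6 i ε (j+1))`, which are distinct for distinct `j`,
and the product of two of them is `exp(6 i ε (j+k+2)) ≠ 1` (so it is enough to look at the sixth powers: if the cubes agree so do the sixth powers). Compare `PX.wv_gen`, `PX.genT_cns`, `PX.BQ_pow`, `PX.BQ_exp_ne`.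
-/

set_option autoImplicit false

noncomputable section

namespace NX

open Finset PX Filter Topology

/-- perturbation -/
def pw (ε : ℝ) (w : ℕ → ℂ) : ℕ → ℂ := fun j => w j * wv ε j

theorem pw_lim (w : ℕ → ℂ) (j : ℕ) : Tendsto (fun ε : ℝ => pw ε w j) (𝓝[>] 0) (𝓝 (w j)) := by
  have h1 : Tendsto (fun ε : ℝ => wv ε j) (𝓝[>] 0) (𝓝 1) := (wv_tendsto j).mono_left nhdsWithin_le_nhds
  have h := h1.const_mul (w j)
  rw [mul_one] at h
  exact h

private theorem wv_two (ε : ℝ) (j : ℕ) : wv (2 * ε) j = wv ε j ^ 2 := by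
  unfold wv
  rw [← Complex.exp_nat_mul]
  congr 1
  push_cast
  ring

theorem pw_gen (L : ℕ) (w : ℕ → ℂ) (hw : ∀ j, w j ^ 6 = 1) : ∀ᶠ ε : ℝ in 𝓝[>] 0, ∀ u : ℂ, u ≠ 0 → GenT L (cns u (pw ε w)) := by
  have hlim : Tendsto (fun ε : ℝ => 2 * ε) (𝓝[>] 0) (𝓝[>] 0) := by
    refine tendsto_nhdsWithin_iff.2 ⟨?_, ?_⟩
    · have h1 : Tendsto (fun ε : ℝ => 2 * ε) (𝓝 0) (𝓝 (2 * 0)) := tendsto_id.const_mul 2
      rw [mul_zero] at h1
      exact h1.mono_left nhdsWithin_le_nhds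
    · filter_upwards [self_mem_nhdsWithin] with ε hε
      have h1 : (0 : ℝ) < ε := hε
      show (0 : ℝ) < 2 * ε
      linarith
  filter_upwards [wv_gen L, hlim.eventually (wv_gen L)] with ε h1 h2
  intro u hu
  obtain ⟨⟨hz, h6, -⟩, -⟩ := h1
  obtain ⟨⟨-, -, h3⟩, -⟩ := h2
  have hs : ∀ k, 1 ≤ k → cns u (pw ε w) k = w (k - 1) * wv ε (k - 1) := by
    intro k hk
    unfold cns pw
    rw [if_neg (by omega)]
  have hw0 : ∀ j, w j ≠ 0 := by
    intro j h0
    have h4 := hw j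
    rw [h0] at h4
    norm_num at h4
  refine ⟨?_, ?_, ?_⟩
  · intro k hk
    rcases Nat.eq_zero_or_pos k with hk0 | hk0
    · subst hk0
      unfold cns
      rw [if_pos rfl]
      exact hu
    · rw [hs k hk0]
      exact mul_ne_zero (hw0 _) (hz _ (by omega))
  · intro i hi1 hi2
    rw [hs i hi1, mul_pow, hw, one_mul]
    exact h6 _ (by omega)
  · intro i j hi1 hi2 hj1 hj2 hij
    have h4 := h3 (i - 1) (j - 1) (by omega) (by omega) (by omega)
    rw [wv_two, wv_two] at h4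
    rw [hs i hi1, hs j hj1]
    refine ⟨fun h5 => h4.1 ?_, fun h5 => h4.2 ?_⟩
    · have e1 : (w (i - 1) * wv ε (i - 1)) ^ 6 = (w (j - 1) * wv ε (j - 1)) ^ 6 := by
        have e2 : ∀ z : ℂ, z ^ 6 = (z ^ 3) ^ 2 := fun z => by ring
        rw [e2, e2 (w (j - 1) * wv ε (j - 1)), h5]
      rw [mul_pow, mul_pow, hw, hw, one_mul, one_mul] at e1
      rw [← pow_mul, ← pow_mul]
      exact e1
    · have e1 : (w (i - 1) * wv ε (i - 1)) ^ 6 * (w (j - 1) * wv ε (j - 1)) ^ 6 = 1 := by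
        have e2 : ∀ z : ℂ, z ^ 6 = (z ^ 3) ^ 2 := fun z => by ring
        rw [e2, e2 (w (j - 1) * wv ε (j - 1)), ← mul_pow, h5, one_pow]
      rw [mul_pow, mul_pow, hw, hw, one_mul, one_mul] at e1
      rw [← pow_mul, ← pow_mul]
      exact e1

end NX
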