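import Pool.Agent.Lib.MP_216314_pr.P.PSymB
import Pool.Agent.Lib.MP_216314_pr.P.PExit

/-!
# Numbers of clusters meeting two sets, on the square lattice: definitions and comparison

`vs F`: the end points of the edges of `F`. `ck F ω u`: the cluster of `u` (open edges of `F`). `Cx F ω A B u`: `u` is a vertex of `F` in `A`, connected to `B` inside `F`.
`np F ω P`: number of the clusters which contain a vertex with the property `P`; `nc F ω A B`: number of the clusters which meet `A` and `B`.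
`ck_eq`: `Conn F ω` is an equivalence relation (`Conn.refl/symm/trans`). `np_or`: `filter`, `image_union`, `card_union_le`. `np_le`: choose for every cluster `C = ck F ω u` (`P u`) the cluster `ck F' ω u'` of the corresponding `u'`; this is injective:
if `ck F' ω u' = ck F' ω v'` then `Conn F' ω u' v'`, so `Conn F ω u' v'` (`Conn.mono`), so `Conn F ω u v`. (See `KA_inj` in `N/KA.lean` for the same argument.)
`nc_inj`: the map `ck F1 ω u ↦ ck F ω u` (`u` with `Cx F1 ω A B u`, hence `Cx F ω A B u`) is well defined and injective: the images of `S1 = (vs F1).filter (Cx F1 ω A B)` under `ck F1 ω` and under `ck F ω` have the same cardinality, and the second one is contained in `((vs F).filter (Cx F ω A B)).image (ck F ω)`.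
`nc_super`: the same for `F1` and `F2`; the two images have at most one common element by `h3`; `card_union_add_card_inter`.
-/

set_option autoImplicit false

noncomputable section

namespace NX

open Finset FKI FKP Classical

/-- the vertices of a set of edges -/
def vs (F : Finset Edge) : Finset V := F.image ea ∪ F.image eb

/-- the cluster of `u` -/
def ck (F ω : Finset Edge) (u : V) : Finset V := (vs F).filter (fun v => Conn F ω u v)

/-- `u` is in `A` and connected to `B` -/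
def Cx (F ω : Finset Edge) (A B : Set V) (u : V) : Prop := u ∈ vs F ∧ u ∈ A ∧ ∃ w ∈ B, Conn F ω u w

/-- number of the clusters with a vertex with the property `P` -/
def np (F ω : Finset Edge) (P : V → Prop) : ℕ := (((vs F).filter P).image (ck F ω)).card

/-- number of the clusters meeting `A` and `B` -/
def nc (F ω : Finset Edge) (A B : Set V) : ℕ := np F ω (Cx F ω A B)

theorem vs_mono {F F' : Finset Edge} (h : F' ⊆ F) : vs F' ⊆ vs F :=
  Finset.union_subset_union (Finset.image_subset_image h) (Finset.image_subset_image h)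

theorem ZA_ends {F : Finset Edge} {e : Edge} (he : e ∈ F) : ea e ∈ vs F ∧ eb e ∈ vs F :=
  ⟨Finset.mem_union_left _ (Finset.mem_image_of_mem _ he), Finset.mem_union_right _ (Finset.mem_image_of_mem _ he)⟩

theorem ZA_first {F ω : Finset Edge} {u v : V} (h : Conn F ω u v) (hne : u ≠ v) : u ∈ vs F := by
  obtain ⟨p⟩ := h
  cases p with
  | nil => exact absurd rfl hne
  | cons hadj p =>
    obtain ⟨e, he, h1⟩ := pexit_adj hadj
    have h2 := ZA_ends (Finset.mem_inter.1 he).2
    rcases h1 with ⟨h3, h4⟩ | ⟨h3, h4⟩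
    · rw [← h3]
      exact h2.1
    · rw [← h4]
      exact h2.2

/-- a vertex connected to another vertex is a vertex of `F` -/
theorem vs_conn {F ω : Finset Edge} {u v : V} (h : Conn F ω u v) (hne : u ≠ v) : u ∈ vs F ∧ v ∈ vs F :=
  ⟨ZA_first h hne, ZA_first h.symm hne.symm⟩

theorem ck_eq {F ω : Finset Edge} {u v : V} (hv : v ∈ vs F) : ck F ω u = ck F ω v ↔ Conn F ω u v := by
  constructor
  · intro h
    have h1 : v ∈ ck F ω v := Finset.mem_filter.2 ⟨hv, Conn.refl _ _ _⟩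
    rw [← h] at h1
    exact (Finset.mem_filter.1 h1).2
  · intro h
    unfold ck
    refine Finset.filter_congr fun w _ => ?_
    exact ⟨fun h1 => h.symm.trans h1, fun h1 => h.trans h1⟩

theorem ZA_conn_inter (F ω : Finset Edge) : Conn F (ω ∩ F) = Conn F ω := by
  funext u v
  unfold Conn
  rw [Finset.inter_assoc, Finset.inter_self]

theorem nc_inter (F ω : Finset Edge) (A B : Set V) : nc F (ω ∩ F) A B = nc F ω A B := by
  have h1 : ck F (ω ∩ F) = ck F ω := by
    funext u
    unfold ck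
    rw [ZA_conn_inter]
  have h2 : Cx F (ω ∩ F) A B = Cx F ω A B := by
    funext u
    unfold Cx
    rw [ZA_conn_inter]
  unfold nc np
  rw [h1, h2]

theorem np_le_card (F ω : Finset Edge) (P : V → Prop) : np F ω P ≤ ((vs F).filter P).card :=
  Finset.card_image_le

theorem np_or {F ω : Finset Edge} {P Q R : V → Prop} (h : ∀ u ∈ vs F, P u → Q u ∨ R u) : np F ω P ≤ np F ω Q + np F ω R := by
  unfold np
  refine (Finset.card_le_card ?_).trans (Finset.card_union_le _ _)
  intro x hx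
  obtain ⟨u, hu, rfl⟩ := Finset.mem_image.1 hx
  rw [Finset.mem_filter] at hu
  rcases h u hu.1 hu.2 with h1 | h1
  · exact Finset.mem_union_left _ (Finset.mem_image_of_mem _ (Finset.mem_filter.2 ⟨hu.1, h1⟩))
  · exact Finset.mem_union_right _ (Finset.mem_image_of_mem _ (Finset.mem_filter.2 ⟨hu.1, h1⟩))

theorem ZA_card {ι κ γ δ : Type*} [DecidableEq γ] [DecidableEq δ] (S : Finset ι) (T : Finset κ) (f : ι → γ) (g : κ → δ) (R : ι → κ → Prop)
    (h : ∀ u ∈ S, ∃ u' ∈ T, R u u')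
    (hR : ∀ u ∈ S, ∀ v ∈ S, ∀ u' ∈ T, ∀ v' ∈ T, R u u' → R v v' → g u' = g v' → f u = f v) :
    (S.image f).card ≤ (T.image g).card := by
  have h1 : ∀ x ∈ S.image f, ∃ u ∈ S, ∃ u' ∈ T, R u u' ∧ f u = x := by
    intro x hx
    obtain ⟨u, hu, rfl⟩ := Finset.mem_image.1 hx
    obtain ⟨u', hu', hr⟩ := h u hu
    exact ⟨u, hu, u', hu', hr, rfl⟩
  rcases T.eq_empty_or_nonempty with h0 | ⟨t0, ht0⟩
  · have h2 : S.image f = ∅ := by
      rw [Finset.image_eq_empty]
      refine Finset.eq_empty_of_forall_notMem fun u hu => ?_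
      obtain ⟨u', hu', _⟩ := h u hu
      rw [h0] at hu'
      exact Finset.notMem_empty _ hu'
    rw [h2, Finset.card_empty]
    exact Nat.zero_le _
  rcases S.eq_empty_or_nonempty with h0 | ⟨s0, hs0⟩
  · rw [h0, Finset.image_empty, Finset.card_empty]
    exact Nat.zero_le _
  have h2 : ∀ x, ∃ q : ι × κ, x ∈ S.image f → q.1 ∈ S ∧ q.2 ∈ T ∧ R q.1 q.2 ∧ f q.1 = x := by
    intro x
    by_cases hx : x ∈ S.image f
    · obtain ⟨u, hu, u', hu', hr, he⟩ := h1 x hx
      exact ⟨(u, u'), fun _ => ⟨hu, hu', hr, he⟩⟩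
    · exact ⟨(s0, t0), fun h => absurd h hx⟩
  choose q hq using h2
  refine Finset.card_le_card_of_injOn (fun x => g (q x).2) ?_ ?_
  · intro x hx
    exact Finset.mem_coe.2 (Finset.mem_image_of_mem _ (hq x (Finset.mem_coe.1 hx)).2.1)
  · intro x hx y hy hxy
    obtain ⟨a1, a2, a3, a4⟩ := hq x (Finset.mem_coe.1 hx)
    obtain ⟨b1, b2, b3, b4⟩ := hq y (Finset.mem_coe.1 hy)
    rw [← a4, ← b4]
    exact hR _ a1 _ b1 _ a2 _ b2 a3 b3 hxy

theorem np_le {F F' ω : Finset Edge} {P : V → Prop} {A B : Set V} (hF : F' ⊆ F)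
    (h : ∀ u ∈ vs F, P u → ∃ u', Cx F' ω A B u' ∧ Conn F ω u u') : np F ω P ≤ nc F' ω A B := by
  unfold nc np
  refine ZA_card _ _ _ _ (fun u u' => Conn F ω u u') ?_ ?_
  · intro u hu
    rw [Finset.mem_filter] at hu
    obtain ⟨u', h1, h2⟩ := h u hu.1 hu.2
    exact ⟨u', Finset.mem_filter.2 ⟨h1.1, h1⟩, h2⟩
  · intro u hu v hv u' hu' v' hv' h1 h2 h3
    rw [Finset.mem_filter] at hu hv hu' hv'
    rw [ck_eq hv'.1] at h3
    rw [ck_eq hv.1]
    exact (h1.trans (Conn.mono hF (Finset.Subset.refl _) h3)).trans h2.symm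

theorem Cx_mono {F F1 ω : Finset Edge} (hF : F1 ⊆ F) {A B : Set V} {u : V} (h : Cx F1 ω A B u) : Cx F ω A B u := by
  obtain ⟨h1, h2, w, h3, h4⟩ := h
  exact ⟨vs_mono hF h1, h2, w, h3, Conn.mono hF (Finset.Subset.refl _) h4⟩

theorem ZA_mem {F ω : Finset Edge} {A B : Set V} {u : V} : u ∈ (vs F).filter (Cx F ω A B) ↔ Cx F ω A B u := by
  rw [Finset.mem_filter]
  exact ⟨fun h => h.2, fun h => ⟨h.1, h⟩⟩

theorem ZA_img {F F1 ω : Finset Edge} {A B : Set V} (hF : F1 ⊆ F)
    (h1 : ∀ u u', Cx F1 ω A B u → Cx F1 ω A B u' → Conn F ω u u' → Conn F1 ω u u') :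
    nc F1 ω A B ≤ (((vs F1).filter (Cx F1 ω A B)).image (ck F ω)).card := by
  unfold nc np
  refine ZA_card _ _ _ _ Eq (fun u hu => ⟨u, hu, rfl⟩) ?_
  intro u hu v hv u' hu' v' hv' e1 e2 h3
  subst e1
  subst e2
  rw [ZA_mem] at hu hv
  rw [ck_eq (vs_mono hF hv.1)] at h3
  rw [ck_eq hv.1]
  exact h1 _ _ hu hv h3

theorem ZA_sub {F F1 ω : Finset Edge} {A B : Set V} (hF : F1 ⊆ F) :
    ((vs F1).filter (Cx F1 ω A B)).image (ck F ω) ⊆ ((vs F).filter (Cx F ω A B)).image (ck F ω) := by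
  refine Finset.image_subset_image ?_
  intro u hu
  rw [ZA_mem] at hu ⊢
  exact Cx_mono hF hu

theorem nc_inj {F F1 ω : Finset Edge} {A B : Set V} (hF : F1 ⊆ F)
    (h1 : ∀ u u', Cx F1 ω A B u → Cx F1 ω A B u' → Conn F ω u u' → Conn F1 ω u u') : nc F1 ω A B ≤ nc F ω A B :=
  (ZA_img hF h1).trans (Finset.card_le_card (ZA_sub hF))

theorem nc_super {F F1 F2 ω : Finset Edge} {A B : Set V} (hF1 : F1 ⊆ F) (hF2 : F2 ⊆ F)
    (h1 : ∀ u u', Cx F1 ω A B u → Cx F1 ω A B u' → Conn F ω u u' → Conn F1 ω u u')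
    (h2 : ∀ u u', Cx F2 ω A B u → Cx F2 ω A B u' → Conn F ω u u' → Conn F2 ω u u')
    (h3 : ∀ u u' v v', Cx F1 ω A B u → Cx F1 ω A B u' → Cx F2 ω A B v → Cx F2 ω A B v' →
      Conn F ω u v → Conn F ω u' v' → Conn F ω u u') :
    nc F1 ω A B + nc F2 ω A B ≤ nc F ω A B + 1 := by
  refine (Nat.add_le_add (ZA_img hF1 h1) (ZA_img hF2 h2)).trans ?_
  rw [← Finset.card_union_add_card_inter]
  refine Nat.add_le_add (Finset.card_le_card (Finset.union_subset (ZA_sub hF1) (ZA_sub hF2))) ?_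
  rw [Finset.card_le_one]
  intro x hx y hy
  obtain ⟨hx1, hx2⟩ := Finset.mem_inter.1 hx
  obtain ⟨hy1, hy2⟩ := Finset.mem_inter.1 hy
  obtain ⟨u, hu, rfl⟩ := Finset.mem_image.1 hx1
  obtain ⟨v, hv, e1⟩ := Finset.mem_image.1 hx2
  obtain ⟨u', hu', rfl⟩ := Finset.mem_image.1 hy1
  obtain ⟨v', hv', e2⟩ := Finset.mem_image.1 hy2
  rw [ZA_mem] at hu hv hu' hv'
  rw [ck_eq (vs_mono hF1 hu.1)] at e1
  rw [ck_eq (vs_mono hF1 hu'.1)] at e2
  rw [ck_eq (vs_mono hF1 hu'.1)]
  exact h3 _ _ _ _ hu hu' hv hv' e1.symm e2.symm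

end NX
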