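import Pool.Agent.Lib.MP_216314_pr.N.ZA

/-!
# Mean numbers of clusters

`mz E X`: mean of `X` over the subsets of `E`; `en F A B`: mean number of the clusters meeting `A` and `B`. `mz_restrict`: as `mean_restrict` in `N/KI.lean` (same proof, for edges in place of tiles).
`en_dep`: `nc_inter` and `mz_restrict`. `vs_map`, `nc_map`: `Cp`, `conn_map` (file `P/PSymA`): `ck (F.map σ) (ω.map σ) (τ u) = (ck F ω u).map τ`. `en_map`: the bijection `ω ↦ ω.map σ` of the subsets of `F` and of `F.map σ` (see `Pr_map` in `P/PSymA`).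
-/

set_option autoImplicit false

noncomputable section

namespace NX

open Finset FKI FKP Classical

/-- mean over the subsets of `E` -/
def mz (E : Finset Edge) (X : Finset Edge → ℝ) : ℝ := (∑ ω ∈ E.powerset, X ω) / 2 ^ E.card

/-- mean number of the clusters meeting `A` and `B` -/
def en (F : Finset Edge) (A B : Set V) : ℝ := mz F (fun ω => (nc F ω A B : ℝ))

theorem mz_mono {E : Finset Edge} {X Y : Finset Edge → ℝ} (h : ∀ ω, ω ⊆ E → X ω ≤ Y ω) : mz E X ≤ mz E Y := by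
  unfold mz
  exact div_le_div_of_nonneg_right (Finset.sum_le_sum fun ω hω => h ω (Finset.mem_powerset.1 hω)) (by positivity)

theorem mz_congr {E : Finset Edge} {X Y : Finset Edge → ℝ} (h : ∀ ω, ω ⊆ E → X ω = Y ω) : mz E X = mz E Y := by
  unfold mz
  rw [Finset.sum_congr rfl fun ω hω => h ω (Finset.mem_powerset.1 hω)]

theorem mz_add (E : Finset Edge) (X Y : Finset Edge → ℝ) : mz E (fun ω => X ω + Y ω) = mz E X + mz E Y := by
  unfold mz
  rw [Finset.sum_add_distrib, add_div]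

theorem mz_const (E : Finset Edge) (a : ℝ) : mz E (fun _ => a) = a := by
  unfold mz
  rw [Finset.sum_const, Finset.card_powerset, nsmul_eq_mul, Nat.cast_pow, Nat.cast_ofNat]
  field_simp

theorem ZB_restr (R : Finset Edge) (F : Finset Edge → ℝ) (U : Finset Edge) (h : Disjoint R U) :
    ∑ c ∈ (R ∪ U).powerset, F (c ∩ R) = 2 ^ U.card * ∑ c ∈ R.powerset, F c := by
  induction U using Finset.induction_on with
  | empty =>
    rw [Finset.union_empty, Finset.card_empty, pow_zero, one_mul]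
    refine Finset.sum_congr rfl fun c hc => ?_
    rw [Finset.inter_eq_left.2 (Finset.mem_powerset.1 hc)]
  | insert a U ha ih =>
    rw [Finset.disjoint_insert_right] at h
    have h1 : a ∉ R ∪ U := by
      rw [Finset.mem_union, not_or]
      exact ⟨h.1, ha⟩
    rw [Finset.union_insert, Finset.sum_powerset_insert h1, Finset.card_insert_of_notMem ha, pow_succ,
      ih h.2]
    have h2 : ∑ c ∈ (R ∪ U).powerset, F (insert a c ∩ R) = ∑ c ∈ (R ∪ U).powerset, F (c ∩ R) := by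
      refine Finset.sum_congr rfl fun c _ => ?_
      rw [Finset.insert_inter_of_notMem h.1]
    rw [h2, ih h.2]
    ring

theorem mz_restrict {E F : Finset Edge} (h : F ⊆ E) (X : Finset Edge → ℝ) : mz E (fun ω => X (ω ∩ F)) = mz F X := by
  have h1 := ZB_restr F X (E \ F) Finset.disjoint_sdiff
  rw [Finset.union_sdiff_of_subset h] at h1
  have h2 : E.card = F.card + (E \ F).card := by
    rw [add_comm, Finset.card_sdiff_add_card_eq_card h]
  unfold mz
  rw [h1, h2, pow_add]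
  field_simp

theorem en_dep {E F : Finset Edge} (h : F ⊆ E) (A B : Set V) : mz E (fun ω => (nc F ω A B : ℝ)) = en F A B := by
  unfold en
  rw [← mz_restrict h (fun ω => (nc F ω A B : ℝ))]
  refine mz_congr fun ω _ => ?_
  rw [nc_inter]

theorem en_nonneg (F : Finset Edge) (A B : Set V) : 0 ≤ en F A B := by
  unfold en mz
  exact div_nonneg (Finset.sum_nonneg fun _ _ => Nat.cast_nonneg _) (by positivity)

theorem vs_map {σ : Edge ≃ Edge} {τ : V ≃ V} (hc : Cp σ τ) (F : Finset Edge) : vs (F.map σ.toEmbedding) = (vs F).map τ.toEmbedding := by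
  ext v
  unfold vs
  rw [Finset.mem_union, Finset.mem_image, Finset.mem_image, Finset.mem_map]
  constructor
  · rintro (⟨e', he', h⟩ | ⟨e', he', h⟩)
    · obtain ⟨e, he, rfl⟩ := Finset.mem_map.1 he'
      have h0 := ZA_ends he
      rcases hc e with ⟨h1, h2⟩ | ⟨h1, h2⟩
      · exact ⟨ea e, h0.1, h1.symm.trans h⟩
      · exact ⟨eb e, h0.2, h1.symm.trans h⟩
    · obtain ⟨e, he, rfl⟩ := Finset.mem_map.1 he'
      have h0 := ZA_ends he
      rcases hc e with ⟨h1, h2⟩ | ⟨h1, h2⟩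
      · exact ⟨eb e, h0.2, h2.symm.trans h⟩
      · exact ⟨ea e, h0.1, h2.symm.trans h⟩
  · rintro ⟨u, hu, rfl⟩
    rcases Finset.mem_union.1 hu with hu | hu
    · obtain ⟨e, he, rfl⟩ := Finset.mem_image.1 hu
      rcases hc e with ⟨h1, h2⟩ | ⟨h1, h2⟩
      · exact Or.inl ⟨σ e, Finset.mem_map_of_mem _ he, h1⟩
      · exact Or.inr ⟨σ e, Finset.mem_map_of_mem _ he, h2⟩
    · obtain ⟨e, he, rfl⟩ := Finset.mem_image.1 hu
      rcases hc e with ⟨h1, h2⟩ | ⟨h1, h2⟩
      · exact Or.inr ⟨σ e, Finset.mem_map_of_mem _ he, h2⟩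
      · exact Or.inl ⟨σ e, Finset.mem_map_of_mem _ he, h1⟩

theorem ZB_vs {σ : Edge ≃ Edge} {τ : V ≃ V} (hc : Cp σ τ) (F : Finset Edge) (u : V) :
    τ u ∈ vs (F.map σ.toEmbedding) ↔ u ∈ vs F := by
  rw [vs_map hc, Finset.mem_map]
  constructor
  · rintro ⟨v, hv, h⟩
    rw [← τ.injective h]
    exact hv
  · intro h
    exact ⟨u, h, rfl⟩

theorem ZB_Cx {σ : Edge ≃ Edge} {τ : V ≃ V} (hc : Cp σ τ) (F ω : Finset Edge) (A B : Set V) (u : V) :
    Cx (F.map σ.toEmbedding) (ω.map σ.toEmbedding) A B (τ u) ↔ Cx F ω (τ ⁻¹' A) (τ ⁻¹' B) u := by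
  unfold Cx
  rw [ZB_vs hc]
  refine and_congr Iff.rfl (and_congr Iff.rfl ?_)
  constructor
  · rintro ⟨w, hw, h⟩
    refine ⟨τ.symm w, ?_, ?_⟩
    · show τ (τ.symm w) ∈ B
      rw [Equiv.apply_symm_apply]
      exact hw
    · rw [← conn_map hc, Equiv.apply_symm_apply]
      exact h
  · rintro ⟨w, hw, h⟩
    exact ⟨τ w, hw, (conn_map hc F ω u w).2 h⟩

theorem nc_map {σ : Edge ≃ Edge} {τ : V ≃ V} (hc : Cp σ τ) (F ω : Finset Edge) (A B : Set V) :
    nc (F.map σ.toEmbedding) (ω.map σ.toEmbedding) A B = nc F ω (τ ⁻¹' A) (τ ⁻¹' B) := by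
  unfold nc np
  refine le_antisymm ?_ ?_
  · refine ZA_card _ _ _ _ (fun u' u => u' = τ u) ?_ ?_
    · intro u' hu'
      rw [ZA_mem] at hu'
      refine ⟨τ.symm u', ?_, (Equiv.apply_symm_apply τ u').symm⟩
      rw [ZA_mem, ← ZB_Cx hc, Equiv.apply_symm_apply]
      exact hu'
    · intro u' hu' v' hv' u hu v hv e1 e2 h
      rw [ZA_mem] at hu' hv' hu hv
      rw [ck_eq hv.1] at h
      rw [ck_eq hv'.1, e1, e2, conn_map hc]
      exact h
  · refine ZA_card _ _ _ _ (fun u u' => u' = τ u) ?_ ?_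
    · intro u hu
      rw [ZA_mem] at hu
      exact ⟨τ u, ZA_mem.2 ((ZB_Cx hc F ω A B u).2 hu), rfl⟩
    · intro u hu v hv u' hu' v' hv' e1 e2 h
      rw [ZA_mem] at hu' hv' hu hv
      rw [ck_eq hv'.1, e1, e2, conn_map hc] at h
      rw [ck_eq hv.1]
      exact h

theorem en_map {σ : Edge ≃ Edge} {τ : V ≃ V} (hc : Cp σ τ) (F : Finset Edge) (A B : Set V) :
    en (F.map σ.toEmbedding) A B = en F (τ ⁻¹' A) (τ ⁻¹' B) := by
  unfold en mz
  rw [Finset.card_map]
  congr 1
  symm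
  refine Finset.sum_nbij' (fun ω => ω.map σ.toEmbedding) (fun ω => ω.map σ.symm.toEmbedding)
    ?_ ?_ ?_ ?_ ?_
  · intro ω hω
    rw [Finset.mem_powerset] at hω ⊢
    exact Finset.map_subset_map.2 hω
  · intro ω hω
    rw [Finset.mem_powerset] at hω ⊢
    intro e he
    rw [Finset.mem_map] at he
    obtain ⟨e', he', rfl⟩ := he
    have h1 := hω he'
    rw [Finset.mem_map] at h1
    obtain ⟨e2, he2, rfl⟩ := h1
    simpa using he2
  · intro ω _
    show (ω.map σ.toEmbedding).map σ.symm.toEmbedding = ω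
    rw [Finset.map_map]
    ext e
    simp
  · intro ω _
    show (ω.map σ.symm.toEmbedding).map σ.toEmbedding = ω
    rw [Finset.map_map]
    ext e
    simp
  · intro ω _
    show (nc F ω (τ ⁻¹' A) (τ ⁻¹' B) : ℝ) = (nc (F.map σ.toEmbedding) (ω.map σ.toEmbedding) A B : ℝ)
    rw [nc_map hc]

end NX
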