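import Pool.Agent.Lib.MP_216314_pr.N.ZB
import Pool.Agent.Lib.MP_216314_pr.G.GDef

/-!
# Diagonal rectangles

`sm v = v.1 + v.2`, `df v = v.1 - v.2`. `DR s t a b`: edges with both end points in `s ≤ sm ≤ t`, `a ≤ df ≤ b`. An edge changes `sm` by `+1` (from `ea` to `eb`) and `df` by `±1`.
`mem_DR`: the conditions bound the coordinates, so that the edge is in the box (case analysis on the type of the edge, `omega`; bound the absolute values `|s|`, ... from below by `s`, `-s`, ... first).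
`dst_DR`: `FKG.mem_dst`. `DR_sh`, `DR_rx`, `DR_tr`: `Finset.ext`, `psymb_mem` (file `P/PSymB`), `mem_DR`, case analysis on the type of the edge, `omega`. `DR_stay`: induction on the walk or `Conn` as `Relation.ReflTransGen`; or use `vs_conn`.
-/

set_option autoImplicit false

noncomputable section

namespace NX

open Finset FKI FKP Classical

def sm (v : V) : ℤ := v.1 + v.2

def df (v : V) : ℤ := v.1 - v.2

/-- the edges with both end points in `s ≤ x + y ≤ t`, `a ≤ x - y ≤ b` -/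
def DR (s t a b : ℤ) : Finset Edge :=
  (box (-(|s| + |t| + |a| + |b|)) (|s| + |t| + |a| + |b|) (-(|s| + |t| + |a| + |b|)) (|s| + |t| + |a| + |b|)).filter (fun e =>
    (s ≤ sm (ea e) ∧ sm (ea e) ≤ t) ∧ (s ≤ sm (eb e) ∧ sm (eb e) ≤ t) ∧ (a ≤ df (ea e) ∧ df (ea e) ≤ b) ∧ (a ≤ df (eb e) ∧ df (eb e) ≤ b))

theorem mem_DR {s t a b : ℤ} {e : Edge} : e ∈ DR s t a b ↔
    (s ≤ sm (ea e) ∧ sm (ea e) ≤ t) ∧ (s ≤ sm (eb e) ∧ sm (eb e) ≤ t) ∧ (a ≤ df (ea e) ∧ df (ea e) ≤ b) ∧ (a ≤ df (eb e) ∧ df (eb e) ≤ b) := by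
  unfold DR
  rw [mem_filter, mem_box]
  constructor
  · exact fun h => h.2
  · intro h
    refine ⟨?_, h⟩
    have b1 := le_abs_self s
    have b2 := neg_abs_le s
    have b3 := le_abs_self t
    have b4 := neg_abs_le t
    have b5 := le_abs_self a
    have b6 := neg_abs_le a
    have b7 := le_abs_self b
    have b8 := neg_abs_le b
    generalize |s| = S at *
    generalize |t| = T at *
    generalize |a| = A at *
    generalize |b| = B at *
    obtain ⟨x, y, c⟩ := e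
    cases c
    · simp only [sm, df, ea, eb] at h ⊢
      simp at h ⊢
      omega
    · simp only [sm, df, ea, eb] at h ⊢
      simp at h ⊢
      omega

/-- the two ends of an edge -/
theorem edge_sm (e : Edge) : sm (eb e) = sm (ea e) + 1 ∧ (df (eb e) = df (ea e) + 1 ∨ df (eb e) = df (ea e) - 1) := by
  obtain ⟨x, y, c⟩ := e
  cases c
  · simp only [sm, df, ea, eb]
    simp
    omega
  · simp only [sm, df, ea, eb]
    simp
    omega

theorem dst_DR (L K : ℕ) : FKG.dst L K = DR (-(L : ℤ)) 0 (-(K : ℤ)) K := by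
  ext e
  rw [FKG.mem_dst, mem_DR, abs_le, abs_le]
  have h1 := edge_sm e
  unfold sm df at *
  constructor
  · rintro ⟨a1, a2, a3, a4⟩
    refine ⟨⟨a1, ?_⟩, ⟨?_, a2⟩, a3, a4⟩ <;> omega
  · rintro ⟨⟨a1, _⟩, ⟨_, a2⟩, a3, a4⟩
    exact ⟨a1, a2, a3, a4⟩

theorem DR_mono {s t a b s' t' a' b' : ℤ} (h1 : s' ≤ s) (h2 : t ≤ t') (h3 : a' ≤ a) (h4 : b ≤ b') : DR s t a b ⊆ DR s' t' a' b' := by
  intro e he
  rw [mem_DR] at he ⊢
  obtain ⟨⟨a1, a2⟩, ⟨a3, a4⟩, ⟨a5, a6⟩, a7, a8⟩ := he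
  exact ⟨⟨h1.trans a1, a2.trans h2⟩, ⟨h1.trans a3, a4.trans h2⟩, ⟨h3.trans a5, a6.trans h4⟩,
    h3.trans a7, a8.trans h4⟩

theorem vs_DR {s t a b : ℤ} {v : V} (h : v ∈ vs (DR s t a b)) : (s ≤ sm v ∧ sm v ≤ t) ∧ (a ≤ df v ∧ df v ≤ b) := by
  unfold vs at h
  rw [mem_union, mem_image, mem_image] at h
  rcases h with ⟨e, he, rfl⟩ | ⟨e, he, rfl⟩
  · rw [mem_DR] at he
    exact ⟨he.1, he.2.2.1⟩
  · rw [mem_DR] at he
    exact ⟨he.2.1, he.2.2.2⟩

theorem DR_stay {s t a b : ℤ} {ω : Finset Edge} {u v : V} (h : Conn (DR s t a b) ω u v) (hne : u ≠ v) :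
    ((s ≤ sm u ∧ sm u ≤ t) ∧ (a ≤ df u ∧ df u ≤ b)) ∧ ((s ≤ sm v ∧ sm v ≤ t) ∧ (a ≤ df v ∧ df v ≤ b)) := by
  obtain ⟨h1, h2⟩ := vs_conn h hne
  exact ⟨vs_DR h1, vs_DR h2⟩

/-- the part below the row `b` -/
theorem DR_filter_le {s t a c : ℤ} (b : ℤ) : (DR s t a c).filter (fun e => df (ea e) ≤ b ∧ df (eb e) ≤ b) ⊆ DR s t a b := by
  intro e he
  rw [mem_filter, mem_DR] at he
  rw [mem_DR]
  obtain ⟨⟨a1, a2, a3, a4⟩, b1, b2⟩ := he
  exact ⟨a1, a2, ⟨a3.1, b1⟩, a4.1, b2⟩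

/-- the part above the row `b` -/
theorem DR_filter_ge {s t a c : ℤ} (b : ℤ) : (DR s t a c).filter (fun e => b ≤ df (ea e) ∧ b ≤ df (eb e)) ⊆ DR s t b c := by
  intro e he
  rw [mem_filter, mem_DR] at he
  rw [mem_DR]
  obtain ⟨⟨a1, a2, a3, a4⟩, b1, b2⟩ := he
  exact ⟨a1, a2, ⟨b1, a3.2⟩, b2, a4.2⟩

theorem DR_sh (i j s t a b : ℤ) : (DR s t a b).map (shE i j).toEmbedding = DR (s + i + j) (t + i + j) (a + i - j) (b + i - j) := by
  ext ⟨x, y, c⟩
  rw [psymb_mem, mem_DR, mem_DR]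
  have h1 : (shE i j).symm (x, y, c) = (x - i, y - j, c) := rfl
  rw [h1]
  cases c
  · simp only [sm, df, ea, eb]
    simp
    omega
  · simp only [sm, df, ea, eb]
    simp
    omega

theorem DR_rx (s t a b : ℤ) : (DR s t a b).map (rxE 0).toEmbedding = DR (-b) (-a) (-t) (-s) := by
  ext ⟨x, y, c⟩
  rw [psymb_mem, mem_DR, mem_DR]
  have h1 : (rxE 0).symm (x, y, c) = (if c then 0 - x else 0 - x - 1, y, c) := rfl
  rw [h1]
  cases c
  · simp only [sm, df, ea, eb]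
    simp
    omega
  · simp only [sm, df, ea, eb]
    simp
    omega

theorem DR_tr (s t a b : ℤ) : (DR s t a b).map trE.toEmbedding = DR s t (-b) (-a) := by
  ext ⟨x, y, c⟩
  rw [psymb_mem, mem_DR, mem_DR]
  have h1 : trE.symm (x, y, c) = (y, x, !c) := rfl
  rw [h1]
  cases c
  · simp only [sm, df, ea, eb]
    simp
    omega
  · simp only [sm, df, ea, eb]
    simp
    omega

end NX
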