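import Pool.Agent.Lib.MP_216314_pr.N.ZD1

/-!
# Two crossing clusters of a diagonal rectangle which reach the last row coincide

`one_top`: if `u.1 = u'.1` then `u = u'`; otherwise `planar` with the smaller first coordinate in the role of `u`. `one_bot`: apply `one_top` to the image under the transposition `trE`/`trV` (`DR_tr`, `conn_map`, `cp_tr`): `sm` is preserved, `df` changes its sign.
-/

set_option autoImplicit false

noncomputable section

namespace NX

open Finset FKI FKP Classical

theorem one_top {s t a b : ℤ} (hst : s < t) {ω : Finset Edge} {u u' w w' r r' : V} (hu : sm u = t) (hu' : sm u' = t) (hw : sm w = s) (hw' : sm w' = s)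
    (hr : df r = b) (hr' : df r' = b) (h1 : Conn (DR s t a b) ω u w) (h2 : Conn (DR s t a b) ω u r)
    (h3 : Conn (DR s t a b) ω u' w') (h4 : Conn (DR s t a b) ω u' r') : Conn (DR s t a b) ω u u' := by
  rcases lt_trichotomy u.1 u'.1 with h | h | h
  · exact planar hst hu hu' hw' hr h h2 h3
  · have e : u = u' := by
      unfold sm at hu hu'
      refine Prod.ext h ?_
      rw [h] at hu
      linarith
    rw [e]
    exact Conn.refl _ _ _
  · exact (planar hst hu' hu hw hr' h h4 h1).symm

theorem one_bot {s t a b : ℤ} (hst : s < t) {ω : Finset Edge} {u u' w w' r r' : V} (hu : sm u = t) (hu' : sm u' = t) (hw : sm w = s) (hw' : sm w' = s)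
    (hr : df r = a) (hr' : df r' = a) (h1 : Conn (DR s t a b) ω u w) (h2 : Conn (DR s t a b) ω u r)
    (h3 : Conn (DR s t a b) ω u' w') (h4 : Conn (DR s t a b) ω u' r') : Conn (DR s t a b) ω u u' := by
  have hs : ∀ v : V, sm (trV v) = sm v := fun v => add_comm _ _
  have hd : ∀ v : V, df (trV v) = - df v := fun v => (neg_sub _ _).symm
  have hm : ∀ x y : V, Conn (DR s t (-b) (-a)) (ω.map trE.toEmbedding) (trV x) (trV y) ↔ Conn (DR s t a b) ω x y := by
    intro x y
    rw [← DR_tr]
    exact conn_map cp_tr _ _ _ _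
  rw [← hm]
  refine one_top hst (w := trV w) (w' := trV w') (r := trV r) (r' := trV r') ?_ ?_ ?_ ?_ ?_ ?_ ?_ ?_ ?_ ?_
  · rw [hs]
    exact hu
  · rw [hs]
    exact hu'
  · rw [hs]
    exact hw
  · rw [hs]
    exact hw'
  · rw [hd, hr]
  · rw [hd, hr']
  · exact (hm _ _).2 h1
  · exact (hm _ _).2 h2
  · exact (hm _ _).2 h3
  · exact (hm _ _).2 h4

end NX
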