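import Pool.Agent.Lib.MP_216314_pr.N.ZC
import Pool.Agent.Lib.MP_216314_pr.P.PCross

/-!
# Two crossing clusters of a diagonal rectangle which reach the last row coincide

`planar`: a path `P` from `u` (on the line `sm = t`) to `r` (on the line `df = b`) and a path `P'` from `u'` (on the line `sm = t`, `u.1 < u'.1`) to `w'` (on the line `sm = s`) meet. Proof: let `M` be large (`M ≥ |s|+|t|+|a|+|b|+1` and larger than all the coordinates), `ω' = (ω ∩ F) ∪ R1 ∪ R2 ∪ R3 ∪ R4` with the rays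
`R1`: from `u` up: vertices `(u.1, u.2 + k)` to `(u.1, M)`; `R2`: from `r` down: `(r.1, r.2 - k)` to `(r.1, -M)`; `R3`: from `u'` to the right: `(u'.1 + k, u'.2)` to `(M, u'.2)`; `R4`: from `w'` to the left: `(w'.1 - k, w'.2)` to `(-M, w'.2)`
(vertical edges `(x, y, true)` joining `(x,y)`, `(x,y+1)`; horizontal edges `(x, y, false)` joining `(x,y)`, `(x+1,y)`). In `ω'` there is a path from `(r.1, -M)` to `(u.1, M)` and a path from `(-M, w'.2)` to `(M, u'.2)`, both in the box `[-M,M]²`: `FKP.cross` (all the boxes equal to `box (-M) M (-M) M`) gives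
`(gr ω').Reachable (-M, w'.2) (r.1, -M)`. Retraction: `ρ v = u` if `v` is a vertex of `R1`, `= r` on `R2`, `= u'` on `R3`, `= w'` on `R4`, `ρ v = v` otherwise (for the base points the value is the base point in all cases). The vertices of the rays other than the base points are outside the region
(`sm > t` on `R1`, `R3`; `df > b` on `R2`; `sm < s` on `R4`) and the rays have no common vertices except possibly base points (`R1`, `R3`: first coordinate `u.1 < u'.1 ≤`; `R1`, `R3` have `sm ≥ t`, `R4` has `sm ≤ s < t`; `R2` has `df ≥ b`, `sm ≤ sm r ≤ t`, while on `R3` `df ≥ df u'` with equality of `sm` only at the base point, and on `R1` `sm > t` off the base point;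
`R2`, `R4`: `R4` has `df ≤ df w' ≤ b`, `R2` has `df ≥ b`, equality only at the base points). Define `ρ` by cases in the order: `df v > b ∧ v.1 = r.1 ∧ v.2 < r.2 ∧ sm v ≤ t`: `r`; `sm v < s`: `w'`; `sm v > t ∧ v.1 = u.1`: `u`; `sm v > t`: `u'`; otherwise `v` (check the overlaps: a vertex of `R2` may have `sm < s`, so test `R2` first, but a vertex of `R4` off the base point has `df < b`).
For every edge `e ∈ ω'`: `Conn F ω (ρ (ea e)) (ρ (eb e))`; hence (induction on the walk, `pexit_adj`) `Conn F ω (ρ (-M, w'.2)) (ρ (r.1,-M)) = Conn F ω w' r` (special cases: if the ray is trivial use the base point). Then `Conn F ω u' w'`, `w' r`, `r u`.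
`one_top`: if `u.1 = u'.1` then `u = u'`; otherwise `planar` with the smaller first coordinate in the role of `u`. `one_bot`: apply `one_top` to the image under the transposition `trE`/`trV` (`DR_tr`, `conn_map`, `cp_tr`): `sm` is preserved, `df` changes its sign.
-/

set_option autoImplicit false

noncomputable section

namespace NX

open Finset FKI FKP Classical

private theorem ZD1_retr {ω' F ω : Finset Edge} (ρ : V → V)
    (h : ∀ e ∈ ω', Conn F ω (ρ (ea e)) (ρ (eb e))) {x y : V} (hxy : (gr ω').Reachable x y) :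
    Conn F ω (ρ x) (ρ y) := by
  obtain ⟨p⟩ := hxy
  induction p with
  | nil => exact Conn.refl _ _ _
  | @cons x1 x2 x3 hadj p ih =>
    obtain ⟨e, he, h1 | h1⟩ := pexit_adj hadj
    · have h2 := h e he
      rw [h1.1, h1.2] at h2
      exact h2.trans ih
    · have h2 := h e he
      rw [h1.1, h1.2] at h2
      exact h2.symm.trans ih

private theorem ZD1_vert {F ω : Finset Edge} {x y0 y1 : ℤ} (h01 : y0 ≤ y1)
    (h : ∀ y, y0 ≤ y → y < y1 → (x, y, true) ∈ F ∧ (x, y, true) ∈ ω) :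
    Conn F ω (x, y0) (x, y1) := by
  induction y1, h01 using Int.leInduction with
  | base => exact Conn.refl _ _ _
  | succ n hn ih =>
    refine (ih fun y a b => h y a (by omega)).trans ?_
    exact pexit_edge (h n hn (by omega)).1 (h n hn (by omega)).2 (Or.inl ⟨rfl, rfl⟩)

private theorem ZD1_hor {F ω : Finset Edge} {y x0 x1 : ℤ} (h01 : x0 ≤ x1)
    (h : ∀ x, x0 ≤ x → x < x1 → (x, y, false) ∈ F ∧ (x, y, false) ∈ ω) :
    Conn F ω (x0, y) (x1, y) := by
  induction x1, h01 using Int.leInduction with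
  | base => exact Conn.refl _ _ _
  | succ n hn ih =>
    refine (ih fun y a b => h y a (by omega)).trans ?_
    exact pexit_edge (h n hn (by omega)).1 (h n hn (by omega)).2 (Or.inl ⟨rfl, rfl⟩)

/-- the coordinates of a point of the region -/
private theorem ZD1_bd {s t a b : ℤ} {v : V} (h : (s ≤ sm v ∧ sm v ≤ t) ∧ (a ≤ df v ∧ df v ≤ b)) :
    (-(|s| + |t| + |a| + |b|) ≤ v.1 ∧ v.1 ≤ |s| + |t| + |a| + |b|) ∧
      (-(|s| + |t| + |a| + |b|) ≤ v.2 ∧ v.2 ≤ |s| + |t| + |a| + |b|) := by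
  have b1 := le_abs_self s
  have b2 := neg_abs_le s
  have b3 := le_abs_self t
  have b4 := neg_abs_le t
  have b5 := le_abs_self a
  have b6 := neg_abs_le a
  have b7 := le_abs_self b
  have b8 := neg_abs_le b
  generalize |s| = S at *
  generalize |t| = T at *
  generalize |a| = A at *
  generalize |b| = B at *
  unfold sm df at h
  omega

/-- the retraction -/
private def ZD1_rho (s t b : ℤ) (u u' w' r : V) (v : V) : V :=
  if b < df v ∧ v.1 = r.1 ∧ v.2 < r.2 ∧ sm v ≤ t then r else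
    if sm v < s then w' else
      if t < sm v ∧ v.1 = u.1 then u else
        if t < sm v then u' else v

private theorem ZD1_rhoD {s t b : ℤ} {u u' w' r v : V} (h1 : s ≤ sm v) (h2 : sm v ≤ t)
    (h3 : df v ≤ b) : ZD1_rho s t b u u' w' r v = v := by
  unfold ZD1_rho
  rw [if_neg (fun h => absurd h.1 (not_lt.2 h3)), if_neg (not_lt.2 h1),
    if_neg (fun h => absurd h.1 (not_lt.2 h2)), if_neg (not_lt.2 h2)]

private theorem ZD1_rho1 {s t b : ℤ} {u u' w' r v : V} (hst : s < t) (hu : sm u = t)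
    (hub : df u ≤ b) (h1 : v.1 = u.1) (h2 : u.2 ≤ v.2) : ZD1_rho s t b u u' w' r v = u := by
  rcases h2.eq_or_lt with h3 | h3
  · have e : v = u := Prod.ext h1 h3.symm
    rw [e]
    exact ZD1_rhoD (by omega) hu.le hub
  · have h4 : t < sm v := by
      unfold sm at *
      omega
    unfold ZD1_rho
    rw [if_neg (fun h => absurd h.2.2.2 (not_le.2 h4)), if_neg (by omega), if_pos ⟨h4, h1⟩]

private theorem ZD1_rho2 {s t b : ℤ} {u u' w' r v : V} (hr1 : s ≤ sm r) (hr2 : sm r ≤ t)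
    (hr : df r = b) (h1 : v.1 = r.1) (h2 : v.2 ≤ r.2) : ZD1_rho s t b u u' w' r v = r := by
  rcases h2.eq_or_lt with h3 | h3
  · have e : v = r := Prod.ext h1 h3
    rw [e]
    exact ZD1_rhoD hr1 hr2 hr.le
  · have h4 : b < df v := by
      unfold df at *
      omega
    have h5 : sm v ≤ t := by
      unfold sm at *
      omega
    unfold ZD1_rho
    rw [if_pos ⟨h4, h1, h3, h5⟩]

private theorem ZD1_rho3 {s t b : ℤ} {u u' w' r v : V} (hst : s < t) (hu' : sm u' = t)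
    (hub : df u' ≤ b) (huu : u.1 < u'.1) (h1 : v.2 = u'.2) (h2 : u'.1 ≤ v.1) :
    ZD1_rho s t b u u' w' r v = u' := by
  rcases h2.eq_or_lt with h3 | h3
  · have e : v = u' := Prod.ext h3.symm h1
    rw [e]
    exact ZD1_rhoD (by omega) hu'.le hub
  · have h4 : t < sm v := by
      unfold sm at *
      omega
    unfold ZD1_rho
    rw [if_neg (fun h => absurd h.2.2.2 (not_le.2 h4)), if_neg (by omega),
      if_neg (fun h => by omega), if_pos h4]

private theorem ZD1_rho4 {s t b : ℤ} {u u' w' r v : V} (hst : s < t) (hw : sm w' = s)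
    (hwb : df w' ≤ b) (h1 : v.2 = w'.2) (h2 : v.1 ≤ w'.1) :
    ZD1_rho s t b u u' w' r v = w' := by
  rcases h2.eq_or_lt with h3 | h3
  · have e : v = w' := Prod.ext h3 h1
    rw [e]
    exact ZD1_rhoD hw.ge (by omega) hwb
  · have h4 : sm v < s := by
      unfold sm at *
      omega
    have h5 : df v ≤ b := by
      unfold df at *
      omega
    unfold ZD1_rho
    rw [if_neg (fun h => absurd h.1 (not_lt.2 h5)), if_pos h4]

theorem planar {s t a b : ℤ} (hst : s < t) {ω : Finset Edge} {u u' w' r : V} (hu : sm u = t) (hu' : sm u' = t) (hw : sm w' = s)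
    (hr : df r = b) (huu : u.1 < u'.1) (h1 : Conn (DR s t a b) ω u r) (h2 : Conn (DR s t a b) ω u' w') : Conn (DR s t a b) ω u u' := by
  have hne' : u' ≠ w' := by
    rintro rfl
    omega
  obtain ⟨⟨us', ud'⟩, ⟨ws, wd⟩⟩ := DR_stay h2 hne'
  have hdu : df u < df u' := by
    unfold sm at hu hu'
    unfold df
    omega
  have hne : u ≠ r := by
    rintro rfl
    omega
  obtain ⟨⟨us, ud⟩, ⟨rs, rd⟩⟩ := DR_stay h1 hne
  have bu := ZD1_bd ⟨us, ud⟩
  have bu' := ZD1_bd ⟨us', ud'⟩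
  have br := ZD1_bd ⟨rs, rd⟩
  have bw := ZD1_bd ⟨ws, wd⟩
  have hF : DR s t a b ⊆ box (-(|s| + |t| + |a| + |b|)) (|s| + |t| + |a| + |b|)
      (-(|s| + |t| + |a| + |b|)) (|s| + |t| + |a| + |b|) := Finset.filter_subset _ _
  generalize |s| + |t| + |a| + |b| = M at *
  obtain ⟨ω', hω'⟩ : ∃ ω' : Finset Edge, ω' = (ω ∩ DR s t a b) ∪
      (({u.1} ×ˢ (Ico u.2 M ×ˢ {true})) ∪ (({r.1} ×ˢ (Ico (-M) r.2 ×ˢ {true})) ∪
      ((Ico u'.1 M ×ˢ ({u'.2} ×ˢ {false})) ∪ (Ico (-M) w'.1 ×ˢ ({w'.2} ×ˢ {false}))))) :=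
    ⟨_, rfl⟩
  have hmem : ∀ e : Edge, e ∈ ω' ↔ (e ∈ ω ∧ e ∈ DR s t a b) ∨
      (e.1 = u.1 ∧ (u.2 ≤ e.2.1 ∧ e.2.1 < M) ∧ e.2.2 = true) ∨
      (e.1 = r.1 ∧ (-M ≤ e.2.1 ∧ e.2.1 < r.2) ∧ e.2.2 = true) ∨
      ((u'.1 ≤ e.1 ∧ e.1 < M) ∧ e.2.1 = u'.2 ∧ e.2.2 = false) ∨
      ((-M ≤ e.1 ∧ e.1 < w'.1) ∧ e.2.1 = w'.2 ∧ e.2.2 = false) := by
    intro e
    rw [hω']
    simp only [mem_union, mem_inter, mem_product, mem_Ico, mem_singleton]
  have hbox : ∀ e : Edge, e ∈ box (-M) M (-M) M ↔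
      (e.2.2 = false ∧ -M ≤ e.1 ∧ e.1 < M ∧ -M ≤ e.2.1 ∧ e.2.1 ≤ M) ∨
      (e.2.2 = true ∧ -M ≤ e.1 ∧ e.1 ≤ M ∧ -M ≤ e.2.1 ∧ e.2.1 < M) := fun e => mem_box
  have c1 : Conn (box (-M) M (-M) M) ω' (u.1, u.2) (u.1, M) := by
    refine ZD1_vert bu.2.2 fun y a b => ⟨?_, ?_⟩
    · rw [hbox]
      exact Or.inr ⟨rfl, bu.1.1, bu.1.2, bu.2.1.trans a, b⟩
    · rw [hmem]
      exact Or.inr (Or.inl ⟨rfl, ⟨a, b⟩, rfl⟩)
  have c2 : Conn (box (-M) M (-M) M) ω' (r.1, -M) (r.1, r.2) := by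
    refine ZD1_vert br.2.1 fun y a b => ⟨?_, ?_⟩
    · rw [hbox]
      exact Or.inr ⟨rfl, br.1.1, br.1.2, a, lt_of_lt_of_le b br.2.2⟩
    · rw [hmem]
      exact Or.inr (Or.inr (Or.inl ⟨rfl, ⟨a, b⟩, rfl⟩))
  have c3 : Conn (box (-M) M (-M) M) ω' (u'.1, u'.2) (M, u'.2) := by
    refine ZD1_hor bu'.1.2 fun x a b => ⟨?_, ?_⟩
    · rw [hbox]
      exact Or.inl ⟨rfl, bu'.1.1.trans a, b, bu'.2.1, bu'.2.2⟩
    · rw [hmem]
      exact Or.inr (Or.inr (Or.inr (Or.inl ⟨⟨a, b⟩, rfl, rfl⟩)))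
  have c4 : Conn (box (-M) M (-M) M) ω' (-M, w'.2) (w'.1, w'.2) := by
    refine ZD1_hor bw.1.1 fun x a b => ⟨?_, ?_⟩
    · rw [hbox]
      exact Or.inl ⟨rfl, a, lt_of_lt_of_le b bw.1.2, bw.2.1, bw.2.2⟩
    · rw [hmem]
      exact Or.inr (Or.inr (Or.inr (Or.inr ⟨⟨a, b⟩, rfl, rfl⟩)))
  have hsub : ∀ x y : V, Conn (DR s t a b) ω x y → Conn (box (-M) M (-M) M) ω' x y := by
    intro x y h
    have h3 : Conn (DR s t a b) (ω ∩ DR s t a b) x y := by
      unfold Conn at *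
      rw [Finset.inter_assoc, Finset.inter_self]
      exact h
    refine h3.mono hF ?_
    rw [hω']
    exact Finset.subset_union_left
  have hc : Conn (box (-M) M (-M) M) ω' (-M, w'.2) (M, u'.2) :=
    c4.trans ((hsub _ _ h2.symm).trans c3)
  have hd : Conn (box (-M) M (-M) M) ω' (r.1, -M) (u.1, M) :=
    c2.trans ((hsub _ _ h1.symm).trans c1)
  have hcr := cross le_rfl le_rfl le_rfl le_rfl bw.2 bu'.2 br.1 bu.1 hc hd
  have hret := ZD1_retr (F := DR s t a b) (ω := ω) (ZD1_rho s t b u u' w' r) (fun e he => by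
    rw [hmem] at he
    obtain ⟨x, y, c⟩ := e
    rcases he with ⟨he1, he2⟩ | ⟨g1, ⟨g2, g3⟩, g4⟩ | ⟨g1, ⟨g2, g3⟩, g4⟩ | ⟨⟨g1, g2⟩, g3, g4⟩ |
      ⟨⟨g1, g2⟩, g3, g4⟩
    · have hm := mem_DR.1 he2
      rw [ZD1_rhoD hm.1.1 hm.1.2 hm.2.2.1.2, ZD1_rhoD hm.2.1.1 hm.2.1.2 hm.2.2.2.2]
      exact pexit_edge he2 he1 (Or.inl ⟨rfl, rfl⟩)
    · simp only at g1 g2 g3 g4
      subst g4
      have e1 : ea (x, y, true) = (x, y) := rfl
      have e2 : eb (x, y, true) = (x, y + 1) := rfl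
      rw [e1, e2, ZD1_rho1 hst hu ud.2 g1 g2, ZD1_rho1 hst hu ud.2 g1 (by simp only; omega)]
      exact Conn.refl _ _ _
    · simp only at g1 g2 g3 g4
      subst g4
      have e1 : ea (x, y, true) = (x, y) := rfl
      have e2 : eb (x, y, true) = (x, y + 1) := rfl
      rw [e1, e2, ZD1_rho2 rs.1 rs.2 hr g1 (by simp only; omega),
        ZD1_rho2 rs.1 rs.2 hr g1 (by simp only; omega)]
      exact Conn.refl _ _ _
    · simp only at g1 g2 g3 g4
      subst g4
      have e1 : ea (x, y, false) = (x, y) := rfl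
      have e2 : eb (x, y, false) = (x + 1, y) := rfl
      rw [e1, e2, ZD1_rho3 hst hu' ud'.2 huu g3 g1, ZD1_rho3 hst hu' ud'.2 huu g3
        (by simp only; omega)]
      exact Conn.refl _ _ _
    · simp only at g1 g2 g3 g4
      subst g4
      have e1 : ea (x, y, false) = (x, y) := rfl
      have e2 : eb (x, y, false) = (x + 1, y) := rfl
      rw [e1, e2, ZD1_rho4 hst hw wd.2 g3 (by simp only; omega), ZD1_rho4 hst hw wd.2 g3
        (by simp only; omega)]
      exact Conn.refl _ _ _) hcr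
  rw [ZD1_rho4 (v := (-M, w'.2)) hst hw wd.2 rfl bw.1.1,
    ZD1_rho2 (v := (r.1, -M)) rs.1 rs.2 hr rfl br.2.1] at hret
  exact h1.trans (hret.symm.trans h2.symm)

end NX
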