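import Pool.Agent.Lib.MP_216314_pr.N.ZE1

/-!
# Superadditivity and monotonicity of the number of crossing clusters

`nc_sup`: `nc_super`; `nc_incr`: `nc_inj` twice. `ff_super`, `ff_mono`: means (`mz_mono`, `mz_add`, `mz_const`, `en_dep`). `ff_anti`: `np_le`: `first_hit` with `f = - sm`, `t = L` from `u` (`sm u = 0`) to `w` (`sm w = -(L+1)`).
`ff_sh`: `en_map` with `shE k (-k)`, `DR_sh`. `en_vert`: `en_map` with `rxE 0` (`sm (rxV 0 v) = - df v`) and then with `shE a 0`. `ff_k`: the vertices `u ∈ vs F` with `sm u = 0` are determined by `df u ∈ [a,b]`: `np_le_card`, `card_le_card_of_injOn df` into `Icc a b`.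
-/

set_option autoImplicit false

noncomputable section

namespace NX

open Finset FKI FKP Classical

theorem nc_sup {L : ℕ} (hL : 1 ≤ L) {a b c : ℤ} (hab : a ≤ b) (hbc : b ≤ c) (ω : Finset Edge) :
    nc (DR (-(L : ℤ)) 0 a b) ω LA (LB L) + nc (DR (-(L : ℤ)) 0 b c) ω LA (LB L) ≤ nc (DR (-(L : ℤ)) 0 a c) ω LA (LB L) + 1 :=
  nc_super (DR_mono le_rfl le_rfl le_rfl hbc) (DR_mono le_rfl le_rfl hab le_rfl)
    (fun u u' h h' hc => inj_low hL hbc u u' h h' hc) (fun u u' h h' hc => inj_upp hL hab u u' h h' hc)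
    (fun u u' v v' h h' h2 h2' hc hc' => two_low hL hab hbc u u' v v' h h' h2 h2' hc hc')

theorem nc_incr {L : ℕ} (hL : 1 ≤ L) {a b a' b' : ℤ} (h1 : a' ≤ a) (h2 : b ≤ b') (hab : a ≤ b) (ω : Finset Edge) :
    nc (DR (-(L : ℤ)) 0 a b) ω LA (LB L) ≤ nc (DR (-(L : ℤ)) 0 a' b') ω LA (LB L) := by
  have h3 : nc (DR (-(L : ℤ)) 0 a b) ω LA (LB L) ≤ nc (DR (-(L : ℤ)) 0 a' b) ω LA (LB L) :=
    nc_inj (DR_mono le_rfl le_rfl h1 le_rfl) (fun u u' h h' hc => inj_upp hL h1 u u' h h' hc)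
  have h4 : nc (DR (-(L : ℤ)) 0 a' b) ω LA (LB L) ≤ nc (DR (-(L : ℤ)) 0 a' b') ω LA (LB L) :=
    nc_inj (DR_mono le_rfl le_rfl le_rfl h2) (fun u u' h h' hc => inj_low hL h2 u u' h h' hc)
  exact h3.trans h4

theorem ff_nonneg (L : ℕ) (a b : ℤ) : 0 ≤ fz L a b := en_nonneg _ _ _

theorem ff_super {L : ℕ} (hL : 1 ≤ L) {a b c : ℤ} (hab : a ≤ b) (hbc : b ≤ c) : fz L a b + fz L b c ≤ fz L a c + 1 := by
  have h1 : DR (-(L : ℤ)) 0 a b ⊆ DR (-(L : ℤ)) 0 a c := DR_mono le_rfl le_rfl le_rfl hbc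
  have h2 : DR (-(L : ℤ)) 0 b c ⊆ DR (-(L : ℤ)) 0 a c := DR_mono le_rfl le_rfl hab le_rfl
  unfold fz
  rw [← en_dep h1, ← en_dep h2, ← mz_add]
  have h3 : mz (DR (-(L : ℤ)) 0 a c) (fun ω => (nc (DR (-(L : ℤ)) 0 a b) ω LA (LB L) : ℝ) +
      (nc (DR (-(L : ℤ)) 0 b c) ω LA (LB L) : ℝ)) ≤
      mz (DR (-(L : ℤ)) 0 a c) (fun ω => (nc (DR (-(L : ℤ)) 0 a c) ω LA (LB L) : ℝ) + 1) :=
    mz_mono fun ω _ => by exact_mod_cast nc_sup hL hab hbc ω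
  refine h3.trans (le_of_eq ?_)
  rw [mz_add _ _ (fun _ => 1), mz_const]
  rfl

theorem ff_mono {L : ℕ} (hL : 1 ≤ L) {a b a' b' : ℤ} (h1 : a' ≤ a) (h2 : b ≤ b') (hab : a ≤ b) : fz L a b ≤ fz L a' b' := by
  have h3 : DR (-(L : ℤ)) 0 a b ⊆ DR (-(L : ℤ)) 0 a' b' := DR_mono le_rfl le_rfl h1 h2
  unfold fz
  rw [← en_dep h3]
  exact mz_mono fun ω _ => by exact_mod_cast nc_incr hL h1 h2 hab ω

theorem ff_anti {L : ℕ} (hL : 1 ≤ L) (a b : ℤ) : fz (L + 1) a b ≤ fz L a b := by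
  have h3 : DR (-(L : ℤ)) 0 a b ⊆ DR (-((L + 1 : ℕ) : ℤ)) 0 a b :=
    DR_mono (by push_cast; omega) le_rfl le_rfl le_rfl
  unfold fz
  rw [← en_dep h3]
  refine mz_mono fun ω _ => ?_
  have h4 : nc (DR (-((L + 1 : ℕ) : ℤ)) 0 a b) ω LA (LB (L + 1)) ≤ nc (DR (-(L : ℤ)) 0 a b) ω LA (LB L) := by
    refine np_le h3 ?_
    rintro u _ ⟨_, hu, w, hw, hc⟩
    have hu' : u.1 + u.2 = 0 := hu
    have hw' : w.1 + w.2 = -((L + 1 : ℕ) : ℤ) := hw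
    have hf : ∀ e ∈ DR (-((L + 1 : ℕ) : ℤ)) 0 a b, -sm (ea e) - -sm (eb e) ≤ 1 ∧ -sm (eb e) - -sm (ea e) ≤ 1 := by
      intro e _
      have := (edge_sm e).1
      constructor <;> omega
    obtain ⟨c, hc1, _, hc3⟩ := first_hit (fun v => -sm v) hf (a := u) (b := w) (t := (L : ℤ))
      (by show -(u.1 + u.2) ≤ (L : ℤ); omega)
      (by show (L : ℤ) ≤ -(w.1 + w.2); push_cast at hw'; omega) hc
    have hsub : (DR (-((L + 1 : ℕ) : ℤ)) 0 a b).filter (fun e => -sm (ea e) ≤ (L : ℤ) ∧ -sm (eb e) ≤ (L : ℤ)) ⊆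
        DR (-(L : ℤ)) 0 a b := by
      intro e he
      rw [mem_filter, mem_DR] at he
      rw [mem_DR]
      obtain ⟨⟨⟨_, h1⟩, ⟨_, h2⟩, h5, h6⟩, h7, h8⟩ := he
      exact ⟨⟨by omega, h1⟩, ⟨by omega, h2⟩, h5, h6⟩
    have hc4 : Conn (DR (-(L : ℤ)) 0 a b) ω u c := hc3.mono hsub (Finset.Subset.refl _)
    have hc1' : -(c.1 + c.2) = (L : ℤ) := hc1
    have hne : u ≠ c := by
      intro h
      rw [← h] at hc1'
      omega
    refine ⟨u, ⟨(vs_conn hc4 hne).1, hu, c, ?_, hc4⟩, Conn.refl _ _ _⟩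
    show c.1 + c.2 = -(L : ℤ)
    omega
  exact_mod_cast h4

theorem ff_sh (L : ℕ) (a b k : ℤ) : fz L (a + 2 * k) (b + 2 * k) = fz L a b := by
  have h1 := en_map (cp_sh k (-k)) (DR (-(L : ℤ)) 0 a b) LA (LB L)
  rw [DR_sh] at h1
  have h2 : (shV k (-k)) ⁻¹' LA = LA := by
    ext v
    show v.1 + k + (v.2 + -k) = 0 ↔ v.1 + v.2 = 0
    constructor <;> intro h <;> omega
  have h3 : (shV k (-k)) ⁻¹' (LB L) = LB L := by
    ext v
    show v.1 + k + (v.2 + -k) = -(L : ℤ) ↔ v.1 + v.2 = -(L : ℤ)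
    constructor <;> intro h <;> omega
  rw [h2, h3] at h1
  unfold fz
  rw [← h1]
  have e1 : -(L : ℤ) + k + -k = -(L : ℤ) := by ring
  have e2 : (0 : ℤ) + k + -k = 0 := by ring
  have e3 : a + k - -k = a + 2 * k := by ring
  have e4 : b + k - -k = b + 2 * k := by ring
  rw [e1, e2, e3, e4]

theorem en_vert (L H : ℕ) (a : ℤ) : en (DR (-(L : ℤ)) 0 a (a + H)) (RA a) (RA (a + H)) = fz H a (a + L) := by
  have h1 := en_map (cp_rx 0) (DR (-(L : ℤ)) 0 a (a + H)) ((shV a 0) ⁻¹' LA) ((shV a 0) ⁻¹' (LB H))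
  have h2 := en_map (cp_sh a 0) (DR (-(a + H)) (-a) 0 L) LA (LB H)
  rw [DR_rx] at h1
  rw [DR_sh] at h2
  have h3 : (rxV 0) ⁻¹' ((shV a 0) ⁻¹' LA) = RA a := by
    ext v
    show 0 - v.1 + a + (v.2 + 0) = 0 ↔ v.1 - v.2 = a
    constructor <;> intro h <;> omega
  have h4 : (rxV 0) ⁻¹' ((shV a 0) ⁻¹' (LB H)) = RA (a + H) := by
    ext v
    show 0 - v.1 + a + (v.2 + 0) = -(H : ℤ) ↔ v.1 - v.2 = a + H
    constructor <;> intro h <;> omega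
  rw [h3, h4, neg_zero, neg_neg] at h1
  have e1 : -(a + (H : ℤ)) + a + 0 = -(H : ℤ) := by ring
  have e2 : -a + a + 0 = 0 := by ring
  have e3 : 0 + a - 0 = a := by ring
  have e4 : (L : ℤ) + a - 0 = a + L := by ring
  rw [e1, e2, e3, e4] at h2
  unfold fz
  rw [h2, h1]

theorem ff_k (L : ℕ) {a b : ℤ} (hab : a ≤ b) : fz L a b ≤ b - a + 1 := by
  unfold fz en
  rw [← mz_const (DR (-(L : ℤ)) 0 a b) ((b : ℝ) - a + 1)]
  refine mz_mono fun ω _ => ?_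
  have h1 : nc (DR (-(L : ℤ)) 0 a b) ω LA (LB L) ≤ (Icc a b).card := by
    refine (np_le_card _ _ _).trans ?_
    refine Finset.card_le_card_of_injOn df ?_ ?_
    · intro u hu
      rw [Finset.mem_coe, mem_filter] at hu
      rw [Finset.mem_coe, mem_Icc]
      exact (vs_DR hu.1).2
    · intro u hu v hv huv
      rw [Finset.mem_coe, mem_filter] at hu hv
      have hu1 : u.1 + u.2 = 0 := hu.2.2.1
      have hv1 : v.1 + v.2 = 0 := hv.2.2.1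
      have huv' : u.1 - u.2 = v.1 - v.2 := huv
      exact Prod.ext (by omega) (by omega)
  rw [Int.card_Icc] at h1
  have h2 : (((b + 1 - a).toNat : ℤ)) = b + 1 - a := Int.toNat_of_nonneg (by omega)
  have h3 : ((nc (DR (-(L : ℤ)) 0 a b) ω LA (LB L) : ℤ)) ≤ b - a + 1 := by
    have h4 : ((nc (DR (-(L : ℤ)) 0 a b) ω LA (LB L) : ℤ)) ≤ ((b + 1 - a).toNat : ℤ) := by exact_mod_cast h1
    omega
  exact_mod_cast h3

end NX
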