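import Pool.Agent.Lib.MP_216314_pr.N.ZD

/-!
# Superadditivity and monotonicity of the number of crossing clusters

`LA`: the line `sm = 0`, `LB L`: the line `sm = -L`; `RA a`: the row `df = a`. `fz L a b`: mean number of the clusters of the rectangle `-L ≤ sm ≤ 0`, `a ≤ df ≤ b` which join the lines `sm = 0` and `sm = -L`.
`inj_low` (lower piece `F1 = DR (-L) 0 a b` of `F = DR (-L) 0 a c`): let `Cx F1 u`, `Cx F1 u'`, `Conn F ω u u'`. If all the vertices `z` with `Conn F ω u z` satisfy `df z ≤ b` then the path stays in `F1` (`stay_or_exit` with `P z = (df z ≤ b)`, `DR_filter_le`). Otherwise some `z` with `df z > b`: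
`FKP.first_hit` with `f = df`, `t = b` from `u` to `z` gives `r` with `df r = b` and `Conn F1 ω u r` (`DR_filter_le`), the same from `u'` to `z`: `r'`; `one_top`. `inj_upp`: the same with `df` replaced by `-df`, `one_bot`.
`two_low`: `Cx F1 u`, `Cx F2 v`, `Conn F ω u v`: `df u ≤ b ≤ df v`, `first_hit`: `u` is connected in `F1` to the row `b`.
`nc_sup`: `nc_super`; `nc_incr`: `nc_inj` twice. `ff_super`, `ff_mono`: means (`mz_mono`, `mz_add`, `mz_const`, `en_dep`). `ff_anti`: `np_le`: `first_hit` with `f = - sm`, `t = L` from `u` (`sm u = 0`) to `w` (`sm w = -(L+1)`).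
`ff_sh`: `en_map` with `shE k (-k)`, `DR_sh`. `en_vert`: `en_map` with `rxE 0` (`sm (rxV 0 v) = - df v`) and then with `shE a 0`. `nc_k`: the vertices `u ∈ vs F` with `sm u = 0` are determined by `df u ∈ [a,b]`: `np_le_card`, `card_le_card_of_injOn df` into `Icc a b`.
-/

set_option autoImplicit false

noncomputable section

namespace NX

open Finset FKI FKP Classical

def LA : Set V := {v | v.1 + v.2 = 0}

def LB (L : ℕ) : Set V := {v | v.1 + v.2 = -(L : ℤ)}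

def RA (a : ℤ) : Set V := {v | v.1 - v.2 = a}

/-- mean number of crossing clusters of the rectangle `-L ≤ x + y ≤ 0`, `a ≤ x - y ≤ b` -/
def fz (L : ℕ) (a b : ℤ) : ℝ := en (DR (-(L : ℤ)) 0 a b) LA (LB L)

theorem stay_or_exit {F ω : Finset Edge} (P : V → Prop) {u v : V} (h : Conn F ω u v) (hP : ∀ z, Conn F ω u z → P z) :
    Conn (F.filter (fun e => P (ea e) ∧ P (eb e))) ω u v := by
  have h' : (gr (ω ∩ F)).Reachable u v := h
  rw [SimpleGraph.reachable_iff_reflTransGen] at h'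
  have key : Conn F ω u v ∧ Conn (F.filter (fun e => P (ea e) ∧ P (eb e))) ω u v := by
    clear h
    induction h' with
    | refl => exact ⟨SimpleGraph.Reachable.refl _, SimpleGraph.Reachable.refl _⟩
    | @tail y z _ hyz ih =>
      obtain ⟨i1, i2⟩ := ih
      have h1 : Conn F ω u z := i1.trans (SimpleGraph.Adj.reachable hyz)
      have py := hP _ i1
      have pz := hP _ h1
      refine ⟨h1, i2.trans (SimpleGraph.Adj.reachable ?_)⟩
      unfold gr at hyz ⊢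
      rw [SimpleGraph.fromRel_adj] at hyz ⊢
      obtain ⟨hne, hor⟩ := hyz
      refine ⟨hne, ?_⟩
      rcases hor with ⟨e, he, k1, k2⟩ | ⟨e, he, k1, k2⟩
      · rw [mem_inter] at he
        refine Or.inl ⟨e, ?_, k1, k2⟩
        rw [mem_inter, mem_filter, k1, k2]
        exact ⟨he.1, he.2, py, pz⟩
      · rw [mem_inter] at he
        refine Or.inr ⟨e, ?_, k1, k2⟩
        rw [mem_inter, mem_filter, k1, k2]
        exact ⟨he.1, he.2, pz, py⟩
  exact key.2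

theorem ZE1_stay {F F' ω : Finset Edge} (P : V → Prop) (hF : ∀ e ∈ F, P (ea e) → P (eb e) → e ∈ F') {u v : V}
    (h : Conn F ω u v) (hP : ∀ z, Conn F ω u z → P z) : Conn F' ω u v := by
  refine Conn.mono ?_ (Finset.Subset.refl _) (stay_or_exit P h hP)
  intro e he
  rw [mem_filter] at he
  exact hF e he.1 he.2.1 he.2.2

theorem ZE1_step (F : Finset Edge) : ∀ e ∈ F, df (ea e) - df (eb e) ≤ 1 ∧ df (eb e) - df (ea e) ≤ 1 := by
  intro e _
  rcases (edge_sm e).2 with h | h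
  · constructor <;> omega
  · constructor <;> omega

theorem ZE1_low {s t a b c : ℤ} {ω : Finset Edge} {u z : V} (hu : df u ≤ b) (hz : b ≤ df z)
    (h : Conn (DR s t a c) ω u z) : ∃ r : V, df r = b ∧ Conn (DR s t a b) ω u r := by
  obtain ⟨r, h1, -, h3⟩ := first_hit df (ZE1_step _) hu hz h
  exact ⟨r, h1, Conn.mono (DR_filter_le b) (Finset.Subset.refl _) h3⟩

theorem ZE1_upp {s t a b c : ℤ} {ω : Finset Edge} {u z : V} (hu : b ≤ df u) (hz : df z ≤ b)
    (h : Conn (DR s t a c) ω u z) : ∃ r : V, df r = b ∧ Conn (DR s t b c) ω u r := by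
  have hs : ∀ e ∈ DR s t a c, (fun v => -df v) (ea e) - (fun v => -df v) (eb e) ≤ 1 ∧
      (fun v => -df v) (eb e) - (fun v => -df v) (ea e) ≤ 1 := by
    intro e he
    have h1 := ZE1_step _ e he
    show -df (ea e) - -df (eb e) ≤ 1 ∧ -df (eb e) - -df (ea e) ≤ 1
    constructor <;> omega
  obtain ⟨r, h1, -, h3⟩ := first_hit (fun v => -df v) hs (t := -b) (a := u) (b := z)
    (neg_le_neg hu) (neg_le_neg hz) h
  refine ⟨r, neg_injective h1, Conn.mono ?_ (Finset.Subset.refl _) h3⟩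
  intro e he
  rw [mem_filter] at he
  exact DR_filter_ge (a := a) b (mem_filter.2 ⟨he.1, neg_le_neg_iff.1 he.2.1, neg_le_neg_iff.1 he.2.2⟩)

theorem ZE1_pos {L : ℕ} (hL : 1 ≤ L) : -(L : ℤ) < 0 := by
  omega

theorem inj_low {L : ℕ} (hL : 1 ≤ L) {a b c : ℤ} (hbc : b ≤ c) {ω : Finset Edge} (u u' : V)
    (h : Cx (DR (-(L : ℤ)) 0 a b) ω LA (LB L) u) (h' : Cx (DR (-(L : ℤ)) 0 a b) ω LA (LB L) u')
    (hc : Conn (DR (-(L : ℤ)) 0 a c) ω u u') : Conn (DR (-(L : ℤ)) 0 a b) ω u u' := by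
  obtain ⟨hv, hA, w, hw, hcw⟩ := h
  obtain ⟨hv', hA', w', hw', hcw'⟩ := h'
  by_cases hall : ∀ z, Conn (DR (-(L : ℤ)) 0 a c) ω u z → df z ≤ b
  · exact ZE1_stay (fun z => df z ≤ b)
      (fun e he h1 h2 => DR_filter_le (c := c) b (mem_filter.2 ⟨he, h1, h2⟩)) hc hall
  · push Not at hall
    obtain ⟨z, hz, hbz⟩ := hall
    obtain ⟨r, hr, k1⟩ := ZE1_low (vs_DR hv).2.2 hbz.le hz
    obtain ⟨r', hr', k2⟩ := ZE1_low (vs_DR hv').2.2 hbz.le (hc.symm.trans hz)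
    exact one_top (ZE1_pos hL) hA hA' hw hw' hr hr' hcw k1 hcw' k2

theorem inj_upp {L : ℕ} (hL : 1 ≤ L) {a b c : ℤ} (hab : a ≤ b) {ω : Finset Edge} (u u' : V)
    (h : Cx (DR (-(L : ℤ)) 0 b c) ω LA (LB L) u) (h' : Cx (DR (-(L : ℤ)) 0 b c) ω LA (LB L) u')
    (hc : Conn (DR (-(L : ℤ)) 0 a c) ω u u') : Conn (DR (-(L : ℤ)) 0 b c) ω u u' := by
  obtain ⟨hv, hA, w, hw, hcw⟩ := h
  obtain ⟨hv', hA', w', hw', hcw'⟩ := h'
  by_cases hall : ∀ z, Conn (DR (-(L : ℤ)) 0 a c) ω u z → b ≤ df z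
  · exact ZE1_stay (fun z => b ≤ df z)
      (fun e he h1 h2 => DR_filter_ge (a := a) b (mem_filter.2 ⟨he, h1, h2⟩)) hc hall
  · push Not at hall
    obtain ⟨z, hz, hbz⟩ := hall
    obtain ⟨r, hr, k1⟩ := ZE1_upp (vs_DR hv).2.1 hbz.le hz
    obtain ⟨r', hr', k2⟩ := ZE1_upp (vs_DR hv').2.1 hbz.le (hc.symm.trans hz)
    exact one_bot (ZE1_pos hL) hA hA' hw hw' hr hr' hcw k1 hcw' k2

theorem two_low {L : ℕ} (hL : 1 ≤ L) {a b c : ℤ} (hab : a ≤ b) (hbc : b ≤ c) {ω : Finset Edge} (u u' v v' : V)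
    (h : Cx (DR (-(L : ℤ)) 0 a b) ω LA (LB L) u) (h' : Cx (DR (-(L : ℤ)) 0 a b) ω LA (LB L) u')
    (h2 : Cx (DR (-(L : ℤ)) 0 b c) ω LA (LB L) v) (h2' : Cx (DR (-(L : ℤ)) 0 b c) ω LA (LB L) v')
    (hc : Conn (DR (-(L : ℤ)) 0 a c) ω u v) (hc' : Conn (DR (-(L : ℤ)) 0 a c) ω u' v') : Conn (DR (-(L : ℤ)) 0 a c) ω u u' := by
  obtain ⟨hv, hA, w, hw, hcw⟩ := h
  obtain ⟨hv', hA', w', hw', hcw'⟩ := h'
  obtain ⟨r, hr, k1⟩ := ZE1_low (vs_DR hv).2.2 (vs_DR h2.1).2.1 hc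
  obtain ⟨r', hr', k2⟩ := ZE1_low (vs_DR hv').2.2 (vs_DR h2'.1).2.1 hc'
  exact Conn.mono (DR_mono le_rfl le_rfl le_rfl hbc) (Finset.Subset.refl _)
    (one_top (ZE1_pos hL) hA hA' hw hw' hr hr' hcw k1 hcw' k2)

end NX
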