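import Pool.Agent.Lib.MP_216314_pr.N.ZE

/-!
# Subadditivity

`F = DR (-L) 0 a c`, `a ≤ b - L`, `b + L ≤ c`. `cover`: let `u` be a vertex of a crossing cluster of `F`: `sm u = 0`, `Conn F ω u w`, `sm w = -L`. Either all the vertices `z` of the cluster satisfy `df z ≤ b` (then `Cx (DR (-L) 0 a b) ω LA (LB L) u`, by `stay_or_exit`, `DR_filter_le`), or all satisfy `b ≤ df z` (`Cx (DR (-L) 0 b c) ...`), or
there are vertices with `df < b` and with `df > b` in the cluster, hence (`first_hit`) a vertex `v` with `df v = b`, `Conn F ω u v`. In the last case: if all the vertices `z` of the cluster satisfy `b - L ≤ df z ≤ b + L` then `Cx (DR (-L) 0 (b-L) (b+L)) ω LA (LB L) u`. Otherwise there is `z` in the cluster with `df z > b + L` (or `df z < b - L`):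
from `v` to `z`: `first_hit` at the level `b + L` gives `z'` with `df z' = b + L` and a path from `v` to `z'` in `df ≤ b + L`, `last_exit` at the level `b` gives `v'` with `df v' = b` and a path from `v'` to `z'` in `b ≤ df ≤ b + L`: `Cx (DR (-L) 0 b (b+L)) ω (RA b) (RA (b+L)) v'`, `Conn F ω u v'`.
Below: a path from `v` to `z'` (`df z' = b - L`) in `df ≥ b - L`, and from `v'` (`df v' = b`) to `z'` in `b - L ≤ df ≤ b`: `Cx (DR (-L) 0 (b-L) b) ω (RA (b-L)) (RA b) z'`. (`L ≥ 1` so `v' ≠ z'`, `vs_conn` gives the membership in `vs`.)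
`nc_sub`: `np_or` four times and `np_le` five times. `ff_sub`: means, `en_vert`.
-/

set_option autoImplicit false

noncomputable section

namespace NX

open Finset FKI FKP Classical

private theorem ZF_hf {s t a c : ℤ} : ∀ e ∈ DR s t a c, df (ea e) - df (eb e) ≤ 1 ∧ df (eb e) - df (ea e) ≤ 1 := by
  intro e _
  rcases (edge_sm e).2 with h | h <;> constructor <;> omega

private theorem ZF_hf' {s t a c : ℤ} : ∀ e ∈ DR s t a c, (fun v : V => - df v) (ea e) - (fun v : V => - df v) (eb e) ≤ 1 ∧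
    (fun v : V => - df v) (eb e) - (fun v : V => - df v) (ea e) ≤ 1 := by
  intro e _
  show - df (ea e) - (- df (eb e)) ≤ 1 ∧ - df (eb e) - (- df (ea e)) ≤ 1
  rcases (edge_sm e).2 with h | h <;> constructor <;> omega

private theorem ZF_up {L : ℕ} (hL : 1 ≤ L) {a b c : ℤ} {ω : Finset Edge} {u v z : V} (hv : df v = b)
    (huv : Conn (DR (-(L : ℤ)) 0 a c) ω u v) (huz : Conn (DR (-(L : ℤ)) 0 a c) ω u z) (hz : b + L ≤ df z) :
    ∃ u', Cx (DR (-(L : ℤ)) 0 b (b + L)) ω (RA b) (RA (b + L)) u' ∧ Conn (DR (-(L : ℤ)) 0 a c) ω u u' := by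
  obtain ⟨z', h1, -, h3⟩ := first_hit (F := DR (-(L : ℤ)) 0 a c) (ω := ω) df ZF_hf (a := v) (b := z) (t := b + L)
    (by omega) hz (huv.symm.trans huz)
  obtain ⟨v', h4, h5, h6⟩ := last_exit (F := (DR (-(L : ℤ)) 0 a c).filter (fun e => df (ea e) ≤ b + L ∧ df (eb e) ≤ b + L))
    (ω := ω) df (fun e he => ZF_hf e (mem_filter.1 he).1) (a := v) (b := z') (t := b) (by omega) (by omega) h3
  have h7 : Conn (DR (-(L : ℤ)) 0 b (b + L)) ω v' z' := by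
    refine h6.mono ?_ (Finset.Subset.refl _)
    intro e he
    rw [mem_filter, mem_filter, mem_DR] at he
    rw [mem_DR]
    obtain ⟨⟨⟨e1, e2, e3, e4⟩, e5, e6⟩, e7, e8⟩ := he
    exact ⟨e1, e2, ⟨e7, e5⟩, ⟨e8, e6⟩⟩
  have hne : v' ≠ z' := by
    intro h
    rw [h, h1] at h4
    omega
  refine ⟨v', ⟨(vs_conn h7 hne).1, h4, z', h1, h7⟩, huv.trans ?_⟩
  exact h5.mono (filter_subset _ _) (Finset.Subset.refl _)

private theorem ZF_down {L : ℕ} (hL : 1 ≤ L) {a b c : ℤ} {ω : Finset Edge} {u v z : V} (hv : df v = b)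
    (huv : Conn (DR (-(L : ℤ)) 0 a c) ω u v) (huz : Conn (DR (-(L : ℤ)) 0 a c) ω u z) (hz : df z ≤ b - L) :
    ∃ u', Cx (DR (-(L : ℤ)) 0 (b - L) b) ω (RA (b - L)) (RA b) u' ∧ Conn (DR (-(L : ℤ)) 0 a c) ω u u' := by
  obtain ⟨z', h1, -, h3⟩ := first_hit (F := DR (-(L : ℤ)) 0 a c) (ω := ω) (fun v => - df v) ZF_hf' (a := v) (b := z)
    (t := -(b - L)) (by show - df v ≤ -(b - L); omega) (by show -(b - L) ≤ - df z; omega) (huv.symm.trans huz)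
  have h1' : df z' = b - L := by
    have h1'' : - df z' = -(b - L) := h1
    omega
  obtain ⟨v', h4, h5, h6⟩ := last_exit (F := (DR (-(L : ℤ)) 0 a c).filter
      (fun e => - df (ea e) ≤ -(b - L) ∧ - df (eb e) ≤ -(b - L)))
    (ω := ω) (fun v => - df v) (fun e he => ZF_hf' e (mem_filter.1 he).1) (a := v) (b := z') (t := -b)
    (by show - df v ≤ -b; omega) (by show -b ≤ - df z'; omega) h3
  have h4' : df v' = b := by
    have h4'' : - df v' = -b := h4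
    omega
  have h7 : Conn (DR (-(L : ℤ)) 0 (b - L) b) ω v' z' := by
    refine h6.mono ?_ (Finset.Subset.refl _)
    intro e he
    rw [mem_filter, mem_filter, mem_DR] at he
    rw [mem_DR]
    obtain ⟨⟨⟨e1, e2, e3, e4⟩, e5, e6⟩, e7, e8⟩ := he
    exact ⟨e1, e2, ⟨by omega, by omega⟩, ⟨by omega, by omega⟩⟩
  have hne : v' ≠ z' := by
    intro h
    rw [h, h1'] at h4'
    omega
  refine ⟨z', ⟨(vs_conn h7 hne).2, h1', v', h4', h7.symm⟩, ?_⟩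
  have h8 : Conn (DR (-(L : ℤ)) 0 a c) ω v z' := h3.mono (filter_subset _ _) (Finset.Subset.refl _)
  exact huv.trans h8

/-- a crossing cluster which satisfies `P` everywhere -/
private theorem ZF_stay {L : ℕ} (hL : 1 ≤ L) {a c a' c' : ℤ} {ω : Finset Edge} {u : V} (P : V → Prop)
    (h : Cx (DR (-(L : ℤ)) 0 a c) ω LA (LB L) u) (hP : ∀ z, Conn (DR (-(L : ℤ)) 0 a c) ω u z → P z)
    (hPa : ∀ z, P z → a ≤ df z → df z ≤ c → a' ≤ df z ∧ df z ≤ c') :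
    Cx (DR (-(L : ℤ)) 0 a' c') ω LA (LB L) u := by
  obtain ⟨-, hA, w, hw, hc⟩ := h
  have hA' : u.1 + u.2 = 0 := hA
  have hw' : w.1 + w.2 = -(L : ℤ) := hw
  have hne : u ≠ w := by
    intro e
    rw [← e, hA'] at hw'
    omega
  have h1 := stay_or_exit P hc hP
  have h2 : Conn (DR (-(L : ℤ)) 0 a' c') ω u w := by
    refine h1.mono ?_ (Finset.Subset.refl _)
    intro e he
    rw [mem_filter, mem_DR] at he
    rw [mem_DR]
    obtain ⟨⟨e1, e2, e3, e4⟩, e5, e6⟩ := he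
    exact ⟨e1, e2, hPa _ e5 e3.1 e3.2, hPa _ e6 e4.1 e4.2⟩
  exact ⟨(vs_conn h2 hne).1, hA, w, hw, h2⟩

theorem cover {L : ℕ} (hL : 1 ≤ L) {a b c : ℤ} (ha : a ≤ b - L) (hc : b + L ≤ c) {ω : Finset Edge} {u : V}
    (h : Cx (DR (-(L : ℤ)) 0 a c) ω LA (LB L) u) :
    Cx (DR (-(L : ℤ)) 0 a b) ω LA (LB L) u ∨ Cx (DR (-(L : ℤ)) 0 b c) ω LA (LB L) u ∨
    Cx (DR (-(L : ℤ)) 0 (b - L) (b + L)) ω LA (LB L) u ∨
    (∃ u', Cx (DR (-(L : ℤ)) 0 b (b + L)) ω (RA b) (RA (b + L)) u' ∧ Conn (DR (-(L : ℤ)) 0 a c) ω u u') ∨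
    (∃ u', Cx (DR (-(L : ℤ)) 0 (b - L) b) ω (RA (b - L)) (RA b) u' ∧ Conn (DR (-(L : ℤ)) 0 a c) ω u u') := by
  by_cases c1 : ∀ z, Conn (DR (-(L : ℤ)) 0 a c) ω u z → df z ≤ b
  · left
    exact ZF_stay hL (fun z => df z ≤ b) h c1 (fun z h1 h2 _ => ⟨h2, h1⟩)
  by_cases c2 : ∀ z, Conn (DR (-(L : ℤ)) 0 a c) ω u z → b ≤ df z
  · right
    left
    exact ZF_stay hL (fun z => b ≤ df z) h c2 (fun z h1 _ h2 => ⟨h1, h2⟩)
  push Not at c1 c2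
  obtain ⟨z1, hz1, hz1'⟩ := c1
  obtain ⟨z2, hz2, hz2'⟩ := c2
  obtain ⟨v, hv, hv1, -⟩ := first_hit (F := DR (-(L : ℤ)) 0 a c) (ω := ω) df ZF_hf (a := z2) (b := z1) (t := b)
    hz2'.le hz1'.le (hz2.symm.trans hz1)
  have huv : Conn (DR (-(L : ℤ)) 0 a c) ω u v := hz1.trans hv1.symm
  by_cases c3 : ∀ z, Conn (DR (-(L : ℤ)) 0 a c) ω u z → b - L ≤ df z ∧ df z ≤ b + L
  · right
    right
    left
    exact ZF_stay hL (fun z => b - L ≤ df z ∧ df z ≤ b + L) h c3 (fun z h1 _ _ => h1)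
  · push Not at c3
    obtain ⟨z, hz, hz'⟩ := c3
    by_cases c4 : b - L ≤ df z
    · right
      right
      right
      left
      exact ZF_up hL hv huv hz (hz' c4).le
    · right
      right
      right
      right
      exact ZF_down hL hv huv hz (not_le.1 c4).le

theorem nc_sub {L : ℕ} (hL : 1 ≤ L) {a b c : ℤ} (ha : a ≤ b - L) (hc : b + L ≤ c) (ω : Finset Edge) :
    nc (DR (-(L : ℤ)) 0 a c) ω LA (LB L) ≤ nc (DR (-(L : ℤ)) 0 a b) ω LA (LB L) + nc (DR (-(L : ℤ)) 0 b c) ω LA (LB L) +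
      nc (DR (-(L : ℤ)) 0 (b - L) (b + L)) ω LA (LB L) + nc (DR (-(L : ℤ)) 0 b (b + L)) ω (RA b) (RA (b + L)) +
      nc (DR (-(L : ℤ)) 0 (b - L) b) ω (RA (b - L)) (RA b) := by
  have hL0 : (0 : ℤ) ≤ L := by omega
  have k0 : ∀ s t s' t' : ℤ, s' ≤ s → t ≤ t' → DR (-(L : ℤ)) 0 s t ⊆ DR (-(L : ℤ)) 0 s' t' :=
    fun s t s' t' h1 h2 => DR_mono (le_refl _) (le_refl _) h1 h2
  have g1 : np (DR (-(L : ℤ)) 0 a c) ω (Cx (DR (-(L : ℤ)) 0 a b) ω LA (LB L)) ≤ nc (DR (-(L : ℤ)) 0 a b) ω LA (LB L) :=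
    np_le (k0 _ _ _ _ (le_refl _) (by omega)) fun u _ h => ⟨u, h, Conn.refl _ _ _⟩
  have g2 : np (DR (-(L : ℤ)) 0 a c) ω (Cx (DR (-(L : ℤ)) 0 b c) ω LA (LB L)) ≤ nc (DR (-(L : ℤ)) 0 b c) ω LA (LB L) :=
    np_le (k0 _ _ _ _ (by omega) (le_refl _)) fun u _ h => ⟨u, h, Conn.refl _ _ _⟩
  have g3 : np (DR (-(L : ℤ)) 0 a c) ω (Cx (DR (-(L : ℤ)) 0 (b - L) (b + L)) ω LA (LB L)) ≤
      nc (DR (-(L : ℤ)) 0 (b - L) (b + L)) ω LA (LB L) :=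
    np_le (k0 _ _ _ _ (by omega) (by omega)) fun u _ h => ⟨u, h, Conn.refl _ _ _⟩
  have g4 : np (DR (-(L : ℤ)) 0 a c) ω (fun u => ∃ u', Cx (DR (-(L : ℤ)) 0 b (b + L)) ω (RA b) (RA (b + L)) u' ∧
      Conn (DR (-(L : ℤ)) 0 a c) ω u u') ≤ nc (DR (-(L : ℤ)) 0 b (b + L)) ω (RA b) (RA (b + L)) :=
    np_le (k0 _ _ _ _ (by omega) (by omega)) fun u _ h => h
  have g5 : np (DR (-(L : ℤ)) 0 a c) ω (fun u => ∃ u', Cx (DR (-(L : ℤ)) 0 (b - L) b) ω (RA (b - L)) (RA b) u' ∧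
      Conn (DR (-(L : ℤ)) 0 a c) ω u u') ≤ nc (DR (-(L : ℤ)) 0 (b - L) b) ω (RA (b - L)) (RA b) :=
    np_le (k0 _ _ _ _ (by omega) (by omega)) fun u _ h => h
  have s1 := np_or (F := DR (-(L : ℤ)) 0 a c) (ω := ω) (P := Cx (DR (-(L : ℤ)) 0 a c) ω LA (LB L))
    (Q := Cx (DR (-(L : ℤ)) 0 a b) ω LA (LB L))
    (R := fun u => Cx (DR (-(L : ℤ)) 0 b c) ω LA (LB L) u ∨
      Cx (DR (-(L : ℤ)) 0 (b - L) (b + L)) ω LA (LB L) u ∨
      (∃ u', Cx (DR (-(L : ℤ)) 0 b (b + L)) ω (RA b) (RA (b + L)) u' ∧ Conn (DR (-(L : ℤ)) 0 a c) ω u u') ∨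
      (∃ u', Cx (DR (-(L : ℤ)) 0 (b - L) b) ω (RA (b - L)) (RA b) u' ∧ Conn (DR (-(L : ℤ)) 0 a c) ω u u'))
    (fun u _ h => cover hL ha hc h)
  have s2 := np_or (F := DR (-(L : ℤ)) 0 a c) (ω := ω)
    (P := fun u => Cx (DR (-(L : ℤ)) 0 b c) ω LA (LB L) u ∨
      Cx (DR (-(L : ℤ)) 0 (b - L) (b + L)) ω LA (LB L) u ∨
      (∃ u', Cx (DR (-(L : ℤ)) 0 b (b + L)) ω (RA b) (RA (b + L)) u' ∧ Conn (DR (-(L : ℤ)) 0 a c) ω u u') ∨
      (∃ u', Cx (DR (-(L : ℤ)) 0 (b - L) b) ω (RA (b - L)) (RA b) u' ∧ Conn (DR (-(L : ℤ)) 0 a c) ω u u'))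
    (Q := Cx (DR (-(L : ℤ)) 0 b c) ω LA (LB L))
    (R := fun u => Cx (DR (-(L : ℤ)) 0 (b - L) (b + L)) ω LA (LB L) u ∨
      (∃ u', Cx (DR (-(L : ℤ)) 0 b (b + L)) ω (RA b) (RA (b + L)) u' ∧ Conn (DR (-(L : ℤ)) 0 a c) ω u u') ∨
      (∃ u', Cx (DR (-(L : ℤ)) 0 (b - L) b) ω (RA (b - L)) (RA b) u' ∧ Conn (DR (-(L : ℤ)) 0 a c) ω u u'))
    (fun u _ h => h)
  have s3 := np_or (F := DR (-(L : ℤ)) 0 a c) (ω := ω)
    (P := fun u => Cx (DR (-(L : ℤ)) 0 (b - L) (b + L)) ω LA (LB L) u ∨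
      (∃ u', Cx (DR (-(L : ℤ)) 0 b (b + L)) ω (RA b) (RA (b + L)) u' ∧ Conn (DR (-(L : ℤ)) 0 a c) ω u u') ∨
      (∃ u', Cx (DR (-(L : ℤ)) 0 (b - L) b) ω (RA (b - L)) (RA b) u' ∧ Conn (DR (-(L : ℤ)) 0 a c) ω u u'))
    (Q := Cx (DR (-(L : ℤ)) 0 (b - L) (b + L)) ω LA (LB L))
    (R := fun u => (∃ u', Cx (DR (-(L : ℤ)) 0 b (b + L)) ω (RA b) (RA (b + L)) u' ∧
        Conn (DR (-(L : ℤ)) 0 a c) ω u u') ∨
      (∃ u', Cx (DR (-(L : ℤ)) 0 (b - L) b) ω (RA (b - L)) (RA b) u' ∧ Conn (DR (-(L : ℤ)) 0 a c) ω u u'))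
    (fun u _ h => h)
  have s4 := np_or (F := DR (-(L : ℤ)) 0 a c) (ω := ω)
    (P := fun u => (∃ u', Cx (DR (-(L : ℤ)) 0 b (b + L)) ω (RA b) (RA (b + L)) u' ∧
        Conn (DR (-(L : ℤ)) 0 a c) ω u u') ∨
      (∃ u', Cx (DR (-(L : ℤ)) 0 (b - L) b) ω (RA (b - L)) (RA b) u' ∧ Conn (DR (-(L : ℤ)) 0 a c) ω u u'))
    (Q := fun u => ∃ u', Cx (DR (-(L : ℤ)) 0 b (b + L)) ω (RA b) (RA (b + L)) u' ∧
        Conn (DR (-(L : ℤ)) 0 a c) ω u u')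
    (R := fun u => ∃ u', Cx (DR (-(L : ℤ)) 0 (b - L) b) ω (RA (b - L)) (RA b) u' ∧
        Conn (DR (-(L : ℤ)) 0 a c) ω u u')
    (fun u _ h => h)
  have s0 : nc (DR (-(L : ℤ)) 0 a c) ω LA (LB L) =
      np (DR (-(L : ℤ)) 0 a c) ω (Cx (DR (-(L : ℤ)) 0 a c) ω LA (LB L)) := rfl
  rw [s0]
  omega

theorem ff_sub {L : ℕ} (hL : 1 ≤ L) {a b c : ℤ} (ha : a ≤ b - L) (hc : b + L ≤ c) :
    fz L a c ≤ fz L a b + fz L b c + fz L (b - L) (b + L) + fz L b (b + L) + fz L (b - L) b := by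
  have k0 : ∀ s t s' t' : ℤ, s' ≤ s → t ≤ t' → DR (-(L : ℤ)) 0 s t ⊆ DR (-(L : ℤ)) 0 s' t' :=
    fun s t s' t' h1 h2 => DR_mono (le_refl _) (le_refl _) h1 h2
  have e1 := en_dep (k0 a b a c (le_refl _) (by omega)) LA (LB L)
  have e2 := en_dep (k0 b c a c (by omega) (le_refl _)) LA (LB L)
  have e3 := en_dep (k0 (b - L) (b + L) a c (by omega) (by omega)) LA (LB L)
  have e4 := en_dep (k0 b (b + L) a c (by omega) (by omega)) (RA b) (RA (b + L))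
  have e5 := en_dep (k0 (b - L) b a c (by omega) (by omega)) (RA (b - L)) (RA b)
  have v4 := en_vert L L b
  have v5 := en_vert L L (b - L)
  rw [sub_add_cancel] at v5
  rw [v4] at e4
  rw [v5] at e5
  have h1 : fz L a c ≤ mz (DR (-(L : ℤ)) 0 a c) (fun ω =>
      ((((nc (DR (-(L : ℤ)) 0 a b) ω LA (LB L) : ℝ) + (nc (DR (-(L : ℤ)) 0 b c) ω LA (LB L) : ℝ)) +
      (nc (DR (-(L : ℤ)) 0 (b - L) (b + L)) ω LA (LB L) : ℝ)) + (nc (DR (-(L : ℤ)) 0 b (b + L)) ω (RA b) (RA (b + L)) : ℝ)) +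
      (nc (DR (-(L : ℤ)) 0 (b - L) b) ω (RA (b - L)) (RA b) : ℝ)) := by
    refine mz_mono fun ω _ => ?_
    exact_mod_cast nc_sub hL ha hc ω
  rw [mz_add, mz_add, mz_add, mz_add, e1, e2, e3, e4, e5] at h1
  exact h1

end NX
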