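import Pool.Agent.Lib.MP_216314_pr.N.ZG1

/-!
# Uniform bounds

`tall`: by `ff_mono` and `ff_sh` (`a` even: shift by `-a`, then `[0, H] ⊆ [0, 2k]` with `2k ≤ H + 1`; `a` odd: shift by `1 - a`, then `[1, H+1] ⊆ [0, 2k]` with `2k ≤ H + 2`), `upper`, `dens_nonneg`. So the three additional terms of `ff_sub` are at most `3 + (4L+9) c`.
`lower`: if `L ≤ 2k`: `fz L 0 (2k(j+1)) ≤ fz L 0 (2kj) + fz L 0 (2k) + 3 + (4L+9)c` (`j ≥ 1`, `ff_sub` with `a = 0`, `b = 2kj`, `c = 2k(j+1)`), so `fz L 0 (2kj) ≤ j (fz L 0 (2k) + 3 + (4L+9)c)`; divide by `2kj`, `j → ∞` (the sequence `2kj` is a subsequence of the even numbers). If `2k < L`: `2kc ≤ Lc`.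
`unif`: for even `K` shift by `K`; for odd `K` shift by `K + 1`: `fz L (-K) K = fz L 1 (2K+1)` is between `fz L 2 (2K) = fz L 0 (2K-2)` and `fz L 0 (2K+2)` (`K ≥ 1`); `K = 0`: `fz L 0 0 ≤ 1`. `c ≥ 0` (`dens_nonneg`), `L ≥ 1`: `c ≤ L c ≤ D`, so all the error terms are at most `20 + 40 D`.
-/

set_option autoImplicit false

noncomputable section

namespace NX

open Finset Filter Topology

theorem ZG_shift (L : ℕ) {a b a' b' : ℤ} (k : ℤ) (ha : a' = a + 2 * k) (hb : b' = b + 2 * k) :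
    fz L a' b' = fz L a b := by
  rw [ha, hb]
  exact ff_sh L a b k

/-- terms of the form `[a, a + H]` -/
theorem tall {L : ℕ} (hL : 1 ≤ L) {c : ℝ} (h : IsDens L c) (a : ℤ) (H : ℕ) : fz L a (a + H) ≤ 1 + (H + 3) * c := by
  have hc := dens_nonneg h
  rcases Int.even_or_odd' a with ⟨j, hj | hj⟩
  · have h1 : fz L a (a + H) = fz L 0 (H : ℤ) := ZG_shift L j (by omega) (by omega)
    have h2 : fz L 0 (H : ℤ) ≤ fz L 0 ((2 * ((H + 1) / 2) : ℕ) : ℤ) :=
      ff_mono hL le_rfl (by omega) (by omega)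
    have h3 := upper hL h ((H + 1) / 2)
    have h4 : 2 * (((H + 1) / 2 : ℕ) : ℝ) ≤ (H : ℝ) + 1 := by
      have h5 : 2 * ((H + 1) / 2) ≤ H + 1 := by omega
      exact_mod_cast h5
    rw [h1]
    nlinarith [mul_le_mul_of_nonneg_right h4 hc]
  · have h1 : fz L a (a + H) = fz L 1 (H + 1 : ℤ) := ZG_shift L j (by omega) (by omega)
    have h2 : fz L 1 (H + 1 : ℤ) ≤ fz L 0 ((2 * ((H + 2) / 2) : ℕ) : ℤ) :=
      ff_mono hL (by omega) (by omega) (by omega)
    have h3 := upper hL h ((H + 2) / 2)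
    have h4 : 2 * (((H + 2) / 2 : ℕ) : ℝ) ≤ (H : ℝ) + 2 := by
      have h5 : 2 * ((H + 2) / 2) ≤ H + 2 := by omega
      exact_mod_cast h5
    rw [h1]
    nlinarith [mul_le_mul_of_nonneg_right h4 hc]

theorem ZG_step {L : ℕ} (hL : 1 ≤ L) {c : ℝ} (h : IsDens L c) {k j : ℕ} (hk : L ≤ 2 * k) (hj : 1 ≤ j) :
    fz L 0 (2 * (k * (j + 1)) : ℕ) ≤ fz L 0 (2 * (k * j) : ℕ) + (fz L 0 (2 * k : ℕ) + 3 + (4 * L + 9) * c) := by
  have hkj : k ≤ k * j := Nat.le_mul_of_pos_right k hj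
  have e : ((2 * (k * (j + 1)) : ℕ) : ℤ) = ((2 * (k * j) : ℕ) : ℤ) + ((2 * k : ℕ) : ℤ) := by
    push_cast
    ring
  have h1 := ff_sub hL (a := 0) (b := ((2 * (k * j) : ℕ) : ℤ)) (c := ((2 * (k * (j + 1)) : ℕ) : ℤ))
    (by omega) (by rw [e]; omega)
  have h2 : fz L ((2 * (k * j) : ℕ) : ℤ) ((2 * (k * (j + 1)) : ℕ) : ℤ) = fz L 0 (2 * k : ℕ) :=
    ZG_shift L ((k * j : ℕ) : ℤ) (by push_cast; ring) (by rw [e]; push_cast; ring)
  have h3 := tall hL h (((2 * (k * j) : ℕ) : ℤ) - L) (2 * L)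
  have h4 := tall hL h ((2 * (k * j) : ℕ) : ℤ) L
  have h5 := tall hL h (((2 * (k * j) : ℕ) : ℤ) - L) L
  have e3 : ((2 * (k * j) : ℕ) : ℤ) - L + ((2 * L : ℕ) : ℤ) = ((2 * (k * j) : ℕ) : ℤ) + L := by
    push_cast
    ring
  have e5 : ((2 * (k * j) : ℕ) : ℤ) - L + (L : ℤ) = ((2 * (k * j) : ℕ) : ℤ) := by ring
  rw [e3] at h3
  rw [e5] at h5
  rw [h2] at h1
  have e6 : (((2 * L : ℕ) : ℝ) + 3) * c = 2 * L * c + 3 * c := by
    push_cast
    ring
  rw [e6] at h3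
  linarith

theorem ZG_ind {L : ℕ} (hL : 1 ≤ L) {c : ℝ} (h : IsDens L c) {k : ℕ} (hk : L ≤ 2 * k) (j : ℕ) :
    fz L 0 (2 * (k * (j + 1)) : ℕ) ≤ (j + 1) * (fz L 0 (2 * k : ℕ) + 3 + (4 * L + 9) * c) := by
  have hc := dens_nonneg h
  induction j with
  | zero =>
    rw [Nat.zero_add, Nat.mul_one, Nat.cast_zero, zero_add, one_mul]
    have h1 : 0 ≤ (4 * (L : ℝ) + 9) * c := by positivity
    linarith
  | succ j ih =>
    have h1 := ZG_step hL h hk (Nat.succ_le_succ (Nat.zero_le j))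
    have h2 : ((j + 1 : ℕ) : ℝ) + 1 = ((j : ℝ) + 1) + 1 := by push_cast; ring
    rw [h2, add_mul, one_mul]
    exact h1.trans (by gcongr)

theorem lower {L : ℕ} (hL : 1 ≤ L) {c : ℝ} (h : IsDens L c) (k : ℕ) : 2 * k * c ≤ fz L 0 (2 * k : ℕ) + 3 + (4 * L + 9) * c + L * c := by
  have hc := dens_nonneg h
  have hf := ff_nonneg L 0 (2 * k : ℕ)
  have h1 : 0 ≤ (4 * (L : ℝ) + 9) * c := by positivity
  have h0 : 0 ≤ (L : ℝ) * c := by positivity
  rcases lt_or_ge (2 * k) L with hk | hk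
  · have h2 : (2 : ℝ) * k ≤ L := by exact_mod_cast hk.le
    have h3 := mul_le_mul_of_nonneg_right h2 hc
    linarith
  · have hk1 : 1 ≤ k := by omega
    have hkp : (0 : ℝ) < 2 * k := by
      have h4 : (1 : ℝ) ≤ k := by exact_mod_cast hk1
      linarith
    have ht : Tendsto (fun j : ℕ => k * (j + 1)) atTop atTop := by
      refine tendsto_atTop_mono (fun j => ?_) (tendsto_add_atTop_nat 1)
      exact Nat.le_mul_of_pos_left (j + 1) hk1
    have h2 := h.comp ht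
    have h3 : c ≤ (fz L 0 (2 * k : ℕ) + 3 + (4 * L + 9) * c) / (2 * k) := by
      refine le_of_tendsto h2 (Eventually.of_forall fun j => ?_)
      show fz L 0 (2 * (k * (j + 1)) : ℕ) / (2 * ((k * (j + 1) : ℕ) : ℝ)) ≤ _
      have h4 := ZG_ind hL h hk j
      have hj : (0 : ℝ) < (j : ℝ) + 1 := by positivity
      rw [div_le_div_iff₀ (by push_cast; positivity) hkp]
      push_cast at h4 ⊢
      calc fz L 0 (2 * (k * (j + 1))) * (2 * (k : ℝ))
          ≤ ((j + 1) * (fz L 0 (2 * k) + 3 + (4 * L + 9) * c)) * (2 * k) :=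
            mul_le_mul_of_nonneg_right h4 hkp.le
        _ = (fz L 0 (2 * k) + 3 + (4 * L + 9) * c) * (2 * (k * (j + 1))) := by ring
    rw [le_div_iff₀ hkp] at h3
    linarith

theorem unif {D : ℝ} : ∃ C : ℝ, ∀ (L : ℕ) (c : ℝ), 1 ≤ L → IsDens L c → L * c ≤ D → ∀ K : ℕ,
    |fz L (-(K : ℤ)) K - 2 * K * c| ≤ C := by
  refine ⟨3 + 16 * |D|, fun L c hL h hD K => ?_⟩
  have hc := dens_nonneg h
  have hL1 : (1 : ℝ) ≤ L := by exact_mod_cast hL
  have hcL : c ≤ L * c := by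
    have h1 := mul_le_mul_of_nonneg_right hL1 hc
    linarith
  have hD' : D ≤ |D| := le_abs_self D
  rw [abs_le]
  constructor
  · rcases Nat.even_or_odd' K with ⟨m, hm | hm⟩
    · have h1 : fz L (-(K : ℤ)) K = fz L 0 (2 * K : ℕ) := by
        symm
        exact ZG_shift L (m : ℤ) (by omega) (by push_cast; omega)
      have h2 := lower hL h K
      rw [h1]
      linarith
    · have h1 : fz L 1 (4 * m + 3 : ℤ) = fz L (-(K : ℤ)) K :=
        ZG_shift L (m + 1 : ℤ) (by omega) (by omega)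
      have h2 : fz L 2 (4 * m + 2 : ℤ) ≤ fz L 1 (4 * m + 3 : ℤ) :=
        ff_mono hL (by omega) (by omega) (by omega)
      have h3 : fz L 2 (4 * m + 2 : ℤ) = fz L 0 (2 * (2 * m) : ℕ) :=
        ZG_shift L 1 (by omega) (by push_cast; ring)
      have h4 := lower hL h (2 * m)
      have h5 : (K : ℝ) = 2 * m + 1 := by
        rw [hm]
        push_cast
        ring
      have h6 : 2 * ((2 * m : ℕ) : ℝ) * c = 2 * (K : ℝ) * c - 2 * c := by
        rw [h5]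
        push_cast
        ring
      rw [h6] at h4
      linarith
  · have h1 := tall hL h (-(K : ℤ)) (2 * K)
    have e : -(K : ℤ) + ((2 * K : ℕ) : ℤ) = K := by
      push_cast
      ring
    rw [e] at h1
    have e2 : (((2 * K : ℕ) : ℝ) + 3) * c = 2 * K * c + 3 * c := by
      push_cast
      ring
    rw [e2] at h1
    have h3 : 0 ≤ |D| := abs_nonneg D
    linarith

end NX
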