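import Pool.Agent.Lib.MP_216314_pr.N.ZF

/-!
# The density of crossing clusters of a strip and uniform bounds

`dens_ex`: `u k = 1 - fz L 0 (2 k)` is subadditive (`ff_super`, `ff_sh`), `u k / k ≥ -3` for `k ≥ 1` (`ff_k`), so `u k / k → ℓ = lim` (`Subadditive.tendsto_lim`) and `ℓ ≤ u k / k` (`Subadditive.lim_le_div`); `c = -ℓ/2`.
`upper`: `fz L 0 (2k) ≤ 1 + 2 k c`. `dens_anti`: `ff_anti` and limits.
`tall`: for `a ≤ b`: `fz L a b ≤ fz L 0 (b - a + 2)`-type bounds by `ff_mono` and `ff_sh` (`a` even: shift by `-a`; `a` odd: shift by `1 - a`, then `[1, b-a+1] ⊆ [0, b-a+2]`), so the three additional terms of `ff_sub` are at most `3 (1 + (2L+2) c)`.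
`lower`: if `L ≤ 2k`: `fz L 0 (2kj)` satisfies `fz L 0 (2k(j+1)) ≤ fz L 0 (2kj) + fz L 0 (2k) + 3(1 + (2L+2)c)` (`j ≥ 1`), so `fz L 0 (2kj) ≤ j (fz L 0 (2k) + 3(1+(2L+2)c))`; divide by `2kj`, `j → ∞`. If `2k < L`: `2kc ≤ Lc`.
`unif`: for even `K` shift by `K`; for odd `K` shift by `K + 1`: `fz L (-K) K = fz L 1 (2K+1)` is between `fz L 2 (2K) = fz L 0 (2K-2)` and `fz L 0 (2K+2)` (`K ≥ 1`); `K = 0`: `fz L 0 0 ≤ 1`. Total error `C = 10 + 20 D` for instance, if `L c ≤ D` (choose any sufficient constant in the proof; the statement asks for the existence of `C` depending on `D` only).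
-/

set_option autoImplicit false

noncomputable section

namespace NX

open Finset Filter Topology

/-- the density of crossing clusters of the strip of width `L` -/
def IsDens (L : ℕ) (c : ℝ) : Prop := Tendsto (fun k : ℕ => fz L 0 (2 * k : ℕ) / (2 * k)) atTop (𝓝 c)

theorem ZG1_sub {L : ℕ} (hL : 1 ≤ L) : Subadditive (fun k : ℕ => 1 - fz L 0 (2 * k : ℕ)) := by
  intro m n
  have h1 := ff_super hL (a := 0) (b := ((2 * m : ℕ) : ℤ)) (c := ((2 * (m + n) : ℕ) : ℤ))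
    (by positivity) (by push_cast; linarith [(Nat.cast_nonneg n : (0 : ℤ) ≤ (n : ℤ))])
  have h2 := ff_sh L 0 ((2 * n : ℕ) : ℤ) (m : ℤ)
  have e1 : (0 : ℤ) + 2 * (m : ℤ) = ((2 * m : ℕ) : ℤ) := by push_cast; ring
  have e2 : ((2 * n : ℕ) : ℤ) + 2 * (m : ℤ) = ((2 * (m + n) : ℕ) : ℤ) := by push_cast; ring
  rw [e1, e2] at h2
  rw [h2] at h1
  show 1 - fz L 0 ((2 * (m + n) : ℕ) : ℤ) ≤ (1 - fz L 0 ((2 * m : ℕ) : ℤ)) + (1 - fz L 0 ((2 * n : ℕ) : ℤ))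
  linarith

theorem ZG1_bdd (L : ℕ) : BddBelow (Set.range fun k : ℕ => (1 - fz L 0 (2 * k : ℕ)) / (k : ℝ)) := by
  refine ⟨-3, ?_⟩
  rintro _ ⟨k, rfl⟩
  rcases Nat.eq_zero_or_pos k with hk | hk
  · subst hk
    simp
  · have hk' : (0 : ℝ) < (k : ℝ) := by exact_mod_cast hk
    have h1 := ff_k L (a := 0) (b := ((2 * k : ℕ) : ℤ)) (by positivity)
    show -3 ≤ (1 - fz L 0 ((2 * k : ℕ) : ℤ)) / (k : ℝ)
    rw [le_div_iff₀ hk']
    push_cast at h1 ⊢
    linarith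

theorem dens_ex {L : ℕ} (hL : 1 ≤ L) : ∃ c : ℝ, IsDens L c ∧ ∀ k : ℕ, fz L 0 (2 * k : ℕ) ≤ 1 + 2 * k * c := by
  have hs := ZG1_sub hL
  have hb := ZG1_bdd L
  have ht := hs.tendsto_lim hb
  refine ⟨-(hs.lim / 2), ?_, ?_⟩
  · have h0 : Tendsto (fun k : ℕ => (1 / 2 : ℝ) * (1 / (k : ℝ))) atTop (𝓝 ((1 / 2 : ℝ) * 0)) :=
      tendsto_one_div_atTop_nhds_zero_nat.const_mul _
    have h1 := h0.sub (ht.div_const 2)
    have e0 : (1 / 2 : ℝ) * 0 - hs.lim / 2 = -(hs.lim / 2) := by ring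
    rw [e0] at h1
    refine h1.congr' ?_
    filter_upwards [eventually_ge_atTop 1] with k hk
    have hk' : (k : ℝ) ≠ 0 := by
      have : (0 : ℝ) < (k : ℝ) := by exact_mod_cast hk
      exact this.ne'
    show (1 / 2 : ℝ) * (1 / (k : ℝ)) - (1 - fz L 0 ((2 * k : ℕ) : ℤ)) / (k : ℝ) / 2 =
      fz L 0 ((2 * k : ℕ) : ℤ) / (2 * (k : ℝ))
    field_simp
    ring
  · intro k
    rcases Nat.eq_zero_or_pos k with hk | hk
    · subst hk
      have h1 := ff_k L (a := 0) (b := ((2 * 0 : ℕ) : ℤ)) (by norm_num)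
      refine h1.trans ?_
      simp
    · have h1 := hs.lim_le_div hb (n := k) (by omega)
      have hk' : (0 : ℝ) < (k : ℝ) := by exact_mod_cast hk
      rw [le_div_iff₀ hk'] at h1
      have h2 : hs.lim * (k : ℝ) ≤ 1 - fz L 0 ((2 * k : ℕ) : ℤ) := h1
      linarith

theorem upper {L : ℕ} (hL : 1 ≤ L) {c : ℝ} (h : IsDens L c) (k : ℕ) : fz L 0 (2 * k : ℕ) ≤ 1 + 2 * k * c := by
  obtain ⟨c0, h0, h1⟩ := dens_ex hL
  have : c = c0 := tendsto_nhds_unique h h0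
  rw [this]
  exact h1 k

theorem dens_nonneg {L : ℕ} {c : ℝ} (h : IsDens L c) : 0 ≤ c := by
  refine ge_of_tendsto' h fun k => ?_
  exact div_nonneg (ff_nonneg _ _ _) (by positivity)

theorem dens_anti {L : ℕ} (hL : 1 ≤ L) {c c' : ℝ} (h : IsDens L c) (h' : IsDens (L + 1) c') : c' ≤ c := by
  refine le_of_tendsto_of_tendsto' h' h fun k => ?_
  exact div_le_div_of_nonneg_right (ff_anti hL _ _) (by positivity)

end NX
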