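import Pool.Agent.Lib.MP_216314_pr.N.ZH2

/-!
# Asymptotics of the density of the crossing clusters

`dens`: `a_n - b_n = ((3/2)(3n+1) x_n - (6n+1))/sgm n`, `x_n = (sgm n)²`, with the numerator between `3/(12n+7)` and `3/(12n+7) + 8/n²` (`x_low`, `x_up`: `(6n+2)(12n+5)/(12n+7) - (6n+1) = 3/(12n+7)`), and `sgm n` between `(2/√3)(12n+5)/(12n+7)` and `2/√3` (`x_low`; `sgm` is monotone with limit `2/√3`, `sgm_lim`): so `|2n(a_n - b_n) - √3/4| ≤ C/n`.
-/

set_option autoImplicit false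

noncomputable section

namespace NX

open Finset Filter Topology

private theorem ZH_fac (j : ℕ) : 1 ≤ (36 * ((j : ℝ) + 1) ^ 2 - 1) / (36 * ((j : ℝ) + 1) ^ 2 - 4) := by
  have hj : (0 : ℝ) ≤ j := Nat.cast_nonneg j
  have h : (0 : ℝ) < 36 * ((j : ℝ) + 1) ^ 2 - 4 := by nlinarith
  rw [le_div_iff₀ h]
  linarith

private theorem ZH_mono : Monotone sgm := by
  apply monotone_nat_of_le_succ
  intro n
  have h1 := sgm_one_le n
  unfold sgm at h1 ⊢
  rw [prod_range_succ]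
  exact le_mul_of_one_le_right (by linarith) (ZH_fac n)

private theorem ZH_le (n : ℕ) : sgm n ≤ 2 / √3 := ZH_mono.ge_of_tendsto sgm_lim n

theorem dens : ∃ C : ℝ, ∀ n : ℕ, 1 ≤ n → |2 * n * (an n - bn n) - √3 / 4| ≤ C / n := by
  refine ⟨40, ?_⟩
  intro n hn
  have hN : (1 : ℝ) ≤ n := by exact_mod_cast hn
  have hlow := x_low n
  have hup := x_up hn
  have hs1 := sgm_one_le n
  have hs2 := ZH_le n
  rw [an_eq, bn_eq]
  generalize sgm n = s at *
  generalize (n : ℝ) = N at *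
  have ht0 : 0 < √3 := Real.sqrt_pos.mpr (by norm_num)
  have ht2 : √3 * √3 = 3 := Real.mul_self_sqrt (by norm_num)
  generalize √3 = t at *
  have hs0 : 0 < s := by linarith
  have hN0 : 0 < N := by linarith
  have h7 : 0 < 12 * N + 7 := by linarith
  have h5 : 0 < 12 * N + 5 := by linarith
  have htle : t ≤ 2 := by nlinarith
  -- the bounds of `s`
  have hst : s * t ≤ 2 := by
    rwa [le_div_iff₀ ht0] at hs2
  set q : ℝ := (12 * N + 5) / (12 * N + 7) with hq
  have hq0 : 0 < q := div_pos h5 h7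
  have hq1 : q ≤ 1 := by
    rw [hq, div_le_one h7]; linarith
  have hst2 : 2 * q ≤ s * t := by
    by_contra hcon
    push Not at hcon
    have h1 : (s * t) * (s * t) < (2 * q) * (2 * q) :=
      mul_self_lt_mul_self (by positivity) hcon
    have h2 : (s * t) * (s * t) = 3 * s ^ 2 := by
      calc (s * t) * (s * t) = s ^ 2 * (t * t) := by ring
        _ = 3 * s ^ 2 := by rw [ht2]; ring
    have h3 : q * q ≤ q := by nlinarith
    nlinarith
  -- the inverse of `s`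
  have hw : s⁻¹ * s = 1 := inv_mul_cancel₀ hs0.ne'
  have hw0 : 0 < s⁻¹ := inv_pos.mpr hs0
  have hwl : t / 2 ≤ s⁻¹ := by
    have h1 : s⁻¹ * (s * t) ≤ s⁻¹ * 2 := mul_le_mul_of_nonneg_left hst hw0.le
    have h2 : s⁻¹ * (s * t) = t := by rw [← mul_assoc, hw, one_mul]
    linarith
  have hwu : s⁻¹ * (2 * q) ≤ t := by
    have h1 : s⁻¹ * (2 * q) ≤ s⁻¹ * (s * t) := mul_le_mul_of_nonneg_left hst2 hw0.le
    have h2 : s⁻¹ * (s * t) = t := by rw [← mul_assoc, hw, one_mul]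
    linarith
  have hwu2 : s⁻¹ ≤ 2 := by
    have h1 : 0 < s⁻¹ := hw0
    have h2 : 17 / 19 ≤ q := by
      rw [hq, div_le_div_iff₀ (by norm_num) h7]; linarith
    nlinarith
  -- the numerator
  have hq7 : q * (12 * N + 7) = 12 * N + 5 := by
    rw [hq]; field_simp
  set u : ℝ := 3 / 2 * (3 * N + 1) * s ^ 2 - (6 * N + 1) with hu
  have hval : 2 * N * (3 / 2 * (3 * N + 1) * s - (6 * N + 1) / s) = 2 * N * u * s⁻¹ := by
    rw [hu]
    field_simp
  have hiden : (6 * N + 2) * q - (6 * N + 1) = 3 / (12 * N + 7) := by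
    rw [hq]; field_simp; ring
  have hul : 3 / (12 * N + 7) ≤ u := by
    have h1 : 3 / 2 * (3 * N + 1) * (4 / 3 * q) ≤ 3 / 2 * (3 * N + 1) * s ^ 2 :=
      mul_le_mul_of_nonneg_left hlow (by positivity)
    rw [← hiden, hu]
    linarith
  have huu : u ≤ 3 / (12 * N + 7) + 8 / N ^ 2 := by
    have h1 : 3 / 2 * (3 * N + 1) * s ^ 2 ≤ 3 / 2 * (3 * N + 1) * (4 / 3 * q * (1 + 1 / N ^ 3)) :=
      mul_le_mul_of_nonneg_left hup (by positivity)
    have h2 : 3 / 2 * (3 * N + 1) * (4 / 3 * q * (1 + 1 / N ^ 3)) = (6 * N + 2) * q + (6 * N + 2) * q / N ^ 3 := by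
      field_simp
      ring
    have h3 : (6 * N + 2) * q / N ^ 3 ≤ 8 / N ^ 2 := by
      rw [div_le_div_iff₀ (by positivity) (by positivity)]
      have h4 : (6 * N + 2) * q ≤ 8 * N := by nlinarith
      calc (6 * N + 2) * q * N ^ 2 ≤ 8 * N * N ^ 2 := mul_le_mul_of_nonneg_right h4 (by positivity)
        _ = 8 * N ^ 3 := by ring
    rw [← hiden, hu]
    linarith
  have hu0 : 0 < u := lt_of_lt_of_le (by positivity) hul
  rw [hval, abs_le]
  constructor
  · -- lower bound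
    have h1 : 3 / (12 * N + 7) * (t / 2) ≤ u * s⁻¹ :=
      mul_le_mul hul hwl (by positivity) hu0.le
    have h2 : 2 * N * (3 / (12 * N + 7) * (t / 2)) ≤ 2 * N * (u * s⁻¹) :=
      mul_le_mul_of_nonneg_left h1 (by positivity)
    have h3 : t / 4 - 40 / N ≤ 2 * N * (3 / (12 * N + 7) * (t / 2)) := by
      have h4 : 2 * N * (3 / (12 * N + 7) * (t / 2)) = t / 4 - (7 / 4 * t) / (12 * N + 7) := by
        field_simp
        ring
      have h5' : (7 / 4 * t) / (12 * N + 7) ≤ 40 / N := by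
        rw [div_le_div_iff₀ h7 hN0]
        nlinarith
      rw [h4]
      linarith
    have h6 : 2 * N * u * s⁻¹ = 2 * N * (u * s⁻¹) := by ring
    have h7' : (40 : ℝ) / N = 40 / N := rfl
    rw [h6]
    linarith [h2, h3]
  · -- upper bound
    have h1 : u * s⁻¹ ≤ (3 / (12 * N + 7) + 8 / N ^ 2) * s⁻¹ := mul_le_mul_of_nonneg_right huu hw0.le
    have h2 : 2 * N * (u * s⁻¹) ≤ 2 * N * ((3 / (12 * N + 7) + 8 / N ^ 2) * s⁻¹) :=
      mul_le_mul_of_nonneg_left h1 (by positivity)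
    have h3 : 2 * N * ((3 / (12 * N + 7) + 8 / N ^ 2) * s⁻¹) = 6 * N / (12 * N + 7) * s⁻¹ + 16 / N * s⁻¹ := by
      field_simp
      ring
    have h4 : 16 / N * s⁻¹ ≤ 32 / N := by
      have : 16 / N * s⁻¹ ≤ 16 / N * 2 := mul_le_mul_of_nonneg_left hwu2 (by positivity)
      calc 16 / N * s⁻¹ ≤ 16 / N * 2 := this
        _ = 32 / N := by ring
    have h5' : 6 * N / (12 * N + 7) * s⁻¹ ≤ t / 4 := by
      have h6 : s⁻¹ * (2 * (12 * N + 5)) ≤ t * (12 * N + 7) := by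
        calc s⁻¹ * (2 * (12 * N + 5)) = (s⁻¹ * (2 * q)) * (12 * N + 7) := by rw [← hq7]; ring
          _ ≤ t * (12 * N + 7) := mul_le_mul_of_nonneg_right hwu h7.le
      rw [div_mul_eq_mul_div, div_le_div_iff₀ h7 (by norm_num)]
      nlinarith
    have h6 : 2 * N * u * s⁻¹ = 2 * N * (u * s⁻¹) := by ring
    have h8 : 32 / N ≤ 40 / N := div_le_div_of_nonneg_right (by norm_num) hN0.le
    rw [h6]
    linarith

end NX
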