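import Pool.Agent.Lib.MP_216314_pr.N.VD

/-!
# Asymptotics of the density of the crossing clusters

`sgm n = ∏_{j=1}^n (36 j² - 1)/(36 j² - 4)`. `an_eq`: `a_n = (3/2)(3n+1) sgm n`, `bn_eq`: `b_n = (6n+1)/sgm n` (induction on `n`). `sgm_lim`: `sgm n → 2/√3` by the product of the sine: `Real.tendsto_euler_sin_prod` at `1/6` and `1/3`: `∏_{j<n} (1 - (1/6)²/(j+1)²)/(1 - (1/3)²/(j+1)²)` is `sgm n`, and the limit is
`(sin(π/6)/(π/6))/(sin(π/3)/(π/3)) = 2 sin(π/6)/sin(π/3) = 2/√3`. So `x_n = (sgm n)² → 4/3`.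
`x_low`: `x_n ≥ (4/3)(12n+5)/(12n+7)`: the sequence `x_n (12n+7)/(12n+5)` is antitone with limit `4/3`: `x_(n+1)/x_n = ((N-1)/(N-4))²`, `N = 36(n+1)²`, and `((12n+17)(12n+7))/((12n+19)(12n+5)) = (4N-25)/(4N-49)`: `(N-1)²(4N-49) ≤ (N-4)²(4N-25)` iff `162 N ≥ 351`.
`x_up`: `x_n ≤ (4/3)(12n+5)/(12n+7) (1 + 1/n³)` for `n ≥ 1`: the sequence `x_n (12n+7)/((12n+5)(1+1/n³))` is monotone for `n ≥ 1` with limit `4/3` (`(1+1/n³) ≥ (1 + 1/(n+1)³)(1 + c/(n+1)^4)`; polynomial inequality in `n`, clear the denominators; all coefficients of the difference are positive for `n = m + 1`).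
`dens`: `a_n - b_n = ((3/2)(3n+1) x_n - (6n+1))/sgm n`, with the numerator between `3/(12n+7)` and `3/(12n+7) + 6(3n+1)/(3 n³)`-type bounds, and `sgm n` between `1` and `2/√3` with `2/√3 - sgm n ≤ C/n` (from `x_low`): so `|2n(a_n - b_n) - √3/4| ≤ C/n`.
-/

set_option autoImplicit false

noncomputable section

namespace NX

open Finset Filter Topology

def sgm (n : ℕ) : ℝ := ∏ j ∈ range n, ((36 * ((j : ℝ) + 1) ^ 2 - 1) / (36 * ((j : ℝ) + 1) ^ 2 - 4))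

theorem ZH1_pos (j : ℕ) : (0 : ℝ) < 36 * ((j : ℝ) + 1) ^ 2 - 4 := by
  have h : (0 : ℝ) ≤ j := Nat.cast_nonneg j
  nlinarith

theorem ZH1_succ (n : ℕ) : sgm (n + 1) =
    sgm n * ((36 * ((n : ℝ) + 1) ^ 2 - 1) / (36 * ((n : ℝ) + 1) ^ 2 - 4)) := by
  unfold sgm
  rw [Finset.prod_range_succ]

theorem ZH1_fac (j : ℕ) :
    (1 : ℝ) ≤ (36 * ((j : ℝ) + 1) ^ 2 - 1) / (36 * ((j : ℝ) + 1) ^ 2 - 4) := by
  rw [one_le_div (ZH1_pos j)]
  linarith

theorem sgm_one_le (n : ℕ) : 1 ≤ sgm n := by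
  induction n with
  | zero => simp [sgm]
  | succ n ih =>
    rw [ZH1_succ]
    exact one_le_mul_of_one_le_of_one_le ih (ZH1_fac n)

theorem an_eq (n : ℕ) : an n = 3 / 2 * (3 * n + 1) * sgm n := by
  induction n with
  | zero => simp [an, sgm]
  | succ n ih =>
    have h : (0 : ℝ) ≤ n := Nat.cast_nonneg n
    have e : an (n + 1) = an n * ((6 * (n : ℝ) + 5) * (6 * n + 7) / ((6 * n + 2) * (6 * n + 4))) := by
      unfold an
      rw [Finset.prod_range_succ]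
      ring
    rw [e, ih, ZH1_succ]
    have h1 : 36 * ((n : ℝ) + 1) ^ 2 - 4 = (6 * n + 4) * (6 * n + 8) := by ring
    have h2 : (6 * (n : ℝ) + 2) ≠ 0 := by positivity
    have h3 : (6 * (n : ℝ) + 4) ≠ 0 := by positivity
    have h4 : (6 * (n : ℝ) + 8) ≠ 0 := by positivity
    rw [h1]
    push_cast
    field_simp
    ring

theorem bn_eq (n : ℕ) : bn n = (6 * n + 1) / sgm n := by
  induction n with
  | zero => simp [bn, sgm]
  | succ n ih =>
    have h : (0 : ℝ) ≤ n := Nat.cast_nonneg n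
    have e : bn (n + 1) = bn n * ((6 * (n : ℝ) + 4) * (6 * n + 8) / ((6 * n + 1) * (6 * n + 5))) := by
      unfold bn
      rw [Finset.prod_range_succ]
    have hs : sgm n ≠ 0 := (lt_of_lt_of_le one_pos (sgm_one_le n)).ne'
    rw [e, ih, ZH1_succ]
    have h1 : 36 * ((n : ℝ) + 1) ^ 2 - 4 = (6 * n + 4) * (6 * n + 8) := by ring
    have h1' : 36 * ((n : ℝ) + 1) ^ 2 - 1 = (6 * n + 5) * (6 * n + 7) := by ring
    have h2 : (6 * (n : ℝ) + 1) ≠ 0 := by positivity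
    have h3 : (6 * (n : ℝ) + 4) ≠ 0 := by positivity
    have h4 : (6 * (n : ℝ) + 8) ≠ 0 := by positivity
    have h5 : (6 * (n : ℝ) + 5) ≠ 0 := by positivity
    have h6 : (6 * (n : ℝ) + 7) ≠ 0 := by positivity
    rw [h1, h1']
    push_cast
    field_simp
    ring

theorem sgm_lim : Tendsto sgm atTop (𝓝 (2 / √3)) := by
  have h1 := Real.tendsto_euler_sin_prod (1 / 6)
  have h2 := Real.tendsto_euler_sin_prod (1 / 3)
  have e1 : Real.sin (Real.pi * (1 / 6)) = 1 / 2 := by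
    rw [show Real.pi * (1 / 6) = Real.pi / 6 by ring, Real.sin_pi_div_six]
  have e2 : Real.sin (Real.pi * (1 / 3)) = √3 / 2 := by
    rw [show Real.pi * (1 / 3) = Real.pi / 3 by ring, Real.sin_pi_div_three]
  rw [e1] at h1
  rw [e2] at h2
  have h3 : (√3 : ℝ) ≠ 0 := by positivity
  have h4 := (h1.div h2 (by positivity)).const_mul 2
  have e3 : (2 : ℝ) * (1 / 2 / (√3 / 2)) = 2 / √3 := by field_simp
  rw [e3] at h4
  refine h4.congr fun n => ?_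
  have hpi : Real.pi ≠ 0 := Real.pi_ne_zero
  have hq : ∀ m : ℕ, ∏ j ∈ range m, ((1 : ℝ) - (1 / 3) ^ 2 / ((j : ℝ) + 1) ^ 2) ≠ 0 := by
    intro m
    refine Finset.prod_ne_zero_iff.2 fun j _ => ?_
    have h5 := ZH1_pos j
    have h6 : ((j : ℝ) + 1) ^ 2 ≠ 0 := by positivity
    have h7 : (1 : ℝ) - (1 / 3) ^ 2 / ((j : ℝ) + 1) ^ 2 =
        (36 * ((j : ℝ) + 1) ^ 2 - 4) / (36 * ((j : ℝ) + 1) ^ 2) := by
      field_simp
      ring
    rw [h7]
    exact div_ne_zero h5.ne' (mul_ne_zero (by norm_num) h6)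
  have hr : ∀ m : ℕ, (∏ j ∈ range m, ((1 : ℝ) - (1 / 6) ^ 2 / ((j : ℝ) + 1) ^ 2)) /
      ∏ j ∈ range m, ((1 : ℝ) - (1 / 3) ^ 2 / ((j : ℝ) + 1) ^ 2) = sgm m := by
    intro m
    rw [← Finset.prod_div_distrib]
    unfold sgm
    refine Finset.prod_congr rfl fun j _ => ?_
    have h5 := (ZH1_pos j).ne'
    have h6 : ((j : ℝ) + 1) ^ 2 ≠ 0 := by positivity
    have h7 : (1 : ℝ) - (1 / 3) ^ 2 / ((j : ℝ) + 1) ^ 2 =
        (36 * ((j : ℝ) + 1) ^ 2 - 4) / (36 * ((j : ℝ) + 1) ^ 2) := by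
      field_simp
      ring
    have h8 : (1 : ℝ) - (1 / 6) ^ 2 / ((j : ℝ) + 1) ^ 2 =
        (36 * ((j : ℝ) + 1) ^ 2 - 1) / (36 * ((j : ℝ) + 1) ^ 2) := by
      field_simp
      ring
    rw [h7, h8, div_div_div_cancel_right₀]
    exact mul_ne_zero (by norm_num) h6
  rw [← hr n]
  have hqn := hq n
  simp only [Pi.div_apply]
  field_simp
  ring

end NX
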