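import Pool.Agent.Lib.MP_216314_pr.N.ZH1

/-!
# Bounds for `x_n = (sgm n)²`

`x_low`: `x_n ≥ (4/3)(12n+5)/(12n+7)`: the sequence `x_n (12n+7)/(12n+5)` is antitone with limit `4/3`: `x_(n+1)/x_n = ((N-1)/(N-4))²`, `N = 36(n+1)²`, and `((12n+17)(12n+7))/((12n+19)(12n+5)) = (4N-25)/(4N-49)`: `(N-1)²(4N-49) ≤ (N-4)²(4N-25)` iff `162 N ≥ 351`.
`x_up`: `x_n ≤ (4/3)(12n+5)/(12n+7) (1 + 1/n³)` for `n ≥ 1`: the sequence `x_n (12n+7)/((12n+5)(1+1/n³))` is monotone for `n ≥ 1` with limit `4/3` (polynomial inequality in `n`, clear the denominators, `n = m + 1`; all coefficients of the difference are positive).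
(`sgm_lim`; `Antitone.le_of_tendsto`/`Monotone.ge_of_tendsto`; for `x_up` shift the index by one.)
-/

set_option autoImplicit false

noncomputable section

namespace NX

open Finset Filter Topology

private theorem ZH2_succ (n : ℕ) : sgm (n + 1) ^ 2 =
    sgm n ^ 2 * ((36 * ((n : ℝ) + 1) ^ 2 - 1) / (36 * ((n : ℝ) + 1) ^ 2 - 4)) ^ 2 := by
  unfold sgm
  rw [Finset.prod_range_succ, mul_pow]

private theorem ZH2_lim : Tendsto (fun n : ℕ => sgm n ^ 2) atTop (𝓝 (4 / 3)) := by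
  have h := sgm_lim.pow 2
  have e : (2 / √3) ^ 2 = (4 / 3 : ℝ) := by
    rw [div_pow, Real.sq_sqrt (by norm_num)]
    norm_num
  rwa [e] at h

private theorem ZH2_inv : Tendsto (fun n : ℕ => (1 : ℝ) / ((n : ℝ) + 1)) atTop (𝓝 0) :=
  tendsto_one_div_add_atTop_nhds_zero_nat

private theorem ZH2_rat : Tendsto (fun n : ℕ => (12 * (n : ℝ) + 7) / (12 * n + 5)) atTop (𝓝 1) := by
  have h : Tendsto (fun n : ℕ => (12 - 5 * ((1 : ℝ) / ((n : ℝ) + 1))) / (12 - 7 * ((1 : ℝ) / ((n : ℝ) + 1)))) atTop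
      (𝓝 ((12 - 5 * 0) / (12 - 7 * 0))) := by
    refine Tendsto.div ?_ ?_ (by norm_num)
    · exact tendsto_const_nhds.sub (ZH2_inv.const_mul 5)
    · exact tendsto_const_nhds.sub (ZH2_inv.const_mul 7)
  have e : ((12 - 5 * 0) / (12 - 7 * 0) : ℝ) = 1 := by norm_num
  rw [e] at h
  refine h.congr fun n => ?_
  have h1 : (n : ℝ) + 1 ≠ 0 := by positivity
  have h2 : 12 * (n : ℝ) + 5 ≠ 0 := by positivity
  have h3 : (12 - 7 * ((1 : ℝ) / ((n : ℝ) + 1))) = (12 * n + 5) / (n + 1) := by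
    field_simp
    ring
  have h4 : (12 - 5 * ((1 : ℝ) / ((n : ℝ) + 1))) = (12 * n + 7) / (n + 1) := by
    field_simp
    ring
  rw [h3, h4, div_div_div_cancel_right₀ h1]

private theorem ZH2_low (x : ℝ) (hx : 0 ≤ x) :
    ((36 * (x + 1) ^ 2 - 1) / (36 * (x + 1) ^ 2 - 4)) ^ 2 * ((12 * (x + 1) + 7) / (12 * (x + 1) + 5)) ≤
      (12 * x + 7) / (12 * x + 5) := by
  have hN : 0 < 36 * (x + 1) ^ 2 - 4 := by nlinarith
  rw [div_pow, div_mul_div_comm, div_le_div_iff₀ (by positivity) (by positivity)]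
  have e : (12 * x + 7) * ((36 * (x + 1) ^ 2 - 4) ^ 2 * (12 * (x + 1) + 5)) -
      (36 * (x + 1) ^ 2 - 1) ^ 2 * (12 * (x + 1) + 7) * (12 * x + 5) =
      5832 * x ^ 2 + 11664 * x + 5481 := by ring
  have h2 : 0 ≤ 5832 * x ^ 2 + 11664 * x + 5481 := by positivity
  linarith

theorem x_low (n : ℕ) : 4 / 3 * ((12 * (n : ℝ) + 5) / (12 * n + 7)) ≤ sgm n ^ 2 := by
  have ha : Antitone fun n : ℕ => sgm n ^ 2 * ((12 * (n : ℝ) + 7) / (12 * n + 5)) := by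
    refine antitone_nat_of_succ_le fun n => ?_
    rw [ZH2_succ, mul_assoc]
    push_cast
    exact mul_le_mul_of_nonneg_left (ZH2_low n (Nat.cast_nonneg n)) (sq_nonneg _)
  have hl : Tendsto (fun n : ℕ => sgm n ^ 2 * ((12 * (n : ℝ) + 7) / (12 * n + 5))) atTop
      (𝓝 (4 / 3 * 1)) := ZH2_lim.mul ZH2_rat
  have h := ha.le_of_tendsto hl n
  rw [mul_one] at h
  have h7 : 0 < 12 * (n : ℝ) + 7 := by positivity
  have h5 : 0 < 12 * (n : ℝ) + 5 := by positivity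
  rw [← mul_div_assoc, div_le_iff₀ h7]
  have h' : 4 / 3 ≤ sgm n ^ 2 * (12 * (n : ℝ) + 7) / (12 * n + 5) := by
    rw [mul_div_assoc]
    exact h
  rwa [le_div_iff₀ h5] at h'

private theorem ZH2_up (x : ℝ) (hx : 0 ≤ x) :
    (12 * x + 7) * x ^ 3 / ((12 * x + 5) * (x ^ 3 + 1)) ≤
    ((36 * (x + 1) ^ 2 - 1) / (36 * (x + 1) ^ 2 - 4)) ^ 2 *
      ((12 * (x + 1) + 7) * (x + 1) ^ 3 / ((12 * (x + 1) + 5) * ((x + 1) ^ 3 + 1))) := by
  have hN : 0 < 36 * (x + 1) ^ 2 - 4 := by nlinarith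
  rw [div_pow, div_mul_div_comm, div_le_div_iff₀ (by positivity) (by positivity)]
  have e : (36 * (x + 1) ^ 2 - 1) ^ 2 * ((12 * (x + 1) + 7) * (x + 1) ^ 3) * ((12 * x + 5) * (x ^ 3 + 1)) -
      (12 * x + 7) * x ^ 3 * ((36 * (x + 1) ^ 2 - 4) ^ 2 * ((12 * (x + 1) + 5) * ((x + 1) ^ 3 + 1))) =
      554040 * x ^ 8 + 3889944 * x ^ 7 + 11664351 * x ^ 6 + 19544085 * x ^ 5 + 20076093 * x ^ 4 +
        13000230 * x ^ 3 + 5203725 * x ^ 2 + 1180725 * x + 116375 := by ring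
  have h2 : 0 ≤ 554040 * x ^ 8 + 3889944 * x ^ 7 + 11664351 * x ^ 6 + 19544085 * x ^ 5 +
      20076093 * x ^ 4 + 13000230 * x ^ 3 + 5203725 * x ^ 2 + 1180725 * x + 116375 := by positivity
  linarith

private theorem ZH2_cube : Tendsto (fun n : ℕ => ((n : ℝ) + 1) ^ 3 / (((n : ℝ) + 1) ^ 3 + 1)) atTop (𝓝 1) := by
  have h : Tendsto (fun n : ℕ => 1 / (1 + ((1 : ℝ) / ((n : ℝ) + 1)) ^ 3)) atTop
      (𝓝 (1 / (1 + 0 ^ 3))) := by
    refine Tendsto.div tendsto_const_nhds ?_ (by norm_num)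
    exact tendsto_const_nhds.add (ZH2_inv.pow 3)
  have e : (1 / (1 + 0 ^ 3) : ℝ) = 1 := by norm_num
  rw [e] at h
  refine h.congr fun n => ?_
  have h1 : (n : ℝ) + 1 ≠ 0 := by positivity
  have h2 : ((n : ℝ) + 1) ^ 3 + 1 ≠ 0 := by positivity
  have h3 : 1 + ((1 : ℝ) / ((n : ℝ) + 1)) ^ 3 = (((n : ℝ) + 1) ^ 3 + 1) / (n + 1) ^ 3 := by
    field_simp
  rw [h3, one_div_div]

theorem x_up {n : ℕ} (hn : 1 ≤ n) : sgm n ^ 2 ≤ 4 / 3 * ((12 * (n : ℝ) + 5) / (12 * n + 7)) * (1 + 1 / (n : ℝ) ^ 3) := by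
  obtain ⟨m, rfl⟩ : ∃ m, n = m + 1 := ⟨n - 1, by omega⟩
  have ha : Monotone fun n : ℕ => sgm (n + 1) ^ 2 *
      ((12 * ((n : ℝ) + 1) + 7) * ((n : ℝ) + 1) ^ 3 / ((12 * ((n : ℝ) + 1) + 5) * (((n : ℝ) + 1) ^ 3 + 1))) := by
    refine monotone_nat_of_le_succ fun n => ?_
    rw [ZH2_succ (n + 1), mul_assoc]
    push_cast
    exact mul_le_mul_of_nonneg_left (ZH2_up ((n : ℝ) + 1) (by positivity)) (sq_nonneg _)
  have hl : Tendsto (fun n : ℕ => sgm (n + 1) ^ 2 *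
      ((12 * ((n : ℝ) + 1) + 7) * ((n : ℝ) + 1) ^ 3 / ((12 * ((n : ℝ) + 1) + 5) * (((n : ℝ) + 1) ^ 3 + 1)))) atTop
      (𝓝 (4 / 3 * (1 * 1))) := by
    refine Tendsto.mul (ZH2_lim.comp (tendsto_add_atTop_nat 1)) ?_
    have h1 := (ZH2_rat.comp (tendsto_add_atTop_nat 1)).mul ZH2_cube
    refine h1.congr fun n => ?_
    simp only [Function.comp]
    push_cast
    rw [div_mul_div_comm]
  have h := ha.ge_of_tendsto hl m
  have hm1 : 0 < (m : ℝ) + 1 := by positivity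
  have h7 : 0 < 12 * ((m : ℝ) + 1) + 7 := by positivity
  have h5 : 0 < 12 * ((m : ℝ) + 1) + 5 := by positivity
  have h3 : 0 < ((m : ℝ) + 1) ^ 3 + 1 := by positivity
  have hm3 : 0 < ((m : ℝ) + 1) ^ 3 := by positivity
  simp only [mul_one] at h
  rw [← mul_div_assoc, div_le_iff₀ (mul_pos h5 h3)] at h
  push_cast
  have e : 4 / 3 * ((12 * ((m : ℝ) + 1) + 5) / (12 * ((m : ℝ) + 1) + 7)) * (1 + 1 / ((m : ℝ) + 1) ^ 3) =
      4 / 3 * ((12 * ((m : ℝ) + 1) + 5) * (((m : ℝ) + 1) ^ 3 + 1)) /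
        ((12 * ((m : ℝ) + 1) + 7) * ((m : ℝ) + 1) ^ 3) := by
    field_simp
  rw [e, le_div_iff₀ (mul_pos h7 hm3)]
  exact h

end NX
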