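import Pool.Agent.Lib.MP_216314_pr.N.ZE

/-!
# Crossing clusters as connected components
-/

set_option autoImplicit false

noncomputable section

namespace NX

open Finset FKI FKP Classical

/-- the number of the clusters of the configuration `ω` (the connected components of the graph of the open edges) which
meet both lines `x + y = 0` and `x + y = -L` -/
def crs (L : ℕ) (ω : Finset Edge) : ℕ :=
  Set.ncard {C : (gr ω).ConnectedComponent | (∃ v ∈ C.supp, v.1 + v.2 = 0) ∧ ∃ v ∈ C.supp, v.1 + v.2 = -(L : ℤ)}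

/-- the mean number of the crossing clusters of the diagonal strip `-L ≤ x + y ≤ 0`, `|x - y| ≤ K` -/
def EN (L K : ℕ) : ℝ := (∑ ω ∈ (FKG.dst L K).powerset, (crs L ω : ℝ)) / 2 ^ (FKG.dst L K).card

theorem ZR_card_le {α β γ : Type*} [DecidableEq β] [DecidableEq γ] (T : Finset α) (f : α → β) (g : α → γ)
    (h : ∀ x ∈ T, ∀ y ∈ T, g x = g y → f x = f y) : (T.image f).card ≤ (T.image g).card := by
  by_cases hT : T.Nonempty
  · obtain ⟨x0, hx0⟩ := hT
    have h1 : ∀ b ∈ T.image f, ∃ x ∈ T, f x = b := fun b hb => by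
      obtain ⟨x, hx, h2⟩ := Finset.mem_image.1 hb
      exact ⟨x, hx, h2⟩
    have h2 : ∀ b : β, ∃ x ∈ T, b ∈ T.image f → f x = b := fun b => by
      by_cases hb : b ∈ T.image f
      · obtain ⟨x, hx, h3⟩ := h1 b hb
        exact ⟨x, hx, fun _ => h3⟩
      · exact ⟨x0, hx0, fun h3 => absurd h3 hb⟩
    choose k hk1 hk2 using h2
    refine Finset.card_le_card_of_injOn (fun b => g (k b)) (fun b _ => ?_) (fun b hb b' hb' he => ?_)
    · exact Finset.mem_coe.2 (Finset.mem_image_of_mem _ (hk1 b))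
    · rw [← hk2 b (Finset.mem_coe.1 hb), ← hk2 b' (Finset.mem_coe.1 hb')]
      exact h _ (hk1 b) _ (hk1 b') he
  · rw [Finset.not_nonempty_iff_eq_empty.1 hT]
    simp

theorem crs_eq {L : ℕ} (hL : 1 ≤ L) {F ω : Finset Edge} (hω : ω ⊆ F) : crs L ω = nc F ω LA (LB L) := by
  have hi : ω ∩ F = ω := Finset.inter_eq_left.2 hω
  have hC : ∀ u v, Conn F ω u v ↔ (gr ω).Reachable u v := fun u v => by
    unfold Conn
    rw [hi]
  set T := (vs F).filter (Cx F ω LA (LB L)) with hT
  have h1 : {C : (gr ω).ConnectedComponent | (∃ v ∈ C.supp, v.1 + v.2 = 0) ∧ ∃ v ∈ C.supp, v.1 + v.2 = -(L : ℤ)} =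
      ((T.image (fun v => (gr ω).connectedComponentMk v) : Finset _) : Set (gr ω).ConnectedComponent) := by
    ext C
    rw [Set.mem_setOf_eq, Finset.mem_coe, Finset.mem_image]
    constructor
    · rintro ⟨⟨v, hv, h2⟩, w, hw, h3⟩
      rw [SimpleGraph.ConnectedComponent.mem_supp_iff] at hv hw
      have h4 : (gr ω).Reachable v w := SimpleGraph.ConnectedComponent.eq.1 (hv.trans hw.symm)
      have h5 : v ≠ w := fun h => by
        rw [h, h3] at h2
        omega
      have h6 := vs_conn ((hC v w).2 h4) h5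
      refine ⟨v, ?_, hv⟩
      rw [hT, Finset.mem_filter]
      exact ⟨h6.1, h6.1, h2, w, h3, (hC v w).2 h4⟩
    · rintro ⟨v, hv, h2⟩
      rw [hT, Finset.mem_filter] at hv
      obtain ⟨_, _, h3, w, h4, h5⟩ := hv
      refine ⟨⟨v, ?_, h3⟩, w, ?_, h4⟩
      · rw [SimpleGraph.ConnectedComponent.mem_supp_iff]
        exact h2
      · rw [SimpleGraph.ConnectedComponent.mem_supp_iff, ← h2]
        exact SimpleGraph.ConnectedComponent.eq.2 ((hC v w).1 h5).symm
  unfold crs
  rw [h1, Set.ncard_coe_finset]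
  unfold nc np
  rw [← hT]
  refine le_antisymm (ZR_card_le T _ _ fun x hx y hy he => ?_) (ZR_card_le T _ _ fun x hx y hy he => ?_)
  · rw [hT, Finset.mem_filter] at hy
    exact SimpleGraph.ConnectedComponent.eq.2 ((hC x y).1 ((ck_eq hy.1).1 he))
  · rw [hT, Finset.mem_filter] at hy
    exact (ck_eq hy.1).2 ((hC x y).2 (SimpleGraph.ConnectedComponent.eq.1 he))

theorem EN_eq {L : ℕ} (hL : 1 ≤ L) (K : ℕ) : EN L K = fz L (-(K : ℤ)) K := by
  unfold EN fz en mz
  rw [← dst_DR]
  congr 1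
  refine Finset.sum_congr rfl fun ω hω => ?_
  rw [crs_eq hL (Finset.mem_powerset.1 hω)]

end NX
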