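import Pool.Agent.Lib.MP_216314_pr.N.ZT1

/-!
# From the tiles to the square lattice: means

`ff_tiles`: the bijection `c ↦ c.map (psiE m)` from the subsets of `tls n (4m) = tl n m` to the subsets of `dst (2n) (2m) = DR (-2n) 0 (-2m) (2m)` (`map_tl`, `dst_DR`), `nc_tiles`.
-/

set_option autoImplicit false

noncomputable section

namespace NX

open Finset FKI FKP FKH Classical

theorem ff_tiles {n : ℕ} (hn : 1 ≤ n) (m : ℕ) : fz (2 * n) (-((2 * m : ℕ) : ℤ)) (2 * m : ℕ) =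
    mn (tls n (4 * m)) (fun c => (cr (Cw ∅ c) (sts n (4 * m)) (sA n (4 * m)) (sB n (4 * m)) : ℝ)) := by
  have hD : DR (-((2 * n : ℕ) : ℤ)) 0 (-((2 * m : ℕ) : ℤ)) ((2 * m : ℕ) : ℤ) = (tl n m).map (psiE m) := by
    rw [map_tl]
    exact (dst_DR (2 * n) (2 * m)).symm
  have hcard : (DR (-((2 * n : ℕ) : ℤ)) 0 (-((2 * m : ℕ) : ℤ)) ((2 * m : ℕ) : ℤ)).card = (tl n m).card := by
    rw [hD, card_map]
  unfold fz en mz mn
  rw [tls_tl, hcard]
  congr 1
  symm
  refine Finset.sum_bij (fun c _ => c.map (psiE m)) ?_ ?_ ?_ ?_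
  · intro c hc
    rw [mem_powerset] at hc ⊢
    rw [hD]
    exact map_subset_map.2 hc
  · intro c _ c' _ h
    exact map_injective _ h
  · intro ω hω
    rw [mem_powerset, hD] at hω
    obtain ⟨c, hc, rfl⟩ := subset_map_iff.1 hω
    exact ⟨c, mem_powerset.2 hc, rfl⟩
  · intro c hc
    rw [mem_powerset] at hc
    exact_mod_cast (nc_tiles hn hc).symm

end NX
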