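import Pool.Agent.Lib.MP_216314_pr.N.TD
import Pool.Agent.Lib.MP_216314_pr.N.ZG
import Pool.Agent.Lib.MP_216314_pr.N.ZH
import Pool.Agent.Lib.MP_216314_pr.N.ZT
import Pool.Agent.Lib.MP_216314_pr.N.ZR

/-!
# The final assembly
-/

set_option autoImplicit false

noncomputable section

namespace NX

open Finset Filter Topology FKI

/-- the exact density of the even strips -/
theorem dens_even {n : ℕ} (hn : 1 ≤ n) {c : ℝ} (h : IsDens (2 * n) c) : c = an n - bn n := by
  obtain ⟨C, hC⟩ := strip_tiles hn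
  have h1 : ∀ m : ℕ, |fz (2 * n) 0 ((2 * (2 * m) : ℕ) : ℤ) - 2 * (2 * m) * (an n - bn n)| ≤ C := fun m => by
    have h2 := hC (2 * m)
    have h3 : 2 * (2 * m) = 4 * m := by ring
    rw [h3] at h2 ⊢
    have h4 := ff_tiles hn m
    have h5 : fz (2 * n) 0 ((4 * m : ℕ) : ℤ) = fz (2 * n) (-((2 * m : ℕ) : ℤ)) (2 * m : ℕ) := by
      have h6 := ff_sh (2 * n) (-((2 * m : ℕ) : ℤ)) (2 * m : ℕ) (m : ℤ)
      rw [← h6]
      congr 1
      · push_cast
        ring
      · push_cast
        ring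
    rw [h5, h4]
    have h7 : (((2 * m : ℕ) : ℝ)) * (2 * (an n - bn n)) = 2 * (2 * m) * (an n - bn n) := by
      push_cast
      ring
    rw [h7] at h2
    exact h2
  have h2 : Tendsto (fun m : ℕ => fz (2 * n) 0 ((2 * (2 * m) : ℕ) : ℤ) / (2 * ((2 * m : ℕ) : ℝ))) atTop (𝓝 c) :=
    h.comp (tendsto_id.const_mul_atTop' (by norm_num : 0 < 2))
  have h3 : Tendsto (fun m : ℕ => fz (2 * n) 0 ((2 * (2 * m) : ℕ) : ℤ) / (2 * ((2 * m : ℕ) : ℝ))) atTop (𝓝 (an n - bn n)) := by
    rw [tendsto_iff_norm_sub_tendsto_zero]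
    have h4 : Tendsto (fun m : ℕ => C / (m : ℝ)) atTop (𝓝 0) := tendsto_const_div_atTop_nhds_zero_nat C
    refine squeeze_zero' (Eventually.of_forall fun m => norm_nonneg _) ?_ h4
    filter_upwards [eventually_ge_atTop 1] with m hm
    have hm' : (0 : ℝ) < m := by exact_mod_cast hm
    have h5 := h1 m
    have hC0 : 0 ≤ C := le_trans (abs_nonneg _) h5
    rw [Real.norm_eq_abs]
    have h6 : fz (2 * n) 0 ((2 * (2 * m) : ℕ) : ℤ) / (2 * ((2 * m : ℕ) : ℝ)) - (an n - bn n) =
        (fz (2 * n) 0 ((2 * (2 * m) : ℕ) : ℤ) - 2 * (2 * m) * (an n - bn n)) / (4 * m) := by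
      push_cast
      field_simp
      ring
    rw [h6, abs_div, abs_of_pos (by positivity : (0 : ℝ) < 4 * m)]
    calc |fz (2 * n) 0 ((2 * (2 * m) : ℕ) : ℤ) - 2 * (2 * m) * (an n - bn n)| / (4 * m) ≤ C / (4 * m) := by gcongr
      _ ≤ C / m := by
        rw [div_le_div_iff₀ (by positivity) hm']
        nlinarith
  exact tendsto_nhds_unique h2 h3

/-- the densities of all the strips and the uniform estimate -/
theorem master : ∃ (c : ℕ → ℝ) (C : ℝ), 0 ≤ C ∧ (∀ n, 1 ≤ n → c (2 * n) = an n - bn n) ∧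
    (∀ L, 1 ≤ L → |L * c L - √3 / 4| ≤ C / L) ∧
    (∀ L, 1 ≤ L → ∀ K : ℕ, |EN L K - 2 * K * c L| ≤ C) := by
  have h1 : ∀ L : ℕ, ∃ c : ℝ, 1 ≤ L → IsDens L c := fun L => by
    by_cases hL : 1 ≤ L
    · obtain ⟨c, hc, _⟩ := dens_ex hL
      exact ⟨c, fun _ => hc⟩
    · exact ⟨0, fun h => absurd h hL⟩
  choose c hc using h1
  have hev : ∀ n, 1 ≤ n → c (2 * n) = an n - bn n := fun n hn => dens_even hn (hc (2 * n) (by omega))
  obtain ⟨C0, hC0⟩ := dens
  have hC0' : 0 ≤ C0 := by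
    have h := le_trans (abs_nonneg _) (hC0 1 le_rfl)
    simpa using h
  have hs3 : (√3 : ℝ) ≤ 2 := by
    rw [Real.sqrt_le_left (by norm_num)]
    norm_num
  have hs0 : (0 : ℝ) ≤ √3 := Real.sqrt_nonneg 3
  have hpos : ∀ L, 1 ≤ L → 0 ≤ c L := fun L hL => dens_nonneg (hc L hL)
  have hant : ∀ L, 1 ≤ L → c (L + 1) ≤ c L := fun L hL => dens_anti hL (hc L hL) (hc (L + 1) (by omega))
  have hevn : ∀ n : ℕ, 1 ≤ n → |2 * (n : ℝ) * c (2 * n) - √3 / 4| ≤ C0 / n := fun n hn => by
    rw [hev n hn]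
    exact hC0 n hn
  have hc1 : c 1 ≤ 1 + 2 * c 1 := by linarith [hpos 1 le_rfl]
  set C1 : ℝ := 20 * (C0 + 1) + 3 * c 1 with hC1
  have hC1' : 0 ≤ C1 := by
    have := hpos 1 le_rfl
    positivity
  -- the width `L` arbitrary
  have hL : ∀ L : ℕ, 1 ≤ L → |L * c L - √3 / 4| ≤ C1 / L := fun L hL1 => by
    have hL0 : (0 : ℝ) < L := by exact_mod_cast hL1
    rcases Nat.even_or_odd' L with ⟨n, hn | hn⟩
    · subst hn
      have hn1 : 1 ≤ n := by omega
      have hn0 : (0 : ℝ) < n := by exact_mod_cast hn1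
      have h := hevn n hn1
      have h2 : (((2 * n : ℕ) : ℝ)) = 2 * n := by push_cast; ring
      rw [h2]
      refine le_trans h ?_
      rw [div_le_div_iff₀ hn0 (by positivity)]
      have := hpos 1 le_rfl
      nlinarith
    · rcases Nat.eq_zero_or_pos n with hn0 | hn1
      · subst hn0
        simp only [Nat.mul_zero, Nat.zero_add] at hn
        subst hn
        have := hpos 1 le_rfl
        simp only [Nat.cast_one, one_mul, div_one]
        rw [abs_le]
        constructor <;> nlinarith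
      · subst hn
        have hn0 : (0 : ℝ) < n := by exact_mod_cast hn1
        have hn1' : (1 : ℝ) ≤ n := by exact_mod_cast hn1
        have h1 := hevn n hn1
        have h2 := hevn (n + 1) (by omega)
        have h3 := hant (2 * n) (by omega)
        have h4 := hant (2 * n + 1) (by omega)
        have h5 : 2 * n + 1 + 1 = 2 * (n + 1) := by ring
        rw [h5] at h4
        have e1 : (((2 * n + 1 : ℕ) : ℝ)) = 2 * n + 1 := by push_cast; ring
        rw [e1]
        rw [abs_le] at h1 h2 ⊢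
        obtain ⟨h1a, h1b⟩ := h1
        obtain ⟨h2a, h2b⟩ := h2
        push_cast at h2a h2b
        have h6 : C0 / n = C0 * (1 / n) := by ring
        have h7 : C0 / (n + 1) ≤ C0 / n := by gcongr; linarith
        have h8 : c (2 * n) ≤ (√3 / 4 + C0 / n) / (2 * n) := by
          rw [le_div_iff₀ (by positivity)]
          linarith
        have h9 : C0 / n ≤ C0 := div_le_self hC0' hn1'
        have h10 : c (2 * n) ≤ (1 + C0) / (2 * n) := le_trans h8 (by gcongr; linarith)
        have h11 : (2 * n + 1) * c (2 * n + 1) ≤ √3 / 4 + C0 / n + (1 + C0) / (2 * n) := by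
          have : (2 * (n : ℝ) + 1) * c (2 * n + 1) ≤ (2 * n + 1) * c (2 * n) := by gcongr
          nlinarith
        have h12 : √3 / 4 - C0 / n - (1 + C0) / (2 * n) ≤ (2 * n + 1) * c (2 * n + 1) := by
          have h13 : (2 * (n : ℝ) + 1) * c (2 * (n + 1)) ≤ (2 * n + 1) * c (2 * n + 1) := by gcongr
          have h14 : c (2 * (n + 1)) ≤ c (2 * n) := le_trans h4 h3
          nlinarith
        have h15 : C0 / n + (1 + C0) / (2 * n) ≤ C1 / (2 * n + 1) := by
          rw [div_add_div _ _ (by positivity) (by positivity), div_le_div_iff₀ (by positivity) (by positivity)]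
          have := hpos 1 le_rfl
          rw [hC1]
          nlinarith [mul_nonneg hC0' (sq_nonneg ((n : ℝ) - 1)), mul_pos hn0 hn0, mul_nonneg hC0' hn0.le,
            mul_nonneg hC0' (mul_nonneg hn0.le hn0.le), mul_nonneg this (mul_nonneg hn0.le hn0.le)]
        constructor <;> linarith
  have hD : ∀ L : ℕ, 1 ≤ L → L * c L ≤ 1 + C1 := fun L hL1 => by
    have hL0 : (1 : ℝ) ≤ L := by exact_mod_cast hL1
    have h := (abs_le.1 (hL L hL1)).2
    have h2 : C1 / L ≤ C1 := div_le_self hC1' hL0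
    linarith
  obtain ⟨C2, hC2⟩ := unif (D := 1 + C1)
  refine ⟨c, max C1 C2, le_trans hC1' (le_max_left _ _), hev, fun L hL1 => ?_, fun L hL1 K => ?_⟩
  · refine le_trans (hL L hL1) ?_
    gcongr
    exact le_max_left _ _
  · rw [EN_eq hL1]
    exact le_trans (hC2 L (c L) hL1 (hc L hL1) (hD L hL1) K) (le_max_right _ _)

end NX
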