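import Pool.Agent.Lib.MP_216314_pr.N.ZE
import Pool.Agent.Lib.MP_216314_pr.N.KI
import Pool.Agent.Lib.MP_216314_pr.H.HEvt

/-!
# From the tiles to the square lattice

`phi m`, `chi m`, `psiE m`, `map_tl` (files `H/HMap`, `H/HEvt`): the site `(X,h)` is the point with `x + y = 1 - X`, `x - y = h - 2m`; the tiles `tls n (4m) = tl n m` are the edges of `dst (2n) (2m)`.
`Cs_of_Cw`, `Cw_of_Cs`: as `Cs_of_Cn`, `Cn_of_Cs` in `H/HEvt` (same proofs without the wired column: `Cw ∅ c` has only the generators of the open tiles).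
`nc_tiles`: both sides count classes: the classes of `Cw ∅ c` on `sts n (4m)` which meet `sA` and `sB`, and the clusters of the edges `c.map (psiE m)` which meet the lines `x + y = 0`, `x + y = -2n`. `cr r V A B = ((A.image (cl r V)) ∩ (B.image (cl r V))).card`
`= (((A.filter (fun u => ∃ w ∈ B, r u w)).image (cl r V))).card`. The map `u ↦ phi m u` from `sA` with `∃ w ∈ sB, Cw ∅ c u w` to the vertices with `Cx`; inverse `chi m` (`chi_phi`; `phi m (chi m v) = v` for `v` in the region `-2n ≤ sm v ≤ 0`, `-2m ≤ df v ≤ 2m`); it preserves the equivalence relations. (`n ≥ 1`, so the ends of a crossing are different and belong to edges: `vs_conn`, `vs_DR`.)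
For the equality of the numbers of classes prove two inequalities with an injection of classes, or `Finset.card_bij`.
`ff_tiles`: the bijection `c ↦ c.map (psiE m)` from the subsets of `tls n (4m)` to the subsets of `dst (2n) (2m) = DR (-2n) 0 (-2m) (2m)` (`map_tl`, `dst_DR`).
-/

set_option autoImplicit false

noncomputable section

namespace NX

open Finset FKI FKP FKH Classical

theorem tls_tl (n m : ℕ) : tls n (4 * m) = tl n m := rfl

theorem Cs_of_Cw {n m : ℕ} {c : Finset (ℕ × ℕ)} (hc : c ⊆ tl n m) {u v : ℕ × ℕ} (h : Cw ∅ c u v) : Cs n m c (phi m u) (phi m v) := by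
  induction h with
  | rel x y h =>
    rcases h with ⟨t, ht, h1, h2⟩ | ⟨h1, _⟩
    · rw [← h1, ← h2]
      exact Cs_edge hc ht
    · exact absurd h1 (Set.notMem_empty x)
  | refl x => exact Conn.refl _ _ _
  | symm x y _ ih => exact Conn.symm ih
  | trans x y z _ _ ih1 ih2 => exact Conn.trans ih1 ih2

theorem Cw_of_Cs {n m : ℕ} {c : Finset (ℕ × ℕ)} {u v : V} (h : Cs n m c u v) : Cw ∅ c (chi m u) (chi m v) := by
  obtain ⟨p⟩ := h
  induction p with
  | nil => exact (Cw_equiv ∅ c).refl _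
  | @cons u v w hadj p ih =>
    refine (Cw_equiv ∅ c).trans ?_ ih
    obtain ⟨e, he, hends⟩ := pexit_adj hadj
    rw [mem_inter, mem_map] at he
    obtain ⟨⟨t, ht, rfl⟩, _⟩ := he
    have h1 : Cw ∅ c (lo t) (hi t) := Relation.EqvGen.rel _ _ (Or.inl ⟨t, ht, rfl, rfl⟩)
    have h1' : Cw ∅ c (hi t) (lo t) := (Cw_equiv ∅ c).symm h1
    have e1 := chi_phi m (lo_odd t)
    have e2 := chi_phi m (hi_odd t)
    have hp : psiE m t = psi m t := rfl
    rw [hp] at hends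
    rcases psi_ends m t with ⟨h2, h3⟩ | ⟨h2, h3⟩
    · rcases hends with ⟨h4, h5⟩ | ⟨h4, h5⟩
      · rw [← h4, ← h5, h2, h3, e1, e2]
        exact h1
      · rw [← h4, ← h5, h2, h3, e1, e2]
        exact h1'
    · rcases hends with ⟨h4, h5⟩ | ⟨h4, h5⟩
      · rw [← h4, ← h5, h2, h3, e1, e2]
        exact h1'
      · rw [← h4, ← h5, h2, h3, e1, e2]
        exact h1

theorem ZT1_cl {α : Type*} {r : α → α → Prop} (hr : Equivalence r) {V : Finset α} {u v : α}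
    (hv : v ∈ V) : cl r V u = cl r V v ↔ r u v := by
  constructor
  · intro h
    have h1 : v ∈ cl r V v := Finset.mem_filter.2 ⟨hv, hr.refl v⟩
    rw [← h] at h1
    exact (Finset.mem_filter.1 h1).2
  · intro h
    exact Finset.filter_congr fun w _ => ⟨fun h1 => hr.trans (hr.symm h) h1, fun h1 => hr.trans h h1⟩

theorem ZT1_cr0 {α : Type*} {r : α → α → Prop}
    (hr : Equivalence r) {V A B T : Finset α} (hB : B ⊆ V)
    (hT : ∀ u, u ∈ T ↔ u ∈ A ∧ ∃ w ∈ B, r u w) :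
    cr r V A B = (T.image (cl r V)).card := by
  unfold cr
  apply congrArg Finset.card
  ext C
  rw [mem_inter, mem_image, mem_image, mem_image]
  constructor
  · rintro ⟨⟨u, hu, e1⟩, ⟨w, hw, e2⟩⟩
    refine ⟨u, (hT u).2 ⟨hu, w, hw, ?_⟩, e1⟩
    rw [← ZT1_cl hr (hB hw), e1, e2]
  · rintro ⟨u, hu, e1⟩
    obtain ⟨h1, w, hw, h2⟩ := (hT u).1 hu
    refine ⟨⟨u, h1, e1⟩, ⟨w, hw, ?_⟩⟩
    rw [← e1, eq_comm]
    exact (ZT1_cl hr (hB hw)).2 h2

theorem ZT1_cr {α : Type*} {i : DecidableEq (Finset α)} {r : α → α → Prop}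
    (hr : Equivalence r) {V A B T : Finset α} (hB : B ⊆ V)
    (hT : ∀ u, u ∈ T ↔ u ∈ A ∧ ∃ w ∈ B, r u w) :
    cr r V A B = (@Finset.image _ _ i (cl r V) T).card := by
  rw [ZT1_cr0 hr hB hT]
  have h : ∀ j k : DecidableEq (Finset α), (@Finset.image _ _ j (cl r V) T).card =
      (@Finset.image _ _ k (cl r V) T).card := by
    intro j k
    rw [Subsingleton.elim j k]
  exact h _ _

theorem ZT1_inj {α β γ δ : Type*} [DecidableEq γ] [DecidableEq δ] [Nonempty γ]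
    {S : Finset α} {T : Finset β} (F : α → γ) (G : β → δ)
    (R : α → β → Prop) (hk : ∀ t ∈ T, ∃ s ∈ S, R s t)
    (h : ∀ t ∈ T, ∀ t' ∈ T, ∀ s ∈ S, ∀ s' ∈ S, R s t → R s' t' → F s = F s' → G t = G t') :
    (T.image G).card ≤ (S.image F).card := by
  have h1 : ∀ D ∈ T.image G, ∃ C : γ, ∃ s ∈ S, ∃ t ∈ T, F s = C ∧ G t = D ∧ R s t := by
    intro D hD
    obtain ⟨t, ht, htD⟩ := Finset.mem_image.1 hD
    obtain ⟨s, hs, hst⟩ := hk t ht
    exact ⟨F s, s, hs, t, ht, rfl, htD, hst⟩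
  choose! g hg using h1
  refine Finset.card_le_card_of_injOn g ?_ ?_
  · intro D hD
    obtain ⟨s, hs, t, _, e1, _, _⟩ := hg D hD
    exact Finset.mem_coe.2 (Finset.mem_image.2 ⟨s, hs, e1⟩)
  · intro D hD D' hD' he
    obtain ⟨s, hs, t, ht, e1, e2, e3⟩ := hg D hD
    obtain ⟨s', hs', t', ht', e1', e2', e3'⟩ := hg D' hD'
    rw [← e2, ← e2']
    exact h t ht t' ht' s hs s' hs' e3 e3' (by rw [e1, e1', he])

theorem ZT1_sts {n H : ℕ} {u : ℕ × ℕ} : u ∈ sts n H ↔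
    (1 ≤ u.1 ∧ u.1 ≤ 2 * n + 1) ∧ u.2 ≤ H ∧ (u.1 + u.2) % 2 = 1 := by
  unfold sts
  rw [Finset.mem_filter, mem_product, mem_Icc, mem_range, Nat.lt_succ_iff]
  tauto

theorem nc_tiles {n m : ℕ} (hn : 1 ≤ n) {c : Finset (ℕ × ℕ)} (hc : c ⊆ tl n m) :
    nc (DR (-((2 * n : ℕ) : ℤ)) 0 (-((2 * m : ℕ) : ℤ)) (2 * m : ℕ)) (c.map (psiE m)) LA (LB (2 * n)) =
      cr (Cw ∅ c) (sts n (4 * m)) (sA n (4 * m)) (sB n (4 * m)) := by
  have hD := dst_DR (2 * n) (2 * m)
  have hconn : ∀ u v : V, Conn (DR (-((2 * n : ℕ) : ℤ)) 0 (-((2 * m : ℕ) : ℤ)) (2 * m : ℕ))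
      (c.map (psiE m)) u v ↔ Cs n m c u v := by
    intro u v
    rw [← hD]
    exact Iff.rfl
  obtain ⟨T, hT0⟩ : ∃ T : Finset (ℕ × ℕ), ∀ u, u ∈ T ↔
      u ∈ sA n (4 * m) ∧ ∃ w ∈ sB n (4 * m), Cw ∅ c u w :=
    ⟨(sA n (4 * m)).filter _, fun u => Finset.mem_filter⟩
  rw [ZT1_cr (i := inferInstance) (V := sts n (4 * m)) (A := sA n (4 * m)) (B := sB n (4 * m))
    (Cw_equiv ∅ c) (Finset.filter_subset _ _) hT0]
  unfold nc np
  obtain ⟨F, hF⟩ : ∃ F, F = DR (-((2 * n : ℕ) : ℤ)) 0 (-((2 * m : ℕ) : ℤ)) (2 * m : ℕ) := ⟨_, rfl⟩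
  rw [← hF] at hconn ⊢
  -- sites of the two columns
  have hA : ∀ {u : ℕ × ℕ}, u ∈ sA n (4 * m) → (u.1 + u.2) % 2 = 1 ∧ u.1 = 1 ∧ phi m u ∈ LA := by
    intro u hu
    obtain ⟨h1, h2⟩ := Finset.mem_filter.1 hu
    have h3 := ZT1_sts.1 h1
    refine ⟨h3.2.2, h2, ?_⟩
    show (phi m u).1 + (phi m u).2 = 0
    unfold phi
    simp only
    omega
  have hBs : ∀ {u : ℕ × ℕ}, u ∈ sB n (4 * m) → (u.1 + u.2) % 2 = 1 ∧ phi m u ∈ LB (2 * n) := by
    intro u hu
    obtain ⟨h1, h2⟩ := Finset.mem_filter.1 hu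
    have h3 := ZT1_sts.1 h1
    refine ⟨h3.2.2, ?_⟩
    show (phi m u).1 + (phi m u).2 = -((2 * n : ℕ) : ℤ)
    unfold phi
    simp only
    push_cast
    omega
  have hne : ∀ {v w : V}, v ∈ LA → w ∈ LB (2 * n) → v ≠ w := by
    intro v w hv hw he
    subst he
    have h1 : v.1 + v.2 = 0 := hv
    have h2 : v.1 + v.2 = -((2 * n : ℕ) : ℤ) := hw
    rw [h1] at h2
    push_cast at h2
    omega
  -- from the tiles to the lattice
  have hT : ∀ {u : ℕ × ℕ}, u ∈ T →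
      phi m u ∈ (vs F).filter (Cx F (c.map (psiE m)) LA (LB (2 * n))) := by
    intro u hu
    obtain ⟨h1, w, hw, h2⟩ := (hT0 u).1 hu
    have h3 : Conn F (c.map (psiE m)) (phi m u) (phi m w) := (hconn _ _).2 (Cs_of_Cw hc h2)
    have h4 := vs_conn h3 (hne (hA h1).2.2 (hBs hw).2)
    exact Finset.mem_filter.2 ⟨h4.1, h4.1, (hA h1).2.2, phi m w, (hBs hw).2, h3⟩
  -- from the lattice to the tiles
  have hreg : ∀ {v : V}, v ∈ vs F → ((-((2 * n : ℕ) : ℤ) ≤ v.1 + v.2 ∧ v.1 + v.2 ≤ 0) ∧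
      (-((2 * m : ℕ) : ℤ) ≤ v.1 - v.2 ∧ v.1 - v.2 ≤ ((2 * m : ℕ) : ℤ))) := by
    intro v hv
    rw [hF] at hv
    exact vs_DR hv
  have hpc : ∀ {v : V}, v ∈ vs F → phi m (chi m v) = v := by
    intro v hv
    have h1 := hreg hv
    push_cast at h1
    unfold phi chi
    simp only
    rw [Prod.ext_iff]
    simp only
    omega
  have hst : ∀ {v : V}, v ∈ vs F → chi m v ∈ sts n (4 * m) := by
    intro v hv
    have h1 := hreg hv
    push_cast at h1
    rw [ZT1_sts]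
    unfold chi
    simp only
    omega
  have hS : ∀ {v : V}, v ∈ (vs F).filter (Cx F (c.map (psiE m)) LA (LB (2 * n))) →
      chi m v ∈ T ∧ v ∈ vs F := by
    intro v hv
    obtain ⟨h1, -, h2, w, hw, h3⟩ := Finset.mem_filter.1 hv
    have h4 := vs_conn h3 (hne h2 hw)
    refine ⟨(hT0 _).2 ⟨Finset.mem_filter.2 ⟨hst h1, ?_⟩, chi m w,
      Finset.mem_filter.2 ⟨hst h4.2, ?_⟩, Cw_of_Cs ((hconn _ _).1 h3)⟩, h1⟩
    · have h5 : v.1 + v.2 = 0 := h2
      unfold chi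
      simp only
      omega
    · have h5 : w.1 + w.2 = -((2 * n : ℕ) : ℤ) := hw
      push_cast at h5
      unfold chi
      simp only
      omega
  have hTs : ∀ {u : ℕ × ℕ}, u ∈ T →
      u ∈ sts n (4 * m) ∧ (u.1 + u.2) % 2 = 1 := by
    intro u hu
    have h1 := ((hT0 u).1 hu).1
    exact ⟨(Finset.mem_filter.1 h1).1, (hA h1).1⟩
  apply le_antisymm
  · refine ZT1_inj (cl (Cw ∅ c) (sts n (4 * m))) (ck F (c.map (psiE m)))
      (fun t s => phi m t = s) ?_ ?_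
    · intro s hs
      exact ⟨chi m s, (hS hs).1, hpc (hS hs).2⟩
    · intro s hs s' hs' t ht t' ht' e e' h
      subst e
      subst e'
      rw [ck_eq (hS hs').2, hconn]
      exact Cs_of_Cw hc ((ZT1_cl (Cw_equiv ∅ c) (hTs ht').1).1 h)
  · refine ZT1_inj (ck F (c.map (psiE m))) (cl (Cw ∅ c) (sts n (4 * m)))
      (fun s t => phi m t = s) ?_ ?_
    · intro t ht
      exact ⟨phi m t, hT ht, rfl⟩
    · intro t ht t' ht' s hs s' hs' e e' h
      subst e
      subst e'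
      rw [ck_eq (hS hs').2, hconn] at h
      have h1 := Cw_of_Cs h
      rw [chi_phi m (hTs ht).2, chi_phi m (hTs ht').2] at h1
      exact (ZT1_cl (Cw_equiv ∅ c) (hTs ht').1).2 h1

end NX
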